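import Mathlib

/-!
# Rational triangles, their unfoldings and their Veech groups: definitions

* a triangle is given by its three vertices `v : Fin 3 → ℂ`;
* `G v` is the group generated by the linear parts of the reflections in its three sides;
* `Surf v` is the unfolding of the triangle: the quotient of `G v × T` obtained by gluing,
  for every `g` and every side, the copies `g T` and `g r T` along this side
  (`r` the reflection in this side);
* `IsAffine A φ`: the homeomorphism `φ` of the unfolding is affine with derivative `A`;
* `veech v`: the Veech group; `LatticeTriangle v`: the lattice property.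
-/

open scoped ComplexConjugate Topology MatrixGroups UpperHalfPlane
open MeasureTheory

namespace Pool.Agent.OBT

noncomputable section

/-- The closed triangle with vertices `v 0`, `v 1`, `v 2`. -/
def body (v : Fin 3 → ℂ) : Set ℂ := convexHull ℝ (Set.range v)

/-- The side opposite to the vertex `v k`. -/
def edge (v : Fin 3 → ℂ) (k : Fin 3) : Set ℂ := segment ℝ (v (k + 1)) (v (k + 2))

/-- The linear part of the reflection in the side opposite to `v k`: the reflection of `ℂ`
in the real line spanned by the direction of this side. -/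
def refl (v : Fin 3 → ℂ) (k : Fin 3) : ℂ ≃ₗᵢ[ℝ] ℂ := (ℝ ∙ (v (k + 2) - v (k + 1))).reflection

/-- The group generated by the linear parts of the reflections in the three sides. -/
def G (v : Fin 3 → ℂ) : Subgroup (ℂ ≃ₗᵢ[ℝ] ℂ) := Subgroup.closure (Set.range (refl v))

/-- The three reflections as elements of `G v`. -/
def r (v : Fin 3 → ℂ) (k : Fin 3) : G v := ⟨refl v k, Subgroup.subset_closure ⟨k, rfl⟩⟩

/-- The gluing: the point `x` of the side `k` of the copy `g` is identified with the same point
of the copy `g r_k`. -/
inductive Glue (v : Fin 3 → ℂ) : G v × body v → G v × body v → Prop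
  | mk (g : G v) (x : body v) (k : Fin 3) (hx : (x : ℂ) ∈ edge v k) : Glue v (g, x) (g * r v k, x)

/-- The unfolding of the triangle (Katok-Zemlyakov construction). -/
def Surf (v : Fin 3 → ℂ) : Type := Quot (Glue v)

/-- The point of the unfolding given by the point `x` of the copy `g`. -/
def Surf.mk {v : Fin 3 → ℂ} (g : G v) (x : body v) : Surf v := Quot.mk (Glue v) (g, x)

/-- The quotient topology (the group `G v` has the discrete topology). -/
instance (v : Fin 3 → ℂ) : TopologicalSpace (Surf v) :=
  TopologicalSpace.coinduced (fun p : G v × body v => Surf.mk p.1 p.2)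
    (@instTopologicalSpaceProd (G v) (body v) ⊥ inferInstance)

/-- The action of a matrix in `SL(2, ℝ)` on the plane `ℂ = ℝ²`. -/
def act (A : SL(2, ℝ)) (z : ℂ) : ℂ :=
  ⟨A 0 0 * z.re + A 0 1 * z.im, A 1 0 * z.re + A 1 1 * z.im⟩

/-- The homeomorphism `φ` of the unfolding is affine with derivative `A`: for all points `ξ` and all
points `η` close to `ξ`, the displacement from `φ ξ` to `φ η`, measured in a copy of the triangle which
contains both of them, is the image under `A` of the displacement from `ξ` to `η`. -/
def IsAffine {v : Fin 3 → ℂ} (A : SL(2, ℝ)) (φ : Surf v ≃ₜ Surf v) : Prop :=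
  ∀ ξ : Surf v, ∀ᶠ η in 𝓝 ξ, ∃ (g g' : G v) (x y x' y' : body v),
    Surf.mk g x = ξ ∧ Surf.mk g y = η ∧ Surf.mk g' x' = φ ξ ∧ Surf.mk g' y' = φ η ∧
      (g' : ℂ ≃ₗᵢ[ℝ] ℂ) ((y' : ℂ) - x') = act A ((g : ℂ ≃ₗᵢ[ℝ] ℂ) ((y : ℂ) - x))

/-- The Veech group: the group (generated by the set, in fact equal to the set) of the derivatives of
the orientation-preserving affine homeomorphisms of the unfolding. -/
def veech (v : Fin 3 → ℂ) : Subgroup SL(2, ℝ) :=
  Subgroup.closure {A | ∃ φ : Surf v ≃ₜ Surf v, IsAffine A φ}

/-- A subgroup of `SL(2, ℝ)` is a lattice if it is discrete and has a measurable set of finite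
hyperbolic area whose translates cover the upper half plane. -/
def IsLatticeSubgroup (Γ : Subgroup SL(2, ℝ)) : Prop :=
  DiscreteTopology Γ ∧ ∃ F : Set ℍ, MeasurableSet F ∧ volume F < ⊤ ∧ ∀ z : ℍ, ∃ γ ∈ Γ, γ • z ∈ F

/-- The lattice property of a triangle. -/
def LatticeTriangle (v : Fin 3 → ℂ) : Prop := IsLatticeSubgroup (veech v)

end

end Pool.Agent.OBT
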