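import Mathlib
import Pool.Agent.OBT.Defs

/-!
# The action of `SL(2, ℝ)` on the plane in complex coordinates
-/

open scoped ComplexConjugate Topology MatrixGroups UpperHalfPlane
open MeasureTheory

namespace Pool.Agent.OBT

noncomputable section

/-- the complex-linear part of `A` -/
def ca (A : SL(2, ℝ)) : ℂ := ⟨(A 0 0 + A 1 1) / 2, (A 1 0 - A 0 1) / 2⟩

/-- the antilinear part of `A` -/
def cb (A : SL(2, ℝ)) : ℂ := ⟨(A 0 0 - A 1 1) / 2, (A 1 0 + A 0 1) / 2⟩

theorem Act_det (A : SL(2, ℝ)) : A 0 0 * A 1 1 - A 0 1 * A 1 0 = 1 := by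
  have h := A.det_coe
  rw [Matrix.det_fin_two] at h
  exact h

theorem act_eq (A : SL(2, ℝ)) (z : ℂ) : act A z = ca A * z + cb A * conj z := by
  apply Complex.ext
  · simp [act, ca, cb]
    ring
  · simp [act, ca, cb]
    ring

theorem act_one (z : ℂ) : act 1 z = z := by
  apply Complex.ext <;> simp [act]

theorem act_mul (A B : SL(2, ℝ)) (z : ℂ) : act (A * B) z = act A (act B z) := by
  apply Complex.ext
  · simp [act, Matrix.mul_apply, Fin.sum_univ_two]
    ring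
  · simp [act, Matrix.mul_apply, Fin.sum_univ_two]
    ring

theorem act_inv_act (A : SL(2, ℝ)) (z : ℂ) : act A⁻¹ (act A z) = z := by
  rw [← act_mul, inv_mul_cancel, act_one]

theorem norm_ca_cb (A : SL(2, ℝ)) : ca A * conj (ca A) - cb A * conj (cb A) = 1 := by
  have h := Act_det A
  apply Complex.ext
  · simp [ca, cb]
    linarith
  · simp [ca, cb]
    ring

theorem Act_normSq (A : SL(2, ℝ)) : Complex.normSq (ca A) - Complex.normSq (cb A) = 1 := by
  have h := norm_ca_cb A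
  rw [Complex.mul_conj, Complex.mul_conj] at h
  exact_mod_cast h

theorem ca_ne_zero (A : SL(2, ℝ)) : ca A ≠ 0 := by
  intro h
  have h1 := Act_normSq A
  rw [h, Complex.normSq_zero] at h1
  have h2 := Complex.normSq_nonneg (cb A)
  linarith

theorem norm_cb_div_ca_lt_one (A : SL(2, ℝ)) : ‖cb A / ca A‖ < 1 := by
  have h1 := Act_normSq A
  rw [norm_div, div_lt_one (norm_pos_iff.2 (ca_ne_zero A))]
  rw [Complex.normSq_eq_norm_sq, Complex.normSq_eq_norm_sq] at h1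
  nlinarith [norm_nonneg (cb A), norm_nonneg (ca A)]

/-- the point `b/a` of the unit disc in terms of the orbit point `A⁻¹ i` -/
theorem cb_div_ca (A : SL(2, ℝ)) :
    cb A / ca A = -conj ((((A⁻¹ • (UpperHalfPlane.I : ℍ) : ℍ) : ℂ) - Complex.I) /
      (((A⁻¹ • (UpperHalfPlane.I : ℍ) : ℍ) : ℂ) + Complex.I)) := by
  have hd := Act_det A
  have h00 : (A⁻¹) 0 0 = A 1 1 := by
    rw [Matrix.SpecialLinearGroup.SL2_inv_expl]; rfl
  have h01 : (A⁻¹) 0 1 = -A 0 1 := by
    rw [Matrix.SpecialLinearGroup.SL2_inv_expl]; rfl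
  have h10 : (A⁻¹) 1 0 = -A 1 0 := by
    rw [Matrix.SpecialLinearGroup.SL2_inv_expl]; rfl
  have h11 : (A⁻¹) 1 1 = A 0 0 := by
    rw [Matrix.SpecialLinearGroup.SL2_inv_expl]; rfl
  have hw : ((A⁻¹ • (UpperHalfPlane.I : ℍ) : ℍ) : ℂ) =
      ((A 1 1 : ℂ) * Complex.I - A 0 1) / (-(A 1 0 : ℂ) * Complex.I + A 0 0) := by
    rw [UpperHalfPlane.coe_specialLinearGroup_apply]
    simp only [h00, h01, h10, h11]
    simp
    ring
  have hden : (-(A 1 0 : ℂ) * Complex.I + A 0 0) ≠ 0 := by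
    intro h
    have h1 := congrArg Complex.re h
    have h2 := congrArg Complex.im h
    simp at h1 h2
    rw [h1, h2] at hd
    simp at hd
  have hca := ca_ne_zero A
  have hm : ((A⁻¹ • (UpperHalfPlane.I : ℍ) : ℍ) : ℂ) - Complex.I =
      conj (Complex.I * (2 * cb A)) / (-(A 1 0 : ℂ) * Complex.I + A 0 0) := by
    rw [hw, eq_div_iff hden, sub_mul, div_mul_cancel₀ _ hden]
    apply Complex.ext
    · simp [cb]; ring
    · simp [cb]; ring
  have hp : ((A⁻¹ • (UpperHalfPlane.I : ℍ) : ℍ) : ℂ) + Complex.I =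
      conj (-Complex.I * (2 * ca A)) / (-(A 1 0 : ℂ) * Complex.I + A 0 0) := by
    rw [hw, eq_div_iff hden, add_mul, div_mul_cancel₀ _ hden]
    apply Complex.ext
    · simp [ca]; ring
    · simp [ca]; ring
  rw [hm, hp, div_div_div_cancel_right₀ hden, map_div₀, Complex.conj_conj, Complex.conj_conj]
  field_simp

theorem Act_bound (A : SL(2, ℝ)) (z : ℂ) : ‖act A z‖ ≤ (‖ca A‖ + ‖cb A‖) * ‖z‖ := by
  rw [act_eq, add_mul]
  refine (norm_add_le _ _).trans ?_
  rw [norm_mul, norm_mul, RCLike.norm_conj]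

theorem norm_act_le (A : SL(2, ℝ)) : ∃ C : ℝ, 0 < C ∧ ∀ z : ℂ, ‖act A z‖ ≤ C * ‖z‖ ∧
    ‖z‖ ≤ C * ‖act A z‖ := by
  refine ⟨(‖ca A‖ + ‖cb A‖) + (‖ca A⁻¹‖ + ‖cb A⁻¹‖) + 1, by positivity, fun z => ⟨?_, ?_⟩⟩
  · refine (Act_bound A z).trans (mul_le_mul_of_nonneg_right ?_ (norm_nonneg _))
    have h1 := norm_nonneg (ca A⁻¹)
    have h2 := norm_nonneg (cb A⁻¹)
    linarith
  · have h := Act_bound A⁻¹ (act A z)
    rw [act_inv_act] at h
    refine h.trans (mul_le_mul_of_nonneg_right ?_ (norm_nonneg _))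
    have h1 := norm_nonneg (ca A)
    have h2 := norm_nonneg (cb A)
    linarith

end

end Pool.Agent.OBT
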