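import Mathlib
import Pool.Agent.OBT.Defs

/-!
# The unfolding: equality of points, projection to the triangle, displacements
-/

open scoped ComplexConjugate Topology MatrixGroups UpperHalfPlane
open MeasureTheory

namespace Pool.Agent.OBT

noncomputable section

variable {v : Fin 3 → ℂ}

/-- The subgroup generated by the reflections in the sides through `x`. -/
def Hx (v : Fin 3 → ℂ) (x : ℂ) : Subgroup (G v) :=
  Subgroup.closure {h | ∃ k, x ∈ edge v k ∧ h = r v k}

theorem edge_subset_body (k : Fin 3) : edge v k ⊆ body v :=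
  segment_subset_convexHull ⟨_, rfl⟩ ⟨_, rfl⟩

theorem vert_mem_body (k : Fin 3) : v k ∈ body v :=
  subset_convexHull ℝ _ ⟨k, rfl⟩

theorem isCompact_body : IsCompact (body v) :=
  (Set.finite_range v).isCompact_convexHull ℝ

theorem convex_body : Convex ℝ (body v) := convex_convexHull ℝ _

theorem isClosed_edge (k : Fin 3) : IsClosed (edge v k) := by
  unfold edge
  rw [← convexHull_pair]
  exact ((Set.toFinite {v (k + 1), v (k + 2)}).isCompact_convexHull ℝ).isClosed

theorem refl_refl (k : Fin 3) (z : ℂ) : refl v k (refl v k z) = z :=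
  Submodule.reflection_reflection _ z

theorem r_mul_self (k : Fin 3) : r v k * r v k = 1 := by
  apply Subtype.ext
  rw [Subgroup.coe_mul, Subgroup.coe_one]
  exact Submodule.reflection_mul_reflection _

/-- the reflection in a side fixes differences of points of this side -/
theorem refl_sub_of_mem_edge {k : Fin 3} {x y : ℂ} (hx : x ∈ edge v k) (hy : y ∈ edge v k) :
    refl v k (y - x) = y - x := by
  apply Submodule.reflection_mem_subspace_eq_self
  obtain ⟨a, b, ha, hb, hab, rfl⟩ := hx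
  obtain ⟨a', b', ha', hb', hab', rfl⟩ := hy
  have h : a' • v (k + 1) + b' • v (k + 2) - (a • v (k + 1) + b • v (k + 2))
      = (b' - b) • (v (k + 2) - v (k + 1)) := by
    have h1 : a' = 1 - b' := by linarith
    have h2 : a = 1 - b := by linarith
    rw [h1, h2]
    module
  rw [h]
  exact Submodule.smul_mem _ _ (Submodule.mem_span_singleton_self _)

private theorem Quo_mk_mul (x : body v) {h : G v} (hh : h ∈ Hx v (x : ℂ)) :
    ∀ g : G v, Surf.mk (g * h) x = Surf.mk g x := by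
  unfold Hx at hh
  induction hh using Subgroup.closure_induction with
  | mem y hy =>
    obtain ⟨k, hk, rfl⟩ := hy
    exact fun g => (Quot.sound (Glue.mk g x k hk)).symm
  | one => exact fun g => by rw [mul_one]
  | mul a b _ _ iha ihb => exact fun g => by rw [← mul_assoc, ihb, iha]
  | inv a _ iha => exact fun g => by rw [← iha (g * a⁻¹), inv_mul_cancel_right]

private theorem Quo_eqv {p q : G v × body v} (h : Relation.EqvGen (Glue v) p q) :
    p.2 = q.2 ∧ p.1⁻¹ * q.1 ∈ Hx v (p.2 : ℂ) := by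
  induction h with
  | rel a b hab =>
    obtain ⟨g, x, k, hx⟩ := hab
    refine ⟨rfl, ?_⟩
    change g⁻¹ * (g * r v k) ∈ Hx v (x : ℂ)
    rw [inv_mul_cancel_left]
    exact Subgroup.subset_closure ⟨k, hx, rfl⟩
  | refl a => exact ⟨rfl, by rw [inv_mul_cancel]; exact Subgroup.one_mem _⟩
  | symm a b _ ih =>
    refine ⟨ih.1.symm, ?_⟩
    rw [← ih.1]
    have h := Subgroup.inv_mem _ ih.2
    rwa [mul_inv_rev, inv_inv] at h
  | trans a b c _ _ ih1 ih2 =>
    refine ⟨ih1.1.trans ih2.1, ?_⟩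
    have h2 := ih2.2
    rw [← ih1.1] at h2
    have h := Subgroup.mul_mem _ ih1.2 h2
    rwa [mul_assoc, mul_inv_cancel_left] at h

theorem mk_eq_iff (g g' : G v) (x x' : body v) :
    Surf.mk g x = Surf.mk g' x' ↔ x = x' ∧ g⁻¹ * g' ∈ Hx v (x : ℂ) := by
  constructor
  · intro h
    exact Quo_eqv (Quot.eqvGen_exact h)
  · rintro ⟨rfl, h⟩
    have h1 := Quo_mk_mul x h g
    rw [mul_inv_cancel_left] at h1
    exact h1.symm

theorem mk_surjective (ξ : Surf v) : ∃ (g : G v) (x : body v), Surf.mk g x = ξ := by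
  obtain ⟨⟨g, x⟩, h⟩ := Quot.exists_rep ξ
  exact ⟨g, x, h⟩

theorem mk_mul_r (g : G v) (x : body v) (k : Fin 3) (hx : (x : ℂ) ∈ edge v k) :
    Surf.mk (g * r v k) x = Surf.mk g x :=
  (Quot.sound (Glue.mk g x k hx)).symm

/-- the projection of the unfolding to the triangle -/
def proj (ξ : Surf v) : body v := (Quot.out ξ).2

theorem proj_mk (g : G v) (x : body v) : proj (Surf.mk g x) = x := by
  have h : Surf.mk (Quot.out (Surf.mk g x)).1 (Quot.out (Surf.mk g x)).2 = Surf.mk g x :=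
    Quot.out_eq (Surf.mk g x)
  exact ((mk_eq_iff _ _ _ _).1 h).1

theorem continuous_proj : Continuous (proj : Surf v → body v) := by
  let _ : TopologicalSpace (G v) := ⊥
  refine continuous_coinduced_dom.2 ?_
  have h : (proj : Surf v → body v) ∘ (fun p : G v × body v => Surf.mk p.1 p.2) = Prod.snd := by
    funext p
    exact proj_mk p.1 p.2
  rw [h]
  exact continuous_snd

theorem continuous_mk (g : G v) : Continuous (fun x : body v => Surf.mk g x) := by
  let _ : TopologicalSpace (G v) := ⊥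
  have h : Continuous (fun p : G v × body v => Surf.mk p.1 p.2) := continuous_coinduced_rng
  exact h.comp (Continuous.prodMk_right g)

/-- the copies close to `ξ` -/
private def Quo_S (ξ : Surf v) (g : G v) (y : body v) : Prop :=
  Surf.mk g (proj ξ) = ξ ∧ ∀ k, (y : ℂ) ∈ edge v k → ((proj ξ : body v) : ℂ) ∈ edge v k

private theorem Quo_Hx_mono {ξ : Surf v} {g : G v} {y : body v} (h : Quo_S ξ g y) :
    Hx v (y : ℂ) ≤ Hx v ((proj ξ : body v) : ℂ) := by
  unfold Hx
  apply Subgroup.closure_mono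
  rintro _ ⟨k, hk, rfl⟩
  exact ⟨k, h.2 k hk, rfl⟩

private theorem Quo_S_sat {ξ : Surf v} {g g' : G v} {y y' : body v} (h : Quo_S ξ g y)
    (he : Surf.mk g y = Surf.mk g' y') : Quo_S ξ g' y' := by
  obtain ⟨rfl, h1⟩ := (mk_eq_iff _ _ _ _).1 he
  refine ⟨?_, h.2⟩
  have h2 := Quo_mk_mul (proj ξ) (Quo_Hx_mono h h1) g
  rw [mul_inv_cancel_left] at h2
  rw [h2]
  exact h.1

private theorem Quo_isOpen (ξ : Surf v) :
    IsOpen {η : Surf v | ∀ (g : G v) (y : body v), Surf.mk g y = η → Quo_S ξ g y} := by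
  let _ : TopologicalSpace (G v) := ⊥
  have hd : DiscreteTopology (G v) := ⟨rfl⟩
  refine isOpen_coinduced.2 ?_
  have h1 : (fun p : G v × body v => Surf.mk p.1 p.2) ⁻¹'
      {η : Surf v | ∀ (g : G v) (y : body v), Surf.mk g y = η → Quo_S ξ g y}
      = {g : G v | Surf.mk g (proj ξ) = ξ} ×ˢ
        {y : body v | ∀ k, (y : ℂ) ∈ edge v k → ((proj ξ : body v) : ℂ) ∈ edge v k} := by
    ext ⟨g, y⟩
    constructor
    · intro h
      have h2 := h g y rfl
      exact ⟨h2.1, h2.2⟩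
    · rintro ⟨h2, h3⟩ g' y' h4
      exact Quo_S_sat (ξ := ξ) (g := g) (y := y) ⟨h2, h3⟩ h4.symm
  rw [h1]
  refine (isOpen_discrete _).prod ?_
  have h2 : {y : body v | ∀ k, (y : ℂ) ∈ edge v k → ((proj ξ : body v) : ℂ) ∈ edge v k}
      = ⋂ k : Fin 3, {y : body v | (y : ℂ) ∈ edge v k → ((proj ξ : body v) : ℂ) ∈ edge v k} := by
    ext y
    simp only [Set.mem_ofPred_eq, Set.mem_iInter]
  rw [h2]
  refine isOpen_iInter_of_finite fun k => ?_
  by_cases h3 : ((proj ξ : body v) : ℂ) ∈ edge v k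
  · have h4 : {y : body v | (y : ℂ) ∈ edge v k → ((proj ξ : body v) : ℂ) ∈ edge v k} = Set.univ := by
      ext y
      simp only [Set.mem_ofPred_eq, Set.mem_univ, iff_true]
      exact fun _ => h3
    rw [h4]
    exact isOpen_univ
  · have h4 : {y : body v | (y : ℂ) ∈ edge v k → ((proj ξ : body v) : ℂ) ∈ edge v k}
        = (fun y : body v => (y : ℂ)) ⁻¹' (edge v k)ᶜ := by
      ext y
      constructor
      · exact fun h h5 => h3 (h h5)
      · exact fun h h5 => absurd h5 h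
    rw [h4]
    exact (isClosed_edge k).isOpen_compl.preimage continuous_subtype_val

private theorem Quo_near (ξ : Surf v) : ∀ᶠ η in 𝓝 ξ, ∀ (g : G v) (y : body v),
    Surf.mk g y = η → Quo_S ξ g y := by
  refine (Quo_isOpen ξ).mem_nhds ?_
  intro g y h
  have h1 : proj ξ = y := by rw [← h, proj_mk]
  refine ⟨by rw [h1, h], fun k hk => by rw [h1]; exact hk⟩

private theorem Quo_fix {x y : body v} (hxy : ∀ k, (y : ℂ) ∈ edge v k → (x : ℂ) ∈ edge v k)
    {h : G v} (hh : h ∈ Hx v (y : ℂ)) :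
    (h : ℂ ≃ₗᵢ[ℝ] ℂ) ((y : ℂ) - x) = (y : ℂ) - x := by
  unfold Hx at hh
  induction hh using Subgroup.closure_induction with
  | mem a ha =>
    obtain ⟨k, hk, rfl⟩ := ha
    exact refl_sub_of_mem_edge (hxy k hk) hk
  | one => rfl
  | mul a b _ _ iha ihb =>
    change (a : ℂ ≃ₗᵢ[ℝ] ℂ) ((b : ℂ ≃ₗᵢ[ℝ] ℂ) ((y : ℂ) - x)) = _
    rw [ihb, iha]
  | inv a _ iha =>
    change (a : ℂ ≃ₗᵢ[ℝ] ℂ).symm ((y : ℂ) - x) = _
    rw [LinearIsometryEquiv.symm_apply_eq]
    exact iha.symm

/-- every copy of the triangle containing a point close to `ξ` contains `ξ` -/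
theorem near_mk (ξ : Surf v) : ∀ᶠ η in 𝓝 ξ, ∀ (g : G v) (y : body v),
    Surf.mk g y = η → Surf.mk g (proj ξ) = ξ := by
  filter_upwards [Quo_near ξ] with η h g y h1
  exact (h g y h1).1

/-- displacements of close points do not depend on the chosen copy of the triangle -/
theorem disp_unique (ξ : Surf v) : ∀ᶠ η in 𝓝 ξ, ∀ (g g' : G v) (x y x' y' : body v),
    Surf.mk g x = ξ → Surf.mk g y = η → Surf.mk g' x' = ξ → Surf.mk g' y' = η →
      (g : ℂ ≃ₗᵢ[ℝ] ℂ) ((y : ℂ) - x) = (g' : ℂ ≃ₗᵢ[ℝ] ℂ) ((y' : ℂ) - x') := by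
  filter_upwards [Quo_near ξ] with η h g g' x y x' y' h1 h2 h3 h4
  have hx : proj ξ = x := by rw [← h1, proj_mk]
  have hx' : proj ξ = x' := by rw [← h3, proj_mk]
  obtain ⟨hy, h5⟩ := (mk_eq_iff _ _ _ _).1 (h2.trans h4.symm)
  subst hy
  rw [hx] at hx'
  subst hx'
  have h6 : ∀ k, (y : ℂ) ∈ edge v k → (x : ℂ) ∈ edge v k := by
    intro k hk
    have h7 := (h g y h2).2 k hk
    rwa [hx] at h7
  have h7 := Quo_fix h6 h5
  have h8 : (g' : ℂ ≃ₗᵢ[ℝ] ℂ) = (g : ℂ ≃ₗᵢ[ℝ] ℂ) * ((g⁻¹ * g' : G v) : ℂ ≃ₗᵢ[ℝ] ℂ) := by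
    have h9 : g' = g * (g⁻¹ * g') := by rw [mul_inv_cancel_left]
    exact congrArg Subtype.val h9
  rw [h8]
  change _ = (g : ℂ ≃ₗᵢ[ℝ] ℂ) (((g⁻¹ * g' : G v) : ℂ ≃ₗᵢ[ℝ] ℂ) ((y : ℂ) - x))
  rw [h7]

end

end Pool.Agent.OBT
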