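import Mathlib
import Pool.Agent.OBT.Quo

/-!
# Boundedness and integrability on a triangle from growth at the vertices
-/

open scoped ComplexConjugate Topology Real
open MeasureTheory Filter

namespace Pool.Agent.OBT

variable {v : Fin 3 → ℂ}

theorem BigO_pow_ball {p : ℝ} (hp : -2 < p) (s : ℂ) :
    IntegrableOn (fun y : ℂ => ‖y - s‖ ^ p) (Metric.ball s 1) := by
  have h1 : IntegrableOn (fun y : ℂ => (fun t : ℝ => t ^ p) ‖y‖) (Metric.ball (0 : ℂ) 1) := by
    refine (integrableOn_fun_norm_addHaar (volume : Measure ℂ)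
      (f := fun t : ℝ => t ^ p) (r := 1)).2 ?_
    rw [Complex.finrank_real_complex]
    have h2 : IntegrableOn (fun y : ℝ => y ^ (p + 1)) (Set.Ioo 0 1) :=
      (intervalIntegral.integrableOn_Ioo_rpow_iff zero_lt_one).2 (by linarith)
    refine h2.congr_fun (fun y hy => ?_) measurableSet_Ioo
    show y ^ (p + 1) = y ^ (2 - 1) • y ^ p
    rw [Real.rpow_add_one hy.1.ne', smul_eq_mul, mul_comm]
    norm_num
  have h3 := (measurePreserving_sub_right (volume : Measure ℂ) s).integrableOn_comp_preimage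
    (Homeomorph.subRight s).measurableEmbedding
    (f := fun y : ℂ => ‖y‖ ^ p) (s := Metric.ball (0 : ℂ) 1)
  have h4 : (fun y : ℂ => y - s) ⁻¹' (Metric.ball (0 : ℂ) 1) = Metric.ball s 1 := by
    ext y
    simp [Metric.mem_ball, dist_eq_norm]
  rw [h4] at h3
  exact h3.2 h1

theorem BigO_integrableAt {p : ℝ} (hp : -2 < p) (s : ℂ) :
    IntegrableAtFilter (fun y : ℂ => ‖y - s‖ ^ p) (𝓝 s) :=
  ⟨Metric.ball s 1, Metric.ball_mem_nhds s one_pos, BigO_pow_ball hp s⟩

theorem BigO_measurable {S : Set ℂ} (hS : S.Finite) : MeasurableSet (body v \ S) :=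
  (isCompact_body.isClosed.measurableSet).diff hS.measurableSet

/-- The general integrability statement. -/
theorem BigO_integrable {E : Type*} [NormedAddCommGroup E] {f : ℂ → E} {S : Set ℂ}
    (hS : S.Finite) (hc : ContinuousOn f (body v \ S))
    (h : ∀ s ∈ S, ∃ p : ℝ, -2 < p ∧ f =O[𝓝[body v \ S] s] (fun y => ‖y - s‖ ^ p)) :
    IntegrableOn f (body v) := by
  refine LocallyIntegrableOn.integrableOn_isCompact ?_ isCompact_body
  intro x hx
  have hm : MeasurableSet (body v \ S) := BigO_measurable hS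
  have : (𝓝[body v \ S] x).IsMeasurablyGenerated := hm.nhdsWithin_isMeasurablyGenerated _
  have h1 : IntegrableAtFilter f (𝓝[body v \ S] x) := by
    by_cases hxS : x ∈ S
    · obtain ⟨p, hp, hO⟩ := h x hxS
      refine hO.integrableAtFilter ⟨_, self_mem_nhdsWithin, hc.aestronglyMeasurable hm⟩ ?_
      exact (BigO_integrableAt hp x).filter_mono nhdsWithin_le_nhds
    · exact hc.integrableAt_nhdsWithin hm ⟨hx, hxS⟩
  obtain ⟨t, ht, hti⟩ := h1
  have h2 : IntegrableOn f S := by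
    refine IntegrableOn.of_measure_zero ?_
    exact hS.measure_zero _
  refine ⟨t ∪ S, ?_, integrableOn_union.2 ⟨hti, h2⟩⟩
  rw [mem_nhdsWithin] at ht ⊢
  obtain ⟨u, hu1, hu2, hu3⟩ := ht
  refine ⟨u, hu1, hu2, ?_⟩
  rintro y ⟨hy1, hy2⟩
  by_cases hy : y ∈ S
  · exact Or.inr hy
  · exact Or.inl (hu3 ⟨hy1, hy2, hy⟩)

theorem bdd_of_bigO {f : ℂ → ℂ} {S : Set ℂ} (hS : S.Finite)
    (hc : ContinuousOn f (body v \ S))
    (h : ∀ s ∈ S, f =O[𝓝[body v \ S] s] (fun _ => (1 : ℝ))) :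
    ∃ C : ℝ, ∀ y ∈ body v \ S, ‖f y‖ ≤ C := by
  have key : ∃ C : ℝ, ∀ y ∈ body v, y ∈ body v \ S → ‖f y‖ ≤ C := by
    refine IsCompact.induction_on (p := fun K : Set ℂ => ∃ C : ℝ, ∀ y ∈ K, y ∈ body v \ S →
      ‖f y‖ ≤ C) isCompact_body ⟨0, fun y hy => absurd hy (Set.notMem_empty y)⟩ ?_ ?_ ?_
    · rintro s t hst ⟨C, hC⟩
      exact ⟨C, fun y hy => hC y (hst hy)⟩
    · rintro s t ⟨C, hC⟩ ⟨D, hD⟩
      refine ⟨max C D, fun y hy hy2 => ?_⟩
      rcases hy with hy | hy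
      · exact (hC y hy hy2).trans (le_max_left _ _)
      · exact (hD y hy hy2).trans (le_max_right _ _)
    · intro x hx
      have h1 : ∃ C : ℝ, ∀ᶠ y in 𝓝[body v \ S] x, ‖f y‖ ≤ C := by
        by_cases hxS : x ∈ S
        · obtain ⟨C, hC⟩ := (h x hxS).bound
          refine ⟨C, hC.mono fun y hy => ?_⟩
          rwa [norm_one, mul_one] at hy
        · have h2 : ContinuousWithinAt f (body v \ S) x := hc x ⟨hx, hxS⟩
          refine ⟨‖f x‖ + 1, ?_⟩
          have h3 := h2.norm.eventually (gt_mem_nhds (lt_add_one ‖f x‖))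
          exact h3.mono fun y hy => le_of_lt hy
      obtain ⟨C, hC⟩ := h1
      refine ⟨{y | y ∈ body v \ S → ‖f y‖ ≤ C}, ?_, C, fun y hy hy2 => hy hy2⟩
      exact mem_nhdsWithin_of_mem_nhds (eventually_nhdsWithin_iff.1 hC)
  obtain ⟨C, hC⟩ := key
  exact ⟨C, fun y hy => hC y hy.1 hy⟩

theorem memLp_of_bigO {f : ℂ → ℂ} {S : Set ℂ} (hS : S.Finite)
    (hc : ContinuousOn f (body v \ S))
    (h : ∀ s ∈ S, ∃ p : ℝ, -1 < p ∧ f =O[𝓝[body v \ S] s] (fun y => ‖y - s‖ ^ p)) :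
    MemLp f 2 (volume.restrict (body v)) := by
  have hm : MeasurableSet (body v \ S) := BigO_measurable hS
  have h1 : AEStronglyMeasurable f (volume.restrict (body v)) := by
    have h2 : AEStronglyMeasurable f (volume.restrict (body v \ S)) :=
      hc.aestronglyMeasurable hm
    have h3 : (volume : Measure ℂ).restrict (body v \ S) = volume.restrict (body v) := by
      apply Measure.restrict_congr_set
      exact sdiff_null_ae_eq_self (hS.measure_zero _)
    rwa [h3] at h2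
  rw [memLp_two_iff_integrable_sq_norm h1]
  refine BigO_integrable (f := fun y => ‖f y‖ ^ 2) hS (hc.norm.pow 2) ?_
  intro s hs
  obtain ⟨p, hp, hO⟩ := h s hs
  refine ⟨p * 2, by linarith, ?_⟩
  have h4 := hO.norm_left.pow 2
  refine h4.trans (Asymptotics.IsBigO.of_bound 1 (Eventually.of_forall fun y => ?_))
  rw [one_mul, ← Real.rpow_natCast (‖y - s‖ ^ p) 2, ← Real.rpow_mul (norm_nonneg _)]
  exact le_refl _

theorem integrable_of_bigO {f : ℂ → ℂ} {S : Set ℂ} (hS : S.Finite)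
    (hc : ContinuousOn f (body v \ S))
    (h : ∀ s ∈ S, ∃ p : ℝ, -2 < p ∧ f =O[𝓝[body v \ S] s] (fun y => ‖y - s‖ ^ p)) :
    IntegrableOn f (body v) :=
  BigO_integrable hS hc h

end Pool.Agent.OBT
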