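import Mathlib
import Pool.Agent.OBT.Quo
import Pool.Agent.OBT.Act

/-!
# Families of functions on the copies of the triangle; pull back by affine homeomorphisms
-/

open scoped ComplexConjugate Topology MatrixGroups UpperHalfPlane
open MeasureTheory

namespace Pool.Agent.OBT

noncomputable section

variable {v : Fin 3 → ℂ}

/-- the real-linear map `h ↦ p h + q h̄` -/
def DD (p q : ℂ) : ℂ →L[ℝ] ℂ :=
  p • (ContinuousLinearMap.id ℝ ℂ) + q • (Complex.conjCLE : ℂ ≃L[ℝ] ℂ).toContinuousLinearMap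

@[simp] theorem DD_apply (p q h : ℂ) : DD p q h = p * h + q * conj h := by
  simp [DD]

/-- the same in the coordinate `g y` of the copy `g` -/
def DG (g : G v) (p q : ℂ) : ℂ →L[ℝ] ℂ :=
  (DD p q).comp ((g : ℂ ≃ₗᵢ[ℝ] ℂ).toContinuousLinearEquiv : ℂ →L[ℝ] ℂ)

@[simp] theorem DG_apply (g : G v) (p q h : ℂ) :
    DG g p q h = p * (g : ℂ ≃ₗᵢ[ℝ] ℂ) h + q * conj ((g : ℂ ≃ₗᵢ[ℝ] ℂ) h) := by
  simp [DG]

/-- the family `Q` is compatible with the gluings outside `S` -/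
def Compat (S : Set ℂ) (Q : G v → ℂ → ℂ) : Prop :=
  ∀ (g : G v) (k : Fin 3), ∀ y ∈ edge v k \ S, Q (g * r v k) y = Q g y

/-- the function on the unfolding given by a compatible family -/
def desc (Q : G v → ℂ → ℂ) (ξ : Surf v) : ℂ := Q (Quot.out ξ).1 ((Quot.out ξ).2 : ℂ)

theorem Fam_Hx {S : Set ℂ} {Q : G v → ℂ → ℂ} (h : Compat S Q) (y : ℂ) (hy : y ∉ S)
    (a : G v) (ha : a ∈ Hx v y) : ∀ g : G v, Q (g * a) y = Q g y := by
  unfold Hx at ha
  induction ha using Subgroup.closure_induction with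
  | mem a ha =>
    obtain ⟨k, hk, rfl⟩ := ha
    intro g
    exact h g k y ⟨hk, hy⟩
  | one => intro g; rw [mul_one]
  | mul a b _ _ iha ihb =>
    intro g
    rw [← mul_assoc, ihb, iha]
  | inv a _ iha =>
    intro g
    have := iha (g * a⁻¹)
    rw [inv_mul_cancel_right] at this
    exact this.symm

theorem desc_mk {S : Set ℂ} {Q : G v → ℂ → ℂ} (h : Compat S Q) (g : G v) (y : body v)
    (hy : (y : ℂ) ∉ S) : desc Q (Surf.mk g y) = Q g y := by
  have hout : Surf.mk g y = Surf.mk (Quot.out (Surf.mk g y)).1 (Quot.out (Surf.mk g y)).2 :=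
    (Quot.out_eq (Surf.mk g y)).symm
  obtain ⟨h1, h2⟩ := (mk_eq_iff _ _ _ _).1 hout
  unfold desc
  rw [← h1]
  have h3 := Fam_Hx h (y : ℂ) hy _ h2 g
  rw [mul_inv_cancel_left] at h3
  exact h3

/-- pull back of a family by a homeomorphism -/
def pull (φ : Surf v ≃ₜ Surf v) (Q : G v → ℂ → ℂ) (g : G v) (y : ℂ) : ℂ :=
  open Classical in if h : y ∈ body v then desc Q (φ (Surf.mk g ⟨y, h⟩)) else 0

theorem pull_eq {S : Set ℂ} {Q : G v → ℂ → ℂ} (hQ : Compat S Q) (φ : Surf v ≃ₜ Surf v)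
    (g g' : G v) (y y' : body v) (h : Surf.mk g' y' = φ (Surf.mk g y)) (hy : (y' : ℂ) ∉ S) :
    pull φ Q g y = Q g' y' := by
  unfold pull
  rw [dif_pos y.2]
  have hyy : (⟨(y : ℂ), y.2⟩ : body v) = y := rfl
  rw [hyy, ← h]
  exact desc_mk hQ g' y' hy

theorem compat_pull (φ : Surf v ≃ₜ Surf v) (Q : G v → ℂ → ℂ) (S : Set ℂ) :
    Compat S (pull φ Q) := by
  intro g k y hy
  have hb : y ∈ body v := edge_subset_body k hy.1
  unfold pull
  rw [dif_pos hb, dif_pos hb, mk_mul_r g ⟨y, hb⟩ k hy.1]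

end

end Pool.Agent.OBT
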