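import Mathlib
import Pool.Agent.OBT.Fam

/-!
# Chain rule for the pull back by an affine homeomorphism
-/

open scoped ComplexConjugate Topology MatrixGroups UpperHalfPlane
open MeasureTheory

namespace Pool.Agent.OBT

noncomputable section

variable {v : Fin 3 → ℂ}

/-- near `y` an affine homeomorphism is given by its derivative, in a copy through the image point -/
theorem Chain_key {A : SL(2, ℝ)} {φ : Surf v ≃ₜ Surf v} (hφ : IsAffine A φ) (g : G v)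
    (y : body v) : ∀ᶠ z in 𝓝 y, ∃ (g' : G v) (z' : body v),
      Surf.mk g' (proj (φ (Surf.mk g y))) = φ (Surf.mk g y) ∧
      Surf.mk g' z' = φ (Surf.mk g z) ∧
      (g' : ℂ ≃ₗᵢ[ℝ] ℂ) ((z' : ℂ) - (proj (φ (Surf.mk g y)) : body v)) =
        act A ((g : ℂ ≃ₗᵢ[ℝ] ℂ) ((z : ℂ) - y)) := by
  have h1 := (continuous_mk g).tendsto y |>.eventually (hφ (Surf.mk g y))
  have h2 := (continuous_mk g).tendsto y |>.eventually (disp_unique (Surf.mk g y))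
  filter_upwards [h1, h2] with z hz1 hz2
  obtain ⟨g1, g', x, y1, x', y1', e1, e2, e3, e4, e5⟩ := hz1
  have e6 : proj (φ (Surf.mk g y)) = x' := by rw [← e3, proj_mk]
  refine ⟨g', y1', ?_, e4, ?_⟩
  · rw [e6, e3]
  · rw [e6, e5, hz2 g1 g x y1 y z e1 e2 rfl rfl]

theorem Chain_within {y : body v} {P : ℂ → Prop} (h : ∀ᶠ z : body v in 𝓝 y, P z) :
    ∀ᶠ z in 𝓝[body v] (y : ℂ), P z := by
  rw [nhdsWithin_eq_map_subtype_coe y.2, Filter.eventually_map]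
  exact h

theorem Chain_ball {y : body v} {P : ℂ → Prop} {s : Set ℂ} (h : ∀ᶠ z in 𝓝[s] (y : ℂ), P z) :
    ∃ δ > 0, ∀ w ∈ s, ‖w - (y : ℂ)‖ < δ → P w := by
  rw [Metric.nhdsWithin_basis_ball.eventually_iff] at h
  obtain ⟨δ, hδ, h⟩ := h
  exact ⟨δ, hδ, fun w hw hwd => h ⟨by rwa [Metric.mem_ball, dist_eq_norm], hw⟩⟩

/-- **Chain rule** for an affine homeomorphism. -/
theorem hasFDerivWithinAt_pull [Finite (G v)] {A : SL(2, ℝ)} {φ : Surf v ≃ₜ Surf v}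
    (hφ : IsAffine A φ) {S : Set ℂ} (hS : IsClosed S) {Q Q1 Q2 : G v → ℂ → ℂ}
    (hQ : Compat S Q) (hQ1 : Compat S Q1) (hQ2 : Compat S Q2)
    (hd : ∀ g, ∀ y ∈ body v \ S, HasFDerivWithinAt (Q g) (DG g (Q1 g y) (Q2 g y)) (body v) y)
    (g : G v) (y : body v) (hy : (proj (φ (Surf.mk g y)) : ℂ) ∉ S) :
    HasFDerivWithinAt (pull φ Q g)
      (DG g (ca A * pull φ Q1 g y + conj (cb A) * pull φ Q2 g y)
        (cb A * pull φ Q1 g y + conj (ca A) * pull φ Q2 g y)) (body v) y := by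
  obtain ⟨C, hC, hCA⟩ := norm_act_le A
  obtain ⟨y0, hy0⟩ : ∃ y0, y0 = proj (φ (Surf.mk g y)) := ⟨_, rfl⟩
  rw [← hy0] at hy
  rw [hasFDerivWithinAt_iff_isLittleO, Asymptotics.isLittleO_iff]
  intro c hc
  have h1 : ∀ᶠ w in 𝓝[body v] (y0 : ℂ), ∀ g' : G v,
      ‖Q g' w - Q g' y0 - DG g' (Q1 g' y0) (Q2 g' y0) (w - y0)‖ ≤ c / C * ‖w - y0‖ := by
    rw [Filter.eventually_all]
    intro g'
    have h2 := hd g' y0 ⟨y0.2, hy⟩
    rw [hasFDerivWithinAt_iff_isLittleO, Asymptotics.isLittleO_iff] at h2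
    exact h2 (by positivity)
  obtain ⟨δ, hδ, hδ'⟩ := Chain_ball h1
  obtain ⟨δ2, hδ2, hδ2'⟩ : ∃ δ2 > 0, ∀ w : ℂ, ‖w - (y0 : ℂ)‖ < δ2 → w ∉ S := by
    obtain ⟨ε, hε, h3⟩ := Metric.isOpen_iff.1 hS.isOpen_compl _ hy
    exact ⟨ε, hε, fun w hw => h3 (by rwa [Metric.mem_ball, dist_eq_norm])⟩
  refine Chain_within ?_
  have hnear : ∀ᶠ z : body v in 𝓝 y, ‖(z : ℂ) - y‖ < min δ δ2 / C := by
    have hcont : Filter.Tendsto (fun z : body v => ‖(z : ℂ) - y‖) (𝓝 y) (𝓝 ‖(y : ℂ) - y‖) :=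
      ((continuous_subtype_val.sub continuous_const).norm).tendsto y
    rw [sub_self, norm_zero] at hcont
    exact hcont.eventually (gt_mem_nhds (by positivity))
  filter_upwards [Chain_key hφ g y, hnear] with z hz hzn
  obtain ⟨g', z', e1, e2, e3⟩ := hz
  rw [← hy0] at e1 e3
  have e4 : ‖(z' : ℂ) - y0‖ ≤ C * ‖(z : ℂ) - y‖ := by
    have h4 := (hCA ((g : ℂ ≃ₗᵢ[ℝ] ℂ) ((z : ℂ) - y))).1
    rw [← e3, LinearIsometryEquiv.norm_map, LinearIsometryEquiv.norm_map] at h4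
    exact h4
  have e5 : ‖(z' : ℂ) - y0‖ < min δ δ2 := by
    refine e4.trans_lt ?_
    rw [mul_comm]
    exact (lt_div_iff₀ hC).1 hzn
  have e6 : (z' : ℂ) ∉ S := hδ2' _ (e5.trans_le (min_le_right _ _))
  have p0 : pull φ Q g z = Q g' z' := pull_eq hQ φ g g' z z' e2 e6
  have p1 : pull φ Q g y = Q g' y0 := pull_eq hQ φ g g' y y0 e1 hy
  have p2 : pull φ Q1 g y = Q1 g' y0 := pull_eq hQ1 φ g g' y y0 e1 hy
  have p3 : pull φ Q2 g y = Q2 g' y0 := pull_eq hQ2 φ g g' y y0 e1 hy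
  have h5 := hδ' z' z'.2 (e5.trans_le (min_le_left _ _)) g'
  rw [p0, p1, p2, p3]
  have e7 : DG g (ca A * Q1 g' y0 + conj (cb A) * Q2 g' y0)
        (cb A * Q1 g' y0 + conj (ca A) * Q2 g' y0) ((z : ℂ) - y) =
      DG g' (Q1 g' y0) (Q2 g' y0) ((z' : ℂ) - y0) := by
    rw [DG_apply, DG_apply, e3, act_eq, map_add, map_mul, map_mul, Complex.conj_conj]
    ring
  rw [e7]
  refine h5.trans ?_
  calc c / C * ‖(z' : ℂ) - y0‖ ≤ c / C * (C * ‖(z : ℂ) - y‖) := by gcongr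
    _ = c * ‖(z : ℂ) - y‖ := by field_simp

theorem continuousWithinAt_pull [Finite (G v)] (φ : Surf v ≃ₜ Surf v) {S : Set ℂ}
    (hS : IsClosed S) {Q : G v → ℂ → ℂ} (hQ : Compat S Q)
    (hc : ∀ g, ContinuousOn (Q g) (body v \ S))
    (g : G v) (y : body v) (hy : (proj (φ (Surf.mk g y)) : ℂ) ∉ S) :
    ContinuousWithinAt (pull φ Q g) (body v) y := by
  obtain ⟨y0, hy0⟩ : ∃ y0, y0 = proj (φ (Surf.mk g y)) := ⟨_, rfl⟩
  rw [ContinuousWithinAt, Metric.tendsto_nhds]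
  intro ε hε
  have h1 : ∀ᶠ w in 𝓝[body v \ S] (y0 : ℂ), ∀ g' : G v, dist (Q g' w) (Q g' y0) < ε := by
    rw [Filter.eventually_all]
    intro g'
    have h2 := hc g' y0 ⟨y0.2, by rw [hy0]; exact hy⟩
    rw [ContinuousWithinAt, Metric.tendsto_nhds] at h2
    exact h2 ε hε
  obtain ⟨δ, hδ, hδ'⟩ := Chain_ball h1
  have hcont : Continuous (fun z : body v => ((proj (φ (Surf.mk g z)) : body v) : ℂ)) :=
    continuous_subtype_val.comp (continuous_proj.comp (φ.continuous.comp (continuous_mk g)))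
  have h3 : ∀ᶠ z in 𝓝 y, ((proj (φ (Surf.mk g z)) : body v) : ℂ) ∉ S :=
    hcont.tendsto y |>.eventually (hS.isOpen_compl.mem_nhds hy)
  have h4 : ∀ᶠ z in 𝓝 y, ‖((proj (φ (Surf.mk g z)) : body v) : ℂ) - y0‖ < δ := by
    have h5 : Filter.Tendsto (fun z : body v => ‖((proj (φ (Surf.mk g z)) : body v) : ℂ) - y0‖)
        (𝓝 y) (𝓝 ‖((proj (φ (Surf.mk g y)) : body v) : ℂ) - y0‖) :=
      ((hcont.sub continuous_const).norm).tendsto y
    rw [← hy0, sub_self, norm_zero] at h5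
    exact h5.eventually (gt_mem_nhds hδ)
  have h6 : ∀ᶠ z in 𝓝 y, ∀ (g' : G v) (z' : body v),
      Surf.mk g' z' = φ (Surf.mk g z) → Surf.mk g' y0 = φ (Surf.mk g y) := by
    have h7 : Filter.Tendsto (fun z : body v => φ (Surf.mk g z)) (𝓝 y) (𝓝 (φ (Surf.mk g y))) :=
      (φ.continuous.comp (continuous_mk g)).tendsto y
    rw [hy0]
    exact h7.eventually (near_mk (φ (Surf.mk g y)))
  refine Chain_within ?_
  filter_upwards [h3, h4, h6] with z hz3 hz4 hz6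
  obtain ⟨g', z', e2⟩ := mk_surjective (φ (Surf.mk g z))
  have e1 := hz6 g' z' e2
  have e3 : proj (φ (Surf.mk g z)) = z' := by rw [← e2, proj_mk]
  rw [e3] at hz3 hz4
  have p0 : pull φ Q g z = Q g' z' := pull_eq hQ φ g g' z z' e2 hz3
  have p1 : pull φ Q g y = Q g' y0 :=
    pull_eq hQ φ g g' y y0 e1 (by rw [hy0]; exact hy)
  rw [p0, p1]
  exact hδ' z' ⟨z'.2, hz3⟩ hz4 g'

end

end Pool.Agent.OBT
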