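import Mathlib
import Pool.Agent.OBT.Quo
import Pool.Agent.OBT.Act

/-!
# The derivatives of affine homeomorphisms form a group
-/

open scoped ComplexConjugate Topology MatrixGroups UpperHalfPlane
open MeasureTheory

namespace Pool.Agent.OBT

variable {v : Fin 3 → ℂ}

theorem isAffine_refl : IsAffine (v := v) 1 (Homeomorph.refl (Surf v)) := by
  intro ξ
  filter_upwards [near_mk ξ] with η hη
  obtain ⟨g, y, hy⟩ := mk_surjective η
  exact ⟨g, g, proj ξ, y, proj ξ, y, hη g y hy, hy, hη g y hy, hy, (act_one _).symm⟩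

theorem isAffine_symm {A : SL(2, ℝ)} {φ : Surf v ≃ₜ Surf v} (h : IsAffine A φ) :
    IsAffine A⁻¹ φ.symm := by
  intro ξ
  have hc : Filter.Tendsto φ.symm (𝓝 ξ) (𝓝 (φ.symm ξ)) := φ.symm.continuous.tendsto ξ
  filter_upwards [hc.eventually (h (φ.symm ξ))] with η hη
  obtain ⟨g, g', x, y, x', y', h1, h2, h3, h4, h5⟩ := hη
  rw [Homeomorph.apply_symm_apply] at h3 h4
  exact ⟨g', g, x', y', x, y, h3, h4, h1, h2, by rw [h5, act_inv_act]⟩

theorem isAffine_trans {A B : SL(2, ℝ)} {φ ψ : Surf v ≃ₜ Surf v} (h : IsAffine A φ)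
    (h' : IsAffine B ψ) : IsAffine (B * A) (φ.trans ψ) := by
  intro ξ
  have hc : Filter.Tendsto φ (𝓝 ξ) (𝓝 (φ ξ)) := φ.continuous.tendsto ξ
  filter_upwards [h ξ, hc.eventually (h' (φ ξ)), hc.eventually (disp_unique (φ ξ))]
    with η hη hη' hd
  obtain ⟨g, g', x, y, x', y', h1, h2, h3, h4, h5⟩ := hη
  obtain ⟨k, k', p, q, p', q', h1', h2', h3', h4', h5'⟩ := hη'
  have h6 := hd g' k x' y' p q h3 h4 h1' h2'
  exact ⟨g, k', x, y, p', q', h1, h2, h3', h4', by rw [act_mul, ← h5, h6, h5']⟩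

theorem mem_veech_iff (A : SL(2, ℝ)) :
    A ∈ veech v ↔ ∃ φ : Surf v ≃ₜ Surf v, IsAffine A φ := by
  constructor
  · intro h
    unfold veech at h
    induction h using Subgroup.closure_induction with
    | mem x hx => exact hx
    | one => exact ⟨_, isAffine_refl⟩
    | mul x y _ _ hx hy =>
      obtain ⟨φ, hφ⟩ := hx
      obtain ⟨ψ, hψ⟩ := hy
      exact ⟨_, isAffine_trans hψ hφ⟩
    | inv x _ hx =>
      obtain ⟨φ, hφ⟩ := hx
      exact ⟨_, isAffine_symm hφ⟩
  · intro h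
    exact Subgroup.subset_closure h

end Pool.Agent.OBT
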