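import Mathlib
import Pool.Agent.OBT.Grp

/-!
# Displacements, regular points, uniqueness of continuation
-/

open scoped ComplexConjugate Topology MatrixGroups UpperHalfPlane
open MeasureTheory Filter

namespace Pool.Agent.OBT

noncomputable section

variable {v : Fin 3 → ℂ}

/-- `d` is the displacement from `ξ` to `η`, measured in a copy of the triangle containing both. -/
def Dsp (ξ η : Surf v) (d : ℂ) : Prop :=
  ∃ (g : G v) (x y : body v), Surf.mk g x = ξ ∧ Surf.mk g y = η ∧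
    (g : ℂ ≃ₗᵢ[ℝ] ℂ) ((y : ℂ) - x) = d

/-- regular points: the displacement from `ξ` is injective close to `ξ` -/
def Rg (ξ : Surf v) : Prop :=
  ∃ U ∈ 𝓝 ξ, ∀ η ∈ U, ∀ η' ∈ U, ∀ d : ℂ, Dsp ξ η d → Dsp ξ η' d → η = η'

instance t2Space_surf : T2Space (Surf v) := by
  rw [t2Space_iff_disjoint_nhds]
  intro ξ η hne
  by_cases hp : proj ξ = proj η
  · rw [Filter.disjoint_iff]
    refine ⟨_, near_mk ξ, _, near_mk η, ?_⟩
    rw [Set.disjoint_left]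
    intro ζ h1 h2
    obtain ⟨g, y, hy⟩ := mk_surjective ζ
    have e1 : Surf.mk g (proj ξ) = ξ := h1 g y hy
    have e2 : Surf.mk g (proj η) = η := h2 g y hy
    rw [hp, e2] at e1
    exact hne e1.symm
  · have h : Disjoint (𝓝 (proj ξ)) (𝓝 (proj η)) := disjoint_nhds_nhds.2 hp
    exact (Filter.disjoint_comap (m := (proj : Surf v → body v)) h).mono
      (map_le_iff_le_comap.1 continuous_proj.continuousAt)
      (map_le_iff_le_comap.1 continuous_proj.continuousAt)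

theorem dsp_self (ξ : Surf v) : Dsp ξ ξ 0 := by
  obtain ⟨g, x, hx⟩ := mk_surjective ξ
  exact ⟨g, x, x, hx, hx, by rw [sub_self, map_zero]⟩

theorem dsp_unique (ξ : Surf v) :
    ∀ᶠ η in 𝓝 ξ, ∀ d d' : ℂ, Dsp ξ η d → Dsp ξ η d' → d = d' := by
  filter_upwards [disp_unique ξ] with η h d d' hd hd'
  obtain ⟨g, x, y, h1, h2, h3⟩ := hd
  obtain ⟨g', x', y', h1', h2', h3'⟩ := hd'
  rw [← h3, ← h3']
  exact h g g' x y x' y' h1 h2 h1' h2'

theorem dsp_norm {ξ η : Surf v} {d : ℂ} (h : Dsp ξ η d) :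
    ‖((proj η : body v) : ℂ) - (proj ξ : body v)‖ = ‖d‖ := by
  obtain ⟨g, x, y, h1, h2, h3⟩ := h
  rw [← h3, LinearIsometryEquiv.norm_map, ← h1, ← h2, proj_mk, proj_mk]

/-- close points have a displacement -/
theorem exists_dsp (ξ : Surf v) : ∀ᶠ η in 𝓝 ξ, ∃ d : ℂ, Dsp ξ η d := by
  filter_upwards [near_mk ξ] with η h
  obtain ⟨g, y, hy⟩ := mk_surjective η
  exact ⟨_, g, proj ξ, y, h g y hy, hy, rfl⟩

theorem IsAffine.dsp {A : SL(2, ℝ)} {φ : Surf v ≃ₜ Surf v} (h : IsAffine A φ) (ξ : Surf v) :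
    ∀ᶠ η in 𝓝 ξ, ∀ d : ℂ, Dsp ξ η d → Dsp (φ ξ) (φ η) (act A d) := by
  filter_upwards [h ξ, disp_unique ξ] with η h1 h2 d hd
  obtain ⟨g, g', x, y, x', y', e1, e2, e3, e4, e5⟩ := h1
  obtain ⟨k, p, q, f1, f2, f3⟩ := hd
  have e6 := h2 k g p q x y f1 f2 e1 e2
  refine ⟨g', x', y', e3, e4, ?_⟩
  rw [e5, ← e6, f3]

/-- points with a small displacement are close -/
theorem small_dsp [Finite (G v)] (ξ : Surf v) {U : Set (Surf v)} (hU : U ∈ 𝓝 ξ) :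
    ∃ ε : ℝ, 0 < ε ∧ ∀ (η : Surf v) (d : ℂ), ‖d‖ < ε → Dsp ξ η d → η ∈ U := by
  have key : ∀ g : G v, ∃ δ : ℝ, 0 < δ ∧ (Surf.mk g (proj ξ) = ξ →
      ∀ y : body v, ‖(y : ℂ) - (proj ξ : body v)‖ < δ → Surf.mk g y ∈ U) := by
    intro g
    by_cases hg : Surf.mk g (proj ξ) = ξ
    · have hc : ContinuousAt (fun x : body v => Surf.mk g x) (proj ξ) :=
        (continuous_mk g).continuousAt
      have hU' : U ∈ 𝓝 (Surf.mk g (proj ξ)) := by rw [hg]; exact hU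
      have h1 := hc.preimage_mem_nhds hU'
      rw [Metric.mem_nhds_iff] at h1
      obtain ⟨δ, hδ, h2⟩ := h1
      refine ⟨δ, hδ, fun _ y hy => ?_⟩
      apply h2
      rw [Metric.mem_ball, Subtype.dist_eq, dist_eq_norm]
      exact hy
    · exact ⟨1, one_pos, fun h => absurd h hg⟩
  choose δ hδ hδ' using key
  obtain ⟨ε, hε, hε'⟩ : ∃ ε : ℝ, 0 < ε ∧ ∀ g, ε ≤ δ g := by
    obtain ⟨g₀, _, hg₀⟩ := Set.exists_min_image (Set.univ : Set (G v)) δ Set.finite_univ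
      ⟨1, Set.mem_univ _⟩
    exact ⟨δ g₀, hδ g₀, fun g => hg₀ g (Set.mem_univ g)⟩
  refine ⟨ε, hε, fun η d hd h => ?_⟩
  obtain ⟨g, x, y, h1, h2, h3⟩ := h
  have hx : proj ξ = x := by rw [← h1, proj_mk]
  rw [← h2]
  refine hδ' g (by rw [hx]; exact h1) y ?_
  rw [hx]
  rw [← h3, LinearIsometryEquiv.norm_map] at hd
  exact lt_of_lt_of_le hd (hε' g)

/-- convergence from displacements -/
theorem tendsto_of_dsp [Finite (G v)] {α : Type*} {l : Filter α} {ξ : Surf v} {f : α → Surf v}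
    {δ : α → ℂ} (hf : ∀ᶠ s in l, Dsp ξ (f s) (δ s)) (hδ : Tendsto δ l (𝓝 0)) :
    Tendsto f l (𝓝 ξ) := by
  intro U hU
  obtain ⟨ε, hε, h⟩ := small_dsp ξ hU
  have h1 : ∀ᶠ s in l, ‖δ s‖ < ε := by
    have := hδ.norm
    rw [norm_zero] at this
    exact this.eventually (gt_mem_nhds hε)
  have h4 : ∀ᶠ s in l, f s ∈ U := by
    filter_upwards [hf, h1] with s h2 h3
    exact h _ _ h3 h2
  exact h4

/-- uniqueness of continuation -/
theorem eqOn_of_dsp {α : Type*} [TopologicalSpace α] {D : Set α} (hD : IsPreconnected D)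
    {f₁ f₂ : α → Surf v} (h₁ : ContinuousOn f₁ D) (h₂ : ContinuousOn f₂ D)
    (hd : ∀ t ∈ D, ∀ᶠ s in 𝓝[D] t, ∃ d : ℂ, Dsp (f₁ t) (f₁ s) d ∧ Dsp (f₂ t) (f₂ s) d)
    (hr : ∀ t ∈ D, Rg (f₁ t)) {t₀ : α} (ht₀ : t₀ ∈ D) (h0 : f₁ t₀ = f₂ t₀) :
    Set.EqOn f₁ f₂ D := by
  have : PreconnectedSpace D := Subtype.preconnectedSpace hD
  set E : Set D := {t | f₁ t = f₂ t} with hE
  have hclosed : IsClosed E :=
    isClosed_eq (continuousOn_iff_continuous_domRestrict.1 h₁)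
      (continuousOn_iff_continuous_domRestrict.1 h₂)
  have hopen : IsOpen E := by
    rw [isOpen_iff_mem_nhds]
    intro t ht
    have ht' : f₁ t = f₂ t := ht
    obtain ⟨U, hU, hU'⟩ := hr t t.2
    have hU2 : U ∈ 𝓝 (f₂ t) := by rw [← ht']; exact hU
    have c1 : ∀ᶠ s in 𝓝[D] (t : α), f₁ s ∈ U := (h₁ t t.2) hU
    have c2 : ∀ᶠ s in 𝓝[D] (t : α), f₂ s ∈ U := (h₂ t t.2) hU2
    have h3 : ∀ᶠ s in 𝓝[D] (t : α), f₁ s = f₂ s := by
      filter_upwards [c1, c2, hd t t.2] with s s1 s2 s3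
      obtain ⟨d, d1, d2⟩ := s3
      rw [← ht'] at d2
      exact hU' _ s1 _ s2 d d1 d2
    exact (eventually_nhds_subtype_iff D t (fun s => f₁ s = f₂ s)).2 h3
  have huniv : E = Set.univ := IsClopen.eq_univ ⟨hclosed, hopen⟩ ⟨⟨t₀, ht₀⟩, h0⟩
  intro t ht
  have : (⟨t, ht⟩ : D) ∈ E := by rw [huniv]; exact Set.mem_univ _
  exact this

private theorem CylA_rg {A : SL(2, ℝ)} {φ : Surf v ≃ₜ Surf v} (h : IsAffine A φ) (ξ : Surf v)
    (hξ : Rg ξ) : Rg (φ ξ) := by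
  obtain ⟨U, hU, hU'⟩ := hξ
  have h1 := (isAffine_symm h).dsp (φ ξ)
  have h2 : ∀ᶠ ζ in 𝓝 (φ ξ), φ.symm ζ ∈ U := by
    have hc : ContinuousAt φ.symm (φ ξ) := φ.symm.continuous.continuousAt
    apply hc
    rw [Homeomorph.symm_apply_apply]
    exact hU
  refine ⟨{ζ | (∀ d : ℂ, Dsp (φ ξ) ζ d → Dsp (φ.symm (φ ξ)) (φ.symm ζ) (act A⁻¹ d)) ∧
    φ.symm ζ ∈ U}, h1.and h2, ?_⟩
  intro ζ hζ ζ' hζ' d hd hd'
  have e1 := hζ.1 d hd
  have e2 := hζ'.1 d hd'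
  rw [Homeomorph.symm_apply_apply] at e1 e2
  have e3 := hU' _ hζ.2 _ hζ'.2 _ e1 e2
  exact φ.symm.injective e3

theorem rg_affine {A : SL(2, ℝ)} {φ : Surf v ≃ₜ Surf v} (h : IsAffine A φ) (ξ : Surf v) :
    Rg (φ ξ) ↔ Rg ξ := by
  constructor
  · intro h1
    have h2 := CylA_rg (isAffine_symm h) (φ ξ) h1
    rwa [Homeomorph.symm_apply_apply] at h2
  · exact CylA_rg h ξ

end

end Pool.Agent.OBT
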