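import Mathlib
import Pool.Agent.OBT.Quo
import Pool.Agent.OBT.Grp

/-!
# Regular points of the unfolding
-/

open scoped ComplexConjugate Topology MatrixGroups UpperHalfPlane
open MeasureTheory Filter

namespace Pool.Agent.OBT

variable {v : Fin 3 → ℂ}

/-- Regular points (cone angle `2π`): nearby points are determined by their displacements. -/
def Reg (ξ : Surf v) : Prop :=
  ∃ U ∈ 𝓝 ξ, ∀ η ∈ U, ∀ η' ∈ U, ∀ (g g' : G v) (x y x' y' : body v),
    Surf.mk g x = ξ → Surf.mk g y = η → Surf.mk g' x' = ξ → Surf.mk g' y' = η' →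
      (g : ℂ ≃ₗᵢ[ℝ] ℂ) ((y : ℂ) - x) = (g' : ℂ ≃ₗᵢ[ℝ] ℂ) ((y' : ℂ) - x') → η = η'

theorem t2_surf (v : Fin 3 → ℂ) : T2Space (Surf v) := by
  rw [t2Space_iff_disjoint_nhds]
  intro ξ ξ' hne
  by_cases hp : proj ξ = proj ξ'
  · refine Filter.disjoint_iff.2 ⟨_, near_mk ξ, _, near_mk ξ', ?_⟩
    rw [Set.disjoint_left]
    intro η h1 h2
    obtain ⟨g, y, hy⟩ := mk_surjective η
    have k1 := h1 g y hy
    have k2 := h2 g y hy
    rw [← hp, k1] at k2
    exact hne k2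
  · exact (continuous_proj.tendsto ξ).disjoint (disjoint_nhds_nhds.2 hp)
      (continuous_proj.tendsto ξ')

/-! ### The side of a point -/

/-- signed distance (up to a factor) from the line through the edge `k` -/
noncomputable def ZReg_el (v : Fin 3 → ℂ) (k : Fin 3) (z : ℂ) : ℝ :=
  (z * conj (v (k + 2) - v (k + 1))).im

theorem ZReg_el_add (k : Fin 3) (z w : ℂ) :
    ZReg_el v k (z + w) = ZReg_el v k z + ZReg_el v k w := by
  unfold ZReg_el
  rw [add_mul, Complex.add_im]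

theorem ZReg_el_sub (k : Fin 3) (z w : ℂ) :
    ZReg_el v k (z - w) = ZReg_el v k z - ZReg_el v k w := by
  unfold ZReg_el
  rw [sub_mul, Complex.sub_im]

theorem ZReg_el_smul (k : Fin 3) (t : ℝ) (z : ℂ) :
    ZReg_el v k (t • z) = t * ZReg_el v k z := by
  unfold ZReg_el
  rw [smul_mul_assoc, Complex.smul_im, smul_eq_mul]

theorem ZReg_el_dir (k : Fin 3) : ZReg_el v k (v (k + 2) - v (k + 1)) = 0 := by
  unfold ZReg_el
  rw [Complex.mul_conj]
  exact Complex.ofReal_im _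

theorem ZReg_el_refl (k : Fin 3) (z : ℂ) : ZReg_el v k (refl v k z) = -ZReg_el v k z := by
  have h1 : refl v k z = (2 : ℝ) • ((ℝ ∙ (v (k + 2) - v (k + 1))).starProjection z) - z := by
    unfold refl
    rw [Submodule.reflection_apply]
    congr 1
    rw [two_smul, two_smul]
  have h2 : (ℝ ∙ (v (k + 2) - v (k + 1))).starProjection z ∈ (ℝ ∙ (v (k + 2) - v (k + 1))) :=
    Submodule.starProjection_apply_mem _ _
  obtain ⟨t, ht⟩ := Submodule.mem_span_singleton.1 h2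
  rw [h1, ← ht, ZReg_el_sub, ZReg_el_smul, ZReg_el_smul, ZReg_el_dir]
  ring

theorem ZReg_el_edge {k : Fin 3} {y : ℂ} (hy : y ∈ edge v k) :
    ZReg_el v k (y - v (k + 1)) = 0 := by
  obtain ⟨a, b, ha, hb, hab, rfl⟩ := hy
  have h1 : a • v (k + 1) + b • v (k + 2) - v (k + 1) = b • (v (k + 2) - v (k + 1)) := by
    have : a = 1 - b := by linarith
    rw [this]
    module
  rw [h1, ZReg_el_smul, ZReg_el_dir, mul_zero]

theorem ZReg_range (v : Fin 3 → ℂ) (k : Fin 3) :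
    Set.range v = insert (v k) {v (k + 1), v (k + 2)} := by
  ext z
  constructor
  · rintro ⟨i, rfl⟩
    have h : ∀ i k : Fin 3, i = k ∨ i = k + 1 ∨ i = k + 2 := by decide
    rcases h i k with h | h | h <;> rw [h] <;> simp
  · rintro (h | h | h)
    · exact ⟨k, h.symm⟩
    · exact ⟨k + 1, h.symm⟩
    · exact ⟨k + 2, h.symm⟩

theorem ZReg_body {z : ℂ} (k : Fin 3) (hz : z ∈ body v) :
    ∃ s t : ℝ, 0 ≤ s ∧ 0 ≤ t ∧ s + t = 1 ∧ ∃ y ∈ edge v k, z = s • v k + t • y := by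
  unfold body at hz
  rw [ZReg_range v k, convexHull_insert (Set.insert_nonempty _ _), convexHull_pair,
    mem_convexJoin] at hz
  obtain ⟨a, ha, y, hy, s, t, hs, ht, hst, h⟩ := hz
  rw [Set.mem_singleton_iff] at ha
  exact ⟨s, t, hs, ht, hst, y, hy, by rw [← h, ha]⟩

theorem ZReg_el_body {z : ℂ} (k : Fin 3) (hz : z ∈ body v) :
    ∃ s : ℝ, 0 ≤ s ∧ ZReg_el v k (z - v (k + 1)) = s * ZReg_el v k (v k - v (k + 1)) ∧
      (s = 0 → z ∈ edge v k) := by
  obtain ⟨s, t, hs, ht, hst, y, hy, rfl⟩ := ZReg_body k hz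
  refine ⟨s, hs, ?_, ?_⟩
  · have h1 : s • v k + t • y - v (k + 1) = s • (v k - v (k + 1)) + t • (y - v (k + 1)) := by
      have : t = 1 - s := by linarith
      rw [this]
      module
    rw [h1, ZReg_el_add, ZReg_el_smul, ZReg_el_smul, ZReg_el_edge hy]
    ring
  · intro h
    have : t = 1 := by linarith
    rw [h, this, zero_smul, one_smul, zero_add]
    exact hy

theorem ZReg_el_ne (hv : AffineIndependent ℝ v) (k : Fin 3) :
    ZReg_el v k (v k - v (k + 1)) ≠ 0 := by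
  intro h
  have hd : v (k + 2) - v (k + 1) ≠ 0 := by
    rw [sub_ne_zero]
    intro h1
    have h2 := hv.injective h1
    revert h2
    have : ∀ k : Fin 3, k + 2 ≠ k + 1 := by decide
    exact this k
  rw [affineIndependent_iff_not_collinear] at hv
  apply hv
  rw [collinear_iff_of_mem (Set.mem_range_self (k + 1))]
  refine ⟨v (k + 2) - v (k + 1), ?_⟩
  rw [ZReg_range v k]
  rintro p (hp | hp | hp)
  · rw [hp]
    have h3 : ((v k - v (k + 1)) * conj (v (k + 2) - v (k + 1))) =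
        ((((v k - v (k + 1)) * conj (v (k + 2) - v (k + 1))).re : ℝ) : ℂ) := by
      apply Complex.ext
      · rw [Complex.ofReal_re]
      · rw [Complex.ofReal_im]
        exact h
    refine ⟨((v k - v (k + 1)) * conj (v (k + 2) - v (k + 1))).re /
      Complex.normSq (v (k + 2) - v (k + 1)), ?_⟩
    rw [vadd_eq_add, ← sub_eq_iff_eq_add, Complex.real_smul, Complex.ofReal_div, ← h3,
      ← Complex.mul_conj]
    have h4 : conj (v (k + 2) - v (k + 1)) ≠ 0 := by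
      exact fun h5 => hd ((map_eq_zero _).1 h5)
    field_simp
  · rw [hp]
    exact ⟨0, by simp⟩
  · rw [hp]
    exact ⟨1, by simp⟩

/-- two edges meet in a vertex -/
theorem ZReg_edges (hv : AffineIndependent ℝ v) {x : ℂ} {k : Fin 3} (h1 : x ∈ edge v k)
    (h2 : x ∈ edge v (k + 1)) : x = v (k + 2) := by
  have e1 : k + 1 + 1 = k + 2 := by
    have : ∀ k : Fin 3, k + 1 + 1 = k + 2 := by decide
    exact this k
  have e2 : k + 1 + 2 = k := by
    have : ∀ k : Fin 3, k + 1 + 2 = k := by decide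
    exact this k
  have h3 := ZReg_el_edge h1
  unfold edge at h2
  rw [e1, e2] at h2
  obtain ⟨a, b, ha, hb, hab, rfl⟩ := h2
  have h4 : a • v (k + 2) + b • v k - v (k + 1) =
      a • (v (k + 2) - v (k + 1)) + b • (v k - v (k + 1)) := by
    have : a = 1 - b := by linarith
    rw [this]
    module
  rw [h4, ZReg_el_add, ZReg_el_smul, ZReg_el_smul, ZReg_el_dir, mul_zero, zero_add] at h3
  have h5 : b = 0 := (mul_eq_zero.1 h3).resolve_right (ZReg_el_ne hv k)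
  have h6 : a = 1 := by linarith
  rw [h5, h6, one_smul, zero_smul, add_zero]

theorem ZReg_unique (hv : AffineIndependent ℝ v) {x : ℂ} (hx : ∀ k, x ≠ v k) {i j : Fin 3}
    (h1 : x ∈ edge v i) (h2 : x ∈ edge v j) : i = j := by
  have h : ∀ i j : Fin 3, i = j ∨ j = i + 1 ∨ i = j + 1 := by decide
  rcases h i j with h | h | h
  · exact h
  · subst h
    exact absurd (ZReg_edges hv h1 h2) (hx _)
  · subst h
    exact absurd (ZReg_edges hv h2 h1) (hx _)

theorem ZReg_Hx (hv : AffineIndependent ℝ v) {x : ℂ} (hx : ∀ k, x ≠ v k) {h : G v}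
    (hh : h ∈ Hx v x) : h = 1 ∨ ∃ k, x ∈ edge v k ∧ h = r v k := by
  unfold Hx at hh
  induction hh using Subgroup.closure_induction with
  | mem a ha => exact Or.inr ha
  | one => exact Or.inl rfl
  | mul a b _ _ iha ihb =>
    rcases iha with rfl | ⟨i, hi, rfl⟩
    · rw [one_mul]
      exact ihb
    · rcases ihb with rfl | ⟨j, hj, rfl⟩
      · rw [mul_one]
        exact Or.inr ⟨i, hi, rfl⟩
      · have h1 := ZReg_unique hv hx hi hj
        subst h1
        exact Or.inl (r_mul_self _)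
  | inv a _ iha =>
    rcases iha with rfl | ⟨i, hi, rfl⟩
    · rw [inv_one]
      exact Or.inl rfl
    · refine Or.inr ⟨i, hi, ?_⟩
      exact inv_eq_of_mul_eq_one_left (r_mul_self _)

/-- points on the same side -/
theorem ZReg_side (hv : AffineIndependent ℝ v) {k : Fin 3} {x y z : ℂ} (hx : x ∈ edge v k)
    (hy : y ∈ body v) (hz : z ∈ body v) (h : y - x = refl v k (z - x)) :
    y = z ∧ y ∈ edge v k := by
  obtain ⟨s, hs, h1, h2⟩ := ZReg_el_body k hy
  obtain ⟨t, ht, h3, h4⟩ := ZReg_el_body k hz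
  have h5 := ZReg_el_ne hv k
  have h6 := ZReg_el_edge hx
  have h7 := congrArg (ZReg_el v k) h
  have e1 : y - x = (y - v (k + 1)) - (x - v (k + 1)) := by ring
  have e2 : z - x = (z - v (k + 1)) - (x - v (k + 1)) := by ring
  rw [ZReg_el_refl, e1, e2, ZReg_el_sub k (y - v (k + 1)), ZReg_el_sub k (z - v (k + 1)), h6, h1,
    h3, sub_zero, sub_zero] at h7
  have h8 : (s + t) * ZReg_el v k (v k - v (k + 1)) = 0 := by linarith
  have h9 : s + t = 0 := (mul_eq_zero.1 h8).resolve_right h5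
  have hs0 : s = 0 := by linarith
  have ht0 : t = 0 := by linarith
  have hze := h4 ht0
  rw [refl_sub_of_mem_edge hx hze] at h
  exact ⟨sub_left_inj.1 h, h2 hs0⟩

theorem reg_of_ne_vert (hv : AffineIndependent ℝ v) (g : G v) (x : body v)
    (hx : ∀ k, (x : ℂ) ≠ v k) : Reg (Surf.mk g x) := by
  refine ⟨Set.univ, univ_mem, ?_⟩
  intro η _ η' _ g₁ g₂ x₁ y₁ x₂ y₂ h1 h2 h3 h4 h5
  obtain ⟨e1, -⟩ := (mk_eq_iff _ _ _ _).1 h1
  obtain ⟨e2, -⟩ := (mk_eq_iff _ _ _ _).1 h3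
  subst e1 e2
  obtain ⟨-, h6⟩ := (mk_eq_iff _ _ _ _).1 (h1.trans h3.symm)
  rcases ZReg_Hx hv hx h6 with h7 | ⟨k, hk, h7⟩
  · have h8 : g₁ = g₂ := (inv_mul_eq_one.1 h7)
    subst h8
    have h9 : (y₁ : ℂ) = y₂ := sub_left_inj.1 ((g₁ : ℂ ≃ₗᵢ[ℝ] ℂ).injective h5)
    have h10 : y₁ = y₂ := Subtype.ext h9
    rw [← h2, ← h4, h10]
  · have h8 : g₂ = g₁ * r v k := by rw [← h7, mul_inv_cancel_left]
    subst h8
    have h9 : ((g₁ * r v k : G v) : ℂ ≃ₗᵢ[ℝ] ℂ) ((y₂ : ℂ) - x₂) =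
      (g₁ : ℂ ≃ₗᵢ[ℝ] ℂ) (refl v k ((y₂ : ℂ) - x₂)) := rfl
    rw [h9] at h5
    obtain ⟨h10, h11⟩ := ZReg_side hv hk y₁.2 y₂.2 ((g₁ : ℂ ≃ₗᵢ[ℝ] ℂ).injective h5)
    have h12 : y₁ = y₂ := Subtype.ext h10
    rw [← h2, ← h4, ← h12]
    exact (mk_mul_r g₁ y₁ k h11).symm

theorem finite_sing (hv : AffineIndependent ℝ v) [Finite (G v)] :
    {ξ : Surf v | ¬ Reg ξ}.Finite := by
  refine (Set.finite_range (fun p : G v × Fin 3 =>
    Surf.mk p.1 (⟨v p.2, vert_mem_body p.2⟩ : body v))).subset ?_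
  intro ξ hξ
  obtain ⟨g, x, rfl⟩ := mk_surjective ξ
  by_contra h
  refine hξ (reg_of_ne_vert hv g x fun k hk => h ⟨(g, k), ?_⟩)
  have : x = ⟨v k, vert_mem_body k⟩ := Subtype.ext hk
  rw [this]

theorem ZReg_map {A : SL(2, ℝ)} {φ : Surf v ≃ₜ Surf v} (h : IsAffine A φ) {ξ : Surf v}
    (hξ : Reg ξ) : Reg (φ ξ) := by
  obtain ⟨U, hU, hreg⟩ := hξ
  have hc : Filter.Tendsto φ.symm (𝓝 (φ ξ)) (𝓝 ξ) := by
    have := φ.symm.continuous.tendsto (φ ξ)
    rwa [Homeomorph.symm_apply_apply] at this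
  refine ⟨_, (hc.eventually (h ξ)).and ((hc.eventually hU).and (disp_unique (φ ξ))), ?_⟩
  rintro θ ⟨h1, h2, h3⟩ θ' ⟨h1', h2', h3'⟩ g g' x y x' y' k1 k2 k3 k4 k5
  obtain ⟨a, a', p, q, p', q', m1, m2, m3, m4, m5⟩ := h1
  obtain ⟨b, b', s, t, s', t', n1, n2, n3, n4, n5⟩ := h1'
  rw [Homeomorph.apply_symm_apply] at m4 n4
  have e1 := h3 g a' x y p' q' k1 k2 m3 m4
  have e2 := h3' g' b' x' y' s' t' k3 k4 n3 n4
  have e3 : act A ((a : ℂ ≃ₗᵢ[ℝ] ℂ) ((q : ℂ) - p)) = act A ((b : ℂ ≃ₗᵢ[ℝ] ℂ) ((t : ℂ) - s)) := by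
    rw [← m5, ← n5, ← e1, ← e2, k5]
  have e4 := congrArg (act A⁻¹) e3
  rw [act_inv_act, act_inv_act] at e4
  have e5 := hreg _ h2 _ h2' a b p q s t m1 m2 n1 n2 e4
  exact φ.symm.injective e5

theorem reg_map {A : SL(2, ℝ)} {φ : Surf v ≃ₜ Surf v} (h : IsAffine A φ) (ξ : Surf v) :
    Reg (φ ξ) ↔ Reg ξ := by
  refine ⟨fun h1 => ?_, ZReg_map h⟩
  have h2 := ZReg_map (isAffine_symm h) h1
  rwa [Homeomorph.symm_apply_apply] at h2

/-- The map `C`, defined on the closed strip `0 ≤ im z ≤ h`, is a horizontal cylinder of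
circumference `w` and height `h`, with a singular point on each of its two boundary components. -/
structure Cyl (v : Fin 3 → ℂ) (w h : ℝ) (C : ℂ → Surf v) : Prop where
  w_pos : 0 < w
  h_pos : 0 < h
  li : ∀ z : ℂ, 0 ≤ z.im → z.im ≤ h → ∀ᶠ z' in 𝓝 z, 0 ≤ z'.im → z'.im ≤ h →
    ∃ (g : G v) (x y : body v), Surf.mk g x = C z ∧ Surf.mk g y = C z' ∧
      (g : ℂ ≃ₗᵢ[ℝ] ℂ) ((y : ℂ) - x) = z' - z
  per : ∀ z : ℂ, 0 ≤ z.im → z.im ≤ h → C (z + w) = C z
  inj : ∀ z z' : ℂ, 0 < z.im → z.im < h → 0 < z'.im → z'.im < h → C z = C z' →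
    ∃ n : ℤ, z' = z + n * w
  reg : ∀ z : ℂ, 0 < z.im → z.im < h → Reg (C z)
  bot : ∃ b : ℝ, ¬ Reg (C b)
  top : ∃ a : ℝ, ¬ Reg (C (a + h * Complex.I))

theorem Cyl.continuousOn [Finite (G v)] {w h : ℝ} {C : ℂ → Surf v} (hC : Cyl v w h C) :
    ContinuousOn C {z | 0 ≤ z.im ∧ z.im ≤ h} := by
  intro z hz
  rw [ContinuousWithinAt, Filter.tendsto_def]
  intro N hN
  have h1 : ∀ᶠ y in 𝓝 (proj (C z)), ∀ g : G v, Surf.mk g (proj (C z)) = C z →
      Surf.mk g y ∈ N := by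
    rw [Filter.eventually_all]
    intro g
    by_cases hg : Surf.mk g (proj (C z)) = C z
    · have h2 := (continuous_mk g).tendsto (proj (C z))
      rw [hg] at h2
      filter_upwards [h2 hN] with y hy _
      exact hy
    · exact Filter.Eventually.of_forall fun y hy => absurd hy hg
  obtain ⟨ε, hε, h2⟩ := Metric.eventually_nhds_iff.1 h1
  filter_upwards [mem_nhdsWithin_of_mem_nhds (hC.li z hz.1 hz.2), self_mem_nhdsWithin,
    mem_nhdsWithin_of_mem_nhds (Metric.ball_mem_nhds z hε)] with z' k1 k2 k3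
  obtain ⟨g, x, y, m1, m2, m3⟩ := k1 k2.1 k2.2
  have hx : proj (C z) = x := by rw [← m1, proj_mk]
  change C z' ∈ N
  rw [← m2]
  refine h2 ?_ g (by rw [hx]; exact m1)
  rw [hx, Subtype.dist_eq, dist_eq_norm, ← LinearIsometryEquiv.norm_map (g : ℂ ≃ₗᵢ[ℝ] ℂ), m3,
    ← dist_eq_norm]
  exact k3

theorem Cyl.per_int {w h : ℝ} {C : ℂ → Surf v} (hC : Cyl v w h C) (n : ℤ) (z : ℂ)
    (h0 : 0 ≤ z.im) (h1 : z.im ≤ h) : C (z + n * w) = C z := by
  have him : ∀ m : ℤ, (z + m * w).im = z.im := by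
    intro m
    rw [Complex.add_im]
    have : ((m : ℂ) * (w : ℂ)).im = 0 := by
      have e : (m : ℂ) * (w : ℂ) = (((m : ℝ) * w : ℝ) : ℂ) := by push_cast; rfl
      rw [e, Complex.ofReal_im]
    rw [this, add_zero]
  induction n with
  | zero => simp
  | succ m ih =>
    have h2 := hC.per (z + (m : ℤ) * w) (by rw [him]; exact h0) (by rw [him]; exact h1)
    rw [← ih, ← h2]
    congr 1
    push_cast
    ring
  | pred m ih =>
    have h2 := hC.per (z + (-(m : ℤ) - 1 : ℤ) * w) (by rw [him]; exact h0) (by rw [him]; exact h1)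
    rw [← ih, ← h2]
    congr 1
    push_cast
    ring

end Pool.Agent.OBT
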