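import Mathlib
import Pool.Agent.OBT.CylA
import Pool.Agent.OBT.ZReg

/-!
# The strip, regular points
-/

open scoped ComplexConjugate Topology MatrixGroups UpperHalfPlane
open MeasureTheory Filter

namespace Pool.Agent.OBT

variable {v : Fin 3 → ℂ}

/-- the closed strip -/
def strip (h : ℝ) : Set ℂ := {z | 0 ≤ z.im ∧ z.im ≤ h}

theorem rg_iff_reg (ξ : Surf v) : Rg ξ ↔ Reg ξ := by
  constructor
  · rintro ⟨U, hU, h⟩
    refine ⟨U, hU, ?_⟩
    intro η hη η' hη' g g' x y x' y' h1 h2 h3 h4 h5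
    exact h η hη η' hη' _ ⟨g, x, y, h1, h2, rfl⟩ ⟨g', x', y', h3, h4, h5.symm⟩
  · rintro ⟨U, hU, h⟩
    refine ⟨U, hU, ?_⟩
    rintro η hη η' hη' d ⟨g, x, y, h1, h2, h3⟩ ⟨g', x', y', h4, h5, h6⟩
    exact h η hη η' hη' g g' x y x' y' h1 h2 h4 h5 (h3.trans h6.symm)

theorem rg_of_not_vertex (hv : AffineIndependent ℝ v) {ξ : Surf v}
    (h : ∀ k, ((proj ξ : body v) : ℂ) ≠ v k) : Rg ξ := by
  obtain ⟨g, x, rfl⟩ := mk_surjective ξ
  rw [proj_mk] at h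
  exact (rg_iff_reg _).2 (reg_of_ne_vert hv g x h)

end Pool.Agent.OBT
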