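import Mathlib
import Pool.Agent.OBT.StarS

/-!
# Gluing flat pieces to a periodic flat map
-/

open scoped ComplexConjugate Topology Real
open MeasureTheory Filter

namespace Pool.Agent.OBT

variable {v : Fin 3 → ℂ}

/-- the surface is not empty -/
private theorem StarG_nonempty : Nonempty (Surf v) :=
  ⟨Surf.mk 1 ⟨v 0, subset_convexHull ℝ _ ⟨0, rfl⟩⟩⟩

/-- only finitely many translates matter -/
private theorem StarG_finite {ι : Type} [Finite ι] {l : ℝ} (hl : 0 < l) (K : ι → Set ℂ)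
    (hK : ∀ i, IsCompact (K i)) (z : ℂ) :
    ∃ S : Set (ι × ℤ), S.Finite ∧ ∀ (i : ι) (n : ℤ) (w : ℂ), ‖w - z‖ < 1 → w + n * l ∈ K i →
      (i, n) ∈ S := by
  choose R hR using fun i => (hK i).isBounded.subset_closedBall (0 : ℂ)
  refine ⟨{p : ι × ℤ | |(p.2 : ℝ)| * l ≤ R p.1 + ‖z‖ + 1}, ?_, ?_⟩
  · have hsub : {p : ι × ℤ | |(p.2 : ℝ)| * l ≤ R p.1 + ‖z‖ + 1} ⊆
        ⋃ i : ι, (fun n : ℤ => (i, n)) '' {n : ℤ | |(n : ℝ)| ≤ (R i + ‖z‖ + 1) / l} := by
      rintro ⟨i, n⟩ hp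
      refine Set.mem_iUnion.2 ⟨i, n, ?_, rfl⟩
      simp only [Set.mem_setOf_eq] at hp ⊢
      rwa [le_div_iff₀ hl]
    refine Set.Finite.subset (Set.finite_iUnion fun i => Set.Finite.image _ ?_) hsub
    refine Set.Finite.subset (Set.finite_Icc (-⌈(R i + ‖z‖ + 1) / l⌉) ⌈(R i + ‖z‖ + 1) / l⌉) ?_
    intro n hn
    simp only [Set.mem_setOf_eq] at hn
    have h1 := (abs_le.1 hn).1
    have h2 := (abs_le.1 hn).2
    have h3 := Int.le_ceil ((R i + ‖z‖ + 1) / l)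
    constructor
    · have : ((-⌈(R i + ‖z‖ + 1) / l⌉ : ℤ) : ℝ) ≤ n := by
        push_cast
        linarith
      exact_mod_cast this
    · have : (n : ℝ) ≤ (⌈(R i + ‖z‖ + 1) / l⌉ : ℤ) := by linarith
      exact_mod_cast this
  · intro i n w hw hmem
    have h1 : ‖w + n * l‖ ≤ R i := by
      have := hR i hmem
      simpa using this
    have h2 : ‖((n : ℂ) * l)‖ = |(n : ℝ)| * l := by
      rw [norm_mul, Complex.norm_real, Real.norm_of_nonneg hl.le]
      congr 1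
      rw [← Complex.ofReal_intCast, Complex.norm_real, Real.norm_eq_abs]
    have h3 : ‖((n : ℂ) * l)‖ ≤ ‖w + n * l‖ + ‖w - z‖ + ‖z‖ := by
      have h4 : ((n : ℂ) * l) = (w + n * l) - (w - z) - z := by ring
      calc ‖((n : ℂ) * l)‖ = ‖(w + n * l) - (w - z) - z‖ := by rw [← h4]
        _ ≤ ‖(w + n * l) - (w - z)‖ + ‖z‖ := norm_sub_le _ _
        _ ≤ ‖w + n * l‖ + ‖w - z‖ + ‖z‖ := by
          have := norm_sub_le (w + n * l) (w - z)
          linarith
    show |(n : ℝ)| * l ≤ R i + ‖z‖ + 1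
    linarith

/-- the assembly lemma (section 7) -/
theorem assemble {ι : Type} [Finite ι] {e : ℂ} {l h : ℝ} (hl : 0 < l) (K : ι → Set ℂ)
    (f : ι → ℂ → Surf v) (hK : ∀ i, IsCompact (K i))
    (hflat : ∀ i, ∀ z ∈ K i, ∀ᶠ w in 𝓝[K i] z, Dsp (f i z) (f i w) (e * (w - z)))
    (hcov : ∀ z ∈ strip h, ∃ (i : ι) (n : ℤ), z + n * l ∈ K i)
    (hcomp : ∀ (i j : ι) (z : ℂ) (n : ℤ), z ∈ K i → z + n * l ∈ K j → f i z = f j (z + n * l)) :
    ∃ Ψ : ℂ → Surf v,
      (∀ (i : ι) (z : ℂ) (n : ℤ), z + n * l ∈ K i → Ψ z = f i (z + n * l)) ∧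
      (∀ z ∈ strip h, ∀ᶠ w in 𝓝[strip h] z, Dsp (Ψ z) (Ψ w) (e * (w - z))) ∧
      (∀ z ∈ strip h, Ψ (z + l) = Ψ z) := by
  classical
  have := StarG_nonempty (v := v)
  have hex : ∀ z : ℂ, ∃ ξ : Surf v, ∀ (i : ι) (n : ℤ), z + n * l ∈ K i → ξ = f i (z + n * l) := by
    intro z
    by_cases hz : ∃ (i : ι) (n : ℤ), z + n * l ∈ K i
    · obtain ⟨j, m, hj⟩ := hz
      refine ⟨f j (z + m * l), fun i n hi => ?_⟩
      have h1 : z + (n : ℂ) * l = (z + m * l) + ((n - m : ℤ) : ℂ) * l := by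
        push_cast
        ring
      rw [h1] at hi ⊢
      exact hcomp j i _ _ hj hi
    · push Not at hz
      exact ⟨Classical.choice this, fun i n hi => absurd hi (hz i n)⟩
  choose Ψ hΨ using hex
  refine ⟨Ψ, fun i z n hi => hΨ z i n hi, ?_, ?_⟩
  · intro z hz
    obtain ⟨S, hS, hSm⟩ := StarG_finite hl K hK z
    have hev : ∀ p ∈ S, ∀ᶠ (w : ℂ) in 𝓝 z, w + p.2 * l ∈ K p.1 →
        z + p.2 * l ∈ K p.1 ∧ Dsp (f p.1 (z + p.2 * l)) (f p.1 (w + p.2 * l)) (e * (w - z)) := by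
      rintro ⟨i, n⟩ -
      simp only
      have hcont : Tendsto (fun w : ℂ => w + n * l) (𝓝 z) (𝓝 (z + n * l)) :=
        (continuous_id.add continuous_const).tendsto z
      by_cases hi : z + n * l ∈ K i
      · have h1 := hflat i _ hi
        rw [eventually_nhdsWithin_iff] at h1
        filter_upwards [hcont.eventually h1] with w hw hwK
        refine ⟨hi, ?_⟩
        have h2 := hw hwK
        have h3 : e * (w + n * l - (z + n * l)) = e * (w - z) := by ring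
        rwa [h3] at h2
      · have h1 : ∀ᶠ u in 𝓝 (z + n * l), u ∉ K i :=
          (hK i).isClosed.isOpen_compl.mem_nhds hi
        filter_upwards [hcont.eventually h1] with w hw hwK
        exact absurd hwK hw
    have hev2 : ∀ᶠ (w : ℂ) in 𝓝 z, ∀ p ∈ S, w + p.2 * l ∈ K p.1 →
        z + p.2 * l ∈ K p.1 ∧ Dsp (f p.1 (z + p.2 * l)) (f p.1 (w + p.2 * l)) (e * (w - z)) :=
      (eventually_all_finite hS).2 hev
    have hball : ∀ᶠ w in 𝓝 z, ‖w - z‖ < 1 := by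
      have := Metric.ball_mem_nhds z one_pos
      filter_upwards [this] with w hw
      rwa [← dist_eq_norm]
    rw [eventually_nhdsWithin_iff]
    filter_upwards [hev2, hball] with w hw hb hws
    obtain ⟨i, n, hi⟩ := hcov w hws
    obtain ⟨hz1, hz2⟩ := hw (i, n) (hSm i n w hb hi) hi
    rw [hΨ z i n hz1, hΨ w i n hi]
    exact hz2
  · intro z hz
    obtain ⟨i, n, hi⟩ := hcov z hz
    have h1 : z + (n : ℂ) * l = (z + l) + ((n - 1 : ℤ) : ℂ) * l := by
      push_cast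
      ring
    rw [hΨ z i n hi]
    rw [h1] at hi ⊢
    exact hΨ (z + l) i (n - 1) hi

end Pool.Agent.OBT
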