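import Mathlib
import Pool.Agent.OBT.StarG

/-!
# Cylinders made of two pieces
-/

open scoped ComplexConjugate Topology Real
open MeasureTheory Filter

namespace Pool.Agent.OBT

variable {v : Fin 3 → ℂ}

/-- a piece of a strip -/
def piece (h c : ℝ) (Y : ℝ → ℝ) : Set ℂ := {z | (0 ≤ z.im ∧ z.im ≤ h) ∧ |z.re - c| ≤ Y z.im}

theorem isCompact_piece {h c : ℝ} {Y : ℝ → ℝ} (hY : Continuous Y) {M : ℝ}
    (hM : ∀ y, 0 ≤ y → y ≤ h → Y y ≤ M) : IsCompact (piece h c Y) := by
  have hsub : piece h c Y ⊆ Complex.reProdIm (Set.Icc (c - M) (c + M)) (Set.Icc 0 h) := by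
    intro z hz
    have h1 := hM z.im hz.1.1 hz.1.2
    have h2 := abs_le.1 hz.2
    rw [Complex.mem_reProdIm]
    exact ⟨⟨by linarith, by linarith⟩, hz.1⟩
  have hcl : IsClosed (piece h c Y) := by
    have c1 : Continuous fun z : ℂ => |z.re - c| := (Complex.continuous_re.sub continuous_const).abs
    have c2 : Continuous fun z : ℂ => Y z.im := hY.comp Complex.continuous_im
    exact ((isClosed_le continuous_const Complex.continuous_im).inter
      (isClosed_le Complex.continuous_im continuous_const)).inter (isClosed_le c1 c2)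
  exact ((isCompact_Icc).reProdIm isCompact_Icc).of_isClosed_subset hcl hsub

/-- gluing two pieces to a cylinder -/
theorem assemble2 {e : ℂ} {l h : ℝ} (hl : 0 < l) (YA YB : ℝ → ℝ) (hcA : Continuous YA)
    (hcB : Continuous YB) (hA : ∀ y, 0 ≤ y → y ≤ h → 0 ≤ YA y)
    (hB : ∀ y, 0 ≤ y → y ≤ h → 0 ≤ YB y) (hAB : ∀ y, YA y + YB y = l / 2) (fA fB : ℂ → Surf v)
    (flatA : ∀ z : ℂ, ∀ᶠ w in 𝓝 z, w ∈ piece h 0 YA → Dsp (fA z) (fA w) (e * (w - z)))
    (flatB : ∀ z : ℂ, ∀ᶠ w in 𝓝 z, w ∈ piece h (l / 2) YB → Dsp (fB z) (fB w) (e * (w - z)))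
    (glueR : ∀ y, 0 ≤ y → y ≤ h → fA ⟨YA y, y⟩ = fB ⟨YA y, y⟩)
    (glueL : ∀ y, 0 ≤ y → y ≤ h → fA ⟨-YA y, y⟩ = fB ⟨-YA y + l, y⟩) :
    ∃ Ψ : ℂ → Surf v, (∀ z ∈ piece h 0 YA, Ψ z = fA z) ∧ (∀ z ∈ piece h (l / 2) YB, Ψ z = fB z) ∧
      (∀ z ∈ strip h, ∀ᶠ w in 𝓝[strip h] z, Dsp (Ψ z) (Ψ w) (e * (w - z))) ∧
      (∀ z ∈ strip h, Ψ (z + l) = Ψ z) ∧
      (∀ z ∈ strip h, (∃ z' ∈ piece h 0 YA, z'.im = z.im ∧ Ψ z = fA z') ∨
        (∃ z' ∈ piece h (l / 2) YB, z'.im = z.im ∧ Ψ z = fB z')) := by
  -- the pieces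
  let K : Bool → Set ℂ := fun i => if i then piece h 0 YA else piece h (l / 2) YB
  let f : Bool → ℂ → Surf v := fun i => if i then fA else fB
  have KT : K true = piece h 0 YA := rfl
  have KF : K false = piece h (l / 2) YB := rfl
  have fT : f true = fA := rfl
  have fF : f false = fB := rfl
  have him : ∀ (z : ℂ) (n : ℤ), (z + n * l).im = z.im := by
    intro z n
    rw [← Complex.ofReal_intCast, ← Complex.ofReal_mul, Complex.add_im, Complex.ofReal_im, add_zero]
  have hre : ∀ (z : ℂ) (n : ℤ), (z + n * l).re = z.re + n * l := by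
    intro z n
    rw [← Complex.ofReal_intCast, ← Complex.ofReal_mul, Complex.add_re, Complex.ofReal_re]
  -- the basic compatibilities
  have cR : ∀ z : ℂ, 0 ≤ z.im → z.im ≤ h → z.re = YA z.im → fA z = fB z := by
    intro z h0 h1 h2
    have := glueR z.im h0 h1
    rw [← h2] at this
    exact this
  have cL : ∀ z : ℂ, 0 ≤ z.im → z.im ≤ h → z.re = -YA z.im → fA z = fB (z + l) := by
    intro z h0 h1 h2
    have := glueL z.im h0 h1
    rw [← h2] at this
    have e1 : z + l = ⟨z.re + l, z.im⟩ := by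
      apply Complex.ext
      · simp
      · simp
    rw [e1]
    exact this
  have cAB : ∀ (z : ℂ) (n : ℤ), z ∈ piece h 0 YA → z + n * l ∈ piece h (l / 2) YB →
      fA z = fB (z + n * l) := by
    intro z n hz hz'
    obtain ⟨⟨z0, z1⟩, z2⟩ := hz
    obtain ⟨_, z3⟩ := hz'
    rw [him, hre] at z3
    rw [sub_zero] at z2
    have h1 := abs_le.1 z2
    have h2 := abs_le.1 z3
    have h3 := hAB z.im
    have h4 : (n : ℝ) * l ≥ 0 := by linarith
    have h5 : (n : ℝ) * l ≤ 1 * l := by linarith
    have n0 : 0 ≤ n := by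
      by_contra hn
      have : (n : ℝ) ≤ -1 := by
        have : n ≤ -1 := by omega
        exact_mod_cast this
      nlinarith
    have n1 : n ≤ 1 := by
      have : (n : ℝ) ≤ 1 := le_of_mul_le_mul_right h5 hl
      exact_mod_cast this
    have : n = 0 ∨ n = 1 := by omega
    rcases this with rfl | rfl
    · rw [Int.cast_zero, zero_mul, add_zero]
      apply cR z z0 z1
      rw [Int.cast_zero, zero_mul, add_zero] at h2
      linarith
    · rw [Int.cast_one, one_mul]
      apply cL z z0 z1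
      rw [Int.cast_one, one_mul] at h2
      linarith
  have cAA : ∀ (z : ℂ) (n : ℤ), 0 < n → z ∈ piece h 0 YA → z + n * l ∈ piece h 0 YA →
      fA z = fA (z + n * l) := by
    intro z n hn hz hz'
    obtain ⟨⟨z0, z1⟩, z2⟩ := hz
    obtain ⟨_, z3⟩ := hz'
    rw [him, hre] at z3
    rw [sub_zero] at z2 z3
    have h1 := abs_le.1 z2
    have h2 := abs_le.1 z3
    have h3 := hAB z.im
    have h4 := hB z.im z0 z1
    have h5 : (1 : ℝ) ≤ n := by exact_mod_cast hn
    have h6 : 1 * l ≤ n * l := mul_le_mul_of_nonneg_right h5 hl.le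
    have n1 : n = 1 := by
      have h7 : (n : ℝ) * l ≤ 1 * l := by linarith
      have : (n : ℝ) ≤ 1 := le_of_mul_le_mul_right h7 hl
      have : n ≤ 1 := by exact_mod_cast this
      omega
    subst n1
    rw [Int.cast_one, one_mul] at h2 ⊢
    have e1 : (z + l).im = z.im := by simp
    have e2 : (z + l).re = z.re + l := by simp
    rw [cL z z0 z1 (by linarith), cR (z + l) (by rw [e1]; exact z0) (by rw [e1]; exact z1)
      (by rw [e1, e2]; linarith)]
  have cBB : ∀ (z : ℂ) (n : ℤ), 0 < n → z ∈ piece h (l / 2) YB → z + n * l ∈ piece h (l / 2) YB →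
      fB z = fB (z + n * l) := by
    intro z n hn hz hz'
    obtain ⟨⟨z0, z1⟩, z2⟩ := hz
    obtain ⟨_, z3⟩ := hz'
    rw [him, hre] at z3
    have h1 := abs_le.1 z2
    have h2 := abs_le.1 z3
    have h3 := hAB z.im
    have h4 := hA z.im z0 z1
    have h5 : (1 : ℝ) ≤ n := by exact_mod_cast hn
    have h6 : 1 * l ≤ n * l := mul_le_mul_of_nonneg_right h5 hl.le
    have n1 : n = 1 := by
      have h7 : (n : ℝ) * l ≤ 1 * l := by linarith
      have : (n : ℝ) ≤ 1 := le_of_mul_le_mul_right h7 hl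
      have : n ≤ 1 := by exact_mod_cast this
      omega
    subst n1
    rw [Int.cast_one, one_mul] at h2 ⊢
    rw [← cR z z0 z1 (by linarith), cL z z0 z1 (by linarith)]
  have hneg : ∀ (z : ℂ) (n : ℤ), z + n * l + ((-n : ℤ) : ℂ) * l = z := by
    intro z n
    push_cast
    ring
  obtain ⟨Ψ, h1, h2, h3⟩ := assemble (e := e) (h := h) hl K f
    (by
      intro i
      cases i
      · rw [KF]
        refine isCompact_piece hcB (M := l / 2) fun y y0 y1 => ?_
        have := hA y y0 y1
        have := hAB y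
        linarith
      · rw [KT]
        refine isCompact_piece hcA (M := l / 2) fun y y0 y1 => ?_
        have := hB y y0 y1
        have := hAB y
        linarith)
    (by
      intro i z _
      rw [eventually_nhdsWithin_iff]
      cases i
      · exact flatB z
      · exact flatA z)
    (by
      intro z hz
      have hz' : 0 ≤ z.im ∧ z.im ≤ h := hz
      set Y := YA z.im with hY
      have e1 := hAB z.im
      -- bring the real part to `[-Y, -Y + l)`
      set n : ℤ := -⌊(z.re + Y) / l⌋ with hn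
      have f1 : (⌊(z.re + Y) / l⌋ : ℝ) * l ≤ z.re + Y := by
        rw [← le_div_iff₀ hl]
        exact Int.floor_le _
      have f2 : z.re + Y < (⌊(z.re + Y) / l⌋ + 1 : ℝ) * l := by
        rw [← div_lt_iff₀ hl]
        exact Int.lt_floor_add_one _
      have e2 : (n : ℝ) = -(⌊(z.re + Y) / l⌋ : ℝ) := by rw [hn]; push_cast; ring
      have g1 : -Y ≤ z.re + n * l := by rw [e2]; linarith
      have g2 : z.re + n * l ≤ -Y + l := by rw [e2]; linarith
      rcases le_or_gt (z.re + n * l) Y with g3 | g3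
      · refine ⟨true, n, ?_⟩
        rw [KT]
        refine ⟨by rw [him]; exact hz', ?_⟩
        rw [him, hre, sub_zero]
        exact abs_le.2 ⟨g1, g3⟩
      · refine ⟨false, n, ?_⟩
        rw [KF]
        refine ⟨by rw [him]; exact hz', ?_⟩
        rw [him, hre]
        exact abs_le.2 ⟨by linarith, by linarith⟩)
    (by
      intro i j z n hz hz'
      cases i <;> cases j
      · rw [fF]
        rw [KF] at hz hz'
        rcases lt_trichotomy n 0 with hn | hn | hn
        · have := cBB (z + n * l) (-n) (by omega) hz' (by rw [hneg]; exact hz)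
          rw [hneg] at this
          exact this.symm
        · rw [hn, Int.cast_zero, zero_mul, add_zero]
        · exact cBB z n hn hz hz'
      · rw [fF, fT]
        rw [KF] at hz
        rw [KT] at hz'
        have := cAB (z + n * l) (-n) hz' (by rw [hneg]; exact hz)
        rw [hneg] at this
        exact this.symm
      · rw [fF, fT]
        rw [KT] at hz
        rw [KF] at hz'
        exact cAB z n hz hz'
      · rw [fT]
        rw [KT] at hz hz'
        rcases lt_trichotomy n 0 with hn | hn | hn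
        · have := cAA (z + n * l) (-n) (by omega) hz' (by rw [hneg]; exact hz)
          rw [hneg] at this
          exact this.symm
        · rw [hn, Int.cast_zero, zero_mul, add_zero]
        · exact cAA z n hn hz hz')
  have hA' : ∀ z ∈ piece h 0 YA, Ψ z = fA z := by
    intro z hz
    have := h1 true z 0 (by rw [KT, Int.cast_zero, zero_mul, add_zero]; exact hz)
    rwa [Int.cast_zero, zero_mul, add_zero] at this
  have hB' : ∀ z ∈ piece h (l / 2) YB, Ψ z = fB z := by
    intro z hz
    have := h1 false z 0 (by rw [KF, Int.cast_zero, zero_mul, add_zero]; exact hz)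
    rwa [Int.cast_zero, zero_mul, add_zero] at this
  refine ⟨Ψ, hA', hB', h2, h3, ?_⟩
  intro z hz
  have hz' : 0 ≤ z.im ∧ z.im ≤ h := hz
  set Y := YA z.im with hY
  have e1 := hAB z.im
  set n : ℤ := -⌊(z.re + Y) / l⌋ with hn
  have f1 : (⌊(z.re + Y) / l⌋ : ℝ) * l ≤ z.re + Y := by
    rw [← le_div_iff₀ hl]
    exact Int.floor_le _
  have f2 : z.re + Y < (⌊(z.re + Y) / l⌋ + 1 : ℝ) * l := by
    rw [← div_lt_iff₀ hl]
    exact Int.lt_floor_add_one _
  have e2 : (n : ℝ) = -(⌊(z.re + Y) / l⌋ : ℝ) := by rw [hn]; push_cast; ring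
  have g1 : -Y ≤ z.re + n * l := by rw [e2]; linarith
  have g2 : z.re + n * l ≤ -Y + l := by rw [e2]; linarith
  rcases le_or_gt (z.re + n * l) Y with g3 | g3
  · left
    have hm : z + n * l ∈ piece h 0 YA := by
      refine ⟨by rw [him]; exact hz', ?_⟩
      rw [him, hre, sub_zero]
      exact abs_le.2 ⟨g1, g3⟩
    exact ⟨z + n * l, hm, him z n, h1 true z n hm⟩
  · right
    have hm : z + n * l ∈ piece h (l / 2) YB := by
      refine ⟨by rw [him]; exact hz', ?_⟩
      rw [him, hre]
      exact abs_le.2 ⟨by linarith, by linarith⟩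
    exact ⟨z + n * l, hm, him z n, h1 false z n hm⟩

end Pool.Agent.OBT
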