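import Mathlib
import Pool.Agent.OBT.CylA

/-!
# The multitwist
-/

open scoped ComplexConjugate Topology MatrixGroups UpperHalfPlane
open MeasureTheory Filter

namespace Pool.Agent.OBT

noncomputable section

variable {v : Fin 3 → ℂ}

/-- `Ψ` parametrizes a decomposition of the surface into cylinders in direction `e`. -/
structure Decomp (v : Fin 3 → ℂ) {ι : Type} (e : ℂ) (l h : ι → ℝ) (Ψ : ι → ℂ → Surf v) : Prop where
  norm_e : ‖e‖ = 1
  lpos : ∀ i, 0 < l i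
  hpos : ∀ i, 0 < h i
  flat : ∀ i, ∀ z : ℂ, 0 ≤ z.im → z.im ≤ h i → ∀ᶠ w : ℂ in 𝓝 z, 0 ≤ w.im → w.im ≤ h i →
    Dsp (Ψ i z) (Ψ i w) (e * (w - z))
  per : ∀ i, ∀ z : ℂ, 0 ≤ z.im → z.im ≤ h i → Ψ i (z + l i) = Ψ i z
  surj : ∀ ξ : Surf v, ∃ (i : ι) (z : ℂ), 0 ≤ z.im ∧ z.im ≤ h i ∧ Ψ i z = ξ
  reg : ∀ i, ∀ z : ℂ, 0 < z.im → z.im < h i → Rg (Ψ i z)
  bot : ∀ i, ∃ b : ℝ, ¬ Rg (Ψ i b)
  top : ∀ i, ∃ a : ℝ, ¬ Rg (Ψ i (a + h i * Complex.I))

namespace Decomp

variable {ι : Type} {e : ℂ} {l h : ι → ℝ} {Ψ : ι → ℂ → Surf v} (D : Decomp v e l h Ψ)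
include D

lemma per_nat (i : ι) (n : ℕ) : ∀ z : ℂ, 0 ≤ z.im → z.im ≤ h i → Ψ i (z + n * l i) = Ψ i z := by
  induction n with
  | zero => intro z _ _; simp
  | succ n ih =>
    intro z h0 h1
    have e1 : z + ((n + 1 : ℕ) : ℂ) * (l i : ℂ) = (z + n * l i) + l i := by push_cast; ring
    have e2 : (z + (n : ℂ) * (l i : ℂ)).im = z.im := by
      simp [Complex.add_im, Complex.mul_im]
    rw [e1, D.per i _ (by rw [e2]; exact h0) (by rw [e2]; exact h1), ih z h0 h1]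

lemma per_int (i : ι) (n : ℤ) (z : ℂ) (h0 : 0 ≤ z.im) (h1 : z.im ≤ h i) :
    Ψ i (z + n * l i) = Ψ i z := by
  obtain ⟨m, rfl | rfl⟩ := n.eq_nat_or_neg
  · exact_mod_cast D.per_nat i m z h0 h1
  · have e2 : (z + ((-(m : ℤ) : ℤ) : ℂ) * (l i : ℂ)).im = z.im := by
      simp [Complex.add_im, Complex.mul_im]
    have := D.per_nat i m (z + ((-(m : ℤ) : ℤ) : ℂ) * (l i : ℂ)) (by rw [e2]; exact h0) (by rw [e2]; exact h1)
    rw [← this]
    congr 1
    push_cast
    ring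

/-- every point is the image of a point of the fundamental rectangle -/
lemma surj' (ξ : Surf v) : ∃ (i : ι) (z : ℂ), (0 ≤ z.re ∧ z.re ≤ l i) ∧ (0 ≤ z.im ∧ z.im ≤ h i) ∧ Ψ i z = ξ := by
  obtain ⟨i, z, h0, h1, hz⟩ := D.surj ξ
  have hl := D.lpos i
  refine ⟨i, z + ((-⌊z.re / l i⌋ : ℤ) : ℂ) * l i, ⟨?_, ?_⟩, ⟨?_, ?_⟩, ?_⟩
  · have := Int.floor_le (z.re / l i)
    rw [le_div_iff₀ hl] at this
    simp [Complex.add_re, Complex.mul_re]
    linarith
  · have := Int.lt_floor_add_one (z.re / l i)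
    rw [div_lt_iff₀ hl] at this
    simp [Complex.add_re, Complex.mul_re]
    linarith
  · simp [Complex.add_im, Complex.mul_im]; exact h0
  · simp [Complex.add_im, Complex.mul_im]; exact h1
  · rw [D.per_int i _ z h0 h1, hz]

end Decomp

/-- the shear -/
def shear (t : ℝ) (z : ℂ) : ℂ := z + (t * z.im : ℝ)

lemma shear_im (t : ℝ) (z : ℂ) : (shear t z).im = z.im := by
  unfold shear; simp

lemma shear_shear (t s : ℝ) (z : ℂ) : shear t (shear s z) = shear (t + s) z := by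
  apply Complex.ext
  · unfold shear; simp; ring
  · rw [shear_im, shear_im, shear_im]

lemma shear_zero (z : ℂ) : shear 0 z = z := by
  unfold shear; simp

lemma continuous_shear (t : ℝ) : Continuous (shear t) := by
  unfold shear
  fun_prop

namespace Decomp

variable {ι : Type} {e : ℂ} {l h : ι → ℝ} {Ψ : ι → ℂ → Surf v} (D : Decomp v e l h Ψ)
include D

/-- continuity of the parametrizations -/
lemma contOn [Finite (G v)] (i : ι) : ContinuousOn (Ψ i) {z | 0 ≤ z.im ∧ z.im ≤ h i} := by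
  intro z hz
  have h1 : ∀ᶠ w in 𝓝[{z | 0 ≤ z.im ∧ z.im ≤ h i}] z, Dsp (Ψ i z) (Ψ i w) (e * (w - z)) := by
    rw [eventually_nhdsWithin_iff]
    filter_upwards [D.flat i z hz.1 hz.2] with w hw hws
    exact hw hws.1 hws.2
  refine tendsto_of_dsp h1 ?_
  have : Continuous fun w : ℂ => e * (w - z) := by fun_prop
  have h2 := this.tendsto z
  rw [sub_self, mul_zero] at h2
  exact h2.mono_left nhdsWithin_le_nhds

/-- two parametrizations which agree at one point of an open strip agree along translations -/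
lemma agree [Finite (G v)] {i j : ι} {z w : ℂ} (z0 : 0 < z.im) (z1 : z.im < h i) (w0 : 0 ≤ w.im)
    (w1 : w.im ≤ h j) (he : Ψ i z = Ψ j w) {u : ℂ} (u0 : 0 < (z + u).im) (u1 : (z + u).im < h i)
    (u2 : 0 ≤ (w + u).im) (u3 : (w + u).im ≤ h j) : Ψ i (z + u) = Ψ j (w + u) := by
  set S : Set ℂ := {u | (0 < (z + u).im ∧ (z + u).im < h i) ∧ (0 ≤ (w + u).im ∧ (w + u).im ≤ h j)} with hS
  have hconv : Convex ℝ S := by
    intro a ha b hb p q hp hq hpq
    simp only [hS, Set.mem_setOf_eq, Complex.add_im, Complex.real_smul, Complex.mul_im, Complex.ofReal_re,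
      Complex.ofReal_im, zero_mul, add_zero] at ha hb ⊢
    have hq' : q = 1 - p := by linarith
    subst hq'
    refine ⟨⟨?_, ?_⟩, ⟨?_, ?_⟩⟩
    · rcases hp.eq_or_lt with rfl | hp'
      · simp; linarith
      · nlinarith
    · rcases hp.eq_or_lt with rfl | hp'
      · simp; linarith
      · nlinarith
    · nlinarith
    · nlinarith
  have h1 : ContinuousOn (fun u => Ψ i (z + u)) S := by
    refine (D.contOn i).comp (by fun_prop) ?_
    intro u hu
    exact ⟨hu.1.1.le, hu.1.2.le⟩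
  have h2 : ContinuousOn (fun u => Ψ j (w + u)) S := by
    refine (D.contOn j).comp (by fun_prop) ?_
    intro u hu
    exact hu.2
  have key := eqOn_of_dsp (D := S) hconv.isPreconnected h1 h2 (by
      intro a ha
      rw [eventually_nhdsWithin_iff]
      have c1 : Tendsto (fun u : ℂ => z + u) (𝓝 a) (𝓝 (z + a)) :=
        (continuous_const.add continuous_id).tendsto a
      have c2 : Tendsto (fun u : ℂ => w + u) (𝓝 a) (𝓝 (w + a)) :=
        (continuous_const.add continuous_id).tendsto a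
      filter_upwards [c1.eventually (D.flat i (z + a) ha.1.1.le ha.1.2.le),
        c2.eventually (D.flat j (w + a) ha.2.1 ha.2.2)] with b hb1 hb2 hb
      refine ⟨e * (b - a), ?_, ?_⟩
      · have := hb1 hb.1.1.le hb.1.2.le
        rwa [add_sub_add_left_eq_sub] at this
      · have := hb2 hb.2.1 hb.2.2
        rwa [add_sub_add_left_eq_sub] at this)
    (fun a ha => D.reg i _ ha.1.1 ha.1.2) (t₀ := 0)
    (by
      rw [hS, Set.mem_setOf_eq, add_zero, add_zero]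
      exact ⟨⟨z0, z1⟩, ⟨w0, w1⟩⟩)
    (by
      show Ψ i (z + 0) = Ψ j (w + 0)
      rw [add_zero, add_zero]; exact he)
  exact key ⟨⟨u0, u1⟩, ⟨u2, u3⟩⟩

/-- a point of an open strip is not on the boundary of another one, and has the same height -/
lemma height [Finite (G v)] {i j : ι} {z w : ℂ} (z0 : 0 < z.im) (z1 : z.im < h i) (w0 : 0 ≤ w.im)
    (w1 : w.im ≤ h j) (he : Ψ i z = Ψ j w) : w.im = z.im := by
  obtain ⟨b, hb⟩ := D.bot j
  obtain ⟨a, ha⟩ := D.top j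
  -- `w` is in the open strip
  have hw0 : 0 < w.im := by
    rcases w0.eq_or_lt with h0 | h0
    · exfalso
      apply hb
      have e1 : (w + ((b : ℂ) - w)) = b := by ring
      have e2 : (z + ((b : ℂ) - w)).im = z.im := by simp [← h0]
      have := D.agree z0 z1 w0 w1 he (u := (b : ℂ) - w) (by rw [e2]; exact z0) (by rw [e2]; exact z1)
        (by rw [e1]; simp) (by rw [e1]; simpa using (D.hpos j).le)
      rw [e1] at this
      rw [← this]
      exact D.reg i _ (by rw [e2]; exact z0) (by rw [e2]; exact z1)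
    · exact h0
  have hw1 : w.im < h j := by
    rcases w1.eq_or_lt with h0 | h0
    · exfalso
      apply ha
      have e1 : (w + ((a : ℂ) + h j * Complex.I - w)) = (a : ℂ) + h j * Complex.I := by ring
      have e2 : (z + ((a : ℂ) + h j * Complex.I - w)).im = z.im := by simp [h0]
      have := D.agree z0 z1 w0 w1 he (u := (a : ℂ) + h j * Complex.I - w) (by rw [e2]; exact z0)
        (by rw [e2]; exact z1) (by rw [e1]; simpa using (D.hpos j).le) (by rw [e1]; simp)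
      rw [e1] at this
      rw [← this]
      exact D.reg i _ (by rw [e2]; exact z0) (by rw [e2]; exact z1)
    · exact h0
  by_contra hne
  rcases lt_or_gt_of_ne hne with hlt | hlt
  · -- `w` is lower: the bottom of `j` is inside strip `i`
    apply hb
    have e1 : (w + ((b : ℂ) - w)) = b := by ring
    have e2 : (z + ((b : ℂ) - w)).im = z.im - w.im := by simp; ring
    have := D.agree z0 z1 w0 w1 he (u := (b : ℂ) - w) (by rw [e2]; linarith) (by rw [e2]; linarith)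
      (by rw [e1]; simp) (by rw [e1]; simpa using (D.hpos j).le)
    rw [e1] at this
    rw [← this]
    exact D.reg i _ (by rw [e2]; linarith) (by rw [e2]; linarith)
  · -- `z` is lower
    obtain ⟨b', hb'⟩ := D.bot i
    apply hb'
    have e1 : (z + ((b' : ℂ) - z)) = b' := by ring
    have e2 : (w + ((b' : ℂ) - z)).im = w.im - z.im := by simp; ring
    have := D.agree hw0 hw1 z0.le z1.le he.symm (u := (b' : ℂ) - z) (by rw [e2]; linarith)
      (by rw [e2]; linarith) (by rw [e1]; simp) (by rw [e1]; simpa using (D.hpos i).le)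
    rw [e1] at this
    rw [← this]
    exact D.reg j _ (by rw [e2]; linarith) (by rw [e2]; linarith)

/-- the twist is well defined -/
lemma twist_wd [Finite (G v)] {t : ℝ} (ht : ∀ i, ∃ n : ℤ, t * h i = n * l i) {i j : ι} {z w : ℂ}
    (z0 : 0 ≤ z.im) (z1 : z.im ≤ h i) (w0 : 0 ≤ w.im) (w1 : w.im ≤ h j) (he : Ψ i z = Ψ j w) :
    Ψ i (shear t z) = Ψ j (shear t w) := by
  -- on the boundary the shear does nothing
  have bd : ∀ (k : ι) (u : ℂ), 0 ≤ u.im → u.im ≤ h k → (u.im = 0 ∨ u.im = h k) →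
      Ψ k (shear t u) = Ψ k u := by
    intro k u u0 u1 hu
    rcases hu with hu | hu
    · unfold shear; rw [hu]; simp
    · obtain ⟨n, hn⟩ := ht k
      unfold shear
      rw [hu, hn]
      have := D.per_int k n u u0 u1
      rw [← this]
      push_cast
      rfl
  have op : ∀ {i j : ι} {z w : ℂ}, 0 < z.im → z.im < h i → 0 ≤ w.im → w.im ≤ h j → Ψ i z = Ψ j w →
      Ψ i (shear t z) = Ψ j (shear t w) := by
    intro i j z w z0 z1 w0 w1 he
    have hh := D.height z0 z1 w0 w1 he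
    unfold shear
    rw [hh]
    exact D.agree z0 z1 w0 w1 he (u := ((t * z.im : ℝ) : ℂ)) (by simpa using z0) (by simpa using z1)
      (by simpa using w0) (by simpa using w1)
  rcases z0.eq_or_lt with hz | hz
  · rcases w0.eq_or_lt with hw | hw
    · rw [bd i z z0 z1 (Or.inl hz.symm), bd j w w0 w1 (Or.inl hw.symm), he]
    · rcases w1.eq_or_lt with hw' | hw'
      · rw [bd i z z0 z1 (Or.inl hz.symm), bd j w w0 w1 (Or.inr hw'), he]
      · exact (op hw hw' z0 z1 he.symm).symm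
  · rcases z1.eq_or_lt with hz' | hz'
    · rcases w0.eq_or_lt with hw | hw
      · rw [bd i z z0 z1 (Or.inr hz'), bd j w w0 w1 (Or.inl hw.symm), he]
      · rcases w1.eq_or_lt with hw' | hw'
        · rw [bd i z z0 z1 (Or.inr hz'), bd j w w0 w1 (Or.inr hw'), he]
        · exact (op hw hw' z0 z1 he.symm).symm
    · exact op hz hz' w0 w1 he

/-- points close to `ξ` come from points close to preimages of `ξ` -/
lemma near [Finite ι] [Finite (G v)] (ξ : Surf v) {P : ι → ℂ → ℂ → Prop}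
    (hP : ∀ i, ∀ z : ℂ, 0 ≤ z.im → z.im ≤ h i → Ψ i z = ξ → ∀ᶠ w in 𝓝 z, P i z w) :
    ∀ᶠ η in 𝓝 ξ, ∃ (i : ι) (z w : ℂ), (0 ≤ z.im ∧ z.im ≤ h i) ∧ (0 ≤ w.im ∧ w.im ≤ h i) ∧
      Ψ i z = ξ ∧ Ψ i w = η ∧ P i z w := by
  have key : ∀ i : ι, ∀ᶠ η in 𝓝 ξ, ∀ w : ℂ, (0 ≤ w.re ∧ w.re ≤ l i) → (0 ≤ w.im ∧ w.im ≤ h i) →
      Ψ i w = η → ∃ z : ℂ, (0 ≤ z.im ∧ z.im ≤ h i) ∧ Ψ i z = ξ ∧ P i z w := by
    intro i
    set Q : Set ℂ := {z | (0 ≤ z.re ∧ z.re ≤ l i) ∧ (0 ≤ z.im ∧ z.im ≤ h i)} with hQ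
    have hQc : IsCompact Q := by
      have hQ' : Q = Complex.reProdIm (Set.Icc 0 (l i)) (Set.Icc 0 (h i)) := by
        ext z; simp [hQ, Complex.mem_reProdIm]
      rw [hQ']
      exact (isCompact_Icc).reProdIm isCompact_Icc
    have hsub : Q ⊆ {z | 0 ≤ z.im ∧ z.im ≤ h i} := fun z hz => hz.2
    have hcont := (D.contOn i).mono hsub
    -- good points
    have hloc : ∀ z ∈ Q, ∃ U ∈ 𝓝 z, ∀ᶠ η in 𝓝 ξ, ∀ w ∈ U ∩ Q, Ψ i w = η →
        ∃ z : ℂ, (0 ≤ z.im ∧ z.im ≤ h i) ∧ Ψ i z = ξ ∧ P i z w := by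
      intro z hz
      by_cases hzx : Ψ i z = ξ
      · refine ⟨{w | P i z w}, hP i z hz.2.1 hz.2.2 hzx, Eventually.of_forall fun η w hw _ => ?_⟩
        exact ⟨z, hz.2, hzx, hw.1⟩
      · have hd : Disjoint (𝓝 (Ψ i z)) (𝓝 ξ) := disjoint_nhds_nhds.2 hzx
        obtain ⟨V, hV, W, hW, hVW⟩ := Filter.disjoint_iff.1 hd
        have h1 : ∀ᶠ w in 𝓝[Q] z, Ψ i w ∈ V := (hcont z hz) hV
        rw [eventually_nhdsWithin_iff] at h1
        refine ⟨_, h1, ?_⟩
        filter_upwards [hW] with η hη w hw he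
        exact absurd (he ▸ hη : Ψ i w ∈ W) (Set.disjoint_left.1 hVW (hw.1 hw.2))
    choose! U hU hU' using hloc
    obtain ⟨T, hTQ, hT⟩ := hQc.elim_nhds_subcover U hU
    have hfin : ∀ᶠ η in 𝓝 ξ, ∀ z ∈ T, ∀ w ∈ U z ∩ Q, Ψ i w = η →
        ∃ z : ℂ, (0 ≤ z.im ∧ z.im ≤ h i) ∧ Ψ i z = ξ ∧ P i z w := by
      rw [Filter.eventually_all_finset]
      intro z hz
      exact hU' z (hTQ z hz)
    filter_upwards [hfin] with η hη w hw1 hw2 he
    have hwQ : w ∈ Q := ⟨hw1, hw2⟩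
    obtain ⟨z, hz, hwz⟩ := Set.mem_iUnion₂.1 (hT hwQ)
    exact hη z hz w ⟨hwz, hwQ⟩ he
  filter_upwards [eventually_all.2 key] with η hη
  obtain ⟨i, w, hw1, hw2, he⟩ := D.surj' η
  obtain ⟨z, hz, hzx, hp⟩ := hη i w hw1 hw2 he
  exact ⟨i, z, w, hz, hw2, hzx, he, hp⟩

/-- local description of the twist -/
lemma twist_loc [Finite ι] [Finite (G v)] {t : ℝ} (φ : Surf v → Surf v)
    (hφ : ∀ (i : ι) (z : ℂ), 0 ≤ z.im → z.im ≤ h i → φ (Ψ i z) = Ψ i (shear t z)) (ξ : Surf v) :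
    ∀ᶠ η in 𝓝 ξ, ∃ d : ℂ, Dsp ξ η (e * d) ∧ Dsp (φ ξ) (φ η) (e * shear t d) := by
  have h1 := D.near ξ (P := fun i z w => (0 ≤ w.im → w.im ≤ h i → Dsp (Ψ i z) (Ψ i w) (e * (w - z))) ∧
    (0 ≤ (shear t w).im → (shear t w).im ≤ h i →
      Dsp (Ψ i (shear t z)) (Ψ i (shear t w)) (e * (shear t w - shear t z)))) (by
    intro i z z0 z1 _
    refine (D.flat i z z0 z1).and ?_
    exact ((continuous_shear t).tendsto z).eventually
      (D.flat i (shear t z) (by rw [shear_im]; exact z0) (by rw [shear_im]; exact z1)))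
  filter_upwards [h1] with η hη
  obtain ⟨i, z, w, hz, hw, hzx, hwe, hp1, hp2⟩ := hη
  refine ⟨w - z, ?_, ?_⟩
  · rw [← hzx, ← hwe]
    exact hp1 hw.1 hw.2
  · rw [← hzx, ← hwe, hφ i z hz.1 hz.2, hφ i w hw.1 hw.2]
    have := hp2 (by rw [shear_im]; exact hw.1) (by rw [shear_im]; exact hw.2)
    have e1 : shear t w - shear t z = shear t (w - z) := by
      unfold shear
      simp only [Complex.sub_im]
      push_cast
      ring
    rwa [e1] at this

lemma twist_cont [Finite ι] [Finite (G v)] {t : ℝ} (φ : Surf v → Surf v)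
    (hφ : ∀ (i : ι) (z : ℂ), 0 ≤ z.im → z.im ≤ h i → φ (Ψ i z) = Ψ i (shear t z)) : Continuous φ := by
  rw [continuous_iff_continuousAt]
  intro ξ
  have h1 := D.twist_loc φ hφ ξ
  have hex : ∀ η : Surf v, ∃ d : ℂ, (∃ d : ℂ, Dsp ξ η (e * d) ∧ Dsp (φ ξ) (φ η) (e * shear t d)) →
      Dsp ξ η (e * d) ∧ Dsp (φ ξ) (φ η) (e * shear t d) := by
    intro η
    by_cases h : ∃ d : ℂ, Dsp ξ η (e * d) ∧ Dsp (φ ξ) (φ η) (e * shear t d)
    · obtain ⟨d, hd⟩ := h
      exact ⟨d, fun _ => hd⟩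
    · exact ⟨0, fun h' => absurd h' h⟩
  choose δ hδ using hex
  have h2 : ∀ᶠ η in 𝓝 ξ, Dsp ξ η (e * δ η) ∧ Dsp (φ ξ) (φ η) (e * shear t (δ η)) := by
    filter_upwards [h1] with η hη
    exact hδ η hη
  refine tendsto_of_dsp (δ := fun η => e * shear t (δ η)) (h2.mono fun η hη => hη.2) ?_
  have hn : Tendsto (fun η => ‖((proj η : body v) : ℂ) - (proj ξ : body v)‖) (𝓝 ξ) (𝓝 0) := by
    have hc : Continuous fun η : Surf v => ‖((proj η : body v) : ℂ) - (proj ξ : body v)‖ := by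
      have := continuous_proj (v := v)
      fun_prop
    have := hc.tendsto ξ
    rwa [sub_self, norm_zero] at this
  have hn2 : Tendsto (fun η => ‖δ η‖) (𝓝 ξ) (𝓝 0) := by
    refine hn.congr' ?_
    filter_upwards [h2] with η hη
    rw [dsp_norm hη.1, norm_mul, D.norm_e, one_mul]
  have hδ0 : Tendsto δ (𝓝 ξ) (𝓝 0) := tendsto_zero_iff_norm_tendsto_zero.2 hn2
  have hc : Continuous fun z : ℂ => e * shear t z := by
    have := continuous_shear t
    fun_prop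
  have h3 := (hc.tendsto 0).comp hδ0
  have e0 : e * shear t 0 = 0 := by unfold shear; simp
  rw [e0] at h3
  exact h3

/-- the multitwist -/
theorem twist [Finite ι] [Finite (G v)] {t : ℝ} (ht : ∀ i, ∃ n : ℤ, t * h i = n * l i) (A : SL(2, ℝ))
    (hA : ∀ z, act A (e * z) = e * shear t z) : ∃ φ : Surf v ≃ₜ Surf v, IsAffine A φ := by
  classical
  have hex : ∀ (s : ℝ), (∀ i, ∃ n : ℤ, s * h i = n * l i) → ∃ φ : Surf v → Surf v,
      ∀ (i : ι) (z : ℂ), 0 ≤ z.im → z.im ≤ h i → φ (Ψ i z) = Ψ i (shear s z) := by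
    intro s hs
    choose i z z0 z1 hz using D.surj
    refine ⟨fun ξ => Ψ (i ξ) (shear s (z ξ)), fun j w w0 w1 => ?_⟩
    exact D.twist_wd hs (z0 _) (z1 _) w0 w1 (hz _)
  have ht' : ∀ i, ∃ n : ℤ, (-t) * h i = n * l i := by
    intro i
    obtain ⟨n, hn⟩ := ht i
    refine ⟨-n, ?_⟩
    push_cast
    linarith
  obtain ⟨φ, hφ⟩ := hex t ht
  obtain ⟨ψ, hψ⟩ := hex (-t) ht'
  have h1 : ∀ ξ, ψ (φ ξ) = ξ := by
    intro ξ
    obtain ⟨i, z, z0, z1, rfl⟩ := D.surj ξ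
    rw [hφ i z z0 z1, hψ i _ (by rw [shear_im]; exact z0) (by rw [shear_im]; exact z1), shear_shear,
      neg_add_cancel, shear_zero]
  have h2 : ∀ ξ, φ (ψ ξ) = ξ := by
    intro ξ
    obtain ⟨i, z, z0, z1, rfl⟩ := D.surj ξ
    rw [hψ i z z0 z1, hφ i _ (by rw [shear_im]; exact z0) (by rw [shear_im]; exact z1), shear_shear,
      add_neg_cancel, shear_zero]
  refine ⟨⟨⟨φ, ψ, h1, h2⟩, D.twist_cont φ hφ, D.twist_cont ψ hψ⟩, ?_⟩
  intro ξ
  filter_upwards [D.twist_loc φ hφ ξ] with η hη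
  obtain ⟨d, ⟨g, x, y, e1, e2, e3⟩, ⟨g', x', y', e4, e5, e6⟩⟩ := hη
  refine ⟨g, g', x, y, x', y', e1, e2, e4, e5, ?_⟩
  rw [e6, e3, hA]

end Decomp

end

end Pool.Agent.OBT
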