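import Mathlib
import Pool.Agent.OBT.Quo
import Pool.Agent.OBT.Grp

/-!
# The lattice property depends only on the similarity class of the triangle
-/

open scoped ComplexConjugate Topology MatrixGroups UpperHalfPlane
open MeasureTheory Filter

namespace Pool.Agent.OBT

variable {v : Fin 3 → ℂ}

/-! ### Similarities -/

/-- a similarity between two triangles -/
structure Sim_data (v v' : Fin 3 → ℂ) where
  /-- linear part -/
  U : ℂ ≃ₗᵢ[ℝ] ℂ
  /-- ratio -/
  c : ℝ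
  hc : c ≠ 0
  /-- translation -/
  d : ℂ
  /-- labelling -/
  s : Equiv.Perm (Fin 3)
  h : ∀ k, v' k = c • U (v (s k)) + d

/-- the inverse similarity -/
noncomputable def Sim_data.symm {v v' : Fin 3 → ℂ} (S : Sim_data v v') : Sim_data v' v where
  U := S.U⁻¹
  c := S.c⁻¹
  hc := inv_ne_zero S.hc
  d := -(S.c⁻¹ • S.U⁻¹ S.d)
  s := S.s.symm
  h := by
    intro k
    have h1 : S.s (S.s.symm k) = k := S.s.apply_symm_apply k
    have h2 : ∀ z : ℂ, S.U⁻¹ (S.U z) = z := fun z => S.U.symm_apply_apply z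
    rw [S.h (S.s.symm k), h1, map_add, map_smul, h2, smul_add, smul_smul, inv_mul_cancel₀ S.hc,
      one_smul]
    abel

/-- the similarity as a map of the plane -/
noncomputable def Sim_data.rho {v v' : Fin 3 → ℂ} (S : Sim_data v v') (x : ℂ) : ℂ :=
  S.c • S.U x + S.d

section

variable {v' : Fin 3 → ℂ} (S : Sim_data v v')

theorem Sim_rho_comb (x y : ℂ) {a b : ℝ} (hab : a + b = 1) :
    S.rho (a • x + b • y) = a • S.rho x + b • S.rho y := by
  unfold Sim_data.rho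
  have h1 : S.d = a • S.d + b • S.d := by rw [← add_smul, hab, one_smul]
  rw [map_add, map_smul, map_smul, smul_add, smul_add, smul_add, smul_comm S.c a, smul_comm S.c b]
  nth_rewrite 1 [h1]
  abel

theorem Sim_rho_symm (x : ℂ) : S.symm.rho (S.rho x) = x := by
  unfold Sim_data.rho
  show S.c⁻¹ • S.U⁻¹ (S.c • S.U x + S.d) + -(S.c⁻¹ • S.U⁻¹ S.d) = x
  have h2 : ∀ z : ℂ, S.U⁻¹ (S.U z) = z := fun z => S.U.symm_apply_apply z
  rw [map_add, map_smul, h2, smul_add, smul_smul, inv_mul_cancel₀ S.hc, one_smul]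
  abel

theorem Sim_rho_symm' (x : ℂ) : S.rho (S.symm.rho x) = x := by
  unfold Sim_data.rho
  show S.c • S.U (S.c⁻¹ • S.U⁻¹ x + -(S.c⁻¹ • S.U⁻¹ S.d)) + S.d = x
  have h2 : ∀ z : ℂ, S.U (S.U⁻¹ z) = z := fun z => S.U.apply_symm_apply z
  rw [map_add, map_neg, map_smul, map_smul, h2, h2, smul_add, smul_neg, smul_smul, smul_smul,
    mul_inv_cancel₀ S.hc, one_smul, one_smul]
  abel

theorem Sim_body {x : ℂ} (hx : x ∈ body v) : S.rho x ∈ body v' := by
  have h1 : body v ⊆ S.rho ⁻¹' body v' := by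
    apply convexHull_min
    · rintro _ ⟨k, rfl⟩
      have h2 : S.rho (v k) = v' (S.s.symm k) := by
        rw [S.h, Equiv.apply_symm_apply]
        rfl
      show S.rho (v k) ∈ body v'
      rw [h2]
      exact subset_convexHull ℝ _ ⟨_, rfl⟩
    · intro x hx y hy a b ha hb hab
      show S.rho (a • x + b • y) ∈ body v'
      rw [Sim_rho_comb S x y hab]
      exact convex_convexHull ℝ _ hx hy ha hb hab
  exact h1 hx

theorem Sim_fin (s : Equiv.Perm (Fin 3)) (k : Fin 3) :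
    (s (k + 1) = s k + 1 ∧ s (k + 2) = s k + 2) ∨ (s (k + 1) = s k + 2 ∧ s (k + 2) = s k + 1) := by
  revert s k
  decide

theorem Sim_edge {k : Fin 3} {x : ℂ} (hx : x ∈ edge v (S.s k)) : S.rho x ∈ edge v' k := by
  have h0 : ∀ j, v' j = S.rho (v (S.s j)) := fun j => S.h j
  unfold edge
  rw [h0, h0]
  obtain ⟨a, b, ha, hb, hab, rfl⟩ := hx
  rw [Sim_rho_comb S _ _ hab]
  rcases Sim_fin S.s k with ⟨h1, h2⟩ | ⟨h1, h2⟩
  · rw [h1, h2]
    exact ⟨a, b, ha, hb, hab, rfl⟩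
  · rw [h1, h2]
    exact ⟨b, a, hb, ha, by rw [add_comm, hab], add_comm _ _⟩

theorem Sim_reflection_congr (K K' : Submodule ℝ ℂ) [K.HasOrthogonalProjection]
    [K'.HasOrthogonalProjection] (h : K = K') (z : ℂ) : K.reflection z = K'.reflection z := by
  subst h
  rfl

theorem Sim_refl (k : Fin 3) : refl v' k = S.U * refl v (S.s k) * S.U⁻¹ := by
  apply LinearIsometryEquiv.ext
  intro z
  show refl v' k z = S.U (refl v (S.s k) (S.U⁻¹ z))
  have hspan : (ℝ ∙ (v' (k + 2) - v' (k + 1))) =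
      (ℝ ∙ (v (S.s k + 2) - v (S.s k + 1))).map (S.U.toLinearEquiv : ℂ →ₗ[ℝ] ℂ) := by
    rw [Submodule.map_span, Set.image_singleton]
    have h1 : v' (k + 2) - v' (k + 1) = S.c • S.U (v (S.s (k + 2)) - v (S.s (k + 1))) := by
      rw [S.h, S.h, map_sub, smul_sub]
      abel
    have hu : IsUnit S.c := IsUnit.mk0 _ S.hc
    rw [h1, Submodule.span_singleton_smul_eq hu]
    rcases Sim_fin S.s k with ⟨h2, h3⟩ | ⟨h2, h3⟩
    · rw [h2, h3]
      rfl
    · rw [h2, h3]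
      have h4 : S.U (v (S.s k + 1) - v (S.s k + 2)) =
          (-1 : ℝ) • S.U (v (S.s k + 2) - v (S.s k + 1)) := by
        rw [map_sub, map_sub, smul_sub, neg_smul, neg_smul, one_smul, one_smul]
        abel
      rw [h4, Submodule.span_singleton_smul_eq (IsUnit.mk0 _ (by norm_num))]
      rfl
  unfold refl
  rw [Sim_reflection_congr _ _ hspan z, Submodule.reflection_map_apply]
  rfl

theorem Sim_G (g : ℂ ≃ₗᵢ[ℝ] ℂ) (hg : g ∈ G v) : S.U * g * S.U⁻¹ ∈ G v' := by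
  have h1 : G v ≤ (G v').comap (MulAut.conj S.U).toMonoidHom := by
    unfold G
    rw [Subgroup.closure_le]
    rintro _ ⟨k, rfl⟩
    show S.U * refl v k * S.U⁻¹ ∈ Subgroup.closure (Set.range (refl v'))
    have h2 := Sim_refl S (S.s.symm k)
    rw [Equiv.apply_symm_apply] at h2
    rw [← h2]
    exact Subgroup.subset_closure ⟨_, rfl⟩
  exact h1 hg

/-- conjugation of the linear parts -/
noncomputable def Sim_conj (g : G v) : G v' := ⟨S.U * g * S.U⁻¹, Sim_G S g g.2⟩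

theorem Sim_conj_mul (g h : G v) : Sim_conj S (g * h) = Sim_conj S g * Sim_conj S h := by
  apply Subtype.ext
  show S.U * (g * h) * S.U⁻¹ = (S.U * g * S.U⁻¹) * (S.U * h * S.U⁻¹)
  group

theorem Sim_conj_r (k : Fin 3) : Sim_conj S (r v k) = r v' (S.s.symm k) := by
  apply Subtype.ext
  show S.U * refl v k * S.U⁻¹ = refl v' (S.s.symm k)
  have h2 := Sim_refl S (S.s.symm k)
  rw [Equiv.apply_symm_apply] at h2
  exact h2.symm

theorem Sim_conj_symm (g : G v) : Sim_conj S.symm (Sim_conj S g) = g := by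
  apply Subtype.ext
  show S.U⁻¹ * (S.U * g * S.U⁻¹) * S.U⁻¹⁻¹ = g
  group

theorem Sim_conj_symm' (g : G v') : Sim_conj S (Sim_conj S.symm g) = g := by
  apply Subtype.ext
  show S.U * (S.U⁻¹ * g * S.U⁻¹⁻¹) * S.U⁻¹ = g
  group

/-- the map of the triangles -/
noncomputable def Sim_map (x : body v) : body v' := ⟨S.rho x, Sim_body S x.2⟩

theorem Sim_map_continuous : Continuous (Sim_map S) := by
  apply Continuous.subtype_mk
  unfold Sim_data.rho
  exact ((S.U.continuous.comp continuous_subtype_val).const_smul S.c).add continuous_const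

/-- the map of the unfoldings -/
noncomputable def Sim_surf : Surf v → Surf v' :=
  Quot.map (fun p => (Sim_conj S p.1, Sim_map S p.2)) (by
    rintro _ _ ⟨g, x, k, hx⟩
    show Glue v' (Sim_conj S g, Sim_map S x) (Sim_conj S (g * r v k), Sim_map S x)
    rw [Sim_conj_mul, Sim_conj_r]
    apply Glue.mk
    apply Sim_edge S
    rw [Equiv.apply_symm_apply]
    exact hx)

theorem Sim_surf_mk (g : G v) (x : body v) :
    Sim_surf S (Surf.mk g x) = Surf.mk (Sim_conj S g) (Sim_map S x) := rfl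

theorem Sim_surf_continuous : Continuous (Sim_surf S) := by
  let _ : TopologicalSpace (G v) := ⊥
  have : DiscreteTopology (G v) := ⟨rfl⟩
  apply continuous_coinduced_dom.2
  apply continuous_prod_of_discrete_left.2
  intro g
  exact (continuous_mk (Sim_conj S g)).comp (Sim_map_continuous S)

/-- the homeomorphism of the unfoldings -/
noncomputable def Sim_homeo : Surf v ≃ₜ Surf v' where
  toFun := Sim_surf S
  invFun := Sim_surf S.symm
  left_inv := by
    intro ξ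
    obtain ⟨g, x, rfl⟩ := mk_surjective ξ
    rw [Sim_surf_mk, Sim_surf_mk, Sim_conj_symm]
    congr 1
    exact Subtype.ext (Sim_rho_symm S x)
  right_inv := by
    intro ξ
    obtain ⟨g, x, rfl⟩ := mk_surjective ξ
    rw [Sim_surf_mk, Sim_surf_mk, Sim_conj_symm']
    congr 1
    exact Subtype.ext (Sim_rho_symm' S x)
  continuous_toFun := Sim_surf_continuous S
  continuous_invFun := Sim_surf_continuous S.symm

end

/-! ### Matrices -/

/-- the action of a matrix -/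
def Sim_actM (N : Matrix (Fin 2) (Fin 2) ℝ) (z : ℂ) : ℂ :=
  ⟨N 0 0 * z.re + N 0 1 * z.im, N 1 0 * z.re + N 1 1 * z.im⟩

theorem Sim_actM_mul (N N' : Matrix (Fin 2) (Fin 2) ℝ) (z : ℂ) :
    Sim_actM (N * N') z = Sim_actM N (Sim_actM N' z) := by
  unfold Sim_actM
  apply Complex.ext
  · simp only [Matrix.mul_apply, Fin.sum_univ_two]
    ring
  · simp only [Matrix.mul_apply, Fin.sum_univ_two]
    ring

/-- the matrix of a linear isometry -/
noncomputable def Sim_mat (U : ℂ ≃ₗᵢ[ℝ] ℂ) : Matrix (Fin 2) (Fin 2) ℝ :=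
  !![(U 1).re, (U Complex.I).re; (U 1).im, (U Complex.I).im]

theorem Sim_apply (U : ℂ ≃ₗᵢ[ℝ] ℂ) (z : ℂ) : U z = Sim_actM (Sim_mat U) z := by
  have h1 : z = z.re • (1 : ℂ) + z.im • Complex.I := by
    apply Complex.ext <;> simp
  have h2 : U z = z.re • U 1 + z.im • U Complex.I := by
    conv_lhs => rw [h1]
    rw [map_add, map_smul, map_smul]
  rw [h2]
  unfold Sim_actM Sim_mat
  apply Complex.ext
  · simp
    ring
  · simp
    ring

theorem Sim_mat_mul (U V : ℂ ≃ₗᵢ[ℝ] ℂ) : Sim_mat (U * V) = Sim_mat U * Sim_mat V := by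
  have h1 : ∀ z, (U * V) z = Sim_actM (Sim_mat U) (V z) := fun z => Sim_apply U (V z)
  ext i j
  fin_cases i <;> fin_cases j
  · simp only [Matrix.mul_apply, Fin.sum_univ_two]
    show ((U * V) 1).re = _
    rw [h1]
    simp [Sim_actM, Sim_mat]
  · simp only [Matrix.mul_apply, Fin.sum_univ_two]
    show ((U * V) Complex.I).re = _
    rw [h1]
    simp [Sim_actM, Sim_mat]
  · simp only [Matrix.mul_apply, Fin.sum_univ_two]
    show ((U * V) 1).im = _
    rw [h1]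
    simp [Sim_actM, Sim_mat]
  · simp only [Matrix.mul_apply, Fin.sum_univ_two]
    show ((U * V) Complex.I).im = _
    rw [h1]
    simp [Sim_actM, Sim_mat]

theorem Sim_mat_one : Sim_mat 1 = 1 := by
  ext i j
  fin_cases i <;> fin_cases j <;> simp [Sim_mat]

/-- the matrix as an element of `GL` -/
noncomputable def Sim_GL (U : ℂ ≃ₗᵢ[ℝ] ℂ) : GL (Fin 2) ℝ where
  val := Sim_mat U
  inv := Sim_mat U⁻¹
  val_inv := by rw [← Sim_mat_mul, mul_inv_cancel, Sim_mat_one]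
  inv_val := by rw [← Sim_mat_mul, inv_mul_cancel, Sim_mat_one]

/-- conjugation by a linear isometry -/
noncomputable def Sim_cj (U : ℂ ≃ₗᵢ[ℝ] ℂ) : SL(2, ℝ) →* SL(2, ℝ) where
  toFun A := ⟨Sim_mat U * A.1 * Sim_mat U⁻¹, by
    rw [Matrix.det_mul, Matrix.det_mul, A.2, mul_one, ← Matrix.det_mul, ← Sim_mat_mul,
      mul_inv_cancel, Sim_mat_one, Matrix.det_one]⟩
  map_one' := by
    apply Subtype.ext
    show Sim_mat U * 1 * Sim_mat U⁻¹ = 1
    rw [mul_one, ← Sim_mat_mul, mul_inv_cancel, Sim_mat_one]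
  map_mul' A B := by
    apply Subtype.ext
    show Sim_mat U * (A.1 * B.1) * Sim_mat U⁻¹ =
      (Sim_mat U * A.1 * Sim_mat U⁻¹) * (Sim_mat U * B.1 * Sim_mat U⁻¹)
    have h1 : Sim_mat U⁻¹ * Sim_mat U = 1 := by
      rw [← Sim_mat_mul, inv_mul_cancel, Sim_mat_one]
    calc Sim_mat U * (A.1 * B.1) * Sim_mat U⁻¹
        = Sim_mat U * A.1 * 1 * B.1 * Sim_mat U⁻¹ := by
          simp only [Matrix.mul_assoc, Matrix.one_mul]
      _ = Sim_mat U * A.1 * (Sim_mat U⁻¹ * Sim_mat U) * B.1 * Sim_mat U⁻¹ := by rw [h1]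
      _ = _ := by simp only [Matrix.mul_assoc]

theorem Sim_cj_val (U : ℂ ≃ₗᵢ[ℝ] ℂ) (A : SL(2, ℝ)) :
    (Sim_cj U A).1 = Sim_mat U * A.1 * Sim_mat U⁻¹ := rfl

theorem Sim_act_cj (U : ℂ ≃ₗᵢ[ℝ] ℂ) (A : SL(2, ℝ)) (z : ℂ) :
    act (Sim_cj U A) z = U (act A (U⁻¹ z)) := by
  have h1 : ∀ (B : SL(2, ℝ)) (z : ℂ), act B z = Sim_actM B.1 z := fun B z => rfl
  rw [h1, h1, Sim_cj_val, Sim_actM_mul, Sim_actM_mul, ← Sim_apply, ← Sim_apply]

theorem Sim_act_real (A : SL(2, ℝ)) (t : ℝ) (z : ℂ) : act A (t • z) = t • act A z := by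
  unfold act
  apply Complex.ext
  · simp
    ring
  · simp
    ring

theorem Sim_cj_cj (U : ℂ ≃ₗᵢ[ℝ] ℂ) (A : SL(2, ℝ)) : Sim_cj U (Sim_cj U⁻¹ A) = A := by
  apply Subtype.ext
  rw [Sim_cj_val, Sim_cj_val, inv_inv]
  have h1 : Sim_mat U * Sim_mat U⁻¹ = 1 := by
    rw [← Sim_mat_mul, mul_inv_cancel, Sim_mat_one]
  calc Sim_mat U * (Sim_mat U⁻¹ * A.1 * Sim_mat U) * Sim_mat U⁻¹
      = (Sim_mat U * Sim_mat U⁻¹) * A.1 * (Sim_mat U * Sim_mat U⁻¹) := by
        simp only [Matrix.mul_assoc]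
    _ = A.1 := by rw [h1, Matrix.one_mul, Matrix.mul_one]

theorem Sim_cj_continuous (U : ℂ ≃ₗᵢ[ℝ] ℂ) : Continuous (Sim_cj U) := by
  apply continuous_induced_rng.2
  exact (continuous_const.matrix_mul continuous_subtype_val).matrix_mul continuous_const

theorem Sim_cj_smul (U : ℂ ≃ₗᵢ[ℝ] ℂ) (A : SL(2, ℝ)) (z : ℍ) :
    (Sim_GL U)⁻¹ • (Sim_cj U A • z) = A • ((Sim_GL U)⁻¹ • z) := by
  have h1 : ∀ (B : SL(2, ℝ)) (z : ℍ), B • z =
      Matrix.SpecialLinearGroup.mapGL ℝ B • z := fun B z => rfl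
  have h2 : Matrix.SpecialLinearGroup.mapGL ℝ (Sim_cj U A) =
      Sim_GL U * Matrix.SpecialLinearGroup.mapGL ℝ A * (Sim_GL U)⁻¹ := by
    apply Units.ext
    rfl
  rw [h1, h1, h2, mul_smul, mul_smul, inv_smul_smul]

/-! ### Transfer of affine maps -/

section

variable {v' : Fin 3 → ℂ} (S : Sim_data v v')

theorem Sim_affine {A : SL(2, ℝ)} {φ : Surf v ≃ₜ Surf v} (h : IsAffine A φ) :
    IsAffine (Sim_cj S.U A) (((Sim_homeo S).symm.trans φ).trans (Sim_homeo S)) := by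
  intro ξ
  have hc : Filter.Tendsto (Sim_homeo S).symm (𝓝 ξ) (𝓝 ((Sim_homeo S).symm ξ)) :=
    (Sim_homeo S).symm.continuous.tendsto ξ
  filter_upwards [hc.eventually (h ((Sim_homeo S).symm ξ))] with η hη
  obtain ⟨g, g', x, y, x', y', h1, h2, h3, h4, h5⟩ := hη
  have hmk : ∀ (g : G v) (x : body v), Surf.mk (Sim_conj S g) (Sim_map S x) =
      Sim_homeo S (Surf.mk g x) := fun g x => rfl
  have hdisp : ∀ (g : G v) (x y : body v),
      ((Sim_conj S g : G v') : ℂ ≃ₗᵢ[ℝ] ℂ) ((Sim_map S y : ℂ) - Sim_map S x) =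
        S.c • S.U ((g : ℂ ≃ₗᵢ[ℝ] ℂ) ((y : ℂ) - x)) := by
    intro g x y
    have e1 : (Sim_map S y : ℂ) - Sim_map S x = S.c • S.U ((y : ℂ) - x) := by
      show (S.c • S.U (y : ℂ) + S.d) - (S.c • S.U (x : ℂ) + S.d) = _
      rw [map_sub, smul_sub]
      abel
    rw [e1]
    show S.U ((g : ℂ ≃ₗᵢ[ℝ] ℂ) (S.U⁻¹ (S.c • S.U ((y : ℂ) - x)))) = _
    have h2 : ∀ z : ℂ, S.U⁻¹ (S.U z) = z := fun z => S.U.symm_apply_apply z
    rw [map_smul, h2, map_smul, map_smul]
  refine ⟨Sim_conj S g, Sim_conj S g', Sim_map S x, Sim_map S y, Sim_map S x', Sim_map S y',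
    ?_, ?_, ?_, ?_, ?_⟩
  · rw [hmk, h1, Homeomorph.apply_symm_apply]
  · rw [hmk, h2, Homeomorph.apply_symm_apply]
  · rw [hmk, h3]
    rfl
  · rw [hmk, h4]
    rfl
  · rw [hdisp, hdisp, Sim_act_cj, h5]
    have h6 : ∀ z : ℂ, S.U⁻¹ (S.U z) = z := fun z => S.U.symm_apply_apply z
    rw [map_smul, h6, Sim_act_real, map_smul]

theorem Sim_veech {A : SL(2, ℝ)} (hA : A ∈ veech v) : Sim_cj S.U A ∈ veech v' := by
  rw [mem_veech_iff] at hA ⊢
  obtain ⟨φ, hφ⟩ := hA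
  exact ⟨_, Sim_affine S hφ⟩

theorem Sim_lattice (S : Sim_data v v') (hL : LatticeTriangle v) : LatticeTriangle v' := by
  obtain ⟨hd, F, hF, hF2, hF3⟩ := hL
  refine ⟨?_, (fun z => (Sim_GL S.U)⁻¹ • z) ⁻¹' F, ?_, ?_, ?_⟩
  · have h1 : ∀ A : veech v', Sim_cj S.U⁻¹ (A : SL(2, ℝ)) ∈ veech v := fun A =>
      Sim_veech S.symm A.2
    have := hd
    refine DiscreteTopology.of_continuous_injective
      (f := fun A : veech v' => (⟨Sim_cj S.U⁻¹ (A : SL(2, ℝ)), h1 A⟩ : veech v)) ?_ ?_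
    · exact ((Sim_cj_continuous S.U⁻¹).comp continuous_subtype_val).subtype_mk _
    · intro A B hAB
      have h2 : Sim_cj S.U⁻¹ (A : SL(2, ℝ)) = Sim_cj S.U⁻¹ (B : SL(2, ℝ)) :=
        congrArg Subtype.val hAB
      apply Subtype.ext
      rw [← Sim_cj_cj S.U (A : SL(2, ℝ)), ← Sim_cj_cj S.U (B : SL(2, ℝ)), h2]
  · exact measurable_const_smul _ hF
  · rw [measure_preimage_smul]
    exact hF2
  · intro z
    obtain ⟨γ, hγ, hz⟩ := hF3 ((Sim_GL S.U)⁻¹ • z)
    refine ⟨Sim_cj S.U γ, Sim_veech S hγ, ?_⟩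
    show (Sim_GL S.U)⁻¹ • (Sim_cj S.U γ • z) ∈ F
    rw [Sim_cj_smul]
    exact hz

end

theorem lattice_similar (c d : ℂ) (hc : c ≠ 0) (hL : LatticeTriangle v) :
    LatticeTriangle (fun k => c * v k + d) := by
  refine Sim_lattice (v := v) ⟨rotation (Circle.exp c.arg), ‖c‖, norm_ne_zero_iff.2 hc, d, 1, ?_⟩ hL
  intro k
  show c * v k + d = ‖c‖ • rotation (Circle.exp c.arg) (v k) + d
  rw [rotation_apply, Circle.coe_exp, Complex.real_smul, ← mul_assoc,
    Complex.norm_mul_exp_arg_mul_I]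

theorem lattice_conj (hL : LatticeTriangle v) : LatticeTriangle (fun k => conj (v k)) := by
  refine Sim_lattice (v := v) ⟨Complex.conjLIE, 1, one_ne_zero, 0, 1, ?_⟩ hL
  intro k
  show conj (v k) = (1 : ℝ) • Complex.conjLIE (v k) + 0
  rw [one_smul, add_zero]
  rfl

theorem lattice_perm (σ : Equiv.Perm (Fin 3)) (hL : LatticeTriangle v) :
    LatticeTriangle (fun k => v (σ k)) := by
  refine Sim_lattice (v := v) ⟨1, 1, one_ne_zero, 0, σ, ?_⟩ hL
  intro k
  show v (σ k) = (1 : ℝ) • v (σ k) + 0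
  rw [one_smul, add_zero]

end Pool.Agent.OBT
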