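import Mathlib
import Pool.Agent.OBT.Fam

/-!
# Isotypic families on the unfolding
-/

open scoped ComplexConjugate Topology Real
open MeasureTheory Filter

namespace Pool.Agent.OBT

noncomputable section

variable {v : Fin 3 → ℂ}

/-- the image of `1` -/
def uu (g : G v) : ℂ := (g : ℂ ≃ₗᵢ[ℝ] ℂ) 1

/-- `g` is a rotation -/
def rot (g : G v) : Prop := ∀ z : ℂ, (g : ℂ ≃ₗᵢ[ℝ] ℂ) z = uu g * z

theorem Iso_cases (f : ℂ ≃ₗᵢ[ℝ] ℂ) : (∀ z, f z = f 1 * z) ∨ (∀ z, f z = f 1 * conj z) := by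
  obtain ⟨a, h | h⟩ := linear_isometry_complex f
  · left
    intro z
    rw [h, rotation_apply, rotation_apply, mul_one]
  · right
    intro z
    rw [h, LinearIsometryEquiv.trans_apply, LinearIsometryEquiv.trans_apply, rotation_apply,
      rotation_apply, Complex.conjLIE_apply, Complex.conjLIE_apply, map_one, mul_one]

theorem norm_uu (g : G v) : ‖uu g‖ = 1 := by
  unfold uu
  rw [LinearIsometryEquiv.norm_map, norm_one]

theorem apply_of_rot {g : G v} (h : rot g) (z : ℂ) : (g : ℂ ≃ₗᵢ[ℝ] ℂ) z = uu g * z := h z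

theorem apply_of_not_rot {g : G v} (h : ¬ rot g) (z : ℂ) :
    (g : ℂ ≃ₗᵢ[ℝ] ℂ) z = uu g * conj z := by
  rcases Iso_cases (g : ℂ ≃ₗᵢ[ℝ] ℂ) with h1 | h1
  · exact absurd h1 h
  · exact h1 z

theorem rot_one : rot (1 : G v) := by
  intro z
  have h1 : ∀ w : ℂ, ((1 : G v) : ℂ ≃ₗᵢ[ℝ] ℂ) w = w := fun w => rfl
  unfold uu
  rw [h1, h1, one_mul]

theorem Iso_mul (g h : G v) (z : ℂ) :
    ((g * h : G v) : ℂ ≃ₗᵢ[ℝ] ℂ) z = (g : ℂ ≃ₗᵢ[ℝ] ℂ) ((h : ℂ ≃ₗᵢ[ℝ] ℂ) z) := rfl

theorem Iso_uu_mul (g h : G v) : uu (g * h) = (g : ℂ ≃ₗᵢ[ℝ] ℂ) (uu h) := rfl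

theorem Iso_uu_ne (g : G v) : uu g ≠ 0 := by
  intro h
  have := norm_uu g
  rw [h, norm_zero] at this
  exact zero_ne_one this

theorem Iso_not_rot {g : G v} {w : ℂ} (h : ∀ z, (g : ℂ ≃ₗᵢ[ℝ] ℂ) z = w * conj z) : ¬ rot g := by
  intro hr
  have h1 : uu g = w := by
    have := h 1
    rw [map_one (starRingEnd ℂ), mul_one] at this
    exact this
  have h2 := hr Complex.I
  rw [h, Complex.conj_I, h1] at h2
  have h3 : w ≠ 0 := h1 ▸ Iso_uu_ne g
  have h4 := mul_left_cancel₀ h3 h2
  have h5 := congrArg Complex.im h4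
  simp at h5
  norm_num at h5

theorem rot_mul_iff (g h : G v) : rot (g * h) ↔ (rot g ↔ rot h) := by
  by_cases hg : rot g
  · by_cases hh : rot h
    · refine iff_of_true ?_ (iff_of_true hg hh)
      intro z
      rw [Iso_mul, hh z, hg, Iso_uu_mul, hg, mul_assoc]
    · refine iff_of_false ?_ (fun h => hh (h.1 hg))
      apply Iso_not_rot (w := uu g * uu h)
      intro z
      rw [Iso_mul, apply_of_not_rot hh, hg, mul_assoc]
  · by_cases hh : rot h
    · refine iff_of_false ?_ (fun h => hg (h.2 hh))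
      apply Iso_not_rot (w := uu g * conj (uu h))
      intro z
      rw [Iso_mul, hh z, apply_of_not_rot hg, map_mul, mul_assoc]
    · refine iff_of_true ?_ (iff_of_false hg hh)
      intro z
      rw [Iso_mul, apply_of_not_rot hh, apply_of_not_rot hg, Iso_uu_mul, apply_of_not_rot hg,
        map_mul, Complex.conj_conj, mul_assoc]

theorem Iso_r (k : Fin 3) (z : ℂ) : ((r v k : G v) : ℂ ≃ₗᵢ[ℝ] ℂ) z = refl v k z := rfl

theorem Iso_refl_self (k : Fin 3) :
    refl v k (v (k + 2) - v (k + 1)) = v (k + 2) - v (k + 1) :=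
  Submodule.reflection_mem_subspace_eq_self (Submodule.mem_span_singleton_self _)

theorem Iso_refl_I (k : Fin 3) :
    refl v k (Complex.I * (v (k + 2) - v (k + 1))) = -(Complex.I * (v (k + 2) - v (k + 1))) := by
  apply Submodule.reflection_mem_subspace_orthogonalComplement_eq_neg
  rw [Submodule.mem_orthogonal_singleton_iff_inner_right, Complex.inner]
  rw [mul_assoc, Complex.mul_conj]
  simp

theorem not_rot_r (k : Fin 3) (hk : v (k + 1) ≠ v (k + 2)) : ¬ rot (r v k) := by
  intro hr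
  have hd : v (k + 2) - v (k + 1) ≠ 0 := sub_ne_zero.2 hk.symm
  have h1 := hr (v (k + 2) - v (k + 1))
  rw [Iso_r, Iso_refl_self] at h1
  have h2 : uu (r v k) = 1 := by
    have h3 : 1 * (v (k + 2) - v (k + 1)) = uu (r v k) * (v (k + 2) - v (k + 1)) := by
      rw [one_mul]
      exact h1
    exact (mul_right_cancel₀ hd h3).symm
  have h3 := hr (Complex.I * (v (k + 2) - v (k + 1)))
  rw [Iso_r, Iso_refl_I, h2, one_mul] at h3
  have h4 : Complex.I * (v (k + 2) - v (k + 1)) ≠ 0 := mul_ne_zero Complex.I_ne_zero hd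
  exact h4 (self_eq_neg.1 h3.symm)

theorem uu_mul_of_rot {g : G v} (h : G v) (hg : rot g) : uu (g * h) = uu g * uu h := by
  rw [Iso_uu_mul, hg]

theorem uu_mul_of_not_rot {g : G v} (h : G v) (hg : ¬ rot g) :
    uu (g * h) = uu g * conj (uu h) := by
  rw [Iso_uu_mul, apply_of_not_rot hg]

/-- `refl v k z = chi v k * z̄` -/
def chi (v : Fin 3 → ℂ) (k : Fin 3) : ℂ := refl v k 1

theorem refl_eq (k : Fin 3) (hk : v (k + 1) ≠ v (k + 2)) (z : ℂ) :
    refl v k z = chi v k * conj z := by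
  exact apply_of_not_rot (not_rot_r k hk) z

theorem chi_eq (k : Fin 3) (hk : v (k + 1) ≠ v (k + 2)) :
    chi v k = (v (k + 2) - v (k + 1)) / conj (v (k + 2) - v (k + 1)) := by
  have hd : v (k + 2) - v (k + 1) ≠ 0 := sub_ne_zero.2 hk.symm
  have hc : conj (v (k + 2) - v (k + 1)) ≠ 0 := (map_ne_zero _).2 hd
  rw [eq_div_iff hc, ← refl_eq k hk, Iso_refl_self]

open Classical in
/-- the isotypic family of weight `n` defined by a function on the triangle -/
def iso (n : ℤ) (F : ℂ → ℂ) (g : G v) (y : ℂ) : ℂ :=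
  uu g ^ n * (if rot g then F y else conj (F y))

theorem compat_iso (hv : ∀ k : Fin 3, v (k + 1) ≠ v (k + 2)) (n : ℤ) (F : ℂ → ℂ) (S : Set ℂ)
    (h : ∀ k, ∀ y ∈ edge v k \ S, F y = chi v k ^ n * conj (F y)) :
    Compat S (iso (v := v) n F) := by
  intro g k y hy
  have hr := not_rot_r k (hv k)
  have hu : uu (r v k) = chi v k := rfl
  have h1 := h k y hy
  unfold iso
  by_cases hg : rot g
  · have h2 : ¬ rot (g * r v k) := fun h => hr (((rot_mul_iff g (r v k)).1 h).1 hg)
    rw [if_neg h2, if_pos hg, uu_mul_of_rot _ hg, hu, mul_zpow, mul_assoc, ← h1]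
  · have h2 : rot (g * r v k) := (rot_mul_iff g (r v k)).2 (iff_of_false hg hr)
    have h3 : conj (F y) = conj (chi v k) ^ n * F y := by
      conv_lhs => rw [h1]
      rw [map_mul, map_zpow₀, Complex.conj_conj]
    rw [if_pos h2, if_neg hg, uu_mul_of_not_rot _ hg, hu, mul_zpow, mul_assoc, ← h3]

theorem Iso_conj_uu (g : G v) : conj (uu g) = (uu g)⁻¹ := by
  have h1 : uu g * conj (uu g) = 1 := by
    rw [Complex.mul_conj, Complex.normSq_eq_norm_sq, norm_uu]
    simp
  exact eq_inv_of_mul_eq_one_right h1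

theorem hasFDerivWithinAt_iso (n : ℤ) {F : ℂ → ℂ} {P Q : ℂ → ℂ} {s : Set ℂ} {y : ℂ}
    (h : HasFDerivWithinAt F (DD (P y) (Q y)) s y) (g : G v) :
    HasFDerivWithinAt (iso n F g) (DG g (iso (n - 1) P g y) (iso (n + 1) Q g y)) s y := by
  have hu := Iso_uu_ne g
  have hc := Iso_conj_uu g
  have hz1 : uu g ^ (n - 1) * uu g = uu g ^ n := by
    rw [← zpow_add_one₀ hu]
    congr 1
    ring
  have hz2 : uu g ^ (n + 1) * (uu g)⁻¹ = uu g ^ n := by
    rw [← zpow_sub_one₀ hu]
    congr 1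
    ring
  by_cases hg : rot g
  · have h1 : iso n F g = fun y => uu g ^ n * F y := by
      funext y
      unfold iso
      rw [if_pos hg]
    rw [h1]
    have h2 := h.const_mul (uu g ^ n)
    refine h2.congr_fderiv ?_
    ext z
    rw [DG_apply, hg z, _root_.smul_apply, DD_apply, smul_eq_mul]
    unfold iso
    rw [if_pos hg, if_pos hg, map_mul, hc]
    calc uu g ^ n * (P y * z + Q y * conj z) = uu g ^ n * P y * z + uu g ^ n * Q y * conj z := by
          ring
      _ = (uu g ^ (n - 1) * uu g) * P y * z + (uu g ^ (n + 1) * (uu g)⁻¹) * Q y * conj z := by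
          rw [hz1, hz2]
      _ = _ := by ring
  · have h1 : iso n F g = fun y => uu g ^ n * conj (F y) := by
      funext y
      unfold iso
      rw [if_neg hg]
    rw [h1]
    have h3 : HasFDerivWithinAt (fun y => conj (F y))
        ((Complex.conjCLE : ℂ ≃L[ℝ] ℂ).toContinuousLinearMap.comp (DD (P y) (Q y))) s y :=
      (Complex.conjCLE : ℂ ≃L[ℝ] ℂ).toContinuousLinearMap.hasFDerivAt.comp_hasFDerivWithinAt y h
    have h2 := h3.const_mul (uu g ^ n)
    refine h2.congr_fderiv ?_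
    ext z
    rw [DG_apply, apply_of_not_rot hg z, _root_.smul_apply,
      ContinuousLinearMap.comp_apply, DD_apply, smul_eq_mul]
    unfold iso
    rw [if_neg hg, if_neg hg, map_mul, hc, Complex.conj_conj]
    have h4 : ((Complex.conjCLE : ℂ ≃L[ℝ] ℂ).toContinuousLinearMap (P y * z + Q y * conj z)) =
        conj (P y) * conj z + conj (Q y) * z := by
      change conj (P y * z + Q y * conj z) = _
      rw [map_add, map_mul, map_mul, Complex.conj_conj]
    rw [h4]
    calc uu g ^ n * (conj (P y) * conj z + conj (Q y) * z) =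
          uu g ^ n * conj (P y) * conj z + uu g ^ n * conj (Q y) * z := by ring
      _ = (uu g ^ (n - 1) * uu g) * conj (P y) * conj z +
          (uu g ^ (n + 1) * (uu g)⁻¹) * conj (Q y) * z := by
          rw [hz1, hz2]
      _ = _ := by ring

theorem continuousOn_iso (n : ℤ) {F : ℂ → ℂ} {s : Set ℂ} (h : ContinuousOn F s) (g : G v) :
    ContinuousOn (iso n F g) s := by
  by_cases hg : rot g
  · have h1 : iso n F g = fun y => uu g ^ n * F y := by
      funext y
      unfold iso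
      rw [if_pos hg]
    rw [h1]
    exact continuousOn_const.mul h
  · have h1 : iso n F g = fun y => uu g ^ n * conj (F y) := by
      funext y
      unfold iso
      rw [if_neg hg]
    rw [h1]
    exact continuousOn_const.mul (Complex.continuous_conj.comp_continuousOn h)

theorem norm_iso (n : ℤ) (F : ℂ → ℂ) (g : G v) (y : ℂ) : ‖iso n F g y‖ = ‖F y‖ := by
  unfold iso
  rw [norm_mul, norm_zpow, norm_uu, one_zpow, one_mul]
  split_ifs
  · rfl
  · rw [RCLike.norm_conj]

theorem iso_mul (n m : ℤ) (F K : ℂ → ℂ) (g : G v) (y : ℂ) :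
    iso n F g y * iso m K g y = iso (n + m) (fun y => F y * K y) g y := by
  unfold iso
  rw [zpow_add₀ (Iso_uu_ne g)]
  split_ifs
  · ring
  · rw [map_mul]
    ring

theorem conj_iso (n : ℤ) (F : ℂ → ℂ) (g : G v) (y : ℂ) :
    conj (iso n F g y) = iso (-n) (fun y => conj (F y)) g y := by
  unfold iso
  rw [map_mul, map_zpow₀, Iso_conj_uu, inv_zpow', apply_ite (starRingEnd ℂ)]

theorem iso_congr_mod {N : ℕ} (hN : ∀ g : G v, uu g ^ N = 1) {n m : ℤ} (h : n ≡ m [ZMOD N])
    (F : ℂ → ℂ) (g : G v) (y : ℂ) : iso n F g y = iso m F g y := by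
  obtain ⟨k, hk⟩ := h.symm.dvd
  have h1 : n = m + (N : ℤ) * k := by linarith
  unfold iso
  rw [h1, zpow_add₀ (Iso_uu_ne g), zpow_mul, zpow_natCast, hN g, one_zpow, mul_one]

theorem sum_iso_zero (hv : ∀ k : Fin 3, v (k + 1) ≠ v (k + 2)) [Fintype (G v)] (F : ℂ → ℂ) :
    ∑ g : G v, ∫ y in body v, iso 0 F g y =
      (Fintype.card (G v) : ℂ) * ((∫ y in body v, F y).re : ℂ) := by
  classical
  set J : ℂ := ∫ y in body v, F y with hJ
  have h1 : ∀ g : G v, ∫ y in body v, iso 0 F g y = if rot g then J else conj J := by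
    intro g
    by_cases hg : rot g
    · rw [if_pos hg]
      have : ∀ y, iso 0 F g y = F y := by
        intro y
        unfold iso
        rw [if_pos hg, zpow_zero, one_mul]
      simp only [this]
      rfl
    · rw [if_neg hg, hJ, ← integral_conj]
      have : ∀ y, iso 0 F g y = conj (F y) := by
        intro y
        unfold iso
        rw [if_neg hg, zpow_zero, one_mul]
      simp only [this]
  have h2 : ∑ g : G v, ∫ y in body v, iso 0 F g y =
      ∑ g : G v, ∫ y in body v, iso 0 F (g * r v 0) y :=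
    (Equiv.sum_comp (Equiv.mulRight (r v 0)) (fun g : G v => ∫ y in body v, iso 0 F g y)).symm
  have h3 : ∀ g : G v, (∫ y in body v, iso 0 F g y) + (∫ y in body v, iso 0 F (g * r v 0) y) =
      2 * (J.re : ℂ) := by
    intro g
    have hr := not_rot_r 0 (hv 0)
    have h5 : J + conj J = 2 * (J.re : ℂ) := by
      rw [Complex.add_conj]
      push_cast
      ring
    rw [h1, h1]
    by_cases hg : rot g
    · have h4 : ¬ rot (g * r v 0) := fun h => hr (((rot_mul_iff g (r v 0)).1 h).1 hg)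
      rw [if_pos hg, if_neg h4, h5]
    · have h4 : rot (g * r v 0) := (rot_mul_iff g (r v 0)).2 (iff_of_false hg hr)
      rw [if_neg hg, if_pos h4, add_comm, h5]
  have h4 : (∑ g : G v, ∫ y in body v, iso 0 F g y) + (∑ g : G v, ∫ y in body v, iso 0 F g y) =
      (Fintype.card (G v) : ℂ) * (2 * (J.re : ℂ)) := by
    conv_lhs => rw [h2]
    conv_lhs => enter [1]; rw [← h2]
    rw [← Finset.sum_add_distrib, Finset.sum_congr rfl (fun g _ => h3 g), Finset.sum_const,
      nsmul_eq_mul]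
    rfl
  have h5 : (2 : ℂ) * (∑ g : G v, ∫ y in body v, iso 0 F g y) =
      2 * ((Fintype.card (G v) : ℂ) * (J.re : ℂ)) := by
    rw [two_mul, h4]
    ring
  exact mul_left_cancel₀ two_ne_zero h5

theorem sum_iso_of_ne_one [Fintype (G v)] (n : ℤ) (F : ℂ → ℂ) (g₀ : G v) (h₀ : rot g₀)
    (h : uu g₀ ^ n ≠ 1) : ∑ g : G v, ∫ y in body v, iso n F g y = 0 := by
  have h1 : ∀ (g : G v) (y : ℂ), iso n F (g₀ * g) y = uu g₀ ^ n * iso n F g y := by
    intro g y
    have h2 : rot (g₀ * g) ↔ rot g := by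
      rw [rot_mul_iff]
      exact ⟨fun h => h.1 h₀, fun h => iff_of_true h₀ h⟩
    unfold iso
    rw [uu_mul_of_rot _ h₀, mul_zpow]
    by_cases hg : rot g
    · rw [if_pos hg, if_pos (h2.2 hg), mul_assoc]
    · rw [if_neg hg, if_neg (fun h => hg (h2.1 h)), mul_assoc]
  have h2 : ∑ g : G v, ∫ y in body v, iso n F g y =
      ∑ g : G v, ∫ y in body v, iso n F (g₀ * g) y :=
    (Equiv.sum_comp (Equiv.mulLeft g₀) (fun g : G v => ∫ y in body v, iso n F g y)).symm
  have h3 : ∑ g : G v, ∫ y in body v, iso n F (g₀ * g) y =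
      uu g₀ ^ n * ∑ g : G v, ∫ y in body v, iso n F g y := by
    rw [Finset.mul_sum]
    refine Finset.sum_congr rfl (fun g _ => ?_)
    simp only [h1]
    rw [integral_const_mul]
  rw [h3] at h2
  have h4 : (1 - uu g₀ ^ n) * ∑ g : G v, ∫ y in body v, iso n F g y = 0 := by
    rw [sub_mul, one_mul, ← h2, sub_self]
  rcases mul_eq_zero.1 h4 with h5 | h5
  · exact absurd (sub_eq_zero.1 h5).symm h
  · exact h5

end

end Pool.Agent.OBT
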