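import Mathlib

/-!
# The functions `x^A (1-x)^B` on the closed upper half plane
-/

open scoped ComplexConjugate Topology Real
open MeasureTheory Filter

namespace Pool.Agent.OBT

noncomputable section

/-- the closed upper half plane -/
def Hb : Set ℂ := {x | 0 ≤ x.im}

/-- `x^A (1-x)^B` with `arg x ∈ [0,π]` and `arg (1-x) ∈ [-π,0]` -/
def mm (A B : ℝ) (x : ℂ) : ℂ :=
  x ^ (A : ℂ) * (Complex.exp (-(π * B) * Complex.I) * (x - 1) ^ (B : ℂ))

theorem SC0_norm_exp (t : ℝ) : ‖Complex.exp (-(π * t) * Complex.I)‖ = 1 := by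
  have : -((π : ℂ) * (t : ℂ)) * Complex.I = ((-(π * t) : ℝ) : ℂ) * Complex.I := by
    push_cast
    ring
  rw [this, Complex.norm_exp_ofReal_mul_I]

theorem SC0_exp_zero : Complex.exp (-((π : ℂ) * ((0 : ℝ) : ℂ)) * Complex.I) = 1 := by
  simp

theorem SC0_cpow_zero (x : ℂ) : x ^ (((0 : ℝ)) : ℂ) = 1 := by
  simp

/-- the logarithm on the closed upper half plane -/
theorem SC0_log {x : ℂ} (hx : x ∈ Hb) (h0 : x ≠ 0) :
    Complex.log x = Complex.log (-Complex.I * x) + π / 2 * Complex.I := by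
  have h1 : x = Complex.I * (-Complex.I * x) := by
    rw [← mul_assoc]
    simp
  have h2 : -Complex.I * x ≠ 0 := mul_ne_zero (neg_ne_zero.2 Complex.I_ne_zero) h0
  have h3 : 0 ≤ (-Complex.I * x).re := by
    have : (-Complex.I * x).re = x.im := by simp
    rw [this]
    exact hx
  have h4 := Complex.abs_arg_le_pi_div_two_iff.2 h3
  rw [abs_le] at h4
  conv_lhs => rw [h1]
  rw [(Complex.log_mul_eq_add_log_iff Complex.I_ne_zero h2).2, Complex.log_I]
  · ring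
  · rw [Complex.arg_I, Set.mem_Ioc]
    constructor
    · linarith [Real.pi_pos, h4.1]
    · linarith [h4.2]

theorem SC0_slit {x : ℂ} (hx : x ∈ Hb) (h0 : x ≠ 0) : -Complex.I * x ∈ Complex.slitPlane := by
  rw [Complex.mem_slitPlane_iff]
  have h1 : (-Complex.I * x).re = x.im := by simp
  have h2 : (-Complex.I * x).im = -x.re := by simp
  rw [h1, h2]
  have h3 : 0 ≤ x.im := hx
  rcases h3.lt_or_eq with h | h
  · exact Or.inl h
  · right
    intro h4
    apply h0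
    apply Complex.ext
    · simpa using h4
    · exact h.symm

theorem SC0_continuousOn_log : ContinuousOn Complex.log (Hb \ {0}) := by
  have h1 : ContinuousOn (fun x : ℂ => Complex.log (-Complex.I * x) + π / 2 * Complex.I)
      (Hb \ {0}) := by
    apply ContinuousOn.add _ continuousOn_const
    apply ContinuousOn.clog
    · exact (continuous_const.mul continuous_id).continuousOn
    · intro x hx
      exact SC0_slit hx.1 hx.2
  exact h1.congr (fun x hx => SC0_log hx.1 hx.2)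

theorem SC0_continuousOn_cpow (c : ℂ) : ContinuousOn (fun x : ℂ => x ^ c) (Hb \ {0}) := by
  have h1 : ContinuousOn (fun x : ℂ => Complex.exp (Complex.log x * c)) (Hb \ {0}) :=
    (SC0_continuousOn_log.mul continuousOn_const).cexp
  exact h1.congr (fun x hx => Complex.cpow_def_of_ne_zero hx.2 c)

theorem SC0_sub_one {x : ℂ} (hx : x ∈ Hb) : x - 1 ∈ Hb := by
  have : (x - 1).im = x.im := by simp
  change 0 ≤ (x - 1).im
  rw [this]
  exact hx

theorem SC0_continuousOn_sub (c : ℂ) : ContinuousOn (fun x : ℂ => (x - 1) ^ c) (Hb \ {1}) := by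
  have h1 : Set.MapsTo (fun x : ℂ => x - 1) (Hb \ {1}) (Hb \ {0}) := by
    intro x hx
    exact ⟨SC0_sub_one hx.1, sub_ne_zero.2 hx.2⟩
  exact (SC0_continuousOn_cpow c).comp (continuous_id.sub continuous_const).continuousOn h1

theorem mm_ne_zero (A B : ℝ) {x : ℂ} (h0 : x ≠ 0) (h1 : x ≠ 1) : mm A B x ≠ 0 := by
  have h2 : x - 1 ≠ 0 := sub_ne_zero.2 h1
  unfold mm
  rw [Complex.cpow_def_of_ne_zero h0, Complex.cpow_def_of_ne_zero h2]
  exact mul_ne_zero (Complex.exp_ne_zero _) (mul_ne_zero (Complex.exp_ne_zero _)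
    (Complex.exp_ne_zero _))

theorem norm_mm (A B : ℝ) {x : ℂ} (h0 : x ≠ 0) (h1 : x ≠ 1) :
    ‖mm A B x‖ = ‖x‖ ^ A * ‖x - 1‖ ^ B := by
  unfold mm
  rw [norm_mul, norm_mul, SC0_norm_exp, one_mul, Complex.norm_cpow_real, Complex.norm_cpow_real]

theorem mm_mul (A B A' B' : ℝ) {x : ℂ} (h0 : x ≠ 0) (h1 : x ≠ 1) :
    mm A B x * mm A' B' x = mm (A + A') (B + B') x := by
  have h2 : x - 1 ≠ 0 := sub_ne_zero.2 h1
  unfold mm
  rw [Complex.ofReal_add, Complex.ofReal_add, Complex.cpow_add _ _ h0, Complex.cpow_add _ _ h2]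
  have h3 : Complex.exp (-(π * ((B : ℂ) + (B' : ℂ))) * Complex.I) =
      Complex.exp (-(π * B) * Complex.I) * Complex.exp (-(π * B') * Complex.I) := by
    rw [← Complex.exp_add]
    congr 1
    ring
  rw [h3]
  ring

theorem mm_zero_zero (x : ℂ) : mm 0 0 x = 1 := by
  unfold mm
  rw [SC0_exp_zero, SC0_cpow_zero, SC0_cpow_zero, one_mul, one_mul]

theorem mm_one_zero (x : ℂ) : mm 1 0 x = x := by
  unfold mm
  rw [SC0_exp_zero, SC0_cpow_zero, one_mul, mul_one, Complex.ofReal_one, Complex.cpow_one]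

theorem mm_zero_one (x : ℂ) : mm 0 1 x = 1 - x := by
  unfold mm
  have h1 : Complex.exp (-((π : ℂ) * ((1 : ℝ) : ℂ)) * Complex.I) = -1 := by
    have : -((π : ℂ) * ((1 : ℝ) : ℂ)) * Complex.I = -(π * Complex.I) := by
      push_cast
      ring
    rw [this, Complex.exp_neg, Complex.exp_pi_mul_I]
    norm_num
  rw [SC0_cpow_zero, h1, Complex.ofReal_one, Complex.cpow_one]
  ring

theorem continuousOn_mm (A B : ℝ) : ContinuousOn (mm A B) (Hb \ {0, 1}) := by
  have h1 : Hb \ {0, 1} ⊆ Hb \ {0} := fun x hx => ⟨hx.1, fun h => hx.2 (Or.inl h)⟩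
  have h2 : Hb \ {0, 1} ⊆ Hb \ {1} := fun x hx => ⟨hx.1, fun h => hx.2 (Or.inr h)⟩
  exact ((SC0_continuousOn_cpow (A : ℂ)).mono h1).mul
    (continuousOn_const.mul ((SC0_continuousOn_sub (B : ℂ)).mono h2))

theorem hasDerivAt_mm (A B : ℝ) {x : ℂ} (hx : 0 < x.im) :
    HasDerivAt (mm A B) (A * mm (A - 1) B x - B * mm A (B - 1) x) x := by
  have hs0 : x ∈ Complex.slitPlane := Complex.mem_slitPlane_iff.2 (Or.inr hx.ne')
  have hs1 : x - 1 ∈ Complex.slitPlane := by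
    apply Complex.mem_slitPlane_iff.2
    right
    have : (x - 1).im = x.im := by simp
    rw [this]
    exact hx.ne'
  have h1 : HasDerivAt (fun y : ℂ => y ^ (A : ℂ)) ((A : ℂ) * x ^ ((A : ℂ) - 1) * 1) x :=
    (hasDerivAt_id x).cpow_const hs0
  have h2 : HasDerivAt (fun y : ℂ => (y - 1) ^ (B : ℂ)) ((B : ℂ) * (x - 1) ^ ((B : ℂ) - 1) * 1) x :=
    ((hasDerivAt_id x).sub_const 1).cpow_const hs1
  have h3 := h1.mul (h2.const_mul (Complex.exp (-(π * B) * Complex.I)))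
  have h4 : Complex.exp (-(π * ((B : ℂ) - 1)) * Complex.I) =
      -Complex.exp (-(π * B) * Complex.I) := by
    have : -((π : ℂ) * ((B : ℂ) - 1)) * Complex.I = -(π * B) * Complex.I + π * Complex.I := by ring
    rw [this, Complex.exp_add, Complex.exp_pi_mul_I]
    ring
  refine h3.congr_deriv ?_
  unfold mm
  rw [Complex.ofReal_sub, Complex.ofReal_sub, Complex.ofReal_one, h4]
  ring

theorem SC0_ofReal_sub (t : ℝ) : ((t - 1 : ℝ) : ℂ) = (t : ℂ) - 1 := by
  push_cast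
  ring

theorem SC0_cpow_neg (B : ℝ) {t : ℝ} (ht : t ≤ 0) :
    ((t : ℝ) : ℂ) ^ (B : ℂ) = Complex.exp (π * B * Complex.I) * (((-t) ^ B : ℝ) : ℂ) := by
  rw [Complex.ofReal_cpow_of_nonpos ht, ← Complex.ofReal_neg, ← Complex.ofReal_cpow (by linarith),
    mul_comm]
  congr 2
  ring

theorem SC0_exp_mul (B : ℝ) :
    Complex.exp (-(π * B) * Complex.I) * Complex.exp (π * B * Complex.I) = 1 := by
  rw [← Complex.exp_add]
  have : -((π : ℂ) * (B : ℂ)) * Complex.I + π * B * Complex.I = 0 := by ring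
  rw [this, Complex.exp_zero]

theorem mm_mid (A B : ℝ) {t : ℝ} (h0 : 0 < t) (h1 : t < 1) :
    mm A B t = ((t ^ A * (1 - t) ^ B : ℝ) : ℂ) := by
  unfold mm
  rw [← SC0_ofReal_sub, ← Complex.ofReal_cpow h0.le, SC0_cpow_neg B (by linarith : t - 1 ≤ 0),
    Complex.ofReal_mul]
  have h2 : -(t - 1) = 1 - t := by ring
  rw [h2, ← mul_assoc (Complex.exp _), SC0_exp_mul, one_mul]

theorem mm_neg (A B : ℝ) {t : ℝ} (h : t < 0) :
    mm A B t = Complex.exp (π * A * Complex.I) * (((-t) ^ A * (1 - t) ^ B : ℝ) : ℂ) := by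
  unfold mm
  rw [← SC0_ofReal_sub, SC0_cpow_neg A h.le, SC0_cpow_neg B (by linarith : t - 1 ≤ 0),
    Complex.ofReal_mul]
  have h2 : -(t - 1) = 1 - t := by ring
  rw [h2, ← mul_assoc (Complex.exp (-(π * B) * Complex.I)), SC0_exp_mul, one_mul, mul_assoc]

theorem mm_gt (A B : ℝ) {t : ℝ} (h : 1 < t) :
    mm A B t = Complex.exp (-(π * B) * Complex.I) * ((t ^ A * (t - 1) ^ B : ℝ) : ℂ) := by
  unfold mm
  rw [← SC0_ofReal_sub, ← Complex.ofReal_cpow (by linarith : (0 : ℝ) ≤ t),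
    ← Complex.ofReal_cpow (by linarith : (0 : ℝ) ≤ t - 1), Complex.ofReal_mul]
  ring

theorem SC0_cpow_ne (c : ℂ) {x : ℂ} (h0 : x ≠ 0) : x ^ c ≠ 0 := by
  rw [Complex.cpow_def_of_ne_zero h0]
  exact Complex.exp_ne_zero _

/-- comparison of `mm A B` with a power at the three singular points -/
theorem mm_div_zero (A B : ℝ) :
    Tendsto (fun x => mm A B x / mm A 0 x) (𝓝[Hb \ {0, 1}] 0) (𝓝 1) := by
  have h0 : (0 : ℂ) ∈ Hb \ {1} := ⟨by change (0 : ℝ) ≤ (0 : ℂ).im; simp, by simp⟩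
  have h1 : ContinuousWithinAt (fun x : ℂ => Complex.exp (-(π * B) * Complex.I) *
      (x - 1) ^ (B : ℂ)) (Hb \ {1}) 0 :=
    (continuousOn_const.mul (SC0_continuousOn_sub (B : ℂ))) 0 h0
  have h2 : Tendsto (fun x : ℂ => Complex.exp (-(π * B) * Complex.I) *
      (x - 1) ^ (B : ℂ)) (𝓝[Hb \ {0, 1}] 0) (𝓝 (Complex.exp (-(π * B) * Complex.I) *
      ((0 : ℂ) - 1) ^ (B : ℂ))) :=
    h1.mono_left (nhdsWithin_mono _ (fun x hx => ⟨hx.1, fun h => hx.2 (Or.inr h)⟩))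
  have h3 : Complex.exp (-(π * B) * Complex.I) * ((0 : ℂ) - 1) ^ (B : ℂ) = 1 := by
    have h4 := SC0_cpow_neg B (by norm_num : (-1 : ℝ) ≤ 0)
    have h5 : (0 : ℂ) - 1 = ((-1 : ℝ) : ℂ) := by
      push_cast
      ring
    rw [h5, h4, neg_neg, Real.one_rpow, Complex.ofReal_one, mul_one, SC0_exp_mul]
  rw [h3] at h2
  refine h2.congr' ?_
  filter_upwards [self_mem_nhdsWithin] with x hx
  have hx0 : x ≠ 0 := fun h => hx.2 (Or.inl h)
  unfold mm
  rw [SC0_exp_zero, SC0_cpow_zero, one_mul, mul_one, mul_div_cancel_left₀ _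
    (SC0_cpow_ne (A : ℂ) hx0)]

theorem mm_div_one (A B : ℝ) :
    Tendsto (fun x => mm A B x / mm 0 B x) (𝓝[Hb \ {0, 1}] 1) (𝓝 1) := by
  have h0 : (1 : ℂ) ∈ Hb \ {0} := ⟨by change (0 : ℝ) ≤ (1 : ℂ).im; simp, by simp⟩
  have h1 : ContinuousWithinAt (fun x : ℂ => x ^ (A : ℂ)) (Hb \ {0}) 1 :=
    (SC0_continuousOn_cpow (A : ℂ)) 1 h0
  have h2 : Tendsto (fun x : ℂ => x ^ (A : ℂ)) (𝓝[Hb \ {0, 1}] 1) (𝓝 ((1 : ℂ) ^ (A : ℂ))) :=
    h1.mono_left (nhdsWithin_mono _ (fun x hx => ⟨hx.1, fun h => hx.2 (Or.inl h)⟩))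
  rw [Complex.one_cpow] at h2
  refine h2.congr' ?_
  filter_upwards [self_mem_nhdsWithin] with x hx
  have hx1 : x - 1 ≠ 0 := sub_ne_zero.2 (fun h => hx.2 (Or.inr h))
  unfold mm
  rw [SC0_cpow_zero, one_mul, mul_div_cancel_right₀]
  exact mul_ne_zero (Complex.exp_ne_zero _) (SC0_cpow_ne _ hx1)

theorem SC0_arg {x : ℂ} (hx : x ∈ Hb) : 0 ≤ x.arg ∧ x.arg ≤ π :=
  ⟨Complex.arg_nonneg_iff.2 hx, Complex.arg_le_pi x⟩

theorem SC0_div (c : ℂ) {x : ℂ} (hx : x ∈ Hb) (h0 : x ≠ 0) (h1 : x ≠ 1) :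
    (x - 1) ^ c / x ^ c = (1 - x⁻¹) ^ c := by
  have h2 : x - 1 ≠ 0 := sub_ne_zero.2 h1
  have h3 : 1 - x⁻¹ = (x - 1) / x := by
    field_simp
  have h4 : (x - 1) / x ≠ 0 := div_ne_zero h2 h0
  have h5 : Complex.log ((x - 1) / x) = Complex.log (x - 1) - Complex.log x := by
    have h6 : Complex.exp (Complex.log (x - 1) - Complex.log x) = (x - 1) / x := by
      rw [Complex.exp_sub, Complex.exp_log h2, Complex.exp_log h0]
    rw [← h6, Complex.log_exp]
    · rw [Complex.sub_im, Complex.log_im, Complex.log_im]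
      have ha := SC0_arg (SC0_sub_one hx)
      have hb := SC0_arg hx
      rcases ha.1.lt_or_eq with h | h
      · linarith [hb.2]
      · have h7 : x.arg ≠ π := by
          intro h8
          have h9 := Complex.arg_eq_zero_iff.1 h.symm
          have h10 := Complex.arg_eq_pi_iff.1 h8
          have h11 : (x - 1).re = x.re - 1 := by simp
          have h12 := h9.1
          rw [h11] at h12
          linarith [h10.1]
        have h8 := lt_of_le_of_ne hb.2 h7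
        rw [← h]
        linarith
    · rw [Complex.sub_im, Complex.log_im, Complex.log_im]
      have ha := SC0_arg (SC0_sub_one hx)
      have hb := SC0_arg hx
      linarith [ha.2, hb.1]
  rw [h3, Complex.cpow_def_of_ne_zero h4, Complex.cpow_def_of_ne_zero h2,
    Complex.cpow_def_of_ne_zero h0, h5, ← Complex.exp_sub]
  congr 1
  ring

theorem mm_div_inf (A B : ℝ) :
    Tendsto (fun x => mm A B x / mm (A + B) 0 x) (Bornology.cobounded ℂ ⊓ 𝓟 Hb)
      (𝓝 (Complex.exp (-(π * B) * Complex.I))) := by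
  have hinv : Tendsto (fun x : ℂ => x⁻¹) (Bornology.cobounded ℂ ⊓ 𝓟 Hb) (𝓝 0) :=
    tendsto_inv₀_cobounded.mono_left inf_le_left
  have h1 : Tendsto (fun x : ℂ => (1 - x⁻¹)) (Bornology.cobounded ℂ ⊓ 𝓟 Hb) (𝓝 1) := by
    have := (tendsto_const_nhds (x := (1 : ℂ))).sub hinv
    rwa [sub_zero] at this
  have h2 : Tendsto (fun x : ℂ => (1 - x⁻¹) ^ (B : ℂ)) (Bornology.cobounded ℂ ⊓ 𝓟 Hb)
      (𝓝 ((1 : ℂ) ^ (B : ℂ))) := h1.cpow tendsto_const_nhds (by simp)
  rw [Complex.one_cpow] at h2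
  have h3 := (tendsto_const_nhds (x := Complex.exp (-(π * B) * Complex.I))).mul h2
  rw [mul_one] at h3
  refine h3.congr' ?_
  have hev : ∀ᶠ x : ℂ in Bornology.cobounded ℂ ⊓ 𝓟 Hb, 1 < ‖x‖ ∧ x ∈ Hb := by
    have h4 : ∀ᶠ x : ℂ in Bornology.cobounded ℂ, 1 < ‖x‖ :=
      (tendsto_norm_cobounded_atTop (E := ℂ)).eventually_gt_atTop 1
    have h5 : ∀ᶠ x : ℂ in 𝓟 Hb, x ∈ Hb := mem_principal_self Hb
    exact (h4.filter_mono inf_le_left).and (h5.filter_mono inf_le_right)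
  filter_upwards [hev] with x hx
  obtain ⟨hx1, hxH⟩ := hx
  have hx0 : x ≠ 0 := by
    intro h
    rw [h, norm_zero] at hx1
    linarith
  have hxn : x ≠ 1 := by
    intro h
    rw [h, norm_one] at hx1
    exact lt_irrefl _ hx1
  unfold mm
  rw [SC0_exp_zero, SC0_cpow_zero, one_mul, mul_one, Complex.ofReal_add, Complex.cpow_add _ _ hx0,
    ← SC0_div (B : ℂ) hxH hx0 hxn]
  have hA := SC0_cpow_ne (A : ℂ) hx0
  have hB := SC0_cpow_ne (B : ℂ) hx0
  field_simp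

end

end Pool.Agent.OBT
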