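import Mathlib
import Pool.Agent.OBT.SC0

/-!
# Primitives of `x^A (1-x)^B`
-/

open scoped ComplexConjugate Topology Real
open MeasureTheory Filter

namespace Pool.Agent.OBT

noncomputable section

/-! ### Integrability -/

theorem SC1_abs_rpow_pos {r : ℝ} (hr : -1 < r) {t : ℝ} (ht : 0 ≤ t) :
    IntervalIntegrable (fun x : ℝ => |x| ^ r) volume 0 t := by
  refine (intervalIntegral.intervalIntegrable_rpow' (a := 0) (b := t) hr).congr ?_
  intro x hx
  rw [Set.uIoc_of_le ht] at hx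
  show x ^ r = |x| ^ r
  rw [abs_of_pos hx.1]

theorem SC1_abs_rpow_zero {r : ℝ} (hr : -1 < r) (t : ℝ) :
    IntervalIntegrable (fun x : ℝ => |x| ^ r) volume 0 t := by
  rcases le_total 0 t with ht | ht
  · exact SC1_abs_rpow_pos hr ht
  · rw [IntervalIntegrable.iff_comp_neg]
    simp only [abs_neg, neg_zero]
    exact SC1_abs_rpow_pos hr (by linarith)

theorem SC1_abs_rpow {r : ℝ} (hr : -1 < r) (s t : ℝ) :
    IntervalIntegrable (fun x : ℝ => |x| ^ r) volume s t :=
  (SC1_abs_rpow_zero hr s).symm.trans (SC1_abs_rpow_zero hr t)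

theorem SC1_abs_sub_rpow {r : ℝ} (hr : -1 < r) (s t : ℝ) :
    IntervalIntegrable (fun x : ℝ => |x - 1| ^ r) volume s t := by
  have h := (SC1_abs_rpow hr (s - 1) (t - 1)).comp_sub_right 1
  simpa using h

/-- product of two powers, one of the bases being large -/
theorem SC1_two {a b p q : ℝ} (ha : -1 < a) (ha0 : a ≤ 0) (hb : -1 < b) (hb0 : b ≤ 0)
    (hp : 0 < p) (hq : 0 < q) (hpq : 1 ≤ p + q) : p ^ a * q ^ b ≤ 2 * (p ^ a + q ^ b) := by
  have hpa : 0 < p ^ a := Real.rpow_pos_of_pos hp a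
  have hqb : 0 < q ^ b := Real.rpow_pos_of_pos hq b
  have half : ∀ {c x : ℝ}, -1 < c → c ≤ 0 → 1 / 2 ≤ x → x ^ c ≤ 2 := by
    intro c x hc hc0 hx
    calc x ^ c ≤ (1 / 2 : ℝ) ^ c := Real.rpow_le_rpow_of_nonpos (by norm_num) hx hc0
      _ ≤ (1 / 2 : ℝ) ^ (-1 : ℝ) :=
          Real.rpow_le_rpow_of_exponent_ge (by norm_num) (by norm_num) hc.le
      _ = 2 := by rw [Real.rpow_neg_one]; norm_num
  rcases le_total (1 / 2) p with h | h
  · have := half ha ha0 h
    nlinarith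
  · have := half hb hb0 (show 1 / 2 ≤ q by linarith)
    nlinarith

theorem SC1_prod_int {a b : ℝ} (ha : -1 < a) (ha0 : a ≤ 0) (hb : -1 < b) (hb0 : b ≤ 0)
    (s t : ℝ) : IntervalIntegrable (fun x : ℝ => |x| ^ a * |x - 1| ^ b) volume s t := by
  have hsum : IntervalIntegrable (fun x : ℝ => 2 * (|x| ^ a + |x - 1| ^ b)) volume s t :=
    ((SC1_abs_rpow ha s t).add (SC1_abs_sub_rpow hb s t)).const_mul 2
  refine hsum.mono_fun' ?_ ?_
  · exact (by fun_prop : Measurable fun x : ℝ => |x| ^ a * |x - 1| ^ b).aestronglyMeasurable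
  · have h0 : ∀ᵐ x : ℝ ∂volume, x ≠ 0 ∧ x ≠ 1 := by
      filter_upwards [Measure.ae_ne volume (0 : ℝ), Measure.ae_ne volume (1 : ℝ)] with x hx hx'
      exact ⟨hx, hx'⟩
    filter_upwards [ae_restrict_of_ae h0] with x hx
    have h1 : 0 < |x| := abs_pos.mpr hx.1
    have h2 : 0 < |x - 1| := abs_pos.mpr (sub_ne_zero.mpr hx.2)
    rw [Real.norm_eq_abs, abs_of_pos (mul_pos (Real.rpow_pos_of_pos h1 a)
      (Real.rpow_pos_of_pos h2 b))]
    refine SC1_two ha ha0 hb hb0 h1 h2 ?_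
    have := abs_sub_abs_le_abs_sub (1 : ℝ) x
    have h3 : |(1 : ℝ)| = 1 := abs_one
    rw [abs_sub_comm x 1]
    have := abs_sub_abs_le_abs_sub (1 : ℝ) x
    linarith

/-! ### Bounds of `mm` -/

theorem SC1_norm_le (A B R : ℝ) : ∃ C : ℝ, 0 ≤ C ∧ ∀ x : ℂ, x ≠ 0 → x ≠ 1 → ‖x‖ ≤ R →
    ‖mm A B x‖ ≤ C * (‖x‖ ^ min A 0 * ‖x - 1‖ ^ min B 0) := by
  refine ⟨(max R 1) ^ (max A 0) * (max R 1 + 1) ^ (max B 0), by positivity, ?_⟩
  intro x h0 h1 hR
  have p : 0 < ‖x‖ := norm_pos_iff.mpr h0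
  have q : 0 < ‖x - 1‖ := norm_pos_iff.mpr (sub_ne_zero.mpr h1)
  have eA : min A 0 + max A 0 = A := by rw [min_add_max, add_zero]
  have eB : min B 0 + max B 0 = B := by rw [min_add_max, add_zero]
  have hA : ‖x‖ ^ A ≤ ‖x‖ ^ min A 0 * (max R 1) ^ (max A 0) := by
    conv_lhs => rw [← eA, Real.rpow_add p]
    exact mul_le_mul_of_nonneg_left (Real.rpow_le_rpow p.le (hR.trans (le_max_left _ _))
      (le_max_right _ _)) (Real.rpow_nonneg p.le _)
  have hq : ‖x - 1‖ ≤ max R 1 + 1 := by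
    refine (norm_sub_le _ _).trans ?_
    rw [norm_one]
    have := hR.trans (le_max_left R 1)
    linarith
  have hB : ‖x - 1‖ ^ B ≤ ‖x - 1‖ ^ min B 0 * (max R 1 + 1) ^ (max B 0) := by
    conv_lhs => rw [← eB, Real.rpow_add q]
    exact mul_le_mul_of_nonneg_left (Real.rpow_le_rpow q.le hq
      (le_max_right _ _)) (Real.rpow_nonneg q.le _)
  rw [norm_mm A B h0 h1]
  calc ‖x‖ ^ A * ‖x - 1‖ ^ B
      ≤ (‖x‖ ^ min A 0 * (max R 1) ^ (max A 0)) *
        (‖x - 1‖ ^ min B 0 * (max R 1 + 1) ^ (max B 0)) :=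
        mul_le_mul hA hB (Real.rpow_nonneg q.le _) (by positivity)
    _ = _ := by ring

theorem SC1_up {x : ℂ} (hx : 0 ≤ x.im) {s : ℝ} (hs : 0 ≤ s) :
    ‖x‖ ≤ ‖x + s * Complex.I‖ ∧ s ≤ ‖x + s * Complex.I‖ := by
  have him : (x + s * Complex.I).im = x.im + s := by simp
  have hre : (x + s * Complex.I).re = x.re := by simp
  constructor
  · apply le_of_sq_le_sq _ (norm_nonneg _)
    rw [← Complex.normSq_eq_norm_sq, ← Complex.normSq_eq_norm_sq, Complex.normSq_apply,
      Complex.normSq_apply, him, hre]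
    nlinarith
  · have := Complex.abs_im_le_norm (x + s * Complex.I)
    rw [him] at this
    have h2 := le_abs_self (x.im + s)
    linarith

theorem SC1_one_le (z : ℂ) : 1 ≤ ‖z‖ + ‖z - 1‖ := by
  have := norm_sub_le z (z - 1)
  rwa [sub_sub_cancel, norm_one] at this

theorem SC1_ne {x : ℂ} (hx : 0 ≤ x.im) {s : ℝ} (hs : 0 < s) :
    x + s * Complex.I ≠ 0 ∧ x + s * Complex.I ≠ 1 := by
  have him : (x + s * Complex.I).im = x.im + s := by simp
  constructor
  · intro h
    rw [h, Complex.zero_im] at him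
    linarith
  · intro h
    rw [h, Complex.one_im] at him
    linarith

/-- uniform bound above the real line -/
theorem SC1_unif (A B : ℝ) (hA : -1 < A) (hB : -1 < B) (R : ℝ) : ∃ C : ℝ, 0 ≤ C ∧
    ∀ x : ℂ, 0 ≤ x.im → ‖x‖ ≤ R → ∀ s : ℝ, 0 < s → s ≤ 1 →
      ‖mm A B (x + s * Complex.I)‖ ≤ C * (s ^ min A 0 + s ^ min B 0) := by
  obtain ⟨C, hC, h⟩ := SC1_norm_le A B (R + 1)
  refine ⟨C * 2, by positivity, ?_⟩
  intro x hx hR s hs hs1
  obtain ⟨n0, n1⟩ := SC1_ne hx hs
  have hx1 : 0 ≤ (x - 1).im := by simpa using hx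
  obtain ⟨-, u1⟩ := SC1_up hx hs.le
  obtain ⟨-, u2⟩ := SC1_up hx1 hs.le
  have e : x - 1 + s * Complex.I = x + s * Complex.I - 1 := by ring
  rw [e] at u2
  have hn : ‖x + s * Complex.I‖ ≤ R + 1 := by
    refine (norm_add_le _ _).trans ?_
    rw [norm_mul, Complex.norm_I, mul_one, Complex.norm_real, Real.norm_of_nonneg hs.le]
    linarith
  have a1 : -1 < min A 0 := lt_min hA (by norm_num)
  have b1 : -1 < min B 0 := lt_min hB (by norm_num)
  have h2 := SC1_two a1 (min_le_right A 0) b1 (min_le_right B 0) (norm_pos_iff.mpr n0)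
    (norm_pos_iff.mpr (sub_ne_zero.mpr n1)) (SC1_one_le _)
  have h3 : ‖x + s * Complex.I‖ ^ min A 0 ≤ s ^ min A 0 :=
    Real.rpow_le_rpow_of_nonpos hs u1 (min_le_right A 0)
  have h4 : ‖x + s * Complex.I - 1‖ ^ min B 0 ≤ s ^ min B 0 :=
    Real.rpow_le_rpow_of_nonpos hs u2 (min_le_right B 0)
  calc ‖mm A B (x + s * Complex.I)‖
      ≤ C * (‖x + s * Complex.I‖ ^ min A 0 * ‖x + s * Complex.I - 1‖ ^ min B 0) := h _ n0 n1 hn
    _ ≤ C * (2 * (s ^ min A 0 + s ^ min B 0)) := by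
        apply mul_le_mul_of_nonneg_left _ hC
        linarith
    _ = _ := by ring

/-! ### The primitive on the open half plane -/

theorem SC1_prim (A B : ℝ) : ∃ F : ℂ → ℂ, ∀ x : ℂ, 0 < x.im → HasDerivAt F (mm A B x) x := by
  have hconv : Convex ℝ {x : ℂ | 0 < x.im} := convex_halfSpace_im_gt 0
  have hopen : IsOpen {x : ℂ | 0 < x.im} := isOpen_lt continuous_const Complex.continuous_im
  obtain ⟨F, hF⟩ := hconv.exists_forall_hasDerivWithinAt (𝕜 := ℂ) (f := mm A B)
    (fun x hx => (hasDerivAt_mm A B hx).differentiableAt.differentiableWithinAt)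
  exact ⟨F, fun x hx => (hF x hx).hasDerivAt (hopen.mem_nhds hx)⟩

/-- the bound of the vertical increments -/
def SC1_bd (A B C : ℝ) (s : ℝ) : ℝ :=
  C * (s ^ (min A 0 + 1) / (min A 0 + 1) + s ^ (min B 0 + 1) / (min B 0 + 1))

theorem SC1_bd_tendsto (A B C : ℝ) (hA : -1 < A) (hB : -1 < B) :
    Tendsto (SC1_bd A B C) (𝓝[>] 0) (𝓝 0) := by
  have a1 : 0 < min A 0 + 1 := by
    have : -1 < min A 0 := lt_min hA (by norm_num)
    linarith
  have b1 : 0 < min B 0 + 1 := by
    have : -1 < min B 0 := lt_min hB (by norm_num)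
    linarith
  have h1 : ContinuousAt (SC1_bd A B C) 0 := by
    unfold SC1_bd
    have c1 : ContinuousAt (fun s : ℝ => s ^ (min A 0 + 1)) 0 :=
      Real.continuousAt_rpow_const 0 _ (Or.inr a1.le)
    have c2 : ContinuousAt (fun s : ℝ => s ^ (min B 0 + 1)) 0 :=
      Real.continuousAt_rpow_const 0 _ (Or.inr b1.le)
    exact continuousAt_const.mul ((c1.div_const _).add (c2.div_const _))
  have h2 : SC1_bd A B C 0 = 0 := by
    unfold SC1_bd
    rw [Real.zero_rpow a1.ne', Real.zero_rpow b1.ne']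
    simp
  have h3 : Tendsto (SC1_bd A B C) (𝓝 0) (𝓝 0) := by
    have := h1.tendsto
    rwa [h2] at this
  exact h3.mono_left nhdsWithin_le_nhds

theorem SC1_vert (A B : ℝ) (hA : -1 < A) (hB : -1 < B) {F : ℂ → ℂ}
    (hF : ∀ x : ℂ, 0 < x.im → HasDerivAt F (mm A B x) x) (R : ℝ) : ∃ C : ℝ, 0 ≤ C ∧
    ∀ x : ℂ, 0 ≤ x.im → ‖x‖ ≤ R → ∀ e' e : ℝ, 0 < e' → e' ≤ e → e ≤ 1 →
      ‖F (x + e * Complex.I) - F (x + e' * Complex.I)‖ ≤ SC1_bd A B C e := by
  obtain ⟨C, hC, h⟩ := SC1_unif A B hA hB R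
  refine ⟨C, hC, ?_⟩
  intro x hx hR e' e he' hee he1
  have a1 : 0 < min A 0 + 1 := by
    have : -1 < min A 0 := lt_min hA (by norm_num)
    linarith
  have b1 : 0 < min B 0 + 1 := by
    have : -1 < min B 0 := lt_min hB (by norm_num)
    linarith
  have hd : ∀ s : ℝ, 0 < s → HasDerivAt (fun s : ℝ => F (x + s * Complex.I) -
      F (x + e' * Complex.I)) (mm A B (x + s * Complex.I) * Complex.I) s := by
    intro s hs
    have him : 0 < (x + s * Complex.I).im := by
      have : (x + s * Complex.I).im = x.im + s := by simp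
      rw [this]; linarith
    have h1 : HasDerivAt (fun s : ℝ => x + s * Complex.I) Complex.I s := by
      have := ((Complex.ofRealCLM.hasDerivAt (x := s)).mul_const Complex.I).const_add x
      simpa using this
    exact ((hF _ him).comp s h1).sub_const _
  have hdB : ∀ s : ℝ, 0 < s → HasDerivAt (SC1_bd A B C) (C * (s ^ min A 0 + s ^ min B 0)) s := by
    intro s hs
    have c1 := (Real.hasDerivAt_rpow_const (x := s) (p := min A 0 + 1) (Or.inl hs.ne')).div_const
      (min A 0 + 1)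
    have c2 := (Real.hasDerivAt_rpow_const (x := s) (p := min B 0 + 1) (Or.inl hs.ne')).div_const
      (min B 0 + 1)
    have c3 := (c1.add c2).const_mul C
    rw [add_sub_cancel_right, add_sub_cancel_right, mul_div_assoc, mul_div_assoc,
      mul_comm (min A 0 + 1), mul_comm (min B 0 + 1), div_mul_cancel₀ _ a1.ne',
      div_mul_cancel₀ _ b1.ne'] at c3
    exact c3
  have key := image_norm_le_of_norm_deriv_right_le_deriv_boundary'
    (f := fun s : ℝ => F (x + s * Complex.I) - F (x + e' * Complex.I))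
    (f' := fun s : ℝ => mm A B (x + s * Complex.I) * Complex.I) (a := e') (b := e)
    (fun s hs => (hd s (lt_of_lt_of_le he' hs.1)).continuousAt.continuousWithinAt)
    (fun s hs => (hd s (lt_of_lt_of_le he' hs.1)).hasDerivWithinAt)
    (B := SC1_bd A B C) (B' := fun s => C * (s ^ min A 0 + s ^ min B 0))
    (by
      simp only [sub_self, norm_zero]
      unfold SC1_bd
      positivity)
    (fun s hs => (hdB s (lt_of_lt_of_le he' hs.1)).continuousAt.continuousWithinAt)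
    (fun s hs => (hdB s (lt_of_lt_of_le he' hs.1)).hasDerivWithinAt)
    (fun s hs => by
      rw [norm_mul, Complex.norm_I, mul_one]
      exact h x hx hR s (lt_of_lt_of_le he' hs.1) (hs.2.le.trans he1))
  exact key ⟨hee, le_rfl⟩

/-- the boundary values -/
theorem SC1_lim (A B : ℝ) (hA : -1 < A) (hB : -1 < B) {F : ℂ → ℂ}
    (hF : ∀ x : ℂ, 0 < x.im → HasDerivAt F (mm A B x) x) : ∃ J : ℂ → ℂ, ∀ R : ℝ,
    ∃ C : ℝ, ∀ x : ℂ, 0 ≤ x.im → ‖x‖ ≤ R → ∀ e : ℝ, 0 < e → e ≤ 1 →
      ‖F (x + e * Complex.I) - J x‖ ≤ SC1_bd A B C e := by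
  have hu0 : ∀ n : ℕ, (0 : ℝ) < 1 / ((n : ℝ) + 1) := fun n => by positivity
  have hu1 : ∀ n : ℕ, (1 : ℝ) / ((n : ℝ) + 1) ≤ 1 := fun n => by
    rw [div_le_one (by positivity)]
    have : (0 : ℝ) ≤ n := Nat.cast_nonneg n
    linarith
  have hanti : ∀ n m : ℕ, n ≤ m → (1 : ℝ) / ((m : ℝ) + 1) ≤ 1 / ((n : ℝ) + 1) := fun n m hnm =>
    one_div_le_one_div_of_le (by positivity) (by
      have : (n : ℝ) ≤ m := by exact_mod_cast hnm
      linarith)
  have hlim : Tendsto (fun n : ℕ => (1 : ℝ) / ((n : ℝ) + 1)) atTop (𝓝[>] 0) :=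
    tendsto_nhdsWithin_iff.mpr ⟨tendsto_one_div_add_atTop_nhds_zero_nat,
      Eventually.of_forall hu0⟩
  have hex : ∀ x : ℂ, ∃ J : ℂ, 0 ≤ x.im → Tendsto (fun n : ℕ => F (x +
      ((1 / ((n : ℝ) + 1) : ℝ) : ℂ) * Complex.I)) atTop (𝓝 J) := by
    intro x
    by_cases hx : 0 ≤ x.im
    swap
    · exact ⟨0, fun h => absurd h hx⟩
    obtain ⟨C, hC, h⟩ := SC1_vert A B hA hB hF ‖x‖
    have hcau : CauchySeq (fun n : ℕ => F (x + ((1 / ((n : ℝ) + 1) : ℝ) : ℂ) * Complex.I)) := by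
      refine cauchySeq_of_le_tendsto_0 (fun n => SC1_bd A B C (1 / ((n : ℝ) + 1)) +
        SC1_bd A B C (1 / ((n : ℝ) + 1))) ?_ ?_
      · intro n m N hn hm
        have t1 := h x hx le_rfl _ _ (hu0 n) (hanti N n hn) (hu1 N)
        have t2 := h x hx le_rfl _ _ (hu0 m) (hanti N m hm) (hu1 N)
        rw [dist_comm]
        calc dist (F (x + ((1 / ((m : ℝ) + 1) : ℝ) : ℂ) * Complex.I))
              (F (x + ((1 / ((n : ℝ) + 1) : ℝ) : ℂ) * Complex.I))
            ≤ dist (F (x + ((1 / ((m : ℝ) + 1) : ℝ) : ℂ) * Complex.I))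
                (F (x + ((1 / ((N : ℝ) + 1) : ℝ) : ℂ) * Complex.I)) +
              dist (F (x + ((1 / ((N : ℝ) + 1) : ℝ) : ℂ) * Complex.I))
                (F (x + ((1 / ((n : ℝ) + 1) : ℝ) : ℂ) * Complex.I)) := dist_triangle _ _ _
          _ ≤ _ := by
              rw [dist_comm, dist_eq_norm, dist_eq_norm]
              exact add_le_add t2 t1
      · have := (SC1_bd_tendsto A B C hA hB).comp hlim
        have h2 := this.add this
        simpa using h2
    obtain ⟨J, hJ⟩ := cauchySeq_tendsto_of_complete hcau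
    exact ⟨J, fun _ => hJ⟩
  choose J hJ using hex
  refine ⟨J, fun R => ?_⟩
  obtain ⟨C, hC, h⟩ := SC1_vert A B hA hB hF R
  refine ⟨C, ?_⟩
  intro x hx hR e he he1
  have t1 : Tendsto (fun n : ℕ => ‖F (x + e * Complex.I) -
      F (x + ((1 / ((n : ℝ) + 1) : ℝ) : ℂ) * Complex.I)‖) atTop
      (𝓝 ‖F (x + e * Complex.I) - J x‖) := ((hJ x hx).const_sub _).norm
  refine le_of_tendsto t1 ?_
  have hev : ∀ᶠ n : ℕ in atTop, (1 : ℝ) / ((n : ℝ) + 1) < e :=
    (tendsto_order.1 tendsto_one_div_add_atTop_nhds_zero_nat).2 e he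
  filter_upwards [hev] with n hn
  exact h x hx hR _ _ (hu0 n) hn.le he1

/-! ### Real arguments -/

theorem SC1_real (x : ℝ) : ‖(x : ℂ)‖ = |x| ∧ ‖(x : ℂ) - 1‖ = |x - 1| := by
  constructor
  · rw [Complex.norm_real, Real.norm_eq_abs]
  · have : (x : ℂ) - 1 = ((x - 1 : ℝ) : ℂ) := by push_cast; rfl
    rw [this, Complex.norm_real, Real.norm_eq_abs]

theorem SC1_ae : ∀ᵐ x : ℝ ∂volume, (x : ℂ) ≠ 0 ∧ (x : ℂ) ≠ 1 := by
  filter_upwards [Measure.ae_ne volume (0 : ℝ), Measure.ae_ne volume (1 : ℝ)] with x hx hx'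
  exact ⟨by exact_mod_cast hx, by exact_mod_cast hx'⟩

theorem SC1_mem {s t x : ℝ} (hx : x ∈ Set.uIoc s t) : |x| ≤ |s| + |t| := by
  have h1 := hx.1
  have h2 := hx.2
  have a1 := abs_nonneg s
  have a2 := abs_nonneg t
  have b1 := le_abs_self s
  have b2 := le_abs_self t
  have c1 := neg_abs_le s
  have c2 := neg_abs_le t
  rw [abs_le]
  constructor
  · rcases min_choice s t with h | h
    · rw [h] at h1; linarith
    · rw [h] at h1; linarith
  · rcases max_choice s t with h | h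
    · rw [h] at h2; linarith
    · rw [h] at h2; linarith

theorem intervalIntegrable_mm (A B : ℝ) (hA : -1 < A) (hB : -1 < B) (s t : ℝ) :
    IntervalIntegrable (fun x : ℝ => mm A B (x : ℂ)) volume s t := by
  obtain ⟨C, hC, h⟩ := SC1_norm_le A B (|s| + |t|)
  have hint := (SC1_prod_int (lt_min hA (by norm_num)) (min_le_right A 0)
    (lt_min hB (by norm_num)) (min_le_right B 0) s t).const_mul C
  refine hint.mono_fun' ?_ ?_
  · have hm : Measurable (fun x : ℝ => mm A B (x : ℂ)) := by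
      unfold mm
      exact (Complex.measurable_ofReal.pow_const _).mul
        (measurable_const.mul ((Complex.measurable_ofReal.sub_const 1).pow_const _))
    exact hm.aestronglyMeasurable
  · filter_upwards [ae_restrict_of_ae SC1_ae, ae_restrict_mem measurableSet_uIoc] with x hx hx'
    obtain ⟨e1, e2⟩ := SC1_real x
    have := h x hx.1 hx.2 (by rw [e1]; exact SC1_mem hx')
    rwa [e1, e2] at this

theorem SC1_im (x e : ℝ) : ((x : ℂ) + e * Complex.I).im = e := by simp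

theorem SC1_horiz (A B : ℝ) {F : ℂ → ℂ}
    (hF : ∀ x : ℂ, 0 < x.im → HasDerivAt F (mm A B x) x) (s t e : ℝ) (he : 0 < e) :
    F (t + e * Complex.I) - F (s + e * Complex.I)
      = ∫ x in s..t, mm A B ((x : ℂ) + e * Complex.I) := by
  have hline : ∀ x : ℝ, HasDerivAt (fun x : ℝ => (x : ℂ) + e * Complex.I) 1 x := fun x => by
    have := (Complex.ofRealCLM.hasDerivAt (x := x)).add_const (e * Complex.I)
    simpa using this
  have hd : ∀ x : ℝ, HasDerivAt (fun x : ℝ => F ((x : ℂ) + e * Complex.I))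
      (mm A B ((x : ℂ) + e * Complex.I)) x := fun x => by
    have h1 := (hF _ (by rw [SC1_im]; exact he)).comp x (hline x)
    rw [mul_one] at h1
    exact h1
  have hcont : Continuous fun x : ℝ => mm A B ((x : ℂ) + e * Complex.I) := by
    rw [continuous_iff_continuousAt]
    intro x
    exact ((hasDerivAt_mm A B (by rw [SC1_im]; exact he)).comp x (hline x)).continuousAt
  rw [intervalIntegral.integral_eq_sub_of_hasDerivAt (fun x _ => hd x)
    (hcont.intervalIntegrable s t)]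

theorem SC1_dom (A B : ℝ) (hA : -1 < A) (hB : -1 < B) (s t : ℝ) :
    Tendsto (fun e : ℝ => ∫ x in s..t, mm A B ((x : ℂ) + e * Complex.I)) (𝓝[>] 0)
      (𝓝 (∫ x in s..t, mm A B (x : ℂ))) := by
  obtain ⟨C, hC, h⟩ := SC1_norm_le A B (|s| + |t| + 1)
  have a0 : min A 0 ≤ 0 := min_le_right A 0
  have b0 : min B 0 ≤ 0 := min_le_right B 0
  have hint := (SC1_prod_int (lt_min hA (by norm_num)) a0 (lt_min hB (by norm_num)) b0 s t).const_mul C
  have hpos : ∀ᶠ e : ℝ in 𝓝[>] 0, 0 < e := self_mem_nhdsWithin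
  have hle : ∀ᶠ e : ℝ in 𝓝[>] 0, e ≤ 1 := by
    have : ∀ᶠ e : ℝ in 𝓝 0, e ≤ 1 := eventually_le_nhds (by norm_num)
    exact this.filter_mono nhdsWithin_le_nhds
  refine intervalIntegral.tendsto_integral_filter_of_dominated_convergence
    (fun x => C * (|x| ^ min A 0 * |x - 1| ^ min B 0)) ?_ ?_ hint ?_
  · filter_upwards [hpos] with e he
    have hcont : Continuous fun x : ℝ => mm A B ((x : ℂ) + e * Complex.I) := by
      rw [continuous_iff_continuousAt]
      intro x
      have hline : HasDerivAt (fun x : ℝ => (x : ℂ) + e * Complex.I) 1 x := by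
        have := (Complex.ofRealCLM.hasDerivAt (x := x)).add_const (e * Complex.I)
        simpa using this
      exact ((hasDerivAt_mm A B (by rw [SC1_im]; exact he)).comp x hline).continuousAt
    exact hcont.aestronglyMeasurable
  · filter_upwards [hpos, hle] with e he he1
    filter_upwards [SC1_ae] with x hx hx'
    obtain ⟨e1, e2⟩ := SC1_real x
    have hx0 : (0 : ℝ) ≤ ((x : ℂ)).im := by simp
    have hx1 : (0 : ℝ) ≤ ((x : ℂ) - 1).im := by simp
    obtain ⟨n0, n1⟩ := SC1_ne hx0 he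
    have u1 := (SC1_up hx0 he.le).1
    have u2 := (SC1_up hx1 he.le).1
    have e3 : (x : ℂ) - 1 + e * Complex.I = x + e * Complex.I - 1 := by ring
    rw [e3] at u2
    have hn : ‖(x : ℂ) + e * Complex.I‖ ≤ |s| + |t| + 1 := by
      refine (norm_add_le _ _).trans ?_
      rw [norm_mul, Complex.norm_I, mul_one, Complex.norm_real, Complex.norm_real,
        Real.norm_eq_abs, Real.norm_of_nonneg he.le]
      have := SC1_mem hx'
      linarith
    have p : 0 < |x| := by rw [← e1]; exact norm_pos_iff.mpr hx.1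
    have q : 0 < |x - 1| := by rw [← e2]; exact norm_pos_iff.mpr (sub_ne_zero.mpr hx.2)
    rw [e1] at u1
    rw [e2] at u2
    refine (h _ n0 n1 hn).trans (mul_le_mul_of_nonneg_left ?_ hC)
    exact mul_le_mul (Real.rpow_le_rpow_of_nonpos p u1 a0) (Real.rpow_le_rpow_of_nonpos q u2 b0)
      (Real.rpow_nonneg (norm_nonneg _) _) (Real.rpow_nonneg p.le _)
  · filter_upwards [SC1_ae] with x hx _
    have hmem : (x : ℂ) ∈ Hb \ {0, 1} := by
      refine ⟨?_, ?_⟩
      · show (0 : ℝ) ≤ ((x : ℂ)).im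
        simp
      · simp only [Set.mem_insert_iff, Set.mem_singleton_iff, not_or]
        exact hx
    have hc := (continuousOn_mm A B) (x : ℂ) hmem
    refine hc.tendsto.comp ?_
    rw [tendsto_nhdsWithin_iff]
    constructor
    · have : Tendsto (fun e : ℝ => (x : ℂ) + e * Complex.I) (𝓝 0)
          (𝓝 ((x : ℂ) + ((0 : ℝ) : ℂ) * Complex.I)) :=
        (by fun_prop : Continuous fun e : ℝ => (x : ℂ) + e * Complex.I).tendsto 0
      rw [Complex.ofReal_zero, zero_mul, add_zero] at this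
      exact this.mono_left nhdsWithin_le_nhds
    · filter_upwards [hpos] with e he
      have hx0 : (0 : ℝ) ≤ ((x : ℂ)).im := by simp
      obtain ⟨n0, n1⟩ := SC1_ne hx0 he
      refine ⟨?_, ?_⟩
      · show 0 ≤ ((x : ℂ) + e * Complex.I).im
        rw [SC1_im]; exact he.le
      · simp only [Set.mem_insert_iff, Set.mem_singleton_iff, not_or]
        exact ⟨n0, n1⟩

theorem exists_prim (A B : ℝ) (hA : -1 < A) (hB : -1 < B) : ∃ J : ℂ → ℂ,
    ContinuousOn J Hb ∧ J 0 = 0 ∧ (∀ x : ℂ, 0 < x.im → HasDerivAt J (mm A B x) x) ∧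
    ∀ s t : ℝ, J t - J s = ∫ x in s..t, mm A B (x : ℂ) := by
  obtain ⟨F, hF⟩ := SC1_prim A B
  obtain ⟨J, hJ⟩ := SC1_lim A B hA hB hF
  have hpos : ∀ᶠ e : ℝ in 𝓝[>] 0, 0 < e := self_mem_nhdsWithin
  have hle : ∀ᶠ e : ℝ in 𝓝[>] 0, e ≤ 1 := by
    have : ∀ᶠ e : ℝ in 𝓝 0, e ≤ 1 := eventually_le_nhds (by norm_num)
    exact this.filter_mono nhdsWithin_le_nhds
  -- limits
  have hlim : ∀ x : ℂ, 0 ≤ x.im → Tendsto (fun e : ℝ => F (x + e * Complex.I)) (𝓝[>] 0)
      (𝓝 (J x)) := by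
    intro x hx
    obtain ⟨C, h⟩ := hJ ‖x‖
    rw [tendsto_iff_norm_sub_tendsto_zero]
    refine squeeze_zero' (Eventually.of_forall fun e => norm_nonneg _) ?_
      (SC1_bd_tendsto A B C hA hB)
    filter_upwards [hpos, hle] with e he he1
    exact h x hx le_rfl e he he1
  -- continuity
  have hcont : ContinuousOn J Hb := by
    intro x hx
    obtain ⟨C, h⟩ := hJ (‖x‖ + 1)
    have hunif : TendstoUniformlyOn (fun (e : ℝ) (y : ℂ) => F (y + e * Complex.I)) J (𝓝[>] 0)
        (Hb ∩ Metric.ball 0 (‖x‖ + 1)) := by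
      rw [Metric.tendstoUniformlyOn_iff]
      intro d hd
      have hsm : ∀ᶠ e : ℝ in 𝓝[>] 0, SC1_bd A B C e < d :=
        (SC1_bd_tendsto A B C hA hB).eventually_lt_const hd
      filter_upwards [hpos, hle, hsm] with e he he1 hlt y hy
      rw [dist_comm, dist_eq_norm]
      have hy2 : ‖y‖ ≤ ‖x‖ + 1 := by
        have := hy.2
        rw [Metric.mem_ball, dist_zero_right] at this
        exact this.le
      exact (h y hy.1 hy2 e he he1).trans_lt hlt
    have hc : ContinuousOn J (Hb ∩ Metric.ball 0 (‖x‖ + 1)) := by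
      refine hunif.continuousOn (Eventually.frequently ?_)
      filter_upwards [hpos] with e he y hy
      have him : 0 < (y + e * Complex.I).im := by
        have e1 : (y + e * Complex.I).im = y.im + e := by simp
        have : (0 : ℝ) ≤ y.im := hy.1
        rw [e1]; linarith
      have h1 : ContinuousAt (fun y : ℂ => F (y + e * Complex.I)) y :=
        ContinuousAt.comp (f := fun y : ℂ => y + e * Complex.I) (g := F)
          (hF _ him).continuousAt (by fun_prop)
      exact h1.continuousWithinAt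
    have hxb : x ∈ Metric.ball (0 : ℂ) (‖x‖ + 1) := by
      rw [Metric.mem_ball, dist_zero_right]; linarith
    exact (hc x ⟨hx, hxb⟩).mono_of_mem_nhdsWithin
      (inter_mem_nhdsWithin Hb (Metric.isOpen_ball.mem_nhds hxb))
  -- the interior
  have hopen : IsOpen {x : ℂ | 0 < x.im} := isOpen_lt continuous_const Complex.continuous_im
  have hint : ∀ x : ℂ, 0 < x.im → J x = F x := by
    intro x hx
    refine tendsto_nhds_unique (hlim x hx.le) ?_
    have h1 : Tendsto (fun e : ℝ => x + e * Complex.I) (𝓝[>] 0) (𝓝 x) := by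
      have : Tendsto (fun e : ℝ => x + e * Complex.I) (𝓝 0)
          (𝓝 (x + ((0 : ℝ) : ℂ) * Complex.I)) :=
        (by fun_prop : Continuous fun e : ℝ => x + e * Complex.I).tendsto 0
      rw [Complex.ofReal_zero, zero_mul, add_zero] at this
      exact this.mono_left nhdsWithin_le_nhds
    exact (hF x hx).continuousAt.tendsto.comp h1
  refine ⟨fun x => J x - J 0, hcont.sub continuousOn_const, sub_self _, ?_, ?_⟩
  · intro x hx
    have h1 : (fun y => J y - J 0) =ᶠ[𝓝 x] fun y => F y - J 0 := by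
      filter_upwards [hopen.mem_nhds hx] with y hy
      rw [hint y hy]
    exact ((hF x hx).sub_const _).congr_of_eventuallyEq h1
  · intro s t
    have hs : (0 : ℝ) ≤ ((s : ℂ)).im := by simp
    have ht : (0 : ℝ) ≤ ((t : ℂ)).im := by simp
    have h1 := ((hlim t ht).sub (hlim s hs))
    have h2 : Tendsto (fun e : ℝ => F ((t : ℂ) + e * Complex.I) - F ((s : ℂ) + e * Complex.I))
        (𝓝[>] 0) (𝓝 (∫ x in s..t, mm A B (x : ℂ))) := by
      refine (SC1_dom A B hA hB s t).congr' ?_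
      filter_upwards [hpos] with e he
      exact (SC1_horiz A B hF s t e he).symm
    have h3 := tendsto_nhds_unique h1 h2
    rw [← h3]
    ring

open Classical in
/-- the primitive of `x^A (1-x)^B` vanishing at `0` -/
def JJ (A B : ℝ) : ℂ → ℂ :=
  if h : -1 < A ∧ -1 < B then Classical.choose (exists_prim A B h.1 h.2) else 0

theorem JJ_spec (A B : ℝ) (hA : -1 < A) (hB : -1 < B) :
    ContinuousOn (JJ A B) Hb ∧ JJ A B 0 = 0 ∧
    (∀ x : ℂ, 0 < x.im → HasDerivAt (JJ A B) (mm A B x) x) ∧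
    ∀ s t : ℝ, JJ A B t - JJ A B s = ∫ x in s..t, mm A B (x : ℂ) := by
  have h : -1 < A ∧ -1 < B := ⟨hA, hB⟩
  simp only [JJ, dif_pos h]
  exact Classical.choose_spec (exists_prim A B h.1 h.2)

end

end Pool.Agent.OBT
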