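import Mathlib
import Pool.Agent.OBT.SC0

/-!
# Behaviour of primitives of `x^A (1-x)^B` at the three singular points
-/

open scoped ComplexConjugate Topology Real
open MeasureTheory Filter

namespace Pool.Agent.OBT

/-- mean value inequality on the open strip -/
theorem SCend_mv (D : ℂ → ℂ) (σ C R : ℝ) (hσ : 0 < σ) (hC : 0 ≤ C)
    (hder : ∀ w : ℂ, w.re < R → 0 < w.im → w.im < π →
      ∃ D', HasDerivAt D D' w ∧ ‖D'‖ ≤ C * Real.exp (σ * w.re)) (a : ℝ) (ha : a < R) (w w' : ℂ)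
    (hw : w.re ≤ a ∧ 0 < w.im ∧ w.im < π) (hw' : w'.re ≤ a ∧ 0 < w'.im ∧ w'.im < π) :
    ‖D w - D w'‖ ≤ C * Real.exp (σ * a) * ‖w - w'‖ := by
  have hconv : Convex ℝ {w : ℂ | w.re ≤ a ∧ 0 < w.im ∧ w.im < π} := by
    have e : {w : ℂ | w.re ≤ a ∧ 0 < w.im ∧ w.im < π} =
        {w : ℂ | w.re ≤ a} ∩ ({w : ℂ | 0 < w.im} ∩ {w : ℂ | w.im < π}) := by
      ext w; simp
    rw [e]
    exact (convex_halfSpace_re_le a).inter
      ((convex_halfSpace_im_gt 0).inter (convex_halfSpace_im_lt π))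
  choose! D' hD' hb using hder
  refine Convex.norm_image_sub_le_of_norm_hasDerivWithin_le (f := D) (f' := D')
    (s := {w : ℂ | w.re ≤ a ∧ 0 < w.im ∧ w.im < π}) (fun x hx => ?_) (fun x hx => ?_) hconv hw' hw
  · exact (hD' x (lt_of_le_of_lt hx.1 ha) hx.2.1 hx.2.2).hasDerivWithinAt
  · refine (hb x (lt_of_le_of_lt hx.1 ha) hx.2.1 hx.2.2).trans ?_
    have : σ * x.re ≤ σ * a := mul_le_mul_of_nonneg_left hx.1 hσ.le
    gcongr

/-- approximating points of the closed strip from the open one -/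
noncomputable def SCend_push (w : ℂ) (ε : ℝ) : ℂ := ⟨w.re, (1 - ε) * w.im + ε * (π / 2)⟩

theorem SCend_push_tendsto (w : ℂ) : Tendsto (SCend_push w) (𝓝[Set.Ioo 0 1] 0) (𝓝 w) := by
  have h1 : Continuous (fun ε : ℝ => SCend_push w ε) := by
    have : (fun ε : ℝ => SCend_push w ε) =
        fun ε : ℝ => (w.re : ℂ) + (((1 - ε) * w.im + ε * (π / 2) : ℝ) : ℂ) * Complex.I := by
      funext ε
      apply Complex.ext <;> simp [SCend_push]
    rw [this]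
    fun_prop
  have h2 : SCend_push w 0 = w := by
    apply Complex.ext <;> simp [SCend_push]
  have h3 := (h1.tendsto 0)
  rw [h2] at h3
  exact h3.mono_left nhdsWithin_le_nhds

theorem SCend_push_mem (w : ℂ) (h0 : 0 ≤ w.im) (h1 : w.im ≤ π) {ε : ℝ} (hε : ε ∈ Set.Ioo (0:ℝ) 1) :
    (SCend_push w ε).re = w.re ∧ 0 < (SCend_push w ε).im ∧ (SCend_push w ε).im < π := by
  obtain ⟨e0, e1⟩ := hε
  have hp := Real.pi_pos
  refine ⟨rfl, ?_, ?_⟩
  · show 0 < (1 - ε) * w.im + ε * (π / 2)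
    have : 0 ≤ (1 - ε) * w.im := mul_nonneg (by linarith) h0
    have : 0 < ε * (π / 2) := by positivity
    linarith
  · show (1 - ε) * w.im + ε * (π / 2) < π
    have : (1 - ε) * w.im ≤ (1 - ε) * π := mul_le_mul_of_nonneg_left h1 (by linarith)
    have : 0 < ε * π := by positivity
    nlinarith

/-- mean value inequality on the closed strip -/
theorem SCend_mv' (D : ℂ → ℂ) (σ C R : ℝ) (hσ : 0 < σ) (hC : 0 ≤ C)
    (hcont : ContinuousOn D {w : ℂ | w.re < R ∧ 0 ≤ w.im ∧ w.im ≤ π})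
    (hder : ∀ w : ℂ, w.re < R → 0 < w.im → w.im < π →
      ∃ D', HasDerivAt D D' w ∧ ‖D'‖ ≤ C * Real.exp (σ * w.re)) (a : ℝ) (ha : a < R) (w w' : ℂ)
    (hw : w.re ≤ a ∧ 0 ≤ w.im ∧ w.im ≤ π) (hw' : w'.re ≤ a ∧ 0 ≤ w'.im ∧ w'.im ≤ π) :
    ‖D w - D w'‖ ≤ C * Real.exp (σ * a) * ‖w - w'‖ := by
  have key : ∀ v : ℂ, (v.re ≤ a ∧ 0 ≤ v.im ∧ v.im ≤ π) →
      Tendsto (fun ε => D (SCend_push v ε)) (𝓝[Set.Ioo 0 1] 0) (𝓝 (D v)) := by
    intro v hv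
    have h1 : ContinuousWithinAt D {w : ℂ | w.re < R ∧ 0 ≤ w.im ∧ w.im ≤ π} v :=
      hcont v ⟨lt_of_le_of_lt hv.1 ha, hv.2.1, hv.2.2⟩
    refine h1.tendsto.comp ?_
    refine tendsto_nhdsWithin_of_tendsto_nhds_of_eventually_within _ (SCend_push_tendsto v) ?_
    filter_upwards [self_mem_nhdsWithin] with ε hε
    obtain ⟨e1, e2, e3⟩ := SCend_push_mem v hv.2.1 hv.2.2 hε
    exact ⟨by rw [e1]; exact lt_of_le_of_lt hv.1 ha, e2.le, e3.le⟩
  have hne : (𝓝[Set.Ioo (0:ℝ) 1] 0).NeBot := by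
    rw [nhdsWithin_Ioo_eq_nhdsGT one_pos]
    infer_instance
  have l1 : Tendsto (fun ε => ‖D (SCend_push w ε) - D (SCend_push w' ε)‖) (𝓝[Set.Ioo 0 1] 0)
      (𝓝 ‖D w - D w'‖) := ((key w hw).sub (key w' hw')).norm
  have l2 : Tendsto (fun ε => C * Real.exp (σ * a) * ‖SCend_push w ε - SCend_push w' ε‖)
      (𝓝[Set.Ioo 0 1] 0) (𝓝 (C * Real.exp (σ * a) * ‖w - w'‖)) :=
    (((SCend_push_tendsto w).sub (SCend_push_tendsto w')).norm).const_mul _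
  refine le_of_tendsto_of_tendsto l1 l2 ?_
  filter_upwards [self_mem_nhdsWithin] with ε hε
  obtain ⟨e1, e2, e3⟩ := SCend_push_mem w hw.2.1 hw.2.2 hε
  obtain ⟨f1, f2, f3⟩ := SCend_push_mem w' hw'.2.1 hw'.2.2 hε
  exact SCend_mv D σ C R hσ hC hder a ha _ _ ⟨by rw [e1]; exact hw.1, e2, e3⟩
    ⟨by rw [f1]; exact hw'.1, f2, f3⟩

theorem SCend_strip (D : ℂ → ℂ) (σ C R : ℝ) (hσ : 0 < σ) (hC : 0 ≤ C)
    (hcont : ContinuousOn D {w : ℂ | w.re < R ∧ 0 ≤ w.im ∧ w.im ≤ π})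
    (hder : ∀ w : ℂ, w.re < R → 0 < w.im → w.im < π →
      ∃ D', HasDerivAt D D' w ∧ ‖D'‖ ≤ C * Real.exp (σ * w.re)) :
    ∃ L : ℂ, ∃ C' : ℝ, 0 ≤ C' ∧ ∀ w : ℂ, w.re < R → 0 ≤ w.im → w.im ≤ π →
      ‖D w - L‖ ≤ C' * Real.exp (σ * w.re) := by
  have mv := SCend_mv' D σ C R hσ hC hcont hder
  have hr : Real.exp (-σ) < 1 := by
    rw [Real.exp_lt_one_iff]; linarith
  have hr0 : 0 < Real.exp (-σ) := Real.exp_pos _
  -- the sequences
  have step : ∀ w : ℂ, w.re < R → 0 ≤ w.im → w.im ≤ π → ∀ n : ℕ,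
      dist (D (w - n)) (D (w - (n + 1 : ℕ))) ≤
        (C * Real.exp (σ * w.re)) * Real.exp (-σ) ^ n := by
    intro w h1 h2 h3 n
    rw [dist_eq_norm]
    have hn : (0:ℝ) ≤ n := Nat.cast_nonneg n
    have := mv (w.re - n) (by linarith) (w - n) (w - (n + 1 : ℕ))
      ⟨by simp, by simpa using h2, by simpa using h3⟩
      ⟨by simp; linarith, by simpa using h2, by simpa using h3⟩
    refine this.trans ?_
    have e1 : (w - n) - (w - (n + 1 : ℕ)) = (1 : ℂ) := by push_cast; ring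
    rw [e1, norm_one, mul_one, mul_assoc]
    gcongr
    rw [← Real.exp_nat_mul, ← Real.exp_add]
    apply Real.exp_le_exp.2
    nlinarith
  let w0 : ℂ := ((R - 1 : ℝ) : ℂ)
  have hw0 : w0.re = R - 1 := by simp [w0]
  have hw0i : w0.im = 0 := by simp [w0]
  have hpi := Real.pi_pos.le
  have cau : CauchySeq (fun n : ℕ => D (w0 - n)) :=
    cauchySeq_of_le_geometric _ _ hr (step w0 (by rw [hw0]; linarith) (by rw [hw0i])
      (by rw [hw0i]; exact hpi))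
  obtain ⟨L, hL⟩ := cauchySeq_tendsto_of_complete cau
  refine ⟨L, C / (1 - Real.exp (-σ)), div_nonneg hC (by linarith), ?_⟩
  intro w h1 h2 h3
  have hLw : Tendsto (fun n : ℕ => D (w - n)) atTop (𝓝 L) := by
    have hz : Tendsto (fun n : ℕ => D (w - n) - D (w0 - n)) atTop (𝓝 0) := by
      set m := max w.re w0.re with hm
      have hmR : m < R := by
        rw [hm, max_lt_iff]
        exact ⟨h1, by rw [hw0]; linarith⟩
      have hb : ∀ n : ℕ, ‖D (w - n) - D (w0 - n)‖ ≤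
          (C * Real.exp (σ * m) * ‖w - w0‖) * Real.exp (-σ) ^ n := by
        intro n
        have hn : (0:ℝ) ≤ n := Nat.cast_nonneg n
        have := mv (m - n) (by linarith) (w - n) (w0 - n)
          ⟨by simp [hm], by simpa using h2, by simpa using h3⟩
          ⟨by simp [hm], by simp [hw0i], by simpa [hw0i] using hpi⟩
        refine this.trans (le_of_eq ?_)
        have e1 : (w - n) - (w0 - n) = w - w0 := by ring
        rw [e1, ← Real.exp_nat_mul]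
        have e2 : Real.exp (σ * (m - n)) = Real.exp (σ * m) * Real.exp (n * -σ) := by
          rw [← Real.exp_add]; congr 1; ring
        rw [e2]; ring
      refine squeeze_zero_norm hb ?_
      have := (tendsto_pow_atTop_nhds_zero_of_lt_one hr0.le hr).const_mul
        (C * Real.exp (σ * m) * ‖w - w0‖)
      simpa using this
    have := hz.add hL
    simpa using this
  have := dist_le_of_le_geometric_of_tendsto₀ _ _ hr (step w h1 h2 h3) hLw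
  simp only [Nat.cast_zero, sub_zero] at this
  rw [dist_eq_norm] at this
  refine this.trans (le_of_eq ?_)
  ring

/-- the bound near a finite singular point -/
theorem SCend_loc (d : ℂ → ℂ) (c : ℂ) (hc0 : c.im = 0) (s C : ℝ) (hs : -1 < s) (hC : 0 ≤ C)
    (hcont : ContinuousOn d {x : ℂ | 0 ≤ x.im ∧ x ≠ c ∧ ‖x - c‖ < 1 / 2})
    (hder : ∀ x : ℂ, 0 < x.im → ‖x - c‖ < 1 / 2 →
      ∃ d', HasDerivAt d d' x ∧ ‖d'‖ ≤ C * ‖x - c‖ ^ s) :
    ∃ L : ℂ, ∃ C' : ℝ, 0 ≤ C' ∧ ∀ x : ℂ, 0 ≤ x.im → x ≠ c → ‖x - c‖ < 1 / 2 →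
      ‖d x - L‖ ≤ C' * ‖x - c‖ ^ (s + 1) := by
  have hexp : ∀ w : ℂ, ‖Complex.exp w‖ = Real.exp w.re := Complex.norm_exp
  have hR : ∀ w : ℂ, w.re < Real.log (1 / 2) → ‖(Complex.exp w + c) - c‖ < 1 / 2 := by
    intro w hw
    rw [add_sub_cancel_right, hexp]
    calc Real.exp w.re < Real.exp (Real.log (1 / 2)) := Real.exp_lt_exp.2 hw
      _ = 1 / 2 := Real.exp_log (by norm_num)
  obtain ⟨L, C', hC', hL⟩ := SCend_strip (fun w => d (Complex.exp w + c)) (s + 1) C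
    (Real.log (1 / 2)) (by linarith) hC (by
      refine hcont.comp (by fun_prop) ?_
      rintro w ⟨h1, h2, h3⟩
      refine ⟨?_, ?_, hR w h1⟩
      · rw [Complex.add_im, hc0, add_zero, Complex.exp_im]
        exact mul_nonneg (Real.exp_pos _).le (Real.sin_nonneg_of_nonneg_of_le_pi h2 h3)
      · intro h
        have : Complex.exp w = 0 := by linear_combination h
        exact Complex.exp_ne_zero w this) (by
      intro w h1 h2 h3
      obtain ⟨d', hd1, hd2⟩ := hder (Complex.exp w + c) (by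
        rw [Complex.add_im, hc0, add_zero, Complex.exp_im]
        exact mul_pos (Real.exp_pos _) (Real.sin_pos_of_pos_of_lt_pi h2 h3)) (hR w h1)
      refine ⟨d' * Complex.exp w, ?_, ?_⟩
      · exact hd1.comp w ((Complex.hasDerivAt_exp w).add_const c)
      · rw [add_sub_cancel_right] at hd2
        rw [norm_mul]
        rw [hexp] at hd2 ⊢
        calc ‖d'‖ * Real.exp w.re ≤ C * Real.exp w.re ^ s * Real.exp w.re := by gcongr
          _ = C * Real.exp ((s + 1) * w.re) := by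
            rw [← Real.exp_mul, mul_assoc, ← Real.exp_add]
            congr 2; ring)
  refine ⟨L, C', hC', ?_⟩
  intro x h1 h2 h3
  have hne : x - c ≠ 0 := sub_ne_zero.2 h2
  have hn : 0 < ‖x - c‖ := norm_pos_iff.2 hne
  have him : 0 ≤ (x - c).im := by rw [Complex.sub_im, hc0, sub_zero]; exact h1
  have := hL (Complex.log (x - c)) (by
      rw [Complex.log_re]; exact Real.log_lt_log hn h3) (by
      rw [Complex.log_im]; exact Complex.arg_nonneg_iff.2 him) (by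
      rw [Complex.log_im]; exact Complex.arg_le_pi _)
  simp only [Complex.exp_log hne, sub_add_cancel, Complex.log_re] at this
  refine this.trans (le_of_eq ?_)
  rw [Real.rpow_def_of_pos hn, mul_comm (s + 1)]

/-- the bound near infinity -/
theorem SCend_infb (d : ℂ → ℂ) (s C : ℝ) (hs : s < -1) (hC : 0 ≤ C)
    (hcont : ContinuousOn d {x : ℂ | 0 ≤ x.im ∧ 2 < ‖x‖})
    (hder : ∀ x : ℂ, 0 < x.im → 2 < ‖x‖ →
      ∃ d', HasDerivAt d d' x ∧ ‖d'‖ ≤ C * ‖x‖ ^ s) :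
    ∃ L : ℂ, ∃ C' : ℝ, 0 ≤ C' ∧ ∀ x : ℂ, 0 ≤ x.im → 2 < ‖x‖ →
      ‖d x - L‖ ≤ C' * ‖x‖ ^ (s + 1) := by
  have hexp : ∀ w : ℂ, ‖-Complex.exp (-w)‖ = Real.exp (-w.re) := by
    intro w; rw [norm_neg, Complex.norm_exp, Complex.neg_re]
  have hR : ∀ w : ℂ, w.re < -Real.log 2 → 2 < ‖-Complex.exp (-w)‖ := by
    intro w hw
    rw [hexp]
    calc (2:ℝ) = Real.exp (Real.log 2) := (Real.exp_log (by norm_num)).symm
      _ < Real.exp (-w.re) := Real.exp_lt_exp.2 (by linarith)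
  have him : ∀ w : ℂ, (-Complex.exp (-w)).im = Real.exp (-w.re) * Real.sin w.im := by
    intro w
    rw [Complex.neg_im, Complex.exp_im, Complex.neg_re, Complex.neg_im, Real.sin_neg]; ring
  obtain ⟨L, C', hC', hL⟩ := SCend_strip (fun w => d (-Complex.exp (-w))) (-(s + 1)) C
    (-Real.log 2) (by linarith) hC (by
      refine hcont.comp (by fun_prop) ?_
      rintro w ⟨h1, h2, h3⟩
      refine ⟨?_, hR w h1⟩
      rw [him]
      exact mul_nonneg (Real.exp_pos _).le (Real.sin_nonneg_of_nonneg_of_le_pi h2 h3)) (by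
      intro w h1 h2 h3
      obtain ⟨d', hd1, hd2⟩ := hder (-Complex.exp (-w)) (by
        rw [him]
        exact mul_pos (Real.exp_pos _) (Real.sin_pos_of_pos_of_lt_pi h2 h3)) (hR w h1)
      refine ⟨d' * Complex.exp (-w), ?_, ?_⟩
      · have h4 : HasDerivAt (fun w : ℂ => -Complex.exp (-w)) (Complex.exp (-w)) w := by
          have := ((hasDerivAt_neg w).cexp).fun_neg
          simpa using this
        exact hd1.comp w h4
      · have e : ‖Complex.exp (-w)‖ = Real.exp (-w.re) := by rw [← hexp w, norm_neg]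
        rw [norm_mul, e]
        rw [hexp] at hd2
        calc ‖d'‖ * Real.exp (-w.re) ≤ C * Real.exp (-w.re) ^ s * Real.exp (-w.re) := by gcongr
          _ = C * Real.exp (-(s + 1) * w.re) := by
            rw [← Real.exp_mul, mul_assoc, ← Real.exp_add]
            congr 2; ring)
  refine ⟨L, C', hC', ?_⟩
  intro x h1 h3
  have hn : 0 < ‖x‖ := by linarith
  have hne : x ≠ 0 := norm_pos_iff.1 hn
  have hw : -Complex.exp (-(π * Complex.I - Complex.log x)) = x := by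
    rw [neg_sub, Complex.exp_sub, Complex.exp_log hne, Complex.exp_pi_mul_I]
    ring
  have e1 : (π * Complex.I - Complex.log x).re = -Real.log ‖x‖ := by
    simp [Complex.log_re]
  have e2 : (π * Complex.I - Complex.log x).im = π - x.arg := by
    simp [Complex.log_im]
  have := hL (π * Complex.I - Complex.log x) (by
      rw [e1]; have := Real.log_lt_log (by norm_num) h3; linarith) (by
      rw [e2]; linarith [Complex.arg_le_pi x]) (by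
      rw [e2]; linarith [Complex.arg_nonneg_iff.2 h1])
  simp only [hw, e1] at this
  refine this.trans (le_of_eq ?_)
  rw [Real.rpow_def_of_pos hn]
  congr 2; ring

/-- powers on a compact interval -/
theorem SCend_rpow {a b t : ℝ} (r : ℝ) (ha : 0 < a) (h1 : a ≤ t) (h2 : t ≤ b) :
    t ^ r ≤ a ^ r + b ^ r := by
  have ht : 0 < t := lt_of_lt_of_le ha h1
  have hb : 0 < b := lt_of_lt_of_le ht h2
  rcases le_total 0 r with h | h
  · have := Real.rpow_le_rpow ht.le h2 h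
    have := Real.rpow_nonneg ha.le r
    linarith
  · have := Real.rpow_le_rpow_of_nonpos ha h1 h
    have := Real.rpow_nonneg hb.le r
    linarith

theorem SCend_fin {F : Filter ℂ} {h m : ℂ → ℂ} {c L p : ℂ} (hm : ∀ᶠ x in F, m x ≠ 0)
    (h1 : Tendsto (fun x => (h x - c * m x - L) / m x) F (𝓝 0))
    (h2 : Tendsto (fun x => (L - p) / m x) F (𝓝 0)) :
    Tendsto (fun x => (h x - p) / m x) F (𝓝 c) := by
  have h3 := (h1.add h2).add (tendsto_const_nhds (x := c))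
  rw [add_zero, zero_add] at h3
  refine h3.congr' ?_
  filter_upwards [hm] with x hx
  field_simp
  ring

variable {h : ℂ → ℂ} {κ : ℂ} {A B : ℝ}

theorem SCend_ne {x : ℂ} (hx : 0 < x.im) : x ≠ 0 ∧ x ≠ 1 := by
  constructor
  · rintro rfl; simp at hx
  · rintro rfl; simp at hx

theorem SCend_d0 (hd : ∀ x : ℂ, 0 < x.im → HasDerivAt h (κ * mm A B x) x) (hA : (A : ℂ) + 1 ≠ 0)
    {x : ℂ} (hx : 0 < x.im) :
    HasDerivAt (fun x => h x - κ / (A + 1) * mm (A + 1) B x)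
      (κ * B / (A + 1) * mm (A + 1) (B - 1) x) x := by
  have h1 := (hd x hx).sub ((hasDerivAt_mm (A + 1) B hx).const_mul (κ / (A + 1)))
  refine h1.congr_deriv ?_
  rw [add_sub_cancel_right]
  push_cast
  field_simp
  ring

theorem SCend_d1 (hd : ∀ x : ℂ, 0 < x.im → HasDerivAt h (κ * mm A B x) x) (hB : (B : ℂ) + 1 ≠ 0)
    {x : ℂ} (hx : 0 < x.im) :
    HasDerivAt (fun x => h x - (-κ / (B + 1)) * mm A (B + 1) x)
      (κ * A / (B + 1) * mm (A - 1) (B + 1) x) x := by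
  have h1 := (hd x hx).sub ((hasDerivAt_mm A (B + 1) hx).const_mul (-κ / (B + 1)))
  refine h1.congr_deriv ?_
  rw [add_sub_cancel_right]
  push_cast
  field_simp
  ring

theorem SCend_di (hd : ∀ x : ℂ, 0 < x.im → HasDerivAt h (κ * mm A B x) x)
    (hAB : (A : ℂ) + B + 1 ≠ 0) {x : ℂ} (hx : 0 < x.im) :
    HasDerivAt (fun x => h x - κ / (A + B + 1) * mm (A + 1) B x)
      (κ * B / (A + B + 1) * mm A (B - 1) x) x := by
  have h1 := (hd x hx).sub ((hasDerivAt_mm (A + 1) B hx).const_mul (κ / (A + B + 1)))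
  refine h1.congr_deriv ?_
  rw [add_sub_cancel_right]
  obtain ⟨h0, h1⟩ := SCend_ne hx
  have e1 : mm A B x = mm A (B - 1) x * (1 - x) := by
    rw [← mm_zero_one x, mm_mul _ _ _ _ h0 h1]; congr 1 <;> ring
  have e2 : mm (A + 1) (B - 1) x = mm A (B - 1) x * x := by
    conv_rhs => rw [← mm_one_zero x, mm_one_zero x]
    have : mm A (B - 1) x * mm 1 0 x = mm (A + 1) (B - 1) x := by
      rw [mm_mul _ _ _ _ h0 h1]; congr 1; ring
    rw [← this, mm_one_zero]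
  rw [e1, e2]
  push_cast
  field_simp
  ring

theorem SCend_zero (hc : ContinuousOn h (Hb \ {0, 1}))
    (hd : ∀ x : ℂ, 0 < x.im → HasDerivAt h (κ * mm A B x) x) (hA : (A : ℂ) + 1 ≠ 0) (hA2 : -2 < A) :
    ∃ L : ℂ, ∃ C : ℝ, 0 ≤ C ∧ ∀ x : ℂ, 0 ≤ x.im → x ≠ 0 → ‖x‖ < 1 / 2 →
      ‖h x - κ / (A + 1) * mm (A + 1) B x - L‖ ≤ C * ‖x‖ ^ (A + 2) := by
  have hsub : {x : ℂ | 0 ≤ x.im ∧ x ≠ 0 ∧ ‖x - 0‖ < 1 / 2} ⊆ Hb \ {0, 1} := by
    rintro x ⟨h1, h2, h3⟩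
    refine ⟨h1, ?_⟩
    simp only [Set.mem_insert_iff, Set.mem_singleton_iff, not_or]
    refine ⟨h2, ?_⟩
    rintro rfl
    norm_num at h3
  obtain ⟨L, C, hC, hL⟩ := SCend_loc (fun x => h x - κ / (A + 1) * mm (A + 1) B x) 0 rfl (A + 1)
    (‖κ * B / (A + 1)‖ * ((1 / 2) ^ (B - 1) + (3 / 2) ^ (B - 1))) (by linarith) (by positivity)
    ((hc.sub ((continuousOn_mm (A + 1) B).const_smul (κ / (A + 1)))).mono hsub) (by
      intro x hx h3
      refine ⟨_, SCend_d0 hd hA hx, ?_⟩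
      obtain ⟨h0, h1⟩ := SCend_ne hx
      rw [sub_zero] at h3 ⊢
      rw [norm_mul, norm_mm _ _ h0 h1]
      have l1 : 1 / 2 ≤ ‖x - 1‖ := by
        have := norm_sub_norm_le (1 : ℂ) x
        rw [norm_one, norm_sub_rev] at this
        linarith
      have l2 : ‖x - 1‖ ≤ 3 / 2 := by
        have := norm_sub_le x (1 : ℂ)
        rw [norm_one] at this
        linarith
      have := SCend_rpow (B - 1) (by norm_num) l1 l2
      have hp : 0 ≤ ‖x‖ ^ (A + 1) := Real.rpow_nonneg (norm_nonneg _) _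
      calc ‖κ * B / (A + 1)‖ * (‖x‖ ^ (A + 1) * ‖x - 1‖ ^ (B - 1))
          ≤ ‖κ * B / (A + 1)‖ * (‖x‖ ^ (A + 1) * ((1 / 2) ^ (B - 1) + (3 / 2) ^ (B - 1))) := by
            gcongr
        _ = _ := by ring)
  refine ⟨L, C, hC, ?_⟩
  intro x h1 h2 h3
  have := hL x h1 h2 (by simpa using h3)
  rw [sub_zero, show A + 1 + 1 = A + 2 by ring] at this
  exact this

theorem SCend_one (hc : ContinuousOn h (Hb \ {0, 1}))
    (hd : ∀ x : ℂ, 0 < x.im → HasDerivAt h (κ * mm A B x) x) (hB : (B : ℂ) + 1 ≠ 0) (hB2 : -2 < B) :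
    ∃ L : ℂ, ∃ C : ℝ, 0 ≤ C ∧ ∀ x : ℂ, 0 ≤ x.im → x ≠ 1 → ‖x - 1‖ < 1 / 2 →
      ‖h x - (-κ / (B + 1)) * mm A (B + 1) x - L‖ ≤ C * ‖x - 1‖ ^ (B + 2) := by
  have hsub : {x : ℂ | 0 ≤ x.im ∧ x ≠ 1 ∧ ‖x - 1‖ < 1 / 2} ⊆ Hb \ {0, 1} := by
    rintro x ⟨h1, h2, h3⟩
    refine ⟨h1, ?_⟩
    simp only [Set.mem_insert_iff, Set.mem_singleton_iff, not_or]
    refine ⟨?_, h2⟩
    rintro rfl
    norm_num at h3
  obtain ⟨L, C, hC, hL⟩ := SCend_loc (fun x => h x - (-κ / (B + 1)) * mm A (B + 1) x) 1 rfl (B + 1)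
    (‖κ * A / (B + 1)‖ * ((1 / 2) ^ (A - 1) + (3 / 2) ^ (A - 1))) (by linarith) (by positivity)
    ((hc.sub ((continuousOn_mm A (B + 1)).const_smul (-κ / (B + 1)))).mono hsub) (by
      intro x hx h3
      refine ⟨_, SCend_d1 hd hB hx, ?_⟩
      obtain ⟨h0, h1⟩ := SCend_ne hx
      rw [norm_mul, norm_mm _ _ h0 h1]
      have l1 : 1 / 2 ≤ ‖x‖ := by
        have := norm_sub_norm_le (1 : ℂ) (1 - x)
        rw [norm_one, norm_sub_rev 1 x, sub_sub_cancel] at this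
        linarith
      have l2 : ‖x‖ ≤ 3 / 2 := by
        have := norm_add_le (x - 1) (1 : ℂ)
        rw [norm_one, sub_add_cancel] at this
        linarith
      have := SCend_rpow (A - 1) (by norm_num) l1 l2
      have hp : 0 ≤ ‖x - 1‖ ^ (B + 1) := Real.rpow_nonneg (norm_nonneg _) _
      calc ‖κ * A / (B + 1)‖ * (‖x‖ ^ (A - 1) * ‖x - 1‖ ^ (B + 1))
          ≤ ‖κ * A / (B + 1)‖ * (((1 / 2) ^ (A - 1) + (3 / 2) ^ (A - 1)) * ‖x - 1‖ ^ (B + 1)) := by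
            gcongr
        _ = _ := by ring)
  refine ⟨L, C, hC, ?_⟩
  intro x h1 h2 h3
  have := hL x h1 h2 h3
  rw [show B + 1 + 1 = B + 2 by ring] at this
  exact this

theorem SCend_bd {x : ℂ} (hx : 2 < ‖x‖) (r : ℝ) :
    ‖x - 1‖ ^ r ≤ ((1 / 2) ^ r + 2 ^ r) * ‖x‖ ^ r := by
  have l1 : 1 / 2 * ‖x‖ ≤ ‖x - 1‖ := by
    have := norm_sub_norm_le x (1 : ℂ)
    rw [norm_one] at this
    linarith
  have l2 : ‖x - 1‖ ≤ 2 * ‖x‖ := by
    have := norm_sub_le x (1 : ℂ)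
    rw [norm_one] at this
    linarith
  have := SCend_rpow r (by linarith) l1 l2
  rw [Real.mul_rpow (by norm_num) (norm_nonneg _), Real.mul_rpow (by norm_num) (norm_nonneg _)]
    at this
  linarith

theorem SCend_inf (hc : ContinuousOn h (Hb \ {0, 1}))
    (hd : ∀ x : ℂ, 0 < x.im → HasDerivAt h (κ * mm A B x) x) (hAB : (A : ℂ) + B + 1 ≠ 0)
    (hAB2 : A + B < 0) :
    ∃ L : ℂ, ∃ C : ℝ, 0 ≤ C ∧ ∀ x : ℂ, 0 ≤ x.im → 2 < ‖x‖ →
      ‖h x - κ / (A + B + 1) * mm (A + 1) B x - L‖ ≤ C * ‖x‖ ^ (A + B) := by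
  have hsub : {x : ℂ | 0 ≤ x.im ∧ 2 < ‖x‖} ⊆ Hb \ {0, 1} := by
    rintro x ⟨h1, h2⟩
    refine ⟨h1, ?_⟩
    simp only [Set.mem_insert_iff, Set.mem_singleton_iff, not_or]
    constructor
    · rintro rfl
      norm_num at h2
    · rintro rfl
      norm_num at h2
  obtain ⟨L, C, hC, hL⟩ := SCend_infb (fun x => h x - κ / (A + B + 1) * mm (A + 1) B x) (A + B - 1)
    (‖κ * B / (A + B + 1)‖ * ((1 / 2) ^ (B - 1) + 2 ^ (B - 1))) (by linarith) (by positivity)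
    ((hc.sub ((continuousOn_mm (A + 1) B).const_smul (κ / (A + B + 1)))).mono hsub) (by
      intro x hx h3
      refine ⟨_, SCend_di hd hAB hx, ?_⟩
      obtain ⟨h0, h1⟩ := SCend_ne hx
      rw [norm_mul, norm_mm _ _ h0 h1]
      have := SCend_bd h3 (B - 1)
      have hn : 0 < ‖x‖ := by linarith
      have hp : 0 ≤ ‖x‖ ^ A := Real.rpow_nonneg (norm_nonneg _) _
      calc ‖κ * B / (A + B + 1)‖ * (‖x‖ ^ A * ‖x - 1‖ ^ (B - 1))
          ≤ ‖κ * B / (A + B + 1)‖ *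
            (‖x‖ ^ A * (((1 / 2) ^ (B - 1) + 2 ^ (B - 1)) * ‖x‖ ^ (B - 1))) := by
            gcongr
        _ = ‖κ * B / (A + B + 1)‖ * ((1 / 2) ^ (B - 1) + 2 ^ (B - 1)) *
            (‖x‖ ^ A * ‖x‖ ^ (B - 1)) := by ring
        _ = _ := by rw [← Real.rpow_add hn]; congr 2; ring)
  refine ⟨L, C, hC, ?_⟩
  intro x h1 h2
  have := hL x h1 h2
  rw [show A + B - 1 + 1 = A + B by ring] at this
  exact this

theorem SCend_cast {r : ℝ} (hr : r ≠ -1) : (r : ℂ) + 1 ≠ 0 := by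
  intro h
  apply hr
  have : ((r + 1 : ℝ) : ℂ) = 0 := by push_cast; exact h
  have := Complex.ofReal_eq_zero.1 this
  linarith

theorem SCend_cast2 {r s : ℝ} (hr : r + s ≠ -1) : (r : ℂ) + s + 1 ≠ 0 := by
  intro h
  apply hr
  have : ((r + s + 1 : ℝ) : ℂ) = 0 := by push_cast; exact h
  have := Complex.ofReal_eq_zero.1 this
  linarith

theorem SCend_ev0 : ∀ᶠ x : ℂ in 𝓝[Hb \ {0, 1}] 0, 0 ≤ x.im ∧ x ≠ 0 ∧ x ≠ 1 ∧ ‖x‖ < 1 / 2 := by
  have h1 : ∀ᶠ x : ℂ in 𝓝[Hb \ {0, 1}] 0, x ∈ Metric.ball (0:ℂ) (1 / 2) :=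
    mem_nhdsWithin_of_mem_nhds (Metric.ball_mem_nhds _ (by norm_num))
  filter_upwards [h1, self_mem_nhdsWithin] with x hx hm
  simp only [Set.mem_sdiff, Set.mem_insert_iff, Set.mem_singleton_iff, not_or] at hm
  rw [mem_ball_zero_iff] at hx
  exact ⟨hm.1, hm.2.1, hm.2.2, hx⟩

theorem SCend_ev1 :
    ∀ᶠ x : ℂ in 𝓝[Hb \ {0, 1}] 1, 0 ≤ x.im ∧ x ≠ 0 ∧ x ≠ 1 ∧ ‖x - 1‖ < 1 / 2 := by
  have h1 : ∀ᶠ x : ℂ in 𝓝[Hb \ {0, 1}] 1, x ∈ Metric.ball (1:ℂ) (1 / 2) :=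
    mem_nhdsWithin_of_mem_nhds (Metric.ball_mem_nhds _ (by norm_num))
  filter_upwards [h1, self_mem_nhdsWithin] with x hx hm
  simp only [Set.mem_sdiff, Set.mem_insert_iff, Set.mem_singleton_iff, not_or] at hm
  rw [mem_ball_iff_norm] at hx
  exact ⟨hm.1, hm.2.1, hm.2.2, hx⟩

theorem SCend_evi :
    ∀ᶠ x : ℂ in Bornology.cobounded ℂ ⊓ 𝓟 Hb, 0 ≤ x.im ∧ x ≠ 0 ∧ x ≠ 1 ∧ 2 < ‖x‖ := by
  have h1 : ∀ᶠ x : ℂ in Bornology.cobounded ℂ ⊓ 𝓟 Hb, 2 < ‖x‖ :=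
    (tendsto_norm_cobounded_atTop.eventually_gt_atTop 2).filter_mono inf_le_left
  have h2 : ∀ᶠ x : ℂ in Bornology.cobounded ℂ ⊓ 𝓟 Hb, x ∈ Hb := by
    rw [eventually_inf_principal]
    exact Eventually.of_forall fun x hx => hx
  filter_upwards [h1, h2] with x hx hm
  refine ⟨hm, ?_, ?_, hx⟩
  · rintro rfl
    norm_num at hx
  · rintro rfl
    norm_num at hx

theorem SCend_n0 {r : ℝ} (hr : 0 < r) (s : ℝ) :
    Tendsto (fun x : ℂ => ‖x‖ ^ r * ‖x - 1‖ ^ s) (𝓝[Hb \ {0, 1}] 0) (𝓝 0) := by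
  have h1 : Tendsto (fun x : ℂ => ‖x‖ ^ r) (𝓝 0) (𝓝 0) := by
    have : Continuous (fun x : ℂ => ‖x‖ ^ r) := continuous_norm.rpow_const fun _ => Or.inr hr.le
    have := this.tendsto 0
    simpa [Real.zero_rpow hr.ne'] using this
  have h2 : Tendsto (fun x : ℂ => ‖x - 1‖ ^ s) (𝓝 0) (𝓝 1) := by
    have : ContinuousAt (fun x : ℂ => ‖x - 1‖ ^ s) 0 :=
      ContinuousAt.rpow_const (by fun_prop) (Or.inl (by simp))
    have := this.tendsto
    simpa using this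
  have := h1.mul h2
  rw [zero_mul] at this
  exact this.mono_left nhdsWithin_le_nhds

theorem SCend_n1 {r : ℝ} (hr : 0 < r) (s : ℝ) :
    Tendsto (fun x : ℂ => ‖x‖ ^ s * ‖x - 1‖ ^ r) (𝓝[Hb \ {0, 1}] 1) (𝓝 0) := by
  have h1 : Tendsto (fun x : ℂ => ‖x - 1‖ ^ r) (𝓝 1) (𝓝 0) := by
    have : Continuous (fun x : ℂ => ‖x - 1‖ ^ r) :=
      (continuous_norm.comp (continuous_sub_right 1)).rpow_const fun _ => Or.inr hr.le
    have := this.tendsto 1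
    simpa [Real.zero_rpow hr.ne'] using this
  have h2 : Tendsto (fun x : ℂ => ‖x‖ ^ s) (𝓝 1) (𝓝 1) := by
    have : ContinuousAt (fun x : ℂ => ‖x‖ ^ s) 1 :=
      ContinuousAt.rpow_const (by fun_prop) (Or.inl (by simp))
    have := this.tendsto
    simpa using this
  have := h2.mul h1
  rw [mul_zero] at this
  exact this.mono_left nhdsWithin_le_nhds

theorem SCend_ni {r s : ℝ} (hr : r + s < 0) :
    Tendsto (fun x : ℂ => ‖x‖ ^ r * ‖x - 1‖ ^ s) (Bornology.cobounded ℂ ⊓ 𝓟 Hb) (𝓝 0) := by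
  have h1 : Tendsto (fun x : ℂ => ((1 / 2) ^ s + 2 ^ s) * ‖x‖ ^ (r + s))
      (Bornology.cobounded ℂ ⊓ 𝓟 Hb) (𝓝 0) := by
    have h2 : Tendsto (fun x : ℂ => ‖x‖ ^ (r + s)) (Bornology.cobounded ℂ) (𝓝 0) := by
      have := (tendsto_rpow_neg_atTop (y := -(r + s)) (by linarith)).comp
        (tendsto_norm_cobounded_atTop (E := ℂ))
      simpa [Function.comp_def] using this
    have := (h2.mono_left (inf_le_left (b := 𝓟 Hb))).const_mul (((1:ℝ) / 2) ^ s + 2 ^ s)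
    simpa using this
  refine squeeze_zero' (Eventually.of_forall fun x => ?_) ?_ h1
  · positivity
  · filter_upwards [SCend_evi] with x hx
    obtain ⟨-, -, -, h2⟩ := hx
    have hn : 0 < ‖x‖ := by linarith
    have := SCend_bd h2 s
    calc ‖x‖ ^ r * ‖x - 1‖ ^ s ≤ ‖x‖ ^ r * (((1 / 2) ^ s + 2 ^ s) * ‖x‖ ^ s) := by gcongr
      _ = ((1 / 2) ^ s + 2 ^ s) * (‖x‖ ^ r * ‖x‖ ^ s) := by ring
      _ = _ := by rw [← Real.rpow_add hn]

/-- the inverse of `mm` tends to zero -/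
theorem SCend_inv (F : Filter ℂ) (P Q : ℝ) (q : ℂ) (hF : ∀ᶠ x in F, x ≠ 0 ∧ x ≠ 1)
    (h1 : Tendsto (fun x : ℂ => ‖x‖ ^ (-P) * ‖x - 1‖ ^ (-Q)) F (𝓝 0)) :
    Tendsto (fun x => q / mm P Q x) F (𝓝 0) := by
  rw [tendsto_zero_iff_norm_tendsto_zero]
  have h2 := h1.const_mul ‖q‖
  rw [mul_zero] at h2
  refine h2.congr' ?_
  filter_upwards [hF] with x hx
  rw [norm_div, norm_mm _ _ hx.1 hx.2, Real.rpow_neg (norm_nonneg _), Real.rpow_neg (norm_nonneg _)]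
  rw [← mul_inv, div_eq_mul_inv]

theorem SCend_mm0 (F : Filter ℂ) (P Q : ℝ) (hF : ∀ᶠ x in F, x ≠ 0 ∧ x ≠ 1)
    (h1 : Tendsto (fun x : ℂ => ‖x‖ ^ P * ‖x - 1‖ ^ Q) F (𝓝 0)) :
    Tendsto (fun x => mm P Q x) F (𝓝 0) := by
  rw [tendsto_zero_iff_norm_tendsto_zero]
  refine h1.congr' ?_
  filter_upwards [hF] with x hx
  rw [norm_mm _ _ hx.1 hx.2]

theorem SCend_quot (F : Filter ℂ) (P Q : ℝ) (g : ℂ → ℂ) (C a b : ℝ)
    (hF : ∀ᶠ x in F, x ≠ 0 ∧ x ≠ 1)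
    (hg : ∀ᶠ x in F, ‖g x‖ ≤ C * (‖x‖ ^ a * ‖x - 1‖ ^ b))
    (h1 : Tendsto (fun x : ℂ => ‖x‖ ^ (a - P) * ‖x - 1‖ ^ (b - Q)) F (𝓝 0)) :
    Tendsto (fun x => g x / mm P Q x) F (𝓝 0) := by
  rw [tendsto_zero_iff_norm_tendsto_zero]
  have h2 := h1.const_mul C
  rw [mul_zero] at h2
  refine squeeze_zero' (Eventually.of_forall fun x => norm_nonneg _) ?_ h2
  filter_upwards [hF, hg] with x hx hgx
  have n0 : 0 < ‖x‖ := norm_pos_iff.2 hx.1
  have n1 : 0 < ‖x - 1‖ := norm_pos_iff.2 (sub_ne_zero.2 hx.2)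
  rw [norm_div, norm_mm _ _ hx.1 hx.2, Real.rpow_sub n0, Real.rpow_sub n1]
  have hp : 0 < ‖x‖ ^ P * ‖x - 1‖ ^ Q := by positivity
  rw [div_le_iff₀ hp]
  refine hgx.trans (le_of_eq ?_)
  have : 0 < ‖x‖ ^ P := by positivity
  have : 0 < ‖x - 1‖ ^ Q := by positivity
  field_simp

theorem prim_zero (hc : ContinuousOn h (Hb \ {0, 1}))
    (hd : ∀ x : ℂ, 0 < x.im → HasDerivAt h (κ * mm A B x) x) (hA : -1 < A) :
    ∃ L : ℂ, Tendsto h (𝓝[Hb \ {0, 1}] 0) (𝓝 L) ∧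
      Tendsto (fun x => (h x - L) / mm (A + 1) B x) (𝓝[Hb \ {0, 1}] 0) (𝓝 (κ / (A + 1))) := by
  obtain ⟨L, C, hC, hL⟩ := SCend_zero hc hd (SCend_cast (by linarith)) (by linarith)
  have hF : ∀ᶠ x : ℂ in 𝓝[Hb \ {0, 1}] 0, x ≠ 0 ∧ x ≠ 1 := SCend_ev0.mono fun x hx => ⟨hx.2.1, hx.2.2.1⟩
  have hb : ∀ᶠ x : ℂ in 𝓝[Hb \ {0, 1}] 0, ‖h x - κ / (A + 1) * mm (A + 1) B x - L‖ ≤
      C * (‖x‖ ^ (A + 2) * ‖x - 1‖ ^ (0:ℝ)) := by
    filter_upwards [SCend_ev0] with x hx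
    rw [Real.rpow_zero, mul_one]
    exact hL x hx.1 hx.2.1 hx.2.2.2
  have hq := SCend_quot (𝓝[Hb \ {0, 1}] 0) (A + 1) B _ C (A + 2) 0 hF hb
    (SCend_n0 (by linarith) _)
  refine ⟨L, ?_, ?_⟩
  · have h1 : Tendsto (fun x => h x - κ / (A + 1) * mm (A + 1) B x - L) (𝓝[Hb \ {0, 1}] 0) (𝓝 0) := by
      refine squeeze_zero_norm' hb ?_
      have := (SCend_n0 (r := A + 2) (by linarith) 0).const_mul C
      simpa using this
    have h2 := SCend_mm0 (𝓝[Hb \ {0, 1}] 0) (A + 1) B hF (SCend_n0 (by linarith) _)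
    have h3 := (h1.add (h2.const_mul (κ / (A + 1)))).add_const L
    simp only [mul_zero, zero_add] at h3
    refine h3.congr fun x => ?_
    ring
  · refine SCend_fin (hF.mono fun x hx => mm_ne_zero _ _ hx.1 hx.2) hq ?_
    simp only [sub_self, zero_div]
    exact tendsto_const_nhds

theorem prim_zero_sing (hc : ContinuousOn h (Hb \ {0, 1}))
    (hd : ∀ x : ℂ, 0 < x.im → HasDerivAt h (κ * mm A B x) x) (hA : A < -1) (hA' : -2 < A) (p : ℂ) :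
    Tendsto (fun x => (h x - p) / mm (A + 1) B x) (𝓝[Hb \ {0, 1}] 0) (𝓝 (κ / (A + 1))) := by
  obtain ⟨L, C, hC, hL⟩ := SCend_zero hc hd (SCend_cast (by linarith)) hA'
  have hF : ∀ᶠ x : ℂ in 𝓝[Hb \ {0, 1}] 0, x ≠ 0 ∧ x ≠ 1 := SCend_ev0.mono fun x hx => ⟨hx.2.1, hx.2.2.1⟩
  have hb : ∀ᶠ x : ℂ in 𝓝[Hb \ {0, 1}] 0, ‖h x - κ / (A + 1) * mm (A + 1) B x - L‖ ≤
      C * (‖x‖ ^ (A + 2) * ‖x - 1‖ ^ (0:ℝ)) := by
    filter_upwards [SCend_ev0] with x hx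
    rw [Real.rpow_zero, mul_one]
    exact hL x hx.1 hx.2.1 hx.2.2.2
  have hq := SCend_quot (𝓝[Hb \ {0, 1}] 0) (A + 1) B _ C (A + 2) 0 hF hb
    (SCend_n0 (by linarith) _)
  exact SCend_fin (hF.mono fun x hx => mm_ne_zero _ _ hx.1 hx.2) hq
    (SCend_inv _ _ _ _ hF (SCend_n0 (by linarith) _))

theorem prim_one (hc : ContinuousOn h (Hb \ {0, 1}))
    (hd : ∀ x : ℂ, 0 < x.im → HasDerivAt h (κ * mm A B x) x) (hB : -1 < B) :
    ∃ L : ℂ, Tendsto h (𝓝[Hb \ {0, 1}] 1) (𝓝 L) ∧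
      Tendsto (fun x => (h x - L) / mm A (B + 1) x) (𝓝[Hb \ {0, 1}] 1) (𝓝 (-κ / (B + 1))) := by
  obtain ⟨L, C, hC, hL⟩ := SCend_one hc hd (SCend_cast (by linarith)) (by linarith)
  have hF : ∀ᶠ x : ℂ in 𝓝[Hb \ {0, 1}] 1, x ≠ 0 ∧ x ≠ 1 := SCend_ev1.mono fun x hx => ⟨hx.2.1, hx.2.2.1⟩
  have hb : ∀ᶠ x : ℂ in 𝓝[Hb \ {0, 1}] 1, ‖h x - -κ / (B + 1) * mm A (B + 1) x - L‖ ≤
      C * (‖x‖ ^ (0:ℝ) * ‖x - 1‖ ^ (B + 2)) := by
    filter_upwards [SCend_ev1] with x hx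
    rw [Real.rpow_zero, one_mul]
    exact hL x hx.1 hx.2.2.1 hx.2.2.2
  have hq := SCend_quot (𝓝[Hb \ {0, 1}] 1) A (B + 1) _ C 0 (B + 2) hF hb
    (SCend_n1 (by linarith) _)
  refine ⟨L, ?_, ?_⟩
  · have h1 : Tendsto (fun x => h x - -κ / (B + 1) * mm A (B + 1) x - L) (𝓝[Hb \ {0, 1}] 1) (𝓝 0) := by
      refine squeeze_zero_norm' hb ?_
      have := (SCend_n1 (r := B + 2) (by linarith) 0).const_mul C
      simpa using this
    have h2 := SCend_mm0 (𝓝[Hb \ {0, 1}] 1) A (B + 1) hF (SCend_n1 (by linarith) _)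
    have h3 := (h1.add (h2.const_mul (-κ / (B + 1)))).add_const L
    simp only [mul_zero, zero_add] at h3
    refine h3.congr fun x => ?_
    ring
  · refine SCend_fin (hF.mono fun x hx => mm_ne_zero _ _ hx.1 hx.2) hq ?_
    simp only [sub_self, zero_div]
    exact tendsto_const_nhds

theorem prim_one_sing (hc : ContinuousOn h (Hb \ {0, 1}))
    (hd : ∀ x : ℂ, 0 < x.im → HasDerivAt h (κ * mm A B x) x) (hB : B < -1) (hB' : -2 < B) (p : ℂ) :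
    Tendsto (fun x => (h x - p) / mm A (B + 1) x) (𝓝[Hb \ {0, 1}] 1) (𝓝 (-κ / (B + 1))) := by
  obtain ⟨L, C, hC, hL⟩ := SCend_one hc hd (SCend_cast (by linarith)) hB'
  have hF : ∀ᶠ x : ℂ in 𝓝[Hb \ {0, 1}] 1, x ≠ 0 ∧ x ≠ 1 := SCend_ev1.mono fun x hx => ⟨hx.2.1, hx.2.2.1⟩
  have hb : ∀ᶠ x : ℂ in 𝓝[Hb \ {0, 1}] 1, ‖h x - -κ / (B + 1) * mm A (B + 1) x - L‖ ≤
      C * (‖x‖ ^ (0:ℝ) * ‖x - 1‖ ^ (B + 2)) := by
    filter_upwards [SCend_ev1] with x hx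
    rw [Real.rpow_zero, one_mul]
    exact hL x hx.1 hx.2.2.1 hx.2.2.2
  have hq := SCend_quot (𝓝[Hb \ {0, 1}] 1) A (B + 1) _ C 0 (B + 2) hF hb
    (SCend_n1 (by linarith) _)
  exact SCend_fin (hF.mono fun x hx => mm_ne_zero _ _ hx.1 hx.2) hq
    (SCend_inv _ _ _ _ hF (SCend_n1 (by linarith) _))

theorem prim_inf (hc : ContinuousOn h (Hb \ {0, 1}))
    (hd : ∀ x : ℂ, 0 < x.im → HasDerivAt h (κ * mm A B x) x) (hAB : A + B < -1) :
    ∃ L : ℂ, Tendsto h (Bornology.cobounded ℂ ⊓ 𝓟 Hb) (𝓝 L) ∧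
      Tendsto (fun x => (h x - L) / mm (A + 1) B x) (Bornology.cobounded ℂ ⊓ 𝓟 Hb)
        (𝓝 (κ / (A + B + 1))) := by
  obtain ⟨L, C, hC, hL⟩ := SCend_inf hc hd (SCend_cast2 (by linarith)) (by linarith)
  have hF : ∀ᶠ x : ℂ in Bornology.cobounded ℂ ⊓ 𝓟 Hb, x ≠ 0 ∧ x ≠ 1 :=
    SCend_evi.mono fun x hx => ⟨hx.2.1, hx.2.2.1⟩
  have hb : ∀ᶠ x : ℂ in Bornology.cobounded ℂ ⊓ 𝓟 Hb,
      ‖h x - κ / (A + B + 1) * mm (A + 1) B x - L‖ ≤
      C * (‖x‖ ^ (A + B) * ‖x - 1‖ ^ (0:ℝ)) := by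
    filter_upwards [SCend_evi] with x hx
    rw [Real.rpow_zero, mul_one]
    exact hL x hx.1 hx.2.2.2
  have hq := SCend_quot (Bornology.cobounded ℂ ⊓ 𝓟 Hb) (A + 1) B _ C (A + B) 0 hF hb
    (SCend_ni (by linarith))
  refine ⟨L, ?_, ?_⟩
  · have h1 : Tendsto (fun x => h x - κ / (A + B + 1) * mm (A + 1) B x - L)
        (Bornology.cobounded ℂ ⊓ 𝓟 Hb) (𝓝 0) := by
      refine squeeze_zero_norm' hb ?_
      have := (SCend_ni (r := A + B) (s := 0) (by linarith)).const_mul C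
      simpa using this
    have h2 := SCend_mm0 (Bornology.cobounded ℂ ⊓ 𝓟 Hb) (A + 1) B hF (SCend_ni (by linarith))
    have h3 := (h1.add (h2.const_mul (κ / (A + B + 1)))).add_const L
    simp only [mul_zero, zero_add] at h3
    refine h3.congr fun x => ?_
    ring
  · refine SCend_fin (hF.mono fun x hx => mm_ne_zero _ _ hx.1 hx.2) hq ?_
    simp only [sub_self, zero_div]
    exact tendsto_const_nhds

theorem prim_inf_sing (hc : ContinuousOn h (Hb \ {0, 1}))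
    (hd : ∀ x : ℂ, 0 < x.im → HasDerivAt h (κ * mm A B x) x) (hAB : -1 < A + B)
    (hAB' : A + B < 0) (p : ℂ) :
    Tendsto (fun x => (h x - p) / mm (A + 1) B x) (Bornology.cobounded ℂ ⊓ 𝓟 Hb)
        (𝓝 (κ / (A + B + 1))) := by
  obtain ⟨L, C, hC, hL⟩ := SCend_inf hc hd (SCend_cast2 (by linarith)) hAB'
  have hF : ∀ᶠ x : ℂ in Bornology.cobounded ℂ ⊓ 𝓟 Hb, x ≠ 0 ∧ x ≠ 1 :=
    SCend_evi.mono fun x hx => ⟨hx.2.1, hx.2.2.1⟩
  have hb : ∀ᶠ x : ℂ in Bornology.cobounded ℂ ⊓ 𝓟 Hb,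
      ‖h x - κ / (A + B + 1) * mm (A + 1) B x - L‖ ≤
      C * (‖x‖ ^ (A + B) * ‖x - 1‖ ^ (0:ℝ)) := by
    filter_upwards [SCend_evi] with x hx
    rw [Real.rpow_zero, mul_one]
    exact hL x hx.1 hx.2.2.2
  have hq := SCend_quot (Bornology.cobounded ℂ ⊓ 𝓟 Hb) (A + 1) B _ C (A + B) 0 hF hb
    (SCend_ni (by linarith))
  exact SCend_fin (hF.mono fun x hx => mm_ne_zero _ _ hx.1 hx.2) hq
    (SCend_inv _ _ _ _ hF (SCend_ni (by linarith)))

end Pool.Agent.OBT
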