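import Mathlib
import Pool.Agent.OBT.Quo
import Pool.Agent.OBT.SC1
import Pool.Agent.OBT.SCend

/-!
# The Schwarz-Christoffel map onto a triangle: boundary behaviour
-/

open scoped ComplexConjugate Topology Real
open MeasureTheory Filter

namespace Pool.Agent.OBT

noncomputable section

/-- Euler's beta integral -/
def bet (a b : ℝ) : ℂ := JJ (a - 1) (b - 1) 1

/-- the Schwarz-Christoffel map with angles `π a` at `0`, `π b` at `1` -/
def SC (a b : ℝ) (x : ℂ) : ℂ := JJ (a - 1) (b - 1) x / bet a b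

/-- the apex of the triangle with angles `π a` at `0` and `π b` at `1` -/
def tau (a b : ℝ) : ℂ :=
  ((Real.sin (π * b) / Real.sin (π * (a + b)) : ℝ) : ℂ) * Complex.exp (π * a * Complex.I)

/-- the triangle with vertices `0`, `1` and angles `π a` at `0`, `π b` at `1` -/
def tri (a b : ℝ) : Fin 3 → ℂ := ![0, 1, tau a b]

variable {a b : ℝ}

theorem SC3_sin_pos {c : ℝ} (hc : 0 < c) (hc1 : c < 1) : 0 < Real.sin (π * c) :=
  Real.sin_pos_of_pos_of_lt_pi (by positivity) (by nlinarith [Real.pi_pos])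

theorem SC3_exp_eq (c : ℝ) : Complex.exp (π * c * Complex.I) =
    (Real.cos (π * c) : ℂ) + (Real.sin (π * c) : ℂ) * Complex.I := by
  have h : (π * c * Complex.I : ℂ) = ((π * c : ℝ) : ℂ) * Complex.I := by push_cast; ring
  rw [h, Complex.exp_mul_I, ← Complex.ofReal_cos, ← Complex.ofReal_sin]

theorem SC3_exp_neg_eq (c : ℝ) : Complex.exp (-(π * c) * Complex.I) =
    (Real.cos (π * c) : ℂ) - (Real.sin (π * c) : ℂ) * Complex.I := by
  have h : (-(π * c) * Complex.I : ℂ) = ((-(π * c) : ℝ) : ℂ) * Complex.I := by push_cast; ring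
  rw [h, Complex.exp_mul_I, ← Complex.ofReal_cos, ← Complex.ofReal_sin, Real.cos_neg,
    Real.sin_neg]
  push_cast
  ring

theorem tau_im_pos (ha : 0 < a) (hb : 0 < b) (hab : a + b < 1) : 0 < (tau a b).im := by
  have h1 := SC3_sin_pos ha (by linarith)
  have h2 := SC3_sin_pos hb (by linarith)
  have h3 := SC3_sin_pos (c := a + b) (by linarith) hab
  rw [tau, SC3_exp_eq]
  have h4 : ∀ (x y z : ℝ), ((x : ℂ) * ((y : ℂ) + (z : ℂ) * Complex.I)).im = x * z := by
    intro x y z; simp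
  rw [h4]
  positivity


/-- the direction of the side from `1` to `tau` -/
theorem tau_sub_one (ha : 0 < a) (hb : 0 < b) (hab : a + b < 1) :
    tau a b - 1 = -((Real.sin (π * a) / Real.sin (π * (a + b)) : ℝ) : ℂ) *
      Complex.exp (-(π * b) * Complex.I) := by
  have h3 := SC3_sin_pos (c := a + b) (by linarith) hab
  have h5 : (Real.sin (π * (a + b)) : ℂ) ≠ 0 := by exact_mod_cast h3.ne'
  have h6 : (Real.sin (π * (a + b)) : ℂ) = (Real.sin (π * a) : ℂ) * (Real.cos (π * b) : ℂ) +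
      (Real.cos (π * a) : ℂ) * (Real.sin (π * b) : ℂ) := by
    rw [mul_add, Real.sin_add]
    norm_cast
  rw [tau, SC3_exp_eq, SC3_exp_neg_eq, Complex.ofReal_div, Complex.ofReal_div,
    div_mul_eq_mul_div, div_sub_one h5, neg_mul, div_mul_eq_mul_div, ← neg_div]
  congr 1
  rw [h6]
  ring

theorem affineIndependent_tri (ha : 0 < a) (hb : 0 < b) (hab : a + b < 1) :
    AffineIndependent ℝ (tri a b) := by
  rw [tri, affineIndependent_iff_not_collinear_set,
    collinear_iff_of_mem (p₀ := (0 : ℂ)) (by simp)]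
  rintro ⟨w, hw⟩
  obtain ⟨r, hr⟩ := hw 1 (by simp)
  obtain ⟨r', hr'⟩ := hw (tau a b) (by simp)
  have h1 := tau_im_pos ha hb hab
  rw [vadd_eq_add, add_zero] at hr hr'
  have h2 : r ≠ 0 := by
    rintro rfl
    simp at hr
  have h3 : w.im = 0 := by
    have := congrArg Complex.im hr
    simp at this
    rcases this with h | h
    · exact absurd h h2
    · exact h
  have h4 := congrArg Complex.im hr'
  simp [h3] at h4
  linarith

/-- increments of `JJ` along an interval of the real line on which the integrand has a constant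
argument -/
theorem SC3_incr {A B : ℝ} (hA : -1 < A) (hB : -1 < B) {c : ℂ} (hc : c ≠ 0) {g : ℝ → ℝ} {s t : ℝ}
    (hst : s < t) (hg : ∀ x ∈ Set.Ioo s t, mm A B (x : ℂ) = c * ((g x : ℝ) : ℂ))
    (hpos : ∀ x ∈ Set.Ioo s t, 0 < g x) :
    ∃ p : ℝ, 0 < p ∧ JJ A B t - JJ A B s = c * p := by
  obtain ⟨-, -, -, h4⟩ := JJ_spec A B hA hB
  have hi := intervalIntegrable_mm A B hA hB s t
  rw [intervalIntegrable_iff_integrableOn_Ioo_of_le hst.le] at hi
  have hi2 : IntegrableOn g (Set.Ioo s t) volume := by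
    have h5 : IntegrableOn (fun x : ℝ => (c⁻¹ * mm A B (x : ℂ)).re) (Set.Ioo s t) volume :=
      (hi.const_mul c⁻¹).re
    refine h5.congr_fun ?_ measurableSet_Ioo
    intro x hx
    simp only
    rw [hg x hx, ← mul_assoc, inv_mul_cancel₀ hc, one_mul, Complex.ofReal_re]
  have hi3 : IntervalIntegrable g volume s t := by
    rw [intervalIntegrable_iff_integrableOn_Ioo_of_le hst.le]
    exact hi2
  refine ⟨∫ x in s..t, g x, intervalIntegral.intervalIntegral_pos_of_pos_on hi3 hpos hst, ?_⟩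
  rw [h4 s t, intervalIntegral.integral_of_le hst.le, integral_Ioc_eq_integral_Ioo,
    setIntegral_congr_fun measurableSet_Ioo hg, intervalIntegral.integral_of_le hst.le,
    integral_Ioc_eq_integral_Ioo, integral_const_mul, integral_complex_ofReal]

theorem SC3_incr_mid {A B : ℝ} (hA : -1 < A) (hB : -1 < B) {s t : ℝ} (hs : 0 ≤ s) (hst : s < t)
    (ht : t ≤ 1) : ∃ p : ℝ, 0 < p ∧ JJ A B t - JJ A B s = p := by
  obtain ⟨p, hp, h⟩ := SC3_incr hA hB (c := 1) one_ne_zero (g := fun x => x ^ A * (1 - x) ^ B) hst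
    (fun x hx => by rw [one_mul]; exact mm_mid A B (by linarith [hx.1]) (by linarith [hx.2]))
    (fun x hx => by
      have h1 : 0 < x := by linarith [hx.1]
      have h2 : 0 < 1 - x := by linarith [hx.2]
      positivity)
  exact ⟨p, hp, by rw [h, one_mul]⟩

theorem SC3_incr_neg {A B : ℝ} (hA : -1 < A) (hB : -1 < B) {s t : ℝ} (hst : s < t)
    (ht : t ≤ 0) : ∃ p : ℝ, 0 < p ∧ JJ A B t - JJ A B s = Complex.exp (π * A * Complex.I) * p :=
  SC3_incr hA hB (Complex.exp_ne_zero _) (g := fun x => (-x) ^ A * (1 - x) ^ B) hst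
    (fun x hx => mm_neg A B (by linarith [hx.2]))
    (fun x hx => by
      have h1 : 0 < -x := by linarith [hx.2]
      have h2 : 0 < 1 - x := by linarith [hx.2]
      positivity)

theorem SC3_incr_gt {A B : ℝ} (hA : -1 < A) (hB : -1 < B) {s t : ℝ} (hst : s < t)
    (hs : 1 ≤ s) :
    ∃ p : ℝ, 0 < p ∧ JJ A B t - JJ A B s = Complex.exp (-(π * B) * Complex.I) * p :=
  SC3_incr hA hB (Complex.exp_ne_zero _) (g := fun x => x ^ A * (x - 1) ^ B) hst
    (fun x hx => mm_gt A B (by linarith [hx.1]))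
    (fun x hx => by
      have h1 : 0 < x := by linarith [hx.1]
      have h2 : 0 < x - 1 := by linarith [hx.1]
      positivity)

theorem bet_pos (ha : 0 < a) (hb : 0 < b) : ∃ s : ℝ, 0 < s ∧ bet a b = s := by
  obtain ⟨p, hp, h⟩ := SC3_incr_mid (A := a - 1) (B := b - 1) (by linarith) (by linarith)
    (le_refl (0 : ℝ)) one_pos le_rfl
  refine ⟨p, hp, ?_⟩
  obtain ⟨-, h2, -, -⟩ := JJ_spec (a - 1) (b - 1) (by linarith) (by linarith)
  rw [Complex.ofReal_zero, h2, sub_zero, Complex.ofReal_one] at h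
  exact h

theorem SC3_bet_ne (ha : 0 < a) (hb : 0 < b) : bet a b ≠ 0 := by
  obtain ⟨s, hs, h⟩ := bet_pos ha hb
  rw [h]
  exact_mod_cast hs.ne'

theorem SC_zero : SC a b 0 = 0 := by
  rw [SC]
  by_cases h : -1 < a - 1 ∧ -1 < b - 1
  · rw [(JJ_spec (a - 1) (b - 1) h.1 h.2).2.1, zero_div]
  · rw [JJ, dif_neg h]
    simp

theorem SC_one (ha : 0 < a) (hb : 0 < b) : SC a b 1 = 1 :=
  div_self (SC3_bet_ne ha hb)

theorem continuousOn_SC (ha : 0 < a) (hb : 0 < b) : ContinuousOn (SC a b) Hb :=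
  (JJ_spec (a - 1) (b - 1) (by linarith) (by linarith)).1.div_const _

theorem hasDerivAt_SC (ha : 0 < a) (hb : 0 < b) {x : ℂ} (hx : 0 < x.im) :
    HasDerivAt (SC a b) (mm (a - 1) (b - 1) x / bet a b) x :=
  ((JJ_spec (a - 1) (b - 1) (by linarith) (by linarith)).2.2.1 x hx).div_const _

theorem SC_mid (ha : 0 < a) (hb : 0 < b) {t : ℝ} (h0 : 0 < t) (h1 : t < 1) :
    ∃ s : ℝ, 0 < s ∧ s < 1 ∧ SC a b t = s := by
  obtain ⟨p, hp, h⟩ := SC3_incr_mid (A := a - 1) (B := b - 1) (by linarith) (by linarith)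
    (le_refl (0 : ℝ)) h0 h1.le
  obtain ⟨q, hq, h'⟩ := SC3_incr_mid (A := a - 1) (B := b - 1) (by linarith) (by linarith)
    h0.le h1 le_rfl
  obtain ⟨-, h2, -, -⟩ := JJ_spec (a - 1) (b - 1) (by linarith) (by linarith)
  rw [Complex.ofReal_zero, h2, sub_zero] at h
  have h3 : bet a b = ((p + q : ℝ) : ℂ) := by
    rw [bet, ← Complex.ofReal_one, ← sub_add_cancel (JJ (a - 1) (b - 1) (1 : ℝ))
      (JJ (a - 1) (b - 1) t), h', h]
    push_cast
    ring
  refine ⟨p / (p + q), by positivity, ?_, ?_⟩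
  · rw [div_lt_one (by positivity)]
    linarith
  · rw [SC, h3, h]
    push_cast
    rfl


/-- the real line lies in the closed upper half plane -/
theorem SC3_ofReal_mem (t : ℝ) : (t : ℂ) ∈ Hb := by
  simp [Hb]

theorem SC3_tendsto_atBot : Tendsto (fun t : ℝ => (t : ℂ)) atBot
    (Bornology.cobounded ℂ ⊓ 𝓟 Hb) := by
  rw [tendsto_inf]
  refine ⟨?_, tendsto_principal.mpr (Eventually.of_forall SC3_ofReal_mem)⟩
  rw [← tendsto_norm_atTop_iff_cobounded]
  have : (fun t : ℝ => ‖(t : ℂ)‖) = fun t : ℝ => |t| := by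
    funext t; exact Complex.norm_real t
  rw [this]
  exact tendsto_abs_atBot_atTop

theorem SC3_tendsto_atTop : Tendsto (fun t : ℝ => (t : ℂ)) atTop
    (Bornology.cobounded ℂ ⊓ 𝓟 Hb) := by
  rw [tendsto_inf]
  refine ⟨?_, tendsto_principal.mpr (Eventually.of_forall SC3_ofReal_mem)⟩
  rw [← tendsto_norm_atTop_iff_cobounded]
  have : (fun t : ℝ => ‖(t : ℂ)‖) = fun t : ℝ => |t| := by
    funext t; exact Complex.norm_real t
  rw [this]
  exact tendsto_abs_atTop_atTop

theorem SC3_neBot_inf : (Bornology.cobounded ℂ ⊓ 𝓟 Hb).NeBot :=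
  SC3_tendsto_atTop.neBot

theorem SC3_exp_sub_one (c : ℝ) : Complex.exp (π * ((c - 1 : ℝ) : ℂ) * Complex.I) =
    -Complex.exp (π * c * Complex.I) := by
  have : (π * ((c - 1 : ℝ) : ℂ) * Complex.I : ℂ) = π * c * Complex.I - π * Complex.I := by
    push_cast; ring
  rw [this, Complex.exp_sub, Complex.exp_pi_mul_I, div_neg, div_one]

theorem SC3_exp_neg_sub_one (c : ℝ) : Complex.exp (-(π * ((c - 1 : ℝ) : ℂ)) * Complex.I) =
    -Complex.exp (-(π * c) * Complex.I) := by
  have : (-(π * ((c - 1 : ℝ) : ℂ)) * Complex.I : ℂ) = -(π * c) * Complex.I + π * Complex.I := by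
    push_cast; ring
  rw [this, Complex.exp_add, Complex.exp_pi_mul_I, mul_neg_one]

/-- the main computation: the values on the two half lines and the limit at infinity -/
theorem SC3_main (ha : 0 < a) (hb : 0 < b) (hab : a + b < 1) : ∃ P Q : ℝ, 0 < P ∧ 0 < Q ∧
    tau a b = Complex.exp (π * a * Complex.I) * P ∧
    tau a b - 1 = -Complex.exp (-(π * b) * Complex.I) * Q ∧
    (∀ t : ℝ, t < 0 → ∃ p : ℝ, 0 < p ∧ p < P ∧ SC a b t = Complex.exp (π * a * Complex.I) * p) ∧
    (∀ t : ℝ, 1 < t → ∃ q : ℝ, 0 < q ∧ q < Q ∧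
      SC a b t - 1 = -Complex.exp (-(π * b) * Complex.I) * q) ∧
    Tendsto (SC a b) (Bornology.cobounded ℂ ⊓ 𝓟 Hb) (𝓝 (tau a b)) := by
  have hA : -1 < a - 1 := by linarith
  have hB : -1 < b - 1 := by linarith
  obtain ⟨β, hβ, hbet⟩ := bet_pos ha hb
  have hbne := SC3_bet_ne ha hb
  obtain ⟨L, hL, -⟩ := prim_inf (κ := 1 / bet a b) (A := a - 1) (B := b - 1)
    ((continuousOn_SC ha hb).mono Set.sdiff_subset)
    (fun x hx => by
      have := hasDerivAt_SC ha hb hx
      rwa [div_eq_mul_one_div, mul_comm] at this) (by linarith)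
  set ea := Complex.exp (π * a * Complex.I) with hea
  set eb := Complex.exp (-(π * b) * Complex.I) with heb
  have hea0 : ea ≠ 0 := Complex.exp_ne_zero _
  have heb0 : eb ≠ 0 := Complex.exp_ne_zero _
  -- increments of `SC`
  have hneg : ∀ s t : ℝ, s < t → t ≤ 0 → ∃ p : ℝ, 0 < p ∧ SC a b s = SC a b t + ea * p := by
    intro s t hst ht
    obtain ⟨p, hp, h⟩ := SC3_incr_neg hA hB hst ht
    refine ⟨p / β, by positivity, ?_⟩
    rw [SC3_exp_sub_one, ← hea] at h
    rw [SC, SC, hbet]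
    have hβ' : (β : ℂ) ≠ 0 := by exact_mod_cast hβ.ne'
    push_cast
    field_simp
    linear_combination -h
  have hgt : ∀ s t : ℝ, s < t → 1 ≤ s → ∃ p : ℝ, 0 < p ∧ SC a b t = SC a b s - eb * p := by
    intro s t hst hs
    obtain ⟨p, hp, h⟩ := SC3_incr_gt hA hB hst hs
    refine ⟨p / β, by positivity, ?_⟩
    rw [SC3_exp_neg_sub_one, ← heb] at h
    rw [SC, SC, hbet]
    have hβ' : (β : ℂ) ≠ 0 := by exact_mod_cast hβ.ne'
    push_cast
    field_simp
    linear_combination h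
  -- the real coordinates
  have hn0 : ∀ t : ℝ, t < 0 → ∃ p : ℝ, 0 < p ∧ SC a b t = ea * p := by
    intro t ht
    obtain ⟨p, hp, h⟩ := hneg t 0 ht le_rfl
    rw [Complex.ofReal_zero, SC_zero, zero_add] at h
    exact ⟨p, hp, h⟩
  have hg0 : ∀ t : ℝ, 1 < t → ∃ q : ℝ, 0 < q ∧ SC a b t - 1 = -eb * q := by
    intro t ht
    obtain ⟨p, hp, h⟩ := hgt 1 t ht le_rfl
    rw [Complex.ofReal_one, SC_one ha hb] at h
    exact ⟨p, hp, by rw [h]; ring⟩
  have hLbot : Tendsto (fun t : ℝ => SC a b t) atBot (𝓝 L) := hL.comp SC3_tendsto_atBot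
  have hLtop : Tendsto (fun t : ℝ => SC a b t) atTop (𝓝 L) := hL.comp SC3_tendsto_atTop
  have hP1 : Tendsto (fun t : ℝ => (ea⁻¹ * SC a b t).re) atBot (𝓝 (ea⁻¹ * L).re) :=
    (Complex.continuous_re.tendsto _).comp (hLbot.const_mul ea⁻¹)
  have hQ1 : Tendsto (fun t : ℝ => ((-eb)⁻¹ * (SC a b t - 1)).re) atTop
      (𝓝 ((-eb)⁻¹ * (L - 1)).re) :=
    (Complex.continuous_re.tendsto _).comp ((hLtop.sub_const 1).const_mul (-eb)⁻¹)
  set P := (ea⁻¹ * L).re with hP
  set Q := ((-eb)⁻¹ * (L - 1)).re with hQ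
  have hLP : L = ea * P := by
    have h1 : Tendsto (fun t : ℝ => ea * (((ea⁻¹ * SC a b t).re : ℝ) : ℂ)) atBot
        (𝓝 (ea * (P : ℂ))) :=
      ((Complex.continuous_ofReal.tendsto _).comp hP1).const_mul ea
    refine tendsto_nhds_unique (hLbot.congr' ?_) h1
    filter_upwards [eventually_lt_atBot (0 : ℝ)] with t ht
    obtain ⟨p, hp, h⟩ := hn0 t ht
    rw [h, ← mul_assoc, inv_mul_cancel₀ hea0, one_mul, Complex.ofReal_re]
  have hLQ : L - 1 = -eb * Q := by
    have h1 : Tendsto (fun t : ℝ => -eb * ((((-eb)⁻¹ * (SC a b t - 1)).re : ℝ) : ℂ)) atTop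
        (𝓝 (-eb * (Q : ℂ))) :=
      ((Complex.continuous_ofReal.tendsto _).comp hQ1).const_mul (-eb)
    refine tendsto_nhds_unique ((hLtop.sub_const 1).congr' ?_) h1
    filter_upwards [eventually_gt_atTop (1 : ℝ)] with t ht
    obtain ⟨p, hp, h⟩ := hg0 t ht
    rw [h, ← mul_assoc, inv_mul_cancel₀ (neg_ne_zero.mpr heb0), one_mul, Complex.ofReal_re]
  -- the values are smaller than the limits
  have hPlt : ∀ t : ℝ, t < 0 → ∃ p : ℝ, 0 < p ∧ p < P ∧ SC a b t = ea * p := by
    intro t ht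
    obtain ⟨p, hp, h⟩ := hn0 t ht
    refine ⟨p, hp, ?_, h⟩
    obtain ⟨p', hp', h'⟩ := hneg (t - 1) t (by linarith) ht.le
    have h2 : p + p' ≤ P := by
      refine ge_of_tendsto hP1 ?_
      filter_upwards [eventually_lt_atBot (t - 1)] with s hs
      obtain ⟨p'', hp'', h''⟩ := hneg s (t - 1) hs (by linarith)
      rw [h'', h', h]
      have : ea⁻¹ * (ea * (p : ℂ) + ea * (p' : ℂ) + ea * (p'' : ℂ)) =
          ((p + p' + p'' : ℝ) : ℂ) := by
        push_cast
        field_simp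
      rw [this, Complex.ofReal_re]
      linarith
    linarith
  have hQlt : ∀ t : ℝ, 1 < t → ∃ q : ℝ, 0 < q ∧ q < Q ∧ SC a b t - 1 = -eb * q := by
    intro t ht
    obtain ⟨p, hp, h⟩ := hg0 t ht
    refine ⟨p, hp, ?_, h⟩
    obtain ⟨p', hp', h'⟩ := hgt t (t + 1) (by linarith) ht.le
    have h2 : p + p' ≤ Q := by
      refine ge_of_tendsto hQ1 ?_
      filter_upwards [eventually_gt_atTop (t + 1)] with s hs
      obtain ⟨p'', hp'', h''⟩ := hgt (t + 1) s hs (by linarith)
      have h3 : SC a b s - 1 = -eb * ((p + p' + p'' : ℝ) : ℂ) := by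
        rw [h'', h']
        push_cast
        linear_combination h
      rw [h3, ← mul_assoc, inv_mul_cancel₀ (neg_ne_zero.mpr heb0), one_mul, Complex.ofReal_re]
      linarith
    linarith
  have hP0 : 0 < P := by
    obtain ⟨p, hp, hpP, -⟩ := hPlt (-1) (by norm_num)
    linarith
  have hQ0 : 0 < Q := by
    obtain ⟨p, hp, hpP, -⟩ := hQlt 2 (by norm_num)
    linarith
  -- the limit is `tau`
  have hrel : ea * P + eb * Q = 1 := by
    have : ea * (P : ℂ) - 1 = -eb * Q := by rw [← hLP, hLQ]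
    linear_combination this
  have hsab := SC3_sin_pos (c := a + b) (by linarith) hab
  have hPval : P = Real.sin (π * b) / Real.sin (π * (a + b)) := by
    rw [hea, heb, SC3_exp_eq, SC3_exp_neg_eq] at hrel
    have hre := congrArg Complex.re hrel
    have him := congrArg Complex.im hrel
    have h1 : (((Real.cos (π * a) : ℂ) + (Real.sin (π * a) : ℂ) * Complex.I) * (P : ℂ) +
      ((Real.cos (π * b) : ℂ) - (Real.sin (π * b) : ℂ) * Complex.I) * (Q : ℂ)) =
      ((Real.cos (π * a) * P + Real.cos (π * b) * Q : ℝ) : ℂ) +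
      ((Real.sin (π * a) * P - Real.sin (π * b) * Q : ℝ) : ℂ) * Complex.I := by
      push_cast
      ring
    rw [h1] at hre him
    rw [Complex.add_re, Complex.ofReal_re, Complex.re_ofReal_mul, Complex.I_re, mul_zero,
      add_zero, Complex.one_re] at hre
    rw [Complex.add_im, Complex.ofReal_im, Complex.im_ofReal_mul, Complex.I_im, mul_one,
      zero_add, Complex.one_im] at him
    rw [eq_div_iff hsab.ne', mul_add, Real.sin_add]
    linear_combination Real.sin (π * b) * hre + Real.cos (π * b) * him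
  have htau : tau a b = ea * P := by
    rw [tau, hPval]
    ring
  refine ⟨P, Q, hP0, hQ0, htau, ?_, hPlt, hQlt, ?_⟩
  · rw [htau, ← hLP, hLQ]
  · rw [htau, ← hLP]
    exact hL

theorem SC_lim (ha : 0 < a) (hb : 0 < b) (hab : a + b < 1) :
    Tendsto (SC a b) (Bornology.cobounded ℂ ⊓ 𝓟 Hb) (𝓝 (tau a b)) := by
  obtain ⟨P, Q, -, -, -, -, -, -, h⟩ := SC3_main ha hb hab
  exact h

/-- the negative half line is mapped to the open side between `0` and `tau` -/
theorem SC_neg (ha : 0 < a) (hb : 0 < b) (hab : a + b < 1) {t : ℝ} (h : t < 0) :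
    ∃ s : ℝ, 0 < s ∧ s < 1 ∧ SC a b t = s * tau a b := by
  obtain ⟨P, Q, hP, hQ, h1, h2, h3, h4, -⟩ := SC3_main ha hb hab
  obtain ⟨p, hp, hpP, h5⟩ := h3 t h
  have hP' : (P : ℂ) ≠ 0 := by exact_mod_cast hP.ne'
  refine ⟨p / P, by positivity, (div_lt_one hP).mpr hpP, ?_⟩
  rw [h5, h1]
  push_cast
  field_simp

/-- the half line from `1` to infinity is mapped to the open side between `1` and `tau` -/
theorem SC_gt (ha : 0 < a) (hb : 0 < b) (hab : a + b < 1) {t : ℝ} (h : 1 < t) :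
    ∃ s : ℝ, 0 < s ∧ s < 1 ∧ SC a b t = 1 + s * (tau a b - 1) := by
  obtain ⟨P, Q, hP, hQ, h1, h2, h3, h4, -⟩ := SC3_main ha hb hab
  obtain ⟨q, hq, hqQ, h5⟩ := h4 t h
  have hQ' : (Q : ℂ) ≠ 0 := by exact_mod_cast hQ.ne'
  refine ⟨q / Q, by positivity, (div_lt_one hQ).mpr hqQ, ?_⟩
  rw [h2]
  have h6 : SC a b t = 1 + -Complex.exp (-(π * b) * Complex.I) * q := by
    linear_combination h5
  rw [h6]
  push_cast
  field_simp

/-- the Schwarz-Christoffel map is onto the three open sides -/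
theorem SC_surj_sides (ha : 0 < a) (hb : 0 < b) (hab : a + b < 1) :
    (∀ s : ℝ, 0 < s → s < 1 → ∃ t : ℝ, 0 < t ∧ t < 1 ∧ SC a b t = s) ∧
    (∀ s : ℝ, 0 < s → s < 1 → ∃ t : ℝ, t < 0 ∧ SC a b t = s * tau a b) ∧
    (∀ s : ℝ, 0 < s → s < 1 → ∃ t : ℝ, 1 < t ∧ SC a b t = 1 + s * (tau a b - 1)) := by
  have hcont : Continuous (fun t : ℝ => SC a b (t : ℂ)) :=
    (continuousOn_SC ha hb).comp_continuous Complex.continuous_ofReal SC3_ofReal_mem
  have htau := tau_im_pos ha hb hab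
  have htau0 : tau a b ≠ 0 := by
    intro h; rw [h] at htau; simp at htau
  have htau1 : tau a b - 1 ≠ 0 := by
    intro h
    have := congrArg Complex.im h
    simp at this
    linarith
  refine ⟨?_, ?_, ?_⟩
  · intro s hs0 hs1
    have hc : Continuous (fun t : ℝ => (SC a b (t : ℂ)).re) := Complex.continuous_re.comp hcont
    have h := intermediate_value_Icc (zero_le_one (α := ℝ)) hc.continuousOn
    have h0 : (SC a b ((0 : ℝ) : ℂ)).re = 0 := by rw [Complex.ofReal_zero, SC_zero]; rfl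
    have h1 : (SC a b ((1 : ℝ) : ℂ)).re = 1 := by rw [Complex.ofReal_one, SC_one ha hb]; rfl
    rw [h0, h1] at h
    obtain ⟨t, ht, hts⟩ := h ⟨hs0.le, hs1.le⟩
    simp only at hts
    have ht0 : 0 < t := by
      rcases ht.1.lt_or_eq with h | h
      · exact h
      · rw [← h, h0] at hts; linarith
    have ht1 : t < 1 := by
      rcases ht.2.lt_or_eq with h | h
      · exact h
      · rw [h, h1] at hts; linarith
    refine ⟨t, ht0, ht1, ?_⟩
    obtain ⟨s', -, -, h'⟩ := SC_mid ha hb ht0 ht1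
    rw [h', Complex.ofReal_re] at hts
    rw [h', hts]
  · intro s hs0 hs1
    have hc : Continuous (fun t : ℝ => (SC a b (t : ℂ) / tau a b).re) :=
      Complex.continuous_re.comp (hcont.div_const _)
    have h0 : (SC a b ((0 : ℝ) : ℂ) / tau a b).re = 0 := by
      rw [Complex.ofReal_zero, SC_zero, zero_div]; rfl
    have hlim : Tendsto (fun t : ℝ => (SC a b (t : ℂ) / tau a b).re) atBot (𝓝 1) := by
      have h1 := ((SC_lim ha hb hab).comp SC3_tendsto_atBot).div_const (tau a b)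
      rw [div_self htau0] at h1
      exact (Complex.continuous_re.tendsto _).comp h1
    obtain ⟨t0, ht0, hst0⟩ := ((eventually_lt_atBot (0 : ℝ)).and
      (hlim.eventually (lt_mem_nhds hs1))).exists
    have h := intermediate_value_Icc' ht0.le hc.continuousOn
    rw [h0] at h
    obtain ⟨t, ht, hts⟩ := h ⟨hs0.le, hst0.le⟩
    simp only at hts
    have ht1 : t < 0 := by
      rcases ht.2.lt_or_eq with h | h
      · exact h
      · rw [h, h0] at hts; linarith
    refine ⟨t, ht1, ?_⟩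
    obtain ⟨s', -, -, h'⟩ := SC_neg ha hb hab ht1
    rw [h', mul_div_cancel_right₀ _ htau0, Complex.ofReal_re] at hts
    rw [h', hts]
  · intro s hs0 hs1
    have hc : Continuous (fun t : ℝ => ((SC a b (t : ℂ) - 1) / (tau a b - 1)).re) :=
      Complex.continuous_re.comp ((hcont.sub continuous_const).div_const _)
    have h0 : ((SC a b ((1 : ℝ) : ℂ) - 1) / (tau a b - 1)).re = 0 := by
      rw [Complex.ofReal_one, SC_one ha hb, sub_self, zero_div]; rfl
    have hlim : Tendsto (fun t : ℝ => ((SC a b (t : ℂ) - 1) / (tau a b - 1)).re) atTop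
        (𝓝 1) := by
      have h1 := (((SC_lim ha hb hab).comp SC3_tendsto_atTop).sub_const 1).div_const
        (tau a b - 1)
      rw [div_self htau1] at h1
      exact (Complex.continuous_re.tendsto _).comp h1
    obtain ⟨t0, ht0, hst0⟩ := ((eventually_gt_atTop (1 : ℝ)).and
      (hlim.eventually (lt_mem_nhds hs1))).exists
    have h := intermediate_value_Icc ht0.le hc.continuousOn
    rw [h0] at h
    obtain ⟨t, ht, hts⟩ := h ⟨hs0.le, hst0.le⟩
    simp only at hts
    have ht1 : 1 < t := by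
      rcases ht.1.lt_or_eq with h | h
      · exact h
      · rw [← h, h0] at hts; linarith
    refine ⟨t, ht1, ?_⟩
    obtain ⟨s', -, -, h'⟩ := SC_gt ha hb hab ht1
    rw [h', add_sub_cancel_left, mul_div_cancel_right₀ _ htau1, Complex.ofReal_re] at hts
    rw [h', hts]

theorem SC3_neBot_zero : (𝓝[Hb \ {0, 1}] (0 : ℂ)).NeBot := by
  rw [← mem_closure_iff_nhdsWithin_neBot]
  have h1 : Tendsto (fun t : ℝ => (t : ℂ)) (𝓝[<] 0) (𝓝 ((0 : ℝ) : ℂ)) :=
    (Complex.continuous_ofReal.tendsto 0).mono_left nhdsWithin_le_nhds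
  rw [Complex.ofReal_zero] at h1
  refine mem_closure_of_tendsto h1 ?_
  filter_upwards [self_mem_nhdsWithin] with t ht
  have ht' : t < 0 := ht
  refine ⟨SC3_ofReal_mem t, ?_⟩
  simp only [Set.mem_insert_iff, Set.mem_singleton_iff, not_or]
  constructor
  · exact_mod_cast ht'.ne
  · exact_mod_cast (by linarith : t < 1).ne

theorem SC3_neBot_one : (𝓝[Hb \ {0, 1}] (1 : ℂ)).NeBot := by
  rw [← mem_closure_iff_nhdsWithin_neBot]
  have h1 : Tendsto (fun t : ℝ => (t : ℂ)) (𝓝[>] 1) (𝓝 ((1 : ℝ) : ℂ)) :=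
    (Complex.continuous_ofReal.tendsto 1).mono_left nhdsWithin_le_nhds
  rw [Complex.ofReal_one] at h1
  refine mem_closure_of_tendsto h1 ?_
  filter_upwards [self_mem_nhdsWithin] with t ht
  have ht' : 1 < t := ht
  refine ⟨SC3_ofReal_mem t, ?_⟩
  simp only [Set.mem_insert_iff, Set.mem_singleton_iff, not_or]
  constructor
  · exact_mod_cast (by linarith : 0 < t).ne'
  · exact_mod_cast ht'.ne'

/-- asymptotics at the three vertices -/
theorem SC_asymp (ha : 0 < a) (hb : 0 < b) (hab : a + b < 1) :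
    Tendsto (fun x => SC a b x / mm a (b - 1) x) (𝓝[Hb \ {0, 1}] 0) (𝓝 (1 / (a * bet a b))) ∧
    Tendsto (fun x => (SC a b x - 1) / mm (a - 1) b x) (𝓝[Hb \ {0, 1}] 1)
      (𝓝 (-1 / (b * bet a b))) ∧
    Tendsto (fun x => (SC a b x - tau a b) / mm a (b - 1) x) (Bornology.cobounded ℂ ⊓ 𝓟 Hb)
      (𝓝 (1 / ((a + b - 1) * bet a b))) := by
  have hc : ContinuousOn (SC a b) (Hb \ {0, 1}) :=
    (continuousOn_SC ha hb).mono Set.sdiff_subset
  have hd : ∀ x : ℂ, 0 < x.im →
      HasDerivAt (SC a b) (1 / bet a b * mm (a - 1) (b - 1) x) x := by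
    intro x hx
    have := hasDerivAt_SC ha hb hx
    rwa [div_eq_mul_one_div, mul_comm] at this
  have hbne := SC3_bet_ne ha hb
  have h0 : (0 : ℂ) ∈ Hb := by simp [Hb]
  have h1 : (1 : ℂ) ∈ Hb := by simp [Hb]
  refine ⟨?_, ?_, ?_⟩
  · obtain ⟨L, hL, hL'⟩ := prim_zero hc hd (by linarith : -1 < a - 1)
    have := SC3_neBot_zero
    have hL0 : L = 0 := by
      refine tendsto_nhds_unique hL ?_
      have h2 := ((continuousOn_SC ha hb) 0 h0).tendsto.mono_left
        (nhdsWithin_mono 0 (Set.sdiff_subset (s := Hb) (t := {0, 1})))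
      rwa [SC_zero] at h2
    rw [hL0, sub_add_cancel] at hL'
    have h3 : (1 / bet a b / (((a - 1 : ℝ) : ℂ) + 1)) = 1 / (a * bet a b) := by
      rw [div_div]
      congr 1
      push_cast
      ring
    rw [h3] at hL'
    simpa using hL'
  · obtain ⟨L, hL, hL'⟩ := prim_one hc hd (by linarith : -1 < b - 1)
    have := SC3_neBot_one
    have hL0 : L = 1 := by
      refine tendsto_nhds_unique hL ?_
      have h2 := ((continuousOn_SC ha hb) 1 h1).tendsto.mono_left
        (nhdsWithin_mono 1 (Set.sdiff_subset (s := Hb) (t := {0, 1})))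
      rwa [SC_one ha hb] at h2
    rw [hL0, sub_add_cancel] at hL'
    have h3 : (-(1 / bet a b) / (((b - 1 : ℝ) : ℂ) + 1)) = -1 / (b * bet a b) := by
      rw [← neg_div, div_div]
      congr 1
      push_cast
      ring
    rw [h3] at hL'
    exact hL'
  · obtain ⟨L, hL, hL'⟩ := prim_inf hc hd (by linarith : a - 1 + (b - 1) < -1)
    have := SC3_neBot_inf
    have hL0 : L = tau a b := tendsto_nhds_unique hL (SC_lim ha hb hab)
    rw [hL0, sub_add_cancel] at hL'
    have h3 : (1 / bet a b / (((a - 1 : ℝ) : ℂ) + ((b - 1 : ℝ) : ℂ) + 1)) =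
        1 / ((a + b - 1) * bet a b) := by
      rw [div_div]
      congr 1
      push_cast
      ring
    rw [h3] at hL'
    exact hL'

end

end Pool.Agent.OBT
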