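import Mathlib
import Pool.Agent.OBT.SC3

/-!
# The Schwarz-Christoffel map is injective
-/

open scoped ComplexConjugate Topology Real
open MeasureTheory Filter

namespace Pool.Agent.OBT

variable {a b : ℝ}

theorem SC4_cpow_eq (x : ℂ) (hx : x ≠ 0) (c : ℝ) :
    x ^ (c : ℂ) = ((Real.exp (c * Real.log ‖x‖) : ℝ) : ℂ) * Complex.exp ((c * x.arg : ℝ) * Complex.I) := by
  rw [Complex.cpow_def_of_ne_zero hx, Complex.ofReal_exp, ← Complex.exp_add]
  congr 1
  apply Complex.ext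
  · simp [Complex.log_re, mul_comm]
  · simp [Complex.log_im, mul_comm]

theorem SC4_L1 (x : ℂ) (hx : x ≠ 0) (c : ℝ) :
    (x ^ (c : ℂ)).im = Real.exp (c * Real.log ‖x‖) * Real.sin (c * x.arg) := by
  rw [SC4_cpow_eq x hx c, Complex.im_ofReal_mul, Complex.exp_ofReal_mul_I_im]

theorem SC4_L2 (x : ℂ) (hx : x ≠ 0) (c : ℝ) (d : ℝ) :
    (Complex.exp ((d : ℝ) * Complex.I) * conj (x ^ (c : ℂ))).im =
      Real.exp (c * Real.log ‖x‖) * Real.sin (d - c * x.arg) := by
  rw [SC4_cpow_eq x hx c, map_mul, Complex.conj_ofReal, ← Complex.exp_conj]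
  have : Complex.exp ((d : ℝ) * Complex.I) *
      (((Real.exp (c * Real.log ‖x‖) : ℝ) : ℂ) * Complex.exp (conj (((c * x.arg : ℝ) : ℂ) * Complex.I)))
      = ((Real.exp (c * Real.log ‖x‖) : ℝ) : ℂ) *
        Complex.exp (((d - c * x.arg : ℝ) : ℂ) * Complex.I) := by
    rw [mul_left_comm, ← Complex.exp_add]
    congr 2
    simp
    ring
  rw [this, Complex.im_ofReal_mul, Complex.exp_ofReal_mul_I_im]

theorem SC4_arg_nonneg {x : ℂ} (hx : x ∈ Hb) : 0 ≤ x.arg := Complex.arg_nonneg_iff.2 hx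

theorem SC4_arg_pos {x : ℂ} (hx : x ∈ Hb) (h : ¬ (x.im = 0 ∧ 0 ≤ x.re)) :
    x ≠ 0 ∧ 0 < x.arg := by
  have h0 : x ≠ 0 := by
    rintro rfl
    simp at h
  refine ⟨h0, lt_of_le_of_ne (SC4_arg_nonneg hx) ?_⟩
  intro h1
  exact h (by
    have := (Complex.arg_eq_zero_iff (z := x)).1 h1.symm
    exact ⟨this.2, this.1⟩)

theorem SC4_arg_lt {x : ℂ} (h : ¬ (x.im = 0 ∧ x.re ≤ 0)) :
    x ≠ 0 ∧ x.arg < π := by
  have h0 : x ≠ 0 := by
    rintro rfl
    simp at h
  refine ⟨h0, lt_of_le_of_ne (Complex.arg_le_pi x) ?_⟩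
  intro h1
  have := (Complex.arg_eq_pi_iff (z := x)).1 h1
  exact h ⟨this.2, this.1.le⟩

theorem SC4_L1_nonneg (ha : 0 < a) (ha1 : a < 1) {x : ℂ} (hx : x ∈ Hb) :
    0 ≤ (x ^ (a : ℂ)).im := by
  by_cases h0 : x = 0
  · subst h0
    rw [Complex.zero_cpow (by exact_mod_cast ha.ne')]
    simp
  · rw [SC4_L1 x h0]
    have h1 := SC4_arg_nonneg hx
    have h2 := Complex.arg_le_pi x
    apply mul_nonneg (Real.exp_pos _).le
    apply Real.sin_nonneg_of_nonneg_of_le_pi (by positivity)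
    nlinarith [Real.pi_pos]

theorem SC4_L1_pos (ha : 0 < a) (ha1 : a < 1) {x : ℂ} (hx : x ∈ Hb)
    (h : ¬ (x.im = 0 ∧ 0 ≤ x.re)) : 0 < (x ^ (a : ℂ)).im := by
  obtain ⟨h0, h1⟩ := SC4_arg_pos hx h
  rw [SC4_L1 x h0]
  have h2 := Complex.arg_le_pi x
  apply mul_pos (Real.exp_pos _)
  apply Real.sin_pos_of_pos_of_lt_pi (by positivity)
  nlinarith [Real.pi_pos]

theorem SC4_L2_nonneg (ha : 0 < a) (ha1 : a < 1) {x : ℂ} (hx : x ∈ Hb) :
    0 ≤ (Complex.exp ((π * a : ℝ) * Complex.I) * conj (x ^ (a : ℂ))).im := by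
  by_cases h0 : x = 0
  · subst h0
    rw [Complex.zero_cpow (by exact_mod_cast ha.ne')]
    simp
  · rw [SC4_L2 x h0]
    have h1 := SC4_arg_nonneg hx
    have h2 := Complex.arg_le_pi x
    apply mul_nonneg (Real.exp_pos _).le
    apply Real.sin_nonneg_of_nonneg_of_le_pi
    · nlinarith
    · nlinarith [Real.pi_pos, mul_nonneg ha.le h1]

theorem SC4_L2_pos (ha : 0 < a) (ha1 : a < 1) {x : ℂ} (hx : x ∈ Hb)
    (h : ¬ (x.im = 0 ∧ x.re ≤ 0)) :
    0 < (Complex.exp ((π * a : ℝ) * Complex.I) * conj (x ^ (a : ℂ))).im := by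
  obtain ⟨h0, h3⟩ := SC4_arg_lt h
  rw [SC4_L2 x h0]
  have h1 := SC4_arg_nonneg hx
  apply mul_pos (Real.exp_pos _)
  apply Real.sin_pos_of_pos_of_lt_pi
  · nlinarith
  · nlinarith [Real.pi_pos, mul_nonneg ha.le h1]

theorem SC4_sec (ha : 0 < a) {u : ℂ} (h1 : 0 ≤ u.im)
    (h2 : 0 ≤ (Complex.exp ((π * a : ℝ) * Complex.I) * conj u).im) (hu : u ≠ 0) :
    0 ≤ u.arg ∧ u.arg ≤ π * a := by
  have h3 := SC4_L2 u hu 1 (π * a)
  rw [Complex.ofReal_one, Complex.cpow_one] at h3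
  rw [h3] at h2
  have h4 : 0 ≤ u.arg := Complex.arg_nonneg_iff.2 h1
  refine ⟨h4, ?_⟩
  by_contra h5
  push Not at h5
  have h6 : Real.sin (π * a - 1 * u.arg) < 0 := by
    apply Real.sin_neg_of_neg_of_neg_pi_lt
    · linarith
    · nlinarith [Complex.arg_le_pi u, Real.pi_pos]
  nlinarith [Real.exp_pos (1 * Real.log ‖u‖)]

theorem SC4_seco (ha : 0 < a) (ha1 : a < 1) {u : ℂ} (h1 : 0 < u.im)
    (h2 : 0 < (Complex.exp ((π * a : ℝ) * Complex.I) * conj u).im) :
    u ≠ 0 ∧ 0 < u.arg ∧ u.arg < π * a := by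
  have hu : u ≠ 0 := by
    rintro rfl
    simp at h1
  obtain ⟨h3, h4⟩ := SC4_sec ha h1.le h2.le hu
  refine ⟨hu, lt_of_le_of_ne h3 ?_, lt_of_le_of_ne h4 ?_⟩
  · intro h
    have := (Complex.arg_eq_zero_iff (z := u)).1 h.symm
    linarith [this.2]
  · intro h
    have h3 := SC4_L2 u hu 1 (π * a)
    rw [Complex.ofReal_one, Complex.cpow_one] at h3
    rw [h3, h] at h2
    simp at h2

theorem SC4_root_mem (ha : 0 < a) (ha1 : a < 1) {u : ℂ} (h1 : 0 ≤ u.im)
    (h2 : 0 ≤ (Complex.exp ((π * a : ℝ) * Complex.I) * conj u).im) :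
    u ^ ((1 / a : ℝ) : ℂ) ∈ Hb := by
  show 0 ≤ (u ^ ((1 / a : ℝ) : ℂ)).im
  by_cases hu : u = 0
  · subst hu
    rw [Complex.zero_cpow (by
      have : (1 / a : ℝ) ≠ 0 := by positivity
      exact_mod_cast this)]
    simp
  · obtain ⟨h3, h4⟩ := SC4_sec ha h1 h2 hu
    rw [SC4_L1 u hu]
    apply mul_nonneg (Real.exp_pos _).le
    apply Real.sin_nonneg_of_nonneg_of_le_pi (by positivity)
    rw [one_div, inv_mul_le_iff₀ ha]
    linarith

theorem SC4_root_pos (ha : 0 < a) (ha1 : a < 1) {u : ℂ} (h1 : 0 < u.im)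
    (h2 : 0 < (Complex.exp ((π * a : ℝ) * Complex.I) * conj u).im) :
    0 < (u ^ ((1 / a : ℝ) : ℂ)).im := by
  obtain ⟨hu, h3, h4⟩ := SC4_seco ha ha1 h1 h2
  rw [SC4_L1 u hu]
  apply mul_pos (Real.exp_pos _)
  apply Real.sin_pos_of_pos_of_lt_pi (by positivity)
  rw [one_div, inv_mul_lt_iff₀ ha]
  linarith

theorem SC4_root_pow (ha : 0 < a) (ha1 : a < 1) {x : ℂ} (hx : x ∈ Hb) :
    (x ^ (a : ℂ)) ^ ((1 / a : ℝ) : ℂ) = x := by
  have h1 := SC4_arg_nonneg hx
  have h2 := Complex.arg_le_pi x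
  have h3 : (Complex.log x * (a : ℂ)).im = x.arg * a := by
    rw [mul_comm, Complex.im_ofReal_mul, Complex.log_im, mul_comm]
  rw [← Complex.cpow_mul]
  · have : (a : ℂ) * ((1 / a : ℝ) : ℂ) = 1 := by
      rw [← Complex.ofReal_mul]
      have : a * (1 / a) = 1 := by field_simp
      rw [this]
      simp
    rw [this, Complex.cpow_one]
  · rw [h3]
    nlinarith [Real.pi_pos, mul_nonneg h1 ha.le]
  · rw [h3]
    nlinarith [Real.pi_pos]

theorem SC4_phase (hb : 0 < b) (hb1 : b < 1) {x : ℂ} (hx : 0 < x.im) :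
    0 < (Complex.exp ((-(π * (1 - b) / 2) : ℝ) * Complex.I) * mm 0 (b - 1) x).re := by
  have h1 : x - 1 ≠ 0 := by
    intro h
    have := congrArg Complex.im h
    simp at this
    linarith
  have him : (x - 1).im = x.im := by simp
  have h2 : 0 < (x - 1).arg := (SC4_arg_pos (x := x - 1) (by show 0 ≤ (x - 1).im; rw [him]; exact hx.le)
    (by rw [him]; intro h; linarith [h.1])).2
  have h3 : (x - 1).arg < π := (SC4_arg_lt (x := x - 1) (by rw [him]; intro h; linarith [h.1])).2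
  have h4 : Complex.exp ((-(π * (1 - b) / 2) : ℝ) * Complex.I) * mm 0 (b - 1) x =
      ((Real.exp ((b - 1) * Real.log ‖x - 1‖) : ℝ) : ℂ) *
        Complex.exp (((1 - b) * (π / 2 - (x - 1).arg) : ℝ) * Complex.I) := by
    have h5 := SC4_cpow_eq (x - 1) h1 (b - 1)
    unfold mm
    rw [h5, Complex.ofReal_zero, Complex.cpow_zero, one_mul]
    have h6 : Complex.exp (((1 - b) * (π / 2 - (x - 1).arg) : ℝ) * Complex.I) =
        Complex.exp ((-(π * (1 - b) / 2) : ℝ) * Complex.I) *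
          (Complex.exp (-(↑π * ((b - 1 : ℝ) : ℂ)) * Complex.I) *
            Complex.exp (((b - 1) * (x - 1).arg : ℝ) * Complex.I)) := by
      rw [← Complex.exp_add, ← Complex.exp_add]
      congr 1
      push_cast
      ring
    rw [h6]
    ring
  rw [h4, Complex.re_ofReal_mul, Complex.exp_ofReal_mul_I_re]
  apply mul_pos (Real.exp_pos _)
  apply Real.cos_pos_of_mem_Ioo
  constructor
  · nlinarith [Real.pi_pos]
  · nlinarith [Real.pi_pos]

theorem SC4_deriv (ha : 0 < a) (ha1 : a < 1) (hb : 0 < b) {u : ℂ} (h1 : 0 < u.im)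
    (h2 : 0 < (Complex.exp ((π * a : ℝ) * Complex.I) * conj u).im) :
    HasDerivAt (fun u : ℂ => SC a b (u ^ ((1 / a : ℝ) : ℂ)))
      ((1 / a : ℝ) * (mm 0 (b - 1) (u ^ ((1 / a : ℝ) : ℂ)) / bet a b)) u := by
  obtain ⟨hu, h3, h4⟩ := SC4_seco ha ha1 h1 h2
  have h5 := SC4_root_pos ha ha1 h1 h2
  set x := u ^ ((1 / a : ℝ) : ℂ) with hx
  have hx0 : x ≠ 0 := by
    intro h
    rw [h] at h5
    simp at h5
  have hslit : u ∈ Complex.slitPlane := Or.inr h1.ne'
  have hd1 : HasDerivAt (fun u : ℂ => u ^ ((1 / a : ℝ) : ℂ))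
      (((1 / a : ℝ) : ℂ) * u ^ (((1 / a : ℝ) : ℂ) - 1) * 1) u :=
    (hasDerivAt_id u).cpow_const hslit
  have hd2 := hasDerivAt_SC ha hb h5
  have hd3 := HasDerivAt.comp u hd2 hd1
  have hlog : Complex.log x = ((1 / a : ℝ) : ℂ) * Complex.log u := by
    rw [hx, Complex.cpow_def_of_ne_zero hu, Complex.log_exp]
    · ring
    · rw [mul_comm, Complex.im_ofReal_mul, Complex.log_im]
      have : 0 < 1 / a * u.arg := by positivity
      linarith [Real.pi_pos]
    · rw [mul_comm, Complex.im_ofReal_mul, Complex.log_im, one_div, inv_mul_le_iff₀ ha]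
      linarith
  have hkey : x ^ ((a - 1 : ℝ) : ℂ) * u ^ (((1 / a : ℝ) : ℂ) - 1) = 1 := by
    rw [Complex.cpow_def_of_ne_zero hx0, Complex.cpow_def_of_ne_zero hu, hlog, ← Complex.exp_add]
    have : ((1 / a : ℝ) : ℂ) * Complex.log u * ((a - 1 : ℝ) : ℂ) +
        Complex.log u * (((1 / a : ℝ) : ℂ) - 1) = 0 := by
      have ha' : (a : ℂ) ≠ 0 := by exact_mod_cast ha.ne'
      push_cast
      field_simp
      ring
    rw [this, Complex.exp_zero]
  have hm : mm (a - 1) (b - 1) x = x ^ ((a - 1 : ℝ) : ℂ) * mm 0 (b - 1) x := by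
    unfold mm
    rw [Complex.ofReal_zero, Complex.cpow_zero, one_mul]
  have hval : ((1 / a : ℝ) : ℂ) * (mm 0 (b - 1) x / bet a b) =
      mm (a - 1) (b - 1) x / bet a b *
        (((1 / a : ℝ) : ℂ) * u ^ (((1 / a : ℝ) : ℂ) - 1) * 1) := by
    rw [hm]
    calc ((1 / a : ℝ) : ℂ) * (mm 0 (b - 1) x / bet a b)
        = ((1 / a : ℝ) : ℂ) * (mm 0 (b - 1) x / bet a b) *
          (x ^ ((a - 1 : ℝ) : ℂ) * u ^ (((1 / a : ℝ) : ℂ) - 1)) := by rw [hkey, mul_one]
      _ = _ := by ring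
  rw [hval]
  exact hd3

theorem SC4_int (ha : 0 < a) (hb : 0 < b) (c : ℂ) {s t : ℝ} (hst : s < t)
    (h : ∀ x ∈ Set.Ioo s t, 0 < (c * mm (a - 1) (b - 1) ((x : ℝ) : ℂ)).re) :
    (c * SC a b s).re < (c * SC a b t).re := by
  obtain ⟨β, hβ, hbet⟩ := bet_pos ha hb
  obtain ⟨-, -, -, hJ⟩ := JJ_spec (a - 1) (b - 1) (by linarith) (by linarith)
  have h1 := hJ s t
  have hint := intervalIntegrable_mm (a - 1) (b - 1) (by linarith) (by linarith) s t
  have hint2 : IntervalIntegrable (fun x : ℝ => c * mm (a - 1) (b - 1) ((x : ℝ) : ℂ)) volume s t :=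
    hint.const_mul c
  have hint3 : IntervalIntegrable (fun x : ℝ => (c * mm (a - 1) (b - 1) ((x : ℝ) : ℂ)).re)
      volume s t := by
    rw [intervalIntegrable_iff] at hint2 ⊢
    exact hint2.re
  have h2 : 0 < ∫ x in s..t, (c * mm (a - 1) (b - 1) ((x : ℝ) : ℂ)).re :=
    intervalIntegral.intervalIntegral_pos_of_pos_on hint3 h hst
  have h3 : (∫ x in s..t, (c * mm (a - 1) (b - 1) ((x : ℝ) : ℂ)).re) =
      (c * (JJ (a - 1) (b - 1) t - JJ (a - 1) (b - 1) s)).re := by
    rw [h1, ← intervalIntegral.integral_const_mul]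
    have := Complex.reCLM.intervalIntegral_comp_comm hint2
    simpa using this
  rw [h3] at h2
  have h4 : (c * SC a b t).re - (c * SC a b s).re =
      β⁻¹ * (c * (JJ (a - 1) (b - 1) t - JJ (a - 1) (b - 1) s)).re := by
    unfold SC
    rw [hbet, ← Complex.sub_re, ← Complex.re_ofReal_mul]
    congr 1
    push_cast
    ring
  have h5 : 0 < β⁻¹ * (c * (JJ (a - 1) (b - 1) t - JJ (a - 1) (b - 1) s)).re := by positivity
  linarith

theorem SC4_mono_nonneg (ha : 0 < a) (hb : 0 < b) (hb1 : b < 1) {s t : ℝ} (hs : 0 ≤ s)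
    (hst : s < t) : SC a b s ≠ SC a b t := by
  set c := Complex.exp ((-(π * (1 - b) / 2) : ℝ) * Complex.I) with hc
  have hcos : 0 < Real.cos (π * (1 - b) / 2) := by
    apply Real.cos_pos_of_mem_Ioo
    constructor <;> nlinarith [Real.pi_pos]
  have key1 : ∀ s t : ℝ, 0 ≤ s → t ≤ 1 → s < t → (c * SC a b s).re < (c * SC a b t).re := by
    intro s t hs ht hst
    apply SC4_int ha hb c hst
    intro x hx
    have hx0 : 0 < x := lt_of_le_of_lt hs hx.1
    have hx1 : x < 1 := lt_of_lt_of_le hx.2 ht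
    rw [mm_mid _ _ hx0 hx1, mul_comm, Complex.re_ofReal_mul, hc, Complex.exp_ofReal_mul_I_re,
      Real.cos_neg]
    have : 0 < 1 - x := by linarith
    positivity
  have key2 : ∀ s t : ℝ, 1 ≤ s → s < t → (c * SC a b s).re < (c * SC a b t).re := by
    intro s t hs hst
    apply SC4_int ha hb c hst
    intro x hx
    have hx1 : 1 < x := lt_of_le_of_lt hs hx.1
    have e : c * mm (a - 1) (b - 1) ((x : ℝ) : ℂ) =
        ((x ^ (a - 1) * (x - 1) ^ (b - 1) : ℝ) : ℂ) *
          Complex.exp (((π * (1 - b) / 2 : ℝ) : ℂ) * Complex.I) := by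
      rw [mm_gt _ _ hx1, ← mul_assoc, hc, ← Complex.exp_add, mul_comm]
      congr 2
      push_cast
      ring
    rw [e, Complex.re_ofReal_mul, Complex.exp_ofReal_mul_I_re]
    have : 0 < x - 1 := by linarith
    positivity
  have : (c * SC a b s).re < (c * SC a b t).re := by
    rcases le_or_gt t 1 with h | h
    · exact key1 s t hs h hst
    · rcases le_or_gt 1 s with h' | h'
      · exact key2 s t h' hst
      · have e1 := key1 s 1 hs le_rfl h'
        have e2 := key2 1 t le_rfl h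
        exact lt_trans e1 e2
  intro h
  rw [h] at this
  exact lt_irrefl _ this

theorem SC4_mono_nonpos (ha : 0 < a) (hb : 0 < b) {s t : ℝ} (ht : t ≤ 0)
    (hst : s < t) : SC a b s ≠ SC a b t := by
  have : (Complex.exp (((-(π * (a - 1))) : ℝ) * Complex.I) * SC a b s).re <
      (Complex.exp (((-(π * (a - 1))) : ℝ) * Complex.I) * SC a b t).re := by
    apply SC4_int ha hb _ hst
    intro x hx
    have hx0 : x < 0 := lt_of_lt_of_le hx.2 ht
    have e : Complex.exp (((-(π * (a - 1))) : ℝ) * Complex.I) * mm (a - 1) (b - 1) ((x : ℝ) : ℂ) =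
        (((-x) ^ (a - 1) * (1 - x) ^ (b - 1) : ℝ) : ℂ) := by
      rw [mm_neg _ _ hx0, ← mul_assoc, ← Complex.exp_add]
      have : ((-(π * (a - 1)) : ℝ) : ℂ) * Complex.I + ↑π * ((a - 1 : ℝ) : ℂ) * Complex.I = 0 := by
        push_cast
        ring
      rw [this, Complex.exp_zero, one_mul]
    rw [e, Complex.ofReal_re]
    have h1 : 0 < -x := by linarith
    have h2 : 0 < 1 - x := by linarith
    positivity
  intro h
  rw [h] at this
  exact lt_irrefl _ this

theorem injOn_SC (ha : 0 < a) (hb : 0 < b) (hab : a + b < 1) : Set.InjOn (SC a b) Hb := by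
  have ha1 : a < 1 := by linarith
  have hb1 : b < 1 := by linarith
  intro x₁ hx₁ x₂ hx₂ heq
  by_contra hne
  by_cases hA : (x₁.im = 0 ∧ 0 ≤ x₁.re) ∧ (x₂.im = 0 ∧ 0 ≤ x₂.re)
  · have e1 : x₁ = ((x₁.re : ℝ) : ℂ) := Complex.ext (by simp) (by simp [hA.1.1])
    have e2 : x₂ = ((x₂.re : ℝ) : ℂ) := Complex.ext (by simp) (by simp [hA.2.1])
    rw [e1, e2] at heq
    rcases lt_trichotomy x₁.re x₂.re with h | h | h
    · exact SC4_mono_nonneg ha hb hb1 hA.1.2 h heq
    · exact hne (by rw [e1, e2, h])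
    · exact SC4_mono_nonneg ha hb hb1 hA.2.2 h heq.symm
  by_cases hB : (x₁.im = 0 ∧ x₁.re ≤ 0) ∧ (x₂.im = 0 ∧ x₂.re ≤ 0)
  · have e1 : x₁ = ((x₁.re : ℝ) : ℂ) := Complex.ext (by simp) (by simp [hB.1.1])
    have e2 : x₂ = ((x₂.re : ℝ) : ℂ) := Complex.ext (by simp) (by simp [hB.2.1])
    rw [e1, e2] at heq
    rcases lt_trichotomy x₁.re x₂.re with h | h | h
    · exact SC4_mono_nonpos ha hb hB.2.2 h heq
    · exact hne (by rw [e1, e2, h])
    · exact SC4_mono_nonpos ha hb hB.1.2 h heq.symm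
  obtain ⟨β, hβ, hbet⟩ := bet_pos ha hb
  set u₁ := x₁ ^ (a : ℂ) with hu₁
  set u₂ := x₂ ^ (a : ℂ) with hu₂
  have hr1 : u₁ ^ ((1 / a : ℝ) : ℂ) = x₁ := SC4_root_pow ha ha1 hx₁
  have hr2 : u₂ ^ ((1 / a : ℝ) : ℂ) = x₂ := SC4_root_pow ha ha1 hx₂
  have hune : u₂ - u₁ ≠ 0 := by
    intro h
    apply hne
    rw [← hr1, ← hr2, sub_eq_zero.1 h]
  set γ : ℝ → ℂ := fun t => u₁ + t * (u₂ - u₁) with hγ
  have hγ1 : ∀ t, (γ t).im = (1 - t) * u₁.im + t * u₂.im := by
    intro t
    simp only [hγ, Complex.add_im, Complex.im_ofReal_mul, Complex.sub_im]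
    ring
  have hγ2 : ∀ t, (Complex.exp ((π * a : ℝ) * Complex.I) * conj (γ t)).im =
      (1 - t) * (Complex.exp ((π * a : ℝ) * Complex.I) * conj u₁).im +
        t * (Complex.exp ((π * a : ℝ) * Complex.I) * conj u₂).im := by
    intro t
    rw [← Complex.im_ofReal_mul, ← Complex.im_ofReal_mul, ← Complex.add_im]
    congr 1
    simp only [hγ, map_add, map_mul, map_sub, Complex.conj_ofReal]
    push_cast
    ring
  have hp1 := SC4_L1_nonneg ha ha1 hx₁
  have hp2 := SC4_L1_nonneg ha ha1 hx₂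
  have hq1 := SC4_L2_nonneg ha ha1 hx₁
  have hq2 := SC4_L2_nonneg ha ha1 hx₂
  rw [← hu₁] at hp1 hq1
  rw [← hu₂] at hp2 hq2
  have hc1 : ∀ t ∈ Set.Icc (0 : ℝ) 1, 0 ≤ (γ t).im := by
    intro t ht
    rw [hγ1]
    have := ht.1
    have := ht.2
    have h3 : 0 ≤ 1 - t := by linarith
    positivity
  have hc2 : ∀ t ∈ Set.Icc (0 : ℝ) 1,
      0 ≤ (Complex.exp ((π * a : ℝ) * Complex.I) * conj (γ t)).im := by
    intro t ht
    rw [hγ2]
    have := ht.1
    have := ht.2
    have h3 : 0 ≤ 1 - t := by linarith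
    positivity
  have ho1 : ∀ t ∈ Set.Ioo (0 : ℝ) 1, 0 < (γ t).im := by
    intro t ht
    rw [hγ1]
    have h1 := ht.1
    have h2 := ht.2
    have h3 : 0 < 1 - t := by linarith
    rcases not_and_or.1 hA with h | h
    · have := SC4_L1_pos ha ha1 hx₁ h
      rw [← hu₁] at this
      positivity
    · have := SC4_L1_pos ha ha1 hx₂ h
      rw [← hu₂] at this
      positivity
  have ho2 : ∀ t ∈ Set.Ioo (0 : ℝ) 1,
      0 < (Complex.exp ((π * a : ℝ) * Complex.I) * conj (γ t)).im := by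
    intro t ht
    rw [hγ2]
    have h1 := ht.1
    have h2 := ht.2
    have h3 : 0 < 1 - t := by linarith
    rcases not_and_or.1 hB with h | h
    · have := SC4_L2_pos ha ha1 hx₁ h
      rw [← hu₁] at this
      have e1 := mul_pos h3 this
      have e2 := mul_nonneg h1.le hq2
      linarith
    · have := SC4_L2_pos ha ha1 hx₂ h
      rw [← hu₂] at this
      have e1 := mul_nonneg h3.le hq1
      have e2 := mul_pos h1 this
      linarith
  set c : ℂ := Complex.exp ((-(π * (1 - b) / 2) : ℝ) * Complex.I) with hc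
  set f : ℝ → ℝ := fun t => (c * SC a b (γ t ^ ((1 / a : ℝ) : ℂ)) / (u₂ - u₁)).re with hf
  have hcont : ContinuousOn f (Set.Icc 0 1) := by
    have h1 : ContinuousOn (fun t => γ t ^ ((1 / a : ℝ) : ℂ)) (Set.Icc (0 : ℝ) 1) := by
      intro t ht
      apply ContinuousAt.continuousWithinAt
      have hγc : ContinuousAt γ t := by
        simp only [hγ]
        fun_prop
      have : ContinuousAt (fun u : ℂ => u ^ ((1 / a : ℝ) : ℂ)) (γ t) := by
        by_cases h0 : γ t = 0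
        · rw [h0]
          apply Complex.continuousAt_cpow_const_of_re_pos
          · left
            simp
          · simp [ha]
        · apply continuousAt_cpow_const
          obtain ⟨-, h4⟩ := SC4_sec ha (hc1 t ht) (hc2 t ht) h0
          rw [Complex.mem_slitPlane_iff_arg]
          refine ⟨?_, h0⟩
          intro h
          rw [h] at h4
          nlinarith [Real.pi_pos]
      exact ContinuousAt.comp this hγc
    have h2 : ContinuousOn (fun t => SC a b (γ t ^ ((1 / a : ℝ) : ℂ))) (Set.Icc (0 : ℝ) 1) := by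
      apply (continuousOn_SC ha hb).comp h1
      intro t ht
      exact SC4_root_mem ha ha1 (hc1 t ht) (hc2 t ht)
    exact Complex.continuous_re.comp_continuousOn ((continuousOn_const.mul h2).div_const _)
  have hder : ∀ t ∈ Set.Ioo (0 : ℝ) 1, HasDerivAt f
      ((1 / a) * β⁻¹ * (c * mm 0 (b - 1) (γ t ^ ((1 / a : ℝ) : ℂ))).re) t := by
    intro t ht
    have h1 := SC4_deriv ha ha1 hb (ho1 t ht) (ho2 t ht)
    have h2 : HasDerivAt γ (u₂ - u₁) t := by
      have h := ((Complex.ofRealCLM.hasDerivAt (x := t)).mul_const (u₂ - u₁)).const_add u₁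
      simpa [hγ] using h
    have h3 := HasDerivAt.comp t h1 h2
    have h4 := (h3.const_mul c).div_const (u₂ - u₁)
    have h5 : HasDerivAt f _ t := (Complex.reCLM.hasFDerivAt.comp_hasDerivAt t h4)
    convert h5 using 1
    rw [Complex.reCLM_apply, hbet, ← Complex.re_ofReal_mul]
    congr 1
    have hβ' : (β : ℂ) ≠ 0 := by exact_mod_cast hβ.ne'
    have ha' : (a : ℂ) ≠ 0 := by exact_mod_cast ha.ne'
    push_cast
    field_simp
  have hmono : StrictMonoOn f (Set.Icc 0 1) := by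
    apply strictMonoOn_of_deriv_pos (convex_Icc 0 1) hcont
    intro t ht
    rw [interior_Icc] at ht
    rw [(hder t ht).deriv]
    have := SC4_phase hb hb1 (SC4_root_pos ha ha1 (ho1 t ht) (ho2 t ht))
    rw [← hc] at this
    positivity
  have h01 := hmono (Set.left_mem_Icc.2 zero_le_one) (Set.right_mem_Icc.2 zero_le_one) zero_lt_one
  have e0 : γ 0 = u₁ := by simp [hγ]
  have e1 : γ 1 = u₂ := by simp [hγ]
  simp only [hf, e0, e1, hr1, hr2, heq] at h01
  exact lt_irrefl _ h01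

theorem SC_ne_tau (ha : 0 < a) (hb : 0 < b) (hab : a + b < 1) {x : ℂ} (hx : x ∈ Hb) :
    SC a b x ≠ tau a b := by
  have hτ := tau_im_pos ha hb hab
  intro h
  rcases (show (0 : ℝ) ≤ x.im from hx).eq_or_lt with h0 | h0
  · have e : x = ((x.re : ℝ) : ℂ) := Complex.ext (by simp) (by simp [← h0])
    rw [e] at h
    rcases lt_trichotomy x.re 0 with h1 | h1 | h1
    · obtain ⟨s, hs0, hs1, hs⟩ := SC_neg ha hb hab h1
      rw [hs] at h
      have := congrArg Complex.im h
      rw [Complex.im_ofReal_mul] at this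
      nlinarith
    · rw [h1, Complex.ofReal_zero, SC_zero] at h
      rw [← h] at hτ
      simp at hτ
    · rcases lt_trichotomy x.re 1 with h2 | h2 | h2
      · obtain ⟨s, hs0, hs1, hs⟩ := SC_mid ha hb h1 h2
        rw [hs] at h
        rw [← h] at hτ
        simp at hτ
      · rw [h2, Complex.ofReal_one, SC_one ha hb] at h
        rw [← h] at hτ
        simp at hτ
      · obtain ⟨s, hs0, hs1, hs⟩ := SC_gt ha hb hab h2
        rw [hs] at h
        have := congrArg Complex.im h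
        rw [Complex.add_im, Complex.im_ofReal_mul, Complex.sub_im, Complex.one_im] at this
        nlinarith
  · -- interior point
    have hopen : IsOpen {z : ℂ | 0 < z.im} := isOpen_lt continuous_const Complex.continuous_im
    have hdiff : DifferentiableOn ℂ (SC a b) {z : ℂ | 0 < z.im} := fun z hz =>
      (hasDerivAt_SC ha hb hz).differentiableAt.differentiableWithinAt
    have han : AnalyticAt ℂ (SC a b) x := hdiff.analyticAt (hopen.mem_nhds h0)
    have hstrict : HasStrictDerivAt (SC a b) (deriv (SC a b) x) x := han.hasStrictDerivAt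
    obtain ⟨β, hβ, hbet⟩ := bet_pos ha hb
    have hd0 : deriv (SC a b) x ≠ 0 := by
      rw [(hasDerivAt_SC ha hb h0).deriv, hbet]
      apply div_ne_zero
      · apply mm_ne_zero
        · rintro rfl
          simp at h0
        · rintro rfl
          simp at h0
      · exact_mod_cast hβ.ne'
    have hmap := hstrict.map_nhds_eq hd0
    have himg : SC a b '' {z : ℂ | 0 < z.im} ∈ 𝓝 (tau a b) := by
      rw [← h, ← hmap]
      exact image_mem_map (hopen.mem_nhds h0)
    have hlim := SC_lim ha hb hab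
    have hreal : Tendsto (fun t : ℝ => (t : ℂ)) atTop (Bornology.cobounded ℂ ⊓ 𝓟 Hb) := by
      rw [tendsto_inf]
      constructor
      · rw [← tendsto_norm_atTop_iff_cobounded]
        have : Tendsto (fun t : ℝ => |t|) atTop atTop := tendsto_abs_atTop_atTop
        refine this.congr ?_
        intro t
        simp
      · rw [tendsto_principal]
        exact Eventually.of_forall (fun t => by show 0 ≤ ((t : ℝ) : ℂ).im; simp)
    have hev := (hlim.comp hreal).eventually himg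
    obtain ⟨t, z, hz, hzt⟩ := hev.exists
    have hz' : z = ((t : ℝ) : ℂ) := by
      apply injOn_SC ha hb hab
      · exact (show 0 < z.im from hz).le
      · show 0 ≤ ((t : ℝ) : ℂ).im
        simp
      · exact hzt
    rw [hz'] at hz
    simp at hz

end Pool.Agent.OBT
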