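import Mathlib
import Pool.Agent.OBT.SC4

/-!
# The Schwarz-Christoffel map is onto the triangle; its inverse
-/

open scoped ComplexConjugate Topology Real
open MeasureTheory Filter

namespace Pool.Agent.OBT

noncomputable section

variable {a b : ℝ}

theorem SC5_isClosed_Hb : IsClosed Hb :=
  isClosed_le continuous_const Complex.continuous_im

theorem SC5_pos {x : ℂ} (h : 0 < x.im) : x ∈ Hb := by
  change 0 ≤ x.im
  exact h.le

theorem SC5_mem_Hb_ofReal (t : ℝ) : (t : ℂ) ∈ Hb := by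
  change 0 ≤ (t : ℂ).im
  rw [Complex.ofReal_im]

theorem SC5_mem_edge2 {y : ℂ} :
    y ∈ edge (tri a b) 2 ↔ ∃ s : ℝ, 0 ≤ s ∧ s ≤ 1 ∧ y = s := by
  have h : edge (tri a b) 2 = segment ℝ (0 : ℂ) 1 := rfl
  rw [h, segment_eq_image]
  constructor
  · rintro ⟨s, hs, rfl⟩
    exact ⟨s, hs.1, hs.2, by simp⟩
  · rintro ⟨s, h0, h1, rfl⟩
    exact ⟨s, ⟨h0, h1⟩, by simp⟩

theorem SC5_mem_edge1 {y : ℂ} :
    y ∈ edge (tri a b) 1 ↔ ∃ s : ℝ, 0 ≤ s ∧ s ≤ 1 ∧ y = s * tau a b := by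
  have h : edge (tri a b) 1 = segment ℝ (tau a b) 0 := rfl
  rw [h, segment_symm, segment_eq_image]
  constructor
  · rintro ⟨s, hs, rfl⟩
    exact ⟨s, hs.1, hs.2, by simp⟩
  · rintro ⟨s, h0, h1, rfl⟩
    exact ⟨s, ⟨h0, h1⟩, by simp⟩

theorem SC5_mem_edge0 {y : ℂ} :
    y ∈ edge (tri a b) 0 ↔ ∃ s : ℝ, 0 ≤ s ∧ s ≤ 1 ∧ y = 1 + s * (tau a b - 1) := by
  have h : edge (tri a b) 0 = segment ℝ (1 : ℂ) (tau a b) := rfl
  rw [h, segment_eq_image]
  constructor
  · rintro ⟨s, hs, rfl⟩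
    refine ⟨s, hs.1, hs.2, ?_⟩
    simp only [Complex.real_smul, Complex.ofReal_sub, Complex.ofReal_one]
    ring
  · rintro ⟨s, h0, h1, rfl⟩
    refine ⟨s, ⟨h0, h1⟩, ?_⟩
    simp only [Complex.real_smul, Complex.ofReal_sub, Complex.ofReal_one]
    ring

/-- the barycentric coordinates -/
def SC5_basis (ha : 0 < a) (hb : 0 < b) (hab : a + b < 1) : AffineBasis (Fin 3) ℝ ℂ :=
  ⟨tri a b, affineIndependent_tri ha hb hab, by
    rw [(affineIndependent_tri ha hb hab).affineSpan_eq_top_iff_card_eq_finrank_add_one]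
    simp [Complex.finrank_real_complex]⟩

theorem SC5_basis_apply (ha : 0 < a) (hb : 0 < b) (hab : a + b < 1) (i : Fin 3) :
    SC5_basis ha hb hab i = tri a b i := rfl

theorem SC5_mem_body (ha : 0 < a) (hb : 0 < b) (hab : a + b < 1) {y : ℂ} :
    y ∈ body (tri a b) ↔ ∀ i, 0 ≤ (SC5_basis ha hb hab).coord i y := by
  have h := (SC5_basis ha hb hab).convexHull_eq_nonneg_coord
  have h1 : body (tri a b) = (convexHull ℝ) (Set.range (SC5_basis ha hb hab)) := rfl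
  rw [h1, h]
  rfl

theorem SC5_mem_interior (ha : 0 < a) (hb : 0 < b) (hab : a + b < 1) {y : ℂ} :
    y ∈ interior (body (tri a b)) ↔ ∀ i, 0 < (SC5_basis ha hb hab).coord i y := by
  have h := (SC5_basis ha hb hab).interior_convexHull
  have h1 : body (tri a b) = (convexHull ℝ) (Set.range (SC5_basis ha hb hab)) := rfl
  rw [h1, h]
  rfl

theorem SC5_coord_edge (ha : 0 < a) (hb : 0 < b) (hab : a + b < 1) {y : ℂ} {k : Fin 3}
    (hy : y ∈ edge (tri a b) k) : (SC5_basis ha hb hab).coord k y = 0 := by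
  unfold edge at hy
  rw [segment_eq_image_lineMap] at hy
  obtain ⟨t, -, rfl⟩ := hy
  rw [AffineMap.apply_lineMap, ← SC5_basis_apply ha hb hab, ← SC5_basis_apply ha hb hab,
    AffineBasis.coord_apply, AffineBasis.coord_apply]
  have h1 : k ≠ k + 1 := by fin_cases k <;> decide
  have h2 : k ≠ k + 2 := by fin_cases k <;> decide
  rw [if_neg h1, if_neg h2]
  simp

theorem SC5_edge_of_coord (ha : 0 < a) (hb : 0 < b) (hab : a + b < 1) {y : ℂ}
    (hy : y ∈ body (tri a b)) {k : Fin 3} (hk : (SC5_basis ha hb hab).coord k y = 0) :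
    y ∈ edge (tri a b) k := by
  have h0 := (SC5_mem_body ha hb hab).1 hy
  have h1 := (SC5_basis ha hb hab).linear_combination_coord_eq_self y
  have h2 := (SC5_basis ha hb hab).sum_coord_apply_eq_one y
  rw [Fin.sum_univ_three] at h1 h2
  refine ⟨(SC5_basis ha hb hab).coord (k + 1) y, (SC5_basis ha hb hab).coord (k + 2) y,
    h0 _, h0 _, ?_, ?_⟩
  · fin_cases k
    · change (SC5_basis ha hb hab).coord 1 y + (SC5_basis ha hb hab).coord 2 y = 1
      change (SC5_basis ha hb hab).coord 0 y = 0 at hk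
      linarith
    · change (SC5_basis ha hb hab).coord 2 y + (SC5_basis ha hb hab).coord 0 y = 1
      change (SC5_basis ha hb hab).coord 1 y = 0 at hk
      linarith
    · change (SC5_basis ha hb hab).coord 0 y + (SC5_basis ha hb hab).coord 1 y = 1
      change (SC5_basis ha hb hab).coord 2 y = 0 at hk
      linarith
  · conv_rhs => rw [← h1]
    fin_cases k
    · change (SC5_basis ha hb hab).coord 1 y • tri a b 1 +
        (SC5_basis ha hb hab).coord 2 y • tri a b 2 = _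
      change (SC5_basis ha hb hab).coord 0 y = 0 at hk
      rw [hk, zero_smul, zero_add]
      rfl
    · change (SC5_basis ha hb hab).coord 2 y • tri a b 2 +
        (SC5_basis ha hb hab).coord 0 y • tri a b 0 = _
      change (SC5_basis ha hb hab).coord 1 y = 0 at hk
      rw [hk, zero_smul, add_zero, add_comm]
      rfl
    · change (SC5_basis ha hb hab).coord 0 y • tri a b 0 +
        (SC5_basis ha hb hab).coord 1 y • tri a b 1 = _
      change (SC5_basis ha hb hab).coord 2 y = 0 at hk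
      rw [hk, zero_smul, add_zero]
      rfl

/-- the real line is mapped into the sides -/
theorem SC5_real (ha : 0 < a) (hb : 0 < b) (hab : a + b < 1) (t : ℝ) :
    ∃ k, SC a b t ∈ edge (tri a b) k := by
  rcases lt_trichotomy t 0 with h | h | h
  · obtain ⟨s, h0, h1, h2⟩ := SC_neg ha hb hab h
    exact ⟨1, SC5_mem_edge1.2 ⟨s, h0.le, h1.le, h2⟩⟩
  · refine ⟨2, SC5_mem_edge2.2 ⟨0, le_rfl, zero_le_one, ?_⟩⟩
    rw [h, Complex.ofReal_zero]
    exact SC_zero
  · rcases lt_trichotomy t 1 with h' | h' | h'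
    · obtain ⟨s, h0, h1, h2⟩ := SC_mid ha hb h h'
      exact ⟨2, SC5_mem_edge2.2 ⟨s, h0.le, h1.le, h2⟩⟩
    · refine ⟨2, SC5_mem_edge2.2 ⟨1, zero_le_one, le_rfl, ?_⟩⟩
      rw [h', Complex.ofReal_one]
      exact SC_one ha hb
    · obtain ⟨s, h0, h1, h2⟩ := SC_gt ha hb hab h'
      exact ⟨0, SC5_mem_edge0.2 ⟨s, h0.le, h1.le, h2⟩⟩

theorem SC5_isOpen_H : IsOpen {x : ℂ | 0 < x.im} :=
  isOpen_lt continuous_const Complex.continuous_im

theorem SC5_ne {x : ℂ} (hx : 0 < x.im) : x ≠ 0 ∧ x ≠ 1 := by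
  constructor
  · rintro rfl
    simp at hx
  · rintro rfl
    simp at hx

theorem SC5_deriv_ne (ha : 0 < a) (hb : 0 < b) {x : ℂ} (hx : 0 < x.im) :
    mm (a - 1) (b - 1) x / bet a b ≠ 0 := by
  obtain ⟨s, hs, h⟩ := bet_pos ha hb
  refine div_ne_zero (mm_ne_zero _ _ (SC5_ne hx).1 (SC5_ne hx).2) ?_
  rw [h]
  exact_mod_cast hs.ne'

theorem SC5_map_nhds (ha : 0 < a) (hb : 0 < b) {x : ℂ} (hx : 0 < x.im) :
    Filter.map (SC a b) (𝓝 x) = 𝓝 (SC a b x) := by
  have hd : DifferentiableOn ℂ (SC a b) {x : ℂ | 0 < x.im} := fun y hy =>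
    (hasDerivAt_SC ha hb hy).differentiableAt.differentiableWithinAt
  have h1 : AnalyticAt ℂ (SC a b) x := hd.analyticAt (SC5_isOpen_H.mem_nhds hx)
  have h2 := h1.hasStrictDerivAt
  rw [(hasDerivAt_SC ha hb hx).deriv] at h2
  exact h2.map_nhds_eq (SC5_deriv_ne ha hb hx)

theorem SC5_isOpen_image (ha : 0 < a) (hb : 0 < b) :
    IsOpen (SC a b '' {x : ℂ | 0 < x.im}) := by
  rw [isOpen_iff_mem_nhds]
  rintro _ ⟨x, hx, rfl⟩
  rw [← SC5_map_nhds ha hb hx]
  exact Filter.image_mem_map (SC5_isOpen_H.mem_nhds hx)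

theorem SC5_isCompact (ha : 0 < a) (hb : 0 < b) (hab : a + b < 1) :
    IsCompact (insert (tau a b) (SC a b '' Hb)) := by
  have h1 : Tendsto (fun x : Hb => SC a b x) (cocompact Hb) (𝓝 (tau a b)) := by
    refine (SC_lim ha hb hab).comp (Filter.tendsto_inf.2 ⟨?_, ?_⟩)
    · rw [Metric.cobounded_eq_cocompact]
      exact SC5_isClosed_Hb.isClosedEmbedding_subtypeVal.tendsto_cocompact
    · exact Filter.tendsto_principal.2 (Filter.Eventually.of_forall (fun x => x.2))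
  have h2 : Continuous (fun x : Hb => SC a b x) :=
    continuousOn_iff_continuous_domRestrict.1 (continuousOn_SC ha hb)
  have h3 := h1.isCompact_insert_range_of_cocompact h2
  have h4 : Set.range (fun x : Hb => SC a b x) = SC a b '' Hb := by
    ext y
    constructor
    · rintro ⟨x, rfl⟩
      exact ⟨x, x.2, rfl⟩
    · rintro ⟨x, hx, rfl⟩
      exact ⟨⟨x, hx⟩, rfl⟩
  rwa [h4] at h3

/-- the image lies in the triangle -/
theorem SC5_subset_body (ha : 0 < a) (hb : 0 < b) (hab : a + b < 1) :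
    insert (tau a b) (SC a b '' Hb) ⊆ body (tri a b) := by
  intro z hz
  rw [SC5_mem_body ha hb hab]
  intro i
  have hc : Continuous ((SC5_basis ha hb hab).coord i) :=
    AffineMap.continuous_of_finiteDimensional _
  obtain ⟨z₀, hz₀, hmin⟩ := (SC5_isCompact ha hb hab).exists_isMinOn ⟨z, hz⟩ hc.continuousOn
  refine le_trans ?_ (hmin hz)
  by_contra hneg
  push Not at hneg
  have hedge : ∀ k, z₀ ∈ edge (tri a b) k → False := by
    intro k hk
    exact absurd ((SC5_mem_body ha hb hab).1 (edge_subset_body k hk) i) (not_le.2 hneg)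
  rcases hz₀ with rfl | ⟨x, hx, rfl⟩
  · exact absurd ((SC5_mem_body ha hb hab).1 (vert_mem_body (v := tri a b) 2) i) (not_le.2 hneg)
  · rcases (show 0 ≤ x.im from hx).lt_or_eq with hx' | hx'
    · -- an interior point
      have h1 : insert (tau a b) (SC a b '' Hb) ∈ 𝓝 (SC a b x) := by
        refine Filter.mem_of_superset ((SC5_isOpen_image ha hb).mem_nhds ⟨x, hx', rfl⟩) ?_
        rintro _ ⟨y, hy, rfl⟩
        exact Set.mem_insert_of_mem _ ⟨y, SC5_pos hy, rfl⟩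
      set L : ℝ → ℂ := fun t => AffineMap.lineMap (SC a b x) ((SC5_basis ha hb hab) i) (-t) with hL
      have hL0 : Tendsto L (𝓝[>] 0) (𝓝 (SC a b x)) := by
        have h2 : Continuous L := by
          rw [hL]
          exact AffineMap.lineMap_continuous.comp continuous_neg
        have h3 : L 0 = SC a b x := by
          rw [hL]
          simp
        have h4 := h2.tendsto 0
        rw [h3] at h4
        exact h4.mono_left nhdsWithin_le_nhds
      obtain ⟨t, ht, ht0⟩ := ((hL0.eventually h1).and self_mem_nhdsWithin).exists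
      have h5 := hmin ht
      have h6 : (SC5_basis ha hb hab).coord i (L t) =
          (SC5_basis ha hb hab).coord i (SC a b x) -
            t * (1 - (SC5_basis ha hb hab).coord i (SC a b x)) := by
        rw [hL]
        change (SC5_basis ha hb hab).coord i (AffineMap.lineMap _ _ (-t)) = _
        rw [AffineMap.apply_lineMap, AffineBasis.coord_apply_eq, AffineMap.lineMap_apply_module']
        simp only [smul_eq_mul]
        ring
      change (SC5_basis ha hb hab).coord i (SC a b x) ≤ (SC5_basis ha hb hab).coord i (L t) at h5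
      rw [h6] at h5
      have h7 : 0 < t := ht0
      have h8 : 0 < t * (1 - (SC5_basis ha hb hab).coord i (SC a b x)) :=
        mul_pos h7 (by linarith)
      linarith
    · have hxr : x = ((x.re : ℝ) : ℂ) := by
        apply Complex.ext
        · simp
        · simp [← hx']
      obtain ⟨k, hk⟩ := SC5_real ha hb hab x.re
      rw [← hxr] at hk
      exact hedge k hk

theorem SC5_image_subset (ha : 0 < a) (hb : 0 < b) (hab : a + b < 1) :
    SC a b '' {x : ℂ | 0 < x.im} ⊆ interior (body (tri a b)) := by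
  refine interior_maximal ?_ (SC5_isOpen_image ha hb)
  rintro _ ⟨x, hx, rfl⟩
  exact SC5_subset_body ha hb hab (Set.mem_insert_of_mem _ ⟨x, SC5_pos hx, rfl⟩)

theorem SC5_inter (ha : 0 < a) (hb : 0 < b) (hab : a + b < 1) {z : ℂ}
    (hz : z ∈ insert (tau a b) (SC a b '' Hb)) (hi : z ∈ interior (body (tri a b))) :
    z ∈ SC a b '' {x : ℂ | 0 < x.im} := by
  have hi' := (SC5_mem_interior ha hb hab).1 hi
  have hedge : ∀ k, z ∉ edge (tri a b) k := by
    intro k hk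
    exact absurd (SC5_coord_edge ha hb hab hk) (hi' k).ne'
  rcases hz with rfl | ⟨x, hx, rfl⟩
  · exact absurd (SC5_mem_edge1.2 ⟨1, zero_le_one, le_rfl, by simp⟩) (hedge 1)
  · rcases (show 0 ≤ x.im from hx).lt_or_eq with hx' | hx'
    · exact ⟨x, hx', rfl⟩
    · have hxr : x = ((x.re : ℝ) : ℂ) := by
        apply Complex.ext
        · simp
        · simp [← hx']
      obtain ⟨k, hk⟩ := SC5_real ha hb hab x.re
      rw [← hxr] at hk
      exact absurd hk (hedge k)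

theorem bijOn_SC_interior (ha : 0 < a) (hb : 0 < b) (hab : a + b < 1) :
    Set.BijOn (SC a b) {x : ℂ | 0 < x.im} (interior (body (tri a b))) := by
  refine ⟨fun x hx => SC5_image_subset ha hb hab ⟨x, hx, rfl⟩,
    (injOn_SC ha hb hab).mono (fun x hx => SC5_pos hx), ?_⟩
  have hpre : IsPreconnected (interior (body (tri a b))) :=
    (convex_body.interior).isPreconnected
  have hI : (Complex.I : ℂ) ∈ {x : ℂ | 0 < x.im} := by
    change 0 < Complex.I.im
    rw [Complex.I_im]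
    exact one_pos
  refine hpre.subset_of_closure_inter_subset (SC5_isOpen_image ha hb)
    ⟨SC a b Complex.I, SC5_image_subset ha hb hab ⟨_, hI, rfl⟩, ⟨_, hI, rfl⟩⟩ ?_
  rintro z ⟨hz, hzi⟩
  refine SC5_inter ha hb hab ?_ hzi
  have h1 : closure (SC a b '' {x : ℂ | 0 < x.im}) ⊆ insert (tau a b) (SC a b '' Hb) := by
    refine closure_minimal ?_ (SC5_isCompact ha hb hab).isClosed
    rintro _ ⟨x, hx, rfl⟩
    exact Set.mem_insert_of_mem _ ⟨x, SC5_pos hx, rfl⟩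
  exact h1 hz

theorem SC5_edge2_pre (ha : 0 < a) (hb : 0 < b) (hab : a + b < 1) {y : ℂ}
    (hy : y ∈ edge (tri a b) 2 \ Set.range (tri a b)) :
    ∃ t : ℝ, 0 < t ∧ t < 1 ∧ SC a b t = y := by
  obtain ⟨s, h0, h1, h2⟩ := SC5_mem_edge2.1 hy.1
  have hs0 : s ≠ 0 := by
    rintro rfl
    exact hy.2 ⟨0, by rw [h2, Complex.ofReal_zero]; rfl⟩
  have hs1 : s ≠ 1 := by
    rintro rfl
    exact hy.2 ⟨1, by rw [h2, Complex.ofReal_one]; rfl⟩
  obtain ⟨t, ht0, ht1, ht⟩ := (SC_surj_sides ha hb hab).1 s (lt_of_le_of_ne h0 hs0.symm)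
    (lt_of_le_of_ne h1 hs1)
  exact ⟨t, ht0, ht1, by rw [ht, h2]⟩

theorem SC5_edge1_pre (ha : 0 < a) (hb : 0 < b) (hab : a + b < 1) {y : ℂ}
    (hy : y ∈ edge (tri a b) 1 \ Set.range (tri a b)) :
    ∃ t : ℝ, t < 0 ∧ SC a b t = y := by
  obtain ⟨s, h0, h1, h2⟩ := SC5_mem_edge1.1 hy.1
  have hs0 : s ≠ 0 := by
    rintro rfl
    exact hy.2 ⟨0, by rw [h2, Complex.ofReal_zero, zero_mul]; rfl⟩
  have hs1 : s ≠ 1 := by
    rintro rfl
    exact hy.2 ⟨2, by rw [h2, Complex.ofReal_one, one_mul]; rfl⟩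
  obtain ⟨t, ht0, ht⟩ := (SC_surj_sides ha hb hab).2.1 s (lt_of_le_of_ne h0 hs0.symm)
    (lt_of_le_of_ne h1 hs1)
  exact ⟨t, ht0, by rw [ht, h2]⟩

theorem SC5_edge0_pre (ha : 0 < a) (hb : 0 < b) (hab : a + b < 1) {y : ℂ}
    (hy : y ∈ edge (tri a b) 0 \ Set.range (tri a b)) :
    ∃ t : ℝ, 1 < t ∧ SC a b t = y := by
  obtain ⟨s, h0, h1, h2⟩ := SC5_mem_edge0.1 hy.1
  have hs0 : s ≠ 0 := by
    rintro rfl
    exact hy.2 ⟨1, by rw [h2, Complex.ofReal_zero, zero_mul, add_zero]; rfl⟩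
  have hs1 : s ≠ 1 := by
    rintro rfl
    exact hy.2 ⟨2, by rw [h2, Complex.ofReal_one, one_mul, add_sub_cancel]; rfl⟩
  obtain ⟨t, ht0, ht⟩ := (SC_surj_sides ha hb hab).2.2 s (lt_of_le_of_ne h0 hs0.symm)
    (lt_of_le_of_ne h1 hs1)
  exact ⟨t, ht0, by rw [ht, h2]⟩

theorem bijOn_SC (ha : 0 < a) (hb : 0 < b) (hab : a + b < 1) :
    Set.BijOn (SC a b) Hb (body (tri a b) \ {tau a b}) := by
  refine ⟨fun x hx => ⟨SC5_subset_body ha hb hab (Set.mem_insert_of_mem _ ⟨x, hx, rfl⟩),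
    SC_ne_tau ha hb hab hx⟩, injOn_SC ha hb hab, ?_⟩
  rintro y ⟨hy, hyt⟩
  by_cases hi : y ∈ interior (body (tri a b))
  · obtain ⟨x, hx, rfl⟩ := (bijOn_SC_interior ha hb hab).surjOn hi
    exact ⟨x, SC5_pos hx, rfl⟩
  by_cases hr : y ∈ Set.range (tri a b)
  · obtain ⟨i, rfl⟩ := hr
    fin_cases i
    · exact ⟨0, by simpa using SC5_mem_Hb_ofReal 0, SC_zero⟩
    · exact ⟨1, by simpa using SC5_mem_Hb_ofReal 1, SC_one ha hb⟩
    · exact absurd rfl hyt
  rw [SC5_mem_interior ha hb hab] at hi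
  push Not at hi
  obtain ⟨k, hk⟩ := hi
  have hk0 : (SC5_basis ha hb hab).coord k y = 0 :=
    le_antisymm hk ((SC5_mem_body ha hb hab).1 hy k)
  have hke := SC5_edge_of_coord ha hb hab hy hk0
  fin_cases k
  · obtain ⟨t, -, ht⟩ := SC5_edge0_pre ha hb hab ⟨hke, hr⟩
    exact ⟨t, SC5_mem_Hb_ofReal t, ht⟩
  · obtain ⟨t, -, ht⟩ := SC5_edge1_pre ha hb hab ⟨hke, hr⟩
    exact ⟨t, SC5_mem_Hb_ofReal t, ht⟩
  · obtain ⟨t, -, -, ht⟩ := SC5_edge2_pre ha hb hab ⟨hke, hr⟩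
    exact ⟨t, SC5_mem_Hb_ofReal t, ht⟩

/-- the inverse of the Schwarz-Christoffel map -/
def XX (a b : ℝ) (y : ℂ) : ℂ := Function.invFunOn (SC a b) Hb y

theorem XX_mem (ha : 0 < a) (hb : 0 < b) (hab : a + b < 1) {y : ℂ}
    (hy : y ∈ body (tri a b) \ {tau a b}) : XX a b y ∈ Hb ∧ SC a b (XX a b y) = y := by
  obtain ⟨x, hx, hxy⟩ := (bijOn_SC ha hb hab).surjOn hy
  exact ⟨Function.invFunOn_mem ⟨x, hx, hxy⟩, Function.invFunOn_eq ⟨x, hx, hxy⟩⟩

theorem XX_SC (ha : 0 < a) (hb : 0 < b) (hab : a + b < 1) {x : ℂ} (hx : x ∈ Hb) :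
    XX a b (SC a b x) = x := by
  have h := XX_mem ha hb hab ((bijOn_SC ha hb hab).mapsTo hx)
  exact injOn_SC ha hb hab h.1 hx h.2

theorem SC5_far (ha : 0 < a) (hb : 0 < b) (hab : a + b < 1) {y : ℂ} (hy : y ≠ tau a b) :
    ∃ R : ℝ, ∀ᶠ z in 𝓝 y, ∀ x ∈ Hb, SC a b x = z → ‖x‖ < R := by
  obtain ⟨U, V, hU, hV, hyU, htV, hUV⟩ := t2_separation hy
  have h1 := (SC_lim ha hb hab).eventually (hV.mem_nhds htV)
  rw [Filter.eventually_inf_principal] at h1
  obtain ⟨R, -, hR⟩ := Filter.hasBasis_cobounded_norm.mem_iff.1 h1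
  refine ⟨R, ?_⟩
  filter_upwards [hU.mem_nhds hyU] with z hz x hx hxz
  by_contra hlt
  push Not at hlt
  have h2 : SC a b x ∈ V := hR hlt hx
  rw [hxz] at h2
  exact Set.disjoint_left.1 hUV hz h2

theorem SC5_near (ha : 0 < a) (hb : 0 < b) {y : ℂ} {R : ℝ} {U : Set ℂ}
    (hU : IsOpen U) (h : ∀ x ∈ Hb, ‖x‖ ≤ R → SC a b x = y → x ∈ U) :
    ∀ᶠ z in 𝓝 y, ∀ x ∈ Hb, ‖x‖ ≤ R → SC a b x = z → x ∈ U := by
  have hK : IsCompact ((Metric.closedBall (0 : ℂ) R ∩ Hb) \ U) :=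
    ((isCompact_closedBall _ _).inter_right SC5_isClosed_Hb).diff hU
  have hK' : IsCompact (SC a b '' ((Metric.closedBall (0 : ℂ) R ∩ Hb) \ U)) :=
    hK.image_of_continuousOn ((continuousOn_SC ha hb).mono (fun x hx => hx.1.2))
  have hy : y ∉ SC a b '' ((Metric.closedBall (0 : ℂ) R ∩ Hb) \ U) := by
    rintro ⟨x, ⟨⟨hx1, hx2⟩, hx3⟩, hxy⟩
    exact hx3 (h x hx2 (by simpa using hx1) hxy)
  filter_upwards [hK'.isClosed.isOpen_compl.mem_nhds hy] with z hz x hx hxR hxz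
  by_contra hxU
  exact hz ⟨x, ⟨⟨by simpa using hxR, hx⟩, hxU⟩, hxz⟩

theorem continuousOn_XX (ha : 0 < a) (hb : 0 < b) (hab : a + b < 1) :
    ContinuousOn (XX a b) (body (tri a b) \ {tau a b}) := by
  intro y hy
  rw [ContinuousWithinAt, tendsto_nhds]
  intro U hU hyU
  obtain ⟨R, hR⟩ := SC5_far ha hb hab (show y ≠ tau a b from hy.2)
  have h1 := SC5_near (R := R) ha hb hU (y := y) (fun x hx _ hxy => by
    rw [← hxy, XX_SC ha hb hab hx] at hyU
    exact hyU)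
  filter_upwards [nhdsWithin_le_nhds hR, nhdsWithin_le_nhds h1, self_mem_nhdsWithin]
    with z hz1 hz2 hz3
  obtain ⟨h2, h3⟩ := XX_mem ha hb hab hz3
  exact hz2 _ h2 (hz1 _ h2 h3).le h3

theorem SC5_interior_sub (ha : 0 < a) (hb : 0 < b) (hab : a + b < 1) {y : ℂ}
    (hy : y ∈ interior (body (tri a b))) : y ∈ body (tri a b) \ {tau a b} := by
  obtain ⟨x, hx, rfl⟩ := (bijOn_SC_interior ha hb hab).surjOn hy
  exact (bijOn_SC ha hb hab).mapsTo (SC5_pos hx)

theorem XX_im_pos (ha : 0 < a) (hb : 0 < b) (hab : a + b < 1) {y : ℂ}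
    (hy : y ∈ interior (body (tri a b))) : 0 < (XX a b y).im := by
  obtain ⟨x, hx, rfl⟩ := (bijOn_SC_interior ha hb hab).surjOn hy
  rw [XX_SC ha hb hab (SC5_pos hx)]
  exact hx

theorem hasDerivAt_XX (ha : 0 < a) (hb : 0 < b) (hab : a + b < 1) {y : ℂ}
    (hy : y ∈ interior (body (tri a b))) :
    HasDerivAt (XX a b) (bet a b * mm (1 - a) (1 - b) (XX a b y)) y := by
  have him := XX_im_pos ha hb hab hy
  have hyb := SC5_interior_sub ha hb hab hy
  have hc : ContinuousAt (XX a b) y := by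
    refine (continuousOn_XX ha hb hab).continuousAt ?_
    exact Filter.mem_of_superset (isOpen_interior.mem_nhds hy)
      (fun z hz => SC5_interior_sub ha hb hab hz)
  have h1 := HasDerivAt.of_local_left_inverse hc (hasDerivAt_SC ha hb him)
    (SC5_deriv_ne ha hb him) (by
      filter_upwards [isOpen_interior.mem_nhds hy] with z hz
      exact (XX_mem ha hb hab (SC5_interior_sub ha hb hab hz)).2)
  have h2 := mm_mul (a - 1) (b - 1) (1 - a) (1 - b) (SC5_ne him).1 (SC5_ne him).2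
  rw [show a - 1 + (1 - a) = 0 by ring, show b - 1 + (1 - b) = 0 by ring, mm_zero_zero] at h2
  have h3 := mm_ne_zero (a - 1) (b - 1) (SC5_ne him).1 (SC5_ne him).2
  have h4 : (mm (a - 1) (b - 1) (XX a b y) / bet a b)⁻¹ =
      bet a b * mm (1 - a) (1 - b) (XX a b y) := by
    rw [inv_div, div_eq_iff h3, mul_assoc, mul_comm (mm (1 - a) (1 - b) _), h2, mul_one]
  rwa [h4] at h1

theorem XX_edge2 (ha : 0 < a) (hb : 0 < b) (hab : a + b < 1) {y : ℂ}
    (hy : y ∈ edge (tri a b) 2 \ Set.range (tri a b)) :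
    ∃ t : ℝ, 0 < t ∧ t < 1 ∧ XX a b y = t := by
  obtain ⟨t, h0, h1, h2⟩ := SC5_edge2_pre ha hb hab hy
  exact ⟨t, h0, h1, by rw [← h2, XX_SC ha hb hab (SC5_mem_Hb_ofReal t)]⟩

theorem XX_edge1 (ha : 0 < a) (hb : 0 < b) (hab : a + b < 1) {y : ℂ}
    (hy : y ∈ edge (tri a b) 1 \ Set.range (tri a b)) : ∃ t : ℝ, t < 0 ∧ XX a b y = t := by
  obtain ⟨t, h0, h2⟩ := SC5_edge1_pre ha hb hab hy
  exact ⟨t, h0, by rw [← h2, XX_SC ha hb hab (SC5_mem_Hb_ofReal t)]⟩

theorem XX_edge0 (ha : 0 < a) (hb : 0 < b) (hab : a + b < 1) {y : ℂ}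
    (hy : y ∈ edge (tri a b) 0 \ Set.range (tri a b)) : ∃ t : ℝ, 1 < t ∧ XX a b y = t := by
  obtain ⟨t, h0, h2⟩ := SC5_edge0_pre ha hb hab hy
  exact ⟨t, h0, by rw [← h2, XX_SC ha hb hab (SC5_mem_Hb_ofReal t)]⟩

theorem SC5_sub (y : ℂ) (hy : y ∈ body (tri a b) \ Set.range (tri a b)) :
    y ∈ body (tri a b) \ {tau a b} :=
  ⟨hy.1, fun h => hy.2 ⟨2, h.symm⟩⟩

theorem XX_ne (ha : 0 < a) (hb : 0 < b) (hab : a + b < 1) {y : ℂ}
    (hy : y ∈ body (tri a b) \ Set.range (tri a b)) : XX a b y ≠ 0 ∧ XX a b y ≠ 1 := by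
  obtain ⟨-, h2⟩ := XX_mem ha hb hab (SC5_sub y hy)
  constructor
  · intro h
    rw [h, SC_zero] at h2
    exact hy.2 ⟨0, h2⟩
  · intro h
    rw [h, SC_one ha hb] at h2
    exact hy.2 ⟨1, h2⟩

theorem tendsto_XX_zero (ha : 0 < a) (hb : 0 < b) (hab : a + b < 1) :
    Tendsto (XX a b) (𝓝[body (tri a b) \ Set.range (tri a b)] 0) (𝓝[Hb \ {0, 1}] 0) := by
  have h0 : (0 : ℂ) ∈ Hb := by simpa using SC5_mem_Hb_ofReal 0
  have h1 := (bijOn_SC ha hb hab).mapsTo h0
  have h2 := XX_SC ha hb hab h0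
  rw [SC_zero] at h1 h2
  have h3 := continuousOn_XX ha hb hab 0 h1
  rw [ContinuousWithinAt, h2] at h3
  refine tendsto_nhdsWithin_iff.2 ⟨h3.mono_left (nhdsWithin_mono _ SC5_sub), ?_⟩
  filter_upwards [self_mem_nhdsWithin] with y hy
  refine ⟨(XX_mem ha hb hab (SC5_sub y hy)).1, ?_⟩
  rintro (h | h)
  · exact (XX_ne ha hb hab hy).1 h
  · exact (XX_ne ha hb hab hy).2 h

theorem tendsto_XX_one (ha : 0 < a) (hb : 0 < b) (hab : a + b < 1) :
    Tendsto (XX a b) (𝓝[body (tri a b) \ Set.range (tri a b)] 1) (𝓝[Hb \ {0, 1}] 1) := by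
  have h0 : (1 : ℂ) ∈ Hb := by simpa using SC5_mem_Hb_ofReal 1
  have h1 := (bijOn_SC ha hb hab).mapsTo h0
  have h2 := XX_SC ha hb hab h0
  rw [SC_one ha hb] at h1 h2
  have h3 := continuousOn_XX ha hb hab 1 h1
  rw [ContinuousWithinAt, h2] at h3
  refine tendsto_nhdsWithin_iff.2 ⟨h3.mono_left (nhdsWithin_mono _ SC5_sub), ?_⟩
  filter_upwards [self_mem_nhdsWithin] with y hy
  refine ⟨(XX_mem ha hb hab (SC5_sub y hy)).1, ?_⟩
  rintro (h | h)
  · exact (XX_ne ha hb hab hy).1 h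
  · exact (XX_ne ha hb hab hy).2 h

theorem tendsto_XX_tau (ha : 0 < a) (hb : 0 < b) (hab : a + b < 1) :
    Tendsto (XX a b) (𝓝[body (tri a b) \ Set.range (tri a b)] (tau a b))
      (Bornology.cobounded ℂ ⊓ 𝓟 Hb) := by
  refine Filter.tendsto_inf.2 ⟨?_, ?_⟩
  · refine Filter.hasBasis_cobounded_norm.tendsto_right_iff.2 (fun R _ => ?_)
    have h1 := SC5_near (R := R) ha hb isOpen_empty (y := tau a b) (fun x hx _ hxy =>
      absurd hxy (SC_ne_tau ha hb hab hx))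
    filter_upwards [nhdsWithin_le_nhds h1, self_mem_nhdsWithin] with z hz1 hz2
    obtain ⟨h2, h3⟩ := XX_mem ha hb hab (SC5_sub z hz2)
    by_contra hlt
    change ¬ (R ≤ ‖XX a b z‖) at hlt
    exact hz1 _ h2 (le_of_lt (not_le.1 hlt)) h3
  · refine Filter.tendsto_principal.2 ?_
    filter_upwards [self_mem_nhdsWithin] with y hy
    exact (XX_mem ha hb hab (SC5_sub y hy)).1

end

end Pool.Agent.OBT
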