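import Mathlib
import Pool.Agent.OBT.Fam
import Pool.Agent.OBT.SC5

/-!
# The functions `X^A (1-X)^B` on the triangle
-/

open scoped ComplexConjugate Topology Real
open MeasureTheory Filter

namespace Pool.Agent.OBT

noncomputable section

/-- `X^A (1-X)^B` on the triangle with angles `π a`, `π b` -/
def MM (a b A B : ℝ) (y : ℂ) : ℂ := mm A B (XX a b y)

/-- the vertices of the triangle `tri a b` -/
def VV (a b : ℝ) : Set ℂ := Set.range (tri a b)

variable {a b : ℝ}

theorem MM_sub_tau {y : ℂ} (hy : y ∈ body (tri a b) \ VV a b) :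
    y ∈ body (tri a b) \ {tau a b} := by
  refine ⟨hy.1, fun h => hy.2 ?_⟩
  rw [Set.mem_singleton_iff] at h
  exact ⟨2, h.symm⟩

theorem MM_XX_mem (ha : 0 < a) (hb : 0 < b) (hab : a + b < 1) {y : ℂ}
    (hy : y ∈ body (tri a b) \ VV a b) : XX a b y ∈ Hb \ {0, 1} := by
  have h := XX_ne ha hb hab hy
  refine ⟨(XX_mem ha hb hab (MM_sub_tau hy)).1, ?_⟩
  rintro (h0 | h0)
  · exact h.1 h0
  · exact h.2 h0

theorem continuousOn_MM (ha : 0 < a) (hb : 0 < b) (hab : a + b < 1) (A B : ℝ) :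
    ContinuousOn (MM a b A B) (body (tri a b) \ VV a b) :=
  (continuousOn_mm A B).comp ((continuousOn_XX ha hb hab).mono fun _ hy => MM_sub_tau hy)
    fun _ hy => MM_XX_mem ha hb hab hy

theorem MM_ne_zero (ha : 0 < a) (hb : 0 < b) (hab : a + b < 1) (A B : ℝ) {y : ℂ}
    (hy : y ∈ body (tri a b) \ VV a b) : MM a b A B y ≠ 0 :=
  mm_ne_zero A B (XX_ne ha hb hab hy).1 (XX_ne ha hb hab hy).2

theorem MM_mul (ha : 0 < a) (hb : 0 < b) (hab : a + b < 1) (A B A' B' : ℝ) {y : ℂ}
    (hy : y ∈ body (tri a b) \ VV a b) :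
    MM a b A B y * MM a b A' B' y = MM a b (A + A') (B + B') y :=
  mm_mul A B A' B' (XX_ne ha hb hab hy).1 (XX_ne ha hb hab hy).2

theorem MM_zero_zero (y : ℂ) : MM a b 0 0 y = 1 := mm_zero_zero _

theorem MM_interior_nonempty (ha : 0 < a) (hb : 0 < b) (hab : a + b < 1) :
    (interior (body (tri a b))).Nonempty := by
  have h := (bijOn_SC_interior ha hb hab).mapsTo (x := Complex.I) (by
    change 0 < Complex.I.im
    rw [Complex.I_im]
    exact one_pos)
  exact ⟨_, h⟩

theorem MM_interior_sub (ha : 0 < a) (hb : 0 < b) (hab : a + b < 1) {y : ℂ}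
    (hy : y ∈ interior (body (tri a b))) : y ∈ body (tri a b) \ VV a b := by
  refine ⟨interior_subset hy, ?_⟩
  have h1 := XX_im_pos ha hb hab hy
  obtain ⟨x, hx, hxy⟩ := (bijOn_SC_interior ha hb hab).surjOn hy
  have hx' : 0 < x.im := hx
  rintro ⟨k, hk⟩
  have hinj := injOn_SC ha hb hab
  have hxH : x ∈ Hb := hx'.le
  fin_cases k
  · have h2 : SC a b 0 = SC a b x := by
      rw [hxy, SC_zero]
      exact hk
    have h0 : (0 : ℂ) ∈ Hb := by
      change 0 ≤ (0 : ℂ).im
      rw [Complex.zero_im]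
    have h3 := hinj h0 hxH h2
    rw [← h3] at hx'
    exact lt_irrefl _ hx'
  · have h2 : SC a b 1 = SC a b x := by
      rw [hxy, SC_one ha hb]
      exact hk
    have h1 : (1 : ℂ) ∈ Hb := by
      change 0 ≤ (1 : ℂ).im
      rw [Complex.one_im]
    have h3 := hinj h1 hxH h2
    rw [← h3] at hx'
    exact lt_irrefl _ hx'
  · exact SC_ne_tau ha hb hab hxH (hxy.trans hk.symm)

/-- the value of the derivative -/
def MM_d (a b A B : ℝ) (y : ℂ) : ℂ :=
  bet a b * (A * MM a b (A - a) (B + 1 - b) y - B * MM a b (A + 1 - a) (B - b) y)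

theorem MM_hasDerivAt (ha : 0 < a) (hb : 0 < b) (hab : a + b < 1) (A B : ℝ) {y : ℂ}
    (hy : y ∈ interior (body (tri a b))) : HasDerivAt (MM a b A B) (MM_d a b A B y) y := by
  have h1 := hasDerivAt_mm A B (XX_im_pos ha hb hab hy)
  have h2 := hasDerivAt_XX ha hb hab hy
  have h3 := HasDerivAt.comp y h1 h2
  have hy' := MM_interior_sub ha hb hab hy
  have hx := XX_ne ha hb hab hy'
  have e1 := mm_mul (A - 1) B (1 - a) (1 - b) hx.1 hx.2
  have e2 := mm_mul A (B - 1) (1 - a) (1 - b) hx.1 hx.2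
  have e3 : (A - 1) + (1 - a) = A - a := by ring
  have e4 : B + (1 - b) = B + 1 - b := by ring
  have e5 : A + (1 - a) = A + 1 - a := by ring
  have e6 : (B - 1) + (1 - b) = B - b := by ring
  rw [e3, e4] at e1
  rw [e5, e6] at e2
  have h4 : MM_d a b A B y = (A * mm (A - 1) B (XX a b y) - B * mm A (B - 1) (XX a b y)) *
      (bet a b * mm (1 - a) (1 - b) (XX a b y)) := by
    unfold MM_d MM
    rw [← e1, ← e2]
    ring
  rw [h4]
  exact h3

theorem MM_hasFDerivAt (ha : 0 < a) (hb : 0 < b) (hab : a + b < 1) (A B : ℝ) {y : ℂ}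
    (hy : y ∈ interior (body (tri a b))) :
    HasFDerivAt (𝕜 := ℝ) (MM a b A B) (DD (MM_d a b A B y) 0) y := by
  have h := (MM_hasDerivAt ha hb hab A B hy).complexToReal_fderiv
  have e : DD (MM_d a b A B y) 0 = MM_d a b A B y • (1 : ℂ →L[ℝ] ℂ) := by
    ext z
    simp [DD_apply]
  rw [e]
  exact h

theorem MM_d_continuousOn (ha : 0 < a) (hb : 0 < b) (hab : a + b < 1) (A B : ℝ) :
    ContinuousOn (MM_d a b A B) (body (tri a b) \ VV a b) := by
  unfold MM_d
  exact continuousOn_const.mul ((continuousOn_const.mul (continuousOn_MM ha hb hab _ _)).sub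
    (continuousOn_const.mul (continuousOn_MM ha hb hab _ _)))

theorem MM_DD_continuous : Continuous (fun p : ℂ => DD p 0) := by
  unfold DD
  exact (continuous_id.smul continuous_const).add continuous_const

theorem hasFDerivWithinAt_MM (ha : 0 < a) (hb : 0 < b) (hab : a + b < 1) (A B : ℝ) {y : ℂ}
    (hy : y ∈ body (tri a b) \ VV a b) :
    HasFDerivWithinAt (MM a b A B)
      (DD (bet a b * (A * MM a b (A - a) (B + 1 - b) y - B * MM a b (A + 1 - a) (B - b) y)) 0)
      (body (tri a b)) y := by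
  change HasFDerivWithinAt (MM a b A B) (DD (MM_d a b A B y) 0) (body (tri a b)) y
  have hfin : (VV a b).Finite := Set.finite_range _
  obtain ⟨ε, hε, hball⟩ := Metric.nhds_basis_closedBall.mem_iff.1
    (hfin.isClosed.isOpen_compl.mem_nhds (show y ∈ (VV a b)ᶜ from hy.2))
  set s : Set ℂ := interior (body (tri a b)) ∩ Metric.ball y ε with hs
  have hsub : closure s ⊆ body (tri a b) \ VV a b := by
    intro z hz
    constructor
    · have h1 : closure s ⊆ body (tri a b) := by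
        refine (closure_minimal ?_ isCompact_body.isClosed)
        exact fun w hw => interior_subset hw.1
      exact h1 hz
    · have h1 : closure s ⊆ Metric.closedBall y ε := by
        refine closure_minimal ?_ Metric.isClosed_closedBall
        exact fun w hw => Metric.ball_subset_closedBall hw.2
      exact hball (h1 hz)
  have hss : s ⊆ body (tri a b) \ VV a b := subset_closure.trans hsub
  have hconv : Convex ℝ s := (convex_body.interior).inter (convex_ball y ε)
  have hopen : IsOpen s := isOpen_interior.inter Metric.isOpen_ball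
  have hdiff : DifferentiableOn ℝ (MM a b A B) s := fun z hz =>
    (MM_hasFDerivAt ha hb hab A B hz.1).differentiableAt.differentiableWithinAt
  have hcont : ∀ z ∈ closure s, ContinuousWithinAt (MM a b A B) s z := fun z hz =>
    (continuousOn_MM ha hb hab A B z (hsub hz)).mono hss
  have hlim : Tendsto (fun z => fderiv ℝ (MM a b A B) z) (𝓝[s] y)
      (𝓝 (DD (MM_d a b A B y) 0)) := by
    have h1 : Tendsto (MM_d a b A B) (𝓝[s] y) (𝓝 (MM_d a b A B y)) :=
      ((MM_d_continuousOn ha hb hab A B) y hy).mono_left (nhdsWithin_mono y hss)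
    have h2 := (MM_DD_continuous.tendsto (MM_d a b A B y)).comp h1
    refine h2.congr' ?_
    filter_upwards [self_mem_nhdsWithin] with z hz
    exact ((MM_hasFDerivAt ha hb hab A B hz.1).fderiv).symm
  have hmain := hasFDerivWithinAt_closure_of_tendsto_fderiv hdiff hconv hopen hcont hlim
  refine hmain.mono_of_mem_nhdsWithin ?_
  have hcl : body (tri a b) = closure (interior (body (tri a b))) := by
    rw [convex_body.closure_interior_eq_closure_of_nonempty_interior
      (MM_interior_nonempty ha hb hab), isCompact_body.isClosed.closure_eq]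
  have h3 : body (tri a b) ∩ Metric.ball y ε ⊆ closure s := by
    intro z hz
    rw [hcl] at hz
    exact Metric.isOpen_ball.closure_inter hz
  refine Filter.mem_of_superset ?_ h3
  exact Filter.inter_mem self_mem_nhdsWithin (mem_nhdsWithin_of_mem_nhds (Metric.ball_mem_nhds y hε))

theorem MM_edge2 (ha : 0 < a) (hb : 0 < b) (hab : a + b < 1) (A B : ℝ) {y : ℂ}
    (hy : y ∈ edge (tri a b) 2 \ VV a b) : ∃ s : ℝ, 0 < s ∧ MM a b A B y = s := by
  obtain ⟨t, h0, h1, ht⟩ := XX_edge2 ha hb hab hy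
  refine ⟨t ^ A * (1 - t) ^ B, ?_, ?_⟩
  · have h2 : 0 < 1 - t := by linarith
    positivity
  · unfold MM
    rw [ht, mm_mid A B h0 h1]

theorem MM_edge1 (ha : 0 < a) (hb : 0 < b) (hab : a + b < 1) (A B : ℝ) {y : ℂ}
    (hy : y ∈ edge (tri a b) 1 \ VV a b) :
    ∃ s : ℝ, 0 < s ∧ MM a b A B y = s * Complex.exp (π * A * Complex.I) := by
  obtain ⟨t, h0, ht⟩ := XX_edge1 ha hb hab hy
  refine ⟨(-t) ^ A * (1 - t) ^ B, ?_, ?_⟩
  · have h2 : 0 < 1 - t := by linarith
    have h3 : 0 < -t := by linarith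
    positivity
  · unfold MM
    rw [ht, mm_neg A B h0, mul_comm]

theorem MM_edge0 (ha : 0 < a) (hb : 0 < b) (hab : a + b < 1) (A B : ℝ) {y : ℂ}
    (hy : y ∈ edge (tri a b) 0 \ VV a b) :
    ∃ s : ℝ, 0 < s ∧ MM a b A B y = s * Complex.exp (-(π * B) * Complex.I) := by
  obtain ⟨t, h0, ht⟩ := XX_edge0 ha hb hab hy
  refine ⟨t ^ A * (t - 1) ^ B, ?_, ?_⟩
  · have h2 : 0 < t - 1 := by linarith
    have h3 : 0 < t := by linarith
    positivity
  · unfold MM
    rw [ht, mm_gt A B h0, mul_comm]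

theorem MM_lim0 (ha : 0 < a) (hb : 0 < b) (hab : a + b < 1) (A B : ℝ) :
    Tendsto (fun y => MM a b A B y / MM a b A 0 y) (𝓝[body (tri a b) \ VV a b] 0) (𝓝 1) :=
  (mm_div_zero A B).comp (tendsto_XX_zero ha hb hab)

theorem MM_lim1 (ha : 0 < a) (hb : 0 < b) (hab : a + b < 1) (A B : ℝ) :
    Tendsto (fun y => MM a b A B y / MM a b 0 B y) (𝓝[body (tri a b) \ VV a b] 1) (𝓝 1) :=
  (mm_div_one A B).comp (tendsto_XX_one ha hb hab)

theorem MM_lim2 (ha : 0 < a) (hb : 0 < b) (hab : a + b < 1) (A B : ℝ) :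
    Tendsto (fun y => MM a b A B y / MM a b (A + B) 0 y) (𝓝[body (tri a b) \ VV a b] (tau a b))
      (𝓝 (Complex.exp (-(π * B) * Complex.I))) :=
  (mm_div_inf A B).comp (tendsto_XX_tau ha hb hab)

theorem y_lim0 (ha : 0 < a) (hb : 0 < b) (hab : a + b < 1) :
    Tendsto (fun y => y / MM a b a 0 y) (𝓝[body (tri a b) \ VV a b] 0)
      (𝓝 (1 / (a * bet a b))) := by
  have h1 := (SC_asymp ha hb hab).1.comp (tendsto_XX_zero ha hb hab)
  have h2 := MM_lim0 ha hb hab a (b - 1)
  have h3 := h1.mul h2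
  rw [mul_one] at h3
  refine h3.congr' ?_
  filter_upwards [self_mem_nhdsWithin] with y hy
  have h4 := (XX_mem ha hb hab (MM_sub_tau hy)).2
  have h5 := MM_ne_zero ha hb hab a (b - 1) hy
  simp only [Function.comp_apply]
  rw [h4]
  change y / MM a b a (b - 1) y * (MM a b a (b - 1) y / MM a b a 0 y) = y / MM a b a 0 y
  rw [div_mul_div_cancel₀ h5]

theorem y_lim1 (ha : 0 < a) (hb : 0 < b) (hab : a + b < 1) :
    Tendsto (fun y => (y - 1) / MM a b 0 b y) (𝓝[body (tri a b) \ VV a b] 1)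
      (𝓝 (-1 / (b * bet a b))) := by
  have h1 := (SC_asymp ha hb hab).2.1.comp (tendsto_XX_one ha hb hab)
  have h2 := MM_lim1 ha hb hab (a - 1) b
  have h3 := h1.mul h2
  rw [mul_one] at h3
  refine h3.congr' ?_
  filter_upwards [self_mem_nhdsWithin] with y hy
  have h4 := (XX_mem ha hb hab (MM_sub_tau hy)).2
  have h5 := MM_ne_zero ha hb hab (a - 1) b hy
  simp only [Function.comp_apply]
  rw [h4]
  change (y - 1) / MM a b (a - 1) b y * (MM a b (a - 1) b y / MM a b 0 b y) = _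
  rw [div_mul_div_cancel₀ h5]

theorem y_lim2 (ha : 0 < a) (hb : 0 < b) (hab : a + b < 1) :
    Tendsto (fun y => (y - tau a b) / MM a b (a + b - 1) 0 y)
      (𝓝[body (tri a b) \ VV a b] (tau a b))
      (𝓝 (Complex.exp (-(π * (b - 1)) * Complex.I) / ((a + b - 1) * bet a b))) := by
  have h1 := (SC_asymp ha hb hab).2.2.comp (tendsto_XX_tau ha hb hab)
  have h2 := MM_lim2 ha hb hab a (b - 1)
  have h3 := h1.mul h2
  have e1 : a + (b - 1) = a + b - 1 := by ring
  have e2 : 1 / (((a : ℂ) + b - 1) * bet a b) *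
      Complex.exp (-(π * ((b - 1 : ℝ) : ℂ)) * Complex.I) =
      Complex.exp (-(π * (b - 1)) * Complex.I) / ((a + b - 1) * bet a b) := by
    push_cast
    ring
  rw [e2] at h3
  refine h3.congr' ?_
  filter_upwards [self_mem_nhdsWithin] with y hy
  have h4 := (XX_mem ha hb hab (MM_sub_tau hy)).2
  have h5 := MM_ne_zero ha hb hab a (b - 1) hy
  simp only [Function.comp_apply]
  rw [h4, e1]
  change (y - tau a b) / MM a b a (b - 1) y * (MM a b a (b - 1) y / MM a b (a + b - 1) 0 y) = _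
  rw [div_mul_div_cancel₀ h5]

/-- comparison of growth: if `u ~ c m ^ p` and `‖F‖ ~ d m ^ q` then `F = O(u ^ (q / p))` -/
theorem MM_bigO_aux {l : Filter ℂ} {u m : ℂ → ℝ} {F : ℂ → ℂ} {p q c d : ℝ} (hp : p ≠ 0)
    (hu : ∀ᶠ y in l, 0 < u y) (hm : ∀ᶠ y in l, 0 < m y) (hc : 0 < c)
    (h1 : Tendsto (fun y => u y / m y ^ p) l (𝓝 c))
    (h2 : Tendsto (fun y => ‖F y‖ / m y ^ q) l (𝓝 d)) :
    F =O[l] (fun y => u y ^ (q / p)) := by
  rw [← Asymptotics.isBigO_norm_left]
  have h3 : Tendsto (fun y => (‖F y‖ / m y ^ q) * (u y / m y ^ p) ^ (-(q / p))) l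
      (𝓝 (d * c ^ (-(q / p)))) :=
    h2.mul (h1.rpow_const (Or.inl hc.ne'))
  refine Asymptotics.isBigO_of_div_tendsto_nhds ?_ _ (h3.congr' ?_)
  · filter_upwards [hu] with y hy h0
    exact absurd h0 (Real.rpow_pos_of_pos hy _).ne'
  · filter_upwards [hu, hm] with y hy hmy
    simp only [Pi.div_apply]
    have h4 : (m y ^ p) ^ (q / p) = m y ^ q := by
      rw [← Real.rpow_mul hmy.le, mul_div_cancel₀ q hp]
    have h5 : 0 < m y ^ p := Real.rpow_pos_of_pos hmy _
    have h6 : 0 < m y ^ q := Real.rpow_pos_of_pos hmy _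
    have h7 : 0 < u y ^ (q / p) := Real.rpow_pos_of_pos hy _
    rw [Real.rpow_neg (div_pos hy h5).le, Real.div_rpow hy.le h5.le, h4]
    field_simp

theorem MM_norm_bet (ha : 0 < a) (hb : 0 < b) : 0 < ‖bet a b‖ := by
  obtain ⟨s, hs, h⟩ := bet_pos ha hb
  rw [h, norm_pos_iff]
  exact_mod_cast hs.ne'

theorem MM_norm_A0 (ha : 0 < a) (hb : 0 < b) (hab : a + b < 1) (A : ℝ) {y : ℂ}
    (hy : y ∈ body (tri a b) \ VV a b) : ‖MM a b A 0 y‖ = ‖XX a b y‖ ^ A := by
  unfold MM
  rw [norm_mm A 0 (XX_ne ha hb hab hy).1 (XX_ne ha hb hab hy).2, Real.rpow_zero, mul_one]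

theorem MM_norm_0B (ha : 0 < a) (hb : 0 < b) (hab : a + b < 1) (B : ℝ) {y : ℂ}
    (hy : y ∈ body (tri a b) \ VV a b) : ‖MM a b 0 B y‖ = ‖XX a b y - 1‖ ^ B := by
  unfold MM
  rw [norm_mm 0 B (XX_ne ha hb hab hy).1 (XX_ne ha hb hab hy).2, Real.rpow_zero, one_mul]

theorem MM_bigO0 (ha : 0 < a) (hb : 0 < b) (hab : a + b < 1) (A B : ℝ) :
    MM a b A B =O[𝓝[body (tri a b) \ VV a b] 0] (fun y : ℂ => ‖y‖ ^ (A / a)) := by
  refine MM_bigO_aux (m := fun y => ‖XX a b y‖) (c := ‖(1 : ℂ) / (a * bet a b)‖) (d := 1) ha.ne'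
    ?_ ?_ ?_ ?_ ?_
  · filter_upwards [self_mem_nhdsWithin] with y hy
    rw [norm_pos_iff]
    rintro rfl
    exact hy.2 ⟨0, rfl⟩
  · filter_upwards [self_mem_nhdsWithin] with y hy
    rw [norm_pos_iff]
    exact (XX_ne ha hb hab hy).1
  · rw [norm_div, norm_mul]
    have h1 : 0 < ‖(a : ℂ)‖ := by
      rw [norm_pos_iff]
      exact_mod_cast ha.ne'
    have h2 := MM_norm_bet ha hb
    have h3 : 0 < ‖(1 : ℂ)‖ := by
      rw [norm_one]
      exact one_pos
    positivity
  · refine (y_lim0 ha hb hab).norm.congr' ?_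
    filter_upwards [self_mem_nhdsWithin] with y hy
    rw [norm_div, MM_norm_A0 ha hb hab a hy]
  · have h := (MM_lim0 ha hb hab A B).norm
    rw [norm_one] at h
    refine h.congr' ?_
    filter_upwards [self_mem_nhdsWithin] with y hy
    rw [norm_div, MM_norm_A0 ha hb hab A hy]

theorem MM_bigO1 (ha : 0 < a) (hb : 0 < b) (hab : a + b < 1) (A B : ℝ) :
    MM a b A B =O[𝓝[body (tri a b) \ VV a b] 1] (fun y : ℂ => ‖y - 1‖ ^ (B / b)) := by
  refine MM_bigO_aux (m := fun y => ‖XX a b y - 1‖) (c := ‖(-1 : ℂ) / (b * bet a b)‖) (d := 1)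
    hb.ne' ?_ ?_ ?_ ?_ ?_
  · filter_upwards [self_mem_nhdsWithin] with y hy
    rw [norm_pos_iff, sub_ne_zero]
    rintro rfl
    exact hy.2 ⟨1, rfl⟩
  · filter_upwards [self_mem_nhdsWithin] with y hy
    rw [norm_pos_iff, sub_ne_zero]
    exact (XX_ne ha hb hab hy).2
  · rw [norm_div, norm_mul]
    have h1 : 0 < ‖(b : ℂ)‖ := by
      rw [norm_pos_iff]
      exact_mod_cast hb.ne'
    have h2 := MM_norm_bet ha hb
    have h3 : 0 < ‖(-1 : ℂ)‖ := by
      rw [norm_neg, norm_one]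
      exact one_pos
    positivity
  · refine (y_lim1 ha hb hab).norm.congr' ?_
    filter_upwards [self_mem_nhdsWithin] with y hy
    rw [norm_div, MM_norm_0B ha hb hab b hy]
  · have h := (MM_lim1 ha hb hab A B).norm
    rw [norm_one] at h
    refine h.congr' ?_
    filter_upwards [self_mem_nhdsWithin] with y hy
    rw [norm_div, MM_norm_0B ha hb hab B hy]

theorem MM_bigO2 (ha : 0 < a) (hb : 0 < b) (hab : a + b < 1) (A B : ℝ) :
    MM a b A B =O[𝓝[body (tri a b) \ VV a b] (tau a b)]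
      (fun y : ℂ => ‖y - tau a b‖ ^ (-(A + B) / (1 - a - b))) := by
  have hp : a + b - 1 ≠ 0 := by
    have : a + b - 1 < 0 := by linarith
    exact this.ne
  have hq : -(A + B) / (1 - a - b) = (A + B) / (a + b - 1) := by
    have h1 : 1 - a - b ≠ 0 := by
      have : 0 < 1 - a - b := by linarith
      exact this.ne'
    rw [div_eq_div_iff h1 hp]
    ring
  rw [hq]
  refine MM_bigO_aux (m := fun y => ‖XX a b y‖)
    (c := ‖Complex.exp (-(π * (b - 1)) * Complex.I) / ((a + b - 1) * bet a b)‖)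
    (d := ‖Complex.exp (-(π * B) * Complex.I)‖) hp ?_ ?_ ?_ ?_ ?_
  · filter_upwards [self_mem_nhdsWithin] with y hy
    rw [norm_pos_iff, sub_ne_zero]
    rintro rfl
    exact hy.2 ⟨2, rfl⟩
  · filter_upwards [self_mem_nhdsWithin] with y hy
    rw [norm_pos_iff]
    exact (XX_ne ha hb hab hy).1
  · rw [norm_div, norm_mul]
    have h1 : 0 < ‖(a : ℂ) + b - 1‖ := by
      rw [norm_pos_iff]
      exact_mod_cast hp
    have h2 := MM_norm_bet ha hb
    have h3 : 0 < ‖Complex.exp (-(π * (b - 1)) * Complex.I)‖ := by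
      rw [norm_pos_iff]
      exact Complex.exp_ne_zero _
    positivity
  · refine (y_lim2 ha hb hab).norm.congr' ?_
    filter_upwards [self_mem_nhdsWithin] with y hy
    rw [norm_div, MM_norm_A0 ha hb hab _ hy]
  · refine (MM_lim2 ha hb hab A B).norm.congr' ?_
    filter_upwards [self_mem_nhdsWithin] with y hy
    rw [norm_div, MM_norm_A0 ha hb hab _ hy]

end

end Pool.Agent.OBT
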