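import Mathlib
import Pool.Agent.OBT.Fam

/-!
# Functions of finite energy and holomorphic functions on the unfolding
-/

open scoped ComplexConjugate Topology
open MeasureTheory

namespace Pool.Agent.OBT

noncomputable section

/-- `U` is a bounded function on the unfolding, `C²` off the finite set of copies of points of `S`,
with derivatives `∂ U = u` and `∂̄ U = w` in `L²`. -/
structure NiceS (v : Fin 3 → ℂ) (S : Set ℂ) (U u w : G v → ℂ → ℂ) : Prop where
  fin : S.Finite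
  bdd : ∃ C : ℝ, ∀ g, ∀ y ∈ body v, ‖U g y‖ ≤ C
  compat : Compat S U
  compat1 : Compat S u
  compat2 : Compat S w
  deriv : ∀ g, ∀ y ∈ body v \ S, HasFDerivWithinAt (U g) (DG g (u g y) (w g y)) (body v) y
  second : ∃ u1 m w2 : G v → ℂ → ℂ, (∀ g, ContinuousOn (u1 g) (body v \ S)) ∧
    (∀ g, ContinuousOn (m g) (body v \ S)) ∧ (∀ g, ContinuousOn (w2 g) (body v \ S)) ∧
    (∀ g, ∀ y ∈ body v \ S, HasFDerivWithinAt (u g) (DG g (u1 g y) (m g y)) (body v) y) ∧
    (∀ g, ∀ y ∈ body v \ S, HasFDerivWithinAt (w g) (DG g (m g y) (w2 g y)) (body v) y)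
  L2a : ∀ g, MemLp (u g) 2 (volume.restrict (body v))
  L2b : ∀ g, MemLp (w g) 2 (volume.restrict (body v))

def Nice (v : Fin 3 → ℂ) (U u w : G v → ℂ → ℂ) : Prop := ∃ S, NiceS v S U u w

/-- `f` is a holomorphic function in `L²` on the unfolding, off finitely many points. -/
structure HoloS (v : Fin 3 → ℂ) (S : Set ℂ) (f : G v → ℂ → ℂ) : Prop where
  fin : S.Finite
  compat : Compat S f
  deriv : ∃ f1 : G v → ℂ → ℂ, (∀ g, ContinuousOn (f1 g) (body v \ S)) ∧
    ∀ g, ∀ y ∈ body v \ S, HasFDerivWithinAt (f g) (DG g (f1 g y) 0) (body v) y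
  L2 : ∀ g, MemLp (f g) 2 (volume.restrict (body v))

def Holo (v : Fin 3 → ℂ) (f : G v → ℂ → ℂ) : Prop := ∃ S, HoloS v S f

end

end Pool.Agent.OBT
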