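import Mathlib
import Pool.Agent.OBT.MM
import Pool.Agent.OBT.Iso
import Pool.Agent.OBT.Nice
import Pool.Agent.OBT.BigO

/-!
# The triangle with angles `π p/N`, `π q/N`: group and holomorphic forms
-/

open scoped ComplexConjugate Topology Real
open MeasureTheory Filter

namespace Pool.Agent.OBT

noncomputable section

theorem Form1_exp_conj (t : ℝ) : conj (Complex.exp (t * Complex.I)) =
    Complex.exp (-t * Complex.I) := by
  rw [← Complex.exp_conj, map_mul, Complex.conj_I, Complex.conj_ofReal]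
  ring_nf

theorem Form1_ratio (c t : ℝ) (hc : c ≠ 0) :
    ((c : ℂ) * Complex.exp (t * Complex.I)) / conj ((c : ℂ) * Complex.exp (t * Complex.I)) =
      Complex.exp (2 * t * Complex.I) := by
  rw [map_mul, Complex.conj_ofReal, Form1_exp_conj]
  have hc' : (c : ℂ) ≠ 0 := Complex.ofReal_ne_zero.2 hc
  rw [mul_div_mul_left _ _ hc', ← Complex.exp_sub]
  congr 1
  ring

theorem tri_ne {a b : ℝ} (ha : 0 < a) (hb : 0 < b) (hab : a + b < 1) (k : Fin 3) :
    tri a b (k + 1) ≠ tri a b (k + 2) := by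
  have h := tau_im_pos ha hb hab
  fin_cases k
  · show (1 : ℂ) ≠ tau a b
    intro h1
    rw [← h1] at h
    simp at h
  · show tau a b ≠ (0 : ℂ)
    intro h1
    rw [h1] at h
    simp at h
  · show (0 : ℂ) ≠ 1
    exact zero_ne_one

theorem chi_tri_two {a b : ℝ} (ha : 0 < a) (hb : 0 < b) (hab : a + b < 1) :
    chi (tri a b) 2 = 1 := by
  rw [chi_eq 2 (tri_ne ha hb hab 2)]
  show ((1 : ℂ) - 0) / conj ((1 : ℂ) - 0) = 1
  simp

theorem chi_tri_one {a b : ℝ} (ha : 0 < a) (hb : 0 < b) (hab : a + b < 1) :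
    chi (tri a b) 1 = Complex.exp (2 * π * a * Complex.I) := by
  rw [chi_eq 1 (tri_ne ha hb hab 1)]
  show ((0 : ℂ) - tau a b) / conj ((0 : ℂ) - tau a b) = _
  have h1 : (0 : ℂ) - tau a b =
      (((-(Real.sin (π * b) / Real.sin (π * (a + b))) : ℝ)) : ℂ) *
        Complex.exp ((π * a : ℝ) * Complex.I) := by
    unfold tau
    push_cast
    ring
  rw [h1, Form1_ratio]
  · congr 1
    push_cast
    ring
  · have h2 : 0 < Real.sin (π * b) := by
      apply Real.sin_pos_of_pos_of_lt_pi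
      · positivity
      · nlinarith [Real.pi_pos]
    have h3 : 0 < Real.sin (π * (a + b)) := by
      apply Real.sin_pos_of_pos_of_lt_pi
      · positivity
      · nlinarith [Real.pi_pos]
    exact neg_ne_zero.2 (div_pos h2 h3).ne'

theorem chi_tri_zero {a b : ℝ} (ha : 0 < a) (hb : 0 < b) (hab : a + b < 1) :
    chi (tri a b) 0 = Complex.exp (-(2 * π * b) * Complex.I) := by
  rw [chi_eq 0 (tri_ne ha hb hab 0)]
  show (tau a b - 1) / conj (tau a b - 1) = _
  have h1 : tau a b - 1 =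
      (((-(Real.sin (π * a) / Real.sin (π * (a + b))) : ℝ)) : ℂ) *
        Complex.exp ((-(π * b) : ℝ) * Complex.I) := by
    rw [tau_sub_one ha hb hab]
    push_cast
    ring
  rw [h1, Form1_ratio]
  · congr 1
    push_cast
    ring
  · have h2 : 0 < Real.sin (π * a) := by
      apply Real.sin_pos_of_pos_of_lt_pi
      · positivity
      · nlinarith [Real.pi_pos]
    have h3 : 0 < Real.sin (π * (a + b)) := by
      apply Real.sin_pos_of_pos_of_lt_pi
      · positivity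
      · nlinarith [Real.pi_pos]
    exact neg_ne_zero.2 (div_pos h2 h3).ne'

/-- the fractional part of `j p / N` -/
def ag (N p j : ℕ) : ℝ := ((j * p % N : ℕ) : ℝ) / N

/-- the residue `j` gives a holomorphic form -/
def Hol (N p q j : ℕ) : Prop := 0 < j * p % N ∧ 0 < j * q % N ∧ j * p % N + j * q % N < N

/-- the triangle with angles `π p/N`, `π q/N`, `π (N-p-q)/N` -/
abbrev TN (N p q : ℕ) : Fin 3 → ℂ := tri ((p : ℝ) / N) ((q : ℝ) / N)

/-- the function `ω_j/dz` on the triangle -/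
def FF (N p q j : ℕ) : ℂ → ℂ :=
  MM ((p : ℝ) / N) ((q : ℝ) / N) (ag N p j - (p : ℝ) / N) (ag N q j - (q : ℝ) / N)

/-- its derivative -/
def FF1 (N p q j : ℕ) (y : ℂ) : ℂ :=
  bet ((p : ℝ) / N) ((q : ℝ) / N) *
    ((ag N p j - (p : ℝ) / N : ℝ) * MM ((p : ℝ) / N) ((q : ℝ) / N)
        (ag N p j - (p : ℝ) / N - (p : ℝ) / N) (ag N q j - (q : ℝ) / N + 1 - (q : ℝ) / N) y -
     (ag N q j - (q : ℝ) / N : ℝ) * MM ((p : ℝ) / N) ((q : ℝ) / N)
        (ag N p j - (p : ℝ) / N + 1 - (p : ℝ) / N) (ag N q j - (q : ℝ) / N - (q : ℝ) / N) y)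

variable {N p q : ℕ}

theorem Form1_pos (hp : 0 < p) (hq : 0 < q) (hN : p + q < N) :
    0 < (p : ℝ) / N ∧ 0 < (q : ℝ) / N ∧ (p : ℝ) / N + (q : ℝ) / N < 1 := by
  have hN0 : (0 : ℝ) < N := by
    have : 0 < N := by omega
    exact_mod_cast this
  refine ⟨by positivity, by positivity, ?_⟩
  rw [← add_div, div_lt_one hN0]
  exact_mod_cast hN

theorem Form1_uu_one {v : Fin 3 → ℂ} : uu (1 : G v) = 1 := by
  unfold uu
  rfl

theorem Form1_uu_r {v : Fin 3 → ℂ} (k : Fin 3) : uu (r v k) = chi v k := rfl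

theorem Form1_uu_inv {v : Fin 3 → ℂ} (g : G v) {N : ℕ} (h : uu g ^ N = 1) :
    uu g⁻¹ ^ N = 1 := by
  have h1 : uu (g * g⁻¹) = 1 := by rw [mul_inv_cancel, Form1_uu_one]
  by_cases hg : rot g
  · rw [uu_mul_of_rot _ hg] at h1
    have h2 := congrArg (fun z => z ^ N) h1
    simp only [mul_pow, h, one_mul, one_pow] at h2
    exact h2
  · rw [uu_mul_of_not_rot _ hg] at h1
    have h2 := congrArg (fun z => z ^ N) h1
    simp only [mul_pow, h, one_mul, one_pow] at h2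
    have h3 := congrArg conj h2
    rw [map_pow, Complex.conj_conj, map_one] at h3
    exact h3

theorem Form1_chi_pow (hp : 0 < p) (hq : 0 < q) (hN : p + q < N) (k : Fin 3) :
    chi (TN N p q) k ^ N = 1 := by
  obtain ⟨h1, h2, h3⟩ := Form1_pos hp hq hN
  have hN0 : (N : ℂ) ≠ 0 := by
    have : N ≠ 0 := by omega
    exact_mod_cast this
  fin_cases k
  · show chi (TN N p q) 0 ^ N = 1
    rw [chi_tri_zero h1 h2 h3, ← Complex.exp_nat_mul]
    have h4 : (N : ℂ) * (-(2 * π * ((q : ℝ) / N : ℝ)) * Complex.I) =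
        ((-(q : ℤ) : ℤ) : ℂ) * (2 * π * Complex.I) := by
      push_cast
      field_simp
    rw [h4, Complex.exp_int_mul_two_pi_mul_I]
  · show chi (TN N p q) 1 ^ N = 1
    rw [chi_tri_one h1 h2 h3, ← Complex.exp_nat_mul]
    have h4 : (N : ℂ) * (2 * π * ((p : ℝ) / N : ℝ) * Complex.I) =
        (((p : ℤ) : ℤ) : ℂ) * (2 * π * Complex.I) := by
      push_cast
      field_simp
    rw [h4, Complex.exp_int_mul_two_pi_mul_I]
  · show chi (TN N p q) 2 ^ N = 1
    rw [chi_tri_two h1 h2 h3, one_pow]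

theorem Form1_uu_pow (hp : 0 < p) (hq : 0 < q) (hN : p + q < N) (g : G (TN N p q)) :
    uu g ^ N = 1 := by
  obtain ⟨x, hx⟩ := g
  induction hx using Subgroup.closure_induction with
  | mem x hx =>
    obtain ⟨k, rfl⟩ := hx
    exact Form1_chi_pow hp hq hN k
  | one =>
    show uu (1 : G (TN N p q)) ^ N = 1
    rw [Form1_uu_one, one_pow]
  | mul x y hx hy h1 h2 =>
    show uu ((⟨x, hx⟩ : G (TN N p q)) * ⟨y, hy⟩) ^ N = 1
    by_cases hg : rot (⟨x, hx⟩ : G (TN N p q))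
    · rw [uu_mul_of_rot _ hg, mul_pow, h1, h2, one_mul]
    · rw [uu_mul_of_not_rot _ hg, mul_pow, h1, ← map_pow, h2, map_one, one_mul]
  | inv x hx h1 =>
    show uu ((⟨x, hx⟩ : G (TN N p q))⁻¹) ^ N = 1
    exact Form1_uu_inv _ h1

theorem exists_uu (hp : 0 < p) (hq : 0 < q) (hN : p + q < N) (g : G (TN N p q)) :
    ∃ k : ℕ, uu g = Complex.exp (2 * π * Complex.I * k / N) := by
  have hN0 : N ≠ 0 := by omega
  have : NeZero N := ⟨hN0⟩
  obtain ⟨k, _, hk⟩ := (Complex.isPrimitiveRoot_exp N hN0).eq_pow_of_pow_eq_one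
    (Form1_uu_pow hp hq hN g)
  refine ⟨k, ?_⟩
  rw [← hk, ← Complex.exp_nat_mul]
  congr 1
  ring

theorem uu_pow_N (hp : 0 < p) (hq : 0 < q) (hN : p + q < N) (g : G (TN N p q)) :
    uu g ^ N = 1 := Form1_uu_pow hp hq hN g

theorem Form1_ext {v : Fin 3 → ℂ} {g h : G v} (h1 : uu g = uu h) (h2 : rot g ↔ rot h) :
    g = h := by
  apply Subtype.ext
  apply LinearIsometryEquiv.ext
  intro z
  by_cases hg : rot g
  · rw [apply_of_rot hg, apply_of_rot (h2.1 hg), h1]
  · rw [apply_of_not_rot hg, apply_of_not_rot (fun h3 => hg (h2.2 h3)), h1]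

theorem finite_G (hp : 0 < p) (hq : 0 < q) (hN : p + q < N) : Finite (G (TN N p q)) := by
  have hN0 : 0 < N := by omega
  have hfin : Finite {z : ℂ // z ^ N = 1} := by
    have h1 : {z : ℂ | z ^ N = 1} ⊆ ((Polynomial.nthRoots N (1 : ℂ)).toFinset : Set ℂ) := by
      intro z hz
      simp only [Finset.mem_coe, Multiset.mem_toFinset]
      exact (Polynomial.mem_nthRoots hN0).2 hz
    exact (Set.Finite.subset (Finset.finite_toSet _) h1).to_subtype
  refine Finite.of_injective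
    (fun g : G (TN N p q) => ((⟨uu g, Form1_uu_pow hp hq hN g⟩ : {z : ℂ // z ^ N = 1}), rot g)) ?_
  intro g h hgh
  obtain ⟨h1, h2⟩ := Prod.ext_iff.1 hgh
  exact Form1_ext (congrArg Subtype.val h1) (iff_of_eq h2)

theorem exists_rot (hp : 0 < p) (hq : 0 < q) (hN : p + q < N) :
    (∃ g : G (TN N p q), rot g ∧ uu g = Complex.exp (2 * π * Complex.I * p / N)) ∧
    (∃ g : G (TN N p q), rot g ∧ uu g = Complex.exp (2 * π * Complex.I * q / N)) := by
  obtain ⟨h1, h2, h3⟩ := Form1_pos hp hq hN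
  have hr : ∀ k, ¬ rot (r (TN N p q) k) := fun k => not_rot_r k (tri_ne h1 h2 h3 k)
  constructor
  · refine ⟨r (TN N p q) 1 * r (TN N p q) 2, (rot_mul_iff _ _).2 (iff_of_false (hr 1) (hr 2)), ?_⟩
    rw [uu_mul_of_not_rot _ (hr 1), Form1_uu_r, Form1_uu_r, chi_tri_one h1 h2 h3,
      chi_tri_two h1 h2 h3, map_one, mul_one]
    congr 1
    push_cast
    ring
  · refine ⟨r (TN N p q) 2 * r (TN N p q) 0, (rot_mul_iff _ _).2 (iff_of_false (hr 2) (hr 0)), ?_⟩
    rw [uu_mul_of_not_rot _ (hr 2), Form1_uu_r, Form1_uu_r, chi_tri_zero h1 h2 h3,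
      chi_tri_two h1 h2 h3, one_mul]
    have h4 : (-(2 * π * ((q : ℝ) / N : ℝ)) * Complex.I : ℂ) =
        ((-(2 * π * ((q : ℝ) / N)) : ℝ) : ℂ) * Complex.I := by
      push_cast
      ring
    rw [h4, Form1_exp_conj]
    congr 1
    push_cast
    ring

/-- the phase of a monomial on the sides -/
theorem Form1_phase {a b : ℝ} (ha : 0 < a) (hb : 0 < b) (hab : a + b < 1) (A B : ℝ) (m z w : ℤ)
    (hA : A = m * a + z) (hB : B = m * b + w) (k : Fin 3) {y : ℂ}
    (hy : y ∈ edge (tri a b) k \ Set.range (tri a b)) :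
    MM a b A B y = chi (tri a b) k ^ m * conj (MM a b A B y) := by
  fin_cases k
  · obtain ⟨s, _, hs⟩ := MM_edge0 ha hb hab A B (y := y) hy
    show MM a b A B y = chi (tri a b) 0 ^ m * conj (MM a b A B y)
    have h4 : (-(π * B) * Complex.I : ℂ) = ((-(π * B) : ℝ) : ℂ) * Complex.I := by
      push_cast
      ring
    rw [chi_tri_zero ha hb hab, hs, map_mul, Complex.conj_ofReal, h4, Form1_exp_conj,
      ← Complex.exp_int_mul, mul_left_comm, ← Complex.exp_add]
    congr 1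
    rw [Complex.exp_eq_exp_iff_exists_int]
    refine ⟨-w, ?_⟩
    rw [hB]
    push_cast
    ring
  · obtain ⟨s, _, hs⟩ := MM_edge1 ha hb hab A B (y := y) hy
    show MM a b A B y = chi (tri a b) 1 ^ m * conj (MM a b A B y)
    have h4 : (π * A * Complex.I : ℂ) = ((π * A : ℝ) : ℂ) * Complex.I := by
      push_cast
      ring
    rw [chi_tri_one ha hb hab, hs, map_mul, Complex.conj_ofReal, h4, Form1_exp_conj,
      ← Complex.exp_int_mul, mul_left_comm, ← Complex.exp_add]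
    congr 1
    rw [Complex.exp_eq_exp_iff_exists_int]
    refine ⟨z, ?_⟩
    rw [hA]
    push_cast
    ring
  · obtain ⟨s, _, hs⟩ := MM_edge2 ha hb hab A B (y := y) hy
    show MM a b A B y = chi (tri a b) 2 ^ m * conj (MM a b A B y)
    rw [chi_tri_two ha hb hab, one_zpow, one_mul, hs, Complex.conj_ofReal]

theorem Form1_ag (hN : 0 < N) (j : ℕ) (c : ℤ) : ∃ z : ℤ,
    ag N p j - c * ((p : ℝ) / N) = (((j : ℤ) - c : ℤ) : ℝ) * ((p : ℝ) / N) + z := by
  refine ⟨-((j * p / N : ℕ) : ℤ), ?_⟩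
  have h1 : ((j * p % N : ℕ) : ℝ) + N * ((j * p / N : ℕ) : ℝ) = j * p := by
    exact_mod_cast Nat.mod_add_div (j * p) N
  have hN0 : (N : ℝ) ≠ 0 := by exact_mod_cast hN.ne'
  unfold ag
  have h2 : ((j * p % N : ℕ) : ℝ) = j * p - N * ((j * p / N : ℕ) : ℝ) := by linarith
  rw [h2]
  generalize j * p / N = t
  push_cast
  field_simp
  ring

theorem phase_FF (hp : 0 < p) (hq : 0 < q) (hN : p + q < N) (j : ℕ) (k : Fin 3) {y : ℂ}
    (hy : y ∈ edge (TN N p q) k \ Set.range (TN N p q)) :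
    FF N p q j y = chi (TN N p q) k ^ ((j : ℤ) - 1) * conj (FF N p q j y) := by
  obtain ⟨h1, h2, h3⟩ := Form1_pos hp hq hN
  have hN0 : 0 < N := by omega
  obtain ⟨z, hz⟩ := Form1_ag (p := p) hN0 j 1
  obtain ⟨w, hw⟩ := Form1_ag (p := q) hN0 j 1
  rw [Int.cast_one, one_mul] at hz hw
  exact Form1_phase h1 h2 h3 _ _ ((j : ℤ) - 1) z w hz hw k hy

theorem growth_FF (hp : 0 < p) (hq : 0 < q) (hN : p + q < N) {j : ℕ} (hj : Hol N p q j)
    (k : Fin 3) : ∃ e : ℝ, -1 < e ∧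
      FF N p q j =O[𝓝[body (TN N p q) \ Set.range (TN N p q)] (TN N p q k)]
        (fun y => ‖y - TN N p q k‖ ^ e) := by
  obtain ⟨h1, h2, h3⟩ := Form1_pos hp hq hN
  have hN0 : (0 : ℝ) < N := by
    have : 0 < N := by omega
    exact_mod_cast this
  obtain ⟨hj1, hj2, hj3⟩ := hj
  have hA : 0 < ag N p j := by
    unfold ag
    have : (0 : ℝ) < ((j * p % N : ℕ) : ℝ) := by exact_mod_cast hj1
    positivity
  have hB : 0 < ag N q j := by
    unfold ag
    have : (0 : ℝ) < ((j * q % N : ℕ) : ℝ) := by exact_mod_cast hj2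
    positivity
  have hAB : ag N p j + ag N q j < 1 := by
    unfold ag
    rw [← add_div, div_lt_one hN0]
    exact_mod_cast hj3
  fin_cases k
  · refine ⟨(ag N p j - (p : ℝ) / N) / ((p : ℝ) / N), ?_, ?_⟩
    · rw [lt_div_iff₀ h1]
      linarith
    · have h := MM_bigO0 h1 h2 h3 (ag N p j - (p : ℝ) / N) (ag N q j - (q : ℝ) / N)
      show FF N p q j =O[𝓝[body (TN N p q) \ Set.range (TN N p q)] (0 : ℂ)]
        (fun y => ‖y - (0 : ℂ)‖ ^ _)
      simp only [sub_zero]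
      exact h
  · refine ⟨(ag N q j - (q : ℝ) / N) / ((q : ℝ) / N), ?_, ?_⟩
    · rw [lt_div_iff₀ h2]
      linarith
    · exact MM_bigO1 h1 h2 h3 (ag N p j - (p : ℝ) / N) (ag N q j - (q : ℝ) / N)
  · refine ⟨-(ag N p j - (p : ℝ) / N + (ag N q j - (q : ℝ) / N)) /
      (1 - (p : ℝ) / N - (q : ℝ) / N), ?_, ?_⟩
    · rw [lt_div_iff₀ (by linarith)]
      linarith
    · exact MM_bigO2 h1 h2 h3 (ag N p j - (p : ℝ) / N) (ag N q j - (q : ℝ) / N)

theorem memLp_FF (hp : 0 < p) (hq : 0 < q) (hN : p + q < N) {j : ℕ} (hj : Hol N p q j) :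
    MemLp (FF N p q j) 2 (volume.restrict (body (TN N p q))) := by
  obtain ⟨h1, h2, h3⟩ := Form1_pos hp hq hN
  refine memLp_of_bigO (Set.finite_range (TN N p q)) (continuousOn_MM h1 h2 h3 _ _) ?_
  rintro s ⟨k, rfl⟩
  exact growth_FF hp hq hN hj k

theorem Form1_memLp_iso {v : Fin 3 → ℂ} (n : ℤ) {F : ℂ → ℂ} {μ : Measure ℂ}
    (h : MemLp F 2 μ) (g : G v) : MemLp (iso n F g) 2 μ := by
  refine MemLp.of_le h ?_ (Eventually.of_forall fun y => (norm_iso n F g y).le)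
  by_cases hg : rot g
  · have h1 : iso n F g = fun y => uu g ^ n * F y := by
      funext y
      unfold iso
      rw [if_pos hg]
    rw [h1]
    exact h.1.const_mul _
  · have h1 : iso n F g = fun y => uu g ^ n * conj (F y) := by
      funext y
      unfold iso
      rw [if_neg hg]
    rw [h1]
    exact (Complex.continuous_conj.comp_aestronglyMeasurable h.1).const_mul _

theorem Form1_continuousOn_FF1 (hp : 0 < p) (hq : 0 < q) (hN : p + q < N) (j : ℕ) :
    ContinuousOn (FF1 N p q j) (body (TN N p q) \ Set.range (TN N p q)) := by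
  obtain ⟨h1, h2, h3⟩ := Form1_pos hp hq hN
  unfold FF1
  exact continuousOn_const.mul ((continuousOn_const.mul (continuousOn_MM h1 h2 h3 _ _)).sub
    (continuousOn_const.mul (continuousOn_MM h1 h2 h3 _ _)))

theorem Form1_hasFDeriv (hp : 0 < p) (hq : 0 < q) (hN : p + q < N) (j : ℕ) {y : ℂ}
    (hy : y ∈ body (TN N p q) \ Set.range (TN N p q)) :
    HasFDerivWithinAt (FF N p q j) (DD (FF1 N p q j y) 0) (body (TN N p q)) y := by
  obtain ⟨h1, h2, h3⟩ := Form1_pos hp hq hN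
  exact hasFDerivWithinAt_MM h1 h2 h3 (ag N p j - (p : ℝ) / N) (ag N q j - (q : ℝ) / N)
    (y := y) hy

/-- the form with index `j` is holomorphic and square integrable on the unfolding -/
theorem holo_form (hp : 0 < p) (hq : 0 < q) (hN : p + q < N) {j : ℕ} (hj : Hol N p q j) :
    HoloS (TN N p q) (Set.range (TN N p q)) (iso ((j : ℤ) - 1) (FF N p q j)) := by
  obtain ⟨h1, h2, h3⟩ := Form1_pos hp hq hN
  refine ⟨Set.finite_range _, compat_iso (tri_ne h1 h2 h3) _ _ _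
    (fun k y hy => phase_FF hp hq hN j k hy), ⟨iso ((j : ℤ) - 1 - 1) (FF1 N p q j),
    fun g => continuousOn_iso _ (Form1_continuousOn_FF1 hp hq hN j) g, fun g y hy => ?_⟩,
    fun g => Form1_memLp_iso _ (memLp_FF hp hq hN hj) g⟩
  have h := hasFDerivWithinAt_iso ((j : ℤ) - 1) (P := FF1 N p q j) (Q := fun _ => 0)
    (Form1_hasFDeriv hp hq hN j hy) g
  have h0 : iso ((j : ℤ) - 1 + 1) (fun _ => (0 : ℂ)) g y = 0 := by
    unfold iso
    rw [map_zero, ite_self, mul_zero]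
  rw [h0] at h
  exact h

/-- its derivative is compatible with the gluings -/
theorem compat_FF1 (hp : 0 < p) (hq : 0 < q) (hN : p + q < N) (j : ℕ) :
    Compat (Set.range (TN N p q)) (iso (v := TN N p q) ((j : ℤ) - 2) (FF1 N p q j)) := by
  obtain ⟨h1, h2, h3⟩ := Form1_pos hp hq hN
  have hN0 : 0 < N := by omega
  refine compat_iso (tri_ne h1 h2 h3) _ _ _ (fun k y hy => ?_)
  obtain ⟨z, hz⟩ := Form1_ag (p := p) hN0 j 2
  obtain ⟨w, hw⟩ := Form1_ag (p := q) hN0 j 2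
  obtain ⟨s, _, hs⟩ := bet_pos h1 h2
  push_cast at hz hw
  have e1 := Form1_phase h1 h2 h3 (ag N p j - (p : ℝ) / N - (p : ℝ) / N)
    (ag N q j - (q : ℝ) / N + 1 - (q : ℝ) / N) ((j : ℤ) - 2) z (w + 1)
    (by push_cast; linarith) (by push_cast; linarith) k hy
  have e2 := Form1_phase h1 h2 h3 (ag N p j - (p : ℝ) / N + 1 - (p : ℝ) / N)
    (ag N q j - (q : ℝ) / N - (q : ℝ) / N) ((j : ℤ) - 2) (z + 1) w
    (by push_cast; linarith) (by push_cast; linarith) k hy
  unfold FF1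
  rw [hs, map_mul, map_sub, map_mul, map_mul, Complex.conj_ofReal, Complex.conj_ofReal,
    Complex.conj_ofReal]
  generalize MM ((p : ℝ) / N) ((q : ℝ) / N) (ag N p j - (p : ℝ) / N - (p : ℝ) / N)
    (ag N q j - (q : ℝ) / N + 1 - (q : ℝ) / N) y = m1 at *
  generalize MM ((p : ℝ) / N) ((q : ℝ) / N) (ag N p j - (p : ℝ) / N + 1 - (p : ℝ) / N)
    (ag N q j - (q : ℝ) / N - (q : ℝ) / N) y = m2 at *
  generalize chi (TN N p q) k ^ ((j : ℤ) - 2) = c at *
  generalize ((ag N p j - (p : ℝ) / N : ℝ) : ℂ) = u1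
  generalize ((ag N q j - (q : ℝ) / N : ℝ) : ℂ) = u2
  calc (s : ℂ) * (u1 * m1 - u2 * m2) = s * (u1 * (c * conj m1) - u2 * (c * conj m2)) := by
        rw [← e1, ← e2]
    _ = c * (s * (u1 * conj m1 - u2 * conj m2)) := by ring

theorem Form1_exp_zpow (hN : 0 < N) (c : ℕ) (d : ℤ)
    (h : Complex.exp (2 * π * Complex.I * c / N) ^ d = 1) : (N : ℤ) ∣ c * d := by
  rw [← Complex.exp_int_mul, Complex.exp_eq_one_iff] at h
  obtain ⟨m, hm⟩ := h
  have hN0 : (N : ℂ) ≠ 0 := by exact_mod_cast hN.ne'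
  have hpi : (2 * π * Complex.I : ℂ) ≠ 0 := Complex.two_pi_I_ne_zero
  refine ⟨m, ?_⟩
  have h1 : ((c : ℂ) * d) * (2 * π * Complex.I) = (N * m) * (2 * π * Complex.I) := by
    have h2 : (d : ℂ) * (2 * π * Complex.I * c / N) * N = m * (2 * π * Complex.I) * N := by
      rw [hm]
    rw [mul_assoc, div_mul_cancel₀ _ hN0] at h2
    linear_combination h2
  have h3 := mul_right_cancel₀ hpi h1
  exact_mod_cast h3

theorem orth_form (hp : 0 < p) (hq : 0 < q) (hN : p + q < N)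
    (hg : Nat.gcd (Nat.gcd p q) N = 1) [Fintype (G (TN N p q))] {i j : ℕ}
    (hij : ¬ i ≡ j [MOD N]) :
    ∑ g : G (TN N p q), ∫ y in body (TN N p q), conj (iso ((i : ℤ) - 1) (FF N p q i) g y) *
      iso ((j : ℤ) - 1) (FF N p q j) g y = 0 := by
  have hN0 : 0 < N := by omega
  have h1 : ∀ (g : G (TN N p q)) (y : ℂ), conj (iso ((i : ℤ) - 1) (FF N p q i) g y) *
      iso ((j : ℤ) - 1) (FF N p q j) g y =
      iso ((j : ℤ) - i) (fun y => conj (FF N p q i y) * FF N p q j y) g y := by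
    intro g y
    rw [conj_iso, iso_mul]
    congr 1
    ring
  simp only [h1]
  obtain ⟨⟨g₁, hr₁, hu₁⟩, ⟨g₂, hr₂, hu₂⟩⟩ := exists_rot hp hq hN
  by_cases hc1 : uu g₁ ^ ((j : ℤ) - i) = 1
  · by_cases hc2 : uu g₂ ^ ((j : ℤ) - i) = 1
    · exfalso
      rw [hu₁] at hc1
      rw [hu₂] at hc2
      have d1 := Form1_exp_zpow hN0 p _ hc1
      have d2 := Form1_exp_zpow hN0 q _ hc2
      apply hij
      have h2 : (N : ℤ) ∣ ((Nat.gcd p q : ℕ) : ℤ) * ((j : ℤ) - i) := by
        rw [Nat.gcd_eq_gcd_ab, add_mul]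
        apply dvd_add
        · rw [mul_right_comm]
          exact dvd_mul_of_dvd_left d1 _
        · rw [mul_right_comm]
          exact dvd_mul_of_dvd_left d2 _
      have h3 : IsCoprime (N : ℤ) ((Nat.gcd p q : ℕ) : ℤ) := by
        rw [Nat.isCoprime_iff_coprime]
        exact Nat.Coprime.symm hg
      have h4 : (N : ℤ) ∣ (j : ℤ) - i := h3.dvd_of_dvd_mul_left h2
      exact (Nat.modEq_iff_dvd).2 h4
    · exact sum_iso_of_ne_one _ _ g₂ hr₂ hc2
  · exact sum_iso_of_ne_one _ _ g₁ hr₁ hc1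

end

end Pool.Agent.OBT
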