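import Mathlib
import Pool.Agent.OBT.StarS
import Pool.Agent.OBT.Form1

/-!
# The group of the star
-/

open scoped ComplexConjugate Topology Real
open MeasureTheory Filter

namespace Pool.Agent.OBT

noncomputable section

variable {v : Fin 3 → ℂ}

/-- the group of the copies of the triangle around a point over the vertex `0` -/
def H0 (v : Fin 3 → ℂ) : Subgroup (G v) := Subgroup.closure {r v 1, r v 2}

end

end Pool.Agent.OBT
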