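import Mathlib
import Pool.Agent.OBT.StarD

/-!
# The star around the first vertex
-/

open scoped ComplexConjugate Topology Real
open MeasureTheory Filter

namespace Pool.Agent.OBT

noncomputable section

variable {N p q : ℕ} {v : Fin 3 → ℂ}

theorem StarA_chi_pow (hp : 0 < p) (hq : 0 < q) (hN : p + q < N) (hd : p ∣ N) :
    chi (TN N p q) 1 ^ (N / p) = 1 := by
  obtain ⟨h1, h2, h3⟩ := Form1_pos hp hq hN
  obtain ⟨n, rfl⟩ := hd
  have hn : 0 < n := by
    rcases Nat.eq_zero_or_pos n with h | h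
    · subst h
      omega
    · exact h
  have hp0 : (p : ℂ) ≠ 0 := by exact_mod_cast hp.ne'
  have hn0 : (n : ℂ) ≠ 0 := by exact_mod_cast hn.ne'
  rw [Nat.mul_div_cancel_left n hp, chi_tri_one h1 h2 h3, ← Complex.exp_nat_mul]
  have h4 : (n : ℂ) * (2 * π * ((p : ℝ) / (p * n : ℕ) : ℝ) * Complex.I) =
      ((1 : ℤ) : ℂ) * (2 * π * Complex.I) := by
    push_cast
    field_simp
  rw [h4, Complex.exp_int_mul_two_pi_mul_I]

theorem uu_pow_H0 (hp : 0 < p) (hq : 0 < q) (hN : p + q < N) (hd : p ∣ N) {h : G (TN N p q)}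
    (hh : h ∈ H0 (TN N p q)) : uu h ^ (N / p) = 1 := by
  obtain ⟨h1, h2, h3⟩ := Form1_pos hp hq hN
  unfold H0 at hh
  induction hh using Subgroup.closure_induction with
  | mem x hx =>
    rcases hx with rfl | hx
    · rw [Form1_uu_r]
      exact StarA_chi_pow hp hq hN hd
    · rw [Set.mem_singleton_iff] at hx
      rw [hx, Form1_uu_r, chi_tri_two h1 h2 h3, one_pow]
  | one => rw [Form1_uu_one, one_pow]
  | mul x y hx hy ihx ihy =>
    by_cases hg : rot x
    · rw [uu_mul_of_rot _ hg, mul_pow, ihx, ihy, one_mul]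
    · rw [uu_mul_of_not_rot _ hg, mul_pow, ihx, ← map_pow, ihy, map_one, one_mul]
  | inv x hx ihx => exact Form1_uu_inv _ ihx

/-- coordinates in the triangle -/
theorem StarA_body {a b : ℝ} {y : ℂ} (hy : y ∈ body (tri a b)) :
    ∃ s t : ℝ, 0 ≤ s ∧ 0 ≤ t ∧ s + t ≤ 1 ∧ y = s + t * tau a b := by
  have h : body (tri a b) ⊆
      {y : ℂ | ∃ s t : ℝ, 0 ≤ s ∧ 0 ≤ t ∧ s + t ≤ 1 ∧ y = s + t * tau a b} := by
    refine convexHull_min ?_ ?_
    · rintro _ ⟨k, rfl⟩
      fin_cases k
      · exact ⟨0, 0, le_rfl, le_rfl, by norm_num, by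
          change (0 : ℂ) = _
          simp⟩
      · exact ⟨1, 0, zero_le_one, le_rfl, by norm_num, by
          change (1 : ℂ) = _
          simp⟩
      · exact ⟨0, 1, le_rfl, zero_le_one, by norm_num, by
          change tau a b = _
          simp⟩
    · rintro _ ⟨s, t, hs, ht, hst, rfl⟩ _ ⟨s', t', hs', ht', hst', rfl⟩ c d hc hd hcd
      refine ⟨c * s + d * s', c * t + d * t', by positivity, by positivity, ?_, ?_⟩
      · have e1 := mul_le_mul_of_nonneg_left hst hc
        have e2 := mul_le_mul_of_nonneg_left hst' hd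
        nlinarith
      · rw [Complex.real_smul, Complex.real_smul]
        push_cast
        ring
  exact h hy

theorem StarA_rho {a b : ℝ} (ha : 0 < a) (hb : 0 < b) (hab : a + b < 1) :
    0 < Real.sin (π * b) / Real.sin (π * (a + b)) := by
  have h2 : 0 < Real.sin (π * b) := by
    apply Real.sin_pos_of_pos_of_lt_pi
    · positivity
    · nlinarith [Real.pi_pos]
  have h3 : 0 < Real.sin (π * (a + b)) := by
    apply Real.sin_pos_of_pos_of_lt_pi
    · positivity
    · nlinarith [Real.pi_pos]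
  exact div_pos h2 h3

theorem StarA_sin {a b : ℝ} (ha : 0 < a) (hb : 0 < b) (hab : a + b < 1) :
    0 < Real.sin (π * a) := by
  apply Real.sin_pos_of_pos_of_lt_pi
  · positivity
  · nlinarith [Real.pi_pos]

/-- the linear form of the side from `0` to `tau` -/
theorem StarA_im {a b : ℝ} (s t : ℝ) :
    (((s : ℂ) + t * tau a b) * Complex.exp ((-(π * a) : ℝ) * Complex.I)).im =
      -(s * Real.sin (π * a)) := by
  have h1 : ((s : ℂ) + t * tau a b) * Complex.exp ((-(π * a) : ℝ) * Complex.I) =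
      (s : ℂ) * Complex.exp ((-(π * a) : ℝ) * Complex.I) +
        ((t * (Real.sin (π * b) / Real.sin (π * (a + b))) : ℝ) : ℂ) := by
    unfold tau
    rw [add_mul]
    congr 1
    have h2 : Complex.exp (π * a * Complex.I) * Complex.exp ((-(π * a) : ℝ) * Complex.I) = 1 := by
      rw [← Complex.exp_add]
      have : (π * a * Complex.I : ℂ) + ((-(π * a) : ℝ) : ℂ) * Complex.I = 0 := by
        push_cast
        ring
      rw [this, Complex.exp_zero]
    push_cast
    push_cast at h2
    linear_combination ((t : ℂ) * (Complex.sin (π * b) / Complex.sin (π * (a + b)))) * h2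
  rw [h1, Complex.add_im, Complex.ofReal_im, add_zero, Complex.im_ofReal_mul,
    Complex.exp_ofReal_mul_I_im, Real.sin_neg]
  ring

theorem StarA_polar (y : ℂ) (x : ℝ) : (y * Complex.exp ((-x : ℝ) * Complex.I)).im =
    ‖y‖ * Real.sin (Complex.arg y - x) := by
  conv_lhs => rw [← Complex.norm_mul_exp_arg_mul_I y]
  rw [mul_assoc, ← Complex.exp_add, Complex.im_ofReal_mul]
  have : (Complex.arg y : ℂ) * Complex.I + ((-x : ℝ) : ℂ) * Complex.I =
      ((Complex.arg y - x : ℝ) : ℂ) * Complex.I := by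
    push_cast
    ring
  rw [this, Complex.exp_ofReal_mul_I_im]

theorem StarA_arg {a b : ℝ} (ha : 0 < a) (hb : 0 < b) (hab : a + b < 1) {y : ℂ}
    (hy : y ∈ body (tri a b)) (h0 : y ≠ 0) :
    0 ≤ Complex.arg y ∧ Complex.arg y ≤ π * a := by
  obtain ⟨s, t, hs, ht, hst, hyst⟩ := StarA_body hy
  have hτ := tau_im_pos ha hb hab
  constructor
  · rw [Complex.arg_nonneg_iff, hyst, Complex.add_im, Complex.ofReal_im,
      Complex.im_ofReal_mul, zero_add]
    positivity
  · by_contra hlt
    push Not at hlt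
    have h1 := StarA_polar y (π * a)
    have h2 : (y * Complex.exp ((-(π * a) : ℝ) * Complex.I)).im = -(s * Real.sin (π * a)) := by
      rw [hyst]
      exact StarA_im s t
    rw [h2] at h1
    have h3 : 0 < Real.sin (Complex.arg y - π * a) := by
      apply Real.sin_pos_of_pos_of_lt_pi
      · linarith
      · have := Complex.arg_le_pi y
        have : 0 < π * a := by positivity
        linarith
    have h4 : 0 < ‖y‖ := norm_pos_iff.2 h0
    have h5 := mul_pos h4 h3
    have h6 := mul_nonneg hs (StarA_sin ha hb hab).le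
    linarith

theorem StarA_edge2 {a b : ℝ} (ha : 0 < a) (hb : 0 < b) (hab : a + b < 1) {y : ℂ}
    (hy : y ∈ body (tri a b)) (h : Complex.arg y = 0) : y ∈ edge (tri a b) 2 := by
  obtain ⟨s, t, hs, ht, hst, hyst⟩ := StarA_body hy
  have hτ := tau_im_pos ha hb hab
  have h1 : y.im = 0 := (Complex.arg_eq_zero_iff.1 h).2
  rw [hyst, Complex.add_im, Complex.ofReal_im, Complex.im_ofReal_mul, zero_add] at h1
  have ht0 : t = 0 := (mul_eq_zero.1 h1).resolve_right hτ.ne'
  rw [ht0, Complex.ofReal_zero, zero_mul, add_zero] at hyst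
  rw [ht0, add_zero] at hst
  change y ∈ segment ℝ (0 : ℂ) 1
  refine ⟨1 - s, s, by linarith, hs, by ring, ?_⟩
  rw [hyst, smul_zero, zero_add, Complex.real_smul, mul_one]

theorem StarA_edge1 {a b : ℝ} (ha : 0 < a) (hb : 0 < b) (hab : a + b < 1) {y : ℂ}
    (hy : y ∈ body (tri a b)) (h : Complex.arg y = π * a) : y ∈ edge (tri a b) 1 := by
  obtain ⟨s, t, hs, ht, hst, hyst⟩ := StarA_body hy
  have h1 := StarA_polar y (π * a)
  have h2 : (y * Complex.exp ((-(π * a) : ℝ) * Complex.I)).im = -(s * Real.sin (π * a)) := by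
    rw [hyst]
    exact StarA_im s t
  rw [h2, h, sub_self, Real.sin_zero, mul_zero, neg_eq_zero] at h1
  have hs0 : s = 0 := (mul_eq_zero.1 h1).resolve_right (StarA_sin ha hb hab).ne'
  rw [hs0, Complex.ofReal_zero, zero_add] at hyst
  rw [hs0, zero_add] at hst
  change y ∈ segment ℝ (tau a b) 0
  refine ⟨t, 1 - t, ht, by linarith, by ring, ?_⟩
  rw [hyst, smul_zero, add_zero, Complex.real_smul]

theorem StarA_ext {y y' : ℂ} (h1 : ‖y‖ = ‖y'‖) (h2 : Complex.arg y = Complex.arg y') : y = y' :=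
  Complex.ext_norm_arg h1 h2

/-- (5.1) -/
theorem star_fund (hp : 0 < p) (hq : 0 < q) (hN : p + q < N) (hd : p ∣ N)
    {g g' : G (TN N p q)} (hg : g⁻¹ * g' ∈ H0 (TN N p q)) {y y' : body (TN N p q)}
    (h : (g : ℂ ≃ₗᵢ[ℝ] ℂ) (y : ℂ) = (g' : ℂ ≃ₗᵢ[ℝ] ℂ) (y' : ℂ)) :
    Surf.mk g y = Surf.mk g' y' := by
  obtain ⟨h1, h2, h3⟩ := Form1_pos hp hq hN
  obtain ⟨k, hk⟩ : ∃ k, k = g⁻¹ * g' := ⟨_, rfl⟩
  have hgk : g' = g * k := by rw [hk]; group
  rw [← hk] at hg
  subst hgk
  have hy : (y : ℂ) = (k : ℂ ≃ₗᵢ[ℝ] ℂ) (y' : ℂ) := by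
    apply (g : ℂ ≃ₗᵢ[ℝ] ℂ).injective
    exact h
  have hnorm : ‖(y : ℂ)‖ = ‖(y' : ℂ)‖ := by
    rw [hy, LinearIsometryEquiv.norm_map]
  by_cases hy0 : (y' : ℂ) = 0
  · have hyy : y = y' := by
      apply Subtype.ext
      rw [hy, hy0, map_zero]
    rw [mk_eq_iff]
    refine ⟨hyy, ?_⟩
    rw [inv_mul_cancel_left]
    have hle : H0 (TN N p q) ≤ Hx (TN N p q) (y : ℂ) := by
      unfold H0 Hx
      rw [Subgroup.closure_le]
      have e0 : (y : ℂ) = 0 := by rw [hyy, hy0]
      rintro x (rfl | hx)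
      · refine Subgroup.subset_closure ⟨1, ?_, rfl⟩
        rw [e0]
        exact right_mem_segment ℝ _ _
      · rw [Set.mem_singleton_iff] at hx
        rw [hx]
        refine Subgroup.subset_closure ⟨2, ?_, rfl⟩
        rw [e0]
        exact left_mem_segment ℝ _ _
    exact hle hg
  have hy0' : (y : ℂ) ≠ 0 := by
    intro h0
    rw [h0, norm_zero] at hnorm
    exact hy0 (norm_eq_zero.1 hnorm.symm)
  have hpos : 0 < ‖(y' : ℂ)‖ := norm_pos_iff.2 hy0
  have hposC : ((‖(y' : ℂ)‖ : ℝ) : ℂ) ≠ 0 := by exact_mod_cast hpos.ne'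
  obtain ⟨a1, a2⟩ := StarA_arg h1 h2 h3 y.2 hy0'
  obtain ⟨b1, b2⟩ := StarA_arg h1 h2 h3 y'.2 hy0
  have hpow := uu_pow_H0 hp hq hN hd hg
  have hn : 0 < N / p := Nat.div_pos (by omega) hp
  have hnx : ((N / p : ℕ) : ℝ) * (π * ((p : ℝ) / N)) = π := by
    have e1 : ((N / p : ℕ) : ℝ) * p = N := by exact_mod_cast Nat.div_mul_cancel hd
    have hN0 : (N : ℝ) ≠ 0 := by
      have : N ≠ 0 := by omega
      exact_mod_cast this
    field_simp
    linarith
  have hnr : (0 : ℝ) < ((N / p : ℕ) : ℝ) := by exact_mod_cast hn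
  have hpi := Real.pi_pos
  have p1 := Complex.norm_mul_exp_arg_mul_I (y : ℂ)
  have p2 := Complex.norm_mul_exp_arg_mul_I (y' : ℂ)
  -- the exponential equation
  have key : ∀ θ : ℝ, uu k = Complex.exp (θ * Complex.I) →
      ∃ m : ℤ, ((N / p : ℕ) : ℝ) * θ = m * (2 * π) := by
    intro θ hθ
    rw [hθ, ← Complex.exp_nat_mul, Complex.exp_eq_one_iff] at hpow
    obtain ⟨m, hm⟩ := hpow
    refine ⟨m, ?_⟩
    have hI : (Complex.I : ℂ) ≠ 0 := Complex.I_ne_zero
    have e1 : (((N / p : ℕ) : ℂ) * θ) * Complex.I = (m * (2 * π)) * Complex.I := by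
      linear_combination hm
    have e2 := mul_right_cancel₀ hI e1
    exact_mod_cast e2
  by_cases hr : rot k
  · have e1 : uu k = Complex.exp (((Complex.arg (y : ℂ) - Complex.arg (y' : ℂ) : ℝ) : ℂ) *
        Complex.I) := by
      have e2 : (y : ℂ) = uu k * (y' : ℂ) := hy.trans (apply_of_rot hr _)
      rw [← p1, ← p2, hnorm] at e2
      have e3 : Complex.exp ((Complex.arg (y : ℂ) : ℂ) * Complex.I) =
          uu k * Complex.exp ((Complex.arg (y' : ℂ) : ℂ) * Complex.I) := by
        apply mul_left_cancel₀ hposC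
        linear_combination e2
      have e4 : (((Complex.arg (y : ℂ) - Complex.arg (y' : ℂ) : ℝ) : ℂ) * Complex.I) =
          (Complex.arg (y : ℂ) : ℂ) * Complex.I - (Complex.arg (y' : ℂ) : ℂ) * Complex.I := by
        push_cast
        ring
      rw [e4, Complex.exp_sub, e3, mul_div_cancel_right₀ _ (Complex.exp_ne_zero _)]
    obtain ⟨m, hm⟩ := key _ e1
    have hm0 : m = 0 := by
      have f1 : ((N / p : ℕ) : ℝ) * (Complex.arg (y : ℂ) - Complex.arg (y' : ℂ)) ≤ π := by
        rw [← hnx]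
        apply mul_le_mul_of_nonneg_left _ hnr.le
        linarith
      have f2 : -π ≤ ((N / p : ℕ) : ℝ) * (Complex.arg (y : ℂ) - Complex.arg (y' : ℂ)) := by
        rw [← hnx, ← mul_neg]
        apply mul_le_mul_of_nonneg_left _ hnr.le
        linarith
      rw [hm] at f1 f2
      have g1 : (m : ℝ) < 1 := by
        by_contra hc
        push Not at hc
        nlinarith
      have g2 : (-1 : ℝ) < m := by
        by_contra hc
        push Not at hc
        nlinarith
      have g1' : m < 1 := by exact_mod_cast g1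
      have g2' : -1 < m := by exact_mod_cast g2
      omega
    rw [hm0, Int.cast_zero, zero_mul] at hm
    have harg : Complex.arg (y : ℂ) = Complex.arg (y' : ℂ) := by
      have := (mul_eq_zero.1 hm).resolve_left hnr.ne'
      linarith
    have hyy : y = y' := Subtype.ext (StarA_ext hnorm harg)
    have hk1 : k = 1 := by
      apply Form1_ext
      · rw [e1, harg, sub_self, Complex.ofReal_zero, zero_mul, Complex.exp_zero, Form1_uu_one]
      · exact iff_of_true hr rot_one
    rw [hyy, hk1, mul_one]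
  · have e1 : uu k = Complex.exp (((Complex.arg (y : ℂ) + Complex.arg (y' : ℂ) : ℝ) : ℂ) *
        Complex.I) := by
      have e2 : (y : ℂ) = uu k * conj (y' : ℂ) := hy.trans (apply_of_not_rot hr _)
      rw [← p1, ← p2, hnorm, map_mul, Complex.conj_ofReal, Form1_exp_conj] at e2
      have e3 : Complex.exp ((Complex.arg (y : ℂ) : ℂ) * Complex.I) =
          uu k * Complex.exp (-(Complex.arg (y' : ℂ) : ℂ) * Complex.I) := by
        apply mul_left_cancel₀ hposC
        linear_combination e2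
      have e4 : (((Complex.arg (y : ℂ) + Complex.arg (y' : ℂ) : ℝ) : ℂ) * Complex.I) =
          (Complex.arg (y : ℂ) : ℂ) * Complex.I - (-(Complex.arg (y' : ℂ) : ℂ) * Complex.I) := by
        push_cast
        ring
      rw [e4, Complex.exp_sub, e3, mul_div_cancel_right₀ _ (Complex.exp_ne_zero _)]
    obtain ⟨m, hm⟩ := key _ e1
    have hm01 : m = 0 ∨ m = 1 := by
      have f1 : ((N / p : ℕ) : ℝ) * (Complex.arg (y : ℂ) + Complex.arg (y' : ℂ)) ≤ 2 * π := by
        have : (2 * π : ℝ) = ((N / p : ℕ) : ℝ) * (2 * (π * ((p : ℝ) / N))) := by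
          linear_combination (-2 : ℝ) * hnx
        rw [this]
        apply mul_le_mul_of_nonneg_left _ hnr.le
        linarith
      have f2 : 0 ≤ ((N / p : ℕ) : ℝ) * (Complex.arg (y : ℂ) + Complex.arg (y' : ℂ)) := by
        apply mul_nonneg hnr.le
        linarith
      rw [hm] at f1 f2
      have g1 : (m : ℝ) < 2 := by
        by_contra hc
        push Not at hc
        nlinarith
      have g2 : (-1 : ℝ) < m := by
        by_contra hc
        push Not at hc
        nlinarith
      have g1' : m < 2 := by exact_mod_cast g1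
      have g2' : -1 < m := by exact_mod_cast g2
      omega
    rcases hm01 with rfl | rfl
    · rw [Int.cast_zero, zero_mul] at hm
      have hsum : Complex.arg (y : ℂ) + Complex.arg (y' : ℂ) = 0 :=
        (mul_eq_zero.1 hm).resolve_left hnr.ne'
      have z1 : Complex.arg (y : ℂ) = 0 := by linarith
      have z2 : Complex.arg (y' : ℂ) = 0 := by linarith
      have hyy : y = y' := Subtype.ext (StarA_ext hnorm (z1.trans z2.symm))
      have hk1 : k = r (TN N p q) 2 := by
        apply Form1_ext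
        · rw [e1, hsum, Complex.ofReal_zero, zero_mul, Complex.exp_zero, Form1_uu_r,
            chi_tri_two h1 h2 h3]
        · exact iff_of_false hr (not_rot_r 2 (tri_ne h1 h2 h3 2))
      rw [hyy, hk1, mk_mul_r g y' 2 (StarA_edge2 h1 h2 h3 y'.2 z2)]
    · have hsum : Complex.arg (y : ℂ) + Complex.arg (y' : ℂ) = 2 * (π * ((p : ℝ) / N)) := by
        apply mul_left_cancel₀ hnr.ne'
        rw [hm]
        push_cast
        linear_combination (-2 : ℝ) * hnx
      have z1 : Complex.arg (y : ℂ) = π * ((p : ℝ) / N) := by linarith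
      have z2 : Complex.arg (y' : ℂ) = π * ((p : ℝ) / N) := by linarith
      have hyy : y = y' := Subtype.ext (StarA_ext hnorm (z1.trans z2.symm))
      have hk1 : k = r (TN N p q) 1 := by
        apply Form1_ext
        · rw [e1, hsum, Form1_uu_r, chi_tri_one h1 h2 h3]
          congr 1
          push_cast
          ring
        · exact iff_of_false hr (not_rot_r 1 (tri_ne h1 h2 h3 1))
      rw [hyy, hk1, mk_mul_r g y' 1 (StarA_edge1 h1 h2 h3 y'.2 z2)]

/-- (5.2) -/
theorem rg_center (hp : 0 < p) (hq : 0 < q) (hN : p + q < N) (hd : p ∣ N)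
    {ξ : Surf (TN N p q)} (hξ : ((proj ξ : body (TN N p q)) : ℂ) = 0) : Rg ξ := by
  obtain ⟨h1, h2, h3⟩ := Form1_pos hp hq hN
  refine ⟨Set.univ, Filter.univ_mem, ?_⟩
  rintro η - η' - d ⟨g, x, y, hx, hy, hd1⟩ ⟨g', x', y', hx', hy', hd1'⟩
  have e1 : x = proj ξ := by rw [← hx, proj_mk]
  have e2 : x' = proj ξ := by rw [← hx', proj_mk]
  have hxx : Surf.mk g x = Surf.mk g' x' := hx.trans hx'.symm
  have hH := ((mk_eq_iff g g' x x').1 hxx).2
  have hx0 : (x : ℂ) = 0 := by rw [e1, hξ]
  have hx0' : (x' : ℂ) = 0 := by rw [e2, hξ]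
  have hle : Hx (TN N p q) (x : ℂ) ≤ H0 (TN N p q) := by
    unfold H0 Hx
    rw [Subgroup.closure_le]
    rintro _ ⟨k, hk, rfl⟩
    rw [hx0] at hk
    fin_cases k
    · exfalso
      have hk' : (0 : ℂ) ∈ segment ℝ (1 : ℂ) (tau ((p : ℝ) / N) ((q : ℝ) / N)) := hk
      obtain ⟨c, d, hc, hd, hcd, he⟩ := hk'
      have hτ := tau_im_pos h1 h2 h3
      have him := congrArg Complex.im he
      have hre := congrArg Complex.re he
      simp only [Complex.real_smul, Complex.add_im, Complex.im_ofReal_mul, Complex.one_im,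
        mul_zero, zero_add, Complex.zero_im] at him
      have hd0 : d = 0 := (mul_eq_zero.1 him).resolve_right hτ.ne'
      simp only [Complex.real_smul, Complex.add_re, Complex.re_ofReal_mul,
        Complex.zero_re, hd0, zero_mul, add_zero, mul_one, Complex.ofReal_re] at hre
      rw [hd0, hre, add_zero] at hcd
      exact zero_ne_one hcd
    · exact Subgroup.subset_closure (Or.inl rfl)
    · exact Subgroup.subset_closure (Or.inr rfl)
  rw [← hy, ← hy']
  apply star_fund hp hq hN hd (hle hH)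
  rw [hx0, sub_zero] at hd1
  rw [hx0', sub_zero] at hd1'
  exact hd1.trans hd1'.symm

end

end Pool.Agent.OBT
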