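import Mathlib
import Pool.Agent.OBT.StarA

/-!
# The star map
-/

open scoped ComplexConjugate Topology Real
open MeasureTheory Filter

namespace Pool.Agent.OBT

noncomputable section

variable {N p q : ℕ} {v : Fin 3 → ℂ}

/-- the copies of the triangle around a point over the vertex `0` -/
def kap (g0 : G v) (j : ℤ) : G v :=
  if Even j then g0 * (r v 1 * r v 2) ^ (j / 2) else g0 * (r v 1 * r v 2) ^ ((j - 1) / 2) * r v 1

/-- the star -/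
def Star (g0 : G v) : Set ℂ :=
  {z | ∃ (j : ℤ) (y : body v), ((kap g0 j : G v) : ℂ ≃ₗᵢ[ℝ] ℂ) (y : ℂ) = z}

private theorem StarM_r1 : r v 1 ∈ H0 v := Subgroup.subset_closure (by simp)

private theorem StarM_r2 : r v 2 ∈ H0 v := Subgroup.subset_closure (by simp)

private theorem StarM_pow (k : ℤ) : (r v 1 * r v 2) ^ k ∈ H0 v :=
  zpow_mem (mul_mem StarM_r1 StarM_r2) k

theorem kap_mem (g0 : G v) (j : ℤ) : g0⁻¹ * kap g0 j ∈ H0 v := by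
  unfold kap
  split_ifs with h
  · rw [inv_mul_cancel_left]
    exact StarM_pow _
  · rw [mul_assoc, inv_mul_cancel_left]
    exact mul_mem (StarM_pow _) StarM_r1

/-- the right flank -/
theorem kap_neg_one (g0 : G v) : kap g0 (-1) = g0 * r v 2 := by
  unfold kap
  have h1 : ¬ Even (-1 : ℤ) := by decide
  have h2 : ((-1 : ℤ) - 1) / 2 = -1 := by norm_num
  have h3 : (r v 2)⁻¹ = r v 2 := by rw [inv_eq_iff_mul_eq_one, r_mul_self]
  rw [if_neg h1, h2, zpow_neg_one, mul_inv_rev, mul_assoc, mul_assoc, inv_mul_cancel, mul_one, h3]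

theorem kap_two_mul (g0 : G v) (k : ℤ) : kap g0 (2 * k) = g0 * (r v 1 * r v 2) ^ k := by
  unfold kap
  rw [if_pos (even_two_mul k), Int.mul_ediv_cancel_left k two_ne_zero]

private theorem StarM_near [Finite (G v)] (z : ℂ) :
    ∀ᶠ w in 𝓝 z, ∀ g : G v, (∃ y : body v, (g : ℂ ≃ₗᵢ[ℝ] ℂ) (y : ℂ) = w) →
      ∃ x : body v, (g : ℂ ≃ₗᵢ[ℝ] ℂ) (x : ℂ) = z := by
  rw [eventually_all]
  intro g
  by_cases hz : ∃ x : body v, (g : ℂ ≃ₗᵢ[ℝ] ℂ) (x : ℂ) = z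
  · exact Eventually.of_forall fun w _ => hz
  · have hc : IsClosed ((fun u : ℂ => (g : ℂ ≃ₗᵢ[ℝ] ℂ) u) '' body v) :=
      (isCompact_body.image (g : ℂ ≃ₗᵢ[ℝ] ℂ).continuous).isClosed
    have hz' : z ∈ ((fun u : ℂ => (g : ℂ ≃ₗᵢ[ℝ] ℂ) u) '' body v)ᶜ := by
      rintro ⟨x, hx, hxz⟩
      exact hz ⟨⟨x, hx⟩, hxz⟩
    filter_upwards [hc.isOpen_compl.mem_nhds hz'] with w hw
    rintro ⟨y, hy⟩
    exact absurd ⟨(y : ℂ), y.2, hy⟩ hw

/-- (5.4) -/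
theorem exists_star_map (hp : 0 < p) (hq : 0 < q) (hN : p + q < N) (hd : p ∣ N)
    (g0 : G (TN N p q)) :
    ∃ S : ℂ → Surf (TN N p q),
      (∀ (j : ℤ) (y : body (TN N p q)),
        S (((kap g0 j : G (TN N p q)) : ℂ ≃ₗᵢ[ℝ] ℂ) (y : ℂ)) = Surf.mk (kap g0 j) y) ∧
      ∀ z ∈ Star g0, ∀ᶠ w in 𝓝[Star g0] z, Dsp (S z) (S w) (w - z) := by
  classical
  have : Finite (G (TN N p q)) := finite_G hp hq hN
  have key : ∀ z : ℂ, ∃ ξ : Surf (TN N p q), ∀ (j : ℤ) (y : body (TN N p q)),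
      ((kap g0 j : G (TN N p q)) : ℂ ≃ₗᵢ[ℝ] ℂ) (y : ℂ) = z → ξ = Surf.mk (kap g0 j) y := by
    intro z
    by_cases h : ∃ (j : ℤ) (y : body (TN N p q)),
        ((kap g0 j : G (TN N p q)) : ℂ ≃ₗᵢ[ℝ] ℂ) (y : ℂ) = z
    · obtain ⟨j, y, hy⟩ := h
      refine ⟨Surf.mk (kap g0 j) y, fun j' y' hy' => ?_⟩
      refine star_fund hp hq hN hd ?_ (hy.trans hy'.symm)
      have h1 := mul_mem (inv_mem (kap_mem g0 j)) (kap_mem g0 j')
      rwa [mul_inv_rev, inv_inv, mul_assoc, mul_inv_cancel_left] at h1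
    · refine ⟨Surf.mk 1 ⟨TN N p q 0, subset_convexHull ℝ _ ⟨0, rfl⟩⟩, fun j y hy => ?_⟩
      exact absurd ⟨j, y, hy⟩ h
  choose S hS using key
  refine ⟨S, fun j y => hS _ j y rfl, ?_⟩
  intro z _
  rw [eventually_nhdsWithin_iff]
  filter_upwards [StarM_near (v := TN N p q) z] with w hw hws
  obtain ⟨j, y, hy⟩ := hws
  obtain ⟨x, hx⟩ := hw (kap g0 j) ⟨y, hy⟩
  refine ⟨kap g0 j, x, y, (hS z j x hx).symm, (hS w j y hy).symm, ?_⟩
  rw [map_sub, hx, hy]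

end

end Pool.Agent.OBT
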