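import Mathlib
import Pool.Agent.OBT.StarA
import Pool.Agent.OBT.StarM
import Pool.Agent.OBT.Sim

/-!
# Star maps around the first and around the second vertex

`TN N p q`, `p ∣ N`: star maps around the vertex `0`;
`TN N p q`, `q ∣ N`: star maps around the vertex `1`.
-/

open scoped ComplexConjugate Topology Real
open MeasureTheory Filter

namespace Pool.Agent.OBT

noncomputable section

variable {N p q : ℕ} {v : Fin 3 → ℂ}

/-! ### Flat maps from fundamental families -/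

/-- the union of the copies `g (body v - o)`, `g ∈ K` -/
def Dom (v : Fin 3 → ℂ) (o : ℂ) (K : Set (G v)) : Set ℂ :=
  {z | ∃ g ∈ K, ∃ y : body v, (g : ℂ ≃ₗᵢ[ℝ] ℂ) ((y : ℂ) - o) = z}

theorem ConvS_near [Finite (G v)] (o z : ℂ) :
    ∀ᶠ w in 𝓝 z, ∀ g : G v, (∃ y : body v, (g : ℂ ≃ₗᵢ[ℝ] ℂ) ((y : ℂ) - o) = w) →
      ∃ x : body v, (g : ℂ ≃ₗᵢ[ℝ] ℂ) ((x : ℂ) - o) = z := by
  rw [eventually_all]
  intro g
  by_cases hz : ∃ x : body v, (g : ℂ ≃ₗᵢ[ℝ] ℂ) ((x : ℂ) - o) = z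
  · exact Eventually.of_forall fun w _ => hz
  · have hc : IsClosed ((fun u : ℂ => (g : ℂ ≃ₗᵢ[ℝ] ℂ) (u - o)) '' body v) := by
      refine (isCompact_body.image ?_).isClosed
      exact (g : ℂ ≃ₗᵢ[ℝ] ℂ).continuous.comp (continuous_id.sub continuous_const)
    have hz' : z ∈ ((fun u : ℂ => (g : ℂ ≃ₗᵢ[ℝ] ℂ) (u - o)) '' body v)ᶜ := by
      rintro ⟨x, hx, hxz⟩
      exact hz ⟨⟨x, hx⟩, hxz⟩
    filter_upwards [hc.isOpen_compl.mem_nhds hz'] with w hw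
    rintro ⟨y, hy⟩
    exact absurd ⟨(y : ℂ), y.2, hy⟩ hw

/-- a family of copies which is consistent gives a flat map -/
theorem exists_flat_map [Finite (G v)] (o : ℂ) (K : Set (G v))
    (hK : ∀ g ∈ K, ∀ g' ∈ K, ∀ y y' : body v,
      (g : ℂ ≃ₗᵢ[ℝ] ℂ) ((y : ℂ) - o) = (g' : ℂ ≃ₗᵢ[ℝ] ℂ) ((y' : ℂ) - o) →
      Surf.mk g y = Surf.mk g' y') :
    ∃ S : ℂ → Surf v,
      (∀ g ∈ K, ∀ y : body v, S ((g : ℂ ≃ₗᵢ[ℝ] ℂ) ((y : ℂ) - o)) = Surf.mk g y) ∧
      ∀ z : ℂ, ∀ᶠ w in 𝓝 z, w ∈ Dom v o K → Dsp (S z) (S w) (w - z) := by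
  classical
  have key : ∀ z : ℂ, ∃ ξ : Surf v, ∀ g ∈ K, ∀ y : body v,
      (g : ℂ ≃ₗᵢ[ℝ] ℂ) ((y : ℂ) - o) = z → ξ = Surf.mk g y := by
    intro z
    by_cases h : ∃ g ∈ K, ∃ y : body v, (g : ℂ ≃ₗᵢ[ℝ] ℂ) ((y : ℂ) - o) = z
    · obtain ⟨g, hg, y, hy⟩ := h
      exact ⟨Surf.mk g y, fun g' hg' y' hy' => hK g hg g' hg' y y' (hy.trans hy'.symm)⟩
    · refine ⟨Surf.mk 1 ⟨v 0, subset_convexHull ℝ _ ⟨0, rfl⟩⟩, fun g hg y hy => ?_⟩
      exact absurd ⟨g, hg, y, hy⟩ h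
  choose S hS using key
  refine ⟨S, fun g hg y => hS _ g hg y rfl, ?_⟩
  intro z
  filter_upwards [ConvS_near (v := v) o z] with w hw hws
  obtain ⟨g, hg, y, hy⟩ := hws
  obtain ⟨x, hx⟩ := hw g ⟨y, hy⟩
  refine ⟨g, x, y, (hS z g hg x hx).symm, (hS w g hg y hy).symm, ?_⟩
  rw [← hx, ← hy, ← map_sub]
  congr 1
  ring

/-! ### The second vertex -/

/-- the group of the copies of the triangle around a point over the vertex `1` -/
def H1 (v : Fin 3 → ℂ) : Subgroup (G v) := Subgroup.closure {r v 0, r v 2}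

theorem tau_swap {a b : ℝ} (ha : 0 < a) (hb : 0 < b) (hab : a + b < 1) :
    tau b a = 1 - conj (tau a b) := by
  have h1 := tau_sub_one ha hb hab
  have h2 : conj (tau a b) = 1 - ((Real.sin (π * a) / Real.sin (π * (a + b)) : ℝ) : ℂ) *
      Complex.exp (π * b * Complex.I) := by
    have h3 : tau a b = 1 - ((Real.sin (π * a) / Real.sin (π * (a + b)) : ℝ) : ℂ) *
      Complex.exp (-(π * b) * Complex.I) := by linear_combination h1
    rw [h3, map_sub, map_one, map_mul, Complex.conj_ofReal]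
    congr 2
    rw [← Complex.exp_conj]
    congr 1
    simp
  rw [h2]
  unfold tau
  rw [add_comm b a]
  ring

/-- `z ↦ -conj z` -/
def negConj : ℂ ≃ₗᵢ[ℝ] ℂ := Complex.conjLIE.trans (LinearIsometryEquiv.neg ℝ)

theorem negConj_apply (z : ℂ) : negConj z = -conj z := rfl

/-- the mirror image which exchanges the vertices `0` and `1` -/
def simSwap (hp : 0 < p) (hq : 0 < q) (hN : p + q < N) : Sim_data (TN N p q) (TN N q p) where
  U := negConj
  c := 1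
  hc := one_ne_zero
  d := 1
  s := Equiv.swap 0 1
  h := by
    obtain ⟨h1, h2, h3⟩ := Form1_pos hp hq hN
    intro k
    fin_cases k
    · show (0 : ℂ) = (1 : ℝ) • negConj (TN N p q (Equiv.swap 0 1 0)) + 1
      rw [Equiv.swap_apply_left, negConj_apply, one_smul]
      show (0 : ℂ) = -conj (1 : ℂ) + 1
      simp
    · show (1 : ℂ) = (1 : ℝ) • negConj (TN N p q (Equiv.swap 0 1 1)) + 1
      rw [Equiv.swap_apply_right, negConj_apply, one_smul]
      show (1 : ℂ) = -conj (0 : ℂ) + 1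
      simp
    · show tau ((q : ℝ) / N) ((p : ℝ) / N) = (1 : ℝ) • negConj (TN N p q (Equiv.swap 0 1 2)) + 1
      rw [Equiv.swap_apply_of_ne_of_ne (by decide) (by decide), negConj_apply, one_smul]
      show tau ((q : ℝ) / N) ((p : ℝ) / N) = -conj (tau ((p : ℝ) / N) ((q : ℝ) / N)) + 1
      rw [tau_swap h1 h2 h3]
      ring

section

variable {v' : Fin 3 → ℂ} (S : Sim_data v v')

theorem Sim_conj_inv (g : G v) : Sim_conj S g⁻¹ = (Sim_conj S g)⁻¹ := by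
  apply Subtype.ext
  show S.U * (g : ℂ ≃ₗᵢ[ℝ] ℂ)⁻¹ * S.U⁻¹ = (S.U * g * S.U⁻¹)⁻¹
  group

theorem Sim_conj_one : Sim_conj S 1 = 1 := by
  apply Subtype.ext
  show S.U * 1 * S.U⁻¹ = 1
  group

end

theorem simSwap_H (hp : 0 < p) (hq : 0 < q) (hN : p + q < N) {h : G (TN N p q)}
    (hh : h ∈ H1 (TN N p q)) : Sim_conj (simSwap hp hq hN) h ∈ H0 (TN N q p) := by
  unfold H1 at hh
  induction hh using Subgroup.closure_induction with
  | mem x hx =>
    rcases hx with rfl | hx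
    · rw [Sim_conj_r]
      have : (simSwap hp hq hN).s.symm 0 = 1 := by
        show (Equiv.swap 0 1).symm 0 = 1
        rw [Equiv.symm_swap, Equiv.swap_apply_left]
      rw [this]
      exact Subgroup.subset_closure (Or.inl rfl)
    · rw [Set.mem_singleton_iff] at hx
      rw [hx, Sim_conj_r]
      have : (simSwap hp hq hN).s.symm 2 = 2 := by
        show (Equiv.swap (0 : Fin 3) 1).symm 2 = 2
        rw [Equiv.symm_swap, Equiv.swap_apply_of_ne_of_ne (by decide) (by decide)]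
      rw [this]
      exact Subgroup.subset_closure (Or.inr rfl)
  | one => rw [Sim_conj_one]; exact Subgroup.one_mem _
  | mul x y hx hy ihx ihy => rw [Sim_conj_mul]; exact Subgroup.mul_mem _ ihx ihy
  | inv x hx ihx => rw [Sim_conj_inv]; exact Subgroup.inv_mem _ ihx

theorem simSwap_apply (hp : 0 < p) (hq : 0 < q) (hN : p + q < N) (g : G (TN N p q))
    (y : body (TN N p q)) :
    ((Sim_conj (simSwap hp hq hN) g : G (TN N q p)) : ℂ ≃ₗᵢ[ℝ] ℂ)
      ((Sim_map (simSwap hp hq hN) y : body (TN N q p)) : ℂ) =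
      negConj ((g : ℂ ≃ₗᵢ[ℝ] ℂ) ((y : ℂ) - 1)) := by
  show negConj ((g : ℂ ≃ₗᵢ[ℝ] ℂ) (negConj⁻¹ ((1 : ℝ) • negConj (y : ℂ) + 1))) = _
  congr 2
  have e1 : (1 : ℝ) • negConj (y : ℂ) + 1 = negConj ((y : ℂ) - 1) := by
    rw [one_smul, negConj_apply, negConj_apply, map_sub, map_one]
    ring
  rw [e1]
  exact negConj.symm_apply_apply _

/-- the copies around a point over the vertex `1` are consistent -/
theorem star_fund_one (hp : 0 < p) (hq : 0 < q) (hN : p + q < N) (hd : q ∣ N)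
    {g g' : G (TN N p q)} (hg : g⁻¹ * g' ∈ H1 (TN N p q)) {y y' : body (TN N p q)}
    (h : (g : ℂ ≃ₗᵢ[ℝ] ℂ) ((y : ℂ) - 1) = (g' : ℂ ≃ₗᵢ[ℝ] ℂ) ((y' : ℂ) - 1)) :
    Surf.mk g y = Surf.mk g' y' := by
  have h1 := simSwap_H hp hq hN hg
  rw [Sim_conj_mul, Sim_conj_inv] at h1
  have h2 := star_fund hq hp (by omega : q + p < N) hd h1
    (y := Sim_map (simSwap hp hq hN) y) (y' := Sim_map (simSwap hp hq hN) y')
    (by rw [simSwap_apply, simSwap_apply, h])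
  rw [← Sim_surf_mk, ← Sim_surf_mk] at h2
  exact (Sim_homeo (simSwap hp hq hN)).injective h2

/-- the points over the vertex `1` are regular -/
theorem rg_center_one (hp : 0 < p) (hq : 0 < q) (hN : p + q < N) (hd : q ∣ N)
    {ξ : Surf (TN N p q)} (hξ : ((proj ξ : body (TN N p q)) : ℂ) = 1) : Rg ξ := by
  obtain ⟨h1, h2, h3⟩ := Form1_pos hp hq hN
  refine ⟨Set.univ, Filter.univ_mem, ?_⟩
  rintro η - η' - d ⟨g, x, y, hx, hy, hd1⟩ ⟨g', x', y', hx', hy', hd1'⟩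
  have e1 : x = proj ξ := by rw [← hx, proj_mk]
  have e2 : x' = proj ξ := by rw [← hx', proj_mk]
  have hxx : Surf.mk g x = Surf.mk g' x' := hx.trans hx'.symm
  have hH := ((mk_eq_iff g g' x x').1 hxx).2
  have hx0 : (x : ℂ) = 1 := by rw [e1, hξ]
  have hx0' : (x' : ℂ) = 1 := by rw [e2, hξ]
  have hle : Hx (TN N p q) (x : ℂ) ≤ H1 (TN N p q) := by
    unfold H1 Hx
    rw [Subgroup.closure_le]
    rintro _ ⟨k, hk, rfl⟩
    rw [hx0] at hk
    fin_cases k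
    · exact Subgroup.subset_closure (Or.inl rfl)
    · exfalso
      have hk' : (1 : ℂ) ∈ segment ℝ (tau ((p : ℝ) / N) ((q : ℝ) / N)) (0 : ℂ) := hk
      obtain ⟨c, d, hc, hd, hcd, he⟩ := hk'
      have hτ := tau_im_pos h1 h2 h3
      have him := congrArg Complex.im he
      simp only [Complex.real_smul, Complex.add_im, Complex.im_ofReal_mul, Complex.one_im,
        mul_zero, add_zero] at him
      have hd0 : c = 0 := (mul_eq_zero.1 him).resolve_right hτ.ne'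
      rw [hd0] at he
      simp at he
    · exact Subgroup.subset_closure (Or.inr rfl)
  rw [← hy, ← hy']
  apply star_fund_one hp hq hN hd (hle hH)
  rw [hx0] at hd1
  rw [hx0'] at hd1'
  exact hd1.trans hd1'.symm

/-! ### The star maps -/

/-- the star map around the point over the vertex `0` of the copy `g0` -/
theorem exists_star_zero (hp : 0 < p) (hq : 0 < q) (hN : p + q < N) (hd : p ∣ N)
    (g0 : G (TN N p q)) :
    ∃ S : ℂ → Surf (TN N p q),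
      (∀ g ∈ {g | g0⁻¹ * g ∈ H0 (TN N p q)}, ∀ y : body (TN N p q),
        S ((g : ℂ ≃ₗᵢ[ℝ] ℂ) ((y : ℂ) - 0)) = Surf.mk g y) ∧
      ∀ z : ℂ, ∀ᶠ w in 𝓝 z, w ∈ Dom (TN N p q) 0 {g | g0⁻¹ * g ∈ H0 (TN N p q)} →
        Dsp (S z) (S w) (w - z) := by
  have : Finite (G (TN N p q)) := finite_G hp hq hN
  apply exists_flat_map
  intro g hg g' hg' y y' h
  refine star_fund hp hq hN hd ?_ (by rwa [sub_zero, sub_zero] at h)
  have h1 := (H0 (TN N p q)).mul_mem ((H0 (TN N p q)).inv_mem hg) hg'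
  rwa [mul_inv_rev, inv_inv, mul_assoc, mul_inv_cancel_left] at h1

/-- the star map around the point over the vertex `1` of the copy `g0` -/
theorem exists_star_one (hp : 0 < p) (hq : 0 < q) (hN : p + q < N) (hd : q ∣ N)
    (g0 : G (TN N p q)) :
    ∃ S : ℂ → Surf (TN N p q),
      (∀ g ∈ {g | g0⁻¹ * g ∈ H1 (TN N p q)}, ∀ y : body (TN N p q),
        S ((g : ℂ ≃ₗᵢ[ℝ] ℂ) ((y : ℂ) - 1)) = Surf.mk g y) ∧
      ∀ z : ℂ, ∀ᶠ w in 𝓝 z, w ∈ Dom (TN N p q) 1 {g | g0⁻¹ * g ∈ H1 (TN N p q)} →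
        Dsp (S z) (S w) (w - z) := by
  have : Finite (G (TN N p q)) := finite_G hp hq hN
  apply exists_flat_map
  intro g hg g' hg' y y' h
  refine star_fund_one hp hq hN hd ?_ h
  have h1 := (H1 (TN N p q)).mul_mem ((H1 (TN N p q)).inv_mem hg) hg'
  rwa [mul_inv_rev, inv_inv, mul_assoc, mul_inv_cancel_left] at h1

/-- the star map `SA`: all copies around the vertex `0` -/
def SA (hp : 0 < p) (hq : 0 < q) (hN : p + q < N) (hd : p ∣ N) (g0 : G (TN N p q)) :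
    ℂ → Surf (TN N p q) := Classical.choose (exists_star_zero hp hq hN hd g0)

theorem SA_mk (hp : 0 < p) (hq : 0 < q) (hN : p + q < N) (hd : p ∣ N) (g0 g : G (TN N p q))
    (hg : g0⁻¹ * g ∈ H0 (TN N p q)) (y : body (TN N p q)) :
    SA hp hq hN hd g0 ((g : ℂ ≃ₗᵢ[ℝ] ℂ) (y : ℂ)) = Surf.mk g y := by
  have h := (Classical.choose_spec (exists_star_zero hp hq hN hd g0)).1 g hg y
  rwa [sub_zero] at h

theorem SA_flat (hp : 0 < p) (hq : 0 < q) (hN : p + q < N) (hd : p ∣ N) (g0 : G (TN N p q))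
    (z : ℂ) : ∀ᶠ w in 𝓝 z, (∃ (g : G (TN N p q)) (y : body (TN N p q)),
        g0⁻¹ * g ∈ H0 (TN N p q) ∧ (g : ℂ ≃ₗᵢ[ℝ] ℂ) (y : ℂ) = w) →
      Dsp (SA hp hq hN hd g0 z) (SA hp hq hN hd g0 w) (w - z) := by
  filter_upwards [(Classical.choose_spec (exists_star_zero hp hq hN hd g0)).2 z] with w hw hw'
  obtain ⟨g, y, hg, hy⟩ := hw'
  exact hw ⟨g, hg, y, by rw [sub_zero, hy]⟩

/-- the star map `SB`: the copies around the vertex `1` of the copy `g0` -/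
def SB (hp : 0 < p) (hq : 0 < q) (hN : p + q < N) (hd : q ∣ N) (g0 : G (TN N p q)) :
    ℂ → Surf (TN N p q) := Classical.choose (exists_star_one hp hq hN hd g0)

theorem SB_mk (hp : 0 < p) (hq : 0 < q) (hN : p + q < N) (hd : q ∣ N) (g0 g : G (TN N p q))
    (hg : g0⁻¹ * g ∈ H1 (TN N p q)) (y : body (TN N p q)) :
    SB hp hq hN hd g0 ((g : ℂ ≃ₗᵢ[ℝ] ℂ) ((y : ℂ) - 1)) = Surf.mk g y :=
  (Classical.choose_spec (exists_star_one hp hq hN hd g0)).1 g hg y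

theorem SB_flat (hp : 0 < p) (hq : 0 < q) (hN : p + q < N) (hd : q ∣ N) (g0 : G (TN N p q))
    (z : ℂ) : ∀ᶠ w in 𝓝 z, (∃ (g : G (TN N p q)) (y : body (TN N p q)),
        g0⁻¹ * g ∈ H1 (TN N p q) ∧ (g : ℂ ≃ₗᵢ[ℝ] ℂ) ((y : ℂ) - 1) = w) →
      Dsp (SB hp hq hN hd g0 z) (SB hp hq hN hd g0 w) (w - z) := by
  filter_upwards [(Classical.choose_spec (exists_star_one hp hq hN hd g0)).2 z] with w hw hw'
  obtain ⟨g, y, hg, hy⟩ := hw'
  exact hw ⟨g, hg, y, hy⟩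

/-- the two star maps agree on common copies -/
theorem SA_eq_SB (hp : 0 < p) (hq : 0 < q) (hN : p + q < N) (hd : p ∣ N) (hd' : q ∣ N)
    (g0 g1 g : G (TN N p q)) (hg0 : g0⁻¹ * g ∈ H0 (TN N p q)) (hg1 : g1⁻¹ * g ∈ H1 (TN N p q))
    (y : body (TN N p q)) (z : ℂ) (hz : z = (g : ℂ ≃ₗᵢ[ℝ] ℂ) (y : ℂ)) :
    SA hp hq hN hd g0 z = SB hp hq hN hd' g1 (z - (g : ℂ ≃ₗᵢ[ℝ] ℂ) 1) := by
  rw [hz, SA_mk hp hq hN hd g0 g hg0 y, ← map_sub, SB_mk hp hq hN hd' g1 g hg1 y]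

end

end Pool.Agent.OBT
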