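import Mathlib

/-!
# Trigonometry of the strips of a regular polygon
-/

open Real

namespace Pool.Agent.OBT

/-- a point of the strip below the side `θ` is on the good side of all other sides -/
theorem CT_poly {ρ ξ θ φ X Y : ℝ} (hρ : 0 ≤ ρ) (hξ : 0 < ξ) (hθ : 0 < θ) (hθ' : θ < π)
    (hφ : 0 ≤ φ) (hφ' : φ ≤ π) (h : φ = θ ∨ φ + 2 * ξ ≤ θ ∨ θ + 2 * ξ ≤ φ)
    (h1 : X * cos θ + |Y| * sin θ ≤ ρ * cos ξ) (h2 : ρ * cos (θ + ξ) ≤ X)
    (h3 : X ≤ ρ * cos (θ - ξ)) : X * cos φ + |Y| * sin φ ≤ ρ * cos ξ := by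
  have hs : 0 < sin θ := sin_pos_of_pos_of_lt_pi hθ hθ'
  have hsφ : 0 ≤ sin φ := sin_nonneg_of_nonneg_of_le_pi hφ hφ'
  rcases h with rfl | h | h
  · exact h1
  · have hs2 : 0 ≤ sin (θ - φ) := sin_nonneg_of_nonneg_of_le_pi (by linarith) (by linarith)
    have e1 : sin θ * (X * cos φ + |Y| * sin φ) =
        sin φ * (X * cos θ + |Y| * sin θ) + sin (θ - φ) * X := by
      rw [sin_sub]
      ring
    have e2 : sin φ * (ρ * cos ξ) + sin (θ - φ) * (ρ * cos (θ - ξ)) =
        sin θ * (ρ * cos (θ - φ - ξ)) := by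
      rw [cos_sub (θ - φ) ξ, cos_sub θ ξ, sin_sub, cos_sub]
      have := sin_sq_add_cos_sq θ
      linear_combination (-(ρ * sin φ * cos ξ)) * this
    have e3 : cos (θ - φ - ξ) ≤ cos ξ :=
      cos_le_cos_of_nonneg_of_le_pi hξ.le (by linarith) (by linarith)
    have e4 : sin θ * (X * cos φ + |Y| * sin φ) ≤ sin θ * (ρ * cos ξ) := by
      rw [e1]
      calc sin φ * (X * cos θ + |Y| * sin θ) + sin (θ - φ) * X
          ≤ sin φ * (ρ * cos ξ) + sin (θ - φ) * (ρ * cos (θ - ξ)) :=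
            add_le_add (mul_le_mul_of_nonneg_left h1 hsφ) (mul_le_mul_of_nonneg_left h3 hs2)
        _ = sin θ * (ρ * cos (θ - φ - ξ)) := e2
        _ ≤ sin θ * (ρ * cos ξ) :=
            mul_le_mul_of_nonneg_left (mul_le_mul_of_nonneg_left e3 hρ) hs.le
    exact le_of_mul_le_mul_left e4 hs
  · have hs2 : 0 ≤ sin (φ - θ) := sin_nonneg_of_nonneg_of_le_pi (by linarith) (by linarith)
    have e1 : sin θ * (X * cos φ + |Y| * sin φ) =
        sin φ * (X * cos θ + |Y| * sin θ) - sin (φ - θ) * X := by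
      rw [sin_sub]
      ring
    have e2 : sin φ * (ρ * cos ξ) - sin (φ - θ) * (ρ * cos (θ + ξ)) =
        sin θ * (ρ * cos (φ - θ - ξ)) := by
      rw [cos_sub (φ - θ) ξ, cos_add θ ξ, sin_sub, cos_sub]
      have := sin_sq_add_cos_sq θ
      linear_combination (-(ρ * sin φ * cos ξ)) * this
    have e3 : cos (φ - θ - ξ) ≤ cos ξ :=
      cos_le_cos_of_nonneg_of_le_pi hξ.le (by linarith) (by linarith)
    have e4 : sin θ * (X * cos φ + |Y| * sin φ) ≤ sin θ * (ρ * cos ξ) := by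
      rw [e1]
      calc sin φ * (X * cos θ + |Y| * sin θ) - sin (φ - θ) * X
          ≤ sin φ * (ρ * cos ξ) - sin (φ - θ) * (ρ * cos (θ + ξ)) :=
            sub_le_sub (mul_le_mul_of_nonneg_left h1 hsφ) (mul_le_mul_of_nonneg_left h2 hs2)
        _ = sin θ * (ρ * cos (φ - θ - ξ)) := e2
        _ ≤ sin θ * (ρ * cos ξ) :=
            mul_le_mul_of_nonneg_left (mul_le_mul_of_nonneg_left e3 hρ) hs.le
    exact le_of_mul_le_mul_left e4 hs

/-- reduction modulo `2 M` to `[0, M]` -/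
theorem CT_red {M : ℤ} (hM : 0 < M) (o : ℤ) :
    ∃ (i t : ℤ), 0 ≤ i ∧ i ≤ M ∧ (i = o - 2 * M * t ∨ i = -(o - 2 * M * t)) := by
  have h1 := Int.emod_nonneg (o + M) (show 2 * M ≠ 0 by omega)
  have h2 := Int.emod_lt_of_pos (o + M) (show 0 < 2 * M by omega)
  have h3 := Int.emod_add_mul_ediv (o + M) (2 * M)
  set r := (o + M) % (2 * M) with hr
  set d := (o + M) / (2 * M) with hd
  have h4 : o - 2 * M * d = r - M := by linarith
  rcases le_or_gt 0 (r - M) with h | h
  · exact ⟨r - M, d, h, by omega, Or.inl h4.symm⟩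
  · exact ⟨-(r - M), d, by omega, by omega, Or.inr (by rw [h4])⟩

variable {N q : ℕ}

theorem CT_Nx (hN : 0 < N) : (N : ℝ) * (π / N) = π := by
  have : (N : ℝ) ≠ 0 := by exact_mod_cast hN.ne'
  field_simp

/-- the angle `o π / N` modulo `2 π` and up to sign -/
theorem CT_cos_red (hN : 0 < N) (o t i : ℤ)
    (h : i = o - 2 * N * t ∨ i = -(o - 2 * N * t)) :
    cos (o * (π / N)) = cos (i * (π / N)) ∧
      (sin (o * (π / N)) = sin (i * (π / N)) ∨ sin (o * (π / N)) = -sin (i * (π / N))) := by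
  have hx := CT_Nx hN
  rcases h with rfl | rfl
  · have e1 : ((o - 2 * N * t : ℤ) : ℝ) * (π / N) = o * (π / N) - t * (2 * π) := by
      push_cast
      linear_combination (-(2 : ℝ) * t) * hx
    rw [e1, cos_sub_int_mul_two_pi, sin_sub_int_mul_two_pi]
    exact ⟨rfl, Or.inl rfl⟩
  · have e1 : ((-(o - 2 * N * t) : ℤ) : ℝ) * (π / N) = -(o * (π / N) - t * (2 * π)) := by
      push_cast
      linear_combination ((2 : ℝ) * t) * hx
    rw [e1, cos_neg, sin_neg, cos_sub_int_mul_two_pi, sin_sub_int_mul_two_pi, neg_neg]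
    exact ⟨rfl, Or.inr rfl⟩

theorem CT_mono (hN : 0 < N) {i j : ℤ} (hi : 0 ≤ i) (hj : j ≤ N) (hij : i ≤ j) :
    cos (j * (π / N)) ≤ cos (i * (π / N)) := by
  have hx := CT_Nx hN
  have hN' : (0 : ℝ) < N := by exact_mod_cast hN
  have hp : 0 < π / N := div_pos pi_pos hN'
  apply cos_le_cos_of_nonneg_of_le_pi
  · have : (0 : ℝ) ≤ i := by exact_mod_cast hi
    positivity
  · have : (j : ℝ) ≤ N := by exact_mod_cast hj
    nlinarith
  · have : (i : ℝ) ≤ j := by exact_mod_cast hij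
    nlinarith

/-- odd multiples of `π / N` -/
theorem CT_odd (hN : 0 < N) (l : ℤ) :
    cos (((2 * l + 1 : ℤ) : ℝ) * (π / N)) ≤ cos (π / N) := by
  obtain ⟨i, t, h0, h1, h2⟩ := CT_red (M := (N : ℤ)) (by exact_mod_cast hN) (2 * l + 1)
  rw [(CT_cos_red hN _ t i h2).1]
  have h3 : 1 ≤ i := by
    rcases h2 with h2 | h2
    · have : i = 2 * (l - N * t) + 1 := by rw [h2]; ring
      omega
    · have : i = 2 * (-(l - N * t)) - 1 := by rw [h2]; ring
      omega
  have h4 := CT_mono hN (i := 1) (j := i) zero_le_one h1 h3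
  rwa [Int.cast_one, one_mul] at h4

/-- odd multiples of `q π / N` -/
theorem CT_oddq (hq : 0 < q) (hN : 0 < N) (hd : q ∣ N) (l : ℤ) :
    cos ((((2 * l + 1) * q : ℤ) : ℝ) * (π / N)) ≤ cos (q * (π / N)) := by
  obtain ⟨n, rfl⟩ := hd
  have hn : 0 < n := Nat.pos_of_mul_pos_left hN
  have h := CT_odd hn l
  have hq' : (q : ℝ) ≠ 0 := by exact_mod_cast hq.ne'
  have hn' : (n : ℝ) ≠ 0 := by exact_mod_cast hn.ne'
  have e1 : (q : ℝ) * (π / ((q * n : ℕ) : ℝ)) = π / n := by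
    push_cast
    field_simp
  have e2 : (((2 * l + 1) * q : ℤ) : ℝ) * (π / ((q * n : ℕ) : ℝ)) = ((2 * l + 1 : ℤ) : ℝ) * (π / n) := by
    push_cast
    field_simp
  rw [e1, e2]
  exact h

/-- a point of the strip number `k` satisfies all inequalities of the polygon -/
theorem CT_poly_int (hq : 0 < q) (hN : 0 < N) (hd : q ∣ N) {k : ℤ} (hk : 0 < k)
    (hk' : 2 * k < N) (h2k : (q : ℤ) ∣ 2 * k) {ρ X Y : ℝ} (hρ : 0 ≤ ρ)
    (h1 : X * cos ((2 * k : ℤ) * (π / N)) + |Y| * sin ((2 * k : ℤ) * (π / N)) ≤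
      ρ * cos (q * (π / N)))
    (h2 : ρ * cos ((2 * k + q : ℤ) * (π / N)) ≤ X)
    (h3 : X ≤ ρ * cos ((2 * k - q : ℤ) * (π / N))) (j : ℤ) (hj : (q : ℤ) ∣ j - k) :
    X * cos ((2 * j : ℤ) * (π / N)) + Y * sin ((2 * j : ℤ) * (π / N)) ≤ ρ * cos (q * (π / N)) := by
  have hx := CT_Nx hN
  have hN' : (0 : ℝ) < N := by exact_mod_cast hN
  have hp : 0 < π / N := div_pos pi_pos hN'
  obtain ⟨i, t, i0, i1, i2⟩ := CT_red (M := (N : ℤ)) (by exact_mod_cast hN) (2 * j)
  obtain ⟨c1, c2⟩ := CT_cos_red hN _ t i i2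
  -- `i` is even
  obtain ⟨i', rfl⟩ : ∃ i' : ℤ, i = 2 * i' := by
    rcases i2 with h | h
    · exact ⟨j - N * t, by rw [h]; ring⟩
    · exact ⟨-(j - N * t), by rw [h]; ring⟩
  have hdvd : (q : ℤ) ∣ i' - k := by
    have hqN : (q : ℤ) ∣ N * t := Dvd.dvd.mul_right (by exact_mod_cast hd) t
    rcases i2 with h | h
    · have : i' - k = (j - k) - N * t := by linarith
      rw [this]
      exact dvd_sub hj hqN
    · have : i' - k = -(j - k) + N * t - 2 * k := by linarith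
      rw [this]
      exact dvd_sub (dvd_add ((dvd_neg).2 hj) hqN) h2k
  have hsin : 0 ≤ sin ((2 * i' : ℤ) * (π / N)) := by
    apply sin_nonneg_of_nonneg_of_le_pi
    · have : (0 : ℝ) ≤ ((2 * i' : ℤ) : ℝ) := by exact_mod_cast i0
      positivity
    · have : ((2 * i' : ℤ) : ℝ) ≤ N := by exact_mod_cast i1
      nlinarith
  have hle : Y * sin ((2 * j : ℤ) * (π / N)) ≤ |Y| * sin ((2 * i' : ℤ) * (π / N)) := by
    have := neg_abs_le Y
    have := le_abs_self Y
    rcases c2 with h | h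
    · rw [h]
      nlinarith
    · rw [h]
      nlinarith
  rw [c1]
  refine le_trans (add_le_add_right hle _) ?_
  have hi : i' = k ∨ i' + q ≤ k ∨ k + q ≤ i' := by
    obtain ⟨u, hu⟩ := hdvd
    have hq' : (0 : ℤ) < q := by exact_mod_cast hq
    rcases lt_trichotomy u 0 with h | h | h
    · right; left
      have : u ≤ -1 := by omega
      nlinarith
    · left
      rw [h, mul_zero] at hu
      omega
    · right; right
      have : 1 ≤ u := by omega
      nlinarith
  have e1 : ((2 * k : ℤ) : ℝ) * (π / N) + q * (π / N) = (2 * k + q : ℤ) * (π / N) := by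
    push_cast
    ring
  have e2 : ((2 * k : ℤ) : ℝ) * (π / N) - q * (π / N) = (2 * k - q : ℤ) * (π / N) := by
    push_cast
    ring
  refine CT_poly (θ := (2 * k : ℤ) * (π / N)) hρ (mul_pos (by exact_mod_cast hq) hp) ?_ ?_ ?_ ?_ ?_
    h1 (by rw [e1]; exact h2) (by rw [e2]; exact h3)
  · have : (0 : ℝ) < ((2 * k : ℤ) : ℝ) := by
      have : (0 : ℤ) < 2 * k := by omega
      exact_mod_cast this
    positivity
  · have : ((2 * k : ℤ) : ℝ) < N := by exact_mod_cast hk'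
    nlinarith
  · have : (0 : ℝ) ≤ ((2 * i' : ℤ) : ℝ) := by exact_mod_cast i0
    positivity
  · have : ((2 * i' : ℤ) : ℝ) ≤ N := by exact_mod_cast i1
    nlinarith
  · rcases hi with h | h | h
    · left
      rw [h]
    · right; left
      have h' : ((2 * i' : ℤ) : ℝ) + 2 * q ≤ (2 * k : ℤ) := by
        have : (2 * i' : ℤ) + 2 * q ≤ 2 * k := by omega
        exact_mod_cast this
      nlinarith
    · right; right
      have h' : ((2 * k : ℤ) : ℝ) + 2 * q ≤ (2 * i' : ℤ) := by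
        have : (2 * k : ℤ) + 2 * q ≤ 2 * i' := by omega
        exact_mod_cast this
      nlinarith

/-- there is no vertex of the polygon inside the strip number `k` -/
theorem CT_level (hq : 0 < q) (hN : 0 < N) (hd : q ∣ N) {k : ℤ} (hk : (q : ℤ) ≤ 2 * k)
    (hk' : 2 * k + q ≤ N) (h2k : (q : ℤ) ∣ 2 * k) (j : ℤ) (hj : (q : ℤ) ∣ j - k)
    (h1 : cos ((2 * k + q : ℤ) * (π / N)) < cos ((2 * j - q : ℤ) * (π / N)))
    (h2 : cos ((2 * j - q : ℤ) * (π / N)) < cos ((2 * k - q : ℤ) * (π / N))) : False := by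
  obtain ⟨i, t, i0, i1, i2⟩ := CT_red (M := (N : ℤ)) (by exact_mod_cast hN) (2 * j - q)
  rw [(CT_cos_red hN _ t i i2).1] at h1 h2
  have h3 : i < 2 * k + q := by
    by_contra h
    push Not at h
    exact absurd (CT_mono hN (by omega) i1 h) (not_le.2 h1)
  have h4 : 2 * k - q < i := by
    by_contra h
    push Not at h
    exact absurd (CT_mono hN i0 (by omega) h) (not_le.2 h2)
  have hq' : (0 : ℤ) < q := by exact_mod_cast hq
  obtain ⟨u, hu⟩ := hj
  obtain ⟨w, hw⟩ := h2k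
  obtain ⟨n, hn⟩ := hd
  have hn' : (N : ℤ) = q * n := by exact_mod_cast hn
  have key : ∃ s : ℤ, i - (2 * k - q) = 2 * q * s := by
    rcases i2 with h | h
    · refine ⟨u - n * t, ?_⟩
      rw [h, hn']
      linear_combination (2 : ℤ) * hu
    · refine ⟨-u - w + 1 + n * t, ?_⟩
      rw [h, hn']
      linear_combination (-2 : ℤ) * hu - (2 : ℤ) * hw
  obtain ⟨s, hs⟩ := key
  have s1 : 0 < s := by
    by_contra h
    push Not at h
    nlinarith
  have s2 : s < 1 := by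
    by_contra h
    push Not at h
    nlinarith
  omega

/-- the choice of the strip -/
theorem CT_band (hq : q = 1 ∨ q = 2) (hN : 2 * q < N) (hd : q ∣ N) (κ : ℤ) {r Y : ℝ}
    (h : ∀ j : ℤ, (q : ℤ) ∣ j - κ →
      r * cos ((2 * j : ℤ) * (π / N)) + Y * sin ((2 * j : ℤ) * (π / N)) ≤ cos (q * (π / N))) :
    ∃ k : ℤ, 0 < k ∧ 2 * k < N ∧ (q : ℤ) ∣ k - κ ∧ cos ((2 * k + q : ℤ) * (π / N)) ≤ r ∧
      r ≤ cos ((2 * k - q : ℤ) * (π / N)) := by
  have hN0 : 0 < N := by omega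
  have hx := CT_Nx hN0
  have hN' : (0 : ℝ) < N := by exact_mod_cast hN0
  have hp : 0 < π / N := div_pos pi_pos hN'
  have hcq : 0 < cos (q * (π / N)) := by
    apply cos_pos_of_mem_Ioo
    constructor
    · have : 0 ≤ (q : ℝ) * (π / N) := by positivity
      linarith [pi_pos]
    · have : (2 : ℝ) * q < N := by exact_mod_cast hN
      nlinarith
  -- nonempty
  have hne : ∃ k : ℤ, 0 < k ∧ 2 * k < N ∧ (q : ℤ) ∣ k - κ ∧ r ≤ cos ((2 * k - q : ℤ) * (π / N)) := by
    have h0 : (q : ℤ) ∣ 0 - κ → ∃ k : ℤ, 0 < k ∧ 2 * k < N ∧ (q : ℤ) ∣ k - κ ∧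
        r ≤ cos ((2 * k - q : ℤ) * (π / N)) := by
      intro h0
      refine ⟨q, ?_, ?_, ?_, ?_⟩
      · rcases hq with rfl | rfl <;> norm_num
      · exact_mod_cast hN
      · have : (q : ℤ) - κ = q + (0 - κ) := by ring
        rw [this]
        exact dvd_add (dvd_refl _) h0
      · have h1 := h 0 h0
        have e1 : ((2 * q - q : ℤ) : ℝ) * (π / N) = q * (π / N) := by
          push_cast
          ring
        rw [e1]
        simpa using h1
    rcases hq with rfl | rfl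
    · exact h0 (by simp)
    · rcases Int.even_or_odd κ with hκ | hκ
      · obtain ⟨c, hc⟩ := hκ
        exact h0 ⟨-c, by rw [hc]; push_cast; ring⟩
      · obtain ⟨c, hc⟩ := hκ
        refine ⟨1, one_pos, by exact_mod_cast (by omega : 2 * 1 < N), ⟨-c, by rw [hc]; push_cast; ring⟩, ?_⟩
        have h1 := h 1 ⟨-c, by rw [hc]; push_cast; ring⟩
        have h2 := h (-1) ⟨-c - 1, by rw [hc]; push_cast; ring⟩
        have e1 : ((2 * 1 : ℤ) : ℝ) * (π / N) = ((2 : ℕ) : ℝ) * (π / N) := by push_cast; ring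
        have e2 : ((2 * (-1) : ℤ) : ℝ) * (π / N) = -(((2 : ℕ) : ℝ) * (π / N)) := by push_cast; ring
        rw [e1] at h1
        rw [e2, cos_neg, sin_neg] at h2
        have h3 : r * cos (((2 : ℕ) : ℝ) * (π / N)) ≤ 1 * cos (((2 : ℕ) : ℝ) * (π / N)) := by
          linarith
        have h4 := le_of_mul_le_mul_right h3 hcq
        have e3 : ((2 * 1 - ((2 : ℕ) : ℤ) : ℤ) : ℝ) * (π / N) = 0 := by push_cast; ring
        rw [e3, cos_zero]
        exact h4
  obtain ⟨k, ⟨k0, k1, k2, k3⟩, hmax⟩ := Int.exists_greatest_of_bdd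
    (P := fun k : ℤ => 0 < k ∧ 2 * k < N ∧ (q : ℤ) ∣ k - κ ∧ r ≤ cos ((2 * k - q : ℤ) * (π / N)))
    ⟨N, fun z hz => by have := hz.1; have := hz.2.1; omega⟩ hne
  refine ⟨k, k0, k1, k2, ?_, k3⟩
  have hkq : (q : ℤ) ∣ (k + q) - κ := by
    have : (k + q) - κ = (k - κ) + q := by ring
    rw [this]
    exact dvd_add k2 (dvd_refl _)
  by_cases hnext : 2 * (k + q) < (N : ℤ)
  · by_contra hlt
    push Not at hlt
    have := hmax (k + q) ⟨by omega, hnext, hkq, by
      have e1 : ((2 * (k + q) - q : ℤ) : ℝ) = (2 * k + q : ℤ) := by push_cast; ring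
      rw [e1]
      exact hlt.le⟩
    rcases hq with rfl | rfl <;> omega
  · have hcase : (N : ℤ) = 2 * k + q ∨ (N : ℤ) = 2 * k + 2 * q := by
      rcases hq with rfl | rfl
      · push_cast at hnext ⊢
        omega
      · obtain ⟨n, hn⟩ := hd
        push_cast at hnext ⊢
        omega
    rcases hcase with hc | hc
    · have hcR : (N : ℝ) = 2 * k + q := by exact_mod_cast hc
      have e0 : ((2 * k + q : ℤ) : ℝ) * (π / N) = π := by
        push_cast
        rw [← hcR]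
        exact hx
      rw [e0, cos_pi]
      have h1 := h k k2
      have h2 := h (k + q) hkq
      have e1 : ((2 * k : ℤ) : ℝ) * (π / N) = π - q * (π / N) := by
        push_cast at e0 ⊢
        linarith
      have e2 : ((2 * (k + q) : ℤ) : ℝ) * (π / N) = π + q * (π / N) := by
        push_cast at e0 ⊢
        linarith
      rw [e1, cos_pi_sub, sin_pi_sub] at h1
      rw [e2, add_comm π, cos_add_pi, sin_add_pi] at h2
      have h3 : (-r) * cos (q * (π / N)) ≤ 1 * cos (q * (π / N)) := by linarith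
      have h4 := le_of_mul_le_mul_right h3 hcq
      linarith
    · have hcR : (N : ℝ) = 2 * k + 2 * q := by exact_mod_cast hc
      have e0 : ((2 * (k + q) : ℤ) : ℝ) * (π / N) = π := by
        have : ((2 * (k + q) : ℤ) : ℝ) = N := by push_cast; linarith
        rw [this]
        exact hx
      have h2 := h (k + q) hkq
      rw [e0, cos_pi, sin_pi] at h2
      have e1 : ((2 * k + q : ℤ) : ℝ) * (π / N) = π - q * (π / N) := by
        push_cast at e0 ⊢
        linarith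
      rw [e1, cos_pi_sub]
      linarith

end Pool.Agent.OBT
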