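import Mathlib
import Pool.Agent.OBT.ConvS
import Pool.Agent.OBT.ConvT

/-!
# The polygons of the triangle `TN N 1 q`, `q ∣ N`

The copies of the triangle around a point over the vertex `0` contain the regular polygon `P`
with `N` sides, the copies around a point over the vertex `1` contain the regular polygon `Q` with
`N / q` sides.
-/

open scoped ComplexConjugate Topology Real
open MeasureTheory Filter

namespace Pool.Agent.OBT

noncomputable section

variable {N q : ℕ}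

/-! ### The group -/

/-- the rotation by `2 j π / N` -/
def RR (N q : ℕ) (j : ℤ) : G (TN N 1 q) := (r (TN N 1 q) 1 * r (TN N 1 q) 2) ^ j

/-- the direction of the spoke number `j` -/
def ee (N : ℕ) (j : ℤ) : ℂ := ⟨Real.cos ((2 * j : ℤ) * (π / N)), Real.sin ((2 * j : ℤ) * (π / N))⟩

theorem ee_re (j : ℤ) : (ee N j).re = Real.cos ((2 * j : ℤ) * (π / N)) := rfl

theorem ee_im (j : ℤ) : (ee N j).im = Real.sin ((2 * j : ℤ) * (π / N)) := rfl

theorem ee_exp (j : ℤ) : ee N j = Complex.exp ((((2 * j : ℤ) : ℝ) * (π / N) : ℝ) * Complex.I) := by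
  apply Complex.ext
  · rw [Complex.exp_ofReal_mul_I_re]
    rfl
  · rw [Complex.exp_ofReal_mul_I_im]
    rfl

theorem ee_zero : ee N 0 = 1 := by
  rw [ee_exp]
  simp

theorem ee_add (i j : ℤ) : ee N (i + j) = ee N i * ee N j := by
  rw [ee_exp, ee_exp, ee_exp, ← Complex.exp_add]
  congr 1
  push_cast
  ring

theorem ee_ne (j : ℤ) : ee N j ≠ 0 := by
  rw [ee_exp]
  exact Complex.exp_ne_zero _

theorem ee_conj (j : ℤ) : conj (ee N j) = ee N (-j) := by
  apply Complex.ext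
  · rw [Complex.conj_re, ee_re, ee_re]
    have : ((2 * -j : ℤ) : ℝ) * (π / N) = -(((2 * j : ℤ) : ℝ) * (π / N)) := by push_cast; ring
    rw [this, Real.cos_neg]
  · rw [Complex.conj_im, ee_im, ee_im]
    have : ((2 * -j : ℤ) : ℝ) * (π / N) = -(((2 * j : ℤ) : ℝ) * (π / N)) := by push_cast; ring
    rw [this, Real.sin_neg]

theorem ee_neg (j : ℤ) : ee N (-j) = (ee N j)⁻¹ := by
  have h : ee N (-j) * ee N j = 1 := by
    rw [← ee_add, neg_add_cancel, ee_zero]
  exact eq_inv_of_mul_eq_one_left h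

theorem ee_norm (j : ℤ) : ‖ee N j‖ = 1 := by
  rw [ee_exp]
  exact Complex.norm_exp_ofReal_mul_I _

section

variable (hq : 0 < q) (hN : 1 + q < N)
include hq hN

theorem ConvP_r0 : rot (r (TN N 1 q) 1 * r (TN N 1 q) 2) ∧
    uu (r (TN N 1 q) 1 * r (TN N 1 q) 2) = ee N 1 := by
  obtain ⟨h1, h2, h3⟩ := Form1_pos one_pos hq hN
  have hr : ∀ k, ¬ rot (r (TN N 1 q) k) := fun k => not_rot_r k (tri_ne h1 h2 h3 k)
  refine ⟨(rot_mul_iff _ _).2 (iff_of_false (hr 1) (hr 2)), ?_⟩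
  rw [uu_mul_of_not_rot _ (hr 1), Form1_uu_r, Form1_uu_r, chi_tri_one h1 h2 h3,
    chi_tri_two h1 h2 h3, map_one, mul_one, ee_exp]
  congr 1
  push_cast
  ring

theorem ConvP_pow (j : ℕ) : rot ((r (TN N 1 q) 1 * r (TN N 1 q) 2) ^ j) ∧
    uu ((r (TN N 1 q) 1 * r (TN N 1 q) 2) ^ j) = ee N j := by
  obtain ⟨h1, h2⟩ := ConvP_r0 hq hN
  induction j with
  | zero =>
    rw [pow_zero]
    exact ⟨rot_one, by rw [Form1_uu_one, Nat.cast_zero, ee_zero]⟩
  | succ n ih =>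
    rw [pow_succ]
    refine ⟨(rot_mul_iff _ _).2 (iff_of_true ih.1 h1), ?_⟩
    rw [uu_mul_of_rot _ ih.1, ih.2, h2, Nat.cast_succ, ee_add]

theorem RR_rot (j : ℤ) : rot (RR N q j) ∧ uu (RR N q j) = ee N j := by
  unfold RR
  obtain ⟨n, rfl | rfl⟩ := j.eq_nat_or_neg
  · rw [zpow_natCast]
    exact ConvP_pow hq hN n
  · obtain ⟨h1, h2⟩ := ConvP_pow hq hN n
    rw [zpow_neg, zpow_natCast]
    set g := (r (TN N 1 q) 1 * r (TN N 1 q) 2) ^ n
    have h3 : rot (g * g⁻¹) := by rw [mul_inv_cancel]; exact rot_one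
    have h4 : rot g⁻¹ := ((rot_mul_iff _ _).1 h3).1 h1
    refine ⟨h4, ?_⟩
    have h5 : uu (g * g⁻¹) = 1 := by rw [mul_inv_cancel]; exact Form1_uu_one
    rw [uu_mul_of_rot _ h1, h2] at h5
    rw [ee_neg]
    exact eq_inv_of_mul_eq_one_right h5

theorem RR_apply (j : ℤ) (z : ℂ) : ((RR N q j : G (TN N 1 q)) : ℂ ≃ₗᵢ[ℝ] ℂ) z = ee N j * z := by
  obtain ⟨h1, h2⟩ := RR_rot hq hN j
  rw [apply_of_rot h1, h2]

theorem RR2_apply (j : ℤ) (z : ℂ) :
    ((RR N q j * r (TN N 1 q) 2 : G (TN N 1 q)) : ℂ ≃ₗᵢ[ℝ] ℂ) z = ee N j * conj z := by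
  obtain ⟨h1, h2, h3⟩ := Form1_pos one_pos hq hN
  rw [Iso_mul, RR_apply hq hN, Iso_r, refl_eq 2 (tri_ne h1 h2 h3 2), chi_tri_two h1 h2 h3, one_mul]

omit hq hN in
/-- the copies along the spoke number `j` -/
def IsR (g : G (TN N 1 q)) (j : ℤ) : Prop := g = RR N q j ∨ g = RR N q j * r (TN N 1 q) 2

theorem exists_isR (g : G (TN N 1 q)) : ∃ j : ℤ, IsR g j := by
  obtain ⟨h1, h2, h3⟩ := Form1_pos one_pos hq hN
  have hr : ¬ rot (r (TN N 1 q) 2) := not_rot_r 2 (tri_ne h1 h2 h3 2)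
  obtain ⟨k, hk⟩ := exists_uu one_pos hq hN g
  have he : uu g = ee N k := by
    rw [hk, ee_exp]
    congr 1
    push_cast
    ring
  obtain ⟨h4, h5⟩ := RR_rot hq hN k
  refine ⟨k, ?_⟩
  by_cases hg : rot g
  · left
    exact Form1_ext (by rw [he, h5]) (iff_of_true hg h4)
  · right
    refine Form1_ext ?_ (iff_of_false hg ?_)
    · rw [uu_mul_of_rot _ h4, h5, Form1_uu_r, chi_tri_two h1 h2 h3, mul_one, he]
    · intro h
      exact hr (((rot_mul_iff _ _).1 h).1 h4)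

theorem isR_one {g : G (TN N 1 q)} {j : ℤ} (h : IsR g j) : (g : ℂ ≃ₗᵢ[ℝ] ℂ) 1 = ee N j := by
  rcases h with rfl | rfl
  · rw [RR_apply hq hN, mul_one]
  · rw [RR2_apply hq hN, map_one, mul_one]

/-- every copy contains the vertex `0` of every other copy -/
theorem H0_top (g : G (TN N 1 q)) : g ∈ H0 (TN N 1 q) := by
  have m1 : r (TN N 1 q) 1 ∈ H0 (TN N 1 q) := Subgroup.subset_closure (Or.inl rfl)
  have m2 : r (TN N 1 q) 2 ∈ H0 (TN N 1 q) := Subgroup.subset_closure (Or.inr rfl)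
  have m3 : ∀ j, RR N q j ∈ H0 (TN N 1 q) := fun j => Subgroup.zpow_mem _ (Subgroup.mul_mem _ m1 m2) j
  obtain ⟨j, rfl | rfl⟩ := exists_isR hq hN g
  · exact m3 j
  · exact Subgroup.mul_mem _ (m3 j) m2

theorem RR_mem_H1 (i : ℤ) : RR N q (q * i) ∈ H1 (TN N 1 q) := by
  obtain ⟨h1, h2, h3⟩ := Form1_pos one_pos hq hN
  have m1 : r (TN N 1 q) 0 ∈ H1 (TN N 1 q) := Subgroup.subset_closure (Or.inl rfl)
  have m2 : r (TN N 1 q) 2 ∈ H1 (TN N 1 q) := Subgroup.subset_closure (Or.inr rfl)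
  have hr : ∀ k, ¬ rot (r (TN N 1 q) k) := fun k => not_rot_r k (tri_ne h1 h2 h3 k)
  have e : RR N q q = r (TN N 1 q) 2 * r (TN N 1 q) 0 := by
    obtain ⟨h4, h5⟩ := RR_rot hq hN q
    refine Form1_ext ?_ (iff_of_true h4 ((rot_mul_iff _ _).2 (iff_of_false (hr 2) (hr 0))))
    rw [h5, uu_mul_of_not_rot _ (hr 2), Form1_uu_r, Form1_uu_r, chi_tri_zero h1 h2 h3,
      chi_tri_two h1 h2 h3, one_mul]
    have h6 : (-(2 * π * ((q : ℝ) / N : ℝ)) * Complex.I : ℂ) =
        ((-(2 * π * ((q : ℝ) / N)) : ℝ) : ℂ) * Complex.I := by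
      push_cast
      ring
    rw [h6, Form1_exp_conj, ee_exp]
    congr 1
    push_cast
    ring
  have e2 : RR N q (q * i) = (RR N q q) ^ i := by
    unfold RR
    rw [zpow_mul]
  rw [e2, e]
  exact Subgroup.zpow_mem _ (Subgroup.mul_mem _ m2 m1) i

theorem isR_H1 {g : G (TN N 1 q)} {j k : ℤ} (h : IsR g j) (hjk : (q : ℤ) ∣ j - k) :
    (RR N q k)⁻¹ * g ∈ H1 (TN N 1 q) := by
  have m2 : r (TN N 1 q) 2 ∈ H1 (TN N 1 q) := Subgroup.subset_closure (Or.inr rfl)
  obtain ⟨i, hi⟩ := hjk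
  have e : (RR N q k)⁻¹ * RR N q j = RR N q (q * i) := by
    unfold RR
    rw [← zpow_neg, ← zpow_add]
    congr 1
    omega
  rcases h with rfl | rfl
  · rw [e]
    exact RR_mem_H1 hq hN i
  · rw [← mul_assoc, e]
    exact Subgroup.mul_mem _ (RR_mem_H1 hq hN i) m2

end

/-! ### The triangle -/

/-- real part of the apex -/
def mT (N q : ℕ) : ℝ := (tau (((1 : ℕ) : ℝ) / N) ((q : ℝ) / N)).re

/-- imaginary part of the apex -/
def bT (N q : ℕ) : ℝ := (tau (((1 : ℕ) : ℝ) / N) ((q : ℝ) / N)).im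

/-- distance from the vertex `0` to the apex -/
def rhoT (N q : ℕ) : ℝ :=
  Real.sin (π * ((q : ℝ) / N)) / Real.sin (π * (((1 : ℕ) : ℝ) / N + (q : ℝ) / N))

/-- distance from the vertex `1` to the apex -/
def sigT (N q : ℕ) : ℝ :=
  Real.sin (π * (((1 : ℕ) : ℝ) / N)) / Real.sin (π * (((1 : ℕ) : ℝ) / N + (q : ℝ) / N))

theorem tau_eq_mb : tau (((1 : ℕ) : ℝ) / N) ((q : ℝ) / N) = ⟨mT N q, bT N q⟩ := rfl

section

variable (hq : 0 < q) (hN : 1 + q < N)
include hq hN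

theorem rhoT_pos : 0 < rhoT N q := by
  obtain ⟨h1, h2, h3⟩ := Form1_pos one_pos hq hN
  exact StarA_rho h1 h2 h3

theorem sigT_pos : 0 < sigT N q := by
  obtain ⟨h1, h2, h3⟩ := Form1_pos one_pos hq hN
  have := StarA_rho h2 h1 (by linarith)
  rw [add_comm] at this
  exact this

omit hq hN in
theorem tau_polar : tau (((1 : ℕ) : ℝ) / N) ((q : ℝ) / N) =
    (rhoT N q : ℂ) * Complex.exp (((π / N : ℝ) : ℂ) * Complex.I) := by
  unfold tau rhoT
  congr 2
  push_cast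
  ring

theorem tau_polar' : tau (((1 : ℕ) : ℝ) / N) ((q : ℝ) / N) =
    1 - (sigT N q : ℂ) * Complex.exp (((-(q * (π / N)) : ℝ) : ℂ) * Complex.I) := by
  obtain ⟨h1, h2, h3⟩ := Form1_pos one_pos hq hN
  have h := tau_sub_one h1 h2 h3
  have e : (-(π * (((q : ℝ) / N : ℝ) : ℂ)) * Complex.I : ℂ) =
      ((-(q * (π / N)) : ℝ) : ℂ) * Complex.I := by
    push_cast
    ring
  rw [e] at h
  unfold sigT
  linear_combination h

omit hq hN in
theorem mT_eq : mT N q = rhoT N q * Real.cos (π / N) := by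
  unfold mT
  rw [tau_polar, Complex.re_ofReal_mul, Complex.exp_ofReal_mul_I_re]

omit hq hN in
theorem bT_eq : bT N q = rhoT N q * Real.sin (π / N) := by
  unfold bT
  rw [tau_polar, Complex.im_ofReal_mul, Complex.exp_ofReal_mul_I_im]

theorem mT_eq' : 1 - mT N q = sigT N q * Real.cos (q * (π / N)) := by
  unfold mT
  rw [tau_polar' hq hN, Complex.sub_re, Complex.one_re, Complex.re_ofReal_mul,
    Complex.exp_ofReal_mul_I_re, Real.cos_neg]
  ring

theorem bT_eq' : bT N q = sigT N q * Real.sin (q * (π / N)) := by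
  unfold bT
  rw [tau_polar' hq hN, Complex.sub_im, Complex.one_im, Complex.im_ofReal_mul,
    Complex.exp_ofReal_mul_I_im, Real.sin_neg]
  ring

theorem bT_pos : 0 < bT N q := by
  obtain ⟨h1, h2, h3⟩ := Form1_pos one_pos hq hN
  exact tau_im_pos h1 h2 h3

theorem ConvP_x : 0 < π / N ∧ (N : ℝ) * (π / N) = π := by
  have hN' : (0 : ℝ) < N := by
    have : 0 < N := by omega
    exact_mod_cast this
  exact ⟨div_pos Real.pi_pos hN', CT_Nx (by omega)⟩

theorem mT_pos : 0 < mT N q := by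
  rw [mT_eq]
  refine mul_pos (rhoT_pos hq hN) ?_
  obtain ⟨h1, h2⟩ := ConvP_x hq hN
  apply Real.cos_pos_of_mem_Ioo
  constructor
  · linarith [Real.pi_pos]
  · have : (2 : ℝ) < N := by
      have : 2 < N := by omega
      exact_mod_cast this
    nlinarith

theorem mT_lt (h2q : 2 * q < N) : mT N q < 1 := by
  have h : 0 < 1 - mT N q := by
    rw [mT_eq' hq hN]
    refine mul_pos (sigT_pos hq hN) ?_
    obtain ⟨h1, h2⟩ := ConvP_x hq hN
    apply Real.cos_pos_of_mem_Ioo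
    constructor
    · have : 0 ≤ (q : ℝ) * (π / N) := by positivity
      linarith [Real.pi_pos]
    · have : (2 : ℝ) * q < N := by exact_mod_cast h2q
      nlinarith
  linarith

end

theorem mem_body_tri {a b s t : ℝ} (hs : 0 ≤ s) (ht : 0 ≤ t) (hst : s + t ≤ 1) :
    (s : ℂ) + t * tau a b ∈ body (tri a b) := by
  have h4 := (convex_body (v := tri a b)).sum_mem (t := Finset.univ)
    (w := ![1 - s - t, s, t]) (z := tri a b)
    (by
      intro i _
      fin_cases i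
      · show 0 ≤ 1 - s - t
        linarith
      · exact hs
      · exact ht)
    (by
      rw [Fin.sum_univ_three]
      show (1 - s - t) + s + t = 1
      ring)
    (fun i _ => vert_mem_body i)
  rw [Fin.sum_univ_three] at h4
  have e : (1 - s - t) • (0 : ℂ) + s • (1 : ℂ) + t • tau a b = (s : ℂ) + t * tau a b := by
    rw [smul_zero, zero_add, Complex.real_smul, Complex.real_smul, mul_one]
  rw [← e]
  exact h4

section

variable (hq : 0 < q) (hN : 1 + q < N) (h2q : 2 * q < N)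
include hq hN h2q

/-- the part of the triangle on the left of the altitude -/
theorem bodyP {y : ℂ} (h0 : 0 ≤ y.im) (h1 : y.re ≤ mT N q)
    (h2 : mT N q * y.im ≤ bT N q * y.re) : y ∈ body (TN N 1 q) := by
  have hb := bT_pos hq hN
  have hm := mT_pos hq hN
  have hm1 := mT_lt hq hN h2q
  have e : y = ((y.re - y.im / bT N q * mT N q : ℝ) : ℂ) +
      ((y.im / bT N q : ℝ) : ℂ) * tau (((1 : ℕ) : ℝ) / N) ((q : ℝ) / N) := by
    rw [tau_eq_mb]
    apply Complex.ext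
    · simp
    · simp
      field_simp
  rw [e]
  have ht : 0 ≤ y.im / bT N q := by positivity
  have hs : 0 ≤ y.re - y.im / bT N q * mT N q := by
    have : y.im / bT N q * mT N q ≤ y.re := by
      rw [div_mul_eq_mul_div, div_le_iff₀ hb]
      linarith
    linarith
  refine mem_body_tri hs ht ?_
  set s := y.re - y.im / bT N q * mT N q
  set t := y.im / bT N q
  have h3 : s + t * mT N q ≤ mT N q := by
    have : s + t * mT N q = y.re := by ring
    rw [this]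
    exact h1
  by_contra h
  push Not at h
  nlinarith

/-- the part of the triangle on the right of the altitude -/
theorem bodyQ {y : ℂ} (h0 : 0 ≤ y.im) (h1 : mT N q ≤ y.re)
    (h2 : (1 - mT N q) * y.im ≤ bT N q * (1 - y.re)) : y ∈ body (TN N 1 q) := by
  have hb := bT_pos hq hN
  have hm := mT_pos hq hN
  have hm1 := mT_lt hq hN h2q
  have e : y = ((y.re - y.im / bT N q * mT N q : ℝ) : ℂ) +
      ((y.im / bT N q : ℝ) : ℂ) * tau (((1 : ℕ) : ℝ) / N) ((q : ℝ) / N) := by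
    rw [tau_eq_mb]
    apply Complex.ext
    · simp
    · simp
      field_simp
  rw [e]
  have ht : 0 ≤ y.im / bT N q := by positivity
  have hst : y.re - y.im / bT N q * mT N q + y.im / bT N q ≤ 1 := by
    have : (1 - mT N q) * (y.im / bT N q) ≤ 1 - y.re := by
      rw [mul_div_assoc', div_le_iff₀ hb]
      linarith
    linarith
  refine mem_body_tri ?_ ht hst
  set s := y.re - y.im / bT N q * mT N q with hs
  set t := y.im / bT N q
  have h3 : mT N q ≤ s + t * mT N q := by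
    have : s + t * mT N q = y.re := by ring
    rw [this]
    exact h1
  by_contra h
  push Not at h
  nlinarith

end

/-! ### Sectors -/

theorem ConvP_sector {α : ℝ} (hα : 0 < α) (z : ℂ) : ∃ (j : ℤ) (φ : ℝ), |φ| ≤ α ∧
    z = (‖z‖ : ℂ) * Complex.exp (((2 * j * α + φ : ℝ) : ℂ) * Complex.I) := by
  refine ⟨round (Complex.arg z / (2 * α)), Complex.arg z - 2 * round (Complex.arg z / (2 * α)) * α, ?_, ?_⟩
  · have h := abs_sub_round (Complex.arg z / (2 * α))
    have e : Complex.arg z - 2 * round (Complex.arg z / (2 * α)) * α =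
        (2 * α) * (Complex.arg z / (2 * α) - round (Complex.arg z / (2 * α))) := by
      field_simp
    rw [e, abs_mul, abs_of_pos (by positivity : 0 < 2 * α)]
    nlinarith
  · have e : (2 * (round (Complex.arg z / (2 * α)) : ℝ) * α +
        (Complex.arg z - 2 * round (Complex.arg z / (2 * α)) * α) : ℝ) = Complex.arg z := by ring
    rw [e]
    exact (Complex.norm_mul_exp_arg_mul_I z).symm

section

variable (hq : 0 < q) (hN : 1 + q < N) (h2q : 2 * q < N)
include hq hN h2q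

/-- the polygon around the vertex `0` consists of copies of the triangle -/
theorem dom_P {z : ℂ} (hz : ∀ j : ℤ, z.re * Real.cos ((2 * j : ℤ) * (π / N)) +
    z.im * Real.sin ((2 * j : ℤ) * (π / N)) ≤ mT N q) :
    ∃ (j : ℤ) (g : G (TN N 1 q)) (y : body (TN N 1 q)), IsR g j ∧
      (g : ℂ ≃ₗᵢ[ℝ] ℂ) (y : ℂ) = z := by
  obtain ⟨hx, hNx⟩ := ConvP_x hq hN
  have hρ := rhoT_pos hq hN
  obtain ⟨j, φ, hφ, he⟩ := ConvP_sector hx z
  have hxpi : π / N < π / 2 := by
    have : (2 : ℝ) < N := by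
      have : 2 < N := by omega
      exact_mod_cast this
    nlinarith
  have hφ1 := abs_le.1 hφ
  have hcos : 0 ≤ Real.cos φ := Real.cos_nonneg_of_neg_pi_div_two_le_of_le (by linarith) (by linarith)
  have hn : 0 ≤ ‖z‖ := norm_nonneg z
  -- the point in the fundamental sector
  set w : ℂ := (‖z‖ : ℂ) * Complex.exp ((φ : ℂ) * Complex.I) with hw
  have hzw : z = ee N j * w := by
    rw [hw, ee_exp]
    conv_lhs => rw [he]
    have : (((2 * j * (π / N) + φ : ℝ) : ℂ) * Complex.I) =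
        ((((2 * j : ℤ) : ℝ) * (π / N) : ℝ) : ℂ) * Complex.I + (φ : ℂ) * Complex.I := by
      push_cast
      ring
    rw [this, Complex.exp_add]
    ring
  have hwre : w.re = ‖z‖ * Real.cos φ := by
    rw [hw, Complex.re_ofReal_mul, Complex.exp_ofReal_mul_I_re]
  have hwim : w.im = ‖z‖ * Real.sin φ := by
    rw [hw, Complex.im_ofReal_mul, Complex.exp_ofReal_mul_I_im]
  have hwm : w.re ≤ mT N q := by
    have h1 := hz j
    have h2 : w = ee N (-j) * z := by
      rw [hzw, ← mul_assoc, ← ee_add, neg_add_cancel, ee_zero, one_mul]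
    have h3 : w.re = z.re * Real.cos ((2 * j : ℤ) * (π / N)) +
        z.im * Real.sin ((2 * j : ℤ) * (π / N)) := by
      rw [h2, ← ee_conj, Complex.mul_re, Complex.conj_re, Complex.conj_im, ee_re, ee_im]
      ring
    rw [h3]
    exact h1
  have hcone : ∀ ψ : ℝ, 0 ≤ ψ → ψ ≤ π / N →
      mT N q * (‖z‖ * Real.sin ψ) ≤ bT N q * (‖z‖ * Real.cos ψ) := by
    intro ψ h0 h1
    rw [mT_eq, bT_eq]
    have h2 : 0 ≤ Real.sin (π / N - ψ) :=
      Real.sin_nonneg_of_nonneg_of_le_pi (by linarith) (by linarith)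
    rw [Real.sin_sub] at h2
    have h3 : 0 ≤ (rhoT N q * ‖z‖) * (Real.sin (π / N) * Real.cos ψ - Real.cos (π / N) * Real.sin ψ) :=
      mul_nonneg (mul_nonneg hρ.le hn) h2
    linarith
  rcases le_or_gt 0 φ with h | h
  · refine ⟨j, RR N q j, ⟨w, bodyP hq hN h2q ?_ hwm ?_⟩, Or.inl rfl, ?_⟩
    · rw [hwim]
      exact mul_nonneg hn (Real.sin_nonneg_of_nonneg_of_le_pi h (by linarith))
    · rw [hwim, hwre]
      exact hcone φ h (by linarith)
    · rw [RR_apply hq hN]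
      exact hzw.symm
  · refine ⟨j, RR N q j * r (TN N 1 q) 2, ⟨conj w, bodyP hq hN h2q ?_ ?_ ?_⟩, Or.inr rfl, ?_⟩
    · rw [Complex.conj_im, hwim, ← mul_neg, ← Real.sin_neg]
      exact mul_nonneg hn (Real.sin_nonneg_of_nonneg_of_le_pi (by linarith) (by linarith))
    · rw [Complex.conj_re]
      exact hwm
    · rw [Complex.conj_im, Complex.conj_re, hwim, hwre, ← mul_neg, ← Real.sin_neg, ← Real.cos_neg]
      exact hcone (-φ) (by linarith) (by linarith)
    · rw [RR2_apply hq hN]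
      simp only [Complex.conj_conj]
      exact hzw.symm

/-- the polygon around the vertex `1` consists of copies of the triangle -/
theorem dom_Q (k : ℤ) {z : ℂ} (hz : ∀ j : ℤ, (q : ℤ) ∣ j - k →
    -(z.re * Real.cos ((2 * j : ℤ) * (π / N)) +
      z.im * Real.sin ((2 * j : ℤ) * (π / N))) ≤ 1 - mT N q) :
    ∃ (j : ℤ) (g : G (TN N 1 q)) (y : body (TN N 1 q)), (q : ℤ) ∣ j - k ∧ IsR g j ∧
      (g : ℂ ≃ₗᵢ[ℝ] ℂ) ((y : ℂ) - 1) = z := by
  obtain ⟨hx, hNx⟩ := ConvP_x hq hN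
  have hσ := sigT_pos hq hN
  have hq' : (0 : ℝ) < q := by exact_mod_cast hq
  have hqx : 0 < (q : ℝ) * (π / N) := by positivity
  obtain ⟨i, φ, hφ, he⟩ := ConvP_sector hqx (-z * ee N (-k))
  have hxpi : (q : ℝ) * (π / N) < π / 2 := by
    have : (2 : ℝ) * q < N := by exact_mod_cast h2q
    nlinarith
  have hφ1 := abs_le.1 hφ
  have hcos : 0 ≤ Real.cos φ := Real.cos_nonneg_of_neg_pi_div_two_le_of_le (by linarith) (by linarith)
  have hn : 0 ≤ ‖z‖ := norm_nonneg z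
  have hnorm : ‖-z * ee N (-k)‖ = ‖z‖ := by rw [norm_mul, norm_neg, ee_norm, mul_one]
  rw [hnorm] at he
  set w : ℂ := (‖z‖ : ℂ) * Complex.exp ((φ : ℂ) * Complex.I) with hw
  set j : ℤ := k + q * i with hj
  have hjk : (q : ℤ) ∣ j - k := ⟨i, by rw [hj]; ring⟩
  have hzw : z = -(ee N j * w) := by
    have h1 : -z * ee N (-k) = ee N (q * i) * w := by
      rw [he, hw, ee_exp]
      have : (((2 * i * (q * (π / N)) + φ : ℝ) : ℂ) * Complex.I) =
          ((((2 * (q * i) : ℤ) : ℝ) * (π / N) : ℝ) : ℂ) * Complex.I + (φ : ℂ) * Complex.I := by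
        push_cast
        ring
      rw [this, Complex.exp_add]
      ring
    have h2 : ee N k * ee N (-k) = 1 := by rw [← ee_add, add_neg_cancel, ee_zero]
    rw [hj, ee_add]
    linear_combination (-(ee N k)) * h1 + (-z) * h2
  have hwre : w.re = ‖z‖ * Real.cos φ := by
    rw [hw, Complex.re_ofReal_mul, Complex.exp_ofReal_mul_I_re]
  have hwim : w.im = ‖z‖ * Real.sin φ := by
    rw [hw, Complex.im_ofReal_mul, Complex.exp_ofReal_mul_I_im]
  have hwm : w.re ≤ 1 - mT N q := by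
    have h1 := hz j hjk
    have h2 : w = -(ee N (-j) * z) := by
      rw [hzw, mul_neg, neg_neg, ← mul_assoc, ← ee_add, neg_add_cancel, ee_zero, one_mul]
    have h3 : w.re = -(z.re * Real.cos ((2 * j : ℤ) * (π / N)) +
        z.im * Real.sin ((2 * j : ℤ) * (π / N))) := by
      rw [h2, ← ee_conj, Complex.neg_re, Complex.mul_re, Complex.conj_re, Complex.conj_im, ee_re,
        ee_im]
      ring
    rw [h3]
    exact h1
  have hcone : ∀ ψ : ℝ, 0 ≤ ψ → ψ ≤ q * (π / N) →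
      (1 - mT N q) * (‖z‖ * Real.sin ψ) ≤ bT N q * (‖z‖ * Real.cos ψ) := by
    intro ψ h0 h1
    rw [mT_eq' hq hN, bT_eq' hq hN]
    have h2 : 0 ≤ Real.sin (q * (π / N) - ψ) :=
      Real.sin_nonneg_of_nonneg_of_le_pi (by linarith) (by linarith)
    rw [Real.sin_sub] at h2
    have h3 : 0 ≤ (sigT N q * ‖z‖) *
        (Real.sin (q * (π / N)) * Real.cos ψ - Real.cos (q * (π / N)) * Real.sin ψ) :=
      mul_nonneg (mul_nonneg hσ.le hn) h2
    linarith
  rcases le_or_gt φ 0 with h | h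
  · refine ⟨j, RR N q j, ⟨1 - w, bodyQ hq hN h2q ?_ ?_ ?_⟩, hjk, Or.inl rfl, ?_⟩
    · rw [Complex.sub_im, Complex.one_im, hwim]
      have : 0 ≤ Real.sin (-φ) := Real.sin_nonneg_of_nonneg_of_le_pi (by linarith) (by linarith)
      rw [Real.sin_neg] at this
      nlinarith
    · rw [Complex.sub_re, Complex.one_re]
      linarith
    · rw [Complex.sub_im, Complex.one_im, Complex.sub_re, Complex.one_re, hwim, hwre]
      have := hcone (-φ) (by linarith) (by linarith)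
      rw [Real.sin_neg, Real.cos_neg] at this
      linarith
    · rw [RR_apply hq hN]
      show ee N j * (1 - w - 1) = z
      rw [hzw]
      ring
  · refine ⟨j, RR N q j * r (TN N 1 q) 2, ⟨1 - conj w, bodyQ hq hN h2q ?_ ?_ ?_⟩, hjk, Or.inr rfl,
      ?_⟩
    · rw [Complex.sub_im, Complex.one_im, Complex.conj_im, hwim]
      have : 0 ≤ Real.sin φ := Real.sin_nonneg_of_nonneg_of_le_pi (by linarith) (by linarith)
      nlinarith
    · rw [Complex.sub_re, Complex.one_re, Complex.conj_re]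
      linarith
    · rw [Complex.sub_im, Complex.one_im, Complex.sub_re, Complex.one_re, Complex.conj_im,
        Complex.conj_re, hwim, hwre]
      have := hcone φ (by linarith) (by linarith)
      linarith
    · rw [RR2_apply hq hN]
      show ee N j * conj (1 - conj w - 1) = z
      rw [hzw, map_sub, map_sub, Complex.conj_conj, map_one]
      ring

/-- gluing: the side number `k` of the polygon around `0` is a side of the polygon around `1` -/
theorem side_mem (k : ℤ) {z : ℂ} (h1 : z.re * Real.cos ((2 * k : ℤ) * (π / N)) +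
    z.im * Real.sin ((2 * k : ℤ) * (π / N)) = mT N q)
    (h2 : |z.im * Real.cos ((2 * k : ℤ) * (π / N)) - z.re * Real.sin ((2 * k : ℤ) * (π / N))| ≤
      bT N q) :
    ∃ (g : G (TN N 1 q)) (y : body (TN N 1 q)), IsR g k ∧ (g : ℂ ≃ₗᵢ[ℝ] ℂ) (y : ℂ) = z := by
  have hm := mT_pos hq hN
  set w : ℂ := ee N (-k) * z with hw
  have hzw : z = ee N k * w := by
    rw [hw, ← mul_assoc, ← ee_add, add_neg_cancel, ee_zero, one_mul]
  have hwre : w.re = mT N q := by
    rw [hw, ← ee_conj, Complex.mul_re, Complex.conj_re, Complex.conj_im, ee_re, ee_im, ← h1]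
    ring
  have hwim : w.im = z.im * Real.cos ((2 * k : ℤ) * (π / N)) -
      z.re * Real.sin ((2 * k : ℤ) * (π / N)) := by
    rw [hw, ← ee_conj, Complex.mul_im, Complex.conj_re, Complex.conj_im, ee_re, ee_im]
    ring
  rw [← hwim] at h2
  have h3 := abs_le.1 h2
  rcases le_or_gt 0 w.im with h | h
  · refine ⟨RR N q k, ⟨w, bodyP hq hN h2q h hwre.le ?_⟩, Or.inl rfl, ?_⟩
    · rw [hwre, mul_comm]
      exact mul_le_mul_of_nonneg_right h3.2 hm.le
    · rw [RR_apply hq hN]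
      exact hzw.symm
  · refine ⟨RR N q k * r (TN N 1 q) 2, ⟨conj w, bodyP hq hN h2q ?_ ?_ ?_⟩, Or.inr rfl, ?_⟩
    · rw [Complex.conj_im]
      linarith
    · rw [Complex.conj_re]
      exact hwre.le
    · rw [Complex.conj_re, Complex.conj_im, hwre, mul_comm]
      exact mul_le_mul_of_nonneg_right (by linarith) hm.le
    · rw [RR2_apply hq hN]
      simp only [Complex.conj_conj]
      exact hzw.symm

end

/-! ### Positions of points of copies -/

section

variable (hq : 0 < q) (hN : 1 + q < N)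
include hq hN

/-- the height of the apex in the polygon around `0` -/
theorem apex_P {g : G (TN N 1 q)} {i : ℤ} (hg : IsR g i) : ∃ j : ℤ,
    (g : ℂ ≃ₗᵢ[ℝ] ℂ) (tau (((1 : ℕ) : ℝ) / N) ((q : ℝ) / N)) =
      (rhoT N q : ℂ) * Complex.exp (((((2 * j - 1 : ℤ) : ℝ) * (π / N) : ℝ) : ℂ) * Complex.I) := by
  rcases hg with rfl | rfl
  · refine ⟨i + 1, ?_⟩
    rw [RR_apply hq hN, tau_polar, ee_exp, mul_left_comm, ← Complex.exp_add]
    congr 2
    push_cast
    ring
  · refine ⟨i, ?_⟩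
    rw [RR2_apply hq hN, tau_polar, ee_exp, map_mul, Complex.conj_ofReal, Form1_exp_conj,
      mul_left_comm, ← Complex.exp_add]
    congr 2
    push_cast
    ring

/-- the height of the apex in the polygon around `1` -/
theorem apex_Q {g : G (TN N 1 q)} {i : ℤ} (hg : IsR g i) : ∃ j : ℤ, (q : ℤ) ∣ j - i ∧
    (g : ℂ ≃ₗᵢ[ℝ] ℂ) (tau (((1 : ℕ) : ℝ) / N) ((q : ℝ) / N) - 1) =
      -((sigT N q : ℂ) * Complex.exp (((((2 * j - q : ℤ) : ℝ) * (π / N) : ℝ) : ℂ) * Complex.I)) := by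
  have e : tau (((1 : ℕ) : ℝ) / N) ((q : ℝ) / N) - 1 =
      -((sigT N q : ℂ) * Complex.exp (((-(q * (π / N)) : ℝ) : ℂ) * Complex.I)) := by
    rw [tau_polar' hq hN]
    ring
  rcases hg with rfl | rfl
  · refine ⟨i, by rw [sub_self]; exact dvd_zero _, ?_⟩
    rw [RR_apply hq hN, e, ee_exp, mul_neg, mul_left_comm, ← Complex.exp_add]
    congr 3
    push_cast
    ring
  · refine ⟨i + q, ⟨1, by ring⟩, ?_⟩
    rw [RR2_apply hq hN, e, ee_exp, map_neg, map_mul, Complex.conj_ofReal, Form1_exp_conj, mul_neg,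
      mul_left_comm, ← Complex.exp_add]
    congr 3
    push_cast
    ring

/-- the left part of a copy is contained in the polygon around `0` -/
theorem poly_P (g : G (TN N 1 q)) (y : body (TN N 1 q)) (hy : (y : ℂ).re ≤ mT N q) (j : ℤ) :
    ((g : ℂ ≃ₗᵢ[ℝ] ℂ) (y : ℂ)).re * Real.cos ((2 * j : ℤ) * (π / N)) +
      ((g : ℂ ≃ₗᵢ[ℝ] ℂ) (y : ℂ)).im * Real.sin ((2 * j : ℤ) * (π / N)) ≤ mT N q := by
  obtain ⟨s, t, hs, ht, hst, he⟩ := StarA_body y.2
  have hρ := rhoT_pos hq hN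
  obtain ⟨i, hi⟩ := exists_isR hq hN g
  have e1 : ∀ z : ℂ, z.re * Real.cos ((2 * j : ℤ) * (π / N)) + z.im * Real.sin ((2 * j : ℤ) * (π / N)) =
      (ee N (-j) * z).re := by
    intro z
    rw [← ee_conj, Complex.mul_re, Complex.conj_re, Complex.conj_im, ee_re, ee_im]
    ring
  rw [e1, he, map_add]
  have hg1 := isR_one hq hN hi
  have e2 : (g : ℂ ≃ₗᵢ[ℝ] ℂ) (s : ℂ) = s * ee N i := by
    have : (s : ℂ) = s • (1 : ℂ) := by rw [Complex.real_smul, mul_one]
    rw [this, map_smul, hg1, Complex.real_smul, this, Complex.real_smul, mul_one]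
  have e3 : (g : ℂ ≃ₗᵢ[ℝ] ℂ) (t * tau (((1 : ℕ) : ℝ) / N) ((q : ℝ) / N)) =
      t * (g : ℂ ≃ₗᵢ[ℝ] ℂ) (tau (((1 : ℕ) : ℝ) / N) ((q : ℝ) / N)) := by
    rw [← Complex.real_smul, map_smul, Complex.real_smul]
  obtain ⟨l, hl⟩ := apex_P hq hN hi
  rw [e2, e3, hl, mul_add, Complex.add_re]
  have e4 : (ee N (-j) * (s * ee N i)).re = s * Real.cos ((2 * (i - j) : ℤ) * (π / N)) := by
    rw [mul_left_comm, ← ee_add, Complex.re_ofReal_mul, ee_re]
    congr 2
    push_cast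
    ring
  have e5 : (ee N (-j) * (t * ((rhoT N q : ℂ) *
      Complex.exp (((((2 * l - 1 : ℤ) : ℝ) * (π / N) : ℝ) : ℂ) * Complex.I)))).re =
      t * (rhoT N q * Real.cos ((2 * (l - j - 1) + 1 : ℤ) * (π / N))) := by
    rw [mul_left_comm, Complex.re_ofReal_mul, mul_left_comm, Complex.re_ofReal_mul, ee_exp,
      ← Complex.exp_add]
    congr 2
    have : (((((2 * -j : ℤ) : ℝ) * (π / N) : ℝ) : ℂ) * Complex.I +
        ((((2 * l - 1 : ℤ) : ℝ) * (π / N) : ℝ) : ℂ) * Complex.I) =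
        ((((2 * (l - j - 1) + 1 : ℤ) : ℝ) * (π / N) : ℝ) : ℂ) * Complex.I := by
      push_cast
      ring
    rw [this, Complex.exp_ofReal_mul_I_re]
  rw [e4, e5]
  have h1 := Real.cos_le_one (((2 * (i - j) : ℤ) : ℝ) * (π / N))
  have h2 := CT_odd (N := N) (by omega) (l - j - 1)
  have h3 : (y : ℂ).re = s + t * mT N q := by
    rw [he, tau_eq_mb]
    simp
  have h4 : t * (rhoT N q * Real.cos (((2 * (l - j - 1) + 1 : ℤ) : ℝ) * (π / N))) ≤ t * mT N q := by
    rw [mT_eq]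
    exact mul_le_mul_of_nonneg_left (mul_le_mul_of_nonneg_left h2 hρ.le) ht
  have h5 : s * Real.cos (((2 * (i - j) : ℤ) : ℝ) * (π / N)) ≤ s * 1 :=
    mul_le_mul_of_nonneg_left h1 hs
  linarith

/-- the right part of a copy is contained in the polygon around `1` -/
theorem poly_Q (hd : q ∣ N) {g : G (TN N 1 q)} {i : ℤ} (hi : IsR g i) (y : body (TN N 1 q))
    (hy : mT N q ≤ (y : ℂ).re) (j : ℤ) (hj : (q : ℤ) ∣ j - i) :
    -(((g : ℂ ≃ₗᵢ[ℝ] ℂ) ((y : ℂ) - 1)).re * Real.cos ((2 * j : ℤ) * (π / N)) +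
      ((g : ℂ ≃ₗᵢ[ℝ] ℂ) ((y : ℂ) - 1)).im * Real.sin ((2 * j : ℤ) * (π / N))) ≤ 1 - mT N q := by
  obtain ⟨s, t, hs, ht, hst, he⟩ := StarA_body y.2
  have hσ := sigT_pos hq hN
  have e1 : ∀ z : ℂ, z.re * Real.cos ((2 * j : ℤ) * (π / N)) + z.im * Real.sin ((2 * j : ℤ) * (π / N)) =
      (ee N (-j) * z).re := by
    intro z
    rw [← ee_conj, Complex.mul_re, Complex.conj_re, Complex.conj_im, ee_re, ee_im]
    ring
  have e0 : (y : ℂ) - 1 = -((1 - s - t : ℝ) : ℂ) +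
      t * (tau (((1 : ℕ) : ℝ) / N) ((q : ℝ) / N) - 1) := by
    rw [he]
    push_cast
    ring
  rw [e1, e0, map_add, map_neg]
  have hg1 := isR_one hq hN hi
  have e2 : (g : ℂ ≃ₗᵢ[ℝ] ℂ) ((1 - s - t : ℝ) : ℂ) = (1 - s - t : ℝ) * ee N i := by
    have h : ∀ s : ℝ, (g : ℂ ≃ₗᵢ[ℝ] ℂ) (s : ℂ) = s * ee N i := by
      intro s
      have : (s : ℂ) = s • (1 : ℂ) := by rw [Complex.real_smul, mul_one]
      rw [this, map_smul, hg1, Complex.real_smul, this, Complex.real_smul, mul_one]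
    exact h _
  have e3 : (g : ℂ ≃ₗᵢ[ℝ] ℂ) (t * (tau (((1 : ℕ) : ℝ) / N) ((q : ℝ) / N) - 1)) =
      t * (g : ℂ ≃ₗᵢ[ℝ] ℂ) (tau (((1 : ℕ) : ℝ) / N) ((q : ℝ) / N) - 1) := by
    rw [← Complex.real_smul, map_smul, Complex.real_smul]
  obtain ⟨l, hli, hl⟩ := apex_Q hq hN hi
  rw [e2, e3, hl, mul_add, Complex.add_re]
  have e4 : (ee N (-j) * -(((1 - s - t : ℝ) : ℂ) * ee N i)).re =
      -((1 - s - t) * Real.cos ((2 * (i - j) : ℤ) * (π / N))) := by
    rw [mul_neg, Complex.neg_re, mul_left_comm, ← ee_add, Complex.re_ofReal_mul, ee_re]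
    congr 3
    push_cast
    ring
  obtain ⟨u, hu⟩ := hj
  obtain ⟨w, hw⟩ := hli
  have e5 : (ee N (-j) * (t * -((sigT N q : ℂ) *
      Complex.exp (((((2 * l - q : ℤ) : ℝ) * (π / N) : ℝ) : ℂ) * Complex.I)))).re =
      -(t * (sigT N q * Real.cos (((2 * (w - u - 1) + 1) * q : ℤ) * (π / N)))) := by
    rw [mul_neg, mul_neg, Complex.neg_re, mul_left_comm, Complex.re_ofReal_mul, mul_left_comm,
      Complex.re_ofReal_mul, ee_exp, ← Complex.exp_add]
    congr 3
    have : (((((2 * -j : ℤ) : ℝ) * (π / N) : ℝ) : ℂ) * Complex.I +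
        ((((2 * l - q : ℤ) : ℝ) * (π / N) : ℝ) : ℂ) * Complex.I) =
        (((((2 * (w - u - 1) + 1) * q : ℤ) : ℝ) * (π / N) : ℝ) : ℂ) * Complex.I := by
      have h1 : 2 * -j + (2 * l - q) = (2 * (w - u - 1) + 1) * q := by
        linear_combination (2 : ℤ) * hw - (2 : ℤ) * hu
      rw [← h1]
      push_cast
      ring
    rw [this, Complex.exp_ofReal_mul_I_re]
  rw [e4, e5]
  have h1 := Real.cos_le_one (((2 * (i - j) : ℤ) : ℝ) * (π / N))
  have h2 := CT_oddq (N := N) hq (by omega) hd (w - u - 1)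
  have h3 : (y : ℂ).re = s + t * mT N q := by
    rw [he, tau_eq_mb]
    simp
  have h4 : t * (sigT N q * Real.cos ((((2 * (w - u - 1) + 1) * q : ℤ) : ℝ) * (π / N))) ≤
      t * (1 - mT N q) := by
    rw [mT_eq' hq hN]
    exact mul_le_mul_of_nonneg_left (mul_le_mul_of_nonneg_left h2 hσ.le) ht
  have h5 : (1 - s - t) * Real.cos (((2 * (i - j) : ℤ) : ℝ) * (π / N)) ≤ (1 - s - t) * 1 :=
    mul_le_mul_of_nonneg_left h1 (by linarith)
  linarith

end

/-! ### The star maps -/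

section

variable (hq : 0 < q) (hN : 1 + q < N) (hd : q ∣ N)

/-- the star map of the polygon around `0` -/
def SP : ℂ → Surf (TN N 1 q) := SA one_pos hq hN (one_dvd N) 1

/-- the star map of the polygon around `1` -/
def SQ (k : ℤ) : ℂ → Surf (TN N 1 q) := SB one_pos hq hN hd (RR N q k)

theorem SP_mk (g : G (TN N 1 q)) (y : body (TN N 1 q)) :
    SP hq hN ((g : ℂ ≃ₗᵢ[ℝ] ℂ) (y : ℂ)) = Surf.mk g y :=
  SA_mk one_pos hq hN (one_dvd N) 1 g (H0_top hq hN _) y

theorem SQ_mk {k j : ℤ} (hj : (q : ℤ) ∣ j - k) {g : G (TN N 1 q)} (hg : IsR g j)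
    (y : body (TN N 1 q)) : SQ hq hN hd k ((g : ℂ ≃ₗᵢ[ℝ] ℂ) ((y : ℂ) - 1)) = Surf.mk g y :=
  SB_mk one_pos hq hN hd (RR N q k) g (isR_H1 hq hN hg hj) y

theorem SP_flat (h2q : 2 * q < N) (z : ℂ) : ∀ᶠ w in 𝓝 z,
    (∀ j : ℤ, w.re * Real.cos ((2 * j : ℤ) * (π / N)) +
      w.im * Real.sin ((2 * j : ℤ) * (π / N)) ≤ mT N q) →
    Dsp (SP hq hN z) (SP hq hN w) (w - z) := by
  filter_upwards [SA_flat one_pos hq hN (one_dvd N) 1 z] with w hw hw'
  obtain ⟨j, g, y, hg, hy⟩ := dom_P hq hN h2q hw'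
  exact hw ⟨g, y, H0_top hq hN _, hy⟩

theorem SQ_flat (h2q : 2 * q < N) (k : ℤ) (z : ℂ) : ∀ᶠ w in 𝓝 z,
    (∀ j : ℤ, (q : ℤ) ∣ j - k → -(w.re * Real.cos ((2 * j : ℤ) * (π / N)) +
      w.im * Real.sin ((2 * j : ℤ) * (π / N))) ≤ 1 - mT N q) →
    Dsp (SQ hq hN hd k z) (SQ hq hN hd k w) (w - z) := by
  filter_upwards [SB_flat one_pos hq hN hd (RR N q k) z] with w hw hw'
  obtain ⟨j, g, y, hj, hg, hy⟩ := dom_Q hq hN h2q k hw'
  exact hw ⟨g, y, isR_H1 hq hN hg hj, hy⟩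

/-- gluing along the side number `j` -/
theorem SP_eq_SQ (h2q : 2 * q < N) {k j : ℤ} (hj : (q : ℤ) ∣ j - k) {z : ℂ}
    (h1 : z.re * Real.cos ((2 * j : ℤ) * (π / N)) +
      z.im * Real.sin ((2 * j : ℤ) * (π / N)) = mT N q)
    (h2 : |z.im * Real.cos ((2 * j : ℤ) * (π / N)) - z.re * Real.sin ((2 * j : ℤ) * (π / N))| ≤
      bT N q) : SP hq hN z = SQ hq hN hd k (z - ee N j) := by
  obtain ⟨g, y, hg, hy⟩ := side_mem hq hN h2q j h1 h2
  have e : z - ee N j = (g : ℂ ≃ₗᵢ[ℝ] ℂ) ((y : ℂ) - 1) := by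
    rw [map_sub, isR_one hq hN hg, hy]
  rw [e, SQ_mk hq hN hd hj hg, ← hy, SP_mk]

end

end

end Pool.Agent.OBT
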