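import Mathlib
import Pool.Agent.OBT.CylA
import Pool.Agent.OBT.Form1

/-!
# Singular vertices
-/

open scoped ComplexConjugate Topology Real
open MeasureTheory Filter

namespace Pool.Agent.OBT

noncomputable section

variable {N p q : ℕ}

private theorem StarV_pow {v : Fin 3 → ℂ} {g : G v} (hg : rot g) (j : ℕ) :
    rot (g ^ j) ∧ uu (g ^ j) = uu g ^ j := by
  induction j with
  | zero => exact ⟨by rw [pow_zero]; exact rot_one, by rw [pow_zero, pow_zero, Form1_uu_one]⟩
  | succ n ih =>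
    refine ⟨by rw [pow_succ]; exact (rot_mul_iff _ _).2 (iff_of_true ih.1 hg), ?_⟩
    rw [pow_succ, uu_mul_of_rot _ ih.1, ih.2, pow_succ]

private theorem StarV_key {v : Fin 3 → ℂ} {x : body v} (g h : G v) (hh : h ∈ Hx v (x : ℂ))
    {A B : ℂ} (hA : A ∈ body v) (hB : B ∈ body v) {u : ℂ} {α β α' β' : ℝ} (hα : 0 ≤ α)
    (hβ : 0 ≤ β) (hα' : 0 ≤ α') (hβ' : 0 ≤ β')
    (hu : u = α * (A - x) + β * (B - x))
    (hu' : (h : ℂ ≃ₗᵢ[ℝ] ℂ) u = α' * (A - x) + β' * (B - x))
    (hne : (h : ℂ ≃ₗᵢ[ℝ] ℂ) u ≠ u) : ¬ Rg (Surf.mk g x) := by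
  rintro ⟨U, hU, hinj⟩
  have key : ∀ (k : G v) (w : ℂ) (a b : ℝ), 0 ≤ a → 0 ≤ b → w = a * (A - x) + b * (B - x) →
      Surf.mk k x = Surf.mk g x →
      ∀ᶠ t : ℝ in 𝓝[>] (0 : ℝ), ∃ y : body v, (y : ℂ) = x + t * w ∧ Surf.mk k y ∈ U := by
    intro k w a b ha hb hw hk
    have hc : ContinuousAt (fun x : body v => Surf.mk k x) x := (continuous_mk k).continuousAt
    have hU' : U ∈ 𝓝 (Surf.mk k x) := by rw [hk]; exact hU
    have h1 := hc.preimage_mem_nhds hU'
    rw [Metric.mem_nhds_iff] at h1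
    obtain ⟨δ, hδ, h2⟩ := h1
    have e1 : ∀ᶠ t in 𝓝[>] (0 : ℝ), t * ‖w‖ < δ := by
      have : Tendsto (fun t : ℝ => t * ‖w‖) (𝓝[>] (0 : ℝ)) (𝓝 0) := by
        have h3 : Tendsto (fun t : ℝ => t * ‖w‖) (𝓝 (0 : ℝ)) (𝓝 (0 * ‖w‖)) :=
          (continuous_id.mul continuous_const).tendsto 0
        rw [zero_mul] at h3
        exact h3.mono_left nhdsWithin_le_nhds
      exact this.eventually (gt_mem_nhds hδ)
    have e2 : ∀ᶠ t in 𝓝[>] (0 : ℝ), t * (a + b) < 1 := by
      have : Tendsto (fun t : ℝ => t * (a + b)) (𝓝[>] (0 : ℝ)) (𝓝 0) := by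
        have h3 : Tendsto (fun t : ℝ => t * (a + b)) (𝓝 (0 : ℝ)) (𝓝 (0 * (a + b))) :=
          (continuous_id.mul continuous_const).tendsto 0
        rw [zero_mul] at h3
        exact h3.mono_left nhdsWithin_le_nhds
      exact this.eventually (gt_mem_nhds one_pos)
    filter_upwards [e1, e2, self_mem_nhdsWithin] with t t1 t2 t3
    have t3' : 0 < t := t3
    have hmem : (x : ℂ) + t * w ∈ body v := by
      have h4 := (convex_body (v := v)).sum_mem (t := Finset.univ)
        (w := ![1 - t * a - t * b, t * a, t * b]) (z := ![(x : ℂ), A, B])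
        (by
          intro i _
          fin_cases i
          · show 0 ≤ 1 - t * a - t * b
            linarith
          · show 0 ≤ t * a
            positivity
          · show 0 ≤ t * b
            positivity)
        (by
          rw [Fin.sum_univ_three]
          show 1 - t * a - t * b + t * a + t * b = 1
          ring)
        (by
          intro i _
          fin_cases i
          · exact x.2
          · exact hA
          · exact hB)
      rw [Fin.sum_univ_three] at h4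
      have h5 : (x : ℂ) + t * w = (1 - t * a - t * b) • (x : ℂ) + (t * a) • A + (t * b) • B := by
        rw [hw]
        simp only [Complex.real_smul]
        push_cast
        ring
      rw [h5]
      exact h4
    refine ⟨⟨(x : ℂ) + t * w, hmem⟩, rfl, ?_⟩
    apply h2
    rw [Metric.mem_ball, Subtype.dist_eq, dist_eq_norm]
    show ‖(x : ℂ) + t * w - x‖ < δ
    rw [add_sub_cancel_left, norm_mul, Complex.norm_real, Real.norm_of_nonneg t3'.le]
    exact t1
  have hgh : Surf.mk (g * h) x = Surf.mk g x := by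
    rw [mk_eq_iff]
    refine ⟨rfl, ?_⟩
    have : (g * h)⁻¹ * g = h⁻¹ := by group
    rw [this]
    exact Subgroup.inv_mem _ hh
  have k1 := key (g * h) u α β hα hβ hu hgh
  have k2 := key g ((h : ℂ ≃ₗᵢ[ℝ] ℂ) u) α' β' hα' hβ' hu' rfl
  have k3 : ∀ᶠ t in 𝓝[>] (0 : ℝ), 0 < t := self_mem_nhdsWithin
  obtain ⟨t, ⟨⟨y, hy, hyU⟩, ⟨y', hy', hyU'⟩⟩, ht⟩ := ((k1.and k2).and k3).exists
  have d1 : Dsp (Surf.mk g x) (Surf.mk (g * h) y)
      ((g : ℂ ≃ₗᵢ[ℝ] ℂ) (t * (h : ℂ ≃ₗᵢ[ℝ] ℂ) u)) := by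
    refine ⟨g * h, x, y, hgh, rfl, ?_⟩
    rw [hy, add_sub_cancel_left, Iso_mul]
    congr 1
    rw [← Complex.real_smul, ← Complex.real_smul, map_smul]
  have d2 : Dsp (Surf.mk g x) (Surf.mk g y')
      ((g : ℂ ≃ₗᵢ[ℝ] ℂ) (t * (h : ℂ ≃ₗᵢ[ℝ] ℂ) u)) := by
    refine ⟨g, x, y', rfl, rfl, ?_⟩
    rw [hy', add_sub_cancel_left]
  have e := hinj _ hyU _ hyU' _ d1 d2
  have e1 := congrArg (fun ξ : Surf v => ((proj ξ : body v) : ℂ)) e
  simp only [proj_mk] at e1
  rw [hy, hy'] at e1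
  have e2 := add_left_cancel e1
  have ht' : (t : ℂ) ≠ 0 := by exact_mod_cast ht.ne'
  exact hne (mul_left_cancel₀ ht' e2).symm

private theorem StarV_cone (s φ t : ℝ) :
    (Real.sin (t - φ) : ℂ) * Complex.exp (s * Complex.I) +
      (Real.sin (φ - s) : ℂ) * Complex.exp (t * Complex.I) =
    (Real.sin (t - s) : ℂ) * Complex.exp (φ * Complex.I) := by
  simp only [Complex.exp_mul_I, ← Complex.ofReal_cos, ← Complex.ofReal_sin, Real.sin_sub]
  push_cast
  ring

private theorem StarV_main {v : Fin 3 → ℂ} {x : body v} (g h : G v) (hh : h ∈ Hx v (x : ℂ))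
    {A B : ℂ} (hA : A ∈ body v) (hB : B ∈ body v) {ca cb s t φ ε : ℝ} (hca : 0 < ca)
    (hcb : 0 < cb) (eA : A - x = ca * Complex.exp (s * Complex.I))
    (eB : B - x = cb * Complex.exp (t * Complex.I)) (h1 : s < t) (h2 : t - s < π)
    (hε : 0 < ε) (hφ1 : s ≤ φ - ε) (hφ2 : φ + ε ≤ t)
    (hr : ∀ z : ℂ, (h : ℂ ≃ₗᵢ[ℝ] ℂ) z = Complex.exp ((2 * φ : ℝ) * Complex.I) * conj z) :
    ¬ Rg (Surf.mk g x) := by
  have hs : 0 < Real.sin (t - s) := Real.sin_pos_of_pos_of_lt_pi (by linarith) h2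
  have hex : ∀ ψ : ℝ, s ≤ ψ → ψ ≤ t → ∃ α β : ℝ, 0 ≤ α ∧ 0 ≤ β ∧
      Complex.exp (ψ * Complex.I) = α * (A - x) + β * (B - x) := by
    intro ψ hψ1 hψ2
    have s1 : 0 ≤ Real.sin (t - ψ) := Real.sin_nonneg_of_nonneg_of_le_pi (by linarith) (by linarith)
    have s2 : 0 ≤ Real.sin (ψ - s) := Real.sin_nonneg_of_nonneg_of_le_pi (by linarith) (by linarith)
    refine ⟨Real.sin (t - ψ) / (Real.sin (t - s) * ca), Real.sin (ψ - s) / (Real.sin (t - s) * cb),
      by positivity, by positivity, ?_⟩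
    rw [eA, eB]
    have hs' : (Real.sin (t - s) : ℂ) ≠ 0 := by exact_mod_cast hs.ne'
    have hca' : (ca : ℂ) ≠ 0 := by exact_mod_cast hca.ne'
    have hcb' : (cb : ℂ) ≠ 0 := by exact_mod_cast hcb.ne'
    have hc := StarV_cone s ψ t
    apply mul_left_cancel₀ hs'
    rw [← hc]
    simp only [Complex.ofReal_div, Complex.ofReal_mul]
    field_simp
  obtain ⟨α, β, a1, a2, a3⟩ := hex (φ + ε) (by linarith) hφ2
  obtain ⟨α', β', b1, b2, b3⟩ := hex (φ - ε) hφ1 (by linarith)
  have hu : (h : ℂ ≃ₗᵢ[ℝ] ℂ) (Complex.exp ((φ + ε : ℝ) * Complex.I)) =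
      Complex.exp ((φ - ε : ℝ) * Complex.I) := by
    rw [hr, Form1_exp_conj, ← Complex.exp_add]
    congr 1
    push_cast
    ring
  refine StarV_key g h hh hA hB a1 a2 b1 b2 a3 (hu.trans b3) ?_
  rw [hu]
  intro h3
  rw [Complex.exp_eq_exp_iff_exists_int] at h3
  obtain ⟨n, hn⟩ := h3
  have h4 : φ - ε = φ + ε + n * (2 * π) := by
    have h5 : ((φ - ε : ℝ) : ℂ) * Complex.I = ((φ + ε + n * (2 * π) : ℝ) : ℂ) * Complex.I := by
      rw [hn]
      push_cast
      ring
    exact_mod_cast mul_right_cancel₀ Complex.I_ne_zero h5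
  have h5 : ε = -(n : ℝ) * π := by linarith
  have h6 : (0 : ℝ) < -(n : ℝ) := by
    by_contra h7
    push Not at h7
    nlinarith [Real.pi_pos]
  have h7 : -(n : ℝ) < 1 := by
    by_contra h8
    push Not at h8
    nlinarith [Real.pi_pos]
  have h8 : (0 : ℤ) < -n := by exact_mod_cast h6
  have h9 : -n < (1 : ℤ) := by exact_mod_cast h7
  omega

/-- the isometries used -/
private theorem StarV_iso {v : Fin 3 → ℂ} (hv : ∀ k : Fin 3, v (k + 1) ≠ v (k + 2)) (k l m : Fin 3)
    {x y z : ℝ} (hk : chi v k = Complex.exp (x * Complex.I))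
    (hl : chi v l = Complex.exp (y * Complex.I)) (hm : chi v m = Complex.exp (z * Complex.I))
    (j : ℕ) (w : ℂ) :
    (((r v k * r v l) ^ j * r v m : G v) : ℂ ≃ₗᵢ[ℝ] ℂ) w =
      Complex.exp ((j * (x - y) + z : ℝ) * Complex.I) * conj w := by
  have hr : ∀ k, ¬ rot (r v k) := fun k => not_rot_r k (hv k)
  have h1 : rot (r v k * r v l) := (rot_mul_iff _ _).2 (iff_of_false (hr k) (hr l))
  obtain ⟨h2, h3⟩ := StarV_pow h1 j
  rw [Iso_mul, apply_of_rot h2, h3, uu_mul_of_not_rot _ (hr k), Form1_uu_r, Form1_uu_r,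
    apply_of_not_rot (hr m), Form1_uu_r, hk, hl, hm, Form1_exp_conj, ← Complex.exp_add,
    ← Complex.exp_nat_mul, ← mul_assoc, ← Complex.exp_add]
  congr 2
  push_cast
  ring

/-- (7.1) for the third vertex -/
theorem not_rg_tau (hp : 0 < p) (hq : 0 < q) (hN : 2 * (p + q) < N)
    {ξ : Surf (TN N p q)}
    (hξ : ((proj ξ : body (TN N p q)) : ℂ) = tau ((p : ℝ) / N) ((q : ℝ) / N)) : ¬ Rg ξ := by
  obtain ⟨ha, hb, hab⟩ := Form1_pos (N := N) hp hq (by omega)
  have hN0 : (0 : ℝ) < N := by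
    have : 0 < N := by omega
    exact_mod_cast this
  have hNN : (N : ℝ) ≠ 0 := hN0.ne'
  obtain ⟨g, x, rfl⟩ := mk_surjective ξ
  rw [proj_mk] at hξ
  -- Bezout
  obtain ⟨j, _, hj⟩ : ∃ j < N, (p + q) * j % N = Nat.gcd (p + q) N := by
    apply Nat.exists_mul_mod_eq_gcd
    have := Nat.gcd_le_left N (show 0 < p + q by omega)
    omega
  set d := Nat.gcd (p + q) N with hd
  have hd0 : 0 < d := Nat.gcd_pos_of_pos_left _ (by omega)
  have hdle : d + 1 + p + q ≤ N := by
    have := Nat.gcd_le_left N (show 0 < p + q by omega)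
    omega
  have hmod := Nat.mod_add_div ((p + q) * j) N
  rw [hj] at hmod
  set m : ℕ := (p + q) * j / N with hm
  have hmodR : (d : ℝ) + N * m = (p + q) * j := by exact_mod_cast hmod
  have hd0R : (1 : ℝ) ≤ d := by exact_mod_cast hd0
  have hdleR : (d : ℝ) + 1 + p + q ≤ N := by exact_mod_cast hdle
  have hp0R : (0 : ℝ) < p := by exact_mod_cast hp
  have hq0R : (0 : ℝ) < q := by exact_mod_cast hq
  have hpi := Real.pi_pos
  have hsum : 0 < Real.sin (π * ((p : ℝ) / N + (q : ℝ) / N)) := SC3_sin_pos (by positivity) hab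
  have hsa : 0 < Real.sin (π * ((p : ℝ) / N)) := SC3_sin_pos ha (by linarith)
  have hsb : 0 < Real.sin (π * ((q : ℝ) / N)) := SC3_sin_pos hb (by linarith)
  refine StarV_main (x := x) g ((r _ 1 * r _ 0) ^ j * r _ 1) ?_ (A := 0) (B := 1)
    (vert_mem_body (v := TN N p q) 0) (vert_mem_body (v := TN N p q) 1)
    (ca := Real.sin (π * ((q : ℝ) / N)) / Real.sin (π * ((p : ℝ) / N + (q : ℝ) / N)))
    (cb := Real.sin (π * ((p : ℝ) / N)) / Real.sin (π * ((p : ℝ) / N + (q : ℝ) / N)))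
    (s := π * ((N + p) / N)) (t := π * ((2 * N - q) / N)) (φ := π * ((N + p + d) / N))
    (ε := π * (1 / N))
    (div_pos hsb hsum) (div_pos hsa hsum) ?_ ?_ ?_ ?_ (by positivity) ?_ ?_ ?_
  · have h0 : r (TN N p q) 0 ∈ Hx (TN N p q) (x : ℂ) := by
      refine Subgroup.subset_closure ⟨0, ?_, rfl⟩
      rw [hξ]
      exact right_mem_segment ℝ _ _
    have h1 : r (TN N p q) 1 ∈ Hx (TN N p q) (x : ℂ) := by
      refine Subgroup.subset_closure ⟨1, ?_, rfl⟩
      rw [hξ]
      exact left_mem_segment ℝ _ _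
    exact Subgroup.mul_mem _ (Subgroup.pow_mem _ (Subgroup.mul_mem _ h1 h0) _) h1
  · rw [hξ]
    have h1 : ((π * ((N + p) / N) : ℝ) : ℂ) * Complex.I =
        π * ((p / N : ℝ) : ℂ) * Complex.I + π * Complex.I := by
      have : (π * ((N + p) / N) : ℝ) = π * (p / N) + π := by field_simp; ring
      rw [this]
      push_cast
      ring
    rw [h1, Complex.exp_add, Complex.exp_pi_mul_I]
    unfold tau
    ring
  · rw [hξ]
    have h1 : ((π * ((2 * N - q) / N) : ℝ) : ℂ) * Complex.I =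
        -(π * ((q / N : ℝ) : ℂ)) * Complex.I + 2 * π * Complex.I := by
      have : (π * ((2 * N - q) / N) : ℝ) = -(π * (q / N)) + 2 * π := by field_simp; ring
      rw [this]
      push_cast
      ring
    rw [h1, Complex.exp_add, Complex.exp_two_pi_mul_I, mul_one]
    have h2 := tau_sub_one ha hb hab
    have h3 : (1 : ℂ) - tau ((p : ℝ) / N) ((q : ℝ) / N) =
      -(tau ((p : ℝ) / N) ((q : ℝ) / N) - 1) := by ring
    rw [h3, h2]
    ring
  · apply mul_lt_mul_of_pos_left _ hpi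
    rw [div_lt_div_iff_of_pos_right hN0]
    linarith
  · rw [← mul_sub, ← sub_div]
    have : (2 * (N : ℝ) - q - (N + p)) / N < 1 := by
      rw [div_lt_one hN0]
      linarith
    nlinarith
  · rw [← mul_sub, ← sub_div]
    apply mul_le_mul_of_nonneg_left _ hpi.le
    rw [div_le_div_iff_of_pos_right hN0]
    linarith
  · rw [← mul_add, ← add_div]
    apply mul_le_mul_of_nonneg_left _ hpi.le
    rw [div_le_div_iff_of_pos_right hN0]
    linarith
  · intro z
    have hx : chi (TN N p q) 1 = Complex.exp ((2 * π * (p / N) : ℝ) * Complex.I) := by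
      rw [chi_tri_one ha hb hab]
      push_cast
      rfl
    have hy : chi (TN N p q) 0 = Complex.exp ((-(2 * π * (q / N)) : ℝ) * Complex.I) := by
      rw [chi_tri_zero ha hb hab]
      push_cast
      rfl
    rw [StarV_iso (tri_ne ha hb hab) 1 0 1 hx hy hx]
    congr 1
    have h1 : (((j : ℝ) * (2 * π * (p / N) - -(2 * π * (q / N))) + 2 * π * (p / N) : ℝ) : ℂ) *
        Complex.I = ((2 * (π * ((N + p + d) / N)) : ℝ) : ℂ) * Complex.I +
          ((m : ℤ) - 1 : ℤ) * (2 * π * Complex.I) := by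
      have : ((j : ℝ) * (2 * π * (p / N) - -(2 * π * (q / N))) + 2 * π * (p / N) : ℝ) =
          2 * (π * ((N + p + d) / N)) + ((m : ℝ) - 1) * (2 * π) := by
        field_simp
        linear_combination (-1) * hmodR
      rw [this]
      push_cast
      ring
    rw [h1, Complex.exp_add, Complex.exp_int_mul_two_pi_mul_I, mul_one]

/-- (7.1) for the second vertex -/
theorem not_rg_one (hp : 0 < p) (hq : 0 < q) (hN : 2 * (p + q) < N) (hd : ¬ q ∣ N)
    {ξ : Surf (TN N p q)} (hξ : ((proj ξ : body (TN N p q)) : ℂ) = 1) : ¬ Rg ξ := by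
  obtain ⟨ha, hb, hab⟩ := Form1_pos (N := N) hp hq (by omega)
  have hN0 : (0 : ℝ) < N := by
    have : 0 < N := by omega
    exact_mod_cast this
  have hNN : (N : ℝ) ≠ 0 := hN0.ne'
  obtain ⟨g, x, rfl⟩ := mk_surjective ξ
  rw [proj_mk] at hξ
  -- Bezout
  obtain ⟨j, _, hj⟩ : ∃ j < N, q * j % N = Nat.gcd q N := by
    apply Nat.exists_mul_mod_eq_gcd
    have := Nat.gcd_le_left N hq
    omega
  set d := Nat.gcd q N with hd'
  have hd0 : 0 < d := Nat.gcd_pos_of_pos_left _ hq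
  have hdle : d + 1 ≤ q := by
    have h1 := Nat.gcd_le_left N hq
    have h2 : d ≠ q := by
      intro h3
      apply hd
      rw [← h3]
      exact Nat.gcd_dvd_right _ _
    omega
  have hmod := Nat.mod_add_div (q * j) N
  rw [hj] at hmod
  set m : ℕ := q * j / N with hm
  have hmodR : (d : ℝ) + N * m = q * j := by exact_mod_cast hmod
  have hd0R : (1 : ℝ) ≤ d := by exact_mod_cast hd0
  have hdleR : (d : ℝ) + 1 ≤ q := by exact_mod_cast hdle
  have hp0R : (0 : ℝ) < p := by exact_mod_cast hp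
  have hq0R : (0 : ℝ) < q := by exact_mod_cast hq
  have hNR : 2 * ((p : ℝ) + q) < N := by exact_mod_cast hN
  have hpi := Real.pi_pos
  have hsum : 0 < Real.sin (π * ((p : ℝ) / N + (q : ℝ) / N)) := SC3_sin_pos (by positivity) hab
  have hsa : 0 < Real.sin (π * ((p : ℝ) / N)) := SC3_sin_pos ha (by linarith)
  refine StarV_main (x := x) g ((r _ 0 * r _ 2) ^ j * r _ 2) ?_
    (A := tau ((p : ℝ) / N) ((q : ℝ) / N)) (B := 0)
    (vert_mem_body (v := TN N p q) 2) (vert_mem_body (v := TN N p q) 0)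
    (ca := Real.sin (π * ((p : ℝ) / N)) / Real.sin (π * ((p : ℝ) / N + (q : ℝ) / N))) (cb := 1)
    (s := π * ((N - q) / N)) (t := π) (φ := π * ((N - d) / N))
    (ε := π * (1 / N))
    (div_pos hsa hsum) one_pos ?_ ?_ ?_ ?_ (by positivity) ?_ ?_ ?_
  · have h0 : r (TN N p q) 0 ∈ Hx (TN N p q) (x : ℂ) := by
      refine Subgroup.subset_closure ⟨0, ?_, rfl⟩
      rw [hξ]
      exact left_mem_segment ℝ _ _
    have h1 : r (TN N p q) 2 ∈ Hx (TN N p q) (x : ℂ) := by
      refine Subgroup.subset_closure ⟨2, ?_, rfl⟩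
      rw [hξ]
      exact right_mem_segment ℝ _ _
    exact Subgroup.mul_mem _ (Subgroup.pow_mem _ (Subgroup.mul_mem _ h0 h1) _) h1
  · rw [hξ]
    have h1 : ((π * ((N - q) / N) : ℝ) : ℂ) * Complex.I =
        -(π * ((q / N : ℝ) : ℂ)) * Complex.I + π * Complex.I := by
      have : (π * ((N - q) / N) : ℝ) = -(π * (q / N)) + π := by field_simp; ring
      rw [this]
      push_cast
      ring
    rw [h1, Complex.exp_add, Complex.exp_pi_mul_I, tau_sub_one ha hb hab]
    ring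
  · rw [hξ, Complex.exp_pi_mul_I]
    push_cast
    ring
  · have : ((N : ℝ) - q) / N < 1 := by
      rw [div_lt_one hN0]
      linarith
    nlinarith
  · have : 0 < ((N : ℝ) - q) / N := by
      apply div_pos _ hN0
      linarith
    nlinarith
  · rw [← mul_sub, ← sub_div]
    apply mul_le_mul_of_nonneg_left _ hpi.le
    rw [div_le_div_iff_of_pos_right hN0]
    linarith
  · rw [← mul_add, ← add_div]
    have : ((N : ℝ) - d + 1) / N ≤ 1 := by
      rw [div_le_one hN0]
      linarith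
    nlinarith
  · intro z
    have hx : chi (TN N p q) 2 = Complex.exp ((0 : ℝ) * Complex.I) := by
      rw [chi_tri_two ha hb hab]
      simp
    have hy : chi (TN N p q) 0 = Complex.exp ((-(2 * π * (q / N)) : ℝ) * Complex.I) := by
      rw [chi_tri_zero ha hb hab]
      push_cast
      rfl
    rw [StarV_iso (tri_ne ha hb hab) 0 2 2 hy hx hx]
    congr 1
    have h1 : (((j : ℝ) * (-(2 * π * (q / N)) - 0) + 0 : ℝ) : ℂ) *
        Complex.I = ((2 * (π * ((N - d) / N)) : ℝ) : ℂ) * Complex.I +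
          (-(m : ℤ) - 1 : ℤ) * (2 * π * Complex.I) := by
      have : ((j : ℝ) * (-(2 * π * (q / N)) - 0) + 0 : ℝ) =
          2 * (π * ((N - d) / N)) + (-(m : ℝ) - 1) * (2 * π) := by
        field_simp
        linear_combination (2 * π) * hmodR
      rw [this]
      push_cast
      ring
    rw [h1, Complex.exp_add, Complex.exp_int_mul_two_pi_mul_I, mul_one]

end

end Pool.Agent.OBT
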