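import Mathlib
import Pool.Agent.OBT.ConvP
import Pool.Agent.OBT.ConvE
import Pool.Agent.OBT.ConvM
import Pool.Agent.OBT.StarV

/-!
# The cylinder decomposition of the unfolding of the triangles `TN N 1 q`, `q = 1` or `q = 2`
-/

open scoped ComplexConjugate Topology Real
open MeasureTheory Filter

namespace Pool.Agent.OBT

noncomputable section

variable {N q : ℕ}

/-- a point in the vertical range of a side is on the good side -/
theorem CD_nonneg {m b s c X : ℝ} (hs : 0 < s) (hcs : s ^ 2 + c ^ 2 = 1) (h1 : 0 ≤ m * s - b * c)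
    (h2 : 0 ≤ m * s + b * c) (hX1 : m * c - b * s ≤ X) (hX2 : X ≤ m * c + b * s) : X * c ≤ m := by
  rcases le_or_gt 0 c with hc | hc
  · have h3 : X * c ≤ (m * c + b * s) * c := mul_le_mul_of_nonneg_right hX2 hc
    have h4 : (m * c + b * s) * c = m - s * (m * s - b * c) := by
      linear_combination m * hcs
    have h5 := mul_nonneg hs.le h1
    linarith
  · have h3 : X * c ≤ (m * c - b * s) * c := by nlinarith
    have h4 : (m * c - b * s) * c = m - s * (m * s + b * c) := by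
      linear_combination m * hcs
    have h5 := mul_nonneg hs.le h2
    linarith

/-- the index set of the strips -/
abbrev Idx (N : ℕ) : Type := {k : ℤ // 0 < k ∧ 2 * k < N}

instance : Finite (Idx N) := by
  refine Set.Finite.to_subtype (Set.Finite.subset (Set.finite_Icc 0 (N : ℤ)) ?_)
  intro k hk
  have hk' : 0 < k ∧ 2 * k < N := hk
  exact ⟨by omega, by omega⟩

/-- cosine of the direction number `k` -/
def cc (N : ℕ) (k : ℤ) : ℝ := Real.cos ((2 * k : ℤ) * (π / N))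

/-- sine of the direction number `k` -/
def ss (N : ℕ) (k : ℤ) : ℝ := Real.sin ((2 * k : ℤ) * (π / N))

/-- level of the top (bottom line) of the strip number `k` -/
def aa (N q : ℕ) (k : ℤ) : ℝ := rhoT N q * Real.cos ((2 * k - 1 : ℤ) * (π / N))

section

variable (hq : q = 1 ∨ q = 2) (hd : q ∣ N) (hN : 2 * (1 + q) < N)

theorem cc_neg (k : ℤ) : Real.cos ((2 * -k : ℤ) * (π / N)) = cc N k := by
  have : ((2 * -k : ℤ) : ℝ) * (π / N) = -(((2 * k : ℤ) : ℝ) * (π / N)) := by push_cast; ring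
  rw [this, Real.cos_neg]
  rfl

theorem ss_neg (k : ℤ) : Real.sin ((2 * -k : ℤ) * (π / N)) = -ss N k := by
  have : ((2 * -k : ℤ) : ℝ) * (π / N) = -(((2 * k : ℤ) : ℝ) * (π / N)) := by push_cast; ring
  rw [this, Real.sin_neg]
  rfl

theorem cs_sq (k : ℤ) : ss N k ^ 2 + cc N k ^ 2 = 1 := Real.sin_sq_add_cos_sq _

theorem aa_eq (k : ℤ) : aa N q k = mT N q * cc N k + bT N q * ss N k := by
  unfold aa cc ss
  rw [mT_eq, bT_eq]
  have : ((2 * k - 1 : ℤ) : ℝ) * (π / N) = ((2 * k : ℤ) : ℝ) * (π / N) - π / N := by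
    push_cast
    ring
  rw [this, Real.cos_sub]
  ring

theorem aa_eq' (k : ℤ) : rhoT N q * Real.cos ((2 * k + 1 : ℤ) * (π / N)) =
    mT N q * cc N k - bT N q * ss N k := by
  unfold cc ss
  rw [mT_eq, bT_eq]
  have : ((2 * k + 1 : ℤ) : ℝ) * (π / N) = ((2 * k : ℤ) : ℝ) * (π / N) + π / N := by
    push_cast
    ring
  rw [this, Real.cos_add]
  ring

include hq in
theorem CD_hq0 : 0 < q := by omega

include hq hN in
theorem CD_h2q : 2 * q < N := by omega

include hq in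
theorem CD_dvd (k : ℤ) : (q : ℤ) ∣ 2 * k := by
  rcases hq with rfl | rfl
  · exact ⟨2 * k, by ring⟩
  · exact ⟨k, by ring⟩

include hN in
theorem CD_hN : 1 + q < N := by omega

include hq hN in
theorem bb_eq (k : ℤ) : sigT N q * Real.cos ((2 * k + q : ℤ) * (π / N)) =
    (1 - mT N q) * cc N k - bT N q * ss N k := by
  unfold cc ss
  rw [mT_eq' (CD_hq0 hq) (CD_hN hN), bT_eq' (CD_hq0 hq) (CD_hN hN)]
  have : ((2 * k + q : ℤ) : ℝ) * (π / N) = ((2 * k : ℤ) : ℝ) * (π / N) + q * (π / N) := by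
    push_cast
    ring
  rw [this, Real.cos_add]
  ring

include hq hN in
theorem bb_eq' (k : ℤ) : sigT N q * Real.cos ((2 * k - q : ℤ) * (π / N)) =
    (1 - mT N q) * cc N k + bT N q * ss N k := by
  unfold cc ss
  rw [mT_eq' (CD_hq0 hq) (CD_hN hN), bT_eq' (CD_hq0 hq) (CD_hN hN)]
  have : ((2 * k - q : ℤ) : ℝ) * (π / N) = ((2 * k : ℤ) : ℝ) * (π / N) - q * (π / N) := by
    push_cast
    ring
  rw [this, Real.cos_sub]
  ring

include hN in
theorem sin_nonneg_of {o : ℤ} (h0 : 0 ≤ o) (h1 : o ≤ N) : 0 ≤ Real.sin (o * (π / N)) := by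
  have hN0 : 0 < N := by omega
  have hx := CT_Nx hN0
  have hN' : (0 : ℝ) < N := by exact_mod_cast hN0
  have hp : 0 < π / N := div_pos Real.pi_pos hN'
  have h0' : (0 : ℝ) ≤ o := by exact_mod_cast h0
  have h1' : (o : ℝ) ≤ N := by exact_mod_cast h1
  exact Real.sin_nonneg_of_nonneg_of_le_pi (by positivity) (by nlinarith)

include hN in
theorem ss_pos {k : ℤ} (h0 : 0 < k) (h1 : 2 * k < N) : 0 < ss N k := by
  have hN0 : 0 < N := by omega
  have hx := CT_Nx hN0
  have hN' : (0 : ℝ) < N := by exact_mod_cast hN0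
  have hp : 0 < π / N := div_pos Real.pi_pos hN'
  have h0' : (0 : ℝ) < ((2 * k : ℤ) : ℝ) := by
    have : 0 < 2 * k := by omega
    exact_mod_cast this
  have h1' : ((2 * k : ℤ) : ℝ) < N := by exact_mod_cast h1
  exact Real.sin_pos_of_pos_of_lt_pi (by positivity) (by nlinarith)

include hq hd hN in
theorem CD_ineq {k : ℤ} (h0 : 0 < k) (h1 : 2 * k < N) :
    0 ≤ mT N q * ss N k - bT N q * cc N k ∧ 0 ≤ mT N q * ss N k + bT N q * cc N k ∧
    0 ≤ (1 - mT N q) * ss N k - bT N q * cc N k ∧ 0 ≤ (1 - mT N q) * ss N k + bT N q * cc N k := by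
  have hρ := rhoT_pos (CD_hq0 hq) (CD_hN hN)
  have hσ := sigT_pos (CD_hq0 hq) (CD_hN hN)
  have hk : (q : ℤ) ≤ 2 * k := by
    rcases hq with rfl | rfl
    · push_cast; omega
    · push_cast; omega
  have hk' : 2 * k + q ≤ N := by
    rcases hq with rfl | rfl
    · push_cast; omega
    · obtain ⟨n, hn⟩ := hd
      push_cast; omega
  have e1 : mT N q * ss N k - bT N q * cc N k = rhoT N q * Real.sin ((2 * k - 1 : ℤ) * (π / N)) := by
    unfold cc ss
    rw [mT_eq, bT_eq]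
    have : ((2 * k - 1 : ℤ) : ℝ) * (π / N) = ((2 * k : ℤ) : ℝ) * (π / N) - π / N := by
      push_cast
      ring
    rw [this, Real.sin_sub]
    ring
  have e2 : mT N q * ss N k + bT N q * cc N k = rhoT N q * Real.sin ((2 * k + 1 : ℤ) * (π / N)) := by
    unfold cc ss
    rw [mT_eq, bT_eq]
    have : ((2 * k + 1 : ℤ) : ℝ) * (π / N) = ((2 * k : ℤ) : ℝ) * (π / N) + π / N := by
      push_cast
      ring
    rw [this, Real.sin_add]
    ring
  have e3 : (1 - mT N q) * ss N k - bT N q * cc N k =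
      sigT N q * Real.sin ((2 * k - q : ℤ) * (π / N)) := by
    unfold cc ss
    rw [mT_eq' (CD_hq0 hq) (CD_hN hN), bT_eq' (CD_hq0 hq) (CD_hN hN)]
    have : ((2 * k - q : ℤ) : ℝ) * (π / N) = ((2 * k : ℤ) : ℝ) * (π / N) - q * (π / N) := by
      push_cast
      ring
    rw [this, Real.sin_sub]
    ring
  have e4 : (1 - mT N q) * ss N k + bT N q * cc N k =
      sigT N q * Real.sin ((2 * k + q : ℤ) * (π / N)) := by
    unfold cc ss
    rw [mT_eq' (CD_hq0 hq) (CD_hN hN), bT_eq' (CD_hq0 hq) (CD_hN hN)]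
    have : ((2 * k + q : ℤ) : ℝ) * (π / N) = ((2 * k : ℤ) : ℝ) * (π / N) + q * (π / N) := by
      push_cast
      ring
    rw [this, Real.sin_add]
    ring
  rw [e1, e2, e3, e4]
  exact ⟨mul_nonneg hρ.le (sin_nonneg_of hN (by omega) (by omega)),
    mul_nonneg hρ.le (sin_nonneg_of hN (by omega) (by omega)),
    mul_nonneg hσ.le (sin_nonneg_of hN (by omega) (by omega)),
    mul_nonneg hσ.le (sin_nonneg_of hN (by omega) hk')⟩

/-- half width of the part of the strip in the polygon around `0` -/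
def YA (N q : ℕ) (k : ℤ) (y : ℝ) : ℝ := (mT N q - (aa N q k - y) * cc N k) / ss N k

/-- half width of the part of the strip in the polygon around `1` -/
def YB (N q : ℕ) (k : ℤ) (y : ℝ) : ℝ :=
  (1 - mT N q + ((aa N q k - y) - cc N k) * cc N k) / ss N k

theorem YA_cont (k : ℤ) : Continuous (YA N q k) := by
  unfold YA
  fun_prop

theorem YB_cont (k : ℤ) : Continuous (YB N q k) := by
  unfold YB
  fun_prop

include hN in
theorem YAB {k : ℤ} (h0 : 0 < k) (h1 : 2 * k < N) (y : ℝ) :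
    YA N q k y + YB N q k y = (2 * ss N k) / 2 := by
  have hs := ss_pos hN h0 h1
  have := cs_sq (N := N) k
  unfold YA YB
  field_simp
  linear_combination (-(1 : ℝ)) * this

include hq hd hN in
theorem YA_nonneg {k : ℤ} (h0 : 0 < k) (h1 : 2 * k < N) {y : ℝ} (y0 : 0 ≤ y)
    (y1 : y ≤ 2 * bT N q * ss N k) : 0 ≤ YA N q k y := by
  have hs := ss_pos hN h0 h1
  obtain ⟨i1, i2, -, -⟩ := CD_ineq hq hd hN h0 h1
  have := CD_nonneg hs (cs_sq k) i1 i2 (X := aa N q k - y) (by rw [aa_eq]; linarith)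
    (by rw [aa_eq]; linarith)
  unfold YA
  apply div_nonneg _ hs.le
  linarith

include hq hd hN in
theorem YB_nonneg {k : ℤ} (h0 : 0 < k) (h1 : 2 * k < N) {y : ℝ} (y0 : 0 ≤ y)
    (y1 : y ≤ 2 * bT N q * ss N k) : 0 ≤ YB N q k y := by
  have hs := ss_pos hN h0 h1
  obtain ⟨-, -, i1, i2⟩ := CD_ineq hq hd hN h0 h1
  have := CD_nonneg hs (cs_sq k) i1 i2 (X := cc N k - (aa N q k - y)) (by rw [aa_eq]; linarith)
    (by rw [aa_eq]; linarith)
  unfold YB
  apply div_nonneg _ hs.le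
  linarith

include hq hd hN in
theorem CD_polyA {k : ℤ} (h0 : 0 < k) (h1 : 2 * k < N) {ζ : ℂ}
    (hζ : ζ ∈ piece (2 * bT N q * ss N k) 0 (YA N q k)) (j : ℤ) :
    ((aa N q k : ℂ) + Complex.I * ζ).re * Real.cos ((2 * j : ℤ) * (π / N)) +
      ((aa N q k : ℂ) + Complex.I * ζ).im * Real.sin ((2 * j : ℤ) * (π / N)) ≤ mT N q := by
  have hs := ss_pos hN h0 h1
  obtain ⟨⟨y0, y1⟩, hw⟩ := hζ
  have e1 : ((aa N q k : ℂ) + Complex.I * ζ).re = aa N q k - ζ.im := by simp; ring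
  have e2 : ((aa N q k : ℂ) + Complex.I * ζ).im = ζ.re := by simp
  rw [e1, e2]
  have hρ := rhoT_pos (CD_hq0 hq) (CD_hN hN)
  have hm : mT N q = rhoT N q * Real.cos (((1 : ℕ) : ℝ) * (π / N)) := by
    rw [Nat.cast_one, one_mul]
    exact mT_eq
  rw [hm]
  refine CT_poly_int (q := 1) one_pos (by omega) (one_dvd N) h0 h1 (by rw [Nat.cast_one]; exact one_dvd _)
    hρ.le ?_ ?_ ?_ j (by rw [Nat.cast_one]; exact one_dvd _)
  · rw [← hm]
    rw [sub_zero] at hw
    unfold YA at hw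
    rw [le_div_iff₀ hs] at hw
    change (aa N q k - ζ.im) * cc N k + |ζ.re| * ss N k ≤ mT N q
    linarith
  · have := aa_eq' (N := N) (q := q) k
    rw [Nat.cast_one, this]
    rw [aa_eq]
    linarith
  · rw [Nat.cast_one]
    change aa N q k - ζ.im ≤ aa N q k
    linarith

include hq hd hN in
theorem CD_polyB {k : ℤ} (h0 : 0 < k) (h1 : 2 * k < N) {ζ : ℂ}
    (hζ : ζ ∈ piece (2 * bT N q * ss N k) (2 * ss N k / 2) (YB N q k)) (j : ℤ)
    (hj : (q : ℤ) ∣ j - k) :
    -(((aa N q k : ℂ) + Complex.I * ζ - ee N k).re * Real.cos ((2 * j : ℤ) * (π / N)) +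
      ((aa N q k : ℂ) + Complex.I * ζ - ee N k).im * Real.sin ((2 * j : ℤ) * (π / N))) ≤
      1 - mT N q := by
  have hs := ss_pos hN h0 h1
  obtain ⟨⟨y0, y1⟩, hw⟩ := hζ
  have e1 : ((aa N q k : ℂ) + Complex.I * ζ - ee N k).re = -(cc N k - (aa N q k - ζ.im)) := by
    rw [Complex.sub_re, ee_re]
    unfold cc
    simp
    ring
  have e2 : ((aa N q k : ℂ) + Complex.I * ζ - ee N k).im = -(ss N k - ζ.re) := by
    rw [Complex.sub_im, ee_im]
    unfold ss
    simp
  rw [e1, e2]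
  have hσ := sigT_pos (CD_hq0 hq) (CD_hN hN)
  have key := CT_poly_int (q := q) (N := N) (CD_hq0 hq) (by omega) hd h0 h1 (CD_dvd hq k) hσ.le
    (X := cc N k - (aa N q k - ζ.im)) (Y := ss N k - ζ.re) ?_ ?_ ?_ j hj
  · rw [mT_eq' (CD_hq0 hq) (CD_hN hN)]
    linarith
  · rw [← mT_eq' (CD_hq0 hq) (CD_hN hN)]
    unfold YB at hw
    rw [le_div_iff₀ hs] at hw
    have e3 : |ss N k - ζ.re| = |ζ.re - 2 * ss N k / 2| := by
      rw [abs_sub_comm]
      congr 2
      ring
    rw [e3]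
    change (cc N k - (aa N q k - ζ.im)) * cc N k + _ * ss N k ≤ 1 - mT N q
    linarith
  · rw [bb_eq hq hN, aa_eq]
    linarith
  · rw [bb_eq' hq hN, aa_eq]
    linarith

end

/-- the strip map on the part in the polygon around `0` -/
def fA (hq : q = 1 ∨ q = 2) (hN : 2 * (1 + q) < N) (k : ℤ) (ζ : ℂ) : Surf (TN N 1 q) :=
  SP (CD_hq0 hq) (CD_hN hN) ((aa N q k : ℂ) + Complex.I * ζ)

/-- the strip map on the part in the polygon around `1` -/
def fB (hq : q = 1 ∨ q = 2) (hd : q ∣ N) (hN : 2 * (1 + q) < N) (k : ℤ) (ζ : ℂ) :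
    Surf (TN N 1 q) :=
  SQ (CD_hq0 hq) (CD_hN hN) hd k ((aa N q k : ℂ) + Complex.I * ζ - ee N k)

section

variable (hq : q = 1 ∨ q = 2) (hd : q ∣ N) (hN : 2 * (1 + q) < N)
include hq hd hN

theorem fA_flat {k : ℤ} (h0 : 0 < k) (h1 : 2 * k < N) (z : ℂ) : ∀ᶠ w in 𝓝 z,
    w ∈ piece (2 * bT N q * ss N k) 0 (YA N q k) →
    Dsp (fA hq hN k z) (fA hq hN k w) (Complex.I * (w - z)) := by
  have hc : Tendsto (fun w : ℂ => (aa N q k : ℂ) + Complex.I * w) (𝓝 z)
      (𝓝 ((aa N q k : ℂ) + Complex.I * z)) :=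
    (continuous_const.add (continuous_const.mul continuous_id)).tendsto z
  filter_upwards [hc.eventually (SP_flat (CD_hq0 hq) (CD_hN hN) (CD_h2q hq hN) _)] with w hw hw'
  have h2 := hw (CD_polyA hq hd hN h0 h1 hw')
  have e : (aa N q k : ℂ) + Complex.I * w - ((aa N q k : ℂ) + Complex.I * z) =
      Complex.I * (w - z) := by ring
  rw [e] at h2
  exact h2

theorem fB_flat {k : ℤ} (h0 : 0 < k) (h1 : 2 * k < N) (z : ℂ) : ∀ᶠ w in 𝓝 z,
    w ∈ piece (2 * bT N q * ss N k) (2 * ss N k / 2) (YB N q k) →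
    Dsp (fB hq hd hN k z) (fB hq hd hN k w) (Complex.I * (w - z)) := by
  have hc : Tendsto (fun w : ℂ => (aa N q k : ℂ) + Complex.I * w - ee N k) (𝓝 z)
      (𝓝 ((aa N q k : ℂ) + Complex.I * z - ee N k)) :=
    ((continuous_const.add (continuous_const.mul continuous_id)).sub continuous_const).tendsto z
  filter_upwards [hc.eventually (SQ_flat (CD_hq0 hq) (CD_hN hN) hd (CD_h2q hq hN) k _)] with w hw hw'
  have h2 := hw (CD_polyB hq hd hN h0 h1 hw')
  have e : (aa N q k : ℂ) + Complex.I * w - ee N k - ((aa N q k : ℂ) + Complex.I * z - ee N k) =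
      Complex.I * (w - z) := by ring
  rw [e] at h2
  exact h2

theorem CD_glueR {k : ℤ} (h0 : 0 < k) (h1 : 2 * k < N) (y : ℝ) (y0 : 0 ≤ y)
    (y1 : y ≤ 2 * bT N q * ss N k) :
    fA hq hN k ⟨YA N q k y, y⟩ = fB hq hd hN k ⟨YA N q k y, y⟩ := by
  have hs := ss_pos hN h0 h1
  have hcs := cs_sq (N := N) k
  unfold fA fB
  have e1 : ((aa N q k : ℂ) + Complex.I * ⟨YA N q k y, y⟩).re = aa N q k - y := by simp; ring
  have e2 : ((aa N q k : ℂ) + Complex.I * ⟨YA N q k y, y⟩).im = YA N q k y := by simp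
  apply SP_eq_SQ (CD_hq0 hq) (CD_hN hN) hd (CD_h2q hq hN) (j := k) (by rw [sub_self]; exact dvd_zero _)
  · rw [e1, e2]
    change (aa N q k - y) * cc N k + YA N q k y * ss N k = mT N q
    unfold YA
    field_simp
    ring
  · rw [e1, e2]
    change |YA N q k y * cc N k - (aa N q k - y) * ss N k| ≤ bT N q
    have e3 : YA N q k y * cc N k - (aa N q k - y) * ss N k =
        (mT N q * cc N k - (aa N q k - y)) / ss N k := by
      unfold YA
      field_simp
      linear_combination (-(aa N q k - y)) * hcs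
    rw [e3, abs_div, abs_of_pos hs, div_le_iff₀ hs, abs_le, aa_eq]
    constructor <;> linarith

theorem CD_glueL {k : ℤ} (h0 : 0 < k) (h1 : 2 * k < N) (y : ℝ) (y0 : 0 ≤ y)
    (y1 : y ≤ 2 * bT N q * ss N k) :
    fA hq hN k ⟨-YA N q k y, y⟩ = fB hq hd hN k ⟨-YA N q k y + 2 * ss N k, y⟩ := by
  have hs := ss_pos hN h0 h1
  have hcs := cs_sq (N := N) k
  unfold fA fB
  have e1 : ((aa N q k : ℂ) + Complex.I * ⟨-YA N q k y, y⟩).re = aa N q k - y := by simp; ring
  have e2 : ((aa N q k : ℂ) + Complex.I * ⟨-YA N q k y, y⟩).im = -YA N q k y := by simp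
  have hdk : (q : ℤ) ∣ (-k) - k := by
    have : (-k) - k = -(2 * k) := by ring
    rw [this]
    exact (dvd_neg).2 (CD_dvd hq k)
  have key := SP_eq_SQ (CD_hq0 hq) (CD_hN hN) hd (CD_h2q hq hN) (j := -k) hdk
    (z := (aa N q k : ℂ) + Complex.I * ⟨-YA N q k y, y⟩)
    (by
      rw [e1, e2, cc_neg, ss_neg]
      unfold YA
      field_simp
      ring)
    (by
      rw [e1, e2, cc_neg, ss_neg]
      have e3 : -YA N q k y * cc N k - (aa N q k - y) * -ss N k =
          -((mT N q * cc N k - (aa N q k - y)) / ss N k) := by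
        unfold YA
        field_simp
        linear_combination (aa N q k - y) * hcs
      rw [e3, abs_neg, abs_div, abs_of_pos hs, div_le_iff₀ hs, abs_le, aa_eq]
      constructor <;> linarith)
  rw [key]
  congr 1
  apply Complex.ext
  · rw [Complex.sub_re, Complex.sub_re, ee_re, ee_re, cc_neg]
    unfold cc
    simp
  · rw [Complex.sub_im, Complex.sub_im, ee_im, ee_im, ss_neg]
    unfold ss
    simp
    ring

/-- points of the interior of a piece of the first kind are regular -/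
theorem CD_regA {k : ℤ} (h0 : 0 < k) (h1 : 2 * k < N) {ζ : ℂ}
    (hζ : ζ ∈ piece (2 * bT N q * ss N k) 0 (YA N q k)) (y0 : 0 < ζ.im)
    (y1 : ζ.im < 2 * bT N q * ss N k) : Rg (fA hq hN k ζ) := by
  obtain ⟨t1, t2, t3⟩ := Form1_pos (N := N) one_pos (CD_hq0 hq) (CD_hN hN)
  have hρ := rhoT_pos (CD_hq0 hq) (CD_hN hN)
  obtain ⟨j, g, y, hg, hy⟩ := dom_P (CD_hq0 hq) (CD_hN hN) (CD_h2q hq hN)
    (CD_polyA hq hd hN h0 h1 hζ)
  unfold fA
  rw [← hy, SP_mk]
  by_cases hy0 : (y : ℂ) = 0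
  · exact rg_center one_pos (CD_hq0 hq) (CD_hN hN) (one_dvd N) (by rw [proj_mk]; exact hy0)
  by_cases hy1 : (y : ℂ) = 1
  · exact rg_center_one one_pos (CD_hq0 hq) (CD_hN hN) hd (by rw [proj_mk]; exact hy1)
  refine rg_of_not_vertex (affineIndependent_tri t1 t2 t3) ?_
  intro i
  rw [proj_mk]
  fin_cases i
  · exact hy0
  · exact hy1
  · intro h
    have hyt : (y : ℂ) = tau (((1 : ℕ) : ℝ) / N) ((q : ℝ) / N) := h
    obtain ⟨l, hl⟩ := apex_P (CD_hq0 hq) (CD_hN hN) hg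
    rw [hyt, hl] at hy
    have hre := congrArg Complex.re hy
    rw [Complex.re_ofReal_mul, Complex.exp_ofReal_mul_I_re] at hre
    have e1 : ((aa N q k : ℂ) + Complex.I * ζ).re = aa N q k - ζ.im := by simp; ring
    rw [e1] at hre
    have i1 : Real.cos ((2 * k + 1 : ℤ) * (π / N)) < Real.cos ((2 * l - 1 : ℤ) * (π / N)) := by
      have := aa_eq' (N := N) (q := q) k
      rw [aa_eq] at hre
      refine lt_of_mul_lt_mul_left ?_ hρ.le
      rw [this, hre]
      linarith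
    have i2 : Real.cos ((2 * l - 1 : ℤ) * (π / N)) < Real.cos ((2 * k - 1 : ℤ) * (π / N)) := by
      refine lt_of_mul_lt_mul_left ?_ hρ.le
      rw [hre]
      change aa N q k - ζ.im < aa N q k
      linarith
    exact CT_level (q := 1) (N := N) one_pos (by omega) (one_dvd N) (k := k)
      (by rw [Nat.cast_one]; omega) (by rw [Nat.cast_one]; omega)
      (by rw [Nat.cast_one]; exact one_dvd _) l (by rw [Nat.cast_one]; exact one_dvd _)
      (by rw [Nat.cast_one]; exact i1) (by rw [Nat.cast_one]; exact i2)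

/-- points of the interior of a piece of the second kind are regular -/
theorem CD_regB {k : ℤ} (h0 : 0 < k) (h1 : 2 * k < N) {ζ : ℂ}
    (hζ : ζ ∈ piece (2 * bT N q * ss N k) (2 * ss N k / 2) (YB N q k)) (y0 : 0 < ζ.im)
    (y1 : ζ.im < 2 * bT N q * ss N k) : Rg (fB hq hd hN k ζ) := by
  obtain ⟨t1, t2, t3⟩ := Form1_pos (N := N) one_pos (CD_hq0 hq) (CD_hN hN)
  have hσ := sigT_pos (CD_hq0 hq) (CD_hN hN)
  obtain ⟨j, g, y, hj, hg, hy⟩ := dom_Q (CD_hq0 hq) (CD_hN hN) (CD_h2q hq hN) k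
    (CD_polyB hq hd hN h0 h1 hζ)
  unfold fB
  rw [← hy, SQ_mk (CD_hq0 hq) (CD_hN hN) hd hj hg]
  by_cases hy0 : (y : ℂ) = 0
  · exact rg_center one_pos (CD_hq0 hq) (CD_hN hN) (one_dvd N) (by rw [proj_mk]; exact hy0)
  by_cases hy1 : (y : ℂ) = 1
  · exact rg_center_one one_pos (CD_hq0 hq) (CD_hN hN) hd (by rw [proj_mk]; exact hy1)
  refine rg_of_not_vertex (affineIndependent_tri t1 t2 t3) ?_
  intro i
  rw [proj_mk]
  fin_cases i
  · exact hy0
  · exact hy1
  · intro h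
    have hyt : (y : ℂ) = tau (((1 : ℕ) : ℝ) / N) ((q : ℝ) / N) := h
    obtain ⟨l, hlj, hl⟩ := apex_Q (CD_hq0 hq) (CD_hN hN) hg
    rw [hyt, hl] at hy
    have hre := congrArg Complex.re hy
    rw [Complex.neg_re, Complex.re_ofReal_mul, Complex.exp_ofReal_mul_I_re] at hre
    have e1 : ((aa N q k : ℂ) + Complex.I * ζ - ee N k).re = -(cc N k - (aa N q k - ζ.im)) := by
      rw [Complex.sub_re, ee_re]
      unfold cc
      simp
      ring
    rw [e1] at hre
    have i1 : Real.cos ((2 * k + q : ℤ) * (π / N)) < Real.cos ((2 * l - q : ℤ) * (π / N)) := by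
      have := bb_eq hq hN k
      rw [aa_eq] at hre
      refine lt_of_mul_lt_mul_left ?_ hσ.le
      rw [this]
      linarith
    have i2 : Real.cos ((2 * l - q : ℤ) * (π / N)) < Real.cos ((2 * k - q : ℤ) * (π / N)) := by
      have := bb_eq' hq hN k
      rw [aa_eq] at hre
      refine lt_of_mul_lt_mul_left ?_ hσ.le
      rw [this]
      linarith
    have hk : (q : ℤ) ≤ 2 * k := by
      rcases hq with rfl | rfl
      · push_cast; omega
      · push_cast; omega
    have hk' : 2 * k + q ≤ N := by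
      rcases hq with rfl | rfl
      · push_cast; omega
      · obtain ⟨n, hn⟩ := hd
        push_cast; omega
    refine CT_level (q := q) (N := N) (CD_hq0 hq) (by omega) hd hk hk' (CD_dvd hq k) l ?_ i1 i2
    have : l - k = (l - j) + (j - k) := by ring
    rw [this]
    exact dvd_add hlj hj

/-- the cylinders -/
theorem exists_strip {k : ℤ} (h0 : 0 < k) (h1 : 2 * k < N) :
    ∃ Ψ : ℂ → Surf (TN N 1 q),
      (∀ z ∈ piece (2 * bT N q * ss N k) 0 (YA N q k), Ψ z = fA hq hN k z) ∧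
      (∀ z ∈ piece (2 * bT N q * ss N k) (2 * ss N k / 2) (YB N q k), Ψ z = fB hq hd hN k z) ∧
      (∀ z ∈ strip (2 * bT N q * ss N k), ∀ᶠ w in 𝓝[strip (2 * bT N q * ss N k)] z,
        Dsp (Ψ z) (Ψ w) (Complex.I * (w - z))) ∧
      (∀ z ∈ strip (2 * bT N q * ss N k), Ψ (z + (2 * ss N k : ℝ)) = Ψ z) ∧
      (∀ z ∈ strip (2 * bT N q * ss N k),
        (∃ z' ∈ piece (2 * bT N q * ss N k) 0 (YA N q k), z'.im = z.im ∧ Ψ z = fA hq hN k z') ∨
        (∃ z' ∈ piece (2 * bT N q * ss N k) (2 * ss N k / 2) (YB N q k),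
          z'.im = z.im ∧ Ψ z = fB hq hd hN k z')) := by
  have hs := ss_pos hN h0 h1
  refine assemble2 (e := Complex.I) (l := 2 * ss N k) (by linarith) (YA N q k) (YB N q k) (YA_cont k)
    (YB_cont k) (fun y y0 y1 => YA_nonneg hq hd hN h0 h1 y0 y1)
    (fun y y0 y1 => YB_nonneg hq hd hN h0 h1 y0 y1) (YAB hN h0 h1) (fA hq hN k) (fB hq hd hN k)
    (fA_flat hq hd hN h0 h1) (fB_flat hq hd hN h0 h1) ?_ ?_
  · exact CD_glueR hq hd hN h0 h1
  · exact CD_glueL hq hd hN h0 h1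

end

end

end Pool.Agent.OBT
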