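import Mathlib
import Pool.Agent.OBT.ZReg

/-!
# The number of disjoint affine images of a cylinder
-/

open scoped ComplexConjugate Topology MatrixGroups UpperHalfPlane
open MeasureTheory Filter

namespace Pool.Agent.OBT

variable {v : Fin 3 → ℂ}

/-- the action of a matrix as a continuous real-linear map -/
noncomputable def ZArea_actL (A : SL(2, ℝ)) : ℂ →L[ℝ] ℂ :=
  LinearMap.toContinuousLinearMap
    { toFun := act A
      map_add' := fun z z' => by
        apply Complex.ext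
        · simp only [act, Complex.add_re, Complex.add_im]; ring
        · simp only [act, Complex.add_re, Complex.add_im]; ring
      map_smul' := fun c z => by
        apply Complex.ext
        · simp only [act, Complex.smul_re, Complex.smul_im, smul_eq_mul, RingHom.id_apply]; ring
        · simp only [act, Complex.smul_re, Complex.smul_im, smul_eq_mul, RingHom.id_apply]; ring }

theorem ZArea_actL_apply (A : SL(2, ℝ)) (z : ℂ) : ZArea_actL A z = act A z := rfl

theorem ZArea_actL_det (A : SL(2, ℝ)) : (ZArea_actL A).det = 1 := by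
  have h1 : (ZArea_actL A).det = LinearMap.det (ZArea_actL A : ℂ →ₗ[ℝ] ℂ) := rfl
  rw [h1, ← LinearMap.det_toMatrix Complex.basisOneI, Matrix.det_fin_two]
  have h2 := Act_det A
  simp only [LinearMap.toMatrix_apply, Complex.coe_basisOneI, Matrix.cons_val_zero,
    Matrix.cons_val_one, Complex.coe_basisOneI_repr, ContinuousLinearMap.coe_coe,
    ZArea_actL_apply]
  simp only [act, Complex.one_re, Complex.one_im, Complex.I_re, Complex.I_im]
  simp
  linarith

theorem ZArea_iso_det (g : ℂ ≃ₗᵢ[ℝ] ℂ) :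
    |((g : ℂ ≃L[ℝ] ℂ) : ℂ →L[ℝ] ℂ).det| = 1 := by
  have h1 : volume ((g : ℂ → ℂ) '' Metric.ball 0 1) = volume (Metric.ball (0 : ℂ) 1) := by
    rw [LinearIsometryEquiv.image_ball, map_zero]
  have h2 := MeasureTheory.Measure.addHaar_image_continuousLinearMap (volume : Measure ℂ)
    ((g : ℂ ≃L[ℝ] ℂ) : ℂ →L[ℝ] ℂ) (Metric.ball 0 1)
  have h3 : volume (Metric.ball (0 : ℂ) 1) ≠ 0 := (Metric.measure_ball_pos _ _ one_pos).ne'
  have h4 : volume (Metric.ball (0 : ℂ) 1) ≠ ⊤ := measure_ball_lt_top.ne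
  have h5 : (((g : ℂ ≃L[ℝ] ℂ) : ℂ →L[ℝ] ℂ) : ℂ → ℂ) = (g : ℂ → ℂ) := rfl
  rw [h5, h1] at h2
  have h6 : (1 : ENNReal) * volume (Metric.ball (0 : ℂ) 1) =
      ENNReal.ofReal |((g : ℂ ≃L[ℝ] ℂ) : ℂ →L[ℝ] ℂ).det| * volume (Metric.ball (0 : ℂ) 1) := by
    rw [one_mul]
    exact h2
  have h7 := (ENNReal.mul_left_inj h3 h4).1 h6
  have h8 := congrArg ENNReal.toReal h7
  rw [ENNReal.toReal_one, ENNReal.toReal_ofReal (abs_nonneg _)] at h8
  exact h8.symm

/-- a half-open rectangle -/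
def ZArea_R (w h : ℝ) : Set ℂ := {z | 0 ≤ z.re ∧ z.re < w ∧ 0 < z.im ∧ z.im < h}

theorem ZArea_R_meas (w h : ℝ) : MeasurableSet (ZArea_R w h) := by
  have h1 : ZArea_R w h = (Complex.re ⁻¹' Set.Ico 0 w) ∩ (Complex.im ⁻¹' Set.Ioo 0 h) := by
    ext z
    simp [ZArea_R, and_assoc]
  rw [h1]
  exact (Complex.measurable_re measurableSet_Ico).inter (Complex.measurable_im measurableSet_Ioo)

theorem ZArea_R_vol {w h : ℝ} (hw : 0 < w) (hh : 0 < h) :
    volume (ZArea_R w h) = ENNReal.ofReal (w * h) := by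
  have h1 : ZArea_R w h = Complex.measurableEquivRealProd ⁻¹' (Set.Ico 0 w ×ˢ Set.Ioo 0 h) := by
    ext z
    simp [ZArea_R, and_assoc]
  rw [h1, Complex.volume_preserving_equiv_real_prod.measure_preimage
    (measurableSet_Ico.prod measurableSet_Ioo).nullMeasurableSet]
  rw [Measure.volume_eq_prod, Measure.prod_prod, Real.volume_Ico, Real.volume_Ioo, sub_zero,
    sub_zero, ENNReal.ofReal_mul hw.le]

/-- the part of the rectangle mapped into the copy `g` of the triangle -/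
def ZArea_P (w h : ℝ) (C : ℂ → Surf v) (φ : Surf v ≃ₜ Surf v) (g : G v) : Set ℂ :=
  ZArea_R w h ∩ {z | φ (C z) = Surf.mk g (proj (φ (C z)))}

/-- the point of the triangle below the image of `z` -/
noncomputable def ZArea_f (C : ℂ → Surf v) (φ : Surf v ≃ₜ Surf v) (z : ℂ) : ℂ :=
  (proj (φ (C z)) : body v)

theorem ZArea_P_meas [Finite (G v)] {w h : ℝ} {C : ℂ → Surf v} (hC : Cyl v w h C)
    (φ : Surf v ≃ₜ Surf v) (g : G v) : MeasurableSet (ZArea_P w h C φ g) := by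
  have hT : T2Space (Surf v) := t2_surf v
  set S : Set ℂ := {z | 0 ≤ z.im ∧ z.im ≤ h} with hS
  have hSc : IsClosed S := by
    have h1 : S = Complex.im ⁻¹' Set.Icc 0 h := by
      ext z
      simp [hS]
    rw [h1]
    exact isClosed_Icc.preimage Complex.continuous_im
  have hF : ContinuousOn (fun z => φ (C z)) S := φ.continuous.comp_continuousOn hC.continuousOn
  have hF2 : ContinuousOn (fun z => Surf.mk g (proj (φ (C z)))) S :=
    ((continuous_mk g).comp continuous_proj).comp_continuousOn hF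
  have h2 : IsClosed (S ∩ (fun z => (φ (C z), Surf.mk g (proj (φ (C z))))) ⁻¹'
      {p : Surf v × Surf v | p.1 = p.2}) :=
    (hF.prodMk hF2).preimage_isClosed_of_isClosed hSc (isClosed_eq continuous_fst continuous_snd)
  have h3 : ZArea_P w h C φ g = ZArea_R w h ∩ (S ∩ (fun z => (φ (C z), Surf.mk g (proj (φ (C z))))) ⁻¹'
      {p : Surf v × Surf v | p.1 = p.2}) := by
    ext z
    constructor
    · rintro ⟨hz, hz2⟩
      exact ⟨hz, ⟨hz.2.2.1.le, hz.2.2.2.le⟩, hz2⟩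
    · rintro ⟨hz, _, hz2⟩
      exact ⟨hz, hz2⟩
  rw [h3]
  exact (ZArea_R_meas w h).inter h2.measurableSet

theorem ZArea_inj {w h : ℝ} {C : ℂ → Surf v} (hC : Cyl v w h C)
    (φ : Surf v ≃ₜ Surf v) (g : G v) : Set.InjOn (ZArea_f C φ) (ZArea_P w h C φ g) := by
  rintro z ⟨hz, hz2⟩ z' ⟨hz', hz2'⟩ he
  have h1 : proj (φ (C z)) = proj (φ (C z')) := Subtype.ext he
  have h2 : φ (C z) = φ (C z') := by
    rw [Set.mem_ofPred_eq] at hz2 hz2'
    rw [hz2, hz2', h1]
  obtain ⟨n, hn⟩ := hC.inj z z' hz.2.2.1 hz.2.2.2 hz'.2.2.1 hz'.2.2.2 (φ.injective h2)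
  have hre : z'.re = z.re + n * w := by
    rw [hn]
    simp
  have h0 : n = 0 := by
    have h3 := hC.w_pos
    have h4 : (n : ℝ) * w < 1 * w := by linarith [hz.1, hz'.2.1]
    have h5 : (-1 : ℝ) * w < n * w := by linarith [hz.2.1, hz'.1]
    have h6 : (n : ℝ) < 1 := lt_of_mul_lt_mul_right h4 h3.le
    have h7 : (-1 : ℝ) < n := lt_of_mul_lt_mul_right h5 h3.le
    have h8 : n < 1 := by exact_mod_cast h6
    have h9 : -1 < n := by exact_mod_cast h7
    omega
  rw [hn, h0]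
  simp

/-- the derivative -/
noncomputable def ZArea_L (A : SL(2, ℝ)) (g : G v) : ℂ →L[ℝ] ℂ :=
  (((g : ℂ ≃ₗᵢ[ℝ] ℂ).symm : ℂ ≃L[ℝ] ℂ) : ℂ →L[ℝ] ℂ).comp (ZArea_actL A)

theorem ZArea_L_apply (A : SL(2, ℝ)) (g : G v) (z : ℂ) :
    ZArea_L A g z = (g : ℂ ≃ₗᵢ[ℝ] ℂ).symm (act A z) := rfl

theorem ZArea_L_det (A : SL(2, ℝ)) (g : G v) : |(ZArea_L A g).det| = 1 := by
  have h1 : (ZArea_L A g).det =
      ((((g : ℂ ≃ₗᵢ[ℝ] ℂ).symm : ℂ ≃L[ℝ] ℂ) : ℂ →L[ℝ] ℂ)).det * (ZArea_actL A).det := by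
    exact LinearMap.det_comp _ _
  rw [h1, ZArea_actL_det, mul_one]
  exact ZArea_iso_det _

theorem ZArea_deriv [Finite (G v)] {w h : ℝ} {C : ℂ → Surf v} (hC : Cyl v w h C)
    {A : SL(2, ℝ)} {φ : Surf v ≃ₜ Surf v} (hφ : IsAffine A φ) (g : G v) (z : ℂ)
    (hz : z ∈ ZArea_P w h C φ g) :
    HasFDerivWithinAt (ZArea_f C φ) (ZArea_L A g) (ZArea_P w h C φ g) z := by
  set S : Set ℂ := {z | 0 ≤ z.im ∧ z.im ≤ h} with hS
  have hPS : ZArea_P w h C φ g ⊆ S := fun z' hz' => ⟨hz'.1.2.2.1.le, hz'.1.2.2.2.le⟩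
  have hzS : z ∈ S := hPS hz
  have hCt : Tendsto C (𝓝[ZArea_P w h C φ g] z) (𝓝 (C z)) :=
    (hC.continuousOn z hzS).mono_left (nhdsWithin_mono z hPS)
  have hφt : Tendsto (fun z' => φ (C z')) (𝓝[ZArea_P w h C φ g] z) (𝓝 (φ (C z))) :=
    (φ.continuous.tendsto (C z)).comp hCt
  have hli : ∀ᶠ z' in 𝓝[ZArea_P w h C φ g] z, 0 ≤ z'.im → z'.im ≤ h →
    ∃ (g : G v) (x y : body v), Surf.mk g x = C z ∧ Surf.mk g y = C z' ∧
      (g : ℂ ≃ₗᵢ[ℝ] ℂ) ((y : ℂ) - x) = z' - z :=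
    (hC.li z hzS.1 hzS.2).filter_mono nhdsWithin_le_nhds
  have key : ∀ᶠ z' in 𝓝[ZArea_P w h C φ g] z,
      ZArea_f C φ z' = ZArea_f C φ z + ZArea_L A g (z' - z) := by
    filter_upwards [self_mem_nhdsWithin, hli, hCt.eventually (hφ (C z)),
      hCt.eventually (disp_unique (C z)), hφt.eventually (disp_unique (φ (C z)))]
      with z' hz' h1 h2 h3 h4
    obtain ⟨g0, x, y, a1, a2, a3⟩ := h1 (hPS hz').1 (hPS hz').2
    obtain ⟨g1, g1', x1, y1, x1', y1', b1, b2, b3, b4, b5⟩ := h2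
    have c1 := h3 g0 g1 x y x1 y1 a1 a2 b1 b2
    have hz2 : φ (C z) = Surf.mk g (proj (φ (C z))) := hz.2
    have hz2' : φ (C z') = Surf.mk g (proj (φ (C z'))) := hz'.2
    have c2 := h4 g g1' (proj (φ (C z))) (proj (φ (C z'))) x1' y1' hz2.symm hz2'.symm b3 b4
    rw [b5, ← c1, a3] at c2
    have c3 : ((proj (φ (C z')) : body v) : ℂ) - (proj (φ (C z)) : body v) =
        (g : ℂ ≃ₗᵢ[ℝ] ℂ).symm (act A (z' - z)) := by
      rw [← c2, LinearIsometryEquiv.symm_apply_apply]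
    rw [ZArea_L_apply, ← c3]
    unfold ZArea_f
    ring
  have hd : HasFDerivWithinAt (fun z' => ZArea_f C φ z + ZArea_L A g (z' - z)) (ZArea_L A g)
      (ZArea_P w h C φ g) z := by
    have h1 : HasFDerivWithinAt (fun z' : ℂ => ZArea_L A g (z' - z)) (ZArea_L A g)
        (ZArea_P w h C φ g) z := by
      have h2 : HasFDerivWithinAt (fun z' : ℂ => z' - z) (ContinuousLinearMap.id ℝ ℂ)
          (ZArea_P w h C φ g) z := (hasFDerivWithinAt_id z _).sub_const z
      exact (ZArea_L A g).hasFDerivAt.comp_hasFDerivWithinAt z h2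
    exact h1.const_add _
  refine hd.congr_of_eventuallyEq key ?_
  simp

theorem card_mul_area_le [Finite (G v)] {w h : ℝ} {C : ℂ → Surf v} (hC : Cyl v w h C)
    {ι : Type*} (s : Finset ι) (A : ι → SL(2, ℝ)) (φ : ι → Surf v ≃ₜ Surf v)
    (hφ : ∀ i ∈ s, IsAffine (A i) (φ i))
    (hd : ∀ i ∈ s, ∀ j ∈ s, i ≠ j → ∀ z z' : ℂ, 0 < z.im → z.im < h → 0 < z'.im → z'.im < h →
      φ i (C z) ≠ φ j (C z')) :
    (s.card : ℝ) * (w * h) ≤ Nat.card (G v) * (volume (body v)).toReal := by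
  classical
  have _ : Fintype (G v) := Fintype.ofFinite _
  have hw := hC.w_pos
  have hh := hC.h_pos
  have hvol : ∀ i ∈ s, ∀ g : G v, volume (ZArea_P w h C (φ i) g) =
      volume (ZArea_f C (φ i) '' ZArea_P w h C (φ i) g) := by
    intro i hi g
    rw [← lintegral_abs_det_fderiv_eq_addHaar_image volume (ZArea_P_meas hC (φ i) g)
      (fun z hz => ZArea_deriv hC (hφ i hi) g z hz) (ZArea_inj hC (φ i) g)]
    simp only [ZArea_L_det, ENNReal.ofReal_one]
    rw [setLIntegral_one]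
  have hcov : ∀ i ∈ s, ENNReal.ofReal (w * h) ≤ ∑ g : G v, volume (ZArea_P w h C (φ i) g) := by
    intro i _
    rw [← ZArea_R_vol hw hh]
    have h1 : ZArea_R w h ⊆ ⋃ g : G v, ZArea_P w h C (φ i) g := by
      intro z hz
      obtain ⟨g, x, hx⟩ := mk_surjective (φ i (C z))
      refine Set.mem_iUnion.2 ⟨g, hz, ?_⟩
      rw [Set.mem_ofPred_eq, ← hx, proj_mk]
    exact (measure_mono h1).trans (measure_iUnion_fintype_le _ _)
  have hdis : ∀ g : G v, ∑ i ∈ s, volume (ZArea_f C (φ i) '' ZArea_P w h C (φ i) g) ≤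
      volume (body v) := by
    intro g
    rw [← measure_biUnion_finset]
    · refine measure_mono ?_
      refine Set.iUnion₂_subset fun i _ => ?_
      rintro _ ⟨z, _, rfl⟩
      exact (proj (φ i (C z))).2
    · intro i hi j hj hij
      refine Set.disjoint_left.2 ?_
      rintro _ ⟨z, hz, rfl⟩ ⟨z', hz', he⟩
      refine hd i hi j hj hij z z' hz.1.2.2.1 hz.1.2.2.2 hz'.1.2.2.1 hz'.1.2.2.2 ?_
      have h1 : proj (φ j (C z')) = proj (φ i (C z)) := Subtype.ext he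
      have h2 : φ i (C z) = Surf.mk g (proj (φ i (C z))) := hz.2
      have h3 : φ j (C z') = Surf.mk g (proj (φ j (C z'))) := hz'.2
      rw [h2, h3, h1]
    · intro i hi
      exact measurable_image_of_fderivWithin (ZArea_P_meas hC (φ i) g)
        (fun z hz => ZArea_deriv hC (hφ i hi) g z hz) (ZArea_inj hC (φ i) g)
  have hmain : (s.card : ENNReal) * ENNReal.ofReal (w * h) ≤
      (Nat.card (G v) : ENNReal) * volume (body v) := by
    calc (s.card : ENNReal) * ENNReal.ofReal (w * h)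
        = ∑ i ∈ s, ENNReal.ofReal (w * h) := by
          rw [Finset.sum_const, nsmul_eq_mul]
      _ ≤ ∑ i ∈ s, ∑ g : G v, volume (ZArea_P w h C (φ i) g) := Finset.sum_le_sum hcov
      _ = ∑ i ∈ s, ∑ g : G v, volume (ZArea_f C (φ i) '' ZArea_P w h C (φ i) g) :=
          Finset.sum_congr rfl fun i hi => Finset.sum_congr rfl fun g _ => hvol i hi g
      _ = ∑ g : G v, ∑ i ∈ s, volume (ZArea_f C (φ i) '' ZArea_P w h C (φ i) g) :=
          Finset.sum_comm
      _ ≤ ∑ _g : G v, volume (body v) := Finset.sum_le_sum fun g _ => hdis g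
      _ = (Nat.card (G v) : ENNReal) * volume (body v) := by
          rw [Finset.sum_const, nsmul_eq_mul, Nat.card_eq_fintype_card, Finset.card_univ]
  have hfin : volume (body v) ≠ ⊤ := isCompact_body.measure_lt_top.ne
  have h9 := ENNReal.toReal_mono (ENNReal.mul_ne_top (ENNReal.natCast_ne_top _) hfin) hmain
  rwa [ENNReal.toReal_mul, ENNReal.toReal_mul, ENNReal.toReal_natCast, ENNReal.toReal_natCast,
    ENNReal.toReal_ofReal (mul_pos hw hh).le] at h9

end Pool.Agent.OBT
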