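import Mathlib
import Pool.Agent.OBT.ZReg

/-!
# Affine homeomorphisms and cylinders: continuation of coincidences
-/

open scoped ComplexConjugate Topology MatrixGroups UpperHalfPlane
open MeasureTheory Filter

namespace Pool.Agent.OBT

variable {v : Fin 3 → ℂ}

theorem ZLift_act_sub (A : SL(2, ℝ)) (a b : ℂ) : act A (a - b) = act A a - act A b := by
  apply Complex.ext
  · simp only [act, Complex.sub_re, Complex.sub_im]; ring
  · simp only [act, Complex.sub_re, Complex.sub_im]; ring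

theorem ZLift_act_zero (A : SL(2, ℝ)) : act A 0 = 0 := by
  apply Complex.ext <;> simp [act]

theorem ZLift_continuous_act (A : SL(2, ℝ)) : Continuous (act A) := by
  have h : act A = fun z : ℂ => (((A 0 0 * z.re + A 0 1 * z.im : ℝ) : ℂ) +
      ((A 1 0 * z.re + A 1 1 * z.im : ℝ) : ℂ) * Complex.I) := by
    funext z
    apply Complex.ext <;> simp [act]
  rw [h]
  have hre := Complex.continuous_re
  have him := Complex.continuous_im
  have h1 : Continuous fun z : ℂ => A 0 0 * z.re + A 0 1 * z.im :=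
    (continuous_const.mul hre).add (continuous_const.mul him)
  have h2 : Continuous fun z : ℂ => A 1 0 * z.re + A 1 1 * z.im :=
    (continuous_const.mul hre).add (continuous_const.mul him)
  exact (Complex.continuous_ofReal.comp h1).add
    ((Complex.continuous_ofReal.comp h2).mul continuous_const)

/-- the local step -/
theorem ZLift_local [Finite (G v)] {A : SL(2, ℝ)} {φ : Surf v ≃ₜ Surf v} (hφ : IsAffine A φ)
    {w h : ℝ} {C : ℂ → Surf v} (hC : Cyl v w h C) {K : Set ℂ} (z1 z2 : ℂ)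
    (hK1 : ∀ z ∈ K, 0 ≤ z.im ∧ z.im ≤ h)
    (hK2 : ∀ z ∈ K, 0 < (z1 + act A (z - z2)).im ∧ (z1 + act A (z - z2)).im < h)
    {z0 : ℂ} (hz0 : z0 ∈ K) (h0 : φ (C z0) = C (z1 + act A (z0 - z2))) :
    ∀ᶠ z in 𝓝[K] z0, φ (C z) = C (z1 + act A (z - z2)) := by
  have hfc : Continuous fun z : ℂ => z1 + act A (z - z2) :=
    continuous_const.add ((ZLift_continuous_act A).comp (continuous_id.sub continuous_const))
  have hCc := hC.continuousOn
  -- continuity of `C` within `K` at `z0`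
  have hC0 : Tendsto C (𝓝[K] z0) (𝓝 (C z0)) :=
    (hCc z0 (hK1 z0 hz0)).mono_left (nhdsWithin_mono _ fun z hz => hK1 z hz)
  have hf0 : Tendsto (fun z : ℂ => z1 + act A (z - z2)) (𝓝[K] z0)
      (𝓝 (z1 + act A (z0 - z2))) := (hfc.tendsto z0).mono_left nhdsWithin_le_nhds
  have hst : (z1 + act A (z0 - z2)) ∈ {z : ℂ | 0 ≤ z.im ∧ z.im ≤ h} :=
    ⟨(hK2 z0 hz0).1.le, (hK2 z0 hz0).2.le⟩
  have hCf : Tendsto (fun z : ℂ => C (z1 + act A (z - z2))) (𝓝[K] z0)
      (𝓝 (C (z1 + act A (z0 - z2)))) := by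
    have h1 := hCc _ hst
    refine h1.tendsto.comp ?_
    refine tendsto_nhdsWithin_iff.mpr ⟨hf0, ?_⟩
    filter_upwards [self_mem_nhdsWithin] with z hz
    exact ⟨(hK2 z hz).1.le, (hK2 z hz).2.le⟩
  obtain ⟨U, hU, hinj⟩ := hC.reg _ (hK2 z0 hz0).1 (hK2 z0 hz0).2
  have e1 : ∀ᶠ z in 𝓝[K] z0, C (z1 + act A (z - z2)) ∈ U := hCf hU
  have e2 : ∀ᶠ z in 𝓝[K] z0, φ (C z) ∈ U := by
    have h2 : Tendsto (fun z => φ (C z)) (𝓝[K] z0) (𝓝 (φ (C z0))) :=
      (φ.continuous.tendsto _).comp hC0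
    rw [h0] at h2
    exact h2 hU
  have e3 := (hC.li z0 (hK1 z0 hz0).1 (hK1 z0 hz0).2).filter_mono
    (nhdsWithin_le_nhds (s := K))
  have e4 := hf0.eventually (hC.li _ (hK2 z0 hz0).1.le (hK2 z0 hz0).2.le)
  have e5 := hC0.eventually (hφ (C z0))
  have e6 := hC0.eventually (disp_unique (C z0))
  filter_upwards [e1, e2, e3, e4, e5, e6, self_mem_nhdsWithin] with z h1 h2 h3 h4 h5 h6 hz
  obtain ⟨g, x, y, a1, a2, a3⟩ := h3 (hK1 z hz).1 (hK1 z hz).2
  obtain ⟨g', x', y', b1, b2, b3⟩ := h4 (hK2 z hz).1.le (hK2 z hz).2.le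
  obtain ⟨k, k', p, q, p', q', c1, c2, c3, c4, c5⟩ := h5
  have d1 := h6 g k x y p q a1 a2 c1 c2
  refine hinj _ h2 _ h1 k' g' p' q' x' y' (c3.trans h0) c4 b1 b2 ?_
  rw [c5, b3, ← d1, a3]
  have : z1 + act A (z - z2) - (z1 + act A (z0 - z2)) =
      act A (z - z2) - act A (z0 - z2) := by ring
  rw [this, ← ZLift_act_sub]
  congr 1
  ring

theorem lift_affine [Finite (G v)] {A : SL(2, ℝ)} {φ : Surf v ≃ₜ Surf v} (hφ : IsAffine A φ)
    {w h : ℝ} {C : ℂ → Surf v} (hC : Cyl v w h C) {K : Set ℂ} (hK : Convex ℝ K) (z1 z2 : ℂ)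
    (hz2 : z2 ∈ K) (hK1 : ∀ z ∈ K, 0 ≤ z.im ∧ z.im ≤ h)
    (hK2 : ∀ z ∈ K, 0 < (z1 + act A (z - z2)).im ∧ (z1 + act A (z - z2)).im < h)
    (h12 : φ (C z2) = C z1) : ∀ z ∈ K, φ (C z) = C (z1 + act A (z - z2)) := by
  intro z hz
  have hT2 := t2_surf v
  have hCc := hC.continuousOn
  have hfc : Continuous fun z : ℂ => z1 + act A (z - z2) :=
    continuous_const.add ((ZLift_continuous_act A).comp (continuous_id.sub continuous_const))
  obtain ⟨γ, hγ⟩ : ∃ γ : ℝ → ℂ, γ = fun s : ℝ => z2 + s • (z - z2) := ⟨_, rfl⟩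
  have hγc : Continuous γ := by
    rw [hγ]
    exact continuous_const.add (continuous_id.smul continuous_const)
  have hγK : ∀ s ∈ Set.Icc (0 : ℝ) 1, γ s ∈ K := by
    intro s hs
    rw [hγ]
    exact hK.add_smul_sub_mem hz2 hz hs
  have hcl : IsClosed ({s : ℝ | φ (C (γ s)) = C (z1 + act A (γ s - z2))} ∩ Set.Icc 0 1) := by
    have c1 : ContinuousOn (fun s => φ (C (γ s))) (Set.Icc 0 1) := by
      refine φ.continuous.comp_continuousOn ?_
      exact hCc.comp hγc.continuousOn (fun s hs => hK1 _ (hγK s hs))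
    have c2 : ContinuousOn (fun s => C (z1 + act A (γ s - z2))) (Set.Icc 0 1) := by
      refine hCc.comp (hfc.comp hγc).continuousOn (fun s hs => ?_)
      exact ⟨(hK2 _ (hγK s hs)).1.le, (hK2 _ (hγK s hs)).2.le⟩
    have h3 := (c1.prodMk c2).preimage_isClosed_of_isClosed isClosed_Icc isClosed_diagonal
    rw [Set.inter_comm]
    exact h3
  have hsub : Set.Icc (0 : ℝ) 1 ⊆ {s : ℝ | φ (C (γ s)) = C (z1 + act A (γ s - z2))} := by
    refine hcl.Icc_subset_of_forall_mem_nhdsWithin ?_ ?_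
    · have h4 : γ 0 = z2 := by rw [hγ]; simp
      change φ (C (γ 0)) = C (z1 + act A (γ 0 - z2))
      rw [h4, sub_self, ZLift_act_zero, add_zero, h12]
    · rintro s ⟨hs1, hs2⟩
      have hsI : s ∈ Set.Icc (0 : ℝ) 1 := ⟨hs2.1, hs2.2.le⟩
      have h5 := ZLift_local hφ hC z1 z2 hK1 hK2 (hγK s hsI) hs1
      have h6 : Tendsto γ (𝓝[>] s) (𝓝[K] (γ s)) := by
        refine tendsto_nhdsWithin_iff.mpr ⟨(hγc.tendsto s).mono_left nhdsWithin_le_nhds, ?_⟩
        have h7 : Set.Ioo s 1 ∈ 𝓝[>] s := Ioo_mem_nhdsGT hs2.2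
        filter_upwards [h7] with u hu
        exact hγK u ⟨hs2.1.trans hu.1.le, hu.2.le⟩
      exact h6.eventually h5
  have h8 := hsub (Set.right_mem_Icc.mpr zero_le_one)
  have h9 : γ 1 = z := by rw [hγ]; simp
  change φ (C (γ 1)) = C (z1 + act A (γ 1 - z2)) at h8
  rwa [h9] at h8

end Pool.Agent.OBT
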