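import Mathlib
import Pool.Agent.OBT.ZLift

/-!
# Short cylinders do not cross tall ones
-/

open scoped ComplexConjugate Topology MatrixGroups UpperHalfPlane
open MeasureTheory Filter

namespace Pool.Agent.OBT

variable {v : Fin 3 → ℂ}

theorem ZCross_act_real (A : SL(2, ℝ)) (t : ℝ) : act A (t : ℂ) = t * act A 1 := by
  apply Complex.ext
  · simp [act]
    ring
  · simp [act]
    ring

theorem ZCross_key [Finite (G v)] {A : SL(2, ℝ)} {φ : Surf v ≃ₜ Surf v} (hφ : IsAffine A φ)
    {w h : ℝ} {C : ℂ → Surf v} (hC : Cyl v w h C) (z1 z2 : ℂ)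
    (h1 : 0 < z1.im) (h1' : z1.im < h) (h2 : 0 < z2.im) (h2' : z2.im < h)
    (h12 : φ (C z2) = C z1) (hA : w * |(act A 1).im| < h) :
    ∃ n : ℤ, act A 1 = n := by
  have hw := hC.w_pos
  set a : ℝ := (act A 1).im with ha
  have him : ∀ t : ℝ, (z1 + act A (t : ℂ)).im = z1.im + t * a := by
    intro t
    rw [ZCross_act_real, Complex.add_im, Complex.im_ofReal_mul]
  set K : Set ℂ := {z | ∃ t : ℝ, z = z2 + t ∧ 0 < z1.im + t * a ∧ z1.im + t * a < h} with hKdef
  have hKc : Convex ℝ K := by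
    rintro x ⟨s, rfl, hs0, hs1⟩ y ⟨t, rfl, ht0, ht1⟩ p q hp hq hpq
    refine ⟨p * s + q * t, ?_, ?_, ?_⟩
    · have hpq' : (p : ℂ) + q = 1 := by exact_mod_cast hpq
      rw [Complex.real_smul, Complex.real_smul]
      push_cast
      linear_combination (z2 : ℂ) * hpq'
    · have e : z1.im + (p * s + q * t) * a = p * (z1.im + s * a) + q * (z1.im + t * a) := by
        linear_combination (-z1.im) * hpq
      rw [e]
      rcases hp.eq_or_lt with hp0 | hp0
      · have hq1 : q = 1 := by linarith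
        rw [← hp0, hq1]
        linarith
      · have := mul_pos hp0 hs0
        have := mul_nonneg hq ht0.le
        linarith
    · have e : z1.im + (p * s + q * t) * a = p * (z1.im + s * a) + q * (z1.im + t * a) := by
        linear_combination (-z1.im) * hpq
      rw [e]
      rcases hp.eq_or_lt with hp0 | hp0
      · have hq1 : q = 1 := by linarith
        rw [← hp0, hq1]
        linarith
      · have e1 := mul_lt_mul_of_pos_left hs1 hp0
        have e2 := mul_le_mul_of_nonneg_left ht1.le hq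
        have e3 : p * h + q * h = h := by rw [← add_mul, hpq, one_mul]
        linarith
  have hz2K : z2 ∈ K := ⟨0, by simp, by simpa using h1, by simpa using h1'⟩
  have hlift := lift_affine hφ hC hKc z1 z2 hz2K
    (by
      rintro z ⟨t, rfl, -, -⟩
      rw [Complex.add_im, Complex.ofReal_im, add_zero]
      exact ⟨h2.le, h2'.le⟩)
    (by
      rintro z ⟨t, rfl, ht0, ht1⟩
      rw [add_sub_cancel_left, him]
      exact ⟨ht0, ht1⟩) h12
  obtain ⟨t0, ht0, ht0', ht1, ht1'⟩ : ∃ t0 : ℝ, 0 < z1.im + t0 * a ∧ z1.im + t0 * a < h ∧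
      0 < z1.im + (t0 + w) * a ∧ z1.im + (t0 + w) * a < h := by
    by_cases ha0 : a = 0
    · refine ⟨0, ?_, ?_, ?_, ?_⟩ <;> rw [ha0] <;> simpa
    · have hb : |w * a| < h := by rw [abs_mul, abs_of_pos hw]; exact hA
      have hb1 := (abs_lt.1 hb).1
      have hb2 := (abs_lt.1 hb).2
      refine ⟨((h - w * a) / 2 - z1.im) / a, ?_⟩
      have e1 : z1.im + ((h - w * a) / 2 - z1.im) / a * a = (h - w * a) / 2 := by
        rw [div_mul_cancel₀ _ ha0]
        ring
      have e2 : z1.im + (((h - w * a) / 2 - z1.im) / a + w) * a = (h + w * a) / 2 := by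
        rw [add_mul, div_mul_cancel₀ _ ha0]
        ring
      rw [e1, e2]
      refine ⟨by linarith, by linarith, by linarith, by linarith⟩
  have e1 := hlift (z2 + t0) ⟨t0, rfl, ht0, ht0'⟩
  have e2 := hlift (z2 + (t0 + w : ℝ)) ⟨t0 + w, rfl, ht1, ht1'⟩
  rw [add_sub_cancel_left] at e1 e2
  have hper : C (z2 + (t0 + w : ℝ)) = C (z2 + t0) := by
    have := hC.per (z2 + t0) (by
      rw [Complex.add_im, Complex.ofReal_im, add_zero]; exact h2.le) (by
      rw [Complex.add_im, Complex.ofReal_im, add_zero]; exact h2'.le)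
    rw [← this]
    congr 1
    push_cast
    ring
  rw [hper, e1] at e2
  obtain ⟨n, hn⟩ := hC.inj _ _ (by rw [him]; exact ht0) (by rw [him]; exact ht0')
    (by rw [him]; exact ht1) (by rw [him]; exact ht1') e2
  refine ⟨n, ?_⟩
  rw [ZCross_act_real, ZCross_act_real] at hn
  push_cast at hn
  have hw' : (w : ℂ) ≠ 0 := by exact_mod_cast hw.ne'
  apply mul_left_cancel₀ hw'
  linear_combination hn

theorem cyl_cross [Finite (G v)] {A : SL(2, ℝ)} {φ : Surf v ≃ₜ Surf v} (hφ : IsAffine A φ)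
    {w h : ℝ} {C : ℂ → Surf v} (hC : Cyl v w h C) (z1 z2 : ℂ)
    (h1 : 0 < z1.im) (h1' : z1.im < h) (h2 : 0 < z2.im) (h2' : z2.im < h)
    (h12 : φ (C z2) = C z1) (hA : w * |(act A 1).im| < h) :
    act A 1 = 1 ∨ act A 1 = -1 := by
  obtain ⟨n, hn⟩ := ZCross_key hφ hC z1 z2 h1 h1' h2 h2' h12 hA
  have hinv : (n : ℂ) * act A⁻¹ 1 = 1 := by
    have e : act A⁻¹ (act A 1) = 1 := act_inv_act A 1
    rw [hn] at e
    have e' : act A⁻¹ ((n : ℝ) : ℂ) = (n : ℝ) * act A⁻¹ 1 := ZCross_act_real A⁻¹ n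
    rw [Complex.ofReal_intCast] at e'
    rw [← e', e]
  have him : (act A⁻¹ 1).im = 0 := by
    have e := congrArg Complex.im hinv
    have hn0 : (n : ℝ) ≠ 0 := by
      intro h0
      have : (n : ℂ) = 0 := by exact_mod_cast h0
      rw [this, zero_mul] at hinv
      exact zero_ne_one hinv
    have e3 : ((n : ℂ) * act A⁻¹ 1).im = n * (act A⁻¹ 1).im := by
      have := Complex.im_ofReal_mul (n : ℝ) (act A⁻¹ 1)
      rwa [Complex.ofReal_intCast] at this
    rw [e3, Complex.one_im] at e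
    exact (mul_eq_zero.1 e).resolve_left hn0
  have h21 : φ.symm (C z1) = C z2 := by rw [← h12, Homeomorph.symm_apply_apply]
  obtain ⟨m, hm⟩ := ZCross_key (isAffine_symm hφ) hC z2 z1 h2 h2' h1 h1' h21
    (by rw [him, abs_zero, mul_zero]; exact hC.h_pos)
  rw [hm] at hinv
  have hnm : n * m = 1 := by exact_mod_cast hinv
  rcases Int.isUnit_iff.1 (IsUnit.of_mul_eq_one m hnm) with h' | h'
  · left
    rw [hn, h']
    simp
  · right
    rw [hn, h']
    simp

end Pool.Agent.OBT
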