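import Mathlib
import Pool.Agent.OBT.ZCross
import Pool.Agent.OBT.ZArea

/-!
# The Veech group of a surface with a cylinder is discrete
-/

open scoped ComplexConjugate Topology MatrixGroups UpperHalfPlane
open MeasureTheory Filter

namespace Pool.Agent.OBT

variable {v : Fin 3 → ℂ}

set_option maxHeartbeats 400000

theorem CD_cont (i j : Fin 2) : Continuous (fun A : SL(2, ℝ) => A i j) :=
  (continuous_apply_apply i j).comp continuous_subtype_val

theorem CD_act_one (A : SL(2, ℝ)) : (act A 1).re = A 0 0 ∧ (act A 1).im = A 1 0 := by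
  constructor <;> simp [act]

/-- matrices which almost fix the vector `1` -/
def CD_W (w h : ℝ) : Set SL(2, ℝ) := {A | w * |A 1 0| < h ∧ 0 < A 0 0}

theorem CD_W_open (w h : ℝ) : IsOpen (CD_W w h) :=
  (isOpen_lt (continuous_const.mul (CD_cont 1 0).abs) continuous_const).inter
    (isOpen_lt continuous_const (CD_cont 0 0))

theorem CD_W_one {w h : ℝ} (hh : 0 < h) : (1 : SL(2, ℝ)) ∈ CD_W w h := by
  have e1 : ((1 : SL(2, ℝ)) 1 0) = 0 := by simp
  have e2 : ((1 : SL(2, ℝ)) 0 0) = 1 := by simp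
  refine ⟨?_, ?_⟩
  · rw [e1, abs_zero, mul_zero]
    exact hh
  · rw [e2]
    exact one_pos

theorem CD_nhd_group {G : Type*} [Group G] [TopologicalSpace G] [IsTopologicalGroup G] (W : Set G)
    (hWo : IsOpen W) (hW1 : (1 : G) ∈ W) : ∃ U ∈ 𝓝 (1 : G), ∀ A ∈ U, ∀ B ∈ U, A⁻¹ * B ∈ W := by
  have h1 : Tendsto (fun p : G × G => p.1⁻¹ * p.2) (𝓝 1 ×ˢ 𝓝 1)
      (𝓝 ((1 : G)⁻¹ * 1)) := tendsto_fst.inv.mul tendsto_snd
  rw [inv_one, mul_one] at h1
  have h2 := h1 (hWo.mem_nhds hW1)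
  obtain ⟨U, hU, hUW⟩ := mem_prod_same_iff.1 h2
  exact ⟨U, hU, fun A hA B hB => hUW (Set.mk_mem_prod hA hB)⟩

theorem CD_conj_group {G : Type*} [Group G] [TopologicalSpace G] [IsTopologicalGroup G] (R : G)
    {U : Set G} (hU : U ∈ 𝓝 (1 : G)) : {A : G | R⁻¹ * A * R ∈ U} ∈ 𝓝 (1 : G) := by
  have hcont : Continuous (fun A : G => R⁻¹ * A * R) :=
    (continuous_const.mul continuous_id).mul continuous_const
  have h1 : Tendsto (fun A : G => R⁻¹ * A * R) (𝓝 1) (𝓝 (R⁻¹ * 1 * R)) := hcont.tendsto 1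
  rw [mul_one, inv_mul_cancel] at h1
  exact h1 hU

theorem CD_discrete_group {G : Type*} [Group G] [TopologicalSpace G] [IsTopologicalGroup G]
    (H : Subgroup G) {U : Set G} (hU : U ∈ 𝓝 (1 : G)) (h : ∀ A ∈ H, A ∈ U → A = 1) :
    DiscreteTopology H := by
  obtain ⟨V, hVsub, hVo, hV1⟩ := mem_nhds_iff.1 hU
  apply discreteTopology_of_isOpen_singleton_one
  have e : ({1} : Set H) = (fun A : H => (A : G)) ⁻¹' V := by
    ext A
    constructor
    · rintro rfl
      exact hV1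
    · intro hA
      exact Subtype.ext (h A A.2 (hVsub hA))
  rw [e]
  exact hVo.preimage continuous_subtype_val

theorem CD_nhd {w h : ℝ} (hh : 0 < h) : ∃ U ∈ 𝓝 (1 : SL(2, ℝ)), ∀ A ∈ U, ∀ B ∈ U,
    A⁻¹ * B ∈ CD_W w h := CD_nhd_group (CD_W w h) (CD_W_open w h) (CD_W_one hh)

theorem CD_disj [Finite (G v)] {w h : ℝ} {C : ℂ → Surf v} (hC : Cyl v w h C)
    {A B : SL(2, ℝ)} {φ ψ : Surf v ≃ₜ Surf v} (hA : IsAffine A φ) (hB : IsAffine B ψ)
    (hAB : A⁻¹ * B ∈ CD_W w h) (hne : act A 1 ≠ act B 1) (y y' : ℂ) (hy : 0 < y.im)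
    (hy' : y.im < h) (hy1 : 0 < y'.im) (hy1' : y'.im < h) : φ (C y) ≠ ψ (C y') := by
  intro heq
  obtain ⟨hm1, hm2⟩ := hAB
  have haff := isAffine_trans hB (isAffine_symm hA)
  have e0 : (ψ.trans φ.symm) (C y') = C y := by
    rw [Homeomorph.trans_apply, ← heq, Homeomorph.symm_apply_apply]
  have e1 : w * |(act (A⁻¹ * B) 1).im| < h := by
    rw [(CD_act_one _).2]
    exact hm1
  have hpos : 0 < (act (A⁻¹ * B) 1).re := by
    rw [(CD_act_one _).1]
    exact hm2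
  rcases cyl_cross haff hC y y' hy hy' hy1 hy1' e0 e1 with h1 | h1
  · apply hne
    rw [act_mul] at h1
    have h2 := congrArg (act A) h1
    rw [← act_mul, mul_inv_cancel, act_one] at h2
    exact h2.symm
  · rw [h1, Complex.neg_re, Complex.one_re] at hpos
    linarith

/-- close to the identity there are only finitely many images of the vector `1` -/
theorem CD_finite [Finite (G v)] {w h : ℝ} {C : ℂ → Surf v} (hC : Cyl v w h C) :
    ∃ U ∈ 𝓝 (1 : SL(2, ℝ)), {u : ℂ | ∃ A : SL(2, ℝ), A ∈ veech v ∧ A ∈ U ∧ act A 1 = u}.Finite := by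
  classical
  have hwh : 0 < w * h := mul_pos hC.w_pos hC.h_pos
  obtain ⟨U, hU, hUW⟩ := CD_nhd (w := w) hC.h_pos
  refine ⟨U, hU, ?_⟩
  by_contra hinf
  set K : ℝ := Nat.card (G v) * (volume (body v)).toReal with hK
  obtain ⟨t, ht, htc⟩ := (Set.Infinite.exists_subset_card_eq (hinf : Set.Infinite _)
    (⌊K / (w * h)⌋₊ + 1))
  have hch : ∀ u : ℂ, ∃ p : SL(2, ℝ) × (Surf v ≃ₜ Surf v), u ∈ t →
      p.1 ∈ U ∧ act p.1 1 = u ∧ IsAffine p.1 p.2 := by
    intro u
    by_cases hu : u ∈ t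
    · obtain ⟨A, hA1, hA2, hA3⟩ := ht hu
      obtain ⟨φ, hφ⟩ := (mem_veech_iff A).1 hA1
      exact ⟨(A, φ), fun _ => ⟨hA2, hA3, hφ⟩⟩
    · exact ⟨(1, Homeomorph.refl _), fun h => absurd h hu⟩
  choose p hp using hch
  have harea := card_mul_area_le hC t (fun u => (p u).1) (fun u => (p u).2)
    (fun u hu => (hp u hu).2.2) (by
    intro a ha b hb hab y y' hy hy' hy1 hy1'
    obtain ⟨a1, a2, a3⟩ := hp a ha
    obtain ⟨b1, b2, b3⟩ := hp b hb
    exact CD_disj hC a3 b3 (hUW _ a1 _ b1) (by rw [a2, b2]; exact hab) y y' hy hy' hy1 hy1')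
  rw [htc] at harea
  have h2 : ((⌊K / (w * h)⌋₊ + 1 : ℕ) : ℝ) ≤ K / (w * h) := by
    rw [le_div_iff₀ hwh]
    exact harea
  have h3 := Nat.lt_floor_add_one (K / (w * h))
  push_cast at h2
  linarith

/-- close to the identity the elements of the Veech group fix the vector `1` -/
theorem CD_fix [Finite (G v)] {w h : ℝ} {C : ℂ → Surf v} (hC : Cyl v w h C) :
    ∃ U ∈ 𝓝 (1 : SL(2, ℝ)), ∀ A ∈ veech v, A ∈ U → act A 1 = 1 := by
  obtain ⟨U, hU, hfin⟩ := CD_finite hC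
  have hcont : Continuous (fun A : SL(2, ℝ) => act A 1) := by
    have e : (fun A : SL(2, ℝ) => act A 1) = fun A : SL(2, ℝ) => (⟨A 0 0, A 1 0⟩ : ℂ) := by
      funext A
      apply Complex.ext
      · exact (CD_act_one A).1
      · exact (CD_act_one A).2
    rw [e]
    exact Complex.equivRealProdCLM.symm.continuous.comp
      ((CD_cont 0 0).prodMk (CD_cont 1 0))
  have hcl : IsClosed ({u : ℂ | ∃ A : SL(2, ℝ), A ∈ veech v ∧ A ∈ U ∧ act A 1 = u} \ {1}) :=
    (hfin.subset Set.sdiff_subset).isClosed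
  have hopen : IsOpen ((fun A : SL(2, ℝ) => act A 1) ⁻¹'
      ({u : ℂ | ∃ A : SL(2, ℝ), A ∈ veech v ∧ A ∈ U ∧ act A 1 = u} \ {1})ᶜ) :=
    hcl.isOpen_compl.preimage hcont
  refine ⟨U ∩ (fun A : SL(2, ℝ) => act A 1) ⁻¹'
      ({u : ℂ | ∃ A : SL(2, ℝ), A ∈ veech v ∧ A ∈ U ∧ act A 1 = u} \ {1})ᶜ,
    inter_mem hU (hopen.mem_nhds ?_), ?_⟩
  · intro h1
    exact h1.2 (act_one 1)
  · rintro A hA ⟨h1, h2⟩
    by_contra h3
    exact h2 ⟨⟨A, hA, h1, rfl⟩, h3⟩

/-- **The Veech group is discrete.** -/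
theorem discrete_of_cyl [Finite (G v)] {w h : ℝ} {C : ℂ → Surf v} (hC : Cyl v w h C)
    {R : SL(2, ℝ)} (hR : R ∈ veech v) (hRi : R 1 0 ≠ 0) : DiscreteTopology (veech v) := by
  obtain ⟨U, hU, hfix⟩ := CD_fix hC
  have hV := inter_mem hU (CD_conj_group R hU)
  refine CD_discrete_group (veech v) hV ?_
  · intro A hA hAV
    obtain ⟨h1, h2⟩ := hAV
    have f1 := hfix A hA h1
    have f2 := hfix _ ((veech v).mul_mem ((veech v).mul_mem ((veech v).inv_mem hR) hA) hR) h2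
    have e1 := (CD_act_one A).1
    have e2 := (CD_act_one A).2
    rw [f1] at e1 e2
    have a00 : A 0 0 = 1 := by rw [← e1]; simp
    have a10 : A 1 0 = 0 := by rw [← e2]; simp
    have hdet := Act_det A
    have a11 : A 1 1 = 1 := by
      rw [a00, a10] at hdet
      linarith
    -- the second vector
    have f3 : act A (act R 1) = act R 1 := by
      rw [act_mul, act_mul] at f2
      have h3 := congrArg (act R) f2
      rwa [← act_mul, mul_inv_cancel, act_one] at h3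
    have f4 := congrArg Complex.re f3
    have g1 : (act A (act R 1)).re = A 0 0 * (act R 1).re + A 0 1 * (act R 1).im := rfl
    rw [g1, (CD_act_one R).1, (CD_act_one R).2, a00] at f4
    have a01 : A 0 1 = 0 := by
      have : A 0 1 * R 1 0 = 0 := by linarith
      rcases mul_eq_zero.1 this with h | h
      · exact h
      · exact absurd h hRi
    apply Subtype.ext
    ext i j
    fin_cases i <;> fin_cases j
    · show A 0 0 = (1 : Matrix (Fin 2) (Fin 2) ℝ) 0 0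
      rw [a00]; simp
    · show A 0 1 = (1 : Matrix (Fin 2) (Fin 2) ℝ) 0 1
      rw [a01]; simp
    · show A 1 0 = (1 : Matrix (Fin 2) (Fin 2) ℝ) 1 0
      rw [a10]; simp
    · show A 1 1 = (1 : Matrix (Fin 2) (Fin 2) ℝ) 1 1
      rw [a11]; simp

end Pool.Agent.OBT
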