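import Mathlib

/-!
# The Blaschke kernel of the upper half plane
-/

open scoped ComplexConjugate Topology MatrixGroups UpperHalfPlane
open MeasureTheory

namespace Pool.Agent.OBT

noncomputable section

/-- The Blaschke factor of the upper half plane with zero `w`. -/
def bl (w z : ℂ) : ℂ := (z - w) / (z - conj w)

/-- The invariant kernel `1 - |B_w(z)|²`. -/
def pk (z w : ℍ) : ℝ := 1 - ‖bl (w : ℂ) (z : ℂ)‖ ^ 2

theorem L1_norm_bl (z w : ℍ) : ‖bl (w : ℂ) (z : ℂ)‖ = Real.tanh (dist z w / 2) := by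
  rw [UpperHalfPlane.tanh_half_dist, bl, norm_div, dist_eq_norm, dist_eq_norm]

theorem pk_eq_cosh (z w : ℍ) : pk z w = 1 / Real.cosh (dist z w / 2) ^ 2 := by
  have h1 : Real.cosh (dist z w / 2) ≠ 0 := (Real.cosh_pos _).ne'
  have h2 := Real.cosh_sq (dist z w / 2)
  rw [pk, L1_norm_bl, Real.tanh_eq_sinh_div_cosh]
  field_simp
  linarith

theorem pk_pos (z w : ℍ) : 0 < pk z w := by
  rw [pk_eq_cosh]
  have := Real.cosh_pos (dist z w / 2)
  positivity

theorem pk_le_one (z w : ℍ) : pk z w ≤ 1 := by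
  unfold pk
  have := sq_nonneg ‖bl (w : ℂ) (z : ℂ)‖
  linarith

theorem pk_comm (z w : ℍ) : pk z w = pk w z := by
  rw [pk_eq_cosh, pk_eq_cosh, dist_comm]

theorem pk_smul (γ : SL(2, ℝ)) (z w : ℍ) : pk (γ • z) (γ • w) = pk z w := by
  rw [pk_eq_cosh, pk_eq_cosh, dist_smul]

theorem L1_cosh_add_le {d x : ℝ} (hx : 0 ≤ x) :
    Real.cosh (d + x) ≤ Real.cosh d * Real.exp x := by
  rw [Real.cosh_add, ← Real.cosh_add_sinh x, mul_add]
  have h1 : Real.sinh d ≤ Real.cosh d := (Real.sinh_lt_cosh d).le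
  have h2 : 0 ≤ Real.sinh x := Real.sinh_nonneg_iff.mpr hx
  have := mul_le_mul_of_nonneg_right h1 h2
  linarith

theorem pk_le_exp (z z' w : ℍ) : pk z w ≤ Real.exp (dist z z') * pk z' w := by
  rw [pk_eq_cosh, pk_eq_cosh]
  set c := Real.cosh (dist z w / 2) with hc
  set c' := Real.cosh (dist z' w / 2) with hc'
  have h0 : 0 < c := Real.cosh_pos _
  have h0' : 0 < c' := Real.cosh_pos _
  have h1 : c' ≤ c * Real.exp (dist z z' / 2) := by
    have h2 : dist z' w / 2 ≤ dist z w / 2 + dist z z' / 2 := by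
      have := dist_triangle z' z w
      rw [dist_comm z' z] at this
      linarith
    have h3 : c' ≤ Real.cosh (dist z w / 2 + dist z z' / 2) := by
      rw [hc', Real.cosh_le_cosh, abs_of_nonneg (by positivity), abs_of_nonneg (by positivity)]
      exact h2
    exact h3.trans (L1_cosh_add_le (by positivity))
  have h4 : Real.exp (dist z z') = Real.exp (dist z z' / 2) ^ 2 := by
    rw [← Real.exp_nat_mul]; congr 1; push_cast; ring
  rw [h4, mul_one_div, div_le_div_iff₀ (by positivity) (by positivity), one_mul, ← mul_pow]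
  rw [mul_comm (Real.exp _) c]
  exact pow_le_pow_left₀ h0'.le h1 2

theorem norm_bl_lt_one (z w : ℍ) : ‖bl (w : ℂ) (z : ℂ)‖ < 1 := by
  have h := pk_pos z w
  unfold pk at h
  have h1 := norm_nonneg (bl (w : ℂ) (z : ℂ))
  nlinarith

theorem norm_bl_pos {z w : ℍ} (h : z ≠ w) : 0 < ‖bl (w : ℂ) (z : ℂ)‖ := by
  rw [norm_pos_iff, bl]
  refine div_ne_zero ?_ ?_
  · exact sub_ne_zero.mpr (fun h1 => h (UpperHalfPlane.ext h1))
  · intro h1
    have h2 := congrArg Complex.im h1
    simp only [Complex.sub_im, Complex.conj_im, Complex.zero_im, UpperHalfPlane.coe_im] at h2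
    have := z.im_pos
    have := w.im_pos
    linarith

theorem neg_log_bl_le {z w : ℍ} (h : 1 ≤ dist z w) :
    -Real.log ‖bl (w : ℂ) (z : ℂ)‖ ≤ 3 * pk z w := by
  have hzw : z ≠ w := by
    rintro rfl
    rw [dist_self] at h
    linarith
  have h0 := norm_bl_pos hzw
  set t := ‖bl (w : ℂ) (z : ℂ)‖ with ht
  have h1 : 1 / 5 ≤ t ^ 2 := by
    have h2 : t ^ 2 = 1 - pk z w := by rw [ht, pk]; ring
    rw [h2, pk_eq_cosh]
    have h3 : 1 / 2 ≤ Real.sinh (dist z w / 2) := by
      have h4 : dist z w / 2 ≤ Real.sinh (dist z w / 2) := Real.self_le_sinh_iff.mpr (by linarith)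
      linarith
    have h5 : 5 / 4 ≤ Real.cosh (dist z w / 2) ^ 2 := by
      rw [Real.cosh_sq]
      nlinarith
    have h6 : 1 / Real.cosh (dist z w / 2) ^ 2 ≤ 4 / 5 := by
      rw [div_le_iff₀ (by linarith)]
      linarith
    linarith
  have h2 : Real.log (t ^ 2)⁻¹ ≤ (t ^ 2)⁻¹ - 1 := Real.log_le_sub_one_of_pos (by positivity)
  rw [Real.log_inv, Real.log_pow] at h2
  push_cast at h2
  have h3 : pk z w = 1 - t ^ 2 := rfl
  have h4 : (t ^ 2)⁻¹ - 1 = (1 - t ^ 2) * (t ^ 2)⁻¹ := by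
    have : t ^ 2 ≠ 0 := by positivity
    field_simp
  have h5 : (t ^ 2)⁻¹ ≤ 5 := by
    rw [inv_le_comm₀ (by positivity) (by norm_num)]
    linarith
  have h6 : 0 < 1 - t ^ 2 := by rw [← h3]; exact pk_pos z w
  have h7 := mul_le_mul_of_nonneg_left h5 h6.le
  rw [h3]
  linarith

theorem pk_le_neg_log {z w : ℍ} (h : z ≠ w) :
    pk z w ≤ -2 * Real.log ‖bl (w : ℂ) (z : ℂ)‖ := by
  have h0 := norm_bl_pos h
  have h1 := Real.log_le_sub_one_of_pos (x := ‖bl (w : ℂ) (z : ℂ)‖ ^ 2) (by positivity)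
  rw [Real.log_pow] at h1
  push_cast at h1
  unfold pk
  linarith

theorem continuous_pk (w : ℍ) : Continuous (fun z => pk z w) := by
  simp only [pk_eq_cosh]
  refine continuous_const.div ((Real.continuous_cosh.comp ?_).pow 2) ?_
  · exact (continuous_id.dist continuous_const).div_const 2
  · intro z
    exact pow_ne_zero 2 (Real.cosh_pos _).ne'

end

end Pool.Agent.OBT
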