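import Mathlib
import Pool.Agent.OBT.L1

/-!
# Bounded holomorphic functions on the upper half plane and their zeros
-/

open scoped ComplexConjugate Topology MatrixGroups UpperHalfPlane
open MeasureTheory

namespace Pool.Agent.OBT

/-- the inverse Cayley transform maps the unit disc into the upper half plane -/
theorem L2_im_pos (w : ℍ) {ζ : ℂ} (hζ : ‖ζ‖ < 1) :
    0 < (((w : ℂ) - conj (w : ℂ) * ζ) / (1 - ζ)).im := by
  have h1 : (1 - ζ) ≠ 0 := by
    intro h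
    rw [sub_eq_zero] at h
    rw [← h, norm_one] at hζ
    exact lt_irrefl _ hζ
  have h2 : 0 < Complex.normSq (1 - ζ) := Complex.normSq_pos.mpr h1
  have h3 : ζ.re ^ 2 + ζ.im ^ 2 < 1 := by
    have : Complex.normSq ζ < 1 := by
      rw [Complex.normSq_eq_norm_sq]
      have := norm_nonneg ζ
      nlinarith
    rw [Complex.normSq_apply] at this
    nlinarith
  have h4 := w.im_pos
  have h5 : (((w : ℂ) - conj (w : ℂ) * ζ) / (1 - ζ)).im =
      w.im * (1 - (ζ.re ^ 2 + ζ.im ^ 2)) / Complex.normSq (1 - ζ) := by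
    rw [Complex.div_im, ← sub_div]
    congr 1
    simp only [Complex.sub_im, Complex.mul_im, Complex.sub_re, Complex.mul_re, Complex.conj_re,
      Complex.conj_im, Complex.one_re, Complex.one_im, UpperHalfPlane.coe_im,
      UpperHalfPlane.coe_re]
    ring
  rw [h5]
  have : 0 < 1 - (ζ.re ^ 2 + ζ.im ^ 2) := by linarith
  positivity

theorem L2_den_ne (w z : ℍ) : (z : ℂ) - conj (w : ℂ) ≠ 0 := by
  intro h
  have := congrArg Complex.im h
  simp only [Complex.sub_im, Complex.conj_im, Complex.zero_im, UpperHalfPlane.coe_im] at this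
  have h1 := w.im_pos
  have h2 := z.im_pos
  linarith

theorem schwarz_bl (E : ℂ → ℂ) (hE : DifferentiableOn ℂ E {z | 0 < z.im}) (M : ℝ)
    (hM : ∀ z : ℍ, ‖E z‖ ≤ M) (w : ℍ) (hw : E w = 0) (z : ℍ) :
    ‖E z‖ ≤ M * ‖bl (w : ℂ) (z : ℂ)‖ := by
  let φ : ℂ → ℂ := fun ζ => ((w : ℂ) - conj (w : ℂ) * ζ) / (1 - ζ)
  have hφ : Set.MapsTo φ (Metric.ball 0 1) {z | 0 < z.im} := fun ζ hζ =>
    L2_im_pos w (by simpa using hζ)
  have hd : DifferentiableOn ℂ (E ∘ φ) (Metric.ball 0 1) := by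
    refine hE.comp (fun ζ hζ => ?_) hφ
    have h1 : (1 - ζ) ≠ 0 := by
      intro h
      rw [sub_eq_zero] at h
      rw [← h] at hζ
      simp at hζ
    exact (DifferentiableAt.div (by fun_prop) (by fun_prop) h1).differentiableWithinAt
  have hc : (E ∘ φ) 0 = 0 := by simp [φ, hw]
  have hmaps : Set.MapsTo (E ∘ φ) (Metric.ball 0 1) (Metric.closedBall ((E ∘ φ) 0) M) := by
    intro ζ hζ
    rw [hc, mem_closedBall_zero_iff]
    exact hM ⟨φ ζ, hφ hζ⟩
  have hmem : bl (w : ℂ) (z : ℂ) ∈ Metric.ball (0 : ℂ) 1 := by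
    rw [mem_ball_zero_iff]
    exact norm_bl_lt_one z w
  have key := Complex.dist_le_div_mul_dist_of_mapsTo_ball hd hmaps hmem
  have hz : φ (bl (w : ℂ) (z : ℂ)) = z := by
    have h1 := L2_den_ne w z
    have h2 : (w : ℂ) - conj (w : ℂ) ≠ 0 := L2_den_ne w w
    have h3 : 1 - bl (w : ℂ) (z : ℂ) ≠ 0 := by
      have : 1 - bl (w : ℂ) (z : ℂ) = ((w : ℂ) - conj (w : ℂ)) / ((z : ℂ) - conj (w : ℂ)) := by
        unfold bl
        field_simp
        ring
      rw [this]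
      exact div_ne_zero h2 h1
    show ((w : ℂ) - conj (w : ℂ) * bl (w : ℂ) (z : ℂ)) / (1 - bl (w : ℂ) (z : ℂ)) = z
    rw [div_eq_iff h3]
    unfold bl
    field_simp
    ring
  rw [hc, dist_zero_right, dist_zero_right, div_one, Function.comp_apply, hz] at key
  exact key

/-- `E` divided by the Blaschke factor of `w` -/
noncomputable def L2_quot (E : ℂ → ℂ) (w : ℍ) : ℂ → ℂ :=
  fun z => dslope E (w : ℂ) z * (z - conj (w : ℂ))

theorem L2_quot_mul (E : ℂ → ℂ) (w : ℍ) (hw : E w = 0) (z : ℍ) :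
    E z = bl (w : ℂ) (z : ℂ) * L2_quot E w z := by
  have h1 := L2_den_ne w z
  have h2 := sub_smul_dslope E (w : ℂ) (z : ℂ)
  rw [hw, sub_zero, smul_eq_mul] at h2
  unfold bl L2_quot
  rw [← h2]
  field_simp

theorem L2_quot_diff (E : ℂ → ℂ) (hE : DifferentiableOn ℂ E {z | 0 < z.im}) (w : ℍ) :
    DifferentiableOn ℂ (L2_quot E w) {z | 0 < z.im} := by
  have ho : IsOpen {z : ℂ | 0 < z.im} := isOpen_lt continuous_const Complex.continuous_im
  have h1 : DifferentiableOn ℂ (dslope E (w : ℂ)) {z | 0 < z.im} :=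
    (Complex.differentiableOn_dslope (ho.mem_nhds w.im_pos)).mpr hE
  exact h1.mul (by fun_prop)

theorem L2_quot_le (E : ℂ → ℂ) (hE : DifferentiableOn ℂ E {z | 0 < z.im}) (M : ℝ)
    (hM : ∀ z : ℍ, ‖E z‖ ≤ M) (w : ℍ) (hw : E w = 0) (z : ℍ) : ‖L2_quot E w z‖ ≤ M := by
  have hne : ∀ z : ℍ, z ≠ w → ‖L2_quot E w z‖ ≤ M := by
    intro z hz
    have h1 := schwarz_bl E hE M hM w hw z
    rw [L2_quot_mul E w hw z, norm_mul, mul_comm] at h1
    exact le_of_mul_le_mul_right h1 (norm_bl_pos hz)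
  by_cases hz : z = w
  · subst hz
    have ho : IsOpen {z : ℂ | 0 < z.im} := isOpen_lt continuous_const Complex.continuous_im
    have hc : ContinuousAt (fun x : ℂ => ‖L2_quot E z x‖) z :=
      ((L2_quot_diff E hE z).continuousOn.continuousAt (ho.mem_nhds z.im_pos)).norm
    have ht : Filter.Tendsto (fun x : ℂ => ‖L2_quot E z x‖) (𝓝[≠] (z : ℂ))
        (𝓝 ‖L2_quot E z z‖) := hc.tendsto.mono_left nhdsWithin_le_nhds
    refine le_of_tendsto ht ?_
    have h1 : ∀ᶠ x : ℂ in 𝓝[≠] (z : ℂ), 0 < x.im :=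
      nhdsWithin_le_nhds (ho.mem_nhds z.im_pos)
    filter_upwards [h1, self_mem_nhdsWithin] with x hx hxz
    refine hne ⟨x, hx⟩ fun h => hxz ?_
    rw [Set.mem_singleton_iff, ← h]
  · exact hne z hz

theorem blaschke_bound (E : ℂ → ℂ) (hE : DifferentiableOn ℂ E {z | 0 < z.im}) (M : ℝ)
    (hM : ∀ z : ℍ, ‖E z‖ ≤ M) (s : Finset ℍ) (hs : ∀ w ∈ s, E w = 0) (z : ℍ) :
    ‖E z‖ ≤ M * ∏ w ∈ s, ‖bl (w : ℂ) (z : ℂ)‖ := by
  classical
  induction s using Finset.induction_on generalizing E with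
  | empty => simpa using hM z
  | insert w s hws ih =>
    have hw : E w = 0 := hs w (Finset.mem_insert_self _ _)
    have hq : ∀ w' ∈ s, L2_quot E w w' = 0 := by
      intro w' hw'
      have h1 : E w' = 0 := hs w' (Finset.mem_insert_of_mem hw')
      rw [L2_quot_mul E w hw w'] at h1
      rcases mul_eq_zero.mp h1 with h2 | h2
      · have : w' ≠ w := fun h => hws (h ▸ hw')
        exact absurd h2 (norm_pos_iff.mp (norm_bl_pos this))
      · exact h2
    have h3 := ih (L2_quot E w) (L2_quot_diff E hE w) (L2_quot_le E hE M hM w hw) hq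
    rw [L2_quot_mul E w hw z, norm_mul, Finset.prod_insert hws]
    calc ‖bl (w : ℂ) (z : ℂ)‖ * ‖L2_quot E w z‖ ≤
        ‖bl (w : ℂ) (z : ℂ)‖ * (M * ∏ w ∈ s, ‖bl (w : ℂ) (z : ℂ)‖) :=
          mul_le_mul_of_nonneg_left h3 (norm_nonneg _)
      _ = _ := by ring

theorem sum_pk_le (E : ℂ → ℂ) (hE : DifferentiableOn ℂ E {z | 0 < z.im}) (M : ℝ)
    (hM : ∀ z : ℍ, ‖E z‖ ≤ M) (z : ℍ) (hz : E z ≠ 0) (s : Finset ℍ) (hs : ∀ w ∈ s, E w = 0) :
    ∑ w ∈ s, pk z w ≤ 2 * Real.log (M / ‖E z‖) := by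
  have h0 : 0 < ‖E z‖ := norm_pos_iff.mpr hz
  have hM0 : 0 < M := h0.trans_le (hM z)
  have hzw : ∀ w ∈ s, z ≠ w := fun w hw h => hz (h ▸ hs w hw)
  have h1 := blaschke_bound E hE M hM s hs z
  have hpos : ∀ w ∈ s, 0 < ‖bl (w : ℂ) (z : ℂ)‖ := fun w hw => norm_bl_pos (hzw w hw)
  have hP : 0 < ∏ w ∈ s, ‖bl (w : ℂ) (z : ℂ)‖ := Finset.prod_pos hpos
  have h2 := Real.log_le_log h0 h1
  rw [Real.log_mul hM0.ne' hP.ne', Real.log_prod (fun w hw => (hpos w hw).ne')] at h2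
  have h3 : ∑ w ∈ s, pk z w ≤ ∑ w ∈ s, (-2 * Real.log ‖bl (w : ℂ) (z : ℂ)‖) :=
    Finset.sum_le_sum fun w hw => pk_le_neg_log (hzw w hw)
  rw [← Finset.mul_sum] at h3
  rw [Real.log_div hM0.ne' h0.ne']
  linarith

end Pool.Agent.OBT
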