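import Mathlib
import Pool.Agent.OBT.L1

/-!
# Discrete subgroups: finiteness of orbits, sums over the group
-/

open scoped ComplexConjugate Topology MatrixGroups UpperHalfPlane
open MeasureTheory

namespace Pool.Agent.OBT

/-- a discrete group has only finitely many elements moving `I` into a ball -/
theorem finite_near (Γ : Subgroup SL(2, ℝ)) (hΓ : DiscreteTopology Γ) (z : ℍ) (R : ℝ) :
    {γ : Γ | dist ((γ : SL(2, ℝ)) • (UpperHalfPlane.I : ℍ)) z ≤ R}.Finite := by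
  have h := ProperlyDiscontinuousSMul.finite_disjoint_inter_image (Γ := Γ) (T := ℍ)
    (K := {UpperHalfPlane.I}) (L := Metric.closedBall z R) isCompact_singleton
    (isCompact_closedBall z R)
  refine h.subset ?_
  intro γ hγ
  rw [Set.mem_ofPred_eq] at hγ ⊢
  refine ⟨(γ : SL(2, ℝ)) • (UpperHalfPlane.I : ℍ), ⟨UpperHalfPlane.I, rfl, rfl⟩, ?_⟩
  exact hγ

theorem countable_of_discrete (Γ : Subgroup SL(2, ℝ)) (hΓ : DiscreteTopology Γ) : Countable Γ := by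
  rw [← Set.countable_univ_iff]
  have h : (Set.univ : Set Γ) ⊆ ⋃ n : ℕ,
      {γ : Γ | dist ((γ : SL(2, ℝ)) • (UpperHalfPlane.I : ℍ)) UpperHalfPlane.I ≤ n} := by
    intro γ _
    obtain ⟨n, hn⟩ := exists_nat_ge (dist ((γ : SL(2, ℝ)) • (UpperHalfPlane.I : ℍ)) UpperHalfPlane.I)
    exact Set.mem_iUnion.2 ⟨n, hn⟩
  refine Set.Countable.mono h (Set.countable_iUnion fun n => ?_)
  exact (finite_near Γ hΓ UpperHalfPlane.I n).countable

/-- the fibres of the orbit map have bounded cardinality -/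
theorem L4_fibre (Γ : Subgroup SL(2, ℝ)) (hΓ : DiscreteTopology Γ) :
    ∃ m : ℕ, ∀ (s : Finset Γ) (w : ℍ),
      (∀ γ ∈ s, (γ : SL(2, ℝ)) • (UpperHalfPlane.I : ℍ) = w) → s.card ≤ m := by
  classical
  have hfin := finite_near Γ hΓ UpperHalfPlane.I 0
  refine ⟨hfin.toFinset.card, fun s w hs => ?_⟩
  rcases s.eq_empty_or_nonempty with rfl | ⟨γ0, hγ0⟩
  · simp
  · refine Finset.card_le_card_of_injOn (fun γ => γ0⁻¹ * γ) ?_ ?_
    · intro γ hγ
      rw [Set.Finite.coe_toFinset, Set.mem_ofPred_eq]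
      have h1 : ((γ0⁻¹ * γ : Γ) : SL(2, ℝ)) • (UpperHalfPlane.I : ℍ) = UpperHalfPlane.I := by
        rw [Subgroup.coe_mul, mul_smul, hs γ hγ, ← hs γ0 hγ0, Subgroup.coe_inv, inv_smul_smul]
      rw [h1, dist_self]
    · intro γ _ γ' _ h
      exact mul_left_cancel h

/-- from sums over distinct orbit points at some point `z0` to sums over the group at `I` -/
theorem sum_group_of_orbit (Γ : Subgroup SL(2, ℝ)) (hΓ : DiscreteTopology Γ)
    (z0 : ℍ) (C : ℝ)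
    (h : ∀ s : Finset ℍ, (∀ w ∈ s, ∃ γ ∈ Γ, γ • (UpperHalfPlane.I : ℍ) = w) →
      ∑ w ∈ s, pk z0 w ≤ C) :
    ∃ C' : ℝ, ∀ s : Finset Γ,
      ∑ γ ∈ s, pk UpperHalfPlane.I ((γ : SL(2, ℝ)) • (UpperHalfPlane.I : ℍ)) ≤ C' := by
  classical
  obtain ⟨m, hm⟩ := L4_fibre Γ hΓ
  refine ⟨Real.exp (dist (UpperHalfPlane.I : ℍ) z0) * (m * C), fun s => ?_⟩
  have h1 : ∑ γ ∈ s, pk UpperHalfPlane.I ((γ : SL(2, ℝ)) • (UpperHalfPlane.I : ℍ)) ≤
      ∑ γ ∈ s, Real.exp (dist (UpperHalfPlane.I : ℍ) z0) *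
        pk z0 ((γ : SL(2, ℝ)) • (UpperHalfPlane.I : ℍ)) :=
    Finset.sum_le_sum fun γ _ => pk_le_exp _ _ _
  refine h1.trans ?_
  rw [← Finset.mul_sum]
  refine mul_le_mul_of_nonneg_left ?_ (Real.exp_pos _).le
  have h2 := Finset.sum_comp (s := s) (fun w : ℍ => pk z0 w)
    (fun γ : Γ => (γ : SL(2, ℝ)) • (UpperHalfPlane.I : ℍ))
  rw [h2]
  have h3 : ∑ w ∈ s.image (fun γ : Γ => (γ : SL(2, ℝ)) • (UpperHalfPlane.I : ℍ)), pk z0 w ≤ C := by
    apply h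
    intro w hw
    obtain ⟨γ, _, rfl⟩ := Finset.mem_image.1 hw
    exact ⟨γ, γ.2, rfl⟩
  calc _ ≤ ∑ w ∈ s.image (fun γ : Γ => (γ : SL(2, ℝ)) • (UpperHalfPlane.I : ℍ)), (m : ℝ) * pk z0 w := by
        refine Finset.sum_le_sum fun w _ => ?_
        rw [nsmul_eq_mul]
        refine mul_le_mul_of_nonneg_right ?_ (pk_pos z0 w).le
        exact_mod_cast hm _ w fun γ hγ => (Finset.mem_filter.1 hγ).2
    _ = (m : ℝ) * ∑ w ∈ s.image (fun γ : Γ => (γ : SL(2, ℝ)) • (UpperHalfPlane.I : ℍ)), pk z0 w := by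
        rw [Finset.mul_sum]
    _ ≤ (m : ℝ) * C := mul_le_mul_of_nonneg_left h3 (Nat.cast_nonneg _)

end Pool.Agent.OBT
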