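import Mathlib
import Pool.Agent.OBT.L1

/-!
# Lower bound for finite Blaschke products away from the zeros
-/

open scoped ComplexConjugate Topology MatrixGroups UpperHalfPlane
open MeasureTheory

namespace Pool.Agent.OBT

theorem L5_bl_sub_ne {z : ℂ} (w : ℍ) (hz : 0 < z.im) : z - conj (w : ℂ) ≠ 0 := by
  intro h
  have h1 : (z - conj (w : ℂ)).im = 0 := by rw [h]; simp
  have h2 := w.im_pos
  have h3 : (w : ℂ).im = w.im := rfl
  simp only [Complex.sub_im, Complex.conj_im] at h1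
  linarith

theorem L5_bl_ne {z w : ℍ} (h : z ≠ w) : bl (w : ℂ) (z : ℂ) ≠ 0 := by
  have := norm_bl_pos h
  exact norm_pos_iff.1 this

theorem L5_bl_self (w : ℍ) : bl (w : ℂ) (w : ℂ) = 0 := by
  simp [bl]

theorem L5_diff (s : Finset ℍ) :
    DifferentiableOn ℂ (fun z : ℂ => ∏ w ∈ s, bl (w : ℂ) z) UpperHalfPlane.upperHalfPlaneSet := by
  intro z hz
  apply DifferentiableAt.differentiableWithinAt
  apply DifferentiableAt.fun_finsetProd
  intro w _
  unfold bl
  have hne : z - conj (w : ℂ) ≠ 0 := L5_bl_sub_ne w hz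
  fun_prop (disch := assumption)

theorem L5_cont (s : Finset ℍ) :
    Continuous (fun z : ℍ => ∏ w ∈ s, ‖bl (w : ℂ) (z : ℂ)‖) := by
  apply continuous_finsetProd
  intro w _
  apply Continuous.norm
  unfold bl
  refine Continuous.div ?_ ?_ ?_
  · exact (UpperHalfPlane.continuous_coe).sub continuous_const
  · exact (UpperHalfPlane.continuous_coe).sub continuous_const
  · intro z
    exact L5_bl_sub_ne w z.im_pos

theorem L5_tendsto (s : Finset ℍ) :
    Filter.Tendsto (fun z : ℍ => ∏ w ∈ s, ‖bl (w : ℂ) (z : ℂ)‖) (Filter.cocompact ℍ) (𝓝 1) := by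
  have h1 : ∀ w ∈ s, Filter.Tendsto (fun z : ℍ => ‖bl (w : ℂ) (z : ℂ)‖)
      (Filter.cocompact ℍ) (𝓝 1) := by
    intro w _
    have hd : Filter.Tendsto (fun z : ℍ => dist z w) (Filter.cocompact ℍ) Filter.atTop :=
      tendsto_dist_right_cocompact_atTop w
    have hsq : ∀ z : ℍ, ‖bl (w : ℂ) (z : ℂ)‖
        = Real.sqrt (1 - 1 / Real.cosh (dist z w / 2) ^ 2) := by
      intro z
      rw [← pk_eq_cosh z w, pk]
      rw [sub_sub_cancel, Real.sqrt_sq (norm_nonneg _)]
    have hcosh : Filter.Tendsto (fun z : ℍ => Real.cosh (dist z w / 2) ^ 2)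
        (Filter.cocompact ℍ) Filter.atTop := by
      have h2 : Filter.Tendsto (fun z : ℍ => dist z w / 2) (Filter.cocompact ℍ) Filter.atTop :=
        hd.atTop_div_const (by norm_num)
      refine Filter.tendsto_atTop_mono ?_ h2
      intro z
      have h3 : dist z w / 2 ≤ Real.cosh (dist z w / 2) := by
        have h4 : dist z w / 2 ≤ Real.sinh (dist z w / 2) :=
          Real.self_le_sinh_iff.2 (by positivity)
        exact h4.trans (Real.sinh_lt_cosh _).le
      have h5 : 1 ≤ Real.cosh (dist z w / 2) := Real.one_le_cosh _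
      nlinarith
    have hinv : Filter.Tendsto (fun z : ℍ => 1 - 1 / Real.cosh (dist z w / 2) ^ 2)
        (Filter.cocompact ℍ) (𝓝 1) := by
      have h6 := (hcosh.inv_tendsto_atTop).const_sub (1 : ℝ)
      simpa [one_div] using h6
    have h7 := (Real.continuous_sqrt.tendsto 1).comp hinv
    rw [Real.sqrt_one] at h7
    refine h7.congr ?_
    intro z
    simp only [Function.comp]
    rw [hsq z]
  have h2 := tendsto_finsetProd s h1
  simpa using h2

/-- minimum principle for a finite Blaschke product outside the hyperbolic balls of radius `1`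
around its zeros -/
theorem prod_bl_lower (s : Finset ℍ) (C : ℝ) (hC : 0 ≤ C)
    (h : ∀ z : ℍ, (∀ w ∈ s, 1 ≤ dist z w) → (∃ w ∈ s, dist z w = 1) →
      Real.exp (-C) ≤ ∏ w ∈ s, ‖bl (w : ℂ) (z : ℂ)‖) (z : ℍ) (hz : ∀ w ∈ s, 1 ≤ dist z w) :
    Real.exp (-C) ≤ ∏ w ∈ s, ‖bl (w : ℂ) (z : ℂ)‖ := by
  classical
  by_contra hlt
  rw [not_le] at hlt
  have hexp : Real.exp (-C) ≤ 1 := by
    rw [← Real.exp_zero]
    exact Real.exp_le_exp.2 (by linarith)
  set m : ℍ → ℝ := fun z => ∏ w ∈ s, ‖bl (w : ℂ) (z : ℂ)‖ with hm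
  have hz1 : m z < 1 := lt_of_lt_of_le hlt hexp
  let K : Set ℍ := {y | ∀ w ∈ s, 1 ≤ dist y w}
  have hKc : IsClosed K := by
    have : K = ⋂ w ∈ s, {y : ℍ | 1 ≤ dist y w} := by
      ext y
      simp [K]
    rw [this]
    refine isClosed_biInter fun w _ => ?_
    exact isClosed_le continuous_const (continuous_id.dist continuous_const)
  have hev : ∀ᶠ x in Filter.cocompact ℍ ⊓ Filter.principal K, m z ≤ m x := by
    have h1 : ∀ᶠ x in Filter.cocompact ℍ, m z < m x :=
      (L5_tendsto s).eventually (lt_mem_nhds hz1)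
    exact (h1.filter_mono inf_le_left).mono fun x hx => hx.le
  obtain ⟨z1, hz1K, hmin⟩ := (L5_cont s).continuousOn.exists_isMinOn' hKc (x₀ := z) hz hev
  have hmz1 : m z1 ≤ m z := hmin hz
  have hlt1 : m z1 < Real.exp (-C) := lt_of_le_of_lt hmz1 hlt
  have hgt : ∀ w ∈ s, 1 < dist z1 w := by
    intro w hw
    refine lt_of_le_of_ne (hz1K w hw) ?_
    intro heq
    have := h z1 hz1K ⟨w, hw, heq.symm⟩
    exact absurd hlt1 (not_lt.2 this)
  have hne : ∀ w ∈ s, z1 ≠ w := by
    intro w hw heq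
    have := hgt w hw
    rw [heq, dist_self] at this
    linarith
  -- the product as a function on the complex plane
  set f : ℂ → ℂ := fun z => ∏ w ∈ s, bl (w : ℂ) z with hf
  have hfm : ∀ y : ℍ, ‖f (y : ℂ)‖ = m y := by
    intro y
    simp only [hf, hm, norm_prod]
  have hfne : f (z1 : ℂ) ≠ 0 := by
    simp only [hf]
    exact Finset.prod_ne_zero_iff.2 fun w hw => L5_bl_ne (hne w hw)
  have hopen : ∀ᶠ y in 𝓝 z1, y ∈ K := by
    have h1 : ∀ w ∈ s, ∀ᶠ y in 𝓝 z1, 1 < dist y w := by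
      intro w hw
      have hc : Continuous fun y : ℍ => dist y w := continuous_id.dist continuous_const
      exact hc.continuousAt.eventually (lt_mem_nhds (hgt w hw))
    have h2 : ∀ᶠ y in 𝓝 z1, ∀ w ∈ s, 1 < dist y w :=
      (Filter.eventually_all_finset s).2 h1
    exact h2.mono fun y hy w hw => (hy w hw).le
  have hmap : Filter.map UpperHalfPlane.coe (𝓝 z1) = 𝓝 (z1 : ℂ) :=
    UpperHalfPlane.isOpenEmbedding_coe.map_nhds_eq z1
  have hfan : AnalyticOnNhd ℂ f UpperHalfPlane.upperHalfPlaneSet :=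
    (L5_diff s).analyticOnNhd UpperHalfPlane.isOpen_upperHalfPlaneSet
  have hz1mem : (z1 : ℂ) ∈ UpperHalfPlane.upperHalfPlaneSet := z1.im_pos
  have hfcont : ContinuousAt f (z1 : ℂ) := (hfan _ hz1mem).continuousAt
  have hnear : ∀ᶠ y in 𝓝 (z1 : ℂ), f y ≠ 0 := hfcont.eventually_ne hfne
  have hmem : ∀ᶠ y in 𝓝 (z1 : ℂ), y ∈ UpperHalfPlane.upperHalfPlaneSet :=
    UpperHalfPlane.isOpen_upperHalfPlaneSet.mem_nhds hz1mem
  have hdiff : ∀ᶠ y in 𝓝 (z1 : ℂ), DifferentiableAt ℂ (fun y => (f y)⁻¹) y := by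
    filter_upwards [hnear, hmem] with y hy1 hy2
    exact ((hfan y hy2).differentiableAt).inv hy1
  have hmax : IsLocalMax (norm ∘ fun y => (f y)⁻¹) (z1 : ℂ) := by
    have h3 : ∀ᶠ y : ℍ in 𝓝 z1, ‖f (z1 : ℂ)‖ ≤ ‖f (y : ℂ)‖ := by
      filter_upwards [hopen] with y hy
      rw [hfm, hfm]
      exact hmin hy
    have h4 : ∀ᶠ y in 𝓝 (z1 : ℂ), ‖f (z1 : ℂ)‖ ≤ ‖f y‖ := by
      rw [← hmap, Filter.eventually_map]
      exact h3
    filter_upwards [h4] with y hy
    simp only [Function.comp, norm_inv]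
    exact inv_anti₀ (norm_pos_iff.2 hfne) hy
  have hconst := Complex.eventually_eq_of_isLocalMax_norm hdiff hmax
  have hconst' : f =ᶠ[𝓝 (z1 : ℂ)] fun _ => f (z1 : ℂ) := by
    filter_upwards [hconst] with y hy
    exact inv_injective hy
  have hpre : IsPreconnected UpperHalfPlane.upperHalfPlaneSet :=
    (convex_halfSpace_im_gt 0).isPreconnected
  have hEq := hfan.eqOn_of_preconnected_of_eventuallyEq
    (analyticOnNhd_const) hpre hz1mem hconst'
  rcases s.eq_empty_or_nonempty with hs | ⟨w, hw⟩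
  · subst hs
    have : m z = 1 := by simp [hm]
    linarith
  · have hwmem : (w : ℂ) ∈ UpperHalfPlane.upperHalfPlaneSet := w.im_pos
    have h5 : f (w : ℂ) = f (z1 : ℂ) := hEq hwmem
    have h6 : f (w : ℂ) = 0 := by
      simp only [hf]
      exact Finset.prod_eq_zero hw (L5_bl_self w)
    exact hfne (h5.symm.trans h6)

end Pool.Agent.OBT
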