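import Mathlib
import Pool.Agent.OBT.L1
import Pool.Agent.OBT.L4
import Pool.Agent.OBT.L5

/-!
# The Poincare sum is bounded if it is finite at one point; divergence of the integral
-/

open scoped ComplexConjugate Topology MatrixGroups UpperHalfPlane
open MeasureTheory

namespace Pool.Agent.OBT

/-- the points close to the orbit -/
theorem L6_near (Γ : Subgroup SL(2, ℝ)) (C : ℝ)
    (h : ∀ s : Finset Γ,
      ∑ γ ∈ s, pk UpperHalfPlane.I ((γ : SL(2, ℝ)) • (UpperHalfPlane.I : ℍ)) ≤ C)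
    (z : ℍ) (g : Γ) (hg : dist z ((g : SL(2, ℝ)) • (UpperHalfPlane.I : ℍ)) ≤ 1) (s : Finset Γ) :
    ∑ γ ∈ s, pk z ((γ : SL(2, ℝ)) • (UpperHalfPlane.I : ℍ)) ≤ Real.exp 1 * C := by
  classical
  have hd : dist (((g⁻¹ : Γ) : SL(2, ℝ)) • z) UpperHalfPlane.I ≤ 1 := by
    have e1 : (UpperHalfPlane.I : ℍ) =
        ((g⁻¹ : Γ) : SL(2, ℝ)) • ((g : SL(2, ℝ)) • (UpperHalfPlane.I : ℍ)) := by
      rw [smul_smul, ← Subgroup.coe_mul, inv_mul_cancel, Subgroup.coe_one, one_smul]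
    rw [e1, dist_smul]
    exact hg
  have hterm : ∀ γ ∈ s, pk z ((γ : SL(2, ℝ)) • (UpperHalfPlane.I : ℍ)) ≤
      Real.exp 1 * pk UpperHalfPlane.I (((g⁻¹ * γ : Γ) : SL(2, ℝ)) • (UpperHalfPlane.I : ℍ)) := by
    intro γ _
    rw [← pk_smul ((g⁻¹ : Γ) : SL(2, ℝ)) z, smul_smul, ← Subgroup.coe_mul]
    refine (pk_le_exp _ UpperHalfPlane.I _).trans ?_
    exact mul_le_mul_of_nonneg_right (Real.exp_le_exp.mpr hd) (pk_pos _ _).le
  refine (Finset.sum_le_sum hterm).trans ?_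
  rw [← Finset.mul_sum]
  refine mul_le_mul_of_nonneg_left ?_ (Real.exp_pos 1).le
  have e2 : ∑ γ ∈ s, pk UpperHalfPlane.I
      (((g⁻¹ * γ : Γ) : SL(2, ℝ)) • (UpperHalfPlane.I : ℍ)) =
      ∑ γ ∈ s.map (mulLeftEmbedding g⁻¹),
        pk UpperHalfPlane.I ((γ : SL(2, ℝ)) • (UpperHalfPlane.I : ℍ)) := by
    rw [Finset.sum_map]
    rfl
  rw [e2]
  exact h _

/-- the sum over distinct orbit points away from the orbit -/
theorem L6_far (Γ : Subgroup SL(2, ℝ)) (C : ℝ) (hC : 0 ≤ C)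
    (h : ∀ s : Finset Γ,
      ∑ γ ∈ s, pk UpperHalfPlane.I ((γ : SL(2, ℝ)) • (UpperHalfPlane.I : ℍ)) ≤ C)
    (z : ℍ) (t : Finset ℍ) (ht : ∀ w ∈ t, ∃ γ : Γ, (γ : SL(2, ℝ)) • (UpperHalfPlane.I : ℍ) = w)
    (hz : ∀ w ∈ t, 1 ≤ dist z w) :
    ∑ w ∈ t, pk z w ≤ 2 * (3 * (Real.exp 1 * C)) := by
  classical
  have hsec : ∀ z' : ℍ, ∀ g : Γ, dist z' ((g : SL(2, ℝ)) • (UpperHalfPlane.I : ℍ)) ≤ 1 →
      ∑ w ∈ t, pk z' w ≤ Real.exp 1 * C := by
    intro z' g hg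
    choose! f hf using ht
    have e1 : (t.image f).image (fun γ : Γ => (γ : SL(2, ℝ)) • (UpperHalfPlane.I : ℍ)) = t := by
      rw [Finset.image_image]
      ext w
      simp only [Finset.mem_image, Function.comp]
      constructor
      · rintro ⟨w', hw', rfl⟩
        rw [hf w' hw']
        exact hw'
      · intro hw
        exact ⟨w, hw, hf w hw⟩
    rw [← e1]
    refine (Finset.sum_image_le_of_nonneg (fun u _ => (pk_pos z' u).le)).trans ?_
    exact L6_near Γ C h z' g hg _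
  have hlow := prod_bl_lower t (3 * (Real.exp 1 * C)) (by positivity) ?_ z hz
  · have hne : ∀ w ∈ t, z ≠ w := by
      intro w hw hzw
      have := hz w hw
      rw [hzw, dist_self] at this
      linarith
    have h1 : ∑ w ∈ t, pk z w ≤ ∑ w ∈ t, (-2 * Real.log ‖bl (w : ℂ) (z : ℂ)‖) :=
      Finset.sum_le_sum (fun w hw => pk_le_neg_log (hne w hw))
    have h2 : Real.log (∏ w ∈ t, ‖bl (w : ℂ) (z : ℂ)‖) =
        ∑ w ∈ t, Real.log ‖bl (w : ℂ) (z : ℂ)‖ :=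
      Real.log_prod (fun w hw => (norm_bl_pos (hne w hw)).ne')
    have h3 : -(3 * (Real.exp 1 * C)) ≤ Real.log (∏ w ∈ t, ‖bl (w : ℂ) (z : ℂ)‖) := by
      rw [Real.le_log_iff_exp_le]
      · exact hlow
      · exact Finset.prod_pos (fun w hw => norm_bl_pos (hne w hw))
    rw [← Finset.mul_sum, ← h2] at h1
    linarith
  · intro z' hz1 hz2
    have hne : ∀ w ∈ t, z' ≠ w := by
      intro w hw hzw
      have := hz1 w hw
      rw [hzw, dist_self] at this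
      linarith
    obtain ⟨w0, hw0, hw1⟩ := hz2
    obtain ⟨g, hg⟩ := ht w0 hw0
    have h0 := hsec z' g (by rw [hg, hw1])
    have h2 : Real.log (∏ w ∈ t, ‖bl (w : ℂ) (z' : ℂ)‖) =
        ∑ w ∈ t, Real.log ‖bl (w : ℂ) (z' : ℂ)‖ :=
      Real.log_prod (fun w hw => (norm_bl_pos (hne w hw)).ne')
    have h1 : ∑ w ∈ t, (-Real.log ‖bl (w : ℂ) (z' : ℂ)‖) ≤ ∑ w ∈ t, 3 * pk z' w :=
      Finset.sum_le_sum (fun w hw => neg_log_bl_le (hz1 w hw))
    rw [Finset.sum_neg_distrib, ← h2, ← Finset.mul_sum] at h1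
    rw [← Real.le_log_iff_exp_le (Finset.prod_pos (fun w hw => norm_bl_pos (hne w hw)))]
    linarith

theorem poincare_bounded (Γ : Subgroup SL(2, ℝ)) (hΓ : DiscreteTopology Γ) (C : ℝ)
    (h : ∀ s : Finset Γ,
      ∑ γ ∈ s, pk UpperHalfPlane.I ((γ : SL(2, ℝ)) • (UpperHalfPlane.I : ℍ)) ≤ C) :
    ∃ C' : ℝ, ∀ (z : ℍ) (s : Finset Γ),
      ∑ γ ∈ s, pk z ((γ : SL(2, ℝ)) • (UpperHalfPlane.I : ℍ)) ≤ C' := by
  classical
  have hC : 0 ≤ C := by simpa using h ∅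
  have hfin := finite_near Γ hΓ UpperHalfPlane.I 0
  set S := hfin.toFinset with hS
  refine ⟨max (Real.exp 1 * C) (S.card * (2 * (3 * (Real.exp 1 * C)))), fun z s => ?_⟩
  by_cases hnear : ∃ g : Γ, dist z ((g : SL(2, ℝ)) • (UpperHalfPlane.I : ℍ)) ≤ 1
  · obtain ⟨g, hg⟩ := hnear
    exact (L6_near Γ C h z g hg s).trans (le_max_left _ _)
  · push Not at hnear
    refine le_trans ?_ (le_max_right _ _)
    rw [Finset.sum_comp (fun w => pk z w)
      (fun γ : Γ => (γ : SL(2, ℝ)) • (UpperHalfPlane.I : ℍ))]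
    have hfib : ∀ w ∈ s.image (fun γ : Γ => (γ : SL(2, ℝ)) • (UpperHalfPlane.I : ℍ)),
        (s.filter (fun γ : Γ => (γ : SL(2, ℝ)) • (UpperHalfPlane.I : ℍ) = w)).card •
          pk z w ≤ (S.card : ℝ) * pk z w := by
      intro w hw
      rw [nsmul_eq_mul]
      refine mul_le_mul_of_nonneg_right ?_ (pk_pos _ _).le
      rw [Finset.mem_image] at hw
      obtain ⟨γ0, _, rfl⟩ := hw
      have : (s.filter (fun γ : Γ => (γ : SL(2, ℝ)) • (UpperHalfPlane.I : ℍ) =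
          (γ0 : SL(2, ℝ)) • (UpperHalfPlane.I : ℍ))).card ≤ S.card := by
        refine Finset.card_le_card_of_injOn (fun γ => γ0⁻¹ * γ) ?_ ?_
        · intro γ hγ
          simp only [Finset.coe_filter, Set.mem_ofPred_eq] at hγ
          simp only [hS, Set.Finite.coe_toFinset, Set.mem_ofPred_eq]
          rw [Subgroup.coe_mul, ← smul_smul, hγ.2, smul_smul, ← Subgroup.coe_mul,
            inv_mul_cancel, Subgroup.coe_one, one_smul, dist_self]
        · intro a _ b _ hab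
          exact mul_left_cancel hab
      exact_mod_cast this
    refine (Finset.sum_le_sum hfib).trans ?_
    rw [← Finset.mul_sum]
    refine mul_le_mul_of_nonneg_left ?_ (Nat.cast_nonneg _)
    refine L6_far Γ C hC h z _ ?_ ?_
    · intro w hw
      rw [Finset.mem_image] at hw
      obtain ⟨γ0, _, rfl⟩ := hw
      exact ⟨γ0, rfl⟩
    · intro w hw
      rw [Finset.mem_image] at hw
      obtain ⟨γ0, _, rfl⟩ := hw
      exact (hnear γ0).le

end Pool.Agent.OBT
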