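import Mathlib
import Pool.Agent.OBT.L1

/-!
# The integral of the kernel diverges
-/

open scoped ComplexConjugate Topology MatrixGroups UpperHalfPlane
open MeasureTheory

namespace Pool.Agent.OBT

theorem L7_pk_lower (z : ℍ) (h1 : |z.re| ≤ 1) (h2 : z.im ≤ 1) :
    4 / 5 * z.im ≤ pk z UpperHalfPlane.I := by
  have hy := z.im_pos
  have hx2 : z.re ^ 2 ≤ 1 := by
    have := sq_abs z.re
    nlinarith [abs_nonneg z.re]
  unfold pk bl
  rw [norm_div, div_pow, ← Complex.normSq_eq_norm_sq, ← Complex.normSq_eq_norm_sq]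
  have e1 : Complex.normSq ((z : ℂ) - (UpperHalfPlane.I : ℂ)) = z.re ^ 2 + (z.im - 1) ^ 2 := by
    rw [Complex.normSq_apply]
    simp [UpperHalfPlane.coe_I]
    ring
  have e2 : Complex.normSq ((z : ℂ) - conj (UpperHalfPlane.I : ℂ)) = z.re ^ 2 + (z.im + 1) ^ 2 := by
    rw [Complex.normSq_apply]
    simp [UpperHalfPlane.coe_I]
    ring
  rw [e1, e2]
  have hpos : 0 < z.re ^ 2 + (z.im + 1) ^ 2 := by positivity
  have e3 : 1 - (z.re ^ 2 + (z.im - 1) ^ 2) / (z.re ^ 2 + (z.im + 1) ^ 2) =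
      4 * z.im / (z.re ^ 2 + (z.im + 1) ^ 2) := by
    field_simp
    ring
  rw [e3, le_div_iff₀ hpos]
  have h5 : z.re ^ 2 + (z.im + 1) ^ 2 ≤ 5 := by nlinarith
  nlinarith

/-- The boxes. -/
def L7_box (n : ℕ) : Set ℍ := {z | |z.re| ≤ 1 ∧ (1 / 2 : ℝ) ^ (n + 1) < z.im ∧ z.im ≤ (1 / 2 : ℝ) ^ n}

theorem L7_box_meas (n : ℕ) : MeasurableSet (L7_box n) := by
  have hre : Continuous (fun z : ℍ => z.re) := UpperHalfPlane.continuous_re
  have him : Continuous (fun z : ℍ => z.im) := UpperHalfPlane.continuous_im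
  have h1 : MeasurableSet {z : ℍ | |z.re| ≤ 1} :=
    (isClosed_le hre.abs continuous_const).measurableSet
  have h2 : MeasurableSet {z : ℍ | (1 / 2 : ℝ) ^ (n + 1) < z.im} :=
    (isOpen_lt continuous_const him).measurableSet
  have h3 : MeasurableSet {z : ℍ | z.im ≤ (1 / 2 : ℝ) ^ n} :=
    (isClosed_le him continuous_const).measurableSet
  exact h1.inter (h2.inter h3)

theorem L7_box_disj : Pairwise (Function.onFun Disjoint L7_box) := by
  have key : ∀ m n : ℕ, m < n → Disjoint (L7_box m) (L7_box n) := by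
    intro m n hmn
    rw [Set.disjoint_left]
    intro z hz hz'
    have h1 : (1 / 2 : ℝ) ^ (m + 1) < z.im := hz.2.1
    have h2 : z.im ≤ (1 / 2 : ℝ) ^ n := hz'.2.2
    have h3 : (1 / 2 : ℝ) ^ n ≤ (1 / 2 : ℝ) ^ (m + 1) :=
      pow_le_pow_of_le_one (by norm_num) (by norm_num) hmn
    linarith
  intro m n hmn
  rcases lt_or_gt_of_ne hmn with h | h
  · exact key m n h
  · exact (key n m h).symm

theorem L7_image (n : ℕ) : ((↑) : ℍ → ℂ) '' (L7_box n) =
    Complex.measurableEquivRealProd ⁻¹'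
      (Set.Icc (-1) 1 ×ˢ Set.Ioc ((1 / 2 : ℝ) ^ (n + 1)) ((1 / 2 : ℝ) ^ n)) := by
  ext w
  constructor
  · rintro ⟨z, ⟨h1, h2, h3⟩, rfl⟩
    refine ⟨?_, ?_⟩
    · exact abs_le.mp h1
    · exact ⟨h2, h3⟩
  · rintro ⟨h1, h2⟩
    have h1' : -1 ≤ w.re ∧ w.re ≤ 1 := h1
    have h2' : (1 / 2 : ℝ) ^ (n + 1) < w.im ∧ w.im ≤ (1 / 2 : ℝ) ^ n := h2
    have hpos : (0 : ℝ) < (1 / 2 : ℝ) ^ (n + 1) := by positivity
    have hw : 0 < w.im := hpos.trans h2'.1
    refine ⟨⟨w, hw⟩, ⟨?_, ?_, ?_⟩, rfl⟩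
    · exact abs_le.mpr h1'
    · exact h2'.1
    · exact h2'.2

theorem L7_vol_image (n : ℕ) : volume (((↑) : ℍ → ℂ) '' (L7_box n)) =
    ENNReal.ofReal ((1 / 2 : ℝ) ^ n) := by
  rw [L7_image, Complex.volume_preserving_equiv_real_prod.measure_preimage
    (measurableSet_Icc.prod measurableSet_Ioc).nullMeasurableSet,
    Measure.volume_eq_prod, Measure.prod_prod, Real.volume_Icc, Real.volume_Ioc,
    ← ENNReal.ofReal_mul (by norm_num)]
  congr 1
  rw [pow_succ]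
  ring

theorem L7_box_vol (n : ℕ) : ENNReal.ofReal ((2 : ℝ) ^ n) ≤ volume (L7_box n) := by
  rw [UpperHalfPlane.volume_eq_lintegral]
  have hmeas : MeasurableSet (((↑) : ℍ → ℂ) '' (L7_box n)) :=
    UpperHalfPlane.measurableEmbedding_coe.measurableSet_image.mpr (L7_box_meas n)
  calc ENNReal.ofReal ((2 : ℝ) ^ n)
      = ENNReal.ofReal ((4 : ℝ) ^ n) * volume (((↑) : ℍ → ℂ) '' (L7_box n)) := by
        rw [L7_vol_image, ← ENNReal.ofReal_mul (by positivity), ← mul_pow]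
        norm_num
    _ = ∫⁻ z : ℂ in ((↑) : ℍ → ℂ) '' (L7_box n), ENNReal.ofReal ((4 : ℝ) ^ n) := by
        rw [setLIntegral_const]
    _ ≤ _ := by
        apply setLIntegral_mono' hmeas
        rintro _ ⟨z, ⟨h1, h2, h3⟩, rfl⟩
        have hpos : 0 < z.im := z.im_pos
        rw [show (((1 / ‖(z : ℂ).im‖₊) ^ 2 : NNReal) : ENNReal) =
          ENNReal.ofReal ((1 / z.im) ^ 2) from ?_]
        · apply ENNReal.ofReal_le_ofReal
          have h4 : (2 : ℝ) ^ n ≤ 1 / z.im := by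
            rw [le_div_iff₀ hpos]
            calc (2 : ℝ) ^ n * z.im ≤ (2 : ℝ) ^ n * (1 / 2 : ℝ) ^ n := by gcongr
              _ = 1 := by rw [← mul_pow]; norm_num
          calc (4 : ℝ) ^ n = ((2 : ℝ) ^ n) ^ 2 := by rw [← pow_mul, mul_comm, pow_mul]; norm_num
            _ ≤ (1 / z.im) ^ 2 := by gcongr
        · rw [ENNReal.ofReal, ENNReal.coe_inj]
          ext
          simp [abs_of_pos hpos]
          positivity

theorem L7_piece (n : ℕ) : ENNReal.ofReal (2 / 5) ≤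
    ∫⁻ z in L7_box n, ENNReal.ofReal (pk z UpperHalfPlane.I) := by
  calc ENNReal.ofReal (2 / 5)
      = ENNReal.ofReal (2 / 5 * (1 / 2 : ℝ) ^ n) * ENNReal.ofReal ((2 : ℝ) ^ n) := by
        rw [← ENNReal.ofReal_mul (by positivity), mul_assoc, ← mul_pow]
        norm_num
    _ ≤ ENNReal.ofReal (2 / 5 * (1 / 2 : ℝ) ^ n) * volume (L7_box n) := by
        gcongr
        exact L7_box_vol n
    _ = ∫⁻ z in L7_box n, ENNReal.ofReal (2 / 5 * (1 / 2 : ℝ) ^ n) := by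
        rw [setLIntegral_const]
    _ ≤ _ := by
        apply setLIntegral_mono' (L7_box_meas n)
        rintro z ⟨h1, h2, h3⟩
        apply ENNReal.ofReal_le_ofReal
        have h4 : z.im ≤ 1 := h3.trans (pow_le_one₀ (by norm_num) (by norm_num))
        have h5 := L7_pk_lower z h1 h4
        rw [pow_succ] at h2
        linarith

theorem lintegral_pk : ∫⁻ z : ℍ, ENNReal.ofReal (pk z UpperHalfPlane.I) = ⊤ := by
  rw [eq_top_iff]
  calc (⊤ : ENNReal) = ∑' n : ℕ, ENNReal.ofReal (2 / 5) := by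
        rw [ENNReal.tsum_const_eq_top_of_ne_zero]
        simp
    _ ≤ ∑' n : ℕ, ∫⁻ z in L7_box n, ENNReal.ofReal (pk z UpperHalfPlane.I) :=
        ENNReal.tsum_le_tsum L7_piece
    _ = ∫⁻ z in ⋃ n, L7_box n, ENNReal.ofReal (pk z UpperHalfPlane.I) := by
        rw [lintegral_iUnion L7_box_meas L7_box_disj]
    _ ≤ _ := setLIntegral_le_lintegral _ _

end Pool.Agent.OBT
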