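import Mathlib
import Pool.Agent.OBT.Defs
import Pool.Agent.OBT.L2
import Pool.Agent.OBT.L6
import Pool.Agent.OBT.L7

/-!
# A bounded holomorphic function vanishing on an orbit of a lattice is zero
-/

open scoped ComplexConjugate Topology MatrixGroups UpperHalfPlane
open MeasureTheory

namespace Pool.Agent.OBT

theorem L8_mp (γ : SL(2, ℝ)) :
    MeasurePreserving (fun z : ℍ => γ • z) (volume : Measure ℍ) (volume : Measure ℍ) := by
  have h := measurePreserving_smul (Matrix.SpecialLinearGroup.mapGL ℝ γ) (volume : Measure ℍ)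
  exact h

theorem L8_emb (γ : SL(2, ℝ)) : MeasurableEmbedding (fun z : ℍ => γ • z) := by
  have h := measurableEmbedding_const_smul (α := ℍ) (Matrix.SpecialLinearGroup.mapGL ℝ γ)
  exact h

theorem L8_inv (γ : SL(2, ℝ)) (z : ℍ) :
    pk (γ⁻¹ • z) UpperHalfPlane.I = pk z (γ • UpperHalfPlane.I) := by
  rw [← pk_smul γ (γ⁻¹ • z) UpperHalfPlane.I, smul_inv_smul]

theorem L8_set (γ : SL(2, ℝ)) (F : Set ℍ) :
    ∫⁻ z in {z : ℍ | γ • z ∈ F}, ENNReal.ofReal (pk z UpperHalfPlane.I) =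
      ∫⁻ z in F, ENNReal.ofReal (pk z (γ • UpperHalfPlane.I)) := by
  have h := (L8_mp γ).setLIntegral_comp_preimage_emb (L8_emb γ)
    (fun z => ENNReal.ofReal (pk z (γ • UpperHalfPlane.I))) F
  rw [← h]
  refine lintegral_congr fun z => ?_
  show _ = ENNReal.ofReal (pk (γ • z) (γ • UpperHalfPlane.I))
  rw [pk_smul]

theorem lattice_bounded_zero (Γ : Subgroup SL(2, ℝ)) (hΓ : IsLatticeSubgroup Γ)
    (E : ℂ → ℂ) (hE : DifferentiableOn ℂ E {z | 0 < z.im}) (M : ℝ)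
    (hM : ∀ z : ℍ, ‖E z‖ ≤ M)
    (h0 : ∀ γ ∈ Γ, E ((γ • (UpperHalfPlane.I : ℍ) : ℍ) : ℂ) = 0) (z : ℍ) : E z = 0 := by
  by_contra hz
  obtain ⟨hd, F, hFm, hFv, hF⟩ := hΓ
  obtain ⟨C, hC⟩ := sum_group_of_orbit Γ hd z (2 * Real.log (M / ‖E z‖)) (by
    intro s hs
    refine sum_pk_le E hE M hM z hz s ?_
    intro w hw
    obtain ⟨γ, hγ, rfl⟩ := hs w hw
    exact h0 γ hγ)
  obtain ⟨C', hC'⟩ := poincare_bounded Γ hd C hC
  have : Countable Γ := countable_of_discrete Γ hd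
  have htop := lintegral_pk
  have hcov : (Set.univ : Set ℍ) ⊆ ⋃ γ : Γ, {z : ℍ | (γ : SL(2, ℝ)) • z ∈ F} := by
    intro w _
    obtain ⟨γ, hγ, hw⟩ := hF w
    exact Set.mem_iUnion.2 ⟨⟨γ, hγ⟩, hw⟩
  have hle : ∫⁻ z : ℍ, ENNReal.ofReal (pk z UpperHalfPlane.I) ≤
      ENNReal.ofReal C' * volume F := by
    calc ∫⁻ z : ℍ, ENNReal.ofReal (pk z UpperHalfPlane.I)
        = ∫⁻ z in Set.univ, ENNReal.ofReal (pk z UpperHalfPlane.I) := by
          rw [Measure.restrict_univ]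
      _ ≤ ∫⁻ z in ⋃ γ : Γ, {z : ℍ | (γ : SL(2, ℝ)) • z ∈ F},
            ENNReal.ofReal (pk z UpperHalfPlane.I) := lintegral_mono_set hcov
      _ ≤ ∑' γ : Γ, ∫⁻ z in {z : ℍ | (γ : SL(2, ℝ)) • z ∈ F},
            ENNReal.ofReal (pk z UpperHalfPlane.I) := lintegral_iUnion_le _ _
      _ = ∑' γ : Γ, ∫⁻ z in F, ENNReal.ofReal (pk z ((γ : SL(2, ℝ)) • UpperHalfPlane.I)) := by
          refine tsum_congr fun γ => ?_
          exact L8_set γ F
      _ = ∫⁻ z in F, ∑' γ : Γ, ENNReal.ofReal (pk z ((γ : SL(2, ℝ)) • UpperHalfPlane.I)) := by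
          rw [lintegral_tsum]
          intro γ
          exact ((continuous_pk _).measurable.ennreal_ofReal).aemeasurable
      _ ≤ ∫⁻ _ in F, ENNReal.ofReal C' := by
          refine lintegral_mono fun w => ?_
          rw [ENNReal.tsum_eq_iSup_sum]
          refine iSup_le fun s => ?_
          rw [← ENNReal.ofReal_sum_of_nonneg (fun γ _ => (pk_pos _ _).le)]
          exact ENNReal.ofReal_le_ofReal (hC' w s)
      _ = ENNReal.ofReal C' * volume F := by
          rw [setLIntegral_const]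
  rw [htop] at hle
  exact absurd (top_le_iff.1 hle) (ENNReal.mul_lt_top ENNReal.ofReal_lt_top hFv).ne

end Pool.Agent.OBT
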