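import Mathlib
import Pool.Agent.OBT.L8

/-!
# Horoballs and lattices
-/

open scoped ComplexConjugate Topology MatrixGroups UpperHalfPlane
open MeasureTheory Filter

namespace Pool.Agent.OBT

theorem lattice_multiplicity (Γ : Subgroup SL(2, ℝ)) (hΓ : IsLatticeSubgroup Γ) (B : Set ℍ)
    (hB : MeasurableSet B) (n : ℕ)
    (h : ∀ (z : ℍ) (s : Finset Γ), (∀ γ ∈ s, ((γ : SL(2, ℝ))⁻¹ • z) ∈ B) → s.card ≤ n) :
    volume B < ⊤ := by
  classical
  obtain ⟨hd, F, hFm, hFv, hF⟩ := hΓ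
  have : Countable Γ := countable_of_discrete Γ hd
  have hcov : B ⊆ ⋃ γ : Γ, {z : ℍ | z ∈ B ∧ (γ : SL(2, ℝ)) • z ∈ F} := by
    intro w hw
    obtain ⟨γ, hγ, hwF⟩ := hF w
    exact Set.mem_iUnion.2 ⟨⟨γ, hγ⟩, hw, hwF⟩
  have hpre : ∀ γ : Γ, MeasurableSet {w : ℍ | (γ : SL(2, ℝ))⁻¹ • w ∈ B} := fun γ =>
    (L8_emb (γ : SL(2, ℝ))⁻¹).measurable hB
  have hone : ∀ γ : Γ, volume {z : ℍ | z ∈ B ∧ (γ : SL(2, ℝ)) • z ∈ F} =
      ∫⁻ w in F, ({w : ℍ | (γ : SL(2, ℝ))⁻¹ • w ∈ B}).indicator (fun _ => (1 : ENNReal)) w := by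
    intro γ
    have e1 : {z : ℍ | z ∈ B ∧ (γ : SL(2, ℝ)) • z ∈ F} =
        (fun z : ℍ => (γ : SL(2, ℝ)) • z) ⁻¹' ({w : ℍ | (γ : SL(2, ℝ))⁻¹ • w ∈ B} ∩ F) := by
      ext z
      simp only [Set.mem_ofPred_eq, Set.mem_preimage, Set.mem_inter_iff, inv_smul_smul]
    rw [e1, (L8_mp (γ : SL(2, ℝ))).measure_preimage ((hpre γ).inter hFm).nullMeasurableSet,
      lintegral_indicator (hpre γ), setLIntegral_const, one_mul, Measure.restrict_apply (hpre γ)]
  have hle : volume B ≤ (n : ENNReal) * volume F := by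
    calc volume B ≤ volume (⋃ γ : Γ, {z : ℍ | z ∈ B ∧ (γ : SL(2, ℝ)) • z ∈ F}) :=
          measure_mono hcov
      _ ≤ ∑' γ : Γ, volume {z : ℍ | z ∈ B ∧ (γ : SL(2, ℝ)) • z ∈ F} := measure_iUnion_le _
      _ = ∑' γ : Γ, ∫⁻ w in F,
          ({w : ℍ | (γ : SL(2, ℝ))⁻¹ • w ∈ B}).indicator (fun _ => (1 : ENNReal)) w :=
          tsum_congr hone
      _ = ∫⁻ w in F, ∑' γ : Γ,
          ({w : ℍ | (γ : SL(2, ℝ))⁻¹ • w ∈ B}).indicator (fun _ => (1 : ENNReal)) w := by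
          rw [lintegral_tsum]
          intro γ
          exact (measurable_const.indicator (hpre γ)).aemeasurable
      _ ≤ ∫⁻ _ in F, (n : ENNReal) := by
          refine lintegral_mono fun w => ?_
          rw [ENNReal.tsum_eq_iSup_sum]
          refine iSup_le fun s => ?_
          have e2 : ∑ γ ∈ s, ({w : ℍ | (γ : SL(2, ℝ))⁻¹ • w ∈ B}).indicator
              (fun _ => (1 : ENNReal)) w =
              ((s.filter fun γ : Γ => (γ : SL(2, ℝ))⁻¹ • w ∈ B).card : ENNReal) := by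
            rw [Finset.card_filter]
            push_cast
            refine Finset.sum_congr rfl fun γ _ => ?_
            simp only [Set.indicator_apply, Set.mem_ofPred_eq]
          rw [e2]
          exact_mod_cast h w _ (fun γ hγ => (Finset.mem_filter.1 hγ).2)
      _ = (n : ENNReal) * volume F := setLIntegral_const _ _
  exact hle.trans_lt (ENNReal.mul_lt_top (ENNReal.natCast_lt_top n) hFv)

/-- a strip -/
def ZHyp_strip (c : ℝ) : Set ℍ := {z | c < z.im ∧ z.im ≤ c + 1}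

theorem ZHyp_strip_meas (c : ℝ) : MeasurableSet (ZHyp_strip c) := by
  have him : Continuous (fun z : ℍ => z.im) := UpperHalfPlane.continuous_im
  exact ((isOpen_lt continuous_const him).measurableSet).inter
    ((isClosed_le him continuous_const).measurableSet)

theorem ZHyp_image (c : ℝ) (hc : 0 < c) : ((↑) : ℍ → ℂ) '' (ZHyp_strip c) =
    Complex.measurableEquivRealProd ⁻¹' (Set.univ ×ˢ Set.Ioc c (c + 1)) := by
  ext w
  constructor
  · rintro ⟨z, ⟨h2, h3⟩, rfl⟩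
    exact ⟨Set.mem_univ _, h2, h3⟩
  · rintro ⟨_, h2⟩
    have h2' : c < w.im ∧ w.im ≤ c + 1 := h2
    have hw : 0 < w.im := hc.trans h2'.1
    exact ⟨⟨w, hw⟩, h2', rfl⟩

theorem ZHyp_vol_image (c : ℝ) (hc : 0 < c) : volume (((↑) : ℍ → ℂ) '' (ZHyp_strip c)) = ⊤ := by
  rw [ZHyp_image c hc, Complex.volume_preserving_equiv_real_prod.measure_preimage
    (MeasurableSet.univ.prod measurableSet_Ioc).nullMeasurableSet,
    Measure.volume_eq_prod, Measure.prod_prod, Real.volume_univ, Real.volume_Ioc]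
  rw [ENNReal.top_mul]
  simp

theorem volume_horoball (c : ℝ) : volume {z : ℍ | c < z.im} = ⊤ := by
  have hc : 0 < max c 1 := lt_max_of_lt_right one_pos
  have hsub : ZHyp_strip (max c 1) ⊆ {z : ℍ | c < z.im} := fun z hz =>
    lt_of_le_of_lt (le_max_left _ _) hz.1
  refine top_le_iff.1 (le_trans ?_ (measure_mono hsub))
  generalize max c 1 = c' at hc
  rw [UpperHalfPlane.volume_eq_lintegral]
  have hmeas : MeasurableSet (((↑) : ℍ → ℂ) '' (ZHyp_strip c')) :=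
    UpperHalfPlane.measurableEmbedding_coe.measurableSet_image.mpr (ZHyp_strip_meas c')
  calc (⊤ : ENNReal)
      = ENNReal.ofReal ((1 / (c' + 1)) ^ 2) * volume (((↑) : ℍ → ℂ) '' (ZHyp_strip c')) := by
        rw [ZHyp_vol_image c' hc, ENNReal.mul_top]
        exact (ENNReal.ofReal_pos.2 (by positivity)).ne'
    _ = ∫⁻ z : ℂ in ((↑) : ℍ → ℂ) '' (ZHyp_strip c'), ENNReal.ofReal ((1 / (c' + 1)) ^ 2) := by
        rw [setLIntegral_const]
    _ ≤ _ := by
        apply setLIntegral_mono' hmeas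
        rintro _ ⟨z, ⟨h2, h3⟩, rfl⟩
        have hpos : 0 < z.im := z.im_pos
        rw [show (((1 / ‖(z : ℂ).im‖₊) ^ 2 : NNReal) : ENNReal) =
          ENNReal.ofReal ((1 / z.im) ^ 2) from ?_]
        · apply ENNReal.ofReal_le_ofReal
          gcongr
        · rw [ENNReal.ofReal, ENNReal.coe_inj]
          ext
          simp [abs_of_pos hpos]
          positivity

/-- the square of the length of a vector with respect to the metric given by `z` -/
noncomputable def qz (z : ℍ) (u : ℂ) : ℝ := Complex.normSq ((u.re : ℂ) - (z : ℂ) * u.im) / z.im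

theorem qz_one (z : ℍ) : qz z 1 = 1 / z.im := by
  simp [qz]

theorem ZHyp_det (γ : SL(2, ℝ)) : γ 0 0 * γ 1 1 - γ 0 1 * γ 1 0 = 1 := by
  have h := γ.det_coe
  rw [Matrix.det_fin_two] at h
  exact h

theorem qz_smul (γ : SL(2, ℝ)) (z : ℍ) (u : ℂ) : qz (γ • z) (act γ u) = qz z u := by
  have hdet := ZHyp_det γ
  have hdetc : (γ 0 0 : ℂ) * (γ 1 1 : ℂ) - (γ 0 1 : ℂ) * (γ 1 0 : ℂ) = 1 := by
    exact_mod_cast hdet
  have hD : (γ 1 0 : ℂ) * (z : ℂ) + (γ 1 1 : ℂ) ≠ 0 := by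
    have h := UpperHalfPlane.denom_ne_zero (γ : GL (Fin 2) ℝ) z
    simpa [UpperHalfPlane.denom] using h
  have hsm : ((γ • z : ℍ) : ℂ) = ((γ 0 0 : ℂ) * (z : ℂ) + (γ 0 1 : ℂ)) /
      ((γ 1 0 : ℂ) * (z : ℂ) + (γ 1 1 : ℂ)) := by
    rw [UpperHalfPlane.specialLinearGroup_apply]
    simp
  have him : (γ • z : ℍ).im = z.im / Complex.normSq ((γ 1 0 : ℂ) * (z : ℂ) + (γ 1 1 : ℂ)) := by
    have h := UpperHalfPlane.im_smul_eq_div_normSq (γ : GL (Fin 2) ℝ) z
    have h' : (γ • z : ℍ).im = ((γ : GL (Fin 2) ℝ) • z).im := rfl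
    rw [h', h]
    simp [UpperHalfPlane.denom]
  have hnum : (((act γ u).re : ℝ) : ℂ) - ((γ • z : ℍ) : ℂ) * (((act γ u).im : ℝ) : ℂ) =
      ((u.re : ℂ) - (z : ℂ) * u.im) / ((γ 1 0 : ℂ) * (z : ℂ) + (γ 1 1 : ℂ)) := by
    rw [hsm]
    unfold act
    push_cast
    rw [eq_div_iff hD, sub_mul, div_mul_eq_mul_div, div_mul_cancel₀ _ hD]
    linear_combination ((u.re : ℂ) - (z : ℂ) * u.im) * hdetc
  have hN : Complex.normSq ((γ 1 0 : ℂ) * (z : ℂ) + (γ 1 1 : ℂ)) ≠ 0 := by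
    rw [Ne, Complex.normSq_eq_zero]
    exact hD
  have hz : z.im ≠ 0 := z.im_pos.ne'
  unfold qz
  rw [hnum, him, Complex.normSq_div, div_div_div_cancel_right₀ hN]

theorem wedge_le (z : ℍ) (u u' : ℂ) : (u.re * u'.im - u.im * u'.re) ^ 2 ≤ qz z u * qz z u' := by
  have hz := z.im_pos
  unfold qz
  rw [div_mul_div_comm, le_div_iff₀ (by positivity), Complex.normSq_apply, Complex.normSq_apply]
  simp only [Complex.sub_re, Complex.sub_im, Complex.ofReal_re, Complex.ofReal_im, Complex.mul_re,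
    Complex.mul_im, mul_zero, sub_zero, zero_add, zero_sub]
  rw [show (z : ℂ).re = z.re from rfl, show (z : ℂ).im = z.im from rfl]
  nlinarith [sq_nonneg ((u.re - z.re * u.im) * (u'.re - z.re * u'.im) +
    (z.im * u.im) * (z.im * u'.im))]

/-- the wedge product is invariant -/
theorem wedge_act (γ : SL(2, ℝ)) (u u' : ℂ) :
    (act γ u).re * (act γ u').im - (act γ u).im * (act γ u').re = u.re * u'.im - u.im * u'.re := by
  have hdet := ZHyp_det γ
  unfold act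
  simp only
  linear_combination (u.re * u'.im - u.im * u'.re) * hdet

end Pool.Agent.OBT
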