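import Mathlib
import Pool.Agent.OBT.ZHyp

/-!
# A discrete group with a rotation and a parabolic element is a lattice
-/

open scoped ComplexConjugate Topology MatrixGroups UpperHalfPlane
open MeasureTheory Filter

namespace Pool.Agent.OBT

theorem CH_compact (R : ℝ) : IsCompact {γ : SL(2, ℝ) | ∀ i j, |γ i j| ≤ R} := by
  have hemb : Topology.IsClosedEmbedding (fun γ : SL(2, ℝ) => (γ : Matrix (Fin 2) (Fin 2) ℝ)) := by
    refine ⟨Topology.IsEmbedding.subtypeVal, ?_⟩
    have e : Set.range (fun γ : SL(2, ℝ) => (γ : Matrix (Fin 2) (Fin 2) ℝ)) =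
        {A | A.det = 1} := by
      ext A
      constructor
      · rintro ⟨γ, rfl⟩
        exact γ.2
      · intro h
        exact ⟨⟨A, h⟩, rfl⟩
    rw [e]
    exact isClosed_eq (Continuous.matrix_det continuous_id) continuous_const
  have hM : IsCompact {A : Matrix (Fin 2) (Fin 2) ℝ | ∀ i j, |A i j| ≤ R} := by
    have e : {A : Matrix (Fin 2) (Fin 2) ℝ | ∀ i j, |A i j| ≤ R} =
        Set.pi Set.univ (fun _ : Fin 2 => Set.pi Set.univ (fun _ : Fin 2 => Set.Icc (-R) R)) := by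
      ext A
      constructor
      · intro h i _ j _
        exact abs_le.1 (h i j)
      · intro h i j
        exact abs_le.2 (h i (Set.mem_univ _) j (Set.mem_univ _))
    rw [e]
    exact isCompact_univ_pi fun _ => isCompact_univ_pi fun _ => isCompact_Icc
  exact hemb.isCompact_preimage hM

/-- a discrete subgroup has finitely many elements with bounded entries -/
theorem CH_finite (Γ : Subgroup SL(2, ℝ)) (hd : DiscreteTopology Γ) (R : ℝ) :
    {γ : SL(2, ℝ) | γ ∈ Γ ∧ ∀ i j, |γ i j| ≤ R}.Finite := by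
  have h1 := Subgroup.tendsto_coe_cofinite_of_discrete Γ
    (isDiscrete_iff_discreteTopology.mpr hd)
  have h2 := h1 (CH_compact R).compl_mem_cocompact
  have h3 : {γ : Γ | ∀ i j, |(γ : SL(2, ℝ)) i j| ≤ R}.Finite := by
    have h4 := mem_cofinite.1 (mem_map.1 h2)
    refine h4.subset ?_
    intro γ hγ h5
    exact h5 hγ
  refine (h3.image (fun γ : Γ => (γ : SL(2, ℝ)))).subset ?_
  rintro γ ⟨hγ, h5⟩
  exact ⟨⟨γ, hγ⟩, h5, rfl⟩

/-- parabolic element -/
def parM (t : ℝ) : SL(2, ℝ) := ⟨!![1, t; 0, 1], by simp [Matrix.det_fin_two_of]⟩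

/-- rotation -/
noncomputable def rotM (θ : ℝ) : SL(2, ℝ) :=
  ⟨!![Real.cos θ, -Real.sin θ; Real.sin θ, Real.cos θ], by
    rw [Matrix.det_fin_two_of]
    have := Real.cos_sq_add_sin_sq θ
    linear_combination this⟩

theorem parM_mul (s t : ℝ) : parM s * parM t = parM (s + t) := by
  apply Subtype.ext
  show (!![1, s; 0, 1] : Matrix (Fin 2) (Fin 2) ℝ) * !![1, t; 0, 1] = !![1, s + t; 0, 1]
  rw [Matrix.mul_fin_two]
  congr 1
  ext i j
  fin_cases i <;> fin_cases j <;> simp [add_comm]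

theorem parM_zero : parM 0 = 1 := by
  apply Subtype.ext
  show (!![1, 0; 0, 1] : Matrix (Fin 2) (Fin 2) ℝ) = 1
  exact Matrix.one_fin_two.symm

theorem parM_mem {Γ : Subgroup SL(2, ℝ)} {t : ℝ} (h : parM t ∈ Γ) (k : ℤ) :
    parM (k * t) ∈ Γ := by
  have hneg : parM (-t) ∈ Γ := by
    have e : parM (-t) = (parM t)⁻¹ := by
      rw [eq_inv_iff_mul_eq_one, parM_mul, neg_add_cancel, parM_zero]
    rw [e]
    exact Γ.inv_mem h
  induction k using Int.induction_on with
  | zero =>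
    rw [Int.cast_zero, zero_mul, parM_zero]
    exact Γ.one_mem
  | succ n ih =>
    have e : ((n : ℤ) + 1 : ℤ) * t = t + (n : ℤ) * t := by push_cast; ring
    rw [e, ← parM_mul]
    exact Γ.mul_mem h ih
  | pred n ih =>
    have e : ((-(n : ℤ) - 1 : ℤ) : ℝ) * t = -t + (-(n : ℤ) : ℤ) * t := by push_cast; ring
    rw [e, ← parM_mul]
    exact Γ.mul_mem hneg ih

theorem CH_im (γ : SL(2, ℝ)) (z : ℍ) :
    (γ • z : ℍ).im = z.im / ((γ 1 0 * z.re + γ 1 1) ^ 2 + (γ 1 0 * z.im) ^ 2) := by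
  have h := UpperHalfPlane.im_smul_eq_div_normSq (γ : GL (Fin 2) ℝ) z
  have h' : (γ • z : ℍ).im = ((γ : GL (Fin 2) ℝ) • z).im := rfl
  rw [h', h]
  simp [UpperHalfPlane.denom, Complex.normSq_apply]
  ring

theorem CH_coe (γ : SL(2, ℝ)) (z : ℍ) : ((γ • z : ℍ) : ℂ) * ((γ 1 0 : ℂ) * (z : ℂ) + (γ 1 1 : ℂ)) =
    (γ 0 0 : ℂ) * (z : ℂ) + (γ 0 1 : ℂ) := by
  have hD : (γ 1 0 : ℂ) * (z : ℂ) + (γ 1 1 : ℂ) ≠ 0 := by
    have h := UpperHalfPlane.denom_ne_zero (γ : GL (Fin 2) ℝ) z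
    simpa [UpperHalfPlane.denom] using h
  have hsm : ((γ • z : ℍ) : ℂ) = ((γ 0 0 : ℂ) * (z : ℂ) + (γ 0 1 : ℂ)) /
      ((γ 1 0 : ℂ) * (z : ℂ) + (γ 1 1 : ℂ)) := by
    rw [UpperHalfPlane.specialLinearGroup_apply]
    simp
  rw [hsm, div_mul_cancel₀ _ hD]

theorem CH_par (t : ℝ) (z : ℍ) : (parM t • z : ℍ).re = z.re + t ∧ (parM t • z : ℍ).im = z.im := by
  have h := CH_coe (parM t) z
  have e1 : (parM t) 1 0 = 0 := rfl
  have e2 : (parM t) 1 1 = 1 := rfl
  have e3 : (parM t) 0 0 = 1 := rfl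
  have e4 : (parM t) 0 1 = t := rfl
  rw [e1, e2, e3, e4] at h
  simp only [Complex.ofReal_zero, zero_mul, zero_add, Complex.ofReal_one, mul_one, one_mul] at h
  constructor
  · have := congrArg Complex.re h
    simpa using this
  · have := congrArg Complex.im h
    simpa using this

theorem CH_mul (A B : SL(2, ℝ)) (i j : Fin 2) :
    (A * B) i j = A i 0 * B 0 j + A i 1 * B 1 j := by
  rw [Matrix.SpecialLinearGroup.coe_mul, Matrix.mul_apply, Fin.sum_univ_two]

/-- the lower row of the elements of `Γ` is bounded from below -/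
theorem CH_lower (Γ : Subgroup SL(2, ℝ)) (hd : DiscreteTopology Γ) {t : ℝ} (ht : 0 < t)
    (hu : parM t ∈ Γ) : ∃ δ : ℝ, 0 < δ ∧ ∀ γ ∈ Γ, δ ≤ (γ 1 0) ^ 2 + (γ 1 1) ^ 2 := by
  classical
  have hfin := CH_finite Γ hd (1 + t)
  set S := hfin.toFinset with hS
  set S' := S.filter (fun η : SL(2, ℝ) => 0 < η 0 1 - η 1 0) with hS'
  obtain ⟨δ, hδ, hδ'⟩ : ∃ δ : ℝ, 0 < δ ∧ ∀ η ∈ S', δ ≤ η 0 1 - η 1 0 := by
    by_cases hne : S'.Nonempty
    · obtain ⟨η, hη, hmin⟩ := S'.exists_min_image (fun η : SL(2, ℝ) => η 0 1 - η 1 0) hne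
      exact ⟨η 0 1 - η 1 0, (Finset.mem_filter.1 hη).2, hmin⟩
    · refine ⟨1, one_pos, fun η hη => absurd ⟨η, hη⟩ hne⟩
  refine ⟨min 1 (δ / t), lt_min one_pos (by positivity), ?_⟩
  intro γ hγ
  by_contra hc
  rw [not_le, lt_min_iff] at hc
  obtain ⟨hc1, hc2⟩ := hc
  have hdet := ZHyp_det γ
  set a := γ 0 0
  set b := γ 0 1
  set c := γ 1 0
  set d := γ 1 1
  have hη : γ⁻¹ * parM t * γ ∈ Γ := Γ.mul_mem (Γ.mul_mem (Γ.inv_mem hγ) hu) hγ
  have i0 : (γ⁻¹) 0 0 = d := by
    rw [Matrix.SpecialLinearGroup.coe_inv, Matrix.adjugate_fin_two]; rfl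
  have i1 : (γ⁻¹) 0 1 = -b := by
    rw [Matrix.SpecialLinearGroup.coe_inv, Matrix.adjugate_fin_two]; rfl
  have i2 : (γ⁻¹) 1 0 = -c := by
    rw [Matrix.SpecialLinearGroup.coe_inv, Matrix.adjugate_fin_two]; rfl
  have i3 : (γ⁻¹) 1 1 = a := by
    rw [Matrix.SpecialLinearGroup.coe_inv, Matrix.adjugate_fin_two]; rfl
  have p0 : (parM t) 0 0 = 1 := rfl
  have p1 : (parM t) 0 1 = t := rfl
  have p2 : (parM t) 1 0 = 0 := rfl
  have p3 : (parM t) 1 1 = 1 := rfl
  have e00 : (γ⁻¹ * parM t * γ) 0 0 = 1 + t * c * d := by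
    rw [CH_mul, CH_mul, CH_mul, i0, i1, p0, p1, p2, p3]
    show (d * 1 + -b * 0) * a + (d * t + -b * 1) * c = _
    linear_combination hdet
  have e01 : (γ⁻¹ * parM t * γ) 0 1 = t * d ^ 2 := by
    rw [CH_mul, CH_mul, CH_mul, i0, i1, p0, p1, p2, p3]
    show (d * 1 + -b * 0) * b + (d * t + -b * 1) * d = _
    ring
  have e10 : (γ⁻¹ * parM t * γ) 1 0 = -(t * c ^ 2) := by
    rw [CH_mul, CH_mul, CH_mul, i2, i3, p0, p1, p2, p3]
    show (-c * 1 + a * 0) * a + (-c * t + a * 1) * c = _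
    ring
  have e11 : (γ⁻¹ * parM t * γ) 1 1 = 1 - t * c * d := by
    rw [CH_mul, CH_mul, CH_mul, i2, i3, p0, p1, p2, p3]
    show (-c * 1 + a * 0) * b + (-c * t + a * 1) * d = _
    linear_combination hdet
  have hpos : 0 < c ^ 2 + d ^ 2 := by
    have h0 : 0 ≤ c ^ 2 + d ^ 2 := by positivity
    rcases h0.eq_or_lt with h | h
    · exfalso
      have hc0 : c = 0 := by nlinarith [sq_nonneg c, sq_nonneg d]
      have hd0 : d = 0 := by nlinarith [sq_nonneg c, sq_nonneg d]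
      rw [hc0, hd0] at hdet
      simp at hdet
    · exact h
  have hb1 : |t * c * d| ≤ t := by
    rw [mul_assoc, abs_mul, abs_of_pos ht]
    have : |c * d| ≤ 1 := by
      rw [abs_le]
      constructor <;> nlinarith [sq_nonneg (c + d), sq_nonneg (c - d)]
    nlinarith
  have hmem : γ⁻¹ * parM t * γ ∈ S' := by
    rw [hS', Finset.mem_filter, hS, Set.Finite.mem_toFinset]
    refine ⟨⟨hη, ?_⟩, ?_⟩
    · intro i j
      have h1 := abs_le.1 hb1
      fin_cases i <;> fin_cases j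
      · show |(γ⁻¹ * parM t * γ) 0 0| ≤ 1 + t
        rw [e00, abs_le]
        constructor <;> linarith
      · show |(γ⁻¹ * parM t * γ) 0 1| ≤ 1 + t
        rw [e01, abs_le]
        constructor <;> nlinarith [sq_nonneg c, sq_nonneg d]
      · show |(γ⁻¹ * parM t * γ) 1 0| ≤ 1 + t
        rw [e10, abs_le]
        constructor <;> nlinarith [sq_nonneg c, sq_nonneg d]
      · show |(γ⁻¹ * parM t * γ) 1 1| ≤ 1 + t
        rw [e11, abs_le]
        constructor <;> linarith
    · rw [e01, e10]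
      nlinarith
  have h2 := hδ' _ hmem
  rw [e01, e10] at h2
  rw [lt_div_iff₀ ht] at hc2
  nlinarith

theorem CH_norm {t : ℝ} (ht : 0 < t) (w : ℍ) :
    ∃ k : ℤ, |(parM (k * t) • w : ℍ).re| ≤ t / 2 ∧ (parM (k * t) • w : ℍ).im = w.im := by
  refine ⟨-round (w.re / t), ?_, (CH_par _ w).2⟩
  rw [(CH_par _ w).1]
  have h := abs_sub_round (w.re / t)
  have e : w.re + ((-round (w.re / t) : ℤ) : ℝ) * t = (w.re / t - round (w.re / t)) * t := by
    push_cast
    field_simp
    ring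
  rw [e, abs_mul, abs_of_pos ht]
  nlinarith

theorem CH_bound {δ t : ℝ} (hδ : 0 < δ) (ht : 0 < t) (z : ℍ) : ∃ R : ℝ, ∀ γ : SL(2, ℝ),
    δ ≤ (γ 1 0) ^ 2 + (γ 1 1) ^ 2 → z.im ≤ (γ • z : ℍ).im → |(γ • z : ℍ).re| ≤ t / 2 →
    ∀ i j, |γ i j| ≤ R := by
  set x := z.re with hx
  set y := z.im with hy
  have hy0 : 0 < y := z.im_pos
  set K := 2 + (1 + 2 * x ^ 2) / y ^ 2 with hK
  have hK0 : 0 < K := by positivity
  set B := t / 2 + y * K / δ + 1 with hB
  have hB1 : 1 ≤ B := by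
    have : 0 < t / 2 + y * K / δ := by positivity
    linarith
  refine ⟨B * ((1 + |x|) * (1 + 1 / y)), ?_⟩
  intro γ hδγ him hre
  have hin := CH_im γ z
  have hco := CH_coe γ z
  set a := γ 0 0 with ha
  set b := γ 0 1 with hb
  set c := γ 1 0 with hc
  set d := γ 1 1 with hdd
  set D := (c * x + d) ^ 2 + (c * y) ^ 2 with hD
  set u := (γ • z : ℍ).re with hu
  set v := (γ • z : ℍ).im with hv
  have hv0 : 0 < v := (γ • z : ℍ).im_pos
  have hD0 : 0 < D := by
    by_contra h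
    have h1 : D ≤ 0 := not_lt.1 h
    have : y / D ≤ 0 := div_nonpos_of_nonneg_of_nonpos hy0.le h1
    linarith
  have hD1 : D ≤ 1 := by
    rw [hin, le_div_iff₀ hD0] at him
    nlinarith
  have hDK : δ ≤ D * K := by
    refine hδγ.trans ?_
    have e1 : (c * y) ^ 2 * ((1 + 2 * x ^ 2) / y ^ 2) = c ^ 2 * (1 + 2 * x ^ 2) := by
      field_simp
    have e2 : D * K = 2 * (c * x + d) ^ 2 + 2 * (c * y) ^ 2 +
        (c * x + d) ^ 2 * ((1 + 2 * x ^ 2) / y ^ 2) + (c * y) ^ 2 * ((1 + 2 * x ^ 2) / y ^ 2) := by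
      rw [hD, hK]
      ring
    rw [e2, e1]
    have e3 : 0 ≤ (c * x + d) ^ 2 * ((1 + 2 * x ^ 2) / y ^ 2) := by positivity
    nlinarith [sq_nonneg (c * x + d + c * x), sq_nonneg (c * y)]
  have hv1 : v ≤ y * K / δ := by
    rw [hin, div_le_div_iff₀ hD0 hδ]
    nlinarith
  have he : |c * x + d| ≤ 1 := by
    rw [abs_le]
    constructor <;> nlinarith [sq_nonneg (c * y)]
  have hcy : |c * y| ≤ 1 := by
    rw [abs_le]
    constructor <;> nlinarith [sq_nonneg (c * x + d)]
  have r1 : u * (c * x + d) - v * (c * y) = a * x + b := by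
    have := congrArg Complex.re hco
    simp only [Complex.mul_re, Complex.add_re, Complex.ofReal_re, Complex.ofReal_im, zero_mul,
      sub_zero, Complex.add_im, Complex.mul_im, add_zero] at this
    exact this
  have r2 : u * (c * y) + v * (c * x + d) = a * y := by
    have := congrArg Complex.im hco
    simp only [Complex.mul_re, Complex.add_re, Complex.ofReal_re, Complex.ofReal_im, zero_mul,
      sub_zero, Complex.add_im, Complex.mul_im, add_zero] at this
    exact this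
  have hprod : ∀ p q : ℝ, |p| ≤ 1 → |q| ≤ 1 → |u * p| + |v * q| ≤ B - 1 := by
    intro p q hp hq
    rw [abs_mul, abs_mul, abs_of_pos hv0]
    have h1 : |u| * |p| ≤ t / 2 := by
      calc |u| * |p| ≤ (t / 2) * 1 := mul_le_mul hre hp (abs_nonneg _) (by positivity)
        _ = t / 2 := mul_one _
    have h2 : v * |q| ≤ y * K / δ := by
      calc v * |q| ≤ (y * K / δ) * 1 := mul_le_mul hv1 hq (abs_nonneg _) (by positivity)
        _ = y * K / δ := mul_one _
    linarith
  have hc1 : |c| ≤ 1 / y := by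
    rw [le_div_iff₀ hy0]
    rwa [abs_mul, abs_of_pos hy0] at hcy
  have ha1 : |a| ≤ B / y := by
    rw [le_div_iff₀ hy0, ← abs_of_pos hy0, ← abs_mul, ← r2]
    have := abs_add_le (u * (c * y)) (v * (c * x + d))
    have := hprod _ _ hcy he
    linarith
  have hd1 : |d| ≤ 1 + |x| / y := by
    have e : d = (c * x + d) - c * x := by ring
    rw [e]
    refine (abs_sub _ _).trans ?_
    rw [abs_mul c x]
    have : |c| * |x| ≤ 1 / y * |x| := mul_le_mul_of_nonneg_right hc1 (abs_nonneg _)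
    have e2 : 1 / y * |x| = |x| / y := by ring
    linarith
  have hb1 : |b| ≤ B + B / y * |x| := by
    have e : b = (a * x + b) - a * x := by ring
    rw [e]
    refine (abs_sub _ _).trans ?_
    rw [abs_mul a x, ← r1]
    have h1 : |a| * |x| ≤ B / y * |x| := mul_le_mul_of_nonneg_right ha1 (abs_nonneg _)
    have h2 := abs_sub (u * (c * x + d)) (v * (c * y))
    have h3 := hprod _ _ he hcy
    linarith
  have hy1 : 0 < 1 / y := by positivity
  have hx0 : 0 ≤ |x| := abs_nonneg x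
  have big : ∀ s : ℝ, s ≤ B * (1 + 1 / y + |x| / y) → s ≤ B * ((1 + |x|) * (1 + 1 / y)) := by
    intro s hs
    refine hs.trans (mul_le_mul_of_nonneg_left ?_ (by linarith))
    have e : (1 + |x|) * (1 + 1 / y) = 1 + 1 / y + |x| / y + |x| := by ring
    rw [e]
    linarith
  have hxy : 0 ≤ |x| / y := by positivity
  intro i j
  apply big
  fin_cases i <;> fin_cases j
  · show |a| ≤ _
    refine ha1.trans ?_
    have e : B / y = B * (1 / y) := by ring
    rw [e]
    apply mul_le_mul_of_nonneg_left _ (by linarith)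
    linarith
  · show |b| ≤ _
    refine hb1.trans ?_
    have e : B + B / y * |x| = B * (1 + |x| / y) := by ring
    rw [e]
    apply mul_le_mul_of_nonneg_left _ (by linarith)
    linarith
  · show |c| ≤ _
    refine hc1.trans ?_
    nlinarith
  · show |d| ≤ _
    refine hd1.trans ?_
    nlinarith

theorem CH_max (Γ : Subgroup SL(2, ℝ)) (hd : DiscreteTopology Γ) {t : ℝ} (ht : 0 < t)
    (hu : parM t ∈ Γ) (z : ℍ) : ∃ γ ∈ Γ, |(γ • z : ℍ).re| ≤ t / 2 ∧
      ∀ γ' ∈ Γ, (γ' • γ • z : ℍ).im ≤ (γ • z : ℍ).im := by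
  classical
  obtain ⟨δ, hδ, hlow⟩ := CH_lower Γ hd ht hu
  obtain ⟨R, hR⟩ := CH_bound hδ ht z
  have hfin : {γ : SL(2, ℝ) | γ ∈ Γ ∧ z.im ≤ (γ • z : ℍ).im ∧ |(γ • z : ℍ).re| ≤ t / 2}.Finite := by
    refine (CH_finite Γ hd R).subset ?_
    rintro γ ⟨h1, h2, h3⟩
    exact ⟨h1, hR γ (hlow γ h1) h2 h3⟩
  have hne : {γ : SL(2, ℝ) | γ ∈ Γ ∧ z.im ≤ (γ • z : ℍ).im ∧
      |(γ • z : ℍ).re| ≤ t / 2}.Nonempty := by
    obtain ⟨k, hk1, hk2⟩ := CH_norm ht z
    exact ⟨parM (k * t), parM_mem hu k, hk2.ge, hk1⟩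
  obtain ⟨γ, ⟨hγ1, hγ2, hγ3⟩, hmax⟩ := Set.exists_max_image _ (fun γ : SL(2, ℝ) => (γ • z : ℍ).im)
    hfin hne
  refine ⟨γ, hγ1, hγ3, ?_⟩
  intro γ' hγ'
  by_contra hc
  rw [not_le] at hc
  obtain ⟨k, hk1, hk2⟩ := CH_norm ht (γ' • γ • z)
  have hmem : parM (k * t) * γ' * γ ∈ Γ := Γ.mul_mem (Γ.mul_mem (parM_mem hu k) hγ') hγ1
  have e : (parM (k * t) * γ' * γ) • z = parM (k * t) • γ' • γ • z := by
    rw [mul_smul, mul_smul]
  have := hmax (parM (k * t) * γ' * γ) ⟨hmem, by rw [e, hk2]; linarith, by rw [e]; exact hk1⟩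
  simp only [e, hk2] at this
  linarith

/-- a set of finite area -/
def CH_F (c : ℝ) : Set ℍ := {w | |w.re| ≤ c ∧ c - |w.re| ≤ c * w.im ^ 2}

theorem CH_cover (Γ : Subgroup SL(2, ℝ)) (hd : DiscreteTopology Γ) {θ t : ℝ} (hθ : 0 < θ)
    (hθ' : θ < Real.pi) (ht : 0 < t) (htθ : t * Real.sin θ ≤ 2 * (1 + Real.cos θ))
    (hR : rotM θ ∈ Γ) (hu : parM t ∈ Γ) (z : ℍ) :
    ∃ γ ∈ Γ, γ • z ∈ CH_F ((1 + Real.cos θ) / Real.sin θ) := by
  obtain ⟨γ, hγ, h1, h2⟩ := CH_max Γ hd ht hu z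
  refine ⟨γ, hγ, ?_⟩
  set w : ℍ := γ • z
  have hs : 0 < Real.sin θ := Real.sin_pos_of_pos_of_lt_pi hθ hθ'
  set s := Real.sin θ with hs_def
  set C := Real.cos θ with hC_def
  have hsc : s ^ 2 + C ^ 2 = 1 := Real.sin_sq_add_cos_sq θ
  have hc : t / 2 ≤ (1 + C) / s := by
    rw [div_le_div_iff₀ two_pos hs]
    linarith
  have hC1 : -1 < C := by
    by_contra h
    have : C ≤ -1 := not_lt.1 h
    nlinarith
  have hC2 : C < 1 := by nlinarith
  have hre : |w.re| ≤ (1 + C) / s := h1.trans hc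
  have hwim : 0 < w.im := w.im_pos
  -- the two rotations
  have k1 : 1 ≤ (s * w.re + C) ^ 2 + (s * w.im) ^ 2 := by
    have h3 := h2 _ hR
    rw [CH_im] at h3
    have e1 : (rotM θ) 1 0 = s := rfl
    have e2 : (rotM θ) 1 1 = C := rfl
    rw [e1, e2] at h3
    by_contra hcon
    rw [not_le] at hcon
    have hpos : 0 < (s * w.re + C) ^ 2 + (s * w.im) ^ 2 :=
      add_pos_of_nonneg_of_pos (sq_nonneg _) (pow_pos (mul_pos hs hwim) 2)
    rw [div_le_iff₀ hpos] at h3
    nlinarith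
  have k2 : 1 ≤ (-s * w.re + C) ^ 2 + (-s * w.im) ^ 2 := by
    have hR' : (rotM θ)⁻¹ ∈ Γ := Γ.inv_mem hR
    have h3 := h2 _ hR'
    rw [CH_im] at h3
    have e1 : ((rotM θ)⁻¹) 1 0 = -s := by
      rw [Matrix.SpecialLinearGroup.coe_inv, Matrix.adjugate_fin_two]; rfl
    have e2 : ((rotM θ)⁻¹) 1 1 = C := by
      rw [Matrix.SpecialLinearGroup.coe_inv, Matrix.adjugate_fin_two]; rfl
    rw [e1, e2] at h3
    by_contra hcon
    rw [not_le] at hcon
    have hpos : 0 < (-s * w.re + C) ^ 2 + (-s * w.im) ^ 2 := by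
      apply add_pos_of_nonneg_of_pos (sq_nonneg _)
      have := pow_pos (mul_pos hs hwim) 2
      linarith [this, (by ring : (-s * w.im) ^ 2 = (s * w.im) ^ 2)]
    rw [div_le_iff₀ hpos] at h3
    nlinarith
  have k3 : 1 ≤ (C - s * |w.re|) ^ 2 + (s * w.im) ^ 2 := by
    rcases le_total 0 w.re with h | h
    · rw [abs_of_nonneg h]
      nlinarith
    · rw [abs_of_nonpos h]
      nlinarith
  refine ⟨hre, ?_⟩
  set r := |w.re| with hr
  have hr0 : 0 ≤ r := abs_nonneg _
  have hrs : s * r ≤ 1 + C := by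
    rw [le_div_iff₀ hs] at hre
    linarith
  -- `s² c y² ≥ s² (c - r)`
  have k4 : (1 - C) * (1 + C - s * r) ≤ (s * w.im) ^ 2 := by
    have e1 : 1 - (C - s * r) ^ 2 = (1 - C + s * r) * (1 + C - s * r) := by ring
    have e2 : (1 - C) * (1 + C - s * r) ≤ (1 - C + s * r) * (1 + C - s * r) := by
      apply mul_le_mul_of_nonneg_right _ (by linarith)
      have : 0 ≤ s * r := by positivity
      linarith
    linarith
  have k5 : (1 + C) * ((1 - C) * (1 + C - s * r)) ≤ (1 + C) * (s * w.im) ^ 2 :=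
    mul_le_mul_of_nonneg_left k4 (by linarith)
  have e3 : (1 + C) * ((1 - C) * (1 + C - s * r)) = s ^ 2 * (1 + C - s * r) := by
    have : (1 + C) * (1 - C) = s ^ 2 := by linear_combination -hsc
    rw [← mul_assoc, this]
  rw [e3] at k5
  have k6 : 1 + C - s * r ≤ (1 + C) * w.im ^ 2 := by
    have : s ^ 2 * (1 + C - s * r) ≤ s ^ 2 * ((1 + C) * w.im ^ 2) := by linarith
    exact le_of_mul_le_mul_left this (by positivity)
  have e4 : (1 + C) / s - r = (1 + C - s * r) / s := by field_simp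
  have e5 : (1 + C) / s * w.im ^ 2 = ((1 + C) * w.im ^ 2) / s := by ring
  rw [e4, e5]
  exact div_le_div_of_nonneg_right k6 hs.le

theorem CH_F_meas (c : ℝ) : MeasurableSet (CH_F c) := by
  have him : Continuous (fun z : ℍ => z.im) := UpperHalfPlane.continuous_im
  have hre : Continuous (fun z : ℍ => z.re) := UpperHalfPlane.continuous_re
  apply IsClosed.measurableSet
  apply IsClosed.inter
  · exact isClosed_le hre.abs continuous_const
  · exact isClosed_le (continuous_const.sub hre.abs) (continuous_const.mul (him.pow 2))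

/-- the same set in the plane -/
def CH_P (c : ℝ) : Set (ℝ × ℝ) := {w | 0 < w.2 ∧ |w.1| ≤ c ∧ c - |w.1| ≤ c * w.2 ^ 2}

theorem CH_image (c : ℝ) : ((↑) : ℍ → ℂ) '' (CH_F c) =
    Complex.measurableEquivRealProd ⁻¹' (CH_P c) := by
  ext w
  constructor
  · rintro ⟨z, ⟨h2, h3⟩, rfl⟩
    exact ⟨z.im_pos, h2, h3⟩
  · rintro ⟨h1, h2, h3⟩
    exact ⟨⟨w, h1⟩, ⟨h2, h3⟩, rfl⟩

theorem CH_P_meas (c : ℝ) : MeasurableSet (CH_P c) := by
  apply MeasurableSet.inter
  · exact (isOpen_lt continuous_const continuous_snd).measurableSet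
  · apply IsClosed.measurableSet
    apply IsClosed.inter
    · exact isClosed_le continuous_fst.abs continuous_const
    · exact isClosed_le (continuous_const.sub continuous_fst.abs)
        (continuous_const.mul (continuous_snd.pow 2))

/-- the slices -/
theorem CH_slice {c y : ℝ} (hc : 0 < c) (hy : 0 < y) :
    volume {x : ℝ | (x, y) ∈ CH_P c} ≤ ENNReal.ofReal (min (2 * c) (2 * c * y ^ 2)) := by
  rw [ENNReal.ofReal_min]
  refine le_min ?_ ?_
  · calc volume {x : ℝ | (x, y) ∈ CH_P c} ≤ volume (Set.Icc (-c) c) := by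
          apply measure_mono
          rintro x ⟨-, h2, -⟩
          exact abs_le.1 h2
      _ = ENNReal.ofReal (2 * c) := by
          rw [Real.volume_Icc]
          congr 1
          ring
  · calc volume {x : ℝ | (x, y) ∈ CH_P c} ≤
          volume (Set.Icc (-c) (-(c - c * y ^ 2)) ∪ Set.Icc (c - c * y ^ 2) c) := by
          apply measure_mono
          rintro x ⟨-, h2, h3⟩
          have h4 := abs_le.1 h2
          simp only at h3 h4 h2
          rcases le_total 0 x with h | h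
          · rw [abs_of_nonneg h] at h3
            exact Or.inr ⟨by linarith, h4.2⟩
          · rw [abs_of_nonpos h] at h3
            exact Or.inl ⟨h4.1, by linarith⟩
      _ ≤ volume (Set.Icc (-c) (-(c - c * y ^ 2))) + volume (Set.Icc (c - c * y ^ 2) c) :=
          measure_union_le _ _
      _ = ENNReal.ofReal (2 * c * y ^ 2) := by
          rw [Real.volume_Icc, Real.volume_Icc, ← ENNReal.ofReal_add (by nlinarith [sq_nonneg y])
            (by nlinarith [sq_nonneg y])]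
          congr 1
          ring

theorem CH_vol {c : ℝ} (hc : 0 < c) : volume (CH_F c) < ⊤ := by
  rw [UpperHalfPlane.volume_eq_lintegral, CH_image]
  have hmp := Complex.volume_preserving_equiv_real_prod
  have e1 : ∫⁻ z : ℂ in Complex.measurableEquivRealProd ⁻¹' (CH_P c),
      ↑((1 / ‖z.im‖₊) ^ 2 : NNReal) =
      ∫⁻ w : ℝ × ℝ in CH_P c, ↑((1 / ‖w.2‖₊) ^ 2 : NNReal) :=
    hmp.setLIntegral_comp_preimage_emb Complex.measurableEquivRealProd.measurableEmbedding
      (fun w : ℝ × ℝ => ↑((1 / ‖w.2‖₊) ^ 2 : NNReal)) (CH_P c)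
  rw [e1, ← lintegral_indicator (CH_P_meas c), Measure.volume_eq_prod]
  have hmeas : Measurable ((CH_P c).indicator fun w : ℝ × ℝ =>
      (((1 / ‖w.2‖₊) ^ 2 : NNReal) : ENNReal)) := by
    apply Measurable.indicator _ (CH_P_meas c)
    fun_prop
  rw [lintegral_prod_symm _ hmeas.aemeasurable]
  have hb : ∀ y : ℝ, (∫⁻ x : ℝ, (CH_P c).indicator (fun w : ℝ × ℝ =>
      (((1 / ‖w.2‖₊) ^ 2 : NNReal) : ENNReal)) (x, y)) ≤
      (Set.Ioc (0 : ℝ) 1).indicator (fun _ => ENNReal.ofReal (2 * c)) y +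
      (Set.Ioi (1 : ℝ)).indicator (fun y => ENNReal.ofReal (2 * c * y ^ (-2 : ℝ))) y := by
    intro y
    have e2 : (fun x : ℝ => (CH_P c).indicator (fun w : ℝ × ℝ =>
        (((1 / ‖w.2‖₊) ^ 2 : NNReal) : ENNReal)) (x, y)) =
        {x : ℝ | (x, y) ∈ CH_P c}.indicator (fun _ => (((1 / ‖y‖₊) ^ 2 : NNReal) : ENNReal)) := by
      funext x
      by_cases h : (x, y) ∈ CH_P c
      · rw [Set.indicator_of_mem h, Set.indicator_of_mem (show x ∈ {x : ℝ | (x, y) ∈ CH_P c} from h)]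
      · rw [Set.indicator_of_notMem h,
          Set.indicator_of_notMem (show x ∉ {x : ℝ | (x, y) ∈ CH_P c} from h)]
    have hsm : MeasurableSet {x : ℝ | (x, y) ∈ CH_P c} :=
      (CH_P_meas c).preimage (measurable_id.prodMk measurable_const)
    rw [e2, lintegral_indicator hsm, setLIntegral_const]
    by_cases hy : 0 < y
    · have e3 : (((1 / ‖y‖₊) ^ 2 : NNReal) : ENNReal) = ENNReal.ofReal (1 / y ^ 2) := by
        rw [ENNReal.ofReal, ENNReal.coe_inj]
        ext
        have : (0 : ℝ) ≤ 1 / y ^ 2 := by positivity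
        simp [abs_of_pos hy]
        positivity
      rw [e3]
      have h1 := CH_slice hc hy
      rcases le_or_gt y 1 with hy1 | hy1
      · rw [Set.indicator_of_mem (show y ∈ Set.Ioc (0 : ℝ) 1 from ⟨hy, hy1⟩),
          Set.indicator_of_notMem (show y ∉ Set.Ioi (1 : ℝ) from not_lt.2 hy1), add_zero]
        calc ENNReal.ofReal (1 / y ^ 2) * volume {x : ℝ | (x, y) ∈ CH_P c}
            ≤ ENNReal.ofReal (1 / y ^ 2) * ENNReal.ofReal (2 * c * y ^ 2) := by
              gcongr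
              exact h1.trans (ENNReal.ofReal_le_ofReal (min_le_right _ _))
          _ = ENNReal.ofReal (2 * c) := by
              rw [← ENNReal.ofReal_mul (by positivity)]
              congr 1
              field_simp
      · rw [Set.indicator_of_notMem (show y ∉ Set.Ioc (0 : ℝ) 1 from fun h => not_le.2 hy1 h.2),
          Set.indicator_of_mem (show y ∈ Set.Ioi (1 : ℝ) from hy1), zero_add]
        calc ENNReal.ofReal (1 / y ^ 2) * volume {x : ℝ | (x, y) ∈ CH_P c}
            ≤ ENNReal.ofReal (1 / y ^ 2) * ENNReal.ofReal (2 * c) := by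
              gcongr
              exact h1.trans (ENNReal.ofReal_le_ofReal (min_le_left _ _))
          _ = ENNReal.ofReal (2 * c * y ^ (-2 : ℝ)) := by
              rw [← ENNReal.ofReal_mul (by positivity)]
              congr 1
              rw [Real.rpow_neg hy.le, Real.rpow_two]
              ring
    · have e3 : {x : ℝ | (x, y) ∈ CH_P c} = ∅ := by
        ext x
        constructor
        · rintro ⟨h, -⟩
          exact absurd h hy
        · intro h
          exact absurd h (Set.notMem_empty x)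
      rw [e3, measure_empty, mul_zero]
      exact bot_le
  refine lt_of_le_of_lt (lintegral_mono hb) ?_
  rw [lintegral_add_left (measurable_const.indicator measurableSet_Ioc),
    lintegral_indicator measurableSet_Ioc, lintegral_indicator measurableSet_Ioi,
    setLIntegral_const, Real.volume_Ioc]
  refine ENNReal.add_lt_top.2 ⟨?_, ?_⟩
  · exact ENNReal.mul_lt_top ENNReal.ofReal_lt_top ENNReal.ofReal_lt_top
  · have hint : IntegrableOn (fun y : ℝ => 2 * c * y ^ (-2 : ℝ)) (Set.Ioi 1) :=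
      (integrableOn_Ioi_rpow_of_lt (by norm_num) one_pos).const_mul _
    have hfin := hint.hasFiniteIntegral
    rw [hasFiniteIntegral_iff_ofReal] at hfin
    · exact hfin
    · filter_upwards [self_mem_ae_restrict measurableSet_Ioi] with y hy
      have : (0 : ℝ) < y := lt_trans one_pos hy
      positivity

/-- **A discrete group which contains a rotation and a parabolic element is a lattice if the
translation length of the parabolic element is small enough.** -/
theorem lattice_of_rot_par (Γ : Subgroup SL(2, ℝ)) (hd : DiscreteTopology Γ) {θ t : ℝ}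
    (hθ : 0 < θ) (hθ' : θ < Real.pi) (ht : 0 < t)
    (htθ : t * Real.sin θ ≤ 2 * (1 + Real.cos θ)) (hR : rotM θ ∈ Γ) (hu : parM t ∈ Γ) :
    IsLatticeSubgroup Γ := by
  have hs : 0 < Real.sin θ := Real.sin_pos_of_pos_of_lt_pi hθ hθ'
  have hC : 0 < 1 + Real.cos θ := by
    by_contra h
    have h1 : 2 * (1 + Real.cos θ) ≤ 0 := by linarith
    have h2 : 0 < t * Real.sin θ := mul_pos ht hs
    linarith
  exact ⟨hd, CH_F ((1 + Real.cos θ) / Real.sin θ), CH_F_meas _, CH_vol (div_pos hC hs),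
    fun z => CH_cover Γ hd hθ hθ' ht htθ hR hu z⟩

end Pool.Agent.OBT
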