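import Mathlib
import Pool.Agent.OBT.ZLift
import Pool.Agent.OBT.ZArea

/-!
# Shears and cylinders
-/

open scoped ComplexConjugate Topology MatrixGroups UpperHalfPlane
open MeasureTheory Filter

namespace Pool.Agent.OBT

variable {v : Fin 3 → ℂ}

theorem ZAlign_im {A : SL(2, ℝ)} (t : ℝ) (hA : ∀ z : ℂ, act A z = z + t * z.im) (z1 z2 z : ℂ) :
    (z1 + act A (z - z2)).im = z.im + (z1.im - z2.im) := by
  rw [hA]
  simp only [Complex.add_im, Complex.sub_im, Complex.mul_im, Complex.ofReal_re, Complex.ofReal_im]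
  ring

theorem ZAlign_convex (a b c d : ℝ) :
    Convex ℝ {z : ℂ | (a ≤ z.im ∧ z.im ≤ b) ∧ (c < z.im ∧ z.im < d)} := by
  have h1 : {z : ℂ | (a ≤ z.im ∧ z.im ≤ b) ∧ (c < z.im ∧ z.im < d)} =
      Complex.imLm ⁻¹' (Set.Icc a b ∩ Set.Ioo c d) := by
    ext z
    simp [Set.mem_Icc, Set.mem_Ioo]
  rw [h1]
  exact ((convex_Icc a b).inter (convex_Ioo c d)).linear_preimage _

theorem align [Finite (G v)] {A : SL(2, ℝ)} {φ : Surf v ≃ₜ Surf v} (hφ : IsAffine A φ)
    {w h : ℝ} {C : ℂ → Surf v} (hC : Cyl v w h C) (t : ℝ)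
    (hA : ∀ z : ℂ, act A z = z + t * z.im) (z1 z2 : ℂ)
    (h1 : 0 < z1.im) (h1' : z1.im < h) (h2 : 0 < z2.im) (h2' : z2.im < h)
    (h12 : φ (C z2) = C z1) :
    ∃ x : ℝ, ∀ z : ℂ, 0 ≤ z.im → z.im ≤ h → φ (C z) = C (z + t * z.im + x) := by
  have him := ZAlign_im t hA z1 z2
  have hh := hC.h_pos
  -- the two heights agree
  have hkey : ∀ z : ℂ, 0 ≤ z.im → z.im ≤ h → 0 < z.im + (z1.im - z2.im) →
      z.im + (z1.im - z2.im) < h → φ (C z) = C (z1 + act A (z - z2)) := by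
    intro z a1 a2 a3 a4
    refine lift_affine hφ hC
      (ZAlign_convex 0 h (-(z1.im - z2.im)) (h - (z1.im - z2.im))) z1 z2
      ⟨⟨h2.le, h2'.le⟩, by linarith, by linarith⟩ (fun u hu => hu.1) (fun u hu => ?_) h12 z
      ⟨⟨a1, a2⟩, by linarith, by linarith⟩
    rw [him]
    have := hu.2
    constructor <;> linarith [this.1, this.2]
  have hs : z1.im - z2.im = 0 := by
    by_contra hne
    rcases lt_or_gt_of_ne hne with hlt | hgt
    · -- use the top
      obtain ⟨a, ha⟩ := hC.top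
      have e0 : ((a : ℂ) + h * Complex.I).im = h := by simp
      apply ha
      rw [← reg_map hφ, hkey _ (by rw [e0]; exact hh.le) (by rw [e0]) (by rw [e0]; linarith)
        (by rw [e0]; linarith)]
      apply hC.reg
      · rw [him, e0]; linarith
      · rw [him, e0]; linarith
    · obtain ⟨b, hb⟩ := hC.bot
      have e0 : (b : ℂ).im = 0 := Complex.ofReal_im b
      apply hb
      rw [← reg_map hφ, hkey _ (by rw [e0]) (by rw [e0]; exact hh.le) (by rw [e0]; linarith)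
        (by rw [e0]; linarith)]
      apply hC.reg
      · rw [him, e0]; linarith
      · rw [him, e0]; linarith
  -- the open strip
  set x : ℝ := (z1 - z2 - t * z2.im).re with hx
  have hxc : (x : ℂ) = z1 - z2 - t * z2.im := by
    apply Complex.ext
    · rw [Complex.ofReal_re]
    · rw [Complex.ofReal_im]
      simp only [Complex.sub_im, Complex.mul_im, Complex.ofReal_re, Complex.ofReal_im]
      linarith
  have hopen : ∀ z : ℂ, 0 < z.im → z.im < h → φ (C z) = C (z + t * z.im + x) := by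
    intro z a1 a2
    rw [hkey z a1.le a2.le (by linarith) (by linarith)]
    congr 1
    rw [hA, hxc]
    rw [Complex.sub_im]
    push_cast
    ring
  refine ⟨x, ?_⟩
  have hT2 : T2Space (Surf v) := t2_surf v
  have hcont : Continuous fun z : ℂ => z + t * (z.im : ℂ) + x := by
    refine (continuous_id.add (continuous_const.mul ?_)).add continuous_const
    exact Complex.continuous_ofReal.comp Complex.continuous_im
  have himg : ∀ z : ℂ, (z + t * (z.im : ℂ) + x).im = z.im := by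
    intro z
    simp
  have hcl : {z : ℂ | 0 ≤ z.im ∧ z.im ≤ h} ⊆ closure {z : ℂ | 0 < z.im ∧ z.im < h} := by
    have e1 : {z : ℂ | 0 < z.im ∧ z.im < h} = Complex.im ⁻¹' Set.Ioo 0 h := rfl
    rw [e1, Complex.closure_preimage_im, closure_Ioo hh.ne]
    intro z hz
    exact hz
  have hEq : Set.EqOn (fun z : ℂ => φ (C z)) (fun z : ℂ => C (z + t * (z.im : ℂ) + x))
      {z : ℂ | 0 ≤ z.im ∧ z.im ≤ h} := by
    refine Set.EqOn.of_subset_closure (s := {z : ℂ | 0 < z.im ∧ z.im < h})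
      (fun z hz => hopen z hz.1 hz.2) ?_ ?_ (fun z hz => ⟨hz.1.le, hz.2.le⟩) hcl
    · exact φ.continuous.comp_continuousOn hC.continuousOn
    · refine hC.continuousOn.comp hcont.continuousOn ?_
      intro z hz
      have e := himg z
      exact ⟨by rw [e]; exact hz.1, by rw [e]; exact hz.2⟩
  intro z a1 a2
  exact hEq ⟨a1, a2⟩

/-- iterates -/
noncomputable def ZAlign_it (φ : Surf v ≃ₜ Surf v) : ℕ → (Surf v ≃ₜ Surf v)
  | 0 => Homeomorph.refl _
  | m + 1 => (ZAlign_it φ m).trans φ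

theorem ZAlign_it_affine {A : SL(2, ℝ)} {φ : Surf v ≃ₜ Surf v} (hφ : IsAffine A φ) :
    ∀ m : ℕ, IsAffine (A ^ m) (ZAlign_it φ m)
  | 0 => by
    rw [pow_zero]
    exact isAffine_refl
  | m + 1 => by
    rw [pow_succ']
    exact isAffine_trans (ZAlign_it_affine hφ m) hφ

theorem ZAlign_it_add (φ : Surf v ≃ₜ Surf v) (m : ℕ) (ξ : Surf v) :
    ∀ k : ℕ, ZAlign_it φ (m + k) ξ = ZAlign_it φ k (ZAlign_it φ m ξ)
  | 0 => rfl
  | k + 1 => by
    have h1 : ZAlign_it φ (m + (k + 1)) ξ = φ (ZAlign_it φ (m + k) ξ) := rfl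
    have h2 : ZAlign_it φ (k + 1) (ZAlign_it φ m ξ) = φ (ZAlign_it φ k (ZAlign_it φ m ξ)) := rfl
    rw [h1, h2, ZAlign_it_add φ m ξ k]

theorem ZAlign_sub {φ : Surf v ≃ₜ Surf v} {i j : ℕ} (hij : i < j) {ξ ξ' : Surf v}
    (h : ZAlign_it φ i ξ = ZAlign_it φ j ξ') : ZAlign_it φ (j - i) ξ' = ξ := by
  have h1 : j = (j - i) + i := by omega
  rw [h1, ZAlign_it_add] at h
  exact ((ZAlign_it φ i).injective h).symm

theorem exists_return [Finite (G v)] {A : SL(2, ℝ)} {φ : Surf v ≃ₜ Surf v} (hφ : IsAffine A φ)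
    {w h : ℝ} {C : ℂ → Surf v} (hC : Cyl v w h C) :
    ∃ (k : ℕ) (ψ : Surf v ≃ₜ Surf v) (z1 z2 : ℂ), 0 < k ∧ IsAffine (A ^ k) ψ ∧
      0 < z1.im ∧ z1.im < h ∧ 0 < z2.im ∧ z2.im < h ∧ ψ (C z2) = C z1 := by
  have hwh : 0 < w * h := mul_pos hC.w_pos hC.h_pos
  obtain ⟨n, hn⟩ := exists_nat_gt (Nat.card (G v) * (volume (body v)).toReal / (w * h))
  rw [div_lt_iff₀ hwh] at hn
  by_contra hcon
  have hd : ∀ i ∈ Finset.range n, ∀ j ∈ Finset.range n, i ≠ j → ∀ z z' : ℂ, 0 < z.im →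
      z.im < h → 0 < z'.im → z'.im < h → ZAlign_it φ i (C z) ≠ ZAlign_it φ j (C z') := by
    intro i _ j _ hij z z' a1 a2 a3 a4 he
    apply hcon
    rcases lt_or_gt_of_ne hij with hlt | hgt
    · exact ⟨j - i, ZAlign_it φ (j - i), z, z', by omega, ZAlign_it_affine hφ _, a1, a2, a3, a4,
        ZAlign_sub hlt he⟩
    · exact ⟨i - j, ZAlign_it φ (i - j), z', z, by omega, ZAlign_it_affine hφ _, a3, a4, a1, a2,
        ZAlign_sub hgt he.symm⟩
  have h1 := card_mul_area_le hC (Finset.range n) (fun i => A ^ i) (fun i => ZAlign_it φ i)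
    (fun i _ => ZAlign_it_affine hφ i) hd
  rw [Finset.card_range] at h1
  linarith

end Pool.Agent.OBT
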