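import Mathlib
import Pool.Agent.OBT.ZReg

/-!
# Singular points on the boundary of a cylinder
-/

open scoped ComplexConjugate Topology MatrixGroups UpperHalfPlane
open MeasureTheory Filter

namespace Pool.Agent.OBT

variable {v : Fin 3 → ℂ}

theorem ZRat_im (a y0 : ℝ) : ((a : ℂ) + y0 * Complex.I).im = y0 := by
  simp

theorem ZRat_continuous [Finite (G v)] {w h : ℝ} {C : ℂ → Surf v} (hC : Cyl v w h C) (y0 : ℝ)
    (h0 : 0 ≤ y0) (h1 : y0 ≤ h) : Continuous (fun a : ℝ => C (a + y0 * Complex.I)) := by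
  refine hC.continuousOn.comp_continuous (by fun_prop) ?_
  intro a
  rw [Set.mem_ofPred_eq, ZRat_im]
  exact ⟨h0, h1⟩

theorem sing_positions_finite (hv : AffineIndependent ℝ v) [Finite (G v)] {w h : ℝ}
    {C : ℂ → Surf v} (hC : Cyl v w h C) (y0 : ℝ) (h0 : 0 ≤ y0) (h1 : y0 ≤ h) :
    {a : ℝ | 0 ≤ a ∧ a ≤ w ∧ ¬ Reg (C (a + y0 * Complex.I))}.Finite := by
  have := t2_surf v
  have hfin := finite_sing hv
  have hcont := ZRat_continuous hC y0 h0 h1
  set B : Set ℝ := {a : ℝ | 0 ≤ a ∧ a ≤ w ∧ ¬ Reg (C (a + y0 * Complex.I))} with hB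
  have hBc : IsCompact B := by
    have h2 : B = Set.Icc 0 w ∩ (fun a : ℝ => C (a + y0 * Complex.I)) ⁻¹'
        {ξ : Surf v | ¬ Reg ξ} := by
      ext a
      simp only [hB, Set.mem_ofPred_eq, Set.mem_inter_iff, Set.mem_Icc, Set.mem_preimage]
      tauto
    rw [h2]
    exact isCompact_Icc.inter_right (hfin.isClosed.preimage hcont)
  have hiso : ∀ b ∈ B, ∃ U ∈ 𝓝 b, ∀ b' ∈ U, b' ∈ B → b' = b := by
    intro b hb
    have h3 : ∀ᶠ b' : ℝ in 𝓝 b, C (b' + y0 * Complex.I) ∉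
        ({ξ : Surf v | ¬ Reg ξ} \ {C (b + y0 * Complex.I)} : Set (Surf v)) := by
      have h4 : (({ξ : Surf v | ¬ Reg ξ} \ {C (b + y0 * Complex.I)} : Set (Surf v)))ᶜ ∈
          𝓝 (C (b + y0 * Complex.I)) :=
        (hfin.sdiff.isClosed.isOpen_compl).mem_nhds (fun hcon => hcon.2 rfl)
      exact hcont.continuousAt h4
    have h5 := hC.li ((b : ℂ) + y0 * Complex.I) (by rw [ZRat_im]; exact h0)
      (by rw [ZRat_im]; exact h1)
    have h6 : Continuous (fun b' : ℝ => (b' : ℂ) + y0 * Complex.I) := by fun_prop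
    have h7 := h6.continuousAt.eventually h5
    refine ⟨_, h3.and h7, ?_⟩
    rintro b' ⟨h8, h9⟩ hb'
    have h10 : C (b' + y0 * Complex.I) = C (b + y0 * Complex.I) := by
      by_contra hne
      exact h8 ⟨hb'.2.2, hne⟩
    obtain ⟨g, x, y, e1, e2, e3⟩ := h9 (by rw [ZRat_im]; exact h0) (by rw [ZRat_im]; exact h1)
    have h11 : y = x := by
      rw [← proj_mk g y, ← proj_mk g x, e1, e2, h10]
    rw [h11, sub_self, map_zero] at e3
    have h12 : (b' : ℂ) = b := by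
      linear_combination -e3
    exact_mod_cast h12
  choose! U hU hUB using hiso
  obtain ⟨s, hs, hsB⟩ := hBc.elim_nhds_subcover U hU
  refine (s.finite_toSet).subset ?_
  intro b hb
  obtain ⟨c, hc, hbc⟩ := Set.mem_iUnion₂.1 (hsB hb)
  have := hUB c (hs c hc) b hbc hb
  rw [this]
  exact hc

theorem ZRat_shift (hv : AffineIndependent ℝ v) [Finite (G v)] {w h : ℝ} {C : ℂ → Surf v}
    (hC : Cyl v w h C) (y0 : ℝ) (h0 : 0 ≤ y0) (h1 : y0 ≤ h) (s : ℝ)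
    (hs : ∀ a : ℝ, ¬ Reg (C (a + y0 * Complex.I)) → ¬ Reg (C ((a + s : ℝ) + y0 * Complex.I)))
    (hne : ∃ a : ℝ, ¬ Reg (C (a + y0 * Complex.I))) :
    ∃ q : ℚ, s = q * w := by
  have hw := hC.w_pos
  obtain ⟨a0, ha0⟩ := hne
  have hk : ∀ k : ℕ, ¬ Reg (C ((a0 + k * s : ℝ) + y0 * Complex.I)) := by
    intro k
    induction k with
    | zero =>
      rw [Nat.cast_zero, zero_mul, add_zero]
      exact ha0
    | succ k ih =>
      have h2 := hs _ ih
      have h3 : a0 + k * s + s = a0 + ((k + 1 : ℕ) : ℝ) * s := by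
        push_cast
        ring
      rwa [h3] at h2
  set B : Set ℝ := {a : ℝ | 0 ≤ a ∧ a ≤ w ∧ ¬ Reg (C (a + y0 * Complex.I))} with hB
  have hfin : B.Finite := sing_positions_finite hv hC y0 h0 h1
  have hmem : ∀ k : ℕ, (a0 + k * s) - ⌊(a0 + k * s) / w⌋ * w ∈ B := by
    intro k
    have h4 := Int.floor_le ((a0 + k * s) / w)
    have h5 := (Int.lt_floor_add_one ((a0 + k * s) / w)).le
    rw [le_div_iff₀ hw] at h4
    rw [div_le_iff₀ hw] at h5
    refine ⟨by linarith, by linarith, ?_⟩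
    intro hcon
    apply hk k
    have h6 := hC.per_int ⌊(a0 + k * s) / w⌋
      (((a0 + k * s) - ⌊(a0 + k * s) / w⌋ * w : ℝ) + y0 * Complex.I)
      (by rw [ZRat_im]; exact h0) (by rw [ZRat_im]; exact h1)
    rw [← h6] at hcon
    have h7 : (((a0 + k * s) - ⌊(a0 + k * s) / w⌋ * w : ℝ) : ℂ) + y0 * Complex.I +
        (⌊(a0 + k * s) / w⌋ : ℤ) * w = ((a0 + k * s : ℝ) : ℂ) + y0 * Complex.I := by
      push_cast
      ring
    rwa [h7] at hcon
  have : Finite B := hfin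
  obtain ⟨k, l, hkl, he⟩ := Finite.exists_ne_map_eq_of_infinite
    (fun k : ℕ => (⟨_, hmem k⟩ : B))
  have he' : (a0 + k * s) - ⌊(a0 + k * s) / w⌋ * w = (a0 + l * s) - ⌊(a0 + l * s) / w⌋ * w :=
    congrArg Subtype.val he
  have hne : ((k : ℝ) - l) ≠ 0 := by
    rw [sub_ne_zero]
    exact_mod_cast hkl
  refine ⟨((⌊(a0 + k * s) / w⌋ - ⌊(a0 + l * s) / w⌋ : ℤ) : ℚ) / ((k : ℚ) - l), ?_⟩
  push_cast
  rw [div_mul_eq_mul_div, eq_div_iff hne]
  linarith

theorem rat_shift (hv : AffineIndependent ℝ v) [Finite (G v)] {A : SL(2, ℝ)}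
    {φ : Surf v ≃ₜ Surf v} (hφ : IsAffine A φ) {w h : ℝ} {C : ℂ → Surf v} (hC : Cyl v w h C)
    (t x : ℝ) (hx : ∀ z : ℂ, 0 ≤ z.im → z.im ≤ h → φ (C z) = C (z + t * z.im + x)) :
    ∃ q : ℚ, t * h = q * w := by
  have hh := hC.h_pos
  have key : ∀ y0 : ℝ, 0 ≤ y0 → y0 ≤ h → ∀ a : ℝ, ¬ Reg (C (a + y0 * Complex.I)) →
      ¬ Reg (C ((a + (t * y0 + x) : ℝ) + y0 * Complex.I)) := by
    intro y0 h0 h1 a ha hcon
    apply ha
    rw [← reg_map hφ, hx _ (by rw [ZRat_im]; exact h0) (by rw [ZRat_im]; exact h1), ZRat_im]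
    have : (a : ℂ) + y0 * Complex.I + t * y0 + x =
        ((a + (t * y0 + x) : ℝ) : ℂ) + y0 * Complex.I := by
      push_cast
      ring
    rw [this]
    exact hcon
  obtain ⟨b, hb⟩ := hC.bot
  have hb' : ¬ Reg (C ((b : ℂ) + (0 : ℝ) * Complex.I)) := by
    rw [Complex.ofReal_zero, zero_mul, add_zero]
    exact hb
  obtain ⟨q1, hq1⟩ := ZRat_shift hv hC 0 le_rfl hh.le (t * 0 + x) (key 0 le_rfl hh.le) ⟨b, hb'⟩
  obtain ⟨q2, hq2⟩ := ZRat_shift hv hC h hh.le le_rfl (t * h + x) (key h hh.le le_rfl) hC.top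
  refine ⟨q2 - q1, ?_⟩
  push_cast
  linarith

end Pool.Agent.OBT
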