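import Mathlib
import Pool.Agent.OBT.ZCross
import Pool.Agent.OBT.ZArea
import Pool.Agent.OBT.ZHyp

/-!
# A lattice surface has a parabolic element in the direction of every cylinder
-/

open scoped ComplexConjugate Topology MatrixGroups UpperHalfPlane
open MeasureTheory Filter

namespace Pool.Agent.OBT

variable {v : Fin 3 → ℂ}

theorem ZStab_act_neg (A : SL(2, ℝ)) (z : ℂ) : act A (-z) = -act A z := by
  apply Complex.ext
  · simp [act]; ring
  · simp [act]; ring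

theorem ZStab_act_inj (A : SL(2, ℝ)) {z z' : ℂ} (h : act A z = act A z') : z = z' := by
  rw [← act_inv_act A z, h, act_inv_act]

/-- two vectors of the orbit of `1` are equal up to sign exactly if the quotient of the group
elements preserves `±1` -/
theorem ZStab_sq_iff (γ₁ γ₂ : SL(2, ℝ)) :
    (act γ₁ 1) ^ 2 = (act γ₂ 1) ^ 2 ↔ (act (γ₁⁻¹ * γ₂) 1 = 1 ∨ act (γ₁⁻¹ * γ₂) 1 = -1) := by
  have hk : act γ₁ (act (γ₁⁻¹ * γ₂) 1) = act γ₂ 1 := by
    rw [← act_mul, mul_inv_cancel_left]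
  constructor
  · intro h
    rcases sq_eq_sq_iff_eq_or_eq_neg.1 h with h | h
    · left
      exact ZStab_act_inj γ₁ (by rw [hk, h])
    · right
      exact ZStab_act_inj γ₁ (by rw [hk, ZStab_act_neg, h, neg_neg])
  · rintro (h | h)
    · rw [← hk, h]
    · rw [← hk, h, ZStab_act_neg, neg_sq]

theorem ZStab_small {w h : ℝ} (hw : 0 < w) (hh : 0 < h) (z : ℍ) (γ₁ γ₂ : SL(2, ℝ))
    (h1 : w / h < (γ₁⁻¹ • z).im) (h2 : w / h < (γ₂⁻¹ • z).im) :
    w * |(act (γ₁⁻¹ * γ₂) 1).im| < h := by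
  have hq : ∀ γ : SL(2, ℝ), w / h < (γ⁻¹ • z).im → 0 ≤ qz z (act γ 1) ∧ qz z (act γ 1) < h / w := by
    intro γ hγ
    have e : qz z (act γ 1) = 1 / (γ⁻¹ • z).im := by
      rw [← qz_one, ← qz_smul γ (γ⁻¹ • z) 1, smul_inv_smul]
    have hpos : 0 < w / h := div_pos hw hh
    refine ⟨?_, ?_⟩
    · rw [e]
      exact one_div_nonneg.2 (hpos.le.trans hγ.le)
    · rw [e, show h / w = 1 / (w / h) by rw [one_div_div]]
      exact one_div_lt_one_div_of_lt hpos hγ
  have hk : act γ₁ (act (γ₁⁻¹ * γ₂) 1) = act γ₂ 1 := by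
    rw [← act_mul, mul_inv_cancel_left]
  have hwe := wedge_act γ₁ 1 (act (γ₁⁻¹ * γ₂) 1)
  rw [hk] at hwe
  have hle := wedge_le z (act γ₁ 1) (act γ₂ 1)
  rw [hwe] at hle
  obtain ⟨a1, b1⟩ := hq γ₁ h1
  obtain ⟨a2, b2⟩ := hq γ₂ h2
  have him : ((act (γ₁⁻¹ * γ₂) 1).im) ^ 2 < (h / w) ^ 2 := by
    have e1 : (1 : ℂ).re * (act (γ₁⁻¹ * γ₂) 1).im - (1 : ℂ).im * (act (γ₁⁻¹ * γ₂) 1).re
        = (act (γ₁⁻¹ * γ₂) 1).im := by simp
    rw [e1] at hle
    calc ((act (γ₁⁻¹ * γ₂) 1).im) ^ 2 ≤ qz z (act γ₁ 1) * qz z (act γ₂ 1) := hle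
      _ < (h / w) * (h / w) := mul_lt_mul'' b1 b2 a1 a2
      _ = (h / w) ^ 2 := by ring
  have habs : |(act (γ₁⁻¹ * γ₂) 1).im| < h / w := abs_lt_of_sq_lt_sq him (div_pos hh hw).le
  calc w * |(act (γ₁⁻¹ * γ₂) 1).im| < w * (h / w) := mul_lt_mul_of_pos_left habs hw
    _ = h := by field_simp

theorem infinite_stab [Finite (G v)] (hL : LatticeTriangle v) {w h : ℝ} {C : ℂ → Surf v}
    (hC : Cyl v w h C) :
    {γ : SL(2, ℝ) | γ ∈ veech v ∧ (act γ 1 = 1 ∨ act γ 1 = -1)}.Infinite := by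
  classical
  intro hfin
  have hw := hC.w_pos
  have hh := hC.h_pos
  have hwh : 0 < w * h := mul_pos hw hh
  have haff : ∀ γ : veech v, ∃ φ : Surf v ≃ₜ Surf v, IsAffine (γ : SL(2, ℝ)) φ :=
    fun γ => (mem_veech_iff _).1 γ.2
  choose Φ hΦ using haff
  have hcross : ∀ (z : ℍ) (γ₁ γ₂ : veech v), w / h < (((γ₁ : SL(2, ℝ))⁻¹ • z) : ℍ).im →
      w / h < (((γ₂ : SL(2, ℝ))⁻¹ • z) : ℍ).im → ∀ y y' : ℂ, 0 < y.im → y.im < h →
      0 < y'.im → y'.im < h → Φ γ₁ (C y) = Φ γ₂ (C y') →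
      (act (γ₁ : SL(2, ℝ)) 1) ^ 2 = (act (γ₂ : SL(2, ℝ)) 1) ^ 2 := by
    intro z γ₁ γ₂ h1 h2 y y' hy hy' hy1 hy1' heq
    rw [ZStab_sq_iff]
    have ha := isAffine_trans (hΦ γ₂) (isAffine_symm (hΦ γ₁))
    refine cyl_cross ha hC y y' hy hy' hy1 hy1' ?_ (ZStab_small hw hh z _ _ h1 h2)
    rw [Homeomorph.trans_apply, ← heq, Homeomorph.symm_apply_apply]
  set K : ℝ := Nat.card (G v) * (volume (body v)).toReal with hK
  set N : ℕ := ⌊K / (w * h)⌋₊ with hN
  set m : ℕ := hfin.toFinset.card with hm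
  have hB : MeasurableSet {z : ℍ | w / h < z.im} :=
    measurableSet_lt measurable_const UpperHalfPlane.continuous_im.measurable
  have hlt := lattice_multiplicity (veech v) hL {z : ℍ | w / h < z.im} hB (m * N) ?_
  · rw [volume_horoball] at hlt
    exact lt_irrefl _ hlt
  intro z s hs
  let f : veech v → ℂ := fun γ => (act (γ : SL(2, ℝ)) 1) ^ 2
  have hfib : ∀ a ∈ s.image f, (s.filter fun x => f x = a).card ≤ m := by
    intro a ha
    obtain ⟨x0, hx0, hx0a⟩ := Finset.mem_image.1 ha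
    refine Finset.card_le_card_of_injOn (fun x => (x0 : SL(2, ℝ))⁻¹ * (x : SL(2, ℝ))) ?_ ?_
    · intro x hx
      have hx' := (Finset.mem_filter.1 hx).2
      have h1 : f x0 = f x := by rw [hx0a, hx']
      have h2 := (ZStab_sq_iff (x0 : SL(2, ℝ)) (x : SL(2, ℝ))).1 h1
      refine Finset.mem_coe.2 (hfin.mem_toFinset.2 ?_)
      exact ⟨mul_mem (inv_mem x0.2) x.2, h2⟩
    · intro x _ x' _ hxx
      exact Subtype.ext (mul_left_cancel hxx)
  have hcard : s.card ≤ m * (s.image f).card := Finset.card_le_mul_card_image s m hfib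
  have hch : ∀ a : ℂ, ∃ γ : veech v, a ∈ s.image f → γ ∈ s ∧ f γ = a := by
    intro a
    by_cases ha : a ∈ s.image f
    · obtain ⟨x0, hx0, hx0a⟩ := Finset.mem_image.1 ha
      exact ⟨x0, fun _ => ⟨hx0, hx0a⟩⟩
    · exact ⟨1, fun h => absurd h ha⟩
  choose g hg using hch
  have harea := card_mul_area_le hC (s.image f) (fun a => (g a : SL(2, ℝ))) (fun a => Φ (g a))
    (fun a _ => hΦ (g a)) (by
      intro a ha b hb hab y y' hy hy' hy1 hy1' heq
      obtain ⟨ha1, ha2⟩ := hg a ha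
      obtain ⟨hb1, hb2⟩ := hg b hb
      have := hcross z (g a) (g b) (hs _ ha1) (hs _ hb1) y y' hy hy' hy1 hy1' heq
      exact hab (by rw [← ha2, ← hb2]; exact this))
  have hle : (s.image f).card ≤ N := by
    refine Nat.le_floor ?_
    rw [le_div_iff₀ hwh]
    exact harea
  exact hcard.trans (Nat.mul_le_mul_left m hle)

theorem exists_shear [Finite (G v)] (hL : LatticeTriangle v) {w h : ℝ} {C : ℂ → Surf v}
    (hC : Cyl v w h C) :
    ∃ (t : ℝ) (A : SL(2, ℝ)) (φ : Surf v ≃ₜ Surf v), t ≠ 0 ∧ IsAffine A φ ∧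
      ∀ z : ℂ, act A z = z + t * z.im := by
  have hinf := infinite_stab hL hC
  obtain ⟨γ, ⟨hγ, hγ1⟩, hne⟩ := hinf.exists_notMem_finite
    (Set.toFinite ({1, -1} : Set SL(2, ℝ)))
  obtain ⟨φ, hφ⟩ := (mem_veech_iff (γ * γ)).1 (mul_mem hγ hγ)
  have hdet := Act_det γ
  have hsq : γ 0 0 ^ 2 = 1 ∧ γ 1 0 = 0 := by
    rcases hγ1 with h1 | h1
    · have hre := congrArg Complex.re h1
      have him := congrArg Complex.im h1
      simp [act] at hre him
      exact ⟨by rw [hre]; norm_num, him⟩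
    · have hre := congrArg Complex.re h1
      have him := congrArg Complex.im h1
      simp [act] at hre him
      exact ⟨by rw [hre]; norm_num, him⟩
  obtain ⟨h00, h10⟩ := hsq
  rw [h10, mul_zero, sub_zero] at hdet
  have h11 : γ 1 1 = γ 0 0 := by
    have : γ 0 0 * (γ 1 1 - γ 0 0) = 0 := by rw [mul_sub, hdet, ← sq, h00, sub_self]
    rcases mul_eq_zero.1 this with h | h
    · rw [h] at h00; norm_num at h00
    · linarith
  have h01 : γ 0 1 ≠ 0 := by
    intro h01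
    apply hne
    have h2 : γ 0 0 = 1 ∨ γ 0 0 = -1 := by
      have h3 : (γ 0 0 - 1) * (γ 0 0 + 1) = 0 := by linear_combination h00
      rcases mul_eq_zero.1 h3 with h | h
      · left; linarith
      · right; linarith
    rcases h2 with h2 | h2
    · left
      ext i j
      fin_cases i <;> fin_cases j
      · simpa using h2
      · simpa using h01
      · simpa using h10
      · simpa [h11] using h2
    · right
      rw [Set.mem_singleton_iff]
      ext i j
      fin_cases i <;> fin_cases j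
      · simpa using h2
      · simpa using h01
      · simpa using h10
      · simpa [h11] using h2
  refine ⟨2 * γ 0 0 * γ 0 1, γ * γ, φ, ?_, hφ, ?_⟩
  · refine mul_ne_zero (mul_ne_zero two_ne_zero ?_) h01
    intro h; rw [h] at h00; norm_num at h00
  · intro z
    rw [act_mul]
    apply Complex.ext
    · simp [act, h10, h11]
      ring_nf
      rw [h00]
      ring
    · simp [act, h10, h11]
      rw [← mul_assoc, ← sq, h00, one_mul]

end Pool.Agent.OBT
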