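import Mathlib
import Pool.Agent.OBT.ZStab
import Pool.Agent.OBT.ZAlign
import Pool.Agent.OBT.ZRat

/-!
# Moduli of parallel cylinders of a lattice surface are commensurable
-/

open scoped ComplexConjugate Topology MatrixGroups UpperHalfPlane
open MeasureTheory Filter

namespace Pool.Agent.OBT

variable {v : Fin 3 → ℂ}

/-- Powers of a shear. -/
theorem ZMain_act_pow {A : SL(2, ℝ)} {t : ℝ} (hA : ∀ z : ℂ, act A z = z + t * z.im) (k : ℕ) :
    ∀ z : ℂ, act (A ^ k) z = z + ((k : ℝ) * t : ℝ) * z.im := by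
  induction k with
  | zero =>
    intro z
    rw [pow_zero, act_one]
    simp
  | succ n ih =>
    intro z
    have him : (z + (t : ℂ) * (z.im : ℂ)).im = z.im := by simp
    rw [pow_succ, act_mul, ih, hA, him]
    push_cast
    ring

/-- The height of a cylinder is commensurable with its circumference, in the unit given by a
shear. -/
theorem ZMain_rat (hv : AffineIndependent ℝ v) [Finite (G v)] {t : ℝ} (ht : t ≠ 0) {A : SL(2, ℝ)}
    {φ : Surf v ≃ₜ Surf v} (hφ : IsAffine A φ) (hA : ∀ z : ℂ, act A z = z + t * z.im)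
    {w h : ℝ} {C : ℂ → Surf v} (hC : Cyl v w h C) :
    ∃ q : ℚ, q ≠ 0 ∧ w / h = q * t := by
  obtain ⟨k, ψ, z1, z2, hk, hψ, h1, h1', h2, h2', h12⟩ := exists_return hφ hC
  obtain ⟨x, hx⟩ := align hψ hC ((k : ℝ) * t) (ZMain_act_pow hA k) z1 z2 h1 h1' h2 h2' h12
  obtain ⟨q, hq⟩ := rat_shift hv hψ hC ((k : ℝ) * t) x hx
  have hw := hC.w_pos
  have hh := hC.h_pos
  have hk' : (k : ℝ) ≠ 0 := by exact_mod_cast hk.ne'
  have hq0 : (q : ℝ) ≠ 0 := by
    intro h0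
    rw [h0, zero_mul] at hq
    have := mul_ne_zero (mul_ne_zero hk' ht) hh.ne'
    exact this hq
  have hq0' : q ≠ 0 := by exact_mod_cast hq0
  refine ⟨(k : ℚ) / q, div_ne_zero (by exact_mod_cast hk.ne') hq0', ?_⟩
  push_cast
  field_simp
  linarith

/-- **Theorem Z.** -/
theorem cyl_commensurable (hv : AffineIndependent ℝ v) [Finite (G v)] (hL : LatticeTriangle v)
    {w1 h1 w2 h2 : ℝ} {C1 C2 : ℂ → Surf v} (hC1 : Cyl v w1 h1 C1) (hC2 : Cyl v w2 h2 C2) :
    ∃ q : ℚ, w1 / h1 = q * (w2 / h2) := by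
  obtain ⟨t, A, φ, ht, hφ, hA⟩ := exists_shear hL hC1
  obtain ⟨q1, hq1, e1⟩ := ZMain_rat hv ht hφ hA hC1
  obtain ⟨q2, hq2, e2⟩ := ZMain_rat hv ht hφ hA hC2
  have hq2' : (q2 : ℝ) ≠ 0 := by exact_mod_cast hq2
  refine ⟨q1 / q2, ?_⟩
  rw [e1, e2]
  push_cast
  field_simp

end Pool.Agent.OBT
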