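import Mathlib
import Pool.Agent.OBT.ZMain

/-!
# Cylinders given by immersed strips
-/

open scoped ComplexConjugate Topology MatrixGroups UpperHalfPlane
open MeasureTheory Filter

namespace Pool.Agent.OBT

variable {v : Fin 3 → ℂ}

/-- The map `C`, defined on the closed strip `0 ≤ im z ≤ h`, is locally isometric, has the period `w`
and only regular values on the open strip, and has a singular point on each boundary component. -/
structure PreCyl (v : Fin 3 → ℂ) (w h : ℝ) (C : ℂ → Surf v) : Prop where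
  w_pos : 0 < w
  h_pos : 0 < h
  li : ∀ z : ℂ, 0 ≤ z.im → z.im ≤ h → ∀ᶠ z' in 𝓝 z, 0 ≤ z'.im → z'.im ≤ h →
    ∃ (g : G v) (x y : body v), Surf.mk g x = C z ∧ Surf.mk g y = C z' ∧
      (g : ℂ ≃ₗᵢ[ℝ] ℂ) ((y : ℂ) - x) = z' - z
  per : ∀ z : ℂ, 0 ≤ z.im → z.im ≤ h → C (z + w) = C z
  reg : ∀ z : ℂ, 0 < z.im → z.im < h → Reg (C z)
  bot : ∃ b : ℝ, ¬ Reg (C b)
  top : ∃ a : ℝ, ¬ Reg (C (a + h * Complex.I))

theorem ZPer_continuousOn [Finite (G v)] {w h : ℝ} {C : ℂ → Surf v} (hC : PreCyl v w h C) :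
    ContinuousOn C {z | 0 ≤ z.im ∧ z.im ≤ h} := by
  intro z hz
  rw [ContinuousWithinAt, Filter.tendsto_def]
  intro N hN
  have h1 : ∀ᶠ y in 𝓝 (proj (C z)), ∀ g : G v, Surf.mk g (proj (C z)) = C z →
      Surf.mk g y ∈ N := by
    rw [Filter.eventually_all]
    intro g
    by_cases hg : Surf.mk g (proj (C z)) = C z
    · have h2 := (continuous_mk g).tendsto (proj (C z))
      rw [hg] at h2
      filter_upwards [h2 hN] with y hy _
      exact hy
    · exact Filter.Eventually.of_forall fun y hy => absurd hy hg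
  obtain ⟨ε, hε, h2⟩ := Metric.eventually_nhds_iff.1 h1
  filter_upwards [mem_nhdsWithin_of_mem_nhds (hC.li z hz.1 hz.2), self_mem_nhdsWithin,
    mem_nhdsWithin_of_mem_nhds (Metric.ball_mem_nhds z hε)] with z' k1 k2 k3
  obtain ⟨g, x, y, m1, m2, m3⟩ := k1 k2.1 k2.2
  have hx : proj (C z) = x := by rw [← m1, proj_mk]
  change C z' ∈ N
  rw [← m2]
  refine h2 ?_ g (by rw [hx]; exact m1)
  rw [hx, Subtype.dist_eq, dist_eq_norm, ← LinearIsometryEquiv.norm_map (g : ℂ ≃ₗᵢ[ℝ] ℂ), m3,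
    ← dist_eq_norm]
  exact k3

/-- the domain of the translation by `δ` -/
def ZPer_dom (h : ℝ) (δ : ℂ) : Set ℂ :=
  {z | (0 ≤ z.im ∧ z.im ≤ h) ∧ (0 < (z + δ).im ∧ (z + δ).im < h)}

theorem ZPer_convex (h : ℝ) (δ : ℂ) : Convex ℝ (ZPer_dom h δ) := by
  have e : ZPer_dom h δ = ({z : ℂ | 0 ≤ z.im} ∩ {z : ℂ | z.im ≤ h}) ∩
      ({z : ℂ | -δ.im < z.im} ∩ {z : ℂ | z.im < h - δ.im}) := by
    ext z
    simp only [ZPer_dom, Set.mem_ofPred_eq, Set.mem_inter_iff, Complex.add_im]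
    constructor
    · rintro ⟨h1, h2, h3⟩
      exact ⟨h1, by linarith, by linarith⟩
    · rintro ⟨h1, h2, h3⟩
      exact ⟨h1, by linarith, by linarith⟩
  rw [e]
  exact ((convex_halfSpace_im_ge 0).inter (convex_halfSpace_im_le h)).inter
    ((convex_halfSpace_im_gt _).inter (convex_halfSpace_im_lt _))

theorem ZPer_local [Finite (G v)] {w h : ℝ} {C : ℂ → Surf v} (hC : PreCyl v w h C) (δ : ℂ)
    {z0 : ℂ} (hz0 : z0 ∈ ZPer_dom h δ) (h0 : C z0 = C (z0 + δ)) :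
    ∀ᶠ z in 𝓝[ZPer_dom h δ] z0, C z = C (z + δ) := by
  have hCc := ZPer_continuousOn hC
  have hC0 : Tendsto C (𝓝[ZPer_dom h δ] z0) (𝓝 (C z0)) :=
    (hCc z0 hz0.1).mono_left (nhdsWithin_mono _ fun z hz => hz.1)
  have hf0 : Tendsto (fun z : ℂ => z + δ) (𝓝[ZPer_dom h δ] z0) (𝓝 (z0 + δ)) :=
    ((continuous_id.add continuous_const).tendsto z0).mono_left nhdsWithin_le_nhds
  have hst : (z0 + δ) ∈ {z : ℂ | 0 ≤ z.im ∧ z.im ≤ h} := ⟨hz0.2.1.le, hz0.2.2.le⟩
  have hCf : Tendsto (fun z : ℂ => C (z + δ)) (𝓝[ZPer_dom h δ] z0) (𝓝 (C (z0 + δ))) := by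
    refine (hCc _ hst).tendsto.comp ?_
    refine tendsto_nhdsWithin_iff.mpr ⟨hf0, ?_⟩
    filter_upwards [self_mem_nhdsWithin] with z hz
    exact ⟨hz.2.1.le, hz.2.2.le⟩
  obtain ⟨U, hU, hinj⟩ := hC.reg _ hz0.2.1 hz0.2.2
  have e1 : ∀ᶠ z in 𝓝[ZPer_dom h δ] z0, C (z + δ) ∈ U := hCf hU
  have e2 : ∀ᶠ z in 𝓝[ZPer_dom h δ] z0, C z ∈ U := by
    rw [h0] at hC0
    exact hC0 hU
  have e3 := (hC.li z0 hz0.1.1 hz0.1.2).filter_mono (nhdsWithin_le_nhds (s := ZPer_dom h δ))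
  have e4 := hf0.eventually (hC.li _ hz0.2.1.le hz0.2.2.le)
  filter_upwards [e1, e2, e3, e4, self_mem_nhdsWithin] with z h1 h2 h3 h4 hz
  obtain ⟨g, x, y, a1, a2, a3⟩ := h3 hz.1.1 hz.1.2
  obtain ⟨g', x', y', b1, b2, b3⟩ := h4 hz.2.1.le hz.2.2.le
  refine hinj _ h2 _ h1 g g' x y x' y' (a1.trans h0) a2 b1 b2 ?_
  rw [a3, b3]
  ring

/-- continuation of a coincidence -/
theorem ZPer_lift [Finite (G v)] {w h : ℝ} {C : ℂ → Surf v} (hC : PreCyl v w h C) (δ : ℂ)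
    {z0 : ℂ} (hz0 : z0 ∈ ZPer_dom h δ) (h0 : C z0 = C (z0 + δ)) :
    ∀ z ∈ ZPer_dom h δ, C z = C (z + δ) := by
  intro z hz
  have hT2 := t2_surf v
  have hCc := ZPer_continuousOn hC
  obtain ⟨γ, hγ⟩ : ∃ γ : ℝ → ℂ, γ = fun s : ℝ => z0 + s • (z - z0) := ⟨_, rfl⟩
  have hγc : Continuous γ := by
    rw [hγ]
    exact continuous_const.add (continuous_id.smul continuous_const)
  have hγK : ∀ s ∈ Set.Icc (0 : ℝ) 1, γ s ∈ ZPer_dom h δ := by
    intro s hs
    rw [hγ]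
    exact (ZPer_convex h δ).add_smul_sub_mem hz0 hz hs
  have hcl : IsClosed ({s : ℝ | C (γ s) = C (γ s + δ)} ∩ Set.Icc 0 1) := by
    have c1 : ContinuousOn (fun s => C (γ s)) (Set.Icc 0 1) :=
      hCc.comp hγc.continuousOn (fun s hs => (hγK s hs).1)
    have c2 : ContinuousOn (fun s => C (γ s + δ)) (Set.Icc 0 1) := by
      refine hCc.comp (hγc.add continuous_const).continuousOn (fun s hs => ?_)
      exact ⟨(hγK s hs).2.1.le, (hγK s hs).2.2.le⟩
    have h3 := (c1.prodMk c2).preimage_isClosed_of_isClosed isClosed_Icc isClosed_diagonal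
    rw [Set.inter_comm]
    exact h3
  have hsub : Set.Icc (0 : ℝ) 1 ⊆ {s : ℝ | C (γ s) = C (γ s + δ)} := by
    refine hcl.Icc_subset_of_forall_mem_nhdsWithin ?_ ?_
    · have h4 : γ 0 = z0 := by rw [hγ]; simp
      change C (γ 0) = C (γ 0 + δ)
      rw [h4, h0]
    · rintro s ⟨hs1, hs2⟩
      have hsI : s ∈ Set.Icc (0 : ℝ) 1 := ⟨hs2.1, hs2.2.le⟩
      have h5 := ZPer_local hC δ (hγK s hsI) hs1
      have h6 : Tendsto γ (𝓝[>] s) (𝓝[ZPer_dom h δ] (γ s)) := by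
        refine tendsto_nhdsWithin_iff.mpr ⟨(hγc.tendsto s).mono_left nhdsWithin_le_nhds, ?_⟩
        have h7 : Set.Ioo s 1 ∈ 𝓝[>] s := Ioo_mem_nhdsGT hs2.2
        filter_upwards [h7] with u hu
        exact hγK u ⟨hs2.1.trans hu.1.le, hu.2.le⟩
      exact h6.eventually h5
  have h8 := hsub (Set.right_mem_Icc.mpr zero_le_one)
  have h9 : γ 1 = z := by rw [hγ]; simp
  change C (γ 1) = C (γ 1 + δ) at h8
  rwa [h9] at h8

/-- a coincidence in the open strip is a horizontal translation -/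
theorem ZPer_im [Finite (G v)] {w h : ℝ} {C : ℂ → Surf v} (hC : PreCyl v w h C) (z δ : ℂ)
    (h1 : 0 < z.im) (h2 : z.im < h) (h3 : 0 < (z + δ).im) (h4 : (z + δ).im < h)
    (h0 : C z = C (z + δ)) : δ.im = 0 := by
  have key := ZPer_lift hC δ (z0 := z) ⟨⟨h1.le, h2.le⟩, h3, h4⟩ h0
  rw [Complex.add_im] at h3 h4
  rcases lt_trichotomy δ.im 0 with hn | hn | hn
  · obtain ⟨a, ha⟩ := hC.top
    exfalso
    apply ha
    have him : ((a : ℂ) + h * Complex.I).im = h := by simp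
    have hi : 0 < (((a : ℂ) + h * Complex.I) + δ).im ∧
        (((a : ℂ) + h * Complex.I) + δ).im < h := by
      rw [Complex.add_im, him]
      constructor <;> linarith
    rw [key _ ⟨⟨by rw [him]; exact hC.h_pos.le, by rw [him]⟩, hi⟩]
    exact hC.reg _ hi.1 hi.2
  · exact hn
  · obtain ⟨b, hb⟩ := hC.bot
    exfalso
    apply hb
    have hi : 0 < ((b : ℂ) + δ).im ∧ ((b : ℂ) + δ).im < h := by
      rw [Complex.add_im, Complex.ofReal_im]
      constructor <;> linarith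
    rw [key _ ⟨⟨by rw [Complex.ofReal_im], by rw [Complex.ofReal_im]; exact hC.h_pos.le⟩, hi⟩]
    exact hC.reg _ hi.1 hi.2

theorem ZPer_add_im (z : ℂ) (d : ℝ) : (z + d).im = z.im := by
  rw [Complex.add_im, Complex.ofReal_im, add_zero]

/-- the periods -/
def ZPer_group (h : ℝ) (C : ℂ → Surf v) : AddSubgroup ℝ where
  carrier := {d | ∀ z : ℂ, 0 < z.im → z.im < h → C (z + d) = C z}
  zero_mem' := by
    intro z _ _
    rw [Complex.ofReal_zero, add_zero]
  add_mem' := by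
    intro a b ha hb z h1 h2
    have h3 : z + ((a + b : ℝ) : ℂ) = (z + b) + a := by
      push_cast
      ring
    rw [h3, ha _ (by rw [ZPer_add_im]; exact h1) (by rw [ZPer_add_im]; exact h2), hb z h1 h2]
  neg_mem' := by
    intro a ha z h1 h2
    have h3 := ha (z + ((-a : ℝ) : ℂ)) (by rw [ZPer_add_im]; exact h1)
      (by rw [ZPer_add_im]; exact h2)
    have h4 : z + ((-a : ℝ) : ℂ) + a = z := by
      push_cast
      ring
    rw [h4] at h3
    exact h3.symm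

theorem ZPer_isolated {w h : ℝ} {C : ℂ → Surf v} (hC : PreCyl v w h C) :
    ∃ a : ℝ, 0 < a ∧ Disjoint ((ZPer_group h C : AddSubgroup ℝ) : Set ℝ) (Set.Ioo 0 a) := by
  have hh := hC.h_pos
  set z0 : ℂ := ((h / 2 : ℝ) : ℂ) * Complex.I with hz0
  have him : z0.im = h / 2 := by simp [hz0]
  have h1 := hC.li z0 (by rw [him]; linarith) (by rw [him]; linarith)
  obtain ⟨ε, hε, h2⟩ := Metric.eventually_nhds_iff.1 h1
  refine ⟨ε, hε, ?_⟩
  rw [Set.disjoint_left]
  intro d hd hd'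
  have h3 : dist (z0 + d) z0 < ε := by
    rw [dist_eq_norm, add_sub_cancel_left, Complex.norm_real, Real.norm_of_nonneg hd'.1.le]
    exact hd'.2
  obtain ⟨g, x, y, e1, e2, e3⟩ := h2 h3 (by rw [ZPer_add_im, him]; linarith)
    (by rw [ZPer_add_im, him]; linarith)
  have h4 : C (z0 + d) = C z0 := hd z0 (by rw [him]; linarith) (by rw [him]; linarith)
  have h5 : y = x := by
    rw [← proj_mk g y, ← proj_mk g x, e1, e2, h4]
  rw [h5, sub_self, map_zero, add_sub_cancel_left] at e3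
  have h6 : d = 0 := by exact_mod_cast e3.symm
  exact hd'.1.ne' h6

/-- an immersed strip is a cylinder, for a primitive period -/
theorem PreCyl.exists_cyl [Finite (G v)] {w h : ℝ} {C : ℂ → Surf v} (hC : PreCyl v w h C) :
    ∃ n : ℕ, 0 < n ∧ Cyl v (w / n) h C := by
  have hw := hC.w_pos
  have hh := hC.h_pos
  obtain ⟨a, ha, hdis⟩ := ZPer_isolated hC
  obtain ⟨b, hb⟩ := AddSubgroup.cyclic_of_isolated_zero ha hdis
  rw [← AddSubgroup.zmultiples_eq_closure] at hb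
  have hwm : w ∈ ZPer_group h C := fun z h1 h2 => hC.per z h1.le h2.le
  rw [hb, AddSubgroup.mem_zmultiples_iff] at hwm
  obtain ⟨n, hn⟩ := hwm
  rw [zsmul_eq_mul] at hn
  have hn0 : n ≠ 0 := by
    rintro rfl
    rw [Int.cast_zero, zero_mul] at hn
    exact hw.ne hn
  have hnn : 0 < n.natAbs := Int.natAbs_pos.2 hn0
  have hcast : (n.natAbs : ℝ) = |(n : ℝ)| := by
    rw [Nat.cast_natAbs, Int.cast_abs]
  have hpos : (0 : ℝ) < n.natAbs := by exact_mod_cast hnn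
  have hbw : |b| = w / n.natAbs := by
    rw [eq_div_iff hpos.ne', hcast, ← abs_mul, mul_comm b, hn, abs_of_pos hw]
  have hbm : w / n.natAbs ∈ ZPer_group h C := by
    rw [← hbw, hb]
    rcases abs_cases b with ⟨h1, -⟩ | ⟨h1, -⟩
    · rw [h1]
      exact AddSubgroup.mem_zmultiples b
    · rw [h1]
      exact (AddSubgroup.zmultiples b).neg_mem (AddSubgroup.mem_zmultiples b)
  have hmul : ∀ d ∈ ZPer_group h C, ∃ k : ℤ, d = k * (w / n.natAbs) := by
    intro d hd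
    rw [hb, AddSubgroup.mem_zmultiples_iff] at hd
    obtain ⟨k, hk⟩ := hd
    rw [zsmul_eq_mul] at hk
    rw [← hbw]
    rcases abs_cases b with ⟨h1, -⟩ | ⟨h1, -⟩
    · exact ⟨k, by rw [h1, hk]⟩
    · refine ⟨-k, ?_⟩
      rw [h1, ← hk]
      push_cast
      ring
  refine ⟨n.natAbs, hnn, ⟨div_pos hw hpos, hh, hC.li, ?_, ?_, hC.reg, hC.bot, hC.top⟩⟩
  · have hT2 := t2_surf v
    have hCc := ZPer_continuousOn hC
    have h1 : Set.EqOn (fun z => C (z + ((w / n.natAbs : ℝ) : ℂ))) C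
        (Complex.im ⁻¹' Set.Ioo 0 h) := fun z hz => hbm z hz.1 hz.2
    have h2 : Set.EqOn (fun z => C (z + ((w / n.natAbs : ℝ) : ℂ))) C
        {z : ℂ | 0 ≤ z.im ∧ z.im ≤ h} := by
      refine h1.of_subset_closure ?_ hCc ?_ ?_
      · refine hCc.comp (continuous_id.add continuous_const).continuousOn ?_
        intro z hz
        change 0 ≤ (z + ((w / n.natAbs : ℝ) : ℂ)).im ∧ (z + ((w / n.natAbs : ℝ) : ℂ)).im ≤ h
        rw [ZPer_add_im]
        exact hz
      · intro z hz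
        exact ⟨hz.1.le, hz.2.le⟩
      · rw [Complex.closure_preimage_im, closure_Ioo hh.ne]
        intro z hz
        exact hz
    intro z h3 h4
    exact h2 ⟨h3, h4⟩
  · intro z z' h1 h2 h3 h4 he
    have e : z' = z + (z' - z) := by ring
    have him : (z' - z).im = 0 := by
      refine ZPer_im hC z (z' - z) h1 h2 ?_ ?_ ?_
      · rw [← e]
        exact h3
      · rw [← e]
        exact h4
      · rw [← e]
        exact he
    have hre : (((z' - z).re : ℝ) : ℂ) = z' - z := by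
      apply Complex.ext
      · rw [Complex.ofReal_re]
      · rw [Complex.ofReal_im, him]
    have hd : (z' - z).re ∈ ZPer_group h C := by
      intro u hu1 hu2
      rw [hre]
      have hK : ∀ u : ℂ, 0 < u.im → u.im < h → u ∈ ZPer_dom h (z' - z) := by
        intro u hu1 hu2
        refine ⟨⟨hu1.le, hu2.le⟩, ?_⟩
        rw [Complex.add_im, him, add_zero]
        exact ⟨hu1, hu2⟩
      refine (ZPer_lift hC (z' - z) (hK z h1 h2) ?_ u (hK u hu1 hu2)).symm
      rw [← e]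
      exact he
    obtain ⟨k, hk⟩ := hmul _ hd
    refine ⟨k, ?_⟩
    rw [e, ← hre, hk]
    push_cast
    ring

/-- **Theorem Z** for immersed strips. -/
theorem preCyl_commensurable (hv : AffineIndependent ℝ v) [Finite (G v)] (hL : LatticeTriangle v)
    {w1 h1 w2 h2 : ℝ} {C1 C2 : ℂ → Surf v} (hC1 : PreCyl v w1 h1 C1) (hC2 : PreCyl v w2 h2 C2) :
    ∃ q : ℚ, w1 / h1 = q * (w2 / h2) := by
  obtain ⟨n1, hn1, c1⟩ := hC1.exists_cyl
  obtain ⟨n2, hn2, c2⟩ := hC2.exists_cyl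
  obtain ⟨q, hq⟩ := cyl_commensurable hv hL c1 c2
  have h1' := hC1.h_pos
  have h2' := hC2.h_pos
  have e1 : (0 : ℝ) < n1 := by exact_mod_cast hn1
  have e2 : (0 : ℝ) < n2 := by exact_mod_cast hn2
  refine ⟨q * n1 / n2, ?_⟩
  push_cast
  have h3 : w1 / h1 = n1 * (w1 / n1 / h1) := by
    field_simp
  rw [h3, hq]
  field_simp

end Pool.Agent.OBT
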