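import Mathlib
import Pool.Agent.OBT.ZPer
import Pool.Agent.OBT.Sim

/-!
# Theorem Z for an arbitrary direction
-/

open scoped ComplexConjugate Topology MatrixGroups UpperHalfPlane
open MeasureTheory Filter

namespace Pool.Agent.OBT

variable {v : Fin 3 → ℂ}

/-- Immersed strips in the direction `e`. -/
structure PreCylE (v : Fin 3 → ℂ) (e : ℂ) (w h : ℝ) (C : ℂ → Surf v) : Prop where
  norm_e : ‖e‖ = 1
  w_pos : 0 < w
  h_pos : 0 < h
  li : ∀ z : ℂ, 0 ≤ z.im → z.im ≤ h → ∀ᶠ z' in 𝓝 z, 0 ≤ z'.im → z'.im ≤ h →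
    ∃ (g : G v) (x y : body v), Surf.mk g x = C z ∧ Surf.mk g y = C z' ∧
      (g : ℂ ≃ₗᵢ[ℝ] ℂ) ((y : ℂ) - x) = e * (z' - z)
  per : ∀ z : ℂ, 0 ≤ z.im → z.im ≤ h → C (z + w) = C z
  reg : ∀ z : ℂ, 0 < z.im → z.im < h → Reg (C z)
  bot : ∃ b : ℝ, ¬ Reg (C b)
  top : ∃ a : ℝ, ¬ Reg (C (a + h * Complex.I))

/-! ### Transfer by similarities -/

section

variable {v' : Fin 3 → ℂ} (S : Sim_data v v')

theorem ZDir_homeo_mk (g : G v) (x : body v) :
    Sim_homeo S (Surf.mk g x) = Surf.mk (Sim_conj S g) (Sim_map S x) := rfl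

theorem ZDir_symm_mk (g : G v') (x : body v') :
    (Sim_homeo S).symm (Surf.mk g x) = Surf.mk (Sim_conj S.symm g) (Sim_map S.symm x) := rfl

theorem ZDir_disp (g : G v) (x y : body v) :
    ((Sim_conj S g : G v') : ℂ ≃ₗᵢ[ℝ] ℂ) ((Sim_map S y : ℂ) - Sim_map S x) =
      S.c • S.U ((g : ℂ ≃ₗᵢ[ℝ] ℂ) ((y : ℂ) - x)) := by
  have e1 : (Sim_map S y : ℂ) - Sim_map S x = S.c • S.U ((y : ℂ) - x) := by
    show (S.c • S.U (y : ℂ) + S.d) - (S.c • S.U (x : ℂ) + S.d) = _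
    rw [map_sub, smul_sub]
    abel
  rw [e1]
  show S.U ((g : ℂ ≃ₗᵢ[ℝ] ℂ) (S.U⁻¹ (S.c • S.U ((y : ℂ) - x)))) = _
  have h2 : ∀ z : ℂ, S.U⁻¹ (S.U z) = z := fun z => S.U.symm_apply_apply z
  rw [map_smul, h2, map_smul, map_smul]

theorem ZDir_reg {ξ : Surf v} (h : Reg ξ) : Reg (Sim_homeo S ξ) := by
  obtain ⟨U, hU, hreg⟩ := h
  refine ⟨(Sim_homeo S).symm ⁻¹' U, ?_, ?_⟩
  · apply (Sim_homeo S).symm.continuous.continuousAt.preimage_mem_nhds
    rwa [Homeomorph.symm_apply_apply]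
  · intro η hη η' hη' g g' x y x' y' k1 k2 k3 k4 k5
    have e1 : ∀ (g : G v') (x : body v') (θ : Surf v'), Surf.mk g x = θ →
        Surf.mk (Sim_conj S.symm g) (Sim_map S.symm x) = (Sim_homeo S).symm θ := by
      intro g x θ h
      rw [← h]
      rfl
    have f1 := e1 _ _ _ k1
    have f3 := e1 _ _ _ k3
    rw [Homeomorph.symm_apply_apply] at f1 f3
    have f5 := hreg _ hη _ hη' _ _ _ _ _ _ f1 (e1 _ _ _ k2) f3 (e1 _ _ _ k4)
      (by rw [ZDir_disp, ZDir_disp, k5])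
    exact (Sim_homeo S).symm.injective f5

theorem ZDir_reg_iff {ξ : Surf v} : Reg (Sim_homeo S ξ) ↔ Reg ξ := by
  refine ⟨fun h => ?_, ZDir_reg S⟩
  have h1 := ZDir_reg S.symm h
  have h2 : Sim_homeo S.symm (Sim_homeo S ξ) = ξ := (Sim_homeo S).symm_apply_apply ξ
  rwa [h2] at h1

include S in
theorem ZDir_finite [Finite (G v)] : Finite (G v') :=
  Finite.of_surjective (Sim_conj S) fun g => ⟨_, Sim_conj_symm' S g⟩

theorem ZDir_precyl {e : ℂ} {w h : ℝ} {C : ℂ → Surf v} (hC : PreCylE v e w h C)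
    (hS : ∀ z : ℂ, S.c • S.U (e * z) = z) : PreCyl v' w h (fun z => Sim_homeo S (C z)) where
  w_pos := hC.w_pos
  h_pos := hC.h_pos
  li := by
    intro z h1 h2
    filter_upwards [hC.li z h1 h2] with z' hz' h3 h4
    obtain ⟨g, x, y, k1, k2, k3⟩ := hz' h3 h4
    refine ⟨Sim_conj S g, Sim_map S x, Sim_map S y, ?_, ?_, ?_⟩
    · rw [← ZDir_homeo_mk, k1]
    · rw [← ZDir_homeo_mk, k2]
    · rw [ZDir_disp, k3, hS]
  per := by
    intro z h1 h2
    show Sim_homeo S (C (z + w)) = Sim_homeo S (C z)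
    rw [hC.per z h1 h2]
  reg := fun z h1 h2 => ZDir_reg S (hC.reg z h1 h2)
  bot := by
    obtain ⟨b, hb⟩ := hC.bot
    exact ⟨b, fun h => hb ((ZDir_reg_iff S).1 h)⟩
  top := by
    obtain ⟨a, ha⟩ := hC.top
    exact ⟨a, fun h => ha ((ZDir_reg_iff S).1 h)⟩

end

/-- the strip turned by the angle `π` -/
theorem ZDir_flip {e : ℂ} {w h : ℝ} {C : ℂ → Surf v} (hC : PreCylE v e w h C) :
    PreCylE v (-e) w h (fun z => C (-z + h * Complex.I)) where
  norm_e := by rw [norm_neg, hC.norm_e]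
  w_pos := hC.w_pos
  h_pos := hC.h_pos
  li := by
    intro z h1 h2
    have ht : Tendsto (fun z : ℂ => -z + h * Complex.I) (𝓝 z) (𝓝 (-z + h * Complex.I)) :=
      Continuous.tendsto (by fun_prop) z
    have him : ∀ z : ℂ, (-z + h * Complex.I).im = h - z.im := by
      intro z
      simp
      ring
    have h3 := hC.li (-z + h * Complex.I) (by rw [him]; linarith) (by rw [him]; linarith)
    filter_upwards [ht.eventually h3] with z' hz' h4 h5
    obtain ⟨g, x, y, k1, k2, k3⟩ := hz' (by rw [him]; linarith) (by rw [him]; linarith)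
    exact ⟨g, x, y, k1, k2, by rw [k3]; ring⟩
  per := by
    intro z h1 h2
    have him : (-(z + w) + h * Complex.I).im = h - z.im := by
      simp
      ring
    have h3 := hC.per (-(z + w) + h * Complex.I) (by rw [him]; linarith) (by rw [him]; linarith)
    show C (-(z + w) + h * Complex.I) = C (-z + h * Complex.I)
    rw [← h3]
    congr 1
    ring
  reg := by
    intro z h1 h2
    have him : (-z + h * Complex.I).im = h - z.im := by
      simp
      ring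
    exact hC.reg _ (by rw [him]; linarith) (by rw [him]; linarith)
  bot := by
    obtain ⟨a, ha⟩ := hC.top
    refine ⟨-a, ?_⟩
    have h1 : -((-a : ℝ) : ℂ) + h * Complex.I = a + h * Complex.I := by
      push_cast
      ring
    show ¬ Reg (C (-((-a : ℝ) : ℂ) + h * Complex.I))
    rwa [h1]
  top := by
    obtain ⟨b, hb⟩ := hC.bot
    refine ⟨-b, ?_⟩
    have h1 : -(((-b : ℝ) : ℂ) + h * Complex.I) + h * Complex.I = b := by
      push_cast
      ring
    show ¬ Reg (C (-(((-b : ℝ) : ℂ) + h * Complex.I) + h * Complex.I))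
    rwa [h1]

theorem ZDir_same (hv : AffineIndependent ℝ v) [Finite (G v)]
    (hL : LatticeTriangle v) {e : ℂ} {w1 h1 w2 h2 : ℝ}
    {C1 C2 : ℂ → Surf v} (hC1 : PreCylE v e w1 h1 C1) (hC2 : PreCylE v e w2 h2 C2) :
    ∃ q : ℚ, w1 / h1 = q * (w2 / h2) := by
  have he0 : e ≠ 0 := by
    intro h0
    have := hC1.norm_e
    rw [h0, norm_zero] at this
    exact zero_ne_one this
  obtain ⟨U, hU⟩ : ∃ U : ℂ ≃ₗᵢ[ℝ] ℂ, ∀ z, U z = e⁻¹ * z := by
    refine ⟨rotation (Circle.exp (e⁻¹).arg), fun z => ?_⟩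
    have h1 := Complex.norm_mul_exp_arg_mul_I e⁻¹
    rw [norm_inv, hC1.norm_e, inv_one, Complex.ofReal_one, one_mul] at h1
    rw [rotation_apply, Circle.coe_exp, h1]
  let S : Sim_data v (fun k => U (v k)) := ⟨U, 1, one_ne_zero, 0, 1, fun k => by
    show U (v k) = (1 : ℝ) • U (v k) + 0
    rw [one_smul, add_zero]⟩
  have hfin : Finite (G (fun k => U (v k))) := ZDir_finite S
  have hind : AffineIndependent ℝ (fun k => U (v k)) :=
    hv.map' U.toLinearEquiv.toLinearMap.toAffineMap U.injective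
  have hS : ∀ z : ℂ, S.c • S.U (e * z) = z := by
    intro z
    show (1 : ℝ) • U (e * z) = z
    rw [one_smul, hU, inv_mul_cancel_left₀ he0]
  exact preCyl_commensurable hind (Sim_lattice S hL) (ZDir_precyl S hC1 hS)
    (ZDir_precyl S hC2 hS)

/-- **Theorem Z.** -/
theorem preCylE_commensurable (hv : AffineIndependent ℝ v) [Finite (G v)]
    (hL : LatticeTriangle v) {e e' : ℂ} (he : e' = e ∨ e' = -e) {w1 h1 w2 h2 : ℝ}
    {C1 C2 : ℂ → Surf v} (hC1 : PreCylE v e w1 h1 C1) (hC2 : PreCylE v e' w2 h2 C2) :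
    ∃ q : ℚ, w1 / h1 = q * (w2 / h2) := by
  rcases he with rfl | rfl
  · exact ZDir_same hv hL hC1 hC2
  · have h3 := ZDir_flip hC2
    rw [neg_neg] at h3
    exact ZDir_same hv hL hC1 h3

end Pool.Agent.OBT
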