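import Mathlib
import Pool.Agent.OBT.ConvM
import Pool.Agent.OBT.ConvHyp
import Pool.Agent.OBT.ConvDisc
import Pool.Agent.OBT.ZDir
import Pool.Agent.OBT.StarS

/-!
# A complete cylinder decomposition and a rotation: the lattice property
-/

open scoped ComplexConjugate Topology MatrixGroups UpperHalfPlane Real
open MeasureTheory Filter

namespace Pool.Agent.OBT

theorem CG_act_parM (t : ℝ) (z : ℂ) : act (parM t) z = shear t z := by
  unfold act parM shear
  apply Complex.ext
  · simp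
  · simp

theorem CG_act_rotM (θ : ℝ) (z : ℂ) : act (rotM θ) z = Complex.exp (θ * Complex.I) * z := by
  unfold act rotM
  apply Complex.ext
  · simp [Complex.exp_re, Complex.exp_im, Complex.mul_re]
    ring
  · simp [Complex.exp_re, Complex.exp_im, Complex.mul_im]
    ring

theorem CG_act_inj {A B : SL(2, ℝ)} (h : ∀ z, act A z = act B z) : A = B := by
  have h1 := h 1
  have h2 := h Complex.I
  unfold act at h1 h2
  have a1 := congrArg Complex.re h1
  have a2 := congrArg Complex.im h1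
  have a3 := congrArg Complex.re h2
  have a4 := congrArg Complex.im h2
  simp only [Complex.one_re, Complex.one_im, Complex.I_re, Complex.I_im, mul_one, mul_zero,
    add_zero, zero_add] at a1 a2 a3 a4
  apply Subtype.ext
  ext i j
  fin_cases i <;> fin_cases j
  · exact a1
  · exact a3
  · exact a2
  · exact a4

variable {v : Fin 3 → ℂ}

theorem Decomp.preCylE {ι : Type} {e : ℂ} {l h : ι → ℝ} {Ψ : ι → ℂ → Surf v}
    (D : Decomp v e l h Ψ) (i : ι) : PreCylE v e (l i) (h i) (Ψ i) where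
  norm_e := D.norm_e
  w_pos := D.lpos i
  h_pos := D.hpos i
  li := D.flat i
  per := D.per i
  reg := fun z h1 h2 => (rg_iff_reg _).1 (D.reg i z h1 h2)
  bot := by
    obtain ⟨b, hb⟩ := D.bot i
    exact ⟨b, fun h1 => hb ((rg_iff_reg _).2 h1)⟩
  top := by
    obtain ⟨a, ha⟩ := D.top i
    exact ⟨a, fun h1 => ha ((rg_iff_reg _).2 h1)⟩

theorem lattice_of_decomp [Finite (G v)] {ι : Type} [Finite ι] {e : ℂ} {l h : ι → ℝ}
    {Ψ : ι → ℂ → Surf v} (D : Decomp v e l h Ψ) {θ t : ℝ} (hθ : 0 < θ) (hθ' : θ < π)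
    (ht : 0 < t) (htθ : t * Real.sin θ ≤ 2 * (1 + Real.cos θ))
    (hn : ∀ i, ∃ n : ℤ, t * h i = n * l i) (hR : rotM θ ∈ veech v) : LatticeTriangle v := by
  have he0 : e ≠ 0 := by
    intro h0
    have := D.norm_e
    rw [h0, norm_zero] at this
    exact zero_ne_one this
  obtain ⟨i0, -, -⟩ := D.surj (Surf.mk 1 ⟨v 0, vert_mem_body 0⟩)
  obtain ⟨U, hU⟩ : ∃ U : ℂ ≃ₗᵢ[ℝ] ℂ, ∀ z, U z = e⁻¹ * z := by
    refine ⟨rotation (Circle.exp (e⁻¹).arg), fun z => ?_⟩
    have h1 := Complex.norm_mul_exp_arg_mul_I e⁻¹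
    rw [norm_inv, D.norm_e, inv_one, Complex.ofReal_one, one_mul] at h1
    rw [rotation_apply, Circle.coe_exp, h1]
  have hUi : ∀ z, U⁻¹ z = e * z := by
    intro z
    have h1 : U (e * z) = z := by rw [hU, inv_mul_cancel_left₀ he0]
    have h2 : U⁻¹ (U (e * z)) = e * z := U.symm_apply_apply _
    rwa [h1] at h2
  let S : Sim_data v (fun k => U (v k)) := ⟨U, 1, one_ne_zero, 0, 1, fun k => by
    show U (v k) = (1 : ℝ) • U (v k) + 0
    rw [one_smul, add_zero]⟩
  have hfin : Finite (G (fun k => U (v k))) := ZDir_finite S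
  have hS : ∀ z : ℂ, S.c • S.U (e * z) = z := by
    intro z
    show (1 : ℝ) • U (e * z) = z
    rw [one_smul, hU, inv_mul_cancel_left₀ he0]
  -- the twist
  have hA : Sim_cj U⁻¹ (parM t) ∈ veech v := by
    rw [mem_veech_iff]
    refine D.twist hn _ ?_
    intro z
    have h1 : U⁻¹⁻¹ (e * z) = z := by
      rw [inv_inv, hU, inv_mul_cancel_left₀ he0]
    rw [Sim_act_cj, h1, hUi, CG_act_parM]
  have hA' : parM t ∈ veech (fun k => U (v k)) := by
    have h1 := Sim_veech S hA
    have h2 : Sim_cj S.U (Sim_cj U⁻¹ (parM t)) = parM t := Sim_cj_cj U _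
    rwa [h2] at h1
  have hR' : rotM θ ∈ veech (fun k => U (v k)) := by
    have h1 := Sim_veech S hR
    have h2 : Sim_cj S.U (rotM θ) = rotM θ := by
      apply CG_act_inj
      intro z
      rw [Sim_act_cj]
      show U (act (rotM θ) (U⁻¹ z)) = act (rotM θ) z
      rw [CG_act_rotM, CG_act_rotM, hUi, hU]
      field_simp
    rwa [h2] at h1
  have hpre := ZDir_precyl S (D.preCylE i0) hS
  obtain ⟨n, -, hcyl⟩ := hpre.exists_cyl
  have hdisc : DiscreteTopology (veech (fun k => U (v k))) := by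
    refine discrete_of_cyl hcyl hR' ?_
    show Real.sin θ ≠ 0
    exact (Real.sin_pos_of_pos_of_lt_pi hθ hθ').ne'
  have hL : LatticeTriangle (fun k => U (v k)) :=
    lattice_of_rot_par _ hdisc hθ hθ' ht htθ hR' hA'
  exact Sim_lattice S.symm hL

end Pool.Agent.OBT
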