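import Mathlib
import Pool.Agent.OBT.Grp
import Pool.Agent.OBT.Iso
import Pool.Agent.OBT.ConvHyp

/-!
# Rotations in the Veech group
-/

open scoped ComplexConjugate Topology MatrixGroups UpperHalfPlane
open MeasureTheory Filter

namespace Pool.Agent.OBT

variable {v : Fin 3 → ℂ}

/-- left multiplication -/
noncomputable def lmul_fun (g0 : G v) : Surf v → Surf v :=
  Quot.map (fun p => (g0 * p.1, p.2)) (by
    rintro _ _ ⟨g, x, k, hx⟩
    show Glue v (g0 * g, x) (g0 * (g * r v k), x)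
    rw [← mul_assoc]
    exact Glue.mk _ _ _ hx)

theorem lmul_mk (g0 g : G v) (x : body v) : lmul_fun g0 (Surf.mk g x) = Surf.mk (g0 * g) x := rfl

theorem lmul_continuous (g0 : G v) : Continuous (lmul_fun g0) := by
  let _ : TopologicalSpace (G v) := ⊥
  have : DiscreteTopology (G v) := ⟨rfl⟩
  apply continuous_coinduced_dom.2
  apply continuous_prod_of_discrete_left.2
  intro g
  exact continuous_mk (g0 * g)

/-- left multiplication as a homeomorphism -/
noncomputable def lmul (g0 : G v) : Surf v ≃ₜ Surf v where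
  toFun := lmul_fun g0
  invFun := lmul_fun g0⁻¹
  left_inv := by
    intro ξ
    obtain ⟨g, x, rfl⟩ := mk_surjective ξ
    rw [lmul_mk, lmul_mk, inv_mul_cancel_left]
  right_inv := by
    intro ξ
    obtain ⟨g, x, rfl⟩ := mk_surjective ξ
    rw [lmul_mk, lmul_mk, mul_inv_cancel_left]
  continuous_toFun := lmul_continuous g0
  continuous_invFun := lmul_continuous g0⁻¹

theorem isAffine_lmul (g0 : G v) {A : SL(2, ℝ)}
    (hA : ∀ z, act A z = (g0 : ℂ ≃ₗᵢ[ℝ] ℂ) z) : IsAffine A (lmul g0) := by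
  intro ξ
  filter_upwards [near_mk ξ] with η hη
  obtain ⟨g, y, hy⟩ := mk_surjective η
  have h1 := hη g y hy
  refine ⟨g, g0 * g, proj ξ, y, proj ξ, y, h1, hy, ?_, ?_, ?_⟩
  · show Surf.mk (g0 * g) (proj ξ) = lmul_fun g0 ξ
    rw [← lmul_mk, h1]
  · show Surf.mk (g0 * g) y = lmul_fun g0 η
    rw [← lmul_mk, hy]
  · rw [hA]
    rfl

theorem act_rotM (θ : ℝ) (z : ℂ) : act (rotM θ) z = Complex.exp (θ * Complex.I) * z := by
  have h1 : (rotM θ) 0 0 = Real.cos θ := rfl
  have h2 : (rotM θ) 0 1 = -Real.sin θ := rfl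
  have h3 : (rotM θ) 1 0 = Real.sin θ := rfl
  have h4 : (rotM θ) 1 1 = Real.cos θ := rfl
  unfold act
  rw [h1, h2, h3, h4]
  apply Complex.ext
  · simp [Complex.exp_ofReal_mul_I_re, Complex.exp_ofReal_mul_I_im]
    ring
  · simp [Complex.exp_ofReal_mul_I_re, Complex.exp_ofReal_mul_I_im]
    ring

/-- **Rotations.** -/
theorem rotM_mem_veech {g : G v} (hg : rot g) {θ : ℝ} (hθ : uu g = Complex.exp (θ * Complex.I)) :
    rotM θ ∈ veech v := by
  refine (mem_veech_iff _).2 ⟨lmul g, isAffine_lmul g ?_⟩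
  intro z
  rw [act_rotM, hg z, hθ]

end Pool.Agent.OBT
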