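import Mathlib
import Pool.Agent.OBT.ConvD

/-!
# The cylinder decomposition of the unfolding of the triangles `TN N 1 q`, `q = 1` or `q = 2`:
surjectivity, singular points, the parabolic element of the Veech group
-/

open scoped ComplexConjugate Topology Real MatrixGroups
open MeasureTheory Filter

namespace Pool.Agent.OBT

noncomputable section

variable {N q : ℕ}

theorem CV_re (a : ℝ) (ζ : ℂ) : ((a : ℂ) + Complex.I * ζ).re = a - ζ.im := by simp; ring

theorem CV_im (a : ℝ) (ζ : ℂ) : ((a : ℂ) + Complex.I * ζ).im = ζ.re := by simp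

section

variable (hq : q = 1 ∨ q = 2) (hd : q ∣ N) (hN : 2 * (1 + q) < N)

/-- the width of the strip at the bottom -/
theorem YA_bot (k : ℤ) (hs : 0 < ss N k) :
    YA N q k 0 = rhoT N q * Real.sin ((2 * k - 1 : ℤ) * (π / N)) := by
  have hcs := cs_sq (N := N) k
  have e1 : rhoT N q * Real.sin ((2 * k - 1 : ℤ) * (π / N)) = mT N q * ss N k - bT N q * cc N k := by
    unfold cc ss
    rw [mT_eq, bT_eq]
    have : ((2 * k - 1 : ℤ) : ℝ) * (π / N) = ((2 * k : ℤ) : ℝ) * (π / N) - π / N := by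
      push_cast
      ring
    rw [this, Real.sin_sub]
    ring
  rw [e1]
  unfold YA
  rw [div_eq_iff hs.ne', aa_eq]
  linear_combination (-(mT N q)) * hcs

/-- the width of the strip at the top -/
theorem YA_top (k : ℤ) (hs : 0 < ss N k) :
    YA N q k (2 * bT N q * ss N k) = rhoT N q * Real.sin ((2 * k + 1 : ℤ) * (π / N)) := by
  have hcs := cs_sq (N := N) k
  have e1 : rhoT N q * Real.sin ((2 * k + 1 : ℤ) * (π / N)) = mT N q * ss N k + bT N q * cc N k := by
    unfold cc ss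
    rw [mT_eq, bT_eq]
    have : ((2 * k + 1 : ℤ) : ℝ) * (π / N) = ((2 * k : ℤ) : ℝ) * (π / N) + π / N := by
      push_cast
      ring
    rw [this, Real.sin_add]
    ring
  rw [e1]
  unfold YA
  rw [div_eq_iff hs.ne', aa_eq]
  linear_combination (-(mT N q)) * hcs

include hq hd hN

/-- the singular point on the bottom line -/
theorem CV_bot {k : ℤ} (h0 : 0 < k) (h1 : 2 * k < N) :
    ∃ b : ℝ, (b : ℂ) ∈ piece (2 * bT N q * ss N k) 0 (YA N q k) ∧ ¬ Rg (fA hq hN k b) := by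
  have hs := ss_pos hN h0 h1
  have hb := bT_pos (CD_hq0 hq) (CD_hN hN)
  have hρ := rhoT_pos (CD_hq0 hq) (CD_hN hN)
  have hY := YA_bot (q := q) k hs
  have hY0 : 0 ≤ YA N q k 0 := YA_nonneg hq hd hN h0 h1 le_rfl (by positivity)
  refine ⟨YA N q k 0, ⟨⟨by rw [Complex.ofReal_im], by rw [Complex.ofReal_im]; positivity⟩, ?_⟩, ?_⟩
  · rw [Complex.ofReal_im, Complex.ofReal_re, sub_zero, abs_of_nonneg hY0]
  · unfold fA
    have e1 : (aa N q k : ℂ) + Complex.I * (YA N q k 0 : ℂ) =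
        ((RR N q k * r (TN N 1 q) 2 : G (TN N 1 q)) : ℂ ≃ₗᵢ[ℝ] ℂ)
          ((⟨tau (((1 : ℕ) : ℝ) / N) ((q : ℝ) / N), vert_mem_body 2⟩ : body (TN N 1 q)) : ℂ) := by
      rw [RR2_apply (CD_hq0 hq) (CD_hN hN)]
      simp only
      rw [tau_polar, ee_exp, map_mul, Complex.conj_ofReal, Form1_exp_conj, mul_left_comm,
        ← Complex.exp_add]
      have e2 : ((((2 * k : ℤ) : ℝ) * (π / N) : ℝ) : ℂ) * Complex.I +
          -((π / N : ℝ) : ℂ) * Complex.I = ((((2 * k - 1 : ℤ) : ℝ) * (π / N) : ℝ) : ℂ) * Complex.I := by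
        push_cast
        ring
      rw [e2]
      apply Complex.ext
      · rw [Complex.re_ofReal_mul, Complex.exp_ofReal_mul_I_re, CV_re, Complex.ofReal_im, sub_zero]
        rfl
      · rw [Complex.im_ofReal_mul, Complex.exp_ofReal_mul_I_im, CV_im, Complex.ofReal_re, hY]
    rw [e1, SP_mk]
    exact not_rg_tau one_pos (CD_hq0 hq) hN (by rw [proj_mk])

/-- the singular point on the top line -/
theorem CV_top {k : ℤ} (h0 : 0 < k) (h1 : 2 * k < N) :
    ∃ a : ℝ, ((a : ℂ) + (2 * bT N q * ss N k : ℝ) * Complex.I) ∈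
      piece (2 * bT N q * ss N k) 0 (YA N q k) ∧
      ¬ Rg (fA hq hN k ((a : ℂ) + (2 * bT N q * ss N k : ℝ) * Complex.I)) := by
  have hs := ss_pos hN h0 h1
  have hb := bT_pos (CD_hq0 hq) (CD_hN hN)
  have hρ := rhoT_pos (CD_hq0 hq) (CD_hN hN)
  have hY := YA_top (q := q) k hs
  have hh : 0 ≤ 2 * bT N q * ss N k := by positivity
  have hY0 : 0 ≤ YA N q k (2 * bT N q * ss N k) := YA_nonneg hq hd hN h0 h1 hh le_rfl
  have him : ∀ a h : ℝ, ((a : ℂ) + (h : ℂ) * Complex.I).im = h := by intro a h; simp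
  have hre : ∀ a h : ℝ, ((a : ℂ) + (h : ℂ) * Complex.I).re = a := by intro a h; simp
  refine ⟨YA N q k (2 * bT N q * ss N k), ⟨⟨by rw [him]; exact hh, by rw [him]⟩, ?_⟩, ?_⟩
  · rw [him, hre, sub_zero, abs_of_nonneg hY0]
  · unfold fA
    have e1 : (aa N q k : ℂ) + Complex.I * ((YA N q k (2 * bT N q * ss N k) : ℂ) +
        (2 * bT N q * ss N k : ℝ) * Complex.I) =
        ((RR N q k : G (TN N 1 q)) : ℂ ≃ₗᵢ[ℝ] ℂ)
          ((⟨tau (((1 : ℕ) : ℝ) / N) ((q : ℝ) / N), vert_mem_body 2⟩ : body (TN N 1 q)) : ℂ) := by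
      rw [RR_apply (CD_hq0 hq) (CD_hN hN)]
      simp only
      rw [tau_polar, ee_exp, mul_left_comm, ← Complex.exp_add]
      have e2 : ((((2 * k : ℤ) : ℝ) * (π / N) : ℝ) : ℂ) * Complex.I +
          ((π / N : ℝ) : ℂ) * Complex.I = ((((2 * k + 1 : ℤ) : ℝ) * (π / N) : ℝ) : ℂ) * Complex.I := by
        push_cast
        ring
      rw [e2]
      have e3 := aa_eq' (N := N) (q := q) k
      have e4 := aa_eq (N := N) (q := q) k
      apply Complex.ext
      · rw [Complex.re_ofReal_mul, Complex.exp_ofReal_mul_I_re, e3, CV_re, him]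
        linarith
      · rw [Complex.im_ofReal_mul, Complex.exp_ofReal_mul_I_im, CV_im, hre, hY]
    rw [e1, SP_mk]
    exact not_rg_tau one_pos (CD_hq0 hq) hN (by rw [proj_mk])

/-- every point is in a strip -/
theorem CV_surj (ξ : Surf (TN N 1 q)) : ∃ (k : ℤ) (ζ : ℂ), (0 < k ∧ 2 * k < N) ∧
    ((ζ ∈ piece (2 * bT N q * ss N k) 0 (YA N q k) ∧ fA hq hN k ζ = ξ) ∨
    (ζ ∈ piece (2 * bT N q * ss N k) (2 * ss N k / 2) (YB N q k) ∧ fB hq hd hN k ζ = ξ)) := by
  have hρ := rhoT_pos (CD_hq0 hq) (CD_hN hN)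
  have hσ := sigT_pos (CD_hq0 hq) (CD_hN hN)
  obtain ⟨g, y, rfl⟩ := mk_surjective ξ
  obtain ⟨i, hi⟩ := exists_isR (CD_hq0 hq) (CD_hN hN) g
  rcases le_total (y : ℂ).re (mT N q) with hy | hy
  · set z := (g : ℂ ≃ₗᵢ[ℝ] ℂ) (y : ℂ) with hz
    have hp := poly_P (CD_hq0 hq) (CD_hN hN) g y hy
    rw [← hz] at hp
    obtain ⟨k, k0, k1, -, k3, k4⟩ := CT_band (q := 1) (N := N) (Or.inl rfl) (by omega) (one_dvd N) 0
      (r := z.re / rhoT N q) (Y := z.im / rhoT N q) (by
        intro j _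
        have h1 := hp j
        rw [mT_eq] at h1
        have e1 : z.re / rhoT N q * Real.cos ((2 * j : ℤ) * (π / N)) +
            z.im / rhoT N q * Real.sin ((2 * j : ℤ) * (π / N)) =
            (z.re * Real.cos ((2 * j : ℤ) * (π / N)) + z.im * Real.sin ((2 * j : ℤ) * (π / N))) /
              rhoT N q := by ring
        rw [e1, div_le_iff₀ hρ, Nat.cast_one, one_mul, mul_comm (Real.cos _)]
        exact h1)
    rw [le_div_iff₀ hρ, Nat.cast_one, mul_comm, aa_eq'] at k3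
    rw [div_le_iff₀ hρ, Nat.cast_one, mul_comm] at k4
    change z.re ≤ aa N q k at k4
    have hs := ss_pos hN k0 k1
    have e0 : (aa N q k : ℂ) + Complex.I * ⟨z.im, aa N q k - z.re⟩ = z := by
      apply Complex.ext
      · simp
      · simp
    refine ⟨k, ⟨z.im, aa N q k - z.re⟩, ⟨k0, k1⟩, Or.inl ⟨⟨⟨?_, ?_⟩, ?_⟩, ?_⟩⟩
    · show 0 ≤ aa N q k - z.re
      linarith
    · show aa N q k - z.re ≤ 2 * bT N q * ss N k
      rw [aa_eq]
      linarith
    · show |z.im - 0| ≤ YA N q k (aa N q k - z.re)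
      unfold YA
      rw [sub_zero, le_div_iff₀ hs]
      have h1 := hp k
      have h2 := hp (-k)
      rw [cc_neg, ss_neg] at h2
      change z.re * cc N k + z.im * ss N k ≤ mT N q at h1
      rcases abs_cases z.im with ⟨h3, _⟩ | ⟨h3, _⟩
      · rw [h3]; linarith
      · rw [h3]; linarith
    · unfold fA
      rw [e0, hz, SP_mk]
  · set z := (g : ℂ ≃ₗᵢ[ℝ] ℂ) ((y : ℂ) - 1) with hz
    have hp := poly_Q (CD_hq0 hq) (CD_hN hN) hd hi y hy
    rw [← hz] at hp
    obtain ⟨k, k0, k1, k2, k3, k4⟩ := CT_band (N := N) hq (CD_h2q hq hN) hd i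
      (r := -z.re / sigT N q) (Y := -z.im / sigT N q) (by
        intro j hj
        have h1 := hp j hj
        rw [mT_eq' (CD_hq0 hq) (CD_hN hN)] at h1
        have e1 : -z.re / sigT N q * Real.cos ((2 * j : ℤ) * (π / N)) +
            -z.im / sigT N q * Real.sin ((2 * j : ℤ) * (π / N)) =
            (-(z.re * Real.cos ((2 * j : ℤ) * (π / N)) + z.im * Real.sin ((2 * j : ℤ) * (π / N)))) /
              sigT N q := by ring
        rw [e1, div_le_iff₀ hσ, mul_comm (Real.cos _)]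
        exact h1)
    rw [le_div_iff₀ hσ, mul_comm, bb_eq hq hN] at k3
    rw [div_le_iff₀ hσ, mul_comm, bb_eq' hq hN] at k4
    have hs := ss_pos hN k0 k1
    have e4 := aa_eq (N := N) (q := q) k
    have e0 : (aa N q k : ℂ) + Complex.I * ⟨z.im + ss N k, aa N q k - cc N k - z.re⟩ - ee N k = z := by
      apply Complex.ext
      · rw [Complex.sub_re, CV_re]
        change aa N q k - (aa N q k - cc N k - z.re) - cc N k = z.re
        ring
      · rw [Complex.sub_im, CV_im]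
        change z.im + ss N k - ss N k = z.im
        ring
    refine ⟨k, ⟨z.im + ss N k, aa N q k - cc N k - z.re⟩, ⟨k0, k1⟩, Or.inr ⟨⟨⟨?_, ?_⟩, ?_⟩, ?_⟩⟩
    · show 0 ≤ aa N q k - cc N k - z.re
      linarith
    · show aa N q k - cc N k - z.re ≤ 2 * bT N q * ss N k
      linarith
    · show |z.im + ss N k - 2 * ss N k / 2| ≤ YB N q k (aa N q k - cc N k - z.re)
      have e5 : z.im + ss N k - 2 * ss N k / 2 = z.im := by ring
      unfold YB
      rw [e5, le_div_iff₀ hs]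
      have hki : (q : ℤ) ∣ (-k) - i := by
        have : (-k) - i = -(k - i) - 2 * i := by ring
        rw [this]
        exact dvd_sub ((dvd_neg).2 k2) (CD_dvd hq i)
      have h1 := hp k k2
      have h2 := hp (-k) hki
      rw [cc_neg, ss_neg] at h2
      change -(z.re * cc N k + z.im * ss N k) ≤ 1 - mT N q at h1
      rcases abs_cases z.im with ⟨h3, _⟩ | ⟨h3, _⟩
      · rw [h3]; linarith
      · rw [h3]; linarith
    · unfold fB
      rw [e0, hz]
      refine SQ_mk (CD_hq0 hq) (CD_hN hN) hd (k := k) (j := i) ?_ hi y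
      have : i - k = -(k - i) := by ring
      rw [this]
      exact (dvd_neg).2 k2

/-- the cylinder decomposition -/
theorem exists_decomp : ∃ Ψ : Idx N → ℂ → Surf (TN N 1 q),
    Decomp (TN N 1 q) Complex.I (fun k : Idx N => 2 * ss N k) (fun k : Idx N => 2 * bT N q * ss N k)
      Ψ := by
  have hb := bT_pos (CD_hq0 hq) (CD_hN hN)
  choose Ψ h1 h2 h3 h4 h5 using fun k : Idx N => exists_strip hq hd hN k.2.1 k.2.2
  refine ⟨Ψ, ?_, ?_, ?_, ?_, ?_, ?_, ?_, ?_, ?_⟩
  · exact Complex.norm_I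
  · intro k
    have := ss_pos hN k.2.1 k.2.2
    positivity
  · intro k
    have := ss_pos hN k.2.1 k.2.2
    positivity
  · intro k z z0 z1
    have := h3 k z ⟨z0, z1⟩
    rw [eventually_nhdsWithin_iff] at this
    filter_upwards [this] with w hw w0 w1
    exact hw ⟨w0, w1⟩
  · intro k z z0 z1
    exact h4 k z ⟨z0, z1⟩
  · intro ξ
    obtain ⟨k, ζ, hk, ⟨hζ, he⟩ | ⟨hζ, he⟩⟩ := CV_surj hq hd hN ξ
    · exact ⟨⟨k, hk⟩, ζ, hζ.1.1, hζ.1.2, by rw [h1 ⟨k, hk⟩ ζ hζ, he]⟩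
    · exact ⟨⟨k, hk⟩, ζ, hζ.1.1, hζ.1.2, by rw [h2 ⟨k, hk⟩ ζ hζ, he]⟩
  · intro k z z0 z1
    rcases h5 k z ⟨z0.le, z1.le⟩ with ⟨z', hz', him, he⟩ | ⟨z', hz', him, he⟩
    · rw [he]
      exact CD_regA hq hd hN k.2.1 k.2.2 hz' (by rw [him]; exact z0) (by rw [him]; exact z1)
    · rw [he]
      exact CD_regB hq hd hN k.2.1 k.2.2 hz' (by rw [him]; exact z0) (by rw [him]; exact z1)
  · intro k
    obtain ⟨b, hb1, hb2⟩ := CV_bot hq hd hN k.2.1 k.2.2
    exact ⟨b, by rw [h1 k _ hb1]; exact hb2⟩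
  · intro k
    obtain ⟨a, ha1, ha2⟩ := CV_top hq hd hN k.2.1 k.2.2
    exact ⟨a, by rw [h1 k _ ha1]; exact ha2⟩

/-- the parabolic element of the Veech group, in the direction `i` -/
theorem par_mem (A : SL(2, ℝ)) (hA : ∀ z, act A (Complex.I * z) = Complex.I * shear (1 / bT N q) z) :
    A ∈ veech (TN N 1 q) := by
  have hb := bT_pos (CD_hq0 hq) (CD_hN hN)
  have : Finite (G (TN N 1 q)) := finite_G one_pos (CD_hq0 hq) (CD_hN hN)
  obtain ⟨Ψ, D⟩ := exists_decomp hq hd hN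
  rw [mem_veech_iff]
  refine D.twist (t := 1 / bT N q) ?_ A hA
  intro k
  refine ⟨1, ?_⟩
  simp only [Int.cast_one, one_mul]
  field_simp

end

end

end Pool.Agent.OBT
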