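import Mathlib
import Pool.Agent.OBT.ConvV
import Pool.Agent.OBT.ConvRot
import Pool.Agent.OBT.ConvGlue

/-!
# The triangles of Veech and Ward have the lattice property
-/

open scoped ComplexConjugate Topology Real MatrixGroups
open MeasureTheory Filter

namespace Pool.Agent.OBT

noncomputable section

variable {v : Fin 3 → ℂ}

/-! ### The triangles of Veech and Ward -/

variable {N q : ℕ}

/-- **Veech, Ward.** -/
theorem lattice_VW (hq : q = 1 ∨ q = 2) (hd : q ∣ N) (hN : 2 * (1 + q) < N) :
    LatticeTriangle (TN N 1 q) := by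
  have hq0 := CD_hq0 hq
  have hN' := CD_hN (q := q) hN
  have hb := bT_pos hq0 hN'
  obtain ⟨hx, hNx⟩ := ConvP_x hq0 hN'
  have : Finite (G (TN N 1 q)) := finite_G one_pos hq0 hN'
  obtain ⟨Ψ, D⟩ := exists_decomp hq hd hN
  have h2N : (2 : ℝ) * (1 + q) < N := by exact_mod_cast hN
  have hqR : (1 : ℝ) ≤ q := by exact_mod_cast hq0
  have hx4 : 4 * (π / N) < π := by nlinarith
  have hqx : 2 * ((q : ℝ) * (π / N)) < π := by nlinarith
  have hs : 0 < Real.sin (π / N) := Real.sin_pos_of_pos_of_lt_pi hx (by linarith)
  have hc : 0 < Real.cos (π / N) := Real.cos_pos_of_mem_Ioo ⟨by linarith, by linarith⟩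
  have hqx0 : 0 < (q : ℝ) * (π / N) := by positivity
  have hsq : 0 < Real.sin (q * (π / N)) := Real.sin_pos_of_pos_of_lt_pi hqx0 (by linarith)
  have hcq : 0 < Real.cos (q * (π / N)) := Real.cos_pos_of_mem_Ioo ⟨by linarith, by linarith⟩
  have hσ := sigT_pos hq0 hN'
  have hρ := rhoT_pos hq0 hN'
  refine lattice_of_decomp D (t := 1 / bT N q) (θ := 2 * (π / N)) (by linarith) (by linarith)
    (by positivity) ?_ ?_ ?_
  swap
  · intro k
    refine ⟨1, ?_⟩
    simp only [Int.cast_one, one_mul]
    field_simp
  · -- `t = cot x + cot q x ≤ 2 cot x`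
    rw [Real.sin_two_mul, Real.cos_two_mul]
    have e1 : 1 / bT N q * (2 * Real.sin (π / N) * Real.cos (π / N)) =
        (2 * Real.sin (π / N) * Real.cos (π / N)) / bT N q := by ring
    rw [e1, div_le_iff₀ hb]
    -- `sin x ≤ 2 b cos x`
    have key : Real.sin (π / N) ≤ 2 * Real.cos (π / N) * bT N q := by
      -- 1 = m + (1 - m) = b cot x + b cot (q x)
      have h1 := mT_eq (N := N) (q := q)
      have h2 := bT_eq (N := N) (q := q)
      have h3 := mT_eq' hq0 hN'
      have h4 := bT_eq' hq0 hN'
      have h5 : (1 - mT N q) * Real.sin (q * (π / N)) = bT N q * Real.cos (q * (π / N)) := by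
        rw [h3, h4]; ring
      have h6 : mT N q * Real.sin (π / N) = bT N q * Real.cos (π / N) := by
        rw [h1, h2]; ring
      -- sin (q x - x) ≥ 0
      have h7 : 0 ≤ Real.sin (q * (π / N) - π / N) := by
        apply Real.sin_nonneg_of_nonneg_of_le_pi
        · nlinarith
        · linarith
      rw [Real.sin_sub] at h7
      -- (1 - m) sin x ≤ b cos x
      have h8 : (1 - mT N q) * Real.sin (π / N) ≤ bT N q * Real.cos (π / N) := by
        have h9 : (1 - mT N q) * Real.sin (π / N) * Real.sin (q * (π / N)) ≤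
            bT N q * Real.cos (π / N) * Real.sin (q * (π / N)) := by
          have h10 : (1 - mT N q) * Real.sin (π / N) * Real.sin (q * (π / N)) =
              bT N q * (Real.cos (q * (π / N)) * Real.sin (π / N)) := by
            linear_combination Real.sin (π / N) * h5
          rw [h10]
          have := mul_nonneg hb.le h7
          linarith
        exact le_of_mul_le_mul_right h9 hsq
      linarith
    have h11 : 2 * Real.cos (π / N) * Real.sin (π / N) ≤
        2 * Real.cos (π / N) * (2 * Real.cos (π / N) * bT N q) :=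
      mul_le_mul_of_nonneg_left key (by positivity)
    nlinarith
  · obtain ⟨h1, h2⟩ := RR_rot hq0 hN' 1
    refine rotM_mem_veech h1 ?_
    rw [h2, ee_exp]
    congr 1

/-- **Veech.** The isosceles triangles with two angles `π / N` have the lattice property. -/
theorem veech_lattice (N : ℕ) (hN : 5 ≤ N) : LatticeTriangle (TN N 1 1) :=
  lattice_VW (Or.inl rfl) (one_dvd N) (by omega)

/-- **Ward.** The triangles with angles `π / 2 n`, `π / n` have the lattice property. -/
theorem ward_lattice (n : ℕ) (hn : 4 ≤ n) : LatticeTriangle (TN (2 * n) 1 2) :=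
  lattice_VW (Or.inr rfl) ⟨n, rfl⟩ (by omega)

end

end Pool.Agent.OBT
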