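import Mathlib

/-!
# The Hilbert space part of the criterion

`W` is the space of all pairs `(∂ U, ∂̄ U)`.
-/

open scoped ComplexConjugate Topology

namespace Pool.Agent.OBT

/-- the contraction `T` with `T p.2 = p.1` -/
theorem Hilb_exists_T {H : Type*} [NormedAddCommGroup H] [InnerProductSpace ℂ H] [CompleteSpace H]
    (W : Submodule ℂ (H × H)) (hW : ∀ p ∈ W, ‖p.1‖ = ‖p.2‖) (e g : H)
    (he : ∀ p ∈ W, inner ℂ p.1 e = 0) (hg : ∀ p ∈ W, inner ℂ p.2 g = 0) :
    ∃ T : H →L[ℂ] H, (∀ p ∈ W, T p.2 = p.1) ∧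
      (∀ q, (∀ p ∈ W, inner ℂ p.2 q = 0) → T q = 0) ∧ (∀ q, inner ℂ (T q) e = 0) ∧
      (∀ x, ∃ q, inner ℂ g q = inner ℂ g x ∧ ‖x‖ ^ 2 = ‖T x‖ ^ 2 + ‖q‖ ^ 2) := by
  set W' := W.topologicalClosure with hW'
  have cl : ∀ (P : H × H → Prop), IsClosed {p | P p} → (∀ p ∈ W, P p) → ∀ p ∈ W', P p := by
    intro P hP h p hp
    have h1 : closure (W : Set (H × H)) ⊆ {p | P p} := closure_minimal h hP
    exact h1 hp
  have hn : ∀ p ∈ W', ‖p.1‖ = ‖p.2‖ :=
    cl _ (isClosed_eq (by fun_prop) (by fun_prop)) hW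
  have he' : ∀ p ∈ W', inner ℂ p.1 e = 0 :=
    cl _ (isClosed_eq (by fun_prop) (by fun_prop)) he
  have hg' : ∀ p ∈ W', inner ℂ p.2 g = 0 :=
    cl _ (isClosed_eq (by fun_prop) (by fun_prop)) hg
  let J : W' →ₗᵢ[ℂ] H := ⟨(LinearMap.snd ℂ H H).comp W'.subtype, by
    rintro ⟨p, hp⟩
    show ‖p.2‖ = ‖p‖
    rw [Prod.norm_def, hn p hp, max_self]⟩
  haveI : CompleteSpace W' := W.isClosed_topologicalClosure.completeSpace_coe
  have hJ : ∀ p : W', J p = (p : H × H).2 := fun p => rfl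
  let R : Submodule ℂ H := LinearMap.range J.toLinearMap
  haveI hRc : CompleteSpace R := by
    have h1 : IsComplete (Set.range J) := J.isometry.isUniformInducing.isComplete_range
    exact completeSpace_coe_iff_isComplete.mpr h1
  have hmem : ∀ y : H, y ∈ R → ∃ p ∈ W', p.2 = y := by
    rintro y ⟨p, rfl⟩
    exact ⟨p, p.2, rfl⟩
  let T : H →L[ℂ] H := (ContinuousLinearMap.fst ℂ H H).comp (W'.subtypeL.comp
    ((J.equivRange.symm.toContinuousLinearEquiv : R →L[ℂ] W').comp R.orthogonalProjectionOnto))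
  have hT : ∀ x, T x = ((J.equivRange.symm (R.orthogonalProjectionOnto x) : W') : H × H).1 :=
    fun x => rfl
  have hT2 : ∀ x, ((J.equivRange.symm (R.orthogonalProjectionOnto x) : W') : H × H).2 =
      (R.orthogonalProjectionOnto x : H) := by
    intro x
    rw [← hJ]
    have h1 := J.equivRange.apply_symm_apply (R.orthogonalProjectionOnto x)
    exact congrArg Subtype.val h1
  refine ⟨T, ?_, ?_, ?_, ?_⟩
  · intro p hp
    have hp' : p ∈ W' := W.le_topologicalClosure hp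
    have h1 : J.equivRange ⟨p, hp'⟩ = ⟨p.2, ⟨⟨p, hp'⟩, rfl⟩⟩ := rfl
    have h2 : R.orthogonalProjectionOnto p.2 = J.equivRange ⟨p, hp'⟩ := by
      rw [h1]
      exact R.orthogonalProjectionOnto_mem_subspace_eq_self ⟨p.2, ⟨⟨p, hp'⟩, rfl⟩⟩
    rw [hT, h2, J.equivRange.symm_apply_apply]
  · intro q hq
    have hq' : ∀ p ∈ W', inner ℂ p.2 q = 0 :=
      cl _ (isClosed_eq (by fun_prop) (by fun_prop)) hq
    have h1 : R.orthogonalProjectionOnto q = 0 := by
      apply R.orthogonalProjectionOnto_apply_of_mem_orthogonal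
      rw [Submodule.mem_orthogonal]
      intro u hu
      obtain ⟨p, hp, rfl⟩ := hmem u hu
      exact hq' p hp
    rw [hT, h1, map_zero]
    rfl
  · intro q
    rw [hT]
    exact he' _ (J.equivRange.symm (R.orthogonalProjectionOnto q)).2
  · intro x
    refine ⟨x - R.orthogonalProjectionOnto x, ?_, ?_⟩
    · obtain ⟨p, hp, hpx⟩ := hmem _ (R.orthogonalProjectionOnto x).2
      rw [inner_sub_right, ← hpx, inner_eq_zero_symm.mp (hg' p hp), sub_zero]
    · have h1 : ‖T x‖ = ‖(R.orthogonalProjectionOnto x : H)‖ := by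
        rw [hT, ← hT2]
        exact hn _ (J.equivRange.symm (R.orthogonalProjectionOnto x)).2
      have h3 : inner ℂ (R.orthogonalProjectionOnto x : H) (x - R.orthogonalProjectionOnto x) = 0 :=
        inner_eq_zero_symm.mp
          (R.starProjection_inner_eq_zero x _ (R.orthogonalProjectionOnto x).2)
      have h4 := norm_add_sq_eq_norm_sq_add_norm_sq_of_inner_eq_zero (𝕜 := ℂ) _ _ h3
      rw [add_sub_cancel] at h4
      rw [h1, sq, sq, sq]
      exact h4

/-- the vector `G μ = (1 - μ T)⁻¹ e` -/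
theorem Hilb_G {H : Type*} [NormedAddCommGroup H] [InnerProductSpace ℂ H] [CompleteSpace H]
    (T : H →L[ℂ] H) (hT : ∀ x, ‖T x‖ ≤ ‖x‖) (e : H) :
    ∃ G : ℂ → H, DifferentiableOn ℂ G (Metric.ball 0 1) ∧
      (∀ μ ∈ Metric.ball (0 : ℂ) 1, G μ = e + μ • T (G μ)) ∧
      (∀ μ ∈ Metric.ball (0 : ℂ) 1, ∀ (x : H) (s : ℂ), x = s • e + μ • T x → x = s • G μ) := by
  have hn : ‖T‖ ≤ 1 := T.opNorm_le_bound zero_le_one fun x => by rw [one_mul]; exact hT x
  have hu : ∀ μ ∈ Metric.ball (0 : ℂ) 1, IsUnit (1 - μ • T) := by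
    intro μ hμ
    rw [mem_ball_zero_iff] at hμ
    apply isUnit_one_sub_of_norm_lt_one
    rw [norm_smul]
    nlinarith [norm_nonneg μ, norm_nonneg T]
  refine ⟨fun μ => Ring.inverse (1 - μ • T) e, ?_, ?_, ?_⟩
  · intro μ hμ
    have h1 : DifferentiableAt ℂ (fun μ : ℂ => (1 : H →L[ℂ] H) - μ • T) μ := by fun_prop
    have h2 : DifferentiableAt ℂ (@Ring.inverse (H →L[ℂ] H) _) (1 - μ • T) :=
      differentiableAt_inverse (hu μ hμ)
    have h3 : DifferentiableAt ℂ (fun μ : ℂ => Ring.inverse ((1 : H →L[ℂ] H) - μ • T)) μ := by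
      have h4 := DifferentiableAt.comp μ h2 h1
      exact h4
    exact (h3.clm_apply (differentiableAt_const e)).differentiableWithinAt
  · intro μ hμ
    have h1 := Ring.mul_inverse_cancel _ (hu μ hμ)
    have h2 := congrArg (fun A : H →L[ℂ] H => A e) h1
    simp only [mul_apply_eq_comp, sub_apply,
      one_apply_eq_self, smul_apply] at h2
    exact sub_eq_iff_eq_add.mp h2
  · intro μ hμ x s hx
    have h1 := Ring.inverse_mul_cancel _ (hu μ hμ)
    have h2 := congrArg (fun A : H →L[ℂ] H => A x) h1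
    simp only [mul_apply_eq_comp, sub_apply,
      one_apply_eq_self, smul_apply] at h2
    have h3 : x - μ • T x = s • e := sub_eq_iff_eq_add.mpr hx
    rw [h3, map_smul] at h2
    exact h2.symm

theorem hilbert_core {H : Type*} [NormedAddCommGroup H] [InnerProductSpace ℂ H] [CompleteSpace H]
    (W : Submodule ℂ (H × H)) (hW : ∀ p ∈ W, ‖p.1‖ = ‖p.2‖) (e g : H)
    (he : ∀ p ∈ W, inner ℂ p.1 e = 0) (hg : ∀ p ∈ W, inner ℂ p.2 g = 0) :
    ∃ E : ℂ → ℂ, DifferentiableOn ℂ E (Metric.ball 0 1) ∧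
      (∃ C : ℝ, ∀ μ ∈ Metric.ball (0 : ℂ) 1, ‖E μ‖ ≤ C) ∧ E 0 = 0 ∧
      (∀ μ ∈ Metric.ball (0 : ℂ) 1, ∀ (x n : H) (s : ℂ), s ≠ 0 →
        (∀ p ∈ W, inner ℂ p.2 n = 0) → inner ℂ g n = 0 → (x - s • e, μ • x - n) ∈ W → E μ = 0) ∧
      ((∀ μ ∈ Metric.ball (0 : ℂ) 1, E μ = 0) →
        ∀ (M : ℕ) (x n : ℕ → H), x 0 = e → (∀ m < M, (x (m + 1), x m - n m) ∈ W) →
          (∀ m < M, ∀ p ∈ W, inner ℂ p.2 (n m) = 0) → inner ℂ g (x M) = 0) := by
  obtain ⟨T, hT1, hT2, hT3, hT4⟩ := Hilb_exists_T W hW e g he hg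
  have hTn : ∀ x, ‖T x‖ ≤ ‖x‖ := by
    intro x
    obtain ⟨q, -, hq⟩ := hT4 x
    nlinarith [norm_nonneg (T x), norm_nonneg x, sq_nonneg ‖q‖]
  obtain ⟨G, hG1, hG2, hG3⟩ := Hilb_G T hTn e
  have h0 : (0 : ℂ) ∈ Metric.ball (0 : ℂ) 1 := Metric.mem_ball_self one_pos
  refine ⟨fun μ => μ * inner ℂ g (G μ), ?_, ⟨‖g‖ * ‖e‖, ?_⟩, by simp, ?_, ?_⟩
  · intro μ hμ
    have h1 : DifferentiableWithinAt ℂ (fun μ => (innerSL ℂ g) (G μ)) (Metric.ball 0 1) μ :=
      (innerSL ℂ g).differentiableAt.comp_differentiableWithinAt μ (hG1 μ hμ)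
    exact differentiableWithinAt_id.mul h1
  · intro μ hμ
    obtain ⟨q, hq1, hq2⟩ := hT4 (G μ)
    have hμ1 : ‖μ‖ < 1 := by rwa [mem_ball_zero_iff] at hμ
    have h1 : ‖G μ‖ ^ 2 = ‖e‖ ^ 2 + ‖μ‖ ^ 2 * ‖T (G μ)‖ ^ 2 := by
      have h2 : inner ℂ e (μ • T (G μ)) = 0 := by
        rw [inner_smul_right, inner_eq_zero_symm.mp (hT3 (G μ)), mul_zero]
      have h3 := norm_add_sq_eq_norm_sq_add_norm_sq_of_inner_eq_zero (𝕜 := ℂ) _ _ h2
      rw [← hG2 μ hμ, norm_smul] at h3
      nlinarith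
    have h4 : ‖q‖ ≤ ‖e‖ := by
      have h5 : ‖μ‖ ^ 2 ≤ 1 := by nlinarith [norm_nonneg μ]
      have h6 : ‖μ‖ ^ 2 * ‖T (G μ)‖ ^ 2 ≤ 1 * ‖T (G μ)‖ ^ 2 :=
        mul_le_mul_of_nonneg_right h5 (sq_nonneg _)
      have h7 : ‖q‖ ^ 2 ≤ ‖e‖ ^ 2 := by linarith
      exact (pow_le_pow_iff_left₀ (norm_nonneg _) (norm_nonneg _) two_ne_zero).mp h7
    calc ‖μ * inner ℂ g (G μ)‖ = ‖μ‖ * ‖inner ℂ g q‖ := by rw [norm_mul, hq1]
      _ ≤ 1 * (‖g‖ * ‖e‖) := by
          refine mul_le_mul hμ1.le ?_ (norm_nonneg _) zero_le_one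
          exact (norm_inner_le_norm g q).trans (mul_le_mul_of_nonneg_left h4 (norm_nonneg _))
      _ = ‖g‖ * ‖e‖ := one_mul _
  · intro μ hμ x n s hs hn hgn hmem
    have h1 := hT1 _ hmem
    simp only [map_sub, map_smul, hT2 n hn, sub_zero] at h1
    have h2 : x = s • e + μ • T x := by
      rw [h1]
      abel
    have h3 := hG3 μ hμ x s h2
    have h4 := hg _ hmem
    simp only at h4
    have h5 : inner ℂ g (μ • x - n) = 0 := inner_eq_zero_symm.mp h4
    rw [inner_sub_right, hgn, sub_zero, h3, inner_smul_right, inner_smul_right] at h5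
    have h6 : s * (μ * inner ℂ g (G μ)) = 0 := by
      rw [← h5]
      ring
    exact (mul_eq_zero.mp h6).resolve_left hs
  · intro hE M x n hx0 hstep hn
    have hc : ∀ m, inner ℂ g ((T ^ m) e) = 0 := by
      intro m
      induction m using Nat.strong_induction_on with
      | _ m ih =>
        -- expansion of `G μ`
        have h1 : ∀ k, ∀ μ ∈ Metric.ball (0 : ℂ) 1,
            G μ = ∑ j ∈ Finset.range k, μ ^ j • (T ^ j) e + μ ^ k • (T ^ k) (G μ) := by
          intro k μ hμ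
          induction k with
          | zero => simp
          | succ k ihk =>
            rw [Finset.sum_range_succ]
            have h2 : (T ^ k) (G μ) = (T ^ k) e + μ • (T ^ (k + 1)) (G μ) := by
              conv_lhs => rw [hG2 μ hμ]
              rw [map_add, map_smul, pow_succ, mul_apply_eq_comp]
            rw [h2, smul_add, smul_smul, ← pow_succ] at ihk
            rw [add_assoc]
            exact ihk
        have h2 : ∀ μ ∈ Metric.ball (0 : ℂ) 1, μ ≠ 0 → inner ℂ g ((T ^ m) (G μ)) = 0 := by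
          intro μ hμ hμ0
          have h3 := hE μ hμ
          simp only at h3
          have h4 := (mul_eq_zero.mp h3).resolve_left hμ0
          rw [h1 m μ hμ, inner_add_right, inner_sum, inner_smul_right] at h4
          have h5 : ∑ j ∈ Finset.range m, inner ℂ g (μ ^ j • (T ^ j) e) = 0 := by
            apply Finset.sum_eq_zero
            intro j hj
            rw [inner_smul_right, ih j (Finset.mem_range.mp hj), mul_zero]
          rw [h5, zero_add] at h4
          exact (mul_eq_zero.mp h4).resolve_left (pow_ne_zero _ hμ0)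
        have hG0 : G 0 = e := by
          have := hG2 0 h0
          rwa [zero_smul, add_zero] at this
        have hcont : ContinuousAt G 0 :=
          (hG1.continuousOn.continuousAt (Metric.ball_mem_nhds 0 one_pos))
        have hcont2 : ContinuousAt (fun μ => inner ℂ g ((T ^ m) (G μ))) 0 :=
          ((innerSL ℂ g).continuous.comp (T ^ m).continuous).continuousAt.comp hcont
        have h6 : Filter.Tendsto (fun μ => inner ℂ g ((T ^ m) (G μ))) (𝓝[≠] 0)
            (𝓝 (inner ℂ g ((T ^ m) (G 0)))) := hcont2.tendsto.mono_left nhdsWithin_le_nhds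
        have h7 : (fun μ => inner ℂ g ((T ^ m) (G μ))) =ᶠ[𝓝[≠] 0] fun _ => (0 : ℂ) := by
          rw [Filter.EventuallyEq, eventually_nhdsWithin_iff]
          filter_upwards [Metric.ball_mem_nhds (0 : ℂ) one_pos] with μ hμ hμ0
          exact h2 μ hμ hμ0
        have h8 : Filter.Tendsto (fun μ => inner ℂ g ((T ^ m) (G μ))) (𝓝[≠] 0) (𝓝 0) :=
          Filter.Tendsto.congr' h7.symm tendsto_const_nhds
        rw [← hG0]
        exact tendsto_nhds_unique h6 h8
    have hx : ∀ m ≤ M, x m = (T ^ m) e := by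
      intro m
      induction m with
      | zero => intro _; simpa using hx0
      | succ m ih =>
        intro hm
        have h1 := hT1 _ (hstep m (by omega))
        simp only [map_sub, hT2 (n m) (hn m (by omega)), sub_zero] at h1
        rw [← h1, ih (by omega), pow_succ', mul_apply_eq_comp]
    rw [hx M le_rfl]
    exact hc M

end Pool.Agent.OBT
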