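import Mathlib
import Pool.Agent.OBT.Nice

/-!
# Linear combinations of functions of finite energy
-/

open scoped ComplexConjugate Topology
open MeasureTheory

namespace Pool.Agent.OBT

noncomputable section

variable {v : Fin 3 → ℂ}

theorem NiceAlg_DG_zero (g : G v) : DG g 0 0 = 0 := by
  ext h
  simp

theorem NiceAlg_DG_add (g : G v) (a b a' b' : ℂ) :
    DG g (a + a') (b + b') = DG g a b + DG g a' b' := by
  ext h
  simp
  ring

theorem NiceAlg_DG_smul (g : G v) (c a b : ℂ) : DG g (c * a) (c * b) = c • DG g a b := by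
  ext h
  simp
  ring

theorem NiceAlg_compat_add {S S' : Set ℂ} {Q Q' : G v → ℂ → ℂ} (h : Compat S Q)
    (h' : Compat S' Q') : Compat (S ∪ S') (fun g y => Q g y + Q' g y) := by
  intro g k y hy
  have h1 := h g k y ⟨hy.1, fun hS => hy.2 (Or.inl hS)⟩
  have h2 := h' g k y ⟨hy.1, fun hS => hy.2 (Or.inr hS)⟩
  simp only [h1, h2]

theorem NiceAlg_compat_smul {S : Set ℂ} {Q : G v → ℂ → ℂ} (c : ℂ) (h : Compat S Q) :
    Compat S (fun g y => c * Q g y) := by
  intro g k y hy
  simp only [h g k y hy]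

theorem nice_zero : Nice v (fun _ _ => 0) (fun _ _ => 0) (fun _ _ => 0) := by
  refine ⟨∅, Set.finite_empty, ⟨0, fun _ _ _ => by simp⟩, fun _ _ _ _ => rfl, fun _ _ _ _ => rfl,
    fun _ _ _ _ => rfl, fun g y _ => ?_, ⟨fun _ _ => 0, fun _ _ => 0, fun _ _ => 0,
      fun _ => continuousOn_const, fun _ => continuousOn_const, fun _ => continuousOn_const,
      fun g y _ => ?_, fun g y _ => ?_⟩, fun _ => MemLp.zero', fun _ => MemLp.zero'⟩
  all_goals
    rw [NiceAlg_DG_zero]
    exact hasFDerivWithinAt_const _ _ _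

theorem nice_add {U u w U' u' w' : G v → ℂ → ℂ} (h : Nice v U u w) (h' : Nice v U' u' w') :
    Nice v (fun g y => U g y + U' g y) (fun g y => u g y + u' g y)
      (fun g y => w g y + w' g y) := by
  obtain ⟨S, h⟩ := h
  obtain ⟨S', h'⟩ := h'
  have hl : body v \ (S ∪ S') ⊆ body v \ S := Set.sdiff_subset_sdiff_right Set.subset_union_left
  have hr : body v \ (S ∪ S') ⊆ body v \ S' := Set.sdiff_subset_sdiff_right Set.subset_union_right
  obtain ⟨C, hC⟩ := h.bdd
  obtain ⟨C', hC'⟩ := h'.bdd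
  obtain ⟨u1, m, w2, a1, a2, a3, a4, a5⟩ := h.second
  obtain ⟨u1', m', w2', b1, b2, b3, b4, b5⟩ := h'.second
  refine ⟨S ∪ S', h.fin.union h'.fin, ⟨C + C', fun g y hy => ?_⟩, NiceAlg_compat_add h.compat h'.compat,
    NiceAlg_compat_add h.compat1 h'.compat1, NiceAlg_compat_add h.compat2 h'.compat2,
    fun g y hy => ?_, ⟨fun g y => u1 g y + u1' g y, fun g y => m g y + m' g y,
      fun g y => w2 g y + w2' g y, fun g => ?_, fun g => ?_, fun g => ?_, fun g y hy => ?_,
      fun g y hy => ?_⟩, fun g => (h.L2a g).add (h'.L2a g), fun g => (h.L2b g).add (h'.L2b g)⟩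
  · exact (norm_add_le _ _).trans (add_le_add (hC g y hy) (hC' g y hy))
  · rw [NiceAlg_DG_add]
    exact (h.deriv g y (hl hy)).add (h'.deriv g y (hr hy))
  · exact ((a1 g).mono hl).add ((b1 g).mono hr)
  · exact ((a2 g).mono hl).add ((b2 g).mono hr)
  · exact ((a3 g).mono hl).add ((b3 g).mono hr)
  · rw [NiceAlg_DG_add]
    exact (a4 g y (hl hy)).add (b4 g y (hr hy))
  · rw [NiceAlg_DG_add]
    exact (a5 g y (hl hy)).add (b5 g y (hr hy))

theorem nice_smul (c : ℂ) {U u w : G v → ℂ → ℂ} (h : Nice v U u w) :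
    Nice v (fun g y => c * U g y) (fun g y => c * u g y) (fun g y => c * w g y) := by
  obtain ⟨S, h⟩ := h
  obtain ⟨C, hC⟩ := h.bdd
  obtain ⟨u1, m, w2, a1, a2, a3, a4, a5⟩ := h.second
  refine ⟨S, h.fin, ⟨‖c‖ * C, fun g y hy => ?_⟩, NiceAlg_compat_smul c h.compat,
    NiceAlg_compat_smul c h.compat1, NiceAlg_compat_smul c h.compat2,
    fun g y hy => ?_, ⟨fun g y => c * u1 g y, fun g y => c * m g y,
      fun g y => c * w2 g y, fun g => continuousOn_const.mul (a1 g),
      fun g => continuousOn_const.mul (a2 g), fun g => continuousOn_const.mul (a3 g),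
      fun g y hy => ?_, fun g y hy => ?_⟩, fun g => (h.L2a g).const_mul c,
      fun g => (h.L2b g).const_mul c⟩
  · rw [norm_mul]
    exact mul_le_mul_of_nonneg_left (hC g y hy) (norm_nonneg _)
  · rw [NiceAlg_DG_smul]
    exact (h.deriv g y hy).const_mul c
  · rw [NiceAlg_DG_smul]
    exact (a4 g y hy).const_mul c
  · rw [NiceAlg_DG_smul]
    exact (a5 g y hy).const_mul c

/-- the Hilbert space of square integrable functions on the unfolding -/
abbrev HH (v : Fin 3 → ℂ) [Fintype (G v)] : Type :=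
  PiLp 2 (fun _ : G v => Lp ℂ 2 (volume.restrict (body v)))

/-- the element of the Hilbert space defined by a family -/
def toHH [Fintype (G v)] (f : G v → ℂ → ℂ)
    (hf : ∀ g, MemLp (f g) 2 (volume.restrict (body v))) : HH v :=
  WithLp.toLp 2 (fun g => (hf g).toLp (f g))

theorem inner_toHH [Fintype (G v)] (f h : G v → ℂ → ℂ)
    (hf : ∀ g, MemLp (f g) 2 (volume.restrict (body v)))
    (hh : ∀ g, MemLp (h g) 2 (volume.restrict (body v))) :
    inner ℂ (toHH f hf) (toHH h hh) = ∑ g, ∫ y in body v, conj (f g y) * h g y := by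
  rw [PiLp.inner_apply]
  refine Finset.sum_congr rfl fun g _ => ?_
  rw [MeasureTheory.L2.inner_def]
  refine integral_congr_ae ?_
  filter_upwards [(hf g).coeFn_toLp, (hh g).coeFn_toLp] with y h1 h2
  simp only [toHH]
  rw [h1, h2, RCLike.inner_apply, mul_comm]

theorem norm_toHH_sq [Fintype (G v)] (f : G v → ℂ → ℂ)
    (hf : ∀ g, MemLp (f g) 2 (volume.restrict (body v))) :
    ‖toHH f hf‖ ^ 2 = ∑ g, ∫ y in body v, ‖f g y‖ ^ 2 := by
  have h1 := inner_toHH f f hf hf
  rw [inner_self_eq_norm_sq_to_K] at h1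
  have h2 : ∀ g, ∫ y in body v, conj (f g y) * f g y
      = ((∫ y in body v, ‖f g y‖ ^ 2 : ℝ) : ℂ) := by
    intro g
    rw [← integral_complex_ofReal]
    refine integral_congr_ae (Filter.Eventually.of_forall fun y => ?_)
    simp only
    rw [mul_comm, Complex.mul_conj, Complex.normSq_eq_norm_sq]
  simp only [h2] at h1
  apply Complex.ofReal_injective
  rw [Complex.ofReal_sum]
  rw [← h1]
  simp

theorem toHH_add [Fintype (G v)] (f h : G v → ℂ → ℂ)
    (hf : ∀ g, MemLp (f g) 2 (volume.restrict (body v)))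
    (hh : ∀ g, MemLp (h g) 2 (volume.restrict (body v)))
    (hfh : ∀ g, MemLp ((fun g y => f g y + h g y) g) 2 (volume.restrict (body v))) :
    toHH (fun g y => f g y + h g y) hfh = toHH f hf + toHH h hh := by
  rw [toHH, toHH, toHH, ← WithLp.toLp_add]
  congr 1

theorem toHH_smul [Fintype (G v)] (c : ℂ) (f : G v → ℂ → ℂ)
    (hf : ∀ g, MemLp (f g) 2 (volume.restrict (body v)))
    (hcf : ∀ g, MemLp ((fun g y => c * f g y) g) 2 (volume.restrict (body v))) :
    toHH (fun g y => c * f g y) hcf = c • toHH f hf := by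
  rw [toHH, toHH, ← WithLp.toLp_smul]
  congr 1

/-- the space of the pairs `(∂ U, ∂̄ U)` -/
theorem exists_WW (v : Fin 3 → ℂ) [Fintype (G v)] : ∃ W : Submodule ℂ (HH v × HH v), ∀ p,
    p ∈ W ↔ ∃ (U u w : G v → ℂ → ℂ) (hu : ∀ g, MemLp (u g) 2 (volume.restrict (body v)))
      (hw : ∀ g, MemLp (w g) 2 (volume.restrict (body v))), Nice v U u w ∧
      p = (toHH u hu, toHH w hw) := by
  refine ⟨{ carrier := {p | ∃ (U u w : G v → ℂ → ℂ)
              (hu : ∀ g, MemLp (u g) 2 (volume.restrict (body v)))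
              (hw : ∀ g, MemLp (w g) 2 (volume.restrict (body v))), Nice v U u w ∧
              p = (toHH u hu, toHH w hw)}
            add_mem' := ?_
            zero_mem' := ?_
            smul_mem' := ?_ }, fun p => Iff.rfl⟩
  · rintro p q ⟨U, u, w, hu, hw, hN, rfl⟩ ⟨U', u', w', hu', hw', hN', rfl⟩
    have e1 : ∀ g, MemLp ((fun g y => u g y + u' g y) g) 2 (volume.restrict (body v)) :=
      fun g => (hu g).add (hu' g)
    have e2 : ∀ g, MemLp ((fun g y => w g y + w' g y) g) 2 (volume.restrict (body v)) :=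
      fun g => (hw g).add (hw' g)
    refine ⟨_, _, _, e1, e2, nice_add hN hN', ?_⟩
    rw [toHH_add u u' hu hu' e1, toHH_add w w' hw hw' e2]
    rfl
  · have e1 : ∀ g : G v, MemLp ((fun (_ : G v) (_ : ℂ) => (0 : ℂ)) g) 2
        (volume.restrict (body v)) := fun g => MemLp.zero'
    refine ⟨_, _, _, e1, e1, nice_zero, ?_⟩
    have hz : toHH (fun (_ : G v) (_ : ℂ) => (0 : ℂ)) e1 = 0 := by
      rw [toHH, ← WithLp.toLp_zero]
      congr 1
    rw [hz]
    rfl
  · rintro c p ⟨U, u, w, hu, hw, hN, rfl⟩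
    have e1 : ∀ g, MemLp ((fun g y => c * u g y) g) 2 (volume.restrict (body v)) :=
      fun g => (hu g).const_mul c
    have e2 : ∀ g, MemLp ((fun g y => c * w g y) g) 2 (volume.restrict (body v)) :=
      fun g => (hw g).const_mul c
    refine ⟨_, _, _, e1, e2, nice_smul c hN, ?_⟩
    rw [toHH_smul c u hu e1, toHH_smul c w hw e2]
    rfl

end

end Pool.Agent.OBT
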