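import Mathlib

/-!
# Cutoff functions with small energy near finitely many points of the plane
-/

open scoped Topology
open MeasureTheory Filter

namespace Pool.Agent.OBT

/-- the radial profile -/
noncomputable def Cutoff_lam (n : ℕ) (r : ℝ) : ℝ :=
  if 0 < r then Real.smoothTransition (2 + Real.log r / ((n : ℝ) + 1)) else 0

theorem Cutoff_pos (n : ℕ) : (0 : ℝ) < (n : ℝ) + 1 := by positivity

theorem Cutoff_lam_of_pos {n : ℕ} {r : ℝ} (hr : 0 < r) :
    Cutoff_lam n r = Real.smoothTransition (2 + Real.log r / ((n : ℝ) + 1)) := by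
  unfold Cutoff_lam
  rw [if_pos hr]

theorem Cutoff_lam_zero {n : ℕ} {r : ℝ} (hr : r < Real.exp (-(2 * ((n : ℝ) + 1)))) :
    Cutoff_lam n r = 0 := by
  by_cases h : 0 < r
  · rw [Cutoff_lam_of_pos h]
    apply Real.smoothTransition.zero_of_nonpos
    have h1 : Real.log r < -(2 * ((n : ℝ) + 1)) := (Real.log_lt_iff_lt_exp h).2 hr
    have h2 : Real.log r / ((n : ℝ) + 1) ≤ -2 := by
      rw [div_le_iff₀ (Cutoff_pos n)]
      linarith
    linarith
  · unfold Cutoff_lam
    rw [if_neg h]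

theorem Cutoff_lam_one {n : ℕ} {r : ℝ} (hr : Real.exp (-(n : ℝ) - 1) ≤ r) :
    Cutoff_lam n r = 1 := by
  have h : 0 < r := lt_of_lt_of_le (Real.exp_pos _) hr
  rw [Cutoff_lam_of_pos h]
  apply Real.smoothTransition.one_of_one_le
  have h1 : -(n : ℝ) - 1 ≤ Real.log r := (Real.le_log_iff_exp_le h).2 hr
  have h2 : -1 ≤ Real.log r / ((n : ℝ) + 1) := by
    rw [le_div_iff₀ (Cutoff_pos n)]
    linarith
  linarith

theorem Cutoff_lam_mem (n : ℕ) (r : ℝ) : 0 ≤ Cutoff_lam n r ∧ Cutoff_lam n r ≤ 1 := by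
  unfold Cutoff_lam
  split_ifs
  · exact ⟨Real.smoothTransition.nonneg _, Real.smoothTransition.le_one _⟩
  · exact ⟨le_refl _, zero_le_one⟩

theorem Cutoff_lam_mono (n : ℕ) : Monotone (Cutoff_lam n) := by
  intro a b hab
  by_cases ha : 0 < a
  · have hb : 0 < b := lt_of_lt_of_le ha hab
    rw [Cutoff_lam_of_pos ha, Cutoff_lam_of_pos hb]
    apply Real.smoothTransition.monotone
    have h1 := Real.log_le_log ha hab
    have h2 := Cutoff_pos n
    have h3 : Real.log a / ((n : ℝ) + 1) ≤ Real.log b / ((n : ℝ) + 1) := by gcongr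
    linarith
  · have h0 : Cutoff_lam n a = 0 := by
      unfold Cutoff_lam
      rw [if_neg ha]
    rw [h0]
    exact (Cutoff_lam_mem n b).1

theorem Cutoff_lam_ev_pos {n : ℕ} {r : ℝ} (hr : 0 < r) :
    Cutoff_lam n =ᶠ[𝓝 r] fun x => Real.smoothTransition (2 + Real.log x / ((n : ℝ) + 1)) := by
  filter_upwards [lt_mem_nhds hr] with x hx
  exact Cutoff_lam_of_pos hx

theorem Cutoff_st_contDiff : ContDiff ℝ 1 Real.smoothTransition := by
  have h := @Real.smoothTransition.contDiff 1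
  exact_mod_cast h

theorem Cutoff_lam_contDiffAt (n : ℕ) (r : ℝ) : ContDiffAt ℝ 1 (Cutoff_lam n) r := by
  by_cases hr : 0 < r
  · refine ContDiffAt.congr_of_eventuallyEq ?_ (Cutoff_lam_ev_pos hr)
    refine Cutoff_st_contDiff.contDiffAt.comp r ?_
    refine contDiffAt_const.add ?_
    exact (contDiffAt_id.log hr.ne').div_const _
  · have h1 : r < Real.exp (-(2 * ((n : ℝ) + 1))) :=
      lt_of_le_of_lt (not_lt.1 hr) (Real.exp_pos _)
    have h2 : Cutoff_lam n =ᶠ[𝓝 r] fun _ => 0 := by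
      filter_upwards [gt_mem_nhds h1] with x hx
      exact Cutoff_lam_zero hx
    exact contDiffAt_const.congr_of_eventuallyEq h2

theorem Cutoff_lam_contDiff (n : ℕ) : ContDiff ℝ 1 (Cutoff_lam n) :=
  contDiff_iff_contDiffAt.2 (Cutoff_lam_contDiffAt n)

theorem Cutoff_lam_norm_contDiff (n : ℕ) : ContDiff ℝ 1 (fun y : ℂ => Cutoff_lam n ‖y‖) := by
  rw [contDiff_iff_contDiffAt]
  intro y
  by_cases hy : y = 0
  · have h2 : (fun y : ℂ => Cutoff_lam n ‖y‖) =ᶠ[𝓝 y] fun _ => 0 := by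
      have h3 : {z : ℂ | ‖z‖ < Real.exp (-(2 * ((n : ℝ) + 1)))} ∈ 𝓝 y := by
        apply IsOpen.mem_nhds (isOpen_lt continuous_norm continuous_const)
        rw [hy]
        change ‖(0 : ℂ)‖ < _
        rw [norm_zero]
        exact Real.exp_pos _
      filter_upwards [h3] with z hz
      exact Cutoff_lam_zero hz
    exact contDiffAt_const.congr_of_eventuallyEq h2
  · exact (Cutoff_lam_contDiffAt n ‖y‖).comp y (contDiffAt_norm ℝ hy)

theorem Cutoff_deriv_nonneg (n : ℕ) (r : ℝ) : 0 ≤ deriv (Cutoff_lam n) r :=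
  (Cutoff_lam_mono n).deriv_nonneg

theorem Cutoff_st_bound : ∃ K : ℝ, 0 ≤ K ∧ ∀ t, deriv Real.smoothTransition t ≤ K := by
  have hc : Continuous (deriv Real.smoothTransition) :=
    Cutoff_st_contDiff.continuous_deriv le_rfl
  obtain ⟨C, hC⟩ := (isCompact_Icc (a := (0 : ℝ)) (b := 1)).exists_bound_of_continuousOn
    hc.continuousOn
  have h0 : 0 ≤ C := le_trans (norm_nonneg _) (hC 0 ⟨le_refl _, zero_le_one⟩)
  refine ⟨C, h0, fun t => ?_⟩
  by_cases ht : t ∈ Set.Icc (0 : ℝ) 1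
  · exact le_trans (le_abs_self _) (hC t ht)
  · have h : deriv Real.smoothTransition t = 0 := by
      by_cases h1 : t < 0
      · have h2 : Real.smoothTransition =ᶠ[𝓝 t] fun _ => 0 := by
          filter_upwards [gt_mem_nhds h1] with x hx
          exact Real.smoothTransition.zero_of_nonpos hx.le
        rw [h2.deriv_eq, deriv_const]
      · have h3 : 1 < t := by
          by_contra h4
          exact ht ⟨not_lt.1 h1, not_lt.1 h4⟩
        have h2 : Real.smoothTransition =ᶠ[𝓝 t] fun _ => 1 := by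
          filter_upwards [lt_mem_nhds h3] with x hx
          exact Real.smoothTransition.one_of_one_le hx.le
        rw [h2.deriv_eq, deriv_const]
    rw [h]
    exact h0

theorem Cutoff_deriv_le {K : ℝ} (hK : ∀ t, deriv Real.smoothTransition t ≤ K) (n : ℕ) (r : ℝ)
    (hr : 0 < r) : deriv (Cutoff_lam n) r ≤ K / (((n : ℝ) + 1) * r) := by
  rw [(Cutoff_lam_ev_pos hr).deriv_eq]
  have h1 : HasDerivAt (fun x => 2 + Real.log x / ((n : ℝ) + 1)) (r⁻¹ / ((n : ℝ) + 1)) r :=
    ((Real.hasDerivAt_log hr.ne').div_const _).const_add 2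
  have h2 : HasDerivAt Real.smoothTransition
      (deriv Real.smoothTransition (2 + Real.log r / ((n : ℝ) + 1)))
      (2 + Real.log r / ((n : ℝ) + 1)) :=
    ((Cutoff_st_contDiff.differentiable one_ne_zero) _).hasDerivAt
  have h3 := (HasDerivAt.comp r h2 h1).deriv
  have h4 : deriv (fun x => Real.smoothTransition (2 + Real.log x / ((n : ℝ) + 1))) r =
      deriv Real.smoothTransition (2 + Real.log r / ((n : ℝ) + 1)) * (r⁻¹ / ((n : ℝ) + 1)) := h3
  rw [h4]
  have h5 : K / (((n : ℝ) + 1) * r) = K * (r⁻¹ / ((n : ℝ) + 1)) := by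
    have := Cutoff_pos n
    field_simp
  rw [h5]
  have h6 := Cutoff_pos n
  exact mul_le_mul_of_nonneg_right (hK _) (by positivity)

/-- the derivative vanishes outside a compact set -/
theorem Cutoff_deriv_zero (n : ℕ) {r : ℝ} (hr : 1 < r) : deriv (Cutoff_lam n) r = 0 := by
  have h2 : Cutoff_lam n =ᶠ[𝓝 r] fun _ => 1 := by
    filter_upwards [lt_mem_nhds hr] with x hx
    apply Cutoff_lam_one
    refine le_trans ?_ hx.le
    rw [Real.exp_le_one_iff]
    have := Cutoff_pos n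
    linarith
  rw [h2.deriv_eq, deriv_const]

theorem Cutoff_fderiv_norm_le (n : ℕ) (y : ℂ) :
    ‖fderiv ℝ (fun y : ℂ => Cutoff_lam n ‖y‖) y‖ ≤ deriv (Cutoff_lam n) ‖y‖ := by
  by_cases hy : y = 0
  · have h2 : (fun y : ℂ => Cutoff_lam n ‖y‖) =ᶠ[𝓝 y] fun _ => 0 := by
      have h3 : {z : ℂ | ‖z‖ < Real.exp (-(2 * ((n : ℝ) + 1)))} ∈ 𝓝 y := by
        apply IsOpen.mem_nhds (isOpen_lt continuous_norm continuous_const)
        rw [hy]
        change ‖(0 : ℂ)‖ < _
        rw [norm_zero]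
        exact Real.exp_pos _
      filter_upwards [h3] with z hz
      exact Cutoff_lam_zero hz
    rw [h2.fderiv_eq, fderiv_fun_const]
    simpa using Cutoff_deriv_nonneg n ‖y‖
  · have h1 : HasDerivAt (Cutoff_lam n) (deriv (Cutoff_lam n) ‖y‖) ‖y‖ :=
      (((Cutoff_lam_contDiff n).differentiable one_ne_zero) _).hasDerivAt
    have h2 : DifferentiableAt ℝ (fun y : ℂ => ‖y‖) y :=
      (contDiffAt_norm ℝ hy (n := 1)).differentiableAt one_ne_zero
    have h3 : HasFDerivAt (fun y : ℂ => Cutoff_lam n ‖y‖)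
        (deriv (Cutoff_lam n) ‖y‖ • fderiv ℝ (fun y : ℂ => ‖y‖) y) y :=
      h1.comp_hasFDerivAt y h2.hasFDerivAt
    rw [h3.fderiv, norm_smul, Real.norm_eq_abs, abs_of_nonneg (Cutoff_deriv_nonneg n _)]
    have h4 : ‖fderiv ℝ (fun y : ℂ => ‖y‖) y‖ ≤ 1 := by
      have h5 : LipschitzWith 1 (fun y : ℂ => ‖y‖) := lipschitzWith_one_norm
      simpa using norm_fderiv_le_of_lipschitz ℝ h5 (x₀ := y)
    exact mul_le_of_le_one_right (Cutoff_deriv_nonneg n _) h4

theorem Cutoff_energy_integrable (n : ℕ) :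
    Integrable (fun y : ℂ => deriv (Cutoff_lam n) ‖y‖ ^ 2) := by
  apply Continuous.integrable_of_hasCompactSupport
  · exact (((Cutoff_lam_contDiff n).continuous_deriv le_rfl).comp continuous_norm).pow 2
  · apply HasCompactSupport.intro (isCompact_closedBall (0 : ℂ) 1)
    intro x hx
    have h : 1 < ‖x‖ := by
      by_contra h
      apply hx
      rw [mem_closedBall_zero_iff]
      exact not_lt.1 h
    rw [Cutoff_deriv_zero n h]
    norm_num

theorem Cutoff_energy_le {K : ℝ} (hK0 : 0 ≤ K) (hK : ∀ t, deriv Real.smoothTransition t ≤ K)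
    (n : ℕ) :
    ∫ y : ℂ, deriv (Cutoff_lam n) ‖y‖ ^ 2 ≤
      2 * (volume.real (Metric.ball (0 : ℂ) 1) * (K / ((n : ℝ) + 1))) := by
  have hcont : Continuous (deriv (Cutoff_lam n)) :=
    (Cutoff_lam_contDiff n).continuous_deriv le_rfl
  have h1 := integral_fun_norm_addHaar (volume : Measure ℂ)
    (fun r : ℝ => deriv (Cutoff_lam n) r ^ 2)
  rw [h1, Complex.finrank_real_complex, nsmul_eq_mul, smul_eq_mul]
  have hint : Integrable (deriv (Cutoff_lam n)) := by
    apply hcont.integrable_of_hasCompactSupport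
    apply HasCompactSupport.intro (isCompact_Icc (a := (0 : ℝ)) (b := 1))
    intro x hx
    by_cases h : 1 < x
    · exact Cutoff_deriv_zero n h
    · have h0 : x < 0 := by
        by_contra h0
        exact hx ⟨not_lt.1 h0, not_lt.1 h⟩
      have h2 : Cutoff_lam n =ᶠ[𝓝 x] fun _ => 0 := by
        filter_upwards [gt_mem_nhds h0] with z hz
        unfold Cutoff_lam
        rw [if_neg (not_lt.2 hz.le)]
      rw [h2.deriv_eq, deriv_const]
  have hle : ∫ y in Set.Ioi (0 : ℝ), y ^ (2 - 1) • deriv (Cutoff_lam n) y ^ 2 ≤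
      K / ((n : ℝ) + 1) := by
    have h2 : ∫ y in Set.Ioi (0 : ℝ), y ^ (2 - 1) • deriv (Cutoff_lam n) y ^ 2 ≤
        ∫ y in Set.Ioi (0 : ℝ), K / ((n : ℝ) + 1) * deriv (Cutoff_lam n) y := by
      apply setIntegral_mono_on
      · have h3 : Integrable (fun y : ℝ => y ^ (2 - 1) • deriv (Cutoff_lam n) y ^ 2) := by
          apply Continuous.integrable_of_hasCompactSupport
          · exact (continuous_id.pow _).smul (hcont.pow 2)
          · apply HasCompactSupport.intro (isCompact_Icc (a := (0 : ℝ)) (b := 1))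
            intro x hx
            have h4 : deriv (Cutoff_lam n) x = 0 := by
              by_cases h : 1 < x
              · exact Cutoff_deriv_zero n h
              · have h0 : x < 0 := by
                  by_contra h0
                  exact hx ⟨not_lt.1 h0, not_lt.1 h⟩
                have h2 : Cutoff_lam n =ᶠ[𝓝 x] fun _ => 0 := by
                  filter_upwards [gt_mem_nhds h0] with z hz
                  unfold Cutoff_lam
                  rw [if_neg (not_lt.2 hz.le)]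
                rw [h2.deriv_eq, deriv_const]
            rw [h4]
            simp
        exact h3.integrableOn
      · exact (hint.const_mul _).integrableOn
      · exact measurableSet_Ioi
      · intro y hy
        have hy0 : (0 : ℝ) < y := hy
        have h5 := Cutoff_deriv_le hK n y hy0
        have h6 := Cutoff_deriv_nonneg n y
        have h7 := Cutoff_pos n
        have h8 : y * deriv (Cutoff_lam n) y ≤ K / ((n : ℝ) + 1) := by
          calc y * deriv (Cutoff_lam n) y ≤ y * (K / (((n : ℝ) + 1) * y)) :=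
                mul_le_mul_of_nonneg_left h5 hy0.le
            _ = K / ((n : ℝ) + 1) := by field_simp
        calc y ^ (2 - 1) • deriv (Cutoff_lam n) y ^ 2
            = (y * deriv (Cutoff_lam n) y) * deriv (Cutoff_lam n) y := by
              simp only [smul_eq_mul, Nat.add_one_sub_one, pow_one]
              ring
          _ ≤ K / ((n : ℝ) + 1) * deriv (Cutoff_lam n) y :=
              mul_le_mul_of_nonneg_right h8 h6
    refine h2.trans ?_
    rw [integral_const_mul]
    have h7 := Cutoff_pos n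
    have h9 : 0 ≤ K / ((n : ℝ) + 1) := by positivity
    have h10 : ∫ y in Set.Ioi (0 : ℝ), deriv (Cutoff_lam n) y = 1 := by
      have h11 : Tendsto (Cutoff_lam n) atTop (𝓝 1) := by
        apply tendsto_const_nhds.congr'
        filter_upwards [eventually_ge_atTop (Real.exp (-(n : ℝ) - 1))] with r hr
        exact (Cutoff_lam_one hr).symm
      have h12 := integral_Ioi_of_hasDerivAt_of_tendsto' (a := (0 : ℝ)) (f := Cutoff_lam n)
        (f' := deriv (Cutoff_lam n)) (m := 1)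
        (fun x _ => (((Cutoff_lam_contDiff n).differentiable one_ne_zero) x).hasDerivAt)
        hint.integrableOn h11
      rw [h12, Cutoff_lam_zero (Real.exp_pos _), sub_zero]
    rw [h10, mul_one]
  have hV : 0 ≤ volume.real (Metric.ball (0 : ℂ) 1) := measureReal_nonneg
  have := mul_le_mul_of_nonneg_left hle hV
  push_cast
  linarith

theorem exists_cutoffs (S : Set ℂ) (hS : S.Finite) : ∃ c : ℕ → ℂ → ℝ,
    (∀ n, ContDiff ℝ 1 (c n)) ∧ (∀ n y, 0 ≤ c n y ∧ c n y ≤ 1) ∧
    (∀ n, ∃ δ > 0, ∀ s ∈ S, ∀ y, dist y s < δ → c n y = 0) ∧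
    (∀ y ∉ S, ∀ᶠ n in atTop, c n y = 1) ∧
    (∀ n, Integrable (fun y => ‖fderiv ℝ (c n) y‖ ^ 2)) ∧
    Tendsto (fun n => ∫ y, ‖fderiv ℝ (c n) y‖ ^ 2) atTop (𝓝 0) := by
  obtain ⟨K, hK0, hK⟩ := Cutoff_st_bound
  have hsub : ∀ (n : ℕ) (s : ℂ), ContDiff ℝ 1 (fun y : ℂ => Cutoff_lam n ‖y - s‖) := by
    intro n s
    exact (Cutoff_lam_norm_contDiff n).comp (contDiff_id.sub contDiff_const)
  have hfd : ∀ (n : ℕ) (s y : ℂ), ‖fderiv ℝ (fun y : ℂ => Cutoff_lam n ‖y - s‖) y‖ ≤
      deriv (Cutoff_lam n) ‖y - s‖ := by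
    intro n s y
    have h1 : fderiv ℝ (fun y : ℂ => Cutoff_lam n ‖y - s‖) y =
        fderiv ℝ (fun y : ℂ => Cutoff_lam n ‖y‖) (y - s) := by
      have h2 := fderiv_comp_add_right (𝕜 := ℝ) (f := fun y : ℂ => Cutoff_lam n ‖y‖) (x := y) (-s)
      simpa only [← sub_eq_add_neg] using h2
    rw [h1]
    exact Cutoff_fderiv_norm_le n (y - s)
  have hC1 : ∀ n : ℕ, ContDiff ℝ 1 (fun y : ℂ => ∏ s ∈ hS.toFinset, Cutoff_lam n ‖y - s‖) := by
    intro n
    exact contDiff_prod fun s _ => hsub n s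
  have hgrad : ∀ (n : ℕ) (y : ℂ),
      ‖fderiv ℝ (fun y : ℂ => ∏ s ∈ hS.toFinset, Cutoff_lam n ‖y - s‖) y‖ ≤
        ∑ s ∈ hS.toFinset, deriv (Cutoff_lam n) ‖y - s‖ := by
    intro n y
    have h1 : HasFDerivAt (fun y : ℂ => ∏ s ∈ hS.toFinset, Cutoff_lam n ‖y - s‖)
        (∑ s ∈ hS.toFinset, (∏ t ∈ hS.toFinset.erase s, Cutoff_lam n ‖y - t‖) •
          fderiv ℝ (fun y : ℂ => Cutoff_lam n ‖y - s‖) y) y := by
      apply HasFDerivAt.finsetProd
      intro s _
      exact (((hsub n s).differentiable one_ne_zero) y).hasFDerivAt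
    rw [h1.fderiv]
    refine (norm_sum_le _ _).trans (Finset.sum_le_sum fun s _ => ?_)
    rw [norm_smul, Real.norm_eq_abs,
      abs_of_nonneg (Finset.prod_nonneg fun t _ => (Cutoff_lam_mem n _).1)]
    have h2 : ∏ t ∈ hS.toFinset.erase s, Cutoff_lam n ‖y - t‖ ≤ 1 :=
      Finset.prod_le_one (fun t _ => (Cutoff_lam_mem n _).1) fun t _ => (Cutoff_lam_mem n _).2
    refine le_trans (mul_le_of_le_one_left (norm_nonneg _) h2) (hfd n s y)
  have hsq : ∀ (n : ℕ) (y : ℂ),
      ‖fderiv ℝ (fun y : ℂ => ∏ s ∈ hS.toFinset, Cutoff_lam n ‖y - s‖) y‖ ^ 2 ≤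
        (hS.toFinset.card : ℝ) * ∑ s ∈ hS.toFinset, deriv (Cutoff_lam n) ‖y - s‖ ^ 2 := by
    intro n y
    calc _ ≤ (∑ s ∈ hS.toFinset, deriv (Cutoff_lam n) ‖y - s‖) ^ 2 :=
          pow_le_pow_left₀ (norm_nonneg _) (hgrad n y) 2
      _ ≤ _ := sq_sum_le_card_mul_sum_sq
  have hIntS : ∀ (n : ℕ) (s : ℂ), Integrable (fun y : ℂ => deriv (Cutoff_lam n) ‖y - s‖ ^ 2) := by
    intro n s
    exact (Cutoff_energy_integrable n).comp_sub_right s
  have hIntSum : ∀ n : ℕ, Integrable (fun y : ℂ =>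
      (hS.toFinset.card : ℝ) * ∑ s ∈ hS.toFinset, deriv (Cutoff_lam n) ‖y - s‖ ^ 2) := by
    intro n
    exact (integrable_finsetSum _ fun s _ => hIntS n s).const_mul _
  have hInt : ∀ n : ℕ, Integrable (fun y : ℂ =>
      ‖fderiv ℝ (fun y : ℂ => ∏ s ∈ hS.toFinset, Cutoff_lam n ‖y - s‖) y‖ ^ 2) := by
    intro n
    refine (hIntSum n).mono' ?_ ?_
    · exact (((hC1 n).continuous_fderiv one_ne_zero).norm.pow 2).aestronglyMeasurable
    · refine Eventually.of_forall fun y => ?_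
      rw [Real.norm_eq_abs, abs_of_nonneg (by positivity)]
      exact hsq n y
  have hbd : ∀ n : ℕ, ∫ y : ℂ,
      ‖fderiv ℝ (fun y : ℂ => ∏ s ∈ hS.toFinset, Cutoff_lam n ‖y - s‖) y‖ ^ 2 ≤
      (hS.toFinset.card : ℝ) * ((hS.toFinset.card : ℝ) *
        (2 * (volume.real (Metric.ball (0 : ℂ) 1) * (K / ((n : ℝ) + 1))))) := by
    intro n
    calc _ ≤ ∫ y : ℂ, (hS.toFinset.card : ℝ) *
          ∑ s ∈ hS.toFinset, deriv (Cutoff_lam n) ‖y - s‖ ^ 2 :=
          integral_mono (hInt n) (hIntSum n) (hsq n)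
      _ = (hS.toFinset.card : ℝ) *
          ∑ s ∈ hS.toFinset, ∫ y : ℂ, deriv (Cutoff_lam n) ‖y - s‖ ^ 2 := by
          rw [integral_const_mul, integral_finsetSum _ fun s _ => hIntS n s]
      _ ≤ _ := by
          apply mul_le_mul_of_nonneg_left _ (Nat.cast_nonneg _)
          calc ∑ s ∈ hS.toFinset, ∫ y : ℂ, deriv (Cutoff_lam n) ‖y - s‖ ^ 2
              ≤ ∑ s ∈ hS.toFinset,
                (2 * (volume.real (Metric.ball (0 : ℂ) 1) * (K / ((n : ℝ) + 1)))) := by
                apply Finset.sum_le_sum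
                intro s _
                rw [integral_sub_right_eq_self (fun y : ℂ => deriv (Cutoff_lam n) ‖y‖ ^ 2) s]
                exact Cutoff_energy_le hK0 hK n
            _ = _ := by rw [Finset.sum_const, nsmul_eq_mul]
  refine ⟨fun n y => ∏ s ∈ hS.toFinset, Cutoff_lam n ‖y - s‖, hC1, ?_, ?_, ?_, hInt, ?_⟩
  · intro n y
    exact ⟨Finset.prod_nonneg fun t _ => (Cutoff_lam_mem n _).1,
      Finset.prod_le_one (fun t _ => (Cutoff_lam_mem n _).1) fun t _ => (Cutoff_lam_mem n _).2⟩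
  · intro n
    refine ⟨Real.exp (-(2 * ((n : ℝ) + 1))), Real.exp_pos _, fun s hs y hy => ?_⟩
    apply Finset.prod_eq_zero (hS.mem_toFinset.2 hs)
    apply Cutoff_lam_zero
    rw [← dist_eq_norm]
    exact hy
  · intro y hy
    have h1 : ∀ s ∈ hS.toFinset, ∀ᶠ n : ℕ in atTop, Cutoff_lam n ‖y - s‖ = 1 := by
      intro s hs
      have h2 : 0 < ‖y - s‖ := by
        rw [norm_pos_iff, sub_ne_zero]
        rintro rfl
        exact hy (hS.mem_toFinset.1 hs)
      have h3 : Tendsto (fun n : ℕ => Real.exp (-(n : ℝ) - 1)) atTop (𝓝 0) := by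
        apply Real.tendsto_exp_atBot.comp
        apply Filter.tendsto_atBot_add_const_right
        exact tendsto_neg_atTop_atBot.comp tendsto_natCast_atTop_atTop
      filter_upwards [h3.eventually (gt_mem_nhds h2)] with n hn
      exact Cutoff_lam_one hn.le
    have h4 := (Filter.eventually_all_finset hS.toFinset).2 h1
    filter_upwards [h4] with n hn
    exact Finset.prod_eq_one hn
  · have h1 : Tendsto (fun n : ℕ => (hS.toFinset.card : ℝ) * ((hS.toFinset.card : ℝ) *
        (2 * (volume.real (Metric.ball (0 : ℂ) 1) * (K / ((n : ℝ) + 1)))))) atTop (𝓝 0) := by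
      have h2 : Tendsto (fun n : ℕ => K / ((n : ℝ) + 1)) atTop (𝓝 0) :=
        tendsto_const_nhds.div_atTop
          (tendsto_atTop_add_const_right _ _ tendsto_natCast_atTop_atTop)
      have h3 := (((h2.const_mul (volume.real (Metric.ball (0 : ℂ) 1))).const_mul 2).const_mul
        (hS.toFinset.card : ℝ)).const_mul (hS.toFinset.card : ℝ)
      simpa using h3
    refine squeeze_zero (fun n => integral_nonneg fun y => by positivity) hbd h1

/-- radial cutoffs: near `0` only, with explicit radial profile -/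
theorem exists_radial_cutoffs : ∃ (lam : ℕ → ℝ → ℝ) (K : ℝ),
    (∀ n : ℕ, ContDiff ℝ 1 (fun y : ℂ => lam n ‖y‖)) ∧ (∀ n : ℕ, ContDiff ℝ 1 (lam n)) ∧
    (∀ (n : ℕ) (r : ℝ), 0 ≤ lam n r ∧ lam n r ≤ 1) ∧
    (∀ (n : ℕ) (r : ℝ), 0 ≤ deriv (lam n) r) ∧
    (∀ n : ℕ, ∃ δ > 0, ∀ r : ℝ, r < δ → lam n r = 0) ∧
    (∀ (n : ℕ) (r : ℝ), Real.exp (-(n : ℝ) - 1) ≤ r → lam n r = 1) ∧
    (∀ (n : ℕ) (r : ℝ), 0 < r → deriv (lam n) r ≤ K / ((n + 1) * r)) := by
  obtain ⟨K, hK0, hK⟩ := Cutoff_st_bound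
  refine ⟨Cutoff_lam, K, Cutoff_lam_norm_contDiff, Cutoff_lam_contDiff, Cutoff_lam_mem,
    Cutoff_deriv_nonneg, fun n => ⟨Real.exp (-(2 * ((n : ℝ) + 1))), Real.exp_pos _,
      fun r hr => Cutoff_lam_zero hr⟩, fun n r hr => Cutoff_lam_one hr,
    fun n r hr => Cutoff_deriv_le hK n r hr⟩

end Pool.Agent.OBT
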