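import Mathlib
import Pool.Agent.OBT.Quo

/-!
# Green's formula on a triangle
-/

open scoped ComplexConjugate Topology
open MeasureTheory

namespace Pool.Agent.OBT

noncomputable section

variable {v : Fin 3 → ℂ}

/-- the cross product -/
def cross (h e : ℂ) : ℝ := h.re * e.im - h.im * e.re

/-- the standard simplex -/
def Green_S : Set (ℝ × ℝ) := {p | 0 ≤ p.1 ∧ 0 ≤ p.2 ∧ p.1 + p.2 ≤ 1}

/-- the triangle with vertex `v0` and edges `a`, `b` -/
def Green_K (v0 a b : ℂ) : Set ℂ :=
  {z | ∃ s t : ℝ, 0 ≤ s ∧ 0 ≤ t ∧ s + t ≤ 1 ∧ z = v0 + s * a + t * b}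

theorem Green_S_closed : IsClosed Green_S := by
  have h : Green_S = {p : ℝ × ℝ | 0 ≤ p.1} ∩ ({p : ℝ × ℝ | 0 ≤ p.2} ∩
      {p : ℝ × ℝ | p.1 + p.2 ≤ 1}) := by
    ext p; rfl
  rw [h]
  refine IsClosed.inter (isClosed_le continuous_const continuous_fst)
    (IsClosed.inter (isClosed_le continuous_const continuous_snd)
    (isClosed_le (continuous_fst.add continuous_snd) continuous_const))

theorem Green_S_compact : IsCompact Green_S := by
  refine IsCompact.of_isClosed_subset (isCompact_Icc (a := ((0, 0) : ℝ × ℝ)) (b := (1, 1)))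
    Green_S_closed ?_
  rintro ⟨x, y⟩ ⟨h1, h2, h3⟩
  simp only at h1 h2 h3
  exact ⟨⟨h1, h2⟩, ⟨by simp only; linarith, by simp only; linarith⟩⟩

theorem Green_fubini (g : ℝ × ℝ → ℂ) (hg : ContinuousOn g Green_S) :
    ∫ p in Green_S, g p = ∫ x in (0 : ℝ)..1, ∫ y in (0 : ℝ)..(1 - x), g (x, y) := by
  have hint : IntegrableOn g Green_S := hg.integrableOn_compact Green_S_compact
  have hm : MeasurableSet Green_S := Green_S_closed.measurableSet
  rw [← integral_indicator hm, Measure.volume_eq_prod, integral_prod]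
  · have h1 : ∀ x : ℝ, ∫ y, Green_S.indicator g (x, y) =
        (Set.Icc (0 : ℝ) 1).indicator (fun x => ∫ y in (0 : ℝ)..(1 - x), g (x, y)) x := by
      intro x
      by_cases hx : x ∈ Set.Icc (0 : ℝ) 1
      · rw [Set.indicator_of_mem hx, intervalIntegral.integral_of_le (by linarith [hx.2]),
          ← integral_Icc_eq_integral_Ioc, ← integral_indicator measurableSet_Icc]
        congr 1
        ext y
        by_cases hy : y ∈ Set.Icc (0 : ℝ) (1 - x)
        · rw [Set.indicator_of_mem hy, Set.indicator_of_mem]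
          exact ⟨hx.1, hy.1, by simp only; linarith [hy.2]⟩
        · rw [Set.indicator_of_notMem hy, Set.indicator_of_notMem]
          rintro ⟨_, h2, h3⟩
          simp only at h2 h3
          exact hy ⟨h2, by linarith⟩
      · rw [Set.indicator_of_notMem hx]
        have : ∀ y, Green_S.indicator g (x, y) = 0 := by
          intro y
          rw [Set.indicator_of_notMem]
          rintro ⟨h1, h2, h3⟩
          simp only at h1 h2 h3
          exact hx ⟨h1, by linarith⟩
        simp only [this, integral_zero]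
    simp only [h1]
    rw [integral_indicator measurableSet_Icc, integral_Icc_eq_integral_Ioc,
      ← intervalIntegral.integral_of_le zero_le_one]
  · rw [← Measure.volume_eq_prod]
    exact hint.integrable_indicator hm

/-- the linear part of the parametrisation -/
def Green_L (a b : ℂ) : ℂ →L[ℝ] ℂ :=
  (Complex.reCLM.smulRight a) + (Complex.imCLM.smulRight b)

theorem Green_L_apply (a b z : ℂ) : Green_L a b z = z.re * a + z.im * b := by
  simp [Green_L]

theorem Green_L_det (a b : ℂ) : (Green_L a b).det = cross a b := by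
  have h1 : (Green_L a b).det = LinearMap.det (Green_L a b : ℂ →ₗ[ℝ] ℂ) := rfl
  rw [h1, ← LinearMap.det_toMatrix Complex.basisOneI, Matrix.det_fin_two]
  simp [LinearMap.toMatrix_apply, Complex.coe_basisOneI_repr, Complex.coe_basisOneI,
    Green_L_apply, cross]
  ring

theorem Green_cov (v0 a b : ℂ) (hD : cross a b ≠ 0) (g : ℂ → ℂ) :
    ∫ y in Green_K v0 a b, g y =
      ((|cross a b| : ℝ) : ℂ) * ∫ p in Green_S, g (v0 + (p.1 : ℝ) * a + (p.2 : ℝ) * b) := by
  set T : ℂ → ℂ := fun z => v0 + (z.re * a + z.im * b) with hT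
  set SC : Set ℂ := Complex.measurableEquivRealProd ⁻¹' Green_S with hSC
  have hmemSC : ∀ z : ℂ, z ∈ SC ↔ 0 ≤ z.re ∧ 0 ≤ z.im ∧ z.re + z.im ≤ 1 := by
    intro z; rfl
  have hK : Green_K v0 a b = T '' SC := by
    ext z
    constructor
    · rintro ⟨s, t, h1, h2, h3, rfl⟩
      refine ⟨⟨s, t⟩, (hmemSC _).mpr ⟨h1, h2, h3⟩, ?_⟩
      simp only [hT]
      ring
    · rintro ⟨z, hz, rfl⟩
      obtain ⟨h1, h2, h3⟩ := (hmemSC _).mp hz
      refine ⟨z.re, z.im, h1, h2, h3, ?_⟩
      simp only [hT]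
      ring
  have hder : ∀ z ∈ SC, HasFDerivWithinAt T (Green_L a b) SC z := by
    intro z _
    have h1 : T = fun z => v0 + Green_L a b z := by
      ext z; rw [Green_L_apply]
    rw [h1]
    exact ((Green_L a b).hasFDerivAt.const_add v0).hasFDerivWithinAt
  have hinj : Set.InjOn T SC := by
    intro z _ w _ hzw
    simp only [hT] at hzw
    have h1 : z.re * a + z.im * b = w.re * a + w.im * b := add_left_cancel hzw
    have h2 := congrArg Complex.re h1
    have h3 := congrArg Complex.im h1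
    simp at h2 h3
    have h4 : (z.re - w.re) * cross a b = 0 := by
      unfold cross
      linear_combination b.im * h2 - b.re * h3
    have h5 : (z.im - w.im) * cross a b = 0 := by
      unfold cross
      linear_combination a.re * h3 - a.im * h2
    have h6 := (mul_eq_zero.mp h4).resolve_right hD
    have h7 := (mul_eq_zero.mp h5).resolve_right hD
    exact Complex.ext (by linarith) (by linarith)
  have hmeas : MeasurableSet SC :=
    Complex.measurableEquivRealProd.measurable Green_S_closed.measurableSet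
  rw [hK, integral_image_eq_integral_abs_det_fderiv_smul volume hmeas hder hinj]
  simp only [Green_L_det]
  rw [integral_smul, Complex.real_smul]
  congr 1
  rw [← (Complex.volume_preserving_equiv_real_prod).setIntegral_preimage_emb
    Complex.measurableEquivRealProd.measurableEmbedding]
  refine integral_congr_ae (Filter.Eventually.of_forall fun z => ?_)
  change g (T z) = g (v0 + (z.re : ℂ) * a + (z.im : ℂ) * b)
  simp only [hT]
  congr 1
  ring

theorem Green_dir (v0 a b : ℂ) (hD : cross a b ≠ 0) (f : ℂ → ℂ) (f' : ℂ → ℂ →L[ℝ] ℂ)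
    (hf : ∀ y ∈ Green_K v0 a b, HasFDerivWithinAt f (f' y) (Green_K v0 a b) y)
    (hc : ContinuousOn f' (Green_K v0 a b)) :
    ∫ y in Green_K v0 a b, f' y b = ((|cross a b| : ℝ) : ℂ) *
      ((∫ s in (0 : ℝ)..1, f (v0 + s * a + (1 - s : ℝ) * b)) -
        ∫ s in (0 : ℝ)..1, f (v0 + s * a)) := by
  have hfc : ContinuousOn f (Green_K v0 a b) := fun y hy => (hf y hy).continuousWithinAt
  have hmaps : Set.MapsTo (fun p : ℝ × ℝ => v0 + (p.1 : ℝ) * a + (p.2 : ℝ) * b) Green_S
      (Green_K v0 a b) := by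
    rintro ⟨x, y⟩ ⟨h1, h2, h3⟩
    exact ⟨x, y, h1, h2, h3, rfl⟩
  have hcont : Continuous (fun p : ℝ × ℝ => v0 + ((p.1 : ℝ) : ℂ) * a + ((p.2 : ℝ) : ℂ) * b) := by
    fun_prop
  have hgc : ContinuousOn (fun p : ℝ × ℝ => f' (v0 + (p.1 : ℝ) * a + (p.2 : ℝ) * b) b)
      Green_S :=
    (hc.comp hcont.continuousOn hmaps).clm_apply continuousOn_const
  rw [Green_cov v0 a b hD, Green_fubini _ hgc]
  congr 1
  have hin : ∀ x ∈ Set.uIcc (0 : ℝ) 1,
      ∫ y in (0 : ℝ)..(1 - x), f' (v0 + (x : ℝ) * a + (y : ℝ) * b) b =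
        f (v0 + x * a + (1 - x : ℝ) * b) - f (v0 + x * a) := by
    intro x hx
    rw [Set.uIcc_of_le zero_le_one] at hx
    have hpath : ∀ y ∈ Set.Icc (0 : ℝ) (1 - x),
        HasDerivWithinAt (fun y : ℝ => f (v0 + (x : ℝ) * a + (y : ℝ) * b))
          (f' (v0 + (x : ℝ) * a + (y : ℝ) * b) b) (Set.Icc (0 : ℝ) (1 - x)) y := by
      intro y hy
      have hu : HasDerivWithinAt (fun y : ℝ => v0 + (x : ℝ) * a + (y : ℂ) * b) b
          (Set.Icc (0 : ℝ) (1 - x)) y := by
        have h1 : HasDerivAt (fun y : ℝ => (y : ℂ)) 1 y := Complex.ofRealCLM.hasDerivAt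
        have h2 := (h1.mul_const b).const_add (v0 + (x : ℝ) * a)
        rw [one_mul] at h2
        exact h2.hasDerivWithinAt
      have hmt : Set.MapsTo (fun y : ℝ => v0 + (x : ℝ) * a + (y : ℂ) * b)
          (Set.Icc (0 : ℝ) (1 - x)) (Green_K v0 a b) := by
        intro t ht
        exact ⟨x, t, hx.1, ht.1, by linarith [ht.2], rfl⟩
      exact (hf _ (hmt hy)).comp_hasDerivWithinAt y hu hmt
    have hci : ContinuousOn (fun y : ℝ => f' (v0 + (x : ℝ) * a + (y : ℝ) * b) b)
        (Set.Icc (0 : ℝ) (1 - x)) := by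
      have hcp : Continuous (fun y : ℝ => v0 + (x : ℂ) * a + (y : ℂ) * b) := by fun_prop
      have hmt : Set.MapsTo (fun y : ℝ => v0 + (x : ℂ) * a + (y : ℂ) * b)
          (Set.Icc (0 : ℝ) (1 - x)) (Green_K v0 a b) := by
        intro t ht
        exact ⟨x, t, hx.1, ht.1, by linarith [ht.2], rfl⟩
      have hcc : ContinuousOn (fun y : ℝ => f' (v0 + (x : ℂ) * a + (y : ℂ) * b))
          (Set.Icc (0 : ℝ) (1 - x)) := hc.comp hcp.continuousOn hmt
      exact hcc.clm_apply continuousOn_const
    rw [intervalIntegral.integral_eq_sub_of_hasDerivAt_of_le (by linarith [hx.2])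
      (fun y hy => (hpath y hy).continuousWithinAt)
      (fun y hy => (hpath y ⟨hy.1.le, hy.2.le⟩).hasDerivAt (Icc_mem_nhds hy.1 hy.2))]
    · simp
    · rw [intervalIntegrable_iff_integrableOn_Icc_of_le (by linarith [hx.2])]
      exact hci.integrableOn_compact isCompact_Icc
  rw [intervalIntegral.integral_congr hin, intervalIntegral.integral_sub]
  · refine ContinuousOn.intervalIntegrable ?_
    rw [Set.uIcc_of_le zero_le_one]
    have hc1 : ContinuousOn (fun s : ℝ => v0 + (s : ℂ) * a + ((1 - s : ℝ) : ℂ) * b)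
        (Set.Icc (0 : ℝ) 1) := by
      have : Continuous (fun s : ℝ => v0 + (s : ℂ) * a + ((1 - s : ℝ) : ℂ) * b) := by
        fun_prop
      exact this.continuousOn
    have hm1 : Set.MapsTo (fun s : ℝ => v0 + (s : ℂ) * a + ((1 - s : ℝ) : ℂ) * b)
        (Set.Icc (0 : ℝ) 1) (Green_K v0 a b) := by
      intro x hx
      exact ⟨x, 1 - x, hx.1, by linarith [hx.2], by linarith, rfl⟩
    exact hfc.comp hc1 hm1
  · refine ContinuousOn.intervalIntegrable ?_
    rw [Set.uIcc_of_le zero_le_one]
    have hc1 : ContinuousOn (fun s : ℝ => v0 + (s : ℂ) * a) (Set.Icc (0 : ℝ) 1) := by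
      have : Continuous (fun s : ℝ => v0 + (s : ℂ) * a) := by
        fun_prop
      exact this.continuousOn
    have hm1 : Set.MapsTo (fun s : ℝ => v0 + (s : ℂ) * a)
        (Set.Icc (0 : ℝ) 1) (Green_K v0 a b) := by
      intro x hx
      exact ⟨x, 0, hx.1, le_rfl, by linarith [hx.2], by simp⟩
    exact hfc.comp hc1 hm1

theorem Green_K_swap (v0 a b : ℂ) : Green_K v0 a b = Green_K v0 b a := by
  ext z
  constructor
  · rintro ⟨s, t, h1, h2, h3, rfl⟩
    exact ⟨t, s, h2, h1, by linarith, by ring⟩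
  · rintro ⟨s, t, h1, h2, h3, rfl⟩
    exact ⟨t, s, h2, h1, by linarith, by ring⟩

theorem Green_body (v : Fin 3 → ℂ) : body v = Green_K (v 0) (v 1 - v 0) (v 2 - v 0) := by
  apply Set.Subset.antisymm
  · refine convexHull_min ?_ ?_
    · rintro _ ⟨k, rfl⟩
      fin_cases k
      · exact ⟨0, 0, le_rfl, le_rfl, by norm_num, by simp⟩
      · exact ⟨1, 0, zero_le_one, le_rfl, by norm_num, by simp⟩
      · exact ⟨0, 1, le_rfl, zero_le_one, by norm_num, by simp⟩
    · rintro _ ⟨s, t, h1, h2, h3, rfl⟩ _ ⟨s', t', h1', h2', h3', rfl⟩ p q hp hq hpq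
      refine ⟨p * s + q * s', p * t + q * t', by positivity, by positivity, ?_, ?_⟩
      · have e1 : p * s + q * s' + (p * t + q * t') = p * (s + t) + q * (s' + t') := by ring
        rw [e1]
        calc p * (s + t) + q * (s' + t') ≤ p * 1 + q * 1 := by gcongr
          _ = 1 := by linarith
      · have e2 : (p : ℂ) + q = 1 := by exact_mod_cast hpq
        simp only [Complex.real_smul]
        push_cast
        linear_combination (v 0) * e2
  · rintro _ ⟨s, t, h1, h2, h3, rfl⟩
    have hc : Convex ℝ (body v) := convex_convexHull ℝ _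
    have hm : ∀ k, v k ∈ body v := fun k => subset_convexHull ℝ _ ⟨k, rfl⟩
    have := hc.sum_mem (t := Finset.univ) (w := ![1 - s - t, s, t]) (z := v) ?_ ?_
      (fun i _ => hm i)
    · rw [Fin.sum_univ_three] at this
      convert this using 1
      simp
      ring
    · intro i _
      fin_cases i
      · simp; linarith
      · simpa using h1
      · simpa using h2
    · rw [Fin.sum_univ_three]
      simp only [Matrix.cons_val]
      ring

theorem Green_core (v : Fin 3 → ℂ) (hD : cross (v 1 - v 0) (v 2 - v 0) ≠ 0) (f : ℂ → ℂ)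
    (f' : ℂ → ℂ →L[ℝ] ℂ) (hf : ∀ y ∈ body v, HasFDerivWithinAt f (f' y) (body v) y)
    (hc : ContinuousOn f' (body v)) (h : ℂ) :
    ∫ y in body v, f' y h =
      ((|cross (v 1 - v 0) (v 2 - v 0)| / cross (v 1 - v 0) (v 2 - v 0) : ℝ) : ℂ) *
      ∑ k : Fin 3, (cross h (v (k + 2) - v (k + 1)) : ℂ) *
      ∫ t in (0 : ℝ)..1, f (v (k + 1) + t * (v (k + 2) - v (k + 1))) := by
  set a := v 1 - v 0 with ha
  set b := v 2 - v 0 with hb
  set D := cross a b with hDD
  have hDc : (D : ℂ) ≠ 0 := by exact_mod_cast hD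
  have hB := Green_body v
  rw [← ha, ← hb] at hB
  have hDb : cross b a ≠ 0 := by
    have : cross b a = - D := by rw [hDD]; unfold cross; ring
    rw [this]; exact neg_ne_zero.mpr hD
  have hDb' : |cross b a| = |D| := by
    have : cross b a = - D := by rw [hDD]; unfold cross; ring
    rw [this, abs_neg]
  -- the two directions
  have h1 : ∫ y in body v, f' y b = ((|D| : ℝ) : ℂ) *
      ((∫ s in (0 : ℝ)..1, f (v 0 + s * a + (1 - s : ℝ) * b)) -
        ∫ s in (0 : ℝ)..1, f (v 0 + s * a)) := by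
    rw [hB] at hf hc ⊢
    exact Green_dir (v 0) a b hD f f' hf hc
  have h2 : ∫ y in body v, f' y a = ((|D| : ℝ) : ℂ) *
      ((∫ s in (0 : ℝ)..1, f (v 0 + s * b + (1 - s : ℝ) * a)) -
        ∫ s in (0 : ℝ)..1, f (v 0 + s * b)) := by
    rw [hB, Green_K_swap] at hf hc ⊢
    rw [← hDb']
    exact Green_dir (v 0) b a hDb f f' hf hc
  -- the edge integrals
  set I0 := ∫ t in (0 : ℝ)..1, f (v 1 + t * (v 2 - v 1)) with hI0
  set I1 := ∫ t in (0 : ℝ)..1, f (v 2 + t * (v 0 - v 2)) with hI1
  set I2 := ∫ t in (0 : ℝ)..1, f (v 0 + t * (v 1 - v 0)) with hI2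
  have e1 : (∫ s in (0 : ℝ)..1, f (v 0 + s * b + (1 - s : ℝ) * a)) = I0 := by
    rw [hI0]
    congr 1
    ext s
    congr 1
    rw [ha, hb]; push_cast; ring
  have e2 : (∫ s in (0 : ℝ)..1, f (v 0 + s * a + (1 - s : ℝ) * b)) = I0 := by
    rw [← e1]
    have := intervalIntegral.integral_comp_sub_left (a := 0) (b := 1)
      (fun s : ℝ => f (v 0 + s * b + (1 - s : ℝ) * a)) 1
    simp only [sub_zero, sub_self] at this
    rw [← this]
    congr 1
    ext s
    congr 1
    push_cast; ring
  have e3 : (∫ s in (0 : ℝ)..1, f (v 0 + s * b)) = I1 := by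
    have := intervalIntegral.integral_comp_sub_left (a := 0) (b := 1)
      (fun s : ℝ => f (v 0 + s * b)) 1
    simp only [sub_zero, sub_self] at this
    rw [← this, hI1]
    congr 1
    ext s
    congr 1
    rw [hb]; push_cast; ring
  have e4 : (∫ s in (0 : ℝ)..1, f (v 0 + s * a)) = I2 := by
    rw [hI2]
  rw [e2] at h1
  rw [e1, e3] at h2
  -- decomposition of `h`
  have hh : h = ((cross h b / D : ℝ) : ℂ) * a + ((cross a h / D : ℝ) : ℂ) * b := by
    have : (D : ℂ) * h = (cross h b : ℂ) * a + (cross a h : ℂ) * b := by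
      apply Complex.ext
      · simp [hDD, cross]; ring
      · simp [hDD, cross]; ring
    push_cast
    field_simp
    rw [mul_comm h, this]
  have hlin : ∀ y, f' y h = ((cross h b / D : ℝ) : ℂ) * f' y a +
      ((cross a h / D : ℝ) : ℂ) * f' y b := by
    intro y
    conv_lhs => rw [hh]
    rw [map_add, ← Complex.real_smul, ← Complex.real_smul, map_smul, map_smul,
      Complex.real_smul, Complex.real_smul]
  have hcomp : IsCompact (body v) := (Set.finite_range v).isCompact_convexHull ℝ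
  have hia : IntegrableOn (fun y => f' y a) (body v) :=
    (hc.clm_apply continuousOn_const).integrableOn_compact hcomp
  have hib : IntegrableOn (fun y => f' y b) (body v) :=
    (hc.clm_apply continuousOn_const).integrableOn_compact hcomp
  have hsum : ∫ y in body v, f' y h = ((cross h b / D : ℝ) : ℂ) * (∫ y in body v, f' y a) +
      ((cross a h / D : ℝ) : ℂ) * (∫ y in body v, f' y b) := by
    simp only [hlin]
    rw [integral_add (hia.const_mul _) (hib.const_mul _), integral_const_mul, integral_const_mul]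
  rw [hsum, h1, h2, Fin.sum_univ_three]
  have i1 : (0 : Fin 3) + 1 = 1 := rfl
  have i2 : (0 : Fin 3) + 2 = 2 := rfl
  have i3 : (1 : Fin 3) + 1 = 2 := rfl
  have i4 : (1 : Fin 3) + 2 = 0 := rfl
  have i5 : (2 : Fin 3) + 1 = 0 := rfl
  have i6 : (2 : Fin 3) + 2 = 1 := rfl
  rw [i1, i2, i3, i4, i5, i6, ← hI0, ← hI1, ← hI2]
  have c1 : cross h (v 2 - v 1) = cross h b - cross h a := by
    rw [ha, hb]; unfold cross; simp; ring
  have c2 : cross h (v 0 - v 2) = - cross h b := by
    rw [hb]; unfold cross; simp; ring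
  have c3 : cross h (v 1 - v 0) = cross h a := by rw [ha]
  have c4 : cross a h = - cross h a := by unfold cross; ring
  rw [c1, c2, c3, c4]
  push_cast
  field_simp
  ring

theorem Green_cross_ne (hv : AffineIndependent ℝ v) : cross (v 1 - v 0) (v 2 - v 0) ≠ 0 := by
  intro h0
  rw [affineIndependent_iff] at hv
  set a := v 1 - v 0 with ha
  set b := v 2 - v 0 with hb
  have key : ∀ p q : ℝ, p • a + q • b = 0 → p = 0 ∧ q = 0 := by
    intro p q hpq
    have h1 := hv Finset.univ ![-p - q, p, q] (by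
      rw [Fin.sum_univ_three]
      simp only [Matrix.cons_val]
      ring) (by
      rw [Fin.sum_univ_three]
      simp only [Matrix.cons_val]
      have : p • a + q • b = (-p - q) • v 0 + p • v 1 + q • v 2 := by
        rw [ha, hb, smul_sub, smul_sub, sub_smul, neg_smul]
        abel
      rw [← this, hpq])
    exact ⟨by simpa using h1 1 (Finset.mem_univ _), by simpa using h1 2 (Finset.mem_univ _)⟩
  have h1 := key b.re (-a.re) (by
    apply Complex.ext
    · simp; ring
    · simp
      unfold cross at h0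
      linarith)
  have h2 := key b.im (-a.im) (by
    apply Complex.ext
    · simp
      unfold cross at h0
      linarith
    · simp; ring)
  have h3 := key 1 0 (by
    apply Complex.ext
    · simp; linarith [h1.2]
    · simp; linarith [h2.2])
  exact one_ne_zero h3.1

/-- **Green's formula** for a `C¹` function on a closed triangle; `σ` is the orientation of `v`. -/
theorem green (hv : AffineIndependent ℝ v) : ∃ σ : ℝ, ∀ (f : ℂ → ℂ) (f' : ℂ → ℂ →L[ℝ] ℂ),
    (∀ y ∈ body v, HasFDerivWithinAt f (f' y) (body v) y) → ContinuousOn f' (body v) →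
    ∀ h : ℂ, ∫ y in body v, f' y h = σ * ∑ k : Fin 3, (cross h (v (k + 2) - v (k + 1)) : ℂ) *
      ∫ t in (0 : ℝ)..1, f (v (k + 1) + t * (v (k + 2) - v (k + 1))) :=
  ⟨_, fun f f' hf hc h => Green_core v (Green_cross_ne hv) f f' hf hc h⟩

/-- Green's formula for the standard orientation: here `σ = 1` -/
theorem green_pos (w : ℂ) (hw : 0 < w.im) (f : ℂ → ℂ) (f' : ℂ → ℂ →L[ℝ] ℂ)
    (hf : ∀ y ∈ body ![0, 1, w], HasFDerivWithinAt f (f' y) (body ![0, 1, w]) y)
    (hc : ContinuousOn f' (body ![0, 1, w])) (h : ℂ) :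
    ∫ y in body ![0, 1, w], f' y h =
      ∑ k : Fin 3, (cross h ((![0, 1, w] : Fin 3 → ℂ) (k + 2) - (![0, 1, w] : Fin 3 → ℂ) (k + 1)) : ℂ) *
      ∫ t in (0 : ℝ)..1, f ((![0, 1, w] : Fin 3 → ℂ) (k + 1) +
        t * ((![0, 1, w] : Fin 3 → ℂ) (k + 2) - (![0, 1, w] : Fin 3 → ℂ) (k + 1))) := by
  have hD : cross ((![0, 1, w] : Fin 3 → ℂ) 1 - (![0, 1, w] : Fin 3 → ℂ) 0)
      ((![0, 1, w] : Fin 3 → ℂ) 2 - (![0, 1, w] : Fin 3 → ℂ) 0) = w.im := by
    simp [cross]
  have h1 := Green_core ![0, 1, w] (by rw [hD]; exact hw.ne') f f' hf hc h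
  rw [hD, abs_of_pos hw, div_self hw.ne', Complex.ofReal_one, one_mul] at h1
  exact h1

end

end Pool.Agent.OBT
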