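import Mathlib
import Pool.Agent.OBT.Green
import Pool.Agent.OBT.Fam

/-!
# Stokes' formula on the unfolding
-/

open scoped ComplexConjugate Topology
open MeasureTheory

namespace Pool.Agent.OBT

variable {v : Fin 3 → ℂ}

theorem Stokes_cross_refl (k : Fin 3) (z : ℂ) :
    cross (refl v k z) (v (k + 2) - v (k + 1)) = - cross z (v (k + 2) - v (k + 1)) := by
  set e : ℂ := v (k + 2) - v (k + 1) with he
  have h1 : refl v k z = 2 • (((ℝ ∙ e).starProjection z : ℂ)) - z := by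
    simp only [refl, ← he]
    exact Submodule.reflection_apply z
  have h2 : ((ℝ ∙ e).starProjection z : ℂ) ∈ (ℝ ∙ e) := Submodule.starProjection_apply_mem _ z
  obtain ⟨c, hc⟩ := Submodule.mem_span_singleton.1 h2
  rw [h1, ← hc]
  simp only [cross, Complex.sub_re, Complex.sub_im, Complex.real_smul, nsmul_eq_mul,
    Nat.cast_ofNat, Complex.mul_re, Complex.mul_im, Complex.ofReal_re, Complex.ofReal_im,
    Complex.re_ofNat, Complex.im_ofNat]
  ring

theorem Stokes_r_inv (k : Fin 3) : (r v k)⁻¹ = r v k := by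
  rw [inv_eq_iff_mul_eq_one, r_mul_self]

theorem Stokes_cross_inv (g : G v) (k : Fin 3) (h : ℂ) :
    cross ((((g * r v k)⁻¹ : G v) : ℂ ≃ₗᵢ[ℝ] ℂ) h) (v (k + 2) - v (k + 1)) =
      - cross (((g⁻¹ : G v) : ℂ ≃ₗᵢ[ℝ] ℂ) h) (v (k + 2) - v (k + 1)) := by
  have h1 : (((g * r v k)⁻¹ : G v) : ℂ ≃ₗᵢ[ℝ] ℂ) h = refl v k (((g⁻¹ : G v) : ℂ ≃ₗᵢ[ℝ] ℂ) h) := by
    rw [mul_inv_rev, Stokes_r_inv]
    rfl
  rw [h1, Stokes_cross_refl]

theorem Stokes_mem_edge (k : Fin 3) {t : ℝ} (h0 : 0 ≤ t) (h1 : t ≤ 1) :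
    v (k + 1) + t * (v (k + 2) - v (k + 1)) ∈ edge v k := by
  rw [edge, segment_eq_image']
  exact ⟨t, ⟨h0, h1⟩, by simp [Complex.real_smul]⟩

theorem Stokes_int_eq (Q : G v → ℂ → ℂ) (hQ : Compat ∅ Q) (g : G v) (k : Fin 3) :
    ∫ t in (0 : ℝ)..1, Q (g * r v k) (v (k + 1) + t * (v (k + 2) - v (k + 1))) =
      ∫ t in (0 : ℝ)..1, Q g (v (k + 1) + t * (v (k + 2) - v (k + 1))) := by
  apply intervalIntegral.integral_congr
  intro t ht
  rw [Set.uIcc_of_le zero_le_one] at ht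
  exact hQ g k _ ⟨Stokes_mem_edge k ht.1 ht.2, Set.notMem_empty _⟩

theorem Stokes_cont (g : G v) {Q1 Q2 : ℂ → ℂ} {s : Set ℂ} (h1 : ContinuousOn Q1 s)
    (h2 : ContinuousOn Q2 s) : ContinuousOn (fun y => DG g (Q1 y) (Q2 y)) s := by
  unfold DG DD
  exact ((h1.smul continuousOn_const).add (h2.smul continuousOn_const)).clm_comp
    continuousOn_const

theorem stokes (hv : AffineIndependent ℝ v) [Fintype (G v)] (Q Q1 Q2 : G v → ℂ → ℂ)
    (hQ : Compat ∅ Q)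
    (hd : ∀ g, ∀ y ∈ body v, HasFDerivWithinAt (Q g) (DG g (Q1 g y) (Q2 g y)) (body v) y)
    (h1 : ∀ g, ContinuousOn (Q1 g) (body v)) (h2 : ∀ g, ContinuousOn (Q2 g) (body v)) :
    ∑ g, ∫ y in body v, Q1 g y = 0 ∧ ∑ g, ∫ y in body v, Q2 g y = 0 := by
  obtain ⟨σ, hσ⟩ := green hv
  have hi1 : ∀ g, IntegrableOn (Q1 g) (body v) := fun g =>
    (h1 g).integrableOn_compact isCompact_body
  have hi2 : ∀ g, IntegrableOn (Q2 g) (body v) := fun g =>
    (h2 g).integrableOn_compact isCompact_body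
  have key : ∀ h : ℂ, (∑ g, ∫ y in body v, Q1 g y) * h +
      (∑ g, ∫ y in body v, Q2 g y) * conj h = 0 := by
    intro h
    have e1 : ∀ g : G v, (∫ y in body v, Q1 g y) * h + (∫ y in body v, Q2 g y) * conj h =
        σ * ∑ k : Fin 3, (cross (((g⁻¹ : G v) : ℂ ≃ₗᵢ[ℝ] ℂ) h) (v (k + 2) - v (k + 1)) : ℂ) *
          ∫ t in (0 : ℝ)..1, Q g (v (k + 1) + t * (v (k + 2) - v (k + 1))) := by
      intro g
      rw [← hσ (Q g) (fun y => DG g (Q1 g y) (Q2 g y)) (hd g) (Stokes_cont g (h1 g) (h2 g))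
        (((g⁻¹ : G v) : ℂ ≃ₗᵢ[ℝ] ℂ) h)]
      rw [← integral_mul_const, ← integral_mul_const, ← integral_add
        ((hi1 g).mul_const h) ((hi2 g).mul_const (conj h))]
      have e2 : (g : ℂ ≃ₗᵢ[ℝ] ℂ) (((g⁻¹ : G v) : ℂ ≃ₗᵢ[ℝ] ℂ) h) = h := by
        have : ((g * g⁻¹ : G v) : ℂ ≃ₗᵢ[ℝ] ℂ) h = h := by
          rw [mul_inv_cancel]; rfl
        exact this
      simp only [DG_apply, e2]
    rw [Finset.sum_mul, Finset.sum_mul, ← Finset.sum_add_distrib, Finset.sum_congr rfl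
      (fun g _ => e1 g), ← Finset.mul_sum, Finset.sum_comm]
    rw [Finset.sum_eq_zero, mul_zero]
    intro k _
    set F : G v → ℂ := fun g =>
      (cross (((g⁻¹ : G v) : ℂ ≃ₗᵢ[ℝ] ℂ) h) (v (k + 2) - v (k + 1)) : ℂ) *
          ∫ t in (0 : ℝ)..1, Q g (v (k + 1) + t * (v (k + 2) - v (k + 1))) with hF
    have e3 : ∀ g, F (g * r v k) = - F g := by
      intro g
      simp only [hF]
      rw [Stokes_int_eq Q hQ, Stokes_cross_inv]
      push_cast
      ring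
    have e4 : ∑ g, F g = - ∑ g, F g := by
      calc ∑ g, F g = ∑ g, F (g * r v k) :=
            (Equiv.sum_comp (Equiv.mulRight (r v k)) F).symm
        _ = ∑ g, - F g := Finset.sum_congr rfl (fun g _ => e3 g)
        _ = - ∑ g, F g := Finset.sum_neg_distrib _
    exact self_eq_neg.1 e4
  have k1 := key 1
  have k2 := key Complex.I
  rw [map_one, mul_one, mul_one] at k1
  rw [Complex.conj_I] at k2
  set A := ∑ g, ∫ y in body v, Q1 g y
  set B := ∑ g, ∫ y in body v, Q2 g y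
  have k3 : A = B := by
    have : (A - B) * Complex.I = 0 := by linear_combination k2
    rcases mul_eq_zero.1 this with h | h
    · exact sub_eq_zero.1 h
    · exact absurd h Complex.I_ne_zero
  constructor
  · linear_combination (k1 + k3) / 2
  · linear_combination (k1 - k3) / 2

end Pool.Agent.OBT
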