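import Mathlib
import Pool.Agent.OBT.Nice
import Pool.Agent.OBT.Stokes
import Pool.Agent.OBT.Cutoff

/-!
# `‖∂ U‖ = ‖∂̄ U‖`
-/

open scoped ComplexConjugate Topology
open MeasureTheory

namespace Pool.Agent.OBT

variable {v : Fin 3 → ℂ}

theorem NiceNorm_compact (v : Fin 3 → ℂ) : IsCompact (body v) :=
  (Set.finite_range v).isCompact_convexHull (𝕜 := ℝ)

theorem NiceNorm_meas (v : Fin 3 → ℂ) : MeasurableSet (body v) :=
  (NiceNorm_compact v).measurableSet

/-- first component of a real functional in the copy `g` -/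
noncomputable def NiceNorm_c1 (g : G v) (L : ℂ →L[ℝ] ℝ) : ℂ :=
  ((L ((g : ℂ ≃ₗᵢ[ℝ] ℂ).symm 1) : ℂ) - Complex.I * (L ((g : ℂ ≃ₗᵢ[ℝ] ℂ).symm Complex.I) : ℂ)) / 2

/-- second component of a real functional in the copy `g` -/
noncomputable def NiceNorm_c2 (g : G v) (L : ℂ →L[ℝ] ℝ) : ℂ :=
  ((L ((g : ℂ ≃ₗᵢ[ℝ] ℂ).symm 1) : ℂ) + Complex.I * (L ((g : ℂ ≃ₗᵢ[ℝ] ℂ).symm Complex.I) : ℂ)) / 2

theorem NiceNorm_DG (g : G v) (L : ℂ →L[ℝ] ℝ) (h : ℂ) :
    DG g (NiceNorm_c1 g L) (NiceNorm_c2 g L) h = (L h : ℂ) := by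
  obtain ⟨z, rfl⟩ : ∃ z, h = (g : ℂ ≃ₗᵢ[ℝ] ℂ).symm z :=
    ⟨(g : ℂ ≃ₗᵢ[ℝ] ℂ) h, ((g : ℂ ≃ₗᵢ[ℝ] ℂ).symm_apply_apply h).symm⟩
  rw [DG_apply, LinearIsometryEquiv.apply_symm_apply]
  have h1 : (g : ℂ ≃ₗᵢ[ℝ] ℂ).symm z = z.re • (g : ℂ ≃ₗᵢ[ℝ] ℂ).symm 1
      + z.im • (g : ℂ ≃ₗᵢ[ℝ] ℂ).symm Complex.I := by
    rw [← map_smul, ← map_smul, ← map_add]
    congr 1
    apply Complex.ext <;> simp
  rw [h1, map_add, map_smul, map_smul]
  unfold NiceNorm_c1 NiceNorm_c2
  apply Complex.ext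
  · simp
    ring
  · simp
    ring

theorem NiceNorm_norm1 (g : G v) (L : ℂ →L[ℝ] ℝ) : ‖NiceNorm_c1 g L‖ ≤ ‖L‖ := by
  unfold NiceNorm_c1
  have h1 : ‖L ((g : ℂ ≃ₗᵢ[ℝ] ℂ).symm 1)‖ ≤ ‖L‖ := by
    refine (L.le_opNorm _).trans ?_
    rw [LinearIsometryEquiv.norm_map, norm_one, mul_one]
  have h2 : ‖L ((g : ℂ ≃ₗᵢ[ℝ] ℂ).symm Complex.I)‖ ≤ ‖L‖ := by
    refine (L.le_opNorm _).trans ?_
    rw [LinearIsometryEquiv.norm_map, Complex.norm_I, mul_one]
  rw [norm_div, Complex.norm_ofNat, div_le_iff₀ (by norm_num)]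
  refine (norm_sub_le _ _).trans ?_
  rw [norm_mul, Complex.norm_I, one_mul, Complex.norm_real, Complex.norm_real]
  linarith

theorem NiceNorm_norm2 (g : G v) (L : ℂ →L[ℝ] ℝ) : ‖NiceNorm_c2 g L‖ ≤ ‖L‖ := by
  unfold NiceNorm_c2
  have h1 : ‖L ((g : ℂ ≃ₗᵢ[ℝ] ℂ).symm 1)‖ ≤ ‖L‖ := by
    refine (L.le_opNorm _).trans ?_
    rw [LinearIsometryEquiv.norm_map, norm_one, mul_one]
  have h2 : ‖L ((g : ℂ ≃ₗᵢ[ℝ] ℂ).symm Complex.I)‖ ≤ ‖L‖ := by
    refine (L.le_opNorm _).trans ?_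
    rw [LinearIsometryEquiv.norm_map, Complex.norm_I, mul_one]
  rw [norm_div, Complex.norm_ofNat, div_le_iff₀ (by norm_num)]
  refine (norm_add_le _ _).trans ?_
  rw [norm_mul, Complex.norm_I, one_mul, Complex.norm_real, Complex.norm_real]
  linarith

theorem NiceNorm_cont1 (g : G v) {c : ℂ → ℝ} (hc : ContDiff ℝ 1 c) :
    Continuous fun y => NiceNorm_c1 g (fderiv ℝ c y) := by
  have h := hc.continuous_fderiv one_ne_zero
  unfold NiceNorm_c1
  have h1 : ∀ x : ℂ, Continuous fun y => (fderiv ℝ c y x : ℂ) := fun x =>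
    Complex.continuous_ofReal.comp (h.clm_apply continuous_const)
  exact ((h1 _).sub (continuous_const.mul (h1 _))).div_const 2

theorem NiceNorm_cont2 (g : G v) {c : ℂ → ℝ} (hc : ContDiff ℝ 1 c) :
    Continuous fun y => NiceNorm_c2 g (fderiv ℝ c y) := by
  have h := hc.continuous_fderiv one_ne_zero
  unfold NiceNorm_c2
  have h1 : ∀ x : ℂ, Continuous fun y => (fderiv ℝ c y x : ℂ) := fun x =>
    Complex.continuous_ofReal.comp (h.clm_apply continuous_const)
  exact ((h1 _).add (continuous_const.mul (h1 _))).div_const 2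

/-- a function which vanishes near `S` and is continuous off `S` is continuous -/
theorem NiceNorm_contOn {B S : Set ℂ} (hS : S.Finite) {F : ℂ → ℂ}
    (hF : ContinuousOn F (B \ S)) (h0 : ∀ s ∈ S, ∀ᶠ y in 𝓝 s, F y = 0) : ContinuousOn F B := by
  intro y hy
  by_cases hyS : y ∈ S
  · have h1 : F =ᶠ[𝓝 y] fun _ => (0 : ℂ) := h0 y hyS
    exact (continuousAt_const.congr h1.symm).continuousWithinAt
  · refine (hF y ⟨hy, hyS⟩).mono_of_mem_nhdsWithin ?_
    have h2 : Sᶜ ∈ 𝓝 y := hS.isClosed.isOpen_compl.mem_nhds hyS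
    exact Filter.inter_mem self_mem_nhdsWithin (mem_nhdsWithin_of_mem_nhds h2)

/-- the product rule, in components -/
theorem NiceNorm_prod (g : G v) {c : ℂ → ℝ} (hc : ContDiff ℝ 1 c) {U a : ℂ → ℂ}
    {u w a1 a2 : ℂ} {B : Set ℂ} {y : ℂ} (hU : HasFDerivWithinAt U (DG g u w) B y)
    (ha : HasFDerivWithinAt a (DG g a1 a2) B y) :
    HasFDerivWithinAt (fun y => (c y : ℂ) * U y * conj (a y))
      (DG g (U y * conj (a y) * NiceNorm_c1 g (fderiv ℝ c y) + c y * conj (a y) * u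
          + c y * U y * conj a2)
        (U y * conj (a y) * NiceNorm_c2 g (fderiv ℝ c y) + c y * conj (a y) * w
          + c y * U y * conj a1)) B y := by
  have hc1 : HasFDerivWithinAt (fun y => (c y : ℂ))
      (DG g (NiceNorm_c1 g (fderiv ℝ c y)) (NiceNorm_c2 g (fderiv ℝ c y))) B y := by
    have h1 : HasFDerivAt c (fderiv ℝ c y) y :=
      ((hc.differentiable one_ne_zero) y).hasFDerivAt
    have h2 := (Complex.ofRealCLM.hasFDerivAt.comp y h1).hasFDerivWithinAt (s := B)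
    refine h2.congr_fderiv ?_
    ext1 h
    rw [NiceNorm_DG]
    rfl
  have hconj : HasFDerivWithinAt (fun y => conj (a y)) (DG g (conj a2) (conj a1)) B y := by
    have h2 := (Complex.conjCLE : ℂ ≃L[ℝ] ℂ).toContinuousLinearMap.hasFDerivAt.comp_hasFDerivWithinAt
      y ha
    refine h2.congr_fderiv ?_
    ext1 h
    rw [ContinuousLinearMap.comp_apply, DG_apply, DG_apply]
    show conj (a1 * _ + a2 * conj _) = _
    rw [map_add, map_mul, map_mul, Complex.conj_conj]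
    ring
  have h3 := (hc1.mul hU).mul hconj
  refine h3.congr_fderiv ?_
  ext1 h
  simp only [add_apply, smul_apply, DG_apply, smul_eq_mul, Pi.mul_apply]
  ring

theorem NiceNorm_tendsto {b E : ℕ → ℝ} {α β : ℝ} (hβ : 0 ≤ β) (hb : ∀ n, 0 ≤ b n)
    (h : ∀ n, ∀ t > 0, b n ≤ α * E n / t + β * t)
    (hE : Filter.Tendsto E Filter.atTop (𝓝 0)) : Filter.Tendsto b Filter.atTop (𝓝 0) := by
  rw [Metric.tendsto_atTop]
  intro ε hε
  set t : ℝ := ε / (2 * (β + 1)) with ht
  have ht0 : 0 < t := by positivity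
  have h1 : Filter.Tendsto (fun n => α * E n / t) Filter.atTop (𝓝 0) := by
    have h2 := (hE.const_mul α).div_const t
    rw [mul_zero, zero_div] at h2
    exact h2
  have h3 : β * t < ε / 2 := by
    rw [ht]
    rw [mul_div_assoc', div_lt_div_iff₀ (by positivity) (by norm_num)]
    nlinarith
  have h4 := (h1.eventually (gt_mem_nhds (half_pos hε)))
  obtain ⟨N, hN⟩ := Filter.eventually_atTop.1 h4
  refine ⟨N, fun n hn => ?_⟩
  rw [Real.dist_eq, sub_zero, abs_of_nonneg (hb n)]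
  have h5 := hN n hn
  have h6 := h n t ht0
  linarith

/-- Stokes' formula for `c U conj a` -/
theorem NiceNorm_stokes (hv : AffineIndependent ℝ v) [Fintype (G v)] {S : Set ℂ}
    (hS : S.Finite) {c : ℂ → ℝ} (hc : ContDiff ℝ 1 c)
    (hcS : ∃ δ > 0, ∀ s ∈ S, ∀ y, dist y s < δ → c y = 0)
    {U u w a a1 a2 : G v → ℂ → ℂ} (hU : Compat S U) (ha : Compat S a)
    (hUd : ∀ g, ∀ y ∈ body v \ S, HasFDerivWithinAt (U g) (DG g (u g y) (w g y)) (body v) y)
    (had : ∀ g, ∀ y ∈ body v \ S, HasFDerivWithinAt (a g) (DG g (a1 g y) (a2 g y)) (body v) y)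
    (hu : ∀ g, ContinuousOn (u g) (body v \ S)) (hw : ∀ g, ContinuousOn (w g) (body v \ S))
    (h1 : ∀ g, ContinuousOn (a1 g) (body v \ S)) (h2 : ∀ g, ContinuousOn (a2 g) (body v \ S)) :
    (∀ g, ContinuousOn (fun y => U g y * conj (a g y) * NiceNorm_c1 g (fderiv ℝ c y)
        + c y * conj (a g y) * u g y + c y * U g y * conj (a2 g y)) (body v)) ∧
    (∀ g, ContinuousOn (fun y => U g y * conj (a g y) * NiceNorm_c2 g (fderiv ℝ c y)
        + c y * conj (a g y) * w g y + c y * U g y * conj (a1 g y)) (body v)) ∧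
    ∑ g, ∫ y in body v, (U g y * conj (a g y) * NiceNorm_c1 g (fderiv ℝ c y)
        + c y * conj (a g y) * u g y + c y * U g y * conj (a2 g y)) = 0 ∧
    ∑ g, ∫ y in body v, (U g y * conj (a g y) * NiceNorm_c2 g (fderiv ℝ c y)
        + c y * conj (a g y) * w g y + c y * U g y * conj (a1 g y)) = 0 := by
  obtain ⟨δ, hδ, hcδ⟩ := hcS
  have hz : ∀ s ∈ S, ∀ᶠ y in 𝓝 s, c y = 0 ∧ fderiv ℝ c y = 0 := by
    intro s hs
    have h3 : Metric.ball s δ ∈ 𝓝 s := Metric.ball_mem_nhds s hδ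
    filter_upwards [h3] with y hy
    refine ⟨hcδ s hs y (Metric.mem_ball.1 hy), ?_⟩
    have h4 : c =ᶠ[𝓝 y] fun _ => (0 : ℝ) := by
      filter_upwards [Metric.isOpen_ball.mem_nhds hy] with z hz
      exact hcδ s hs z (Metric.mem_ball.1 hz)
    rw [h4.fderiv_eq]
    simp
  have hc10 : ∀ g : G v, NiceNorm_c1 g 0 = 0 := fun g => by simp [NiceNorm_c1]
  have hc20 : ∀ g : G v, NiceNorm_c2 g 0 = 0 := fun g => by simp [NiceNorm_c2]
  have hUc : ∀ g, ContinuousOn (U g) (body v \ S) := fun g y hy =>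
    ((hUd g y hy).continuousWithinAt).mono Set.sdiff_subset
  have hac : ∀ g, ContinuousOn (a g) (body v \ S) := fun g y hy =>
    ((had g y hy).continuousWithinAt).mono Set.sdiff_subset
  have hcc : Continuous fun y => (c y : ℂ) := Complex.continuous_ofReal.comp hc.continuous
  have hconj : ∀ f : ℂ → ℂ, ∀ B : Set ℂ, ContinuousOn f B → ContinuousOn (fun y => conj (f y)) B :=
    fun f B hf => Complex.continuous_conj.comp_continuousOn hf
  have hC1 : ∀ g, ContinuousOn (fun y => U g y * conj (a g y) * NiceNorm_c1 g (fderiv ℝ c y)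
        + c y * conj (a g y) * u g y + c y * U g y * conj (a2 g y)) (body v) := by
    intro g
    refine NiceNorm_contOn hS ?_ ?_
    · exact (((hUc g).mul (hconj _ _ (hac g))).mul (NiceNorm_cont1 g hc).continuousOn).add
        ((hcc.continuousOn.mul (hconj _ _ (hac g))).mul (hu g)) |>.add
        ((hcc.continuousOn.mul (hUc g)).mul (hconj _ _ (h2 g)))
    · intro s hs
      filter_upwards [hz s hs] with y hy
      rw [hy.1, hy.2, hc10]
      simp
  have hC2 : ∀ g, ContinuousOn (fun y => U g y * conj (a g y) * NiceNorm_c2 g (fderiv ℝ c y)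
        + c y * conj (a g y) * w g y + c y * U g y * conj (a1 g y)) (body v) := by
    intro g
    refine NiceNorm_contOn hS ?_ ?_
    · exact (((hUc g).mul (hconj _ _ (hac g))).mul (NiceNorm_cont2 g hc).continuousOn).add
        ((hcc.continuousOn.mul (hconj _ _ (hac g))).mul (hw g)) |>.add
        ((hcc.continuousOn.mul (hUc g)).mul (hconj _ _ (h1 g)))
    · intro s hs
      filter_upwards [hz s hs] with y hy
      rw [hy.1, hy.2, hc20]
      simp
  refine ⟨hC1, hC2, ?_⟩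
  refine stokes hv (fun g y => (c y : ℂ) * U g y * conj (a g y)) _ _ ?_ ?_ hC1 hC2
  · intro g k y hy
    by_cases hyS : y ∈ S
    · have h3 := (hz y hyS).self_of_nhds.1
      show (c y : ℂ) * _ * _ = (c y : ℂ) * _ * _
      rw [h3]
      simp
    · show (c y : ℂ) * _ * _ = (c y : ℂ) * _ * _
      rw [hU g k y ⟨hy.1, hyS⟩, ha g k y ⟨hy.1, hyS⟩]
  · intro g y hy
    by_cases hyS : y ∈ S
    · have h3 := (hz y hyS).self_of_nhds
      rw [h3.1, h3.2, hc10, hc20]
      have h4 : HasFDerivAt (fun y => (c y : ℂ) * U g y * conj (a g y)) (0 : ℂ →L[ℝ] ℂ) y := by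
        have h5 : (fun y => (c y : ℂ) * U g y * conj (a g y)) =ᶠ[𝓝 y] fun _ => (0 : ℂ) := by
          filter_upwards [hz y hyS] with z hz'
          rw [hz'.1]
          simp
        exact (hasFDerivAt_const (0 : ℂ) y).congr_of_eventuallyEq h5
      refine h4.hasFDerivWithinAt.congr_fderiv ?_
      ext1 h
      simp
    · exact NiceNorm_prod g hc (hUd g y ⟨hy, hyS⟩) (had g y ⟨hy, hyS⟩)

theorem nice_norm (hv : AffineIndependent ℝ v) [Fintype (G v)] {U u w : G v → ℂ → ℂ}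
    (h : Nice v U u w) :
    ∑ g, ∫ y in body v, ‖u g y‖ ^ 2 = ∑ g, ∫ y in body v, ‖w g y‖ ^ 2 := by
  obtain ⟨S, hN⟩ := h
  obtain ⟨C, hC⟩ := hN.bdd
  obtain ⟨u1, m, w2, hu1, hm, hw2, hud, hwd⟩ := hN.second
  obtain ⟨c, hc, hc01, hcS, hclim, hcI, hcE⟩ := exists_cutoffs S hN.fin
  have huc : ∀ g, ContinuousOn (u g) (body v \ S) := fun g y hy =>
    ((hud g y hy).continuousWithinAt).mono Set.sdiff_subset
  have hwc : ∀ g, ContinuousOn (w g) (body v \ S) := fun g y hy =>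
    ((hwd g y hy).continuousWithinAt).mono Set.sdiff_subset
  have hcomp := NiceNorm_compact v
  have hmeas := NiceNorm_meas v
  have hu2 : ∀ g, Integrable (fun y => ‖u g y‖ ^ 2) (volume.restrict (body v)) := fun g =>
    (memLp_two_iff_integrable_sq_norm (hN.L2a g).1).1 (hN.L2a g)
  have hw2' : ∀ g, Integrable (fun y => ‖w g y‖ ^ 2) (volume.restrict (body v)) := fun g =>
    (memLp_two_iff_integrable_sq_norm (hN.L2b g).1).1 (hN.L2b g)
  -- the identity
  have hPc : ∀ n g, ContinuousOn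
      (fun y => ((c n y * (‖u g y‖ ^ 2 - ‖w g y‖ ^ 2) : ℝ) : ℂ)) (body v) := by
    intro n g
    refine NiceNorm_contOn hN.fin ?_ ?_
    · refine Complex.continuous_ofReal.comp_continuousOn ?_
      exact (hc n).continuous.continuousOn.mul (((huc g).norm.pow 2).sub ((hwc g).norm.pow 2))
    · intro s hs
      obtain ⟨δ, hδ, hcδ⟩ := hcS n
      filter_upwards [Metric.ball_mem_nhds s hδ] with y hy
      rw [hcδ s hs y (Metric.mem_ball.1 hy)]
      simp
  have key : ∀ n, ((∑ g, ∫ y in body v, c n y * (‖u g y‖ ^ 2 - ‖w g y‖ ^ 2) : ℝ) : ℂ)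
      = - ∑ g, ∫ y in body v, U g y * (NiceNorm_c1 g (fderiv ℝ (c n) y) * conj (u g y)
        - NiceNorm_c2 g (fderiv ℝ (c n) y) * conj (w g y)) := by
    intro n
    obtain ⟨hF1, _, hs1, _⟩ := NiceNorm_stokes hv hN.fin (hc n) (hcS n) hN.compat hN.compat1
      hN.deriv hud huc hwc hu1 hm
    obtain ⟨_, hF2, _, hs2⟩ := NiceNorm_stokes hv hN.fin (hc n) (hcS n) hN.compat hN.compat2
      hN.deriv hwd huc hwc hm hw2
    have hpt : ∀ (g : G v) (y : ℂ),
        U g y * (NiceNorm_c1 g (fderiv ℝ (c n) y) * conj (u g y)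
          - NiceNorm_c2 g (fderiv ℝ (c n) y) * conj (w g y))
        = (U g y * conj (u g y) * NiceNorm_c1 g (fderiv ℝ (c n) y)
            + c n y * conj (u g y) * u g y + c n y * U g y * conj (m g y))
          - (U g y * conj (w g y) * NiceNorm_c2 g (fderiv ℝ (c n) y)
            + c n y * conj (w g y) * w g y + c n y * U g y * conj (m g y))
          - ((c n y * (‖u g y‖ ^ 2 - ‖w g y‖ ^ 2) : ℝ) : ℂ) := by
      intro g y
      have e1 : conj (u g y) * u g y = (‖u g y‖ : ℂ) ^ 2 := Complex.conj_mul' _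
      have e2 : conj (w g y) * w g y = (‖w g y‖ : ℂ) ^ 2 := Complex.conj_mul' _
      push_cast
      linear_combination -(c n y : ℂ) * e1 + (c n y : ℂ) * e2
    have hint : ∀ g, ∫ y in body v, U g y * (NiceNorm_c1 g (fderiv ℝ (c n) y) * conj (u g y)
          - NiceNorm_c2 g (fderiv ℝ (c n) y) * conj (w g y))
        = (∫ y in body v, (U g y * conj (u g y) * NiceNorm_c1 g (fderiv ℝ (c n) y)
            + c n y * conj (u g y) * u g y + c n y * U g y * conj (m g y)))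
          - (∫ y in body v, (U g y * conj (w g y) * NiceNorm_c2 g (fderiv ℝ (c n) y)
            + c n y * conj (w g y) * w g y + c n y * U g y * conj (m g y)))
          - ((∫ y in body v, c n y * (‖u g y‖ ^ 2 - ‖w g y‖ ^ 2) : ℝ) : ℂ) := by
      intro g
      have hI1 : Integrable (fun y => U g y * conj (u g y) * NiceNorm_c1 g (fderiv ℝ (c n) y)
            + c n y * conj (u g y) * u g y + c n y * U g y * conj (m g y))
          (volume.restrict (body v)) := (hF1 g).integrableOn_compact hcomp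
      have hI2 : Integrable (fun y => U g y * conj (w g y) * NiceNorm_c2 g (fderiv ℝ (c n) y)
            + c n y * conj (w g y) * w g y + c n y * U g y * conj (m g y))
          (volume.restrict (body v)) := (hF2 g).integrableOn_compact hcomp
      have hI12 : Integrable (fun y => (U g y * conj (u g y) * NiceNorm_c1 g (fderiv ℝ (c n) y)
            + c n y * conj (u g y) * u g y + c n y * U g y * conj (m g y))
          - (U g y * conj (w g y) * NiceNorm_c2 g (fderiv ℝ (c n) y)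
            + c n y * conj (w g y) * w g y + c n y * U g y * conj (m g y)))
          (volume.restrict (body v)) := hI1.sub hI2
      have hI3 : Integrable (fun y => ((c n y * (‖u g y‖ ^ 2 - ‖w g y‖ ^ 2) : ℝ) : ℂ))
          (volume.restrict (body v)) := (hPc n g).integrableOn_compact hcomp
      rw [← integral_complex_ofReal, ← integral_sub hI1 hI2, ← integral_sub hI12 hI3]
      exact integral_congr_ae (Filter.Eventually.of_forall fun y => hpt g y)
    rw [Finset.sum_congr rfl fun g _ => hint g, Finset.sum_sub_distrib, Finset.sum_sub_distrib,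
      hs1, hs2]
    push_cast
    ring
  -- the bound
  have hbound : ∀ n, ∀ t > 0, |∑ g, ∫ y in body v, c n y * (‖u g y‖ ^ 2 - ‖w g y‖ ^ 2)|
      ≤ (Fintype.card (G v) * |C| / 2) * (∫ y, ‖fderiv ℝ (c n) y‖ ^ 2) / t
        + (|C| * ∑ g, ((∫ y in body v, ‖u g y‖ ^ 2) + ∫ y in body v, ‖w g y‖ ^ 2)) * t := by
    intro n t ht
    have e1 : |∑ g, ∫ y in body v, c n y * (‖u g y‖ ^ 2 - ‖w g y‖ ^ 2)|
        = ‖∑ g, ∫ y in body v, U g y * (NiceNorm_c1 g (fderiv ℝ (c n) y) * conj (u g y)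
          - NiceNorm_c2 g (fderiv ℝ (c n) y) * conj (w g y))‖ := by
      rw [← norm_neg (∑ g, ∫ y in body v, U g y * _), ← key n, Complex.norm_real, Real.norm_eq_abs]
    rw [e1]
    refine (norm_sum_le _ _).trans ?_
    have e2 : ∀ g ∈ (Finset.univ : Finset (G v)),
        ‖∫ y in body v, U g y * (NiceNorm_c1 g (fderiv ℝ (c n) y) * conj (u g y)
          - NiceNorm_c2 g (fderiv ℝ (c n) y) * conj (w g y))‖
        ≤ |C| / 2 * (∫ y, ‖fderiv ℝ (c n) y‖ ^ 2) / t
          + |C| * ((∫ y in body v, ‖u g y‖ ^ 2) + ∫ y in body v, ‖w g y‖ ^ 2) * t := by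
      intro g _
      have hDI : Integrable (fun y => ‖fderiv ℝ (c n) y‖ ^ 2) (volume.restrict (body v)) :=
        (hcI n).restrict
      have hI1 : Integrable (fun y => |C| / 2 / t * ‖fderiv ℝ (c n) y‖ ^ 2)
          (volume.restrict (body v)) := hDI.const_mul _
      have hI2 : Integrable (fun y => |C| * t * (‖u g y‖ ^ 2 + ‖w g y‖ ^ 2))
          (volume.restrict (body v)) := ((hu2 g).add (hw2' g)).const_mul _
      have hI3 : Integrable (fun y => |C| / 2 / t * ‖fderiv ℝ (c n) y‖ ^ 2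
          + |C| * t * (‖u g y‖ ^ 2 + ‖w g y‖ ^ 2)) (volume.restrict (body v)) := hI1.add hI2
      refine (norm_integral_le_of_norm_le hI3 ?_).trans ?_
      · refine (ae_restrict_iff' hmeas).2 (Filter.Eventually.of_forall fun y hy => ?_)
        have f1 : ‖U g y‖ ≤ |C| := (hC g y hy).trans (le_abs_self C)
        have f2 := NiceNorm_norm1 g (fderiv ℝ (c n) y)
        have f3 := NiceNorm_norm2 g (fderiv ℝ (c n) y)
        have f4 : ‖NiceNorm_c1 g (fderiv ℝ (c n) y) * conj (u g y)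
            - NiceNorm_c2 g (fderiv ℝ (c n) y) * conj (w g y)‖
            ≤ ‖fderiv ℝ (c n) y‖ * (‖u g y‖ + ‖w g y‖) := by
          refine (norm_sub_le _ _).trans ?_
          rw [norm_mul, norm_mul, RCLike.norm_conj, RCLike.norm_conj, mul_add]
          exact add_le_add (mul_le_mul_of_nonneg_right f2 (norm_nonneg _))
            (mul_le_mul_of_nonneg_right f3 (norm_nonneg _))
        rw [norm_mul]
        refine (mul_le_mul f1 f4 (norm_nonneg _) (abs_nonneg _)).trans ?_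
        show |C| * (‖fderiv ℝ (c n) y‖ * (‖u g y‖ + ‖w g y‖)) ≤
          |C| / 2 / t * ‖fderiv ℝ (c n) y‖ ^ 2 + |C| * t * (‖u g y‖ ^ 2 + ‖w g y‖ ^ 2)
        have f5 : |C| / 2 / t * ‖fderiv ℝ (c n) y‖ ^ 2 + |C| * t * (‖u g y‖ ^ 2 + ‖w g y‖ ^ 2)
            = |C| * (‖fderiv ℝ (c n) y‖ ^ 2 / (2 * t) + t * (‖u g y‖ ^ 2 + ‖w g y‖ ^ 2)) := by
          field_simp
        rw [f5]
        refine mul_le_mul_of_nonneg_left ?_ (abs_nonneg _)
        rw [← sub_nonneg]
        have f6 : ‖fderiv ℝ (c n) y‖ ^ 2 / (2 * t) + t * (‖u g y‖ ^ 2 + ‖w g y‖ ^ 2)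
            - ‖fderiv ℝ (c n) y‖ * (‖u g y‖ + ‖w g y‖)
            = ((‖fderiv ℝ (c n) y‖ - t * (‖u g y‖ + ‖w g y‖)) ^ 2
              + t ^ 2 * (‖u g y‖ - ‖w g y‖) ^ 2) / (2 * t) := by
          field_simp
          ring
        rw [f6]
        positivity
      · rw [integral_add hI1 hI2, integral_const_mul, integral_const_mul,
          integral_add (hu2 g) (hw2' g)]
        have f7 : ∫ y in body v, ‖fderiv ℝ (c n) y‖ ^ 2 ≤ ∫ y, ‖fderiv ℝ (c n) y‖ ^ 2 :=
          setIntegral_le_integral (hcI n) (Filter.Eventually.of_forall fun y => by positivity)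
        have f8 : |C| / 2 / t * ∫ y in body v, ‖fderiv ℝ (c n) y‖ ^ 2
            ≤ |C| / 2 / t * ∫ y, ‖fderiv ℝ (c n) y‖ ^ 2 :=
          mul_le_mul_of_nonneg_left f7 (by positivity)
        have f9 : |C| / 2 / t * ∫ y, ‖fderiv ℝ (c n) y‖ ^ 2
            = |C| / 2 * (∫ y, ‖fderiv ℝ (c n) y‖ ^ 2) / t := by ring
        linarith
    refine (Finset.sum_le_sum e2).trans (le_of_eq ?_)
    rw [Finset.sum_add_distrib, Finset.sum_const, Finset.card_univ, nsmul_eq_mul,
      ← Finset.sum_mul, ← Finset.mul_sum]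
    ring
  have hlim0 : Filter.Tendsto
      (fun n => |∑ g, ∫ y in body v, c n y * (‖u g y‖ ^ 2 - ‖w g y‖ ^ 2)|) Filter.atTop (𝓝 0) := by
    refine NiceNorm_tendsto ?_ (fun n => abs_nonneg _) hbound hcE
    refine mul_nonneg (abs_nonneg _) (Finset.sum_nonneg fun g _ => ?_)
    exact add_nonneg (integral_nonneg fun y => by positivity)
      (integral_nonneg fun y => by positivity)
  have hlim0' := (tendsto_zero_iff_abs_tendsto_zero _).2 hlim0
  have hlim1 : Filter.Tendsto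
      (fun n => ∑ g, ∫ y in body v, c n y * (‖u g y‖ ^ 2 - ‖w g y‖ ^ 2)) Filter.atTop
      (𝓝 (∑ g, ∫ y in body v, (‖u g y‖ ^ 2 - ‖w g y‖ ^ 2))) := by
    refine tendsto_finset_sum _ fun g _ => ?_
    refine tendsto_integral_of_dominated_convergence (fun y => ‖u g y‖ ^ 2 + ‖w g y‖ ^ 2)
      (fun n => ?_) ((hu2 g).add (hw2' g)) (fun n => ?_) ?_
    · exact ((hc n).continuous.aestronglyMeasurable).mul ((hu2 g).sub (hw2' g)).1
    · refine Filter.Eventually.of_forall fun y => ?_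
      rw [norm_mul, Real.norm_eq_abs, Real.norm_eq_abs, abs_of_nonneg (hc01 n y).1]
      have g1 : |‖u g y‖ ^ 2 - ‖w g y‖ ^ 2| ≤ ‖u g y‖ ^ 2 + ‖w g y‖ ^ 2 := by
        rw [abs_le]
        constructor <;> nlinarith [sq_nonneg ‖u g y‖, sq_nonneg ‖w g y‖]
      calc c n y * |‖u g y‖ ^ 2 - ‖w g y‖ ^ 2| ≤ 1 * |‖u g y‖ ^ 2 - ‖w g y‖ ^ 2| :=
            mul_le_mul_of_nonneg_right (hc01 n y).2 (abs_nonneg _)
        _ ≤ ‖u g y‖ ^ 2 + ‖w g y‖ ^ 2 := by rw [one_mul]; exact g1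
    · have g2 : ∀ᵐ y ∂(volume.restrict (body v)), y ∉ S := by
        rw [← measure_eq_zero_iff_ae_notMem]
        exact hN.fin.measure_zero _
      filter_upwards [g2] with y hy
      refine tendsto_const_nhds.congr' ?_
      filter_upwards [hclim y hy] with n hn
      rw [hn, one_mul]
  have hL := tendsto_nhds_unique hlim1 hlim0'
  have hL2 : ∑ g, ∫ y in body v, (‖u g y‖ ^ 2 - ‖w g y‖ ^ 2)
      = (∑ g, ∫ y in body v, ‖u g y‖ ^ 2) - (∑ g, ∫ y in body v, ‖w g y‖ ^ 2) := by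
    rw [← Finset.sum_sub_distrib]
    exact Finset.sum_congr rfl fun g _ => integral_sub (hu2 g) (hw2' g)
  rw [hL2] at hL
  linarith

end Pool.Agent.OBT
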