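import Mathlib
import Pool.Agent.OBT.Nice
import Pool.Agent.OBT.Stokes
import Pool.Agent.OBT.Cutoff

/-!
# Orthogonality of `∂ U`, `∂̄ U` and (anti)holomorphic functions
-/

open scoped ComplexConjugate Topology
open MeasureTheory

namespace Pool.Agent.OBT

variable {v : Fin 3 → ℂ}

theorem NiceOrth_comb (g : G v) (p q a b a' b' : ℂ) :
    p • DG g a b + q • DG g a' b' = DG g (p * a + q * a') (p * b + q * b') := by
  refine ContinuousLinearMap.ext fun h => ?_
  simp only [_root_.add_apply, _root_.smul_apply, DG_apply,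
    smul_eq_mul]
  ring

theorem NiceOrth_DG_zero (g : G v) : DG g 0 0 = 0 := by
  refine ContinuousLinearMap.ext fun h => ?_
  simp

/-- the two components of the derivative of a real function -/
noncomputable def NiceOrth_c1 (c : ℂ → ℝ) (g : G v) (y : ℂ) : ℂ :=
  ((fderiv ℝ c y ((g : ℂ ≃ₗᵢ[ℝ] ℂ).symm 1) : ℝ) -
    Complex.I * (fderiv ℝ c y ((g : ℂ ≃ₗᵢ[ℝ] ℂ).symm Complex.I) : ℝ)) / 2

noncomputable def NiceOrth_c2 (c : ℂ → ℝ) (g : G v) (y : ℂ) : ℂ :=
  ((fderiv ℝ c y ((g : ℂ ≃ₗᵢ[ℝ] ℂ).symm 1) : ℝ) +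
    Complex.I * (fderiv ℝ c y ((g : ℂ ≃ₗᵢ[ℝ] ℂ).symm Complex.I) : ℝ)) / 2

theorem NiceOrth_lin (g : G v) (c : ℂ → ℝ) (y : ℂ) :
    Complex.ofRealCLM.comp (fderiv ℝ c y) = DG g (NiceOrth_c1 c g y) (NiceOrth_c2 c g y) := by
  refine ContinuousLinearMap.ext fun h => ?_
  set k : ℂ := (g : ℂ ≃ₗᵢ[ℝ] ℂ) h with hk
  have hh : h = (g : ℂ ≃ₗᵢ[ℝ] ℂ).symm k := by rw [hk]; simp
  have hk2 : k = k.re • (1 : ℂ) + k.im • Complex.I := by
    simp [Complex.re_add_im]
  have h1 : fderiv ℝ c y h = k.re * fderiv ℝ c y ((g : ℂ ≃ₗᵢ[ℝ] ℂ).symm 1) +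
      k.im * fderiv ℝ c y ((g : ℂ ≃ₗᵢ[ℝ] ℂ).symm Complex.I) := by
    conv_lhs => rw [hh, hk2]
    rw [map_add, map_smul, map_smul, map_add, map_smul, map_smul, smul_eq_mul, smul_eq_mul]
  simp only [ContinuousLinearMap.comp_apply, DG_apply, ← hk]
  rw [h1]
  unfold NiceOrth_c1 NiceOrth_c2
  have e1 : k = (k.re : ℂ) + (k.im : ℂ) * Complex.I := (Complex.re_add_im k).symm
  have e2 : conj k = (k.re : ℂ) - (k.im : ℂ) * Complex.I := by
    apply Complex.ext <;> simp
  have hI : Complex.I * Complex.I = -1 := Complex.I_mul_I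
  generalize fderiv ℝ c y ((g : ℂ ≃ₗᵢ[ℝ] ℂ).symm 1) = P
  generalize fderiv ℝ c y ((g : ℂ ≃ₗᵢ[ℝ] ℂ).symm Complex.I) = Q
  rw [e2]
  simp only [Complex.ofRealCLM_apply, Complex.ofReal_add, Complex.ofReal_mul]
  linear_combination (-((P : ℂ) - Complex.I * Q) / 2) * e1 + ((k.im : ℂ) * Q) * hI

theorem NiceOrth_norm_c2 (c : ℂ → ℝ) (g : G v) (y : ℂ) :
    ‖NiceOrth_c2 c g y‖ ≤ ‖fderiv ℝ c y‖ := by
  unfold NiceOrth_c2
  have h1 : ‖fderiv ℝ c y ((g : ℂ ≃ₗᵢ[ℝ] ℂ).symm 1)‖ ≤ ‖fderiv ℝ c y‖ := by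
    refine ((fderiv ℝ c y).le_opNorm _).trans ?_
    rw [LinearIsometryEquiv.norm_map]; simp
  have h2 : ‖fderiv ℝ c y ((g : ℂ ≃ₗᵢ[ℝ] ℂ).symm Complex.I)‖ ≤ ‖fderiv ℝ c y‖ := by
    refine ((fderiv ℝ c y).le_opNorm _).trans ?_
    rw [LinearIsometryEquiv.norm_map]; simp
  rw [norm_div]
  have h3 : ‖((fderiv ℝ c y ((g : ℂ ≃ₗᵢ[ℝ] ℂ).symm 1) : ℝ) : ℂ) +
      Complex.I * ((fderiv ℝ c y ((g : ℂ ≃ₗᵢ[ℝ] ℂ).symm Complex.I) : ℝ) : ℂ)‖ ≤
      ‖fderiv ℝ c y‖ + ‖fderiv ℝ c y‖ := by
    refine (norm_add_le _ _).trans (add_le_add ?_ ?_)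
    · rw [Complex.norm_real]; exact h1
    · rw [norm_mul, Complex.norm_I, one_mul, Complex.norm_real]; exact h2
  have h4 : ‖(2 : ℂ)‖ = 2 := by simp
  rw [h4]
  linarith

theorem NiceOrth_cont {S : Set ℂ} (hS : S.Finite) {c : ℂ → ℂ} (hc : Continuous c) {δ : ℝ}
    (hδ : 0 < δ) (h0 : ∀ s ∈ S, ∀ y, dist y s < δ → c y = 0) {F : ℂ → ℂ}
    (hF : ContinuousOn F (body v \ S)) : ContinuousOn (fun y => c y * F y) (body v) := by
  intro y hy
  by_cases hyS : y ∈ S
  · have : (fun y => c y * F y) =ᶠ[𝓝 y] fun _ => 0 := by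
      filter_upwards [Metric.ball_mem_nhds y hδ] with z hz
      rw [h0 y hyS z hz, zero_mul]
    exact (continuousAt_const.congr this.symm).continuousWithinAt
  · have h1 : ContinuousWithinAt F (body v \ S) y := hF y ⟨hy, hyS⟩
    have h2 : ContinuousWithinAt F (body v) y := by
      have hn : Sᶜ ∈ 𝓝 y := hS.isClosed.isOpen_compl.mem_nhds hyS
      have : 𝓝[body v \ S] y = 𝓝[body v] y := by
        rw [Set.sdiff_eq]; exact nhdsWithin_inter_of_mem' (mem_nhdsWithin_of_mem_nhds hn)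
      unfold ContinuousWithinAt
      rw [← this]; exact h1
    exact hc.continuousWithinAt.mul h2

theorem NiceOrth_fderiv_zero {S : Set ℂ} {c : ℂ → ℝ} {δ : ℝ}
    (h0 : ∀ s ∈ S, ∀ y, dist y s < δ → c y = 0) : ∀ s ∈ S, ∀ y, dist y s < δ →
      fderiv ℝ c y = 0 := by
  intro s hs y hy
  have : c =ᶠ[𝓝 y] fun _ => 0 := by
    have : Metric.ball s δ ∈ 𝓝 y := Metric.isOpen_ball.mem_nhds hy
    filter_upwards [this] with z hz
    exact h0 s hs z hz
  rw [this.fderiv_eq]
  simp

theorem nice_orth_w (hv : AffineIndependent ℝ v) [Fintype (G v)] {U u w f : G v → ℂ → ℂ}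
    (h : Nice v U u w) (hf : Holo v f) : ∑ g, ∫ y in body v, w g y * f g y = 0 := by
  classical
  obtain ⟨S₁, hN⟩ := h
  obtain ⟨S₂, hH⟩ := hf
  set S : Set ℂ := S₁ ∪ S₂ with hSdef
  have hS : S.Finite := hN.fin.union hH.fin
  have hsub1 : body v \ S ⊆ body v \ S₁ := Set.sdiff_subset_sdiff_right Set.subset_union_left
  have hsub2 : body v \ S ⊆ body v \ S₂ := Set.sdiff_subset_sdiff_right Set.subset_union_right
  obtain ⟨f1, hf1c, hf1d⟩ := hH.deriv
  obtain ⟨u1, m, w2, hu1, hm, hw2, hdu, hdw⟩ := hN.second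
  obtain ⟨C, hC⟩ := hN.bdd
  -- continuity off `S`
  have cont_of : ∀ {F : ℂ → ℂ} {T : Set ℂ} {D : ℂ → ℂ →L[ℝ] ℂ}, body v \ S ⊆ body v \ T →
      (∀ y ∈ body v \ T, HasFDerivWithinAt F (D y) (body v) y) → ContinuousOn F (body v \ S) := by
    intro F T D hT hF y hy
    exact (hF y (hT hy)).continuousWithinAt.mono Set.sdiff_subset
  have cU : ∀ g, ContinuousOn (U g) (body v \ S) := fun g => cont_of hsub1 (hN.deriv g)
  have cu : ∀ g, ContinuousOn (u g) (body v \ S) := fun g => cont_of hsub1 (hdu g)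
  have cw : ∀ g, ContinuousOn (w g) (body v \ S) := fun g => cont_of hsub1 (hdw g)
  have cf : ∀ g, ContinuousOn (f g) (body v \ S) := fun g => cont_of hsub2 (hf1d g)
  have cf1 : ∀ g, ContinuousOn (f1 g) (body v \ S) := fun g => (hf1c g).mono hsub2
  obtain ⟨c, hc1, hc2, hc3, hc4, hc5, hc6⟩ := exists_cutoffs S hS
  have hcc : ∀ n, Continuous (fun y => (c n y : ℂ)) := fun n =>
    Complex.continuous_ofReal.comp (hc1 n).continuous
  have hcd : ∀ n (z : ℂ), Continuous (fun y => ((fderiv ℝ (c n) y z : ℝ) : ℂ)) := fun n z =>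
    Complex.continuous_ofReal.comp
      (((hc1 n).continuous_fderiv one_ne_zero).clm_apply continuous_const)
  have hcc1 : ∀ n (g : G v), Continuous (NiceOrth_c1 (c n) g) := fun n g => by
    unfold NiceOrth_c1
    exact ((hcd n _).sub (continuous_const.mul (hcd n _))).div_const _
  have hcc2 : ∀ n (g : G v), Continuous (NiceOrth_c2 (c n) g) := fun n g => by
    unfold NiceOrth_c2
    exact ((hcd n _).add (continuous_const.mul (hcd n _))).div_const _
  have hcomp : IsCompact (body v) := isCompact_body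
  -- the two families of integrands are continuous
  have kA : ∀ n g, ContinuousOn (fun y => NiceOrth_c2 (c n) g y * (U g y * f g y)) (body v) := by
    intro n g
    obtain ⟨δ, hδ, h0⟩ := hc3 n
    refine NiceOrth_cont hS (hcc2 n g) hδ ?_ ((cU g).mul (cf g))
    intro s hs y hy
    unfold NiceOrth_c2
    rw [NiceOrth_fderiv_zero h0 s hs y hy]; simp
  have kB : ∀ n g, ContinuousOn (fun y => (c n y : ℂ) * (w g y * f g y)) (body v) := by
    intro n g
    obtain ⟨δ, hδ, h0⟩ := hc3 n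
    refine NiceOrth_cont hS (hcc n) hδ ?_ ((cw g).mul (cf g))
    intro s hs y hy
    rw [h0 s hs y hy]; simp
  have kC : ∀ n g, ContinuousOn (fun y => NiceOrth_c1 (c n) g y * (U g y * f g y)) (body v) := by
    intro n g
    obtain ⟨δ, hδ, h0⟩ := hc3 n
    refine NiceOrth_cont hS (hcc1 n g) hδ ?_ ((cU g).mul (cf g))
    intro s hs y hy
    unfold NiceOrth_c1
    rw [NiceOrth_fderiv_zero h0 s hs y hy]; simp
  have kD : ∀ n g, ContinuousOn (fun y => (c n y : ℂ) * (u g y * f g y + U g y * f1 g y))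
      (body v) := by
    intro n g
    obtain ⟨δ, hδ, h0⟩ := hc3 n
    refine NiceOrth_cont hS (hcc n) hδ ?_ (((cu g).mul (cf g)).add ((cU g).mul (cf1 g)))
    intro s hs y hy
    rw [h0 s hs y hy]; simp
  -- Stokes
  have hst : ∀ n, ∑ g : G v, ((∫ y in body v, NiceOrth_c2 (c n) g y * (U g y * f g y)) +
      ∫ y in body v, (c n y : ℂ) * (w g y * f g y)) = 0 := by
    intro n
    obtain ⟨δ, hδ, h0⟩ := hc3 n
    have hst := (stokes hv (fun g y => (c n y : ℂ) * (U g y * f g y))
      (fun g y => NiceOrth_c1 (c n) g y * (U g y * f g y) +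
        (c n y : ℂ) * (u g y * f g y + U g y * f1 g y))
      (fun g y => NiceOrth_c2 (c n) g y * (U g y * f g y) + (c n y : ℂ) * (w g y * f g y))
      ?_ ?_ (fun g => (kC n g).add (kD n g)) (fun g => (kA n g).add (kB n g))).2
    · rw [← hst]
      refine Finset.sum_congr rfl fun g _ => ?_
      exact (integral_add ((kA n g).integrableOn_compact hcomp)
        ((kB n g).integrableOn_compact hcomp)).symm
    · intro g k y hy
      by_cases hyS : y ∈ S
      · have : c n y = 0 := h0 y hyS y (by simpa using hδ)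
        simp [this]
      · have h1 : y ∈ edge v k \ S₁ := ⟨hy.1, fun hh => hyS (Or.inl hh)⟩
        have h2 : y ∈ edge v k \ S₂ := ⟨hy.1, fun hh => hyS (Or.inr hh)⟩
        simp only
        rw [hN.compat g k y h1, hH.compat g k y h2]
    · intro g y hy
      by_cases hyS : y ∈ S
      · have hc0 : c n y = 0 := h0 y hyS y (by simpa using hδ)
        have hd0 : fderiv ℝ (c n) y = 0 :=
          NiceOrth_fderiv_zero h0 y hyS y (by simpa using hδ)
        have e1 : NiceOrth_c1 (c n) g y = 0 := by unfold NiceOrth_c1; rw [hd0]; simp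
        have e2 : NiceOrth_c2 (c n) g y = 0 := by unfold NiceOrth_c2; rw [hd0]; simp
        rw [e1, e2, hc0]
        simp only [Complex.ofReal_zero, zero_mul, add_zero]
        rw [NiceOrth_DG_zero]
        have : (fun y => (c n y : ℂ) * (U g y * f g y)) =ᶠ[𝓝 y] fun _ => 0 := by
          filter_upwards [Metric.ball_mem_nhds y hδ] with z hz
          rw [h0 y hyS z hz]; simp
        exact ((hasFDerivAt_const (0 : ℂ) y).congr_of_eventuallyEq this).hasFDerivWithinAt
      · have h1 : y ∈ body v \ S := ⟨hy, hyS⟩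
        have d1 : HasFDerivWithinAt (fun y => (c n y : ℂ))
            (DG g (NiceOrth_c1 (c n) g y) (NiceOrth_c2 (c n) g y)) (body v) y := by
          rw [← NiceOrth_lin]
          have : HasFDerivAt (c n) (fderiv ℝ (c n) y) y :=
            ((hc1 n).differentiable (by norm_num)).differentiableAt.hasFDerivAt
          exact (Complex.ofRealCLM.hasFDerivAt.comp y this).hasFDerivWithinAt
        have d2 := (hN.deriv g y (hsub1 h1)).mul (hf1d g y (hsub2 h1))
        have d3 := d1.mul d2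
        refine d3.congr_fderiv ?_
        rw [NiceOrth_comb, NiceOrth_comb, Pi.mul_apply]
        congr 1 <;> ring
  -- limits
  have hnull : ∀ᵐ y ∂(volume.restrict (body v)), y ∉ S := by
    refine ae_restrict_of_ae ?_
    exact (measure_eq_zero_iff_ae_notMem).1 (hS.measure_zero volume)
  have hB : ∀ g, Filter.Tendsto (fun n => ∫ y in body v, (c n y : ℂ) * (w g y * f g y))
      Filter.atTop (𝓝 (∫ y in body v, w g y * f g y)) := by
    intro g
    have hint : Integrable (fun y => w g y * f g y) (volume.restrict (body v)) :=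
      (hN.L2b g).integrable_mul (hH.L2 g)
    refine tendsto_integral_of_dominated_convergence (fun y => ‖w g y * f g y‖) ?_ hint.norm ?_ ?_
    · intro n
      exact ((kB n g).integrableOn_compact hcomp).aestronglyMeasurable
    · intro n
      refine Filter.Eventually.of_forall fun y => ?_
      rw [norm_mul, Complex.norm_real]
      have h1 := hc2 n y
      have : ‖c n y‖ ≤ 1 := by rw [Real.norm_eq_abs, abs_le]; constructor <;> linarith [h1.1, h1.2]
      exact mul_le_of_le_one_left (norm_nonneg _) this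
    · filter_upwards [hnull] with y hy
      refine tendsto_const_nhds.congr' ?_
      filter_upwards [hc4 y hy] with n hn
      rw [hn]; simp
  have hA : ∀ g, Filter.Tendsto (fun n => ∫ y in body v,
      NiceOrth_c2 (c n) g y * (U g y * f g y)) Filter.atTop (𝓝 0) := by
    intro g
    set C' : ℝ := max C 0 with hC'
    have hfr : MemLp (fun y => C' * ‖f g y‖) 2 (volume.restrict (body v)) :=
      (hH.L2 g).norm.const_mul C'
    have hcr : ∀ n, MemLp (fun y => ‖fderiv ℝ (c n) y‖) 2 (volume.restrict (body v)) := by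
      intro n
      have hm1 : AEStronglyMeasurable (fun y => ‖fderiv ℝ (c n) y‖)
          (volume.restrict (body v)) :=
        ((hc1 n).continuous_fderiv one_ne_zero).norm.aestronglyMeasurable
      rw [memLp_two_iff_integrable_sq hm1]
      exact (hc5 n).restrict
    have hbound : ∀ n, ‖∫ y in body v, NiceOrth_c2 (c n) g y * (U g y * f g y)‖ ≤
        (∫ y, ‖fderiv ℝ (c n) y‖ ^ 2) ^ (1 / 2 : ℝ) *
          (∫ y in body v, (C' * ‖f g y‖) ^ (2 : ℝ)) ^ (1 / 2 : ℝ) := by
      intro n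
      have hp : (2 : ℝ).HolderConjugate 2 := Real.HolderConjugate.two_two
      have e2 : ENNReal.ofReal 2 = 2 := by norm_num
      have key := integral_mul_le_Lp_mul_Lq_of_nonneg (μ := volume.restrict (body v)) hp
        (f := fun y => ‖fderiv ℝ (c n) y‖) (g := fun y => C' * ‖f g y‖)
        (Filter.Eventually.of_forall fun y => norm_nonneg _)
        (Filter.Eventually.of_forall fun y => mul_nonneg (le_max_right _ _) (norm_nonneg _))
        (by rw [e2]; exact hcr n) (by rw [e2]; exact hfr)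
      refine (norm_integral_le_integral_norm _).trans ?_
      refine le_trans ?_ (key.trans ?_)
      · refine setIntegral_mono_on ((kA n g).integrableOn_compact hcomp).norm
          ((hcr n).integrable_mul hfr) hcomp.measurableSet ?_
        intro y hy
        rw [norm_mul, norm_mul]
        refine mul_le_mul (NiceOrth_norm_c2 _ _ _) ?_ (by positivity) (norm_nonneg _)
        exact mul_le_mul_of_nonneg_right ((hC g y hy).trans (le_max_left _ _)) (norm_nonneg _)
      · refine mul_le_mul_of_nonneg_right ?_ (Real.rpow_nonneg ?_ _)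
        · refine Real.rpow_le_rpow (integral_nonneg fun y => by positivity) ?_ (by norm_num)
          have : ∀ y, ‖fderiv ℝ (c n) y‖ ^ (2 : ℝ) = ‖fderiv ℝ (c n) y‖ ^ 2 := fun y => by
            norm_cast
          simp only [this]
          exact setIntegral_le_integral (hc5 n)
            (Filter.Eventually.of_forall fun y => by positivity)
        · exact integral_nonneg fun y => Real.rpow_nonneg
            (mul_nonneg (le_max_right _ _) (norm_nonneg _)) _
    refine squeeze_zero_norm hbound ?_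
    have h1 : Filter.Tendsto (fun n => (∫ y, ‖fderiv ℝ (c n) y‖ ^ 2) ^ (1 / 2 : ℝ))
        Filter.atTop (𝓝 ((0 : ℝ) ^ (1 / 2 : ℝ))) :=
      hc6.rpow_const (Or.inr (by norm_num))
    rw [Real.zero_rpow (by norm_num)] at h1
    simpa using h1.mul_const _
  have hlim : Filter.Tendsto (fun n => ∑ g : G v,
      ((∫ y in body v, NiceOrth_c2 (c n) g y * (U g y * f g y)) +
      ∫ y in body v, (c n y : ℂ) * (w g y * f g y))) Filter.atTop
      (𝓝 (∑ g : G v, (0 + ∫ y in body v, w g y * f g y))) :=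
    tendsto_finsetSum _ fun g _ => (hA g).add (hB g)
  have := tendsto_nhds_unique hlim (by simp only [hst]; exact tendsto_const_nhds)
  simpa using this

theorem NiceOrth_conj_DG {F : ℂ → ℂ} {g : G v} {p q : ℂ} {s : Set ℂ} {y : ℂ}
    (h : HasFDerivWithinAt F (DG g p q) s y) :
    HasFDerivWithinAt (fun y => conj (F y)) (DG g (conj q) (conj p)) s y := by
  have h1 : HasFDerivWithinAt (fun y => conj (F y))
      (((Complex.conjCLE : ℂ ≃L[ℝ] ℂ) : ℂ →L[ℝ] ℂ).comp (DG g p q)) s y :=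
    (((Complex.conjCLE : ℂ ≃L[ℝ] ℂ) : ℂ →L[ℝ] ℂ).hasFDerivAt.comp_hasFDerivWithinAt y h)
  refine h1.congr_fderiv ?_
  refine ContinuousLinearMap.ext fun z => ?_
  simp
  ring

theorem NiceOrth_conj {U u w : G v → ℂ → ℂ} (h : Nice v U u w) :
    Nice v (fun g y => conj (U g y)) (fun g y => conj (w g y)) (fun g y => conj (u g y)) := by
  obtain ⟨S, hN⟩ := h
  obtain ⟨C, hC⟩ := hN.bdd
  obtain ⟨u1, m, w2, hu1, hm, hw2, hdu, hdw⟩ := hN.second
  refine ⟨S, ⟨hN.fin, ⟨C, fun g y hy => ?_⟩, ?_, ?_, ?_, ?_, ?_, ?_, ?_⟩⟩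
  · rw [RCLike.norm_conj]; exact hC g y hy
  · intro g k y hy; simp only; rw [hN.compat g k y hy]
  · intro g k y hy; simp only; rw [hN.compat2 g k y hy]
  · intro g k y hy; simp only; rw [hN.compat1 g k y hy]
  · intro g y hy; exact NiceOrth_conj_DG (hN.deriv g y hy)
  · refine ⟨fun g y => conj (w2 g y), fun g y => conj (m g y), fun g y => conj (u1 g y),
      fun g => Complex.continuous_conj.comp_continuousOn (hw2 g),
      fun g => Complex.continuous_conj.comp_continuousOn (hm g),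
      fun g => Complex.continuous_conj.comp_continuousOn (hu1 g),
      fun g y hy => NiceOrth_conj_DG (hdw g y hy), fun g y hy => NiceOrth_conj_DG (hdu g y hy)⟩
  · intro g; exact (hN.L2b g).star
  · intro g; exact (hN.L2a g).star

theorem nice_orth_u (hv : AffineIndependent ℝ v) [Fintype (G v)] {U u w f : G v → ℂ → ℂ}
    (h : Nice v U u w) (hf : Holo v f) : ∑ g, ∫ y in body v, u g y * conj (f g y) = 0 := by
  have h1 := nice_orth_w hv (NiceOrth_conj h) hf
  have h2 := congrArg conj h1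
  rw [map_sum, map_zero] at h2
  rw [← h2]
  refine Finset.sum_congr rfl fun g _ => ?_
  rw [← integral_conj]
  simp

end Pool.Agent.OBT
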