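import Mathlib
import Pool.Agent.OBT.Grp
import Pool.Agent.OBT.NiceAlg
import Pool.Agent.OBT.NiceNorm
import Pool.Agent.OBT.NiceOrth
import Pool.Agent.OBT.Hilb
import Pool.Agent.OBT.L8

/-!
# The criterion: vanishing of all coefficients for a lattice triangle
-/

open scoped ComplexConjugate Topology MatrixGroups UpperHalfPlane
open MeasureTheory

namespace Pool.Agent.OBT

variable {v : Fin 3 → ℂ}

/-- the map `w ↦ conj (-conj (C w)) = - C w` of the upper half plane to the disc -/
theorem Crit_norm_cayley {w : ℂ} (hw : 0 < w.im) :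
    ‖-((w - Complex.I) / (w + Complex.I))‖ < 1 := by
  have hne : w + Complex.I ≠ 0 := by
    intro h
    have := congrArg Complex.im h
    simp at this
    linarith
  rw [norm_neg, norm_div, div_lt_one (norm_pos_iff.mpr hne)]
  have h1 : ‖w - Complex.I‖ ^ 2 < ‖w + Complex.I‖ ^ 2 := by
    rw [← Complex.normSq_eq_norm_sq, ← Complex.normSq_eq_norm_sq, Complex.normSq_apply,
      Complex.normSq_apply]
    simp
    nlinarith
  exact lt_of_pow_lt_pow_left₀ 2 (norm_nonneg _) h1

/-- every point of the disc comes from the upper half plane -/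
theorem Crit_cayley_surj {μ : ℂ} (hμ : ‖μ‖ < 1) : ∃ w : ℂ, 0 < w.im ∧
    -conj ((w - Complex.I) / (w + Complex.I)) = μ := by
  set c : ℂ := -conj μ with hc
  have hcn : ‖c‖ < 1 := by rw [hc, norm_neg, Complex.norm_conj]; exact hμ
  have h1 : (1 : ℂ) - c ≠ 0 := by
    intro h
    have : c = 1 := (sub_eq_zero.mp h).symm
    rw [this] at hcn
    simp at hcn
  refine ⟨Complex.I * ((1 + c) / (1 - c)), ?_, ?_⟩
  · have h2 : (Complex.I * ((1 + c) / (1 - c))).im = ((1 + c) / (1 - c)).re := by
      simp [Complex.mul_im]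
    rw [h2]
    have h3 : ((1 + c) / (1 - c)).re = (1 - Complex.normSq c) / Complex.normSq (1 - c) := by
      rw [Complex.div_re]
      simp [Complex.normSq_apply]
      ring
    rw [h3]
    apply div_pos
    · rw [Complex.normSq_eq_norm_sq]
      nlinarith [norm_nonneg c]
    · exact Complex.normSq_pos.mpr h1
  · have h4 : (Complex.I * ((1 + c) / (1 - c)) - Complex.I) /
        (Complex.I * ((1 + c) / (1 - c)) + Complex.I) = c := by
      have h5 : Complex.I * ((1 + c) / (1 - c)) + Complex.I ≠ 0 := by
        have : Complex.I * ((1 + c) / (1 - c)) + Complex.I = 2 * Complex.I / (1 - c) := by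
          field_simp
          ring
        rw [this]
        exact div_ne_zero (mul_ne_zero two_ne_zero Complex.I_ne_zero) h1
      rw [div_eq_iff h5]
      field_simp
      ring
    rw [h4, hc]
    simp

/-- the complex conjugate of a square integrable function -/
theorem Crit_memLp_conj {f : ℂ → ℂ} {μ : Measure ℂ} (hf : MemLp f 2 μ) :
    MemLp (fun y => conj (f y)) 2 μ := by
  have := hf.star
  exact this

/-- vanishing of the bounded holomorphic function of `hilbert_core` from the vanishing on the
orbit -/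
theorem Crit_E_zero (hL : LatticeTriangle v) (E : ℂ → ℂ)
    (hE : DifferentiableOn ℂ E (Metric.ball 0 1))
    (C : ℝ) (hC : ∀ μ ∈ Metric.ball (0 : ℂ) 1, ‖E μ‖ ≤ C)
    (h0 : ∀ A ∈ veech v, E (cb A / ca A) = 0) : ∀ μ ∈ Metric.ball (0 : ℂ) 1, E μ = 0 := by
  set F : ℂ → ℂ := fun w => conj (E (conj (-((w - Complex.I) / (w + Complex.I))))) with hF
  have hball : ∀ w : ℂ, 0 < w.im →
      conj (-((w - Complex.I) / (w + Complex.I))) ∈ Metric.ball (0 : ℂ) 1 := by
    intro w hw
    rw [mem_ball_zero_iff, Complex.norm_conj]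
    exact Crit_norm_cayley hw
  have hdiff : DifferentiableOn ℂ F {z | 0 < z.im} := by
    intro w hw
    have hw' : 0 < w.im := hw
    have hne : w + Complex.I ≠ 0 := by
      intro h
      have := congrArg Complex.im h
      simp at this
      linarith
    have h1 : DifferentiableAt ℂ E (conj (-((w - Complex.I) / (w + Complex.I)))) :=
      (hE _ (hball w hw')).differentiableAt (Metric.isOpen_ball.mem_nhds (hball w hw'))
    have h2 := h1.conj_conj
    rw [Complex.conj_conj] at h2
    have h3 : DifferentiableAt ℂ (fun w : ℂ => -((w - Complex.I) / (w + Complex.I))) w := by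
      have : DifferentiableAt ℂ (fun w : ℂ => (w - Complex.I) / (w + Complex.I)) w :=
        DifferentiableAt.div (by fun_prop) (by fun_prop) hne
      exact this.neg
    exact (DifferentiableAt.comp w h2 h3).differentiableWithinAt
  have hbd : ∀ z : ℍ, ‖F z‖ ≤ C := by
    intro z
    rw [hF]
    simp only [Complex.norm_conj]
    exact hC _ (hball z z.im_pos)
  have hvan : ∀ γ ∈ veech v, F ((γ • (UpperHalfPlane.I : ℍ) : ℍ) : ℂ) = 0 := by
    intro γ hγ
    have h1 := h0 γ⁻¹ ((veech v).inv_mem hγ)
    rw [cb_div_ca γ⁻¹, inv_inv] at h1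
    rw [hF]
    simp only
    rw [map_neg, h1, map_zero]
  intro μ hμ
  obtain ⟨w, hw, hwμ⟩ := Crit_cayley_surj (mem_ball_zero_iff.mp hμ)
  have h1 := lattice_bounded_zero (veech v) hL F hdiff C hbd hvan ⟨w, hw⟩
  have h2 : F w = 0 := h1
  rw [hF] at h2
  simp only at h2
  rw [map_neg, hwμ] at h2
  have h3 := congrArg conj h2
  rw [Complex.conj_conj, map_zero] at h3
  exact h3

theorem criterion_core (hv : AffineIndependent ℝ v) [Fintype (G v)] (hL : LatticeTriangle v)
    (f h : G v → ℂ → ℂ) (hf : Holo v f) (hh : Holo v h)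
    (horth : ∑ g, ∫ y in body v, conj (f g y) * h g y = 0)
    (haff : ∀ (A : SL(2, ℝ)) (φ : Surf v ≃ₜ Surf v), IsAffine A φ → ∃ s t : ℂ, s ≠ 0 ∧
      ∃ U : G v → ℂ → ℂ, Nice v U (fun g y => ca A * pull φ f g y - s * f g y)
        (fun g y => cb A * pull φ f g y - t * conj (f g y)))
    (M : ℕ) (x k : ℕ → G v → ℂ → ℂ) (hx0 : x 0 = f)
    (hk : ∀ m < M, Holo v (k m))
    (hx : ∀ m < M, ∃ U : G v → ℂ → ℂ,
      Nice v U (x (m + 1)) (fun g y => x m g y - conj (k m g y))) :
    ∑ g, ∫ y in body v, x M g y * h g y = 0 := by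
  classical
  obtain ⟨Sf, hSf⟩ := hf
  obtain ⟨Sh, hSh⟩ := hh
  have hf2 := hSf.L2
  have hh2 := hSh.L2
  have hhc : ∀ g, MemLp ((fun (g : G v) (y : ℂ) => conj (h g y)) g) 2
      (volume.restrict (body v)) := fun g => Crit_memLp_conj (hh2 g)
  have conj_int : ∀ F : G v → ℂ → ℂ, ∑ g, ∫ y in body v, conj (F g y) =
      conj (∑ g, ∫ y in body v, F g y) := by
    intro F
    rw [map_sum]
    refine Finset.sum_congr rfl fun g _ => ?_
    exact integral_conj
  obtain ⟨W, hWmem⟩ := exists_WW v
  -- the norm
  have hW : ∀ p ∈ W, ‖p.1‖ = ‖p.2‖ := by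
    intro p hp
    obtain ⟨U, u, w, hu, hw, hN, rfl⟩ := (hWmem p).mp hp
    have h1 := norm_toHH_sq u hu
    have h2 := norm_toHH_sq w hw
    have h3 := nice_norm hv hN
    have h4 : ‖toHH u hu‖ ^ 2 = ‖toHH w hw‖ ^ 2 := by rw [h1, h2, h3]
    exact (pow_left_inj₀ (norm_nonneg _) (norm_nonneg _) two_ne_zero).mp h4
  have he : ∀ p ∈ W, inner ℂ p.1 (toHH f hf2) = 0 := by
    intro p hp
    obtain ⟨U, u, w, hu, hw, hN, rfl⟩ := (hWmem p).mp hp
    simp only
    rw [inner_toHH]
    have h1 := nice_orth_u hv hN ⟨Sf, hSf⟩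
    have h2 : ∀ g : G v, ∀ y : ℂ, conj (u g y) * f g y = conj (u g y * conj (f g y)) := by
      intro g y; simp
    simp only [h2]
    rw [conj_int (fun g y => u g y * conj (f g y)), h1, map_zero]
  -- antiholomorphic functions are orthogonal to the second components
  have hanti : ∀ (F : G v → ℂ → ℂ) (_ : Holo v F)
      (hF : ∀ g, MemLp ((fun (g : G v) (y : ℂ) => conj (F g y)) g) 2
      (volume.restrict (body v))), ∀ p ∈ W,
      inner ℂ p.2 (toHH (fun (g : G v) (y : ℂ) => conj (F g y)) hF) = 0 := by
    intro F hFh hF p hp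
    obtain ⟨U, u, w, hu, hw, hN, rfl⟩ := (hWmem p).mp hp
    simp only
    rw [inner_toHH]
    have h1 := nice_orth_w hv hN hFh
    have h2 : ∀ g : G v, ∀ y : ℂ, conj (w g y) * conj (F g y) = conj (w g y * F g y) := by
      intro g y; simp
    simp only [h2]
    rw [conj_int (fun g y => w g y * F g y), h1, map_zero]
  have hg : ∀ p ∈ W, inner ℂ p.2 (toHH (fun (g : G v) (y : ℂ) => conj (h g y)) hhc) = 0 :=
    hanti h ⟨Sh, hSh⟩ hhc
  obtain ⟨E, hE, ⟨C, hC⟩, _, hvan, hlast⟩ := hilbert_core W hW (toHH f hf2)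
    (toHH (fun (g : G v) (y : ℂ) => conj (h g y)) hhc) he hg
  -- vanishing on the orbit
  have horbit : ∀ A ∈ veech v, E (cb A / ca A) = 0 := by
    intro A hA
    obtain ⟨φ, hφ⟩ := (mem_veech_iff A).mp hA
    obtain ⟨s, t, hs, U, hN⟩ := haff A φ hφ
    obtain ⟨S, hS⟩ := hN
    have hu := hS.L2a
    have hw := hS.L2b
    have hsf : ∀ g, MemLp ((fun (g : G v) (y : ℂ) => s * f g y) g) 2
        (volume.restrict (body v)) := fun g => (hf2 g).const_mul s
    have hcf : ∀ g, MemLp ((fun (g : G v) (y : ℂ) => conj (f g y)) g) 2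
        (volume.restrict (body v)) := fun g => Crit_memLp_conj (hf2 g)
    have htf : ∀ g, MemLp ((fun (g : G v) (y : ℂ) => t * conj (f g y)) g) 2
        (volume.restrict (body v)) := fun g => (hcf g).const_mul t
    have hap : ∀ g, MemLp ((fun (g : G v) (y : ℂ) => ca A * pull φ f g y) g) 2
        (volume.restrict (body v)) := by
      intro g
      have := (hu g).add (hsf g)
      convert this using 1
      funext y
      simp
    have hpp : ∀ g, MemLp (pull φ f g) 2 (volume.restrict (body v)) := by
      intro g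
      have := (hap g).const_mul (ca A)⁻¹
      convert this using 1
      funext y
      rw [← mul_assoc, inv_mul_cancel₀ (ca_ne_zero A), one_mul]
    have hbp : ∀ g, MemLp ((fun (g : G v) (y : ℂ) => cb A * pull φ f g y) g) 2
        (volume.restrict (body v)) := fun g => (hpp g).const_mul (cb A)
    have hμ : cb A / ca A ∈ Metric.ball (0 : ℂ) 1 := by
      rw [mem_ball_zero_iff]; exact norm_cb_div_ca_lt_one A
    refine hvan _ hμ (toHH (fun g y => ca A * pull φ f g y) hap)
      (toHH (fun g y => t * conj (f g y)) htf) s hs ?_ ?_ ?_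
    · intro p hp
      rw [toHH_smul t (fun g y => conj (f g y)) hcf htf, inner_smul_right,
        hanti f ⟨Sf, hSf⟩ hcf p hp, mul_zero]
    · rw [toHH_smul t (fun g y => conj (f g y)) hcf htf, inner_smul_right, inner_toHH]
      have h2 : ∀ g : G v, ∀ y : ℂ, conj (conj (h g y)) * conj (f g y) =
          conj (f g y) * h g y := by
        intro g y; rw [Complex.conj_conj, mul_comm]
      simp only [h2]
      rw [horth, mul_zero]
    · rw [hWmem]
      refine ⟨U, _, _, hu, hw, ⟨S, hS⟩, ?_⟩
      rw [Prod.mk.injEq]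
      constructor
      · rw [sub_eq_iff_eq_add]
        rw [← toHH_smul s f hf2 hsf]
        have h1 := toHH_add (fun g y => ca A * pull φ f g y - s * f g y)
          (fun g y => s * f g y) hu hsf (by
            intro g
            have := hap g
            convert this using 1
            funext y
            simp)
        rw [← h1]
        congr 1
        funext g y
        simp
      · rw [sub_eq_iff_eq_add]
        rw [toHH_smul (ca A) (pull φ f) hpp hap, smul_smul,
          div_mul_cancel₀ _ (ca_ne_zero A), ← toHH_smul (cb A) (pull φ f) hpp hbp]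
        have h1 := toHH_add (fun g y => cb A * pull φ f g y - t * conj (f g y))
          (fun g y => t * conj (f g y)) hw htf (by
            intro g
            have := hbp g
            convert this using 1
            funext y
            simp)
        rw [← h1]
        congr 1
        funext g y
        simp
  have hE0 := Crit_E_zero hL E hE C hC horbit
  have hlast' := hlast hE0
  -- the sequence
  have hxm : ∀ m ≤ M, ∀ g, MemLp (x m g) 2 (volume.restrict (body v)) := by
    intro m hm g
    rcases m with _ | m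
    · rw [hx0]; exact hf2 g
    · obtain ⟨U, S, hS⟩ := hx m (by omega)
      exact hS.L2a g
  have hkm : ∀ m < M, ∀ g, MemLp ((fun (g : G v) (y : ℂ) => conj (k m g y)) g) 2
      (volume.restrict (body v)) := by
    intro m hm g
    obtain ⟨S, hS⟩ := hk m hm
    exact Crit_memLp_conj (hS.L2 g)
  let X : ℕ → HH v := fun m => if hm : m ≤ M then toHH (x m) (hxm m hm) else 0
  let N : ℕ → HH v := fun m => if hm : m < M then
    toHH (fun (g : G v) (y : ℂ) => conj (k m g y)) (hkm m hm) else 0
  have hX : ∀ m (hm : m ≤ M), X m = toHH (x m) (hxm m hm) := fun m hm => dif_pos hm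
  have hNN : ∀ m (hm : m < M), N m =
      toHH (fun (g : G v) (y : ℂ) => conj (k m g y)) (hkm m hm) := fun m hm => dif_pos hm
  have hfin := hlast' M X N (by
      rw [hX 0 (Nat.zero_le _)]
      congr 1) (by
      intro m hm
      rw [hX (m + 1) hm, hX m hm.le, hNN m hm, hWmem]
      obtain ⟨U, S, hS⟩ := hx m hm
      refine ⟨U, _, _, hS.L2a, hS.L2b, ⟨S, hS⟩, ?_⟩
      rw [Prod.mk.injEq]
      refine ⟨rfl, ?_⟩
      rw [sub_eq_iff_eq_add]
      have h1 := toHH_add (fun g y => x m g y - conj (k m g y))
        (fun g y => conj (k m g y)) hS.L2b (hkm m hm) (by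
          intro g
          have := hxm m hm.le g
          convert this using 1
          funext y
          simp)
      rw [← h1]
      congr 1
      funext g y
      simp) (by
      intro m hm p hp
      rw [hNN m hm]
      exact hanti (k m) (hk m hm) (hkm m hm) p hp)
  rw [hX M le_rfl, inner_toHH] at hfin
  have h2 : ∀ g : G v, ∀ y : ℂ, conj (conj (h g y)) * x M g y = x M g y * h g y := by
    intro g y; rw [Complex.conj_conj, mul_comm]
  simp only [h2] at hfin
  exact hfin

end Pool.Agent.OBT
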