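import Mathlib
import Pool.Agent.OBT.Hilb2

/-!
# The Hilbert space part of the criterion: two chains with orthogonal corrections
-/

open scoped ComplexConjugate Topology

namespace Pool.Agent.OBT

/-- the image of `T` is orthogonal to the vectors orthogonal to the first components -/
theorem Hilb3_orth {H : Type*} [NormedAddCommGroup H] [InnerProductSpace ℂ H] [CompleteSpace H]
    (W : Submodule ℂ (H × H)) (T : H →L[ℂ] H)
    (hT1 : ∀ p ∈ W, T p.2 = p.1) (hT2 : ∀ q, (∀ p ∈ W, inner ℂ p.2 q = 0) → T q = 0)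
    {n : H} (hn : ∀ p ∈ W, inner ℂ p.1 n = 0) (z : H) : inner ℂ n (T z) = 0 := by
  set K : Submodule ℂ H := (W.map (LinearMap.snd ℂ H H)).topologicalClosure with hK
  haveI : CompleteSpace K :=
    (W.map (LinearMap.snd ℂ H H)).isClosed_topologicalClosure.completeSpace_coe
  obtain ⟨u, hu, v, hv, rfl⟩ := K.exists_add_mem_mem_orthogonal z
  have h1 : T v = 0 := by
    apply hT2
    intro q hq
    apply (Submodule.mem_orthogonal K v).1 hv
    exact Submodule.le_topologicalClosure _ ⟨q, hq, rfl⟩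
  have h3 : ∀ u ∈ K, inner ℂ n (T u) = 0 := by
    intro u hu
    have h4 : closure ((W.map (LinearMap.snd ℂ H H) : Submodule ℂ H) : Set H) ⊆
        {u | inner ℂ n (T u) = 0} := by
      apply closure_minimal
      · rintro _ ⟨q, hq, rfl⟩
        show inner ℂ n (T q.2) = 0
        rw [hT1 q hq]
        exact inner_eq_zero_symm.mp (hn q hq)
      · exact isClosed_eq (by fun_prop) (by fun_prop)
    exact h4 hu
  rw [map_add, h1, add_zero, h3 u hu]

theorem hilbert_core3 {H : Type*} [NormedAddCommGroup H] [InnerProductSpace ℂ H] [CompleteSpace H]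
    (W : Submodule ℂ (H × H)) (hW : ∀ p ∈ W, ‖p.1‖ = ‖p.2‖) (e g : H)
    (he : ∀ p ∈ W, inner ℂ p.1 e = 0) (hg : ∀ p ∈ W, inner ℂ p.2 g = 0) :
    ∃ E : ℂ → ℂ, DifferentiableOn ℂ E (Metric.ball 0 1) ∧
      (∃ C : ℝ, ∀ μ ∈ Metric.ball (0 : ℂ) 1, ‖E μ‖ ≤ C) ∧ E 0 = 0 ∧
      (∀ μ ∈ Metric.ball (0 : ℂ) 1, ∀ (x n : H) (s : ℂ), s ≠ 0 →
        (∀ p ∈ W, inner ℂ p.2 n = 0) → inner ℂ g n = 0 → (x - s • e, μ • x - n) ∈ W → E μ = 0) ∧
      ((∀ μ ∈ Metric.ball (0 : ℂ) 1, E μ = 0) →
        ∀ (M : ℕ) (x : ℕ → H) (b : ℕ) (y : ℕ → H), x 0 = e →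
          (∀ m < M, ∃ n, (∀ p ∈ W, inner ℂ p.2 n = 0) ∧ (x (m + 1), x m - n) ∈ W) → y 0 = g →
          (∀ m < b, ∃ n, (∀ p ∈ W, inner ℂ p.1 n = 0) ∧ (y m - n, y (m + 1)) ∈ W) →
          inner ℂ (y b) (x M) = 0) := by
  obtain ⟨T, hT1, hT2, hT3, hT4⟩ := Hilb_exists_T W hW e g he hg
  have hTn : ∀ x, ‖T x‖ ≤ ‖x‖ := by
    intro x
    obtain ⟨q, -, hq⟩ := hT4 x
    nlinarith [norm_nonneg (T x), norm_nonneg x, sq_nonneg ‖q‖]
  obtain ⟨G, hG1, hG2, hG3⟩ := Hilb_G T hTn e
  have h0 : (0 : ℂ) ∈ Metric.ball (0 : ℂ) 1 := Metric.mem_ball_self one_pos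
  refine ⟨fun μ => μ * inner ℂ g (G μ), ?_, ⟨‖g‖ * ‖e‖, ?_⟩, by simp, ?_, ?_⟩
  · intro μ hμ
    have h1 : DifferentiableWithinAt ℂ (fun μ => (innerSL ℂ g) (G μ)) (Metric.ball 0 1) μ :=
      (innerSL ℂ g).differentiableAt.comp_differentiableWithinAt μ (hG1 μ hμ)
    exact differentiableWithinAt_id.mul h1
  · intro μ hμ
    obtain ⟨q, hq1, hq2⟩ := hT4 (G μ)
    have hμ1 : ‖μ‖ < 1 := by rwa [mem_ball_zero_iff] at hμ
    have h1 : ‖G μ‖ ^ 2 = ‖e‖ ^ 2 + ‖μ‖ ^ 2 * ‖T (G μ)‖ ^ 2 := by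
      have h2 : inner ℂ e (μ • T (G μ)) = 0 := by
        rw [inner_smul_right, inner_eq_zero_symm.mp (hT3 (G μ)), mul_zero]
      have h3 := norm_add_sq_eq_norm_sq_add_norm_sq_of_inner_eq_zero (𝕜 := ℂ) _ _ h2
      rw [← hG2 μ hμ, norm_smul] at h3
      nlinarith
    have h4 : ‖q‖ ≤ ‖e‖ := by
      have h5 : ‖μ‖ ^ 2 ≤ 1 := by nlinarith [norm_nonneg μ]
      have h6 : ‖μ‖ ^ 2 * ‖T (G μ)‖ ^ 2 ≤ 1 * ‖T (G μ)‖ ^ 2 :=
        mul_le_mul_of_nonneg_right h5 (sq_nonneg _)
      have h7 : ‖q‖ ^ 2 ≤ ‖e‖ ^ 2 := by linarith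
      exact (pow_le_pow_iff_left₀ (norm_nonneg _) (norm_nonneg _) two_ne_zero).mp h7
    calc ‖μ * inner ℂ g (G μ)‖ = ‖μ‖ * ‖inner ℂ g q‖ := by rw [norm_mul, hq1]
      _ ≤ 1 * (‖g‖ * ‖e‖) := by
          refine mul_le_mul hμ1.le ?_ (norm_nonneg _) zero_le_one
          exact (norm_inner_le_norm g q).trans (mul_le_mul_of_nonneg_left h4 (norm_nonneg _))
      _ = ‖g‖ * ‖e‖ := one_mul _
  · intro μ hμ x n s hs hn hgn hmem
    have h1 := hT1 _ hmem
    simp only [map_sub, map_smul, hT2 n hn, sub_zero] at h1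
    have h2 : x = s • e + μ • T x := by
      rw [h1]
      abel
    have h3 := hG3 μ hμ x s h2
    have h4 := hg _ hmem
    simp only at h4
    have h5 : inner ℂ g (μ • x - n) = 0 := inner_eq_zero_symm.mp h4
    rw [inner_sub_right, hgn, sub_zero, h3, inner_smul_right, inner_smul_right] at h5
    have h6 : s * (μ * inner ℂ g (G μ)) = 0 := by
      rw [← h5]
      ring
    exact (mul_eq_zero.mp h6).resolve_left hs
  · intro hE M x b y hx0 hstep hy0 hystep
    have hc : ∀ m, inner ℂ g ((T ^ m) e) = 0 := by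
      intro m
      induction m using Nat.strong_induction_on with
      | _ m ih =>
        -- expansion of `G μ`
        have h1 : ∀ k, ∀ μ ∈ Metric.ball (0 : ℂ) 1,
            G μ = ∑ j ∈ Finset.range k, μ ^ j • (T ^ j) e + μ ^ k • (T ^ k) (G μ) := by
          intro k μ hμ
          induction k with
          | zero => simp
          | succ k ihk =>
            rw [Finset.sum_range_succ]
            have h2 : (T ^ k) (G μ) = (T ^ k) e + μ • (T ^ (k + 1)) (G μ) := by
              conv_lhs => rw [hG2 μ hμ]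
              rw [map_add, map_smul, pow_succ, mul_apply_eq_comp]
            rw [h2, smul_add, smul_smul, ← pow_succ] at ihk
            rw [add_assoc]
            exact ihk
        have h2 : ∀ μ ∈ Metric.ball (0 : ℂ) 1, μ ≠ 0 → inner ℂ g ((T ^ m) (G μ)) = 0 := by
          intro μ hμ hμ0
          have h3 := hE μ hμ
          simp only at h3
          have h4 := (mul_eq_zero.mp h3).resolve_left hμ0
          rw [h1 m μ hμ, inner_add_right, inner_sum, inner_smul_right] at h4
          have h5 : ∑ j ∈ Finset.range m, inner ℂ g (μ ^ j • (T ^ j) e) = 0 := by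
            apply Finset.sum_eq_zero
            intro j hj
            rw [inner_smul_right, ih j (Finset.mem_range.mp hj), mul_zero]
          rw [h5, zero_add] at h4
          exact (mul_eq_zero.mp h4).resolve_left (pow_ne_zero _ hμ0)
        have hG0 : G 0 = e := by
          have := hG2 0 h0
          rwa [zero_smul, add_zero] at this
        have hcont : ContinuousAt G 0 :=
          (hG1.continuousOn.continuousAt (Metric.ball_mem_nhds 0 one_pos))
        have hcont2 : ContinuousAt (fun μ => inner ℂ g ((T ^ m) (G μ))) 0 :=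
          ((innerSL ℂ g).continuous.comp (T ^ m).continuous).continuousAt.comp hcont
        have h6 : Filter.Tendsto (fun μ => inner ℂ g ((T ^ m) (G μ))) (𝓝[≠] 0)
            (𝓝 (inner ℂ g ((T ^ m) (G 0)))) := hcont2.tendsto.mono_left nhdsWithin_le_nhds
        have h7 : (fun μ => inner ℂ g ((T ^ m) (G μ))) =ᶠ[𝓝[≠] 0] fun _ => (0 : ℂ) := by
          rw [Filter.EventuallyEq, eventually_nhdsWithin_iff]
          filter_upwards [Metric.ball_mem_nhds (0 : ℂ) one_pos] with μ hμ hμ0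
          exact h2 μ hμ hμ0
        have h8 : Filter.Tendsto (fun μ => inner ℂ g ((T ^ m) (G μ))) (𝓝[≠] 0) (𝓝 0) :=
          Filter.Tendsto.congr' h7.symm tendsto_const_nhds
        rw [← hG0]
        exact tendsto_nhds_unique h6 h8
    have hx : ∀ m ≤ M, x m = (T ^ m) e := by
      intro m
      induction m with
      | zero => intro _; simpa using hx0
      | succ m ih =>
        intro hm
        obtain ⟨n, hn, hmem⟩ := hstep m (by omega)
        have h1 := hT1 _ hmem
        simp only [map_sub, hT2 n hn, sub_zero] at h1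
        rw [← h1, ih (by omega), pow_succ', mul_apply_eq_comp]
    have hy : ∀ m ≤ b, ∀ z, inner ℂ (y m) z = inner ℂ g ((T ^ m) z) := by
      intro m
      induction m with
      | zero =>
        intro _ z
        rw [hy0, pow_zero, one_apply_eq_self]
      | succ m ih =>
        intro hm z
        obtain ⟨n, hn, hmem⟩ := hystep m (by omega)
        have h1 := Hilb2_adj W hW T hT1 hT2 hmem z
        simp only [inner_sub_left, Hilb3_orth W T hT1 hT2 hn z, sub_zero] at h1
        rw [h1, ih (by omega), pow_succ, mul_apply_eq_comp]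
    rw [hy b le_rfl, hx M le_rfl, ← mul_apply_eq_comp, ← pow_add]
    exact hc (b + M)

end Pool.Agent.OBT
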