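import Mathlib
import Pool.Agent.OBT.Crit
import Pool.Agent.OBT.Hilb3

/-!
# The criterion with two chains with corrections
-/

open scoped ComplexConjugate Topology MatrixGroups UpperHalfPlane
open MeasureTheory

namespace Pool.Agent.OBT

variable {v : Fin 3 → ℂ}

theorem criterion_core3 (hv : AffineIndependent ℝ v) [Fintype (G v)] (hL : LatticeTriangle v)
    (f h : G v → ℂ → ℂ) (hf : Holo v f) (hh : Holo v h)
    (horth : ∑ g, ∫ y in body v, conj (f g y) * h g y = 0)
    (haff : ∀ (A : SL(2, ℝ)) (φ : Surf v ≃ₜ Surf v), IsAffine A φ → ∃ s t : ℂ, s ≠ 0 ∧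
      ∃ U : G v → ℂ → ℂ, Nice v U (fun g y => ca A * pull φ f g y - s * f g y)
        (fun g y => cb A * pull φ f g y - t * conj (f g y)))
    (M b : ℕ) (x z : ℕ → G v → ℂ → ℂ) (hx0 : x 0 = f) (hz0 : z 0 = h)
    (hx : ∀ m < M, ∃ U n : G v → ℂ → ℂ, Holo v n ∧
      Nice v U (x (m + 1)) (fun g y => x m g y - conj (n g y)))
    (hz : ∀ m < b, ∃ U n : G v → ℂ → ℂ, Holo v n ∧
      Nice v U (z (m + 1)) (fun g y => z m g y - conj (n g y))) :
    ∑ g, ∫ y in body v, x M g y * z b g y = 0 := by
  classical
  obtain ⟨Sf, hSf⟩ := hf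
  obtain ⟨Sh, hSh⟩ := hh
  have hf2 := hSf.L2
  have hh2 := hSh.L2
  have hhc : ∀ g, MemLp ((fun (g : G v) (y : ℂ) => conj (h g y)) g) 2
      (volume.restrict (body v)) := fun g => Crit_memLp_conj (hh2 g)
  have conj_int : ∀ F : G v → ℂ → ℂ, ∑ g, ∫ y in body v, conj (F g y) =
      conj (∑ g, ∫ y in body v, F g y) := by
    intro F
    rw [map_sum]
    refine Finset.sum_congr rfl fun g _ => ?_
    exact integral_conj
  obtain ⟨W, hWmem⟩ := exists_WW v
  -- the norm
  have hW : ∀ p ∈ W, ‖p.1‖ = ‖p.2‖ := by
    intro p hp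
    obtain ⟨U, u, w, hu, hw, hN, rfl⟩ := (hWmem p).mp hp
    have h1 := norm_toHH_sq u hu
    have h2 := norm_toHH_sq w hw
    have h3 := nice_norm hv hN
    have h4 : ‖toHH u hu‖ ^ 2 = ‖toHH w hw‖ ^ 2 := by rw [h1, h2, h3]
    exact (pow_left_inj₀ (norm_nonneg _) (norm_nonneg _) two_ne_zero).mp h4
  have he : ∀ p ∈ W, inner ℂ p.1 (toHH f hf2) = 0 := by
    intro p hp
    obtain ⟨U, u, w, hu, hw, hN, rfl⟩ := (hWmem p).mp hp
    simp only
    rw [inner_toHH]
    have h1 := nice_orth_u hv hN ⟨Sf, hSf⟩
    have h2 : ∀ g : G v, ∀ y : ℂ, conj (u g y) * f g y = conj (u g y * conj (f g y)) := by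
      intro g y; simp
    simp only [h2]
    rw [conj_int (fun g y => u g y * conj (f g y)), h1, map_zero]
  -- antiholomorphic functions are orthogonal to the second components
  have hanti : ∀ (F : G v → ℂ → ℂ) (_ : Holo v F)
      (hF : ∀ g, MemLp ((fun (g : G v) (y : ℂ) => conj (F g y)) g) 2
      (volume.restrict (body v))), ∀ p ∈ W,
      inner ℂ p.2 (toHH (fun (g : G v) (y : ℂ) => conj (F g y)) hF) = 0 := by
    intro F hFh hF p hp
    obtain ⟨U, u, w, hu, hw, hN, rfl⟩ := (hWmem p).mp hp
    simp only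
    rw [inner_toHH]
    have h1 := nice_orth_w hv hN hFh
    have h2 : ∀ g : G v, ∀ y : ℂ, conj (w g y) * conj (F g y) = conj (w g y * F g y) := by
      intro g y; simp
    simp only [h2]
    rw [conj_int (fun g y => w g y * F g y), h1, map_zero]
  have hg : ∀ p ∈ W, inner ℂ p.2 (toHH (fun (g : G v) (y : ℂ) => conj (h g y)) hhc) = 0 :=
    hanti h ⟨Sh, hSh⟩ hhc
  -- holomorphic functions are orthogonal to the first components
  have hholo : ∀ (F : G v → ℂ → ℂ) (_ : Holo v F)
      (hF : ∀ g, MemLp (F g) 2 (volume.restrict (body v))), ∀ p ∈ W,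
      inner ℂ p.1 (toHH F hF) = 0 := by
    intro F hFh hF p hp
    obtain ⟨U, u, w, hu, hw, hN, rfl⟩ := (hWmem p).mp hp
    simp only
    rw [inner_toHH]
    have h1 := nice_orth_u hv hN hFh
    have h2 : ∀ g : G v, ∀ y : ℂ, conj (u g y) * F g y = conj (u g y * conj (F g y)) := by
      intro g y; simp
    simp only [h2]
    rw [conj_int (fun g y => u g y * conj (F g y)), h1, map_zero]
  obtain ⟨E, hE, ⟨C, hC⟩, _, hvan, hlast⟩ := hilbert_core3 W hW (toHH f hf2)
    (toHH (fun (g : G v) (y : ℂ) => conj (h g y)) hhc) he hg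
  -- vanishing on the orbit
  have horbit : ∀ A ∈ veech v, E (cb A / ca A) = 0 := by
    intro A hA
    obtain ⟨φ, hφ⟩ := (mem_veech_iff A).mp hA
    obtain ⟨s, t, hs, U, hN⟩ := haff A φ hφ
    obtain ⟨S, hS⟩ := hN
    have hu := hS.L2a
    have hw := hS.L2b
    have hsf : ∀ g, MemLp ((fun (g : G v) (y : ℂ) => s * f g y) g) 2
        (volume.restrict (body v)) := fun g => (hf2 g).const_mul s
    have hcf : ∀ g, MemLp ((fun (g : G v) (y : ℂ) => conj (f g y)) g) 2
        (volume.restrict (body v)) := fun g => Crit_memLp_conj (hf2 g)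
    have htf : ∀ g, MemLp ((fun (g : G v) (y : ℂ) => t * conj (f g y)) g) 2
        (volume.restrict (body v)) := fun g => (hcf g).const_mul t
    have hap : ∀ g, MemLp ((fun (g : G v) (y : ℂ) => ca A * pull φ f g y) g) 2
        (volume.restrict (body v)) := by
      intro g
      have := (hu g).add (hsf g)
      convert this using 1
      funext y
      simp
    have hpp : ∀ g, MemLp (pull φ f g) 2 (volume.restrict (body v)) := by
      intro g
      have := (hap g).const_mul (ca A)⁻¹
      convert this using 1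
      funext y
      rw [← mul_assoc, inv_mul_cancel₀ (ca_ne_zero A), one_mul]
    have hbp : ∀ g, MemLp ((fun (g : G v) (y : ℂ) => cb A * pull φ f g y) g) 2
        (volume.restrict (body v)) := fun g => (hpp g).const_mul (cb A)
    have hμ : cb A / ca A ∈ Metric.ball (0 : ℂ) 1 := by
      rw [mem_ball_zero_iff]; exact norm_cb_div_ca_lt_one A
    refine hvan _ hμ (toHH (fun g y => ca A * pull φ f g y) hap)
      (toHH (fun g y => t * conj (f g y)) htf) s hs ?_ ?_ ?_
    · intro p hp
      rw [toHH_smul t (fun g y => conj (f g y)) hcf htf, inner_smul_right,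
        hanti f ⟨Sf, hSf⟩ hcf p hp, mul_zero]
    · rw [toHH_smul t (fun g y => conj (f g y)) hcf htf, inner_smul_right, inner_toHH]
      have h2 : ∀ g : G v, ∀ y : ℂ, conj (conj (h g y)) * conj (f g y) =
          conj (f g y) * h g y := by
        intro g y; rw [Complex.conj_conj, mul_comm]
      simp only [h2]
      rw [horth, mul_zero]
    · rw [hWmem]
      refine ⟨U, _, _, hu, hw, ⟨S, hS⟩, ?_⟩
      rw [Prod.mk.injEq]
      constructor
      · rw [sub_eq_iff_eq_add]
        rw [← toHH_smul s f hf2 hsf]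
        have h1 := toHH_add (fun g y => ca A * pull φ f g y - s * f g y)
          (fun g y => s * f g y) hu hsf (by
            intro g
            have := hap g
            convert this using 1
            funext y
            simp)
        rw [← h1]
        congr 1
        funext g y
        simp
      · rw [sub_eq_iff_eq_add]
        rw [toHH_smul (ca A) (pull φ f) hpp hap, smul_smul,
          div_mul_cancel₀ _ (ca_ne_zero A), ← toHH_smul (cb A) (pull φ f) hpp hbp]
        have h1 := toHH_add (fun g y => cb A * pull φ f g y - t * conj (f g y))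
          (fun g y => t * conj (f g y)) hw htf (by
            intro g
            have := hbp g
            convert this using 1
            funext y
            simp)
        rw [← h1]
        congr 1
        funext g y
        simp
  have hE0 := Crit_E_zero hL E hE C hC horbit
  have hlast' := hlast hE0
  -- the sequences
  have hxm : ∀ m ≤ M, ∀ g, MemLp (x m g) 2 (volume.restrict (body v)) := by
    intro m hm g
    rcases m with _ | m
    · rw [hx0]; exact hf2 g
    · obtain ⟨U, n, -, S, hS⟩ := hx m (by omega)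
      exact hS.L2a g
  have hzm : ∀ m ≤ b, ∀ g, MemLp ((fun (g : G v) (y : ℂ) => conj (z m g y)) g) 2
      (volume.restrict (body v)) := by
    intro m hm g
    rcases m with _ | m
    · rw [hz0]; exact hhc g
    · obtain ⟨U, n, -, S, hS⟩ := hz m (by omega)
      exact Crit_memLp_conj (hS.L2a g)
  let X : ℕ → HH v := fun m => if hm : m ≤ M then toHH (x m) (hxm m hm) else 0
  let Y : ℕ → HH v := fun m => if hm : m ≤ b then
    toHH (fun (g : G v) (y : ℂ) => conj (z m g y)) (hzm m hm) else 0
  have hX : ∀ m (hm : m ≤ M), X m = toHH (x m) (hxm m hm) := fun m hm => dif_pos hm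
  have hY : ∀ m (hm : m ≤ b), Y m =
      toHH (fun (g : G v) (y : ℂ) => conj (z m g y)) (hzm m hm) := fun m hm => dif_pos hm
  have hfin := hlast' M X b Y (by
      rw [hX 0 (Nat.zero_le _)]
      congr 1) (by
      intro m hm
      obtain ⟨U, n, hn, S, hS⟩ := hx m hm
      have hn2 : ∀ g, MemLp ((fun (g : G v) (y : ℂ) => conj (n g y)) g) 2
          (volume.restrict (body v)) := by
        intro g
        obtain ⟨S', hS'⟩ := hn
        exact Crit_memLp_conj (hS'.L2 g)
      refine ⟨toHH (fun (g : G v) (y : ℂ) => conj (n g y)) hn2, hanti n hn hn2, ?_⟩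
      rw [hX (m + 1) hm, hX m hm.le, hWmem]
      refine ⟨U, _, _, hS.L2a, hS.L2b, ⟨S, hS⟩, ?_⟩
      rw [Prod.mk.injEq]
      refine ⟨rfl, ?_⟩
      rw [sub_eq_iff_eq_add]
      have h1 := toHH_add (fun g y => x m g y - conj (n g y))
        (fun g y => conj (n g y)) hS.L2b hn2 (by
          intro g
          have := hxm m hm.le g
          convert this using 1
          funext y
          simp)
      rw [← h1]
      congr 1
      funext g y
      simp) (by
      rw [hY 0 (Nat.zero_le _)]
      congr 1
      funext g y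
      rw [hz0]) (by
      intro m hm
      obtain ⟨U, n, hn, hN⟩ := hz m hm
      obtain ⟨S, hS⟩ := NiceOrth_conj hN
      have hn2 : ∀ g, MemLp (n g) 2 (volume.restrict (body v)) := by
        intro g
        obtain ⟨S', hS'⟩ := hn
        exact hS'.L2 g
      refine ⟨toHH n hn2, hholo n hn hn2, ?_⟩
      rw [hY (m + 1) hm, hY m hm.le, hWmem]
      refine ⟨_, _, _, hS.L2a, hS.L2b, ⟨S, hS⟩, ?_⟩
      rw [Prod.mk.injEq]
      refine ⟨?_, rfl⟩
      rw [sub_eq_iff_eq_add]
      have h1 := toHH_add (fun g y => conj (z m g y - conj (n g y)))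
        n hS.L2a hn2 (by
          intro g
          have := hzm m hm.le g
          convert this using 1
          funext y
          simp)
      rw [← h1]
      congr 1
      funext g y
      simp)
  rw [hX M le_rfl, hY b le_rfl, inner_toHH] at hfin
  have h2 : ∀ g : G v, ∀ y : ℂ, conj (conj (z b g y)) * x M g y = x M g y * z b g y := by
    intro g y; rw [Complex.conj_conj, mul_comm]
  simp only [h2] at hfin
  exact hfin

end Pool.Agent.OBT
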