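import Mathlib
import Pool.Agent.OBT.Sim
import Pool.Agent.OBT.SC3

/-!
# A triangle is similar to a normalised one
-/

open scoped ComplexConjugate Topology Real EuclideanGeometry

namespace Pool.Agent.OBT

/-- a point of the upper half plane is determined by the two angles -/
theorem FinSim_upper {w : ℂ} (hw : 0 < w.im) {a b : ℝ} (ha : |w.arg| = π * a)
    (hb : |(1 - w).arg| = π * b) : 0 < a ∧ 0 < b ∧ a + b < 1 ∧ tau a b = w := by
  have hpi := Real.pi_pos
  have h1 : 0 < w.arg := by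
    rcases (Complex.arg_nonneg_iff.2 hw.le).lt_or_eq with h | h
    · exact h
    · exfalso
      have := (Complex.arg_eq_zero_iff.1 h.symm).2
      linarith
  have h2 : (1 - w).arg < 0 := by
    rw [Complex.arg_neg_iff]
    simp only [Complex.sub_im, Complex.one_im]
    linarith
  have h3 : -π < (1 - w).arg := Complex.neg_pi_lt_arg _
  have h4 : w.arg < π := by
    rcases (Complex.arg_le_pi w).lt_or_eq with h | h
    · exact h
    · exfalso
      have := (Complex.arg_eq_pi_iff.1 h).2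
      linarith
  rw [abs_of_pos h1] at ha
  rw [abs_of_neg h2] at hb
  have ha0 : 0 < a := by
    by_contra h
    nlinarith
  have hb0 : 0 < b := by
    by_contra h
    nlinarith
  have ha1 : a < 1 := by
    by_contra h
    nlinarith
  have hb1 : b < 1 := by
    by_contra h
    nlinarith
  have hwn : 0 < ‖w‖ := norm_pos_iff.2 (fun h => by rw [h] at hw; simp at hw)
  have e1 : w = (‖w‖ : ℂ) * Complex.exp (π * a * Complex.I) := by
    have h := Complex.norm_mul_exp_arg_mul_I w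
    rw [ha] at h
    push_cast at h
    exact h.symm
  have r1 : w.re = ‖w‖ * Real.cos (π * a) := by
    rw [← ha, Complex.norm_mul_cos_arg]
  have i1 : w.im = ‖w‖ * Real.sin (π * a) := by
    rw [← ha, Complex.norm_mul_sin_arg]
  have hb' : π * b = -(1 - w).arg := hb.symm
  have r2 : 1 - w.re = ‖1 - w‖ * Real.cos (π * b) := by
    rw [hb', Real.cos_neg, Complex.norm_mul_cos_arg]
    simp
  have i2 : w.im = ‖1 - w‖ * Real.sin (π * b) := by
    rw [hb', Real.sin_neg, mul_neg, Complex.norm_mul_sin_arg]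
    simp
  have hsb : 0 < Real.sin (π * b) := Real.sin_pos_of_pos_of_lt_pi (by positivity) (by nlinarith)
  have key : ‖w‖ * Real.sin (π * (a + b)) = Real.sin (π * b) := by
    rw [mul_add, Real.sin_add]
    have h5 : ‖w‖ * Real.cos (π * a) + ‖1 - w‖ * Real.cos (π * b) = 1 := by
      rw [← r1, ← r2]
      ring
    have h6 : ‖w‖ * Real.sin (π * a) = ‖1 - w‖ * Real.sin (π * b) := by
      rw [← i1, ← i2]
    linear_combination Real.sin (π * b) * h5 + Real.cos (π * b) * h6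
  have hsab : 0 < Real.sin (π * (a + b)) := by
    by_contra h
    have : ‖w‖ * Real.sin (π * (a + b)) ≤ 0 :=
      mul_nonpos_of_nonneg_of_nonpos hwn.le (not_lt.1 h)
    linarith
  have hab : a + b < 1 := by
    by_contra h
    have h7 : 1 ≤ a + b := not_lt.1 h
    have h8 : Real.sin (π * (a + b)) = -Real.sin (π * (a + b) - π) := by
      rw [Real.sin_sub_pi, neg_neg]
    have h9 : 0 ≤ Real.sin (π * (a + b) - π) :=
      Real.sin_nonneg_of_nonneg_of_le_pi (by nlinarith) (by nlinarith)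
    linarith
  refine ⟨ha0, hb0, hab, ?_⟩
  have hn : Real.sin (π * b) / Real.sin (π * (a + b)) = ‖w‖ := by
    rw [← key]
    field_simp
  rw [tau, hn]
  exact e1.symm

theorem FinSim_abs_arg_conj {w : ℂ} (hw : w.im ≠ 0) : |(conj w).arg| = |w.arg| := by
  rw [Complex.arg_conj, if_neg, abs_neg]
  intro h
  exact hw (Complex.arg_eq_pi_iff.1 h).2

theorem FinSim_abs_arg_inv {w : ℂ} : |(w⁻¹).arg| = |w.arg| := by
  rw [Complex.arg_inv]
  split_ifs with h
  · rw [h]
  · rw [abs_neg]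

theorem exists_similar (v : Fin 3 → ℂ) (hv : AffineIndependent ℝ v) {a b : ℝ}
    (ha : ∠ (v 1) (v 0) (v 2) = π * a) (hb : ∠ (v 2) (v 1) (v 0) = π * b) :
    0 < a ∧ 0 < b ∧ a + b < 1 ∧ ∃ c d : ℂ, c ≠ 0 ∧
      ((∀ k, tri a b k = c * v k + d) ∨ (∀ k, tri a b k = c * conj (v k) + d)) := by
  have h10 : v 1 ≠ v 0 := hv.injective.ne (by decide)
  have h20 : v 2 ≠ v 0 := hv.injective.ne (by decide)
  have h21 : v 2 ≠ v 1 := hv.injective.ne (by decide)
  have s10 : v 1 - v 0 ≠ 0 := sub_ne_zero.2 h10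
  have s20 : v 2 - v 0 ≠ 0 := sub_ne_zero.2 h20
  have s21 : v 2 - v 1 ≠ 0 := sub_ne_zero.2 h21
  have s01 : v 0 - v 1 ≠ 0 := sub_ne_zero.2 h10.symm
  obtain ⟨w, hw⟩ : ∃ w : ℂ, w = (v 2 - v 0) / (v 1 - v 0) := ⟨_, rfl⟩
  have hw2 : v 2 = v 0 + w * (v 1 - v 0) := by
    rw [hw]
    field_simp
    ring
  have him : w.im ≠ 0 := by
    intro h0
    rw [affineIndependent_iff_not_collinear] at hv
    apply hv
    rw [collinear_iff_exists_forall_eq_smul_vadd]
    refine ⟨v 0, v 1 - v 0, ?_⟩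
    rintro _ ⟨k, rfl⟩
    fin_cases k
    · exact ⟨0, by simp⟩
    · exact ⟨1, by simp⟩
    · refine ⟨w.re, ?_⟩
      show v 2 = w.re • (v 1 - v 0) + v 0
      have hwr : w = (w.re : ℂ) := by
        apply Complex.ext
        · simp
        · simpa using h0
      rw [Complex.real_smul, ← hwr]
      conv_lhs => rw [hw2]
      ring
  have ea : |w.arg| = π * a := by
    rw [← ha]
    unfold EuclideanGeometry.angle
    rw [vsub_eq_sub, vsub_eq_sub, Complex.angle_eq_abs_arg s10 s20, ← FinSim_abs_arg_inv, hw,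
      inv_div]
  have eb : |(1 - w).arg| = π * b := by
    rw [← hb]
    unfold EuclideanGeometry.angle
    rw [vsub_eq_sub, vsub_eq_sub, Complex.angle_eq_abs_arg s21 s01]
    congr 2
    rw [hw]
    field_simp
    ring
  rcases lt_or_gt_of_ne him with hneg | hpos
  · have h1 := FinSim_upper (w := conj w) (by simpa using hneg) (a := a) (b := b)
      (by rw [FinSim_abs_arg_conj him, ea])
      (by
        have e : (1 : ℂ) - conj w = conj (1 - w) := by simp
        rw [e, FinSim_abs_arg_conj (by simpa using him), eb])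
    obtain ⟨i1, i2, i3, i4⟩ := h1
    have sc : conj (v 1) - conj (v 0) ≠ 0 := by
      rw [← map_sub]
      exact (map_ne_zero _).2 s10
    refine ⟨i1, i2, i3, (conj (v 1) - conj (v 0))⁻¹,
      -((conj (v 1) - conj (v 0))⁻¹ * conj (v 0)), inv_ne_zero sc, Or.inr ?_⟩
    intro k
    fin_cases k
    · show (0 : ℂ) = (conj (v 1) - conj (v 0))⁻¹ * conj (v 0) +
        -((conj (v 1) - conj (v 0))⁻¹ * conj (v 0))
      ring
    · show (1 : ℂ) = (conj (v 1) - conj (v 0))⁻¹ * conj (v 1) +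
        -((conj (v 1) - conj (v 0))⁻¹ * conj (v 0))
      field_simp
      ring
    · show tau a b = (conj (v 1) - conj (v 0))⁻¹ * conj (v 2) +
        -((conj (v 1) - conj (v 0))⁻¹ * conj (v 0))
      rw [i4, hw, map_div₀, map_sub, map_sub]
      field_simp
      ring
  · have h1 := FinSim_upper (w := w) hpos ea eb
    obtain ⟨i1, i2, i3, i4⟩ := h1
    refine ⟨i1, i2, i3, (v 1 - v 0)⁻¹, -((v 1 - v 0)⁻¹ * v 0), inv_ne_zero s10, Or.inl ?_⟩
    intro k
    fin_cases k
    · show (0 : ℂ) = (v 1 - v 0)⁻¹ * v 0 + -((v 1 - v 0)⁻¹ * v 0)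
      ring
    · show (1 : ℂ) = (v 1 - v 0)⁻¹ * v 1 + -((v 1 - v 0)⁻¹ * v 0)
      field_simp
      ring
    · show tau a b = (v 1 - v 0)⁻¹ * v 2 + -((v 1 - v 0)⁻¹ * v 0)
      rw [i4, hw]
      field_simp
      ring

theorem lattice_tri (v : Fin 3 → ℂ) (hv : AffineIndependent ℝ v) {a b : ℝ}
    (ha : ∠ (v 1) (v 0) (v 2) = π * a) (hb : ∠ (v 2) (v 1) (v 0) = π * b)
    (hL : LatticeTriangle v) : LatticeTriangle (tri a b) := by
  obtain ⟨-, -, -, c, d, hc, h | h⟩ := exists_similar v hv ha hb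
  · have e : tri a b = fun k => c * v k + d := funext h
    rw [e]
    exact lattice_similar c d hc hL
  · have e : tri a b = fun k => c * conj (v k) + d := funext h
    rw [e]
    exact lattice_similar c d hc (lattice_conj hL)

theorem angle_sum (v : Fin 3 → ℂ) (hv : AffineIndependent ℝ v) :
    ∠ (v 1) (v 0) (v 2) + ∠ (v 2) (v 1) (v 0) + ∠ (v 0) (v 2) (v 1) = π := by
  have h10 : v 0 ≠ v 1 := hv.injective.ne (by decide)
  have h := EuclideanGeometry.angle_add_angle_add_angle_eq_pi (v 2) h10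
  linarith

/-- common lowest terms -/
theorem exists_lowest {a b : ℚ} (ha : 0 < a) (hb : 0 < b) (hab : a + b < 1 / 2) :
    ∃ N p q : ℕ, 0 < p ∧ 0 < q ∧ 2 * (p + q) < N ∧ Nat.gcd (Nat.gcd p q) N = 1 ∧
      (a : ℝ) = (p : ℝ) / N ∧ (b : ℝ) = (q : ℝ) / N := by
  obtain ⟨p0, q0, N0, hp0, hq0, hN0, ea, eb⟩ : ∃ p0 q0 N0 : ℕ, 0 < p0 ∧ 0 < q0 ∧ 0 < N0 ∧
      a = (p0 : ℚ) / N0 ∧ b = (q0 : ℚ) / N0 := by
    have han : 0 < a.num := Rat.num_pos.2 ha
    have hbn : 0 < b.num := Rat.num_pos.2 hb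
    have ea : (a.num.toNat : ℤ) = a.num := Int.toNat_of_nonneg han.le
    have eb : (b.num.toNat : ℤ) = b.num := Int.toNat_of_nonneg hbn.le
    have ea' : (a.num.toNat : ℚ) = (a.num : ℚ) := by exact_mod_cast ea
    have eb' : (b.num.toNat : ℚ) = (b.num : ℚ) := by exact_mod_cast eb
    have hda : (a.den : ℚ) ≠ 0 := by exact_mod_cast a.den_nz
    have hdb : (b.den : ℚ) ≠ 0 := by exact_mod_cast b.den_nz
    refine ⟨a.num.toNat * b.den, b.num.toNat * a.den, a.den * b.den, ?_, ?_, ?_, ?_, ?_⟩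
    · exact Nat.mul_pos (by omega) b.den_pos
    · exact Nat.mul_pos (by omega) a.den_pos
    · exact Nat.mul_pos a.den_pos b.den_pos
    · push_cast
      rw [ea', mul_div_mul_right _ _ hdb, Rat.num_div_den]
    · push_cast
      rw [eb', mul_comm (a.den : ℚ), mul_div_mul_right _ _ hda, Rat.num_div_den]
  obtain ⟨g, hg⟩ : ∃ g, g = Nat.gcd (Nat.gcd p0 q0) N0 := ⟨_, rfl⟩
  have hgpos : 0 < g := by
    rw [hg]
    exact Nat.gcd_pos_of_pos_right _ hN0
  have d1 : g ∣ p0 := by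
    rw [hg]
    exact (Nat.gcd_dvd_left _ _).trans (Nat.gcd_dvd_left _ _)
  have d2 : g ∣ q0 := by
    rw [hg]
    exact (Nat.gcd_dvd_left _ _).trans (Nat.gcd_dvd_right _ _)
  have d3 : g ∣ N0 := by
    rw [hg]
    exact Nat.gcd_dvd_right _ _
  obtain ⟨p, hp⟩ := d1
  obtain ⟨q, hq⟩ := d2
  obtain ⟨N, hN⟩ := d3
  have hp1 : 0 < p := Nat.pos_of_ne_zero (fun h => by rw [h, mul_zero] at hp; omega)
  have hq1 : 0 < q := Nat.pos_of_ne_zero (fun h => by rw [h, mul_zero] at hq; omega)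
  have hN1 : 0 < N := Nat.pos_of_ne_zero (fun h => by rw [h, mul_zero] at hN; omega)
  have hgq : (g : ℚ) ≠ 0 := by exact_mod_cast hgpos.ne'
  have hNq : (0 : ℚ) < (N : ℚ) := by exact_mod_cast hN1
  have ea1 : a = (p : ℚ) / N := by
    rw [ea, hp, hN]
    push_cast
    rw [mul_div_mul_left _ _ hgq]
  have eb1 : b = (q : ℚ) / N := by
    rw [eb, hq, hN]
    push_cast
    rw [mul_div_mul_left _ _ hgq]
  refine ⟨N, p, q, hp1, hq1, ?_, ?_, ?_, ?_⟩
  · rw [ea1, eb1, ← add_div, div_lt_div_iff₀ hNq (by norm_num)] at hab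
    have h : ((2 * (p + q) : ℕ) : ℚ) < ((N : ℕ) : ℚ) := by
      push_cast
      linarith
    exact_mod_cast h
  · have h1 : g * Nat.gcd (Nat.gcd p q) N = g * 1 := by
      rw [← Nat.gcd_mul_left, ← Nat.gcd_mul_left, ← hp, ← hq, ← hN, ← hg, mul_one]
    exact Nat.eq_of_mul_eq_mul_left hgpos h1
  · rw [ea1]
    push_cast
    rfl
  · rw [eb1]
    push_cast
    rfl

end Pool.Agent.OBT
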