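import Mathlib
import Pool.Agent.OBT.FinSim

/-!
# The classification
-/

open scoped ComplexConjugate Topology Real EuclideanGeometry

namespace Pool.Agent.OBT

/-- the classification for normalised triangles -/
def Classif : Prop := ∀ N p q : ℕ, 0 < p → p ≤ q → 2 * (p + q) < N →
  Nat.gcd (Nat.gcd p q) N = 1 → LatticeTriangle (tri ((p : ℝ) / N) ((q : ℝ) / N)) →
    (p = 1 ∧ q = 1) ∨ (p = 1 ∧ q = 2 ∧ Even N) ∨ (p = 1 ∧ q = 4 ∧ N = 12)

theorem classification_of (h : Classif) (v : Fin 3 → ℂ) (hv : AffineIndependent ℝ v)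
    (h0 : ∃ r : ℚ, ∠ (v 1) (v 0) (v 2) = r * π) (h1 : ∃ r : ℚ, ∠ (v 2) (v 1) (v 0) = r * π)
    (h01 : ∠ (v 1) (v 0) (v 2) ≤ ∠ (v 2) (v 1) (v 0)) (h2 : π / 2 < ∠ (v 0) (v 2) (v 1))
    (hL : LatticeTriangle v) :
    (∃ n : ℕ, 5 ≤ n ∧ ∠ (v 1) (v 0) (v 2) = π / n ∧ ∠ (v 2) (v 1) (v 0) = π / n) ∨
    (∃ n : ℕ, 4 ≤ n ∧ ∠ (v 1) (v 0) (v 2) = π / (2 * n) ∧ ∠ (v 2) (v 1) (v 0) = π / n) ∨
    (∠ (v 1) (v 0) (v 2) = π / 12 ∧ ∠ (v 2) (v 1) (v 0) = π / 3) := by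
  obtain ⟨a, ha⟩ := h0
  obtain ⟨b, hb⟩ := h1
  have ha' : ∠ (v 1) (v 0) (v 2) = π * (a : ℝ) := by rw [ha, mul_comm]
  have hb' : ∠ (v 2) (v 1) (v 0) = π * (b : ℝ) := by rw [hb, mul_comm]
  obtain ⟨ha0, hb0, -, -⟩ := exists_similar v hv ha' hb'
  have hsum := angle_sum v hv
  have hab : (a : ℝ) + b < 1 / 2 := by
    have h3 : π * ((a : ℝ) + b) < π * (1 / 2) := by
      rw [ha', hb'] at hsum
      linarith
    exact lt_of_mul_lt_mul_left h3 Real.pi_pos.le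
  obtain ⟨N, p, q, hp, hq, hN, hg, e1, e2⟩ := exists_lowest (a := a) (b := b)
    (by exact_mod_cast ha0) (by exact_mod_cast hb0) (by
      have h3 : ((a + b : ℚ) : ℝ) < ((1 / 2 : ℚ) : ℝ) := by push_cast; linarith
      exact_mod_cast h3)
  have hN0 : (0 : ℝ) < N := by
    have : 0 < N := by omega
    exact_mod_cast this
  have hpq : p ≤ q := by
    rw [ha', hb'] at h01
    have h3 : (a : ℝ) ≤ b := le_of_mul_le_mul_left h01 Real.pi_pos
    rw [e1, e2, div_le_div_iff_of_pos_right hN0] at h3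
    exact_mod_cast h3
  have hT : LatticeTriangle (tri ((p : ℝ) / N) ((q : ℝ) / N)) := by
    rw [← e1, ← e2]
    exact lattice_tri v hv ha' hb' hL
  rw [ha', hb', e1, e2]
  rcases h N p q hp hpq hN hg hT with ⟨rfl, rfl⟩ | ⟨rfl, rfl, hev⟩ | ⟨rfl, rfl, rfl⟩
  · left
    refine ⟨N, by omega, ?_, ?_⟩ <;> · push_cast; ring
  · right
    left
    obtain ⟨n, rfl⟩ := hev
    have hn : (0 : ℝ) < n := by
      have : 0 < n := by omega
      exact_mod_cast this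
    refine ⟨n, by omega, ?_, ?_⟩
    · push_cast
      field_simp
      ring
    · push_cast
      field_simp
      ring
  · right
    right
    constructor
    · push_cast; ring
    · push_cast; ring

end Pool.Agent.OBT
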