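import Mathlib
import Pool.Agent.OBT.FinMain

/-!
# The classification as an equality of sets, from the two halves
-/

open scoped ComplexConjugate Topology Real EuclideanGeometry

namespace Pool.Agent.OBT

theorem lattice_of_tri (v : Fin 3 → ℂ) (hv : AffineIndependent ℝ v) {a b : ℝ}
    (ha : ∠ (v 1) (v 0) (v 2) = π * a) (hb : ∠ (v 2) (v 1) (v 0) = π * b)
    (hL : LatticeTriangle (tri a b)) : LatticeTriangle v := by
  obtain ⟨-, -, -, c, d, hc, h | h⟩ := exists_similar v hv ha hb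
  · have e : v = fun k => c⁻¹ * tri a b k + -(c⁻¹ * d) := by
      funext k
      rw [h k]
      field_simp
      ring
    rw [e]
    exact lattice_similar c⁻¹ (-(c⁻¹ * d)) (inv_ne_zero hc) hL
  · have e : v = fun k => conj (c⁻¹ * tri a b k + -(c⁻¹ * d)) := by
      funext k
      have h1 : c⁻¹ * tri a b k + -(c⁻¹ * d) = conj (v k) := by
        rw [h k]
        field_simp
        ring
      rw [h1, Complex.conj_conj]
    rw [e]
    exact lattice_conj (lattice_similar c⁻¹ (-(c⁻¹ * d)) (inv_ne_zero hc) hL)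

/-- the converse for normalised triangles -/
structure ConvHyp : Prop where
  veech_ : ∀ N : ℕ, 5 ≤ N → LatticeTriangle (tri (((1 : ℕ) : ℝ) / N) (((1 : ℕ) : ℝ) / N))
  ward : ∀ n : ℕ, 4 ≤ n →
    LatticeTriangle (tri (((1 : ℕ) : ℝ) / (2 * n : ℕ)) (((2 : ℕ) : ℝ) / (2 * n : ℕ)))
  hooper : LatticeTriangle (tri (((1 : ℕ) : ℝ) / (12 : ℕ)) (((4 : ℕ) : ℝ) / (12 : ℕ)))

theorem classification_iff_of (h : Classif) (hc : ConvHyp) (v : Fin 3 → ℂ)
    (hv : AffineIndependent ℝ v)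
    (h0 : ∃ r : ℚ, ∠ (v 1) (v 0) (v 2) = r * π) (h1 : ∃ r : ℚ, ∠ (v 2) (v 1) (v 0) = r * π)
    (h01 : ∠ (v 1) (v 0) (v 2) ≤ ∠ (v 2) (v 1) (v 0)) (h2 : π / 2 < ∠ (v 0) (v 2) (v 1)) :
    LatticeTriangle v ↔
    (∃ n : ℕ, 5 ≤ n ∧ ∠ (v 1) (v 0) (v 2) = π / n ∧ ∠ (v 2) (v 1) (v 0) = π / n) ∨
    (∃ n : ℕ, 4 ≤ n ∧ ∠ (v 1) (v 0) (v 2) = π / (2 * n) ∧ ∠ (v 2) (v 1) (v 0) = π / n) ∨
    (∠ (v 1) (v 0) (v 2) = π / 12 ∧ ∠ (v 2) (v 1) (v 0) = π / 3) := by
  constructor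
  · exact classification_of h v hv h0 h1 h01 h2
  · rintro (⟨n, hn, ha, hb⟩ | ⟨n, hn, ha, hb⟩ | ⟨ha, hb⟩)
    · have hn0 : (n : ℝ) ≠ 0 := by
        have : n ≠ 0 := by omega
        exact_mod_cast this
      refine lattice_of_tri v hv ?_ ?_ (hc.veech_ n hn)
      · rw [ha]; push_cast; ring
      · rw [hb]; push_cast; ring
    · have hn0 : (n : ℝ) ≠ 0 := by
        have : n ≠ 0 := by omega
        exact_mod_cast this
      refine lattice_of_tri v hv ?_ ?_ (hc.ward n hn)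
      · rw [ha]; push_cast; ring
      · rw [hb]; push_cast; field_simp
    · refine lattice_of_tri v hv ?_ ?_ hc.hooper
      · rw [ha]; push_cast; ring
      · rw [hb]; push_cast; ring

end Pool.Agent.OBT
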