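import Mathlib
import Pool.Agent.OBT.StarV
import Pool.Agent.OBT.StarG

/-!
# Hooper's triangle: the regular 12-gon and the four equilateral triangles

`u s` are the twelve spokes (centre `P1` to `P2`), `V s` the vertices of the 12-gon.
-/

open scoped ComplexConjugate Topology Real
open MeasureTheory Filter

namespace Pool.Agent.OBT

noncomputable section

/-- the spokes -/
def ho_u (s : ℤ) : ℂ := Complex.exp ((s * (π / 6) : ℝ) * Complex.I)

/-- distance from the centre of the 12-gon to its sides -/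
def ho_k : ℝ := Real.sqrt 3 / 2

/-- half of the side of the 12-gon -/
def ho_s : ℝ := Real.sqrt 3 - 3 / 2

/-- the vertices of the 12-gon -/
def ho_V (s : ℤ) : ℂ := ho_u s * (ho_k + ho_s * Complex.I)

/-- the 12-gon -/
def ho_P : Set ℂ := convexHull ℝ (Set.range ho_V)

/-- the vertices of the equilateral triangles (only `c mod 4` matters) -/
def ho_W (c : ℤ) (j : ℤ) : ℂ := ho_V (c + 4 * j) - ho_u (c + 4 * j)

/-- the equilateral triangles -/
def ho_Q (c : ℤ) : Set ℂ := convexHull ℝ (Set.range (ho_W c))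

/-- The polygons as charts of the surface. -/
structure HoCharts (v : Fin 3 → ℂ) (SP : ℂ → Surf v) (SQ : ℤ → ℂ → Surf v) : Prop where
  flatP : ∀ z ∈ ho_P, ∀ᶠ w in 𝓝[ho_P] z, Dsp (SP z) (SP w) (w - z)
  flatQ : ∀ c, ∀ z ∈ ho_Q c, ∀ᶠ w in 𝓝[ho_Q c] z, Dsp (SQ c z) (SQ c w) (w - z)
  perQ : ∀ c z, SQ (c + 4) z = SQ c z
  glue : ∀ s : ℤ, ∀ r : ℝ, |r| ≤ ho_s →
    SP (ho_u s * (ho_k + r * Complex.I)) = SQ s (ho_u s * (ho_k + r * Complex.I) - ho_u s)
  rgP : ∀ z ∈ ho_P, (∀ s, z ≠ ho_V s) → Rg (SP z)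
  rgQ : ∀ c, ∀ z ∈ ho_Q c, (∀ j, z ≠ ho_W c j) → Rg (SQ c z)
  sing : ∀ s, ¬ Rg (SP (ho_V s))
  surj : ∀ ξ : Surf v, (∃ z ∈ ho_P, SP z = ξ) ∨ ∃ c, ∃ z ∈ ho_Q c, SQ c z = ξ

end

end Pool.Agent.OBT
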