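import Mathlib
import Pool.Agent.OBT.HoDefs

/-!
# Elementary geometry of the 12-gon and the triangles
-/

open scoped ComplexConjugate Topology Real
open MeasureTheory Filter

namespace Pool.Agent.OBT

lemma ho_u_add (s t : ℤ) : ho_u (s + t) = ho_u s * ho_u t := by
  unfold ho_u
  rw [← Complex.exp_add]
  congr 1
  push_cast
  ring

lemma ho_u_zero : ho_u 0 = 1 := by
  unfold ho_u
  simp

lemma ho_u_re (s : ℤ) : (ho_u s).re = Real.cos (s * (π / 6)) := by
  unfold ho_u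
  rw [Complex.exp_ofReal_mul_I_re]

lemma ho_u_im (s : ℤ) : (ho_u s).im = Real.sin (s * (π / 6)) := by
  unfold ho_u
  rw [Complex.exp_ofReal_mul_I_im]

lemma ho_u_one : ho_u 1 = ⟨Real.sqrt 3 / 2, 1 / 2⟩ := by
  apply Complex.ext
  · rw [ho_u_re]; simp
  · rw [ho_u_im]; simp

lemma ho_r3 : Real.sqrt 3 * Real.sqrt 3 = 3 := Real.mul_self_sqrt (by norm_num)

lemma ho_r3_lt : Real.sqrt 3 < 1.7321 := by
  rw [Real.sqrt_lt' (by norm_num)]
  norm_num

lemma ho_r3_gt : 1.7320 < Real.sqrt 3 := by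
  rw [Real.lt_sqrt (by norm_num)]
  norm_num

lemma ho_u_two : ho_u 2 = ⟨1 / 2, Real.sqrt 3 / 2⟩ := by
  have h := ho_u_add 1 1
  rw [ho_u_one] at h
  have e : (1 + 1 : ℤ) = 2 := by norm_num
  rw [e] at h
  rw [h]
  have := ho_r3
  apply Complex.ext
  · simp only [Complex.mul_re]
    linear_combination this / 4
  · simp only [Complex.mul_im]
    ring

lemma ho_u_three : ho_u 3 = ⟨0, 1⟩ := by
  have h := ho_u_add 1 2
  rw [ho_u_one, ho_u_two] at h
  have e : (1 + 2 : ℤ) = 3 := by norm_num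
  rw [e] at h
  rw [h]
  have := ho_r3
  apply Complex.ext
  · simp only [Complex.mul_re]
    ring
  · simp only [Complex.mul_im]
    linear_combination this / 4

lemma ho_u_add_three (s : ℤ) : ho_u (s + 3) = ⟨-(ho_u s).im, (ho_u s).re⟩ := by
  rw [ho_u_add, ho_u_three]
  apply Complex.ext
  · simp [Complex.mul_re]
  · simp [Complex.mul_im]

lemma ho_u_add_six (s : ℤ) : ho_u (s + 6) = -ho_u s := by
  have e : s + 6 = (s + 3) + 3 := by ring
  rw [e, ho_u_add_three, ho_u_add_three]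
  apply Complex.ext <;> simp

lemma ho_u_add_twelve (s : ℤ) : ho_u (s + 12) = ho_u s := by
  have e : s + 12 = (s + 6) + 6 := by ring
  rw [e, ho_u_add_six, ho_u_add_six, neg_neg]

lemma ho_u_per (s n : ℤ) : ho_u (s + 12 * n) = ho_u s := by
  induction n using Int.induction_on with
  | zero => simp
  | succ n ih =>
    have e : s + 12 * ((n : ℤ) + 1) = (s + 12 * n) + 12 := by ring
    rw [e, ho_u_add_twelve, ih]
  | pred n ih =>
    have e : s + 12 * (-(n : ℤ)) = (s + 12 * (-(n : ℤ) - 1)) + 12 := by ring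
    rw [e, ho_u_add_twelve] at ih
    exact ih

lemma ho_u_emod (s : ℤ) : ho_u (s % 12) = ho_u s := by
  have := ho_u_per (s % 12) (s / 12)
  rw [Int.emod_add_mul_ediv] at this
  exact this.symm

lemma ho_u_conj (s : ℤ) : ho_u s * conj (ho_u s) = 1 := by
  rw [Complex.mul_conj, Complex.normSq_apply, ho_u_re, ho_u_im]
  have := Real.cos_sq_add_sin_sq (s * (π / 6))
  rw [← sq, ← sq, this]
  simp

lemma ho_u_neg (s : ℤ) : ho_u (-s) = conj (ho_u s) := by
  apply Complex.ext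
  · rw [Complex.conj_re, ho_u_re, ho_u_re]
    push_cast
    rw [neg_mul, Real.cos_neg]
  · rw [Complex.conj_im, ho_u_im, ho_u_im]
    push_cast
    rw [neg_mul, Real.sin_neg]

lemma ho_V_per (s n : ℤ) : ho_V (s + 12 * n) = ho_V s := by
  unfold ho_V
  rw [ho_u_per]

lemma ho_V_emod (s : ℤ) : ho_V (s % 12) = ho_V s := by
  unfold ho_V
  rw [ho_u_emod]

/-- the vertices of a side of the 12-gon -/
lemma ho_V_sub_one (s : ℤ) : ho_V (s - 1) = ho_u s * (ho_k - ho_s * Complex.I) := by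
  have h := ho_u_add s (-1)
  rw [ho_u_neg, ho_u_one] at h
  unfold ho_V
  have e : s - 1 = s + -1 := by ring
  rw [e, h, mul_assoc]
  congr 1
  have := ho_r3
  unfold ho_k ho_s
  apply Complex.ext
  · simp [Complex.mul_re]
    linear_combination this / 4
  · simp [Complex.mul_im]
    linear_combination this / 2

/-- the vertices of the triangles -/
noncomputable def ho_T (s : ℤ) : ℂ := ho_V s - ho_u s

lemma ho_T_eq (s : ℤ) : ho_T s = ho_u s * ((ho_k - 1 : ℝ) + ho_s * Complex.I) := by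
  unfold ho_T ho_V
  push_cast
  ring

lemma ho_T_add_four (s : ℤ) : ho_T (s + 4) = ho_V (s - 1) - ho_u s := by
  have h3 : ho_u 4 = ⟨-1 / 2, Real.sqrt 3 / 2⟩ := by
    have := ho_u_add_three 1
    rw [ho_u_one] at this
    have e : (1 + 3 : ℤ) = 4 := by norm_num
    rw [e] at this
    rw [this]
    apply Complex.ext <;> simp <;> ring
  rw [ho_T_eq, ho_V_sub_one, ho_u_add, h3]
  have e : ho_u s * (ho_k - ho_s * Complex.I) - ho_u s =
    ho_u s * (((ho_k - 1 : ℝ) : ℂ) - ho_s * Complex.I) := by push_cast; ring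
  rw [e, mul_assoc]
  congr 1
  have := ho_r3
  unfold ho_k ho_s
  apply Complex.ext
  · simp [Complex.mul_re]
    linear_combination -this / 2
  · simp [Complex.mul_im]
    linear_combination this / 4

lemma ho_W_eq (c j : ℤ) : ho_W c j = ho_T (c + 4 * j) := rfl

lemma ho_T_per (s n : ℤ) : ho_T (s + 12 * n) = ho_T s := by
  unfold ho_T
  rw [ho_u_per, ho_V_per]

lemma ho_T_emod (s : ℤ) : ho_T (s % 12) = ho_T s := by
  unfold ho_T
  rw [ho_u_emod, ho_V_emod]

lemma ho_Q_add (c n : ℤ) : ho_Q (c + 4 * n) = ho_Q c := by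
  unfold ho_Q
  congr 1
  ext z
  constructor
  · rintro ⟨j, rfl⟩
    refine ⟨n + j, ?_⟩
    rw [ho_W_eq, ho_W_eq]
    congr 1
    ring
  · rintro ⟨j, rfl⟩
    refine ⟨j - n, ?_⟩
    rw [ho_W_eq, ho_W_eq]
    congr 1
    ring

lemma ho_V_mem (s : ℤ) : ho_V s ∈ ho_P := subset_convexHull ℝ _ ⟨s, rfl⟩

lemma ho_T_mem (s n : ℤ) : ho_T (s + 4 * n) ∈ ho_Q s := subset_convexHull ℝ _ ⟨n, rfl⟩

lemma ho_s_pos : 0 < ho_s := by
  unfold ho_s
  have := ho_r3_gt
  linarith

/-- points of a segment -/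
lemma ho_seg {K : Set ℂ} (hK : Convex ℝ K) {u : ℂ} {a r : ℝ} {c : ℂ} (ha : 0 < a) (hr : |r| ≤ a)
    (h1 : u * (c + a * Complex.I) ∈ K) (h2 : u * (c - a * Complex.I) ∈ K) :
    u * (c + r * Complex.I) ∈ K := by
  obtain ⟨r1, r2⟩ := abs_le.1 hr
  have := hK h1 h2 (a := (a + r) / (2 * a)) (b := (a - r) / (2 * a))
    (div_nonneg (by linarith) (by linarith)) (div_nonneg (by linarith) (by linarith))
    (by field_simp; ring)
  convert this using 1
  simp only [Complex.real_smul]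
  push_cast
  have ha' : (a : ℂ) ≠ 0 := by exact_mod_cast ha.ne'
  field_simp
  ring

lemma ho_side_mem (s : ℤ) {r : ℝ} (hr : |r| ≤ ho_s) : ho_u s * (ho_k + r * Complex.I) ∈ ho_P := by
  refine ho_seg (convex_convexHull ℝ _) ho_s_pos hr (ho_V_mem s) ?_
  rw [← ho_V_sub_one]
  exact ho_V_mem _

lemma ho_sideQ_mem (s : ℤ) {r : ℝ} (hr : |r| ≤ ho_s) :
    ho_u s * (ho_k + r * Complex.I) - ho_u s ∈ ho_Q s := by
  have e : ∀ t : ℂ, ho_u s * (ho_k + t * Complex.I) - ho_u s =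
      ho_u s * (((ho_k : ℂ) - 1) + t * Complex.I) := by intro t; ring
  rw [e]
  refine ho_seg (convex_convexHull ℝ _) ho_s_pos hr ?_ ?_
  · rw [← e]
    have := ho_T_mem s 0
    rw [mul_zero, add_zero] at this
    exact this
  · have := ho_T_mem s 1
    rw [mul_one, ho_T_add_four, ho_V_sub_one] at this
    have e2 : ho_u s * (((ho_k : ℂ) - 1) - ho_s * Complex.I) =
        ho_u s * (ho_k - ho_s * Complex.I) - ho_u s := by ring
    rw [e2]
    exact this

lemma ho_V_re_le (s : ℤ) : (ho_V s).re ≤ ho_k := by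
  rw [← ho_V_emod]
  have h0 := Int.emod_nonneg s (by norm_num : (12 : ℤ) ≠ 0)
  have h1 := Int.emod_lt_of_pos s (by norm_num : (0 : ℤ) < 12)
  have e3 := ho_r3
  have l1 := ho_r3_lt
  have l2 := ho_r3_gt
  have e0 := ho_u_zero
  have e1 := ho_u_one
  have e2 := ho_u_two
  have e4 := ho_u_add_three 0
  have e5 := ho_u_add_three 1
  have e6 := ho_u_add_three 2
  have e7 := ho_u_add_three 3
  have e8 := ho_u_add_three 4
  have e9 := ho_u_add_three 5
  have e10 := ho_u_add_three 6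
  have e11 := ho_u_add_three 7
  have e12 := ho_u_add_three 8
  norm_num at e4 e5 e6 e7 e8 e9 e10 e11 e12
  generalize s % 12 = t at h0 h1
  unfold ho_V ho_k ho_s
  interval_cases t
  · rw [e0]; simp
  · rw [e1]; simp; nlinarith
  · rw [e2]; simp; nlinarith
  · rw [e4, e0]; simp; nlinarith
  · rw [e5, e1]; simp; nlinarith
  · rw [e6, e2]; simp; nlinarith
  · rw [e7, e4, e0]; simp; nlinarith
  · rw [e8, e5, e1]; simp; nlinarith
  · rw [e9, e6, e2]; simp; nlinarith
  · rw [e10, e7, e4, e0]; simp; nlinarith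
  · rw [e11, e8, e5, e1]; simp; nlinarith
  · rw [e12, e9, e6, e2]; simp; nlinarith

/-- the 12-gon is on one side of its sides -/
lemma ho_P_le {p : ℂ} (hp : p ∈ ho_P) (s : ℤ) : (p * conj (ho_u s)).re ≤ ho_k := by
  have hconv : Convex ℝ {p : ℂ | (p * conj (ho_u s)).re ≤ ho_k} := by
    refine convex_halfSpace_le ?_ _
    refine ⟨fun x y => by simp; ring, fun c x => by simp; ring⟩
  refine (convexHull_min ?_ hconv) hp
  rintro _ ⟨t, rfl⟩
  rw [Set.mem_ofPred_eq]
  have e : ho_V t * conj (ho_u s) = ho_V (t + -s) := by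
    unfold ho_V
    rw [ho_u_add, ho_u_neg]
    ring
  rw [e]
  exact ho_V_re_le _

lemma ho_T_re_ge (n : ℤ) : ho_k - 1 ≤ (ho_T (4 * n)).re := by
  have e : ho_T (4 * n) = ho_T (4 * (n % 3)) := by
    have := ho_T_per (4 * (n % 3)) (n / 3)
    rw [← this]
    congr 1
    have := Int.emod_add_mul_ediv n 3
    linarith
  rw [e]
  have h0 := Int.emod_nonneg n (by norm_num : (3 : ℤ) ≠ 0)
  have h1 := Int.emod_lt_of_pos n (by norm_num : (0 : ℤ) < 3)
  have e3 := ho_r3
  have l1 := ho_r3_lt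
  have l2 := ho_r3_gt
  have e0 := ho_u_zero
  have e1 := ho_u_one
  have e2 := ho_u_two
  have e5 := ho_u_add_three 1
  have e6 := ho_u_add_three 2
  have e9 := ho_u_add_three 5
  norm_num at e5 e6 e9
  generalize n % 3 = t at h0 h1
  unfold ho_T ho_V ho_k ho_s
  interval_cases t
  · norm_num
    rw [e0]; simp
  · norm_num
    rw [e5, e1]; simp; nlinarith
  · norm_num
    rw [e9, e6, e2]; simp; nlinarith

/-- the triangles are on one side of their sides -/
lemma ho_Q_ge {c : ℤ} {p : ℂ} (hp : p ∈ ho_Q c) (n : ℤ) :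
    ho_k - 1 ≤ (p * conj (ho_u (c + 4 * n))).re := by
  have hconv : Convex ℝ {p : ℂ | ho_k - 1 ≤ (p * conj (ho_u (c + 4 * n))).re} := by
    refine convex_halfSpace_ge ?_ _
    refine ⟨fun x y => by simp; ring, fun c x => by simp; ring⟩
  refine (convexHull_min ?_ hconv) hp
  rintro _ ⟨t, rfl⟩
  rw [Set.mem_ofPred_eq, ho_W_eq]
  have e : ho_T (c + 4 * t) * conj (ho_u (c + 4 * n)) = ho_T (4 * (t - n)) := by
    rw [ho_T_eq, ho_T_eq]
    have e1 : 4 * (t - n) = (c + 4 * t) + -(c + 4 * n) := by ring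
    rw [e1, ho_u_add (c + 4 * t), ho_u_neg]
    ring
  rw [e]
  exact ho_T_re_ge _

/-- heights of the points of the 12-gon -/
lemma ho_P_height {p δ : ℂ} (hp : p ∈ ho_P) {lo hi : ℝ} (h : ∀ s, lo ≤ (δ * ho_V s).im ∧ (δ * ho_V s).im ≤ hi) :
    lo ≤ (δ * p).im ∧ (δ * p).im ≤ hi := by
  have hconv : Convex ℝ {p : ℂ | lo ≤ (δ * p).im ∧ (δ * p).im ≤ hi} := by
    have hl : IsLinearMap ℝ (fun p : ℂ => (δ * p).im) :=
      ⟨fun x y => by simp; ring, fun c x => by simp; ring⟩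
    exact (convex_halfSpace_ge hl lo).inter (convex_halfSpace_le hl hi)
  refine (convexHull_min ?_ hconv) hp
  rintro _ ⟨t, rfl⟩
  exact h t

/-- heights of the points of the triangles -/
lemma ho_Q_height {c : ℤ} {p δ : ℂ} (hp : p ∈ ho_Q c) {lo hi : ℝ}
    (h : ∀ n, lo ≤ (δ * ho_T (c + 4 * n)).im ∧ (δ * ho_T (c + 4 * n)).im ≤ hi) :
    lo ≤ (δ * p).im ∧ (δ * p).im ≤ hi := by
  have hconv : Convex ℝ {p : ℂ | lo ≤ (δ * p).im ∧ (δ * p).im ≤ hi} := by
    have hl : IsLinearMap ℝ (fun p : ℂ => (δ * p).im) :=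
      ⟨fun x y => by simp; ring, fun c x => by simp; ring⟩
    exact (convex_halfSpace_ge hl lo).inter (convex_halfSpace_le hl hi)
  refine (convexHull_min ?_ hconv) hp
  rintro _ ⟨t, rfl⟩
  rw [ho_W_eq]
  exact h t

end Pool.Agent.OBT
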