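import Mathlib
import Pool.Agent.OBT.HoGeo
import Pool.Agent.OBT.ConvP

/-!
# The charts of Hooper's surface
-/

open scoped ComplexConjugate Topology Real
open MeasureTheory Filter

namespace Pool.Agent.OBT

private lemma HH_q : 0 < 4 := by norm_num
private lemma HH_N : 1 + 4 < 12 := by norm_num
private lemma HH_2 : 2 * 4 < 12 := by norm_num
private lemma HH_d : 4 ∣ 12 := by norm_num

lemma ho_ee (j : ℤ) : ee 12 j = ho_u j := by
  have e : (((2 * j : ℤ) : ℝ) * (π / (12 : ℕ))) = j * (π / 6) := by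
    push_cast
    ring
  apply Complex.ext
  · rw [ee_re, ho_u_re, e]
  · rw [ee_im, ho_u_im, e]

lemma ho_mT_aux : Real.cos (((4 : ℕ) : ℝ) * (π / (12 : ℕ))) = 1 / 2 ∧
    Real.sin (((4 : ℕ) : ℝ) * (π / (12 : ℕ))) = Real.sqrt 3 / 2 := by
  have e : ((4 : ℕ) : ℝ) * (π / (12 : ℕ)) = π / 3 := by push_cast; ring
  rw [e, Real.cos_pi_div_three, Real.sin_pi_div_three]
  exact ⟨rfl, rfl⟩

lemma ho_sigT : sigT 12 4 = 2 * (1 - mT 12 4) := by
  have h1 := mT_eq' HH_q HH_N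
  rw [ho_mT_aux.1] at h1
  linarith

lemma ho_bT : bT 12 4 = Real.sqrt 3 * (1 - mT 12 4) := by
  have h1 := bT_eq' HH_q HH_N
  rw [ho_mT_aux.2, ho_sigT] at h1
  linarith

lemma ho_mT : mT 12 4 = ho_k := by
  unfold ho_k
  rw [mT_eq]
  unfold rhoT
  have e1 : π * (((4 : ℕ) : ℝ) / (12 : ℕ)) = π / 3 := by push_cast; ring
  have e2 : π * (((1 : ℕ) : ℝ) / (12 : ℕ) + ((4 : ℕ) : ℝ) / (12 : ℕ)) = π / 2 - π / (12 : ℕ) := by
    push_cast; ring
  rw [e1, e2, Real.sin_pi_div_two_sub, Real.sin_pi_div_three]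
  have h : 0 < Real.cos (π / (12 : ℕ)) := by
    apply Real.cos_pos_of_mem_Ioo
    have := Real.pi_pos
    push_cast
    constructor <;> linarith
  field_simp

lemma ho_bT' : bT 12 4 = ho_s := by
  rw [ho_bT, ho_mT]
  unfold ho_k ho_s
  linear_combination (-1 / 2) * ho_r3

lemma ho_tau : tau (((1 : ℕ) : ℝ) / (12 : ℕ)) (((4 : ℕ) : ℝ) / (12 : ℕ)) = ho_k + ho_s * Complex.I := by
  rw [tau_eq_mb, ho_mT, ho_bT']
  apply Complex.ext <;> simp

/-- the inequalities of the 12-gon -/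
lemma ho_ineq (z : ℂ) (j : ℤ) : z.re * Real.cos ((2 * j : ℤ) * (π / (12 : ℕ))) +
    z.im * Real.sin ((2 * j : ℤ) * (π / (12 : ℕ))) = (z * conj (ho_u j)).re := by
  rw [← ho_ee, Complex.mul_re, Complex.conj_re, Complex.conj_im, ee_re, ee_im]
  ring

lemma ho_ineq' (z : ℂ) (j : ℤ) : z.im * Real.cos ((2 * j : ℤ) * (π / (12 : ℕ))) -
    z.re * Real.sin ((2 * j : ℤ) * (π / (12 : ℕ))) = (z * conj (ho_u j)).im := by
  rw [← ho_ee, Complex.mul_im, Complex.conj_re, Complex.conj_im, ee_re, ee_im]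
  ring

/-- the images of the apex -/
lemma ho_gtau {g : G (TN 12 1 4)} {j : ℤ} (hg : IsR g j) :
    (∃ s : ℤ, (g : ℂ ≃ₗᵢ[ℝ] ℂ) (ho_k + ho_s * Complex.I) = ho_V s) ∧
    ∃ n : ℤ, (g : ℂ ≃ₗᵢ[ℝ] ℂ) (ho_k + ho_s * Complex.I - 1) = ho_T (j + 4 * n) := by
  rcases hg with rfl | rfl
  · refine ⟨⟨j, ?_⟩, ⟨0, ?_⟩⟩
    · rw [RR_apply HH_q HH_N, ho_ee]
      rfl
    · rw [RR_apply HH_q HH_N, ho_ee, mul_zero, add_zero, ho_T_eq]
      push_cast
      ring
  · refine ⟨⟨j - 1, ?_⟩, ⟨1, ?_⟩⟩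
    · rw [RR2_apply HH_q HH_N, ho_ee, ho_V_sub_one]
      simp [sub_eq_add_neg]
    · rw [RR2_apply HH_q HH_N, ho_ee, mul_one, ho_T_add_four, ho_V_sub_one]
      simp
      ring

lemma ho_zero_mem_P : (0 : ℂ) ∈ ho_P := by
  have h := (convex_convexHull ℝ (Set.range ho_V)) (ho_V_mem 0) (ho_V_mem 6)
    (a := 1 / 2) (b := 1 / 2) (by norm_num) (by norm_num) (by norm_num)
  have e : ho_V 6 = -ho_V 0 := by
    have := ho_u_add_six 0
    rw [zero_add] at this
    unfold ho_V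
    rw [this]
    ring
  rw [e] at h
  have e2 : (1 / 2 : ℝ) • ho_V 0 + (1 / 2 : ℝ) • (-ho_V 0) = 0 := by module
  rw [e2] at h
  exact h

lemma ho_T_sum (s : ℤ) : ho_T (s + 8) = -(ho_T s + ho_T (s + 4)) := by
  have h3 : ho_u 8 = ⟨-1 / 2, -(Real.sqrt 3 / 2)⟩ := by
    have e1 := ho_u_add_six 2
    rw [ho_u_two] at e1
    norm_num at e1
    rw [e1]
    apply Complex.ext <;> simp
    ring
  rw [ho_T_add_four, ho_V_sub_one, ho_T_eq, ho_T_eq, ho_u_add, h3]
  have e : -(ho_u s * (((ho_k - 1 : ℝ) : ℂ) + ho_s * Complex.I) +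
      (ho_u s * (ho_k - ho_s * Complex.I) - ho_u s)) = ho_u s * ((2 * (1 - ho_k) : ℝ) : ℂ) := by
    push_cast
    ring
  rw [e, mul_assoc]
  congr 1
  have := ho_r3
  unfold ho_k ho_s
  apply Complex.ext
  · simp [Complex.mul_re]
    linear_combination this / 2
  · simp [Complex.mul_im]
    linear_combination -this / 4

lemma ho_zero_mem_Q (c : ℤ) : (0 : ℂ) ∈ ho_Q c := by
  have hc := convex_convexHull ℝ (Set.range (ho_W c))
  have m0 := ho_T_mem c 0
  have m1 := ho_T_mem c 1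
  have m2 := ho_T_mem c 2
  have e2 : c + 4 * 2 = c + 8 := by ring
  rw [mul_zero, add_zero] at m0
  rw [mul_one] at m1
  rw [e2, ho_T_sum] at m2
  have h := hc m0 m1 (a := 1 / 2) (b := 1 / 2) (by norm_num) (by norm_num) (by norm_num)
  have h' := hc h m2 (a := 2 / 3) (b := 1 / 3) (by norm_num) (by norm_num) (by norm_num)
  have e3 : (2 / 3 : ℝ) • ((1 / 2 : ℝ) • ho_T c + (1 / 2 : ℝ) • ho_T (c + 4)) +
      (1 / 3 : ℝ) • (-(ho_T c + ho_T (c + 4))) = 0 := by module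
  rw [e3] at h'
  exact h'

/-- convex combinations -/
lemma ho_comb {K : Set ℂ} (hK : Convex ℝ K) {a b : ℝ} {x y : ℂ} (h0 : (0 : ℂ) ∈ K) (hx : x ∈ K)
    (hy : y ∈ K) (ha : 0 ≤ a) (hb : 0 ≤ b) (hab : a + b ≤ 1) : (a : ℂ) * x + b * y ∈ K := by
  have h := hK.sum_mem (t := Finset.univ) (w := ![a, b, 1 - a - b]) (z := ![x, y, 0])
    (by
      intro i _
      fin_cases i
      · exact ha
      · exact hb
      · show 0 ≤ 1 - a - b
        linarith)
    (by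
      rw [Fin.sum_univ_three]
      show a + b + (1 - a - b) = 1
      ring)
    (by
      intro i _
      fin_cases i
      · exact hx
      · exact hy
      · exact h0)
  rw [Fin.sum_univ_three] at h
  have e : a • x + b • y + (1 - a - b) • (0 : ℂ) = (a : ℂ) * x + b * y := by
    rw [smul_zero, add_zero, Complex.real_smul, Complex.real_smul]
  rw [← e]
  exact h

lemma ho_glin (g : G (TN 12 1 4)) (a : ℝ) (z : ℂ) :
    (g : ℂ ≃ₗᵢ[ℝ] ℂ) (a * z) = a * (g : ℂ ≃ₗᵢ[ℝ] ℂ) z := by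
  rw [← Complex.real_smul, map_smul, Complex.real_smul]

/-- the left part of a copy is in the 12-gon -/
lemma ho_mem_P {g : G (TN 12 1 4)} {j : ℤ} (hg : IsR g j) (y : body (TN 12 1 4))
    (hy : (y : ℂ).re ≤ ho_k) : (g : ℂ ≃ₗᵢ[ℝ] ℂ) (y : ℂ) ∈ ho_P := by
  obtain ⟨s, t, hs, ht, hst, he⟩ := StarA_body y.2
  rw [ho_tau] at he
  have hk : 0 < ho_k := by
    unfold ho_k
    have := ho_r3_gt
    linarith
  have hre : (y : ℂ).re = s + t * ho_k := by
    rw [he]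
    simp
  have hg1 : (g : ℂ ≃ₗᵢ[ℝ] ℂ) (ho_k : ℂ) ∈ ho_P := by
    have e1 : (g : ℂ ≃ₗᵢ[ℝ] ℂ) (ho_k : ℂ) = ho_k * ho_u j := by
      have := ho_glin g ho_k 1
      rw [mul_one, isR_one HH_q HH_N hg, ho_ee] at this
      exact this
    have := ho_side_mem j (r := 0) (by rw [abs_zero]; exact ho_s_pos.le)
    rw [e1, mul_comm]
    simpa using this
  obtain ⟨i, hi⟩ := (ho_gtau hg).1
  have hg2 : (g : ℂ ≃ₗᵢ[ℝ] ℂ) (ho_k + ho_s * Complex.I) ∈ ho_P := by
    rw [hi]; exact ho_V_mem i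
  have e2 : (y : ℂ) = ((s / ho_k : ℝ) : ℂ) * ho_k + (t : ℂ) * (ho_k + ho_s * Complex.I) := by
    rw [he]
    congr 1
    have : (ho_k : ℂ) ≠ 0 := by exact_mod_cast hk.ne'
    push_cast
    field_simp
  rw [e2, map_add, ho_glin, ho_glin]
  refine ho_comb (convex_convexHull ℝ _) ho_zero_mem_P hg1 hg2 (by positivity) ht ?_
  rw [hre] at hy
  have : (s / ho_k + t) * ho_k ≤ 1 * ho_k := by
    rw [add_mul, div_mul_cancel₀ _ hk.ne']
    linarith
  exact le_of_mul_le_mul_right this hk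

/-- the right part of a copy is in the triangle -/
lemma ho_mem_Q {g : G (TN 12 1 4)} {j : ℤ} (hg : IsR g j) (y : body (TN 12 1 4))
    (hy : ho_k ≤ (y : ℂ).re) : (g : ℂ ≃ₗᵢ[ℝ] ℂ) ((y : ℂ) - 1) ∈ ho_Q j := by
  obtain ⟨s, t, hs, ht, hst, he⟩ := StarA_body y.2
  rw [ho_tau] at he
  have hk : 0 < 1 - ho_k := by
    unfold ho_k
    have := ho_r3_lt
    linarith
  have hre : (y : ℂ).re = s + t * ho_k := by
    rw [he]
    simp
  have hg1 : (g : ℂ ≃ₗᵢ[ℝ] ℂ) (((-(1 - ho_k) : ℝ)) : ℂ) ∈ ho_Q j := by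
    have e1 : (g : ℂ ≃ₗᵢ[ℝ] ℂ) (((-(1 - ho_k) : ℝ)) : ℂ) = ho_u j * (ho_k + (0 : ℝ) * Complex.I) - ho_u j := by
      have := ho_glin g (-(1 - ho_k)) 1
      rw [mul_one, isR_one HH_q HH_N hg, ho_ee] at this
      rw [this]
      push_cast
      ring
    rw [e1]
    exact ho_sideQ_mem j (by rw [abs_zero]; exact ho_s_pos.le)
  obtain ⟨n, hn⟩ := (ho_gtau hg).2
  have hg2 : (g : ℂ ≃ₗᵢ[ℝ] ℂ) (ho_k + ho_s * Complex.I - 1) ∈ ho_Q j := by
    rw [hn]; exact ho_T_mem j n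
  have e2 : (y : ℂ) - 1 = (((1 - s - t) / (1 - ho_k) : ℝ) : ℂ) * ((-(1 - ho_k) : ℝ) : ℂ) +
      (t : ℂ) * (ho_k + ho_s * Complex.I - 1) := by
    rw [he]
    have h0 : ((1 - s - t) / (1 - ho_k)) * (-(1 - ho_k)) = -(1 - s - t) := by
      field_simp
    rw [← Complex.ofReal_mul, h0]
    push_cast
    ring
  rw [e2, map_add, ho_glin, ho_glin]
  refine ho_comb (convex_convexHull ℝ _) (ho_zero_mem_Q j) hg1 hg2 (div_nonneg (by linarith) hk.le) ht ?_
  rw [hre] at hy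
  have : ((1 - s - t) / (1 - ho_k) + t) * (1 - ho_k) ≤ 1 * (1 - ho_k) := by
    rw [add_mul, div_mul_cancel₀ _ hk.ne']
    linarith
  exact le_of_mul_le_mul_right this hk

/-- the charts of Hooper's surface -/
theorem exists_hoCharts : ∃ (P : ℂ → Surf (TN 12 1 4)) (Q : ℤ → ℂ → Surf (TN 12 1 4)),
    HoCharts (TN 12 1 4) P Q := by
  obtain ⟨p1, p2, p3⟩ := Form1_pos one_pos HH_q HH_N
  have hv : AffineIndependent ℝ (TN 12 1 4) := affineIndependent_tri p1 p2 p3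
  have hreg : ∀ (g : G (TN 12 1 4)) (y : body (TN 12 1 4)), (y : ℂ) ≠ ho_k + ho_s * Complex.I →
      Rg (Surf.mk g y) := by
    intro g y hy
    by_cases h0 : (y : ℂ) = 0
    · exact rg_center one_pos HH_q HH_N (one_dvd _) (by rw [proj_mk]; exact h0)
    by_cases h1 : (y : ℂ) = 1
    · exact rg_center_one one_pos HH_q HH_N HH_d (by rw [proj_mk]; exact h1)
    apply rg_of_not_vertex hv
    rw [proj_mk]
    intro k hk
    fin_cases k
    · exact h0 hk
    · exact h1 hk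
    · exact hy (hk.trans ho_tau)
  refine ⟨SP HH_q HH_N, fun c => SQ HH_q HH_N HH_d (c % 4), ?_, ?_, ?_, ?_, ?_, ?_, ?_, ?_⟩
  · intro z _
    rw [eventually_nhdsWithin_iff]
    filter_upwards [SP_flat HH_q HH_N HH_2 z] with w hw hwP
    apply hw
    intro j
    rw [ho_ineq, ho_mT]
    exact ho_P_le hwP j
  · intro c z _
    rw [eventually_nhdsWithin_iff]
    filter_upwards [SQ_flat HH_q HH_N HH_d HH_2 (c % 4) z] with w hw hwP
    apply hw
    intro j hj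
    rw [ho_ineq, ho_mT]
    obtain ⟨n, hn⟩ := hj
    have hj' : j = c + 4 * (n - c / 4) := by
      have := Int.emod_add_mul_ediv c 4
      push_cast at hn
      linarith
    have := ho_Q_ge hwP (n - c / 4)
    rw [← hj'] at this
    linarith
  · intro c z
    show SQ HH_q HH_N HH_d ((c + 4) % 4) z = SQ HH_q HH_N HH_d (c % 4) z
    rw [Int.add_emod_right]
  · intro s r hr
    have hconj : ho_u s * (ho_k + r * Complex.I) * conj (ho_u s) = ho_k + r * Complex.I := by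
      have := ho_u_conj s
      linear_combination (ho_k + r * Complex.I) * this
    have hdiv : ((4 : ℕ) : ℤ) ∣ s - s % 4 := by
      push_cast
      exact Int.dvd_self_sub_emod
    have := SP_eq_SQ HH_q HH_N HH_d HH_2 (k := s % 4) (j := s) hdiv
      (z := ho_u s * (ho_k + r * Complex.I)) (by
        rw [ho_ineq, hconj, ho_mT]
        simp) (by
        rw [ho_ineq', hconj, ho_bT']
        simpa using hr)
    rw [ho_ee] at this
    exact this
  · intro z hz hzV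
    obtain ⟨j, g, y, hg, hy⟩ := dom_P HH_q HH_N HH_2 (z := z) (by
      intro j
      rw [ho_ineq, ho_mT]
      exact ho_P_le hz j)
    rw [← hy, SP_mk]
    apply hreg
    intro h
    obtain ⟨i, hi⟩ := (ho_gtau hg).1
    rw [← h, hy] at hi
    exact hzV i hi
  · intro c z hz hzV
    obtain ⟨j, g, y, hj, hg, hy⟩ := dom_Q HH_q HH_N HH_2 (c % 4) (z := z) (by
      intro j hj
      rw [ho_ineq, ho_mT]
      obtain ⟨n, hn⟩ := hj
      have hj' : j = c + 4 * (n - c / 4) := by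
        have := Int.emod_add_mul_ediv c 4
        push_cast at hn
        linarith
      have := ho_Q_ge hz (n - c / 4)
      rw [← hj'] at this
      linarith)
    show Rg (SQ HH_q HH_N HH_d (c % 4) z)
    rw [← hy, SQ_mk HH_q HH_N HH_d hj hg]
    apply hreg
    intro h
    obtain ⟨i, hi⟩ := (ho_gtau hg).2
    rw [← h, hy] at hi
    obtain ⟨n, hn⟩ := hj
    have hj' : j = c + 4 * (n - c / 4) := by
      have := Int.emod_add_mul_ediv c 4
      push_cast at hn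
      linarith
    apply hzV (n - c / 4 + i)
    rw [hi, ho_W_eq]
    congr 1
    rw [hj']
    ring
  · intro s
    have h : ho_V s = ((RR 12 4 s : G (TN 12 1 4)) : ℂ ≃ₗᵢ[ℝ] ℂ) (ho_k + ho_s * Complex.I) := by
      rw [RR_apply HH_q HH_N, ho_ee]
      rfl
    have hmem : (ho_k + ho_s * Complex.I : ℂ) ∈ body (TN 12 1 4) := by
      rw [← ho_tau]
      exact vert_mem_body (v := TN 12 1 4) 2
    have h2 := SP_mk HH_q HH_N (RR 12 4 s) ⟨_, hmem⟩
    rw [h, h2]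
    exact not_rg_tau one_pos HH_q (by norm_num) (by rw [proj_mk]; exact ho_tau.symm)
  · intro ξ
    obtain ⟨g, y, rfl⟩ := mk_surjective ξ
    obtain ⟨j, hj⟩ := exists_isR HH_q HH_N g
    rcases le_total (y : ℂ).re ho_k with h | h
    · left
      exact ⟨_, ho_mem_P hj y h, SP_mk HH_q HH_N g y⟩
    · right
      refine ⟨j, _, ho_mem_Q hj y h, ?_⟩
      have hdiv : ((4 : ℕ) : ℤ) ∣ j - j % 4 := by
        push_cast
        exact Int.dvd_self_sub_emod
      exact SQ_mk HH_q HH_N HH_d hdiv hj y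

end Pool.Agent.OBT
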