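import Mathlib
import Pool.Agent.OBT.StarG

/-!
# Assembly of a cylinder from a periodic chain of flat pieces indexed by the integers
-/

open scoped ComplexConjugate Topology Real
open MeasureTheory Filter

namespace Pool.Agent.OBT

variable {v : Fin 3 → ℂ}

private theorem HA_mono {β : ℤ → ℝ} (hβ : ∀ j, β j ≤ β (j + 1)) {i j : ℤ} (hij : i ≤ j) :
    β i ≤ β j := monotone_int_of_le_succ hβ hij

private theorem HA_per {β : ℤ → ℝ} {l : ℝ} {m : ℕ} (hβ : ∀ j, β (j + m) = β j + l) (n : ℤ) :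
    ∀ j, β (j + n * m) = β j + n * l := by
  induction n using Int.induction_on with
  | zero => intro j; simp
  | succ n ih =>
    intro j
    have e : j + ((n : ℤ) + 1) * m = (j + (n : ℤ) * m) + m := by ring
    rw [e, hβ, ih]
    push_cast
    ring
  | pred n ih =>
    intro j
    have e : j + (-(n : ℤ)) * m = (j + (-(n : ℤ) - 1) * m) + m := by ring
    have h1 := ih j
    rw [e, hβ] at h1
    push_cast at h1 ⊢
    linarith

private theorem HA_perf {f : ℤ → ℂ → Surf v} {l : ℝ} {m : ℕ}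
    (hf : ∀ j z, f (j + m) (z + l) = f j z) (n : ℤ) :
    ∀ j z, f (j + n * m) (z + n * l) = f j z := by
  induction n using Int.induction_on with
  | zero => intro j z; simp
  | succ n ih =>
    intro j z
    have e : j + ((n : ℤ) + 1) * m = (j + (n : ℤ) * m) + m := by ring
    have e2 : z + (((n : ℤ) + 1 : ℤ) : ℂ) * l = (z + ((n : ℤ) : ℂ) * l) + l := by push_cast; ring
    rw [e, e2, hf, ih]
  | pred n ih =>
    intro j z
    have e : j + (-(n : ℤ)) * m = (j + (-(n : ℤ) - 1) * m) + m := by ring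
    have e2 : z + ((-(n : ℤ) : ℤ) : ℂ) * l = (z + ((-(n : ℤ) - 1 : ℤ) : ℂ) * l) + l := by
      push_cast; ring
    have h1 := ih j z
    rw [e, e2, hf] at h1
    exact h1

private theorem HA_eq {β : ℤ → ℝ} {f : ℤ → Surf v} {x : ℝ} (hβ : ∀ j, β j ≤ β (j + 1))
    (hg : ∀ j, x = β (j + 1) → f j = f (j + 1)) (a : ℤ) (k : ℕ) :
    x ≤ β (a + 1) → β (a + k) ≤ x → x ≤ β (a + k + 1) → f a = f (a + k) := by
  induction k with
  | zero => intro _ _ _; simp
  | succ k ih =>
    intro h1 h2 h3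
    have e : a + ((k + 1 : ℕ) : ℤ) = a + k + 1 := by push_cast; ring
    rw [e] at h2 ⊢
    have h4 : x = β (a + k + 1) := by
      refine le_antisymm ?_ h2
      refine h1.trans (HA_mono hβ ?_)
      omega
    rw [ih h1 ((hβ _).trans h2) h4.le]
    exact hg _ h4

/-- the assembly lemma, with pieces indexed by the integers -/
theorem assembleZ {e : ℂ} {l h : ℝ} (hl : 0 < l) {m : ℕ} (hm : 0 < m) (β : ℤ → ℝ → ℝ)
    (f : ℤ → ℂ → Surf v) (hβc : ∀ j, Continuous (β j))
    (hβ : ∀ j Y, 0 ≤ Y → Y ≤ h → β j Y ≤ β (j + 1) Y)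
    (hβp : ∀ j Y, β (j + m) Y = β j Y + l)
    (hfp : ∀ j z, f (j + m) (z + l) = f j z)
    (hglue : ∀ j, ∀ z ∈ strip h, z.re = β (j + 1) z.im → f j z = f (j + 1) z)
    (hflat : ∀ j, ∀ z ∈ strip h, β j z.im ≤ z.re → z.re ≤ β (j + 1) z.im →
      ∀ᶠ w in 𝓝 z, w ∈ strip h → β j w.im ≤ w.re → w.re ≤ β (j + 1) w.im →
        Dsp (f j z) (f j w) (e * (w - z))) :
    ∃ Ψ : ℂ → Surf v,
      (∀ j, ∀ z ∈ strip h, β j z.im ≤ z.re → z.re ≤ β (j + 1) z.im → Ψ z = f j z) ∧
      (∀ z ∈ strip h, ∀ᶠ w in 𝓝[strip h] z, Dsp (Ψ z) (Ψ w) (e * (w - z))) ∧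
      (∀ z ∈ strip h, Ψ (z + l) = Ψ z) ∧
      (∀ z ∈ strip h, ∃ j, β j z.im ≤ z.re ∧ z.re ≤ β (j + 1) z.im) := by
  classical
  have hmono : ∀ Y, 0 ≤ Y → Y ≤ h → ∀ i j : ℤ, i ≤ j → β i Y ≤ β j Y := fun Y h0 h1 i j hij =>
    HA_mono (β := fun j => β j Y) (fun j => hβ j Y h0 h1) hij
  have hper : ∀ (n j : ℤ) Y, β (j + n * m) Y = β j Y + n * l := fun n j Y =>
    HA_per (β := fun j => β j Y) (fun j => hβp j Y) n j
  have hperf := HA_perf hfp
  have heq : ∀ (a b : ℤ) (z : ℂ), z ∈ strip h → a ≤ b → z.re ≤ β (a + 1) z.im → β b z.im ≤ z.re →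
      z.re ≤ β (b + 1) z.im → f a z = f b z := by
    intro a b z hz hab h1 h2 h3
    obtain ⟨k, rfl⟩ := Int.le.dest hab
    exact HA_eq (β := fun j => β j z.im) (f := fun j => f j z) (fun j => hβ j _ hz.1 hz.2)
      (fun j hj => hglue j z hz hj) a k h1 h2 h3
  have heq' : ∀ (a b : ℤ) (z : ℂ), z ∈ strip h → β a z.im ≤ z.re → z.re ≤ β (a + 1) z.im →
      β b z.im ≤ z.re → z.re ≤ β (b + 1) z.im → f a z = f b z := by
    intro a b z hz h0 h1 h2 h3
    rcases le_total a b with hab | hab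
    · exact heq a b z hz hab h1 h2 h3
    · exact (heq b a z hz hab h3 h0 h1).symm
  have hcov : ∀ z ∈ strip h, ∃ j, β j z.im ≤ z.re ∧ z.re ≤ β (j + 1) z.im := by
    intro z hz
    have hbd : ∃ b : ℤ, ∀ j : ℤ, β j z.im ≤ z.re → j ≤ b := by
      obtain ⟨n, hn⟩ := exists_nat_gt ((z.re - β 0 z.im) / l)
      rw [div_lt_iff₀ hl] at hn
      refine ⟨n * m, fun j hj => ?_⟩
      by_contra hc
      have h1 := hmono z.im hz.1 hz.2 _ _ (not_le.1 hc).le
      have h2 := hper n 0 z.im
      rw [zero_add] at h2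
      rw [h2] at h1
      push_cast at h1
      linarith
    have hne : ∃ j : ℤ, β j z.im ≤ z.re := by
      obtain ⟨n, hn⟩ := exists_nat_gt ((β 0 z.im - z.re) / l)
      rw [div_lt_iff₀ hl] at hn
      refine ⟨(-(n : ℤ)) * m, ?_⟩
      have h2 := hper (-(n : ℤ)) 0 z.im
      rw [zero_add] at h2
      rw [h2]
      push_cast
      linarith
    obtain ⟨j, hj1, hj2⟩ := Int.exists_greatest_of_bdd hbd hne
    refine ⟨j, hj1, ?_⟩
    by_contra hc
    have := hj2 (j + 1) (not_le.1 hc).le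
    omega
  set K : Fin m → Set ℂ := fun i => {z | z ∈ strip h ∧ β i z.im ≤ z.re ∧ z.re ≤ β ((i : ℤ) + 1) z.im}
    with hKdef
  have hKc : ∀ i, IsCompact (K i) := by
    intro i
    have hclosed : IsClosed (K i) := by
      refine IsClosed.inter (s₁ := {z : ℂ | z ∈ strip h}) ?_ (IsClosed.inter (s₁ := {z : ℂ | β i z.im ≤ z.re})
        ?_ ?_)
      · exact (isClosed_le continuous_const Complex.continuous_im).inter
          (isClosed_le Complex.continuous_im continuous_const)
      · exact isClosed_le ((hβc _).comp Complex.continuous_im) Complex.continuous_re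
      · exact isClosed_le Complex.continuous_re ((hβc _).comp Complex.continuous_im)
    obtain ⟨A, hA⟩ := (isCompact_Icc (a := (0 : ℝ)) (b := h)).bddBelow_image (hβc i).continuousOn
    obtain ⟨B, hB⟩ := (isCompact_Icc (a := (0 : ℝ)) (b := h)).bddAbove_image (hβc ((i : ℤ) + 1)).continuousOn
    have hsub : K i ⊆ Set.Icc A B ×ℂ Set.Icc 0 h := by
      intro z hz
      rw [Complex.mem_reProdIm]
      refine ⟨⟨?_, ?_⟩, hz.1⟩
      · exact (hA ⟨z.im, hz.1, rfl⟩).trans hz.2.1
      · exact hz.2.2.trans (hB ⟨z.im, hz.1, rfl⟩)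
    exact (isCompact_Icc.reProdIm isCompact_Icc).of_isClosed_subset hclosed hsub
  have hstr : ∀ (z : ℂ) (n : ℤ), z + n * l ∈ strip h ↔ z ∈ strip h := by
    intro z n
    unfold strip
    simp
  have him : ∀ (z : ℂ) (n : ℤ), (z + n * l).im = z.im ∧ (z + n * l).re = z.re + n * l := by
    intro z n
    simp
  obtain ⟨Ψ, h1, h2, h3⟩ := assemble (e := e) (h := h) hl K (fun i => f i) hKc (by
      intro i z hz
      rw [eventually_nhdsWithin_iff]
      filter_upwards [hflat i z hz.1 hz.2.1 hz.2.2] with w hw hwK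
      exact hw hwK.1 hwK.2.1 hwK.2.2) (by
      intro z hz
      obtain ⟨j, hj1, hj2⟩ := hcov z hz
      have hm' : (0 : ℤ) < m := by exact_mod_cast hm
      have r0 := Int.emod_nonneg j hm'.ne'
      have r1 := Int.emod_lt_of_pos j hm'
      have r2 := Int.emod_add_mul_ediv j m
      have hlt : (j % m).toNat < m := by omega
      have htn : (((j % m).toNat : ℕ) : ℤ) = j % m := Int.toNat_of_nonneg r0
      refine ⟨⟨(j % m).toNat, hlt⟩, -(j / m), (hstr _ _).2 hz, ?_, ?_⟩
      · rw [(him _ _).1, (him _ _).2]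
        show β (((j % m).toNat : ℕ) : ℤ) z.im ≤ _
        rw [htn]
        have h4 := hper (-(j / m)) j z.im
        have e1 : j + -(j / m) * m = j % m := by linarith
        rw [e1] at h4
        rw [h4]
        linarith
      · rw [(him _ _).1, (him _ _).2]
        show _ ≤ β ((((j % m).toNat : ℕ) : ℤ) + 1) z.im
        rw [htn]
        have h4 := hper (-(j / m)) (j + 1) z.im
        have e1 : j + 1 + -(j / m) * m = j % m + 1 := by linarith
        rw [e1] at h4
        rw [h4]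
        linarith) (by
      intro i j z n hi hj
      obtain ⟨i1, i2, i3⟩ := hi
      obtain ⟨j1, j2, j3⟩ := hj
      rw [(him _ _).1, (him _ _).2] at j2 j3
      have h4 : f j (z + n * l) = f (j - n * m) z := by
        have h5 := hperf n (j - n * m) z
        rw [sub_add_cancel] at h5
        exact h5
      rw [h4]
      refine heq' i (j - n * m) z i1 i2 i3 ?_ ?_
      · have h5 := hper n (j - n * m) z.im
        rw [sub_add_cancel] at h5
        linarith
      · have h5 := hper n (j - n * m + 1) z.im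
        have e1 : (j : ℤ) - n * m + 1 + n * m = j + 1 := by ring
        rw [e1] at h5
        linarith)
  refine ⟨Ψ, ?_, h2, h3, hcov⟩
  intro j z hz hj1 hj2
  have hm' : (0 : ℤ) < m := by exact_mod_cast hm
  have r0 := Int.emod_nonneg j hm'.ne'
  have r1 := Int.emod_lt_of_pos j hm'
  have r2 := Int.emod_add_mul_ediv j m
  have hlt : (j % m).toNat < m := by omega
  have htn : (((j % m).toNat : ℕ) : ℤ) = j % m := Int.toNat_of_nonneg r0
  have hmem : z + ((-(j / m) : ℤ) : ℂ) * l ∈ K ⟨(j % m).toNat, hlt⟩ := by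
    refine ⟨(hstr _ _).2 hz, ?_, ?_⟩
    · rw [(him _ _).1, (him _ _).2]
      show β (((j % m).toNat : ℕ) : ℤ) z.im ≤ _
      rw [htn]
      have h4 := hper (-(j / m)) j z.im
      have e1 : j + -(j / m) * m = j % m := by linarith
      rw [e1] at h4
      rw [h4]
      linarith
    · rw [(him _ _).1, (him _ _).2]
      show _ ≤ β ((((j % m).toNat : ℕ) : ℤ) + 1) z.im
      rw [htn]
      have h4 := hper (-(j / m)) (j + 1) z.im
      have e1 : j + 1 + -(j / m) * m = j % m + 1 := by linarith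
      rw [e1] at h4
      rw [h4]
      linarith
  rw [h1 _ _ _ hmem]
  show f (((j % m).toNat : ℕ) : ℤ) _ = f j z
  rw [htn]
  have h5 := hperf (-(j / m)) j z
  have e1 : j + -(j / m) * m = j % m := by linarith
  rw [e1] at h5
  exact h5

end Pool.Agent.OBT
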