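import Mathlib
import Pool.Agent.OBT.HoGeo
import Pool.Agent.OBT.HoAsm

/-!
# Cylinders from chains of crossings of the 12-gon and the triangles
-/

open scoped ComplexConjugate Topology Real
open MeasureTheory Filter

namespace Pool.Agent.OBT

noncomputable section

/-- the abscissa of the point of height `Y` of the side `s` of the 12-gon with centre `O` -/
def sd (δ O : ℂ) (s : ℤ) (Y : ℝ) : ℝ :=
  O.re + (ho_k * Complex.normSq δ - (Y - O.im) * (δ * ho_u s).im) / (δ * ho_u s).re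

lemma sd_cont (δ O : ℂ) (s : ℤ) : Continuous (sd δ O s) := by
  unfold sd
  fun_prop

lemma sd_id {δ O : ℂ} (hδ : δ ≠ 0) {s : ℤ} (hq : (δ * ho_u s).re ≠ 0) (Z : ℂ) :
    (Z.re - sd δ O s Z.im) * (δ * ho_u s).re =
      (((Z - O) / δ * conj (ho_u s)).re - ho_k) * Complex.normSq δ := by
  have hn : Complex.normSq δ ≠ 0 := by
    rw [Ne, Complex.normSq_eq_zero]; exact hδ
  have e1 : ((Z - O) / δ * conj (ho_u s)).re * Complex.normSq δ =
      ((Z - O) * conj (δ * ho_u s)).re := by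
    have e2 : ((Z - O) / δ * conj (ho_u s)) * (Complex.normSq δ : ℂ) =
        (Z - O) * conj (δ * ho_u s) := by
      rw [← Complex.mul_conj, map_mul]
      field_simp
    rw [← e2, Complex.re_mul_ofReal]
  have e3 : ((Z - O) * conj (δ * ho_u s)).re =
      (Z.re - O.re) * (δ * ho_u s).re + (Z.im - O.im) * (δ * ho_u s).im := by
    generalize δ * ho_u s = q
    simp [Complex.mul_re]
  rw [sub_mul _ ho_k, e1, e3]
  unfold sd
  generalize δ * ho_u s = q at hq
  field_simp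
  ring

lemma sd_eq {δ O : ℂ} (hδ : δ ≠ 0) {s : ℤ} (hq : (δ * ho_u s).re ≠ 0) {Z : ℂ}
    (h : ((Z - O) / δ * conj (ho_u s)).re = ho_k) : Z.re = sd δ O s Z.im := by
  have h1 := sd_id (O := O) hδ hq Z
  rw [h, sub_self, zero_mul] at h1
  rcases mul_eq_zero.1 h1 with h2 | h2
  · linarith
  · exact absurd h2 hq

lemma sd_le {δ O : ℂ} (hδ : δ ≠ 0) {s : ℤ} (hq : 0 < (δ * ho_u s).re) {Z : ℂ}
    (h : ho_k ≤ ((Z - O) / δ * conj (ho_u s)).re) : sd δ O s Z.im ≤ Z.re := by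
  have h1 := sd_id (O := O) hδ hq.ne' Z
  have h2 := Complex.normSq_nonneg δ
  have h3 : 0 ≤ (Z.re - sd δ O s Z.im) * (δ * ho_u s).re := by
    rw [h1]
    exact mul_nonneg (by linarith) h2
  have := nonneg_of_mul_nonneg_left h3 hq
  linarith

lemma le_sd {δ O : ℂ} (hδ : δ ≠ 0) {s : ℤ} (hq : 0 < (δ * ho_u s).re) {Z : ℂ}
    (h : ((Z - O) / δ * conj (ho_u s)).re ≤ ho_k) : Z.re ≤ sd δ O s Z.im := by
  have h1 := sd_id (O := O) hδ hq.ne' Z
  have h2 := Complex.normSq_nonneg δ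
  have h3 : 0 ≤ (sd δ O s Z.im - Z.re) * (δ * ho_u s).re := by
    have : (sd δ O s Z.im - Z.re) * (δ * ho_u s).re =
      (ho_k - ((Z - O) / δ * conj (ho_u s)).re) * Complex.normSq δ := by linarith
    rw [this]
    exact mul_nonneg (by linarith) h2
  have := nonneg_of_mul_nonneg_left h3 hq
  linarith

lemma sd_le' {δ O : ℂ} (hδ : δ ≠ 0) {s : ℤ} (hq : (δ * ho_u s).re < 0) {Z : ℂ}
    (h : ((Z - O) / δ * conj (ho_u s)).re ≤ ho_k) : sd δ O s Z.im ≤ Z.re := by
  have h1 := sd_id (O := O) hδ hq.ne Z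
  have h2 := Complex.normSq_nonneg δ
  have h3 : 0 ≤ (Z.re - sd δ O s Z.im) * (-(δ * ho_u s).re) := by
    have : (Z.re - sd δ O s Z.im) * (-(δ * ho_u s).re) =
      (ho_k - ((Z - O) / δ * conj (ho_u s)).re) * Complex.normSq δ := by linarith
    rw [this]
    exact mul_nonneg (by linarith) h2
  have := nonneg_of_mul_nonneg_left h3 (by linarith)
  linarith

lemma le_sd' {δ O : ℂ} (hδ : δ ≠ 0) {s : ℤ} (hq : (δ * ho_u s).re < 0) {Z : ℂ}
    (h : ho_k ≤ ((Z - O) / δ * conj (ho_u s)).re) : Z.re ≤ sd δ O s Z.im := by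
  have h1 := sd_id (O := O) hδ hq.ne Z
  have h2 := Complex.normSq_nonneg δ
  have h3 : 0 ≤ (sd δ O s Z.im - Z.re) * (-(δ * ho_u s).re) := by
    have : (sd δ O s Z.im - Z.re) * (-(δ * ho_u s).re) =
      (((Z - O) / δ * conj (ho_u s)).re - ho_k) * Complex.normSq δ := by linarith
    rw [this]
    exact mul_nonneg (by linarith) h2
  have := nonneg_of_mul_nonneg_left h3 (by linarith)
  linarith

/-- heights of the vertices of a side -/
lemma ho_V_im (δ : ℂ) (s : ℤ) : (δ * ho_V s).im = ho_k * (δ * ho_u s).im + ho_s * (δ * ho_u s).re ∧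
    (δ * ho_V (s - 1)).im = ho_k * (δ * ho_u s).im - ho_s * (δ * ho_u s).re := by
  rw [ho_V_sub_one]
  unfold ho_V
  rw [← mul_assoc, ← mul_assoc]
  generalize δ * ho_u s = q
  constructor
  · simp [Complex.mul_im]; ring
  · simp [Complex.mul_im]; ring

/-- the point of a side -/
lemma sd_point {δ O : ℂ} (hδ : δ ≠ 0) {s : ℤ} (hq : (δ * ho_u s).re ≠ 0) {Z : ℂ}
    (hZ : Z.re = sd δ O s Z.im)
    (hr : |Z.im - O.im - ho_k * (δ * ho_u s).im| ≤ ho_s * |(δ * ho_u s).re|) :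
    ∃ r : ℝ, |r| ≤ ho_s ∧ (Z - O) / δ = ho_u s * (ho_k + r * Complex.I) := by
  have hn : Complex.normSq δ ≠ 0 := by
    rw [Ne, Complex.normSq_eq_zero]; exact hδ
  have h1 := sd_id (O := O) hδ hq Z
  rw [← hZ, sub_self, zero_mul] at h1
  have h2 : ((Z - O) / δ * conj (ho_u s)).re = ho_k := by
    rcases mul_eq_zero.1 h1.symm with h3 | h3
    · linarith
    · exact absurd h3 hn
  set r := ((Z - O) / δ * conj (ho_u s)).im with hrdef
  have h3 : (Z - O) / δ * conj (ho_u s) = ho_k + r * Complex.I := by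
    apply Complex.ext
    · simp [h2]
    · simp [hrdef]
  have h4 : (Z - O) / δ = ho_u s * (ho_k + r * Complex.I) := by
    rw [← h3]
    have := ho_u_conj s
    calc (Z - O) / δ = (Z - O) / δ * (ho_u s * conj (ho_u s)) := by rw [this, mul_one]
      _ = _ := by ring
  refine ⟨r, ?_, h4⟩
  have h5 : Z - O = δ * ho_u s * (ho_k + r * Complex.I) := by
    rw [mul_assoc, ← h4]
    field_simp
  have h6 : Z.im - O.im = ho_k * (δ * ho_u s).im + r * (δ * ho_u s).re := by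
    have := congrArg Complex.im h5
    rw [Complex.sub_im] at this
    rw [this]
    generalize δ * ho_u s = q
    simp [Complex.mul_im]
    ring
  have h7 : Z.im - O.im - ho_k * (δ * ho_u s).im = r * (δ * ho_u s).re := by linarith
  rw [h7, abs_mul] at hr
  exact le_of_mul_le_mul_right hr (abs_pos.2 hq)

/-- a chain of crossings of the 12-gon and the triangles by a horizontal strip of height `h` and
period `l` (in the coordinates `Z = δ p`): the 12-gon with centre `O j` is entered by the side `a j`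
and left by the side `b j` -/
structure HoChain (δ : ℂ) (m : ℕ) (a b : ℤ → ℤ) (O : ℤ → ℂ) (h l : ℝ) : Prop where
  hδ : δ ≠ 0
  mpos : 0 < m
  hpos : 0 < h
  lpos : 0 < l
  pera : ∀ j, a (j + m) = a j
  perb : ∀ j, b (j + m) = b j
  perO : ∀ j, O (j + m) = O j + l
  next : ∀ j, O (j + 1) + δ * ho_u (a (j + 1)) = O j + δ * ho_u (b j)
  cls : ∀ j, ∃ n : ℤ, a (j + 1) = b j + 4 * n
  b0 : ∀ j, (O j + δ * ho_V (b j - 1)).im ≤ 0
  b1 : ∀ j, h ≤ (O j + δ * ho_V (b j)).im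
  a0 : ∀ j, (O j + δ * ho_V (a j)).im ≤ 0
  a1 : ∀ j, h ≤ (O j + δ * ho_V (a j - 1)).im
  vtx : ∀ j s, (O j + δ * ho_V s).im ≤ 0 ∨ h ≤ (O j + δ * ho_V s).im
  vtxQ : ∀ j n, (O j + δ * ho_u (b j) + δ * ho_T (b j + 4 * n)).im ≤ 0 ∨
    h ≤ (O j + δ * ho_u (b j) + δ * ho_T (b j + 4 * n)).im
  bot : ∃ j, (O j + δ * ho_V (b j - 1)).im = 0 ∨ (O j + δ * ho_V (a j)).im = 0
  top : ∃ j, (O j + δ * ho_V (b j)).im = h ∨ (O j + δ * ho_V (a j - 1)).im = h

namespace HoChain

variable {δ : ℂ} {m : ℕ} {a b : ℤ → ℤ} {O : ℤ → ℂ} {h l : ℝ}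

lemma qb (C : HoChain δ m a b O h l) (j : ℤ) : 0 < (δ * ho_u (b j)).re := by
  have h1 := C.b0 j
  have h2 := C.b1 j
  have h3 := C.hpos
  obtain ⟨e1, e2⟩ := ho_V_im δ (b j)
  rw [Complex.add_im, e2] at h1
  rw [Complex.add_im, e1] at h2
  have h4 : 0 < ho_s * (δ * ho_u (b j)).re := by linarith
  exact pos_of_mul_pos_right h4 ho_s_pos.le

lemma qa (C : HoChain δ m a b O h l) (j : ℤ) : (δ * ho_u (a j)).re < 0 := by
  have h1 := C.a0 j
  have h2 := C.a1 j
  have h3 := C.hpos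
  obtain ⟨e1, e2⟩ := ho_V_im δ (a j)
  rw [Complex.add_im, e1] at h1
  rw [Complex.add_im, e2] at h2
  have h4 : 0 < ho_s * (-(δ * ho_u (a j)).re) := by linarith
  have := pos_of_mul_pos_right h4 ho_s_pos.le
  linarith

lemma ptb (C : HoChain δ m a b O h l) (j : ℤ) {Z : ℂ} (h0 : 0 ≤ Z.im) (h1 : Z.im ≤ h)
    (hZ : Z.re = sd δ (O j) (b j) Z.im) :
    ∃ r : ℝ, |r| ≤ ho_s ∧ (Z - O j) / δ = ho_u (b j) * (ho_k + r * Complex.I) := by
  refine sd_point C.hδ (C.qb j).ne' hZ ?_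
  have h2 := C.b0 j
  have h3 := C.b1 j
  obtain ⟨e1, e2⟩ := ho_V_im δ (b j)
  rw [Complex.add_im, e2] at h2
  rw [Complex.add_im, e1] at h3
  rw [abs_of_pos (C.qb j), abs_le]
  constructor <;> linarith

lemma pta (C : HoChain δ m a b O h l) (j : ℤ) {Z : ℂ} (h0 : 0 ≤ Z.im) (h1 : Z.im ≤ h)
    (hZ : Z.re = sd δ (O j) (a j) Z.im) :
    ∃ r : ℝ, |r| ≤ ho_s ∧ (Z - O j) / δ = ho_u (a j) * (ho_k + r * Complex.I) := by
  refine sd_point C.hδ (C.qa j).ne hZ ?_
  have h2 := C.a0 j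
  have h3 := C.a1 j
  obtain ⟨e1, e2⟩ := ho_V_im δ (a j)
  rw [Complex.add_im, e1] at h2
  rw [Complex.add_im, e2] at h3
  rw [abs_of_neg (C.qa j), abs_le]
  constructor <;> linarith

/-- change of centre -/
lemma shift (C : HoChain δ m a b O h l) (j : ℤ) (Z : ℂ) :
    (Z - O j) / δ - ho_u (b j) = (Z - O (j + 1)) / δ - ho_u (a (j + 1)) := by
  have h1 := C.next j
  have hδ := C.hδ
  have h2 : O j = O (j + 1) + δ * ho_u (a (j + 1)) - δ * ho_u (b j) := by
    rw [h1]; ring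
  rw [h2]
  field_simp
  ring

lemma ord1 (C : HoChain δ m a b O h l) (j : ℤ) {Y : ℝ} (h0 : 0 ≤ Y) (h1 : Y ≤ h) :
    sd δ (O j) (a j) Y ≤ sd δ (O j) (b j) Y := by
  set Z : ℂ := ⟨sd δ (O j) (a j) Y, Y⟩ with hZ
  obtain ⟨r, hr, hp⟩ := C.pta j (Z := Z) h0 h1 rfl
  have h2 : (Z - O j) / δ ∈ ho_P := by
    rw [hp]; exact ho_side_mem _ hr
  exact le_sd C.hδ (C.qb j) (ho_P_le h2 (b j))

lemma ord2 (C : HoChain δ m a b O h l) (j : ℤ) {Y : ℝ} (h0 : 0 ≤ Y) (h1 : Y ≤ h) :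
    sd δ (O j) (b j) Y ≤ sd δ (O (j + 1)) (a (j + 1)) Y := by
  set Z : ℂ := ⟨sd δ (O j) (b j) Y, Y⟩ with hZ
  obtain ⟨r, hr, hp⟩ := C.ptb j (Z := Z) h0 h1 rfl
  have h2 : (Z - O j) / δ - ho_u (b j) ∈ ho_Q (b j) := by
    rw [hp]; exact ho_sideQ_mem _ hr
  obtain ⟨n, hn⟩ := C.cls j
  have h3 := ho_Q_ge h2 n
  rw [← hn, C.shift, sub_mul, ho_u_conj, Complex.sub_re, Complex.one_re] at h3
  exact le_sd' C.hδ (C.qa (j + 1)) (Z := Z) (by linarith)

end HoChain

private theorem HC_conv {K : Set ℂ} (hK : Convex ℝ K) (c d : ℂ) {x1 x2 x : ℝ}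
    (h1 : (x1 : ℂ) * c + d ∈ K) (h2 : (x2 : ℂ) * c + d ∈ K) (hx1 : x1 ≤ x) (hx2 : x ≤ x2) :
    (x : ℂ) * c + d ∈ K := by
  have hc : Convex ℝ {x : ℝ | (x : ℂ) * c + d ∈ K} := by
    intro s hs t ht p q hp hq hpq
    have := hK hs ht hp hq hpq
    show ((p • s + q • t : ℝ) : ℂ) * c + d ∈ K
    convert this using 1
    simp only [Complex.real_smul, smul_eq_mul]
    push_cast
    have : (p : ℂ) + q = 1 := by exact_mod_cast hpq
    linear_combination (-d) * this
  exact hc.ordConnected.out h1 h2 ⟨hx1, hx2⟩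

namespace HoChain

variable {δ : ℂ} {m : ℕ} {a b : ℤ → ℤ} {O : ℤ → ℂ} {h l : ℝ}

lemma memP (C : HoChain δ m a b O h l) (j : ℤ) {Z : ℂ} (h0 : 0 ≤ Z.im) (h1 : Z.im ≤ h)
    (h2 : sd δ (O j) (a j) Z.im ≤ Z.re) (h3 : Z.re ≤ sd δ (O j) (b j) Z.im) :
    (Z - O j) / δ ∈ ho_P := by
  have hδ := C.hδ
  have e : ∀ x : ℝ, ((⟨x, Z.im⟩ : ℂ) - O j) / δ = (x : ℂ) * (1 / δ) + (Z.im * Complex.I - O j) / δ := by
    intro x
    have : (⟨x, Z.im⟩ : ℂ) = x + Z.im * Complex.I := by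
      apply Complex.ext <;> simp
    rw [this]
    field_simp
    ring
  have k1 : ((⟨sd δ (O j) (a j) Z.im, Z.im⟩ : ℂ) - O j) / δ ∈ ho_P := by
    obtain ⟨r, hr, hp⟩ := C.pta j (Z := ⟨sd δ (O j) (a j) Z.im, Z.im⟩) h0 h1 rfl
    rw [hp]; exact ho_side_mem _ hr
  have k2 : ((⟨sd δ (O j) (b j) Z.im, Z.im⟩ : ℂ) - O j) / δ ∈ ho_P := by
    obtain ⟨r, hr, hp⟩ := C.ptb j (Z := ⟨sd δ (O j) (b j) Z.im, Z.im⟩) h0 h1 rfl
    rw [hp]; exact ho_side_mem _ hr
  rw [e] at k1 k2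
  have := HC_conv (convex_convexHull ℝ _) _ _ k1 k2 h2 h3
  rw [← e] at this
  exact this

lemma memQ (C : HoChain δ m a b O h l) (j : ℤ) {Z : ℂ} (h0 : 0 ≤ Z.im) (h1 : Z.im ≤ h)
    (h2 : sd δ (O j) (b j) Z.im ≤ Z.re) (h3 : Z.re ≤ sd δ (O (j + 1)) (a (j + 1)) Z.im) :
    (Z - O j) / δ - ho_u (b j) ∈ ho_Q (b j) := by
  have hδ := C.hδ
  have e : ∀ x : ℝ, ((⟨x, Z.im⟩ : ℂ) - O j) / δ - ho_u (b j) =
      (x : ℂ) * (1 / δ) + ((Z.im * Complex.I - O j) / δ - ho_u (b j)) := by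
    intro x
    have : (⟨x, Z.im⟩ : ℂ) = x + Z.im * Complex.I := by
      apply Complex.ext <;> simp
    rw [this]
    field_simp
    ring
  have k1 : ((⟨sd δ (O j) (b j) Z.im, Z.im⟩ : ℂ) - O j) / δ - ho_u (b j) ∈ ho_Q (b j) := by
    obtain ⟨r, hr, hp⟩ := C.ptb j (Z := ⟨sd δ (O j) (b j) Z.im, Z.im⟩) h0 h1 rfl
    rw [hp]; exact ho_sideQ_mem _ hr
  have k2 : ((⟨sd δ (O (j + 1)) (a (j + 1)) Z.im, Z.im⟩ : ℂ) - O j) / δ - ho_u (b j) ∈ ho_Q (b j) := by
    obtain ⟨r, hr, hp⟩ := C.pta (j + 1) (Z := ⟨sd δ (O (j + 1)) (a (j + 1)) Z.im, Z.im⟩) h0 h1 rfl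
    rw [C.shift, hp]
    obtain ⟨n, hn⟩ := C.cls j
    rw [← ho_Q_add (b j) n, ← hn]
    exact ho_sideQ_mem _ hr
  rw [e] at k1 k2
  have := HC_conv (convex_convexHull ℝ _) _ _ k1 k2 h2 h3
  rw [← e] at this
  exact this

end HoChain

private def HC_beta (δ : ℂ) (a b : ℤ → ℤ) (O : ℤ → ℂ) (i : ℤ) : ℝ → ℝ :=
  if Even i then sd δ (O (i / 2)) (a (i / 2)) else sd δ (O (i / 2)) (b (i / 2))

private def HC_f {v : Fin 3 → ℂ} (SP : ℂ → Surf v) (SQ : ℤ → ℂ → Surf v) (δ : ℂ) (b : ℤ → ℤ)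
    (O : ℤ → ℂ) (i : ℤ) (Z : ℂ) : Surf v :=
  if Even i then SP ((Z - O (i / 2)) / δ) else SQ (b (i / 2)) ((Z - O (i / 2)) / δ - ho_u (b (i / 2)))

private lemma HC_even (k : ℤ) : Even (2 * k) ∧ 2 * k / 2 = k := ⟨⟨k, by ring⟩, by omega⟩

private lemma HC_odd (k : ℤ) : ¬ Even (2 * k + 1) ∧ (2 * k + 1) / 2 = k := by
  refine ⟨?_, by omega⟩
  rintro ⟨r, hr⟩
  omega

private lemma HC_odd1 (k : ℤ) : Even (2 * k + 1 + 1) ∧ (2 * k + 1 + 1) / 2 = k + 1 :=
  ⟨⟨k + 1, by ring⟩, by omega⟩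

/-- the cylinder of a chain -/
theorem HoChain.cyl {v : Fin 3 → ℂ} {SP : ℂ → Surf v} {SQ : ℤ → ℂ → Surf v} (H : HoCharts v SP SQ)
    {δ : ℂ} {m : ℕ} {a b : ℤ → ℤ} {O : ℤ → ℂ} {h l : ℝ} (C : HoChain δ m a b O h l) :
    ∃ Ψ : ℂ → Surf v,
      (∀ z : ℂ, 0 ≤ z.im → z.im ≤ h → ∀ᶠ w : ℂ in 𝓝 z, 0 ≤ w.im → w.im ≤ h →
        Dsp (Ψ z) (Ψ w) (δ⁻¹ * (w - z))) ∧
      (∀ z : ℂ, 0 ≤ z.im → z.im ≤ h → Ψ (z + l) = Ψ z) ∧
      (∀ z : ℂ, 0 < z.im → z.im < h → Rg (Ψ z)) ∧
      (∃ b : ℝ, ¬ Rg (Ψ b)) ∧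
      (∃ a : ℝ, ¬ Rg (Ψ (a + h * Complex.I))) ∧
      (∀ j, ∀ p ∈ ho_P, 0 ≤ (O j + δ * p).im → (O j + δ * p).im ≤ h →
        ∃ z : ℂ, 0 ≤ z.im ∧ z.im ≤ h ∧ Ψ z = SP p) ∧
      (∀ j, ∀ p ∈ ho_Q (b j), 0 ≤ (O j + δ * ho_u (b j) + δ * p).im →
        (O j + δ * ho_u (b j) + δ * p).im ≤ h → ∃ z : ℂ, 0 ≤ z.im ∧ z.im ≤ h ∧ Ψ z = SQ (b j) p) := by
  have hδ := C.hδ
  set β := HC_beta δ a b O with hβdef
  set f := HC_f SP SQ δ b O with hfdef
  have βe : ∀ k : ℤ, β (2 * k) = sd δ (O k) (a k) := by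
    intro k
    rw [hβdef]
    unfold HC_beta
    rw [if_pos (HC_even k).1, (HC_even k).2]
  have βo : ∀ k : ℤ, β (2 * k + 1) = sd δ (O k) (b k) := by
    intro k
    rw [hβdef]
    unfold HC_beta
    rw [if_neg (HC_odd k).1, (HC_odd k).2]
  have βo1 : ∀ k : ℤ, β (2 * k + 1 + 1) = sd δ (O (k + 1)) (a (k + 1)) := by
    intro k
    rw [hβdef]
    unfold HC_beta
    rw [if_pos (HC_odd1 k).1, (HC_odd1 k).2]
  have fe : ∀ (k : ℤ) (Z : ℂ), f (2 * k) Z = SP ((Z - O k) / δ) := by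
    intro k Z
    rw [hfdef]
    unfold HC_f
    rw [if_pos (HC_even k).1, (HC_even k).2]
  have fo : ∀ (k : ℤ) (Z : ℂ), f (2 * k + 1) Z = SQ (b k) ((Z - O k) / δ - ho_u (b k)) := by
    intro k Z
    rw [hfdef]
    unfold HC_f
    rw [if_neg (HC_odd k).1, (HC_odd k).2]
  have fo1 : ∀ (k : ℤ) (Z : ℂ), f (2 * k + 1 + 1) Z = SP ((Z - O (k + 1)) / δ) := by
    intro k Z
    rw [hfdef]
    unfold HC_f
    rw [if_pos (HC_odd1 k).1, (HC_odd1 k).2]
  have hm2 : (((2 * m : ℕ)) : ℤ) = 2 * m := by push_cast; ring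
  have sdper : ∀ (O : ℂ) (s : ℤ) (Y : ℝ), sd δ (O + l) s Y = sd δ O s Y + l := by
    intro O s Y
    unfold sd
    simp
    ring
  obtain ⟨Ψ, h1, h2, h3, h4⟩ := assembleZ (e := δ⁻¹) (l := l) (h := h) (m := 2 * m) C.lpos
    (by have := C.mpos; omega) β f
    (by
      intro i
      rw [hβdef]
      unfold HC_beta
      split_ifs <;> exact sd_cont _ _ _)
    (by
      intro i Y h0 h1
      obtain ⟨k, rfl | rfl⟩ := Int.even_or_odd' i
      · rw [βe, βo]
        exact C.ord1 k h0 h1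
      · rw [βo, βo1]
        exact C.ord2 k h0 h1)
    (by
      intro i Y
      obtain ⟨k, rfl | rfl⟩ := Int.even_or_odd' i
      · have e : 2 * k + ((2 * m : ℕ) : ℤ) = 2 * (k + m) := by rw [hm2]; ring
        rw [e, βe, βe, C.pera, C.perO, sdper]
      · have e : 2 * k + 1 + ((2 * m : ℕ) : ℤ) = 2 * (k + m) + 1 := by rw [hm2]; ring
        rw [e, βo, βo, C.perb, C.perO, sdper])
    (by
      intro i Z
      obtain ⟨k, rfl | rfl⟩ := Int.even_or_odd' i
      · have e : 2 * k + ((2 * m : ℕ) : ℤ) = 2 * (k + m) := by rw [hm2]; ring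
        rw [e, fe, fe, C.perO, add_sub_add_right_eq_sub]
      · have e : 2 * k + 1 + ((2 * m : ℕ) : ℤ) = 2 * (k + m) + 1 := by rw [hm2]; ring
        rw [e, fo, fo, C.perb, C.perO, add_sub_add_right_eq_sub])
    (by
      intro i Z hZ hZ1
      obtain ⟨k, rfl | rfl⟩ := Int.even_or_odd' i
      · rw [βo] at hZ1
        obtain ⟨r, hr, hp⟩ := C.ptb k hZ.1 hZ.2 hZ1
        rw [fe, fo, hp]
        exact H.glue _ _ hr
      · rw [βo1] at hZ1
        obtain ⟨r, hr, hp⟩ := C.pta (k + 1) hZ.1 hZ.2 hZ1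
        rw [fo, fo1, C.shift, hp]
        obtain ⟨n, hn⟩ := C.cls k
        have hper : ∀ (n c : ℤ) (z : ℂ), SQ (c + 4 * n) z = SQ c z := by
          intro n
          induction n using Int.induction_on with
          | zero => intro c z; simp
          | succ n ih =>
            intro c z
            have e : c + 4 * ((n : ℤ) + 1) = (c + 4 * n) + 4 := by ring
            rw [e, H.perQ, ih]
          | pred n ih =>
            intro c z
            have e : c + 4 * (-(n : ℤ)) = (c + 4 * (-(n : ℤ) - 1)) + 4 := by ring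
            have := ih c z
            rw [e, H.perQ] at this
            exact this
        rw [← hper n (b k), ← hn]
        exact (H.glue _ _ hr).symm)
    (by
      intro i Z hZ hZ1 hZ2
      obtain ⟨k, rfl | rfl⟩ := Int.even_or_odd' i
      · rw [βe] at hZ1
        rw [βo] at hZ2
        have hmem := C.memP k hZ.1 hZ.2 hZ1 hZ2
        have hfl := H.flatP _ hmem
        rw [eventually_nhdsWithin_iff] at hfl
        have hcont : Tendsto (fun w : ℂ => (w - O k) / δ) (𝓝 Z) (𝓝 ((Z - O k) / δ)) := by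
          have : Continuous (fun w : ℂ => (w - O k) / δ) := by fun_prop
          exact this.tendsto Z
        filter_upwards [hcont.eventually hfl] with w hw hws hw1 hw2
        rw [βe] at hw1
        rw [βo] at hw2
        have h5 := hw (C.memP k hws.1 hws.2 hw1 hw2)
        rw [fe, fe]
        convert h5 using 1
        field_simp
        ring
      · rw [βo] at hZ1
        rw [βo1] at hZ2
        have hmem := C.memQ k hZ.1 hZ.2 hZ1 hZ2
        have hfl := H.flatQ _ _ hmem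
        rw [eventually_nhdsWithin_iff] at hfl
        have hcont : Tendsto (fun w : ℂ => (w - O k) / δ - ho_u (b k)) (𝓝 Z)
            (𝓝 ((Z - O k) / δ - ho_u (b k))) := by
          have : Continuous (fun w : ℂ => (w - O k) / δ - ho_u (b k)) := by fun_prop
          exact this.tendsto Z
        filter_upwards [hcont.eventually hfl] with w hw hws hw1 hw2
        rw [βo] at hw1
        rw [βo1] at hw2
        have h5 := hw (C.memQ k hws.1 hws.2 hw1 hw2)
        rw [fo, fo]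
        convert h5 using 1
        field_simp
        ring)
  refine ⟨Ψ, ?_, fun z h0 h1 => h3 z ⟨h0, h1⟩, ?_, ?_, ?_, ?_, ?_⟩
  · intro z h0 h1
    have := h2 z ⟨h0, h1⟩
    rw [eventually_nhdsWithin_iff] at this
    filter_upwards [this] with w hw hw0 hw1
    exact hw ⟨hw0, hw1⟩
  · intro z hz0 hz1
    obtain ⟨i, hi1, hi2⟩ := h4 z ⟨hz0.le, hz1.le⟩
    rw [h1 i z ⟨hz0.le, hz1.le⟩ hi1 hi2]
    obtain ⟨k, rfl | rfl⟩ := Int.even_or_odd' i
    · rw [βe] at hi1
      rw [βo] at hi2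
      rw [fe]
      refine H.rgP _ (C.memP k hz0.le hz1.le hi1 hi2) ?_
      intro s hs
      have h5 : z = O k + δ * ho_V s := by
        rw [← hs]
        field_simp
        ring
      rcases C.vtx k s with h6 | h6
      · rw [← h5] at h6; linarith
      · rw [← h5] at h6; linarith
    · rw [βo] at hi1
      rw [βo1] at hi2
      rw [fo]
      refine H.rgQ _ _ (C.memQ k hz0.le hz1.le hi1 hi2) ?_
      intro n hs
      have h5 : z = O k + δ * ho_u (b k) + δ * ho_T (b k + 4 * n) := by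
        rw [← ho_W_eq, ← hs]
        field_simp
        ring
      rcases C.vtxQ k n with h6 | h6
      · rw [← h5] at h6; linarith
      · rw [← h5] at h6; linarith
  · obtain ⟨j, hj | hj⟩ := C.bot
    · have h5 : (O j + δ * ho_V (b j - 1)).re = sd δ (O j) (b j) (O j + δ * ho_V (b j - 1)).im := by
        refine sd_eq hδ (C.qb j).ne' ?_
        have e : (O j + δ * ho_V (b j - 1) - O j) / δ * conj (ho_u (b j)) =
            (ho_k - ho_s * Complex.I) * (ho_u (b j) * conj (ho_u (b j))) := by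
          rw [ho_V_sub_one]
          field_simp
          ring
        rw [e, ho_u_conj]
        simp
      refine ⟨(O j + δ * ho_V (b j - 1)).re, ?_⟩
      have h6 : (((O j + δ * ho_V (b j - 1)).re : ℝ) : ℂ) = O j + δ * ho_V (b j - 1) := by
        apply Complex.ext
        · simp
        · rw [hj]; simp
      have hst : O j + δ * ho_V (b j - 1) ∈ strip h := by
        refine ⟨hj.ge, ?_⟩
        rw [hj]
        exact C.hpos.le
      rw [h6, h1 (2 * j) _ hst (by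
        rw [βe, h5]; exact C.ord1 j hst.1 hst.2) (by rw [βo, h5]), fe]
      have h7 : (O j + δ * ho_V (b j - 1) - O j) / δ = ho_V (b j - 1) := by
        field_simp
        ring
      rw [h7]
      exact H.sing _
    · have h5 : (O j + δ * ho_V (a j)).re = sd δ (O j) (a j) (O j + δ * ho_V (a j)).im := by
        refine sd_eq hδ (C.qa j).ne ?_
        have e : (O j + δ * ho_V (a j) - O j) / δ * conj (ho_u (a j)) =
            (ho_k + ho_s * Complex.I) * (ho_u (a j) * conj (ho_u (a j))) := by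
          unfold ho_V
          field_simp
          ring
        rw [e, ho_u_conj]
        simp
      refine ⟨(O j + δ * ho_V (a j)).re, ?_⟩
      have h6 : (((O j + δ * ho_V (a j)).re : ℝ) : ℂ) = O j + δ * ho_V (a j) := by
        apply Complex.ext
        · simp
        · rw [hj]; simp
      have hst : O j + δ * ho_V (a j) ∈ strip h := by
        refine ⟨hj.ge, ?_⟩
        rw [hj]
        exact C.hpos.le
      rw [h6, h1 (2 * j) _ hst (by rw [βe, h5]) (by
        rw [βo, h5]; exact C.ord1 j hst.1 hst.2), fe]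
      have h7 : (O j + δ * ho_V (a j) - O j) / δ = ho_V (a j) := by
        field_simp
        ring
      rw [h7]
      exact H.sing _
  · obtain ⟨j, hj | hj⟩ := C.top
    · have h5 : (O j + δ * ho_V (b j)).re = sd δ (O j) (b j) (O j + δ * ho_V (b j)).im := by
        refine sd_eq hδ (C.qb j).ne' ?_
        have e : (O j + δ * ho_V (b j) - O j) / δ * conj (ho_u (b j)) =
            (ho_k + ho_s * Complex.I) * (ho_u (b j) * conj (ho_u (b j))) := by
          unfold ho_V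
          field_simp
          ring
        rw [e, ho_u_conj]
        simp
      refine ⟨(O j + δ * ho_V (b j)).re, ?_⟩
      have h6 : (((O j + δ * ho_V (b j)).re : ℝ) : ℂ) + h * Complex.I = O j + δ * ho_V (b j) := by
        apply Complex.ext
        · simp
        · rw [hj]; simp
      have hst : O j + δ * ho_V (b j) ∈ strip h := by
        refine ⟨?_, hj.le⟩
        rw [hj]
        exact C.hpos.le
      rw [h6, h1 (2 * j) _ hst (by
        rw [βe, h5]; exact C.ord1 j hst.1 hst.2) (by rw [βo, h5]), fe]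
      have h7 : (O j + δ * ho_V (b j) - O j) / δ = ho_V (b j) := by
        field_simp
        ring
      rw [h7]
      exact H.sing _
    · have h5 : (O j + δ * ho_V (a j - 1)).re = sd δ (O j) (a j) (O j + δ * ho_V (a j - 1)).im := by
        refine sd_eq hδ (C.qa j).ne ?_
        have e : (O j + δ * ho_V (a j - 1) - O j) / δ * conj (ho_u (a j)) =
            (ho_k - ho_s * Complex.I) * (ho_u (a j) * conj (ho_u (a j))) := by
          rw [ho_V_sub_one]
          field_simp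
          ring
        rw [e, ho_u_conj]
        simp
      refine ⟨(O j + δ * ho_V (a j - 1)).re, ?_⟩
      have h6 : (((O j + δ * ho_V (a j - 1)).re : ℝ) : ℂ) + h * Complex.I =
          O j + δ * ho_V (a j - 1) := by
        apply Complex.ext
        · simp
        · rw [hj]; simp
      have hst : O j + δ * ho_V (a j - 1) ∈ strip h := by
        refine ⟨?_, hj.le⟩
        rw [hj]
        exact C.hpos.le
      rw [h6, h1 (2 * j) _ hst (by rw [βe, h5]) (by
        rw [βo, h5]; exact C.ord1 j hst.1 hst.2), fe]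
      have h7 : (O j + δ * ho_V (a j - 1) - O j) / δ = ho_V (a j - 1) := by
        field_simp
        ring
      rw [h7]
      exact H.sing _
  · intro j p hp h0 hh
    refine ⟨O j + δ * p, h0, hh, ?_⟩
    have h7 : (O j + δ * p - O j) / δ = p := by
      field_simp
      ring
    rw [h1 (2 * j) _ ⟨h0, hh⟩ (by
      rw [βe]
      refine sd_le' hδ (C.qa j) ?_
      rw [h7]
      exact ho_P_le hp _) (by
      rw [βo]
      refine le_sd hδ (C.qb j) ?_
      rw [h7]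
      exact ho_P_le hp _), fe, h7]
  · intro j p hp h0 hh
    refine ⟨O j + δ * ho_u (b j) + δ * p, h0, hh, ?_⟩
    have h7 : (O j + δ * ho_u (b j) + δ * p - O j) / δ = ho_u (b j) + p := by
      field_simp
      ring
    have h8 : (O j + δ * ho_u (b j) + δ * p - O (j + 1)) / δ = ho_u (a (j + 1)) + p := by
      have := C.shift j (O j + δ * ho_u (b j) + δ * p)
      rw [h7] at this
      linear_combination -this
    obtain ⟨n, hn⟩ := C.cls j
    rw [h1 (2 * j + 1) _ ⟨h0, hh⟩ (by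
      rw [βo]
      refine sd_le hδ (C.qb j) ?_
      rw [h7, add_mul, ho_u_conj, Complex.add_re, Complex.one_re]
      have := ho_Q_ge hp 0
      rw [mul_zero, add_zero] at this
      linarith) (by
      rw [βo1]
      refine le_sd' hδ (C.qa (j + 1)) ?_
      rw [h8, add_mul, ho_u_conj, Complex.add_re, Complex.one_re]
      have := ho_Q_ge hp n
      rw [← hn] at this
      linarith), fo, h7, add_sub_cancel_left]

end

end Pool.Agent.OBT
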