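import Mathlib
import Pool.Agent.OBT.HoCyl

/-!
# A checker for chains, with coordinates in `ℤ[√3] / 2`
-/

open scoped ComplexConjugate Topology Real
open MeasureTheory Filter

namespace Pool.Agent.OBT

/-- the number `(x.1 + x.2 √3) / 2` -/
noncomputable def qv (x : ℤ × ℤ) : ℝ := (x.1 + x.2 * Real.sqrt 3) / 2

/-- complex numbers with coordinates in `ℤ[√3] / 2` -/
noncomputable def cv (z : (ℤ × ℤ) × (ℤ × ℤ)) : ℂ := ⟨qv z.1, qv z.2⟩

/-- the number `x.1 + x.2 √3` -/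
noncomputable def dq (x : ℤ × ℤ) : ℝ := x.1 + x.2 * Real.sqrt 3

/-- complex numbers with coordinates in `ℤ[√3]` -/
noncomputable def dv (z : (ℤ × ℤ) × (ℤ × ℤ)) : ℂ := ⟨dq z.1, dq z.2⟩

/-- addition -/
def ad (x y : ℤ × ℤ) : ℤ × ℤ := (x.1 + y.1, x.2 + y.2)

/-- subtraction -/
def sb (x y : ℤ × ℤ) : ℤ × ℤ := (x.1 - y.1, x.2 - y.2)

/-- multiplication -/
def ml (d x : ℤ × ℤ) : ℤ × ℤ := (d.1 * x.1 + 3 * (d.2 * x.2), d.1 * x.2 + d.2 * x.1)

/-- addition of complex numbers -/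
def cad (z w : (ℤ × ℤ) × (ℤ × ℤ)) : (ℤ × ℤ) × (ℤ × ℤ) := (ad z.1 w.1, ad z.2 w.2)

/-- multiplication of complex numbers -/
def cml (z w : (ℤ × ℤ) × (ℤ × ℤ)) : (ℤ × ℤ) × (ℤ × ℤ) :=
  (sb (ml z.1 w.1) (ml z.2 w.2), ad (ml z.1 w.2) (ml z.2 w.1))

/-- sufficient test for `0 ≤ qv x` -/
def nn (x : ℤ × ℤ) : Bool :=
  (decide (0 ≤ x.1) && decide (0 ≤ x.2)) ||
  ((decide (0 ≤ x.1) && decide (3 * (x.2 * x.2) ≤ x.1 * x.1)) ||
  (decide (0 ≤ x.2) && decide (x.1 * x.1 ≤ 3 * (x.2 * x.2))))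

/-- sufficient test for `0 < qv x` -/
def pp (x : ℤ × ℤ) : Bool :=
  (decide (0 < x.1) && decide (0 ≤ x.2)) ||
  ((decide (0 < x.1) && decide (3 * (x.2 * x.2) < x.1 * x.1)) ||
  (decide (0 < x.2) && decide (x.1 * x.1 < 3 * (x.2 * x.2))))

lemma qv_ad (x y : ℤ × ℤ) : qv (ad x y) = qv x + qv y := by
  unfold qv ad
  push_cast
  ring

lemma qv_sb (x y : ℤ × ℤ) : qv (sb x y) = qv x - qv y := by
  unfold qv sb
  push_cast
  ring

lemma qv_ml (x y : ℤ × ℤ) : qv (ml x y) = dq x * qv y := by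
  unfold qv ml dq
  push_cast
  linear_combination (-((x.2 : ℝ) * y.2) / 2) * ho_r3

lemma cv_cad (z w : (ℤ × ℤ) × (ℤ × ℤ)) : cv (cad z w) = cv z + cv w := by
  unfold cv cad
  apply Complex.ext
  · simp [qv_ad]
  · simp [qv_ad]

lemma cv_cml (z w : (ℤ × ℤ) × (ℤ × ℤ)) : cv (cml z w) = dv z * cv w := by
  unfold cv cml dv
  apply Complex.ext
  · simp [qv_sb, qv_ml, Complex.mul_re]
  · simp [qv_ad, qv_ml, Complex.mul_im]

lemma nn_sound {x : ℤ × ℤ} (h : nn x = true) : 0 ≤ qv x := by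
  have h3 := ho_r3
  have h0 : 0 ≤ Real.sqrt 3 := Real.sqrt_nonneg 3
  unfold nn at h
  simp only [Bool.or_eq_true, Bool.and_eq_true, decide_eq_true_eq] at h
  unfold qv
  rcases h with ⟨h1, h2⟩ | ⟨h1, h2⟩ | ⟨h1, h2⟩
  · have h1' : (0 : ℝ) ≤ x.1 := by exact_mod_cast h1
    have h2' : (0 : ℝ) ≤ x.2 := by exact_mod_cast h2
    positivity
  · have h1' : (0 : ℝ) ≤ x.1 := by exact_mod_cast h1
    have h2' : (3 : ℝ) * (x.2 * x.2) ≤ x.1 * x.1 := by exact_mod_cast h2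
    have h4 : (x.2 * Real.sqrt 3) ^ 2 ≤ (x.1 : ℝ) ^ 2 := by nlinarith
    have h5 := abs_le.1 (abs_le_of_sq_le_sq h4 h1')
    linarith [h5.1]
  · have h1' : (0 : ℝ) ≤ x.2 := by exact_mod_cast h1
    have h2' : (x.1 : ℝ) * x.1 ≤ 3 * (x.2 * x.2) := by exact_mod_cast h2
    have h4 : (x.1 : ℝ) ^ 2 ≤ (x.2 * Real.sqrt 3) ^ 2 := by nlinarith
    have h5 := abs_le.1 (abs_le_of_sq_le_sq h4 (mul_nonneg h1' h0))
    linarith [h5.1]

lemma pp_sound {x : ℤ × ℤ} (h : pp x = true) : 0 < qv x := by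
  have h3 := ho_r3
  have h0 : 0 < Real.sqrt 3 := Real.sqrt_pos.2 (by norm_num)
  unfold pp at h
  simp only [Bool.or_eq_true, Bool.and_eq_true, decide_eq_true_eq] at h
  unfold qv
  rcases h with ⟨h1, h2⟩ | ⟨h1, h2⟩ | ⟨h1, h2⟩
  · have h1' : (0 : ℝ) < x.1 := by exact_mod_cast h1
    have h2' : (0 : ℝ) ≤ x.2 := by exact_mod_cast h2
    positivity
  · have h1' : (0 : ℝ) < x.1 := by exact_mod_cast h1
    have h2' : (3 : ℝ) * (x.2 * x.2) < x.1 * x.1 := by exact_mod_cast h2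
    have h4 : (x.2 * Real.sqrt 3) ^ 2 < (x.1 : ℝ) ^ 2 := by nlinarith
    have h5 := abs_lt.1 (abs_lt_of_sq_lt_sq h4 h1'.le)
    linarith [h5.1]
  · have h1' : (0 : ℝ) < x.2 := by exact_mod_cast h1
    have h2' : (x.1 : ℝ) * x.1 < 3 * (x.2 * x.2) := by exact_mod_cast h2
    have h4 : (x.1 : ℝ) ^ 2 < (x.2 * Real.sqrt 3) ^ 2 := by nlinarith
    have h5 := abs_lt.1 (abs_lt_of_sq_lt_sq h4 (mul_nonneg h1'.le h0.le))
    linarith [h5.1]

/-- the spokes -/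
def tu (n : ℕ) : (ℤ × ℤ) × (ℤ × ℤ) :=
  [((2, 0), (0, 0)), ((0, 1), (1, 0)), ((1, 0), (0, 1)), ((0, 0), (2, 0)), ((-1, 0), (0, 1)),
    ((0, -1), (1, 0)), ((-2, 0), (0, 0)), ((0, -1), (-1, 0)), ((-1, 0), (0, -1)), ((0, 0), (-2, 0)),
    ((1, 0), (0, -1)), ((0, 1), (-1, 0))].getD n ((0, 0), (0, 0))

/-- the vertices of the 12-gon -/
def tV (n : ℕ) : (ℤ × ℤ) × (ℤ × ℤ) :=
  [((0, 1), (-3, 2)), ((3, -1), (3, -1)), ((-3, 2), (0, 1)), ((3, -2), (0, 1)), ((-3, 1), (3, -1)),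
    ((0, -1), (-3, 2)), ((0, -1), (3, -2)), ((-3, 1), (-3, 1)), ((3, -2), (0, -1)), ((-3, 2), (0, -1)),
    ((3, -1), (-3, 1)), ((0, 1), (3, -2))].getD n ((0, 0), (0, 0))

lemma cv_tu {n : ℕ} (hn : n < 12) : cv (tu n) = ho_u n := by
  have e0 := ho_u_zero
  have e1 := ho_u_one
  have e2 := ho_u_two
  have e4 := ho_u_add_three 0
  have e5 := ho_u_add_three 1
  have e6 := ho_u_add_three 2
  have e7 := ho_u_add_three 3
  have e8 := ho_u_add_three 4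
  have e9 := ho_u_add_three 5
  have e10 := ho_u_add_three 6
  have e11 := ho_u_add_three 7
  have e12 := ho_u_add_three 8
  norm_num at e4 e5 e6 e7 e8 e9 e10 e11 e12
  unfold cv tu qv
  interval_cases n
  · norm_num; rw [e0]; apply Complex.ext <;> simp
  · norm_num; rw [e1]
  · norm_num; rw [e2]
  · norm_num; rw [e4, e0]; apply Complex.ext <;> simp
  · norm_num; rw [e5, e1]
  · norm_num; rw [e6, e2]; apply Complex.ext <;> simp; ring
  · norm_num; rw [e7, e4, e0]; apply Complex.ext <;> simp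
  · norm_num; rw [e8, e5, e1]; apply Complex.ext <;> norm_num; ring
  · norm_num; rw [e9, e6, e2]; apply Complex.ext <;> norm_num; ring
  · norm_num; rw [e10, e7, e4, e0]; apply Complex.ext <;> simp
  · norm_num; rw [e11, e8, e5, e1]; apply Complex.ext <;> norm_num; ring
  · norm_num; rw [e12, e9, e6, e2]; apply Complex.ext <;> norm_num

lemma cv_tV {n : ℕ} (hn : n < 12) : cv (tV n) = ho_V n := by
  have h3 := ho_r3
  have h := cv_tu hn
  unfold ho_V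
  rw [← h]
  unfold cv tV tu qv ho_k ho_s
  interval_cases n <;> apply Complex.ext <;> norm_num [Complex.mul_re, Complex.mul_im] <;>
    nlinarith

end Pool.Agent.OBT
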