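import Mathlib
import Pool.Agent.OBT.HoChk

/-!
# Soundness of the checker for one chain
-/

open scoped ComplexConjugate Topology Real
open MeasureTheory Filter

namespace Pool.Agent.OBT

/-- data of a cylinder: height, period, number of twists, crossings `(a, b, O)` -/
structure CylD where
  /-- height -/
  h : ℤ × ℤ
  /-- period -/
  l : ℤ × ℤ
  /-- number of twists -/
  n : ℤ
  /-- crossings -/
  L : List (ℕ × ℕ × ((ℤ × ℤ) × (ℤ × ℤ)))

/-- crossing number `k` -/
def CylD.at (c : CylD) (k : ℕ) : ℕ × ℕ × ((ℤ × ℤ) × (ℤ × ℤ)) := c.L.getD k (0, 0, ((0, 0), (0, 0)))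

/-- the next crossing -/
def CylD.nx (c : CylD) (k : ℕ) : ℕ × ℕ × ((ℤ × ℤ) × (ℤ × ℤ)) :=
  if k + 1 < c.L.length then c.at (k + 1)
  else ((c.at 0).1, (c.at 0).2.1, (ad (c.at 0).2.2.1 c.l, (c.at 0).2.2.2))

/-- the vertices of the triangles -/
def tT (s : ℕ) : (ℤ × ℤ) × (ℤ × ℤ) := (sb (tV s).1 (tu s).1, sb (tV s).2 (tu s).2)

/-- height of a vertex of the 12-gon with centre `O` -/
def hV (δ O : (ℤ × ℤ) × (ℤ × ℤ)) (s : ℕ) : ℤ × ℤ := ad O.2 (cml δ (tV s)).2

/-- height of a vertex of a triangle -/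
def hT (δ O : (ℤ × ℤ) × (ℤ × ℤ)) (b s : ℕ) : ℤ × ℤ :=
  ad (ad O.2 (cml δ (tu b)).2) (cml δ (tT s)).2

/-- negation -/
def ng (x : ℤ × ℤ) : ℤ × ℤ := (-x.1, -x.2)

/-- check of one crossing -/
def chkAt (δ : (ℤ × ℤ) × (ℤ × ℤ)) (c : CylD) (k : ℕ) : Bool :=
  decide ((c.at k).1 < 12) && (decide ((c.at k).2.1 < 12) && (decide ((c.nx k).1 < 12) &&
  (decide ((c.nx k).1 % 4 = (c.at k).2.1 % 4) &&
  (decide (cad (c.nx k).2.2 (cml δ (tu (c.nx k).1)) = cad (c.at k).2.2 (cml δ (tu (c.at k).2.1))) &&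
  (nn (ng (hV δ (c.at k).2.2 (((c.at k).2.1 + 11) % 12))) &&
  (nn (sb (hV δ (c.at k).2.2 (c.at k).2.1) c.h) &&
  (nn (ng (hV δ (c.at k).2.2 (c.at k).1)) &&
  (nn (sb (hV δ (c.at k).2.2 (((c.at k).1 + 11) % 12)) c.h) &&
  ((List.range 12).all (fun s => nn (ng (hV δ (c.at k).2.2 s)) || nn (sb (hV δ (c.at k).2.2 s) c.h)) &&
  (List.range 3).all (fun n => nn (ng (hT δ (c.at k).2.2 (c.at k).2.1 (((c.at k).2.1 + 4 * n) % 12))) ||
    nn (sb (hT δ (c.at k).2.2 (c.at k).2.1 (((c.at k).2.1 + 4 * n) % 12)) c.h)))))))))))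

/-- check of one cylinder -/
def chkC (δ : (ℤ × ℤ) × (ℤ × ℤ)) (c : CylD) : Bool :=
  pp c.h && (pp c.l && (decide (0 < c.L.length) && ((List.range c.L.length).all (chkAt δ c) &&
  ((List.range c.L.length).any (fun k =>
    decide (hV δ (c.at k).2.2 (((c.at k).2.1 + 11) % 12) = (0, 0)) ||
    decide (hV δ (c.at k).2.2 (c.at k).1 = (0, 0))) &&
  (List.range c.L.length).any (fun k =>
    decide (hV δ (c.at k).2.2 (c.at k).2.1 = c.h) ||
    decide (hV δ (c.at k).2.2 (((c.at k).1 + 11) % 12) = c.h))))))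

lemma qv_ng (x : ℤ × ℤ) : qv (ng x) = -qv x := by
  unfold qv ng
  push_cast
  ring

lemma cv_tT {n : ℕ} (hn : n < 12) : cv (tT n) = ho_T n := by
  unfold ho_T
  rw [← cv_tu hn, ← cv_tV hn]
  unfold cv tT
  apply Complex.ext
  · simp [qv_sb]
  · simp [qv_sb]

lemma hV_sound (δ O : (ℤ × ℤ) × (ℤ × ℤ)) {s : ℕ} (hs : s < 12) :
    qv (hV δ O s) = (cv O + dv δ * ho_V s).im := by
  unfold hV
  rw [qv_ad, ← cv_tV hs, ← cv_cml]
  rfl

lemma hT_sound (δ O : (ℤ × ℤ) × (ℤ × ℤ)) {b s : ℕ} (hb : b < 12) (hs : s < 12) :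
    qv (hT δ O b s) = (cv O + dv δ * ho_u b + dv δ * ho_T s).im := by
  unfold hT
  rw [qv_ad, qv_ad, ← cv_tT hs, ← cv_tu hb, ← cv_cml, ← cv_cml]
  rfl

lemma ho_V_nat (n : ℤ) (k : ℕ) (h : (k : ℤ) = n % 12) : ho_V n = ho_V k := by
  rw [h, ho_V_emod]

lemma ho_T_nat (n : ℤ) (k : ℕ) (h : (k : ℤ) = n % 12) : ho_T n = ho_T k := by
  rw [h, ho_T_emod]

theorem chkC_sound {δ : (ℤ × ℤ) × (ℤ × ℤ)} {c : CylD} (hδ : dv δ ≠ 0) (h : chkC δ c = true) :
    HoChain (dv δ) c.L.length (fun j => ((c.at (j % c.L.length).toNat).1 : ℤ))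
      (fun j => ((c.at (j % c.L.length).toNat).2.1 : ℤ))
      (fun j => cv (c.at (j % c.L.length).toNat).2.2 + ((j / c.L.length : ℤ) : ℂ) * qv c.l)
      (qv c.h) (qv c.l) := by
  unfold chkC at h
  simp only [Bool.and_eq_true, decide_eq_true_eq, List.all_eq_true, List.any_eq_true, List.mem_range,
    Bool.or_eq_true] at h
  obtain ⟨c1, c2, c3, c4, c5, c6⟩ := h
  set m := c.L.length with hm
  have hm0 : (0 : ℤ) < m := by exact_mod_cast c3
  have hk : ∀ j : ℤ, (j % m).toNat < m ∧ (((j % m).toNat : ℕ) : ℤ) = j % m := by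
    intro j
    have r0 := Int.emod_nonneg j hm0.ne'
    have r1 := Int.emod_lt_of_pos j hm0
    exact ⟨by omega, Int.toNat_of_nonneg r0⟩
  have hs : ∀ (z : ℂ) (n : ℤ) (w : ℂ), (z + n * (qv c.l : ℂ) + w).im = (z + w).im := by
    intro z n w
    simp
  have hs2 : ∀ (z : ℂ) (n : ℤ) (w w' : ℂ), (z + n * (qv c.l : ℂ) + w + w').im = (z + w + w').im := by
    intro z n w w'
    simp
  have facts : ∀ k < m, chkAt δ c k = true := c4
  -- the next crossing
  have hnx : ∀ j : ℤ, (c.at ((j + 1) % m).toNat).1 = (c.nx (j % m).toNat).1 ∧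
      cv (c.at ((j + 1) % m).toNat).2.2 + (((j + 1) / m : ℤ) : ℂ) * qv c.l =
        cv (c.nx (j % m).toNat).2.2 + ((j / m : ℤ) : ℂ) * qv c.l := by
    intro j
    obtain ⟨h1, h2⟩ := hk j
    have h3 := Int.emod_add_mul_ediv j m
    by_cases hlt : (j % m).toNat + 1 < m
    · have h4 : (j + 1) / m = j / m ∧ (j + 1) % m = j % m + 1 := by
        rw [Int.ediv_emod_unique hm0]
        refine ⟨by linarith, by omega, by omega⟩
      have h5 : ((j + 1) % m).toNat = (j % m).toNat + 1 := by omega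
      rw [h4.1, h5]
      unfold CylD.nx
      rw [if_pos hlt]
      exact ⟨rfl, rfl⟩
    · have h4 : (j + 1) / m = j / m + 1 ∧ (j + 1) % m = 0 := by
        rw [Int.ediv_emod_unique hm0]
        have : j % m = m - 1 := by omega
        refine ⟨by rw [this] at h3; linarith, le_refl _, hm0⟩
      have h5 : ((j + 1) % m).toNat = 0 := by omega
      rw [h4.1, h5]
      unfold CylD.nx
      rw [if_neg hlt]
      refine ⟨rfl, ?_⟩
      push_cast
      have : cv (ad (c.at 0).2.2.1 c.l, (c.at 0).2.2.2) = cv (c.at 0).2.2 + qv c.l := by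
        unfold cv
        apply Complex.ext
        · simp [qv_ad]
        · simp
      rw [this]
      ring
  refine ⟨hδ, c3, pp_sound c1, pp_sound c2, ?_, ?_, ?_, ?_, ?_, ?_, ?_, ?_, ?_, ?_, ?_, ?_, ?_⟩
  · intro j
    simp only [Int.add_emod_right]
  · intro j
    simp only [Int.add_emod_right]
  · intro j
    simp only [Int.add_emod_right]
    rw [Int.add_ediv_of_dvd_right (dvd_refl _), Int.ediv_self hm0.ne']
    push_cast
    ring
  · intro j
    have hf := facts _ (hk j).1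
    unfold chkAt at hf
    simp only [Bool.and_eq_true, decide_eq_true_eq] at hf
    obtain ⟨f1, f2, f3, f4, f5, -⟩ := hf
    have hn := hnx j
    rw [hn.1, hn.2, ← cv_tu f3, ← cv_tu f2, ← cv_cml, ← cv_cml]
    have := congrArg cv f5
    rw [cv_cad, cv_cad] at this
    linear_combination this
  · intro j
    have hf := facts _ (hk j).1
    unfold chkAt at hf
    simp only [Bool.and_eq_true, decide_eq_true_eq] at hf
    obtain ⟨f1, f2, f3, f4, f5, -⟩ := hf
    have hn := hnx j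
    rw [hn.1]
    refine ⟨((c.nx (j % m).toNat).1 : ℤ) / 4 - ((c.at (j % m).toNat).2.1 : ℤ) / 4, ?_⟩
    omega
  · intro j
    have hf := facts _ (hk j).1
    unfold chkAt at hf
    simp only [Bool.and_eq_true, decide_eq_true_eq] at hf
    obtain ⟨f1, f2, f3, f4, f5, f6, f7, f8, f9, f10, f11⟩ := hf
    rw [hs, ho_V_nat _ (((c.at (j % m).toNat).2.1 + 11) % 12) (by push_cast; omega),
      ← hV_sound _ _ (Nat.mod_lt _ (by norm_num))]
    have := nn_sound f6
    rw [qv_ng] at this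
    linarith
  · intro j
    have hf := facts _ (hk j).1
    unfold chkAt at hf
    simp only [Bool.and_eq_true, decide_eq_true_eq] at hf
    obtain ⟨f1, f2, f3, f4, f5, f6, f7, f8, f9, f10, f11⟩ := hf
    rw [hs, ← hV_sound _ _ f2]
    have := nn_sound f7
    rw [qv_sb] at this
    linarith
  · intro j
    have hf := facts _ (hk j).1
    unfold chkAt at hf
    simp only [Bool.and_eq_true, decide_eq_true_eq] at hf
    obtain ⟨f1, f2, f3, f4, f5, f6, f7, f8, f9, f10, f11⟩ := hf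
    rw [hs, ← hV_sound _ _ f1]
    have := nn_sound f8
    rw [qv_ng] at this
    linarith
  · intro j
    have hf := facts _ (hk j).1
    unfold chkAt at hf
    simp only [Bool.and_eq_true, decide_eq_true_eq] at hf
    obtain ⟨f1, f2, f3, f4, f5, f6, f7, f8, f9, f10, f11⟩ := hf
    rw [hs, ho_V_nat _ (((c.at (j % m).toNat).1 + 11) % 12) (by push_cast; omega),
      ← hV_sound _ _ (Nat.mod_lt _ (by norm_num))]
    have := nn_sound f9
    rw [qv_sb] at this
    linarith
  · intro j s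
    have hf := facts _ (hk j).1
    unfold chkAt at hf
    simp only [Bool.and_eq_true, decide_eq_true_eq, List.all_eq_true, List.mem_range,
      Bool.or_eq_true] at hf
    obtain ⟨f1, f2, f3, f4, f5, f6, f7, f8, f9, f10, f11⟩ := hf
    have s0 := Int.emod_nonneg s (by norm_num : (12 : ℤ) ≠ 0)
    have s1 := Int.emod_lt_of_pos s (by norm_num : (0 : ℤ) < 12)
    have s2 : (s % 12).toNat < 12 := by omega
    rw [hs, ho_V_nat s (s % 12).toNat (Int.toNat_of_nonneg s0), ← hV_sound _ _ s2]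
    rcases f10 _ s2 with h6 | h6
    · left
      have := nn_sound h6
      rw [qv_ng] at this
      linarith
    · right
      have := nn_sound h6
      rw [qv_sb] at this
      linarith
  · intro j n
    have hf := facts _ (hk j).1
    unfold chkAt at hf
    simp only [Bool.and_eq_true, decide_eq_true_eq, List.all_eq_true, List.mem_range,
      Bool.or_eq_true] at hf
    obtain ⟨f1, f2, f3, f4, f5, f6, f7, f8, f9, f10, f11⟩ := hf
    have s0 := Int.emod_nonneg n (by norm_num : (3 : ℤ) ≠ 0)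
    have s1 := Int.emod_lt_of_pos n (by norm_num : (0 : ℤ) < 3)
    have s2 : (n % 3).toNat < 3 := by omega
    rw [hs2, ho_T_nat _ (((c.at (j % m).toNat).2.1 + 4 * (n % 3).toNat) % 12) (by push_cast; omega),
      ← hT_sound _ _ f2 (Nat.mod_lt _ (by norm_num))]
    rcases f11 _ s2 with h6 | h6
    · left
      have := nn_sound h6
      rw [qv_ng] at this
      linarith
    · right
      have := nn_sound h6
      rw [qv_sb] at this
      linarith
  · obtain ⟨k, hk1, hk2⟩ := c5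
    have hf := facts k hk1
    unfold chkAt at hf
    simp only [Bool.and_eq_true, decide_eq_true_eq] at hf
    obtain ⟨f1, f2, f3, f4, f5, -⟩ := hf
    have e : ((k : ℤ) % m).toNat = k := by
      rw [Int.emod_eq_of_lt (by omega) (by exact_mod_cast hk1)]
      simp
    refine ⟨k, ?_⟩
    rw [e, hs, hs]
    have q0 : qv (0, 0) = 0 := by unfold qv; simp
    rcases hk2 with h6 | h6
    · left
      rw [ho_V_nat _ (((c.at k).2.1 + 11) % 12) (by push_cast; omega),
        ← hV_sound _ _ (Nat.mod_lt _ (by norm_num)), h6, q0]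
    · right
      rw [← hV_sound _ _ f1, h6, q0]
  · obtain ⟨k, hk1, hk2⟩ := c6
    have hf := facts k hk1
    unfold chkAt at hf
    simp only [Bool.and_eq_true, decide_eq_true_eq] at hf
    obtain ⟨f1, f2, f3, f4, f5, -⟩ := hf
    have e : ((k : ℤ) % m).toNat = k := by
      rw [Int.emod_eq_of_lt (by omega) (by exact_mod_cast hk1)]
      simp
    refine ⟨k, ?_⟩
    rw [e, hs, hs]
    rcases hk2 with h6 | h6
    · left
      rw [← hV_sound _ _ f2, h6]
    · right
      rw [ho_V_nat _ (((c.at k).1 + 11) % 12) (by push_cast; omega),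
        ← hV_sound _ _ (Nat.mod_lt _ (by norm_num)), h6]

end Pool.Agent.OBT
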