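import Mathlib
import Pool.Agent.OBT.HoChk2
import Pool.Agent.OBT.ConvM

/-!
# Decompositions of Hooper's surface into cylinders
-/

open scoped ComplexConjugate Topology Real
open MeasureTheory Filter

namespace Pool.Agent.OBT

/-- default cylinder -/
def dfl : CylD := ⟨(0, 0), (0, 0), 0, []⟩

/-- heights of the 12-gon covered by a crossing -/
def ivP (D : List CylD) (x : ℕ × ℕ) : (ℤ × ℤ) × (ℤ × ℤ) :=
  (ng ((D.getD x.1 dfl).at x.2).2.2.2, sb (D.getD x.1 dfl).h ((D.getD x.1 dfl).at x.2).2.2.2)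

/-- heights of the triangle covered by a crossing -/
def ivQ (δ : (ℤ × ℤ) × (ℤ × ℤ)) (D : List CylD) (x : ℕ × ℕ) : (ℤ × ℤ) × (ℤ × ℤ) :=
  (ng (ad ((D.getD x.1 dfl).at x.2).2.2.2 (cml δ (tu ((D.getD x.1 dfl).at x.2).2.1)).2),
    sb (D.getD x.1 dfl).h
      (ad ((D.getD x.1 dfl).at x.2).2.2.2 (cml δ (tu ((D.getD x.1 dfl).at x.2).2.1)).2))

/-- the intervals of the list cover `(lo, hi]` -/
def cov (lo hi : ℤ × ℤ) : List ((ℤ × ℤ) × (ℤ × ℤ)) → Bool
  | [] => nn (sb lo hi)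
  | I :: L => nn (sb lo I.1) && cov I.2 hi L

/-- the intervals of the list cover `[lo, hi]` -/
def cov' (lo hi : ℤ × ℤ) : List ((ℤ × ℤ) × (ℤ × ℤ)) → Bool
  | [] => false
  | I :: L => nn (sb lo I.1) && cov I.2 hi L

lemma cov_sound {hi : ℤ × ℤ} {L : List ((ℤ × ℤ) × (ℤ × ℤ))} : ∀ {lo : ℤ × ℤ}, cov lo hi L = true →
    ∀ {y : ℝ}, qv lo < y → y ≤ qv hi → ∃ I ∈ L, qv I.1 ≤ y ∧ y ≤ qv I.2 := by
  induction L with
  | nil =>
    intro lo h y h1 h2
    unfold cov at h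
    have := nn_sound h
    rw [qv_sb] at this
    linarith
  | cons I L ih =>
    intro lo h y h1 h2
    unfold cov at h
    rw [Bool.and_eq_true] at h
    have h3 := nn_sound h.1
    rw [qv_sb] at h3
    by_cases hy : y ≤ qv I.2
    · exact ⟨I, List.mem_cons_self, by linarith, hy⟩
    · obtain ⟨J, hJ, hJ2⟩ := ih h.2 (not_le.1 hy) h2
      exact ⟨J, List.mem_cons_of_mem _ hJ, hJ2⟩

lemma cov'_sound {lo hi : ℤ × ℤ} {L : List ((ℤ × ℤ) × (ℤ × ℤ))} (h : cov' lo hi L = true)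
    {y : ℝ} (h1 : qv lo ≤ y) (h2 : y ≤ qv hi) : ∃ I ∈ L, qv I.1 ≤ y ∧ y ≤ qv I.2 := by
  cases L with
  | nil => exact absurd h (by unfold cov'; simp)
  | cons I L =>
    unfold cov' at h
    rw [Bool.and_eq_true] at h
    have h3 := nn_sound h.1
    rw [qv_sb] at h3
    by_cases hy : y ≤ qv I.2
    · exact ⟨I, List.mem_cons_self, by linarith, hy⟩
    · obtain ⟨J, hJ, hJ2⟩ := cov_sound h.2 (not_le.1 hy) h2
      exact ⟨J, List.mem_cons_of_mem _ hJ, hJ2⟩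

/-- check of the part about the 12-gon -/
def chkP (δ : (ℤ × ℤ) × (ℤ × ℤ)) (D : List CylD)
    (J : (ℤ × ℤ) × (ℤ × ℤ) × List (ℕ × ℕ)) : Bool :=
  J.2.2.all (fun x => decide (x.1 < D.length) && decide (x.2 < (D.getD x.1 dfl).L.length)) &&
  ((List.range 12).all (fun s => nn (sb (cml δ (tV s)).2 J.1) && nn (sb J.2.1 (cml δ (tV s)).2)) &&
  cov' J.1 J.2.1 (J.2.2.map (ivP D)))

/-- check of the part about the triangle `c` -/
def chkQ (δ : (ℤ × ℤ) × (ℤ × ℤ)) (D : List CylD) (c : ℕ)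
    (J : (ℤ × ℤ) × (ℤ × ℤ) × List (ℕ × ℕ)) : Bool :=
  J.2.2.all (fun x => decide (x.1 < D.length) && (decide (x.2 < (D.getD x.1 dfl).L.length) &&
    (decide (((D.getD x.1 dfl).at x.2).2.1 < 12) && decide (((D.getD x.1 dfl).at x.2).2.1 % 4 = c)))) &&
  ((List.range 3).all (fun n => nn (sb (cml δ (tT (c + 4 * n))).2 J.1) &&
    nn (sb J.2.1 (cml δ (tT (c + 4 * n))).2)) &&
  cov' J.1 J.2.1 (J.2.2.map (ivQ δ D)))

/-- check of a decomposition -/
def chkD (δ : (ℤ × ℤ) × (ℤ × ℤ)) (t : ℤ × ℤ) (D : List CylD)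
    (J : ℕ → (ℤ × ℤ) × (ℤ × ℤ) × List (ℕ × ℕ)) : Bool :=
  D.all (fun c => chkC δ c && decide (ml t c.h = (c.n * c.l.1, c.n * c.l.2))) &&
  (chkP δ D (J 4) && (chkQ δ D 0 (J 0) && (chkQ δ D 1 (J 1) && (chkQ δ D 2 (J 2) && chkQ δ D 3 (J 3)))))

lemma chkP_sound {δ : (ℤ × ℤ) × (ℤ × ℤ)} {D : List CylD} {J : (ℤ × ℤ) × (ℤ × ℤ) × List (ℕ × ℕ)}
    (h : chkP δ D J = true) {p : ℂ} (hp : p ∈ ho_P) : ∃ i k : ℕ, i < D.length ∧
      k < (D.getD i dfl).L.length ∧ 0 ≤ (cv ((D.getD i dfl).at k).2.2 + dv δ * p).im ∧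
      (cv ((D.getD i dfl).at k).2.2 + dv δ * p).im ≤ qv (D.getD i dfl).h := by
  unfold chkP at h
  simp only [Bool.and_eq_true, decide_eq_true_eq, List.all_eq_true, List.mem_range] at h
  obtain ⟨h1, h2, h3⟩ := h
  obtain ⟨k1, k2⟩ := ho_P_height (δ := dv δ) (lo := qv J.1) (hi := qv J.2.1) hp (by
    intro s
    have s0 := Int.emod_nonneg s (by norm_num : (12 : ℤ) ≠ 0)
    have s1 := Int.emod_lt_of_pos s (by norm_num : (0 : ℤ) < 12)
    have s2 : (s % 12).toNat < 12 := by omega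
    rw [ho_V_nat s (s % 12).toNat (Int.toNat_of_nonneg s0), ← cv_tV s2, ← cv_cml]
    obtain ⟨h4, h5⟩ := h2 _ s2
    have h4 := nn_sound h4
    have h5 := nn_sound h5
    rw [qv_sb] at h4 h5
    show qv J.1 ≤ qv (cml δ (tV (s % 12).toNat)).2 ∧ qv (cml δ (tV (s % 12).toNat)).2 ≤ qv J.2.1
    constructor <;> linarith)
  obtain ⟨I, hI, hI1, hI2⟩ := cov'_sound h3 k1 k2
  rw [List.mem_map] at hI
  obtain ⟨x, hx, rfl⟩ := hI
  refine ⟨x.1, x.2, (h1 x hx).1, (h1 x hx).2, ?_⟩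
  unfold ivP at hI1 hI2
  rw [qv_ng] at hI1
  rw [qv_sb] at hI2
  rw [Complex.add_im]
  show 0 ≤ qv ((D.getD x.1 dfl).at x.2).2.2.2 + _ ∧ qv ((D.getD x.1 dfl).at x.2).2.2.2 + _ ≤ _
  constructor <;> linarith

lemma chkQ_sound {δ : (ℤ × ℤ) × (ℤ × ℤ)} {D : List CylD} {c : ℕ} (hc : c < 4)
    {J : (ℤ × ℤ) × (ℤ × ℤ) × List (ℕ × ℕ)}
    (h : chkQ δ D c J = true) {p : ℂ} (hp : p ∈ ho_Q c) : ∃ i k : ℕ, i < D.length ∧
      k < (D.getD i dfl).L.length ∧ ((D.getD i dfl).at k).2.1 % 4 = c ∧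
      0 ≤ (cv ((D.getD i dfl).at k).2.2 + dv δ * ho_u ((D.getD i dfl).at k).2.1 + dv δ * p).im ∧
      (cv ((D.getD i dfl).at k).2.2 + dv δ * ho_u ((D.getD i dfl).at k).2.1 + dv δ * p).im ≤
        qv (D.getD i dfl).h := by
  unfold chkQ at h
  simp only [Bool.and_eq_true, decide_eq_true_eq, List.all_eq_true, List.mem_range] at h
  obtain ⟨h1, h2, h3⟩ := h
  obtain ⟨k1, k2⟩ := ho_Q_height (δ := dv δ) (lo := qv J.1) (hi := qv J.2.1) hp (by
    intro n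
    have s0 := Int.emod_nonneg n (by norm_num : (3 : ℤ) ≠ 0)
    have s1 := Int.emod_lt_of_pos n (by norm_num : (0 : ℤ) < 3)
    have s2 : (n % 3).toNat < 3 := by omega
    have s3 : c + 4 * (n % 3).toNat < 12 := by omega
    rw [ho_T_nat (c + 4 * n) (c + 4 * (n % 3).toNat) (by push_cast; omega), ← cv_tT s3, ← cv_cml]
    obtain ⟨h4, h5⟩ := h2 _ s2
    have h4 := nn_sound h4
    have h5 := nn_sound h5
    rw [qv_sb] at h4 h5
    show qv J.1 ≤ qv (cml δ (tT (c + 4 * (n % 3).toNat))).2 ∧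
      qv (cml δ (tT (c + 4 * (n % 3).toNat))).2 ≤ qv J.2.1
    constructor <;> linarith)
  obtain ⟨I, hI, hI1, hI2⟩ := cov'_sound h3 k1 k2
  rw [List.mem_map] at hI
  obtain ⟨x, hx, rfl⟩ := hI
  obtain ⟨g1, g2, g3, g4⟩ := h1 x hx
  refine ⟨x.1, x.2, g1, g2, g4, ?_⟩
  unfold ivQ at hI1 hI2
  rw [qv_ng, qv_ad] at hI1
  rw [qv_sb, qv_ad] at hI2
  rw [← cv_tu g3, ← cv_cml, Complex.add_im, Complex.add_im]
  show 0 ≤ qv ((D.getD x.1 dfl).at x.2).2.2.2 + qv (cml δ (tu ((D.getD x.1 dfl).at x.2).2.1)).2 + _ ∧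
    qv ((D.getD x.1 dfl).at x.2).2.2.2 + qv (cml δ (tu ((D.getD x.1 dfl).at x.2).2.1)).2 + _ ≤ _
  constructor <;> linarith

lemma ho_perQ {v : Fin 3 → ℂ} {SP : ℂ → Surf v} {SQ : ℤ → ℂ → Surf v} (H : HoCharts v SP SQ) (n : ℤ) :
    ∀ (c : ℤ) (z : ℂ), SQ (c + 4 * n) z = SQ c z := by
  induction n using Int.induction_on with
  | zero => intro c z; simp
  | succ n ih =>
    intro c z
    have e : c + 4 * ((n : ℤ) + 1) = (c + 4 * n) + 4 := by ring
    rw [e, H.perQ, ih]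
  | pred n ih =>
    intro c z
    have e : c + 4 * (-(n : ℤ)) = (c + 4 * (-(n : ℤ) - 1)) + 4 := by ring
    have := ih c z
    rw [e, H.perQ] at this
    exact this

theorem ho_dec {v : Fin 3 → ℂ} {SP : ℂ → Surf v} {SQ : ℤ → ℂ → Surf v} (H : HoCharts v SP SQ)
    {δ : (ℤ × ℤ) × (ℤ × ℤ)} {t : ℤ × ℤ} {D : List CylD}
    {J : ℕ → (ℤ × ℤ) × (ℤ × ℤ) × List (ℕ × ℕ)} (hδ : dv δ ≠ 0) (hc : chkD δ t D J = true) :
    ∃ (l h : Fin D.length → ℝ) (Ψ : Fin D.length → ℂ → Surf v),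
      Decomp v (‖dv δ‖ * (dv δ)⁻¹) l h Ψ ∧ ∀ i, ∃ n : ℤ, dq t * h i = n * l i := by
  unfold chkD at hc
  simp only [Bool.and_eq_true, List.all_eq_true, decide_eq_true_eq] at hc
  obtain ⟨c1, c2, q0, q1, q2, q3⟩ := hc
  have hget : ∀ i : Fin D.length, D.getD i dfl ∈ D := by
    intro i
    rw [List.getD_eq_getElem _ _ i.2]
    exact List.getElem_mem _
  have hch := fun i : Fin D.length => chkC_sound hδ (c1 _ (hget i)).1
  choose Ψ0 hΨ using fun i : Fin D.length => (hch i).cyl H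
  set ρ : ℝ := ‖dv δ‖ with hρ
  have hρ0 : 0 < ρ := norm_pos_iff.2 hδ
  have him : ∀ z : ℂ, ((ρ : ℂ) * z).im = ρ * z.im := by
    intro z
    simp
  refine ⟨fun i => qv (D.getD i dfl).l / ρ, fun i => qv (D.getD i dfl).h / ρ,
    fun i z => Ψ0 i (ρ * z), ⟨?_, ?_, ?_, ?_, ?_, ?_, ?_, ?_, ?_⟩, ?_⟩
  · rw [norm_mul, norm_inv, Complex.norm_real, norm_norm, mul_inv_cancel₀ hρ0.ne']
  · intro i
    exact div_pos (hch i).lpos hρ0
  · intro i
    exact div_pos (hch i).hpos hρ0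
  · intro i z h0 h1
    rw [le_div_iff₀ hρ0] at h1
    have hcont : Tendsto (fun w : ℂ => (ρ : ℂ) * w) (𝓝 z) (𝓝 ((ρ : ℂ) * z)) := by
      have : Continuous (fun w : ℂ => (ρ : ℂ) * w) := by fun_prop
      exact this.tendsto z
    filter_upwards [hcont.eventually ((hΨ i).1 ((ρ : ℂ) * z) (by rw [him]; positivity)
      (by rw [him]; linarith))] with w hw h2 h3
    rw [le_div_iff₀ hρ0] at h3
    have h4 := hw (by rw [him]; positivity) (by rw [him]; linarith)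
    convert h4 using 1
    ring
  · intro i z h0 h1
    rw [le_div_iff₀ hρ0] at h1
    have h2 := (hΨ i).2.1 ((ρ : ℂ) * z) (by rw [him]; positivity) (by rw [him]; linarith)
    have e : (ρ : ℂ) * (z + ((qv (D.getD i dfl).l / ρ : ℝ) : ℂ)) = ρ * z + qv (D.getD i dfl).l := by
      push_cast
      have : (ρ : ℂ) ≠ 0 := by exact_mod_cast hρ0.ne'
      field_simp
    rw [e, h2]
  · intro ξ
    rcases H.surj ξ with ⟨p, hp, rfl⟩ | ⟨c, p, hp, rfl⟩
    · obtain ⟨i, k, hi, hk, h1, h2⟩ := chkP_sound c2 hp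
      have e : ((k : ℤ) % (D.getD i dfl).L.length).toNat = k ∧ (k : ℤ) / (D.getD i dfl).L.length = 0 := by
        rw [Int.emod_eq_of_lt (by omega) (by exact_mod_cast hk)]
        refine ⟨by simp, ?_⟩
        exact Int.ediv_eq_zero_of_lt (by omega) (by exact_mod_cast hk)
      obtain ⟨z, hz0, hz1, hz2⟩ := (hΨ ⟨i, hi⟩).2.2.2.2.2.1 k p hp (by
        simp only [e.1, e.2]; simpa using h1) (by simp only [e.1, e.2]; simpa using h2)
      refine ⟨⟨i, hi⟩, z / ρ, ?_, ?_, ?_⟩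
      · rw [Complex.div_ofReal_im]; positivity
      · rw [Complex.div_ofReal_im]; gcongr
      · have : (ρ : ℂ) ≠ 0 := by exact_mod_cast hρ0.ne'
        rw [mul_div_cancel₀ _ this]
        exact hz2
    · have s0 := Int.emod_nonneg c (by norm_num : (4 : ℤ) ≠ 0)
      have s1 := Int.emod_lt_of_pos c (by norm_num : (0 : ℤ) < 4)
      obtain ⟨c', hc', hcc⟩ : ∃ c' : ℕ, c' < 4 ∧ (c' : ℤ) = c % 4 := ⟨(c % 4).toNat, by omega, by omega⟩
      have e1 : (c' : ℤ) + 4 * (c / 4) = c := by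
        rw [hcc]; exact Int.emod_add_mul_ediv c 4
      have hp' : p ∈ ho_Q c' := by
        rw [← ho_Q_add c' (c / 4), e1]
        exact hp
      have hq : chkQ δ D c' (J c') = true := by
        interval_cases c'
        · exact q0
        · exact q1
        · exact q2
        · exact q3
      obtain ⟨i, k, hi, hk, hb, h1, h2⟩ := chkQ_sound hc' hq hp'
      have e : ((k : ℤ) % (D.getD i dfl).L.length).toNat = k ∧ (k : ℤ) / (D.getD i dfl).L.length = 0 := by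
        rw [Int.emod_eq_of_lt (by omega) (by exact_mod_cast hk)]
        refine ⟨by simp, ?_⟩
        exact Int.ediv_eq_zero_of_lt (by omega) (by exact_mod_cast hk)
      set b := ((D.getD i dfl).at k).2.1 with hbdef
      obtain ⟨n, hn⟩ : ∃ n : ℤ, (b : ℤ) = c' + 4 * n := ⟨(b : ℤ) / 4, by omega⟩
      have hp'' : p ∈ ho_Q b := by
        rw [hn, ho_Q_add]
        exact hp'
      obtain ⟨z, hz0, hz1, hz2⟩ := (hΨ ⟨i, hi⟩).2.2.2.2.2.2 k p (by simp only [e.1]; exact hp'') (by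
        simp only [e.1, e.2, Int.cast_zero, zero_mul, add_zero]; exact h1) (by
        simp only [e.1, e.2, Int.cast_zero, zero_mul, add_zero]; exact h2)
      simp only [e.1] at hz2
      refine ⟨⟨i, hi⟩, z / ρ, ?_, ?_, ?_⟩
      · rw [Complex.div_ofReal_im]; positivity
      · rw [Complex.div_ofReal_im]; gcongr
      · have : (ρ : ℂ) ≠ 0 := by exact_mod_cast hρ0.ne'
        rw [mul_div_cancel₀ _ this, hz2]
        show SQ (b : ℤ) p = SQ c p
        rw [hn, ho_perQ H, ← e1, ho_perQ H]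
  · intro i z h0 h1
    rw [lt_div_iff₀ hρ0] at h1
    exact (hΨ i).2.2.1 _ (by rw [him]; positivity) (by rw [him]; linarith)
  · intro i
    obtain ⟨b, hb⟩ := (hΨ i).2.2.2.1
    refine ⟨b / ρ, ?_⟩
    have : (ρ : ℂ) ≠ 0 := by exact_mod_cast hρ0.ne'
    have e : (ρ : ℂ) * ((b / ρ : ℝ) : ℂ) = b := by
      push_cast
      field_simp
    rw [e]
    exact hb
  · intro i
    obtain ⟨b, hb⟩ := (hΨ i).2.2.2.2.1
    refine ⟨b / ρ, ?_⟩
    have : (ρ : ℂ) ≠ 0 := by exact_mod_cast hρ0.ne'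
    have e : (ρ : ℂ) * (((b / ρ : ℝ) : ℂ) + ((qv (D.getD i dfl).h / ρ : ℝ) : ℂ) * Complex.I) =
        b + qv (D.getD i dfl).h * Complex.I := by
      push_cast
      field_simp
    rw [e]
    exact hb
  · intro i
    have h1 := (c1 _ (hget i)).2
    refine ⟨(D.getD i dfl).n, ?_⟩
    have h2 := congrArg qv h1
    rw [qv_ml] at h2
    have h3 : qv ((D.getD i dfl).n * (D.getD i dfl).l.1, (D.getD i dfl).n * (D.getD i dfl).l.2) =
        (D.getD i dfl).n * qv (D.getD i dfl).l := by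
      unfold qv
      push_cast
      ring
    rw [h3] at h2
    field_simp
    exact h2

end Pool.Agent.OBT
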