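import Mathlib
import Pool.Agent.OBT.HoDec

/-!
# The three decompositions of Hooper's surface into cylinders
-/

namespace Pool.Agent.OBT

/-- direction 0 -/
def ho_d0 : (ℤ × ℤ) × (ℤ × ℤ) := ((1, 0), (0, 0))

/-- cylinders of direction 0 -/
def ho_D0 : List CylD := [
  ⟨(-3, 2), (6, 0), 1, [(8, 10, ((0, 0), (0, 1))), (6, 0, ((3, 0), (0, 0)))]⟩,
  ⟨(6, -3), (0, 2), 3, [(7, 11, ((0, 0), (3, -1)))]⟩,
  ⟨(-3, 2), (6, 0), 1, [(6, 0, ((0, 0), (-3, 2))), (4, 2, ((3, 0), (-3, 1)))]⟩,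
  ⟨(6, -3), (0, 2), 3, [(5, 1, ((0, 0), (3, -2)))]⟩]

/-- covers of direction 0 -/
def ho_J0 (c : ℕ) : (ℤ × ℤ) × (ℤ × ℤ) × List (ℕ × ℕ) := [
  ((3, -2), (-3, 2), [(2, 0), (0, 1)]),
  ((-4, 2), (2, -1), [(3, 0)]),
  ((3, -2), (-3, 2), [(2, 1), (0, 0)]),
  ((-2, 1), (4, -2), [(1, 0)]),
  ((0, -1), (0, 1), [(0, 0), (1, 0), (2, 0), (0, 1), (3, 0), (2, 1)])].getD c ((0, 0), (0, 0), [])

theorem ho_chk0 : chkD ho_d0 (6, 4) ho_D0 ho_J0 = true := by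
  decide +kernel

/-- direction 1 -/
def ho_d1 : (ℤ × ℤ) × (ℤ × ℤ) := ((2, 1), (-1, 0))

/-- cylinders of direction 1 -/
def ho_D1 : List CylD := [
  ⟨(-6, 4), (12, 4), 1, [(9, 10, ((0, 0), (0, 4))), (6, 1, ((6, 2), (-6, 2)))]⟩,
  ⟨(6, -2), (12, 8), 2, [(8, 11, ((0, 0), (6, 0))), (7, 0, ((6, 4), (6, -2)))]⟩,
  ⟨(-6, 4), (12, 4), 1, [(7, 0, ((0, 0), (0, 2))), (4, 3, ((6, 2), (-6, 0)))]⟩,
  ⟨(6, -2), (12, 8), 2, [(6, 1, ((0, 0), (0, 0))), (5, 2, ((6, 4), (0, -2)))]⟩]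

/-- covers of direction 1 -/
def ho_J1 (c : ℕ) : (ℤ × ℤ) × (ℤ × ℤ) × List (ℕ × ℕ) := [
  ((2, -2), (2, 0), [(2, 0), (1, 1)]),
  ((-2, 0), (-2, 2), [(3, 0), (0, 1)]),
  ((-2, 0), (-2, 2), [(3, 1), (0, 0)]),
  ((2, -2), (2, 0), [(2, 1), (1, 0)]),
  ((0, -4), (0, 4), [(0, 0), (1, 0), (2, 0), (1, 1), (3, 0), (0, 1), (3, 1), (2, 1)])].getD c ((0, 0), (0, 0), [])

theorem ho_chk1 : chkD ho_d1 (10, 6) ho_D1 ho_J1 = true := by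
  decide +kernel

/-- direction 2 -/
def ho_d2 : (ℤ × ℤ) × (ℤ × ℤ) := ((3, 2), (-1, 0))

/-- cylinders of direction 2 -/
def ho_D2 : List CylD := [
  ⟨(-6, 4), (30, 14), 2, [(9, 10, ((0, 0), (3, 5))), (6, 1, ((9, 5), (-6, 2))), (5, 1, ((21, 11), (-6, 0)))]⟩,
  ⟨(3, -1), (72, 44), 1, [(8, 10, ((0, 0), (9, 1))), (6, 1, ((9, 5), (0, -2))), (5, 2, ((21, 11), (0, -4))), (6, 0, ((30, 18), (3, -1))), (8, 11, ((39, 25), (6, 2))), (7, 11, ((51, 31), (6, 0))), (7, 0, ((63, 37), (6, -2)))]⟩,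
  ⟨(3, -1), (72, 44), 1, [(8, 11, ((0, 0), (3, 3))), (7, 0, ((12, 6), (3, 1))), (4, 2, ((21, 11), (-6, -2))), (6, 1, ((30, 18), (-3, 1))), (5, 1, ((42, 24), (-3, -1))), (5, 2, ((54, 30), (-3, -3))), (6, 0, ((63, 37), (0, 0)))]⟩,
  ⟨(-6, 4), (30, 14), 2, [(7, 11, ((0, 0), (0, 4))), (7, 0, ((12, 6), (0, 2))), (4, 3, ((21, 11), (-9, -1)))]⟩]

/-- covers of direction 2 -/
def ho_J2 (c : ℕ) : (ℤ × ℤ) × (ℤ × ℤ) × List (ℕ × ℕ) := [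
  ((-1, -1), (5, -1), [(2, 1), (3, 1), (1, 6), (1, 3), (2, 6)]),
  ((0, -2), (-3, 3), [(2, 3), (0, 1), (1, 1), (2, 4), (0, 2)]),
  ((-5, 1), (1, 1), [(1, 2), (2, 5), (2, 2), (0, 0), (1, 0)]),
  ((3, -3), (0, 2), [(3, 2), (1, 4), (2, 0), (3, 0), (1, 5)]),
  ((-3, -5), (3, 5), [(0, 0), (1, 0), (1, 4), (2, 0), (3, 0), (1, 5), (2, 1), (3, 1), (1, 6), (1, 3), (2, 6), (2, 3), (0, 1), (1, 1), (2, 4), (0, 2), (1, 2), (2, 5), (2, 2), (3, 2)])].getD c ((0, 0), (0, 0), [])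

theorem ho_chk2 : chkD ho_d2 (58, 34) ho_D2 ho_J2 = true := by
  decide +kernel

end Pool.Agent.OBT
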