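import Mathlib
import Pool.Agent.OBT.ConvHyp

/-!
# The covering part of Hooper's triangle: a discrete group with the rotation by pi/6 and three
parabolic elements is a lattice
-/

open scoped ComplexConjugate Topology MatrixGroups UpperHalfPlane
open MeasureTheory Filter

namespace Pool.Agent.OBT

/-- The parabolic element fixing the direction `a + i`. -/
def parD (a s : ℝ) : SL(2, ℝ) :=
  ⟨!![1 - s * a, s * a ^ 2; -s, 1 + s * a], by rw [Matrix.det_fin_two_of]; ring⟩

/-- area of a set with small slices -/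
theorem HP_vol {F : Set ℍ} {P : Set (ℝ × ℝ)} (hP : MeasurableSet P)
    (himg : ((↑) : ℍ → ℂ) '' F = Complex.measurableEquivRealProd ⁻¹' P) (hpos : ∀ w ∈ P, 0 < w.2)
    {A C : ℝ} (hA : 0 < A) (hC : 0 < C)
    (hsl : ∀ y : ℝ, 0 < y → volume {x : ℝ | (x, y) ∈ P} ≤ ENNReal.ofReal (min A (C * y ^ 2))) :
    volume F < ⊤ := by
  rw [UpperHalfPlane.volume_eq_lintegral, himg]
  have hmp := Complex.volume_preserving_equiv_real_prod
  have e1 : ∫⁻ z : ℂ in Complex.measurableEquivRealProd ⁻¹' P,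
      ↑((1 / ‖z.im‖₊) ^ 2 : NNReal) =
      ∫⁻ w : ℝ × ℝ in P, ↑((1 / ‖w.2‖₊) ^ 2 : NNReal) :=
    hmp.setLIntegral_comp_preimage_emb Complex.measurableEquivRealProd.measurableEmbedding
      (fun w : ℝ × ℝ => ↑((1 / ‖w.2‖₊) ^ 2 : NNReal)) P
  rw [e1, ← lintegral_indicator hP, Measure.volume_eq_prod]
  have hmeas : Measurable (P.indicator fun w : ℝ × ℝ =>
      (((1 / ‖w.2‖₊) ^ 2 : NNReal) : ENNReal)) := by
    apply Measurable.indicator _ hP
    fun_prop
  rw [lintegral_prod_symm _ hmeas.aemeasurable]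
  have hb : ∀ y : ℝ, (∫⁻ x : ℝ, P.indicator (fun w : ℝ × ℝ =>
      (((1 / ‖w.2‖₊) ^ 2 : NNReal) : ENNReal)) (x, y)) ≤
      (Set.Ioc (0 : ℝ) 1).indicator (fun _ => ENNReal.ofReal C) y +
      (Set.Ioi (1 : ℝ)).indicator (fun y => ENNReal.ofReal (A * y ^ (-2 : ℝ))) y := by
    intro y
    have e2 : (fun x : ℝ => P.indicator (fun w : ℝ × ℝ =>
        (((1 / ‖w.2‖₊) ^ 2 : NNReal) : ENNReal)) (x, y)) =
        {x : ℝ | (x, y) ∈ P}.indicator (fun _ => (((1 / ‖y‖₊) ^ 2 : NNReal) : ENNReal)) := by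
      funext x
      by_cases h : (x, y) ∈ P
      · rw [Set.indicator_of_mem h, Set.indicator_of_mem (show x ∈ {x : ℝ | (x, y) ∈ P} from h)]
      · rw [Set.indicator_of_notMem h,
          Set.indicator_of_notMem (show x ∉ {x : ℝ | (x, y) ∈ P} from h)]
    have hsm : MeasurableSet {x : ℝ | (x, y) ∈ P} :=
      hP.preimage (measurable_id.prodMk measurable_const)
    rw [e2, lintegral_indicator hsm, setLIntegral_const]
    by_cases hy : 0 < y
    · have e3 : (((1 / ‖y‖₊) ^ 2 : NNReal) : ENNReal) = ENNReal.ofReal (1 / y ^ 2) := by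
        rw [ENNReal.ofReal, ENNReal.coe_inj]
        ext
        have : (0 : ℝ) ≤ 1 / y ^ 2 := by positivity
        simp [abs_of_pos hy]
        positivity
      rw [e3]
      have h1 := hsl y hy
      rcases le_or_gt y 1 with hy1 | hy1
      · rw [Set.indicator_of_mem (show y ∈ Set.Ioc (0 : ℝ) 1 from ⟨hy, hy1⟩),
          Set.indicator_of_notMem (show y ∉ Set.Ioi (1 : ℝ) from not_lt.2 hy1), add_zero]
        calc ENNReal.ofReal (1 / y ^ 2) * volume {x : ℝ | (x, y) ∈ P}
            ≤ ENNReal.ofReal (1 / y ^ 2) * ENNReal.ofReal (C * y ^ 2) := by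
              gcongr
              exact h1.trans (ENNReal.ofReal_le_ofReal (min_le_right _ _))
          _ = ENNReal.ofReal C := by
              rw [← ENNReal.ofReal_mul (by positivity)]
              congr 1
              field_simp
      · rw [Set.indicator_of_notMem (show y ∉ Set.Ioc (0 : ℝ) 1 from fun h => not_le.2 hy1 h.2),
          Set.indicator_of_mem (show y ∈ Set.Ioi (1 : ℝ) from hy1), zero_add]
        calc ENNReal.ofReal (1 / y ^ 2) * volume {x : ℝ | (x, y) ∈ P}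
            ≤ ENNReal.ofReal (1 / y ^ 2) * ENNReal.ofReal A := by
              gcongr
              exact h1.trans (ENNReal.ofReal_le_ofReal (min_le_left _ _))
          _ = ENNReal.ofReal (A * y ^ (-2 : ℝ)) := by
              rw [← ENNReal.ofReal_mul (by positivity)]
              congr 1
              rw [Real.rpow_neg hy.le, Real.rpow_two]
              ring
    · have e3 : {x : ℝ | (x, y) ∈ P} = ∅ := by
        ext x
        constructor
        · intro h
          exact absurd (hpos _ h) hy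
        · intro h
          exact absurd h (Set.notMem_empty x)
      rw [e3, measure_empty, mul_zero]
      exact bot_le
  refine lt_of_le_of_lt (lintegral_mono hb) ?_
  rw [lintegral_add_left (measurable_const.indicator measurableSet_Ioc),
    lintegral_indicator measurableSet_Ioc, lintegral_indicator measurableSet_Ioi,
    setLIntegral_const, Real.volume_Ioc]
  refine ENNReal.add_lt_top.2 ⟨?_, ?_⟩
  · exact ENNReal.mul_lt_top ENNReal.ofReal_lt_top ENNReal.ofReal_lt_top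
  · have hint : IntegrableOn (fun y : ℝ => A * y ^ (-2 : ℝ)) (Set.Ioi 1) :=
      (integrableOn_Ioi_rpow_of_lt (by norm_num) one_pos).const_mul _
    have hfin := hint.hasFiniteIntegral
    rw [hasFiniteIntegral_iff_ofReal] at hfin
    · exact hfin
    · filter_upwards [self_mem_ae_restrict measurableSet_Ioi] with y hy
      have : (0 : ℝ) < y := lt_trans one_pos hy
      positivity

/-- the set for the triangle of Hooper -/
def HP_F (T x0 K : ℝ) : Set ℍ :=
  {w | |w.re| ≤ T ∧ (|(|w.re|) - x0| ≤ K * w.im ^ 2 ∨ T - |w.re| ≤ K * w.im ^ 2)}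

/-- the same set in the plane -/
def HP_P (T x0 K : ℝ) : Set (ℝ × ℝ) :=
  {w | 0 < w.2 ∧ |w.1| ≤ T ∧ (|(|w.1|) - x0| ≤ K * w.2 ^ 2 ∨ T - |w.1| ≤ K * w.2 ^ 2)}

theorem HP_F_meas (T x0 K : ℝ) : MeasurableSet (HP_F T x0 K) := by
  have him : Continuous (fun z : ℍ => z.im) := UpperHalfPlane.continuous_im
  have hre : Continuous (fun z : ℍ => z.re) := UpperHalfPlane.continuous_re
  apply IsClosed.measurableSet
  apply IsClosed.inter
  · exact isClosed_le hre.abs continuous_const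
  · apply IsClosed.union
    · exact isClosed_le (hre.abs.sub continuous_const).abs (continuous_const.mul (him.pow 2))
    · exact isClosed_le (continuous_const.sub hre.abs) (continuous_const.mul (him.pow 2))

theorem HP_P_meas (T x0 K : ℝ) : MeasurableSet (HP_P T x0 K) := by
  apply MeasurableSet.inter
  · exact (isOpen_lt continuous_const continuous_snd).measurableSet
  · apply IsClosed.measurableSet
    apply IsClosed.inter
    · exact isClosed_le continuous_fst.abs continuous_const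
    · apply IsClosed.union
      · exact isClosed_le (continuous_fst.abs.sub continuous_const).abs
          (continuous_const.mul (continuous_snd.pow 2))
      · exact isClosed_le (continuous_const.sub continuous_fst.abs)
          (continuous_const.mul (continuous_snd.pow 2))

theorem HP_image (T x0 K : ℝ) : ((↑) : ℍ → ℂ) '' (HP_F T x0 K) =
    Complex.measurableEquivRealProd ⁻¹' (HP_P T x0 K) := by
  ext w
  constructor
  · rintro ⟨z, ⟨h2, h3⟩, rfl⟩
    exact ⟨z.im_pos, h2, h3⟩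
  · rintro ⟨h1, h2, h3⟩
    exact ⟨⟨w, h1⟩, ⟨h2, h3⟩, rfl⟩

theorem HP_F_vol {T x0 K : ℝ} (hT : 0 < T) (hK : 0 < K) : volume (HP_F T x0 K) < ⊤ := by
  apply HP_vol (HP_P_meas T x0 K) (HP_image T x0 K) (fun w hw => hw.1) (A := 2 * T) (C := 6 * K)
    (by positivity) (by positivity)
  intro y hy
  rw [ENNReal.ofReal_min]
  have hy2 : 0 < K * y ^ 2 := by positivity
  refine le_min ?_ ?_
  · calc volume {x : ℝ | (x, y) ∈ HP_P T x0 K} ≤ volume (Set.Icc (-T) T) := by
          apply measure_mono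
          rintro x ⟨-, h2, -⟩
          exact abs_le.1 h2
      _ = ENNReal.ofReal (2 * T) := by
          rw [Real.volume_Icc]
          congr 1
          ring
  · calc volume {x : ℝ | (x, y) ∈ HP_P T x0 K} ≤
          volume ((Set.Icc (x0 - K * y ^ 2) (x0 + K * y ^ 2) ∪
            Set.Icc (-x0 - K * y ^ 2) (-x0 + K * y ^ 2)) ∪
            (Set.Icc (T - K * y ^ 2) T ∪ Set.Icc (-T) (-T + K * y ^ 2))) := by
          apply measure_mono
          rintro x ⟨-, h2, h3⟩
          have h4 := abs_le.1 h2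
          simp only at h3 h4 h2
          rcases le_total 0 x with h | h
          · rw [abs_of_nonneg h] at h3
            rcases h3 with h3 | h3
            · have h5 := abs_le.1 h3
              exact Or.inl (Or.inl ⟨by linarith, by linarith⟩)
            · exact Or.inr (Or.inl ⟨by linarith, h4.2⟩)
          · rw [abs_of_nonpos h] at h3
            rcases h3 with h3 | h3
            · have h5 := abs_le.1 h3
              exact Or.inl (Or.inr ⟨by linarith, by linarith⟩)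
            · exact Or.inr (Or.inr ⟨h4.1, by linarith⟩)
      _ ≤ (volume (Set.Icc (x0 - K * y ^ 2) (x0 + K * y ^ 2)) +
            volume (Set.Icc (-x0 - K * y ^ 2) (-x0 + K * y ^ 2))) +
            (volume (Set.Icc (T - K * y ^ 2) T) + volume (Set.Icc (-T) (-T + K * y ^ 2))) :=
          (measure_union_le _ _).trans (add_le_add (measure_union_le _ _) (measure_union_le _ _))
      _ = ENNReal.ofReal (6 * K * y ^ 2) := by
          rw [Real.volume_Icc, Real.volume_Icc, Real.volume_Icc, Real.volume_Icc,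
            ← ENNReal.ofReal_add (by linarith) (by linarith),
            ← ENNReal.ofReal_add (by linarith) (by linarith),
            ← ENNReal.ofReal_add (by linarith) (by linarith)]
          congr 1
          ring

lemma HP_s3 : Real.sqrt 3 ^ 2 = 3 := Real.sq_sqrt (by norm_num)

/-- parabolic element with direction `π / 12` -/
noncomputable def HP15 : SL(2, ℝ) :=
  ⟨!![-(3 + 3 * Real.sqrt 3) / 2, (19 + 11 * Real.sqrt 3) / 2;
      -(1 + Real.sqrt 3) / 2, (7 + 3 * Real.sqrt 3) / 2], by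
    rw [Matrix.det_fin_two_of]
    linear_combination (1 / 2) * HP_s3⟩

/-- parabolic element which fixes `3 + 2 √3` -/
noncomputable def HPb : SL(2, ℝ) :=
  ⟨!![-8 - 5 * Real.sqrt 3, 57 + 33 * Real.sqrt 3;
      -(1 + Real.sqrt 3), 10 + 5 * Real.sqrt 3], by
    rw [Matrix.det_fin_two_of]
    linear_combination 8 * HP_s3⟩

/-- an element of the group which does not increase the height -/
theorem HP_row {γ' : SL(2, ℝ)} {w : ℍ} (h : (γ' • w : ℍ).im ≤ w.im) {c d : ℝ}
    (hc : γ' 1 0 = c) (hd : γ' 1 1 = d) : 1 ≤ (c * w.re + d) ^ 2 + (c * w.im) ^ 2 := by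
  have hw := w.im_pos
  rw [CH_im, hc, hd] at h
  by_contra hcon
  rw [not_le] at hcon
  have hpos : 0 < (c * w.re + d) ^ 2 + (c * w.im) ^ 2 := by
    have h0 : 0 ≤ (c * w.re + d) ^ 2 + (c * w.im) ^ 2 := by positivity
    rcases h0.eq_or_lt with h1 | h1
    · exfalso
      have e1 : (c * w.im) ^ 2 = 0 := by nlinarith [sq_nonneg (c * w.re + d), sq_nonneg (c * w.im)]
      have e2 : (c * w.re + d) ^ 2 = 0 := by
        nlinarith [sq_nonneg (c * w.re + d), sq_nonneg (c * w.im)]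
      have e3 : c = 0 := by
        have := pow_eq_zero_iff (two_ne_zero) |>.1 e1
        rcases mul_eq_zero.1 this with h | h
        · exact h
        · exact absurd h hw.ne'
      have e4 : d = 0 := by
        have := pow_eq_zero_iff (two_ne_zero) |>.1 e2
        rw [e3] at this
        linarith
      have hdet := ZHyp_det γ'
      rw [hc, hd, e3, e4] at hdet
      simp at hdet
    · exact h1
  rw [div_le_iff₀ hpos] at h
  nlinarith

theorem HP_inv10 (A : SL(2, ℝ)) : (A⁻¹) 1 0 = -A 1 0 := by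
  rw [Matrix.SpecialLinearGroup.coe_inv, Matrix.adjugate_fin_two]; rfl
theorem HP_inv11 (A : SL(2, ℝ)) : (A⁻¹) 1 1 = A 0 0 := by
  rw [Matrix.SpecialLinearGroup.coe_inv, Matrix.adjugate_fin_two]; rfl
theorem HP_inv00 (A : SL(2, ℝ)) : (A⁻¹) 0 0 = A 1 1 := by
  rw [Matrix.SpecialLinearGroup.coe_inv, Matrix.adjugate_fin_two]; rfl
theorem HP_inv01 (A : SL(2, ℝ)) : (A⁻¹) 0 1 = -A 0 1 := by
  rw [Matrix.SpecialLinearGroup.coe_inv, Matrix.adjugate_fin_two]; rfl

/-- real inequality behind the covering -/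
theorem HP_real {r y : ℝ} (hr0 : 0 ≤ r) (hrT : r ≤ 3 + 2 * Real.sqrt 3)
    (k1 : 4 ≤ (r - Real.sqrt 3) ^ 2 + y ^ 2)
    (k2 : 4 ≤ (Real.sqrt 3 * r - (5 + 2 * Real.sqrt 3)) ^ 2 + 3 * y ^ 2)
    (k3 : 1 ≤ ((1 + Real.sqrt 3) * r - (8 + 5 * Real.sqrt 3)) ^ 2 + (1 + Real.sqrt 3) ^ 2 * y ^ 2) :
    |r - (2 + Real.sqrt 3)| ≤ 20 * y ^ 2 ∨ 3 + 2 * Real.sqrt 3 - r ≤ 20 * y ^ 2 := by
  have h3 := HP_s3
  have ha : (1732 : ℝ) / 1000 ≤ Real.sqrt 3 := Real.le_sqrt_of_sq_le (by norm_num)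
  have hb : Real.sqrt 3 ≤ (1733 : ℝ) / 1000 := Real.sqrt_le_iff.2 ⟨by norm_num, by norm_num⟩
  set s := Real.sqrt 3
  have hy : 0 ≤ y ^ 2 := sq_nonneg y
  rcases le_total r (2 + s) with c1 | c1
  · left
    rw [abs_of_nonpos (by linarith)]
    have e : 4 - (r - s) ^ 2 = (2 + s - r) * (2 - s + r) := by ring
    have e2 : (2 + s - r) * (2 - s) ≤ (2 + s - r) * (2 - s + r) :=
      mul_le_mul_of_nonneg_left (by linarith) (by linarith)
    have e3 : (2 + s - r) * (267 / 1000) ≤ (2 + s - r) * (2 - s) :=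
      mul_le_mul_of_nonneg_left (by linarith) (by linarith)
    linarith
  · rcases le_total r (59 / 10) with c2 | c2
    · left
      rw [abs_of_nonneg (by linarith)]
      have e : 4 - (s * r - (5 + 2 * s)) ^ 2 = (7 + 2 * s - s * r) * (s * (r - (2 + s))) := by
        linear_combination (7 + 2 * s - s * r) * h3
      have e1 : 23 / 100 ≤ 7 + 2 * s - s * r := by
        have : s * r ≤ s * (59 / 10) := mul_le_mul_of_nonneg_left c2 (by linarith)
        linarith
      have e2 : 0 ≤ s * (r - (2 + s)) := mul_nonneg (by linarith) (by linarith)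
      have e3 : 23 / 100 * (s * (r - (2 + s))) ≤ (7 + 2 * s - s * r) * (s * (r - (2 + s))) :=
        mul_le_mul_of_nonneg_right e1 e2
      have e4 : 1732 / 1000 * (r - (2 + s)) ≤ s * (r - (2 + s)) :=
        mul_le_mul_of_nonneg_right ha (by linarith)
      linarith
    · right
      have e : 1 - ((1 + s) * r - (8 + 5 * s)) ^ 2 =
          ((1 + s) * r - (7 + 5 * s)) * ((1 + s) * (3 + 2 * s - r)) := by
        linear_combination (-2 * ((1 + s) * r - (7 + 5 * s))) * h3
      have e1 : 45 / 100 ≤ (1 + s) * r - (7 + 5 * s) := by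
        have : (1 + s) * (59 / 10) ≤ (1 + s) * r := mul_le_mul_of_nonneg_left c2 (by linarith)
        linarith
      have e2 : 0 ≤ (1 + s) * (3 + 2 * s - r) := mul_nonneg (by linarith) (by linarith)
      have e3 : 45 / 100 * ((1 + s) * (3 + 2 * s - r)) ≤
          ((1 + s) * r - (7 + 5 * s)) * ((1 + s) * (3 + 2 * s - r)) :=
        mul_le_mul_of_nonneg_right e1 e2
      have e4 : 45 / 100 * ((1 + s) * (3 + 2 * s - r)) ≤ (1 + s) ^ 2 * y ^ 2 := by linarith
      have e5 : (1 + s) * (45 / 100 * (3 + 2 * s - r)) ≤ (1 + s) * ((1 + s) * y ^ 2) := by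
        linarith
      have e6 : 45 / 100 * (3 + 2 * s - r) ≤ (1 + s) * y ^ 2 :=
        le_of_mul_le_mul_left e5 (by linarith)
      have e7 : (1 + s) * y ^ 2 ≤ 2733 / 1000 * y ^ 2 := mul_le_mul_of_nonneg_right (by linarith) hy
      linarith

/-- **Lattice criterion for the triangle of Hooper.** -/
theorem lattice_of_hooper (Γ : Subgroup SL(2, ℝ)) (hd : DiscreteTopology Γ)
    (hR : rotM (Real.pi / 6) ∈ Γ) (h0 : parM (6 + 4 * Real.sqrt 3) ∈ Γ) (h15 : HP15 ∈ Γ)
    (hb : HPb ∈ Γ) : IsLatticeSubgroup Γ := by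
  have hs3 : (0 : ℝ) < Real.sqrt 3 := Real.sqrt_pos.2 (by norm_num)
  have h3 := HP_s3
  refine ⟨hd, HP_F (3 + 2 * Real.sqrt 3) (2 + Real.sqrt 3) 20, HP_F_meas _ _ _,
    HP_F_vol (by positivity) (by norm_num), fun z => ?_⟩
  obtain ⟨γ, hγ, h1, h2⟩ := CH_max Γ hd (by positivity) h0 z
  refine ⟨γ, hγ, ?_⟩
  set w : ℍ := γ • z
  have hT : |w.re| ≤ 3 + 2 * Real.sqrt 3 := by
    refine h1.trans (le_of_eq ?_)
    ring
  have r10 : (rotM (Real.pi / 6)) 1 0 = 1 / 2 := Real.sin_pi_div_six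
  have r11 : (rotM (Real.pi / 6)) 1 1 = Real.sqrt 3 / 2 := Real.cos_pi_div_six
  have r00 : (rotM (Real.pi / 6)) 0 0 = Real.sqrt 3 / 2 := Real.cos_pi_div_six
  have r01 : (rotM (Real.pi / 6)) 0 1 = -(1 / 2) := by
    show -Real.sin (Real.pi / 6) = _
    rw [Real.sin_pi_div_six]
  have p00 : HP15 0 0 = -(3 + 3 * Real.sqrt 3) / 2 := rfl
  have p01 : HP15 0 1 = (19 + 11 * Real.sqrt 3) / 2 := rfl
  have p10 : HP15 1 0 = -(1 + Real.sqrt 3) / 2 := rfl
  have p11 : HP15 1 1 = (7 + 3 * Real.sqrt 3) / 2 := rfl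
  have b00 : HPb 0 0 = -8 - 5 * Real.sqrt 3 := rfl
  have b10 : HPb 1 0 = -(1 + Real.sqrt 3) := rfl
  have b11 : HPb 1 1 = 10 + 5 * Real.sqrt 3 := rfl
  have q00 : (parM (6 + 4 * Real.sqrt 3)) 0 0 = 1 := rfl
  have q01 : (parM (6 + 4 * Real.sqrt 3)) 0 1 = 6 + 4 * Real.sqrt 3 := rfl
  have q10 : (parM (6 + 4 * Real.sqrt 3)) 1 0 = 0 := rfl
  have q11 : (parM (6 + 4 * Real.sqrt 3)) 1 1 = 1 := rfl
  -- the six circles
  have a1 := HP_row (h2 _ hR) r10 r11
  have a2 := HP_row (h2 _ (Γ.inv_mem hR)) (c := -(1 / 2)) (d := Real.sqrt 3 / 2)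
    (by rw [HP_inv10, r10]) (by rw [HP_inv11, r00])
  have a3 := HP_row (h2 _ (Γ.mul_mem (Γ.inv_mem hR) h15)) (c := Real.sqrt 3 / 2)
    (d := -(5 + 2 * Real.sqrt 3) / 2)
    (by rw [CH_mul, HP_inv10, HP_inv11, r10, r00, p00, p10]; linear_combination (-1 / 4) * h3)
    (by rw [CH_mul, HP_inv10, HP_inv11, r10, r00, p01, p11]; linear_combination (3 / 4) * h3)
  have a4 := HP_row (h2 _ (Γ.mul_mem (Γ.inv_mem h15) hR)) (c := -(Real.sqrt 3 / 2))
    (d := -(5 + 2 * Real.sqrt 3) / 2)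
    (by rw [CH_mul, HP_inv10, HP_inv11, r10, r00, p00, p10]; linear_combination (1 / 4) * h3)
    (by rw [CH_mul, HP_inv10, HP_inv11, r01, r11, p00, p10]; linear_combination (-3 / 4) * h3)
  have a5 := HP_row (h2 _ (Γ.inv_mem hb)) (c := 1 + Real.sqrt 3) (d := -8 - 5 * Real.sqrt 3)
    (by rw [HP_inv10, b10]; ring) (by rw [HP_inv11, b00])
  have a6 := HP_row (h2 _ (Γ.mul_mem hb h0)) (c := -(1 + Real.sqrt 3)) (d := -8 - 5 * Real.sqrt 3)
    (by rw [CH_mul, b10, b11, q00, q10]; ring)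
    (by rw [CH_mul, b10, b11, q01, q11]; linear_combination (-4) * h3)
  refine ⟨hT, ?_⟩
  have e : |w.re| ^ 2 = w.re ^ 2 := sq_abs _
  rcases le_total 0 w.re with h | h
  · rw [abs_of_nonneg h] at hT ⊢
    refine HP_real h hT ?_ ?_ ?_
    · linear_combination 4 * a2
    · linear_combination 4 * a3 + w.im ^ 2 * h3
    · linear_combination a5
  · rw [abs_of_nonpos h] at hT ⊢
    refine HP_real (by linarith) hT ?_ ?_ ?_
    · linear_combination 4 * a1
    · linear_combination 4 * a4 + w.im ^ 2 * h3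
    · linear_combination a6

theorem HP15_eq : parD (2 + Real.sqrt 3) ((1 + Real.sqrt 3) / 2) = HP15 := by
  have h3 := HP_s3
  apply Subtype.ext
  show (!![1 - (1 + Real.sqrt 3) / 2 * (2 + Real.sqrt 3), (1 + Real.sqrt 3) / 2 * (2 + Real.sqrt 3) ^ 2;
    -((1 + Real.sqrt 3) / 2), 1 + (1 + Real.sqrt 3) / 2 * (2 + Real.sqrt 3)] :
    Matrix (Fin 2) (Fin 2) ℝ) = !![-(3 + 3 * Real.sqrt 3) / 2, (19 + 11 * Real.sqrt 3) / 2;
      -(1 + Real.sqrt 3) / 2, (7 + 3 * Real.sqrt 3) / 2]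
  have e1 : 1 - (1 + Real.sqrt 3) / 2 * (2 + Real.sqrt 3) = -(3 + 3 * Real.sqrt 3) / 2 := by
    linear_combination (-1 / 2) * h3
  have e2 : (1 + Real.sqrt 3) / 2 * (2 + Real.sqrt 3) ^ 2 = (19 + 11 * Real.sqrt 3) / 2 := by
    linear_combination ((Real.sqrt 3 + 5) / 2) * h3
  have e3 : -((1 + Real.sqrt 3) / 2) = -(1 + Real.sqrt 3) / 2 := by ring
  have e4 : 1 + (1 + Real.sqrt 3) / 2 * (2 + Real.sqrt 3) = (7 + 3 * Real.sqrt 3) / 2 := by
    linear_combination (1 / 2) * h3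
  rw [e1, e2, e3, e4]

theorem HPb_eq : parD (3 + 2 * Real.sqrt 3) (1 + Real.sqrt 3) = HPb := by
  have h3 := HP_s3
  apply Subtype.ext
  show (!![1 - (1 + Real.sqrt 3) * (3 + 2 * Real.sqrt 3),
      (1 + Real.sqrt 3) * (3 + 2 * Real.sqrt 3) ^ 2;
    -(1 + Real.sqrt 3), 1 + (1 + Real.sqrt 3) * (3 + 2 * Real.sqrt 3)] :
    Matrix (Fin 2) (Fin 2) ℝ) = !![-8 - 5 * Real.sqrt 3, 57 + 33 * Real.sqrt 3;
      -(1 + Real.sqrt 3), 10 + 5 * Real.sqrt 3]
  have e1 : 1 - (1 + Real.sqrt 3) * (3 + 2 * Real.sqrt 3) = -8 - 5 * Real.sqrt 3 := by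
    linear_combination (-2) * h3
  have e2 : (1 + Real.sqrt 3) * (3 + 2 * Real.sqrt 3) ^ 2 = 57 + 33 * Real.sqrt 3 := by
    linear_combination (4 * Real.sqrt 3 + 16) * h3
  have e4 : 1 + (1 + Real.sqrt 3) * (3 + 2 * Real.sqrt 3) = 10 + 5 * Real.sqrt 3 := by
    linear_combination 2 * h3
  rw [e1, e2, e4]

theorem ho_lattice (Γ : Subgroup SL(2, ℝ)) (hd : DiscreteTopology Γ)
    (hR : rotM (Real.pi / 6) ∈ Γ) (h0 : parM (6 + 4 * Real.sqrt 3) ∈ Γ)
    (h1 : parD (2 + Real.sqrt 3) ((1 + Real.sqrt 3) / 2) ∈ Γ)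
    (h2 : parD (3 + 2 * Real.sqrt 3) (1 + Real.sqrt 3) ∈ Γ) : IsLatticeSubgroup Γ :=
  lattice_of_hooper Γ hd hR h0 (HP15_eq ▸ h1) (HPb_eq ▸ h2)

end Pool.Agent.OBT
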