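import Mathlib
import Pool.Agent.OBT.HoData
import Pool.Agent.OBT.HoHyp

/-!
# The three parabolic elements of the Veech group of Hooper's surface
-/

open scoped ComplexConjugate Topology MatrixGroups UpperHalfPlane
open MeasureTheory Filter

namespace Pool.Agent.OBT

lemma act_parM (t : ℝ) (z : ℂ) : act (parM t) (1 * z) = 1 * shear t z := by
  unfold act parM shear
  apply Complex.ext
  · simp
  · simp

lemma act_parD {a s t : ℝ} (ht : t = s * (a ^ 2 + 1)) (z : ℂ) :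
    act (parD a s) ((‖(⟨a, -1⟩ : ℂ)‖ * (⟨a, -1⟩ : ℂ)⁻¹) * z) =
      (‖(⟨a, -1⟩ : ℂ)‖ * (⟨a, -1⟩ : ℂ)⁻¹) * shear t z := by
  obtain ⟨n, hn⟩ : ∃ n : ℝ, n = a ^ 2 + 1 := ⟨_, rfl⟩
  have h0 : 0 < n := by rw [hn]; positivity
  have hinv : (⟨a, -1⟩ : ℂ)⁻¹ = (n : ℂ)⁻¹ * ⟨a, 1⟩ := by
    have h1 : (⟨a, -1⟩ : ℂ) * ⟨a, 1⟩ = (n : ℂ) := by
      apply Complex.ext
      · rw [hn]
        simp only [Complex.mul_re, Complex.ofReal_re]
        ring
      · simp [Complex.mul_im]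
    have h2 : (n : ℂ) ≠ 0 := by exact_mod_cast h0.ne'
    have h3 : (⟨a, -1⟩ : ℂ) ≠ 0 := by
      intro h
      rw [h, zero_mul] at h1
      exact h2 h1.symm
    rw [← h1, mul_inv]
    have h4 : (⟨a, 1⟩ : ℂ) ≠ 0 := by
      intro h
      rw [h, mul_zero] at h1
      exact h2 h1.symm
    field_simp
  rw [hinv]
  generalize ‖(⟨a, -1⟩ : ℂ)‖ = ρ
  have e : ∀ w : ℂ, (ρ : ℂ) * ((n : ℂ)⁻¹ * ⟨a, 1⟩) * w =
      ((ρ * n⁻¹ : ℝ) : ℂ) * (⟨a, 1⟩ * w) := by
    intro w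
    push_cast
    ring
  rw [e, e]
  generalize ρ * n⁻¹ = κ
  have p0 : (parD a s) 0 0 = 1 - s * a := rfl
  have p1 : (parD a s) 0 1 = s * a ^ 2 := rfl
  have p2 : (parD a s) 1 0 = -s := rfl
  have p3 : (parD a s) 1 1 = 1 + s * a := rfl
  unfold act shear
  rw [p0, p1, p2, p3]
  apply Complex.ext
  · simp [Complex.mul_re, Complex.mul_im]
    rw [ht]
    ring
  · simp [Complex.mul_re, Complex.mul_im]
    rw [ht]
    ring

variable {v : Fin 3 → ℂ} {SP : ℂ → Surf v} {SQ : ℤ → ℂ → Surf v}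

theorem ho_par0 [Finite (G v)] (H : HoCharts v SP SQ) : parM (6 + 4 * Real.sqrt 3) ∈ veech v := by
  have hd : dv ho_d0 = 1 := by
    unfold dv ho_d0 dq
    apply Complex.ext <;> simp
  obtain ⟨l, h, Ψ, D, ht⟩ := ho_dec H (by rw [hd]; exact one_ne_zero) ho_chk0
  apply Subgroup.subset_closure
  refine D.twist ht _ ?_
  intro z
  rw [hd]
  have h1 : ((‖(1 : ℂ)‖ : ℝ) : ℂ) * (1 : ℂ)⁻¹ = 1 := by simp
  have h2 : dq (6, 4) = 6 + 4 * Real.sqrt 3 := by unfold dq; norm_num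
  rw [h1, h2]
  exact act_parM _ z

theorem ho_par1 [Finite (G v)] (H : HoCharts v SP SQ) :
    parD (2 + Real.sqrt 3) ((1 + Real.sqrt 3) / 2) ∈ veech v := by
  have hd : dv ho_d1 = ⟨2 + Real.sqrt 3, -1⟩ := by
    unfold dv ho_d1 dq
    apply Complex.ext <;> simp
  obtain ⟨l, h, Ψ, D, ht⟩ := ho_dec H (by
    rw [hd]
    intro h0
    have := congrArg Complex.im h0
    simp at this) ho_chk1
  apply Subgroup.subset_closure
  refine D.twist ht _ ?_
  intro z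
  rw [hd]
  refine act_parD ?_ z
  have h3 := ho_r3
  unfold dq
  push_cast
  ring_nf
  have h4 : Real.sqrt 3 ^ 2 = 3 := by rw [sq]; exact h3
  have h5 : Real.sqrt 3 ^ 3 = 3 * Real.sqrt 3 := by rw [pow_succ, h4]
  rw [h4, h5]
  ring

theorem ho_par2 [Finite (G v)] (H : HoCharts v SP SQ) :
    parD (3 + 2 * Real.sqrt 3) (1 + Real.sqrt 3) ∈ veech v := by
  have hd : dv ho_d2 = ⟨3 + 2 * Real.sqrt 3, -1⟩ := by
    unfold dv ho_d2 dq
    apply Complex.ext <;> simp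
  obtain ⟨l, h, Ψ, D, ht⟩ := ho_dec H (by
    rw [hd]
    intro h0
    have := congrArg Complex.im h0
    simp at this) ho_chk2
  apply Subgroup.subset_closure
  refine D.twist ht _ ?_
  intro z
  rw [hd]
  refine act_parD ?_ z
  have h3 := ho_r3
  unfold dq
  push_cast
  ring_nf
  have h4 : Real.sqrt 3 ^ 2 = 3 := by rw [sq]; exact h3
  have h5 : Real.sqrt 3 ^ 3 = 3 * Real.sqrt 3 := by rw [pow_succ, h4]
  rw [h4, h5]
  ring

end Pool.Agent.OBT
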