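import Mathlib
import Pool.Agent.OBT.HoTw
import Pool.Agent.OBT.HoCharts
import Pool.Agent.OBT.ConvDisc
import Pool.Agent.OBT.ConvRot
import Pool.Agent.OBT.ZPer

/-!
# Hooper's triangle has the lattice property
-/

open scoped ComplexConjugate Topology MatrixGroups UpperHalfPlane Real
open MeasureTheory Filter

namespace Pool.Agent.OBT

private theorem HM_preCyl {v : Fin 3 → ℂ} {ι : Type} {l h : ι → ℝ} {Ψ : ι → ℂ → Surf v}
    (D : Decomp v 1 l h Ψ) (i : ι) : PreCyl v (l i) (h i) (Ψ i) where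
  w_pos := D.lpos i
  h_pos := D.hpos i
  li := by
    intro z h0 h1
    filter_upwards [D.flat i z h0 h1] with w hw h2 h3
    have := hw h2 h3
    rw [one_mul] at this
    exact this
  per := D.per i
  reg := fun z h1 h2 => (rg_iff_reg _).1 (D.reg i z h1 h2)
  bot := by
    obtain ⟨b, hb⟩ := D.bot i
    exact ⟨b, fun h => hb ((rg_iff_reg _).2 h)⟩
  top := by
    obtain ⟨a, ha⟩ := D.top i
    exact ⟨a, fun h => ha ((rg_iff_reg _).2 h)⟩

/-- the rotation by `π / 6` -/
theorem ho_rot : rotM (π / 6) ∈ veech (TN 12 1 4) := by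
  obtain ⟨h1, h2⟩ := RR_rot (N := 12) (q := 4) (by norm_num) (by norm_num) 1
  refine rotM_mem_veech h1 ?_
  rw [h2, ho_ee]
  unfold ho_u
  push_cast
  rw [one_mul]

/-- the Veech group is discrete -/
theorem ho_disc : DiscreteTopology (veech (TN 12 1 4)) := by
  have : Finite (G (TN 12 1 4)) := finite_G one_pos (by norm_num) (by norm_num)
  obtain ⟨P, Q, H⟩ := exists_hoCharts
  have hd : dv ho_d0 = 1 := by
    unfold dv ho_d0 dq
    apply Complex.ext <;> simp
  obtain ⟨l, h, Ψ, D, -⟩ := ho_dec H (by rw [hd]; exact one_ne_zero) ho_chk0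
  have h1 : ((‖dv ho_d0‖ : ℝ) : ℂ) * (dv ho_d0)⁻¹ = 1 := by rw [hd]; simp
  rw [h1] at D
  obtain ⟨n, -, hC⟩ := (HM_preCyl D ⟨0, by decide⟩).exists_cyl
  refine discrete_of_cyl hC ho_rot ?_
  have : (rotM (π / 6)) 1 0 = Real.sin (π / 6) := rfl
  rw [this, Real.sin_pi_div_six]
  norm_num

/-- **Hooper's triangle `(π / 12, π / 3, 7 π / 12)` has the lattice property.** -/
theorem hooper_lattice : LatticeTriangle (TN 12 1 4) := by
  have : Finite (G (TN 12 1 4)) := finite_G one_pos (by norm_num) (by norm_num)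
  obtain ⟨P, Q, H⟩ := exists_hoCharts
  exact ho_lattice _ ho_disc ho_rot (ho_par0 H) (ho_par1 H) (ho_par2 H)

end Pool.Agent.OBT
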