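import Mathlib
import Pool.Agent.OBT.Iso

/-!
# Galois conjugate triangles: the abstract setting
-/

open scoped ComplexConjugate Topology Real
open MeasureTheory Filter

namespace Pool.Agent.OBT

noncomputable section

variable {v v' : Fin 3 → ℂ}

open Classical in
/-- the action of `g` on the conjugate side -/
def gi (i : ℤ) (g : G v) (z : ℂ) : ℂ := if rot g then uu g ^ i * z else uu g ^ i * conj z

theorem gi_mul (i : ℤ) (g h : G v) (z : ℂ) : gi i (g * h) z = gi i g (gi i h z) := by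
  classical
  have hr := rot_mul_iff g h
  by_cases hg : rot g
  · have hu := uu_mul_of_rot h hg
    by_cases hh : rot h
    · have h1 : rot (g * h) := hr.mpr ⟨fun _ => hh, fun _ => hg⟩
      unfold gi
      rw [if_pos h1, if_pos hg, if_pos hh, hu, mul_zpow]
      ring
    · have h1 : ¬ rot (g * h) := fun h2 => hh ((hr.mp h2).mp hg)
      unfold gi
      rw [if_neg h1, if_pos hg, if_neg hh, hu, mul_zpow]
      ring
  · have hu := uu_mul_of_not_rot h hg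
    by_cases hh : rot h
    · have h1 : ¬ rot (g * h) := fun h2 => hg ((hr.mp h2).mpr hh)
      unfold gi
      rw [if_neg h1, if_neg hg, if_pos hh, hu, mul_zpow, map_mul, map_zpow₀]
      ring
    · have h1 : rot (g * h) := hr.mpr ⟨fun h2 => absurd h2 hg, fun h2 => absurd h2 hh⟩
      unfold gi
      rw [if_pos h1, if_neg hg, if_neg hh, hu, mul_zpow, map_mul, map_zpow₀, Complex.conj_conj]
      ring

theorem gi_sub (i : ℤ) (g : G v) (z w : ℂ) : gi i g (z - w) = gi i g z - gi i g w := by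
  classical
  unfold gi
  by_cases hg : rot g
  · rw [if_pos hg, if_pos hg, if_pos hg, mul_sub]
  · rw [if_neg hg, if_neg hg, if_neg hg, map_sub, mul_sub]

theorem norm_gi (i : ℤ) (g : G v) (z : ℂ) : ‖gi i g z‖ = ‖z‖ := by
  classical
  unfold gi
  by_cases hg : rot g
  · rw [if_pos hg, norm_mul, norm_zpow, norm_uu, one_zpow, one_mul]
  · rw [if_neg hg, norm_mul, norm_zpow, norm_uu, one_zpow, one_mul, RCLike.norm_conj]

theorem Gal0_gi_one (i : ℤ) (z : ℂ) : gi i (1 : G v) z = z := by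
  classical
  have h1 : uu (1 : G v) = 1 := rfl
  unfold gi
  rw [if_pos rot_one, h1, one_zpow, one_mul]

theorem Gal0_gi_real (i : ℤ) (g : G v) (t : ℝ) (z : ℂ) :
    gi i g ((t : ℂ) * z) = (t : ℂ) * gi i g z := by
  classical
  unfold gi
  by_cases hg : rot g
  · rw [if_pos hg, if_pos hg]
    ring
  · rw [if_neg hg, if_neg hg, map_mul, Complex.conj_ofReal]
    ring

/-- `σ : K → ℂ` is a ring homomorphism commuting with complex conjugation, mapping the vertices of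
`v` to those of `v'` and the rotations `u(g)` to `u(g)^i`; `Z` maps the triangle `v` to the triangle
`v'`, side to side. -/
structure Conj (v v' : Fin 3 → ℂ) (i : ℤ) (K : Subfield ℂ) (σ : K →+* ℂ) (Z : ℂ → ℂ) : Prop where
  ne : ∀ k : Fin 3, v (k + 1) ≠ v (k + 2)
  zero : v 0 = 0
  one : v 1 = 1
  mem : ∀ k, v k ∈ K
  map : ∀ k (h : v k ∈ K), σ ⟨v k, h⟩ = v' k
  conj_mem : ∀ x ∈ K, conj x ∈ K
  conj_map : ∀ (x : ℂ) (h : x ∈ K) (h' : conj x ∈ K), σ ⟨conj x, h'⟩ = conj (σ ⟨x, h⟩)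
  uu_mem : ∀ g : G v, uu g ∈ K
  uu_map : ∀ (g : G v) (h : uu g ∈ K), σ ⟨uu g, h⟩ = uu g ^ i
  cont : ContinuousOn Z (body v)
  vert : ∀ k, Z (v k) = v' k
  edge : ∀ k, ∀ y ∈ Pool.Agent.OBT.edge v k, Z y ∈ Pool.Agent.OBT.edge v' k
  nonreal : chi v 1 ≠ conj (chi v 1)
  nontriv : chi v 0 ≠ 1

variable {i : ℤ} {K : Subfield ℂ} {σ : K →+* ℂ} {Z : ℂ → ℂ}

/-- `σ (g x) = g_i σ(x)` -/
theorem Conj.map_apply (S : Conj v v' i K σ Z) (g : G v) (x : K) :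
    ∃ h : (g : ℂ ≃ₗᵢ[ℝ] ℂ) (x : ℂ) ∈ K, σ ⟨(g : ℂ ≃ₗᵢ[ℝ] ℂ) (x : ℂ), h⟩ = gi i g (σ x) := by
  classical
  by_cases hg : rot g
  · have h1 := apply_of_rot hg (x : ℂ)
    have h2 : (g : ℂ ≃ₗᵢ[ℝ] ℂ) (x : ℂ) ∈ K := by
      rw [h1]
      exact K.mul_mem (S.uu_mem g) x.2
    refine ⟨h2, ?_⟩
    have h3 : (⟨(g : ℂ ≃ₗᵢ[ℝ] ℂ) (x : ℂ), h2⟩ : K) = ⟨uu g, S.uu_mem g⟩ * x := by
      apply Subtype.ext
      exact h1
    rw [h3, map_mul, S.uu_map]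
    unfold gi
    rw [if_pos hg]
  · have h1 := apply_of_not_rot hg (x : ℂ)
    have h2 : (g : ℂ ≃ₗᵢ[ℝ] ℂ) (x : ℂ) ∈ K := by
      rw [h1]
      exact K.mul_mem (S.uu_mem g) (S.conj_mem x x.2)
    refine ⟨h2, ?_⟩
    have h3 : (⟨(g : ℂ ≃ₗᵢ[ℝ] ℂ) (x : ℂ), h2⟩ : K) =
        ⟨uu g, S.uu_mem g⟩ * ⟨conj (x : ℂ), S.conj_mem x x.2⟩ := by
      apply Subtype.ext
      exact h1
    rw [h3, map_mul, S.uu_map, S.conj_map (x : ℂ) x.2]
    unfold gi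
    rw [if_neg hg]

theorem Gal0_mul_apply (g h : G v) (z : ℂ) :
    ((g * h : G v) : ℂ ≃ₗᵢ[ℝ] ℂ) z = (g : ℂ ≃ₗᵢ[ℝ] ℂ) ((h : ℂ ≃ₗᵢ[ℝ] ℂ) z) := rfl

theorem Gal0_one_apply (z : ℂ) : ((1 : G v) : ℂ ≃ₗᵢ[ℝ] ℂ) z = z := rfl

/-- the case of one reflection -/
theorem Gal0_refl (S : Conj v v' i K σ Z) (y : body v) (k : Fin 3) (hy : (y : ℂ) ∈ edge v k) :
    ∃ x : K, (x : ℂ) = y - (r v k : ℂ ≃ₗᵢ[ℝ] ℂ) (y : ℂ) ∧ σ x = Z y - gi i (r v k) (Z y) := by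
  obtain ⟨h1, h2⟩ := S.map_apply (r v k) ⟨v (k + 1), S.mem (k + 1)⟩
  have hP : v (k + 1) ∈ edge v k := left_mem_segment ℝ _ _
  have hQ : v (k + 2) ∈ edge v k := right_mem_segment ℝ _ _
  have hr : ∀ z : ℂ, (r v k : ℂ ≃ₗᵢ[ℝ] ℂ) z = refl v k z := fun z => rfl
  refine ⟨⟨v (k + 1), S.mem (k + 1)⟩ - ⟨_, h1⟩, ?_, ?_⟩
  · have h3 := refl_sub_of_mem_edge hP hy
    rw [map_sub] at h3
    show v (k + 1) - (r v k : ℂ ≃ₗᵢ[ℝ] ℂ) (v (k + 1)) = y - (r v k : ℂ ≃ₗᵢ[ℝ] ℂ) (y : ℂ)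
    rw [hr, hr]
    linear_combination h3
  · rw [map_sub, h2, S.map]
    obtain ⟨a, b, _, _, hab, hZ⟩ := S.edge k y hy
    -- the direction of the side is fixed
    have hfix : gi i (r v k) (v' (k + 2) - v' (k + 1)) = v' (k + 2) - v' (k + 1) := by
      obtain ⟨P, hP'⟩ : ∃ P : K, P = ⟨v (k + 1), S.mem (k + 1)⟩ := ⟨_, rfl⟩
      obtain ⟨Q, hQ'⟩ : ∃ Q : K, Q = ⟨v (k + 2), S.mem (k + 2)⟩ := ⟨_, rfl⟩
      have hPc : (P : ℂ) = v (k + 1) := by rw [hP']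
      have hQc : (Q : ℂ) = v (k + 2) := by rw [hQ']
      have hσP : σ P = v' (k + 1) := by rw [hP', S.map]
      have hσQ : σ Q = v' (k + 2) := by rw [hQ', S.map]
      obtain ⟨h4, h5⟩ := S.map_apply (r v k) (Q - P)
      have hsub : ((Q - P : K) : ℂ) = v (k + 2) - v (k + 1) := by
        rw [← hPc, ← hQc]
        rfl
      have h6 := refl_sub_of_mem_edge hP hQ
      have h7 : (⟨(r v k : ℂ ≃ₗᵢ[ℝ] ℂ) ((Q - P : K) : ℂ), h4⟩ : K) = Q - P := by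
        apply Subtype.ext
        show (r v k : ℂ ≃ₗᵢ[ℝ] ℂ) ((Q - P : K) : ℂ) = ((Q - P : K) : ℂ)
        rw [hsub, hr]
        exact h6
      rw [h7, map_sub, hσP, hσQ] at h5
      exact h5.symm
    have hZ' : Z y - v' (k + 1) = (b : ℂ) * (v' (k + 2) - v' (k + 1)) := by
      rw [← hZ, Complex.real_smul, Complex.real_smul]
      have hab' : (a : ℂ) = 1 - b := by
        have : a = 1 - b := by linarith
        rw [this]
        push_cast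
        ring
      rw [hab']
      ring
    have h8 : gi i (r v k) (Z y - v' (k + 1)) = Z y - v' (k + 1) := by
      rw [hZ', Gal0_gi_real, hfix]
    rw [gi_sub] at h8
    linear_combination h8

/-- Lemma 4.1 -/
theorem Conj.fix_diff (S : Conj v v' i K σ Z) (y : body v) (h : G v) (hh : h ∈ Hx v (y : ℂ)) :
    ∃ x : K, (x : ℂ) = y - (h : ℂ ≃ₗᵢ[ℝ] ℂ) (y : ℂ) ∧ σ x = Z y - gi i h (Z y) := by
  unfold Hx at hh
  induction hh using Subgroup.closure_induction with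
  | mem h hh =>
    obtain ⟨k, hk, rfl⟩ := hh
    exact Gal0_refl S y k hk
  | one =>
    refine ⟨0, ?_, ?_⟩
    · rw [Gal0_one_apply, sub_self]
      rfl
    · rw [Gal0_gi_one, sub_self, map_zero]
  | mul g h _ _ hg hh =>
    obtain ⟨x, hx1, hx2⟩ := hg
    obtain ⟨x', hx'1, hx'2⟩ := hh
    obtain ⟨h1, h2⟩ := S.map_apply g x'
    refine ⟨x + ⟨_, h1⟩, ?_, ?_⟩
    · show (x : ℂ) + (g : ℂ ≃ₗᵢ[ℝ] ℂ) (x' : ℂ) = _
      rw [hx'1, hx1, map_sub, Gal0_mul_apply]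
      ring
    · rw [map_add, h2, hx2, hx'2, gi_mul, gi_sub]
      ring
  | inv h _ hh =>
    obtain ⟨x, hx1, hx2⟩ := hh
    obtain ⟨h1, h2⟩ := S.map_apply h⁻¹ x
    have h3 : (h⁻¹ : G v) * h = 1 := inv_mul_cancel h
    refine ⟨-⟨_, h1⟩, ?_, ?_⟩
    · show -(((h⁻¹ : G v) : ℂ ≃ₗᵢ[ℝ] ℂ) (x : ℂ)) = _
      rw [hx1, map_sub, ← Gal0_mul_apply, h3, Gal0_one_apply]
      ring
    · rw [map_neg, h2, hx2, gi_sub, ← gi_mul, h3, Gal0_gi_one]
      ring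

end

end Pool.Agent.OBT
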