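import Mathlib
import Pool.Agent.OBT.MM

/-!
# The conformal map between two triangles
-/

open scoped ComplexConjugate Topology Real
open MeasureTheory Filter

namespace Pool.Agent.OBT

noncomputable section

open Classical in
/-- the conformal map from the triangle `tri a b` to the triangle `tri a' b'` -/
def ZZ (a b a' b' : ℝ) (y : ℂ) : ℂ := if y = tau a b then tau a' b' else SC a' b' (XX a b y)

variable {a b a' b' : ℝ}

theorem ZZ_tau : ZZ a b a' b' (tau a b) = tau a' b' := by
  simp [ZZ]

theorem ZZ_of_ne {y : ℂ} (hy : y ≠ tau a b) : ZZ a b a' b' y = SC a' b' (XX a b y) := by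
  simp [ZZ, hy]

theorem ZZ_zero_mem : (0 : ℂ) ∈ Hb := by
  simp [Hb]

theorem ZZ_one_mem : (1 : ℂ) ∈ Hb := by
  simp [Hb]

theorem ZZ_XX_zero (ha : 0 < a) (hb : 0 < b) (hab : a + b < 1) : XX a b 0 = 0 := by
  have h := XX_SC ha hb hab ZZ_zero_mem
  rwa [SC_zero] at h

theorem ZZ_XX_one (ha : 0 < a) (hb : 0 < b) (hab : a + b < 1) : XX a b 1 = 1 := by
  have h := XX_SC ha hb hab ZZ_one_mem
  rwa [SC_one ha hb] at h

theorem ZZ_zero_ne (ha : 0 < a) (hb : 0 < b) (hab : a + b < 1) : (0 : ℂ) ≠ tau a b := by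
  intro h
  have := tau_im_pos ha hb hab
  rw [← h] at this
  simp at this

theorem ZZ_one_ne (ha : 0 < a) (hb : 0 < b) (hab : a + b < 1) : (1 : ℂ) ≠ tau a b := by
  intro h
  have := tau_im_pos ha hb hab
  rw [← h] at this
  simp at this

theorem ZZ_range (a b : ℝ) : Set.range (tri a b) = {0, 1, tau a b} := by
  ext z
  simp only [Set.mem_range, Set.mem_insert_iff, Set.mem_singleton_iff]
  constructor
  · rintro ⟨k, rfl⟩
    fin_cases k <;> simp [tri]
  · rintro (h | h | h)
    · exact ⟨0, by simp [tri, h]⟩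
    · exact ⟨1, by simp [tri, h]⟩
    · exact ⟨2, by simp [tri, h]⟩

theorem ZZ_at_zero (ha : 0 < a) (hb : 0 < b) (hab : a + b < 1) : ZZ a b a' b' 0 = 0 := by
  rw [ZZ_of_ne (ZZ_zero_ne ha hb hab), ZZ_XX_zero ha hb hab, SC_zero]

theorem ZZ_at_one (ha : 0 < a) (hb : 0 < b) (hab : a + b < 1) (ha' : 0 < a') (hb' : 0 < b') :
    ZZ a b a' b' 1 = 1 := by
  rw [ZZ_of_ne (ZZ_one_ne ha hb hab), ZZ_XX_one ha hb hab, SC_one ha' hb']

theorem ZZ_interior_ne (ha : 0 < a) (hb : 0 < b) (hab : a + b < 1) {y : ℂ}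
    (hy : y ∈ interior (body (tri a b))) : y ∉ VV a b := by
  intro h
  rw [VV, ZZ_range] at h
  rcases h with h | h | h
  · have := XX_im_pos ha hb hab hy
    rw [h, ZZ_XX_zero ha hb hab] at this
    simp at this
  · have := XX_im_pos ha hb hab hy
    rw [h, ZZ_XX_one ha hb hab] at this
    simp at this
  · obtain ⟨x, hx, hxy⟩ := (bijOn_SC_interior ha hb hab).surjOn hy
    have hx' : 0 < x.im := hx
    exact SC_ne_tau ha hb hab (x := x) (le_of_lt hx') (hxy.trans h)

theorem continuousOn_ZZ (ha : 0 < a) (hb : 0 < b) (hab : a + b < 1)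
    (ha' : 0 < a') (hb' : 0 < b') (hab' : a' + b' < 1) :
    ContinuousOn (ZZ a b a' b') (body (tri a b)) := by
  intro y hy
  by_cases hyt : y = tau a b
  · subst hyt
    rw [← continuousWithinAt_sdiff_self]
    have h1 : 𝓝[body (tri a b) \ {tau a b}] (tau a b) =
        𝓝[body (tri a b) \ Set.range (tri a b)] (tau a b) := by
      apply nhdsWithin_eq_nhdsWithin (s := ({0, 1} : Set ℂ)ᶜ)
      · simp only [Set.mem_compl_iff, Set.mem_insert_iff, Set.mem_singleton_iff, not_or]
        exact ⟨(ZZ_zero_ne ha hb hab).symm, (ZZ_one_ne ha hb hab).symm⟩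
      · exact (Set.Finite.isClosed (by simp)).isOpen_compl
      · rw [ZZ_range]
        ext z
        simp only [Set.mem_inter_iff, Set.mem_sdiff, Set.mem_compl_iff, Set.mem_insert_iff,
          Set.mem_singleton_iff]
        tauto
    have h2 : Tendsto (fun y => SC a' b' (XX a b y)) (𝓝[body (tri a b) \ {tau a b}] (tau a b))
        (𝓝 (tau a' b')) := by
      rw [h1]
      exact (SC_lim ha' hb' hab').comp (tendsto_XX_tau ha hb hab)
    unfold ContinuousWithinAt
    rw [ZZ_tau]
    refine h2.congr' ?_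
    filter_upwards [self_mem_nhdsWithin] with z hz
    exact (ZZ_of_ne hz.2).symm
  · have h1 : ContinuousOn (fun y => SC a' b' (XX a b y)) (body (tri a b) \ {tau a b}) :=
      (continuousOn_SC ha' hb').comp (continuousOn_XX ha hb hab)
        (fun y hy => (XX_mem ha hb hab hy).1)
    have h2 : ContinuousWithinAt (fun y => SC a' b' (XX a b y)) (body (tri a b)) y := by
      have h3 := h1 y ⟨hy, hyt⟩
      have h4 : ({tau a b}ᶜ : Set ℂ) ∈ 𝓝 y := isOpen_compl_singleton.mem_nhds hyt
      rw [Set.sdiff_eq] at h3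
      exact (continuousWithinAt_inter h4).1 h3
    refine h2.congr_of_eventuallyEq ?_ (ZZ_of_ne hyt)
    have h4 : ({tau a b}ᶜ : Set ℂ) ∈ 𝓝 y := isOpen_compl_singleton.mem_nhds hyt
    filter_upwards [mem_nhdsWithin_of_mem_nhds h4] with z hz
    exact ZZ_of_ne hz

theorem ZZ_vert (ha : 0 < a) (hb : 0 < b) (hab : a + b < 1)
    (ha' : 0 < a') (hb' : 0 < b') (hab' : a' + b' < 1) (k : Fin 3) :
    ZZ a b a' b' (tri a b k) = tri a' b' k := by
  fin_cases k
  · simpa [tri] using ZZ_at_zero (a' := a') (b' := b') ha hb hab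
  · simpa [tri] using ZZ_at_one (a' := a') (b' := b') ha hb hab ha' hb'
  · simpa [tri] using ZZ_tau (a := a) (b := b) (a' := a') (b' := b')

theorem ZZ_edge0 (a b : ℝ) : edge (tri a b) 0 = segment ℝ 1 (tau a b) := by
  simp [edge, tri]

theorem ZZ_edge1 (a b : ℝ) : edge (tri a b) 1 = segment ℝ (tau a b) 0 := by
  have h1 : (1 : Fin 3) + 1 = 2 := rfl
  have h2 : (1 : Fin 3) + 2 = 0 := rfl
  simp [edge, tri, h1, h2]

theorem ZZ_edge2 (a b : ℝ) : edge (tri a b) 2 = segment ℝ 0 1 := by
  have h1 : (2 : Fin 3) + 1 = 0 := rfl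
  have h2 : (2 : Fin 3) + 2 = 1 := rfl
  simp [edge, tri, h1, h2]

theorem ZZ_edge (ha : 0 < a) (hb : 0 < b) (hab : a + b < 1)
    (ha' : 0 < a') (hb' : 0 < b') (hab' : a' + b' < 1) (k : Fin 3) {y : ℂ}
    (hy : y ∈ edge (tri a b) k) : ZZ a b a' b' y ∈ edge (tri a' b') k := by
  have htau := tau_im_pos ha hb hab
  by_cases hV : y ∈ Set.range (tri a b)
  · rw [ZZ_range] at hV
    fin_cases k
    · change y ∈ edge (tri a b) 0 at hy
      change _ ∈ edge (tri a' b') 0
      rw [ZZ_edge0] at hy ⊢
      rcases hV with h | h | h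
      · exfalso
        subst h
        obtain ⟨u, v, hu, hv, huv, h⟩ := hy
        have him := congrArg Complex.im h
        have hre := congrArg Complex.re h
        simp at him hre
        rcases him with him | him
        · rw [him] at hre huv
          simp at hre
          linarith
        · linarith
      · rw [h, ZZ_at_one ha hb hab ha' hb']
        exact left_mem_segment _ _ _
      · rw [h, ZZ_tau]
        exact right_mem_segment _ _ _
    · change y ∈ edge (tri a b) 1 at hy
      change _ ∈ edge (tri a' b') 1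
      rw [ZZ_edge1] at hy ⊢
      rcases hV with h | h | h
      · rw [h, ZZ_at_zero ha hb hab]
        exact right_mem_segment _ _ _
      · exfalso
        subst h
        obtain ⟨u, v, hu, hv, huv, h⟩ := hy
        have him := congrArg Complex.im h
        have hre := congrArg Complex.re h
        simp at him hre
        rcases him with him | him
        · rw [him] at hre
          simp at hre
        · linarith
      · rw [h, ZZ_tau]
        exact left_mem_segment _ _ _
    · change y ∈ edge (tri a b) 2 at hy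
      change _ ∈ edge (tri a' b') 2
      rw [ZZ_edge2] at hy ⊢
      rcases hV with h | h | h
      · rw [h, ZZ_at_zero ha hb hab]
        exact left_mem_segment _ _ _
      · rw [h, ZZ_at_one ha hb hab ha' hb']
        exact right_mem_segment _ _ _
      · exfalso
        obtain ⟨u, v, hu, hv, huv, h'⟩ := hy
        have him := congrArg Complex.im h'
        simp at him
        rw [h] at him
        linarith
  · have hyt : y ≠ tau a b := by
      intro h
      apply hV
      rw [ZZ_range]
      simp [h]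
    rw [ZZ_of_ne hyt]
    fin_cases k
    · change y ∈ edge (tri a b) 0 at hy
      change _ ∈ edge (tri a' b') 0
      obtain ⟨t, ht, hX⟩ := XX_edge0 ha hb hab ⟨hy, hV⟩
      obtain ⟨s, hs, hs1, hS⟩ := SC_gt ha' hb' hab' ht
      rw [hX, hS, ZZ_edge0]
      refine ⟨1 - s, s, by linarith, by linarith, by ring, ?_⟩
      simp only [Complex.real_smul]
      push_cast
      ring
    · change y ∈ edge (tri a b) 1 at hy
      change _ ∈ edge (tri a' b') 1
      obtain ⟨t, ht, hX⟩ := XX_edge1 ha hb hab ⟨hy, hV⟩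
      obtain ⟨s, hs, hs1, hS⟩ := SC_neg ha' hb' hab' ht
      rw [hX, hS, ZZ_edge1]
      refine ⟨s, 1 - s, by linarith, by linarith, by ring, ?_⟩
      simp only [Complex.real_smul]
      push_cast
      ring
    · change y ∈ edge (tri a b) 2 at hy
      change _ ∈ edge (tri a' b') 2
      obtain ⟨t, ht, ht1, hX⟩ := XX_edge2 ha hb hab ⟨hy, hV⟩
      obtain ⟨s, hs, hs1, hS⟩ := SC_mid ha' hb' ht ht1
      rw [hX, hS, ZZ_edge2]
      refine ⟨1 - s, s, by linarith, by linarith, by ring, ?_⟩
      simp only [Complex.real_smul]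
      push_cast
      ring

theorem ZZ_hasDerivAt (ha : 0 < a) (hb : 0 < b) (hab : a + b < 1)
    (ha' : 0 < a') (hb' : 0 < b') {y : ℂ} (hy : y ∈ interior (body (tri a b))) :
    HasDerivAt (ZZ a b a' b') (bet a b / bet a' b' * MM a b (a' - a) (b' - b) y) y := by
  have hV := ZZ_interior_ne ha hb hab hy
  have him := XX_im_pos ha hb hab hy
  have hne := XX_ne ha hb hab (y := y) ⟨interior_subset hy, hV⟩
  have h1 := hasDerivAt_XX ha hb hab hy
  have h2 := hasDerivAt_SC ha' hb' him
  have h3 : HasDerivAt (fun y => SC a' b' (XX a b y))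
      (mm (a' - 1) (b' - 1) (XX a b y) / bet a' b' * (bet a b * mm (1 - a) (1 - b) (XX a b y)))
      y := h2.comp y h1
  have h4 : mm (a' - 1) (b' - 1) (XX a b y) / bet a' b' *
      (bet a b * mm (1 - a) (1 - b) (XX a b y)) =
      bet a b / bet a' b' * MM a b (a' - a) (b' - b) y := by
    have h5 := mm_mul (a' - 1) (b' - 1) (1 - a) (1 - b) hne.1 hne.2
    rw [show a' - 1 + (1 - a) = a' - a by ring, show b' - 1 + (1 - b) = b' - b by ring] at h5
    unfold MM
    rw [← h5]
    ring
  rw [h4] at h3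
  refine h3.congr_of_eventuallyEq ?_
  filter_upwards [isOpen_interior.mem_nhds hy] with z hz
  apply ZZ_of_ne
  intro h
  apply ZZ_interior_ne ha hb hab hz
  rw [VV, ZZ_range]
  simp [h]

theorem ZZ_hasFDerivAt (ha : 0 < a) (hb : 0 < b) (hab : a + b < 1)
    (ha' : 0 < a') (hb' : 0 < b') {y : ℂ} (hy : y ∈ interior (body (tri a b))) :
    HasFDerivAt (ZZ a b a' b')
      (DD (bet a b / bet a' b' * MM a b (a' - a) (b' - b) y) 0) y := by
  have h1 := (ZZ_hasDerivAt ha hb hab ha' hb' hy).hasFDerivAt.restrictScalars ℝ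
  have h2 : DD (bet a b / bet a' b' * MM a b (a' - a) (b' - b) y) 0 =
      ContinuousLinearMap.restrictScalars ℝ (ContinuousLinearMap.toSpanSingleton ℂ
        (bet a b / bet a' b' * MM a b (a' - a) (b' - b) y)) := by
    apply ContinuousLinearMap.ext
    intro h
    simp [mul_comm]
  rw [h2]
  exact h1

theorem ZZ_continuous_DD : Continuous (fun p : ℂ => DD p 0) := by
  unfold DD
  fun_prop

theorem hasFDerivWithinAt_ZZ (ha : 0 < a) (hb : 0 < b) (hab : a + b < 1)
    (ha' : 0 < a') (hb' : 0 < b') (hab' : a' + b' < 1) {y : ℂ}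
    (hy : y ∈ body (tri a b) \ VV a b) :
    HasFDerivWithinAt (ZZ a b a' b')
      (DD (bet a b / bet a' b' * MM a b (a' - a) (b' - b) y) 0) (body (tri a b)) y := by
  have hne : (interior (body (tri a b))).Nonempty := by
    refine ⟨SC a b Complex.I, (bijOn_SC_interior ha hb hab).mapsTo ?_⟩
    simp
  have hcl : closure (interior (body (tri a b))) = body (tri a b) := by
    rw [convex_body.closure_interior_eq_closure_of_nonempty_interior hne,
      isCompact_body.isClosed.closure_eq]
  have hmain := hasFDerivWithinAt_closure_of_tendsto_fderiv (f := ZZ a b a' b')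
    (s := interior (body (tri a b))) (x := y)
    (f' := DD (bet a b / bet a' b' * MM a b (a' - a) (b' - b) y) 0)
    (fun z hz => (ZZ_hasFDerivAt ha hb hab ha' hb' hz).differentiableAt.differentiableWithinAt)
    convex_body.interior isOpen_interior
    (fun z hz => by
      rw [hcl] at hz
      exact (continuousOn_ZZ ha hb hab ha' hb' hab' z hz).mono interior_subset) ?_
  · rwa [hcl] at hmain
  · have h1 : Tendsto (fun z => DD (bet a b / bet a' b' * MM a b (a' - a) (b' - b) z) 0)
        (𝓝[interior (body (tri a b))] y)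
        (𝓝 (DD (bet a b / bet a' b' * MM a b (a' - a) (b' - b) y) 0)) := by
      refine (ZZ_continuous_DD.tendsto _).comp ?_
      refine Tendsto.const_mul _ ?_
      have h2 := continuousOn_MM ha hb hab (a' - a) (b' - b) y hy
      exact h2.mono (fun z hz => ⟨interior_subset hz, ZZ_interior_ne ha hb hab hz⟩)
    refine h1.congr' ?_
    filter_upwards [self_mem_nhdsWithin] with z hz
    exact (ZZ_hasFDerivAt ha hb hab ha' hb' hz).fderiv.symm

end

end Pool.Agent.OBT
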