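import Mathlib
import Pool.Agent.OBT.Form1
import Pool.Agent.OBT.ZZ
import Pool.Agent.OBT.Gal0

/-!
# The Galois conjugate of a rational triangle
-/

open scoped ComplexConjugate Topology Real
open MeasureTheory Filter

namespace Pool.Agent.OBT

variable {N p q : ℕ}

theorem Form2_one_sub_exp (t : ℝ) : 1 - Complex.exp (-(2 * π * t) * Complex.I) =
    2 * Complex.I * ((Real.sin (π * t) : ℝ) : ℂ) * Complex.exp (-(π * t) * Complex.I) := by
  have h1 : ((Real.sin (π * t) : ℝ) : ℂ) = Complex.sin (π * t) := by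
    rw [Complex.ofReal_sin]; push_cast; ring_nf
  have h2 : Complex.exp (-(2 * π * t) * Complex.I) =
      Complex.exp (-(π * t) * Complex.I) * Complex.exp (-(π * t) * Complex.I) := by
    rw [← Complex.exp_add]; congr 1; ring
  have h3 : Complex.exp (-(π * t) * Complex.I) * Complex.exp ((π * t) * Complex.I) = 1 := by
    rw [← Complex.exp_add]
    rw [show -(↑π * (t : ℂ)) * Complex.I + (↑π * t) * Complex.I = 0 by ring, Complex.exp_zero]
  rw [h1, h2, Complex.sin]
  have hI : Complex.I * Complex.I = -1 := Complex.I_mul_I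
  linear_combination (-1) * h3 + (Complex.exp (-(π * t) * Complex.I) *
    Complex.exp ((π * t) * Complex.I) - Complex.exp (-(π * t) * Complex.I) *
    Complex.exp (-(π * t) * Complex.I)) * hI

/-- the apex in terms of roots of unity -/
theorem tau_eq (a b : ℝ) (h : Complex.exp (-(2 * π * (a + b)) * Complex.I) ≠ 1) :
    tau a b = (1 - Complex.exp (-(2 * π * b) * Complex.I)) /
      (1 - Complex.exp (-(2 * π * (a + b)) * Complex.I)) := by
  have h1 := Form2_one_sub_exp b
  have h2 := Form2_one_sub_exp (a + b)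
  push_cast at h2
  have h0 : 1 - Complex.exp (-(2 * π * (a + b)) * Complex.I) ≠ 0 := by
    intro h0; exact h (sub_eq_zero.mp h0).symm
  have hs : Complex.sin (π * (a + b)) ≠ 0 := by
    intro hs
    apply h0
    rw [h2, hs]; ring
  have he : Complex.exp (-(π * (a + b)) * Complex.I) ≠ 0 := Complex.exp_ne_zero _
  have hI : Complex.I ≠ 0 := Complex.I_ne_zero
  rw [h1, h2, tau]
  push_cast
  have h3 : Complex.exp (-(π * b) * Complex.I) =
      Complex.exp (π * a * Complex.I) * Complex.exp (-(π * (a + b)) * Complex.I) := by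
    rw [← Complex.exp_add]; congr 1; ring
  rw [h3]
  field_simp

theorem Form2_exp_pow (N k : ℕ) : Complex.exp (2 * π * Complex.I * k / N) =
    Complex.exp (2 * π * Complex.I / N) ^ k := by
  rw [← Complex.exp_nat_mul]; congr 1; ring

/-- the Galois automorphism `ζ ↦ ζ^i` on the field generated by `ζ = exp(2πi/N)` -/
theorem exists_galois (N : ℕ) (hN : 0 < N) (i : ℕ) (hi : Nat.Coprime i N) :
    ∃ (K : Subfield ℂ) (σ : K →+* ℂ),
      (∀ k : ℕ, ∃ h : Complex.exp (2 * π * Complex.I * k / N) ∈ K,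
        σ ⟨Complex.exp (2 * π * Complex.I * k / N), h⟩ =
          Complex.exp (2 * π * Complex.I * (i * k : ℕ) / N)) ∧
      (∀ x ∈ K, conj x ∈ K) ∧
      (∀ (x : ℂ) (h : x ∈ K) (h' : conj x ∈ K), σ ⟨conj x, h'⟩ = conj (σ ⟨x, h⟩)) := by
  set ζ : ℂ := Complex.exp (2 * π * Complex.I / N) with hζ
  have hprim : IsPrimitiveRoot ζ N := Complex.isPrimitiveRoot_exp N hN.ne'
  have hint : IsIntegral ℚ ζ := (hprim.isIntegral hN).tower_top
  have hnz : ζ ≠ 0 := Complex.exp_ne_zero _
  have hconjζ : conj ζ = ζ⁻¹ := by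
    rw [Complex.inv_def]
    have : Complex.normSq ζ = 1 := by
      rw [Complex.normSq_eq_norm_sq, hprim.norm'_eq_one hN.ne']; norm_num
    rw [this]; simp
  set K' : IntermediateField ℚ ℂ := IntermediateField.adjoin ℚ {ζ} with hK'
  have hroot : ζ ^ i ∈ (minpoly ℚ ζ).aroots ℂ := by
    rw [Polynomial.mem_aroots]
    refine ⟨minpoly.ne_zero hint, ?_⟩
    rw [← Polynomial.cyclotomic_eq_minpoly_rat hprim hN]
    have h1 := (hprim.pow_of_coprime i hi).isRoot_cyclotomic hN
    rw [Polynomial.IsRoot.def, ← Polynomial.map_cyclotomic N (algebraMap ℚ ℂ),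
      Polynomial.eval_map_algebraMap] at h1
    exact h1
  set τ : K' →ₐ[ℚ] ℂ :=
    (IntermediateField.algHomAdjoinIntegralEquiv ℚ hint).symm ⟨ζ ^ i, hroot⟩ with hτ
  have hmem : ζ ∈ K' := IntermediateField.subset_adjoin _ _ rfl
  have hgen : τ ⟨ζ, hmem⟩ = ζ ^ i :=
    IntermediateField.algHomAdjoinIntegralEquiv_symm_apply_gen ℚ hint ⟨ζ ^ i, hroot⟩
  have hconj : ∀ x ∈ K', conj x ∈ K' := by
    have hle : K' ≤ K'.comap (Complex.conjAe.toAlgHom.restrictScalars ℚ) := by
      rw [hK', IntermediateField.adjoin_le_iff]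
      rintro _ rfl
      change conj ζ ∈ K'
      rw [hconjζ]
      exact K'.inv_mem hmem
    intro x hx
    exact hle hx
  refine ⟨K'.toSubfield, (τ : K' →+* ℂ), ?_, hconj, ?_⟩
  · intro k
    have hk : Complex.exp (2 * π * Complex.I * k / N) ∈ K' := by
      rw [Form2_exp_pow]
      exact K'.toSubfield.pow_mem hmem k
    refine ⟨hk, ?_⟩
    have h1 : (⟨Complex.exp (2 * π * Complex.I * k / N), hk⟩ : K') = (⟨ζ, hmem⟩ : K') ^ k := by
      apply Subtype.ext
      rw [SubmonoidClass.mk_pow]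
      exact Form2_exp_pow N k
    change τ ⟨Complex.exp (2 * π * Complex.I * k / N), hk⟩ = _
    rw [h1, map_pow, hgen, Form2_exp_pow, pow_mul]
  · intro x h h'
    have h1 : ∀ y : K', τ ⟨conj (y : ℂ), hconj y y.2⟩ = conj (τ y) := by
      let c : K' →ₐ[ℚ] K' :=
        { toFun := fun y => ⟨conj (y : ℂ), hconj y y.2⟩
          map_one' := by ext; simp
          map_mul' := by intro a b; ext; simp
          map_zero' := by ext; simp
          map_add' := by intro a b; ext; simp
          commutes' := by intro a; ext; simp }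
      have h2 : τ.comp c = (Complex.conjAe.toAlgHom.restrictScalars ℚ).comp τ := by
        apply IntermediateField.adjoin_algHom_ext
        intro y hy
        obtain rfl : y = ζ := hy
        change τ ⟨conj ζ, _⟩ = conj (τ ⟨ζ, _⟩)
        rw [hgen]
        have h3 : (⟨conj ζ, hconj ζ hmem⟩ : K') = (⟨ζ, hmem⟩ : K')⁻¹ := by
          apply Subtype.ext
          exact hconjζ
        rw [h3, map_inv₀, hgen, map_pow, hconjζ, inv_pow]
      intro y
      exact congrArg (fun f : K' →ₐ[ℚ] ℂ => f y) h2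
    exact h1 ⟨x, h⟩


theorem Form2_exp_ag (N q i : ℕ) (hN : 0 < N) :
    Complex.exp (-(2 * π * (ag N q i : ℝ)) * Complex.I) =
      (Complex.exp (2 * π * Complex.I * (i * q : ℕ) / N))⁻¹ := by
  rw [← Complex.exp_neg]
  rw [Complex.exp_eq_exp_iff_exists_int]
  refine ⟨((i * q / N : ℕ) : ℤ), ?_⟩
  have hN' : (N : ℂ) ≠ 0 := by exact_mod_cast hN.ne'
  have hd : ((i * q : ℕ) : ℂ) = (N : ℂ) * ((i * q / N : ℕ) : ℂ) + ((i * q % N : ℕ) : ℂ) := by
    exact_mod_cast (Nat.div_add_mod (i * q) N).symm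
  rw [ag, hd]
  generalize i * q / N = d
  generalize i * q % N = m
  push_cast
  field_simp
  ring

theorem Form2_exp_q (N q : ℕ) :
    Complex.exp (-(2 * π * ((q : ℝ) / N : ℝ)) * Complex.I) =
      (Complex.exp (2 * π * Complex.I * q / N))⁻¹ := by
  rw [← Complex.exp_neg]
  congr 1
  push_cast
  ring

theorem Form2_exp_ne_one {t : ℝ} (h0 : 0 < t) (h1 : t < 1) :
    Complex.exp (-(2 * π * t) * Complex.I) ≠ 1 := by
  intro h
  have h2 := Form2_one_sub_exp t
  rw [h, sub_self] at h2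
  have h3 : Real.sin (π * t) ≠ 0 := by
    apply ne_of_gt
    apply Real.sin_pos_of_pos_of_lt_pi
    · positivity
    · nlinarith [Real.pi_pos]
  have h4 : (2 : ℂ) * Complex.I * ((Real.sin (π * t) : ℝ) : ℂ) *
      Complex.exp (-(π * t) * Complex.I) ≠ 0 := by
    apply mul_ne_zero (mul_ne_zero (mul_ne_zero two_ne_zero Complex.I_ne_zero) _)
      (Complex.exp_ne_zero _)
    exact_mod_cast h3
  exact h4 h2.symm

theorem exists_conj (hp : 0 < p) (hq : 0 < q) (hN : 2 * (p + q) < N) {i : ℕ}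
    (hi : Nat.Coprime i N) (hH : Hol N p q i) : ∃ (K : Subfield ℂ) (σ : K →+* ℂ),
    Conj (TN N p q) (tri (ag N p i) (ag N q i)) i K σ
      (ZZ ((p : ℝ) / N) ((q : ℝ) / N) (ag N p i) (ag N q i)) := by
  have hN0 : 0 < N := by omega
  have hNR : (0 : ℝ) < N := by exact_mod_cast hN0
  have ha : (0 : ℝ) < (p : ℝ) / N := by positivity
  have hb : (0 : ℝ) < (q : ℝ) / N := by positivity
  have hab : (p : ℝ) / N + (q : ℝ) / N < 1 := by
    rw [← add_div, div_lt_one hNR]
    exact_mod_cast (by omega : p + q < N)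
  have ha' : 0 < ag N p i := by
    rw [ag]; exact div_pos (by exact_mod_cast hH.1) hNR
  have hb' : 0 < ag N q i := by
    rw [ag]; exact div_pos (by exact_mod_cast hH.2.1) hNR
  have hab' : ag N p i + ag N q i < 1 := by
    rw [ag, ag, ← add_div, div_lt_one hNR]
    exact_mod_cast hH.2.2
  obtain ⟨K, σ, hσ, hc, hcm⟩ := exists_galois N hN0 i hi
  obtain ⟨hmp, hsp⟩ := hσ p
  obtain ⟨hmq, hsq⟩ := hσ q
  have hexp : ∀ s : ℝ, ∀ t : ℝ, Complex.exp (-(2 * π * (s + t)) * Complex.I) =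
      Complex.exp (-(2 * π * s) * Complex.I) * Complex.exp (-(2 * π * t) * Complex.I) := by
    intro s t
    rw [← Complex.exp_add]; congr 1; ring
  have hne1 : Complex.exp (-(2 * π * (((p : ℝ) / N : ℝ) + ((q : ℝ) / N : ℝ))) * Complex.I) ≠ 1 := by
    have := Form2_exp_ne_one (add_pos ha hb) hab
    push_cast at this ⊢
    exact this
  have hne2 : Complex.exp (-(2 * π * ((ag N p i : ℝ) + (ag N q i : ℝ))) * Complex.I) ≠ 1 := by
    have := Form2_exp_ne_one (add_pos ha' hb') hab'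
    push_cast at this ⊢
    exact this
  -- the apex as an element of `K`
  set P : K := ⟨Complex.exp (2 * π * Complex.I * p / N), hmp⟩ with hP
  set Q : K := ⟨Complex.exp (2 * π * Complex.I * q / N), hmq⟩ with hQ
  have htau : tau ((p : ℝ) / N) ((q : ℝ) / N) = (((1 - Q⁻¹) / (1 - P⁻¹ * Q⁻¹) : K) : ℂ) := by
    rw [tau_eq _ _ hne1, hexp, Form2_exp_q, Form2_exp_q]
    push_cast
    rfl
  have htau' : σ ((1 - Q⁻¹) / (1 - P⁻¹ * Q⁻¹)) = tau (ag N p i) (ag N q i) := by
    rw [tau_eq _ _ hne2, hexp, Form2_exp_ag _ _ _ hN0, Form2_exp_ag _ _ _ hN0]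
    simp only [map_div₀, map_sub, map_one, map_mul, map_inv₀]
    rw [hP, hQ, hsp, hsq]
  have hmem : ∀ k, TN N p q k ∈ K := by
    intro k
    fin_cases k
    · exact K.zero_mem
    · exact K.one_mem
    · change tau ((p : ℝ) / N) ((q : ℝ) / N) ∈ K
      rw [htau]
      exact Subtype.property _
  refine ⟨K, σ, ⟨tri_ne ha hb hab, rfl, rfl, hmem, ?_, hc, hcm, ?_, ?_,
    continuousOn_ZZ ha hb hab ha' hb' hab', ZZ_vert ha hb hab ha' hb' hab', ?_, ?_, ?_⟩⟩
  · intro k h
    fin_cases k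
    · exact map_zero σ
    · exact map_one σ
    · have h1 : (⟨TN N p q ((fun i => i) ⟨2, by norm_num⟩), h⟩ : K) =
          (1 - Q⁻¹) / (1 - P⁻¹ * Q⁻¹) := by
        apply Subtype.ext
        exact htau
      change σ ⟨TN N p q ((fun i => i) ⟨2, by norm_num⟩), h⟩ = _
      rw [h1, htau']
      rfl
  · intro g
    obtain ⟨k, hk⟩ := exists_uu hp hq (by omega) g
    rw [hk]
    exact (hσ k).1
  · intro g h
    obtain ⟨k, hk⟩ := exists_uu hp hq (by omega) g
    obtain ⟨hk1, hk2⟩ := hσ k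
    have h1 : (⟨uu g, h⟩ : K) = ⟨Complex.exp (2 * π * Complex.I * k / N), hk1⟩ :=
      Subtype.ext hk
    rw [h1, hk2, hk, Form2_exp_pow, Form2_exp_pow, zpow_natCast, ← pow_mul, Nat.mul_comm i k]
  · intro k y hy
    exact ZZ_edge ha hb hab ha' hb' hab' k hy
  · change chi (tri _ _) 1 ≠ conj (chi (tri _ _) 1)
    rw [chi_tri_one ha hb hab]
    intro h
    have h1 := congrArg Complex.im h
    rw [Complex.conj_im] at h1
    have h2 : (Complex.exp (2 * π * (((p : ℝ) / N : ℝ) : ℂ) * Complex.I)).im =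
        Real.sin (2 * π * ((p : ℝ) / N)) := by
      have : (2 * π * (((p : ℝ) / N : ℝ) : ℂ) * Complex.I) =
          ((2 * π * ((p : ℝ) / N) : ℝ) : ℂ) * Complex.I := by push_cast; ring
      rw [this, Complex.exp_ofReal_mul_I_im]
    rw [h2] at h1
    have h3 : 0 < Real.sin (2 * π * ((p : ℝ) / N)) := by
      apply Real.sin_pos_of_pos_of_lt_pi
      · have := Real.pi_pos
        positivity
      · have h4 : 2 * ((p : ℝ) / N) < 1 := by
          rw [← mul_div_assoc, div_lt_one hNR]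
          exact_mod_cast (by omega : 2 * p < N)
        nlinarith [Real.pi_pos]
    linarith
  · change chi (tri _ _) 0 ≠ 1
    rw [chi_tri_zero ha hb hab]
    exact Form2_exp_ne_one hb (by linarith)

/-- the family `gi i g (Z y)` has derivative `c ω_i/dz` -/
theorem hasFDerivWithinAt_gi_ZZ (hp : 0 < p) (hq : 0 < q) (hN : 2 * (p + q) < N) {i : ℕ}
    (hH : Hol N p q i) (g : G (TN N p q)) {y : ℂ}
    (hy : y ∈ body (TN N p q) \ Set.range (TN N p q)) :
    HasFDerivWithinAt
      (fun y => gi (i : ℤ) g (ZZ ((p : ℝ) / N) ((q : ℝ) / N) (ag N p i) (ag N q i) y))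
      (DG g (iso ((i : ℤ) - 1) (fun y => bet ((p : ℝ) / N) ((q : ℝ) / N) /
        bet (ag N p i) (ag N q i) * FF N p q i y) g y) 0) (body (TN N p q)) y := by
  have hN0 : 0 < N := by omega
  have hNR : (0 : ℝ) < N := by exact_mod_cast hN0
  have ha : (0 : ℝ) < (p : ℝ) / N := by positivity
  have hb : (0 : ℝ) < (q : ℝ) / N := by positivity
  have hab : (p : ℝ) / N + (q : ℝ) / N < 1 := by
    rw [← add_div, div_lt_one hNR]
    exact_mod_cast (by omega : p + q < N)
  have ha' : 0 < ag N p i := by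
    rw [ag]; exact div_pos (by exact_mod_cast hH.1) hNR
  have hb' : 0 < ag N q i := by
    rw [ag]; exact div_pos (by exact_mod_cast hH.2.1) hNR
  have hab' : ag N p i + ag N q i < 1 := by
    rw [ag, ag, ← add_div, div_lt_one hNR]
    exact_mod_cast hH.2.2
  have h1 := hasFDerivWithinAt_ZZ ha hb hab ha' hb' hab' (y := y) hy
  have h2 := hasFDerivWithinAt_iso (i : ℤ) (P := fun y => bet ((p : ℝ) / N) ((q : ℝ) / N) /
        bet (ag N p i) (ag N q i) * FF N p q i y) (Q := fun _ => 0) (s := body (TN N p q)) h1 g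
  have h3 : iso ((i : ℤ) + 1) (fun _ => (0 : ℂ)) g y = 0 := by
    simp [iso]
  rw [h3] at h2
  have h4 : (fun y => gi (i : ℤ) g (ZZ ((p : ℝ) / N) ((q : ℝ) / N) (ag N p i) (ag N q i) y)) =
      iso (i : ℤ) (ZZ ((p : ℝ) / N) ((q : ℝ) / N) (ag N p i) (ag N q i)) g := by
    funext z
    rw [gi, iso]
    split_ifs <;> rfl
  rw [h4]
  exact h2

end Pool.Agent.OBT
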