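import Mathlib
import Pool.Agent.OBT.Gal0
import Pool.Agent.OBT.Grp

/-!
# The derivative of an affine homeomorphism has coefficients in `K`
-/

open scoped ComplexConjugate Topology Real MatrixGroups
open MeasureTheory Filter

namespace Pool.Agent.OBT

variable {v v' : Fin 3 → ℂ} {i : ℤ} {K : Subfield ℂ} {σ : K →+* ℂ} {Z : ℂ → ℂ}

theorem Gal1_apply_mem (S : Conj v v' i K σ Z) (g : G v) {x : ℂ} (hx : x ∈ K) :
    (g : ℂ ≃ₗᵢ[ℝ] ℂ) x ∈ K := by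
  obtain ⟨h, -⟩ := S.map_apply g ⟨x, hx⟩
  exact h

theorem Gal1_indep (S : Conj v v' i K σ Z) {g g' : G v} {y y' : body v}
    (h : Surf.mk g y = Surf.mk g' y') :
    (g : ℂ ≃ₗᵢ[ℝ] ℂ) (y : ℂ) - (g' : ℂ ≃ₗᵢ[ℝ] ℂ) (y' : ℂ) ∈ K := by
  obtain ⟨rfl, hh⟩ := (mk_eq_iff g g' y y').1 h
  obtain ⟨x, hx, -⟩ := S.fix_diff y (g⁻¹ * g') hh
  have h2 : (g' : ℂ ≃ₗᵢ[ℝ] ℂ) (y : ℂ) =
      (g : ℂ ≃ₗᵢ[ℝ] ℂ) (((g⁻¹ * g' : G v) : ℂ ≃ₗᵢ[ℝ] ℂ) (y : ℂ)) := by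
    have h3 : g' = g * (g⁻¹ * g') := by group
    conv_lhs => rw [h3]
    rfl
  rw [h2, ← map_sub, ← hx]
  exact Gal1_apply_mem S g x.2

theorem Gal1_act_sub (A : SL(2, ℝ)) (z w : ℂ) : act A (z - w) = act A z - act A w := by
  rw [act_eq, act_eq, act_eq, map_sub]
  ring

theorem Gal1_local (S : Conj v v' i K σ Z) {A : SL(2, ℝ)} {φ : Surf v ≃ₜ Surf v}
    (hφ : IsAffine A φ) (g : G v) (y : body v) :
    ∀ᶠ y1 in 𝓝 y, ∀ (g' g1' : G v) (y' y1' : body v),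
      Surf.mk g' y' = φ (Surf.mk g y) → Surf.mk g1' y1' = φ (Surf.mk g y1) →
      ((g1' : ℂ ≃ₗᵢ[ℝ] ℂ) (y1' : ℂ) - act A ((g : ℂ ≃ₗᵢ[ℝ] ℂ) (y1 : ℂ))) -
        ((g' : ℂ ≃ₗᵢ[ℝ] ℂ) (y' : ℂ) - act A ((g : ℂ ≃ₗᵢ[ℝ] ℂ) (y : ℂ))) ∈ K := by
  have h1 := hφ (Surf.mk g y)
  have h2 := disp_unique (Surf.mk g y)
  have h3 := (continuous_mk g).tendsto y
  filter_upwards [h3.eventually h1, h3.eventually h2] with y1 h4 h5
  intro g' g1' y' y1' e1 e2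
  obtain ⟨a, a', x, z, x', z', q1, q2, q3, q4, q5⟩ := h4
  have q6 := h5 a g x z y y1 q1 q2 rfl rfl
  rw [q6, map_sub, map_sub, Gal1_act_sub] at q5
  have m1 := Gal1_indep S (e1.trans q3.symm)
  have m2 := Gal1_indep S (e2.trans q4.symm)
  have e : ((g1' : ℂ ≃ₗᵢ[ℝ] ℂ) (y1' : ℂ) - act A ((g : ℂ ≃ₗᵢ[ℝ] ℂ) (y1 : ℂ))) -
        ((g' : ℂ ≃ₗᵢ[ℝ] ℂ) (y' : ℂ) - act A ((g : ℂ ≃ₗᵢ[ℝ] ℂ) (y : ℂ))) =
      ((g1' : ℂ ≃ₗᵢ[ℝ] ℂ) (y1' : ℂ) - (a' : ℂ ≃ₗᵢ[ℝ] ℂ) (z' : ℂ)) -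
        ((g' : ℂ ≃ₗᵢ[ℝ] ℂ) (y' : ℂ) - (a' : ℂ ≃ₗᵢ[ℝ] ℂ) (x' : ℂ)) := by
    linear_combination q5
  rw [e]
  exact K.sub_mem m2 m1

theorem Gal1_exists_d (S : Conj v v' i K σ Z) {A : SL(2, ℝ)} {φ : Surf v ≃ₜ Surf v}
    (hφ : IsAffine A φ) (g : G v) : ∃ d : ℂ, ∀ (g' : G v) (y y' : body v),
      Surf.mk g' y' = φ (Surf.mk g y) →
      (g' : ℂ ≃ₗᵢ[ℝ] ℂ) (y' : ℂ) - act A ((g : ℂ ≃ₗᵢ[ℝ] ℂ) (y : ℂ)) - d ∈ K := by
  have hrep : ∀ y : body v, ∃ p : G v × body v, Surf.mk p.1 p.2 = φ (Surf.mk g y) := by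
    intro y
    obtain ⟨a, x, h⟩ := mk_surjective (φ (Surf.mk g y))
    exact ⟨(a, x), h⟩
  choose p hp using hrep
  set D : body v → ℂ := fun y => ((p y).1 : ℂ ≃ₗᵢ[ℝ] ℂ) ((p y).2 : ℂ) -
    act A ((g : ℂ ≃ₗᵢ[ℝ] ℂ) (y : ℂ)) with hD
  have hloc : IsLocallyConstant (fun y => (QuotientAddGroup.mk (D y) : ℂ ⧸ K.toAddSubgroup)) := by
    rw [IsLocallyConstant.iff_eventually_eq]
    intro y
    filter_upwards [Gal1_local S hφ g y] with y1 h1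
    rw [eq_comm, QuotientAddGroup.eq]
    have h2 := h1 (p y).1 (p y1).1 (p y).2 (p y1).2 (hp y) (hp y1)
    rw [neg_add_eq_sub]
    exact h2
  have : PreconnectedSpace (body v) := Subtype.preconnectedSpace convex_body.isPreconnected
  refine ⟨D ⟨v 0, vert_mem_body 0⟩, ?_⟩
  intro g' y y' h
  have h1 := hloc.apply_eq_of_preconnectedSpace ⟨v 0, vert_mem_body 0⟩ y
  rw [QuotientAddGroup.eq, neg_add_eq_sub] at h1
  have h2 := Gal1_indep S (h.trans (hp y).symm)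
  have h3 : (g' : ℂ ≃ₗᵢ[ℝ] ℂ) (y' : ℂ) - act A ((g : ℂ ≃ₗᵢ[ℝ] ℂ) (y : ℂ)) -
      D ⟨v 0, vert_mem_body 0⟩ =
      ((g' : ℂ ≃ₗᵢ[ℝ] ℂ) (y' : ℂ) - ((p y).1 : ℂ ≃ₗᵢ[ℝ] ℂ) ((p y).2 : ℂ)) +
        (D y - D ⟨v 0, vert_mem_body 0⟩) := by
    simp only [hD]
    ring
  rw [h3]
  exact K.add_mem h2 h1

/-- the effect of a reflection on the constants -/
theorem Gal1_step {A : SL(2, ℝ)} {φ : Surf v ≃ₜ Surf v} {d : G v → ℂ}
    (hd : ∀ (g g' : G v) (y y' : body v), Surf.mk g' y' = φ (Surf.mk g y) →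
      (g' : ℂ ≃ₗᵢ[ℝ] ℂ) (y' : ℂ) - act A ((g : ℂ ≃ₗᵢ[ℝ] ℂ) (y : ℂ)) - d g ∈ K)
    (g : G v) (k : Fin 3) {y : ℂ} (hy : y ∈ edge v k) :
    d (g * r v k) - d g - act A ((g : ℂ ≃ₗᵢ[ℝ] ℂ) (y - refl v k y)) ∈ K := by
  have hyb : y ∈ body v := edge_subset_body k hy
  obtain ⟨g', y', h⟩ := mk_surjective (φ (Surf.mk g ⟨y, hyb⟩))
  have h1 := hd g g' ⟨y, hyb⟩ y' h
  have h2 := hd (g * r v k) g' ⟨y, hyb⟩ y' (by
    rw [mk_mul_r g ⟨y, hyb⟩ k hy]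
    exact h)
  have h3 : ((g * r v k : G v) : ℂ ≃ₗᵢ[ℝ] ℂ) y = (g : ℂ ≃ₗᵢ[ℝ] ℂ) (refl v k y) := rfl
  have h4 := K.sub_mem h1 h2
  simp only [h3] at h4
  rw [map_sub, Gal1_act_sub]
  convert h4 using 1
  ring

theorem Gal1_commute_rot {g h : G v} (hg : rot g) (hh : rot h) : g * h = h * g := by
  apply Subtype.ext
  apply LinearIsometryEquiv.ext
  intro z
  change (g : ℂ ≃ₗᵢ[ℝ] ℂ) ((h : ℂ ≃ₗᵢ[ℝ] ℂ) z) = (h : ℂ ≃ₗᵢ[ℝ] ℂ) ((g : ℂ ≃ₗᵢ[ℝ] ℂ) z)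
  rw [hg, hh, hh, hg]
  ring

theorem Gal1_uu_r (k : Fin 3) : uu (r v k) = chi v k := rfl

theorem Gal1_mem_of (S : Conj v v' i K σ Z) {A : SL(2, ℝ)} {φ : Surf v ≃ₜ Surf v} {d : G v → ℂ}
    (hd : ∀ (g g' : G v) (y y' : body v), Surf.mk g' y' = φ (Surf.mk g y) →
      (g' : ℂ ≃ₗᵢ[ℝ] ℂ) (y' : ℂ) - act A ((g : ℂ ≃ₗᵢ[ℝ] ℂ) (y : ℂ)) - d g ∈ K) :
    ca A ∈ K ∧ cb A ∈ K := by
  have hv2 : v 2 ∈ edge v 1 := left_mem_segment ℝ _ _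
  have h0e1 : (0 : ℂ) ∈ edge v 1 := by
    have h : v (1 + 2) ∈ edge v 1 := right_mem_segment ℝ _ _
    have e : v (1 + 2) = 0 := S.zero
    rwa [e] at h
  have h0e2 : (0 : ℂ) ∈ edge v 2 := by
    have h : v (2 + 1) ∈ edge v 2 := left_mem_segment ℝ _ _
    have e : v (2 + 1) = 0 := S.zero
    rwa [e] at h
  have h1e0 : (1 : ℂ) ∈ edge v 0 := by
    have h : v (0 + 1) ∈ edge v 0 := left_mem_segment ℝ _ _
    have e : v (0 + 1) = 1 := S.one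
    rwa [e] at h
  have hchi2 : chi v 2 = 1 := by
    rw [chi_eq 2 (S.ne 2)]
    have e1 : v (2 + 2) = 1 := S.one
    have e2 : v (2 + 1) = 0 := S.zero
    rw [e1, e2]
    simp
  have s1 : ∀ g : G v, d (g * r v 1) - d g ∈ K := by
    intro g
    have h := Gal1_step hd g 1 h0e1
    rw [map_zero, sub_zero, map_zero] at h
    have e : act A 0 = 0 := by rw [act_eq]; simp
    rwa [e, sub_zero] at h
  have s2 : ∀ g : G v, d (g * r v 2) - d g ∈ K := by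
    intro g
    have h := Gal1_step hd g 2 h0e2
    rw [map_zero, sub_zero, map_zero] at h
    have e : act A 0 = 0 := by rw [act_eq]; simp
    rwa [e, sub_zero] at h
  have s0 : ∀ g : G v,
      d (g * r v 0) - d g - act A ((g : ℂ ≃ₗᵢ[ℝ] ℂ) (1 - chi v 0)) ∈ K := by
    intro g
    exact Gal1_step hd g 0 h1e0
  set R1 : G v := r v 2 * r v 1 with hR1
  set R2 : G v := r v 2 * r v 0 with hR2
  have hr1 : rot R1 := (rot_mul_iff _ _).2 (iff_of_false (not_rot_r 2 (S.ne 2)) (not_rot_r 1 (S.ne 1)))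
  have hr2 : rot R2 := (rot_mul_iff _ _).2 (iff_of_false (not_rot_r 2 (S.ne 2)) (not_rot_r 0 (S.ne 0)))
  have hu1 : uu R1 = conj (chi v 1) := by
    rw [hR1, uu_mul_of_not_rot _ (not_rot_r 2 (S.ne 2)), Gal1_uu_r, Gal1_uu_r, hchi2, one_mul]
  have hu2 : uu R2 = conj (chi v 0) := by
    rw [hR2, uu_mul_of_not_rot _ (not_rot_r 2 (S.ne 2)), Gal1_uu_r, Gal1_uu_r, hchi2, one_mul]
  have t1 : ∀ g : G v, d (g * R1) - d g ∈ K := by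
    intro g
    have h1 := s1 (g * r v 2)
    have h2 := s2 g
    have h3 := K.add_mem h1 h2
    rw [mul_assoc] at h3
    convert h3 using 1
    ring
  have t2 : ∀ g : G v, d (g * R2) - d g - act A ((g : ℂ ≃ₗᵢ[ℝ] ℂ) (1 - uu R2)) ∈ K := by
    intro g
    have h1 := s0 (g * r v 2)
    have h2 := s2 g
    have h3 := K.add_mem h1 h2
    have h4 : ((g * r v 2 : G v) : ℂ ≃ₗᵢ[ℝ] ℂ) (1 - chi v 0) =
        (g : ℂ ≃ₗᵢ[ℝ] ℂ) (1 - uu R2) := by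
      change (g : ℂ ≃ₗᵢ[ℝ] ℂ) (refl v 2 (1 - chi v 0)) = _
      rw [refl_eq 2 (S.ne 2), hchi2, hu2, one_mul, map_sub, map_one]
    rw [h4, mul_assoc] at h3
    convert h3 using 1
    ring
  have t3 : ∀ g : G v, act A ((g : ℂ ≃ₗᵢ[ℝ] ℂ) ((1 - uu R1) * (1 - uu R2))) ∈ K := by
    intro g
    have h1 := t2 (g * R1)
    have h2 := t1 g
    have h3 := t1 (g * R2)
    have h4 := t2 g
    have h5 : g * R1 * R2 = g * R2 * R1 := by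
      rw [mul_assoc g R1 R2, mul_assoc g R2 R1, Gal1_commute_rot hr1 hr2]
    rw [h5] at h1
    have h6 : ((g * R1 : G v) : ℂ ≃ₗᵢ[ℝ] ℂ) (1 - uu R2) =
        (g : ℂ ≃ₗᵢ[ℝ] ℂ) (uu R1 * (1 - uu R2)) := by
      change (g : ℂ ≃ₗᵢ[ℝ] ℂ) ((R1 : ℂ ≃ₗᵢ[ℝ] ℂ) (1 - uu R2)) = _
      rw [hr1]
    rw [h6] at h1
    have h7 : act A ((g : ℂ ≃ₗᵢ[ℝ] ℂ) ((1 - uu R1) * (1 - uu R2))) =
        act A ((g : ℂ ≃ₗᵢ[ℝ] ℂ) (1 - uu R2)) - act A ((g : ℂ ≃ₗᵢ[ℝ] ℂ) (uu R1 * (1 - uu R2))) := by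
      rw [← Gal1_act_sub, ← map_sub]
      congr 2
      ring
    rw [h7]
    have h8 := K.sub_mem (K.add_mem h1 h2) (K.add_mem h3 h4)
    convert h8 using 1
    ring
  have hρ1 : uu R1 ∈ K := S.uu_mem R1
  have hρ2 : uu R2 ∈ K := S.uu_mem R2
  have hne : uu R1 ≠ conj (uu R1) := by
    rw [hu1, Complex.conj_conj]
    exact fun h => S.nonreal h.symm
  have hne1 : 1 - uu R1 ≠ 0 := by
    intro h
    apply hne
    have h1 : uu R1 = 1 := by linear_combination -h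
    rw [h1, map_one]
  have hne2 : 1 - uu R2 ≠ 0 := by
    intro h
    have h1 : uu R2 = 1 := by linear_combination -h
    rw [hu2] at h1
    apply S.nontriv
    have h2 := congrArg conj h1
    rwa [Complex.conj_conj, map_one] at h2
  set κ : ℂ := (1 - uu R1) * (1 - uu R2) with hκ
  have hκ0 : κ ≠ 0 := mul_ne_zero hne1 hne2
  have hκK : κ ∈ K := K.mul_mem (K.sub_mem K.one_mem hρ1) (K.sub_mem K.one_mem hρ2)
  have hκc : conj κ ∈ K := S.conj_mem κ hκK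
  have u1 : ca A * κ + cb A * conj κ ∈ K := by
    have h := t3 1
    rw [act_eq] at h
    exact h
  have u2 : ca A * (uu R1 * κ) + cb A * (conj (uu R1) * conj κ) ∈ K := by
    have h := t3 R1
    rw [hr1, act_eq, map_mul] at h
    exact h
  have hρ1c : conj (uu R1) ∈ K := S.conj_mem _ hρ1
  have hca : ca A ∈ K := by
    have h1 : ca A = ((ca A * (uu R1 * κ) + cb A * (conj (uu R1) * conj κ)) -
        conj (uu R1) * (ca A * κ + cb A * conj κ)) / (κ * (uu R1 - conj (uu R1))) := by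
      have h2 : uu R1 - conj (uu R1) ≠ 0 := sub_ne_zero.2 hne
      field_simp
      ring
    rw [h1]
    exact K.div_mem (K.sub_mem u2 (K.mul_mem hρ1c u1)) (K.mul_mem hκK (K.sub_mem hρ1 hρ1c))
  refine ⟨hca, ?_⟩
  have h1 : cb A = ((ca A * κ + cb A * conj κ) - ca A * κ) / conj κ := by
    have h2 : conj κ ≠ 0 := by
      rw [ne_eq, map_eq_zero]
      exact hκ0
    field_simp
    ring
  rw [h1]
  exact K.div_mem (K.sub_mem u1 (K.mul_mem hca hκK)) hκc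

theorem Conj.exists_c0 (S : Conj v v' i K σ Z) {A : SL(2, ℝ)} {φ : Surf v ≃ₜ Surf v}
    (hφ : IsAffine A φ) : ∃ (α β : K) (c0 : ℂ), (α : ℂ) = ca A ∧ (β : ℂ) = cb A ∧
      ∀ (g g' : G v) (y y' : body v), Surf.mk g' y' = φ (Surf.mk g y) →
        ∃ x : K, (x : ℂ) = (g' : ℂ ≃ₗᵢ[ℝ] ℂ) (y' : ℂ) - ca A * (g : ℂ ≃ₗᵢ[ℝ] ℂ) (y : ℂ) -
          cb A * conj ((g : ℂ ≃ₗᵢ[ℝ] ℂ) (y : ℂ)) - c0 := by
  choose d hd' using Gal1_exists_d S hφ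
  have hd : ∀ (g g' : G v) (y y' : body v), Surf.mk g' y' = φ (Surf.mk g y) →
      (g' : ℂ ≃ₗᵢ[ℝ] ℂ) (y' : ℂ) - act A ((g : ℂ ≃ₗᵢ[ℝ] ℂ) (y : ℂ)) - d g ∈ K :=
    fun g g' y y' h => hd' g g' y y' h
  obtain ⟨hca, hcb⟩ := Gal1_mem_of S hd
  have hact : ∀ z ∈ K, act A z ∈ K := by
    intro z hz
    rw [act_eq]
    exact K.add_mem (K.mul_mem hca hz) (K.mul_mem hcb (S.conj_mem z hz))
  have hstep : ∀ (k : Fin 3) (g : G v), d (g * r v k) - d g ∈ K := by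
    intro k g
    have hv : v (k + 1) ∈ Pool.Agent.OBT.edge v k := left_mem_segment ℝ _ _
    have h1 := Gal1_step hd g k hv
    have h2 : refl v k (v (k + 1)) ∈ K := Gal1_apply_mem S (r v k) (S.mem (k + 1))
    have h3 := hact _ (Gal1_apply_mem S g (K.sub_mem (S.mem (k + 1)) h2))
    have h4 := K.add_mem h1 h3
    rwa [sub_add_cancel] at h4
  have hall : ∀ (h : ℂ ≃ₗᵢ[ℝ] ℂ) (hh : h ∈ G v) (g : G v), d (g * ⟨h, hh⟩) - d g ∈ K := by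
    intro h hh
    induction hh using Subgroup.closure_induction with
    | mem x hx =>
      obtain ⟨k, rfl⟩ := hx
      exact hstep k
    | one =>
      intro g
      have e : g * ⟨1, Subgroup.one_mem (G v)⟩ = g := mul_one g
      have e2 : d (g * ⟨1, Subgroup.one_mem (G v)⟩) - d g = 0 := by rw [e, sub_self]
      exact e2 ▸ K.zero_mem
    | mul x y hx hy ihx ihy =>
      intro g
      have h1 := ihx g
      have h2 := ihy (g * ⟨x, hx⟩)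
      have h3 := K.add_mem h2 h1
      rw [sub_add_sub_cancel, mul_assoc] at h3
      exact h3
    | inv x hx ih =>
      intro g
      have h1 := ih (g * ⟨x, hx⟩⁻¹)
      rw [inv_mul_cancel_right] at h1
      have h2 := K.neg_mem h1
      rw [neg_sub] at h2
      exact h2
  refine ⟨⟨ca A, hca⟩, ⟨cb A, hcb⟩, d 1, rfl, rfl, ?_⟩
  intro g g' y y' h
  have h1 := hd g g' y y' h
  have h2 := hall g.1 g.2 1
  have e : (1 : G v) * ⟨g.1, g.2⟩ = g := one_mul g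
  rw [e] at h2
  have h3 := K.add_mem h1 h2
  rw [act_eq] at h3
  refine ⟨⟨_, h3⟩, ?_⟩
  change (g' : ℂ ≃ₗᵢ[ℝ] ℂ) (y' : ℂ) - (ca A * (g : ℂ ≃ₗᵢ[ℝ] ℂ) (y : ℂ) +
          cb A * conj ((g : ℂ ≃ₗᵢ[ℝ] ℂ) (y : ℂ))) - d g + (d g - d 1) = _
  ring

end Pool.Agent.OBT
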