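import Mathlib
import Pool.Agent.OBT.Gal1

/-!
# The function `U` attached to an affine homeomorphism
-/

open scoped ComplexConjugate Topology Real MatrixGroups
open MeasureTheory Filter

namespace Pool.Agent.OBT

variable {v v' : Fin 3 → ℂ} {i : ℤ} {K : Subfield ℂ} {σ : K →+* ℂ} {Z : ℂ → ℂ}

theorem Conj.Gal2_diff (S : Conj v v' i K σ Z) (g g1 : G v) (y : body v)
    (h : Surf.mk g y = Surf.mk g1 y) :
    ∃ δ : K, (δ : ℂ) = (g1 : ℂ ≃ₗᵢ[ℝ] ℂ) (y : ℂ) - (g : ℂ ≃ₗᵢ[ℝ] ℂ) (y : ℂ) ∧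
      σ δ = gi i g1 (Z y) - gi i g (Z y) := by
  rw [mk_eq_iff] at h
  obtain ⟨-, hh⟩ := h
  set k : G v := g⁻¹ * g1 with hk
  have hg1 : g1 = g * k := by rw [hk, mul_inv_cancel_left]
  obtain ⟨x, hx, hσx⟩ := S.fix_diff y k hh
  obtain ⟨hm, hσm⟩ := S.map_apply g x
  refine ⟨-⟨(g : ℂ ≃ₗᵢ[ℝ] ℂ) (x : ℂ), hm⟩, ?_, ?_⟩
  · show -((g : ℂ ≃ₗᵢ[ℝ] ℂ) (x : ℂ)) = _
    rw [hx, map_sub, hg1, Subgroup.coe_mul]
    show -((g : ℂ ≃ₗᵢ[ℝ] ℂ) (y : ℂ) - (g : ℂ ≃ₗᵢ[ℝ] ℂ) ((k : ℂ ≃ₗᵢ[ℝ] ℂ) (y : ℂ))) =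
      (g : ℂ ≃ₗᵢ[ℝ] ℂ) ((k : ℂ ≃ₗᵢ[ℝ] ℂ) (y : ℂ)) - (g : ℂ ≃ₗᵢ[ℝ] ℂ) (y : ℂ)
    ring
  · rw [map_neg, hσm, hσx, gi_sub, ← gi_mul, ← hg1]
    ring

/-- the value of `U` for a given representative of the image point -/
noncomputable def Gal2_val (i : ℤ) (σ : K →+* ℂ) (Z : ℂ → ℂ) (s t : ℂ) (g g' : G v)
    (y y' : ℂ) (x : K) : ℂ :=
  gi i g' (Z y') - s * gi i g (Z y) - t * conj (gi i g (Z y)) - σ x

theorem Conj.Gal2_indep (S : Conj v v' i K σ Z) {A : SL(2, ℝ)} {α β : K} {c0 : ℂ}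
    (hα : (α : ℂ) = ca A) (hβ : (β : ℂ) = cb A) (g g1 g' g1' : G v) (y y' : body v)
    (h : Surf.mk g y = Surf.mk g1 y) (h' : Surf.mk g' y' = Surf.mk g1' y') (x x1 : K)
    (hx : (x : ℂ) = (g' : ℂ ≃ₗᵢ[ℝ] ℂ) (y' : ℂ) - ca A * (g : ℂ ≃ₗᵢ[ℝ] ℂ) (y : ℂ) -
          cb A * conj ((g : ℂ ≃ₗᵢ[ℝ] ℂ) (y : ℂ)) - c0)
    (hx1 : (x1 : ℂ) = (g1' : ℂ ≃ₗᵢ[ℝ] ℂ) (y' : ℂ) - ca A * (g1 : ℂ ≃ₗᵢ[ℝ] ℂ) (y : ℂ) -
          cb A * conj ((g1 : ℂ ≃ₗᵢ[ℝ] ℂ) (y : ℂ)) - c0) :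
    Gal2_val i σ Z (σ α) (σ β) g g' y y' x = Gal2_val i σ Z (σ α) (σ β) g1 g1' y y' x1 := by
  obtain ⟨δ, hδ, hσδ⟩ := S.Gal2_diff g g1 y h
  obtain ⟨δ', hδ', hσδ'⟩ := S.Gal2_diff g' g1' y' h'
  have hc : conj (δ : ℂ) ∈ K := S.conj_mem _ δ.2
  have hσc : σ ⟨conj (δ : ℂ), hc⟩ = conj (σ δ) := S.conj_map (δ : ℂ) δ.2 hc
  have hxx : x1 = x + δ' - α * δ - β * ⟨conj (δ : ℂ), hc⟩ := by
    apply Subtype.ext
    show (x1 : ℂ) = (x : ℂ) + (δ' : ℂ) - (α : ℂ) * (δ : ℂ) - (β : ℂ) * conj (δ : ℂ)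
    rw [hx, hx1, hδ', hα, hβ, hδ]
    simp only [map_sub]
    ring
  unfold Gal2_val
  rw [hxx, map_sub, map_sub, map_add, map_mul, map_mul, hσc, hσδ, hσδ', map_sub]
  ring

theorem Conj.exists_U (S : Conj v v' i K σ Z) {A : SL(2, ℝ)} {φ : Surf v ≃ₜ Surf v}
    (hφ : IsAffine A φ) : ∃ (s t : ℂ) (U : G v → ℂ → ℂ), s ≠ 0 ∧ Compat ∅ U ∧
      ∀ (g : G v) (y : body v), ∀ᶠ y1 in 𝓝 y, ∃ (g' : G v) (y' y1' : body v),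
        Surf.mk g' y' = φ (Surf.mk g y) ∧ Surf.mk g' y1' = φ (Surf.mk g y1) ∧
        (g' : ℂ ≃ₗᵢ[ℝ] ℂ) ((y1' : ℂ) - y') = act A ((g : ℂ ≃ₗᵢ[ℝ] ℂ) ((y1 : ℂ) - y)) ∧
        U g y1 - U g y = gi i g' (Z y1' - Z y') - s * gi i g (Z y1 - Z y) -
          t * conj (gi i g (Z y1 - Z y)) := by
  classical
  obtain ⟨α, β, c0, hα, hβ, hx⟩ := S.exists_c0 hφ
  choose gr yr hr using fun (g : G v) (y : body v) => mk_surjective (φ (Surf.mk g y))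
  choose xr hxr using fun (g : G v) (y : body v) => hx g (gr g y) y (yr g y) (hr g y)
  set U : G v → ℂ → ℂ := fun g y =>
    if h : y ∈ body v then Gal2_val i σ Z (σ α) (σ β) g (gr g ⟨y, h⟩) y (yr g ⟨y, h⟩ : ℂ)
      (xr g ⟨y, h⟩) else 0 with hU
  have hUy : ∀ (g : G v) (y : body v), U g y =
      Gal2_val i σ Z (σ α) (σ β) g (gr g y) y (yr g y : ℂ) (xr g y) := by
    intro g y
    rw [hU]
    simp only [y.2, dite_true]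
  -- the value does not depend on the choices
  have key : ∀ (g g1 : G v) (y : body v) (g' : G v) (y' : body v) (x : K),
      Surf.mk g y = Surf.mk g1 y → Surf.mk g' y' = φ (Surf.mk g y) →
      (x : ℂ) = (g' : ℂ ≃ₗᵢ[ℝ] ℂ) (y' : ℂ) - ca A * (g : ℂ ≃ₗᵢ[ℝ] ℂ) (y : ℂ) -
          cb A * conj ((g : ℂ ≃ₗᵢ[ℝ] ℂ) (y : ℂ)) - c0 →
      U g1 y = Gal2_val i σ Z (σ α) (σ β) g g' y y' x := by
    intro g g1 y g' y' x h1 h2 h3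
    rw [hUy g1 y]
    have h4 : Surf.mk g' y' = Surf.mk (gr g1 y) (yr g1 y) := by rw [h2, hr g1 y, h1]
    have h5 : y' = yr g1 y := ((mk_eq_iff _ _ _ _).1 h4).1
    subst h5
    exact (S.Gal2_indep hα hβ g g1 g' (gr g1 y) y (yr g1 y) h1 h4 x (xr g1 y) h3
      (hxr g1 y)).symm
  refine ⟨σ α, σ β, U, ?_, ?_, ?_⟩
  · rw [map_ne_zero]
    intro h0
    apply ca_ne_zero A
    rw [← hα, h0, Subfield.coe_zero]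
  · intro g k y hy
    have hyb : y ∈ body v := edge_subset_body k hy.1
    have h1 : Surf.mk g (⟨y, hyb⟩ : body v) = Surf.mk (g * r v k) ⟨y, hyb⟩ :=
      (mk_mul_r g ⟨y, hyb⟩ k hy.1).symm
    have h2 := key g (g * r v k) ⟨y, hyb⟩ (gr g ⟨y, hyb⟩) (yr g ⟨y, hyb⟩) (xr g ⟨y, hyb⟩) h1
      (hr g ⟨y, hyb⟩) (hxr g ⟨y, hyb⟩)
    have h3 := hUy g ⟨y, hyb⟩
    exact h2.trans h3.symm
  · intro g y
    have hc : Tendsto (fun y1 : body v => Surf.mk g y1) (𝓝 y) (𝓝 (Surf.mk g y)) :=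
      (continuous_mk g).tendsto y
    filter_upwards [hc.eventually (hφ (Surf.mk g y)), hc.eventually (disp_unique (Surf.mk g y))]
      with y1 ha hd
    obtain ⟨g1, g1', x1, y2, x1', y1', e1, e2, e3, e4, e5⟩ := ha
    have hd1 := hd g1 g x1 y2 y y1 e1 e2 rfl rfl
    rw [hd1] at e5
    refine ⟨g1', x1', y1', e3, e4, e5, ?_⟩
    obtain ⟨xa, hxa⟩ := hx g g1' y x1' e3
    obtain ⟨xb, hxb⟩ := hx g g1' y1 y1' e4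
    rw [key g g y g1' x1' xa rfl e3 hxa, key g g y1 g1' y1' xb rfl e4 hxb]
    have hab : xb = xa := by
      apply Subtype.ext
      rw [hxa, hxb]
      rw [act_eq, map_sub, map_sub, map_sub] at e5
      linear_combination e5
    rw [hab]
    unfold Gal2_val
    rw [gi_sub, gi_sub, map_sub]
    ring

end Pool.Agent.OBT
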