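import Mathlib
import Pool.Agent.OBT.Gal0
import Pool.Agent.OBT.Chain

/-!
# Continuity and derivative of the function `U`
-/

open scoped ComplexConjugate Topology Real MatrixGroups
open MeasureTheory Filter

namespace Pool.Agent.OBT

variable {v v' : Fin 3 → ℂ} {i : ℤ} {K : Subfield ℂ} {σ : K →+* ℂ} {Z : ℂ → ℂ}

/-- the local increment formula of `Gal2` -/
def UProp (i : ℤ) (Z : ℂ → ℂ) (A : SL(2, ℝ)) (φ : Surf v ≃ₜ Surf v) (s t : ℂ)
    (U : G v → ℂ → ℂ) : Prop :=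
  ∀ (g : G v) (y : body v), ∀ᶠ y1 in 𝓝 y, ∃ (g' : G v) (y' y1' : body v),
    Surf.mk g' y' = φ (Surf.mk g y) ∧ Surf.mk g' y1' = φ (Surf.mk g y1) ∧
    (g' : ℂ ≃ₗᵢ[ℝ] ℂ) ((y1' : ℂ) - y') = act A ((g : ℂ ≃ₗᵢ[ℝ] ℂ) ((y1 : ℂ) - y)) ∧
    U g y1 - U g y = gi i g' (Z y1' - Z y') - s * gi i g (Z y1 - Z y) -
      t * conj (gi i g (Z y1 - Z y))

theorem Gal3_tendsto (φ : Surf v ≃ₜ Surf v) (g : G v) (y : body v) :
    Tendsto (fun y1 : body v => proj (φ (Surf.mk g y1))) (𝓝 y)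
      (𝓝 (proj (φ (Surf.mk g y)))) :=
  ((continuous_proj.comp (φ.continuous.comp (continuous_mk g))).tendsto y)

theorem Gal3_cont {Z : ℂ → ℂ} (hZ : ContinuousOn Z (body v)) :
    Continuous (fun y : body v => Z y) :=
  continuousOn_iff_continuous_domRestrict.1 hZ

theorem continuousOn_U {A : SL(2, ℝ)} {φ : Surf v ≃ₜ Surf v} {s t : ℂ} {U : G v → ℂ → ℂ}
    (hZ : ContinuousOn Z (body v)) (hU : UProp i Z A φ s t U) (g : G v) :
    ContinuousOn (U g) (body v) := by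
  rw [continuousOn_iff_continuous_domRestrict]
  rw [continuous_iff_continuousAt]
  intro y
  have hZc := Gal3_cont hZ
  have h1 : Tendsto (fun y1 : body v =>
      ‖Z (proj (φ (Surf.mk g y1))) - Z (proj (φ (Surf.mk g y)))‖ + ‖s‖ * ‖Z y1 - Z y‖
        + ‖t‖ * ‖Z y1 - Z y‖) (𝓝 y) (𝓝 0) := by
    have e1 : Tendsto (fun y1 : body v =>
        ‖Z (proj (φ (Surf.mk g y1))) - Z (proj (φ (Surf.mk g y)))‖) (𝓝 y) (𝓝 0) := by
      have := ((hZc.tendsto (proj (φ (Surf.mk g y)))).comp (Gal3_tendsto φ g y)).sub_const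
        (Z (proj (φ (Surf.mk g y))))
      simpa using this.norm
    have e2 : Tendsto (fun y1 : body v => ‖Z y1 - Z y‖) (𝓝 y) (𝓝 0) := by
      have := (hZc.tendsto y).sub_const (Z y)
      simpa using this.norm
    have := (e1.add (e2.const_mul ‖s‖)).add (e2.const_mul ‖t‖)
    simpa using this
  have h2 : Tendsto (fun y1 : body v => U g y1 - U g y) (𝓝 y) (𝓝 0) := by
    refine squeeze_zero_norm' ?_ h1
    filter_upwards [hU g y] with y1 hy1
    obtain ⟨g', y', y1', ha, hb, -, hd⟩ := hy1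
    have ha' : y' = proj (φ (Surf.mk g y)) := by rw [← ha, proj_mk]
    have hb' : y1' = proj (φ (Surf.mk g y1)) := by rw [← hb, proj_mk]
    rw [hd]
    refine (norm_sub_le _ _).trans ?_
    refine add_le_add ((norm_sub_le _ _).trans (add_le_add ?_ ?_)) ?_
    · rw [norm_gi, ha', hb']
    · rw [norm_mul, norm_gi]
    · rw [norm_mul, Complex.norm_conj, norm_gi]
  have h3 := h2.add_const (U g y)
  simp only [sub_add_cancel, zero_add] at h3
  exact h3

theorem hasFDerivWithinAt_U [Finite (G v)] {A : SL(2, ℝ)} {φ : Surf v ≃ₜ Surf v} {s t : ℂ}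
    {U : G v → ℂ → ℂ} (hU : UProp i Z A φ s t U) {S0 : Set ℂ} (hS0 : IsClosed S0)
    {f : G v → ℂ → ℂ} (hf : Compat S0 f)
    (hd : ∀ g, ∀ y ∈ body v \ S0,
      HasFDerivWithinAt (fun y => gi i g (Z y)) (DG g (f g y) 0) (body v) y)
    (g : G v) (y : body v) (hy : (y : ℂ) ∉ S0) (hy' : (proj (φ (Surf.mk g y)) : ℂ) ∉ S0) :
    HasFDerivWithinAt (U g) (DG g (ca A * pull φ f g y - s * f g y)
      (cb A * pull φ f g y - t * conj (f g y))) (body v) y := by
  obtain ⟨C, hC, hCA⟩ := norm_act_le A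
  rw [hasFDerivWithinAt_iff_isLittleO, Asymptotics.isLittleO_iff]
  intro c hc
  rw [nhdsWithin_eq_map_subtype_coe y.2, Filter.eventually_map]
  -- the derivative of `Z` at the image point
  set c1 : ℝ := c / (2 * C) with hc1
  have hc1' : 0 < c1 := by positivity
  set c2 : ℝ := c / (2 * (‖s‖ + ‖t‖ + 1)) with hc2
  have hc2' : 0 < c2 := by positivity
  have key1 : ∀ᶠ w : body v in 𝓝 (proj (φ (Surf.mk g y))), ∀ g' : G v,
      ‖gi i g' (Z w) - gi i g' (Z (proj (φ (Surf.mk g y)))) -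
        DG g' (f g' (proj (φ (Surf.mk g y)))) 0 ((w : ℂ) - proj (φ (Surf.mk g y)))‖ ≤
        c1 * ‖(w : ℂ) - proj (φ (Surf.mk g y))‖ := by
    rw [Filter.eventually_all]
    intro g'
    have h := hd g' (proj (φ (Surf.mk g y))) ⟨(proj (φ (Surf.mk g y))).2, hy'⟩
    rw [hasFDerivWithinAt_iff_isLittleO, Asymptotics.isLittleO_iff] at h
    have h' := h hc1'
    rw [nhdsWithin_eq_map_subtype_coe (proj (φ (Surf.mk g y))).2, Filter.eventually_map] at h'
    exact h'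
  have key2 : ∀ᶠ w : body v in 𝓝 y,
      ‖gi i g (Z w) - gi i g (Z y) - DG g (f g y) 0 ((w : ℂ) - y)‖ ≤ c2 * ‖(w : ℂ) - y‖ := by
    have h := hd g y ⟨y.2, hy⟩
    rw [hasFDerivWithinAt_iff_isLittleO, Asymptotics.isLittleO_iff] at h
    have h' := h hc2'
    rw [nhdsWithin_eq_map_subtype_coe y.2, Filter.eventually_map] at h'
    exact h'
  filter_upwards [hU g y, (Gal3_tendsto φ g y).eventually key1, key2] with y1 hy1 k1 k2
  obtain ⟨g', y', y1', ha, hb, hdisp, hUd⟩ := hy1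
  have ha' : y' = proj (φ (Surf.mk g y)) := by rw [← ha, proj_mk]
  have hb' : y1' = proj (φ (Surf.mk g y1)) := by rw [← hb, proj_mk]
  have k1' := k1 g'
  rw [← ha', ← hb'] at k1'
  have hyS : (y' : ℂ) ∉ S0 := by rw [ha']; exact hy'
  have hp : pull φ f g y = f g' y' := pull_eq hf φ g g' y y' ha hyS
  rw [hp]
  rw [hUd, gi_sub, gi_sub]
  set P := f g' y' with hP
  set Q := f g y with hQ
  set h : ℂ := (g : ℂ ≃ₗᵢ[ℝ] ℂ) ((y1 : ℂ) - y) with hh
  have hnorm : ‖h‖ = ‖(y1 : ℂ) - y‖ := by rw [hh]; exact LinearIsometryEquiv.norm_map _ _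
  have e1 : DG g' P 0 ((y1' : ℂ) - y') = P * (ca A * h + cb A * conj h) := by
    rw [DG_apply, hdisp, act_eq]; ring
  have e2 : DG g Q 0 ((y1 : ℂ) - y) = Q * h := by
    rw [DG_apply]; ring
  rw [e1] at k1'
  rw [e2] at k2
  have e3 : ‖(y1' : ℂ) - y'‖ ≤ C * ‖(y1 : ℂ) - y‖ := by
    have : ‖(y1' : ℂ) - y'‖ = ‖act A h‖ := by
      rw [← hdisp]; exact (LinearIsometryEquiv.norm_map _ _).symm
    rw [this, ← hnorm]
    exact (hCA h).1
  rw [DG_apply, ← hh]
  set a1 := gi i g' (Z y1') - gi i g' (Z y') with ha1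
  set b1 := gi i g (Z y1) - gi i g (Z y) with hb1
  have e4 : a1 - s * b1 - t * conj b1 -
      ((ca A * P - s * Q) * h + (cb A * P - t * conj Q) * conj h) =
      (a1 - P * (ca A * h + cb A * conj h)) - s * (b1 - Q * h) - t * conj (b1 - Q * h) := by
    simp only [map_sub, map_mul]
    ring
  rw [e4]
  have hn : 0 ≤ ‖(y1 : ℂ) - y‖ := norm_nonneg _
  calc ‖(a1 - P * (ca A * h + cb A * conj h)) - s * (b1 - Q * h) - t * conj (b1 - Q * h)‖
      ≤ ‖a1 - P * (ca A * h + cb A * conj h)‖ + ‖s * (b1 - Q * h)‖ +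
          ‖t * conj (b1 - Q * h)‖ :=
        (norm_sub_le _ _).trans (add_le_add (norm_sub_le _ _) le_rfl)
    _ ≤ c1 * (C * ‖(y1 : ℂ) - y‖) + ‖s‖ * (c2 * ‖(y1 : ℂ) - y‖) +
          ‖t‖ * (c2 * ‖(y1 : ℂ) - y‖) := by
        refine add_le_add (add_le_add ?_ ?_) ?_
        · exact k1'.trans (mul_le_mul_of_nonneg_left e3 hc1'.le)
        · rw [norm_mul]; exact mul_le_mul_of_nonneg_left k2 (norm_nonneg _)
        · rw [norm_mul, Complex.norm_conj]; exact mul_le_mul_of_nonneg_left k2 (norm_nonneg _)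
    _ ≤ c * ‖(y1 : ℂ) - y‖ := by
        have f1 : c1 * (C * ‖(y1 : ℂ) - y‖) = c / 2 * ‖(y1 : ℂ) - y‖ := by
          rw [hc1]; field_simp
        have f2 : (‖s‖ + ‖t‖) * c2 ≤ c / 2 := by
          rw [hc2, mul_div_assoc', div_le_div_iff₀ (by positivity) (by norm_num)]
          nlinarith [norm_nonneg s, norm_nonneg t, hc]
        nlinarith [mul_le_mul_of_nonneg_right f2 hn]

end Pool.Agent.OBT
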