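import Mathlib
import Pool.Agent.OBT.Chain
import Pool.Agent.OBT.BigO

/-!
# Growth of pull backs at the exceptional points
-/

open scoped ComplexConjugate Topology Real MatrixGroups
open MeasureTheory Filter

namespace Pool.Agent.OBT

variable {v : Fin 3 → ℂ}

/-- the exceptional set of a pull back -/
def pullSet (φ : Surf v ≃ₜ Surf v) (S0 : Set ℂ) : Set ℂ :=
  {y | ∃ (h : y ∈ body v) (g : G v), (proj (φ (Surf.mk g ⟨y, h⟩)) : ℂ) ∈ S0}

/-- every point is the point given by its projection in some copy -/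
theorem Gal4_mk_proj (ξ : Surf v) : ∃ g : G v, Surf.mk g (proj ξ) = ξ := by
  obtain ⟨g, x, rfl⟩ := mk_surjective ξ
  exact ⟨g, by rw [proj_mk]⟩

theorem finite_pullSet [Finite (G v)] (φ : Surf v ≃ₜ Surf v) {S0 : Set ℂ} (h : S0.Finite) :
    (pullSet φ S0).Finite := by
  have hT : (Subtype.val ⁻¹' S0 : Set (body v)).Finite := h.preimage Subtype.val_injective.injOn
  have hU : ((Set.univ : Set (G v)) ×ˢ (Subtype.val ⁻¹' S0 : Set (body v))).Finite :=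
    (Set.finite_univ).prod hT
  refine (hU.image (fun p : G v × body v => (proj (φ.symm (Surf.mk p.1 p.2)) : ℂ))).subset ?_
  rintro y ⟨hy, g, hg⟩
  obtain ⟨g', hg'⟩ := Gal4_mk_proj (φ (Surf.mk g ⟨y, hy⟩))
  refine ⟨(g', proj (φ (Surf.mk g ⟨y, hy⟩))), ⟨Set.mem_univ _, hg⟩, ?_⟩
  simp only [hg', Homeomorph.symm_apply_apply, proj_mk]

/-- comparable numbers have comparable powers -/
theorem Gal4_rpow {C t t' q : ℝ} (hC : 0 < C) (ht : 0 < t) (ht' : 0 < t') (h1 : t' ≤ C * t)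
    (h2 : t ≤ C * t') : t' ^ q ≤ C ^ |q| * t ^ q := by
  rcases le_total 0 q with h | h
  · rw [abs_of_nonneg h, ← Real.mul_rpow hC.le ht.le]
    exact Real.rpow_le_rpow ht'.le h1 h
  · rw [abs_of_nonpos h]
    have h3 : C⁻¹ * t ≤ t' := by
      rw [inv_mul_le_iff₀ hC]; exact h2
    have h4 : 0 < C⁻¹ * t := by positivity
    have h5 := Real.rpow_le_rpow_of_nonpos h4 h3 h
    rwa [Real.mul_rpow (inv_pos.2 hC).le ht.le, Real.inv_rpow hC.le, ← Real.rpow_neg hC.le] at h5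

/-- a property of the points near `mk g s` holds at `mk g y` for `y` near `s` -/
theorem Gal4_ev (g : G v) (s : ℂ) (hs : s ∈ body v) {Q : Surf v → Prop}
    (h : ∀ᶠ η in 𝓝 (Surf.mk g ⟨s, hs⟩), Q η) :
    ∀ᶠ y in 𝓝[body v] s, ∀ hy : y ∈ body v, Q (Surf.mk g ⟨y, hy⟩) := by
  have h1 : ∀ᶠ x : body v in 𝓝 ⟨s, hs⟩, Q (Surf.mk g x) := (continuous_mk g).continuousAt h
  have h2 : ∀ᶠ x : body v in 𝓝 (⟨s, hs⟩ : body v),
      (fun y : ℂ => ∀ hy : y ∈ body v, Q (Surf.mk g ⟨y, hy⟩)) x := by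
    filter_upwards [h1] with x hx hy
    exact hx
  exact (eventually_nhds_subtype_iff (body v) ⟨s, hs⟩ _).1 h2

/-- a common growth bound for finitely many functions -/
theorem Gal4_common [Finite (G v)] {S0 : Set ℂ} {f : G v → ℂ → ℂ} {s0 : ℂ} {q : ℝ} {p : G v → ℝ}
    (hs0 : s0 ∈ S0) (hq : ∀ g, q ≤ p g)
    (hp : ∀ g, f g =O[𝓝[body v \ S0] s0] (fun y => ‖y - s0‖ ^ p g)) :
    ∃ C δ : ℝ, 0 < C ∧ 0 < δ ∧ ∀ g, ∀ y ∈ body v \ S0, ‖y - s0‖ < δ →
      ‖f g y‖ ≤ C * ‖y - s0‖ ^ q := by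
  have h1 : ∀ g, ∃ c : ℝ, 0 < c ∧ ∀ᶠ y in 𝓝[body v \ S0] s0,
      ‖f g y‖ ≤ c * ‖‖y - s0‖ ^ p g‖ := fun g => by
    obtain ⟨c, hc, h⟩ := (hp g).exists_pos
    exact ⟨c, hc, h.bound⟩
  choose c hc0 hc using h1
  obtain ⟨g0, hg0⟩ := Finite.exists_max c
  have h2 : ∀ᶠ y in 𝓝[body v \ S0] s0, ∀ g, ‖f g y‖ ≤ c g * ‖‖y - s0‖ ^ p g‖ :=
    eventually_all.2 hc
  rw [eventually_nhdsWithin_iff, Metric.eventually_nhds_iff] at h2
  obtain ⟨δ, hδ, h3⟩ := h2
  refine ⟨c g0, min δ 1, hc0 g0, lt_min hδ one_pos, ?_⟩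
  intro g y hy hyd
  have h4 := h3 (y := y) (by rw [dist_eq_norm]; exact lt_of_lt_of_le hyd (min_le_left _ _)) hy g
  have hne : y ≠ s0 := by
    rintro rfl
    exact hy.2 hs0
  have hn : 0 < ‖y - s0‖ := norm_pos_iff.2 (sub_ne_zero.2 hne)
  rw [Real.norm_of_nonneg (Real.rpow_nonneg hn.le _)] at h4
  refine h4.trans ?_
  have h5 : ‖y - s0‖ ^ p g ≤ ‖y - s0‖ ^ q :=
    Real.rpow_le_rpow_of_exponent_ge hn (lt_of_lt_of_le hyd (min_le_right _ _)).le (hq g)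
  exact mul_le_mul (hg0 g) h5 (Real.rpow_nonneg hn.le _) (hc0 g0).le

theorem memLp_pull [Finite (G v)] {A : SL(2, ℝ)} {φ : Surf v ≃ₜ Surf v} (hφ : IsAffine A φ)
    {S0 : Set ℂ} (hS0 : S0.Finite) {f : G v → ℂ → ℂ} (hf : Compat S0 f)
    (hc : ∀ g, ContinuousOn (f g) (body v \ S0))
    (hgrow : ∀ g, ∀ s ∈ S0, ∃ p : ℝ, -1 < p ∧
      f g =O[𝓝[body v \ S0] s] (fun y => ‖y - s‖ ^ p)) (g : G v) :
    MemLp (pull φ f g) 2 (volume.restrict (body v)) := by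
  refine memLp_of_bigO (finite_pullSet φ hS0) ?_ ?_
  · intro y hy
    have := continuousWithinAt_pull φ hS0.isClosed hf hc g ⟨y, hy.1⟩
      (fun h => hy.2 ⟨hy.1, g, h⟩)
    exact this.mono Set.sdiff_subset
  · rintro s ⟨hs, -, -⟩
    by_cases hs0 : (proj (φ (Surf.mk g ⟨s, hs⟩)) : ℂ) ∈ S0
    · set s0 : ℂ := (proj (φ (Surf.mk g ⟨s, hs⟩)) : ℂ) with hs0d
      choose p hp1 hp using fun g' => hgrow g' s0 hs0
      obtain ⟨g0, hg0⟩ := Finite.exists_min p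
      obtain ⟨C, δ, hC, hδ, hb⟩ := Gal4_common hs0 hg0 hp
      obtain ⟨C1, hC1, hA⟩ := norm_act_le A
      refine ⟨p g0, hp1 g0, ?_⟩
      refine Asymptotics.IsBigO.of_bound (C * C1 ^ |p g0|) ?_
      have ev1 := Gal4_ev g s hs (hφ (Surf.mk g ⟨s, hs⟩))
      have ev1' : ∀ᶠ y in 𝓝[body v \ pullSet φ S0] s, _ :=
        ev1.filter_mono (nhdsWithin_mono s Set.sdiff_subset)
      have ev2 : ∀ᶠ y in 𝓝[body v \ pullSet φ S0] s, ‖y - s‖ < δ / C1 := by
        have : ∀ᶠ y in 𝓝 s, y ∈ Metric.ball s (δ / C1) := Metric.ball_mem_nhds _ (by positivity)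
        filter_upwards [mem_nhdsWithin_of_mem_nhds this] with y hy
        exact mem_ball_iff_norm.1 hy
      filter_upwards [ev1', ev2, self_mem_nhdsWithin] with y h1 h2 h3
      obtain ⟨g1, g', x, y1, x', y', e1, e2, e3, e4, e5⟩ := h1 h3.1
      have hx : x = ⟨s, hs⟩ := by
        have := congrArg proj e1
        rwa [proj_mk, proj_mk] at this
      have hy1 : y1 = ⟨y, h3.1⟩ := by
        have := congrArg proj e2
        rwa [proj_mk, proj_mk] at this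
      have hx' : (x' : ℂ) = s0 := by
        have := congrArg proj e3
        rw [proj_mk] at this
        rw [hs0d, this]
      have hy' : y' = proj (φ (Surf.mk g ⟨y, h3.1⟩)) := by
        have := congrArg proj e4
        rwa [proj_mk] at this
      have hy'S : (y' : ℂ) ∉ S0 := by
        intro h
        rw [hy'] at h
        exact h3.2 ⟨h3.1, g, h⟩
      have hpull : pull φ f g y = f g' y' := pull_eq hf φ g g' ⟨y, h3.1⟩ y' e4 hy'S
      rw [hx, hy1, hx'] at e5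
      simp only at e5
      have en : ‖(y' : ℂ) - s0‖ = ‖act A ((g1 : ℂ ≃ₗᵢ[ℝ] ℂ) (y - s))‖ := by
        rw [← e5, LinearIsometryEquiv.norm_map]
      have k1 : ‖(y' : ℂ) - s0‖ ≤ C1 * ‖y - s‖ := by
        rw [en]
        have := (hA ((g1 : ℂ ≃ₗᵢ[ℝ] ℂ) (y - s))).1
        rwa [LinearIsometryEquiv.norm_map] at this
      have k2 : ‖y - s‖ ≤ C1 * ‖(y' : ℂ) - s0‖ := by
        rw [en]
        have := (hA ((g1 : ℂ ≃ₗᵢ[ℝ] ℂ) (y - s))).2
        rwa [LinearIsometryEquiv.norm_map] at this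
      have hne : (y' : ℂ) ≠ s0 := by
        intro h
        rw [h] at hy'S
        exact hy'S hs0
      have hn' : 0 < ‖(y' : ℂ) - s0‖ := norm_pos_iff.2 (sub_ne_zero.2 hne)
      have hn : 0 < ‖y - s‖ := by
        by_contra hcon
        have : ‖y - s‖ = 0 := le_antisymm (not_lt.1 hcon) (norm_nonneg _)
        rw [this, mul_zero] at k1
        linarith
      have hlt : ‖(y' : ℂ) - s0‖ < δ := by
        refine lt_of_le_of_lt k1 ?_
        rw [lt_div_iff₀ hC1] at h2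
        linarith
      rw [hpull, Real.norm_of_nonneg (Real.rpow_nonneg hn.le _)]
      calc ‖f g' y'‖ ≤ C * ‖(y' : ℂ) - s0‖ ^ p g0 := hb g' y' ⟨y'.2, hy'S⟩ hlt
        _ ≤ C * (C1 ^ |p g0| * ‖y - s‖ ^ p g0) := by
          have := Gal4_rpow (q := p g0) hC1 hn hn' k1 k2
          gcongr
        _ = _ := by ring
    · refine ⟨0, by norm_num, ?_⟩
      have := continuousWithinAt_pull φ hS0.isClosed hf hc g ⟨s, hs⟩ hs0
      have h1 : Tendsto (pull φ f g) (𝓝[body v \ pullSet φ S0] s) (𝓝 (pull φ f g s)) :=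
        (this.mono Set.sdiff_subset).tendsto
      simpa using h1.isBigO_one ℝ

end Pool.Agent.OBT
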