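import Mathlib
import Pool.Agent.OBT.Gal2
import Pool.Agent.OBT.Gal3
import Pool.Agent.OBT.Gal4
import Pool.Agent.OBT.Nice

/-!
# The function `U` is nice
-/

open scoped ComplexConjugate Topology Real MatrixGroups
open MeasureTheory Filter

namespace Pool.Agent.OBT

variable {v v' : Fin 3 → ℂ} {i : ℤ} {K : Subfield ℂ} {σ : K →+* ℂ} {Z : ℂ → ℂ}

theorem Gal5_compat_mono {S T : Set ℂ} (hST : S ⊆ T) {Q : G v → ℂ → ℂ} (h : Compat S Q) :
    Compat T Q :=
  fun g k y hy => h g k y ⟨hy.1, fun h' => hy.2 (hST h')⟩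

theorem Gal5_pull_zero (φ : Surf v ≃ₜ Surf v) (g : G v) (y : ℂ) :
    pull φ (fun _ _ => (0 : ℂ)) g y = 0 := by
  unfold pull desc
  split_ifs <;> rfl

theorem Gal5_bdd [Finite (G v)] {U : G v → ℂ → ℂ} (h : ∀ g, ContinuousOn (U g) (body v)) :
    ∃ C : ℝ, ∀ g, ∀ y ∈ body v, ‖U g y‖ ≤ C := by
  have hb : ∀ g, ∃ C : ℝ, ∀ y ∈ body v, ‖U g y‖ ≤ C := fun g =>
    isCompact_body.exists_bound_of_continuousOn (h g)
  choose C hC using hb
  obtain ⟨M, hM⟩ := (Set.finite_range C).bddAbove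
  exact ⟨M, fun g y hy => (hC g y hy).trans (hM ⟨g, rfl⟩)⟩

theorem Gal5_conj {f : ℂ → ℂ} {g : G v} {p : ℂ} {y : ℂ} {T : Set ℂ}
    (h : HasFDerivWithinAt f (DG g p 0) T y) :
    HasFDerivWithinAt (fun z => conj (f z)) (DG g 0 (conj p)) T y := by
  have h1 := ((Complex.conjCLE : ℂ ≃L[ℝ] ℂ).toContinuousLinearMap.hasFDerivAt
    (x := f y)).comp_hasFDerivWithinAt y h
  have h2 : (Complex.conjCLE : ℂ ≃L[ℝ] ℂ).toContinuousLinearMap.comp (DG g p 0) =
      DG g 0 (conj p) := by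
    ext x
    simp
  rw [h2] at h1
  exact h1

theorem Gal5_lin {f1 f2 : ℂ → ℂ} {g : G v} {p1 q1 p2 q2 : ℂ} {y : ℂ} {T : Set ℂ} (a b : ℂ)
    (h1 : HasFDerivWithinAt f1 (DG g p1 q1) T y) (h2 : HasFDerivWithinAt f2 (DG g p2 q2) T y) :
    HasFDerivWithinAt (fun z => a * f1 z - b * f2 z)
      (DG g (a * p1 - b * p2) (a * q1 - b * q2)) T y := by
  have h3 := (h1.const_mul a).sub (h2.const_mul b)
  have h4 : a • DG g p1 q1 - b • DG g p2 q2 = DG g (a * p1 - b * p2) (a * q1 - b * q2) := by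
    apply ContinuousLinearMap.ext
    intro x
    simp only [_root_.sub_apply, _root_.smul_apply, DG_apply,
      smul_eq_mul]
    ring
  rw [h4] at h3
  exact h3

theorem Gal5_memLp_conj {f : ℂ → ℂ} {μ : Measure ℂ} (h : MemLp f 2 μ) :
    MemLp (fun z => conj (f z)) 2 μ := h.star

theorem Conj.nice [Finite (G v)] (S : Conj v v' i K σ Z) {S0 : Set ℂ} {f f1 : G v → ℂ → ℂ}
    (hf : HoloS v S0 f) (hf1 : Compat S0 f1) (hf1c : ∀ g, ContinuousOn (f1 g) (body v \ S0))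
    (hfd : ∀ g, ∀ y ∈ body v \ S0, HasFDerivWithinAt (f g) (DG g (f1 g y) 0) (body v) y)
    (hZ : ∀ g, ∀ y ∈ body v \ S0,
      HasFDerivWithinAt (fun y => gi i g (Z y)) (DG g (f g y) 0) (body v) y)
    (hgrow : ∀ g, ∀ s ∈ S0, ∃ p : ℝ, -1 < p ∧
      f g =O[𝓝[body v \ S0] s] (fun y => ‖y - s‖ ^ p))
    {A : SL(2, ℝ)} {φ : Surf v ≃ₜ Surf v} (hφ : IsAffine A φ) :
    ∃ s t : ℂ, s ≠ 0 ∧ ∃ U : G v → ℂ → ℂ,
      Nice v U (fun g y => ca A * pull φ f g y - s * f g y)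
        (fun g y => cb A * pull φ f g y - t * conj (f g y)) := by
  obtain ⟨s, t, U, hs, hUc, hU⟩ := S.exists_U hφ
  refine ⟨s, t, hs, U, S0 ∪ pullSet φ S0, ?_⟩
  have hcl : IsClosed S0 := hf.fin.isClosed
  have hsub : ∀ y ∈ body v \ (S0 ∪ pullSet φ S0), y ∈ body v \ S0 := fun y hy =>
    ⟨hy.1, fun h => hy.2 (Or.inl h)⟩
  have hpr : ∀ (g : G v) (y : ℂ) (hy : y ∈ body v \ (S0 ∪ pullSet φ S0)),
      (proj (φ (Surf.mk g ⟨y, hy.1⟩)) : ℂ) ∉ S0 := fun g y hy h =>
    hy.2 (Or.inr ⟨hy.1, g, h⟩)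
  have hfc : ∀ g, ContinuousOn (f g) (body v \ S0) := fun g y hy =>
    ((hfd g y hy).continuousWithinAt).mono Set.sdiff_subset
  have hdp : ∀ (g : G v) (y : ℂ) (hy : y ∈ body v \ (S0 ∪ pullSet φ S0)),
      HasFDerivWithinAt (pull φ f g) (DG g (ca A * pull φ f1 g y) (cb A * pull φ f1 g y))
        (body v) y := by
    intro g y hy
    have h := hasFDerivWithinAt_pull hφ hcl (Q := f) (Q1 := f1) (Q2 := fun _ _ => 0)
      hf.compat hf1 (fun _ _ _ _ => rfl) hfd g ⟨y, hy.1⟩ (hpr g y hy)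
    simpa only [Gal5_pull_zero, mul_zero, add_zero] using h
  have hcp : ∀ (g : G v), ContinuousOn (pull φ f1 g) (body v \ (S0 ∪ pullSet φ S0)) := by
    intro g y hy
    exact (continuousWithinAt_pull φ hcl hf1 hf1c g ⟨y, hy.1⟩ (hpr g y hy)).mono
      Set.sdiff_subset
  have hcf1 : ∀ (g : G v), ContinuousOn (f1 g) (body v \ (S0 ∪ pullSet φ S0)) := fun g =>
    (hf1c g).mono (fun y hy => hsub y hy)
  have hLp : ∀ g, MemLp (pull φ f g) 2 (volume.restrict (body v)) := fun g =>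
    memLp_pull hφ hf.fin hf.compat hfc hgrow g
  constructor
  · exact hf.fin.union (finite_pullSet φ hf.fin)
  · exact Gal5_bdd (fun g => continuousOn_U S.cont hU g)
  · exact Gal5_compat_mono (Set.empty_subset _) hUc
  · intro g k y hy
    have h1 := compat_pull φ f _ g k y hy
    have h2 := hf.compat g k y ⟨hy.1, fun h => hy.2 (Or.inl h)⟩
    simp only [h1, h2]
  · intro g k y hy
    have h1 := compat_pull φ f _ g k y hy
    have h2 := hf.compat g k y ⟨hy.1, fun h => hy.2 (Or.inl h)⟩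
    simp only [h1, h2]
  · intro g y hy
    exact hasFDerivWithinAt_U hU hcl hf.compat hZ g ⟨y, hy.1⟩ (hsub y hy).2 (hpr g y hy)
  · refine ⟨fun g y => ca A * (ca A * pull φ f1 g y) - s * f1 g y,
      fun g y => ca A * (cb A * pull φ f1 g y),
      fun g y => cb A * (cb A * pull φ f1 g y) - t * conj (f1 g y), ?_, ?_, ?_, ?_, ?_⟩
    · intro g
      exact (continuousOn_const.mul (continuousOn_const.mul (hcp g))).sub
        (continuousOn_const.mul (hcf1 g))
    · intro g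
      exact continuousOn_const.mul (continuousOn_const.mul (hcp g))
    · intro g
      exact (continuousOn_const.mul (continuousOn_const.mul (hcp g))).sub
        (continuousOn_const.mul (Complex.continuous_conj.comp_continuousOn (hcf1 g)))
    · intro g y hy
      have h := Gal5_lin (ca A) s (hdp g y hy) (hfd g y (hsub y hy))
      simpa only [mul_zero, sub_zero] using h
    · intro g y hy
      have h := Gal5_lin (cb A) t (hdp g y hy) (Gal5_conj (hfd g y (hsub y hy)))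
      have e : cb A * (ca A * pull φ f1 g y) - t * 0 = ca A * (cb A * pull φ f1 g y) := by
        ring
      rw [e] at h
      exact h
  · intro g
    exact ((hLp g).const_mul (ca A)).sub ((hf.L2 g).const_mul s)
  · intro g
    exact ((hLp g).const_mul (cb A)).sub ((Gal5_memLp_conj (hf.L2 g)).const_mul t)

end Pool.Agent.OBT
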