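import Mathlib
import Pool.Agent.OBT.MM
import Pool.Agent.OBT.Iso
import Pool.Agent.OBT.Nice

/-!
# Isotypic nice functions in terms of the triangle
-/

open scoped ComplexConjugate Topology Real
open MeasureTheory Filter

namespace Pool.Agent.OBT

/-- `u` defines a bounded isotypic function of weight `n` with `∂ u = P`, `∂̄ u = Q` in `L²` -/
structure NiceT (a b : ℝ) (n : ℤ) (u P Q : ℂ → ℂ) : Prop where
  bdd : ∃ C : ℝ, ∀ y ∈ body (tri a b) \ VV a b, ‖u y‖ ≤ C
  phase : ∀ k, ∀ y ∈ edge (tri a b) k \ VV a b, u y = chi (tri a b) k ^ n * conj (u y)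
  phaseP : ∀ k, ∀ y ∈ edge (tri a b) k \ VV a b, P y = chi (tri a b) k ^ (n - 1) * conj (P y)
  phaseQ : ∀ k, ∀ y ∈ edge (tri a b) k \ VV a b, Q y = chi (tri a b) k ^ (n + 1) * conj (Q y)
  deriv : ∀ y ∈ body (tri a b) \ VV a b,
    HasFDerivWithinAt u (DD (P y) (Q y)) (body (tri a b)) y
  second : ∃ P1 m Q2 : ℂ → ℂ, ContinuousOn P1 (body (tri a b) \ VV a b) ∧
    ContinuousOn m (body (tri a b) \ VV a b) ∧ ContinuousOn Q2 (body (tri a b) \ VV a b) ∧
    (∀ y ∈ body (tri a b) \ VV a b, HasFDerivWithinAt P (DD (P1 y) (m y)) (body (tri a b)) y) ∧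
    (∀ y ∈ body (tri a b) \ VV a b, HasFDerivWithinAt Q (DD (m y) (Q2 y)) (body (tri a b)) y)
  L2a : MemLp P 2 (volume.restrict (body (tri a b)))
  L2b : MemLp Q 2 (volume.restrict (body (tri a b)))

theorem NiceT_memLp_iso {v : Fin 3 → ℂ} {F : ℂ → ℂ} {μ : Measure ℂ} (hF : MemLp F 2 μ) (n : ℤ)
    (g : G v) : MemLp (iso n F g) 2 μ := by
  classical
  by_cases h : rot g
  · have h1 : iso n F g = fun y => uu g ^ n * F y := by
      funext y
      simp only [iso, if_pos h]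
    rw [h1]
    exact hF.const_mul _
  · have h1 : iso n F g = fun y => uu g ^ n * conj (F y) := by
      funext y
      simp only [iso, if_neg h]
    rw [h1]
    have h2 : MemLp (fun y => conj (F y)) 2 μ :=
      ((Complex.conjCLE : ℂ ≃L[ℝ] ℂ) : ℂ →L[ℝ] ℂ).comp_memLp' hF
    exact h2.const_mul _

theorem NiceT_tri_ne {a b : ℝ} (ha : 0 < a) (hb : 0 < b) (hab : a + b < 1) (k : Fin 3) :
    tri a b (k + 1) ≠ tri a b (k + 2) := by
  intro h
  have h1 := (affineIndependent_tri ha hb hab).injective h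
  revert h1
  fin_cases k <;> decide

theorem NiceT.nice {a b : ℝ} (ha : 0 < a) (hb : 0 < b) (hab : a + b < 1) {n : ℤ}
    {u P Q : ℂ → ℂ} (h : NiceT a b n u P Q) :
    ∃ U : G (tri a b) → ℂ → ℂ, Nice (tri a b) U (iso (n - 1) P) (iso (n + 1) Q) := by
  classical
  have hv := NiceT_tri_ne ha hb hab
  have hfin : (VV a b).Finite := Set.finite_range _
  have hcl : IsClosed (VV a b) := hfin.isClosed
  set u' : ℂ → ℂ := fun y => if y ∈ VV a b then 0 else u y with hu'
  have hu'1 : ∀ y, y ∉ VV a b → u' y = u y := fun y hy => by rw [hu']; exact if_neg hy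
  have hu'0 : ∀ y, y ∈ VV a b → u' y = 0 := fun y hy => by rw [hu']; exact if_pos hy
  obtain ⟨P1, m, Q2, hP1, hm, hQ2, hdP, hdQ⟩ := h.second
  refine ⟨iso n u', VV a b, ?_⟩
  refine ⟨hfin, ?_, ?_, ?_, ?_, ?_, ?_, ?_, ?_⟩
  · obtain ⟨C, hC⟩ := h.bdd
    refine ⟨max C 0, fun g y hy => ?_⟩
    rw [norm_iso]
    by_cases hy' : y ∈ VV a b
    · rw [hu'0 y hy', norm_zero]
      exact le_max_right _ _
    · rw [hu'1 y hy']
      exact (hC y ⟨hy, hy'⟩).trans (le_max_left _ _)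
  · refine compat_iso hv n u' (VV a b) fun k y hy => ?_
    rw [hu'1 y hy.2]
    exact h.phase k y hy
  · exact compat_iso hv (n - 1) P (VV a b) h.phaseP
  · exact compat_iso hv (n + 1) Q (VV a b) h.phaseQ
  · intro g y hy
    refine hasFDerivWithinAt_iso n ?_ g
    refine (h.deriv y hy).congr_of_eventuallyEq ?_ (hu'1 y hy.2)
    have hopen : (VV a b)ᶜ ∈ 𝓝 y := hcl.isOpen_compl.mem_nhds hy.2
    exact mem_nhdsWithin_of_mem_nhds (Filter.mem_of_superset hopen fun z hz => hu'1 z hz)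
  · refine ⟨iso (n - 1 - 1) P1, iso n m, iso (n + 1 + 1) Q2, fun g => continuousOn_iso _ hP1 g,
      fun g => continuousOn_iso _ hm g, fun g => continuousOn_iso _ hQ2 g, ?_, ?_⟩
    · intro g y hy
      have h1 := hasFDerivWithinAt_iso (n - 1) (hdP y hy) g
      rw [sub_add_cancel] at h1
      exact h1
    · intro g y hy
      have h1 := hasFDerivWithinAt_iso (n + 1) (hdQ y hy) g
      rw [add_sub_cancel_right] at h1
      exact h1
  · exact fun g => NiceT_memLp_iso h.L2a _ g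
  · exact fun g => NiceT_memLp_iso h.L2b _ g

end Pool.Agent.OBT
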