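import Mathlib
import Pool.Agent.OBT.Form2
import Pool.Agent.OBT.NiceT
import Pool.Agent.OBT.Gal5
import Pool.Agent.OBT.Crit

/-!
# The criterion for rational triangles
-/

open scoped ComplexConjugate Topology Real
open MeasureTheory Filter

namespace Pool.Agent.OBT

variable {N p q : ℕ}

theorem Form3_DG {v : Fin 3 → ℂ} (g : G v) (c w : ℂ) : c • DG g w 0 = DG g (c * w) 0 := by
  ext z
  simp only [_root_.smul_apply, DG_apply, smul_eq_mul]
  ring

/-- multiples of a holomorphic family -/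
theorem Form3_smul {v : Fin 3 → ℂ} {S : Set ℂ} {f : G v → ℂ → ℂ} (c : ℂ) (h : HoloS v S f) :
    HoloS v S (fun g y => c * f g y) := by
  obtain ⟨f1, h1, h2⟩ := h.deriv
  refine ⟨h.fin, ?_, ⟨fun g y => c * f1 g y, fun g => continuousOn_const.mul (h1 g), ?_⟩,
    fun g => (h.L2 g).const_mul c⟩
  · intro g k y hy
    change c * f (g * r v k) y = c * f g y
    rw [h.compat g k y hy]
  · intro g y hy
    have h3 := (h2 g y hy).const_mul c
    rw [Form3_DG] at h3
    exact h3

theorem Form3_zero (v : Fin 3 → ℂ) : HoloS v ∅ (fun _ _ => 0) := by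
  refine ⟨Set.finite_empty, fun g k y _ => rfl, ⟨fun _ _ => 0, fun g => continuousOn_const, ?_⟩,
    fun g => MemLp.zero⟩
  intro g y _
  have h := hasFDerivWithinAt_const (𝕜 := ℝ) (0 : ℂ) y (body v)
  have e : DG g 0 0 = 0 := by
    ext z
    simp
  rw [e]
  exact h

theorem Form3_iso_real {v : Fin 3 → ℂ} (n : ℤ) (F : ℂ → ℂ) {c : ℂ} (hc : conj c = c)
    (g : G v) (y : ℂ) : iso n (fun y => c * F y) g y = c * iso n F g y := by
  unfold iso
  split_ifs with h
  · ring
  · rw [map_mul, hc]; ring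

theorem Form3_ag_pos {m : ℕ} (hN : 0 < N) (h : 0 < m % N) : (0 : ℝ) < ((m % N : ℕ) : ℝ) / N := by
  have h1 : (0 : ℝ) < ((m % N : ℕ) : ℝ) := by exact_mod_cast h
  have h2 : (0 : ℝ) < (N : ℝ) := by exact_mod_cast hN
  positivity

theorem crit_iso (hp : 0 < p) (hq : 0 < q) (hN : 2 * (p + q) < N)
    (hg : Nat.gcd (Nat.gcd p q) N = 1) (hL : LatticeTriangle (TN N p q)) {i j : ℕ}
    (hi : Nat.Coprime i N) (hHi : Hol N p q i) (hHj : Hol N p q j) (hij : ¬ i ≡ j [MOD N])
    (M : ℕ) (hM : i + j ≡ 2 * (M + 1) [MOD N]) (X u : ℕ → ℂ → ℂ) (hX0 : X 0 = FF N p q i)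
    (hX : ∀ m < M, NiceT ((p : ℝ) / N) ((q : ℝ) / N) ((i : ℤ) - 2 * (m + 1)) (u m)
      (X (m + 1)) (X m)) :
    (∫ y in body (TN N p q), X M y * FF N p q j y).re = 0 := by
  classical
  have hN' : p + q < N := by omega
  have hNpos : 0 < N := by omega
  have hNR : (0 : ℝ) < (N : ℝ) := by exact_mod_cast hNpos
  have ha : (0 : ℝ) < (p : ℝ) / N := by
    have : (0 : ℝ) < (p : ℝ) := by exact_mod_cast hp
    positivity
  have hb : (0 : ℝ) < (q : ℝ) / N := by
    have : (0 : ℝ) < (q : ℝ) := by exact_mod_cast hq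
    positivity
  have hab : (p : ℝ) / N + (q : ℝ) / N < 1 := by
    rw [← add_div, div_lt_one hNR]
    exact_mod_cast hN'
  have hv : AffineIndependent ℝ (TN N p q) := affineIndependent_tri ha hb hab
  haveI : Finite (G (TN N p q)) := finite_G hp hq hN'
  letI : Fintype (G (TN N p q)) := Fintype.ofFinite _
  have hne : ∀ k : Fin 3, TN N p q (k + 1) ≠ TN N p q (k + 2) := tri_ne ha hb hab
  -- the constant
  obtain ⟨c, hcd⟩ : ∃ c : ℂ, c = bet ((p : ℝ) / N) ((q : ℝ) / N) /
    bet (ag N p i) (ag N q i) := ⟨_, rfl⟩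
  have hcr : ∃ s : ℝ, 0 < s ∧ c = s := by
    obtain ⟨s1, h1, e1⟩ := bet_pos ha hb
    obtain ⟨s2, h2, e2⟩ := bet_pos (a := ag N p i) (b := ag N q i)
      (Form3_ag_pos hNpos hHi.1) (Form3_ag_pos hNpos hHi.2.1)
    refine ⟨s1 / s2, div_pos h1 h2, ?_⟩
    rw [hcd, e1, e2, Complex.ofReal_div]
  have hcc : conj c = c := by
    obtain ⟨s, _, hs⟩ := hcr
    rw [hs, Complex.conj_ofReal]
  have hc0 : c ≠ 0 := by
    obtain ⟨s, hs0, hs⟩ := hcr
    rw [hs]
    exact_mod_cast hs0.ne'
  -- the forms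
  obtain ⟨f, hfd⟩ : ∃ f : G (TN N p q) → ℂ → ℂ,
    f = fun g y => c * iso ((i : ℤ) - 1) (FF N p q i) g y := ⟨_, rfl⟩
  have hfS : HoloS (TN N p q) (Set.range (TN N p q)) f := by
    rw [hfd]
    exact Form3_smul c (holo_form hp hq hN' hHi)
  have hder : ∀ y ∈ body (TN N p q) \ Set.range (TN N p q),
      HasFDerivWithinAt (FF N p q i) (DD (FF1 N p q i y) 0) (body (TN N p q)) y := by
    intro y hy
    exact hasFDerivWithinAt_MM ha hb hab _ _ hy
  have hFF1c : ContinuousOn (FF1 N p q i) (body (TN N p q) \ Set.range (TN N p q)) := by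
    unfold FF1
    refine continuousOn_const.mul (ContinuousOn.sub (continuousOn_const.mul ?_)
      (continuousOn_const.mul ?_))
    · exact continuousOn_MM ha hb hab _ _
    · exact continuousOn_MM ha hb hab _ _
  have haff : ∀ (A : Matrix.SpecialLinearGroup (Fin 2) ℝ) (φ : Surf (TN N p q) ≃ₜ Surf (TN N p q)),
      IsAffine A φ → ∃ s t : ℂ, s ≠ 0 ∧ ∃ U : G (TN N p q) → ℂ → ℂ,
        Nice (TN N p q) U (fun g y => ca A * pull φ f g y - s * f g y)
        (fun g y => cb A * pull φ f g y - t * conj (f g y)) := by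
    intro A φ hφ
    obtain ⟨K, σ, hconj⟩ := exists_conj hp hq hN hi hHi
    refine hconj.nice (S0 := Set.range (TN N p q)) (f := f)
      (f1 := fun g y => c * iso ((i : ℤ) - 2) (FF1 N p q i) g y) hfS ?_ ?_ ?_ ?_ ?_ hφ
    · intro g k y hy
      change c * iso ((i : ℤ) - 2) (FF1 N p q i) (g * r (TN N p q) k) y =
        c * iso ((i : ℤ) - 2) (FF1 N p q i) g y
      rw [compat_FF1 hp hq hN' i g k y hy]
    · intro g
      exact continuousOn_const.mul (continuousOn_iso _ hFF1c g)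
    · intro g y hy
      have h1 := hasFDerivWithinAt_iso ((i : ℤ) - 1) (Q := fun _ => 0) (hder y hy) g
      have h2 := h1.const_mul c
      rw [hfd]
      have e1 : (i : ℤ) - 1 - 1 = (i : ℤ) - 2 := by ring
      have e2 : iso ((i : ℤ) - 1 + 1) (fun _ => (0 : ℂ)) g y = 0 := by
        unfold iso
        split_ifs <;> simp
      rw [e1, e2, Form3_DG] at h2
      exact h2
    · intro g y hy
      have h1 := hasFDerivWithinAt_gi_ZZ hp hq hN hHi g hy
      rw [← hcd] at h1
      rw [Form3_iso_real _ _ hcc] at h1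
      rw [hfd]
      exact h1
    · intro g s hs
      obtain ⟨k, rfl⟩ := hs
      obtain ⟨e, he, hO⟩ := growth_FF hp hq hN' hHi k
      refine ⟨e, he, ?_⟩
      refine Asymptotics.IsBigO.trans ?_ hO
      refine Asymptotics.IsBigO.of_bound ‖c‖ (Eventually.of_forall fun y => ?_)
      rw [hfd]
      change ‖c * iso ((i : ℤ) - 1) (FF N p q i) g y‖ ≤ _
      rw [norm_mul, norm_iso]
  have key := criterion_core hv hL f (iso ((j : ℤ) - 1) (FF N p q j)) ⟨_, hfS⟩
    ⟨_, holo_form hp hq hN' hHj⟩ ?_ haff M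
    (fun m g y => c * iso ((i : ℤ) - 1 - 2 * m) (X m) g y) (fun _ _ _ => 0) ?_
    (fun m _ => ⟨∅, Form3_zero _⟩) ?_
  · -- the conclusion
    have e1 : ∀ (g : G (TN N p q)) (y : ℂ),
        c * iso ((i : ℤ) - 1 - 2 * M) (X M) g y * iso ((j : ℤ) - 1) (FF N p q j) g y =
        c * iso 0 (fun y => X M y * FF N p q j y) g y := by
      intro g y
      rw [mul_assoc, iso_mul]
      congr 1
      refine iso_congr_mod (N := N) (uu_pow_N hp hq hN') ?_ _ g y
      have h1 : ((i + j : ℕ) : ℤ) ≡ ((2 * (M + 1) : ℕ) : ℤ) [ZMOD N] :=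
        Int.natCast_modEq_iff.2 hM
      have h2 := h1.sub_right ((2 * (M + 1) : ℕ) : ℤ)
      rw [sub_self] at h2
      have h3 : (i : ℤ) - 1 - 2 * M + ((j : ℤ) - 1) =
          ((i + j : ℕ) : ℤ) - ((2 * (M + 1) : ℕ) : ℤ) := by push_cast; ring
      rw [h3]
      exact h2
    have e2 : ∑ g : G (TN N p q), ∫ y in body (TN N p q),
        c * iso ((i : ℤ) - 1 - 2 * M) (X M) g y * iso ((j : ℤ) - 1) (FF N p q j) g y =
        c * ((Fintype.card (G (TN N p q)) : ℂ) *
          ((∫ y in body (TN N p q), X M y * FF N p q j y).re : ℂ)) := by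
      rw [← sum_iso_zero hne, Finset.mul_sum]
      refine Finset.sum_congr rfl fun g _ => ?_
      rw [← integral_const_mul]
      exact integral_congr_ae (Eventually.of_forall fun y => e1 g y)
    rw [e2] at key
    have h4 := (mul_eq_zero.mp key).resolve_left hc0
    have h5 : (Fintype.card (G (TN N p q)) : ℂ) ≠ 0 := by
      exact_mod_cast Fintype.card_ne_zero
    have h6 := (mul_eq_zero.mp h4).resolve_left h5
    exact_mod_cast h6
  · -- orthogonality
    have h1 := orth_form hp hq hN' hg hij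
    have h2 : ∀ g : G (TN N p q), ∫ y in body (TN N p q),
        conj (f g y) * iso ((j : ℤ) - 1) (FF N p q j) g y =
        c * ∫ y in body (TN N p q), conj (iso ((i : ℤ) - 1) (FF N p q i) g y) *
          iso ((j : ℤ) - 1) (FF N p q j) g y := by
      intro g
      rw [← integral_const_mul]
      refine integral_congr_ae (Eventually.of_forall fun y => ?_)
      change conj (f g y) * iso ((j : ℤ) - 1) (FF N p q j) g y = _
      rw [hfd, map_mul, hcc]
      ring
    rw [Finset.sum_congr rfl fun g _ => h2 g, ← Finset.mul_sum, h1, mul_zero]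
  · -- start
    funext g y
    rw [hfd, hX0]
    simp
  · -- steps
    intro m hm
    obtain ⟨U, hU⟩ := (hX m hm).nice ha hb hab
    refine ⟨fun g y => c * U g y, ?_⟩
    have h1 := nice_smul c hU
    have e1 : (i : ℤ) - 2 * (m + 1) - 1 = (i : ℤ) - 1 - 2 * ((m + 1 : ℕ) : ℤ) := by
      push_cast; ring
    have e2 : (i : ℤ) - 2 * (m + 1) + 1 = (i : ℤ) - 1 - 2 * (m : ℤ) := by ring
    rw [e1, e2] at h1
    simpa using h1

end Pool.Agent.OBT
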