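import Mathlib
import Pool.Agent.OBT.MM

/-!
# Leading terms at the vertices
-/

open scoped ComplexConjugate Topology Real
open MeasureTheory Filter

namespace Pool.Agent.OBT

noncomputable section

/-- the angles divided by `π` -/
def alv (a b : ℝ) (k : Fin 3) : ℝ := ![a, b, 1 - a - b] k

/-- the power `t^θ` of the local coordinate at the vertex `k` (`t = X`, `1 - X`, `1 / X`) -/
def tt (a b : ℝ) (k : Fin 3) (θ : ℝ) : ℂ → ℂ := ![MM a b θ 0, MM a b 0 θ, MM a b (-θ) 0] k

/-- `f = c t^θ + O(t^(θ+ε))` at the vertex `k` -/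
def Lead (a b : ℝ) (k : Fin 3) (θ : ℝ) (c : ℂ) (f : ℂ → ℂ) : Prop :=
  ∃ ε : ℝ, 0 < ε ∧ (fun y => f y - c * tt a b k θ y)
    =O[𝓝[body (tri a b) \ VV a b] (tri a b k)]
      (fun y => ‖y - tri a b k‖ ^ ((θ + ε) / alv a b k))

variable {a b : ℝ}

theorem alv_pos (ha : 0 < a) (hb : 0 < b) (hab : a + b < 1) (k : Fin 3) : 0 < alv a b k := by
  fin_cases k
  · exact ha
  · exact hb
  · change 0 < 1 - a - b
    linarith

theorem tt_mul (ha : 0 < a) (hb : 0 < b) (hab : a + b < 1) (k : Fin 3) (θ θ' : ℝ) {y : ℂ}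
    (hy : y ∈ body (tri a b) \ VV a b) : tt a b k θ y * tt a b k θ' y = tt a b k (θ + θ') y := by
  fin_cases k
  · change MM a b θ 0 y * MM a b θ' 0 y = MM a b (θ + θ') 0 y
    rw [MM_mul ha hb hab θ 0 θ' 0 hy, add_zero]
  · change MM a b 0 θ y * MM a b 0 θ' y = MM a b 0 (θ + θ') y
    rw [MM_mul ha hb hab 0 θ 0 θ' hy, add_zero]
  · change MM a b (-θ) 0 y * MM a b (-θ') 0 y = MM a b (-(θ + θ')) 0 y
    rw [MM_mul ha hb hab (-θ) 0 (-θ') 0 hy, add_zero]
    congr 1
    ring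

/-- the punctured neighbourhood filter of the vertex `k` in the triangle -/
def Lead_filt (a b : ℝ) (k : Fin 3) : Filter ℂ := 𝓝[body (tri a b) \ VV a b] (tri a b k)

theorem Lead_mem (k : Fin 3) : ∀ᶠ y in 𝓝[body (tri a b) \ VV a b] (tri a b k),
    y ∈ body (tri a b) \ VV a b := self_mem_nhdsWithin

theorem Lead_norm_pos (k : Fin 3) {y : ℂ} (hy : y ∈ body (tri a b) \ VV a b) :
    0 < ‖y - tri a b k‖ := by
  rw [norm_pos_iff, sub_ne_zero]
  rintro rfl
  exact hy.2 ⟨k, rfl⟩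

theorem Lead_ev_pos (k : Fin 3) : ∀ᶠ y in 𝓝[body (tri a b) \ VV a b] (tri a b k),
    0 < ‖y - tri a b k‖ := (Lead_mem k).mono fun _ hy => Lead_norm_pos k hy

theorem Lead_tendsto_norm (k : Fin 3) :
    Tendsto (fun y => ‖y - tri a b k‖) (𝓝[body (tri a b) \ VV a b] (tri a b k)) (𝓝 0) := by
  have h : Continuous (fun y : ℂ => ‖y - tri a b k‖) := by fun_prop
  have h1 := h.tendsto (tri a b k)
  simp only [sub_self, norm_zero] at h1
  exact h1.mono_left nhdsWithin_le_nhds

theorem Lead_ev_le (k : Fin 3) : ∀ᶠ y in 𝓝[body (tri a b) \ VV a b] (tri a b k),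
    ‖y - tri a b k‖ ≤ 1 :=
  (Lead_tendsto_norm k).eventually (ge_mem_nhds (zero_lt_one' ℝ))

theorem Lead_pow_le (k : Fin 3) {s s' : ℝ} (h : s ≤ s') :
    (fun y => ‖y - tri a b k‖ ^ s') =O[𝓝[body (tri a b) \ VV a b] (tri a b k)]
      (fun y => ‖y - tri a b k‖ ^ s) := by
  refine Asymptotics.IsBigO.of_bound 1 ?_
  filter_upwards [Lead_ev_pos (a := a) (b := b) k, Lead_ev_le (a := a) (b := b) k] with y h1 h2
  rw [one_mul, Real.norm_of_nonneg (Real.rpow_nonneg h1.le _),
    Real.norm_of_nonneg (Real.rpow_nonneg h1.le _)]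
  exact Real.rpow_le_rpow_of_exponent_ge h1 h2 h

theorem Lead_div_le (ha : 0 < a) (hb : 0 < b) (hab : a + b < 1) (k : Fin 3) {s s' : ℝ}
    (h : s ≤ s') :
    (fun y => ‖y - tri a b k‖ ^ (s' / alv a b k)) =O[𝓝[body (tri a b) \ VV a b] (tri a b k)]
      (fun y => ‖y - tri a b k‖ ^ (s / alv a b k)) :=
  Lead_pow_le k (div_le_div_of_nonneg_right h (alv_pos ha hb hab k).le)

theorem Lead_pow_mul (k : Fin 3) (s s' : ℝ) :
    (fun y => ‖y - tri a b k‖ ^ (s / alv a b k) * ‖y - tri a b k‖ ^ (s' / alv a b k))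
      =O[𝓝[body (tri a b) \ VV a b] (tri a b k)]
      (fun y => ‖y - tri a b k‖ ^ ((s + s') / alv a b k)) := by
  refine Filter.EventuallyEq.isBigO ?_
  filter_upwards [Lead_ev_pos (a := a) (b := b) k] with y h1
  rw [add_div, Real.rpow_add h1]

theorem Lead_mul_bigO {k : Fin 3} {s s' : ℝ} {f g : ℂ → ℂ}
    (hf : f =O[𝓝[body (tri a b) \ VV a b] (tri a b k)]
      (fun y => ‖y - tri a b k‖ ^ (s / alv a b k)))
    (hg : g =O[𝓝[body (tri a b) \ VV a b] (tri a b k)]
      (fun y => ‖y - tri a b k‖ ^ (s' / alv a b k))) :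
    (fun y => f y * g y) =O[𝓝[body (tri a b) \ VV a b] (tri a b k)]
      (fun y => ‖y - tri a b k‖ ^ ((s + s') / alv a b k)) :=
  (hf.mul hg).trans (Lead_pow_mul k s s')

theorem tt_bigO (ha : 0 < a) (hb : 0 < b) (hab : a + b < 1) (k : Fin 3) (θ : ℝ) :
    tt a b k θ =O[𝓝[body (tri a b) \ VV a b] (tri a b k)]
      (fun y => ‖y - tri a b k‖ ^ (θ / alv a b k)) := by
  fin_cases k
  · change MM a b θ 0 =O[𝓝[body (tri a b) \ VV a b] 0] (fun y : ℂ => ‖y - 0‖ ^ (θ / a))
    simp only [sub_zero]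
    exact MM_bigO0 ha hb hab θ 0
  · change MM a b 0 θ =O[𝓝[body (tri a b) \ VV a b] 1] (fun y : ℂ => ‖y - 1‖ ^ (θ / b))
    exact MM_bigO1 ha hb hab 0 θ
  · change MM a b (-θ) 0 =O[𝓝[body (tri a b) \ VV a b] (tau a b)]
      (fun y : ℂ => ‖y - tau a b‖ ^ (θ / (1 - a - b)))
    have h := MM_bigO2 ha hb hab (-θ) 0
    rw [add_zero, neg_neg] at h
    exact h

theorem Lead.congr {k : Fin 3} {θ : ℝ} {c : ℂ} {f f' : ℂ → ℂ} (h : Lead a b k θ c f)
    (he : ∀ y ∈ body (tri a b) \ VV a b, f y = f' y) : Lead a b k θ c f' := by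
  obtain ⟨ε, hε, h⟩ := h
  refine ⟨ε, hε, h.congr' ?_ EventuallyEq.rfl⟩
  filter_upwards [Lead_mem (a := a) (b := b) k] with y hy
  rw [he y hy]

theorem Lead.add (ha : 0 < a) (hb : 0 < b) (hab : a + b < 1) {k : Fin 3} {θ : ℝ} {c c' : ℂ}
    {f f' : ℂ → ℂ} (h : Lead a b k θ c f) (h' : Lead a b k θ c' f') :
    Lead a b k θ (c + c') (fun y => f y + f' y) := by
  obtain ⟨ε, hε, h⟩ := h
  obtain ⟨ε', hε', h'⟩ := h'
  refine ⟨min ε ε', lt_min hε hε', ?_⟩
  have h1 := h.trans (Lead_div_le ha hb hab k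
    (show θ + min ε ε' ≤ θ + ε by linarith [min_le_left ε ε']))
  have h2 := h'.trans (Lead_div_le ha hb hab k
    (show θ + min ε ε' ≤ θ + ε' by linarith [min_le_right ε ε']))
  refine (h1.add h2).congr_left ?_
  intro y
  ring

theorem Lead.bigO (ha : 0 < a) (hb : 0 < b) (hab : a + b < 1) {k : Fin 3} {θ : ℝ} {c : ℂ}
    {f : ℂ → ℂ} (h : Lead a b k θ c f) : f =O[𝓝[body (tri a b) \ VV a b] (tri a b k)]
      (fun y => ‖y - tri a b k‖ ^ (θ / alv a b k)) := by
  obtain ⟨ε, hε, h⟩ := h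
  have h1 := h.trans (Lead_div_le ha hb hab k (show θ ≤ θ + ε by linarith))
  have h2 := (tt_bigO ha hb hab k θ).const_mul_left c
  refine (h1.add h2).congr_left ?_
  intro y
  ring

theorem Lead.mul (ha : 0 < a) (hb : 0 < b) (hab : a + b < 1) {k : Fin 3} {θ θ' : ℝ} {c c' : ℂ}
    {f f' : ℂ → ℂ} (h : Lead a b k θ c f) (h' : Lead a b k θ' c' f') :
    Lead a b k (θ + θ') (c * c') (fun y => f y * f' y) := by
  have hb' := h'.bigO ha hb hab
  obtain ⟨ε, hε, h⟩ := h
  obtain ⟨ε', hε', h'⟩ := h'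
  refine ⟨min ε ε', lt_min hε hε', ?_⟩
  have h1 := (Lead_mul_bigO h hb').trans (Lead_div_le ha hb hab k
    (show θ + θ' + min ε ε' ≤ θ + ε + θ' by linarith [min_le_left ε ε']))
  have h2 := (Lead_mul_bigO ((tt_bigO ha hb hab k θ).const_mul_left c) h').trans
    (Lead_div_le ha hb hab k
      (show θ + θ' + min ε ε' ≤ θ + (θ' + ε') by linarith [min_le_right ε ε']))
  refine (h1.add h2).congr' ?_ EventuallyEq.rfl
  filter_upwards [Lead_mem (a := a) (b := b) k] with y hy
  rw [← tt_mul ha hb hab k θ θ' hy]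
  ring

theorem lead_zero (ha : 0 < a) (hb : 0 < b) (hab : a + b < 1) (k : Fin 3) (θ : ℝ) :
    Lead a b k θ 0 (fun _ => 0) := by
  refine ⟨1, one_pos, ?_⟩
  simp only [zero_mul, sub_zero]
  exact Asymptotics.isBigO_zero _ _

theorem Lead.const_mul (ha : 0 < a) (hb : 0 < b) (hab : a + b < 1) {k : Fin 3} {θ : ℝ} {c : ℂ}
    {f : ℂ → ℂ} (h : Lead a b k θ c f) (d : ℂ) : Lead a b k θ (d * c) (fun y => d * f y) := by
  obtain ⟨ε, hε, h⟩ := h
  refine ⟨ε, hε, (h.const_mul_left d).congr_left ?_⟩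
  intro y
  ring

theorem Lead_tt_zero (k : Fin 3) (y : ℂ) : tt a b k 0 y = 1 := by
  fin_cases k
  · exact MM_zero_zero y
  · exact MM_zero_zero y
  · change MM a b (-0) 0 y = 1
    rw [neg_zero]
    exact MM_zero_zero y

theorem Lead.pow (ha : 0 < a) (hb : 0 < b) (hab : a + b < 1) {k : Fin 3} {θ : ℝ} {c : ℂ}
    {f : ℂ → ℂ} (h : Lead a b k θ c f) (n : ℕ) :
    Lead a b k (n * θ) (c ^ n) (fun y => f y ^ n) := by
  induction n with
  | zero =>
    refine ⟨1, one_pos, ?_⟩
    have h1 : ∀ y, f y ^ 0 - c ^ 0 * tt a b k ((0 : ℕ) * θ) y = 0 := by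
      intro y
      rw [Nat.cast_zero, zero_mul, Lead_tt_zero, pow_zero, pow_zero, mul_one, sub_self]
    simp only [h1]
    exact Asymptotics.isBigO_zero _ _
  | succ n ih =>
    have h1 := ih.mul ha hb hab h
    have h2 : (n : ℝ) * θ + θ = ((n + 1 : ℕ) : ℝ) * θ := by
      push_cast
      ring
    rw [h2, ← pow_succ] at h1
    exact h1.congr fun y _ => (pow_succ (f y) n).symm

/-- a function of higher order has leading coefficient `0` -/
theorem lead_of_bigO (ha : 0 < a) (hb : 0 < b) (hab : a + b < 1) {k : Fin 3} {θ θ' : ℝ}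
    (hθ : θ < θ') {f : ℂ → ℂ} (h : f =O[𝓝[body (tri a b) \ VV a b] (tri a b k)]
      (fun y => ‖y - tri a b k‖ ^ (θ' / alv a b k))) : Lead a b k θ 0 f := by
  refine ⟨θ' - θ, sub_pos.2 hθ, ?_⟩
  have h1 : θ + (θ' - θ) = θ' := by ring
  rw [h1]
  refine h.congr_left ?_
  intro y
  ring

theorem Lead.lower (ha : 0 < a) (hb : 0 < b) (hab : a + b < 1) {k : Fin 3} {θ θ' : ℝ} {c : ℂ}
    (hθ : θ' < θ) {f : ℂ → ℂ} (h : Lead a b k θ c f) : Lead a b k θ' 0 f :=
  lead_of_bigO ha hb hab hθ (h.bigO ha hb hab)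

/-- vanishing leading coefficient: a gain in the exponent -/
theorem Lead.bigO_of_zero (ha : 0 < a) (hb : 0 < b) (hab : a + b < 1) {k : Fin 3} {θ : ℝ}
    {f : ℂ → ℂ} (h : Lead a b k θ 0 f) : ∃ ε : ℝ, 0 < ε ∧
      f =O[𝓝[body (tri a b) \ VV a b] (tri a b k)]
      (fun y => ‖y - tri a b k‖ ^ ((θ + ε) / alv a b k)) := by
  obtain ⟨ε, hε, h⟩ := h
  refine ⟨ε, hε, h.congr_left ?_⟩
  intro y
  ring

/-- leading coefficients of `X^A (1-X)^B` -/
def lm (B : ℝ) (k : Fin 3) : ℂ := ![1, 1, Complex.exp (-(π * B) * Complex.I)] k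

/-- orders of `X^A (1-X)^B` -/
def om (A B : ℝ) (k : Fin 3) : ℝ := ![A, B, -(A + B)] k

theorem Lead_exp_zero : Complex.exp (-((π : ℂ) * ((0 : ℝ) : ℂ)) * Complex.I) = 1 := by
  simp

theorem Lead_cpow_zero (x : ℂ) : x ^ (((0 : ℝ)) : ℂ) = 1 := by
  simp

theorem Lead_arg {x : ℂ} (hx : x ∈ Hb) : 0 ≤ x.arg ∧ x.arg ≤ π :=
  ⟨Complex.arg_nonneg_iff.2 hx, Complex.arg_le_pi x⟩

theorem Lead_sub_one {x : ℂ} (hx : x ∈ Hb) : x - 1 ∈ Hb := by
  have : (x - 1).im = x.im := by simp
  change 0 ≤ (x - 1).im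
  rw [this]
  exact hx

theorem Lead_div (c : ℂ) {x : ℂ} (hx : x ∈ Hb) (h0 : x ≠ 0) (h1 : x ≠ 1) :
    (x - 1) ^ c / x ^ c = (1 - x⁻¹) ^ c := by
  have h2 : x - 1 ≠ 0 := sub_ne_zero.2 h1
  have h3 : 1 - x⁻¹ = (x - 1) / x := by
    field_simp
  have h4 : (x - 1) / x ≠ 0 := div_ne_zero h2 h0
  have h5 : Complex.log ((x - 1) / x) = Complex.log (x - 1) - Complex.log x := by
    have h6 : Complex.exp (Complex.log (x - 1) - Complex.log x) = (x - 1) / x := by
      rw [Complex.exp_sub, Complex.exp_log h2, Complex.exp_log h0]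
    rw [← h6, Complex.log_exp]
    · rw [Complex.sub_im, Complex.log_im, Complex.log_im]
      have ha := Lead_arg (Lead_sub_one hx)
      have hb := Lead_arg hx
      rcases ha.1.lt_or_eq with h | h
      · linarith [hb.2]
      · have h7 : x.arg ≠ π := by
          intro h8
          have h9 := Complex.arg_eq_zero_iff.1 h.symm
          have h10 := Complex.arg_eq_pi_iff.1 h8
          have h11 : (x - 1).re = x.re - 1 := by simp
          have h12 := h9.1
          rw [h11] at h12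
          linarith [h10.1]
        have h8 := lt_of_le_of_ne hb.2 h7
        rw [← h]
        linarith
    · rw [Complex.sub_im, Complex.log_im, Complex.log_im]
      have ha := Lead_arg (Lead_sub_one hx)
      have hb := Lead_arg hx
      linarith [ha.2, hb.1]
  rw [h3, Complex.cpow_def_of_ne_zero h4, Complex.cpow_def_of_ne_zero h2,
    Complex.cpow_def_of_ne_zero h0, h5, ← Complex.exp_sub]
  congr 1
  ring

/-- the other branch at `0` -/
theorem Lead_one_sub (B : ℝ) {x : ℂ} (hx : x ∈ Hb) (h1 : x.re < 1) :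
    Complex.exp (-(π * B) * Complex.I) * (x - 1) ^ (B : ℂ) = (1 - x) ^ (B : ℂ) := by
  have hne : 1 - x ≠ 0 := by
    intro h
    have h2 := congrArg Complex.re h
    rw [Complex.sub_re, Complex.one_re, Complex.zero_re] at h2
    linarith
  have hne' : x - 1 ≠ 0 := by
    intro h
    apply hne
    rw [← neg_sub, h, neg_zero]
  have h5 : Complex.log (x - 1) = Complex.log (1 - x) + π * Complex.I := by
    have h6 : Complex.exp (Complex.log (1 - x) + π * Complex.I) = x - 1 := by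
      rw [Complex.exp_add, Complex.exp_log hne, Complex.exp_pi_mul_I]
      ring
    have h7 : (1 - x).arg ≤ 0 := by
      by_contra hcon
      push Not at hcon
      have h8 : 0 ≤ (1 - x).im := Complex.arg_nonneg_iff.1 hcon.le
      rw [Complex.sub_im, Complex.one_im] at h8
      have h9 : 0 ≤ x.im := hx
      have h10 : x.im = 0 := by linarith
      have h11 : (1 - x).arg = 0 := by
        rw [Complex.arg_eq_zero_iff]
        constructor
        · rw [Complex.sub_re, Complex.one_re]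
          linarith
        · rw [Complex.sub_im, Complex.one_im, h10, sub_zero]
      rw [h11] at hcon
      exact lt_irrefl _ hcon
    have h8 := Complex.neg_pi_lt_arg (1 - x)
    have h9 : (Complex.log (1 - x) + π * Complex.I).im = (1 - x).arg + π := by
      rw [Complex.add_im, Complex.log_im]
      simp
    rw [← h6, Complex.log_exp]
    · rw [h9]
      linarith [Real.pi_pos]
    · rw [h9]
      linarith
  rw [Complex.cpow_def_of_ne_zero hne, Complex.cpow_def_of_ne_zero hne', h5, ← Complex.exp_add]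
  congr 1
  ring

theorem Lead_mm_zero (B : ℝ) :
    (fun x => mm 0 B x - 1) =O[𝓝[Hb \ {0, 1}] 0] (fun x => mm 1 0 x) := by
  have h1 : DifferentiableAt ℂ (fun x : ℂ => (1 - x) ^ (B : ℂ)) 0 := by
    refine DifferentiableAt.cpow_const ?_ ?_
    · fun_prop
    · simp
  have h2 := h1.isBigO_sub.mono (nhdsWithin_le_nhds (s := Hb \ {0, 1}))
  refine h2.congr' ?_ ?_
  · have hev : ∀ᶠ x : ℂ in 𝓝 0, x.re < 1 := by
      refine Complex.continuous_re.continuousAt.eventually_lt continuousAt_const ?_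
      simp
    filter_upwards [self_mem_nhdsWithin, hev.filter_mono nhdsWithin_le_nhds] with x hx hx1
    rw [sub_zero, Complex.one_cpow, ← Lead_one_sub B hx.1 hx1]
    unfold mm
    rw [Lead_cpow_zero, one_mul]
  · filter_upwards with x
    rw [mm_one_zero, sub_zero]

theorem Lead_mm_one (A : ℝ) :
    (fun x => mm A 0 x - 1) =O[𝓝[Hb \ {0, 1}] 1] (fun x => mm 0 1 x) := by
  have h1 : DifferentiableAt ℂ (fun x : ℂ => x ^ (A : ℂ)) 1 := by
    refine DifferentiableAt.cpow_const ?_ ?_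
    · fun_prop
    · simp
  have h2 := h1.isBigO_sub.mono (nhdsWithin_le_nhds (s := Hb \ {0, 1}))
  have h3 : (fun x : ℂ => x - 1) =O[𝓝[Hb \ {0, 1}] 1] (fun x => mm 0 1 x) := by
    refine Asymptotics.IsBigO.of_bound 1 ?_
    filter_upwards with x
    rw [one_mul, norm_sub_rev, mm_zero_one]
  refine (h2.trans h3).congr_left ?_
  intro x
  unfold mm
  rw [Lead_cpow_zero, Lead_exp_zero, mul_one, mul_one, Complex.one_cpow]

theorem Lead_mm_inf (B : ℝ) :
    (fun x => mm (-B) B x - Complex.exp (-(π * B) * Complex.I))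
      =O[Bornology.cobounded ℂ ⊓ 𝓟 Hb] (fun x => mm (-1) 0 x) := by
  have h1 : DifferentiableAt ℂ (fun x : ℂ => (1 - x) ^ (B : ℂ)) 0 := by
    refine DifferentiableAt.cpow_const ?_ ?_
    · fun_prop
    · simp
  have hinv : Tendsto (fun x : ℂ => x⁻¹) (Bornology.cobounded ℂ ⊓ 𝓟 Hb) (𝓝 0) :=
    tendsto_inv₀_cobounded.mono_left inf_le_left
  have h2 := (h1.isBigO_sub.comp_tendsto hinv).const_mul_left
    (Complex.exp (-(π * B) * Complex.I))
  have hev : ∀ᶠ x : ℂ in Bornology.cobounded ℂ ⊓ 𝓟 Hb, 1 < ‖x‖ ∧ x ∈ Hb := by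
    have h4 : ∀ᶠ x : ℂ in Bornology.cobounded ℂ, 1 < ‖x‖ :=
      (tendsto_norm_cobounded_atTop (E := ℂ)).eventually_gt_atTop 1
    have h5 : ∀ᶠ x : ℂ in 𝓟 Hb, x ∈ Hb := mem_principal_self Hb
    exact (h4.filter_mono inf_le_left).and (h5.filter_mono inf_le_right)
  refine h2.congr' ?_ ?_
  · filter_upwards [hev] with x hx
    obtain ⟨hx1, hxH⟩ := hx
    have hx0 : x ≠ 0 := by
      intro h
      rw [h, norm_zero] at hx1
      linarith
    have hxn : x ≠ 1 := by
      intro h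
      rw [h, norm_one] at hx1
      exact lt_irrefl _ hx1
    simp only [Function.comp_apply]
    unfold mm
    rw [sub_zero, Complex.one_cpow, ← Lead_div (B : ℂ) hxH hx0 hxn, Complex.ofReal_neg,
      Complex.cpow_neg, div_eq_mul_inv]
    ring
  · filter_upwards [hev] with x hx
    obtain ⟨hx1, hxH⟩ := hx
    have hx0 : x ≠ 0 := by
      intro h
      rw [h, norm_zero] at hx1
      linarith
    simp only [Function.comp_apply]
    unfold mm
    rw [sub_zero, Lead_cpow_zero, Lead_exp_zero, mul_one, mul_one, Complex.ofReal_neg,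
      Complex.cpow_neg, Complex.ofReal_one, Complex.cpow_one]

theorem lead_MM (ha : 0 < a) (hb : 0 < b) (hab : a + b < 1) (A B : ℝ) (k : Fin 3) :
    Lead a b k (om A B k) (lm B k) (MM a b A B) := by
  refine ⟨1, one_pos, ?_⟩
  have key : ∀ g : ℂ → ℂ, (g =O[𝓝[body (tri a b) \ VV a b] (tri a b k)]
      (fun y => ‖y - tri a b k‖ ^ (1 / alv a b k))) →
      (∀ y ∈ body (tri a b) \ VV a b,
        MM a b A B y - lm B k * tt a b k (om A B k) y = tt a b k (om A B k) y * g y) →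
      (fun y => MM a b A B y - lm B k * tt a b k (om A B k) y)
        =O[𝓝[body (tri a b) \ VV a b] (tri a b k)]
      (fun y => ‖y - tri a b k‖ ^ ((om A B k + 1) / alv a b k)) := by
    intro g hg he
    refine (Lead_mul_bigO (tt_bigO ha hb hab k (om A B k)) hg).congr' ?_ EventuallyEq.rfl
    filter_upwards [Lead_mem (a := a) (b := b) k] with y hy
    exact (he y hy).symm
  fin_cases k
  · refine key (fun y => MM a b 0 B y - 1) ?_ ?_
    · have h1 := (Lead_mm_zero B).comp_tendsto (tendsto_XX_zero ha hb hab)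
      exact h1.trans (tt_bigO ha hb hab 0 1)
    · intro y hy
      change MM a b A B y - 1 * MM a b A 0 y = MM a b A 0 y * (MM a b 0 B y - 1)
      have h1 := MM_mul ha hb hab A 0 0 B hy
      rw [add_zero, zero_add] at h1
      rw [← h1]
      ring
  · refine key (fun y => MM a b A 0 y - 1) ?_ ?_
    · have h1 := (Lead_mm_one A).comp_tendsto (tendsto_XX_one ha hb hab)
      exact h1.trans (tt_bigO ha hb hab 1 1)
    · intro y hy
      change MM a b A B y - 1 * MM a b 0 B y = MM a b 0 B y * (MM a b A 0 y - 1)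
      have h1 := MM_mul ha hb hab A 0 0 B hy
      rw [add_zero, zero_add] at h1
      rw [← h1]
      ring
  · refine key (fun y => MM a b (-B) B y - Complex.exp (-(π * B) * Complex.I)) ?_ ?_
    · have h1 := (Lead_mm_inf B).comp_tendsto (tendsto_XX_tau ha hb hab)
      exact h1.trans (tt_bigO ha hb hab 2 1)
    · intro y hy
      change MM a b A B y - Complex.exp (-(π * B) * Complex.I) * MM a b (-(-(A + B))) 0 y =
        MM a b (-(-(A + B))) 0 y * (MM a b (-B) B y - Complex.exp (-(π * B) * Complex.I))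
      have h1 := MM_mul ha hb hab (A + B) 0 (-B) B hy
      have h2 : A + B + -B = A := by ring
      rw [h2, zero_add] at h1
      rw [neg_neg, ← h1]
      ring

theorem Lead_tendsto_tt (ha : 0 < a) (hb : 0 < b) (hab : a + b < 1) (k : Fin 3) :
    Tendsto (fun y => (y - tri a b k) * tt a b k (-alv a b k) y)
      (𝓝[body (tri a b) \ VV a b] (tri a b k))
      (𝓝 (1 / (alv a b k *
        (![bet a b, -bet a b, bet a b * Complex.exp (π * b * Complex.I)] k)))) := by
  fin_cases k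
  · change Tendsto (fun y : ℂ => (y - 0) * MM a b (-a) 0 y) (𝓝[body (tri a b) \ VV a b] 0)
      (𝓝 (1 / (a * bet a b)))
    refine (y_lim0 ha hb hab).congr' ?_
    filter_upwards [self_mem_nhdsWithin] with y hy
    have h1 := MM_mul ha hb hab a 0 (-a) 0 hy
    rw [add_neg_cancel, add_zero, MM_zero_zero] at h1
    rw [sub_zero, eq_inv_of_mul_eq_one_right h1, div_eq_mul_inv]
  · change Tendsto (fun y : ℂ => (y - 1) * MM a b 0 (-b) y) (𝓝[body (tri a b) \ VV a b] 1)
      (𝓝 (1 / (b * -bet a b)))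
    have e : (1 : ℂ) / (b * -bet a b) = -1 / (b * bet a b) := by
      rw [mul_neg, div_neg, neg_div]
    rw [e]
    refine (y_lim1 ha hb hab).congr' ?_
    filter_upwards [self_mem_nhdsWithin] with y hy
    have h1 := MM_mul ha hb hab 0 b 0 (-b) hy
    rw [add_neg_cancel, add_zero, MM_zero_zero] at h1
    rw [eq_inv_of_mul_eq_one_right h1, div_eq_mul_inv]
  · change Tendsto (fun y : ℂ => (y - tau a b) * MM a b (- -(1 - a - b)) 0 y)
      (𝓝[body (tri a b) \ VV a b] (tau a b))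
      (𝓝 (1 / (((1 - a - b : ℝ) : ℂ) * (bet a b * Complex.exp (π * b * Complex.I)))))
    have e : (1 : ℂ) / (((1 - a - b : ℝ) : ℂ) * (bet a b * Complex.exp (π * b * Complex.I))) =
        Complex.exp (-(π * (b - 1)) * Complex.I) / ((a + b - 1) * bet a b) := by
      have e1 : -((π : ℂ) * (b - 1)) * Complex.I = π * Complex.I - π * b * Complex.I := by ring
      have e2 : ((1 - a - b : ℝ) : ℂ) = -((a : ℂ) + b - 1) := by
        push_cast
        ring
      rw [e1, e2, Complex.exp_sub, Complex.exp_pi_mul_I]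
      have h3 := Complex.exp_ne_zero (π * b * Complex.I)
      rw [neg_mul, div_neg, div_div, neg_div]
      congr 2
      ring
    rw [e]
    refine (y_lim2 ha hb hab).congr' ?_
    filter_upwards [self_mem_nhdsWithin] with y hy
    have h1 := MM_mul ha hb hab (a + b - 1) 0 (1 - a - b) 0 hy
    have h2 : a + b - 1 + (1 - a - b) = 0 := by ring
    rw [h2, add_zero, MM_zero_zero] at h1
    rw [neg_neg, eq_inv_of_mul_eq_one_right h1, div_eq_mul_inv]

/-- the limit of `(y - v_k) f` when `f` has order `-α_k` -/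
theorem Lead.tendsto (ha : 0 < a) (hb : 0 < b) (hab : a + b < 1) {k : Fin 3} {c : ℂ}
    {f : ℂ → ℂ} (h : Lead a b k (-alv a b k) c f) :
    Tendsto (fun y => (y - tri a b k) * f y) (𝓝[body (tri a b) \ VV a b] (tri a b k))
      (𝓝 (c / (alv a b k *
        (![bet a b, -bet a b, bet a b * Complex.exp (π * b * Complex.I)] k)))) := by
  obtain ⟨ε, hε, h⟩ := h
  have hα := alv_pos ha hb hab k
  have h1 := (Lead_tendsto_tt ha hb hab k).const_mul c
  rw [mul_one_div] at h1
  have h2 : (fun y => (y - tri a b k) * (f y - c * tt a b k (-alv a b k) y))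
      =O[𝓝[body (tri a b) \ VV a b] (tri a b k)]
      (fun y => ‖y - tri a b k‖ ^ (ε / alv a b k)) := by
    have h3 : (fun y => y - tri a b k) =O[𝓝[body (tri a b) \ VV a b] (tri a b k)]
        (fun y => ‖y - tri a b k‖ ^ (alv a b k / alv a b k)) := by
      refine Asymptotics.IsBigO.of_bound 1 ?_
      filter_upwards with y
      rw [div_self hα.ne', Real.rpow_one, one_mul, norm_norm]
    have h4 := Lead_mul_bigO h3 h
    have h5 : alv a b k + (-alv a b k + ε) = ε := by ring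
    rw [h5] at h4
    exact h4
  have h3 : Tendsto (fun y => ‖y - tri a b k‖ ^ (ε / alv a b k))
      (𝓝[body (tri a b) \ VV a b] (tri a b k)) (𝓝 0) := by
    have h4 := (Lead_tendsto_norm (a := a) (b := b) k).rpow_const
      (Or.inr (div_pos hε hα).le : (0 : ℝ) ≠ 0 ∨ 0 ≤ ε / alv a b k)
    rwa [Real.zero_rpow (div_pos hε hα).ne'] at h4
  have h4 := (h2.trans_tendsto h3).add h1
  rw [zero_add] at h4
  refine h4.congr ?_
  intro y
  ring

end

end Pool.Agent.OBT
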