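import Mathlib
import Pool.Agent.OBT.Lead

/-!
# The coefficients of the derivatives of `F W^m / m!`
-/

open scoped ComplexConjugate Topology Real
open MeasureTheory Filter

namespace Pool.Agent.OBT

noncomputable section

/-- order of `g` at the vertex `k` -/
def omw (a b : ℝ) (e1 e2 : ℕ) (k : Fin 3) : ℝ := ![1 - a - e1, 1 - b - e2, e1 + e2 - (1 - a - b)] k

/-- leading coefficient of `g` at the vertex `k` -/
def gam (a b : ℝ) (e1 e2 : ℕ) (κ : ℝ) (k : Fin 3) : ℂ :=
  (![(κ / (1 - a - e1) : ℂ), (-κ / (1 - b - e2) : ℂ),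
    κ * Complex.exp (π * (b + e2) * Complex.I) / (1 - a - b - e1 - e2)] : Fin 3 → ℂ) k

/-- the factor in the derivative of powers of the local coordinate -/
def bb (a b : ℝ) (k : Fin 3) : ℂ :=
  (![bet a b, -bet a b, bet a b * Complex.exp (π * b * Complex.I)] : Fin 3 → ℂ) k

/-- the derivative of `g` -/
def G1 (a b : ℝ) (e1 e2 : ℕ) (κ : ℝ) (y : ℂ) : ℂ :=
  κ * bet a b * MM a b (1 - 2 * a - e1) (1 - 2 * b - e2) y

/-- the functions `H r l` with `∂^r (F W^m/m!) = ∑_l W^(m-l)/(m-l)! H r l`, `F = MM A0 B0` -/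
structure HData (a b : ℝ) (e1 e2 : ℕ) (κ A0 B0 : ℝ) (H : ℕ → ℕ → ℂ → ℂ)
    (h : Fin 3 → ℕ → ℕ → ℂ) : Prop where
  zero : H 0 0 = MM a b A0 B0
  vanish : ∀ r l : ℕ, r < l → H r l = fun _ => 0
  cont : ∀ r l, ContinuousOn (H r l) (body (tri a b) \ VV a b)
  deriv0 : ∀ r : ℕ, ∀ y ∈ body (tri a b) \ VV a b,
    HasFDerivWithinAt (H r 0) (DD (H (r + 1) 0 y) 0) (body (tri a b)) y
  deriv1 : ∀ r l : ℕ, ∀ y ∈ body (tri a b) \ VV a b,
    HasFDerivWithinAt (H r (l + 1)) (DD (H (r + 1) (l + 1) y - G1 a b e1 e2 κ y * H r l y) 0)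
      (body (tri a b)) y
  phase : ∀ (r l : ℕ) (k : Fin 3), ∀ y ∈ edge (tri a b) k \ VV a b, ∃ s : ℝ,
    H r l y = s * MM a b (A0 + l * (1 - a - e1) - r * a) (B0 + l * (1 - b - e2) - r * b) y
  lead : ∀ (r l : ℕ) (k : Fin 3), Lead a b k (om A0 B0 k + l * omw a b e1 e2 k - r * alv a b k) (h k r l) (H r l)
  h_zero : ∀ k, h k 0 0 = lm B0 k
  h_vanish : ∀ (k : Fin 3) (r l : ℕ), r < l → h k r l = 0
  h_succ0 : ∀ (k : Fin 3) (r : ℕ), h k (r + 1) 0 = bb a b k * (om A0 B0 k - r * alv a b k : ℝ) * h k r 0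
  h_succ1 : ∀ (k : Fin 3) (r l : ℕ), h k (r + 1) (l + 1) =
    bb a b k * (om A0 B0 k + (l + 1) * omw a b e1 e2 k - r * alv a b k : ℝ) * h k r (l + 1) +
      bb a b k * omw a b e1 e2 k * gam a b e1 e2 κ k * h k r l

/-! ### the polynomials -/

/-- exponents -/
def HFun_A (a : ℝ) (e : ℕ) (A0 : ℝ) (r l : ℕ) : ℝ := A0 + l * (1 - a - e) - r * a

/-- the operator on polynomials given by the derivative -/
def HFun_LL (β A B : ℝ) (p : Polynomial ℝ) : Polynomial ℝ :=
  Polynomial.C β * (Polynomial.C A * (1 - Polynomial.X) * p - Polynomial.C B * Polynomial.X * p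
    + Polynomial.X * (1 - Polynomial.X) * Polynomial.derivative p)

/-- the polynomials -/
def HFun_pol (β κ a b : ℝ) (e1 e2 : ℕ) (A0 B0 : ℝ) : ℕ → ℕ → Polynomial ℝ
  | 0, 0 => 1
  | 0, (_ + 1) => 0
  | (r + 1), 0 => HFun_LL β (HFun_A a e1 A0 r 0) (HFun_A b e2 B0 r 0)
      (HFun_pol β κ a b e1 e2 A0 B0 r 0)
  | (r + 1), (l + 1) => HFun_LL β (HFun_A a e1 A0 r (l + 1)) (HFun_A b e2 B0 r (l + 1))
      (HFun_pol β κ a b e1 e2 A0 B0 r (l + 1)) +
      Polynomial.C (κ * β) * HFun_pol β κ a b e1 e2 A0 B0 r l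

theorem HFun_LL_zero (β A B : ℝ) : HFun_LL β A B 0 = 0 := by
  simp [HFun_LL]

theorem HFun_LL_coeff (β A B : ℝ) (p : Polynomial ℝ) (j : ℕ) :
    (HFun_LL β A B p).coeff (j + 1) = β * (A * (p.coeff (j + 1) - p.coeff j) - B * p.coeff j
      + (j + 1) * p.coeff (j + 1) - j * p.coeff j) := by
  have e : HFun_LL β A B p = Polynomial.C β * (Polynomial.C A * p
      - Polynomial.C A * (Polynomial.X * p) - Polynomial.C B * (Polynomial.X * p)
      + Polynomial.X * Polynomial.derivative p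
      - Polynomial.X * (Polynomial.X * Polynomial.derivative p)) := by
    unfold HFun_LL; ring
  have e2 : (Polynomial.X * Polynomial.derivative p).coeff j = j * p.coeff j := by
    cases j with
    | zero => simp
    | succ j =>
      rw [Polynomial.coeff_X_mul, Polynomial.coeff_derivative]
      push_cast; ring
  rw [e]
  simp only [Polynomial.coeff_C_mul, Polynomial.coeff_sub, Polynomial.coeff_add,
    Polynomial.coeff_X_mul, e2, Polynomial.coeff_derivative]
  ring

theorem HFun_LL_natDegree (β A B : ℝ) {p : Polynomial ℝ} {n : ℕ} (hp : p.natDegree ≤ n) :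
    (HFun_LL β A B p).natDegree ≤ n + 1 := by
  rw [Polynomial.natDegree_le_iff_coeff_eq_zero]
  intro N hN
  obtain ⟨j, rfl⟩ : ∃ j, N = j + 1 := ⟨N - 1, by omega⟩
  rw [HFun_LL_coeff, Polynomial.coeff_eq_zero_of_natDegree_lt (by omega : p.natDegree < j + 1),
    Polynomial.coeff_eq_zero_of_natDegree_lt (by omega : p.natDegree < j)]
  ring

theorem HFun_LL_coeff_top (β A B : ℝ) {p : Polynomial ℝ} {n : ℕ} (hp : p.natDegree ≤ n) :
    (HFun_LL β A B p).coeff (n + 1) = β * ((-(A + B) - n) * p.coeff n) := by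
  rw [HFun_LL_coeff, Polynomial.coeff_eq_zero_of_natDegree_lt (by omega : p.natDegree < n + 1)]
  ring

theorem HFun_LL_eval_zero (β A B : ℝ) (p : Polynomial ℝ) :
    (HFun_LL β A B p).eval 0 = β * (A * p.eval 0) := by
  simp [HFun_LL]

theorem HFun_LL_eval_one (β A B : ℝ) (p : Polynomial ℝ) :
    (HFun_LL β A B p).eval 1 = -β * (B * p.eval 1) := by
  simp [HFun_LL]

section

variable (β κ a b : ℝ) (e1 e2 : ℕ) (A0 B0 : ℝ)

theorem HFun_pol_vanish : ∀ r l : ℕ, r < l → HFun_pol β κ a b e1 e2 A0 B0 r l = 0 := by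
  intro r
  induction r with
  | zero =>
    intro l hl
    obtain ⟨l, rfl⟩ : ∃ j, l = j + 1 := ⟨l - 1, by omega⟩
    rfl
  | succ r ih =>
    intro l hl
    obtain ⟨l, rfl⟩ : ∃ j, l = j + 1 := ⟨l - 1, by omega⟩
    rw [HFun_pol, ih (l + 1) (by omega), ih l (by omega), HFun_LL_zero, mul_zero, add_zero]

theorem HFun_pol_natDegree : ∀ r l : ℕ,
    (HFun_pol β κ a b e1 e2 A0 B0 r l).natDegree ≤ r - l := by
  intro r
  induction r with
  | zero =>
    intro l
    cases l with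
    | zero => simp [HFun_pol]
    | succ l => simp [HFun_pol]
  | succ r ih =>
    intro l
    cases l with
    | zero =>
      rw [HFun_pol]
      exact HFun_LL_natDegree _ _ _ (ih 0)
    | succ l =>
      rw [HFun_pol]
      refine (Polynomial.natDegree_add_le _ _).trans (max_le ?_ ?_)
      · rcases Nat.lt_or_ge r (l + 1) with h | h
        · rw [HFun_pol_vanish β κ a b e1 e2 A0 B0 r (l + 1) h, HFun_LL_zero]
          simp
        · refine (HFun_LL_natDegree _ _ _ (ih (l + 1))).trans ?_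
          omega
      · refine (Polynomial.natDegree_C_mul_le _ _).trans ((ih l).trans ?_)
        omega

end

/-! ### the functions -/

/-- the functions `H r l` -/
def HFun_H (β κ a b : ℝ) (e1 e2 : ℕ) (A0 B0 : ℝ) (r l : ℕ) (y : ℂ) : ℂ :=
  MM a b (HFun_A a e1 A0 r l) (HFun_A b e2 B0 r l) y *
    Polynomial.aeval (MM a b 1 0 y) (HFun_pol β κ a b e1 e2 A0 B0 r l)

/-- leading coefficients of a polynomial at the three vertices -/
def HFun_co (p : Polynomial ℝ) (n : ℕ) (k : Fin 3) : ℝ := ![p.eval 0, p.eval 1, p.coeff n] k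

/-- leading coefficients of `H r l` -/
def HFun_h (β κ a b : ℝ) (e1 e2 : ℕ) (A0 B0 : ℝ) (k : Fin 3) (r l : ℕ) : ℂ :=
  lm (HFun_A b e2 B0 r l) k *
    (HFun_co (HFun_pol β κ a b e1 e2 A0 B0 r l) (r - l) k : ℝ)

variable {a b : ℝ}

theorem HFun_MM_zero_one (y : ℂ) : MM a b 0 1 y = 1 - MM a b 1 0 y := by
  unfold MM
  rw [mm_zero_one, mm_one_zero]

/-- composition of a polynomial with a function -/
theorem HFun_aeval_deriv {X : ℂ → ℂ} {d y : ℂ} {s : Set ℂ} (p : Polynomial ℝ)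
    (hX : HasFDerivWithinAt X (DD d 0) s y) :
    HasFDerivWithinAt (fun y => Polynomial.aeval (X y) p)
      (DD (Polynomial.aeval (X y) (Polynomial.derivative p) * d) 0) s y := by
  have h1 : HasDerivAt (fun x : ℂ => Polynomial.aeval x p)
      (Polynomial.aeval (X y) (Polynomial.derivative p)) (X y) :=
    Polynomial.hasDerivAt_aeval p (X y)
  have h2 := (h1.hasFDerivAt.restrictScalars ℝ).comp_hasFDerivWithinAt y hX
  refine HasFDerivWithinAt.congr_fderiv h2 ?_
  apply ContinuousLinearMap.ext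
  intro h
  simp only [ContinuousLinearMap.comp_apply, DD_apply, zero_mul, add_zero,
    ContinuousLinearMap.coe_restrictScalars', ContinuousLinearMap.toSpanSingleton_apply,
    smul_eq_mul]
  ring

theorem HFun_deriv (ha : 0 < a) (hb : 0 < b) (hab : a + b < 1) {β : ℝ} (hβ : bet a b = β)
    (A B : ℝ) (p : Polynomial ℝ) {y : ℂ} (hy : y ∈ body (tri a b) \ VV a b) :
    HasFDerivWithinAt (fun y => MM a b A B y * Polynomial.aeval (MM a b 1 0 y) p)
      (DD (MM a b (A - a) (B - b) y * Polynomial.aeval (MM a b 1 0 y) (HFun_LL β A B p)) 0)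
      (body (tri a b)) y := by
  have h1 := hasFDerivWithinAt_MM ha hb hab A B hy
  have h2 := HFun_aeval_deriv p (hasFDerivWithinAt_MM ha hb hab 1 0 hy)
  have h3 := h1.mul h2
  have e1 : MM a b (A - a) (B + 1 - b) y = MM a b (A - a) (B - b) y * (1 - MM a b 1 0 y) := by
    rw [← HFun_MM_zero_one, MM_mul ha hb hab _ _ _ _ hy]
    congr 1 <;> ring
  have e2 : MM a b (A + 1 - a) (B - b) y = MM a b (A - a) (B - b) y * MM a b 1 0 y := by
    rw [MM_mul ha hb hab _ _ _ _ hy]
    congr 1 <;> ring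
  have e3 : MM a b A B y * MM a b (1 - a) (0 + 1 - b) y =
      MM a b (A - a) (B - b) y * MM a b 1 0 y * (1 - MM a b 1 0 y) := by
    rw [← HFun_MM_zero_one, MM_mul ha hb hab _ _ _ _ hy, MM_mul ha hb hab _ _ _ _ hy,
      MM_mul ha hb hab _ _ _ _ hy]
    congr 1 <;> ring
  refine HasFDerivWithinAt.congr_fderiv h3 ?_
  rw [e1, e2]
  apply ContinuousLinearMap.ext
  intro h
  simp only [DD_apply, HFun_LL, map_mul, map_add, map_sub, map_one, Polynomial.aeval_X,
    Polynomial.aeval_C, _root_.add_apply, _root_.smul_apply, smul_eq_mul,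
    hβ, zero_mul, add_zero, Complex.ofReal_one, Complex.ofReal_zero, one_mul, sub_zero,
    Complex.coe_algebraMap]
  linear_combination ((β : ℂ) * Polynomial.aeval (MM a b 1 0 y) (Polynomial.derivative p) * h) * e3

/-! ### leading terms -/

theorem HFun_MM_pow (ha : 0 < a) (hb : 0 < b) (hab : a + b < 1) {y : ℂ}
    (hy : y ∈ body (tri a b) \ VV a b) (j : ℕ) : MM a b 1 0 y ^ j = MM a b j 0 y := by
  induction j with
  | zero => rw [pow_zero, Nat.cast_zero, MM_zero_zero]
  | succ j ih =>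
    rw [pow_succ, ih, MM_mul ha hb hab _ _ _ _ hy]
    congr 1
    · push_cast; ring
    · ring

theorem HFun_lead_mono (ha : 0 < a) (hb : 0 < b) (hab : a + b < 1) (k : Fin 3) {j n : ℕ}
    (hj : j ≤ n) : Lead a b k ((![0, 0, -(n : ℝ)] : Fin 3 → ℝ) k)
      ((![if j = 0 then 1 else 0, 1, if j = n then 1 else 0] : Fin 3 → ℂ) k) (MM a b j 0) := by
  have h := lead_MM ha hb hab (j : ℝ) 0 k
  fin_cases k
  · simp only [om, lm, Fin.zero_eta, Matrix.cons_val_zero] at h ⊢
    rcases Nat.eq_zero_or_pos j with h0 | h0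
    · subst h0
      simpa using h
    · rw [if_neg (by omega)]
      exact Lead.lower ha hb hab (by exact_mod_cast h0) h
  · simpa [om, lm] using h
  · simp only [om, lm, Fin.reduceFinMk, Matrix.cons_val] at h ⊢
    have e : Complex.exp (-(π * (0 : ℝ)) * Complex.I) = 1 := by simp
    rw [e, add_zero] at h
    rcases Nat.lt_or_ge j n with h0 | h0
    · rw [if_neg (by omega)]
      refine Lead.lower ha hb hab ?_ h
      have : (j : ℝ) < n := by exact_mod_cast h0
      linarith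
    · have : j = n := by omega
      subst this
      rw [if_pos rfl]
      exact h

theorem HFun_lead_sum (ha : 0 < a) (hb : 0 < b) (hab : a + b < 1) (k : Fin 3) {ι : Type*}
    (s : Finset ι) (θ : ℝ) (c : ι → ℂ) (f : ι → ℂ → ℂ)
    (h : ∀ i ∈ s, Lead a b k θ (c i) (f i)) :
    Lead a b k θ (∑ i ∈ s, c i) (fun y => ∑ i ∈ s, f i y) := by
  classical
  induction s using Finset.induction_on with
  | empty => simpa using lead_zero ha hb hab k θ
  | insert i s hi ih =>
    have h1 := h i (Finset.mem_insert_self _ _)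
    have h2 := ih (fun j hj => h j (Finset.mem_insert_of_mem hj))
    have h3 := h1.add ha hb hab h2
    simp only [Finset.sum_insert hi]
    exact h3

theorem HFun_lead_pol (ha : 0 < a) (hb : 0 < b) (hab : a + b < 1) (k : Fin 3) {n : ℕ}
    (p : Polynomial ℝ) (hp : p.natDegree ≤ n) :
    Lead a b k ((![0, 0, -(n : ℝ)] : Fin 3 → ℝ) k) (HFun_co p n k : ℝ)
      (fun y => Polynomial.aeval (MM a b 1 0 y) p) := by
  have h1 := HFun_lead_sum ha hb hab k (Finset.range (n + 1))
    ((![0, 0, -(n : ℝ)] : Fin 3 → ℝ) k)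
    (fun j => (p.coeff j : ℂ) *
      (![if j = 0 then 1 else 0, 1, if j = n then 1 else 0] : Fin 3 → ℂ) k)
    (fun j y => (p.coeff j : ℂ) * MM a b j 0 y)
    (fun j hj => (HFun_lead_mono ha hb hab k (by
      have := Finset.mem_range.mp hj
      omega)).const_mul ha hb hab (p.coeff j : ℂ))
  have h2 : ∑ j ∈ Finset.range (n + 1), (p.coeff j : ℂ) *
      (![if j = 0 then 1 else 0, 1, if j = n then 1 else 0] : Fin 3 → ℂ) k =
      (HFun_co p n k : ℝ) := by
    fin_cases k
    · simp only [HFun_co, Fin.zero_eta, Matrix.cons_val_zero, mul_ite, mul_one, mul_zero]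
      rw [Finset.sum_ite_eq' , if_pos (Finset.mem_range.mpr (by omega)),
        Polynomial.coeff_zero_eq_eval_zero]
    · simp only [HFun_co, Fin.mk_one, Matrix.cons_val_one, Matrix.cons_val_zero, mul_one]
      rw [Polynomial.eval_eq_sum_range' (Nat.lt_succ_of_le hp)]
      push_cast
      simp
    · simp only [HFun_co, Fin.reduceFinMk, Matrix.cons_val, mul_ite, mul_one, mul_zero]
      rw [Finset.sum_ite_eq' , if_pos (Finset.mem_range.mpr (by omega))]
  rw [h2] at h1
  refine h1.congr ?_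
  intro y hy
  rw [Polynomial.aeval_eq_sum_range' (Nat.lt_succ_of_le hp)]
  refine Finset.sum_congr rfl (fun j _ => ?_)
  rw [HFun_MM_pow ha hb hab hy, Complex.real_smul]

theorem HFun_lead (ha : 0 < a) (hb : 0 < b) (hab : a + b < 1) (β κ : ℝ) (e1 e2 : ℕ) (A0 B0 : ℝ)
    (r l : ℕ) (k : Fin 3) :
    Lead a b k (om A0 B0 k + l * omw a b e1 e2 k - r * alv a b k)
      (HFun_h β κ a b e1 e2 A0 B0 k r l) (HFun_H β κ a b e1 e2 A0 B0 r l) := by
  rcases Nat.lt_or_ge r l with h | h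
  · have e1' : HFun_h β κ a b e1 e2 A0 B0 k r l = 0 := by
      unfold HFun_h HFun_co
      rw [HFun_pol_vanish β κ a b e1 e2 A0 B0 r l h]
      fin_cases k <;> simp
    have e2' : HFun_H β κ a b e1 e2 A0 B0 r l = fun _ => 0 := by
      funext y
      unfold HFun_H
      rw [HFun_pol_vanish β κ a b e1 e2 A0 B0 r l h]
      simp
    rw [e1', e2']
    exact lead_zero ha hb hab k _
  · have h1 := lead_MM ha hb hab (HFun_A a e1 A0 r l) (HFun_A b e2 B0 r l) k
    have h2 := HFun_lead_pol ha hb hab k (HFun_pol β κ a b e1 e2 A0 B0 r l)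
      (HFun_pol_natDegree β κ a b e1 e2 A0 B0 r l)
    have h3 := h1.mul ha hb hab h2
    have e : om (HFun_A a e1 A0 r l) (HFun_A b e2 B0 r l) k
        + (![0, 0, -((r - l : ℕ) : ℝ)] : Fin 3 → ℝ) k =
        om A0 B0 k + l * omw a b e1 e2 k - r * alv a b k := by
      rw [Nat.cast_sub h]
      fin_cases k
      · simp [om, omw, alv, HFun_A]
      · simp [om, omw, alv, HFun_A]
      · simp [om, omw, alv, HFun_A]
        ring
    rw [e] at h3
    exact h3

theorem HFun_A_succ (a : ℝ) (e : ℕ) (A0 : ℝ) (r l : ℕ) :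
    HFun_A a e A0 (r + 1) l = HFun_A a e A0 r l - a := by
  unfold HFun_A; push_cast; ring

theorem HFun_A_succ' (a : ℝ) (e : ℕ) (A0 : ℝ) (r l : ℕ) :
    HFun_A a e A0 (r + 1) (l + 1) = (1 - 2 * a - e) + HFun_A a e A0 r l := by
  unfold HFun_A; push_cast; ring

theorem HFun_edge (ha : 0 < a) (hb : 0 < b) (hab : a + b < 1) (k : Fin 3) {y : ℂ}
    (hy : y ∈ edge (tri a b) k \ VV a b) : ∃ t : ℝ, MM a b 1 0 y = t := by
  have key : ∃ t : ℝ, XX a b y = t := by
    fin_cases k
    · obtain ⟨t, _, h⟩ := XX_edge0 ha hb hab hy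
      exact ⟨t, h⟩
    · obtain ⟨t, _, h⟩ := XX_edge1 ha hb hab hy
      exact ⟨t, h⟩
    · obtain ⟨t, _, _, h⟩ := XX_edge2 ha hb hab hy
      exact ⟨t, h⟩
  obtain ⟨t, h⟩ := key
  refine ⟨t, ?_⟩
  unfold MM
  rw [mm_one_zero, h]

theorem HFun_aeval_real (t : ℝ) (p : Polynomial ℝ) :
    Polynomial.aeval (t : ℂ) p = ((p.eval t : ℝ) : ℂ) := by
  have h := Polynomial.aeval_algebraMap_apply ℂ t p
  rw [Polynomial.coe_aeval_eq_eval] at h
  exact h

theorem HFun_h_zero (β κ : ℝ) (e1 e2 : ℕ) (A0 B0 : ℝ) (k : Fin 3) :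
    HFun_h β κ a b e1 e2 A0 B0 k 0 0 = lm B0 k := by
  fin_cases k <;> simp [HFun_h, HFun_co, HFun_pol, HFun_A]

theorem HFun_h_vanish (β κ : ℝ) (e1 e2 : ℕ) (A0 B0 : ℝ) (k : Fin 3) (r l : ℕ) (h : r < l) :
    HFun_h β κ a b e1 e2 A0 B0 k r l = 0 := by
  unfold HFun_h HFun_co
  rw [HFun_pol_vanish β κ a b e1 e2 A0 B0 r l h]
  fin_cases k <;> simp

theorem HFun_exp_b (B b : ℝ) : Complex.exp (-(π * (B - b : ℝ)) * Complex.I) =
    Complex.exp (π * b * Complex.I) * Complex.exp (-(π * B) * Complex.I) := by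
  rw [← Complex.exp_add]
  congr 1
  push_cast
  ring

theorem HFun_exp_e (B b : ℝ) (e : ℕ) :
    Complex.exp (-(π * (1 - 2 * b - e + B : ℝ)) * Complex.I) =
    -(Complex.exp (π * b * Complex.I) * Complex.exp (π * (b + e) * Complex.I)
      * Complex.exp (-(π * B) * Complex.I)) := by
  rw [← Complex.exp_add, ← Complex.exp_add]
  have h1 : -((π : ℂ) * ((1 - 2 * b - e + B : ℝ) : ℂ)) * Complex.I =
      (π * b * Complex.I + π * (b + e) * Complex.I + -(π * B) * Complex.I) + -(π * Complex.I) := by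
    push_cast
    ring
  rw [h1, Complex.exp_add _ (-(π * Complex.I)), Complex.exp_neg, Complex.exp_pi_mul_I]
  norm_num

theorem HFun_h_succ0 (β κ : ℝ) (hβ : bet a b = β) (e1 e2 : ℕ) (A0 B0 : ℝ) (k : Fin 3) (r : ℕ) :
    HFun_h β κ a b e1 e2 A0 B0 k (r + 1) 0 =
      bb a b k * (om A0 B0 k - r * alv a b k : ℝ) * HFun_h β κ a b e1 e2 A0 B0 k r 0 := by
  have hd := HFun_pol_natDegree β κ a b e1 e2 A0 B0 r 0
  rw [Nat.sub_zero] at hd
  unfold HFun_h HFun_co
  rw [HFun_pol]
  fin_cases k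
  · simp only [bb, om, lm, alv, Fin.zero_eta, Matrix.cons_val_zero, HFun_LL_eval_zero, hβ, HFun_A]
    push_cast
    ring
  · simp only [bb, om, lm, alv, Fin.mk_one, Matrix.cons_val_one, Matrix.cons_val_zero,
      HFun_LL_eval_one, hβ, HFun_A]
    push_cast
    ring
  · simp only [bb, om, lm, alv, Fin.reduceFinMk, Matrix.cons_val, Nat.sub_zero,
      HFun_LL_coeff_top _ _ _ hd, hβ, HFun_A_succ, HFun_exp_b]
    unfold HFun_A
    push_cast
    ring

theorem HFun_h_succ1 (ha : 0 < a) (hb : 0 < b) (hab : a + b < 1 / 2) (β κ : ℝ)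
    (hβ : bet a b = β) (e1 e2 : ℕ) (he1 : e1 ≤ 1) (he2 : e2 ≤ 1)
    (A0 B0 : ℝ) (k : Fin 3) (r l : ℕ) :
    HFun_h β κ a b e1 e2 A0 B0 k (r + 1) (l + 1) =
      bb a b k * (om A0 B0 k + (l + 1) * omw a b e1 e2 k - r * alv a b k : ℝ) *
        HFun_h β κ a b e1 e2 A0 B0 k r (l + 1) +
      bb a b k * omw a b e1 e2 k * gam a b e1 e2 κ k * HFun_h β κ a b e1 e2 A0 B0 k r l := by
  have hd := HFun_pol_natDegree β κ a b e1 e2 A0 B0 r (l + 1)
  have hv := HFun_pol_vanish β κ a b e1 e2 A0 B0 r (l + 1)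
  have hsub : r + 1 - (l + 1) = r - l := by omega
  have n1 : (1 - a - e1 : ℂ) ≠ 0 := by
    have : (1 - a - e1 : ℝ) ≠ 0 := by
      interval_cases e1
      · norm_num; linarith
      · norm_num; exact ha.ne'
    exact_mod_cast this
  have n2 : (1 - b - e2 : ℂ) ≠ 0 := by
    have : (1 - b - e2 : ℝ) ≠ 0 := by
      interval_cases e2
      · norm_num; linarith
      · norm_num; exact hb.ne'
    exact_mod_cast this
  have n3 : (1 - a - b - e1 - e2 : ℂ) ≠ 0 := by
    have : (1 - a - b - e1 - e2 : ℝ) ≠ 0 := by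
      interval_cases e1 <;> interval_cases e2 <;> norm_num <;> intro h <;> linarith
    exact_mod_cast this
  unfold HFun_h HFun_co
  rw [HFun_pol]
  fin_cases k
  · simp only [bb, om, omw, gam, lm, alv, Fin.zero_eta, Matrix.cons_val_zero,
      HFun_LL_eval_zero, hβ, HFun_A, Polynomial.eval_add, Polynomial.eval_mul, Polynomial.eval_C]
    push_cast
    field_simp
  · simp only [bb, om, omw, gam, lm, alv, Fin.mk_one, Matrix.cons_val_one, Matrix.cons_val_zero,
      HFun_LL_eval_one, hβ, HFun_A, Polynomial.eval_add, Polynomial.eval_mul, Polynomial.eval_C]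
    push_cast
    field_simp
  · have hc : (HFun_LL β (HFun_A a e1 A0 r (l + 1)) (HFun_A b e2 B0 r (l + 1))
        (HFun_pol β κ a b e1 e2 A0 B0 r (l + 1))).coeff (r - l) =
        β * ((om A0 B0 2 + (l + 1) * omw a b e1 e2 2 - r * alv a b 2) *
          (HFun_pol β κ a b e1 e2 A0 B0 r (l + 1)).coeff (r - (l + 1))) := by
      rcases Nat.lt_or_ge r (l + 1) with h | h
      · rw [hv h, HFun_LL_zero]; simp
      · have e : r - l = (r - (l + 1)) + 1 := by omega
        rw [e, HFun_LL_coeff_top _ _ _ hd, Nat.cast_sub h]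
        simp only [om, omw, alv, Matrix.cons_val, HFun_A]
        push_cast
        ring
    have hexp1 : Complex.exp (-(π * (HFun_A b e2 B0 (r + 1) (l + 1) : ℝ)) * Complex.I) =
        Complex.exp (π * b * Complex.I) *
          Complex.exp (-(π * (HFun_A b e2 B0 r (l + 1) : ℝ)) * Complex.I) := by
      rw [HFun_A_succ, HFun_exp_b]
    have hexp2 : Complex.exp (-(π * (HFun_A b e2 B0 (r + 1) (l + 1) : ℝ)) * Complex.I) =
        -(Complex.exp (π * b * Complex.I) * Complex.exp (π * (b + e2) * Complex.I)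
          * Complex.exp (-(π * (HFun_A b e2 B0 r l : ℝ)) * Complex.I)) := by
      rw [HFun_A_succ', HFun_exp_e]
    simp only [Fin.reduceFinMk, bb, gam, lm, Matrix.cons_val, hsub, Polynomial.coeff_add,
      Polynomial.coeff_C_mul, hc, hβ]
    rw [Complex.ofReal_add, mul_add]
    congr 1
    · rw [hexp1]
      push_cast
      ring
    · rw [hexp2]
      simp only [omw, Matrix.cons_val]
      push_cast
      field_simp
      ring

theorem exists_H {a b : ℝ} (ha : 0 < a) (hb : 0 < b) (hab : a + b < 1 / 2) (e1 e2 : ℕ)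
    (he1 : e1 ≤ 1) (he2 : e2 ≤ 1) (κ A0 B0 : ℝ) :
    ∃ H h, HData a b e1 e2 κ A0 B0 H h := by
  have hab1 : a + b < 1 := by linarith
  obtain ⟨β, -, hβ⟩ := bet_pos ha hb
  refine ⟨HFun_H β κ a b e1 e2 A0 B0, HFun_h β κ a b e1 e2 A0 B0, ?_⟩
  exact
  { zero := by
      funext y
      simp [HFun_H, HFun_A, HFun_pol]
    vanish := by
      intro r l h
      funext y
      unfold HFun_H
      rw [HFun_pol_vanish β κ a b e1 e2 A0 B0 r l h]
      simp
    cont := by
      intro r l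
      exact (continuousOn_MM ha hb hab1 _ _).mul
        ((Polynomial.continuous_aeval _).comp_continuousOn (continuousOn_MM ha hb hab1 1 0))
    deriv0 := by
      intro r y hy
      have h := HFun_deriv ha hb hab1 hβ (HFun_A a e1 A0 r 0) (HFun_A b e2 B0 r 0)
        (HFun_pol β κ a b e1 e2 A0 B0 r 0) hy
      rw [← HFun_A_succ, ← HFun_A_succ] at h
      exact h
    deriv1 := by
      intro r l y hy
      have h := HFun_deriv ha hb hab1 hβ (HFun_A a e1 A0 r (l + 1)) (HFun_A b e2 B0 r (l + 1))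
        (HFun_pol β κ a b e1 e2 A0 B0 r (l + 1)) hy
      rw [← HFun_A_succ, ← HFun_A_succ] at h
      have e : HFun_H β κ a b e1 e2 A0 B0 (r + 1) (l + 1) y -
          G1 a b e1 e2 κ y * HFun_H β κ a b e1 e2 A0 B0 r l y =
          MM a b (HFun_A a e1 A0 (r + 1) (l + 1)) (HFun_A b e2 B0 (r + 1) (l + 1)) y *
            Polynomial.aeval (MM a b 1 0 y) (HFun_LL β (HFun_A a e1 A0 r (l + 1))
              (HFun_A b e2 B0 r (l + 1)) (HFun_pol β κ a b e1 e2 A0 B0 r (l + 1))) := by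
        have e1' := MM_mul ha hb hab1 (1 - 2 * a - e1) (1 - 2 * b - e2) (HFun_A a e1 A0 r l)
          (HFun_A b e2 B0 r l) hy
        rw [← HFun_A_succ', ← HFun_A_succ'] at e1'
        unfold HFun_H G1
        rw [HFun_pol, ← e1', map_add, map_mul, Polynomial.aeval_C, hβ]
        simp only [Complex.coe_algebraMap]
        push_cast
        ring
      rw [e]
      exact h
    phase := by
      intro r l k y hy
      obtain ⟨t, ht⟩ := HFun_edge ha hb hab1 k hy
      refine ⟨(HFun_pol β κ a b e1 e2 A0 B0 r l).eval t, ?_⟩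
      unfold HFun_H
      rw [ht, HFun_aeval_real, mul_comm]
      rfl
    lead := fun r l k => HFun_lead ha hb hab1 β κ e1 e2 A0 B0 r l k
    h_zero := fun k => HFun_h_zero β κ e1 e2 A0 B0 k
    h_vanish := fun k r l h => HFun_h_vanish β κ e1 e2 A0 B0 k r l h
    h_succ0 := fun k r => HFun_h_succ0 β κ hβ e1 e2 A0 B0 k r
    h_succ1 := fun k r l => HFun_h_succ1 ha hb hab β κ hβ e1 e2 he1 he2 A0 B0 k r l }

end

end Pool.Agent.OBT
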