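import Mathlib
import Pool.Agent.OBT.MM

/-!
# The functions `W = ȳ + g`

`e1, e2 ∈ {0,1}` are the orders of the poles of `g` at the vertices `0` and `1`.
-/

open scoped ComplexConjugate Topology Real
open MeasureTheory Filter Asymptotics

namespace Pool.Agent.OBT

variable {a b : ℝ}

theorem WFun_interior_nonempty (ha : 0 < a) (hb : 0 < b) (hab : a + b < 1) :
    (interior (body (tri a b))).Nonempty := by
  unfold body
  rw [interior_convexHull_nonempty_iff_affineSpan_eq_top]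
  exact (affineIndependent_tri ha hb hab).affineSpan_eq_top_iff_card_eq_finrank_add_one.2
    (by simp [Complex.finrank_real_complex])

theorem WFun_isClosed (v : Fin 3 → ℂ) : IsClosed (body v) :=
  (Set.Finite.isCompact_convexHull ℝ (Set.finite_range v)).isClosed

theorem WFun_hasF {g : ℂ → ℂ} {p z : ℂ} (h : HasDerivAt g p z) : HasFDerivAt g (DD p 0) z := by
  have h1 := h.hasFDerivAt.restrictScalars ℝ
  have h2 : (DD p 0 : ℂ →L[ℝ] ℂ) =
      ContinuousLinearMap.restrictScalars ℝ (ContinuousLinearMap.toSpanSingleton ℂ p) := by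
    ext h; simp [mul_comm]
  rw [h2]
  exact h1

/-- A derivative in the interior extends to the sides. -/
theorem WFun_ext (ha : 0 < a) (hb : 0 < b) (hab : a + b < 1) {g F : ℂ → ℂ}
    (hc : ContinuousOn g (body (tri a b) \ VV a b))
    (hF : ContinuousOn F (body (tri a b) \ VV a b))
    (hd : ∀ y ∈ interior (body (tri a b)), HasDerivAt g (F y) y) {y : ℂ}
    (hy : y ∈ body (tri a b) \ VV a b) :
    HasFDerivWithinAt g (DD (F y) 0) (body (tri a b)) y := by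
  have hVV : IsClosed (VV a b) := (Set.finite_range _).isClosed
  obtain ⟨r, hr, hball⟩ : ∃ r > 0, Metric.closedBall y r ⊆ (VV a b)ᶜ := by
    have h1 : (VV a b)ᶜ ∈ 𝓝 y := hVV.isOpen_compl.mem_nhds hy.2
    obtain ⟨r, hr, h2⟩ := Metric.nhds_basis_closedBall.mem_iff.1 h1
    exact ⟨r, hr, h2⟩
  set T := body (tri a b) with hT
  have hTc : Convex ℝ T := convex_convexHull ℝ _
  have hcl : closure (interior T) = T := by
    rw [hTc.closure_interior_eq_closure_of_nonempty_interior (WFun_interior_nonempty ha hb hab),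
      (WFun_isClosed _).closure_eq]
  set s := interior T ∩ Metric.ball y r with hs
  have hsT : s ⊆ T \ VV a b := fun z hz =>
    ⟨interior_subset hz.1, hball (Metric.ball_subset_closedBall hz.2)⟩
  have hsc : closure s ⊆ T \ VV a b := by
    intro z hz
    constructor
    · rw [← hcl]
      exact closure_mono Set.inter_subset_left hz
    · apply hball
      exact Metric.closure_ball_subset_closedBall (closure_mono Set.inter_subset_right hz)
  have hso : IsOpen s := isOpen_interior.inter Metric.isOpen_ball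
  have hfd : ∀ z ∈ s, HasFDerivAt g (DD (F z) 0) z := fun z hz => WFun_hasF (hd z hz.1)
  have key : HasFDerivWithinAt g (DD (F y) 0) (closure s) y := by
    apply hasFDerivWithinAt_closure_of_tendsto_fderiv
    · intro z hz
      exact (hfd z hz).differentiableAt.differentiableWithinAt
    · exact hTc.interior.inter (convex_ball _ _)
    · exact hso
    · intro z hz
      exact (hc z (hsc hz)).mono hsT
    · have h1 : Tendsto (fun z => (DD (F z) 0 : ℂ →L[ℝ] ℂ)) (𝓝[s] y) (𝓝 (DD (F y) 0)) := by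
        unfold DD
        exact (((hF y hy).mono hsT).tendsto.smul_const _).add_const _
      refine h1.congr' ?_
      filter_upwards [self_mem_nhdsWithin] with z hz
      exact (hfd z hz).fderiv.symm
  apply key.mono_of_mem_nhdsWithin
  have h1 : T ∩ Metric.ball y r ⊆ closure s := by
    rintro z ⟨hz, hz'⟩
    rw [← hcl] at hz
    exact Metric.isOpen_ball.closure_inter ⟨hz, hz'⟩
  exact mem_of_superset (inter_mem_nhdsWithin T (Metric.ball_mem_nhds y hr)) h1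

theorem WFun_ray {α : Type*} {l : Filter α} [l.NeBot] {f : α → ℂ} {L p : ℂ} {θ : ℝ}
    (hf : Tendsto f l (𝓝 L)) (h : ∀ᶠ x in l, ∃ s : ℝ, f x = p + s * Complex.exp (θ * Complex.I)) :
    ∃ s : ℝ, L = p + s * Complex.exp (θ * Complex.I) := by
  have h1 : Tendsto (fun x => ((f x - p) * Complex.exp (-(θ * Complex.I))).im) l
      (𝓝 ((L - p) * Complex.exp (-(θ * Complex.I))).im) :=
    (Complex.continuous_im.tendsto _).comp ((hf.sub_const p).mul_const _)
  have hexp : Complex.exp (θ * Complex.I) * Complex.exp (-(θ * Complex.I)) = 1 := by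
    rw [← Complex.exp_add, add_neg_cancel, Complex.exp_zero]
  have h2 : ((L - p) * Complex.exp (-(θ * Complex.I))).im = 0 := by
    refine tendsto_nhds_unique (h1.congr' ?_) tendsto_const_nhds
    filter_upwards [h] with x hx
    obtain ⟨s, hs⟩ := hx
    rw [hs, add_sub_cancel_left, mul_assoc, hexp, mul_one, Complex.ofReal_im]
  refine ⟨((L - p) * Complex.exp (-(θ * Complex.I))).re, ?_⟩
  have h3 : ((((L - p) * Complex.exp (-(θ * Complex.I))).re : ℝ) : ℂ) =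
      (L - p) * Complex.exp (-(θ * Complex.I)) := by
    apply Complex.ext
    · simp
    · rw [h2, Complex.ofReal_im]
  rw [h3, mul_assoc, mul_comm (Complex.exp (-(θ * Complex.I))), hexp]
  ring

theorem WFun_lin {s t θ φ : ℝ} (h : (s : ℂ) * Complex.exp (θ * Complex.I) =
    t * Complex.exp (φ * Complex.I)) (hs : Real.sin (θ - φ) ≠ 0) : s = 0 := by
  have h1 : (s : ℂ) * Complex.exp (((θ - φ : ℝ) : ℂ) * Complex.I) = t := by
    have : (((θ - φ : ℝ) : ℂ) * Complex.I) = θ * Complex.I + -(φ * Complex.I) := by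
      push_cast; ring
    rw [this, Complex.exp_add, ← mul_assoc, h, mul_assoc, ← Complex.exp_add, add_neg_cancel,
      Complex.exp_zero, mul_one]
  have h2 := congrArg Complex.im h1
  rw [Complex.exp_mul_I, ← Complex.ofReal_cos, ← Complex.ofReal_sin] at h2
  simp only [Complex.mul_im, Complex.ofReal_re, Complex.add_im, Complex.ofReal_im, Complex.I_im,
    mul_one, Complex.I_re, mul_zero, add_zero, zero_mul, zero_add] at h2
  rcases mul_eq_zero.1 h2 with h3 | h3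
  · exact h3
  · exact absurd h3 hs

theorem WFun_mem {t : ℝ} (h0 : t ≠ 0) (h1 : t ≠ 1) : (t : ℂ) ∈ Hb \ {0, 1} := by
  refine ⟨by simp [Hb], ?_⟩
  rw [Set.mem_insert_iff, Set.mem_singleton_iff, not_or]
  exact ⟨by exact_mod_cast h0, by exact_mod_cast h1⟩

theorem WFun_tend_zero_pos : Tendsto (fun t : ℝ => (t : ℂ)) (𝓝[>] 0) (𝓝[Hb \ {0, 1}] 0) := by
  apply tendsto_nhdsWithin_iff.2
  constructor
  · exact (Complex.continuous_ofReal.tendsto' 0 0 (by simp)).mono_left nhdsWithin_le_nhds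
  · have h1 : ∀ᶠ t : ℝ in 𝓝[>] 0, t < 1 :=
      nhdsWithin_le_nhds (eventually_lt_nhds one_pos)
    filter_upwards [self_mem_nhdsWithin, h1] with t ht ht1
    exact WFun_mem (ne_of_gt ht) ht1.ne

theorem WFun_tend_zero_neg : Tendsto (fun t : ℝ => (t : ℂ)) (𝓝[<] 0) (𝓝[Hb \ {0, 1}] 0) := by
  apply tendsto_nhdsWithin_iff.2
  constructor
  · exact (Complex.continuous_ofReal.tendsto' 0 0 (by simp)).mono_left nhdsWithin_le_nhds
  · filter_upwards [self_mem_nhdsWithin] with t ht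
    have ht' : t < 0 := ht
    exact WFun_mem ht'.ne (by linarith)

theorem WFun_tend_one_neg : Tendsto (fun t : ℝ => (t : ℂ)) (𝓝[<] 1) (𝓝[Hb \ {0, 1}] 1) := by
  apply tendsto_nhdsWithin_iff.2
  constructor
  · exact (Complex.continuous_ofReal.tendsto' 1 1 (by simp)).mono_left nhdsWithin_le_nhds
  · have h1 : ∀ᶠ t : ℝ in 𝓝[<] 1, 0 < t :=
      nhdsWithin_le_nhds (eventually_gt_nhds one_pos)
    filter_upwards [self_mem_nhdsWithin, h1] with t ht ht1
    exact WFun_mem ht1.ne' (ne_of_lt ht)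

theorem WFun_tend_one_pos : Tendsto (fun t : ℝ => (t : ℂ)) (𝓝[>] 1) (𝓝[Hb \ {0, 1}] 1) := by
  apply tendsto_nhdsWithin_iff.2
  constructor
  · exact (Complex.continuous_ofReal.tendsto' 1 1 (by simp)).mono_left nhdsWithin_le_nhds
  · filter_upwards [self_mem_nhdsWithin] with t ht
    have ht' : 1 < t := ht
    exact WFun_mem (by linarith) ht'.ne'

theorem WFun_tend_inf_pos : Tendsto (fun t : ℝ => (t : ℂ)) atTop
    (Bornology.cobounded ℂ ⊓ 𝓟 Hb) := by
  refine tendsto_inf.2 ⟨?_, ?_⟩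
  · rw [← tendsto_norm_atTop_iff_cobounded]
    simp only [Complex.norm_real, Real.norm_eq_abs]
    exact tendsto_abs_atTop_atTop
  · exact tendsto_principal.2 (Eventually.of_forall fun t => by simp [Hb])

theorem WFun_tend_inf_neg : Tendsto (fun t : ℝ => (t : ℂ)) atBot
    (Bornology.cobounded ℂ ⊓ 𝓟 Hb) := by
  refine tendsto_inf.2 ⟨?_, ?_⟩
  · rw [← tendsto_norm_atTop_iff_cobounded]
    simp only [Complex.norm_real, Real.norm_eq_abs]
    exact tendsto_abs_atBot_atTop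
  · exact tendsto_principal.2 (Eventually.of_forall fun t => by simp [Hb])

theorem WFun_inf_ne : ∀ᶠ x in Bornology.cobounded ℂ ⊓ 𝓟 Hb, x ≠ 0 ∧ x ≠ 1 := by
  have h1 : ∀ᶠ x in Bornology.cobounded ℂ, (2 : ℝ) ≤ ‖x‖ :=
    tendsto_norm_cobounded_atTop.eventually_ge_atTop 2
  filter_upwards [h1.filter_mono inf_le_left] with x hx
  constructor
  · rintro rfl
    norm_num at hx
  · rintro rfl
    norm_num at hx

theorem WFun_X0 {h : ℂ → ℂ} {κ p : ℂ} {A B : ℝ}
    (key : Tendsto (fun x => (h x - p) / mm (A + 1) B x) (𝓝[Hb \ {0, 1}] 0)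
      (𝓝 (κ / (A + 1)))) :
    Tendsto (fun x => (h x - p) / mm (A + 1) 0 x) (𝓝[Hb \ {0, 1}] 0) (𝓝 (κ / (A + 1))) := by
  have h1 := key.mul (mm_div_zero (A + 1) B)
  rw [mul_one] at h1
  refine h1.congr' ?_
  filter_upwards [self_mem_nhdsWithin] with x hx
  have h2 := hx.2
  rw [Set.mem_insert_iff, Set.mem_singleton_iff, not_or] at h2
  exact div_mul_div_cancel₀ (mm_ne_zero _ _ h2.1 h2.2)

theorem WFun_X1 {h : ℂ → ℂ} {κ p : ℂ} {A B : ℝ}
    (key : Tendsto (fun x => (h x - p) / mm A (B + 1) x) (𝓝[Hb \ {0, 1}] 1)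
      (𝓝 (-κ / (B + 1)))) :
    Tendsto (fun x => (h x - p) / mm 0 (B + 1) x) (𝓝[Hb \ {0, 1}] 1) (𝓝 (-κ / (B + 1))) := by
  have h1 := key.mul (mm_div_one A (B + 1))
  rw [mul_one] at h1
  refine h1.congr' ?_
  filter_upwards [self_mem_nhdsWithin] with x hx
  have h2 := hx.2
  rw [Set.mem_insert_iff, Set.mem_singleton_iff, not_or] at h2
  exact div_mul_div_cancel₀ (mm_ne_zero _ _ h2.1 h2.2)

theorem WFun_X2 {h : ℂ → ℂ} {κ p : ℂ} {A B : ℝ}
    (key : Tendsto (fun x => (h x - p) / mm (A + 1) B x) (Bornology.cobounded ℂ ⊓ 𝓟 Hb)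
      (𝓝 (κ / (A + B + 1)))) :
    Tendsto (fun x => (h x - p) / mm (A + 1 + B) 0 x) (Bornology.cobounded ℂ ⊓ 𝓟 Hb)
      (𝓝 (κ / (A + B + 1) * Complex.exp (-(π * B) * Complex.I))) := by
  have h1 := key.mul (mm_div_inf (A + 1) B)
  refine h1.congr' ?_
  filter_upwards [WFun_inf_ne] with x h2
  exact div_mul_div_cancel₀ (mm_ne_zero _ _ h2.1 h2.2)

theorem WFun_L0 (ha : 0 < a) (ha1 : a < 1) {h : ℂ → ℂ} {L : ℂ}
    (hL : Tendsto h (𝓝[Hb \ {0, 1}] 0) (𝓝 L))
    (h3 : ∀ t : ℝ, 0 < t → t < 1 → ∃ s : ℝ, h t = s)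
    (h4 : ∀ t : ℝ, t < 0 → ∃ s : ℝ, h t = s * Complex.exp (-(π * a) * Complex.I)) : L = 0 := by
  obtain ⟨s1, hs1⟩ := WFun_ray (p := 0) (θ := 0) (hL.comp WFun_tend_zero_pos) (by
    have h1 : ∀ᶠ t : ℝ in 𝓝[>] 0, t < 1 := nhdsWithin_le_nhds (eventually_lt_nhds one_pos)
    filter_upwards [self_mem_nhdsWithin, h1] with t ht ht1
    obtain ⟨s, hs⟩ := h3 t ht ht1
    exact ⟨s, by simp [hs]⟩)
  obtain ⟨s2, hs2⟩ := WFun_ray (p := 0) (θ := -(π * a)) (hL.comp WFun_tend_zero_neg) (by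
    filter_upwards [self_mem_nhdsWithin] with t ht
    obtain ⟨s, hs⟩ := h4 t ht
    exact ⟨s, by simp [hs]⟩)
  rw [zero_add] at hs1 hs2
  have h5 := WFun_lin (hs1.symm.trans hs2) (by
    rw [zero_sub, neg_neg]
    exact (Real.sin_pos_of_pos_of_lt_pi (by positivity)
      (by nlinarith [Real.pi_pos])).ne')
  rw [hs1, h5, Complex.ofReal_zero, zero_mul]

theorem WFun_L1 (hb : 0 < b) (hb1 : b < 1) {h : ℂ → ℂ} {L : ℂ}
    (hL : Tendsto h (𝓝[Hb \ {0, 1}] 1) (𝓝 L))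
    (h3 : ∀ t : ℝ, 0 < t → t < 1 → ∃ s : ℝ, h t = s)
    (h5 : ∀ t : ℝ, 1 < t → ∃ s : ℝ, h t = -1 + s * Complex.exp (π * b * Complex.I)) :
    L = -1 := by
  obtain ⟨s1, hs1⟩ := WFun_ray (p := -1) (θ := 0) (hL.comp WFun_tend_one_neg) (by
    have h1 : ∀ᶠ t : ℝ in 𝓝[<] 1, 0 < t := nhdsWithin_le_nhds (eventually_gt_nhds one_pos)
    filter_upwards [self_mem_nhdsWithin, h1] with t ht ht1
    obtain ⟨s, hs⟩ := h3 t ht1 ht
    exact ⟨s + 1, by simp [hs]⟩)
  obtain ⟨s2, hs2⟩ := WFun_ray (p := -1) (θ := π * b) (hL.comp WFun_tend_one_pos) (by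
    filter_upwards [self_mem_nhdsWithin] with t ht
    obtain ⟨s, hs⟩ := h5 t ht
    exact ⟨s, by simp [hs]⟩)
  have h6 := WFun_lin (add_left_cancel (hs1.symm.trans hs2)) (by
    rw [zero_sub, Real.sin_neg, neg_ne_zero]
    exact (Real.sin_pos_of_pos_of_lt_pi (by positivity)
      (by nlinarith [Real.pi_pos])).ne')
  rw [hs1, h6, Complex.ofReal_zero, zero_mul, add_zero]

theorem WFun_conj_exp (t : ℝ) :
    conj (Complex.exp (t * Complex.I)) = Complex.exp (((-t : ℝ) : ℂ) * Complex.I) := by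
  rw [← Complex.exp_conj, map_mul, Complex.conj_ofReal, Complex.conj_I]
  push_cast
  ring_nf

theorem WFun_L2 (ha : 0 < a) (hb : 0 < b) (hab : a + b < 1) {h : ℂ → ℂ} {L : ℂ}
    (hL : Tendsto h (Bornology.cobounded ℂ ⊓ 𝓟 Hb) (𝓝 L))
    (h4 : ∀ t : ℝ, t < 0 → ∃ s : ℝ, h t = s * Complex.exp (-(π * a) * Complex.I))
    (h5 : ∀ t : ℝ, 1 < t → ∃ s : ℝ, h t = -1 + s * Complex.exp (π * b * Complex.I)) :
    L = -conj (tau a b) := by
  obtain ⟨s1, hs1⟩ := WFun_ray (p := 0) (θ := -(π * a)) (hL.comp WFun_tend_inf_neg) (by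
    filter_upwards [eventually_lt_atBot 0] with t ht
    obtain ⟨s, hs⟩ := h4 t ht
    exact ⟨s, by simp [hs]⟩)
  obtain ⟨s2, hs2⟩ := WFun_ray (p := -1) (θ := π * b) (hL.comp WFun_tend_inf_pos) (by
    filter_upwards [eventually_gt_atTop 1] with t ht
    obtain ⟨s, hs⟩ := h5 t ht
    exact ⟨s, by simp [hs]⟩)
  rw [zero_add] at hs1
  have t1 : conj (tau a b) = ((Real.sin (π * b) / Real.sin (π * (a + b)) : ℝ) : ℂ) *
      Complex.exp (((-(π * a) : ℝ) : ℂ) * Complex.I) := by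
    unfold tau
    rw [map_mul, Complex.conj_ofReal, ← WFun_conj_exp]
    push_cast
    ring_nf
  have t2 : conj (tau a b) = 1 - ((Real.sin (π * a) / Real.sin (π * (a + b)) : ℝ) : ℂ) *
      Complex.exp (((π * b : ℝ) : ℂ) * Complex.I) := by
    have h6 := congrArg conj (tau_sub_one ha hb hab)
    rw [map_sub, map_one, map_mul, map_neg, Complex.conj_ofReal] at h6
    have h7 : conj (Complex.exp (-(π * b) * Complex.I)) =
        Complex.exp (((π * b : ℝ) : ℂ) * Complex.I) := by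
      have := WFun_conj_exp (-(π * b))
      rw [neg_neg] at this
      rw [← this]
      push_cast
      ring_nf
    rw [h7] at h6
    linear_combination h6
  have h8 : ((s1 + Real.sin (π * b) / Real.sin (π * (a + b)) : ℝ) : ℂ) *
      Complex.exp (((-(π * a) : ℝ) : ℂ) * Complex.I) =
      ((s2 - Real.sin (π * a) / Real.sin (π * (a + b)) : ℝ) : ℂ) *
      Complex.exp (((π * b : ℝ) : ℂ) * Complex.I) := by
    rw [Complex.ofReal_add s1, Complex.ofReal_sub s2]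
    linear_combination (-1 : ℂ) * hs1 + hs2 - t1 + t2
  have h9 := WFun_lin h8 (by
    rw [show -(π * a) - π * b = -(π * (a + b)) by ring, Real.sin_neg, neg_ne_zero]
    exact (Real.sin_pos_of_pos_of_lt_pi (by positivity)
      (by nlinarith [Real.pi_pos])).ne')
  rw [h9, Complex.ofReal_zero, zero_mul] at h8
  have h10 : (s1 : ℂ) = -((Real.sin (π * b) / Real.sin (π * (a + b)) : ℝ) : ℂ) := by
    rw [← Complex.ofReal_neg]
    congr 1
    linarith
  rw [hs1, t1, h10]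
  ring

theorem WFun_y2 {y : ℂ} (hy : y ∈ edge (tri a b) 2) : ∃ u : ℝ, conj y = u := by
  unfold edge at hy
  obtain ⟨s, t, -, -, -, h⟩ := hy
  have h0 : tri a b (2 + 1) = 0 := rfl
  have h1 : tri a b (2 + 2) = 1 := rfl
  rw [h0, h1] at h
  refine ⟨t, ?_⟩
  rw [← h]
  simp

theorem WFun_y1 {y : ℂ} (hy : y ∈ edge (tri a b) 1) :
    ∃ u : ℝ, conj y = u * Complex.exp (-(π * a) * Complex.I) := by
  unfold edge at hy
  obtain ⟨s, t, -, -, -, h⟩ := hy
  have h0 : tri a b (1 + 1) = tau a b := rfl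
  have h1 : tri a b (1 + 2) = 0 := rfl
  rw [h0, h1] at h
  refine ⟨s * (Real.sin (π * b) / Real.sin (π * (a + b))), ?_⟩
  have h2 : conj (Complex.exp (π * a * Complex.I)) = Complex.exp (-(π * a) * Complex.I) := by
    have := WFun_conj_exp (π * a)
    push_cast at this
    exact this
  have h3 : y = (s : ℂ) * tau a b := by
    rw [← h]; simp
  rw [h3, map_mul, Complex.conj_ofReal]
  unfold tau
  rw [map_mul, Complex.conj_ofReal, h2]
  push_cast
  ring

theorem WFun_y0 (ha : 0 < a) (hb : 0 < b) (hab : a + b < 1) {y : ℂ}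
    (hy : y ∈ edge (tri a b) 0) :
    ∃ u : ℝ, conj y = 1 + u * Complex.exp (π * b * Complex.I) := by
  unfold edge at hy
  obtain ⟨s, t, -, -, hst, h⟩ := hy
  have h0 : tri a b (0 + 1) = 1 := rfl
  have h1 : tri a b (0 + 2) = tau a b := rfl
  rw [h0, h1] at h
  refine ⟨-(t * (Real.sin (π * a) / Real.sin (π * (a + b)))), ?_⟩
  have h2 : conj (Complex.exp (-(π * b) * Complex.I)) = Complex.exp (π * b * Complex.I) := by
    have := WFun_conj_exp (-(π * b))
    rw [neg_neg] at this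
    push_cast at this
    exact this
  have h3 : y = 1 + (t : ℂ) * (tau a b - 1) := by
    rw [← h]
    have h4 : (s : ℂ) = 1 - t := by
      rw [eq_sub_iff_add_eq]
      exact_mod_cast hst
    simp only [Complex.real_smul, h4]
    ring
  rw [h3, map_add, map_one, map_mul, Complex.conj_ofReal, tau_sub_one ha hb hab, map_mul, map_neg,
    Complex.conj_ofReal, h2]
  push_cast
  ring

theorem WFun_mul_x (A B : ℝ) {x : ℂ} (h0 : x ≠ 0) (h1 : x ≠ 1) :
    mm (A + 1) B x = mm A B x * x := by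
  have h := mm_mul A B 1 0 h0 h1
  rw [mm_one_zero, add_zero] at h
  exact h.symm

theorem WFun_mul_1x (A B : ℝ) {x : ℂ} (h0 : x ≠ 0) (h1 : x ≠ 1) :
    mm A (B + 1) x = mm A B x * (1 - x) := by
  have h := mm_mul A B 0 1 h0 h1
  rw [mm_zero_one, add_zero] at h
  exact h.symm

theorem WFun_div0 {l : Filter ℂ} (hl : ∀ᶠ x in l, x ≠ 0 ∧ x ≠ 1) {f : ℂ → ℂ} {A B : ℝ} {c : ℂ}
    (h : Tendsto (fun x => f x / mm A B x) l (𝓝 c)) : f =O[l] mm A B := by
  refine isBigO_of_div_tendsto_nhds ?_ c h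
  filter_upwards [hl] with x hx h0
  exact absurd h0 (mm_ne_zero _ _ hx.1 hx.2)

theorem WFun_ne0 {p : ℂ} : ∀ᶠ x in 𝓝[Hb \ {0, 1}] p, x ≠ 0 ∧ x ≠ 1 := by
  filter_upwards [self_mem_nhdsWithin] with x hx
  have h2 := hx.2
  rwa [Set.mem_insert_iff, Set.mem_singleton_iff, not_or] at h2

theorem WFun_mulO {l : Filter ℂ} (hl : ∀ᶠ x in l, x ≠ 0 ∧ x ≠ 1) {A B A' B' C D : ℝ}
    {f : ℂ → ℂ} (h : f =O[l] mm A' B') (hC : A + A' = C) (hD : B + B' = D) :
    (fun x => mm A B x * f x) =O[l] mm C D := by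
  refine ((isBigO_refl (mm A B) l).mul h).congr' (EventuallyEq.refl _ _) ?_
  filter_upwards [hl] with x hx
  rw [mm_mul _ _ _ _ hx.1 hx.2, hC, hD]

/-- the derivative after subtracting the leading term at `0` -/
theorem WFun_d0 {h : ℂ → ℂ} {κ : ℂ} {A B : ℝ}
    (hd : ∀ x : ℂ, 0 < x.im → HasDerivAt h (κ * mm A B x) x) (hA : (A : ℂ) + 1 ≠ 0) (x : ℂ)
    (hx : 0 < x.im) : HasDerivAt (fun x => h x - κ / (A + 1) * mm (A + 1) B x)
      (κ * B / (A + 1) * mm (A + 1) (B - 1) x) x := by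
  have h1 := (hd x hx).sub ((hasDerivAt_mm (A + 1) B hx).const_mul (κ / ((A : ℂ) + 1)))
  refine h1.congr_deriv ?_
  rw [add_sub_cancel_right]
  push_cast
  field_simp
  ring

theorem WFun_d1 {h : ℂ → ℂ} {κ : ℂ} {A B : ℝ}
    (hd : ∀ x : ℂ, 0 < x.im → HasDerivAt h (κ * mm A B x) x) (hB : (B : ℂ) + 1 ≠ 0) (x : ℂ)
    (hx : 0 < x.im) : HasDerivAt (fun x => h x + κ / (B + 1) * mm A (B + 1) x)
      (κ * A / (B + 1) * mm (A - 1) (B + 1) x) x := by
  have h1 := (hd x hx).add ((hasDerivAt_mm A (B + 1) hx).const_mul (κ / ((B : ℂ) + 1)))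
  refine h1.congr_deriv ?_
  rw [add_sub_cancel_right]
  push_cast
  field_simp
  ring

theorem WFun_ne {x : ℂ} (hx : 0 < x.im) : x ≠ 0 ∧ x ≠ 1 :=
    ⟨fun h => by rw [h] at hx; simp at hx, fun h => by rw [h] at hx; simp at hx⟩

theorem WFun_d2 {h : ℂ → ℂ} {κ : ℂ} {A B : ℝ}
    (hd : ∀ x : ℂ, 0 < x.im → HasDerivAt h (κ * mm A B x) x) (hAB : (A : ℂ) + B + 1 ≠ 0) (x : ℂ)
    (hx : 0 < x.im) : HasDerivAt (fun x => h x - κ / (A + B + 1) * mm (A + 1) B x)
      (κ * B / (A + B + 1) * mm A (B - 1) x) x := by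
  obtain ⟨h0, h01⟩ := WFun_ne hx
  have h1 := (hd x hx).sub ((hasDerivAt_mm (A + 1) B hx).const_mul (κ / ((A : ℂ) + B + 1)))
  refine h1.congr_deriv ?_
  have e1 := WFun_mul_x A (B - 1) h0 h01
  have e2 := WFun_mul_1x A (B - 1) h0 h01
  rw [sub_add_cancel] at e2
  rw [add_sub_cancel_right, e1, e2]
  push_cast
  field_simp
  ring

/-- `(1-x)^B - 1 = O(x)` -/
theorem WFun_c0 (B : ℝ) : (fun x => mm 0 B x - 1) =O[𝓝[Hb \ {0, 1}] 0] mm 1 (B - 1) := by
  have := WFun_tend_zero_pos.neBot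
  obtain ⟨L, hL, hL'⟩ := prim_zero (h := mm 0 B) (κ := -B) (A := 0) (B := B - 1)
    (continuousOn_mm 0 B) (fun x hx => (hasDerivAt_mm 0 B hx).congr_deriv (by push_cast; ring))
    (by norm_num)
  have h1 : L = 1 := by
    refine tendsto_nhds_unique hL ?_
    have := mm_div_zero 0 B
    simpa only [mm_zero_zero, div_one] using this
  rw [h1, zero_add] at hL'
  exact WFun_div0 WFun_ne0 hL'

theorem WFun_c1 (A : ℝ) : (fun x => mm A 0 x - 1) =O[𝓝[Hb \ {0, 1}] 1] mm (A - 1) 1 := by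
  have := WFun_tend_one_pos.neBot
  obtain ⟨L, hL, hL'⟩ := prim_one (h := mm A 0) (κ := A) (A := A - 1) (B := 0)
    (continuousOn_mm A 0) (fun x hx => (hasDerivAt_mm A 0 hx).congr_deriv (by push_cast; ring))
    (by norm_num)
  have h1 : L = 1 := by
    refine tendsto_nhds_unique hL ?_
    have := mm_div_one A 0
    simpa only [mm_zero_zero, div_one] using this
  rw [h1, zero_add] at hL'
  exact WFun_div0 WFun_ne0 hL'

theorem WFun_c2 (B : ℝ) : (fun x => mm (-B) B x - Complex.exp (-(π * B) * Complex.I))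
    =O[Bornology.cobounded ℂ ⊓ 𝓟 Hb] mm (-B) (B - 1) := by
  have := WFun_tend_inf_pos.neBot
  obtain ⟨L, hL, hL'⟩ := prim_inf (h := mm (-B) B) (κ := -B) (A := -B - 1) (B := B - 1)
    (continuousOn_mm (-B) B) (fun x hx => (hasDerivAt_mm (-B) B hx).congr_deriv (by
      obtain ⟨h0, h1⟩ := WFun_ne hx
      have e1 := WFun_mul_x (-B - 1) (B - 1) h0 h1
      have e2 := WFun_mul_1x (-B - 1) (B - 1) h0 h1
      rw [sub_add_cancel] at e1 e2
      rw [e1, e2]
      push_cast; ring))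
    (by linarith)
  have h1 : L = Complex.exp (-(π * B) * Complex.I) := by
    refine tendsto_nhds_unique hL ?_
    have := mm_div_inf (-B) B
    simpa only [neg_add_cancel, mm_zero_zero, div_one] using this
  rw [h1, sub_add_cancel] at hL'
  exact WFun_div0 WFun_inf_ne hL'

theorem WFun_o0 (A B : ℝ) : mm A B =O[𝓝[Hb \ {0, 1}] 0] mm A 0 :=
  WFun_div0 WFun_ne0 (mm_div_zero A B)

theorem WFun_o1 (A B : ℝ) : mm A B =O[𝓝[Hb \ {0, 1}] 1] mm 0 B :=
  WFun_div0 WFun_ne0 (mm_div_one A B)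

theorem WFun_o2 (A B : ℝ) : mm A B =O[Bornology.cobounded ℂ ⊓ 𝓟 Hb] mm (A + B) 0 :=
  WFun_div0 WFun_inf_ne (mm_div_inf A B)

/-- a primitive is bounded, hence powers with nonnegative real part are bounded at `0` -/
theorem WFun_b0 {A : ℝ} (hA : 0 < A) : mm A 0 =O[𝓝[Hb \ {0, 1}] 0] mm 0 0 := by
  obtain ⟨L, hL, -⟩ := prim_zero (h := mm A 0) (κ := A) (A := A - 1) (B := 0)
    (continuousOn_mm A 0) (fun x hx => (hasDerivAt_mm A 0 hx).congr_deriv (by push_cast; ring))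
    (by linarith)
  refine WFun_div0 WFun_ne0 (c := L) ?_
  simpa only [mm_zero_zero, div_one] using hL

theorem WFun_b1 {B : ℝ} (hB : 0 < B) : mm 0 B =O[𝓝[Hb \ {0, 1}] 1] mm 0 0 := by
  obtain ⟨L, hL, -⟩ := prim_one (h := mm 0 B) (κ := -B) (A := 0) (B := B - 1)
    (continuousOn_mm 0 B) (fun x hx => (hasDerivAt_mm 0 B hx).congr_deriv (by push_cast; ring))
    (by linarith)
  refine WFun_div0 WFun_ne0 (c := L) ?_
  simpa only [mm_zero_zero, div_one] using hL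

theorem WFun_b2 {A : ℝ} (hA : A < 0) : mm A 0 =O[Bornology.cobounded ℂ ⊓ 𝓟 Hb] mm 0 0 := by
  obtain ⟨L, hL, -⟩ := prim_inf (h := mm A 0) (κ := A) (A := A - 1) (B := 0)
    (continuousOn_mm A 0) (fun x hx => (hasDerivAt_mm A 0 hx).congr_deriv (by push_cast; ring))
    (by linarith)
  refine WFun_div0 WFun_inf_ne (c := L) ?_
  simpa only [mm_zero_zero, div_one] using hL

theorem WFun_E0 {h : ℂ → ℂ} {κ L : ℂ} {A B : ℝ} (hc : ContinuousOn h (Hb \ {0, 1}))
    (hd : ∀ x : ℂ, 0 < x.im → HasDerivAt h (κ * mm A B x) x) (hA : -1 < A)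
    (hL : Tendsto h (𝓝[Hb \ {0, 1}] 0) (𝓝 L)) :
    (fun x => h x - L - κ / (A + 1) * mm (A + 1) 0 x) =O[𝓝[Hb \ {0, 1}] 0] mm (A + 1 + 1) 0 := by
  have := WFun_tend_zero_pos.neBot
  have hA1 : (A : ℂ) + 1 ≠ 0 := by exact_mod_cast (by linarith : (0 : ℝ) < A + 1).ne'
  have hc' : ContinuousOn (fun x => h x - κ / (A + 1) * mm (A + 1) B x) (Hb \ {0, 1}) :=
    hc.sub (continuousOn_const.mul (continuousOn_mm _ _))
  obtain ⟨L', h1, h2⟩ := prim_zero hc' (WFun_d0 hd hA1) (by linarith)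
  have h3 : Tendsto (mm (A + 1) B) (𝓝[Hb \ {0, 1}] 0) (𝓝 0) := by
    have h4 : Tendsto (mm (A + 1) 0) (𝓝[Hb \ {0, 1}] 0) (𝓝 0) := by
      have h5 : Tendsto (fun x : ℂ => ‖x‖ ^ (A + 1)) (𝓝[Hb \ {0, 1}] 0) (𝓝 0) := by
        have h6 : Tendsto (fun x : ℂ => ‖x‖) (𝓝[Hb \ {0, 1}] 0) (𝓝 0) :=
          (tendsto_norm_zero).mono_left nhdsWithin_le_nhds
        have h7 := h6.rpow_const (p := A + 1) (Or.inr (by linarith))
        rwa [Real.zero_rpow (by linarith)] at h7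
      rw [tendsto_zero_iff_norm_tendsto_zero]
      refine h5.congr' ?_
      filter_upwards [WFun_ne0] with x hx
      rw [norm_mm _ _ hx.1 hx.2, Real.rpow_zero, mul_one]
    exact (WFun_o0 (A + 1) B).trans_tendsto h4
  have h4 : L' = L := by
    refine tendsto_nhds_unique h1 ?_
    have := hL.sub (h3.const_mul (κ / (A + 1)))
    rwa [mul_zero, sub_zero] at this
  rw [h4] at h2
  have h5 := (WFun_div0 WFun_ne0 h2).trans (WFun_o0 _ _)
  have h6 := (WFun_mulO (A := A + 1) (B := 0) WFun_ne0 (WFun_c0 B) rfl (zero_add _)).trans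
    (WFun_o0 _ _)
  refine (h5.add (h6.const_mul_left (κ / (A + 1)))).congr' ?_ (EventuallyEq.refl _ _)
  filter_upwards [WFun_ne0] with x hx
  have h7 := mm_mul (A + 1) 0 0 B hx.1 hx.2
  rw [add_zero, zero_add] at h7
  rw [← h7]
  ring

theorem WFun_E0s {h : ℂ → ℂ} {κ : ℂ} {A B : ℝ} (hc : ContinuousOn h (Hb \ {0, 1}))
    (hd : ∀ x : ℂ, 0 < x.im → HasDerivAt h (κ * mm A B x) x) (hA : A < -1) (hA' : -2 < A)
    (p : ℂ) :
    (fun x => h x - p - κ / (A + 1) * mm (A + 1) 0 x) =O[𝓝[Hb \ {0, 1}] 0] mm 0 0 := by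
  have hA1 : (A : ℂ) + 1 ≠ 0 := by exact_mod_cast (by linarith : A + 1 < (0 : ℝ)).ne
  have hc' : ContinuousOn (fun x => h x - κ / (A + 1) * mm (A + 1) B x) (Hb \ {0, 1}) :=
    hc.sub (continuousOn_const.mul (continuousOn_mm _ _))
  obtain ⟨L', h1, -⟩ := prim_zero hc' (WFun_d0 hd hA1) (by linarith)
  have h5 : (fun x => h x - κ / (A + 1) * mm (A + 1) B x - p) =O[𝓝[Hb \ {0, 1}] 0] mm 0 0 := by
    refine WFun_div0 WFun_ne0 (c := L' - p) ?_
    simpa only [mm_zero_zero, div_one] using h1.sub_const p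
  have h6 := ((WFun_mulO (A := A + 1) (B := 0) WFun_ne0 (WFun_c0 B) rfl (zero_add _)).trans
    (WFun_o0 _ _)).trans (WFun_b0 (by linarith))
  refine (h5.add (h6.const_mul_left (κ / (A + 1)))).congr' ?_ (EventuallyEq.refl _ _)
  filter_upwards [WFun_ne0] with x hx
  have h7 := mm_mul (A + 1) 0 0 B hx.1 hx.2
  rw [add_zero, zero_add] at h7
  rw [← h7]
  ring

theorem WFun_E1 {h : ℂ → ℂ} {κ L : ℂ} {A B : ℝ} (hc : ContinuousOn h (Hb \ {0, 1}))
    (hd : ∀ x : ℂ, 0 < x.im → HasDerivAt h (κ * mm A B x) x) (hB : -1 < B)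
    (hL : Tendsto h (𝓝[Hb \ {0, 1}] 1) (𝓝 L)) :
    (fun x => h x - L + κ / (B + 1) * mm 0 (B + 1) x) =O[𝓝[Hb \ {0, 1}] 1] mm 0 (B + 1 + 1) := by
  have := WFun_tend_one_pos.neBot
  have hB1 : (B : ℂ) + 1 ≠ 0 := by exact_mod_cast (by linarith : (0 : ℝ) < B + 1).ne'
  have hc' : ContinuousOn (fun x => h x + κ / (B + 1) * mm A (B + 1) x) (Hb \ {0, 1}) :=
    hc.add (continuousOn_const.mul (continuousOn_mm _ _))
  obtain ⟨L', h1, h2⟩ := prim_one hc' (WFun_d1 hd hB1) (by linarith)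
  have h3 : Tendsto (mm A (B + 1)) (𝓝[Hb \ {0, 1}] 1) (𝓝 0) := by
    have h4 : Tendsto (mm 0 (B + 1)) (𝓝[Hb \ {0, 1}] 1) (𝓝 0) := by
      have h5 : Tendsto (fun x : ℂ => ‖x - 1‖ ^ (B + 1)) (𝓝[Hb \ {0, 1}] 1) (𝓝 0) := by
        have h6 : Tendsto (fun x : ℂ => ‖x - 1‖) (𝓝[Hb \ {0, 1}] 1) (𝓝 0) :=
          (tendsto_norm_sub_self 1).mono_left nhdsWithin_le_nhds
        have h7 := h6.rpow_const (p := B + 1) (Or.inr (by linarith))
        rwa [Real.zero_rpow (by linarith)] at h7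
      rw [tendsto_zero_iff_norm_tendsto_zero]
      refine h5.congr' ?_
      filter_upwards [WFun_ne0] with x hx
      rw [norm_mm _ _ hx.1 hx.2, Real.rpow_zero, one_mul]
    exact (WFun_o1 A (B + 1)).trans_tendsto h4
  have h4 : L' = L := by
    refine tendsto_nhds_unique h1 ?_
    have := hL.add (h3.const_mul (κ / (B + 1)))
    rwa [mul_zero, add_zero] at this
  rw [h4] at h2
  have h5 := (WFun_div0 WFun_ne0 h2).trans (WFun_o1 _ _)
  have h6 := (WFun_mulO (A := 0) (B := B + 1) WFun_ne0 (WFun_c1 A) (zero_add _) rfl).trans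
    (WFun_o1 _ _)
  refine (h5.sub (h6.const_mul_left (κ / (B + 1)))).congr' ?_ (EventuallyEq.refl _ _)
  filter_upwards [WFun_ne0] with x hx
  have h7 := mm_mul 0 (B + 1) A 0 hx.1 hx.2
  rw [add_zero, zero_add] at h7
  rw [← h7]
  ring

theorem WFun_E1s {h : ℂ → ℂ} {κ : ℂ} {A B : ℝ} (hc : ContinuousOn h (Hb \ {0, 1}))
    (hd : ∀ x : ℂ, 0 < x.im → HasDerivAt h (κ * mm A B x) x) (hB : B < -1) (hB' : -2 < B)
    (p : ℂ) :
    (fun x => h x - p + κ / (B + 1) * mm 0 (B + 1) x) =O[𝓝[Hb \ {0, 1}] 1] mm 0 0 := by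
  have hB1 : (B : ℂ) + 1 ≠ 0 := by exact_mod_cast (by linarith : B + 1 < (0 : ℝ)).ne
  have hc' : ContinuousOn (fun x => h x + κ / (B + 1) * mm A (B + 1) x) (Hb \ {0, 1}) :=
    hc.add (continuousOn_const.mul (continuousOn_mm _ _))
  obtain ⟨L', h1, -⟩ := prim_one hc' (WFun_d1 hd hB1) (by linarith)
  have h5 : (fun x => h x + κ / (B + 1) * mm A (B + 1) x - p) =O[𝓝[Hb \ {0, 1}] 1] mm 0 0 := by
    refine WFun_div0 WFun_ne0 (c := L' - p) ?_
    simpa only [mm_zero_zero, div_one] using h1.sub_const p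
  have h6 := ((WFun_mulO (A := 0) (B := B + 1) WFun_ne0 (WFun_c1 A) (zero_add _) rfl).trans
    (WFun_o1 _ _)).trans (WFun_b1 (by linarith))
  refine (h5.sub (h6.const_mul_left (κ / (B + 1)))).congr' ?_ (EventuallyEq.refl _ _)
  filter_upwards [WFun_ne0] with x hx
  have h7 := mm_mul 0 (B + 1) A 0 hx.1 hx.2
  rw [add_zero, zero_add] at h7
  rw [← h7]
  ring

theorem WFun_E2 {h : ℂ → ℂ} {κ L : ℂ} {A B : ℝ} (hc : ContinuousOn h (Hb \ {0, 1}))
    (hd : ∀ x : ℂ, 0 < x.im → HasDerivAt h (κ * mm A B x) x) (hAB : A + B < -1)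
    (hL : Tendsto h (Bornology.cobounded ℂ ⊓ 𝓟 Hb) (𝓝 L)) :
    (fun x => h x - L - κ / (A + B + 1) * Complex.exp (-(π * B) * Complex.I) *
      mm (A + 1 + B) 0 x) =O[Bornology.cobounded ℂ ⊓ 𝓟 Hb] mm (A + B) 0 := by
  have := WFun_tend_inf_pos.neBot
  have hA1 : (A : ℂ) + B + 1 ≠ 0 := by exact_mod_cast (by linarith : A + B + 1 < (0 : ℝ)).ne
  have hc' : ContinuousOn (fun x => h x - κ / (A + B + 1) * mm (A + 1) B x) (Hb \ {0, 1}) :=
    hc.sub (continuousOn_const.mul (continuousOn_mm _ _))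
  obtain ⟨L', h1, h2⟩ := prim_inf hc' (WFun_d2 hd hA1) (by linarith)
  have h3 : Tendsto (mm (A + 1) B) (Bornology.cobounded ℂ ⊓ 𝓟 Hb) (𝓝 0) := by
    have h4 : Tendsto (mm (A + 1 + B) 0) (Bornology.cobounded ℂ ⊓ 𝓟 Hb) (𝓝 0) := by
      have h5 : Tendsto (fun x : ℂ => ‖x‖ ^ (A + 1 + B)) (Bornology.cobounded ℂ ⊓ 𝓟 Hb)
          (𝓝 0) := by
        have h6 : Tendsto (fun x : ℂ => ‖x‖) (Bornology.cobounded ℂ ⊓ 𝓟 Hb) atTop :=
          tendsto_norm_cobounded_atTop.mono_left inf_le_left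
        have h7 := (tendsto_rpow_neg_atTop (y := -(A + 1 + B)) (by linarith)).comp h6
        simpa only [neg_neg, Function.comp_def] using h7
      rw [tendsto_zero_iff_norm_tendsto_zero]
      refine h5.congr' ?_
      filter_upwards [WFun_inf_ne] with x hx
      rw [norm_mm _ _ hx.1 hx.2, Real.rpow_zero, mul_one]
    exact (WFun_o2 (A + 1) B).trans_tendsto h4
  have h4 : L' = L := by
    refine tendsto_nhds_unique h1 ?_
    have := hL.sub (h3.const_mul (κ / (A + B + 1)))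
    rwa [mul_zero, sub_zero] at this
  rw [h4] at h2
  have h5 := (WFun_div0 WFun_inf_ne h2).trans (WFun_o2 _ _)
  rw [show A + 1 + (B - 1) = A + B by ring] at h5
  have h6 := (WFun_mulO (A := A + 1 + B) (B := 0) WFun_inf_ne (WFun_c2 B)
    (show A + 1 + B + -B = A + 1 by ring) (zero_add _)).trans (WFun_o2 _ _)
  rw [show A + 1 + (B - 1) = A + B by ring] at h6
  refine (h5.add (h6.const_mul_left (κ / (A + B + 1)))).congr' ?_ (EventuallyEq.refl _ _)
  filter_upwards [WFun_inf_ne] with x hx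
  have h7 := mm_mul (A + 1 + B) 0 (-B) B hx.1 hx.2
  rw [zero_add, show A + 1 + B + -B = A + 1 by ring] at h7
  rw [← h7]
  ring

theorem WFun_E2s {h : ℂ → ℂ} {κ : ℂ} {A B : ℝ} (hc : ContinuousOn h (Hb \ {0, 1}))
    (hd : ∀ x : ℂ, 0 < x.im → HasDerivAt h (κ * mm A B x) x) (hAB : -1 < A + B)
    (hAB' : A + B < 0) (p : ℂ) :
    (fun x => h x - p - κ / (A + B + 1) * Complex.exp (-(π * B) * Complex.I) *
      mm (A + 1 + B) 0 x) =O[Bornology.cobounded ℂ ⊓ 𝓟 Hb] mm 0 0 := by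
  have hA1 : (A : ℂ) + B + 1 ≠ 0 := by exact_mod_cast (by linarith : (0 : ℝ) < A + B + 1).ne'
  have hc' : ContinuousOn (fun x => h x - κ / (A + B + 1) * mm (A + 1) B x) (Hb \ {0, 1}) :=
    hc.sub (continuousOn_const.mul (continuousOn_mm _ _))
  obtain ⟨L', h1, -⟩ := prim_inf hc' (WFun_d2 hd hA1) (by linarith)
  have h5 : (fun x => h x - κ / (A + B + 1) * mm (A + 1) B x - p)
      =O[Bornology.cobounded ℂ ⊓ 𝓟 Hb] mm 0 0 := by
    refine WFun_div0 WFun_inf_ne (c := L' - p) ?_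
    simpa only [mm_zero_zero, div_one] using h1.sub_const p
  have h6 := (WFun_mulO (A := A + 1 + B) (B := 0) WFun_inf_ne (WFun_c2 B)
    (show A + 1 + B + -B = A + 1 by ring) (zero_add _)).trans (WFun_o2 _ _)
  rw [show A + 1 + (B - 1) = A + B by ring] at h6
  have h8 := h6.trans (WFun_b2 hAB')
  refine (h5.add (h8.const_mul_left (κ / (A + B + 1)))).congr' ?_ (EventuallyEq.refl _ _)
  filter_upwards [WFun_inf_ne] with x hx
  have h7 := mm_mul (A + 1 + B) 0 (-B) B hx.1 hx.2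
  rw [zero_add, show A + 1 + B + -B = A + 1 by ring] at h7
  rw [← h7]
  ring

/-- the properties of the function `g` such that `ȳ + g` has weight `-1` -/
def WSpec (a b : ℝ) (e1 e2 : ℕ) (κ : ℝ) (g : ℂ → ℂ) : Prop :=
    ContinuousOn g (body (tri a b) \ VV a b) ∧
    (∀ y ∈ body (tri a b) \ VV a b, HasFDerivWithinAt g
      (DD (κ * bet a b * MM a b (1 - 2 * a - e1) (1 - 2 * b - e2) y) 0) (body (tri a b)) y) ∧
    (∀ y ∈ edge (tri a b) 2 \ VV a b, ∃ s : ℝ, conj y + g y = s) ∧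
    (∀ y ∈ edge (tri a b) 1 \ VV a b, ∃ s : ℝ,
      conj y + g y = s * Complex.exp (-(π * a) * Complex.I)) ∧
    (∀ y ∈ edge (tri a b) 0 \ VV a b, ∃ s : ℝ,
      conj y + g y = s * Complex.exp (π * b * Complex.I)) ∧
    (∃ ε : ℝ, 0 < ε ∧ (fun y => g y - κ / (1 - a - e1) * MM a b (1 - a - e1) 0 y)
      =O[𝓝[body (tri a b) \ VV a b] 0] (fun y => ‖y‖ ^ ((1 - a - e1 + ε) / a))) ∧
    (∃ ε : ℝ, 0 < ε ∧ (fun y => g y + 1 + κ / (1 - b - e2) * MM a b 0 (1 - b - e2) y)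
      =O[𝓝[body (tri a b) \ VV a b] 1] (fun y => ‖y - 1‖ ^ ((1 - b - e2 + ε) / b))) ∧
    (∃ ε : ℝ, 0 < ε ∧ (fun y => g y + conj (tau a b) -
      κ * Complex.exp (π * (b + e2) * Complex.I) / (1 - a - b - e1 - e2) *
        MM a b (1 - a - b - e1 - e2) 0 y) =O[𝓝[body (tri a b) \ VV a b] (tau a b)]
      (fun y => ‖y - tau a b‖ ^ ((e1 + e2 - (1 - a - b) + ε) / (1 - a - b)))) ∧
    Tendsto (fun y => g y / MM a b (1 - a - e1) 0 y) (𝓝[body (tri a b) \ VV a b] 0)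
      (𝓝 (κ / (1 - a - e1))) ∧
    Tendsto (fun y => (g y + 1) / MM a b 0 (1 - b - e2) y) (𝓝[body (tri a b) \ VV a b] 1)
      (𝓝 (-κ / (1 - b - e2))) ∧
    Tendsto (fun y => (g y + conj (tau a b)) / MM a b (1 - a - b - e1 - e2) 0 y)
      (𝓝[body (tri a b) \ VV a b] (tau a b))
      (𝓝 (κ * Complex.exp (π * (b + e2) * Complex.I) / (1 - a - b - e1 - e2))) ∧
    (0 < e1 + e2 → (fun y => g y + conj (tau a b) -
      κ * Complex.exp (π * (b + e2) * Complex.I) / (1 - a - b - e1 - e2) *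
        MM a b (1 - a - b - e1 - e2) 0 y) =O[𝓝[body (tri a b) \ VV a b] (tau a b)]
      (fun y => ‖y - tau a b‖ ^ ((e1 + e2 - (1 - a - b) + 1) / (1 - a - b))))

theorem WFun_core (ha : 0 < a) (hb : 0 < b) (hab : a + b < 1 / 2) (e1 e2 : ℕ) (he1 : e1 ≤ 1)
    (he2 : e2 ≤ 1) (h : ℂ → ℂ) (κ : ℝ) (hκ : κ ≠ 0)
    (hc : ContinuousOn h (Hb \ {0, 1}))
    (hd : ∀ x : ℂ, 0 < x.im → HasDerivAt h (κ * mm (-a - e1) (-b - e2) x) x)
    (h3 : ∀ t : ℝ, 0 < t → t < 1 → ∃ s : ℝ, h t = s)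
    (h4 : ∀ t : ℝ, t < 0 → ∃ s : ℝ, h t = s * Complex.exp (-(π * a) * Complex.I))
    (h5 : ∀ t : ℝ, 1 < t → ∃ s : ℝ, h t = -1 + s * Complex.exp (π * b * Complex.I)) :
    ∃ (g : ℂ → ℂ), WSpec a b e1 e2 κ g := by
  have hab1 : a + b < 1 := by linarith
  have hXm : Set.MapsTo (XX a b) (body (tri a b) \ VV a b) (Hb \ {0, 1}) := by
    intro y hy
    have h1 : y ≠ tau a b := fun h => hy.2 (h ▸ ⟨2, rfl⟩)
    refine ⟨(XX_mem ha hb hab1 ⟨hy.1, h1⟩).1, ?_⟩
    rw [Set.mem_insert_iff, Set.mem_singleton_iff, not_or]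
    exact XX_ne ha hb hab1 hy
  have hXc : ContinuousOn (XX a b) (body (tri a b) \ VV a b) := by
    apply (continuousOn_XX ha hb hab1).mono
    intro y hy
    exact ⟨hy.1, fun h => hy.2 (h ▸ ⟨2, rfl⟩)⟩
  have hgc : ContinuousOn (fun y => h (XX a b y)) (body (tri a b) \ VV a b) := hc.comp hXc hXm
  have hA : -a - (e1 : ℝ) + 1 = 1 - a - e1 := by ring
  have hB : -b - (e2 : ℝ) + 1 = 1 - b - e2 := by ring
  have hAB : -a - (e1 : ℝ) + 1 + (-b - e2) = 1 - a - b - e1 - e2 := by ring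
  refine ⟨fun y => h (XX a b y), hgc, ?_, ?_, ?_, ?_, ?_, ?_, ?_, ?_, ?_, ?_, ?_⟩
  · intro y hy
    refine WFun_ext ha hb hab1 (F := fun y => κ * bet a b *
      MM a b (1 - 2 * a - e1) (1 - 2 * b - e2) y) hgc ?_ ?_ hy
    · exact continuousOn_const.mul (continuousOn_MM ha hb hab1 _ _)
    · intro z hz
      have h1 := XX_im_pos ha hb hab1 hz
      have h2 := (hd _ h1).comp z (hasDerivAt_XX ha hb hab1 hz)
      have h0 : XX a b z ≠ 0 := fun h => by rw [h] at h1; simp at h1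
      have h01 : XX a b z ≠ 1 := fun h => by rw [h] at h1; simp at h1
      have h6 : (κ : ℂ) * mm (-a - e1) (-b - e2) (XX a b z) *
          (bet a b * mm (1 - a) (1 - b) (XX a b z)) = κ * bet a b *
          MM a b (1 - 2 * a - e1) (1 - 2 * b - e2) z := by
        unfold MM
        have h7 := mm_mul (-a - e1) (-b - e2) (1 - a) (1 - b) h0 h01
        rw [show -a - (e1 : ℝ) + (1 - a) = 1 - 2 * a - e1 by ring,
          show -b - (e2 : ℝ) + (1 - b) = 1 - 2 * b - e2 by ring] at h7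
        rw [← h7]
        ring
      rw [← h6]
      exact h2
  · intro y hy
    obtain ⟨t, ht0, ht1, ht⟩ := XX_edge2 ha hb hab1 hy
    obtain ⟨s, hs⟩ := h3 t ht0 ht1
    obtain ⟨u, hu⟩ := WFun_y2 (a := a) (b := b) hy.1
    exact ⟨u + s, by simp only [ht, hs, hu]; push_cast; ring⟩
  · intro y hy
    obtain ⟨t, ht0, ht⟩ := XX_edge1 ha hb hab1 hy
    obtain ⟨s, hs⟩ := h4 t ht0
    obtain ⟨u, hu⟩ := WFun_y1 (a := a) (b := b) hy.1
    exact ⟨u + s, by simp only [ht, hs, hu]; push_cast; ring⟩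
  · intro y hy
    obtain ⟨t, ht0, ht⟩ := XX_edge0 ha hb hab1 hy
    obtain ⟨s, hs⟩ := h5 t ht0
    obtain ⟨u, hu⟩ := WFun_y0 ha hb hab1 hy.1
    exact ⟨u + s, by simp only [ht, hs, hu]; push_cast; ring⟩
  · have h7 : (κ : ℂ) / (((-a - e1 : ℝ) : ℂ) + 1) = κ / (1 - a - e1) := by
      push_cast; ring_nf
    rcases Nat.le_one_iff_eq_zero_or_eq_one.1 he1 with rfl | rfl
    · obtain ⟨L, hL, -⟩ := prim_zero hc hd (by push_cast; linarith)
      have h8 := WFun_E0 hc hd (by push_cast; linarith) hL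
      rw [WFun_L0 ha (by linarith) hL h3 h4] at h8
      have h9 := (h8.comp_tendsto (tendsto_XX_zero ha hb hab1)).trans
        (MM_bigO0 ha hb hab1 (-a - ((0 : ℕ) : ℝ) + 1 + 1) 0)
      rw [h7, hA] at h9
      refine ⟨1, one_pos, ?_⟩
      simpa only [Function.comp_def, sub_zero, MM, VV] using h9
    · have h8 := WFun_E0s hc hd (by push_cast; linarith) (by push_cast; linarith) 0
      have h9 := (h8.comp_tendsto (tendsto_XX_zero ha hb hab1)).trans (MM_bigO0 ha hb hab1 0 0)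
      rw [h7, hA] at h9
      refine ⟨a, ha, ?_⟩
      have h10 : 1 - a - ((1 : ℕ) : ℝ) + a = 0 := by push_cast; ring
      rw [h10]
      simpa only [Function.comp_def, sub_zero, MM, VV] using h9
  · have h7 : (κ : ℂ) / (((-b - e2 : ℝ) : ℂ) + 1) = κ / (1 - b - e2) := by
      push_cast; ring_nf
    rcases Nat.le_one_iff_eq_zero_or_eq_one.1 he2 with rfl | rfl
    · obtain ⟨L, hL, -⟩ := prim_one hc hd (by push_cast; linarith)
      have h8 := WFun_E1 hc hd (by push_cast; linarith) hL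
      rw [WFun_L1 hb (by linarith) hL h3 h5] at h8
      have h9 := (h8.comp_tendsto (tendsto_XX_one ha hb hab1)).trans
        (MM_bigO1 ha hb hab1 0 (-b - ((0 : ℕ) : ℝ) + 1 + 1))
      rw [h7, hB] at h9
      refine ⟨1, one_pos, ?_⟩
      simpa only [Function.comp_def, sub_neg_eq_add, MM, VV] using h9
    · have h8 := WFun_E1s hc hd (by push_cast; linarith) (by push_cast; linarith) (-1)
      have h9 := (h8.comp_tendsto (tendsto_XX_one ha hb hab1)).trans (MM_bigO1 ha hb hab1 0 0)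
      rw [h7, hB] at h9
      refine ⟨b, hb, ?_⟩
      have h10 : 1 - b - ((1 : ℕ) : ℝ) + b = 0 := by push_cast; ring
      rw [h10]
      simpa only [Function.comp_def, sub_neg_eq_add, MM, VV] using h9
  · have h7 : (κ : ℂ) / (((-a - e1 : ℝ) : ℂ) + ((-b - e2 : ℝ) : ℂ) + 1) *
        Complex.exp (-(π * ((-b - e2 : ℝ) : ℂ)) * Complex.I) =
        κ * Complex.exp (π * (b + e2) * Complex.I) / (1 - a - b - e1 - e2) := by
      have h8 : -((π : ℂ) * ((-b - e2 : ℝ) : ℂ)) * Complex.I = π * (b + e2) * Complex.I := by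
        push_cast; ring
      rw [h8]
      push_cast
      ring_nf
    by_cases h0 : e1 = 0 ∧ e2 = 0
    · obtain ⟨rfl, rfl⟩ := h0
      have h8 := WFun_E2s hc hd (by push_cast; linarith) (by push_cast; linarith)
        (-conj (tau a b))
      have h9 := (h8.comp_tendsto (tendsto_XX_tau ha hb hab1)).trans (MM_bigO2 ha hb hab1 0 0)
      rw [h7, hAB] at h9
      refine ⟨1 - a - b, by linarith, ?_⟩
      have h10 : ((0 : ℕ) : ℝ) + ((0 : ℕ) : ℝ) - (1 - a - b) + (1 - a - b) = -(0 + 0) := by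
        push_cast; ring
      rw [h10]
      simpa only [Function.comp_def, sub_neg_eq_add, MM, VV] using h9
    · have h8 : (1 : ℝ) ≤ e1 + e2 := by
        have : 1 ≤ e1 + e2 := by omega
        exact_mod_cast this
      obtain ⟨L, hL, -⟩ := prim_inf hc hd (by linarith)
      have h11 := WFun_E2 hc hd (by linarith) hL
      rw [WFun_L2 ha hb hab1 hL h4 h5] at h11
      have h9 := (h11.comp_tendsto (tendsto_XX_tau ha hb hab1)).trans
        (MM_bigO2 ha hb hab1 (-a - e1 + (-b - e2)) 0)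
      rw [h7, hAB] at h9
      refine ⟨1, one_pos, ?_⟩
      have h10 : (e1 : ℝ) + e2 - (1 - a - b) + 1 = -(-a - e1 + (-b - e2) + 0) := by ring
      rw [h10]
      simpa only [Function.comp_def, sub_neg_eq_add, MM, VV] using h9
  · have key : Tendsto (fun x => (h x - 0) / mm (-a - e1 + 1) (-b - e2) x) (𝓝[Hb \ {0, 1}] 0)
        (𝓝 ((κ : ℂ) / (((-a - e1 : ℝ) : ℂ) + 1))) := by
      rcases Nat.le_one_iff_eq_zero_or_eq_one.1 he1 with rfl | rfl
      · obtain ⟨L, hL, hL'⟩ := prim_zero hc hd (by push_cast; linarith)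
        rw [WFun_L0 ha (by linarith) hL h3 h4] at hL'
        exact hL'
      · exact prim_zero_sing hc hd (by push_cast; linarith) (by push_cast; linarith) 0
    have h6 := (WFun_X0 key).comp (tendsto_XX_zero ha hb hab1)
    rw [hA] at h6
    have h7 : (κ : ℂ) / (((-a - e1 : ℝ) : ℂ) + 1) = κ / (1 - a - e1) := by
      push_cast; ring_nf
    rw [h7] at h6
    simpa only [Function.comp_def, sub_zero, MM, VV] using h6
  · have key : Tendsto (fun x => (h x - -1) / mm (-a - e1) (-b - e2 + 1) x) (𝓝[Hb \ {0, 1}] 1)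
        (𝓝 (-(κ : ℂ) / (((-b - e2 : ℝ) : ℂ) + 1))) := by
      rcases Nat.le_one_iff_eq_zero_or_eq_one.1 he2 with rfl | rfl
      · obtain ⟨L, hL, hL'⟩ := prim_one hc hd (by push_cast; linarith)
        rw [WFun_L1 hb (by linarith) hL h3 h5] at hL'
        exact hL'
      · exact prim_one_sing hc hd (by push_cast; linarith) (by push_cast; linarith) (-1)
    have h6 := (WFun_X1 key).comp (tendsto_XX_one ha hb hab1)
    rw [hB] at h6
    have h7 : -(κ : ℂ) / (((-b - e2 : ℝ) : ℂ) + 1) = -κ / (1 - b - e2) := by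
      push_cast; ring_nf
    rw [h7] at h6
    simpa only [Function.comp_def, sub_neg_eq_add, MM, VV] using h6
  · have key : Tendsto (fun x => (h x - -conj (tau a b)) / mm (-a - e1 + 1) (-b - e2) x)
        (Bornology.cobounded ℂ ⊓ 𝓟 Hb)
        (𝓝 ((κ : ℂ) / (((-a - e1 : ℝ) : ℂ) + ((-b - e2 : ℝ) : ℂ) + 1))) := by
      by_cases h0 : e1 = 0 ∧ e2 = 0
      · obtain ⟨rfl, rfl⟩ := h0
        exact prim_inf_sing hc hd (by push_cast; linarith) (by push_cast; linarith) _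
      · have h8 : (1 : ℝ) ≤ e1 + e2 := by
          have : 1 ≤ e1 + e2 := by omega
          exact_mod_cast this
        obtain ⟨L, hL, hL'⟩ := prim_inf hc hd (by linarith)
        rw [WFun_L2 ha hb hab1 hL h4 h5] at hL'
        exact hL'
    have h6 := (WFun_X2 key).comp (tendsto_XX_tau ha hb hab1)
    rw [hAB] at h6
    have h7 : (κ : ℂ) / (((-a - e1 : ℝ) : ℂ) + ((-b - e2 : ℝ) : ℂ) + 1) *
        Complex.exp (-(π * ((-b - e2 : ℝ) : ℂ)) * Complex.I) =
        κ * Complex.exp (π * (b + e2) * Complex.I) / (1 - a - b - e1 - e2) := by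
      have h8 : -((π : ℂ) * ((-b - e2 : ℝ) : ℂ)) * Complex.I = π * (b + e2) * Complex.I := by
        push_cast; ring
      rw [h8]
      push_cast
      ring_nf
    rw [h7] at h6
    simpa only [Function.comp_def, sub_neg_eq_add, MM, VV] using h6
  · intro hpos
    have h7 : (κ : ℂ) / (((-a - e1 : ℝ) : ℂ) + ((-b - e2 : ℝ) : ℂ) + 1) *
        Complex.exp (-(π * ((-b - e2 : ℝ) : ℂ)) * Complex.I) =
        κ * Complex.exp (π * (b + e2) * Complex.I) / (1 - a - b - e1 - e2) := by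
      have h8 : -((π : ℂ) * ((-b - e2 : ℝ) : ℂ)) * Complex.I = π * (b + e2) * Complex.I := by
        push_cast; ring
      rw [h8]
      push_cast
      ring_nf
    have h8 : (1 : ℝ) ≤ e1 + e2 := by
      have : 1 ≤ e1 + e2 := hpos
      exact_mod_cast this
    obtain ⟨L, hL, -⟩ := prim_inf hc hd (by linarith)
    have h11 := WFun_E2 hc hd (by linarith) hL
    rw [WFun_L2 ha hb hab1 hL h4 h5] at h11
    have h9 := (h11.comp_tendsto (tendsto_XX_tau ha hb hab1)).trans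
      (MM_bigO2 ha hb hab1 (-a - e1 + (-b - e2)) 0)
    rw [h7, hAB] at h9
    have h10 : (e1 : ℝ) + e2 - (1 - a - b) + 1 = -(-a - e1 + (-b - e2) + 0) := by ring
    rw [h10]
    simpa only [Function.comp_def, sub_neg_eq_add, MM, VV] using h9

theorem WFun_ph_mid (A B : ℝ) {t : ℝ} (h0 : 0 < t) (h1 : t < 1) : ∃ s : ℝ, mm A B t = s :=
  ⟨_, mm_mid A B h0 h1⟩

theorem WFun_ph_neg {A : ℝ} (B : ℝ) (hA : A = -a ∨ A = 1 - a) {t : ℝ} (h0 : t < 0) :
    ∃ s : ℝ, mm A B t = s * Complex.exp (-(π * a) * Complex.I) := by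
  rcases hA with rfl | rfl
  · refine ⟨(-t) ^ (-a) * (1 - t) ^ B, ?_⟩
    rw [mm_neg _ B h0, mul_comm]
    congr 2
    push_cast
    ring
  · refine ⟨-((-t) ^ (1 - a) * (1 - t) ^ B), ?_⟩
    rw [mm_neg _ B h0]
    have : (π : ℂ) * ((1 - a : ℝ) : ℂ) * Complex.I = π * Complex.I + -(π * a) * Complex.I := by
      push_cast; ring
    rw [this, Complex.exp_add, Complex.exp_pi_mul_I, Complex.ofReal_neg]
    ring

theorem WFun_ph_gt (A : ℝ) {B : ℝ} (hB : B = -b ∨ B = 1 - b) {t : ℝ} (h1 : 1 < t) :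
    ∃ s : ℝ, mm A B t = s * Complex.exp (π * b * Complex.I) := by
  rcases hB with rfl | rfl
  · refine ⟨t ^ A * (t - 1) ^ (-b), ?_⟩
    rw [mm_gt A _ h1, mul_comm]
    congr 2
    push_cast
    ring
  · refine ⟨-(t ^ A * (t - 1) ^ (1 - b)), ?_⟩
    rw [mm_gt A _ h1]
    have : -((π : ℂ) * ((1 - b : ℝ) : ℂ)) * Complex.I =
        -(π * Complex.I) + π * b * Complex.I := by
      push_cast; ring
    rw [this, Complex.exp_add, Complex.exp_neg, Complex.exp_pi_mul_I, Complex.ofReal_neg,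
      inv_neg, inv_one]
    ring

theorem WFun_int {f : ℝ → ℂ} {e : ℂ} {s t : ℝ}
    (h : ∀ᵐ x : ℝ, x ∈ Set.uIoc s t → ∃ r : ℝ, f x = r * e) (he : e ≠ 0) :
    ∃ r : ℝ, ∫ x in s..t, f x = r * e := by
  have h1 : ∫ x in s..t, f x = ∫ x in s..t, (((f x / e).re : ℝ) : ℂ) * e := by
    apply intervalIntegral.integral_congr_ae
    filter_upwards [h] with x hx hxI
    obtain ⟨r, hr⟩ := hx hxI
    rw [hr, mul_div_assoc, div_self he, mul_one, Complex.ofReal_re]
  refine ⟨∫ x in s..t, (f x / e).re, ?_⟩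
  rw [h1, intervalIntegral.integral_mul_const, intervalIntegral.integral_ofReal]

theorem WFun_Y (ha1 : a < 1) (hb1 : b < 1) : ∃ s0 : ℝ, 0 < s0 ∧
    (∀ t : ℝ, 0 < t → t < 1 → ∃ s : ℝ, JJ (-a) (-b) t = s) ∧
    (∀ t : ℝ, t < 0 → ∃ s : ℝ, JJ (-a) (-b) t = s * Complex.exp (-(π * a) * Complex.I)) ∧
    (∀ t : ℝ, 1 < t → ∃ s : ℝ, JJ (-a) (-b) t = s0 + s * Complex.exp (π * b * Complex.I)) := by
  obtain ⟨hJc, hJ0, hJd, hJi⟩ := JJ_spec (-a) (-b) (by linarith) (by linarith)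
  obtain ⟨s0, hs0, hs0'⟩ := bet_pos (a := 1 - a) (b := 1 - b) (by linarith) (by linarith)
  have hY1 : JJ (-a) (-b) 1 = s0 := by
    rw [← hs0']
    unfold bet
    congr 2 <;> ring
  refine ⟨s0, hs0, ?_, ?_, ?_⟩
  · intro t h0 h1
    have h2 := hJi 0 t
    rw [Complex.ofReal_zero, hJ0, sub_zero] at h2
    obtain ⟨r, hr⟩ := WFun_int (f := fun x => mm (-a) (-b) (x : ℂ)) (e := 1) (s := 0) (t := t) (by
      refine Eventually.of_forall fun x hx => ?_
      rw [Set.uIoc_of_le h0.le] at hx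
      obtain ⟨s, hs⟩ := WFun_ph_mid (-a) (-b) hx.1 (lt_of_le_of_lt hx.2 h1)
      exact ⟨s, by rw [hs, mul_one]⟩) one_ne_zero
    exact ⟨r, by rw [h2, hr, mul_one]⟩
  · intro t h0
    have h2 := hJi 0 t
    rw [Complex.ofReal_zero, hJ0, sub_zero] at h2
    obtain ⟨r, hr⟩ := WFun_int (f := fun x => mm (-a) (-b) (x : ℂ))
      (e := Complex.exp (-(π * a) * Complex.I)) (s := 0) (t := t) (by
      have h3 : ∀ᵐ x : ℝ, x ≠ 0 := by
        simp [ae_iff]
      filter_upwards [h3] with x hx0 hx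
      rw [Set.uIoc_of_ge h0.le] at hx
      exact WFun_ph_neg (-b) (Or.inl rfl) (lt_of_le_of_ne hx.2 hx0)) (Complex.exp_ne_zero _)
    exact ⟨r, by rw [h2, hr]⟩
  · intro t h1
    have h2 := hJi 1 t
    rw [Complex.ofReal_one, hY1] at h2
    obtain ⟨r, hr⟩ := WFun_int (f := fun x => mm (-a) (-b) (x : ℂ))
      (e := Complex.exp (π * b * Complex.I)) (s := 1) (t := t) (by
      refine Eventually.of_forall fun x hx => ?_
      rw [Set.uIoc_of_le h1.le] at hx
      exact WFun_ph_gt (-a) (Or.inl rfl) hx.1) (Complex.exp_ne_zero _)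
    exact ⟨r, by rw [← hr, ← h2]; ring⟩

/-- the normalised constants -/
noncomputable def kc (a b : ℝ) (e1 e2 : ℕ) : ℝ :=
  if e1 = 0 then (if e2 = 0 then -1 else b / (1 - a - b))
  else (if e2 = 0 then a / (1 - a - b) else a * b / ((1 - a - b) * (a + b)))

theorem exists_W_exact (ha : 0 < a) (hb : 0 < b) (hab : a + b < 1 / 2) :
    ∃ s0 : ℝ, 0 < s0 ∧ ∀ e1 e2 : ℕ, e1 ≤ 1 → e2 ≤ 1 →
      kc a b e1 e2 / s0 ≠ 0 ∧ ∃ g : ℂ → ℂ, WSpec a b e1 e2 (kc a b e1 e2 / s0) g := by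
  have ha1 : a < 1 := by linarith
  have hb1 : b < 1 := by linarith
  obtain ⟨s0, hs0, hY3, hY4, hY5⟩ := WFun_Y ha1 hb1
  obtain ⟨hJc, hJ0, hJd, -⟩ := JJ_spec (-a) (-b) (by linarith) (by linarith)
  have hJc' : ContinuousOn (JJ (-a) (-b)) (Hb \ {0, 1}) := hJc.mono Set.sdiff_subset
  have hs0c : (s0 : ℂ) ≠ 0 := by exact_mod_cast hs0.ne'
  have h3 : (0 : ℝ) < 1 - a - b := by linarith
  have h3c : (1 - a - b : ℂ) ≠ 0 := by exact_mod_cast h3.ne'
  have hne : ∀ x : ℂ, 0 < x.im → x ≠ 0 ∧ x ≠ 1 := fun x hx =>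
    ⟨fun h => by rw [h] at hx; simp at hx, fun h => by rw [h] at hx; simp at hx⟩
  have hab0 : (a : ℂ) + b ≠ 0 := by exact_mod_cast (by linarith : (0 : ℝ) < a + b).ne'
  refine ⟨s0, hs0, fun e1 e2 he1 he2 => ?_⟩
  rcases Nat.le_one_iff_eq_zero_or_eq_one.1 he1 with rfl | rfl <;>
    rcases Nat.le_one_iff_eq_zero_or_eq_one.1 he2 with rfl | rfl
  · -- (0,0)
    have hk : kc a b 0 0 / s0 = -s0⁻¹ := by
      simp only [kc]; norm_num; field_simp
    rw [hk]
    refine ⟨neg_ne_zero.2 (inv_ne_zero hs0.ne'), ?_⟩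
    apply WFun_core ha hb hab 0 0 (by norm_num) (by norm_num)
      (fun x => -(s0 : ℂ)⁻¹ * JJ (-a) (-b) x) (-s0⁻¹) (neg_ne_zero.2 (inv_ne_zero hs0.ne'))
    · exact continuousOn_const.mul hJc'
    · intro x hx
      have h4 := (hJd x hx).const_mul (-(s0 : ℂ)⁻¹)
      refine h4.congr_deriv ?_
      rw [show (-a : ℝ) - ((0 : ℕ) : ℝ) = -a by push_cast; ring,
        show (-b : ℝ) - ((0 : ℕ) : ℝ) = -b by push_cast; ring]
      push_cast
      ring
    · intro t h0 h1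
      obtain ⟨s, hs⟩ := hY3 t h0 h1
      exact ⟨-s0⁻¹ * s, by rw [hs]; push_cast; ring⟩
    · intro t h0
      obtain ⟨s, hs⟩ := hY4 t h0
      exact ⟨-s0⁻¹ * s, by rw [hs]; push_cast; ring⟩
    · intro t h1
      obtain ⟨s, hs⟩ := hY5 t h1
      exact ⟨-s0⁻¹ * s, by rw [hs]; push_cast; field_simp; ring⟩
  · -- (0,1)
    have hk : kc a b 0 1 / s0 = b / (s0 * (1 - a - b)) := by
      simp only [kc]; norm_num; field_simp
    rw [hk]
    refine ⟨(by positivity), ?_⟩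
    apply WFun_core ha hb hab 0 1 (by norm_num) (by norm_num)
      (fun x => -(s0 : ℂ)⁻¹ * JJ (-a) (-b) x + (s0 * (1 - a - b) : ℂ)⁻¹ * mm (1 - a) (-b) x)
      (b / (s0 * (1 - a - b))) (by positivity)
    · exact (continuousOn_const.mul hJc').add (continuousOn_const.mul (continuousOn_mm _ _))
    · intro x hx
      obtain ⟨h0, h1⟩ := hne x hx
      have h4 := ((hJd x hx).const_mul (-(s0 : ℂ)⁻¹)).add
        ((hasDerivAt_mm (1 - a) (-b) hx).const_mul ((s0 * (1 - a - b) : ℂ)⁻¹))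
      refine h4.congr_deriv ?_
      have e1 := WFun_mul_x (-a) (-b - 1) h0 h1
      have e2 := WFun_mul_1x (-a) (-b - 1) h0 h1
      rw [show -a + 1 = 1 - a by ring] at e1
      rw [show -b - 1 + 1 = -b by ring] at e2
      rw [show 1 - a - 1 = -a by ring, show (-b : ℝ) - ((1 : ℕ) : ℝ) = -b - 1 by push_cast; ring,
        show (-a : ℝ) - ((0 : ℕ) : ℝ) = -a by push_cast; ring, e1, e2]
      push_cast
      field_simp
      ring
    · intro t h0 h1
      obtain ⟨s, hs⟩ := hY3 t h0 h1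
      obtain ⟨s', hs'⟩ := WFun_ph_mid (1 - a) (-b) h0 h1
      exact ⟨-s0⁻¹ * s + (s0 * (1 - a - b))⁻¹ * s', by rw [hs, hs']; push_cast; ring⟩
    · intro t h0
      obtain ⟨s, hs⟩ := hY4 t h0
      obtain ⟨s', hs'⟩ := WFun_ph_neg (a := a) (A := 1 - a) (-b) (Or.inr rfl) h0
      exact ⟨-s0⁻¹ * s + (s0 * (1 - a - b))⁻¹ * s', by rw [hs, hs']; push_cast; ring⟩
    · intro t h1
      obtain ⟨s, hs⟩ := hY5 t h1
      obtain ⟨s', hs'⟩ := WFun_ph_gt (b := b) (1 - a) (B := -b) (Or.inl rfl) h1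
      exact ⟨-s0⁻¹ * s + (s0 * (1 - a - b))⁻¹ * s', by
        rw [hs, hs']; push_cast; field_simp; ring⟩
  · -- (1,0)
    have hk : kc a b 1 0 / s0 = a / (s0 * (1 - a - b)) := by
      simp only [kc]; norm_num; field_simp
    rw [hk]
    refine ⟨(by positivity), ?_⟩
    apply WFun_core ha hb hab 1 0 (by norm_num) (by norm_num)
      (fun x => -(s0 : ℂ)⁻¹ * JJ (-a) (-b) x + -(s0 * (1 - a - b) : ℂ)⁻¹ * mm (-a) (1 - b) x)
      (a / (s0 * (1 - a - b))) (by positivity)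
    · exact (continuousOn_const.mul hJc').add (continuousOn_const.mul (continuousOn_mm _ _))
    · intro x hx
      obtain ⟨h0, h1⟩ := hne x hx
      have h4 := ((hJd x hx).const_mul (-(s0 : ℂ)⁻¹)).add
        ((hasDerivAt_mm (-a) (1 - b) hx).const_mul (-(s0 * (1 - a - b) : ℂ)⁻¹))
      refine h4.congr_deriv ?_
      have e1 := WFun_mul_x (-a - 1) (-b) h0 h1
      have e2 := WFun_mul_1x (-a - 1) (-b) h0 h1
      rw [show -a - 1 + 1 = -a by ring] at e1
      rw [show -b + 1 = 1 - b by ring] at e2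
      rw [show 1 - b - 1 = -b by ring, show (-a : ℝ) - ((1 : ℕ) : ℝ) = -a - 1 by push_cast; ring,
        show (-b : ℝ) - ((0 : ℕ) : ℝ) = -b by push_cast; ring, e1, e2]
      push_cast
      field_simp
      ring
    · intro t h0 h1
      obtain ⟨s, hs⟩ := hY3 t h0 h1
      obtain ⟨s', hs'⟩ := WFun_ph_mid (-a) (1 - b) h0 h1
      exact ⟨-s0⁻¹ * s + -(s0 * (1 - a - b))⁻¹ * s', by rw [hs, hs']; push_cast; ring⟩
    · intro t h0
      obtain ⟨s, hs⟩ := hY4 t h0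
      obtain ⟨s', hs'⟩ := WFun_ph_neg (a := a) (A := -a) (1 - b) (Or.inl rfl) h0
      exact ⟨-s0⁻¹ * s + -(s0 * (1 - a - b))⁻¹ * s', by rw [hs, hs']; push_cast; ring⟩
    · intro t h1
      obtain ⟨s, hs⟩ := hY5 t h1
      obtain ⟨s', hs'⟩ := WFun_ph_gt (b := b) (-a) (B := 1 - b) (Or.inr rfl) h1
      exact ⟨-s0⁻¹ * s + -(s0 * (1 - a - b))⁻¹ * s', by
        rw [hs, hs']; push_cast; field_simp; ring⟩
  · -- (1,1)
    have hk : kc a b 1 1 / s0 = a * b / (s0 * (1 - a - b) * (a + b)) := by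
      simp only [kc]; norm_num; field_simp
    rw [hk]
    refine ⟨(by positivity), ?_⟩
    apply WFun_core ha hb hab 1 1 (by norm_num) (by norm_num)
      (fun x => -(s0 : ℂ)⁻¹ * JJ (-a) (-b) x + mm (-a) (-b) x *
        (-(b / (s0 * (1 - a - b) * (a + b)) : ℂ) + (s0 * (1 - a - b) : ℂ)⁻¹ * x))
      (a * b / (s0 * (1 - a - b) * (a + b))) (by positivity)
    · exact (continuousOn_const.mul hJc').add ((continuousOn_mm _ _).mul (by fun_prop))
    · intro x hx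
      obtain ⟨h0, h1⟩ := hne x hx
      have h4 := ((hJd x hx).const_mul (-(s0 : ℂ)⁻¹)).add
        ((hasDerivAt_mm (-a) (-b) hx).mul
          ((((hasDerivAt_id x).const_mul ((s0 * (1 - a - b) : ℂ)⁻¹))).const_add
            (-(b / (s0 * (1 - a - b) * (a + b)) : ℂ))))
      refine h4.congr_deriv ?_
      have e1 := WFun_mul_x (-a - 1) (-b) h0 h1
      have e2 := WFun_mul_1x (-a) (-b - 1) h0 h1
      have e3 := WFun_mul_1x (-a - 1) (-b - 1) h0 h1
      have e4 := WFun_mul_x (-a - 1) (-b - 1) h0 h1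
      rw [show -a - 1 + 1 = -a by ring] at e1 e4
      rw [show -b - 1 + 1 = -b by ring] at e2 e3
      rw [show (-a : ℝ) - ((1 : ℕ) : ℝ) = -a - 1 by push_cast; ring,
        show (-b : ℝ) - ((1 : ℕ) : ℝ) = -b - 1 by push_cast; ring, e2, e3, e4]
      push_cast
      simp only [id]
      field_simp
      ring
    · intro t h0 h1
      obtain ⟨s, hs⟩ := hY3 t h0 h1
      obtain ⟨s', hs'⟩ := WFun_ph_mid (-a) (-b) h0 h1
      exact ⟨-s0⁻¹ * s + s' * (-(b / (s0 * (1 - a - b) * (a + b))) + (s0 * (1 - a - b))⁻¹ * t),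
        by rw [hs, hs']; push_cast; ring⟩
    · intro t h0
      obtain ⟨s, hs⟩ := hY4 t h0
      obtain ⟨s', hs'⟩ := WFun_ph_neg (a := a) (A := -a) (-b) (Or.inl rfl) h0
      exact ⟨-s0⁻¹ * s + s' * (-(b / (s0 * (1 - a - b) * (a + b))) + (s0 * (1 - a - b))⁻¹ * t),
        by rw [hs, hs']; push_cast; ring⟩
    · intro t h1
      obtain ⟨s, hs⟩ := hY5 t h1
      obtain ⟨s', hs'⟩ := WFun_ph_gt (b := b) (-a) (B := -b) (Or.inl rfl) h1
      exact ⟨-s0⁻¹ * s + s' * (-(b / (s0 * (1 - a - b) * (a + b))) + (s0 * (1 - a - b))⁻¹ * t),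
        by rw [hs, hs']; push_cast; field_simp; ring⟩

end Pool.Agent.OBT
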