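import Mathlib
import Pool.Agent.OBT.HFun
import Pool.Agent.OBT.WFun
import Pool.Agent.OBT.Form1
import Pool.Agent.OBT.NiceT

/-!
# The potentials `Φ m r = ∂^r (F W^m / m!)`
-/

open scoped ComplexConjugate Topology Real
open MeasureTheory Filter

namespace Pool.Agent.OBT

noncomputable section

/-- the properties of the function `g` of `exists_W` -/
structure WData (a b : ℝ) (e1 e2 : ℕ) (κ : ℝ) (g : ℂ → ℂ) : Prop where
  ne : κ ≠ 0
  cont : ContinuousOn g (body (tri a b) \ VV a b)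
  deriv : ∀ y ∈ body (tri a b) \ VV a b,
    HasFDerivWithinAt g (DD (G1 a b e1 e2 κ y) 0) (body (tri a b)) y
  phase : ∀ k, ∀ y ∈ edge (tri a b) k \ VV a b,
    conj y + g y = (chi (tri a b) k)⁻¹ * conj (conj y + g y)
  lead : ∀ k, Lead a b k (omw a b e1 e2 k) (gam a b e1 e2 κ k) (fun y => g y + conj (tri a b k))
  err : 0 < e1 + e2 → (fun y => g y + conj (tau a b) -
    κ * Complex.exp (π * (b + e2) * Complex.I) / (1 - a - b - e1 - e2) *
      MM a b (1 - a - b - e1 - e2) 0 y) =O[𝓝[body (tri a b) \ VV a b] (tau a b)]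
    (fun y => ‖y - tau a b‖ ^ ((e1 + e2 - (1 - a - b) + 1) / (1 - a - b)))

theorem Phi_fin3 (k : Fin 3) : k = 0 ∨ k = 1 ∨ k = 2 := by
  fin_cases k <;> simp

theorem Phi_conj_exp (t : ℝ) :
    conj (Complex.exp (t * Complex.I)) = Complex.exp (-(t * Complex.I)) := by
  rw [← Complex.exp_conj, map_mul, Complex.conj_I, Complex.conj_ofReal, mul_neg]

theorem WData_of_spec {a b : ℝ} (ha : 0 < a) (hb : 0 < b) (hab : a + b < 1 / 2) {e1 e2 : ℕ}
    {κ : ℝ} {g : ℂ → ℂ} (hκ : κ ≠ 0) (hs : WSpec a b e1 e2 κ g) : WData a b e1 e2 κ g := by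
  have hab1 : a + b < 1 := by linarith
  obtain ⟨hc, hd, hp2, hp1, hp0, hl0, hl1, hl2, -, -, -, herr⟩ := hs
  refine ⟨hκ, hc, hd, ?_, ?_, herr⟩
  · intro k y hy
    obtain rfl | rfl | rfl := Phi_fin3 k
    · obtain ⟨s, hs⟩ := hp0 y hy
      rw [hs, chi_tri_zero ha hb hab1, map_mul, Complex.conj_ofReal]
      have h1 : (Complex.exp (π * b * Complex.I)) = Complex.exp (((π * b : ℝ) : ℂ) * Complex.I) := by
        push_cast; rfl
      rw [h1, Phi_conj_exp, ← Complex.exp_neg, mul_left_comm, ← Complex.exp_add]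
      congr 2
      push_cast; ring
    · obtain ⟨s, hs⟩ := hp1 y hy
      rw [hs, chi_tri_one ha hb hab1, map_mul, Complex.conj_ofReal]
      have h1 : (Complex.exp (-(π * a) * Complex.I)) =
          Complex.exp (((-(π * a) : ℝ) : ℂ) * Complex.I) := by
        push_cast; rfl
      rw [h1, Phi_conj_exp, ← Complex.exp_neg, mul_left_comm, ← Complex.exp_add]
      congr 2
      push_cast; ring
    · obtain ⟨s, hs⟩ := hp2 y hy
      rw [hs, chi_tri_two ha hb hab1, Complex.conj_ofReal]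
      simp
  · intro k
    obtain rfl | rfl | rfl := Phi_fin3 k
    · obtain ⟨ε, hε, h⟩ := hl0
      refine ⟨ε, hε, ?_⟩
      have e1' : (tri a b 0 : ℂ) = 0 := rfl
      have e2' : omw a b e1 e2 0 = 1 - a - e1 := rfl
      have e3' : gam a b e1 e2 κ 0 = (κ / (1 - a - e1) : ℂ) := rfl
      have e4' : alv a b 0 = a := rfl
      have e5' : ∀ θ, tt a b 0 θ = MM a b θ 0 := fun θ => rfl
      rw [e1', e2', e3', e4', e5']
      simpa using h
    · obtain ⟨ε, hε, h⟩ := hl1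
      refine ⟨ε, hε, ?_⟩
      have e1' : (tri a b 1 : ℂ) = 1 := rfl
      have e2' : omw a b e1 e2 1 = 1 - b - e2 := rfl
      have e3' : gam a b e1 e2 κ 1 = (-κ / (1 - b - e2) : ℂ) := rfl
      have e4' : alv a b 1 = b := rfl
      have e5' : ∀ θ, tt a b 1 θ = MM a b 0 θ := fun θ => rfl
      rw [e1', e2', e3', e4', e5', map_one]
      refine h.congr_left fun y => ?_
      ring
    · obtain ⟨ε, hε, h⟩ := hl2
      refine ⟨ε, hε, ?_⟩
      have e1' : (tri a b 2 : ℂ) = tau a b := rfl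
      have e2' : omw a b e1 e2 2 = e1 + e2 - (1 - a - b) := rfl
      have e3' : gam a b e1 e2 κ 2 =
        κ * Complex.exp (π * (b + e2) * Complex.I) / (1 - a - b - e1 - e2) := rfl
      have e4' : alv a b 2 = 1 - a - b := rfl
      have e5' : ∀ θ, tt a b 2 θ = MM a b (-θ) 0 := fun θ => rfl
      have e6' : -((e1 : ℝ) + e2 - (1 - a - b)) = 1 - a - b - e1 - e2 := by ring
      rw [e1', e2', e3', e4', e5', e6']
      exact h

theorem exists_WData_exact {a b : ℝ} (ha : 0 < a) (hb : 0 < b) (hab : a + b < 1 / 2) :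
    ∃ s0 : ℝ, 0 < s0 ∧ ∀ e1 e2 : ℕ, e1 ≤ 1 → e2 ≤ 1 →
      ∃ g : ℂ → ℂ, WData a b e1 e2 (kc a b e1 e2 / s0) g := by
  obtain ⟨s0, hs0, h⟩ := exists_W_exact ha hb hab
  refine ⟨s0, hs0, fun e1 e2 he1 he2 => ?_⟩
  obtain ⟨hk, g, hg⟩ := h e1 e2 he1 he2
  exact ⟨g, WData_of_spec ha hb hab hk hg⟩

theorem exists_WData {a b : ℝ} (ha : 0 < a) (hb : 0 < b) (hab : a + b < 1 / 2) (e1 e2 : ℕ)
    (he1 : e1 ≤ 1) (he2 : e2 ≤ 1) : ∃ κ g, WData a b e1 e2 κ g := by
  obtain ⟨s0, _, h⟩ := exists_WData_exact ha hb hab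
  obtain ⟨g, hg⟩ := h e1 e2 he1 he2
  exact ⟨_, g, hg⟩


/-- `Φ m r = ∑_l W^(m-l)/(m-l)! H r l`, `W = ȳ + g` -/
def Phi (g : ℂ → ℂ) (H : ℕ → ℕ → ℂ → ℂ) (m r : ℕ) (y : ℂ) : ℂ :=
  ∑ l ∈ Finset.range (m + 1), (conj y + g y) ^ (m - l) / (m - l).factorial * H r l y

variable {a b : ℝ} {e1 e2 : ℕ} {κ A0 B0 : ℝ} {g : ℂ → ℂ} {H : ℕ → ℕ → ℂ → ℂ}
  {h : Fin 3 → ℕ → ℕ → ℂ}

theorem Phi_zero (hH : HData a b e1 e2 κ A0 B0 H h) (y : ℂ) : Phi g H 0 0 y = MM a b A0 B0 y := by
  simp [Phi, hH.zero]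

theorem continuousOn_Phi (hH : HData a b e1 e2 κ A0 B0 H h) (hW : WData a b e1 e2 κ g)
    (m r : ℕ) : ContinuousOn (Phi g H m r) (body (tri a b) \ VV a b) := by
  unfold Phi
  refine continuousOn_finsetSum _ fun l _ => ?_
  refine ContinuousOn.mul (ContinuousOn.div_const (ContinuousOn.pow ?_ _) _) (hH.cont r l)
  exact Complex.continuous_conj.continuousOn.add hW.cont

theorem Phi_mul_deriv {u w : ℂ → ℂ} {p q p' q' : ℂ} {s : Set ℂ} {y : ℂ}
    (hu : HasFDerivWithinAt u (DD p q) s y) (hw : HasFDerivWithinAt w (DD p' q') s y) :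
    HasFDerivWithinAt (fun z => u z * w z)
      (DD (p * w y + u y * p') (q * w y + u y * q')) s y := by
  refine (hu.mul hw).congr_fderiv ?_
  ext1 z
  simp only [ContinuousLinearMap.add_apply, ContinuousLinearMap.smul_apply, DD_apply, smul_eq_mul]
  ring

theorem Phi_pow_deriv {W : ℂ → ℂ} {p q : ℂ} {s : Set ℂ} {y : ℂ}
    (hW : HasFDerivWithinAt W (DD p q) s y) (n : ℕ) :
    HasFDerivWithinAt (fun z => W z ^ (n + 1) / (n + 1).factorial)
      (DD (W y ^ n / n.factorial * p) (W y ^ n / n.factorial * q)) s y := by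
  induction n with
  | zero =>
    simpa using hW
  | succ n ih =>
    have hn : ((n : ℂ) + 1) ≠ 0 := by exact_mod_cast Nat.succ_ne_zero n
    have hn2 : ((n : ℂ) + 1 + 1) ≠ 0 := by exact_mod_cast Nat.succ_ne_zero (n + 1)
    have hf : ((n.factorial : ℕ) : ℂ) ≠ 0 := by exact_mod_cast Nat.factorial_ne_zero n
    have h1 := (Phi_mul_deriv ih hW)
    have h2 : HasFDerivWithinAt (fun _ : ℂ => (1 / ((n : ℂ) + 1 + 1))) (DD 0 0) s y := by
      refine (hasFDerivWithinAt_const _ _ _).congr_fderiv ?_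
      ext1 z
      simp
    have h3 := Phi_mul_deriv h1 h2
    refine HasFDerivWithinAt.congr_fderiv (h3.congr_of_eventuallyEq ?_ ?_) ?_
    · refine Eventually.of_forall fun z => ?_
      simp only
      rw [Nat.factorial_succ (n + 1), pow_succ (W z) (n + 1)]
      push_cast
      rw [Nat.factorial_succ n]
      push_cast
      field_simp
    · rw [Nat.factorial_succ (n + 1), pow_succ (W y) (n + 1)]
      push_cast
      rw [Nat.factorial_succ n]
      push_cast
      field_simp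
    · rw [Nat.factorial_succ n]
      push_cast
      congr 1
      · field_simp
        ring
      · field_simp
        ring

theorem Phi_W_deriv (hW : WData a b e1 e2 κ g) {y : ℂ} (hy : y ∈ body (tri a b) \ VV a b) :
    HasFDerivWithinAt (fun z => conj z + g z) (DD (G1 a b e1 e2 κ y) 1) (body (tri a b)) y := by
  have h1 : HasFDerivWithinAt (fun z : ℂ => conj z) (DD 0 1) (body (tri a b)) y := by
    have h2 := (Complex.conjCLE : ℂ ≃L[ℝ] ℂ).hasFDerivAt.hasFDerivWithinAt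
      (s := body (tri a b)) (x := y)
    refine HasFDerivWithinAt.congr_fderiv h2 ?_
    ext1 z
    simp
  refine (h1.add (hW.deriv y hy)).congr_fderiv ?_
  ext1 z
  simp only [ContinuousLinearMap.add_apply, DD_apply]
  ring

theorem hasFDerivWithinAt_Phi_zero (hH : HData a b e1 e2 κ A0 B0 H h)
    (hW : WData a b e1 e2 κ g) (r : ℕ) {y : ℂ} (hy : y ∈ body (tri a b) \ VV a b) :
    HasFDerivWithinAt (Phi g H 0 r) (DD (Phi g H 0 (r + 1) y) 0) (body (tri a b)) y := by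
  have h1 : ∀ r, Phi g H 0 r = H r 0 := by
    intro r
    funext z
    simp [Phi]
  rw [h1, h1]
  exact hH.deriv0 r y hy

/-- the derivative of `H r l` -/
def Phi_dH (a b : ℝ) (e1 e2 : ℕ) (κ : ℝ) (H : ℕ → ℕ → ℂ → ℂ) (r : ℕ) : ℕ → ℂ → ℂ
  | 0, y => H (r + 1) 0 y
  | l + 1, y => H (r + 1) (l + 1) y - G1 a b e1 e2 κ y * H r l y

theorem Phi_dH_deriv (hH : HData a b e1 e2 κ A0 B0 H h) (r l : ℕ) {y : ℂ}
    (hy : y ∈ body (tri a b) \ VV a b) :
    HasFDerivWithinAt (H r l) (DD (Phi_dH a b e1 e2 κ H r l y) 0) (body (tri a b)) y := by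
  cases l with
  | zero => exact hH.deriv0 r y hy
  | succ l => exact hH.deriv1 r l y hy

theorem Phi_DD_sum {ι : Type*} (s : Finset ι) (p q : ι → ℂ) :
    ∑ i ∈ s, DD (p i) (q i) = DD (∑ i ∈ s, p i) (∑ i ∈ s, q i) := by
  ext1 z
  simp only [ContinuousLinearMap.sum_apply, DD_apply, Finset.sum_add_distrib, Finset.sum_mul]

theorem hasFDerivWithinAt_Phi_succ (hH : HData a b e1 e2 κ A0 B0 H h)
    (hW : WData a b e1 e2 κ g) (m r : ℕ) {y : ℂ} (hy : y ∈ body (tri a b) \ VV a b) :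
    HasFDerivWithinAt (Phi g H (m + 1) r) (DD (Phi g H (m + 1) (r + 1) y) (Phi g H m r y))
      (body (tri a b)) y := by
  have hWd := Phi_W_deriv hW hy
  have e : Phi g H (m + 1) r = fun z => (∑ l ∈ Finset.range (m + 1),
      (conj z + g z) ^ (m - l + 1) / (m - l + 1).factorial * H r l z) + H r (m + 1) z := by
    funext z
    rw [Phi, Finset.sum_range_succ]
    congr 1
    · refine Finset.sum_congr rfl fun l hl => ?_
      have : m + 1 - l = m - l + 1 := by
        have := Finset.mem_range.1 hl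
        omega
      rw [this]
    · simp
  have h1 : ∀ l ∈ Finset.range (m + 1), HasFDerivWithinAt
      (fun z => (conj z + g z) ^ (m - l + 1) / (m - l + 1).factorial * H r l z)
      (DD ((conj y + g y) ^ (m - l) / (m - l).factorial * G1 a b e1 e2 κ y * H r l y +
          (conj y + g y) ^ (m - l + 1) / (m - l + 1).factorial * Phi_dH a b e1 e2 κ H r l y)
        ((conj y + g y) ^ (m - l) / (m - l).factorial * H r l y)) (body (tri a b)) y := by
    intro l _
    have h2 := Phi_mul_deriv (Phi_pow_deriv hWd (m - l)) (Phi_dH_deriv hH r l hy)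
    refine h2.congr_fderiv ?_
    congr 1
    ring
  have h3 := (HasFDerivWithinAt.fun_sum h1).add (Phi_dH_deriv hH r (m + 1) hy)
  rw [e]
  refine h3.congr_fderiv ?_
  rw [Phi_DD_sum]
  have h4 : ∀ l : ℕ, l ∈ Finset.range (m + 1) → m + 1 - (l + 1) = m - l := by
    intro l _
    omega
  have hA : Phi g H (m + 1) (r + 1) y =
      (∑ l ∈ Finset.range (m + 1),
        ((conj y + g y) ^ (m - l) / (m - l).factorial * G1 a b e1 e2 κ y * H r l y +
          (conj y + g y) ^ (m - l + 1) / (m - l + 1).factorial * Phi_dH a b e1 e2 κ H r l y)) +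
      Phi_dH a b e1 e2 κ H r (m + 1) y := by
    have h5 : (∑ l ∈ Finset.range (m + 1),
          (conj y + g y) ^ (m - l + 1) / (m - l + 1).factorial * Phi_dH a b e1 e2 κ H r l y) +
        Phi_dH a b e1 e2 κ H r (m + 1) y = ∑ l ∈ Finset.range (m + 1 + 1),
          (conj y + g y) ^ (m + 1 - l) / (m + 1 - l).factorial *
            Phi_dH a b e1 e2 κ H r l y := by
      rw [Finset.sum_range_succ _ (m + 1)]
      congr 1
      · refine Finset.sum_congr rfl fun l hl => ?_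
        have : m + 1 - l = m - l + 1 := by
          have := Finset.mem_range.1 hl
          omega
        rw [this]
      · simp
    rw [Finset.sum_add_distrib, add_assoc, h5, Phi, Finset.sum_range_succ' _ (m + 1),
      Finset.sum_range_succ' _ (m + 1), ← add_assoc, ← Finset.sum_add_distrib]
    congr 1
    refine Finset.sum_congr rfl fun l hl => ?_
    rw [h4 l hl]
    simp only [Phi_dH]
    ring
  rw [hA]
  ext1 z
  simp only [ContinuousLinearMap.add_apply, DD_apply, Phi]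
  ring

theorem Phi_MM_pow (ha : 0 < a) (hb : 0 < b) (hab : a + b < 1) (A B : ℝ) {y : ℂ}
    (hy : y ∈ body (tri a b) \ VV a b) (l : ℕ) :
    MM a b A B y ^ l = MM a b (l * A) (l * B) y := by
  induction l with
  | zero => simp [MM_zero_zero]
  | succ l ih =>
    rw [pow_succ, ih, MM_mul ha hb hab _ _ _ _ hy]
    congr 1 <;> push_cast <;> ring

theorem Phi_exp_int (z : ℤ) : Complex.exp (2 * π * z * Complex.I) = 1 := by
  rw [Complex.exp_eq_one_iff]
  exact ⟨z, by ring⟩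

theorem Phi_MM_phase (ha : 0 < a) (hb : 0 < b) (hab : a + b < 1) (z1 z2 : ℤ) (k : Fin 3) {y : ℂ}
    (hy : y ∈ edge (tri a b) k \ VV a b) :
    MM a b (z1 - a) (z2 - b) y =
      chi (tri a b) k ^ (-1 : ℤ) * conj (MM a b (z1 - a) (z2 - b) y) := by
  obtain rfl | rfl | rfl := Phi_fin3 k
  · obtain ⟨s, -, hs⟩ := MM_edge0 ha hb hab (z1 - a) (z2 - b) hy
    rw [hs, chi_tri_zero ha hb hab, map_mul, Complex.conj_ofReal, zpow_neg_one]
    have h1 : (Complex.exp (-(π * ((z2 - b : ℝ) : ℂ)) * Complex.I)) =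
        Complex.exp (((-(π * (z2 - b)) : ℝ) : ℂ) * Complex.I) := by
      push_cast; rfl
    rw [h1, Phi_conj_exp, ← Complex.exp_neg, mul_left_comm, ← Complex.exp_add,
      ← mul_one (Complex.exp (_ * Complex.I)), ← Phi_exp_int z2, ← Complex.exp_add]
    congr 2
    push_cast; ring
  · obtain ⟨s, -, hs⟩ := MM_edge1 ha hb hab (z1 - a) (z2 - b) hy
    rw [hs, chi_tri_one ha hb hab, map_mul, Complex.conj_ofReal, zpow_neg_one]
    have h1 : (Complex.exp (π * ((z1 - a : ℝ) : ℂ) * Complex.I)) =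
        Complex.exp (((π * (z1 - a) : ℝ) : ℂ) * Complex.I) := by
      push_cast; rfl
    rw [h1, Phi_conj_exp, ← Complex.exp_neg, mul_left_comm, ← Complex.exp_add,
      ← mul_one (Complex.exp (_ * Complex.I)), ← Phi_exp_int (-z1), ← Complex.exp_add]
    congr 2
    push_cast; ring
  · obtain ⟨s, -, hs⟩ := MM_edge2 ha hb hab (z1 - a) (z2 - b) hy
    rw [hs, chi_tri_two ha hb hab, Complex.conj_ofReal]
    simp

theorem Phi_chi_ne (k : Fin 3) : chi (tri a b) k ≠ 0 := by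
  unfold chi
  intro h
  have h1 : ‖refl (tri a b) k 1‖ = ‖(1 : ℂ)‖ := LinearIsometryEquiv.norm_map _ _
  rw [h] at h1
  simp at h1

theorem Phi_pow_phase {c f : ℂ} {w : ℤ} (hf : f = c ^ w * conj f) (l : ℕ) :
    f ^ l = c ^ (w * l) * conj (f ^ l) := by
  rw [zpow_mul, zpow_natCast, map_pow, ← mul_pow, ← hf]

theorem Phi_H_phase (ha : 0 < a) (hb : 0 < b) (hab : a + b < 1)
    (hH : HData a b e1 e2 κ A0 B0 H h) (n : ℤ) (k : Fin 3) {y : ℂ}
    (hy : y ∈ edge (tri a b) k \ VV a b)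
    (hn : MM a b A0 B0 y = chi (tri a b) k ^ n * conj (MM a b A0 B0 y)) (r l : ℕ) :
    H r l y = chi (tri a b) k ^ (n - r - l) * conj (H r l y) := by
  have hy' : y ∈ body (tri a b) \ VV a b := ⟨edge_subset_body k hy.1, hy.2⟩
  have hχ := Phi_chi_ne (a := a) (b := b) k
  obtain ⟨s, hs⟩ := hH.phase r l k y hy
  have h1 : MM a b (A0 + l * (1 - a - e1) - r * a) (B0 + l * (1 - b - e2) - r * b) y =
      MM a b A0 B0 y * MM a b (((1 - e1 : ℤ) : ℝ) - a) (((1 - e2 : ℤ) : ℝ) - b) y ^ l *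
        MM a b (((0 : ℤ) : ℝ) - a) (((0 : ℤ) : ℝ) - b) y ^ r := by
    rw [Phi_MM_pow ha hb hab _ _ hy', Phi_MM_pow ha hb hab _ _ hy', MM_mul ha hb hab _ _ _ _ hy',
      MM_mul ha hb hab _ _ _ _ hy']
    congr 1 <;> push_cast <;> ring
  rw [hs, h1]
  have p1 := Phi_pow_phase (Phi_MM_phase ha hb hab (1 - e1 : ℤ) (1 - e2 : ℤ) k hy) l
  have p2 := Phi_pow_phase (Phi_MM_phase ha hb hab 0 0 k hy) r
  have e : chi (tri a b) k ^ (n - r - l) = chi (tri a b) k ^ n * chi (tri a b) k ^ (-1 * (l : ℤ)) *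
      chi (tri a b) k ^ (-1 * (r : ℤ)) := by
    rw [← zpow_add₀ hχ, ← zpow_add₀ hχ]
    congr 1
    ring
  rw [e, map_mul, map_mul, map_mul, Complex.conj_ofReal]
  calc (s : ℂ) * (MM a b A0 B0 y *
        MM a b (((1 - e1 : ℤ) : ℝ) - a) (((1 - e2 : ℤ) : ℝ) - b) y ^ l *
        MM a b (((0 : ℤ) : ℝ) - a) (((0 : ℤ) : ℝ) - b) y ^ r) = (s : ℂ) *
        ((chi (tri a b) k ^ n * conj (MM a b A0 B0 y)) *
        (chi (tri a b) k ^ (-1 * (l : ℤ)) *
          conj (MM a b (((1 - e1 : ℤ) : ℝ) - a) (((1 - e2 : ℤ) : ℝ) - b) y ^ l)) *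
        (chi (tri a b) k ^ (-1 * (r : ℤ)) *
          conj (MM a b (((0 : ℤ) : ℝ) - a) (((0 : ℤ) : ℝ) - b) y ^ r))) := by
        rw [← hn, ← p1, ← p2]
    _ = _ := by ring

/-- phases: weight `n - r - m` if `F` has weight `n` -/
theorem phase_Phi (ha : 0 < a) (hb : 0 < b) (hab : a + b < 1 / 2)
    (hH : HData a b e1 e2 κ A0 B0 H h) (hW : WData a b e1 e2 κ g) (n : ℤ)
    (hn : ∀ k, ∀ y ∈ edge (tri a b) k \ VV a b,
      MM a b A0 B0 y = chi (tri a b) k ^ n * conj (MM a b A0 B0 y)) (m r : ℕ) (k : Fin 3) {y : ℂ}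
    (hy : y ∈ edge (tri a b) k \ VV a b) :
    Phi g H m r y = chi (tri a b) k ^ (n - r - m) * conj (Phi g H m r y) := by
  have hab1 : a + b < 1 := by linarith
  have hχ := Phi_chi_ne (a := a) (b := b) k
  have hw : conj y + g y = chi (tri a b) k ^ (-1 : ℤ) * conj (conj y + g y) := by
    rw [zpow_neg_one]
    exact hW.phase k y hy
  unfold Phi
  rw [map_sum, Finset.mul_sum]
  refine Finset.sum_congr rfl fun l hl => ?_
  have hl' : l ≤ m := Nat.lt_succ_iff.1 (Finset.mem_range.1 hl)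
  have p1 := Phi_pow_phase hw (m - l)
  have p2 := Phi_H_phase ha hb hab1 hH n k hy (hn k y hy) r l
  have e : chi (tri a b) k ^ (n - r - m) = chi (tri a b) k ^ (-1 * ((m - l : ℕ) : ℤ)) *
      chi (tri a b) k ^ (n - r - l) := by
    rw [← zpow_add₀ hχ]
    congr 1
    push_cast [hl']
    ring
  rw [e, map_mul, map_div₀, Complex.conj_natCast]
  calc (conj y + g y) ^ (m - l) / ((m - l).factorial : ℂ) * H r l y =
        (chi (tri a b) k ^ (-1 * ((m - l : ℕ) : ℤ)) * conj ((conj y + g y) ^ (m - l))) /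
          ((m - l).factorial : ℂ) * (chi (tri a b) k ^ (n - r - l) * conj (H r l y)) := by
        rw [← p1, ← p2]
    _ = _ := by ring

end

end Pool.Agent.OBT
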