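import Mathlib
import Pool.Agent.OBT.Phi

/-!
# Leading terms of the potentials
-/

open scoped ComplexConjugate Topology Real
open MeasureTheory Filter

namespace Pool.Agent.OBT

variable {a b : ℝ} {e1 e2 : ℕ} {κ A0 B0 : ℝ} {g : ℂ → ℂ} {H : ℕ → ℕ → ℂ → ℂ}
  {h : Fin 3 → ℕ → ℕ → ℂ}

theorem PhiLead_pos (k : Fin 3) :
    ∀ᶠ y in 𝓝[body (tri a b) \ VV a b] (tri a b k), 0 < ‖y - tri a b k‖ := by
  filter_upwards [self_mem_nhdsWithin] with y hy
  rw [norm_pos_iff, sub_ne_zero]
  rintro rfl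
  exact hy.2 ⟨k, rfl⟩

theorem PhiLead_le_one (k : Fin 3) :
    ∀ᶠ y in 𝓝[body (tri a b) \ VV a b] (tri a b k), ‖y - tri a b k‖ ≤ 1 := by
  have h : Metric.ball (tri a b k) 1 ∈ 𝓝[body (tri a b) \ VV a b] (tri a b k) :=
    nhdsWithin_le_nhds (Metric.ball_mem_nhds _ one_pos)
  filter_upwards [h] with y hy
  rw [Metric.mem_ball, dist_eq_norm] at hy
  exact hy.le

theorem PhiLead_mono (k : Fin 3) {p q : ℝ} (hpq : p ≤ q) :
    (fun y : ℂ => ‖y - tri a b k‖ ^ q) =O[𝓝[body (tri a b) \ VV a b] (tri a b k)]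
      (fun y => ‖y - tri a b k‖ ^ p) := by
  refine Asymptotics.IsBigO.of_bound 1 ?_
  filter_upwards [PhiLead_pos (a := a) (b := b) k, PhiLead_le_one (a := a) (b := b) k] with y h1 h2
  rw [one_mul, Real.norm_of_nonneg (Real.rpow_nonneg h1.le _),
    Real.norm_of_nonneg (Real.rpow_nonneg h1.le _)]
  exact Real.rpow_le_rpow_of_exponent_ge h1 h2 hpq

theorem PhiLead_conj (k : Fin 3) :
    (fun y : ℂ => conj (y - tri a b k)) =O[𝓝[body (tri a b) \ VV a b] (tri a b k)]
      (fun y => ‖y - tri a b k‖ ^ (1 : ℝ)) := by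
  refine Asymptotics.IsBigO.of_bound 1 (Eventually.of_forall fun y => ?_)
  rw [one_mul, Real.rpow_one, norm_norm, RCLike.norm_conj]

theorem PhiLead_W_eq (g : ℂ → ℂ) (v y : ℂ) :
    conj (y - v) + (g y + conj v) = conj y + g y := by
  rw [map_sub]
  ring

theorem PhiLead_W (ha : 0 < a) (hb : 0 < b) (hab : a + b < 1) (hW : WData a b e1 e2 κ g)
    (k : Fin 3) (hk : omw a b e1 e2 k < alv a b k) :
    Lead a b k (omw a b e1 e2 k) (gam a b e1 e2 κ k) (fun y => conj y + g y) := by
  have hal := alv_pos ha hb hab k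
  have h1 : Lead a b k (omw a b e1 e2 k) 0 (fun y => conj (y - tri a b k)) := by
    refine lead_of_bigO ha hb hab hk ?_
    rw [div_self hal.ne']
    exact PhiLead_conj k
  have h2 := Lead.add ha hb hab h1 (hW.lead k)
  rw [zero_add] at h2
  exact Lead.congr h2 fun y _ => PhiLead_W_eq g _ y

theorem PhiLead_sum (ha : 0 < a) (hb : 0 < b) (hab : a + b < 1) {k : Fin 3} {θ : ℝ}
    (s : Finset ℕ) (c : ℕ → ℂ) (f : ℕ → ℂ → ℂ) (hl : ∀ l ∈ s, Lead a b k θ (c l) (f l)) :
    Lead a b k θ (∑ l ∈ s, c l) (fun y => ∑ l ∈ s, f l y) := by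
  induction s using Finset.induction_on with
  | empty => simpa using lead_zero ha hb hab k θ
  | insert x s hx ih =>
    rw [Finset.sum_insert hx]
    refine Lead.congr (Lead.add ha hb hab (hl x (Finset.mem_insert_self _ _))
      (ih fun l h => hl l (Finset.mem_insert_of_mem h))) fun y _ => ?_
    rw [Finset.sum_insert hx]

/-- the recursion of the leading coefficients -/
theorem PhiLead_rec (hH : HData a b e1 e2 κ A0 B0 H h) (k : Fin 3) (m r : ℕ) :
    ∑ l ∈ Finset.range (m + 1), gam a b e1 e2 κ k ^ (m - l) / (m - l).factorial * h k (r + 1) l =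
      bb a b k * (om A0 B0 k + m * omw a b e1 e2 k - r * alv a b k : ℝ) *
        ∑ l ∈ Finset.range (m + 1), gam a b e1 e2 κ k ^ (m - l) / (m - l).factorial * h k r l := by
  have key : ∀ l ∈ Finset.range m,
      gam a b e1 e2 κ k ^ (m - (l + 1)) / (m - (l + 1)).factorial *
        (bb a b k * omw a b e1 e2 k * gam a b e1 e2 κ k * h k r l) =
      bb a b k * ((m : ℂ) - l) * omw a b e1 e2 k *
        (gam a b e1 e2 κ k ^ (m - l) / (m - l).factorial * h k r l) := by
    intro l hl
    have hl' : l < m := Finset.mem_range.1 hl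
    obtain ⟨n, rfl⟩ := Nat.exists_eq_add_of_lt hl'
    have e1' : l + n + 1 - (l + 1) = n := by omega
    have e2' : l + n + 1 - l = n + 1 := by omega
    rw [e1', e2', Nat.factorial_succ, pow_succ]
    have h1 : ((n : ℂ) + 1) ≠ 0 := by exact_mod_cast Nat.succ_ne_zero n
    have h2 : (n.factorial : ℂ) ≠ 0 := by exact_mod_cast Nat.factorial_ne_zero n
    push_cast
    field_simp
    ring
  have hsplit : ∑ l ∈ Finset.range (m + 1),
      gam a b e1 e2 κ k ^ (m - l) / (m - l).factorial * h k (r + 1) l =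
      (∑ l ∈ Finset.range (m + 1), gam a b e1 e2 κ k ^ (m - l) / (m - l).factorial *
        (bb a b k * (om A0 B0 k + l * omw a b e1 e2 k - r * alv a b k : ℝ) * h k r l)) +
      ∑ l ∈ Finset.range m, gam a b e1 e2 κ k ^ (m - (l + 1)) / (m - (l + 1)).factorial *
        (bb a b k * omw a b e1 e2 k * gam a b e1 e2 κ k * h k r l) := by
    rw [Finset.sum_range_succ' _ m, Finset.sum_range_succ' _ m, add_right_comm,
      ← Finset.sum_add_distrib]
    congr 1
    · refine Finset.sum_congr rfl fun l _ => ?_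
      rw [hH.h_succ1]
      push_cast
      ring
    · rw [hH.h_succ0]
      push_cast
      ring
  rw [hsplit, Finset.sum_congr rfl key]
  have hext : ∑ l ∈ Finset.range m, bb a b k * ((m : ℂ) - l) * omw a b e1 e2 k *
        (gam a b e1 e2 κ k ^ (m - l) / (m - l).factorial * h k r l) =
      ∑ l ∈ Finset.range (m + 1), bb a b k * ((m : ℂ) - l) * omw a b e1 e2 k *
        (gam a b e1 e2 κ k ^ (m - l) / (m - l).factorial * h k r l) := by
    rw [Finset.sum_range_succ, sub_self]
    ring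
  rw [hext, ← Finset.sum_add_distrib, Finset.mul_sum]
  refine Finset.sum_congr rfl fun l _ => ?_
  push_cast
  ring

theorem PhiLead_coeff (hH : HData a b e1 e2 κ A0 B0 H h) (k : Fin 3) (m r : ℕ) :
    ∑ l ∈ Finset.range (m + 1), gam a b e1 e2 κ k ^ (m - l) / (m - l).factorial * h k r l =
      lm B0 k * gam a b e1 e2 κ k ^ m / m.factorial * bb a b k ^ r *
        (∏ s ∈ Finset.range r, (om A0 B0 k + m * omw a b e1 e2 k - s * alv a b k) : ℝ) := by
  induction r with
  | zero =>
    rw [Finset.sum_range_succ']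
    rw [Finset.sum_eq_zero fun l _ => by rw [hH.h_vanish k 0 (l + 1) (Nat.succ_pos l), mul_zero]]
    rw [hH.h_zero, Finset.range_zero, Finset.prod_empty]
    simp only [Nat.sub_zero, pow_zero, Complex.ofReal_one]
    ring
  | succ r ih =>
    rw [PhiLead_rec hH, ih, Finset.prod_range_succ]
    push_cast
    ring

/-- leading term at a vertex where `g` dominates `ȳ` -/
theorem lead_Phi (ha : 0 < a) (hb : 0 < b) (hab : a + b < 1 / 2)
    (hH : HData a b e1 e2 κ A0 B0 H h) (hW : WData a b e1 e2 κ g) (k : Fin 3)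
    (hk : omw a b e1 e2 k < alv a b k) (m r : ℕ) :
    Lead a b k (om A0 B0 k + m * omw a b e1 e2 k - r * alv a b k)
      (lm B0 k * gam a b e1 e2 κ k ^ m / m.factorial * bb a b k ^ r *
        (∏ s ∈ Finset.range r, (om A0 B0 k + m * omw a b e1 e2 k - s * alv a b k) : ℝ))
      (Phi g H m r) := by
  have hab' : a + b < 1 := by linarith
  rw [← PhiLead_coeff hH]
  unfold Phi
  refine PhiLead_sum ha hb hab' _ _ _ fun l hl => ?_
  have hl' : l ≤ m := Nat.lt_succ_iff.1 (Finset.mem_range.1 hl)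
  have h1 := Lead.pow ha hb hab' (PhiLead_W ha hb hab' hW k hk) (m - l)
  have h2 := Lead.const_mul ha hb hab' h1 (((m - l).factorial : ℂ)⁻¹)
  have h3 := Lead.mul ha hb hab' h2 (hH.lead r l k)
  have e1' : ((m - l : ℕ) : ℝ) * omw a b e1 e2 k +
      (om A0 B0 k + l * omw a b e1 e2 k - r * alv a b k) =
      om A0 B0 k + m * omw a b e1 e2 k - r * alv a b k := by
    rw [Nat.cast_sub hl']
    ring
  rw [e1', ← div_eq_inv_mul] at h3
  exact Lead.congr h3 fun y _ => by rw [← div_eq_inv_mul]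

/-- order at the other vertices -/
theorem bigO_Phi (ha : 0 < a) (hb : 0 < b) (hab : a + b < 1 / 2)
    (hH : HData a b e1 e2 κ A0 B0 H h) (hW : WData a b e1 e2 κ g) (k : Fin 3)
    (hk : alv a b k ≤ omw a b e1 e2 k) (m r : ℕ) :
    Phi g H m r =O[𝓝[body (tri a b) \ VV a b] (tri a b k)]
      (fun y => ‖y - tri a b k‖ ^ ((om A0 B0 k + m * alv a b k - r * alv a b k) / alv a b k)) := by
  have hab' : a + b < 1 := by linarith
  have hal := alv_pos ha hb hab' k
  have hWO : (fun y => conj y + g y) =O[𝓝[body (tri a b) \ VV a b] (tri a b k)]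
      (fun y => ‖y - tri a b k‖ ^ (1 : ℝ)) := by
    have h1 := (hW.lead k).bigO ha hb hab'
    have h2 := h1.trans (PhiLead_mono (a := a) (b := b) k
      (p := 1) (q := omw a b e1 e2 k / alv a b k) (by rw [le_div_iff₀ hal, one_mul]; exact hk))
    have h3 := (PhiLead_conj (a := a) (b := b) k).add h2
    refine h3.congr_left fun y => PhiLead_W_eq g _ y
  unfold Phi
  refine Asymptotics.IsBigO.fun_sum fun l hl => ?_
  have hl' : l ≤ m := Nat.lt_succ_iff.1 (Finset.mem_range.1 hl)
  have h1 := ((hWO.pow (m - l)).const_mul_left (((m - l).factorial : ℂ)⁻¹))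
  have h2 := ((hH.lead r l k).bigO ha hb hab').trans (PhiLead_mono (a := a) (b := b) k
    (p := (om A0 B0 k + l * alv a b k - r * alv a b k) / alv a b k) (by
      refine div_le_div_of_nonneg_right ?_ hal.le
      have := mul_le_mul_of_nonneg_left hk (Nat.cast_nonneg (α := ℝ) l)
      linarith))
  have h3 := h1.mul h2
  refine (h3.congr' ?_ ?_)
  · exact Eventually.of_forall fun y => by
      simp only
      rw [← div_eq_inv_mul]
  · filter_upwards [PhiLead_pos (a := a) (b := b) k] with y hy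
    rw [Real.rpow_one, ← Real.rpow_natCast, ← Real.rpow_add hy]
    congr 1
    rw [Nat.cast_sub hl']
    field_simp
    ring

end Pool.Agent.OBT
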