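import Mathlib
import Pool.Agent.OBT.Phi
import Pool.Agent.OBT.PhiLead
import Pool.Agent.OBT.BigO

/-!
# The potentials are nice
-/

open scoped ComplexConjugate Topology Real
open MeasureTheory Filter

namespace Pool.Agent.OBT

variable {a b : ℝ} {e1 e2 : ℕ} {κ A0 B0 : ℝ} {g : ℂ → ℂ} {H : ℕ → ℕ → ℂ → ℂ}
  {h : Fin 3 → ℕ → ℕ → ℂ}

theorem PhiNice_one {S : Set ℂ} {s : ℂ} {f : ℂ → ℂ} {p : ℝ} (hp : 0 ≤ p)
    (hf : f =O[𝓝[S] s] (fun y => ‖y - s‖ ^ p)) : f =O[𝓝[S] s] (fun _ => (1 : ℝ)) := by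
  refine hf.trans ?_
  refine Asymptotics.IsBigO.of_bound 1 ?_
  have h1 : Metric.ball s 1 ∈ 𝓝[S] s := mem_nhdsWithin_of_mem_nhds (Metric.ball_mem_nhds s one_pos)
  filter_upwards [h1] with y hy
  rw [Metric.mem_ball, dist_eq_norm] at hy
  rw [norm_one, mul_one, Real.norm_of_nonneg (Real.rpow_nonneg (norm_nonneg _) _)]
  exact Real.rpow_le_one (norm_nonneg _) hy.le hp

/-- the functions `Φ (m+1) m` are nice -/
theorem niceT_Phi (ha : 0 < a) (hb : 0 < b) (hab : a + b < 1 / 2)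
    (hH : HData a b e1 e2 κ A0 B0 H h) (hW : WData a b e1 e2 κ g) (n : ℤ)
    (hn : ∀ k, ∀ y ∈ edge (tri a b) k \ VV a b,
      MM a b A0 B0 y = chi (tri a b) k ^ n * conj (MM a b A0 B0 y)) (m : ℕ)
    (h0 : ∀ k, -alv a b k < om A0 B0 k)
    (hcond : ∀ k, omw a b e1 e2 k < alv a b k →
      (m + 1) * (alv a b k - omw a b e1 e2 k) ≤ om A0 B0 k + alv a b k) :
    NiceT a b (n - 2 * m - 1) (Phi g H (m + 1) m) (Phi g H (m + 1) (m + 1)) (Phi g H m m) := by
  have hab1 : a + b < 1 := by linarith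
  have hal := fun k => alv_pos ha hb hab1 k
  have hVfin : (VV a b).Finite := Set.finite_range _
  refine ⟨?_, ?_, ?_, ?_, ?_, ?_, ?_, ?_⟩
  · -- bounded
    refine bdd_of_bigO hVfin (continuousOn_Phi hH hW (m + 1) m) ?_
    rintro _ ⟨k, rfl⟩
    rcases lt_or_ge (omw a b e1 e2 k) (alv a b k) with hk | hk
    · have h1 := (lead_Phi ha hb hab hH hW k hk (m + 1) m).bigO ha hb hab1
      refine PhiNice_one ?_ h1
      have := hcond k hk
      refine div_nonneg ?_ (hal k).le
      push_cast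
      linarith
    · have h1 := bigO_Phi ha hb hab hH hW k hk (m + 1) m
      refine PhiNice_one ?_ h1
      have := h0 k
      refine div_nonneg ?_ (hal k).le
      push_cast
      linarith
  · intro k y hy
    have h1 := phase_Phi ha hb hab hH hW n hn (m + 1) m k hy
    have e : n - (m : ℤ) - ((m + 1 : ℕ) : ℤ) = n - 2 * m - 1 := by push_cast; ring
    rw [e] at h1
    exact h1
  · intro k y hy
    have h1 := phase_Phi ha hb hab hH hW n hn (m + 1) (m + 1) k hy
    have e : n - ((m + 1 : ℕ) : ℤ) - ((m + 1 : ℕ) : ℤ) = n - 2 * m - 1 - 1 := by push_cast; ring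
    rw [e] at h1
    exact h1
  · intro k y hy
    have h1 := phase_Phi ha hb hab hH hW n hn m m k hy
    have e : n - (m : ℤ) - (m : ℤ) = n - 2 * m - 1 + 1 := by ring
    rw [e] at h1
    exact h1
  · intro y hy
    exact hasFDerivWithinAt_Phi_succ hH hW m m hy
  · rcases m with _ | m
    · refine ⟨Phi g H 1 2, Phi g H 0 1, fun _ => 0, continuousOn_Phi hH hW _ _,
        continuousOn_Phi hH hW _ _, continuousOn_const, fun y hy => ?_, fun y hy => ?_⟩
      · exact hasFDerivWithinAt_Phi_succ hH hW 0 1 hy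
      · exact hasFDerivWithinAt_Phi_zero hH hW 0 hy
    · refine ⟨Phi g H (m + 2) (m + 3), Phi g H (m + 1) (m + 2), Phi g H m (m + 1),
        continuousOn_Phi hH hW _ _, continuousOn_Phi hH hW _ _, continuousOn_Phi hH hW _ _,
        fun y hy => ?_, fun y hy => ?_⟩
      · exact hasFDerivWithinAt_Phi_succ hH hW (m + 1) (m + 2) hy
      · exact hasFDerivWithinAt_Phi_succ hH hW m (m + 1) hy
  · refine memLp_of_bigO hVfin (continuousOn_Phi hH hW (m + 1) (m + 1)) ?_
    rintro _ ⟨k, rfl⟩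
    have hk0 := hal k
    rcases lt_or_ge (omw a b e1 e2 k) (alv a b k) with hk | hk
    · have h1 := lead_Phi ha hb hab hH hW k hk (m + 1) (m + 1)
      have h2 := hcond k hk
      have h3 : -alv a b k ≤ om A0 B0 k + ((m + 1 : ℕ) : ℝ) * omw a b e1 e2 k -
          ((m + 1 : ℕ) : ℝ) * alv a b k := by
        push_cast
        linarith
      rcases h3.eq_or_lt with h4 | h4
      · have h5 : om A0 B0 k + ((m + 1 : ℕ) : ℝ) * omw a b e1 e2 k - (m : ℝ) * alv a b k = 0 := by
          push_cast at h4 ⊢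
          linarith
        have h6 : (∏ s ∈ Finset.range (m + 1), (om A0 B0 k + ((m + 1 : ℕ) : ℝ) *
            omw a b e1 e2 k - (s : ℝ) * alv a b k)) = 0 :=
          Finset.prod_eq_zero (Finset.mem_range.mpr (Nat.lt_succ_self m)) h5
        rw [h6, Complex.ofReal_zero, mul_zero, ← h4] at h1
        obtain ⟨ε, hε, h7⟩ := h1.bigO_of_zero ha hb hab1
        refine ⟨_, ?_, h7⟩
        rw [lt_div_iff₀ hk0]
        linarith
      · refine ⟨_, ?_, h1.bigO ha hb hab1⟩
        rw [lt_div_iff₀ hk0]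
        linarith
    · refine ⟨_, ?_, bigO_Phi ha hb hab hH hW k hk (m + 1) (m + 1)⟩
      rw [lt_div_iff₀ hk0]
      have := h0 k
      linarith
  · refine memLp_of_bigO hVfin (continuousOn_Phi hH hW m m) ?_
    rintro _ ⟨k, rfl⟩
    have hk0 := hal k
    rcases lt_or_ge (omw a b e1 e2 k) (alv a b k) with hk | hk
    · refine ⟨_, ?_, (lead_Phi ha hb hab hH hW k hk m m).bigO ha hb hab1⟩
      have h2 := hcond k hk
      rw [lt_div_iff₀ hk0]
      nlinarith
    · refine ⟨_, ?_, bigO_Phi ha hb hab hH hW k hk m m⟩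
      rw [lt_div_iff₀ hk0]
      have := h0 k
      linarith

end Pool.Agent.OBT
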