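import Mathlib
import Pool.Agent.OBT.SC3
import Pool.Agent.OBT.Fam
import Pool.Agent.OBT.Green
import Pool.Agent.OBT.Cutoff

/-!
# The residue formula on the triangle
-/

open scoped ComplexConjugate Topology Real
open MeasureTheory Filter

namespace Pool.Agent.OBT

theorem Residue_K_compact (P A B : ℂ) : IsCompact (Green_K P A B) := by
  have h : Green_K P A B = (fun p : ℝ × ℝ => P + (p.1 : ℂ) * A + (p.2 : ℂ) * B) '' Green_S := by
    ext z
    constructor
    · rintro ⟨s, t, h1, h2, h3, rfl⟩
      exact ⟨(s, t), ⟨h1, h2, h3⟩, rfl⟩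
    · rintro ⟨⟨s, t⟩, ⟨h1, h2, h3⟩, rfl⟩
      exact ⟨s, t, h1, h2, h3, rfl⟩
  rw [h]
  exact Green_S_compact.image (by fun_prop)

/-- the cone condition in polar coordinates -/
theorem Residue_cone {P A B : ℂ} {l θ : ℝ} (hA : A ≠ 0) (hl : 0 < l) (hθ0 : 0 < θ) (hθ1 : θ < π)
    (hB : B = l * A * Complex.exp (θ * Complex.I)) :
    ∃ ρ > 0, ∀ r ψ : ℝ, 0 < r → r < ρ → -π < ψ → ψ < π →
      (P + (A / ‖A‖) * ((r : ℂ) * (Real.cos ψ + Real.sin ψ * Complex.I)) ∈ Green_K P A B ↔
        ψ ∈ Set.Icc 0 θ) := by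
  have hAn : 0 < ‖A‖ := norm_pos_iff.mpr hA
  have hs : 0 < Real.sin θ := Real.sin_pos_of_pos_of_lt_pi hθ0 hθ1
  have hBe : B = l * A * (Real.cos θ + Real.sin θ * Complex.I) := by
    rw [hB, Complex.exp_mul_I]; push_cast; ring
  refine ⟨‖A‖ * Real.sin θ / (1 + 1 / l), by positivity, ?_⟩
  intro r ψ hr hρ hψ1 hψ2
  -- coordinates
  set s : ℝ := r * Real.sin (θ - ψ) / (‖A‖ * Real.sin θ) with hsd
  set t : ℝ := r * Real.sin ψ / (l * ‖A‖ * Real.sin θ) with htd
  have hAc : (‖A‖ : ℂ) ≠ 0 := by exact_mod_cast hAn.ne'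
  have hsc : (Real.sin θ : ℂ) ≠ 0 := by exact_mod_cast hs.ne'
  have hlc : (l : ℂ) ≠ 0 := by exact_mod_cast hl.ne'
  have hdec : (A / ‖A‖) * ((r : ℂ) * (Real.cos ψ + Real.sin ψ * Complex.I)) = s * A + t * B := by
    rw [hBe, hsd, htd, Real.sin_sub]
    push_cast
    push_cast at hsc
    field_simp
    ring
  -- uniqueness of the coordinates
  have huniq : ∀ s' t' : ℝ, (s' : ℂ) * A + t' * B = s * A + t * B → s' = s ∧ t' = t := by
    intro s' t' h
    rw [hBe] at h
    have h1 : ((s' - s : ℝ) : ℂ) + ((t' - t : ℝ) : ℂ) * l * (Real.cos θ + Real.sin θ * Complex.I)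
        = 0 := by
      have h2 : (((s' - s : ℝ) : ℂ) + ((t' - t : ℝ) : ℂ) * l *
          (Real.cos θ + Real.sin θ * Complex.I)) * A = 0 := by
        push_cast
        push_cast at h
        linear_combination h
      exact (mul_eq_zero.mp h2).resolve_right hA
    have h3 := congrArg Complex.im h1
    have h4 := congrArg Complex.re h1
    simp only [Complex.add_im, Complex.ofReal_im, Complex.mul_im, Complex.ofReal_re,
      Complex.mul_re, Complex.I_re, Complex.I_im, Complex.add_re, Complex.zero_im,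
      Complex.zero_re] at h3 h4
    have h5 : (t' - t) * (l * Real.sin θ) = 0 := by linarith
    have h6 := (mul_eq_zero.mp h5).resolve_right (mul_pos hl hs).ne'
    rw [h6] at h4
    exact ⟨by linarith, by linarith⟩
  rw [hdec]
  constructor
  · rintro ⟨s', t', h1, h2, h3, h4⟩
    have h5 : (s' : ℂ) * A + t' * B = s * A + t * B := by
      linear_combination -h4
    obtain ⟨h6, h7⟩ := huniq s' t' h5
    rw [h6] at h1
    rw [h7] at h2
    have h8 : 0 ≤ Real.sin ψ := by
      rw [htd] at h2
      by_contra hneg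
      push Not at hneg
      have : r * Real.sin ψ / (l * ‖A‖ * Real.sin θ) < 0 :=
        div_neg_of_neg_of_pos (mul_neg_of_pos_of_neg hr hneg) (by positivity)
      linarith
    have h9 : 0 ≤ ψ := by
      by_contra hneg
      push Not at hneg
      have := Real.sin_neg_of_neg_of_neg_pi_lt hneg hψ1
      linarith
    have h10 : 0 ≤ Real.sin (θ - ψ) := by
      rw [hsd] at h1
      by_contra hneg
      push Not at hneg
      have : r * Real.sin (θ - ψ) / (‖A‖ * Real.sin θ) < 0 :=
        div_neg_of_neg_of_pos (mul_neg_of_pos_of_neg hr hneg) (by positivity)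
      linarith
    refine ⟨h9, ?_⟩
    by_contra hneg
    push Not at hneg
    have := Real.sin_neg_of_neg_of_neg_pi_lt (x := θ - ψ) (by linarith) (by linarith)
    linarith
  · rintro ⟨h1, h2⟩
    have h3 : 0 ≤ Real.sin ψ := Real.sin_nonneg_of_nonneg_of_le_pi h1 hψ2.le
    have h4 : 0 ≤ Real.sin (θ - ψ) :=
      Real.sin_nonneg_of_nonneg_of_le_pi (by linarith) (by linarith)
    have h5 : 0 ≤ s := by rw [hsd]; positivity
    have h6 : 0 ≤ t := by rw [htd]; positivity
    refine ⟨s, t, h5, h6, ?_, by ring⟩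
    have h7 : s ≤ r / (‖A‖ * Real.sin θ) := by
      rw [hsd]
      have := Real.sin_le_one (θ - ψ)
      gcongr
      nlinarith
    have h8 : t ≤ r / (l * ‖A‖ * Real.sin θ) := by
      rw [htd]
      have := Real.sin_le_one ψ
      gcongr
      nlinarith
    have h9 : r / (‖A‖ * Real.sin θ) + r / (l * ‖A‖ * Real.sin θ) =
        r * (1 + 1 / l) / (‖A‖ * Real.sin θ) := by
      field_simp
    have h10 : r * (1 + 1 / l) / (‖A‖ * Real.sin θ) ≤ 1 := by
      rw [div_le_one (by positivity)]
      rw [lt_div_iff₀ (by positivity)] at hρ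
      exact hρ.le
    linarith

theorem Residue_sector {P A B : ℂ} {l θ : ℝ} (hA : A ≠ 0) (hl : 0 < l) (hθ0 : 0 < θ) (hθ1 : θ < π)
    (hB : B = l * A * Complex.exp (θ * Complex.I)) :
    ∃ ρ > 0, ∀ φ : ℝ → ℝ, (∀ r, ρ ≤ r → φ r = 0) →
      ∫ y in Green_K P A B, φ ‖y - P‖ = θ * ∫ r in Set.Ioi (0 : ℝ), r * φ r := by
  obtain ⟨ρ, hρ, hcone⟩ := Residue_cone (P := P) hA hl hθ0 hθ1 hB
  refine ⟨ρ, hρ, fun φ hφ => ?_⟩
  have hmeas : MeasurableSet (Green_K P A B) := (Residue_K_compact P A B).isClosed.measurableSet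
  have hAn : 0 < ‖A‖ := norm_pos_iff.mpr hA
  set F : ℂ → ℝ := (Green_K P A B).indicator (fun y => φ ‖y - P‖) with hF
  have hu : ‖A / (‖A‖ : ℂ)‖ = 1 := by
    rw [norm_div, Complex.norm_real, norm_norm, div_self hAn.ne']
  set u : Circle := ⟨A / (‖A‖ : ℂ), by simp only [Submonoid.unitSphere]; exact mem_sphere_zero_iff_norm.mpr hu⟩ with hud
  have h1 : ∫ y in Green_K P A B, φ ‖y - P‖ = ∫ y, F y := by
    rw [hF, integral_indicator hmeas]
  have h2 : ∫ y, F y = ∫ z, F (P + z) := (integral_add_left_eq_self F P).symm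
  have h3 : ∫ z, F (P + z) = ∫ z, F (P + rotation u z) :=
    ((rotation u).measurePreserving.integral_comp
      (rotation u).toHomeomorph.measurableEmbedding (fun z => F (P + z))).symm
  rw [h1, h2, h3, ← Complex.integral_comp_polarCoord_symm]
  have h4 : ∀ p ∈ polarCoord.target,
      p.1 • F (P + rotation u (Complex.polarCoord.symm p)) =
        (p.1 * φ p.1) * (Set.Icc (0 : ℝ) θ).indicator (fun _ => (1 : ℝ)) p.2 := by
    rintro ⟨r, ψ⟩ hp
    rw [polarCoord_target] at hp
    obtain ⟨hr, hψ⟩ := hp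
    simp only [Set.mem_Ioi, Set.mem_Ioo] at hr hψ
    have h5 : rotation u (Complex.polarCoord.symm (r, ψ)) =
        (A / ‖A‖) * ((r : ℂ) * (Real.cos ψ + Real.sin ψ * Complex.I)) := by
      rw [rotation_apply, Complex.polarCoord_symm_apply]
    rw [h5]
    have hnorm : ‖P + (A / ‖A‖) * ((r : ℂ) * (Real.cos ψ + Real.sin ψ * Complex.I)) - P‖ = r := by
      rw [add_sub_cancel_left, norm_mul, hu, one_mul, norm_mul, Complex.norm_real,
        Real.norm_of_nonneg hr.le]
      have : ((Real.cos ψ : ℝ) : ℂ) + ((Real.sin ψ : ℝ) : ℂ) * Complex.I =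
          Complex.exp (ψ * Complex.I) := by
        rw [Complex.exp_mul_I]; push_cast; ring
      rw [this, Complex.norm_exp_ofReal_mul_I, mul_one]
    simp only [smul_eq_mul]
    rcases lt_or_ge r ρ with hrρ | hrρ
    · have hc := hcone r ψ hr hrρ hψ.1 hψ.2
      by_cases hm : ψ ∈ Set.Icc 0 θ
      · rw [hF, Set.indicator_of_mem (hc.mpr hm), hnorm, Set.indicator_of_mem hm, mul_one]
      · rw [hF, Set.indicator_of_notMem (fun h => hm (hc.mp h)), Set.indicator_of_notMem hm]
        simp
    · rw [hφ r hrρ]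
      have : F (P + (A / ‖A‖) * ((r : ℂ) * (Real.cos ψ + Real.sin ψ * Complex.I))) = 0 := by
        rw [hF]
        by_cases hm : P + (A / ‖A‖) * ((r : ℂ) * (Real.cos ψ + Real.sin ψ * Complex.I)) ∈
            Green_K P A B
        · rw [Set.indicator_of_mem hm, hnorm, hφ r hrρ]
        · rw [Set.indicator_of_notMem hm]
      rw [this]; ring
  rw [setIntegral_congr_fun (by rw [polarCoord_target]; exact measurableSet_Ioi.prod measurableSet_Ioo) h4,
    polarCoord_target, Measure.volume_eq_prod, setIntegral_prod_mul (fun r => r * φ r)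
      ((Set.Icc (0 : ℝ) θ).indicator (fun _ => (1 : ℝ)))]
  have h6 : ∫ y in Set.Ioo (-π) π, (Set.Icc (0 : ℝ) θ).indicator (fun _ => (1 : ℝ)) y = θ := by
    rw [setIntegral_indicator measurableSet_Icc]
    have : Set.Ioo (-π) π ∩ Set.Icc 0 θ = Set.Icc 0 θ := by
      apply Set.inter_eq_right.mpr
      intro x hx
      exact ⟨by linarith [hx.1], by linarith [hx.2]⟩
    rw [this]
    simp [hθ0.le]
  rw [h6, mul_comm]


/-- the kernel of the cutoff -/
noncomputable def Residue_W (lam : ℝ → ℝ) (P y : ℂ) : ℝ := deriv lam ‖y - P‖ / (2 * ‖y - P‖)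

/-- properties of one radial cutoff profile with inner radius `δ` and outer radius `R` -/
structure Residue_Cut (lam : ℝ → ℝ) (δ R : ℝ) : Prop where
  c1 : ContDiff ℝ 1 (fun y : ℂ => lam ‖y‖)
  c2 : ContDiff ℝ 1 lam
  bd : ∀ r, 0 ≤ lam r ∧ lam r ≤ 1
  mono : ∀ r, 0 ≤ deriv lam r
  dpos : 0 < δ
  zero : ∀ r, r < δ → lam r = 0
  one : ∀ r, R ≤ r → lam r = 1

namespace Residue_Cut

variable {lam : ℝ → ℝ} {δ R : ℝ}

theorem deriv_out (h : Residue_Cut lam δ R) {r : ℝ} (hr : R < r) : deriv lam r = 0 := by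
  have : lam =ᶠ[𝓝 r] fun _ => 1 := by
    filter_upwards [lt_mem_nhds hr] with x hx
    exact h.one x hx.le
  rw [this.deriv_eq]
  simp

theorem deriv_in (h : Residue_Cut lam δ R) {r : ℝ} (hr : r < δ) : deriv lam r = 0 := by
  have : lam =ᶠ[𝓝 r] fun _ => 0 := by
    filter_upwards [gt_mem_nhds hr] with x hx
    exact h.zero x hx
  rw [this.deriv_eq]
  simp

theorem W_nonneg (h : Residue_Cut lam δ R) (P y : ℂ) : 0 ≤ Residue_W lam P y := by
  unfold Residue_W
  have := h.mono ‖y - P‖
  positivity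

theorem W_out (h : Residue_Cut lam δ R) {P y : ℂ} (hr : R < ‖y - P‖) : Residue_W lam P y = 0 := by
  unfold Residue_W
  rw [h.deriv_out hr, zero_div]

theorem W_in (h : Residue_Cut lam δ R) {P y : ℂ} (hr : ‖y - P‖ < δ) : Residue_W lam P y = 0 := by
  unfold Residue_W
  rw [h.deriv_in hr, zero_div]

theorem continuous_W (h : Residue_Cut lam δ R) (P : ℂ) : Continuous (Residue_W lam P) := by
  rw [continuous_iff_continuousAt]
  intro y
  by_cases hy : y = P
  · have : Residue_W lam P =ᶠ[𝓝 y] fun _ => 0 := by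
      have h1 : Metric.ball P δ ∈ 𝓝 y := by
        rw [hy]; exact Metric.ball_mem_nhds P h.dpos
      filter_upwards [h1] with z hz
      rw [Metric.mem_ball, dist_eq_norm] at hz
      exact h.W_in hz
    exact this.continuousAt
  · have hd : Continuous (deriv lam) := h.c2.continuous_deriv le_rfl
    have hn : Continuous (fun y : ℂ => ‖y - P‖) := by fun_prop
    unfold Residue_W
    refine ContinuousAt.div (hd.comp hn).continuousAt (hn.const_mul 2 |>.continuousAt) ?_
    have : 0 < ‖y - P‖ := norm_pos_iff.mpr (sub_ne_zero.mpr hy)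
    positivity

theorem integral_deriv (h : Residue_Cut lam δ R) (hR : 0 < R) :
    ∫ r in Set.Ioi (0 : ℝ), deriv lam r = 1 := by
  have h1 : ∫ r in Set.Ioi (0 : ℝ), deriv lam r = ∫ r in Set.Ioc 0 R, deriv lam r := by
    refine setIntegral_eq_of_subset_of_forall_sdiff_eq_zero measurableSet_Ioi
      Set.Ioc_subset_Ioi_self ?_
    rintro r ⟨hr1, hr2⟩
    refine h.deriv_out ?_
    by_contra hcon
    push Not at hcon
    exact hr2 ⟨hr1, hcon⟩
  rw [h1, ← intervalIntegral.integral_of_le hR.le, intervalIntegral.integral_deriv_eq_sub]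
  · rw [h.one R le_rfl, h.zero 0 h.dpos, sub_zero]
  · intro x _
    exact (h.c2.differentiable one_ne_zero).differentiableAt
  · exact (h.c2.continuous_deriv le_rfl).intervalIntegrable _ _

/-- the total mass of the kernel on the triangle -/
theorem integral_W (h : Residue_Cut lam δ R) (hR : 0 < R) {P A B : ℂ} {θ ρ : ℝ} (hRρ : R < ρ)
    (hs : ∀ φ : ℝ → ℝ, (∀ r, ρ ≤ r → φ r = 0) →
      ∫ y in Green_K P A B, φ ‖y - P‖ = θ * ∫ r in Set.Ioi (0 : ℝ), r * φ r) :
    ∫ y in Green_K P A B, Residue_W lam P y = θ / 2 := by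
  have h1 := hs (fun r => deriv lam r / (2 * r)) (fun r hr => by
    rw [h.deriv_out (lt_of_lt_of_le hRρ hr), zero_div])
  have h2 : ∫ r in Set.Ioi (0 : ℝ), r * (deriv lam r / (2 * r)) =
      ∫ r in Set.Ioi (0 : ℝ), (1 / 2) * deriv lam r := by
    refine setIntegral_congr_fun measurableSet_Ioi ?_
    intro r hr
    have : r ≠ 0 := (Set.mem_Ioi.mp hr).ne'
    simp only
    field_simp
  rw [h2, integral_const_mul, h.integral_deriv hR] at h1
  unfold Residue_W
  rw [h1]
  ring

/-- the kernel tested against a function with a limit at `P` -/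
theorem integral_Wg (h : Residue_Cut lam δ R) (hR : 0 < R) {P A B : ℂ} {θ ρ : ℝ} (hRρ : R < ρ)
    (hs : ∀ φ : ℝ → ℝ, (∀ r, ρ ≤ r → φ r = 0) →
      ∫ y in Green_K P A B, φ ‖y - P‖ = θ * ∫ r in Set.Ioi (0 : ℝ), r * φ r)
    {g : ℂ → ℂ} {C : ℂ} {ε : ℝ}
    (hi : IntegrableOn (fun y => (Residue_W lam P y : ℂ) * g y) (Green_K P A B))
    (hg : ∀ y ∈ Green_K P A B, Residue_W lam P y ≠ 0 → ‖g y - C‖ ≤ ε) :
    ‖(∫ y in Green_K P A B, (Residue_W lam P y : ℂ) * g y) - (θ / 2 : ℝ) * C‖ ≤ ε * (θ / 2) := by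
  have hWi : IntegrableOn (Residue_W lam P) (Green_K P A B) :=
    (h.continuous_W P).continuousOn.integrableOn_compact (Residue_K_compact P A B)
  have hmeas : MeasurableSet (Green_K P A B) := (Residue_K_compact P A B).isClosed.measurableSet
  have h1 : ∫ y in Green_K P A B, (Residue_W lam P y : ℂ) = (θ / 2 : ℝ) := by
    rw [integral_complex_ofReal, h.integral_W hR hRρ hs]
  have h2 : (∫ y in Green_K P A B, (Residue_W lam P y : ℂ) * g y) - (θ / 2 : ℝ) * C =
      ∫ y in Green_K P A B, (Residue_W lam P y : ℂ) * (g y - C) := by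
    have hWc : IntegrableOn (fun y => (Residue_W lam P y : ℂ)) (Green_K P A B) := hWi.ofReal
    rw [← h1, ← integral_mul_const, ← integral_sub hi (hWc.mul_const C)]
    congr 1
    ext y
    ring
  rw [h2]
  have h3 : ∫ y in Green_K P A B, ε * Residue_W lam P y = ε * (θ / 2) := by
    rw [integral_const_mul, h.integral_W hR hRρ hs]
  rw [← h3]
  refine norm_integral_le_of_norm_le (hWi.const_mul ε) ?_
  rw [ae_restrict_iff' hmeas]
  refine Eventually.of_forall fun y hy => ?_
  rw [norm_mul, Complex.norm_real, Real.norm_of_nonneg (h.W_nonneg P y), mul_comm]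
  by_cases hW : Residue_W lam P y = 0
  · rw [hW]; simp
  · exact mul_le_mul_of_nonneg_right (hg y hy hW) (h.W_nonneg P y)

end Residue_Cut

theorem Residue_Cut.hasFDerivAt {lam : ℝ → ℝ} {δ R : ℝ} (h : Residue_Cut lam δ R) (P y : ℂ) :
    HasFDerivAt (fun y => lam ‖y - P‖) ((2 * Residue_W lam P y) •
      ((y - P).re • Complex.reCLM + (y - P).im • Complex.imCLM)) y := by
  by_cases hy : y = P
  · subst hy
    have h1 : (fun z => lam ‖z - y‖) =ᶠ[𝓝 y] fun _ => 0 := by
      filter_upwards [Metric.ball_mem_nhds y h.dpos] with z hz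
      rw [Metric.mem_ball, dist_eq_norm] at hz
      exact h.zero _ hz
    have h2 : (2 * Residue_W lam y y) •
      ((y - y).re • Complex.reCLM + (y - y).im • Complex.imCLM) = 0 := by
      simp
    rw [h2]
    exact (hasFDerivAt_const 0 y).congr_of_eventuallyEq h1
  · have hn : 0 < ‖y - P‖ := norm_pos_iff.mpr (sub_ne_zero.mpr hy)
    have h1 : HasFDerivAt (fun y : ℂ => ‖y - P‖ ^ 2)
        ((2 : ℕ) • (innerSL ℝ) (y - P)) y := by
      have h2 := (hasStrictFDerivAt_norm_sq (y - P)).hasFDerivAt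
      have h3 : HasFDerivAt (fun y : ℂ => y - P) (ContinuousLinearMap.id ℝ ℂ) y :=
        (hasFDerivAt_id y).sub_const P
      have h4 := h2.comp y h3
      rw [ContinuousLinearMap.comp_id] at h4
      exact h4
    have h2 := h1.sqrt (by positivity)
    have h3 : (fun y : ℂ => √(‖y - P‖ ^ 2)) = fun y : ℂ => ‖y - P‖ := by
      ext y; exact Real.sqrt_sq (norm_nonneg _)
    rw [h3, Real.sqrt_sq hn.le] at h2
    have h4 : HasDerivAt lam (deriv lam ‖y - P‖) ‖y - P‖ :=
      (h.c2.differentiable one_ne_zero).differentiableAt.hasDerivAt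
    have h5 := h4.comp_hasFDerivAt y h2
    refine h5.congr_fderiv ?_
    ext z
    simp [Residue_W]
    field_simp
    ring

theorem Residue_cut_green {a b : ℝ} (ha : 0 < a) (hb : 0 < b) (hab : a + b < 1)
    {ph ph1 ph2 : ℂ → ℂ}
    (hd : ∀ y ∈ body (tri a b) \ Set.range (tri a b),
      HasFDerivWithinAt ph (DD (ph1 y) (ph2 y)) (body (tri a b)) y)
    (h1 : ContinuousOn ph1 (body (tri a b) \ Set.range (tri a b)))
    (h2 : ContinuousOn ph2 (body (tri a b) \ Set.range (tri a b)))
    (hedge : ∀ k : Fin 3, ∀ y ∈ edge (tri a b) k \ Set.range (tri a b),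
      (ph y * (tri a b (k + 2) - tri a b (k + 1))).im = 0)
    (c : ℂ → ℝ) (hc : ContDiff ℝ 1 c) (hV : ∀ k, ∀ᶠ y in 𝓝 (tri a b k), c y = 0) :
    (∫ y in body (tri a b), ((c y : ℂ) * ph2 y +
      ((fderiv ℝ c y 1 : ℝ) + Complex.I * (fderiv ℝ c y Complex.I : ℝ)) / 2 * ph y)).re = 0 := by
  set V := Set.range (tri a b) with hVd
  set T := body (tri a b) with hT
  have hVfin : V.Finite := Set.finite_range _
  set f : ℂ → ℂ := fun y => c y • ph y with hfd
  set f' : ℂ → ℂ →L[ℝ] ℂ := fun y =>
    c y • DD (ph1 y) (ph2 y) + (fderiv ℝ c y).smulRight (ph y) with hf'd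
  have hzero : ∀ y ∈ V, ∀ᶠ z in 𝓝 y, c z = 0 := by
    rintro _ ⟨k, rfl⟩
    exact hV k
  have hf'zero : ∀ y, (∀ᶠ z in 𝓝 y, c z = 0) → f' y = 0 := by
    intro y hy
    have e1 : c y = 0 := hy.self_of_nhds
    have e2 : fderiv ℝ c y = 0 := by
      have : c =ᶠ[𝓝 y] fun _ => 0 := hy
      rw [this.fderiv_eq]
      simp
    simp only [hf'd, e1, e2]
    ext
    simp
  have hf : ∀ y ∈ T, HasFDerivWithinAt f (f' y) T y := by
    intro y hy
    by_cases hyV : y ∈ V
    · rw [hf'zero y (hzero y hyV)]
      have : f =ᶠ[𝓝 y] fun _ => 0 := by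
        filter_upwards [hzero y hyV] with z hz
        simp only [hfd, hz, zero_smul]
      exact ((hasFDerivAt_const (0 : ℂ) y).congr_of_eventuallyEq this).hasFDerivWithinAt
    · exact ((hc.differentiable one_ne_zero y).hasFDerivAt.hasFDerivWithinAt).fun_smul
        (hd y ⟨hy, hyV⟩)
  have hphc : ContinuousOn ph (T \ V) := fun y hy =>
    (hd y hy).continuousWithinAt.mono Set.sdiff_subset
  have hcontf' : ContinuousOn f' T := by
    intro y hy
    by_cases hyV : y ∈ V
    · have : f' =ᶠ[𝓝 y] fun _ => 0 := by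
        filter_upwards [(hzero y hyV).eventually_nhds] with z hz
        exact hf'zero z hz
      exact this.continuousAt.continuousWithinAt
    · have h3 : ContinuousOn f' (T \ V) := by
        have e1 : ContinuousOn (fun y => DD (ph1 y) (ph2 y)) (T \ V) := by
          unfold DD
          exact (h1.smul continuousOn_const).add (h2.smul continuousOn_const)
        have e2 : ContinuousOn (fun y => (fderiv ℝ c y).smulRight (ph y)) (T \ V) := by
          have e3 : ContinuousOn (fun y => (ContinuousLinearMap.smulRightL ℝ ℂ ℂ) (fderiv ℝ c y))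
              (T \ V) :=
            ((ContinuousLinearMap.smulRightL ℝ ℂ ℂ).continuous.comp
              (hc.continuous_fderiv one_ne_zero)).continuousOn
          exact e3.clm_apply hphc
        exact (hc.continuous.continuousOn.smul e1).add e2
      refine (h3 y ⟨hy, hyV⟩).mono_of_mem_nhdsWithin ?_
      rw [Set.sdiff_eq]
      exact inter_mem self_mem_nhdsWithin
        (mem_nhdsWithin_of_mem_nhds (hVfin.isClosed.isOpen_compl.mem_nhds hyV))
  have hG := fun h => green_pos (tau a b) (tau_im_pos ha hb hab) f f' hf hcontf' h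
  have hG' : ∀ h : ℂ, ∫ y in T, f' y h =
      ∑ k : Fin 3, (cross h (tri a b (k + 2) - tri a b (k + 1)) : ℂ) *
      ∫ t in (0 : ℝ)..1, f (tri a b (k + 1) + t * (tri a b (k + 2) - tri a b (k + 1))) := hG
  have hcomp : IsCompact T := (Set.finite_range _).isCompact_convexHull ℝ
  have hi : ∀ h : ℂ, IntegrableOn (fun y => f' y h) T := fun h =>
    (hcontf'.clm_apply continuousOn_const).integrableOn_compact hcomp
  -- the boundary integrals are real
  have hreal : ∀ k : Fin 3, ∃ x : ℝ, (tri a b (k + 2) - tri a b (k + 1)) *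
      (∫ t in (0 : ℝ)..1, f (tri a b (k + 1) + t * (tri a b (k + 2) - tri a b (k + 1)))) = x := by
    intro k
    set e := tri a b (k + 2) - tri a b (k + 1) with he
    refine ⟨∫ t in (0 : ℝ)..1, (e * f (tri a b (k + 1) + t * e)).re, ?_⟩
    rw [← intervalIntegral.integral_const_mul, ← intervalIntegral.integral_ofReal]
    refine intervalIntegral.integral_congr ?_
    intro t ht
    rw [Set.uIcc_of_le zero_le_one] at ht
    simp only
    have him : (e * f (tri a b (k + 1) + t * e)).im = 0 := by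
      set y := tri a b (k + 1) + t * e with hy
      by_cases hyV : y ∈ V
      · have : c y = 0 := (hzero y hyV).self_of_nhds
        simp only [hfd, this, zero_smul, mul_zero, Complex.zero_im]
      · have hye : y ∈ edge (tri a b) k := by
          refine ⟨1 - t, t, by linarith [ht.2], ht.1, by ring, ?_⟩
          rw [hy, he]
          simp only [Complex.real_smul]
          push_cast
          ring
        have h3 := hedge k y ⟨hye, hyV⟩
        have h4 : e * f y = (c y : ℂ) * (ph y * e) := by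
          simp only [hfd, Complex.real_smul]; ring
        rw [h4, Complex.im_ofReal_mul, h3, mul_zero]
    exact Complex.ext (by simp) (by rw [him]; simp)
  have hcross : ∀ e J : ℂ, (cross 1 e : ℂ) * J + Complex.I * ((cross Complex.I e : ℂ) * J) =
      -Complex.I * (e * J) := by
    intro e J
    have e1 : (cross 1 e : ℂ) = (e.im : ℂ) := by simp [cross]
    have e2 : (cross Complex.I e : ℂ) = -(e.re : ℂ) := by simp [cross]
    have e3 := Complex.re_add_im e
    rw [e1, e2]
    linear_combination (-Complex.I * J) * e3 + (e.im * J) * Complex.I_sq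
  have hint : ∫ y in T, ((c y : ℂ) * ph2 y +
      ((fderiv ℝ c y 1 : ℝ) + Complex.I * (fderiv ℝ c y Complex.I : ℝ)) / 2 * ph y) =
      ((∫ y in T, f' y 1) + Complex.I * (∫ y in T, f' y Complex.I)) / 2 := by
    rw [← integral_const_mul, ← integral_add (hi 1) ((hi Complex.I).const_mul _),
      ← integral_div]
    congr 1
    ext y
    simp only [hf'd, add_apply, smul_apply, DD_apply,
      ContinuousLinearMap.smulRight_apply, map_one, mul_one, Complex.conj_I, Complex.real_smul]
    linear_combination (-(c y : ℂ) * (ph1 y - ph2 y) / 2) * Complex.I_sq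
  rw [hint, hG' 1, hG' Complex.I, Finset.mul_sum, ← Finset.sum_add_distrib]
  simp only [hcross]
  choose x hx using hreal
  simp only [hx]
  rw [← Finset.mul_sum, ← Complex.ofReal_sum]
  simp

theorem Residue_K_rot (v : Fin 3 → ℂ) :
    Green_K (v 0) (v 1 - v 0) (v 2 - v 0) = Green_K (v 1) (v 2 - v 1) (v 0 - v 1) ∧
    Green_K (v 0) (v 1 - v 0) (v 2 - v 0) = Green_K (v 2) (v 0 - v 2) (v 1 - v 2) := by
  constructor
  · ext z
    constructor
    · rintro ⟨s, t, h1, h2, h3, rfl⟩
      exact ⟨t, 1 - s - t, h2, by linarith, by linarith, by push_cast; ring⟩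
    · rintro ⟨s, t, h1, h2, h3, rfl⟩
      exact ⟨1 - s - t, s, by linarith, h1, by linarith, by push_cast; ring⟩
  · ext z
    constructor
    · rintro ⟨s, t, h1, h2, h3, rfl⟩
      exact ⟨1 - s - t, s, by linarith, h1, by linarith, by push_cast; ring⟩
    · rintro ⟨s, t, h1, h2, h3, rfl⟩
      exact ⟨t, 1 - s - t, h2, by linarith, by linarith, by push_cast; ring⟩

/-- the angles divided by `π` -/
noncomputable def Residue_ang (a b : ℝ) : Fin 3 → ℝ := ![a, b, 1 - a - b]

theorem Residue_vertex {a b : ℝ} (ha : 0 < a) (hb : 0 < b) (hab : a + b < 1) (k : Fin 3) :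
    ∃ A B : ℂ, body (tri a b) = Green_K (tri a b k) A B ∧ ∃ ρ > 0, ∀ φ : ℝ → ℝ,
      (∀ r, ρ ≤ r → φ r = 0) → ∫ y in Green_K (tri a b k) A B, φ ‖y - tri a b k‖ =
        (π * Residue_ang a b k) * ∫ r in Set.Ioi (0 : ℝ), r * φ r := by
  have hpi := Real.pi_pos
  have hsa : 0 < Real.sin (π * a) :=
    Real.sin_pos_of_pos_of_lt_pi (by positivity) (by nlinarith)
  have hsb : 0 < Real.sin (π * b) :=
    Real.sin_pos_of_pos_of_lt_pi (by positivity) (by nlinarith)
  have hsab : 0 < Real.sin (π * (a + b)) :=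
    Real.sin_pos_of_pos_of_lt_pi (by positivity) (by nlinarith)
  have him := tau_im_pos ha hb hab
  have hts := tau_sub_one ha hb hab
  obtain ⟨hr1, hr2⟩ := Residue_K_rot (tri a b)
  have hB := Green_body (tri a b)
  have v0 : tri a b 0 = 0 := rfl
  have v1 : tri a b 1 = 1 := rfl
  have v2 : tri a b 2 = tau a b := rfl
  have hE : ∀ x : ℂ, Complex.exp x ≠ 0 := Complex.exp_ne_zero
  set l1 : ℝ := Real.sin (π * b) / Real.sin (π * (a + b)) with hl1
  set l2 : ℝ := Real.sin (π * a) / Real.sin (π * (a + b)) with hl2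
  have hl1p : 0 < l1 := by rw [hl1]; positivity
  have hl2p : 0 < l2 := by rw [hl2]; positivity
  have hl1c : (l1 : ℂ) ≠ 0 := by exact_mod_cast hl1p.ne'
  have hl2c : (l2 : ℂ) ≠ 0 := by exact_mod_cast hl2p.ne'
  have htau : tau a b = (l1 : ℂ) * Complex.exp (π * a * Complex.I) := rfl
  fin_cases k
  · refine ⟨tri a b 1 - tri a b 0, tri a b 2 - tri a b 0, hB, ?_⟩
    refine Residue_sector (l := l1) (θ := π * a) ?_ hl1p (by positivity) (by nlinarith) ?_
    · rw [v0, v1]; simp
    · rw [v0, v1, v2, htau]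
      push_cast
      ring
  · refine ⟨tri a b 2 - tri a b 1, tri a b 0 - tri a b 1, hB.trans hr1, ?_⟩
    refine Residue_sector (l := 1 / l2) (θ := π * b) ?_ (by positivity) (by positivity)
      (by nlinarith) ?_
    · rw [v2, v1, hts]
      exact mul_ne_zero (neg_ne_zero.mpr hl2c) (hE _)
    · rw [v2, v1, v0, hts]
      have e1 : Complex.exp (-(π * b) * Complex.I) * Complex.exp (((π * b : ℝ) : ℂ) *
          Complex.I) = 1 := by
        rw [← Complex.exp_add]
        simp
      have e2 : ((1 / l2 : ℝ) : ℂ) * (-(l2 : ℂ) * Complex.exp (-(π * b) * Complex.I)) *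
          Complex.exp (((π * b : ℝ) : ℂ) * Complex.I) =
          -(((1 / l2 : ℝ) : ℂ) * l2) * (Complex.exp (-(π * b) * Complex.I) *
            Complex.exp (((π * b : ℝ) : ℂ) * Complex.I)) := by ring
      rw [e2, e1]
      push_cast
      rw [one_div, inv_mul_cancel₀ hl2c]
      ring
  · refine ⟨tri a b 0 - tri a b 2, tri a b 1 - tri a b 2, hB.trans hr2, ?_⟩
    refine Residue_sector (l := l2 / l1) (θ := π * (1 - a - b)) ?_ (by positivity)
      (by have : 0 < 1 - a - b := by linarith
          positivity) (by nlinarith) ?_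
    · rw [v2, v0, htau, zero_sub]
      exact neg_ne_zero.mpr (mul_ne_zero hl1c (hE _))
    · have e1 : Complex.exp (π * a * Complex.I) * Complex.exp (((π * (1 - a - b) : ℝ) : ℂ) *
          Complex.I) = - Complex.exp (-(π * b) * Complex.I) := by
        rw [← Complex.exp_add]
        have : (π * a * Complex.I : ℂ) + ((π * (1 - a - b) : ℝ) : ℂ) * Complex.I =
            π * Complex.I + -(π * b) * Complex.I := by
          push_cast; ring
        rw [this, Complex.exp_add, Complex.exp_pi_mul_I]
        ring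
      have e2 : (1 : ℂ) - tau a b = l2 * Complex.exp (-(π * b) * Complex.I) := by
        have : (1 : ℂ) - tau a b = -(tau a b - 1) := by ring
        rw [this, hts]; ring
      rw [v2, v0, v1, e2, zero_sub, htau]
      have e3 : ((l2 / l1 : ℝ) : ℂ) * -((l1 : ℂ) * Complex.exp (π * a * Complex.I)) *
          Complex.exp (((π * (1 - a - b) : ℝ) : ℂ) * Complex.I) =
          -(l2 : ℂ) * (Complex.exp (π * a * Complex.I) *
            Complex.exp (((π * (1 - a - b) : ℝ) : ℂ) * Complex.I)) := by
        push_cast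
        field_simp
      rw [e3, e1]
      ring

theorem Residue_sep {a b : ℝ} (ha : 0 < a) (hb : 0 < b) (hab : a + b < 1) :
    ∃ d > 0, ∀ j k : Fin 3, j ≠ k → 2 * d ≤ ‖tri a b j - tri a b k‖ := by
  have him := tau_im_pos ha hb hab
  have h1 : 0 < ‖tau a b‖ := by
    rw [norm_pos_iff]
    intro h
    rw [h] at him
    simp at him
  have h2 : 0 < ‖tau a b - 1‖ := by
    rw [norm_pos_iff]
    intro h
    have : tau a b = 1 := sub_eq_zero.mp h
    rw [this] at him
    simp at him
  refine ⟨min 1 (min ‖tau a b‖ ‖tau a b - 1‖) / 2, by positivity, ?_⟩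
  have h3 : min 1 (min ‖tau a b‖ ‖tau a b - 1‖) ≤ 1 := min_le_left _ _
  have h4 : min 1 (min ‖tau a b‖ ‖tau a b - 1‖) ≤ ‖tau a b‖ :=
    (min_le_right _ _).trans (min_le_left _ _)
  have h5 : min 1 (min ‖tau a b‖ ‖tau a b - 1‖) ≤ ‖tau a b - 1‖ :=
    (min_le_right _ _).trans (min_le_right _ _)
  have h6 : ‖(1 : ℂ) - tau a b‖ = ‖tau a b - 1‖ := norm_sub_rev _ _
  intro j k hjk
  fin_cases j <;> fin_cases k <;> simp [tri] at hjk ⊢ <;> linarith

theorem residue {a b : ℝ} (ha : 0 < a) (hb : 0 < b) (hab : a + b < 1) {ph ph1 ph2 : ℂ → ℂ}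
    (hd : ∀ y ∈ body (tri a b) \ Set.range (tri a b),
      HasFDerivWithinAt ph (DD (ph1 y) (ph2 y)) (body (tri a b)) y)
    (h1 : ContinuousOn ph1 (body (tri a b) \ Set.range (tri a b)))
    (h2 : ContinuousOn ph2 (body (tri a b) \ Set.range (tri a b)))
    (hint : IntegrableOn ph2 (body (tri a b)))
    (hedge : ∀ k : Fin 3, ∀ y ∈ edge (tri a b) k \ Set.range (tri a b),
      (ph y * (tri a b (k + 2) - tri a b (k + 1))).im = 0)
    (C : Fin 3 → ℂ)
    (hC : ∀ k : Fin 3, Tendsto (fun y => (y - tri a b k) * ph y)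
      (𝓝[body (tri a b) \ Set.range (tri a b)] (tri a b k)) (𝓝 (C k))) :
    (∫ y in body (tri a b), ph2 y).re =
      -(π / 2) * (a * (C 0).re + b * (C 1).re + (1 - a - b) * (C 2).re) := by
  obtain ⟨lam, _, hc1, hc2, hbd, hmono, hδ, hone, _⟩ := exists_radial_cutoffs
  choose δ hδp hδz using hδ
  set R : ℕ → ℝ := fun n => Real.exp (-(n : ℝ) - 1) with hRd
  have hRp : ∀ n, 0 < R n := fun n => Real.exp_pos _
  have hCut : ∀ n, Residue_Cut (lam n) (δ n) (R n) := fun n =>
    ⟨hc1 n, hc2 n, hbd n, hmono n, hδp n, hδz n, hone n⟩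
  have hRlim : Tendsto R atTop (𝓝 0) := by
    refine Real.tendsto_exp_atBot.comp ?_
    have h3 : Tendsto (fun n : ℕ => -(n : ℝ)) atTop atBot :=
      tendsto_neg_atTop_atBot.comp tendsto_natCast_atTop_atTop
    simpa [sub_eq_add_neg] using tendsto_atBot_add_const_right atTop (-1 : ℝ) h3
  have hRev : ∀ x : ℝ, 0 < x → ∀ᶠ n in atTop, R n < x := fun x hx =>
    hRlim.eventually (gt_mem_nhds hx)
  obtain ⟨d, hdp, hsep⟩ := Residue_sep ha hb hab
  set V := Set.range (tri a b) with hVd
  set T := body (tri a b) with hT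
  have hVfin : V.Finite := Set.finite_range _
  have hcomp : IsCompact T := (Set.finite_range _).isCompact_convexHull ℝ
  have hTmeas : MeasurableSet T := hcomp.isClosed.measurableSet
  have hphc : ContinuousOn ph (T \ V) := fun y hy =>
    (hd y hy).continuousWithinAt.mono Set.sdiff_subset
  -- the cutoff function
  set c : ℕ → ℂ → ℝ := fun n y => ∑ k : Fin 3, lam n ‖y - tri a b k‖ - 2 with hcd
  have hcC : ∀ n, ContDiff ℝ 1 (c n) := by
    intro n
    refine ContDiff.sub (ContDiff.sum fun k _ => ?_) contDiff_const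
    exact (hc1 n).comp (contDiff_id.sub contDiff_const)
  have hfar : ∀ n, R n < d → ∀ j k : Fin 3, j ≠ k → ∀ y, ‖y - tri a b j‖ < d →
      R n < ‖y - tri a b k‖ := by
    intro n hn j k hjk y hy
    have h3 := hsep j k hjk
    have h4 : ‖tri a b j - tri a b k‖ ≤ ‖y - tri a b j‖ + ‖y - tri a b k‖ := by
      rw [norm_sub_rev y (tri a b j)]
      exact norm_sub_le_norm_sub_add_norm_sub _ _ _
    linarith
  have hcV : ∀ n, R n < d → ∀ k, ∀ᶠ y in 𝓝 (tri a b k), c n y = 0 := by
    intro n hn k
    filter_upwards [Metric.ball_mem_nhds (tri a b k) (lt_min (hδp n) hdp)] with y hy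
    rw [Metric.mem_ball, dist_eq_norm, lt_min_iff] at hy
    have h3 : ∀ j, lam n ‖y - tri a b j‖ = if j = k then 0 else 1 := by
      intro j
      by_cases hjk : j = k
      · rw [if_pos hjk, hjk]
        exact hδz n _ hy.1
      · rw [if_neg hjk]
        exact hone n _ (hfar n hn k j (Ne.symm hjk) y hy.2).le
    have h5 : ∑ j : Fin 3, (if j = k then (0 : ℝ) else 1) = 2 := by
      have h6 : ∀ j : Fin 3, (if j = k then (0 : ℝ) else 1) = 1 - (if j = k then 1 else 0) := by
        intro j
        by_cases hjk : j = k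
        · rw [if_pos hjk, if_pos hjk]; ring
        · rw [if_neg hjk, if_neg hjk]; ring
      simp only [h6, Finset.sum_sub_distrib, Finset.sum_ite_eq', Finset.mem_univ, if_true]
      simp
      norm_num
    simp only [hcd, h3, h5, sub_self]
  -- the derivative of the cutoff function
  have hder : ∀ n y, (((fderiv ℝ (c n) y 1 : ℝ) : ℂ) +
      Complex.I * (fderiv ℝ (c n) y Complex.I : ℝ)) / 2 =
      ∑ k : Fin 3, (Residue_W (lam n) (tri a b k) y : ℂ) * (y - tri a b k) := by
    intro n y
    have h3 : HasFDerivAt (c n) (∑ k : Fin 3, (2 * Residue_W (lam n) (tri a b k) y) •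
      ((y - tri a b k).re • Complex.reCLM + (y - tri a b k).im • Complex.imCLM)) y := by
      have h4 := (HasFDerivAt.fun_sum (u := Finset.univ) fun k _ =>
        (hCut n).hasFDerivAt (tri a b k) y).sub_const 2
      exact h4
    rw [h3.fderiv]
    simp only [sum_apply, smul_apply, add_apply, Complex.reCLM_apply,
      Complex.imCLM_apply, Complex.one_re, Complex.one_im, Complex.I_re, Complex.I_im,
      smul_eq_mul, mul_one, mul_zero, add_zero, zero_add]
    rw [Fin.sum_univ_three, Fin.sum_univ_three, Fin.sum_univ_three]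
    push_cast
    have e0 := Complex.re_add_im (y - tri a b 0)
    have e1 := Complex.re_add_im (y - tri a b 1)
    have e2 := Complex.re_add_im (y - tri a b 2)
    linear_combination (Residue_W (lam n) (tri a b 0) y : ℂ) * e0 +
      (Residue_W (lam n) (tri a b 1) y : ℂ) * e1 + (Residue_W (lam n) (tri a b 2) y : ℂ) * e2
  -- integrability
  have hint1 : ∀ n, IntegrableOn (fun y => (c n y : ℂ) * ph2 y) T := by
    intro n
    have h3 : ContinuousOn (fun y => (c n y : ℂ)) T :=
      (Complex.continuous_ofReal.comp (hcC n).continuous).continuousOn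
    exact IntegrableOn.continuousOn_mul h3 hint hcomp
  have hint2 : ∀ n, R n < d → ∀ k, IntegrableOn
      (fun y => (Residue_W (lam n) (tri a b k) y : ℂ) * ((y - tri a b k) * ph y)) T := by
    intro n hn k
    refine ContinuousOn.integrableOn_compact hcomp ?_
    intro y hy
    by_cases hyV : y ∈ V
    · have h3 : ∀ᶠ z in 𝓝 y, Residue_W (lam n) (tri a b k) z = 0 := by
        obtain ⟨j, rfl⟩ := hyV
        by_cases hjk : j = k
        · rw [hjk]
          filter_upwards [Metric.ball_mem_nhds (tri a b k) (hδp n)] with z hz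
          rw [Metric.mem_ball, dist_eq_norm] at hz
          exact (hCut n).W_in hz
        · filter_upwards [Metric.ball_mem_nhds (tri a b j) hdp] with z hz
          rw [Metric.mem_ball, dist_eq_norm] at hz
          exact (hCut n).W_out (hfar n hn j k hjk z hz)
      have h4 : (fun y => (Residue_W (lam n) (tri a b k) y : ℂ) * ((y - tri a b k) * ph y))
          =ᶠ[𝓝 y] fun _ => 0 := by
        filter_upwards [h3] with z hz
        rw [hz]; simp
      exact h4.continuousAt.continuousWithinAt
    · have h3 : ContinuousOn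
          (fun y => (Residue_W (lam n) (tri a b k) y : ℂ) * ((y - tri a b k) * ph y)) (T \ V) := by
        refine ContinuousOn.mul ?_ (ContinuousOn.mul (by fun_prop) hphc)
        exact (Complex.continuous_ofReal.comp ((hCut n).continuous_W _)).continuousOn
      refine (h3 y ⟨hy, hyV⟩).mono_of_mem_nhdsWithin ?_
      rw [Set.sdiff_eq]
      exact inter_mem self_mem_nhdsWithin
        (mem_nhdsWithin_of_mem_nhds (hVfin.isClosed.isOpen_compl.mem_nhds hyV))
  -- the identity for every large `n`
  have hkey : ∀ n, R n < d → (∫ y in T, (c n y : ℂ) * ph2 y).re +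
      ∑ k : Fin 3, (∫ y in T, (Residue_W (lam n) (tri a b k) y : ℂ) *
        ((y - tri a b k) * ph y)).re = 0 := by
    intro n hn
    have h3 := Residue_cut_green ha hb hab hd h1 h2 hedge (c n) (hcC n) (hcV n hn)
    have h4 : ∫ y in T, ((c n y : ℂ) * ph2 y +
        (((fderiv ℝ (c n) y 1 : ℝ) : ℂ) + Complex.I * (fderiv ℝ (c n) y Complex.I : ℝ)) / 2 *
          ph y) = (∫ y in T, (c n y : ℂ) * ph2 y) + ∑ k : Fin 3, ∫ y in T,
            (Residue_W (lam n) (tri a b k) y : ℂ) * ((y - tri a b k) * ph y) := by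
      rw [← integral_finsetSum _ (fun k _ => hint2 n hn k),
        ← integral_add (hint1 n) (integrable_finsetSum _ (fun k _ => hint2 n hn k))]
      congr 1
      ext y
      rw [hder n y, Finset.sum_mul]
      congr 1
      refine Finset.sum_congr rfl fun k _ => ?_
      ring
    rw [h4, Complex.add_re, Complex.re_sum] at h3
    exact h3
  -- limits
  have hlim1 : Tendsto (fun n => (∫ y in T, (c n y : ℂ) * ph2 y).re) atTop
      (𝓝 (∫ y in T, ph2 y).re) := by
    refine (Complex.continuous_re.tendsto _).comp ?_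
    refine tendsto_integral_of_dominated_convergence (fun y => 2 * ‖ph2 y‖)
      (fun n => (hint1 n).aestronglyMeasurable) (hint.norm.const_mul 2) ?_ ?_
    · intro n
      refine Eventually.of_forall fun y => ?_
      rw [norm_mul, Complex.norm_real]
      refine mul_le_mul_of_nonneg_right ?_ (norm_nonneg _)
      rw [Real.norm_eq_abs, abs_le]
      simp only [hcd]
      rw [Fin.sum_univ_three]
      have b0 := hbd n ‖y - tri a b 0‖
      have b1 := hbd n ‖y - tri a b 1‖
      have b2 := hbd n ‖y - tri a b 2‖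
      constructor <;> linarith
    · have hV0 : ∀ᵐ y ∂(volume.restrict T), y ∉ V := by
        refine ae_restrict_of_ae ?_
        exact (measure_eq_zero_iff_ae_notMem).mp (hVfin.measure_zero volume)
      filter_upwards [hV0] with y hy
      have h3 : ∀ᶠ n in atTop, ∀ k : Fin 3, R n < ‖y - tri a b k‖ := by
        rw [eventually_all]
        intro k
        refine hRev _ ?_
        rw [norm_pos_iff, sub_ne_zero]
        rintro rfl
        exact hy ⟨k, rfl⟩
      refine tendsto_const_nhds.congr' ?_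
      filter_upwards [h3] with n hn
      have h4 : c n y = 1 := by
        simp only [hcd]
        rw [Fin.sum_univ_three, hone n _ (hn 0).le, hone n _ (hn 1).le, hone n _ (hn 2).le]
        norm_num
      rw [h4]; simp
  have hlim2 : ∀ k : Fin 3, Tendsto (fun n => (∫ y in T,
      (Residue_W (lam n) (tri a b k) y : ℂ) * ((y - tri a b k) * ph y)).re) atTop
      (𝓝 (((π * Residue_ang a b k / 2 : ℝ) : ℂ) * C k).re) := by
    intro k
    refine (Complex.continuous_re.tendsto _).comp ?_
    obtain ⟨A, B, hTK, ρ, hρ, hsec⟩ := Residue_vertex ha hb hab k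
    have hθ : 0 < π * Residue_ang a b k := by
      have : 0 < Residue_ang a b k := by
        fin_cases k
        · exact ha
        · exact hb
        · change 0 < 1 - a - b
          linarith
      positivity
    rw [Metric.tendsto_nhds]
    intro ε hε
    have hε' : 0 < ε / (π * Residue_ang a b k) := by positivity
    have h3 := (Metric.tendsto_nhdsWithin_nhds.mp (hC k)) _ hε'
    obtain ⟨η, hη, h4⟩ := h3
    filter_upwards [hRev d hdp, hRev ρ hρ, hRev η hη] with n hn1 hn2 hn3
    rw [dist_eq_norm]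
    have h5 := (hCut n).integral_Wg (hRp n) hn2 hsec (g := fun y => (y - tri a b k) * ph y)
      (C := C k) (ε := ε / (π * Residue_ang a b k)) (by rw [← hTK]; exact hint2 n hn1 k) (by
        intro y hy hW
        rw [← hTK] at hy
        have h6 : ‖y - tri a b k‖ ≤ R n := by
          by_contra hcon
          push Not at hcon
          exact hW ((hCut n).W_out hcon)
        have h7 : y ∉ V := by
          rintro ⟨j, rfl⟩
          by_cases hjk : j = k
          · rw [hjk] at hW
            refine hW ((hCut n).W_in ?_)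
            rw [sub_self, norm_zero]
            exact hδp n
          · have := hsep j k hjk
            linarith
        have h8 := h4 ⟨hy, h7⟩ (by rw [dist_eq_norm]; exact lt_of_le_of_lt h6 hn3)
        rw [dist_eq_norm] at h8
        exact h8.le)
    rw [← hTK] at h5
    refine lt_of_le_of_lt h5 ?_
    have hgen : ∀ t : ℝ, 0 < t → ε / t * (t / 2) = ε / 2 := by
      intro t ht
      field_simp
    rw [hgen _ hθ]
    linarith
  have hlim3 := hlim1.add (tendsto_finsetSum Finset.univ fun k _ => hlim2 k)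
  have hlim4 : Tendsto (fun n => (∫ y in T, (c n y : ℂ) * ph2 y).re +
      ∑ k : Fin 3, (∫ y in T, (Residue_W (lam n) (tri a b k) y : ℂ) *
        ((y - tri a b k) * ph y)).re) atTop (𝓝 0) := by
    refine tendsto_const_nhds.congr' ?_
    filter_upwards [hRev d hdp] with n hn
    exact (hkey n hn).symm
  have hfin := tendsto_nhds_unique hlim3 hlim4
  rw [Fin.sum_univ_three, Complex.re_ofReal_mul, Complex.re_ofReal_mul, Complex.re_ofReal_mul]
    at hfin
  have a0 : Residue_ang a b 0 = a := rfl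
  have a1 : Residue_ang a b 1 = b := rfl
  have a2 : Residue_ang a b 2 = 1 - a - b := rfl
  rw [a0, a1, a2] at hfin
  linarith

end Pool.Agent.OBT
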