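import Mathlib
import Pool.Agent.OBT.PhiNice
import Pool.Agent.OBT.Form4
import Pool.Agent.OBT.Residue

/-!
# The evaluation of the coefficients
-/

open scoped ComplexConjugate Topology Real
open MeasureTheory Filter

namespace Pool.Agent.OBT

noncomputable section

/-- the three angles of the form `j` -/
def AL (N p q j : ℕ) (k : Fin 3) : ℝ := ![ag N p j, ag N q j, 1 - ag N p j - ag N q j] k

/-- denominators -/
def dl (a b : ℝ) (e1 e2 : ℕ) (k : Fin 3) : ℝ := ![1 - a - e1, 1 - b - e2, 1 - a - b - e1 - e2] k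

variable {N p q : ℕ}

theorem KMain_mul {f g : ℂ → ℂ} {p q p' q' : ℂ} {s : Set ℂ} {y : ℂ}
    (hf : HasFDerivWithinAt f (DD p q) s y) (hg : HasFDerivWithinAt g (DD p' q') s y) :
    HasFDerivWithinAt (fun y => f y * g y)
      (DD (f y * p' + g y * p) (f y * q' + g y * q)) s y := by
  refine (hf.mul hg).congr_fderiv ?_
  refine ContinuousLinearMap.ext fun h => ?_
  simp only [DD_apply, add_apply, smul_apply, smul_eq_mul]
  ring

theorem KMain_im {v : Fin 3 → ℂ} {k : Fin 3} (hk : v (k + 1) ≠ v (k + 2)) {z : ℂ}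
    (h : z = (chi v k)⁻¹ * conj z) : (z * (v (k + 2) - v (k + 1))).im = 0 := by
  have hD : v (k + 2) - v (k + 1) ≠ 0 := sub_ne_zero.2 hk.symm
  rw [chi_eq k hk, inv_div] at h
  rw [← Complex.conj_eq_iff_im, map_mul]
  nth_rewrite 2 [h]
  field_simp

theorem KMain_pow {x : ℂ} (hx0 : x ≠ 0) (hx : x ^ N = 1) {i j M : ℕ}
    (hM : i + j ≡ 2 * (M + 1) [MOD N]) :
    x ^ (((i : ℤ) - 1) - (M : ℤ) - ((M + 1 : ℕ) : ℤ)) * x ^ ((j : ℤ) - 1) = x⁻¹ := by
  have h1 : ((i + j : ℕ) : ℤ) ≡ ((2 * (M + 1) : ℕ) : ℤ) [ZMOD N] := (Int.natCast_modEq_iff).2 hM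
  obtain ⟨t, ht⟩ := h1.symm.dvd
  have h2 : ((i : ℤ) - 1) - (M : ℤ) - ((M + 1 : ℕ) : ℤ) + ((j : ℤ) - 1) = (N : ℤ) * t + (-1) := by
    push_cast at ht ⊢
    linarith
  rw [← zpow_add₀ hx0, h2, zpow_add₀ hx0, zpow_mul, zpow_natCast, hx, one_zpow, one_mul, zpow_neg,
    zpow_one]

theorem KMain_sgn (z : ℤ) : Complex.exp (π * (z : ℝ) * Complex.I) = (((-1 : ℝ) ^ z : ℝ) : ℂ) := by
  have h : (π * (z : ℝ) * Complex.I : ℂ) = (z : ℂ) * (π * Complex.I) := by push_cast; ring
  rw [h, Complex.exp_int_mul, Complex.exp_pi_mul_I]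
  push_cast
  rfl

theorem KMain_neg (n m : ℤ) : ((-1 : ℝ) ^ (-n + m)) = (-1) ^ (n + m) := by
  rw [zpow_add₀ (by norm_num), zpow_add₀ (by norm_num), zpow_neg]
  congr 1
  rcases Int.even_or_odd n with h | h
  · rw [h.neg_one_zpow, inv_one]
  · rw [h.neg_one_zpow]; norm_num

theorem KMain_c0 (κ s d : ℂ) (M : ℕ) : 1 * (κ / d) ^ (M + 1) / ((M + 1).factorial : ℂ) * s ^ M * 1 / s =
    κ ^ (M + 1) * s ^ M / s / ((M + 1).factorial : ℂ) * (1 * (1 / d) ^ (M + 1)) := by
  rw [div_pow, div_pow, one_pow]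
  ring

theorem KMain_c1 (κ s d : ℂ) (M : ℕ) :
    1 * (-κ / d) ^ (M + 1) / ((M + 1).factorial : ℂ) * (-s) ^ M * 1 / -s =
    κ ^ (M + 1) * s ^ M / s / ((M + 1).factorial : ℂ) * (1 * (1 / d) ^ (M + 1)) := by
  have h1 : (-κ) ^ (M + 1) = (-1) ^ (M + 1) * κ ^ (M + 1) := neg_pow κ (M + 1)
  have h2 : (-s) ^ M = (-1) ^ M * s ^ M := neg_pow s M
  have h3 : ((-1 : ℂ)) ^ M * (-1) ^ M = 1 := by rw [← mul_pow]; norm_num
  rw [div_pow, div_pow, one_pow, h1, h2, pow_succ (-1 : ℂ) M, div_neg]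
  linear_combination (κ ^ (M + 1) * s ^ M / s / ((M + 1).factorial : ℂ) * (1 / d ^ (M + 1))) * h3

theorem KMain_c2 {κ s d u1 u2 g1 g2 σ : ℂ} (M : ℕ) (hg2 : g2 ≠ 0)
    (h : u1 * u2 * g1 ^ (M + 1) * g2 ^ M = σ * g2) :
    u1 * (κ * g1 / d) ^ (M + 1) / ((M + 1).factorial : ℂ) * (s * g2) ^ M * u2 / (s * g2) =
    κ ^ (M + 1) * s ^ M / s / ((M + 1).factorial : ℂ) * (σ * (1 / d) ^ (M + 1)) := by
  have h' : u1 * u2 * g1 ^ (M + 1) * g2 ^ M / g2 = σ := by
    rw [h, mul_div_assoc, div_self hg2, mul_one]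
  rw [← h', div_pow, div_pow, one_pow, mul_pow, mul_pow]
  ring

theorem KMain_phase {B B' b : ℝ} {e2 M : ℕ} {n2 : ℤ}
    (hn2 : (n2 : ℝ) = B + B' + 2 * b - 2 * (M + 1) * b) :
    Complex.exp (-(π * B) * Complex.I) * Complex.exp (-(π * B') * Complex.I) *
      Complex.exp (π * (b + e2) * Complex.I) ^ (M + 1) * Complex.exp (π * b * Complex.I) ^ M =
    (((-1 : ℝ) ^ (n2 + e2 * (M + 1)) : ℝ) : ℂ) * Complex.exp (π * b * Complex.I) := by
  have h1 : ((-1 : ℝ) ^ (n2 + e2 * (M + 1))) = (-1) ^ (-n2 + e2 * (M + 1)) := (KMain_neg _ _).symm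
  rw [h1, ← KMain_sgn, ← Complex.exp_nat_mul, ← Complex.exp_nat_mul, ← Complex.exp_add,
    ← Complex.exp_add, ← Complex.exp_add, ← Complex.exp_add]
  congr 1
  have h2 : ((n2 : ℝ) : ℂ) = B + B' + 2 * b - 2 * (M + 1) * b := by rw [hn2]; push_cast; ring
  push_cast at h2 ⊢
  linear_combination (-(π : ℂ) * Complex.I) * (-h2)

/-- the coefficient at the vertex `k` -/
theorem KMain_coef {a b κ B B' s : ℝ} {e1 e2 M : ℕ} (hs : bet a b = s) {n2 : ℤ}
    (hn2 : (n2 : ℝ) = B + B' + 2 * b - 2 * (M + 1) * b) (k : Fin 3) :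
    lm B k * gam a b e1 e2 κ k ^ (M + 1) / ((M + 1).factorial : ℂ) * bb a b k ^ M * lm B' k /
        bb a b k =
      ((κ ^ (M + 1) * s ^ M / s / ((M + 1).factorial : ℝ) *
        ((![1, 1, (-1) ^ (n2 + e2 * (M + 1))] : Fin 3 → ℝ) k *
          (1 / dl a b e1 e2 k) ^ (M + 1)) : ℝ) : ℂ) := by
  fin_cases k
  · show (1 : ℂ) * ((κ : ℂ) / (1 - a - e1)) ^ (M + 1) / ((M + 1).factorial : ℂ) * bet a b ^ M * 1 /
      bet a b = ((κ ^ (M + 1) * s ^ M / s / ((M + 1).factorial : ℝ) *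
        (1 * (1 / (1 - a - e1)) ^ (M + 1)) : ℝ) : ℂ)
    rw [hs, KMain_c0]
    push_cast
    ring
  · show (1 : ℂ) * (-(κ : ℂ) / (1 - b - e2)) ^ (M + 1) / ((M + 1).factorial : ℂ) *
      (-bet a b) ^ M * 1 / -bet a b = ((κ ^ (M + 1) * s ^ M / s / ((M + 1).factorial : ℝ) *
        (1 * (1 / (1 - b - e2)) ^ (M + 1)) : ℝ) : ℂ)
    rw [hs, KMain_c1]
    push_cast
    ring
  · show Complex.exp (-(π * B) * Complex.I) * ((κ : ℂ) * Complex.exp (π * (b + e2) * Complex.I) /
      (1 - a - b - e1 - e2)) ^ (M + 1) / ((M + 1).factorial : ℂ) *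
      (bet a b * Complex.exp (π * b * Complex.I)) ^ M * Complex.exp (-(π * B') * Complex.I) /
      (bet a b * Complex.exp (π * b * Complex.I)) =
      ((κ ^ (M + 1) * s ^ M / s / ((M + 1).factorial : ℝ) *
        ((-1) ^ (n2 + e2 * (M + 1)) * (1 / (1 - a - b - e1 - e2)) ^ (M + 1)) : ℝ) : ℂ)
    rw [hs, KMain_c2 M (Complex.exp_ne_zero _) (KMain_phase hn2)]
    push_cast
    ring

theorem KMain_AL {i : ℕ} (k : Fin 3) :
    om (ag N p i - (p : ℝ) / N) (ag N q i - (q : ℝ) / N) k + alv ((p : ℝ) / N) ((q : ℝ) / N) k =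
      AL N p q i k := by
  fin_cases k
  · show ag N p i - (p : ℝ) / N + (p : ℝ) / N = ag N p i
    ring
  · show ag N q i - (q : ℝ) / N + (q : ℝ) / N = ag N q i
    ring
  · show -(ag N p i - (p : ℝ) / N + (ag N q i - (q : ℝ) / N)) + (1 - (p : ℝ) / N - (q : ℝ) / N) =
      1 - ag N p i - ag N q i
    ring

theorem KMain_AL_pos (hN : 0 < N) {i : ℕ} (h : Hol N p q i) (k : Fin 3) : 0 < AL N p q i k := by
  have hN' : (0 : ℝ) < N := by exact_mod_cast hN
  obtain ⟨h1, h2, h3⟩ := h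
  have h1' : (0 : ℝ) < ((i * p % N : ℕ) : ℝ) := by exact_mod_cast h1
  have h2' : (0 : ℝ) < ((i * q % N : ℕ) : ℝ) := by exact_mod_cast h2
  have h3' : ((i * p % N : ℕ) : ℝ) + ((i * q % N : ℕ) : ℝ) < N := by exact_mod_cast h3
  fin_cases k
  · show 0 < ag N p i
    exact div_pos h1' hN'
  · show 0 < ag N q i
    exact div_pos h2' hN'
  · show 0 < 1 - ag N p i - ag N q i
    unfold ag
    have : ((i * p % N : ℕ) : ℝ) / N + ((i * q % N : ℕ) : ℝ) / N < 1 := by
      rw [← add_div, div_lt_one hN']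
      exact h3'
    linarith

/-- **Theorem K.** -/
theorem K_main (hp : 0 < p) (hq : 0 < q) (hN : 2 * (p + q) < N)
    (hg : Nat.gcd (Nat.gcd p q) N = 1) (hL : LatticeTriangle (TN N p q)) {i j : ℕ}
    (hu : Nat.Coprime i N ∨ Nat.Coprime j N) (hHi : Hol N p q i) (hHj : Hol N p q j)
    (hij : ¬ i ≡ j [MOD N]) (M : ℕ) (hM : i + j ≡ 2 * (M + 1) [MOD N]) (e1 e2 : ℕ) (he1 : e1 ≤ 1) (he2 : e2 ≤ 1)
    (hcond : ∀ k, omw ((p : ℝ) / N) ((q : ℝ) / N) e1 e2 k < alv ((p : ℝ) / N) ((q : ℝ) / N) k →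
      M * (alv ((p : ℝ) / N) ((q : ℝ) / N) k - omw ((p : ℝ) / N) ((q : ℝ) / N) e1 e2 k) ≤
        AL N p q i k)
    (hn : ∀ k, omw ((p : ℝ) / N) ((q : ℝ) / N) e1 e2 k < alv ((p : ℝ) / N) ((q : ℝ) / N) k →
      (M + 1) * (alv ((p : ℝ) / N) ((q : ℝ) / N) k - omw ((p : ℝ) / N) ((q : ℝ) / N) e1 e2 k) ≤
        AL N p q i k + AL N p q j k)
    (n2 : ℤ) (hn2 : (n2 : ℝ) = ag N q i + ag N q j - 2 * (M + 1) * ((q : ℝ) / N)) :
    ∑ k : Fin 3, (open Classical in
      if omw ((p : ℝ) / N) ((q : ℝ) / N) e1 e2 k < alv ((p : ℝ) / N) ((q : ℝ) / N) k ∧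
        AL N p q i k + AL N p q j k = (M + 1) *
          (alv ((p : ℝ) / N) ((q : ℝ) / N) k - omw ((p : ℝ) / N) ((q : ℝ) / N) e1 e2 k)
      then (![1, 1, (-1) ^ (n2 + e2 * (M + 1))] : Fin 3 → ℝ) k *
        (1 / dl ((p : ℝ) / N) ((q : ℝ) / N) e1 e2 k) ^ (M + 1) *
        ∏ l ∈ Finset.Icc 1 M, (l * alv ((p : ℝ) / N) ((q : ℝ) / N) k - AL N p q j k)
      else 0) = 0 := by
  classical
  have hN0 : 0 < N := by omega
  have hNR : (0 : ℝ) < N := by exact_mod_cast hN0
  have hpq : p + q < N := by omega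
  have ha : 0 < (p : ℝ) / N := div_pos (by exact_mod_cast hp) hNR
  have hb : 0 < (q : ℝ) / N := div_pos (by exact_mod_cast hq) hNR
  have hab : (p : ℝ) / N + (q : ℝ) / N < 1 / 2 := by
    rw [← add_div, div_lt_div_iff₀ hNR two_pos]
    have : ((2 * (p + q) : ℕ) : ℝ) < N := by exact_mod_cast hN
    push_cast at this
    linarith
  have hab1 : (p : ℝ) / N + (q : ℝ) / N < 1 := by linarith
  have hALi := KMain_AL (N := N) (p := p) (q := q) (i := i)
  have hALj := KMain_AL (N := N) (p := p) (q := q) (i := j)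
  have hALip := KMain_AL_pos hN0 hHi
  have hALjp := KMain_AL_pos hN0 hHj
  have hphi := phase_FF hp hq hpq i
  have hphj := phase_FF hp hq hpq j
  have hLpj := memLp_FF hp hq hpq hHj
  have hLpi := memLp_FF hp hq hpq hHi
  have hchiN : ∀ k, chi (TN N p q) k ^ N = 1 := fun k => uu_pow_N hp hq hpq (r (TN N p q) k)
  have hchi0 : ∀ k, chi (TN N p q) k ≠ 0 := by
    intro k h0
    have := hchiN k
    rw [h0, zero_pow hN0.ne'] at this
    exact zero_ne_one this
  simp only [FF] at hphi hphj hLpj hLpi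
  simp only [TN] at hchiN hchi0 hphi hphj hLpj hLpi
  set a : ℝ := (p : ℝ) / N with ha_def
  set b : ℝ := (q : ℝ) / N with hb_def
  set A0 : ℝ := ag N p i - a with hA0
  set B0 : ℝ := ag N q i - b with hB0
  set A1 : ℝ := ag N p j - a with hA1
  set B1 : ℝ := ag N q j - b with hB1
  have halv : ∀ k, 0 < alv a b k := alv_pos ha hb hab1
  obtain ⟨κ, g, hW⟩ := exists_WData ha hb hab e1 e2 he1 he2
  obtain ⟨H, h, hH⟩ := exists_H ha hb hab e1 e2 he1 he2 κ A0 B0
  have h0 : ∀ k, -alv a b k < om A0 B0 k := by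
    intro k
    have := hALi k
    have := hALip k
    linarith
  -- the functions are nice
  have hX : ∀ m < M, NiceT a b ((i : ℤ) - 2 * ((m : ℤ) + 1)) (Phi g H (m + 1) m)
      (Phi g H (m + 1) (m + 1)) (Phi g H m m) := by
    intro m hm
    have e : (i : ℤ) - 2 * ((m : ℤ) + 1) = ((i : ℤ) - 1) - 2 * (m : ℤ) - 1 := by ring
    rw [e]
    refine niceT_Phi ha hb hab hH hW ((i : ℤ) - 1) (fun k y hy => hphi k hy) m h0 ?_
    intro k hk
    have h1 := hcond k hk
    rw [hALi k]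
    refine le_trans ?_ h1
    have h2 : (m : ℝ) + 1 ≤ M := by exact_mod_cast hm
    exact mul_le_mul_of_nonneg_right h2 (by linarith)
  have hX0 : (fun m => Phi g H m m) 0 = FF N p q i := by
    funext y
    exact Phi_zero hH y
  have crit := crit_iso2 hp hq hN hg hL hu hHi hHj hij M 0 hM (fun m => Phi g H m m)
    (fun m => Phi g H (m + 1) m) (fun _ => FF N p q j) (fun _ _ => 0) hX0 rfl hX
    (fun m hm => absurd hm (Nat.not_lt_zero m))
  -- `Phi g H M M` is square integrable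
  have hLX : MemLp (Phi g H M M) 2 (volume.restrict (body (tri a b))) := by
    rcases Nat.eq_zero_or_pos M with h1 | h1
    · have h2 : Phi g H 0 0 = MM a b A0 B0 := by
        funext y
        exact Phi_zero hH y
      rw [h1, h2]
      exact hLpi
    · obtain ⟨m, rfl⟩ : ∃ m, M = m + 1 := ⟨M - 1, by omega⟩
      exact (hX m (Nat.lt_succ_self m)).L2a
  set ph : ℂ → ℂ := fun y => Phi g H (M + 1) M y * MM a b A1 B1 y with hph
  set f1 : ℂ → ℂ := fun y => bet a b * (A1 * MM a b (A1 - a) (B1 + 1 - b) y -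
    B1 * MM a b (A1 + 1 - a) (B1 - b) y) with hf1
  have hd : ∀ y ∈ body (tri a b) \ Set.range (tri a b),
      HasFDerivWithinAt ph (DD (Phi g H (M + 1) M y * f1 y +
        MM a b A1 B1 y * Phi g H (M + 1) (M + 1) y) (Phi g H M M y * MM a b A1 B1 y))
        (body (tri a b)) y := by
    intro y hy
    refine (KMain_mul (hasFDerivWithinAt_Phi_succ hH hW M M hy)
      (hasFDerivWithinAt_MM ha hb hab1 A1 B1 hy)).congr_fderiv ?_
    rw [mul_zero, zero_add, mul_comm (MM a b A1 B1 y) (Phi g H M M y)]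
  have hc1 : ContinuousOn (fun y => Phi g H (M + 1) M y * f1 y +
      MM a b A1 B1 y * Phi g H (M + 1) (M + 1) y) (body (tri a b) \ Set.range (tri a b)) := by
    refine ((continuousOn_Phi hH hW (M + 1) M).mul (continuousOn_const.mul
      ((continuousOn_const.mul (continuousOn_MM ha hb hab1 _ _)).sub
        (continuousOn_const.mul (continuousOn_MM ha hb hab1 _ _))))).add
      ((continuousOn_MM ha hb hab1 _ _).mul (continuousOn_Phi hH hW (M + 1) (M + 1)))
  have hc2 : ContinuousOn (fun y => Phi g H M M y * MM a b A1 B1 y)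
      (body (tri a b) \ Set.range (tri a b)) :=
    (continuousOn_Phi hH hW M M).mul (continuousOn_MM ha hb hab1 _ _)
  have hint : IntegrableOn (fun y => Phi g H M M y * MM a b A1 B1 y) (body (tri a b)) :=
    MemLp.integrable_mul hLX hLpj
  have hedge : ∀ k : Fin 3, ∀ y ∈ edge (tri a b) k \ Set.range (tri a b),
      (ph y * (tri a b (k + 2) - tri a b (k + 1))).im = 0 := by
    intro k y hy
    refine KMain_im (tri_ne ha hb hab1 k) ?_
    have h1 := phase_Phi ha hb hab hH hW ((i : ℤ) - 1) (fun k y hy => hphi k hy) (M + 1) M k hy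
    have h2 := hphj k hy
    have h3 := KMain_pow (hchi0 k) (hchiN k) hM
    calc ph y = (chi (tri a b) k ^ (((i : ℤ) - 1) - (M : ℤ) - ((M + 1 : ℕ) : ℤ)) *
          conj (Phi g H (M + 1) M y)) * (chi (tri a b) k ^ ((j : ℤ) - 1) *
          conj (MM a b A1 B1 y)) := by rw [← h1, ← h2]
      _ = (chi (tri a b) k ^ (((i : ℤ) - 1) - (M : ℤ) - ((M + 1 : ℕ) : ℤ)) *
          chi (tri a b) k ^ ((j : ℤ) - 1)) * conj (ph y) := by
          rw [hph]
          simp only [map_mul]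
          ring
      _ = (chi (tri a b) k)⁻¹ * conj (ph y) := by rw [h3]
  -- leading terms
  set cc : Fin 3 → ℂ := fun k => lm B0 k * gam a b e1 e2 κ k ^ (M + 1) / (M + 1).factorial *
    bb a b k ^ M * (∏ s ∈ Finset.range M, (om A0 B0 k + ((M + 1 : ℕ) : ℝ) * omw a b e1 e2 k -
      s * alv a b k) : ℝ) * lm B1 k with hcc
  set Cd : Fin 3 → Prop := fun k => omw a b e1 e2 k < alv a b k ∧
        AL N p q i k + AL N p q j k = (M + 1) * (alv a b k - omw a b e1 e2 k) with hCd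
  have hlead : ∀ k, Lead a b k (-alv a b k) (if Cd k then cc k else 0) ph := by
    intro k
    have e1' := hALi k
    have e2' := hALj k
    have e3 := halv k
    by_cases hk : omw a b e1 e2 k < alv a b k
    · have h1 := (lead_Phi ha hb hab hH hW k hk (M + 1) M).mul ha hb hab1
        (lead_MM ha hb hab1 A1 B1 k)
      by_cases hk2 : AL N p q i k + AL N p q j k = (M + 1) * (alv a b k - omw a b e1 e2 k)
      · rw [if_pos ⟨hk, hk2⟩]
        have e4 : om A0 B0 k + ((M + 1 : ℕ) : ℝ) * omw a b e1 e2 k - (M : ℝ) * alv a b k +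
            om A1 B1 k = -alv a b k := by
          push_cast
          linarith
        rw [e4] at h1
        exact h1
      · rw [if_neg (fun h => hk2 h.2)]
        have h2 := hn k hk
        have h3 := lt_of_le_of_ne h2 (Ne.symm hk2)
        refine Lead.lower ha hb hab1 ?_ h1
        push_cast
        linarith
    · rw [if_neg (fun h => hk h.1)]
      have h1 := bigO_Phi ha hb hab hH hW k (not_lt.1 hk) (M + 1) M
      have h2 := hALip k
      have h3 := hALjp k
      have e4 : om A0 B0 k + ((M + 1 : ℕ) : ℝ) * alv a b k - (M : ℝ) * alv a b k =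
          AL N p q i k := by
        push_cast
        linarith
      rw [e4] at h1
      have h4 : Lead a b k (AL N p q i k / 2) 0 (Phi g H (M + 1) M) :=
        lead_of_bigO ha hb hab1 (by linarith) h1
      have h5 := h4.mul ha hb hab1 (lead_MM ha hb hab1 A1 B1 k)
      refine Lead.lower ha hb hab1 ?_ h5
      linarith
  set C : Fin 3 → ℂ := fun k => (if Cd k then cc k else 0) / (alv a b k * bb a b k) with hCdef
  have hC : ∀ k : Fin 3, Tendsto (fun y => (y - tri a b k) * ph y)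
      (𝓝[body (tri a b) \ Set.range (tri a b)] (tri a b k)) (𝓝 (C k)) :=
    fun k => Lead.tendsto ha hb hab1 (hlead k)
  have hres := residue ha hb hab1 hd hc1 hc2 hint hedge C hC
  have hzero : a * (C 0).re + b * (C 1).re + (1 - a - b) * (C 2).re = 0 := by
    have h1 : (∫ y in body (tri a b), Phi g H M M y * MM a b A1 B1 y).re = 0 := crit
    rw [h1] at hres
    have h2 : -(π / 2) ≠ 0 := by
      have := Real.pi_pos
      intro h
      linarith
    exact (mul_eq_zero.1 hres.symm).resolve_left h2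
  -- the coefficients
  obtain ⟨s, hs0, hs⟩ := bet_pos ha hb
  have hn2' : (n2 : ℝ) = B0 + B1 + 2 * b - 2 * (M + 1) * b := by
    rw [hn2, hB0, hB1]
    ring
  have hterm : ∀ k, alv a b k * (C k).re = κ ^ (M + 1) * s ^ M / s / ((M + 1).factorial : ℝ) *
      (if Cd k then (![1, 1, (-1) ^ (n2 + e2 * (M + 1))] : Fin 3 → ℝ) k *
        (1 / dl a b e1 e2 k) ^ (M + 1) *
        ∏ l ∈ Finset.Icc 1 M, (l * alv a b k - AL N p q j k) else 0) := by
    intro k
    by_cases hk : Cd k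
    · rw [if_pos hk]
      have h1 := KMain_coef (κ := κ) (e1 := e1) (e2 := e2) (M := M) hs hn2' k
      have h2 : ∏ s ∈ Finset.range M, (om A0 B0 k + ((M + 1 : ℕ) : ℝ) * omw a b e1 e2 k -
          s * alv a b k) = ∏ l ∈ Finset.Icc 1 M, (l * alv a b k - AL N p q j k) := by
        refine Finset.prod_nbij' (fun s => M - s) (fun l => M - l) ?_ ?_ ?_ ?_ ?_
        · intro s hs
          rw [Finset.mem_range] at hs
          rw [Finset.mem_Icc]
          omega
        · intro l hl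
          rw [Finset.mem_Icc] at hl
          rw [Finset.mem_range]
          omega
        · intro s hs
          rw [Finset.mem_range] at hs
          show M - (M - s) = s
          omega
        · intro l hl
          rw [Finset.mem_Icc] at hl
          show M - (M - l) = l
          omega
        · intro s hs
          rw [Finset.mem_range] at hs
          have e1' := hALi k
          have e2' := hk.2
          rw [Nat.cast_sub hs.le]
          push_cast
          linarith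
      have h3 : (alv a b k : ℂ) * C k = ((κ ^ (M + 1) * s ^ M / s / ((M + 1).factorial : ℝ) *
          ((![1, 1, (-1) ^ (n2 + e2 * (M + 1))] : Fin 3 → ℝ) k *
          (1 / dl a b e1 e2 k) ^ (M + 1)) * ∏ l ∈ Finset.Icc 1 M,
            (l * alv a b k - AL N p q j k) : ℝ) : ℂ) := by
        rw [Complex.ofReal_mul, ← h1, ← h2]
        have h4 : (alv a b k : ℂ) ≠ 0 := by exact_mod_cast (halv k).ne'
        have h5 : C k = cc k / (alv a b k * bb a b k) := by
          rw [hCdef]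
          simp only [if_pos hk]
        rw [h5, hcc, mul_div_assoc', mul_comm (alv a b k : ℂ), mul_comm (alv a b k : ℂ) (bb a b k),
          mul_div_mul_right _ _ h4]
        ring
      rw [← Complex.re_ofReal_mul, h3, Complex.ofReal_re]
      ring
    · have h1 : C k = 0 := by
        rw [hCdef]
        simp only [if_neg hk, zero_div]
      rw [if_neg hk, h1]
      simp
  have hsum : ∑ k : Fin 3, alv a b k * (C k).re = 0 := by
    rw [Fin.sum_univ_three]
    exact hzero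
  simp only [hterm] at hsum
  rw [← Finset.mul_sum] at hsum
  have hK : κ ^ (M + 1) * s ^ M / s / ((M + 1).factorial : ℝ) ≠ 0 := by
    have := hW.ne
    have h2 : ((M + 1).factorial : ℝ) ≠ 0 := by exact_mod_cast (Nat.factorial_pos _).ne'
    positivity
  exact (mul_eq_zero.1 hsum).resolve_left hK

end

end Pool.Agent.OBT
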