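import Mathlib
import Pool.Agent.OBT.KMain

/-!
# The evaluation of the split coefficient `∫ (T f_i) (T f_j)`
-/

open scoped ComplexConjugate Topology Real
open MeasureTheory Filter

namespace Pool.Agent.OBT

noncomputable section

/-- normalised leading coefficients of `g` -/
def Gc (a b : ℝ) (e1 e2 : ℕ) (k : Fin 3) : ℝ :=
  (![1, 1, (-1) ^ e2] : Fin 3 → ℝ) k * kc a b e1 e2 / dl a b e1 e2 k

variable {N p q : ℕ}

/-! ### constants -/

/-- the common phase of `gam` and `bb` -/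
def KSplit_sg (b : ℝ) (k : Fin 3) : ℂ :=
  (![1, -1, Complex.exp (π * b * Complex.I)] : Fin 3 → ℂ) k

theorem KSplit_exp_nat (n : ℕ) : Complex.exp (π * n * Complex.I) = (-1) ^ n := by
  have h : (π * n * Complex.I : ℂ) = (n : ℂ) * (π * Complex.I) := by ring
  rw [h, Complex.exp_nat_mul, Complex.exp_pi_mul_I]

theorem KSplit_gam (a b s0 : ℝ) (e1 e2 : ℕ) (k : Fin 3) :
    gam a b e1 e2 (kc a b e1 e2 / s0) k = ((Gc a b e1 e2 k / s0 : ℝ) : ℂ) * KSplit_sg b k := by
  fin_cases k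
  · show (((kc a b e1 e2 / s0 : ℝ) : ℂ) / (1 - a - e1) : ℂ) =
      ((1 * kc a b e1 e2 / (1 - a - e1) / s0 : ℝ) : ℂ) * 1
    push_cast
    ring
  · show (-((kc a b e1 e2 / s0 : ℝ) : ℂ) / (1 - b - e2) : ℂ) =
      ((1 * kc a b e1 e2 / (1 - b - e2) / s0 : ℝ) : ℂ) * (-1)
    push_cast
    ring
  · show (((kc a b e1 e2 / s0 : ℝ) : ℂ) * Complex.exp (π * (b + e2) * Complex.I) /
      (1 - a - b - e1 - e2) : ℂ) =
      (((-1) ^ e2 * kc a b e1 e2 / (1 - a - b - e1 - e2) / s0 : ℝ) : ℂ) *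
        Complex.exp (π * b * Complex.I)
    have h : Complex.exp (π * (b + e2) * Complex.I) =
        (-1) ^ e2 * Complex.exp (π * b * Complex.I) := by
      rw [← KSplit_exp_nat, ← Complex.exp_add]
      congr 1
      ring
    rw [h]
    push_cast
    ring

theorem KSplit_bb {a b s : ℝ} (hs : bet a b = s) (k : Fin 3) :
    bb a b k = (s : ℂ) * KSplit_sg b k := by
  fin_cases k
  · show bet a b = (s : ℂ) * 1
    rw [hs, mul_one]
  · show -bet a b = (s : ℂ) * (-1)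
    rw [hs]
    ring
  · show bet a b * Complex.exp (π * b * Complex.I) = (s : ℂ) * Complex.exp (π * b * Complex.I)
    rw [hs]

theorem KSplit_sg_ne (b : ℝ) (k : Fin 3) : KSplit_sg b k ≠ 0 := by
  fin_cases k
  · show (1 : ℂ) ≠ 0
    exact one_ne_zero
  · show (-1 : ℂ) ≠ 0
    norm_num
  · show Complex.exp (π * b * Complex.I) ≠ 0
    exact Complex.exp_ne_zero _

theorem KSplit_phase {b B0 B1 : ℝ} {n2 : ℤ} (hn2 : (n2 : ℝ) = B0 + B1 - 4 * b) (k : Fin 3) :
    lm B0 k * lm B1 k * KSplit_sg b k ^ 4 =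
      (((![1, 1, (-1) ^ n2] : Fin 3 → ℝ) k : ℝ) : ℂ) := by
  fin_cases k
  · show (1 : ℂ) * 1 * 1 ^ 4 = ((1 : ℝ) : ℂ)
    norm_num
  · show (1 : ℂ) * 1 * (-1) ^ 4 = ((1 : ℝ) : ℂ)
    norm_num
  · show Complex.exp (-(π * B0) * Complex.I) * Complex.exp (-(π * B1) * Complex.I) *
      Complex.exp (π * b * Complex.I) ^ 4 = (((-1) ^ n2 : ℝ) : ℂ)
    have h0 : ((-1 : ℝ) ^ n2) = (-1) ^ (-n2) := by
      have := KMain_neg n2 0
      rw [add_zero, add_zero] at this
      exact this.symm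
    rw [h0, ← KMain_sgn, ← Complex.exp_nat_mul, ← Complex.exp_add, ← Complex.exp_add]
    congr 1
    have h2 : ((n2 : ℝ) : ℂ) = B0 + B1 - 4 * b := by rw [hn2]; push_cast; ring
    push_cast at h2 ⊢
    linear_combination ((π : ℂ) * Complex.I) * h2

theorem KSplit_pow {x : ℂ} (hx0 : x ≠ 0) (hx : x ^ N = 1) {i j : ℕ}
    (hM : i + j ≡ 6 [MOD N]) (u v : ℤ) (huv : u + v = (i : ℤ) + j - 7) :
    x ^ u * x ^ v = x⁻¹ := by
  have h1 : ((i + j : ℕ) : ℤ) ≡ ((6 : ℕ) : ℤ) [ZMOD N] := (Int.natCast_modEq_iff).2 hM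
  obtain ⟨t, ht⟩ := h1.symm.dvd
  have h2 : u + v = (N : ℤ) * t + (-1) := by
    push_cast at ht
    rw [huv]
    linarith
  rw [← zpow_add₀ hx0, h2, zpow_add₀ hx0, zpow_mul, zpow_natCast, hx, one_zpow, one_mul, zpow_neg,
    zpow_one]

/-! ### the potential -/

/-- the potential -/
def KSplit_P (g : ℂ → ℂ) (H : ℕ → ℕ → ℂ → ℂ) (g' : ℂ → ℂ) (H' : ℕ → ℕ → ℂ → ℂ) (y : ℂ) : ℂ :=
  Phi g H 2 1 y * Phi g' H' 1 1 y + (-1) * (Phi g H 3 1 y * Phi g' H' 0 1 y)

section

variable {a b : ℝ} {e1 e2 f1 f2 : ℕ} {κ κ' A0 B0 A1 B1 : ℝ} {g g' : ℂ → ℂ}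
  {H H' : ℕ → ℕ → ℂ → ℂ} {h h' : Fin 3 → ℕ → ℕ → ℂ}

theorem KSplit_deriv (hH : HData a b e1 e2 κ A0 B0 H h) (hW : WData a b e1 e2 κ g)
    (hH' : HData a b f1 f2 κ' A1 B1 H' h') (hW' : WData a b f1 f2 κ' g') {y : ℂ}
    (hy : y ∈ body (tri a b) \ VV a b) :
    HasFDerivWithinAt (KSplit_P g H g' H')
      (DD (Phi g H 2 1 y * Phi g' H' 1 2 y + Phi g' H' 1 1 y * Phi g H 2 2 y +
        (-1) * (Phi g H 3 1 y * Phi g' H' 0 2 y + Phi g' H' 0 1 y * Phi g H 3 2 y))
        (Phi g H 1 1 y * Phi g' H' 1 1 y)) (body (tri a b)) y := by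
  have h1 := KMain_mul (hasFDerivWithinAt_Phi_succ hH hW 1 1 hy)
    (hasFDerivWithinAt_Phi_succ hH' hW' 0 1 hy)
  have h2 := KMain_mul (hasFDerivWithinAt_Phi_succ hH hW 2 1 hy)
    (hasFDerivWithinAt_Phi_zero hH' hW' 1 hy)
  have h3 := h1.add (h2.const_mul (-1))
  refine h3.congr_fderiv ?_
  refine ContinuousLinearMap.ext fun z => ?_
  simp only [DD_apply, add_apply, smul_apply, smul_eq_mul]
  ring

theorem KSplit_lead (ha : 0 < a) (hb : 0 < b) (hab : a + b < 1 / 2)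
    (hH : HData a b e1 e2 κ A0 B0 H h) (hW : WData a b e1 e2 κ g)
    (hH' : HData a b f1 f2 κ' A1 B1 H' h') (hW' : WData a b f1 f2 κ' g') (k : Fin 3)
    (hk : omw a b e1 e2 k < alv a b k)
    (hef : omw a b f1 f2 k < alv a b k → omw a b e1 e2 k = omw a b f1 f2 k) :
    Lead a b k (om A0 B0 k + om A1 B1 k + 3 * omw a b e1 e2 k - 2 * alv a b k)
      (lm B0 k * lm B1 k * bb a b k ^ 2 * gam a b e1 e2 κ k ^ 2 *
        ((if omw a b f1 f2 k < alv a b k then gam a b f1 f2 κ' k *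
          (((om A0 B0 k + 2 * omw a b e1 e2 k) * (om A1 B1 k + omw a b e1 e2 k) / 2 : ℝ) : ℂ)
          else 0) - gam a b e1 e2 κ k *
          ((om A1 B1 k * (om A0 B0 k + 3 * omw a b e1 e2 k) / 6 : ℝ) : ℂ)))
      (KSplit_P g H g' H') := by
  have hab1 : a + b < 1 := by linarith
  have l21 := lead_Phi ha hb hab hH hW k hk 2 1
  have l31 := lead_Phi ha hb hab hH hW k hk 3 1
  have l01 : Lead a b k (om A1 B1 k - alv a b k) (lm B1 k * bb a b k * (om A1 B1 k : ℝ))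
      (Phi g' H' 0 1) := by
    have h1 := hH'.lead 1 0 k
    rw [hH'.h_succ0, hH'.h_zero] at h1
    have q1 : om A1 B1 k + ((0 : ℕ) : ℝ) * omw a b f1 f2 k - ((1 : ℕ) : ℝ) * alv a b k =
        om A1 B1 k - alv a b k := by push_cast; ring
    have q2 : bb a b k * ((om A1 B1 k - ((0 : ℕ) : ℝ) * alv a b k : ℝ) : ℂ) * lm B1 k =
        lm B1 k * bb a b k * (om A1 B1 k : ℝ) := by push_cast; ring
    rw [q1, q2] at h1
    exact Lead.congr h1 fun y _ => by simp [Phi]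
  have l11 : Lead a b k (om A1 B1 k + omw a b e1 e2 k - alv a b k)
      (if omw a b f1 f2 k < alv a b k then lm B1 k * gam a b f1 f2 κ' k * bb a b k *
        ((om A1 B1 k + omw a b e1 e2 k : ℝ) : ℂ) else 0) (Phi g' H' 1 1) := by
    by_cases hk' : omw a b f1 f2 k < alv a b k
    · rw [if_pos hk']
      have h1 := lead_Phi ha hb hab hH' hW' k hk' 1 1
      rw [← hef hk'] at h1
      have q1 : om A1 B1 k + ((1 : ℕ) : ℝ) * omw a b e1 e2 k - ((1 : ℕ) : ℝ) * alv a b k =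
          om A1 B1 k + omw a b e1 e2 k - alv a b k := by push_cast; ring
      have q2 : lm B1 k * gam a b f1 f2 κ' k ^ 1 / ((1 : ℕ).factorial : ℂ) * bb a b k ^ 1 *
          ((∏ s ∈ Finset.range 1, (om A1 B1 k + ((1 : ℕ) : ℝ) * omw a b e1 e2 k -
            s * alv a b k) : ℝ) : ℂ) = lm B1 k * gam a b f1 f2 κ' k * bb a b k *
        ((om A1 B1 k + omw a b e1 e2 k : ℝ) : ℂ) := by
        rw [Finset.prod_range_one, Nat.factorial_one]
        push_cast
        ring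
      rw [q1, q2] at h1
      exact h1
    · rw [if_neg hk']
      have h1 := bigO_Phi ha hb hab hH' hW' k (not_lt.1 hk') 1 1
      refine lead_of_bigO ha hb hab1 ?_ h1
      push_cast
      linarith
  have h1 := l21.mul ha hb hab1 l11
  have h2 := (l31.mul ha hb hab1 l01).const_mul ha hb hab1 (-1)
  have q1 : om A0 B0 k + ((2 : ℕ) : ℝ) * omw a b e1 e2 k - ((1 : ℕ) : ℝ) * alv a b k +
      (om A1 B1 k + omw a b e1 e2 k - alv a b k) =
      om A0 B0 k + om A1 B1 k + 3 * omw a b e1 e2 k - 2 * alv a b k := by push_cast; ring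
  have q2 : om A0 B0 k + ((3 : ℕ) : ℝ) * omw a b e1 e2 k - ((1 : ℕ) : ℝ) * alv a b k +
      (om A1 B1 k - alv a b k) =
      om A0 B0 k + om A1 B1 k + 3 * omw a b e1 e2 k - 2 * alv a b k := by push_cast; ring
  rw [q1] at h1
  rw [q2] at h2
  have h3 := Lead.add ha hb hab1 h1 h2
  have q3 : ∀ c c' : ℂ, c = c' → Lead a b k
      (om A0 B0 k + om A1 B1 k + 3 * omw a b e1 e2 k - 2 * alv a b k) c (KSplit_P g H g' H') →
      Lead a b k (om A0 B0 k + om A1 B1 k + 3 * omw a b e1 e2 k - 2 * alv a b k) c'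
        (KSplit_P g H g' H') := fun c c' hc hl => hc ▸ hl
  refine q3 _ _ ?_ h3
  rw [Finset.prod_range_one, Finset.prod_range_one]
  have f2' : ((2 : ℕ).factorial : ℂ) = 2 := by norm_num [Nat.factorial]
  have f3' : ((3 : ℕ).factorial : ℂ) = 6 := by norm_num [Nat.factorial]
  rw [f2', f3']
  by_cases hk' : omw a b f1 f2 k < alv a b k
  · rw [if_pos hk', if_pos hk']
    push_cast
    ring
  · rw [if_neg hk', if_neg hk']
    push_cast
    ring

theorem KSplit_lead0 (ha : 0 < a) (hb : 0 < b) (hab : a + b < 1 / 2)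
    (hH : HData a b e1 e2 κ A0 B0 H h) (hW : WData a b e1 e2 κ g)
    (hH' : HData a b f1 f2 κ' A1 B1 H' h') (hW' : WData a b f1 f2 κ' g') (k : Fin 3)
    (hk : alv a b k ≤ omw a b e1 e2 k)
    (hi : 0 < om A0 B0 k + alv a b k) (hj : 0 < om A1 B1 k + alv a b k)
    (hcj : omw a b f1 f2 k < alv a b k →
      alv a b k - omw a b f1 f2 k ≤ om A1 B1 k + alv a b k) :
    Lead a b k (-alv a b k) 0 (KSplit_P g H g' H') := by
  have hab1 : a + b < 1 := by linarith
  set d : ℝ := min (om A0 B0 k + alv a b k) (om A1 B1 k + alv a b k) / 4 with hd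
  have hd0 : 0 < d := by
    have := lt_min hi hj
    linarith
  have hdi : d < om A0 B0 k + alv a b k := by
    have := min_le_left (om A0 B0 k + alv a b k) (om A1 B1 k + alv a b k)
    linarith
  have hdj : d < om A1 B1 k + alv a b k := by
    have := min_le_right (om A0 B0 k + alv a b k) (om A1 B1 k + alv a b k)
    linarith
  have l21 : Lead a b k (om A0 B0 k + alv a b k - d) 0 (Phi g H 2 1) := by
    have h1 := bigO_Phi ha hb hab hH hW k hk 2 1
    refine lead_of_bigO ha hb hab1 ?_ h1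
    push_cast
    linarith
  have l31 : Lead a b k (om A0 B0 k + 2 * alv a b k - d) 0 (Phi g H 3 1) := by
    have h1 := bigO_Phi ha hb hab hH hW k hk 3 1
    refine lead_of_bigO ha hb hab1 ?_ h1
    push_cast
    linarith
  have l01 : ∃ c, Lead a b k (om A1 B1 k - alv a b k) c (Phi g' H' 0 1) := by
    have h1 := hH'.lead 1 0 k
    have q1 : om A1 B1 k + ((0 : ℕ) : ℝ) * omw a b f1 f2 k - ((1 : ℕ) : ℝ) * alv a b k =
        om A1 B1 k - alv a b k := by push_cast; ring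
    rw [q1] at h1
    exact ⟨_, Lead.congr h1 fun y _ => by simp [Phi]⟩
  have l11 : ∃ θ c, -alv a b k ≤ θ ∧ Lead a b k θ c (Phi g' H' 1 1) := by
    by_cases hk' : omw a b f1 f2 k < alv a b k
    · refine ⟨_, _, ?_, lead_Phi ha hb hab hH' hW' k hk' 1 1⟩
      have := hcj hk'
      push_cast
      linarith
    · refine ⟨-alv a b k, 0, le_refl _, ?_⟩
      have h1 := bigO_Phi ha hb hab hH' hW' k (not_lt.1 hk') 1 1
      refine lead_of_bigO ha hb hab1 ?_ h1
      push_cast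
      linarith
  obtain ⟨c, l01⟩ := l01
  obtain ⟨θ, c', hθ, l11⟩ := l11
  have h1 : Lead a b k (-alv a b k) 0 (fun y => Phi g H 2 1 y * Phi g' H' 1 1 y) :=
    Lead.lower ha hb hab1 (by linarith) (l21.mul ha hb hab1 l11)
  have h2 : Lead a b k (-alv a b k) 0 (fun y => Phi g H 3 1 y * Phi g' H' 0 1 y) :=
    Lead.lower ha hb hab1 (by linarith) (l31.mul ha hb hab1 l01)
  have h3 := Lead.add ha hb hab1 h1 (h2.const_mul ha hb hab1 (-1))
  rw [mul_zero, add_zero] at h3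
  exact h3

end

/-- **Theorem K, split version.** -/
theorem K_split (hp : 0 < p) (hq : 0 < q) (hN : 2 * (p + q) < N)
    (hg : Nat.gcd (Nat.gcd p q) N = 1) (hL : LatticeTriangle (TN N p q)) {i j : ℕ}
    (hu : Nat.Coprime i N ∨ Nat.Coprime j N) (hHi : Hol N p q i) (hHj : Hol N p q j)
    (hij : ¬ i ≡ j [MOD N]) (hM : i + j ≡ 6 [MOD N]) (e1 e2 f1 f2 : ℕ)
    (he1 : e1 ≤ 1) (he2 : e2 ≤ 1) (hf1 : f1 ≤ 1) (hf2 : f2 ≤ 1)
    (hci : ∀ k, omw ((p : ℝ) / N) ((q : ℝ) / N) e1 e2 k < alv ((p : ℝ) / N) ((q : ℝ) / N) k →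
      alv ((p : ℝ) / N) ((q : ℝ) / N) k - omw ((p : ℝ) / N) ((q : ℝ) / N) e1 e2 k ≤ AL N p q i k)
    (hcj : ∀ k, omw ((p : ℝ) / N) ((q : ℝ) / N) f1 f2 k < alv ((p : ℝ) / N) ((q : ℝ) / N) k →
      alv ((p : ℝ) / N) ((q : ℝ) / N) k - omw ((p : ℝ) / N) ((q : ℝ) / N) f1 f2 k ≤ AL N p q j k)
    (hn : ∀ k, omw ((p : ℝ) / N) ((q : ℝ) / N) e1 e2 k < alv ((p : ℝ) / N) ((q : ℝ) / N) k →
      3 * (alv ((p : ℝ) / N) ((q : ℝ) / N) k - omw ((p : ℝ) / N) ((q : ℝ) / N) e1 e2 k) ≤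
        AL N p q i k + AL N p q j k)
    (hef : ∀ k, omw ((p : ℝ) / N) ((q : ℝ) / N) e1 e2 k < alv ((p : ℝ) / N) ((q : ℝ) / N) k →
      omw ((p : ℝ) / N) ((q : ℝ) / N) f1 f2 k < alv ((p : ℝ) / N) ((q : ℝ) / N) k →
      omw ((p : ℝ) / N) ((q : ℝ) / N) e1 e2 k = omw ((p : ℝ) / N) ((q : ℝ) / N) f1 f2 k)
    (n2 : ℤ) (hn2 : (n2 : ℝ) = ag N q i + ag N q j - 6 * ((q : ℝ) / N)) :
    ∑ k : Fin 3, (open Classical in
      if omw ((p : ℝ) / N) ((q : ℝ) / N) e1 e2 k < alv ((p : ℝ) / N) ((q : ℝ) / N) k ∧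
        AL N p q i k + AL N p q j k = 3 *
          (alv ((p : ℝ) / N) ((q : ℝ) / N) k - omw ((p : ℝ) / N) ((q : ℝ) / N) e1 e2 k)
      then (![1, 1, (-1) ^ n2] : Fin 3 → ℝ) k * Gc ((p : ℝ) / N) ((q : ℝ) / N) e1 e2 k ^ 2 *
        (-(Gc ((p : ℝ) / N) ((q : ℝ) / N) e1 e2 k *
            (AL N p q j k - alv ((p : ℝ) / N) ((q : ℝ) / N) k) *
            (AL N p q i k - alv ((p : ℝ) / N) ((q : ℝ) / N) k +
              3 * omw ((p : ℝ) / N) ((q : ℝ) / N) e1 e2 k) / 6) +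
          (if omw ((p : ℝ) / N) ((q : ℝ) / N) f1 f2 k < alv ((p : ℝ) / N) ((q : ℝ) / N) k then
            Gc ((p : ℝ) / N) ((q : ℝ) / N) f1 f2 k *
            (AL N p q i k - alv ((p : ℝ) / N) ((q : ℝ) / N) k +
              2 * omw ((p : ℝ) / N) ((q : ℝ) / N) e1 e2 k) *
            (AL N p q j k - alv ((p : ℝ) / N) ((q : ℝ) / N) k +
              omw ((p : ℝ) / N) ((q : ℝ) / N) e1 e2 k) / 2 else 0))
      else 0) = 0 := by
  classical
  have hN0 : 0 < N := by omega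
  have hNR : (0 : ℝ) < N := by exact_mod_cast hN0
  have hpq : p + q < N := by omega
  have ha : 0 < (p : ℝ) / N := div_pos (by exact_mod_cast hp) hNR
  have hb : 0 < (q : ℝ) / N := div_pos (by exact_mod_cast hq) hNR
  have hab : (p : ℝ) / N + (q : ℝ) / N < 1 / 2 := by
    rw [← add_div, div_lt_div_iff₀ hNR two_pos]
    have : ((2 * (p + q) : ℕ) : ℝ) < N := by exact_mod_cast hN
    push_cast at this
    linarith
  have hab1 : (p : ℝ) / N + (q : ℝ) / N < 1 := by linarith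
  have hALi := KMain_AL (N := N) (p := p) (q := q) (i := i)
  have hALj := KMain_AL (N := N) (p := p) (q := q) (i := j)
  have hALip := KMain_AL_pos hN0 hHi
  have hALjp := KMain_AL_pos hN0 hHj
  have hphi := phase_FF hp hq hpq i
  have hphj := phase_FF hp hq hpq j
  have hchiN : ∀ k, chi (TN N p q) k ^ N = 1 := fun k => uu_pow_N hp hq hpq (r (TN N p q) k)
  have hchi0 : ∀ k, chi (TN N p q) k ≠ 0 := by
    intro k h0
    have := hchiN k
    rw [h0, zero_pow hN0.ne'] at this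
    exact zero_ne_one this
  simp only [FF] at hphi hphj
  simp only [TN] at hchiN hchi0 hphi hphj
  set a : ℝ := (p : ℝ) / N with ha_def
  set b : ℝ := (q : ℝ) / N with hb_def
  set A0 : ℝ := ag N p i - a with hA0
  set B0 : ℝ := ag N q i - b with hB0
  set A1 : ℝ := ag N p j - a with hA1
  set B1 : ℝ := ag N q j - b with hB1
  have halv : ∀ k, 0 < alv a b k := alv_pos ha hb hab1
  obtain ⟨s0, hs0, hWex⟩ := exists_WData_exact ha hb hab
  obtain ⟨g, hW⟩ := hWex e1 e2 he1 he2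
  obtain ⟨g', hW'⟩ := hWex f1 f2 hf1 hf2
  obtain ⟨H, h, hH⟩ := exists_H ha hb hab e1 e2 he1 he2 (kc a b e1 e2 / s0) A0 B0
  obtain ⟨H', h', hH'⟩ := exists_H ha hb hab f1 f2 hf1 hf2 (kc a b f1 f2 / s0) A1 B1
  have h0i : ∀ k, -alv a b k < om A0 B0 k := by
    intro k
    have := hALi k
    have := hALip k
    linarith
  have h0j : ∀ k, -alv a b k < om A1 B1 k := by
    intro k
    have := hALj k
    have := hALjp k
    linarith
  -- the functions are nice
  have hX : ∀ m : ℕ, m < 1 → NiceT a b ((i : ℤ) - 2 * ((m : ℤ) + 1)) (Phi g H (m + 1) m)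
      (Phi g H (m + 1) (m + 1)) (Phi g H m m) := by
    intro m hm
    obtain rfl : m = 0 := by omega
    have e : (i : ℤ) - 2 * (((0 : ℕ) : ℤ) + 1) = ((i : ℤ) - 1) - 2 * ((0 : ℕ) : ℤ) - 1 := by
      push_cast
      ring
    rw [e]
    refine niceT_Phi ha hb hab hH hW ((i : ℤ) - 1) (fun k y hy => hphi k hy) 0 h0i ?_
    intro k hk
    rw [hALi k, Nat.cast_zero, zero_add, one_mul]
    exact hci k hk
  have hZ : ∀ m : ℕ, m < 1 → NiceT a b ((j : ℤ) - 2 * ((m : ℤ) + 1)) (Phi g' H' (m + 1) m)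
      (Phi g' H' (m + 1) (m + 1)) (Phi g' H' m m) := by
    intro m hm
    obtain rfl : m = 0 := by omega
    have e : (j : ℤ) - 2 * (((0 : ℕ) : ℤ) + 1) = ((j : ℤ) - 1) - 2 * ((0 : ℕ) : ℤ) - 1 := by
      push_cast
      ring
    rw [e]
    refine niceT_Phi ha hb hab hH' hW' ((j : ℤ) - 1) (fun k y hy => hphj k hy) 0 h0j ?_
    intro k hk
    rw [hALj k, Nat.cast_zero, zero_add, one_mul]
    exact hcj k hk
  have hX0 : (fun m => Phi g H m m) 0 = FF N p q i := by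
    funext y
    exact Phi_zero hH y
  have hZ0 : (fun m => Phi g' H' m m) 0 = FF N p q j := by
    funext y
    exact Phi_zero hH' y
  have crit := crit_iso2 hp hq hN hg hL hu hHi hHj hij 1 1 hM (fun m => Phi g H m m)
    (fun m => Phi g H (m + 1) m) (fun m => Phi g' H' m m) (fun m => Phi g' H' (m + 1) m)
    hX0 hZ0 hX hZ
  have hLX : MemLp (Phi g H 1 1) 2 (volume.restrict (body (tri a b))) := (hX 0 one_pos).L2a
  have hLZ : MemLp (Phi g' H' 1 1) 2 (volume.restrict (body (tri a b))) := (hZ 0 one_pos).L2a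
  set ph : ℂ → ℂ := KSplit_P g H g' H' with hph
  have hd : ∀ y ∈ body (tri a b) \ Set.range (tri a b), HasFDerivWithinAt ph
      (DD (Phi g H 2 1 y * Phi g' H' 1 2 y + Phi g' H' 1 1 y * Phi g H 2 2 y +
        (-1) * (Phi g H 3 1 y * Phi g' H' 0 2 y + Phi g' H' 0 1 y * Phi g H 3 2 y))
        (Phi g H 1 1 y * Phi g' H' 1 1 y)) (body (tri a b)) y :=
    fun y hy => KSplit_deriv hH hW hH' hW' hy
  have hcP : ∀ m r, ContinuousOn (Phi g H m r) (body (tri a b) \ Set.range (tri a b)) :=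
    fun m r => continuousOn_Phi hH hW m r
  have hcP' : ∀ m r, ContinuousOn (Phi g' H' m r) (body (tri a b) \ Set.range (tri a b)) :=
    fun m r => continuousOn_Phi hH' hW' m r
  have hc1 : ContinuousOn (fun y => Phi g H 2 1 y * Phi g' H' 1 2 y +
      Phi g' H' 1 1 y * Phi g H 2 2 y +
        (-1) * (Phi g H 3 1 y * Phi g' H' 0 2 y + Phi g' H' 0 1 y * Phi g H 3 2 y))
      (body (tri a b) \ Set.range (tri a b)) :=
    (((hcP 2 1).mul (hcP' 1 2)).add ((hcP' 1 1).mul (hcP 2 2))).add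
      (continuousOn_const.mul (((hcP 3 1).mul (hcP' 0 2)).add ((hcP' 0 1).mul (hcP 3 2))))
  have hc2 : ContinuousOn (fun y => Phi g H 1 1 y * Phi g' H' 1 1 y)
      (body (tri a b) \ Set.range (tri a b)) := (hcP 1 1).mul (hcP' 1 1)
  have hint : IntegrableOn (fun y => Phi g H 1 1 y * Phi g' H' 1 1 y) (body (tri a b)) :=
    MemLp.integrable_mul hLX hLZ
  have hedge : ∀ k : Fin 3, ∀ y ∈ edge (tri a b) k \ Set.range (tri a b),
      (ph y * (tri a b (k + 2) - tri a b (k + 1))).im = 0 := by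
    intro k y hy
    refine KMain_im (tri_ne ha hb hab1 k) ?_
    have h21 := phase_Phi ha hb hab hH hW ((i : ℤ) - 1) (fun k y hy => hphi k hy) 2 1 k hy
    have h31 := phase_Phi ha hb hab hH hW ((i : ℤ) - 1) (fun k y hy => hphi k hy) 3 1 k hy
    have h11 := phase_Phi ha hb hab hH' hW' ((j : ℤ) - 1) (fun k y hy => hphj k hy) 1 1 k hy
    have h01 := phase_Phi ha hb hab hH' hW' ((j : ℤ) - 1) (fun k y hy => hphj k hy) 0 1 k hy
    have w1 := KSplit_pow (hchi0 k) (hchiN k) hM ((i : ℤ) - 1 - ((1 : ℕ) : ℤ) - ((2 : ℕ) : ℤ))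
      ((j : ℤ) - 1 - ((1 : ℕ) : ℤ) - ((1 : ℕ) : ℤ)) (by push_cast; ring)
    have w2 := KSplit_pow (hchi0 k) (hchiN k) hM ((i : ℤ) - 1 - ((1 : ℕ) : ℤ) - ((3 : ℕ) : ℤ))
      ((j : ℤ) - 1 - ((1 : ℕ) : ℤ) - ((0 : ℕ) : ℤ)) (by push_cast; ring)
    have r1 : Phi g H 2 1 y * Phi g' H' 1 1 y = (chi (tri a b) k)⁻¹ *
        conj (Phi g H 2 1 y * Phi g' H' 1 1 y) := by
      rw [← w1, map_mul]
      nth_rewrite 1 [h21, h11]
      ring
    have r2 : Phi g H 3 1 y * Phi g' H' 0 1 y = (chi (tri a b) k)⁻¹ *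
        conj (Phi g H 3 1 y * Phi g' H' 0 1 y) := by
      rw [← w2, map_mul]
      nth_rewrite 1 [h31, h01]
      ring
    show KSplit_P g H g' H' y = (chi (tri a b) k)⁻¹ * conj (KSplit_P g H g' H' y)
    unfold KSplit_P
    rw [map_add, map_mul (starRingEnd ℂ) (-1), map_neg, map_one, mul_add,
      mul_left_comm _ (-1 : ℂ), ← r1, ← r2]
  -- leading terms
  set cc : Fin 3 → ℂ := fun k => lm B0 k * lm B1 k * bb a b k ^ 2 *
    gam a b e1 e2 (kc a b e1 e2 / s0) k ^ 2 *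
        ((if omw a b f1 f2 k < alv a b k then gam a b f1 f2 (kc a b f1 f2 / s0) k *
          (((om A0 B0 k + 2 * omw a b e1 e2 k) * (om A1 B1 k + omw a b e1 e2 k) / 2 : ℝ) : ℂ)
          else 0) - gam a b e1 e2 (kc a b e1 e2 / s0) k *
          ((om A1 B1 k * (om A0 B0 k + 3 * omw a b e1 e2 k) / 6 : ℝ) : ℂ)) with hcc
  have hlead : ∀ k, Lead a b k (-alv a b k) (if omw a b e1 e2 k < alv a b k ∧
        AL N p q i k + AL N p q j k = 3 * (alv a b k - omw a b e1 e2 k) then cc k else 0) ph := by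
    intro k
    have e1' := hALi k
    have e2' := hALj k
    have e3 := halv k
    by_cases hk : omw a b e1 e2 k < alv a b k
    · have h1 := KSplit_lead ha hb hab hH hW hH' hW' k hk (hef k hk)
      by_cases hk2 : AL N p q i k + AL N p q j k = 3 * (alv a b k - omw a b e1 e2 k)
      · rw [if_pos ⟨hk, hk2⟩]
        have e4 : om A0 B0 k + om A1 B1 k + 3 * omw a b e1 e2 k - 2 * alv a b k =
            -alv a b k := by
          linarith
        rw [e4] at h1
        exact h1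
      · rw [if_neg (fun h => hk2 h.2)]
        have h2 := hn k hk
        have h3 := lt_of_le_of_ne h2 (Ne.symm hk2)
        refine Lead.lower ha hb hab1 ?_ h1
        linarith
    · rw [if_neg (fun h => hk h.1)]
      refine KSplit_lead0 ha hb hab hH hW hH' hW' k (not_lt.1 hk) ?_ ?_ ?_
      · rw [hALi k]
        exact hALip k
      · rw [hALj k]
        exact hALjp k
      · intro hk'
        rw [hALj k]
        exact hcj k hk'
  set C : Fin 3 → ℂ := fun k => (if omw a b e1 e2 k < alv a b k ∧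
        AL N p q i k + AL N p q j k = 3 * (alv a b k - omw a b e1 e2 k) then cc k else 0) /
          (alv a b k * bb a b k) with hCdef
  have hC : ∀ k : Fin 3, Tendsto (fun y => (y - tri a b k) * ph y)
      (𝓝[body (tri a b) \ Set.range (tri a b)] (tri a b k)) (𝓝 (C k)) :=
    fun k => Lead.tendsto ha hb hab1 (hlead k)
  have hres := residue ha hb hab1 hd hc1 hc2 hint hedge C hC
  have hzero : a * (C 0).re + b * (C 1).re + (1 - a - b) * (C 2).re = 0 := by
    have h1 : (∫ y in body (tri a b), Phi g H 1 1 y * Phi g' H' 1 1 y).re = 0 := crit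
    rw [h1] at hres
    have h2 : -(π / 2) ≠ 0 := by
      have := Real.pi_pos
      intro h
      linarith
    exact (mul_eq_zero.1 hres.symm).resolve_left h2
  -- the coefficients
  obtain ⟨s, hsp, hs⟩ := bet_pos ha hb
  have hn2' : (n2 : ℝ) = B0 + B1 - 4 * b := by
    rw [hn2, hB0, hB1]
    ring
  have hsum : ∑ k : Fin 3, alv a b k * (C k).re = 0 := by
    rw [Fin.sum_univ_three]
    exact hzero
  have hK : s / s0 ^ 3 ≠ 0 := by positivity
  refine (mul_eq_zero.1 (Eq.trans ?_ hsum)).resolve_left hK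
  rw [Finset.mul_sum]
  refine Finset.sum_congr rfl fun k _ => ?_
  by_cases hk : omw a b e1 e2 k < alv a b k ∧
        AL N p q i k + AL N p q j k = 3 * (alv a b k - omw a b e1 e2 k)
  · rw [if_pos hk]
    have hCk : C k = cc k / (alv a b k * bb a b k) := by
      rw [hCdef]
      simp only [if_pos hk]
    have e1' : AL N p q i k - alv a b k = om A0 B0 k := by
      have := hALi k
      linarith
    have e2' : AL N p q j k - alv a b k = om A1 B1 k := by
      have := hALj k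
      linarith
    rw [e1', e2']
    have h4 : (alv a b k : ℂ) ≠ 0 := by exact_mod_cast (halv k).ne'
    have h5 : KSplit_sg b k ≠ 0 := KSplit_sg_ne b k
    have h6 : (s : ℂ) ≠ 0 := by exact_mod_cast hsp.ne'
    have h7 : (s0 : ℂ) ≠ 0 := by exact_mod_cast hs0.ne'
    have h8 := KSplit_phase hn2' k
    have h9 : (alv a b k : ℂ) * C k = ((s / s0 ^ 3 * ((![1, 1, (-1) ^ n2] : Fin 3 → ℝ) k *
        Gc a b e1 e2 k ^ 2 * (-(Gc a b e1 e2 k * om A1 B1 k *
            (om A0 B0 k + 3 * omw a b e1 e2 k) / 6) +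
          (if omw a b f1 f2 k < alv a b k then Gc a b f1 f2 k *
            (om A0 B0 k + 2 * omw a b e1 e2 k) *
            (om A1 B1 k + omw a b e1 e2 k) / 2 else 0))) : ℝ) : ℂ) := by
      rw [hCk, hcc]
      simp only [KSplit_gam, KSplit_bb hs]
      by_cases hk' : omw a b f1 f2 k < alv a b k
      · rw [if_pos hk', if_pos hk']
        push_cast
        rw [← h8]
        field_simp
        ring
      · rw [if_neg hk', if_neg hk']
        push_cast
        rw [← h8]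
        field_simp
        ring
    rw [← Complex.re_ofReal_mul, h9, Complex.ofReal_re]
  · have h1 : C k = 0 := by
      rw [hCdef]
      simp only [if_neg hk, zero_div]
    rw [if_neg hk, h1]
    simp

end

end Pool.Agent.OBT
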