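import Mathlib
import Pool.Agent.OBT.WFun
import Pool.Agent.OBT.ZZ

/-!
# The conjugate of a Schwarz-Christoffel map plus a holomorphic function
-/

open scoped ComplexConjugate Topology Real
open MeasureTheory Filter Asymptotics

namespace Pool.Agent.OBT

/-- `V = conj Z + (holomorphic)`, with the boundary phases `e^{-π i a'}` and `e^{π i b'}` -/
structure VData (a b a' b' s1 : ℝ) (V : ℂ → ℂ) : Prop where
  pos : 0 < s1
  cont : ContinuousOn V (body (tri a b) \ VV a b)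
  deriv : ∀ y ∈ body (tri a b) \ VV a b, HasFDerivWithinAt V
    (DD (-(s1 : ℂ) * bet a b * MM a b (1 - a' - a) (1 - b' - b) y)
      (conj (bet a b / bet a' b' * MM a b (a' - a) (b' - b) y))) (body (tri a b)) y
  ph2 : ∀ y ∈ edge (tri a b) 2 \ VV a b, ∃ s : ℝ, V y = s
  ph1 : ∀ y ∈ edge (tri a b) 1 \ VV a b, ∃ s : ℝ, V y = s * Complex.exp (-(π * a') * Complex.I)
  ph0 : ∀ y ∈ edge (tri a b) 0 \ VV a b, ∃ s : ℝ, V y = s * Complex.exp (π * b' * Complex.I)
  bd0 : V =O[𝓝[body (tri a b) \ VV a b] 0] (fun _ => (1 : ℝ))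
  bd1 : V =O[𝓝[body (tri a b) \ VV a b] 1] (fun _ => (1 : ℝ))
  bd2 : (fun y => V y + s1 * Complex.exp (π * b' * Complex.I) / (1 - a' - b') *
    MM a b (1 - a' - b') 0 y) =O[𝓝[body (tri a b) \ VV a b] (tau a b)] (fun _ => (1 : ℝ))

/-- the conjugate of a function with complex derivative `p` -/
theorem VFun_conj {f : ℂ → ℂ} {p z : ℂ} {s : Set ℂ} (h : HasFDerivWithinAt f (DD p 0) s z) :
    HasFDerivWithinAt (fun y => conj (f y)) (DD 0 (conj p)) s z := by
  have h1 := (Complex.conjCLE.toContinuousLinearMap.hasFDerivAt (x := f z)).comp_hasFDerivWithinAt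
    z h
  refine h1.congr_fderiv ?_
  ext w
  simp

/-- the derivative of the holomorphic part in the interior -/
theorem VFun_interior {a b a' b' : ℝ} (ha : 0 < a) (hb : 0 < b) (hab : a + b < 1)
    (ha1 : a' < 1) (hb1 : b' < 1) (c : ℂ) {y : ℂ} (hy : y ∈ interior (body (tri a b))) :
    HasDerivAt (fun y => -c * JJ (-a') (-b') (XX a b y))
      (-c * bet a b * MM a b (1 - a' - a) (1 - b' - b) y) y := by
  have him := XX_im_pos ha hb hab hy
  have hne := XX_ne ha hb hab (MM_interior_sub ha hb hab hy)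
  have h1 := hasDerivAt_XX ha hb hab hy
  have h2 := (JJ_spec (-a') (-b') (by linarith) (by linarith)).2.2.1 _ him
  have h3 : HasDerivAt (fun y => JJ (-a') (-b') (XX a b y))
      (mm (-a') (-b') (XX a b y) * (bet a b * mm (1 - a) (1 - b) (XX a b y))) y := h2.comp y h1
  refine (h3.const_mul (-c)).congr_deriv ?_
  have h4 := mm_mul (-a') (-b') (1 - a) (1 - b) hne.1 hne.2
  rw [show -a' + (1 - a) = 1 - a' - a by ring, show -b' + (1 - b) = 1 - b' - b by ring] at h4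
  unfold MM
  rw [← h4]
  ring

theorem VFun_ZZ_bdd {a b a' b' : ℝ} (ha : 0 < a) (hb : 0 < b) (hab : a + b < 1)
    (ha' : 0 < a') (hb' : 0 < b') (hab' : a' + b' < 1) (p : ℂ) :
    (fun y => conj (ZZ a b a' b' y)) =O[𝓝[body (tri a b) \ VV a b] p] (fun _ => (1 : ℝ)) := by
  obtain ⟨C, hC⟩ := (isCompact_body (v := tri a b)).exists_bound_of_continuousOn
    (continuousOn_ZZ ha hb hab ha' hb' hab')
  refine IsBigO.of_bound C ?_
  filter_upwards [self_mem_nhdsWithin] with y hy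
  simpa using hC y hy.1

theorem exists_V {a b a' b' : ℝ} (ha : 0 < a) (hb : 0 < b) (hab : a + b < 1)
    (ha' : 0 < a') (hb' : 0 < b') (hab' : a' + b' < 1) : ∃ (s1 : ℝ) (V : ℂ → ℂ),
    VData a b a' b' s1 V := by
  have ha1 : a' < 1 := by linarith
  have hb1 : b' < 1 := by linarith
  obtain ⟨s0, hs0, hJ2, hJ1, hJ0⟩ := WFun_Y ha1 hb1
  obtain ⟨hJc, -, hJd, -⟩ := JJ_spec (-a') (-b') (by linarith) (by linarith)
  have hs0C : (s0 : ℂ) ≠ 0 := by exact_mod_cast hs0.ne'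
  set c : ℂ := ((s0⁻¹ : ℝ) : ℂ) with hc
  have hcc : c * s0 = 1 := by
    rw [hc]
    push_cast
    exact inv_mul_cancel₀ hs0C
  have hGc : ContinuousOn (fun y => -c * JJ (-a') (-b') (XX a b y))
      (body (tri a b) \ VV a b) :=
    continuousOn_const.mul (hJc.comp ((continuousOn_XX ha hb hab).mono fun _ hy => MM_sub_tau hy)
      fun _ hy => (MM_XX_mem ha hb hab hy).1)
  refine ⟨s0⁻¹, fun y => conj (ZZ a b a' b' y) + -c * JJ (-a') (-b') (XX a b y), ?_⟩
  refine ⟨inv_pos.2 hs0, ?_, ?_, ?_, ?_, ?_, ?_, ?_, ?_⟩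
  · exact (Complex.continuous_conj.comp_continuousOn ((continuousOn_ZZ ha hb hab ha' hb' hab').mono
      Set.sdiff_subset)).add hGc
  · intro y hy
    have h1 := VFun_conj (hasFDerivWithinAt_ZZ ha hb hab ha' hb' hab' hy)
    have h2 : HasFDerivWithinAt (fun y => -c * JJ (-a') (-b') (XX a b y))
        (DD (-c * bet a b * MM a b (1 - a' - a) (1 - b' - b) y) 0) (body (tri a b)) y :=
      WFun_ext ha hb hab (F := fun y => -c * bet a b * MM a b (1 - a' - a) (1 - b' - b) y) hGc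
        (continuousOn_const.mul (continuousOn_MM ha hb hab _ _))
        (fun z hz => VFun_interior ha hb hab ha1 hb1 c hz) hy
    refine (h1.add h2).congr_fderiv ?_
    ext w
    rw [_root_.add_apply, DD_apply, DD_apply, DD_apply, ← hc]
    ring
  · intro y hy
    obtain ⟨u, hu⟩ := WFun_y2 (ZZ_edge ha hb hab ha' hb' hab' 2 hy.1)
    obtain ⟨t, ht0, ht1, ht⟩ := XX_edge2 ha hb hab hy
    obtain ⟨s, hs⟩ := hJ2 t ht0 ht1
    refine ⟨u - s0⁻¹ * s, ?_⟩
    simp only [hu, ht, hs, hc]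
    push_cast
    ring
  · intro y hy
    obtain ⟨u, hu⟩ := WFun_y1 (ZZ_edge ha hb hab ha' hb' hab' 1 hy.1)
    obtain ⟨t, ht0, ht⟩ := XX_edge1 ha hb hab hy
    obtain ⟨s, hs⟩ := hJ1 t ht0
    refine ⟨u - s0⁻¹ * s, ?_⟩
    simp only [hu, ht, hs, hc]
    push_cast
    ring
  · intro y hy
    obtain ⟨u, hu⟩ := WFun_y0 ha' hb' hab' (ZZ_edge ha hb hab ha' hb' hab' 0 hy.1)
    obtain ⟨t, ht0, ht⟩ := XX_edge0 ha hb hab hy
    obtain ⟨s, hs⟩ := hJ0 t ht0
    refine ⟨u - s0⁻¹ * s, ?_⟩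
    simp only [hu, ht, hs]
    have : -c * (s0 + s * Complex.exp (π * b' * Complex.I)) =
        -1 - c * s * Complex.exp (π * b' * Complex.I) := by
      linear_combination (-1 : ℂ) * hcc
    rw [this, hc]
    push_cast
    ring
  · refine (VFun_ZZ_bdd ha hb hab ha' hb' hab' 0).add ?_
    have h1 : Tendsto (JJ (-a') (-b')) (𝓝[Hb \ {0, 1}] 0) (𝓝 (JJ (-a') (-b') 0)) :=
      (hJc 0 ZZ_zero_mem).mono_left (nhdsWithin_mono _ Set.sdiff_subset)
    exact ((h1.comp (tendsto_XX_zero ha hb hab)).const_mul (-c)).isBigO_one ℝ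
  · refine (VFun_ZZ_bdd ha hb hab ha' hb' hab' 1).add ?_
    have h1 : Tendsto (JJ (-a') (-b')) (𝓝[Hb \ {0, 1}] 1) (𝓝 (JJ (-a') (-b') 1)) :=
      (hJc 1 ZZ_one_mem).mono_left (nhdsWithin_mono _ Set.sdiff_subset)
    exact ((h1.comp (tendsto_XX_one ha hb hab)).const_mul (-c)).isBigO_one ℝ
  · have h1 := WFun_E2s (h := JJ (-a') (-b')) (κ := 1) (A := -a') (B := -b')
      (hJc.mono Set.sdiff_subset) (fun x hx => by simpa using hJd x hx) (by linarith)
      (by linarith) 0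
    have h2 := (h1.comp_tendsto (tendsto_XX_tau ha hb hab)).const_mul_left (-c)
    have h3 : (mm 0 0 ∘ XX a b) = fun _ => (1 : ℂ) := by
      funext y
      simp [mm_zero_zero]
    rw [h3] at h2
    have h4 : (fun _ : ℂ => (1 : ℂ)) =O[𝓝[body (tri a b) \ VV a b] (tau a b)]
        (fun _ => (1 : ℝ)) := isBigO_const_const _ one_ne_zero _
    refine ((VFun_ZZ_bdd ha hb hab ha' hb' hab' (tau a b)).add (h2.trans h4)).congr_left ?_
    intro y
    have h5 : -((π : ℂ) * ((-b' : ℝ) : ℂ)) * Complex.I = π * b' * Complex.I := by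
      push_cast
      ring
    have h6 : -a' + 1 + -b' = 1 - a' - b' := by ring
    have h7 : ((-a' : ℝ) : ℂ) + ((-b' : ℝ) : ℂ) + 1 = 1 - a' - b' := by
      push_cast
      ring
    simp only [Function.comp_apply, h5, h6, h7, MM, hc]
    ring

end Pool.Agent.OBT
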