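import Mathlib
import Pool.Agent.OBT.Form5
import Pool.Agent.OBT.KSplit
import Pool.Agent.OBT.VFun

/-!
# The split coefficient with a correction
-/

open scoped ComplexConjugate Topology Real
open MeasureTheory Filter Asymptotics

namespace Pool.Agent.OBT

variable {N p q : ℕ}

noncomputable section

/-! ### explicit derivatives -/

theorem KLam_uniq {a b : ℝ} (ha : 0 < a) (hb : 0 < b) (hab : a + b < 1) {f : ℂ → ℂ}
    {p q p' q' : ℂ} {y : ℂ} (hy : y ∈ body (tri a b))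
    (h1 : HasFDerivWithinAt f (DD p q) (body (tri a b)) y)
    (h2 : HasFDerivWithinAt f (DD p' q') (body (tri a b)) y) : p = p' := by
  have hu : UniqueDiffWithinAt ℝ (body (tri a b)) y :=
    (uniqueDiffOn_convex convex_body (MM_interior_nonempty ha hb hab)) y hy
  have h3 : DD p q = DD p' q' := hu.eq h1 h2
  have e1 := congrArg (fun L : ℂ →L[ℝ] ℂ => L 1) h3
  have e2 := congrArg (fun L : ℂ →L[ℝ] ℂ => L Complex.I) h3
  simp only [DD_apply, map_one, mul_one, Complex.conj_I] at e1 e2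
  linear_combination (1 / 2) * e1 - (Complex.I / 2) * e2 +
    ((p - q - p' + q') / 2) * Complex.I_sq

theorem KLam_H10 {a b : ℝ} {e1 e2 : ℕ} {κ A0 B0 : ℝ} {H : ℕ → ℕ → ℂ → ℂ}
    {h : Fin 3 → ℕ → ℕ → ℂ} (ha : 0 < a) (hb : 0 < b) (hab : a + b < 1)
    (hH : HData a b e1 e2 κ A0 B0 H h) {y : ℂ} (hy : y ∈ body (tri a b) \ VV a b) :
    H 1 0 y = bet a b * (A0 * MM a b (A0 - a) (B0 + 1 - b) y -
      B0 * MM a b (A0 + 1 - a) (B0 - b) y) := by
  have h1 : HasFDerivWithinAt (H 0 0) (DD (H 1 0 y) 0) (body (tri a b)) y := hH.deriv0 0 y hy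
  rw [hH.zero] at h1
  exact KLam_uniq ha hb hab hy.1 h1 (hasFDerivWithinAt_MM ha hb hab A0 B0 hy)

theorem KLam_H11 {a b : ℝ} {e1 e2 : ℕ} {κ A0 B0 : ℝ} {H : ℕ → ℕ → ℂ → ℂ}
    {h : Fin 3 → ℕ → ℕ → ℂ} (ha : 0 < a) (hb : 0 < b) (hab : a + b < 1)
    (hH : HData a b e1 e2 κ A0 B0 H h) {y : ℂ} (hy : y ∈ body (tri a b) \ VV a b) :
    H 1 1 y = G1 a b e1 e2 κ y * MM a b A0 B0 y := by
  have h1 : HasFDerivWithinAt (H 0 1) (DD (H 1 1 y - G1 a b e1 e2 κ y * H 0 0 y) 0)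
    (body (tri a b)) y := hH.deriv1 0 0 y hy
  have h0 : H 0 1 = fun _ => 0 := hH.vanish 0 1 one_pos
  rw [h0, hH.zero] at h1
  have h2 : HasFDerivWithinAt (fun _ : ℂ => (0 : ℂ)) (DD 0 0) (body (tri a b)) y := by
    refine (hasFDerivWithinAt_const _ _ _).congr_fderiv ?_
    ext1 z
    simp
  exact sub_eq_zero.1 (KLam_uniq ha hb hab hy.1 h1 h2)

theorem KLam_c2 {a b : ℝ} (ha : 0 < a) (hb : 0 < b) (hab : a + b < 1) (B : ℝ) :
    (fun y => MM a b (-B) B y - Complex.exp (-(π * B) * Complex.I))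
      =O[𝓝[body (tri a b) \ VV a b] (tri a b 2)]
      (fun y => ‖y - tri a b 2‖ ^ (1 / alv a b 2)) :=
  ((Lead_mm_inf B).comp_tendsto (tendsto_XX_tau ha hb hab)).trans (tt_bigO ha hb hab 2 1)

/-- the holomorphic part of the derivative of `V` -/
def KLam_m (a b s1 : ℝ) (y : ℂ) : ℂ :=
  -(s1 : ℂ) * bet a b * MM a b (1 / 2 - 2 * a) (1 - 2 * b) y

/-- the corrected first function -/
def KLam_U (lam : ℝ) (g V : ℂ → ℂ) (H : ℕ → ℕ → ℂ → ℂ) (y : ℂ) : ℂ :=
  Phi g H 1 0 y + lam * V y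

/-- its holomorphic derivative -/
def KLam_P (a b s1 lam : ℝ) (g : ℂ → ℂ) (H : ℕ → ℕ → ℂ → ℂ) (y : ℂ) : ℂ :=
  Phi g H 1 1 y + lam * KLam_m a b s1 y

section core

variable {a b κ s1 lam : ℝ} {g V : ℂ → ℂ} {H : ℕ → ℕ → ℂ → ℂ} {h : Fin 3 → ℕ → ℕ → ℂ}

theorem KLam_V_deriv (hV : VData a b (a + 1 / 2) b s1 V) {r : ℝ}
    (hr : bet a b / bet (a + 1 / 2) b = r) {y : ℂ} (hy : y ∈ body (tri a b) \ VV a b) :
    HasFDerivWithinAt V (DD (KLam_m a b s1 y) (r * conj (MM a b (1 / 2) 0 y)))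
      (body (tri a b)) y := by
  have h1 := hV.deriv y hy
  have q1 : 1 - (a + 1 / 2) - a = 1 / 2 - 2 * a := by ring
  have q2 : 1 - b - b = 1 - 2 * b := by ring
  have q3 : a + 1 / 2 - a = 1 / 2 := by ring
  rw [q1, q2, q3, sub_self, hr, map_mul, Complex.conj_ofReal] at h1
  exact h1

theorem KLam_U_deriv (hH : HData a b 1 0 κ (1 / 2) 0 H h) (hW : WData a b 1 0 κ g)
    (hV : VData a b (a + 1 / 2) b s1 V) {r : ℝ}
    (hr : bet a b / bet (a + 1 / 2) b = r) {y : ℂ} (hy : y ∈ body (tri a b) \ VV a b) :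
    HasFDerivWithinAt (KLam_U lam g V H) (DD (KLam_P a b s1 lam g H y)
      (Phi g H 0 0 y - ((-(lam * r) : ℝ) : ℂ) * conj (MM a b (1 / 2) 0 y)))
      (body (tri a b)) y := by
  have h1 : HasFDerivWithinAt (Phi g H 1 0) (DD (Phi g H 1 1 y) (Phi g H 0 0 y))
    (body (tri a b)) y := hasFDerivWithinAt_Phi_succ hH hW 0 0 hy
  have h2 := h1.add ((KLam_V_deriv hV hr hy).const_mul (lam : ℂ))
  refine h2.congr_fderiv ?_
  refine ContinuousLinearMap.ext fun z => ?_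
  simp only [DD_apply, add_apply, smul_apply, smul_eq_mul, KLam_P]
  push_cast
  ring

theorem KLam_m_cont (ha : 0 < a) (hb : 0 < b) (hab : a + b < 1) :
    ContinuousOn (KLam_m a b s1) (body (tri a b) \ VV a b) :=
  continuousOn_const.mul (continuousOn_MM ha hb hab _ _)

/-- the derivative of `KLam_m` -/
def KLam_m1 (a b s1 : ℝ) (y : ℂ) : ℂ :=
  -(s1 : ℂ) * bet a b * (bet a b * (((1 / 2 - 2 * a : ℝ) : ℂ) *
    MM a b (1 / 2 - 2 * a - a) (1 - 2 * b + 1 - b) y -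
      ((1 - 2 * b : ℝ) : ℂ) * MM a b (1 / 2 - 2 * a + 1 - a) (1 - 2 * b - b) y))

theorem KLam_m1_cont (ha : 0 < a) (hb : 0 < b) (hab : a + b < 1) :
    ContinuousOn (KLam_m1 a b s1) (body (tri a b) \ VV a b) :=
  continuousOn_const.mul (continuousOn_const.mul ((continuousOn_const.mul
    (continuousOn_MM ha hb hab _ _)).sub (continuousOn_const.mul
    (continuousOn_MM ha hb hab _ _))))

theorem KLam_m_deriv (ha : 0 < a) (hb : 0 < b) (hab : a + b < 1) {y : ℂ}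
    (hy : y ∈ body (tri a b) \ VV a b) :
    HasFDerivWithinAt (KLam_m a b s1) (DD (KLam_m1 a b s1 y) 0) (body (tri a b)) y := by
  have h1 := (hasFDerivWithinAt_MM ha hb hab (1 / 2 - 2 * a) (1 - 2 * b) hy).const_mul
    (-(s1 : ℂ) * bet a b)
  refine h1.congr_fderiv ?_
  refine ContinuousLinearMap.ext fun z => ?_
  simp only [DD_apply, smul_apply, smul_eq_mul, KLam_m1]
  ring

theorem KLam_lead_m (ha : 0 < a) (hb : 0 < b) (hab : a + b < 1) (k : Fin 3) :
    Lead a b k (om (1 / 2 - 2 * a) (1 - 2 * b) k)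
      (-(s1 : ℂ) * bet a b * lm (1 - 2 * b) k) (KLam_m a b s1) :=
  (lead_MM ha hb hab (1 / 2 - 2 * a) (1 - 2 * b) k).const_mul ha hb hab _

/-! ### boundedness -/

theorem KLam_omw0 : omw a b 1 0 0 = -a := by
  show 1 - a - ((1 : ℕ) : ℝ) = -a
  push_cast; ring

theorem KLam_omw1 : omw a b 1 0 1 = 1 - b := by
  show 1 - b - ((0 : ℕ) : ℝ) = 1 - b
  push_cast; ring

theorem KLam_omw2 : omw a b 1 0 2 = a + b := by
  show ((1 : ℕ) : ℝ) + ((0 : ℕ) : ℝ) - (1 - a - b) = a + b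
  push_cast; ring

theorem KLam_gam0 : gam a b 1 0 κ 0 = -(κ / a : ℂ) := by
  show (κ / (1 - a - ((1 : ℕ) : ℂ)) : ℂ) = -(κ / a : ℂ)
  have : (1 - a - ((1 : ℕ) : ℂ) : ℂ) = -a := by push_cast; ring
  rw [this, div_neg]

theorem KLam_gam2 : gam a b 1 0 κ 2 = -(κ * Complex.exp (π * b * Complex.I) / (a + b) : ℂ) := by
  show κ * Complex.exp (π * (b + ((0 : ℕ) : ℂ)) * Complex.I) /
    (1 - a - b - ((1 : ℕ) : ℂ) - ((0 : ℕ) : ℂ)) = -(κ * Complex.exp (π * b * Complex.I) / (a + b) : ℂ)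
  have h1 : (1 - a - b - ((1 : ℕ) : ℂ) - ((0 : ℕ) : ℂ) : ℂ) = -(a + b) := by push_cast; ring
  have h2 : (b + ((0 : ℕ) : ℂ) : ℂ) = b := by push_cast; ring
  rw [h1, h2, div_neg]

theorem KLam_cast (hlam : lam * s1 = -κ * (1 / 2 - a - b) / (a + b)) :
    (lam : ℂ) * s1 = -κ * (1 / 2 - a - b) / (a + b) := by
  have h1 := congrArg (fun x : ℝ => (x : ℂ)) hlam
  push_cast at h1
  exact h1

theorem KLam_ne (hab : a + b < 1 / 2) : (1 / 2 - a - b : ℂ) ≠ 0 := by
  have h1 : ((1 / 2 - a - b : ℝ) : ℂ) ≠ 0 := by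
    rw [Complex.ofReal_ne_zero]
    linarith
  push_cast at h1
  exact h1

theorem KLam_ne' (ha : 0 < a) (hb : 0 < b) : (a + b : ℂ) ≠ 0 := by
  have h1 : ((a + b : ℝ) : ℂ) ≠ 0 := by
    rw [Complex.ofReal_ne_zero]
    linarith
  push_cast at h1
  exact h1

theorem KLam_frac {κ c d E : ℂ} (hc : c ≠ 0) : -(κ * E / d) = -κ * c / d * (E / c) := by
  field_simp

theorem KLam_one {k : Fin 3} {f : ℂ → ℂ} {θ : ℝ} (ha : 0 < a) (hb : 0 < b) (hab : a + b < 1)
    (hθ : 0 ≤ θ) (hf : f =O[𝓝[body (tri a b) \ VV a b] (tri a b k)]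
      (fun y => ‖y - tri a b k‖ ^ (θ / alv a b k))) :
    f =O[𝓝[body (tri a b) \ VV a b] (tri a b k)] (fun _ => (1 : ℝ)) :=
  PhiNice_one (div_nonneg hθ (alv_pos ha hb hab k).le) hf

/-- the decomposition of `g` at the third vertex -/
theorem KLam_err (hW : WData a b 1 0 κ g) :
    (fun y => g y + conj (tri a b 2) - gam a b 1 0 κ 2 * MM a b (-(a + b)) 0 y)
      =O[𝓝[body (tri a b) \ VV a b] (tri a b 2)]
      (fun y => ‖y - tri a b 2‖ ^ ((a + b + 1) / alv a b 2)) := by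
  have h1 := hW.err (by norm_num)
  have e1 : (((1 : ℕ) : ℝ) + ((0 : ℕ) : ℝ) - (1 - a - b) + 1) = a + b + 1 := by push_cast; ring
  have e2 : (1 - a - b - ((1 : ℕ) : ℝ) - ((0 : ℕ) : ℝ)) = -(a + b) := by push_cast; ring
  rw [e1, e2] at h1
  exact h1

theorem KLam_conj2 : (fun y : ℂ => conj (y - tri a b 2))
      =O[𝓝[body (tri a b) \ VV a b] (tri a b 2)]
      (fun y => ‖y - tri a b 2‖ ^ (1 : ℝ)) := PhiLead_conj 2

theorem KLam_conj2' (hab : a + b < 1) :
    (fun y : ℂ => conj (y - tri a b 2))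
      =O[𝓝[body (tri a b) \ VV a b] (tri a b 2)]
      (fun y => ‖y - tri a b 2‖ ^ ((1 - a - b) / alv a b 2)) := by
  have h1 : (1 - a - b) / alv a b 2 = 1 := by
    show (1 - a - b) / (1 - a - b) = 1
    exact div_self (by linarith)
  rw [h1]
  exact KLam_conj2

theorem KLam_U_bd2 (ha : 0 < a) (hb : 0 < b) (hab : a + b < 1 / 2)
    (hH : HData a b 1 0 κ (1 / 2) 0 H h) (hW : WData a b 1 0 κ g)
    (hV : VData a b (a + 1 / 2) b s1 V)
    (hlam : lam * s1 = -κ * (1 / 2 - a - b) / (a + b)) :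
    KLam_U lam g V H =O[𝓝[body (tri a b) \ VV a b] (tri a b 2)] (fun _ => (1 : ℝ)) := by
  have hab1 : a + b < 1 := by linarith
  have hF : MM a b (1 / 2) 0 =O[𝓝[body (tri a b) \ VV a b] (tri a b 2)]
      (fun y => ‖y - tri a b 2‖ ^ ((-(1 / 2)) / alv a b 2)) := by
    have h1 := (lead_MM ha hb hab1 (1 / 2) 0 2).bigO ha hb hab1
    have e1 : om (1 / 2) 0 2 = -(1 / 2) := by
      show -(1 / 2 + 0 : ℝ) = -(1 / 2)
      ring
    rw [e1] at h1
    exact h1
  have t1 := KLam_one (k := 2) ha hb hab1 (by linarith) (Lead_mul_bigO hF (KLam_conj2' hab1))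
  have t2 := KLam_one (k := 2) ha hb hab1 (by linarith) (Lead_mul_bigO hF (KLam_err hW))
  have t3 := hV.bd2.const_mul_left (lam : ℂ)
  refine ((t1.add t2).add t3).congr' ?_ EventuallyEq.rfl
  filter_upwards [self_mem_nhdsWithin] with y hy
  have m1 := MM_mul ha hb hab1 (1 / 2) 0 (-(a + b)) 0 hy
  have e1 : 1 / 2 + -(a + b) = 1 / 2 - a - b := by ring
  have e2 : 1 - (a + 1 / 2) - b = 1 / 2 - a - b := by ring
  rw [e1, add_zero] at m1
  have hP : Phi g H 1 0 y = (conj y + g y) * MM a b (1 / 2) 0 y := by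
    unfold Phi
    rw [Finset.sum_range_succ, Finset.sum_range_one, hH.zero, hH.vanish 0 1 one_pos]
    simp
  have hl := KLam_cast hlam
  have hc' := KLam_ne hab
  have hk : gam a b 1 0 κ 2 = lam * (s1 * Complex.exp (π * b * Complex.I) /
      (1 - ((a + 1 / 2 : ℝ) : ℂ) - b)) := by
    have e3 : (1 - ((a + 1 / 2 : ℝ) : ℂ) - b) = 1 / 2 - a - b := by push_cast; ring
    rw [KLam_gam2, e3]
    have e4 : (lam : ℂ) * (s1 * Complex.exp (π * b * Complex.I) / (1 / 2 - a - b)) =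
        (lam * s1) * (Complex.exp (π * b * Complex.I) / (1 / 2 - a - b)) := by ring
    rw [e4, hl]
    exact KLam_frac hc'
  show MM a b (1 / 2) 0 y * conj (y - tri a b 2) + MM a b (1 / 2) 0 y *
    (g y + conj (tri a b 2) - gam a b 1 0 κ 2 * MM a b (-(a + b)) 0 y) +
    lam * (V y + s1 * Complex.exp (π * b * Complex.I) / (1 - ((a + 1 / 2 : ℝ) : ℂ) - b) *
      MM a b (1 - (a + 1 / 2) - b) 0 y) = KLam_U lam g V H y
  unfold KLam_U
  rw [hP, e2, ← m1, hk, map_sub]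
  ring

theorem KLam_P_eq (ha : 0 < a) (hb : 0 < b) (hab : a + b < 1 / 2)
    (hH : HData a b 1 0 κ (1 / 2) 0 H h)
    (hlam : lam * s1 = -κ * (1 / 2 - a - b) / (a + b)) {y : ℂ}
    (hy : y ∈ body (tri a b) \ VV a b) :
    KLam_P a b s1 lam g H y =
      H 1 0 y * conj (y - tri a b 2) +
      H 1 0 y * (g y + conj (tri a b 2) - gam a b 1 0 κ 2 * MM a b (-(a + b)) 0 y) +
      κ * bet a b / (a + b) / 2 * (MM a b (1 / 2 - 2 * a - b) (1 - b) y *
        (MM a b (-(-b)) (-b) y - Complex.exp (-(π * ((-b : ℝ) : ℂ)) * Complex.I))) := by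
  have hab1 : a + b < 1 := by linarith
  have hP : Phi g H 1 1 y = (conj y + g y) * H 1 0 y + H 1 1 y := by
    unfold Phi
    rw [Finset.sum_range_succ, Finset.sum_range_one]
    simp
  have h10 : H 1 0 y = bet a b * ((1 / 2) * MM a b (1 / 2 - a) (1 - b) y) := by
    rw [KLam_H10 ha hb hab1 hH hy]
    have e1 : (0 : ℝ) + 1 - b = 1 - b := by ring
    rw [e1]
    push_cast
    ring
  have h11 : H 1 1 y = κ * bet a b * MM a b (1 / 2 - 2 * a) (1 - 2 * b) y := by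
    rw [KLam_H11 ha hb hab1 hH hy]
    unfold G1
    rw [mul_assoc, MM_mul ha hb hab1 _ _ _ _ hy]
    congr 2
    · push_cast; ring
    · push_cast; ring
  have m1 : MM a b (1 / 2 - a) (1 - b) y * MM a b (-(a + b)) 0 y =
      MM a b (1 / 2 - 2 * a - b) (1 - b) y := by
    rw [MM_mul ha hb hab1 _ _ _ _ hy]
    congr 1 <;> ring
  have m2 : MM a b (1 / 2 - 2 * a - b) (1 - b) y * MM a b (-(-b)) (-b) y =
      MM a b (1 / 2 - 2 * a) (1 - 2 * b) y := by
    rw [MM_mul ha hb hab1 _ _ _ _ hy]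
    congr 1 <;> ring
  have e3 : Complex.exp (-(π * ((-b : ℝ) : ℂ)) * Complex.I) = Complex.exp (π * b * Complex.I) := by
    congr 1
    push_cast
    ring
  have hl := KLam_cast hlam
  have hapb := KLam_ne' ha hb
  unfold KLam_P KLam_m
  rw [hP, h11, mul_sub (MM a b (1 / 2 - 2 * a - b) (1 - b) y), m2, e3, KLam_gam2, map_sub]
  have e5 : H 1 0 y * MM a b (-(a + b)) 0 y =
      bet a b * ((1 / 2) * MM a b (1 / 2 - 2 * a - b) (1 - b) y) := by
    rw [← m1, h10]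
    ring
  have e6 : (lam : ℂ) * (-(s1 : ℂ) * bet a b * MM a b (1 / 2 - 2 * a) (1 - 2 * b) y) =
      (κ * (1 / 2 - a - b) / (a + b)) * bet a b * MM a b (1 / 2 - 2 * a) (1 - 2 * b) y := by
    linear_combination (-(bet a b * MM a b (1 / 2 - 2 * a) (1 - 2 * b) y)) * hl
  have e7 : (κ : ℂ) + κ * (1 / 2 - a - b) / (a + b) = κ / (a + b) / 2 := by
    field_simp
    ring
  rw [e6]
  linear_combination (bet a b * MM a b (1 / 2 - 2 * a) (1 - 2 * b) y) * e7 +
    (-(κ * Complex.exp (π * b * Complex.I) / (a + b))) * e5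

theorem KLam_P_bd2 (ha : 0 < a) (hb : 0 < b) (hab : a + b < 1 / 2)
    (hH : HData a b 1 0 κ (1 / 2) 0 H h) (hW : WData a b 1 0 κ g)
    (hlam : lam * s1 = -κ * (1 / 2 - a - b) / (a + b)) :
    KLam_P a b s1 lam g H =O[𝓝[body (tri a b) \ VV a b] (tri a b 2)]
      (fun y => ‖y - tri a b 2‖ ^ ((-(1 / 2)) / alv a b 2)) := by
  have hab1 : a + b < 1 := by linarith
  have hF : H 1 0 =O[𝓝[body (tri a b) \ VV a b] (tri a b 2)]
      (fun y => ‖y - tri a b 2‖ ^ ((-(1 / 2) - (1 - a - b)) / alv a b 2)) := by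
    have h1 := (hH.lead 1 0 2).bigO ha hb hab1
    have e1 : om (1 / 2) 0 2 + ((0 : ℕ) : ℝ) * omw a b 1 0 2 - ((1 : ℕ) : ℝ) * alv a b 2 =
        -(1 / 2) - (1 - a - b) := by
      show -(1 / 2 + 0 : ℝ) + ((0 : ℕ) : ℝ) * omw a b 1 0 2 - ((1 : ℕ) : ℝ) * (1 - a - b) = _
      push_cast
      ring
    rw [e1] at h1
    exact h1
  have t1 := (Lead_mul_bigO hF (KLam_conj2' hab1)).trans (Lead_div_le ha hb hab1 2
    (show (-(1 / 2) : ℝ) ≤ _ by linarith))
  have t2 := (Lead_mul_bigO hF (KLam_err hW)).trans (Lead_div_le ha hb hab1 2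
    (show (-(1 / 2) : ℝ) ≤ _ by linarith))
  have hM : MM a b (1 / 2 - 2 * a - b) (1 - b) =O[𝓝[body (tri a b) \ VV a b] (tri a b 2)]
      (fun y => ‖y - tri a b 2‖ ^ ((-(3 / 2 - 2 * a - 2 * b)) / alv a b 2)) := by
    have h1 := (lead_MM ha hb hab1 (1 / 2 - 2 * a - b) (1 - b) 2).bigO ha hb hab1
    have e1 : om (1 / 2 - 2 * a - b) (1 - b) 2 = -(3 / 2 - 2 * a - 2 * b) := by
      show -(1 / 2 - 2 * a - b + (1 - b) : ℝ) = _
      ring
    rw [e1] at h1
    exact h1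
  have t3 := ((Lead_mul_bigO hM (KLam_c2 ha hb hab1 (-b))).trans (Lead_div_le ha hb hab1 2
    (show (-(1 / 2) : ℝ) ≤ _ by linarith))).const_mul_left
      ((κ : ℂ) * bet a b / (a + b) / 2)
  refine ((t1.add t2).add t3).congr' ?_ EventuallyEq.rfl
  filter_upwards [self_mem_nhdsWithin] with y hy
  exact (KLam_P_eq ha hb hab hH hlam hy).symm

theorem KLam_L2 (ha : 0 < a) (hb : 0 < b) (hab : a + b < 1 / 2) :
    MemLp (MM a b (1 / 2) 0) 2 (volume.restrict (body (tri a b))) := by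
  have hab1 : a + b < 1 := by linarith
  refine memLp_of_bigO (Set.finite_range (tri a b)) (continuousOn_MM ha hb hab1 _ _) ?_
  rintro s ⟨k, rfl⟩
  refine ⟨_, ?_, (lead_MM ha hb hab1 (1 / 2) 0 k).bigO ha hb hab1⟩
  have h0 := alv_pos ha hb hab1 k
  rw [lt_div_iff₀ h0]
  obtain rfl | rfl | rfl := Phi_fin3 k
  · show -1 * a < 1 / 2
    linarith
  · show -1 * b < 0
    linarith
  · show -1 * (1 - a - b) < -(1 / 2 + 0)
    linarith

/-! ### phases -/

theorem KLam_wt {x : ℂ} (hx0 : x ≠ 0) {n : ℤ} (hx : x ^ (2 * n - 2) = 1) {u v : ℤ}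
    (huv : v = u + (2 * n - 2)) : x ^ u = x ^ v := by
  rw [huv, zpow_add₀ hx0, hx, mul_one]

theorem KLam_V_phase (ha : 0 < a) (hb : 0 < b) (hab : a + b < 1)
    (hV : VData a b (a + 1 / 2) b s1 V) {n z w : ℤ} (hz : a + 1 / 2 = n * a + z)
    (hw : b = n * b + w) (hx : ∀ k, chi (tri a b) k ^ (2 * n - 2) = 1) (k : Fin 3) {y : ℂ}
    (hy : y ∈ edge (tri a b) k \ VV a b) :
    V y = chi (tri a b) k ^ (n - 2) * conj (V y) := by
  rw [← KLam_wt (Phi_chi_ne k) (hx k) (show n - 2 = -n + (2 * n - 2) by ring)]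
  obtain rfl | rfl | rfl := Phi_fin3 k
  · obtain ⟨s, hs⟩ := hV.ph0 y hy
    have h4 : (π * b * Complex.I : ℂ) = ((π * b : ℝ) : ℂ) * Complex.I := by push_cast; ring
    rw [chi_tri_zero ha hb hab, hs, map_mul, Complex.conj_ofReal, h4, Phi_conj_exp,
      ← Complex.exp_int_mul, mul_left_comm, ← Complex.exp_add]
    congr 1
    rw [Complex.exp_eq_exp_iff_exists_int]
    refine ⟨w, ?_⟩
    have h5 : (b : ℂ) = n * b + w := by exact_mod_cast congrArg (fun x : ℝ => (x : ℂ)) hw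
    push_cast
    linear_combination (2 * π * Complex.I) * h5
  · obtain ⟨s, hs⟩ := hV.ph1 y hy
    have h4 : (-(π * ((a + 1 / 2 : ℝ) : ℂ)) * Complex.I : ℂ) =
        ((-(π * (a + 1 / 2)) : ℝ) : ℂ) * Complex.I := by push_cast; ring
    rw [chi_tri_one ha hb hab, hs, map_mul, Complex.conj_ofReal, h4, Phi_conj_exp,
      ← Complex.exp_int_mul, mul_left_comm, ← Complex.exp_add]
    congr 1
    rw [Complex.exp_eq_exp_iff_exists_int]
    refine ⟨-z, ?_⟩
    have h5 := congrArg (fun x : ℝ => (x : ℂ)) hz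
    push_cast at h5 ⊢
    linear_combination (-(2 * π * Complex.I)) * h5
  · obtain ⟨s, hs⟩ := hV.ph2 y hy
    rw [chi_tri_two ha hb hab, one_zpow, one_mul, hs, Complex.conj_ofReal]

theorem KLam_m_phase (ha : 0 < a) (hb : 0 < b) (hab : a + b < 1)
    {n z w : ℤ} (hz : a + 1 / 2 = n * a + z)
    (hw : b = n * b + w) (hx : ∀ k, chi (tri a b) k ^ (2 * n - 2) = 1) (k : Fin 3) {y : ℂ}
    (hy : y ∈ edge (tri a b) k \ VV a b) :
    KLam_m a b s1 y = chi (tri a b) k ^ (n - 3) * conj (KLam_m a b s1 y) := by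
  rw [← KLam_wt (Phi_chi_ne k) (hx k) (show n - 3 = -(n + 1) + (2 * n - 2) by ring)]
  obtain ⟨s, -, hs⟩ := bet_pos ha hb
  have h1 := Form1_phase ha hb hab (1 / 2 - 2 * a) (1 - 2 * b) (-(n + 1)) (1 - z) (1 - w)
    (by push_cast; linarith) (by push_cast; linarith) k hy
  unfold KLam_m
  rw [hs, map_mul, map_mul, map_neg, Complex.conj_ofReal, Complex.conj_ofReal, mul_left_comm,
    ← h1]

theorem KLam_F_phase (ha : 0 < a) (hb : 0 < b) (hab : a + b < 1)
    {n z w : ℤ} (hz : a + 1 / 2 = n * a + z)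
    (hw : b = n * b + w) (k : Fin 3) {y : ℂ}
    (hy : y ∈ edge (tri a b) k \ VV a b) :
    MM a b (1 / 2) 0 y = chi (tri a b) k ^ (n - 1) * conj (MM a b (1 / 2) 0 y) :=
  Form1_phase ha hb hab (1 / 2) 0 (n - 1) z w (by push_cast; linarith)
    (by push_cast; linarith) k hy

theorem KLam_F_phase' (ha : 0 < a) (hb : 0 < b) (hab : a + b < 1)
    {n z w : ℤ} (hz : a + 1 / 2 = n * a + z)
    (hw : b = n * b + w) (hx : ∀ k, chi (tri a b) k ^ (2 * n - 2) = 1) (k : Fin 3) {y : ℂ}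
    (hy : y ∈ edge (tri a b) k \ VV a b) :
    conj (MM a b (1 / 2) 0 y) = chi (tri a b) k ^ (n - 1) * conj (conj (MM a b (1 / 2) 0 y)) := by
  have h1 := KLam_F_phase ha hb hab hz hw k hy
  have h0 := Phi_chi_ne (a := a) (b := b) k
  rw [← KLam_wt h0 (hx k) (show n - 1 = -(n - 1) + (2 * n - 2) by ring), Complex.conj_conj]
  nth_rewrite 2 [h1]
  rw [← mul_assoc, ← zpow_add₀ h0, neg_add_cancel, zpow_zero, one_mul]

/-- the corrected function is nice -/
theorem KLam_nice (ha : 0 < a) (hb : 0 < b) (hab : a + b < 1 / 2)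
    (hH : HData a b 1 0 κ (1 / 2) 0 H h) (hW : WData a b 1 0 κ g)
    (hV : VData a b (a + 1 / 2) b s1 V)
    (hlam : lam * s1 = -κ * (1 / 2 - a - b) / (a + b)) {r : ℝ}
    (hr : bet a b / bet (a + 1 / 2) b = r)
    {n z w : ℤ} (hz : a + 1 / 2 = n * a + z)
    (hw : b = n * b + w) (hx : ∀ k, chi (tri a b) k ^ (2 * n - 2) = 1) :
    NiceT a b (n - 2) (KLam_U lam g V H) (KLam_P a b s1 lam g H)
      (fun y => MM a b (1 / 2) 0 y - ((-(lam * r) : ℝ) : ℂ) * conj (MM a b (1 / 2) 0 y)) := by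
  have hab1 : a + b < 1 := by linarith
  have hVfin : (VV a b).Finite := Set.finite_range _
  have hFp : ∀ k, ∀ y ∈ edge (tri a b) k \ VV a b,
      MM a b (1 / 2) 0 y = chi (tri a b) k ^ (n - 1) * conj (MM a b (1 / 2) 0 y) :=
    fun k y hy => KLam_F_phase ha hb hab1 hz hw k hy
  have hL2 := KLam_L2 ha hb hab
  have hcc : ContinuousOn (fun y => conj (MM a b (1 / 2) 0 y)) (body (tri a b) \ VV a b) :=
    Complex.continuous_conj.comp_continuousOn (continuousOn_MM ha hb hab1 _ _)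
  have o0 : omw a b 1 0 0 < alv a b 0 := by
    rw [KLam_omw0]
    show -a < a
    linarith
  have o1 : alv a b 1 ≤ omw a b 1 0 1 := by
    rw [KLam_omw1]
    show b ≤ 1 - b
    linarith
  refine ⟨?_, ?_, ?_, ?_, ?_, ?_, ?_, ?_⟩
  · -- bounded
    refine bdd_of_bigO hVfin ((continuousOn_Phi hH hW 1 0).add
      (continuousOn_const.mul hV.cont)) ?_
    rintro _ ⟨k, rfl⟩
    obtain rfl | rfl | rfl := Phi_fin3 k
    · have h1 := (lead_Phi ha hb hab hH hW 0 o0 1 0).bigO ha hb hab1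
      have h2 := KLam_one ha hb hab1 (by
        show 0 ≤ om (1 / 2) 0 0 + ((1 : ℕ) : ℝ) * omw a b 1 0 0 - ((0 : ℕ) : ℝ) * alv a b 0
        rw [KLam_omw0]
        show 0 ≤ (1 / 2 : ℝ) + ((1 : ℕ) : ℝ) * -a - ((0 : ℕ) : ℝ) * alv a b 0
        push_cast
        linarith) h1
      exact h2.add (hV.bd0.const_mul_left (lam : ℂ))
    · have h1 := bigO_Phi ha hb hab hH hW 1 o1 1 0
      have h2 := KLam_one ha hb hab1 (by
        show 0 ≤ om (1 / 2) 0 1 + ((1 : ℕ) : ℝ) * alv a b 1 - ((0 : ℕ) : ℝ) * alv a b 1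
        show 0 ≤ (0 : ℝ) + ((1 : ℕ) : ℝ) * b - ((0 : ℕ) : ℝ) * b
        push_cast
        linarith) h1
      exact h2.add (hV.bd1.const_mul_left (lam : ℂ))
    · exact KLam_U_bd2 ha hb hab hH hW hV hlam
  · intro k y hy
    have h1 := phase_Phi ha hb hab hH hW (n - 1) hFp 1 0 k hy
    have e1 : n - 1 - ((0 : ℕ) : ℤ) - ((1 : ℕ) : ℤ) = n - 2 := by push_cast; ring
    rw [e1] at h1
    have h2 := KLam_V_phase ha hb hab1 hV hz hw hx k hy
    unfold KLam_U
    rw [map_add, map_mul, Complex.conj_ofReal, mul_add, mul_left_comm, ← h1, ← h2]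
  · intro k y hy
    have h1 := phase_Phi ha hb hab hH hW (n - 1) hFp 1 1 k hy
    have e1 : n - 1 - ((1 : ℕ) : ℤ) - ((1 : ℕ) : ℤ) = n - 3 := by push_cast; ring
    have e2 : n - 2 - 1 = n - 3 := by ring
    rw [e1] at h1
    have h2 := KLam_m_phase (s1 := s1) ha hb hab1 hz hw hx k hy
    unfold KLam_P
    rw [e2, map_add, map_mul, Complex.conj_ofReal, mul_add, mul_left_comm, ← h1, ← h2]
  · intro k y hy
    have e2 : n - 2 + 1 = n - 1 := by ring
    have h1 := hFp k y hy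
    have h2 := KLam_F_phase' ha hb hab1 hz hw hx k hy
    rw [e2, map_sub, map_mul, Complex.conj_ofReal, mul_sub, mul_left_comm, ← h1, ← h2]
  · intro y hy
    have h1 := KLam_U_deriv (lam := lam) hH hW hV hr hy
    have h2 : Phi g H 0 0 y = MM a b (1 / 2) 0 y := Phi_zero hH y
    rw [h2] at h1
    exact h1
  · refine ⟨fun y => Phi g H 1 2 y + lam * KLam_m1 a b s1 y, Phi g H 0 1,
      fun y => -((-(lam * r) : ℝ) : ℂ) * conj (Phi g H 0 1 y), ?_, continuousOn_Phi hH hW 0 1,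
      ?_, ?_, ?_⟩
    · exact (continuousOn_Phi hH hW 1 2).add (continuousOn_const.mul (KLam_m1_cont ha hb hab1))
    · exact continuousOn_const.mul
        (Complex.continuous_conj.comp_continuousOn (continuousOn_Phi hH hW 0 1))
    · intro y hy
      have h1 : HasFDerivWithinAt (Phi g H 1 1) (DD (Phi g H 1 2 y) (Phi g H 0 1 y))
        (body (tri a b)) y := hasFDerivWithinAt_Phi_succ hH hW 0 1 hy
      have h2 := h1.add ((KLam_m_deriv (s1 := s1) ha hb hab1 hy).const_mul (lam : ℂ))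
      refine h2.congr_fderiv ?_
      refine ContinuousLinearMap.ext fun z => ?_
      simp only [DD_apply, add_apply, smul_apply, smul_eq_mul]
      ring
    · intro y hy
      have h1 : HasFDerivWithinAt (Phi g H 0 0) (DD (Phi g H 0 1 y) 0)
        (body (tri a b)) y := hasFDerivWithinAt_Phi_zero hH hW 0 hy
      have h3 : Phi g H 0 0 = MM a b (1 / 2) 0 := funext fun y => Phi_zero hH y
      rw [h3] at h1
      have h2 : HasFDerivWithinAt (fun y => conj (MM a b (1 / 2) 0 y))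
          (DD 0 (conj (Phi g H 0 1 y))) (body (tri a b)) y := by
        have h4 := (Complex.conjCLE : ℂ ≃L[ℝ] ℂ).hasFDerivAt.comp_hasFDerivWithinAt y h1
        refine h4.congr_fderiv ?_
        refine ContinuousLinearMap.ext fun z => ?_
        simp
      refine (h1.sub (h2.const_mul ((-(lam * r) : ℝ) : ℂ))).congr_fderiv ?_
      refine ContinuousLinearMap.ext fun z => ?_
      simp only [DD_apply, sub_apply, smul_apply, smul_eq_mul]
      ring
  · refine memLp_of_bigO hVfin ((continuousOn_Phi hH hW 1 1).add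
      (continuousOn_const.mul (KLam_m_cont ha hb hab1))) ?_
    rintro _ ⟨k, rfl⟩
    have hk := alv_pos ha hb hab1 k
    have hm := ((KLam_lead_m (s1 := s1) ha hb hab1 k).bigO ha hb hab1).const_mul_left (lam : ℂ)
    obtain rfl | rfl | rfl := Phi_fin3 k
    · have h1 := (lead_Phi ha hb hab hH hW 0 o0 1 1).bigO ha hb hab1
      refine ⟨(1 / 2 - 2 * a) / alv a b 0, ?_, ?_⟩
      · rw [lt_div_iff₀ hk]
        show -1 * a < 1 / 2 - 2 * a
        linarith
      · refine IsBigO.add ?_ hm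
        have e1 : om (1 / 2) 0 0 + ((1 : ℕ) : ℝ) * omw a b 1 0 0 - ((1 : ℕ) : ℝ) * alv a b 0 =
            1 / 2 - 2 * a := by
          rw [KLam_omw0]
          show (1 / 2 : ℝ) + ((1 : ℕ) : ℝ) * -a - ((1 : ℕ) : ℝ) * a = 1 / 2 - 2 * a
          push_cast
          ring
        rw [e1] at h1
        exact h1
    · have h1 := bigO_Phi ha hb hab hH hW 1 o1 1 1
      refine ⟨0 / alv a b 1, ?_, ?_⟩
      · rw [lt_div_iff₀ hk]
        show -1 * b < 0
        linarith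
      · refine IsBigO.add ?_ (hm.trans (Lead_div_le ha hb hab1 1 ?_))
        · have e1 : om (1 / 2) 0 1 + ((1 : ℕ) : ℝ) * alv a b 1 - ((1 : ℕ) : ℝ) * alv a b 1 =
              0 := by
            show (0 : ℝ) + ((1 : ℕ) : ℝ) * b - ((1 : ℕ) : ℝ) * b = 0
            push_cast
            ring
          rw [e1] at h1
          exact h1
        · show 0 ≤ 1 - 2 * b
          linarith
    · refine ⟨_, ?_, KLam_P_bd2 ha hb hab hH hW hlam⟩
      rw [lt_div_iff₀ hk]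
      show -1 * (1 - a - b) < -(1 / 2)
      linarith
  · have h1 : MemLp (fun y => conj (MM a b (1 / 2) 0 y)) 2
        (volume.restrict (body (tri a b))) :=
      ((Complex.conjCLE : ℂ ≃L[ℝ] ℂ) : ℂ →L[ℝ] ℂ).comp_memLp' hL2
    exact hL2.sub (h1.const_mul _)

end core

/-! ### the potential -/

/-- functions with a continuous derivative and given antiholomorphic part -/
structure KLam_D (a b : ℝ) (f q : ℂ → ℂ) : Prop where
  cf : ContinuousOn f (body (tri a b) \ VV a b)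
  cq : ContinuousOn q (body (tri a b) \ VV a b)
  d : ∃ p : ℂ → ℂ, ContinuousOn p (body (tri a b) \ VV a b) ∧
    ∀ y ∈ body (tri a b) \ VV a b, HasFDerivWithinAt f (DD (p y) (q y)) (body (tri a b)) y

theorem KLam_D.mul {a b : ℝ} {f q f' q' : ℂ → ℂ} (h : KLam_D a b f q) (h' : KLam_D a b f' q') :
    KLam_D a b (fun y => f y * f' y) (fun y => f y * q' y + f' y * q y) := by
  obtain ⟨p, hp, hd⟩ := h.d
  obtain ⟨p', hp', hd'⟩ := h'.d
  exact ⟨h.cf.mul h'.cf, (h.cf.mul h'.cq).add (h'.cf.mul h.cq),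
    fun y => f y * p' y + f' y * p y, (h.cf.mul hp').add (h'.cf.mul hp),
    fun y hy => KMain_mul (hd y hy) (hd' y hy)⟩

theorem KLam_D.add {a b : ℝ} {f q f' q' : ℂ → ℂ} (h : KLam_D a b f q) (h' : KLam_D a b f' q') :
    KLam_D a b (fun y => f y + f' y) (fun y => q y + q' y) := by
  obtain ⟨p, hp, hd⟩ := h.d
  obtain ⟨p', hp', hd'⟩ := h'.d
  refine ⟨h.cf.add h'.cf, h.cq.add h'.cq, fun y => p y + p' y, hp.add hp', fun y hy => ?_⟩
  refine ((hd y hy).add (hd' y hy)).congr_fderiv ?_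
  refine ContinuousLinearMap.ext fun z => ?_
  simp only [DD_apply, add_apply]
  ring

theorem KLam_D.const_mul {a b : ℝ} {f q : ℂ → ℂ} (h : KLam_D a b f q) (c : ℂ) :
    KLam_D a b (fun y => c * f y) (fun y => c * q y) := by
  obtain ⟨p, hp, hd⟩ := h.d
  refine ⟨continuousOn_const.mul h.cf, continuousOn_const.mul h.cq, fun y => c * p y,
    continuousOn_const.mul hp, fun y hy => ?_⟩
  refine ((hd y hy).const_mul c).congr_fderiv ?_
  refine ContinuousLinearMap.ext fun z => ?_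
  simp only [DD_apply, smul_apply, smul_eq_mul]
  ring

section pot

variable {a b κ κ' A1 B1 s1 lam : ℝ} {g g' : ℂ → ℂ}
  {H H' : ℕ → ℕ → ℂ → ℂ} {h h' : Fin 3 → ℕ → ℕ → ℂ}

/-- the correction of the potential -/
def KLam_R (a b s1 : ℝ) (g g' : ℂ → ℂ) (H' : ℕ → ℕ → ℂ → ℂ) (y : ℂ) : ℂ :=
  KLam_m a b s1 y * ((conj y + g y) * Phi g' H' 1 1 y +
    (-(1 / 2)) * ((conj y + g y) ^ 2 * Phi g' H' 0 1 y))

theorem KLam_D_W (ha : 0 < a) (hb : 0 < b) (hab : a + b < 1) (hW : WData a b 1 0 κ g) :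
    KLam_D a b (fun y => conj y + g y) (fun _ => 1) :=
  ⟨Complex.continuous_conj.continuousOn.add hW.cont, continuousOn_const, G1 a b 1 0 κ,
    continuousOn_const.mul (continuousOn_MM ha hb hab _ _), fun _ hy => Phi_W_deriv hW hy⟩

theorem KLam_D_11 (hH' : HData a b 0 1 κ' A1 B1 H' h') (hW' : WData a b 0 1 κ' g') :
    KLam_D a b (Phi g' H' 1 1) (Phi g' H' 0 1) :=
  ⟨continuousOn_Phi hH' hW' 1 1, continuousOn_Phi hH' hW' 0 1, Phi g' H' 1 2,
    continuousOn_Phi hH' hW' 1 2, fun _ hy => hasFDerivWithinAt_Phi_succ hH' hW' 0 1 hy⟩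

theorem KLam_D_01 (hH' : HData a b 0 1 κ' A1 B1 H' h') (hW' : WData a b 0 1 κ' g') :
    KLam_D a b (Phi g' H' 0 1) (fun _ => 0) :=
  ⟨continuousOn_Phi hH' hW' 0 1, continuousOn_const, Phi g' H' 0 2,
    continuousOn_Phi hH' hW' 0 2, fun _ hy => hasFDerivWithinAt_Phi_zero hH' hW' 1 hy⟩

theorem KLam_D_m (ha : 0 < a) (hb : 0 < b) (hab : a + b < 1) :
    KLam_D a b (KLam_m a b s1) (fun _ => 0) :=
  ⟨KLam_m_cont ha hb hab, continuousOn_const, KLam_m1 a b s1, KLam_m1_cont ha hb hab,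
    fun _ hy => KLam_m_deriv ha hb hab hy⟩

theorem KLam_D_R (ha : 0 < a) (hb : 0 < b) (hab : a + b < 1) (hW : WData a b 1 0 κ g)
    (hH' : HData a b 0 1 κ' A1 B1 H' h') (hW' : WData a b 0 1 κ' g') :
    KLam_D a b (KLam_R a b s1 g g' H') (fun y => KLam_m a b s1 y * Phi g' H' 1 1 y) := by
  have hDW := KLam_D_W ha hb hab hW
  have h1 := (KLam_D_m (s1 := s1) ha hb hab).mul
    ((hDW.mul (KLam_D_11 hH' hW')).add (((hDW.mul hDW).mul (KLam_D_01 hH' hW')).const_mul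
      (-(1 / 2))))
  have e1 : (fun y => KLam_m a b s1 y * ((conj y + g y) * Phi g' H' 1 1 y +
      (-(1 / 2)) * ((conj y + g y) * (conj y + g y) * Phi g' H' 0 1 y))) =
      KLam_R a b s1 g g' H' := by
    funext y
    unfold KLam_R
    rw [pow_two]
  rw [e1] at h1
  convert h1 using 1
  funext y
  ring

/-- the potential -/
def KLam_PP (a b s1 lam : ℝ) (g : ℂ → ℂ) (H : ℕ → ℕ → ℂ → ℂ) (g' : ℂ → ℂ)
    (H' : ℕ → ℕ → ℂ → ℂ) (y : ℂ) : ℂ :=
  KSplit_P g H g' H' y + lam * KLam_R a b s1 g g' H' y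

theorem KLam_D_PP (ha : 0 < a) (hb : 0 < b) (hab : a + b < 1)
    (hH : HData a b 1 0 κ (1 / 2) 0 H h) (hW : WData a b 1 0 κ g)
    (hH' : HData a b 0 1 κ' A1 B1 H' h') (hW' : WData a b 0 1 κ' g') :
    KLam_D a b (KLam_PP a b s1 lam g H g' H')
      (fun y => KLam_P a b s1 lam g H y * Phi g' H' 1 1 y) := by
  have hcP : ∀ m r, ContinuousOn (Phi g H m r) (body (tri a b) \ VV a b) :=
    fun m r => continuousOn_Phi hH hW m r
  have hcP' : ∀ m r, ContinuousOn (Phi g' H' m r) (body (tri a b) \ VV a b) :=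
    fun m r => continuousOn_Phi hH' hW' m r
  have h1 : KLam_D a b (KSplit_P g H g' H') (fun y => Phi g H 1 1 y * Phi g' H' 1 1 y) :=
    ⟨((hcP 2 1).mul (hcP' 1 1)).add (continuousOn_const.mul ((hcP 3 1).mul (hcP' 0 1))),
      (hcP 1 1).mul (hcP' 1 1), _,
      (((hcP 2 1).mul (hcP' 1 2)).add ((hcP' 1 1).mul (hcP 2 2))).add
      (continuousOn_const.mul (((hcP 3 1).mul (hcP' 0 2)).add ((hcP' 0 1).mul (hcP 3 2)))),
      fun y hy => KSplit_deriv hH hW hH' hW' hy⟩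
  have h2 := h1.add ((KLam_D_R (s1 := s1) ha hb hab hW hH' hW').const_mul (lam : ℂ))
  have e1 : (fun y => KLam_P a b s1 lam g H y * Phi g' H' 1 1 y) =
      fun y => Phi g H 1 1 y * Phi g' H' 1 1 y +
        lam * (KLam_m a b s1 y * Phi g' H' 1 1 y) := by
    funext y
    unfold KLam_P
    ring
  rw [e1]
  exact h2

theorem KLam_l01 (hH' : HData a b 0 1 κ' A1 B1 H' h') (k : Fin 3) :
    Lead a b k (om A1 B1 k - alv a b k) (lm B1 k * bb a b k * (om A1 B1 k : ℝ))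
      (Phi g' H' 0 1) := by
  have h1 := hH'.lead 1 0 k
  rw [hH'.h_succ0, hH'.h_zero] at h1
  have q1 : om A1 B1 k + ((0 : ℕ) : ℝ) * omw a b 0 1 k - ((1 : ℕ) : ℝ) * alv a b k =
      om A1 B1 k - alv a b k := by push_cast; ring
  have q2 : bb a b k * ((om A1 B1 k - ((0 : ℕ) : ℝ) * alv a b k : ℝ) : ℂ) * lm B1 k =
      lm B1 k * bb a b k * (om A1 B1 k : ℝ) := by push_cast; ring
  rw [q1, q2] at h1
  exact Lead.congr h1 fun y _ => by simp [Phi]

/-- leading terms of the correction at the active vertices -/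
theorem KLam_leadR (ha : 0 < a) (hb : 0 < b) (hab : a + b < 1 / 2) (hW : WData a b 1 0 κ g)
    (hH' : HData a b 0 1 κ' A1 B1 H' h') (hW' : WData a b 0 1 κ' g') (k : Fin 3)
    (hk : omw a b 1 0 k < alv a b k)
    (hef : omw a b 0 1 k < alv a b k → omw a b 1 0 k = omw a b 0 1 k) :
    Lead a b k (om (1 / 2 - 2 * a) (1 - 2 * b) k + om A1 B1 k + 2 * omw a b 1 0 k - alv a b k)
      ((-(s1 : ℂ) * bet a b * lm (1 - 2 * b) k) * (lm B1 k * bb a b k * gam a b 1 0 κ k *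
        ((if omw a b 0 1 k < alv a b k then gam a b 0 1 κ' k *
          ((om A1 B1 k + omw a b 1 0 k : ℝ) : ℂ) else 0) -
            gam a b 1 0 κ k * ((om A1 B1 k / 2 : ℝ) : ℂ))))
      (KLam_R a b s1 g g' H') := by
  have hab1 : a + b < 1 := by linarith
  have l11 : Lead a b k (om A1 B1 k + omw a b 1 0 k - alv a b k)
      (if omw a b 0 1 k < alv a b k then lm B1 k * gam a b 0 1 κ' k * bb a b k *
        ((om A1 B1 k + omw a b 1 0 k : ℝ) : ℂ) else 0) (Phi g' H' 1 1) := by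
    by_cases hk' : omw a b 0 1 k < alv a b k
    · rw [if_pos hk']
      have h1 := lead_Phi ha hb hab hH' hW' k hk' 1 1
      rw [← hef hk'] at h1
      have q1 : om A1 B1 k + ((1 : ℕ) : ℝ) * omw a b 1 0 k - ((1 : ℕ) : ℝ) * alv a b k =
          om A1 B1 k + omw a b 1 0 k - alv a b k := by push_cast; ring
      have q2 : lm B1 k * gam a b 0 1 κ' k ^ 1 / ((1 : ℕ).factorial : ℂ) * bb a b k ^ 1 *
          ((∏ s ∈ Finset.range 1, (om A1 B1 k + ((1 : ℕ) : ℝ) * omw a b 1 0 k -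
            s * alv a b k) : ℝ) : ℂ) = lm B1 k * gam a b 0 1 κ' k * bb a b k *
        ((om A1 B1 k + omw a b 1 0 k : ℝ) : ℂ) := by
        rw [Finset.prod_range_one, Nat.factorial_one]
        push_cast
        ring
      rw [q1, q2] at h1
      exact h1
    · rw [if_neg hk']
      have h1 := bigO_Phi ha hb hab hH' hW' k (not_lt.1 hk') 1 1
      refine lead_of_bigO ha hb hab1 ?_ h1
      push_cast
      linarith
  have lW := PhiLead_W ha hb hab1 hW k hk
  have h1 := lW.mul ha hb hab1 l11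
  have h2 := ((lW.pow ha hb hab1 2).mul ha hb hab1 (KLam_l01 (g' := g') hH' k)).const_mul
    ha hb hab1 (-(1 / 2))
  have q1 : omw a b 1 0 k + (om A1 B1 k + omw a b 1 0 k - alv a b k) =
      om A1 B1 k + 2 * omw a b 1 0 k - alv a b k := by ring
  have q2 : ((2 : ℕ) : ℝ) * omw a b 1 0 k + (om A1 B1 k - alv a b k) =
      om A1 B1 k + 2 * omw a b 1 0 k - alv a b k := by push_cast; ring
  rw [q1] at h1
  rw [q2] at h2
  have h3 := (KLam_lead_m (s1 := s1) ha hb hab1 k).mul ha hb hab1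
    (Lead.add ha hb hab1 h1 h2)
  have q3 : om (1 / 2 - 2 * a) (1 - 2 * b) k + (om A1 B1 k + 2 * omw a b 1 0 k - alv a b k) =
      om (1 / 2 - 2 * a) (1 - 2 * b) k + om A1 B1 k + 2 * omw a b 1 0 k - alv a b k := by ring
  rw [q3] at h3
  have q4 : ∀ c c' : ℂ, c = c' → Lead a b k
      (om (1 / 2 - 2 * a) (1 - 2 * b) k + om A1 B1 k + 2 * omw a b 1 0 k - alv a b k) c
        (KLam_R a b s1 g g' H') →
      Lead a b k (om (1 / 2 - 2 * a) (1 - 2 * b) k + om A1 B1 k + 2 * omw a b 1 0 k - alv a b k)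
        c' (KLam_R a b s1 g g' H') := fun c c' hc hl => hc ▸ hl
  refine q4 _ _ ?_ h3
  by_cases hk' : omw a b 0 1 k < alv a b k
  · rw [if_pos hk', if_pos hk']
    push_cast
    ring
  · rw [if_neg hk', if_neg hk']
    push_cast
    ring

/-- the correction at the second vertex -/
theorem KLam_leadR1 (ha : 0 < a) (hb : 0 < b) (hab : a + b < 1 / 2) (hW : WData a b 1 0 κ g)
    (hH' : HData a b 0 1 κ' A1 B1 H' h') (hW' : WData a b 0 1 κ' g') (hB1 : b ≤ B1) :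
    Lead a b 1 (-alv a b 1) 0 (KLam_R a b s1 g g' H') := by
  have hab1 : a + b < 1 := by linarith
  have ho : omw a b 0 1 1 = -b := by
    show 1 - b - ((1 : ℕ) : ℝ) = -b
    push_cast; ring
  have hm := (KLam_lead_m (s1 := s1) ha hb hab1 1).bigO ha hb hab1
  have hWO : (fun y => conj y + g y) =O[𝓝[body (tri a b) \ VV a b] (tri a b 1)]
      (fun y => ‖y - tri a b 1‖ ^ (b / alv a b 1)) := by
    have e0 : b / alv a b 1 = 1 := div_self hb.ne'
    rw [e0]
    have h1 := (hW.lead 1).bigO ha hb hab1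
    have h2 := h1.trans (PhiLead_mono (a := a) (b := b) 1
      (p := 1) (q := omw a b 1 0 1 / alv a b 1) (by
        rw [KLam_omw1, le_div_iff₀ (alv_pos ha hb hab1 1), one_mul]
        show b ≤ 1 - b
        linarith))
    have h3 := (PhiLead_conj (a := a) (b := b) 1).add h2
    refine h3.congr_left fun y => PhiLead_W_eq g _ y
  have h11 := (lead_Phi ha hb hab hH' hW' 1 (by
    rw [ho]
    show -b < b
    linarith) 1 1).bigO ha hb hab1
  have h01 := (KLam_l01 (g' := g') hH' 1).bigO ha hb hab1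
  have t1 : Lead a b 1 (-alv a b 1) 0
      (fun y => KLam_m a b s1 y * ((conj y + g y) * Phi g' H' 1 1 y)) := by
    refine lead_of_bigO ha hb hab1 ?_ (Lead_mul_bigO hm (Lead_mul_bigO hWO h11))
    rw [ho]
    show -b < 1 - 2 * b + (b + (B1 + ((1 : ℕ) : ℝ) * -b - ((1 : ℕ) : ℝ) * b))
    push_cast
    linarith
  have t2 : Lead a b 1 (-alv a b 1) 0
      (fun y => KLam_m a b s1 y * (((conj y + g y) * (conj y + g y)) * Phi g' H' 0 1 y)) := by
    refine lead_of_bigO ha hb hab1 ?_ (Lead_mul_bigO hm (Lead_mul_bigO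
      (Lead_mul_bigO hWO hWO) h01))
    show -b < 1 - 2 * b + (b + b + (B1 - b))
    linarith
  have t3 := Lead.add ha hb hab1 t1 (t2.const_mul ha hb hab1 (-(1 / 2)))
  rw [mul_zero, add_zero] at t3
  refine Lead.congr t3 fun y _ => ?_
  unfold KLam_R
  ring

end pot

theorem KLam_mod {M : ℕ} (hN : 2 * (p + q) < N) (hNM : N = 2 * M) (hpo : Odd p) (hqe : Even q) :
    (M + 1) * p % N = M + p ∧ (M + 1) * q % N = q := by
  obtain ⟨k, hk⟩ := hpo
  obtain ⟨l, hl⟩ := hqe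
  subst hNM
  constructor
  · have e1 : (M + 1) * p = (M + p) + (2 * M) * k := by rw [hk]; ring
    rw [e1, Nat.add_mul_mod_self_left]
    exact Nat.mod_eq_of_lt (by omega)
  · have e1 : (M + 1) * q = q + (2 * M) * l := by rw [hl]; ring
    rw [e1, Nat.add_mul_mod_self_left]
    exact Nat.mod_eq_of_lt (by omega)

theorem KLam_agp {M : ℕ} (hN : 2 * (p + q) < N) (hNM : N = 2 * M) (hpo : Odd p) (hqe : Even q) :
    ag N p (M + 1) = (p : ℝ) / N + 1 / 2 := by
  unfold ag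
  rw [(KLam_mod hN hNM hpo hqe).1]
  have hM : (M : ℝ) ≠ 0 := by
    have : M ≠ 0 := by omega
    exact_mod_cast this
  subst hNM
  push_cast
  field_simp
  ring

theorem KLam_agq {M : ℕ} (hN : 2 * (p + q) < N) (hNM : N = 2 * M) (hpo : Odd p) (hqe : Even q) :
    ag N q (M + 1) = (q : ℝ) / N := by
  unfold ag
  rw [(KLam_mod hN hNM hpo hqe).2]

theorem KLam_Hol {M : ℕ} (hp : 0 < p) (hq : 0 < q) (hN : 2 * (p + q) < N) (hNM : N = 2 * M)
    (hpo : Odd p) (hqe : Even q) : Hol N p q (M + 1) := by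
  obtain ⟨h1, h2⟩ := KLam_mod hN hNM hpo hqe
  unfold Hol
  rw [h1, h2]
  refine ⟨by omega, hq, by omega⟩

end

theorem KLam_alg0 {s s0 G G2 lam s1 a b t : ℂ} (hs0 : s0 ≠ 0) (hs : s ≠ 0)
    (hls : lam * s1 = (1 / 2 - a - b) * (G2 / s0)) :
    (1 * 1 * s ^ 2 * (G / s0) ^ 2 * (0 - (G / s0) * (t * (1 / 2 + 3 * -a) / 6)) +
      lam * ((-s1 * s * 1) * (1 * s * (G / s0) * (0 - (G / s0) * (t / 2))))) / s =
    s / s0 ^ 3 * -(t * G ^ 2 * ((1 / 2 - 3 * a) * G / 6 - (1 / 2 - a - b) * G2 / 2)) := by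
  have e : lam * ((-s1 * s * 1) * (1 * s * (G / s0) * (0 - (G / s0) * (t / 2)))) =
      (lam * s1) * ((-s) * (1 * s * (G / s0) * (0 - (G / s0) * (t / 2)))) := by ring
  rw [e, hls]
  field_simp
  ring

theorem KLam_alg2 {L σ E s s0 G G' lam s1 a b t : ℂ} (hs0 : s0 ≠ 0) (hs : s ≠ 0) (hσ : σ ≠ 0)
    (hL : L * σ ^ 4 = E) (hls : lam * s1 = (1 / 2 - a - b) * (G / s0)) :
    (1 * L * (s * σ) ^ 2 * ((G / s0) * σ) ^ 2 * ((G' / s0) * σ *
        ((-(1 / 2) + 2 * (a + b)) * (t + (a + b)) / 2) -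
        (G / s0) * σ * (t * (-(1 / 2) + 3 * (a + b)) / 6)) +
      lam * ((-s1 * s * (-σ ^ 2)) * (L * (s * σ) * ((G / s0) * σ) *
        ((G' / s0) * σ * (t + (a + b)) - (G / s0) * σ * (t / 2))))) / (s * σ) =
    s / s0 ^ 3 * (E * ((1 / 2 - a - b - (1 - a - b)) * G ^ 2 *
      (t * G / 3 - (t + (1 - (1 - a - b))) * G' / 2))) := by
  have e : lam * ((-s1 * s * (-σ ^ 2)) * (L * (s * σ) * ((G / s0) * σ) *
        ((G' / s0) * σ * (t + (a + b)) - (G / s0) * σ * (t / 2)))) =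
      (lam * s1) * (s * σ ^ 2 * (L * (s * σ) * ((G / s0) * σ) *
        ((G' / s0) * σ * (t + (a + b)) - (G / s0) * σ * (t / 2)))) := by ring
  rw [e, hls, ← hL]
  field_simp
  ring

theorem KLam_lm2 (b : ℝ) : lm (1 - 2 * b) 2 = -(Complex.exp (π * b * Complex.I)) ^ 2 := by
  show Complex.exp (-(π * ((1 - 2 * b : ℝ) : ℂ)) * Complex.I) = _
  have e1 : (-(π * ((1 - 2 * b : ℝ) : ℂ)) * Complex.I : ℂ) =
      -(π * Complex.I) + ((2 : ℕ) : ℂ) * (π * b * Complex.I) := by push_cast; ring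
  rw [e1, Complex.exp_add, Complex.exp_neg, Complex.exp_pi_mul_I, Complex.exp_nat_mul]
  norm_num

theorem KLam_Gc0 {a b : ℝ} (ha : 0 < a) : Gc a b 1 0 0 = -(1 / (1 - a - b)) := by
  show 1 * kc a b 1 0 / (1 - a - ((1 : ℕ) : ℝ)) = _
  have e1 : kc a b 1 0 = a / (1 - a - b) := by simp [kc]
  have e2 : (1 - a - ((1 : ℕ) : ℝ)) = -a := by push_cast; ring
  rw [e1, e2, one_mul, div_neg, div_right_comm, div_self ha.ne']

theorem KLam_Gc2 {a b : ℝ} : Gc a b 1 0 2 = -(a / ((1 - a - b) * (1 - (1 - a - b)))) := by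
  show (-1) ^ 0 * kc a b 1 0 / (1 - a - b - ((1 : ℕ) : ℝ) - ((0 : ℕ) : ℝ)) = _
  have e1 : kc a b 1 0 = a / (1 - a - b) := by simp [kc]
  have e2 : (1 - a - b - ((1 : ℕ) : ℝ) - ((0 : ℕ) : ℝ)) = -(1 - (1 - a - b)) := by
    push_cast; ring
  rw [e1, e2, pow_zero, one_mul, div_neg, div_div]

theorem KLam_Gc2' {a b : ℝ} : Gc a b 0 1 2 = b / ((1 - a - b) * (1 - (1 - a - b))) := by
  show (-1) ^ 1 * kc a b 0 1 / (1 - a - b - ((0 : ℕ) : ℝ) - ((1 : ℕ) : ℝ)) = _
  have e1 : kc a b 0 1 = b / (1 - a - b) := by simp [kc]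
  have e2 : (1 - a - b - ((0 : ℕ) : ℝ) - ((1 : ℕ) : ℝ)) = -(1 - (1 - a - b)) := by
    push_cast; ring
  rw [e1, e2, pow_one, div_neg, neg_one_mul, neg_div, neg_neg, div_div]

/-- the split test for `j = M + 1`, `N = 2 M`, `p` odd, `q` even, with the correction
`f_j - λ conj f_j` in the first stage; `a = p/N`, `b = q/N`, `AL j = (a + 1/2, b, 1/2 - a - b)` -/
theorem K_lam (hp : 0 < p) (hq : 0 < q) (hN : 2 * (p + q) < N)
    (hg : Nat.gcd (Nat.gcd p q) N = 1) (hL : LatticeTriangle (TN N p q)) {M i : ℕ}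
    (hNM : N = 2 * M) (hpo : Odd p) (hqe : Even q)
    (hu : Nat.Coprime i N ∨ Nat.Coprime (M + 1) N) (hHi : Hol N p q i)
    (hij : ¬ i ≡ M + 1 [MOD N]) (hM : i + (M + 1) ≡ 6 [MOD N])
    (h1 : 2 * ((q : ℝ) / N) ≤ AL N p q i 1)
    (h2 : 1 - 2 * ((p : ℝ) / N) - 2 * ((q : ℝ) / N) ≤ AL N p q i 2)
    (h3 : AL N p q i 0 + AL N p q (M + 1) 0 = 6 * ((p : ℝ) / N))
    (h4 : AL N p q i 2 + AL N p q (M + 1) 2 = 3 * (1 - 2 * ((p : ℝ) / N) - 2 * ((q : ℝ) / N)))
    (n2 : ℤ) (hn2 : (n2 : ℝ) = ag N q i + ag N q (M + 1) - 6 * ((q : ℝ) / N))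
    {a b c t t2 G0 G2 G2' : ℝ} (hadef : a = (p : ℝ) / N) (hbdef : b = (q : ℝ) / N)
    (hc : c = 1 - a - b) (ht : t = AL N p q i 0 - a) (ht2 : t2 = AL N p q i 2 - c)
    (hG0 : G0 = -(1 / c)) (hG2 : G2 = -(a / (c * (1 - c)))) (hG2' : G2' = b / (c * (1 - c))) :
    -(t * G0 ^ 2 * ((1 / 2 - 3 * a) * G0 / 6 - (1 / 2 - a - b) * G2 / 2)) +
      (-1) ^ n2 * ((1 / 2 - a - b - c) * G2 ^ 2 * (t2 * G2 / 3 - (t2 + (1 - c)) * G2' / 2)) = 0 := by
  classical
  have hN0 : 0 < N := by omega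
  have hNR : (0 : ℝ) < N := by exact_mod_cast hN0
  have hpq : p + q < N := by omega
  have ha : 0 < (p : ℝ) / N := div_pos (by exact_mod_cast hp) hNR
  have hb : 0 < (q : ℝ) / N := div_pos (by exact_mod_cast hq) hNR
  have hab : (p : ℝ) / N + (q : ℝ) / N < 1 / 2 := by
    rw [← add_div, div_lt_div_iff₀ hNR two_pos]
    have : ((2 * (p + q) : ℕ) : ℝ) < N := by exact_mod_cast hN
    push_cast at this
    linarith
  have hab1 : (p : ℝ) / N + (q : ℝ) / N < 1 := by linarith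
  have hHj : Hol N p q (M + 1) := KLam_Hol hp hq hN hNM hpo hqe
  have hagp := KLam_agp hN hNM hpo hqe
  have hagq := KLam_agq hN hNM hpo hqe
  have hALi := KMain_AL (N := N) (p := p) (q := q) (i := i)
  have hALip := KMain_AL_pos hN0 hHi
  have hphi := phase_FF hp hq hpq i
  obtain ⟨z, hz⟩ := Form1_ag (p := p) hN0 (M + 1) 0
  obtain ⟨w, hw⟩ := Form1_ag (p := q) hN0 (M + 1) 0
  rw [Int.cast_zero, zero_mul, sub_zero, sub_zero, hagp] at hz
  rw [Int.cast_zero, zero_mul, sub_zero, sub_zero, hagq] at hw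
  have hchiN : ∀ k, chi (TN N p q) k ^ N = 1 := fun k => uu_pow_N hp hq hpq (r (TN N p q) k)
  have hchi0 : ∀ k, chi (TN N p q) k ≠ 0 := by
    intro k h0
    have := hchiN k
    rw [h0, zero_pow hN0.ne'] at this
    exact zero_ne_one this
  have hx : ∀ k, chi (TN N p q) k ^ (2 * (((M + 1 : ℕ) : ℤ)) - 2) = 1 := by
    intro k
    have e1 : 2 * (((M + 1 : ℕ) : ℤ)) - 2 = ((N : ℕ) : ℤ) := by rw [hNM]; push_cast; ring
    rw [e1, zpow_natCast]
    exact hchiN k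
  have hAL0 : AL N p q (M + 1) 0 = (p : ℝ) / N + 1 / 2 := hagp
  have hAL2 : AL N p q (M + 1) 2 = 1 / 2 - (p : ℝ) / N - (q : ℝ) / N := by
    show 1 - ag N p (M + 1) - ag N q (M + 1) = _
    rw [hagp, hagq]
    ring
  rw [hAL0] at h3
  rw [hAL2] at h4
  rw [hagq] at hn2
  have hFFj : FF N p q (M + 1) = MM ((p : ℝ) / N) ((q : ℝ) / N) (1 / 2) 0 := by
    unfold FF
    rw [hagp, hagq, sub_self, add_sub_cancel_left]
  have hcritF := crit_iso3 hp hq hN hg hL (i := M + 1) (j := i) hu.symm hHj hHi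
    (fun h => hij h.symm) 1 1 (by rw [add_comm]; exact hM)
  simp only [FF] at hphi
  simp only [TN] at hchiN hchi0 hphi hx hcritF
  subst hadef hbdef
  set a : ℝ := (p : ℝ) / N with ha_def
  set b : ℝ := (q : ℝ) / N with hb_def
  set A1 : ℝ := ag N p i - a with hA1
  set B1 : ℝ := ag N q i - b with hB1
  have halv : ∀ k, 0 < alv a b k := alv_pos ha hb hab1
  obtain ⟨s0, hs0, hWex⟩ := exists_WData_exact ha hb hab
  obtain ⟨g, hW⟩ := hWex 1 0 le_rfl zero_le_one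
  obtain ⟨g', hW'⟩ := hWex 0 1 zero_le_one le_rfl
  obtain ⟨H, h, hH⟩ := exists_H ha hb hab 1 0 le_rfl zero_le_one (kc a b 1 0 / s0) (1 / 2) 0
  obtain ⟨H', h', hH'⟩ := exists_H ha hb hab 0 1 zero_le_one le_rfl (kc a b 0 1 / s0) A1 B1
  obtain ⟨s1, V, hV⟩ := exists_V ha hb hab1 (a' := a + 1 / 2) (b' := b) (by linarith) hb
    (by linarith)
  obtain ⟨s, hsp, hs⟩ := bet_pos ha hb
  obtain ⟨s', hsp', hs'⟩ := bet_pos (show 0 < a + 1 / 2 by linarith) hb
  have hs1 := hV.pos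
  set κ : ℝ := kc a b 1 0 / s0 with hκ
  set lam : ℝ := -κ * (1 / 2 - a - b) / (a + b) / s1 with hlamd
  have hlam : lam * s1 = -κ * (1 / 2 - a - b) / (a + b) := by
    rw [hlamd]
    exact div_mul_cancel₀ _ hs1.ne'
  have hr : bet a b / bet (a + 1 / 2) b = ((s / s' : ℝ) : ℂ) := by
    rw [hs, hs', Complex.ofReal_div]
  have h0i : ∀ k, -alv a b k < om A1 B1 k := by
    intro k
    have := hALi k
    have := hALip k
    linarith
  -- the functions are nice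
  have hXn := KLam_nice ha hb hab hH hW hV hlam hr hz hw hx
  have hZn : NiceT a b ((i : ℤ) - 2) (Phi g' H' 1 0) (Phi g' H' 1 1) (Phi g' H' 0 0) := by
    have h5 := niceT_Phi ha hb hab hH' hW' ((i : ℤ) - 1) (fun k y hy => hphi k hy) 0 h0i (by
      intro k hk
      rw [hALi k, Nat.cast_zero, zero_add, one_mul]
      obtain rfl | rfl | rfl := Phi_fin3 k
      · exfalso
        have h6 : 1 - a - ((0 : ℕ) : ℝ) < a := hk
        push_cast at h6
        linarith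
      · refine le_trans (le_of_eq ?_) h1
        show b - (1 - b - ((1 : ℕ) : ℝ)) = 2 * b
        push_cast
        ring
      · refine le_trans (le_of_eq ?_) h2
        show (1 - a - b) - (((0 : ℕ) : ℝ) + ((1 : ℕ) : ℝ) - (1 - a - b)) = 1 - 2 * a - 2 * b
        push_cast
        ring)
    have e1 : (i : ℤ) - 1 - 2 * ((0 : ℕ) : ℤ) - 1 = (i : ℤ) - 2 := by push_cast; ring
    rw [e1] at h5
    exact h5
  have crit := hcritF (fun m => if m = 0 then MM a b (1 / 2) 0 else KLam_P a b s1 lam g H)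
    (fun _ => KLam_U lam g V H) (fun m => Phi g' H' m m) (fun m => Phi g' H' (m + 1) m)
    (fun _ => -(lam * (s / s'))) (fun _ => 0) (fun _ => M + 1) (fun _ => 0)
    (fun m hm => Or.inr ⟨hHj, by
      obtain rfl : m = 0 := by omega
      have e1 : M + 1 + (M + 1) = N + 2 * (0 + 1) := by omega
      rw [e1]
      simp [Nat.ModEq]⟩) (fun m hm => Or.inl rfl)
    (by rw [if_pos rfl, hFFj]) (by
      funext y
      exact Phi_zero hH' y) (by
      intro m hm
      obtain rfl : m = 0 := by omega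
      have e1 : ((M + 1 : ℕ) : ℤ) - 2 * (((0 : ℕ) : ℤ) + 1) = ((M + 1 : ℕ) : ℤ) - 2 := by
        push_cast; ring
      rw [e1]
      simp only [hFFj]
      exact hXn) (by
      intro m hm
      obtain rfl : m = 0 := by omega
      have e1 : (i : ℤ) - 2 * (((0 : ℕ) : ℤ) + 1) = (i : ℤ) - 2 := by
        push_cast; ring
      rw [e1]
      simp only [Complex.ofReal_zero, zero_mul, sub_zero]
      exact hZn)
  have crit' : (∫ y in body (tri a b), KLam_P a b s1 lam g H y * Phi g' H' 1 1 y).re = 0 := crit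
  have hD := KLam_D_PP (s1 := s1) (lam := lam) ha hb hab1 hH hW hH' hW'
  obtain ⟨ph1, hph1, hd⟩ := hD.d
  have hint : IntegrableOn (fun y => KLam_P a b s1 lam g H y * Phi g' H' 1 1 y)
      (body (tri a b)) := MemLp.integrable_mul hXn.L2a hZn.L2a
  have hM' : M + 1 + i ≡ 6 [MOD N] := by rw [add_comm]; exact hM
  have hedge : ∀ k : Fin 3, ∀ y ∈ edge (tri a b) k \ Set.range (tri a b),
      (KLam_PP a b s1 lam g H g' H' y * (tri a b (k + 2) - tri a b (k + 1))).im = 0 := by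
    intro k y hy
    refine KMain_im (tri_ne ha hb hab1 k) ?_
    have hFp : ∀ k, ∀ y ∈ edge (tri a b) k \ VV a b,
        MM a b (1 / 2) 0 y = chi (tri a b) k ^ (((M + 1 : ℕ) : ℤ) - 1) *
          conj (MM a b (1 / 2) 0 y) := fun k y hy => KLam_F_phase ha hb hab1 hz hw k hy
    have h21 := phase_Phi ha hb hab hH hW (((M + 1 : ℕ) : ℤ) - 1) hFp 2 1 k hy
    have h31 := phase_Phi ha hb hab hH hW (((M + 1 : ℕ) : ℤ) - 1) hFp 3 1 k hy
    have h11 := phase_Phi ha hb hab hH' hW' ((i : ℤ) - 1) (fun k y hy => hphi k hy) 1 1 k hy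
    have h01 := phase_Phi ha hb hab hH' hW' ((i : ℤ) - 1) (fun k y hy => hphi k hy) 0 1 k hy
    have hm := KLam_m_phase (s1 := s1) ha hb hab1 hz hw hx k hy
    have hWp := hW.phase k y hy
    have w1 := KSplit_pow (hchi0 k) (hchiN k) hM'
      (((M + 1 : ℕ) : ℤ) - 1 - ((1 : ℕ) : ℤ) - ((2 : ℕ) : ℤ))
      ((i : ℤ) - 1 - ((1 : ℕ) : ℤ) - ((1 : ℕ) : ℤ)) (by push_cast; ring)
    have w2 := KSplit_pow (hchi0 k) (hchiN k) hM'
      (((M + 1 : ℕ) : ℤ) - 1 - ((1 : ℕ) : ℤ) - ((3 : ℕ) : ℤ))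
      ((i : ℤ) - 1 - ((1 : ℕ) : ℤ) - ((0 : ℕ) : ℤ)) (by push_cast; ring)
    have w3 : chi (tri a b) k ^ (((M + 1 : ℕ) : ℤ) - 3) * (chi (tri a b) k)⁻¹ =
        chi (tri a b) k ^ (((M + 1 : ℕ) : ℤ) - 1 - ((1 : ℕ) : ℤ) - ((2 : ℕ) : ℤ)) := by
      rw [← zpow_sub_one₀ (hchi0 k)]
      congr 1
      push_cast
      ring
    have w4 : chi (tri a b) k ^ (((M + 1 : ℕ) : ℤ) - 3) * (chi (tri a b) k)⁻¹ *
        (chi (tri a b) k)⁻¹ =
        chi (tri a b) k ^ (((M + 1 : ℕ) : ℤ) - 1 - ((1 : ℕ) : ℤ) - ((3 : ℕ) : ℤ)) := by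
      rw [← zpow_sub_one₀ (hchi0 k), ← zpow_sub_one₀ (hchi0 k)]
      congr 1
      push_cast
      ring
    have r1 : Phi g H 2 1 y * Phi g' H' 1 1 y = (chi (tri a b) k)⁻¹ *
        conj (Phi g H 2 1 y * Phi g' H' 1 1 y) := by
      rw [← w1, map_mul]
      nth_rewrite 1 [h21, h11]
      ring
    have r2 : Phi g H 3 1 y * Phi g' H' 0 1 y = (chi (tri a b) k)⁻¹ *
        conj (Phi g H 3 1 y * Phi g' H' 0 1 y) := by
      rw [← w2, map_mul]
      nth_rewrite 1 [h31, h01]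
      ring
    have r3 : KLam_m a b s1 y * (conj y + g y) * Phi g' H' 1 1 y = (chi (tri a b) k)⁻¹ *
        conj (KLam_m a b s1 y * (conj y + g y) * Phi g' H' 1 1 y) := by
      calc KLam_m a b s1 y * (conj y + g y) * Phi g' H' 1 1 y =
          (chi (tri a b) k ^ (((M + 1 : ℕ) : ℤ) - 3) * conj (KLam_m a b s1 y)) *
            ((chi (tri a b) k)⁻¹ * conj (conj y + g y)) *
            (chi (tri a b) k ^ ((i : ℤ) - 1 - ((1 : ℕ) : ℤ) - ((1 : ℕ) : ℤ)) *
              conj (Phi g' H' 1 1 y)) := by rw [← hm, ← hWp, ← h11]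
        _ = (chi (tri a b) k ^ (((M + 1 : ℕ) : ℤ) - 3) * (chi (tri a b) k)⁻¹) *
            (chi (tri a b) k ^ ((i : ℤ) - 1 - ((1 : ℕ) : ℤ) - ((1 : ℕ) : ℤ))) *
            (conj (KLam_m a b s1 y) * conj (conj y + g y) * conj (Phi g' H' 1 1 y)) := by ring
        _ = _ := by rw [w3, w1, ← map_mul, ← map_mul]
    have r4 : KLam_m a b s1 y * (conj y + g y) * (conj y + g y) * Phi g' H' 0 1 y =
        (chi (tri a b) k)⁻¹ *
        conj (KLam_m a b s1 y * (conj y + g y) * (conj y + g y) * Phi g' H' 0 1 y) := by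
      calc KLam_m a b s1 y * (conj y + g y) * (conj y + g y) * Phi g' H' 0 1 y =
          (chi (tri a b) k ^ (((M + 1 : ℕ) : ℤ) - 3) * conj (KLam_m a b s1 y)) *
            ((chi (tri a b) k)⁻¹ * conj (conj y + g y)) *
            ((chi (tri a b) k)⁻¹ * conj (conj y + g y)) *
            (chi (tri a b) k ^ ((i : ℤ) - 1 - ((1 : ℕ) : ℤ) - ((0 : ℕ) : ℤ)) *
              conj (Phi g' H' 0 1 y)) := by rw [← hm, ← hWp, ← h01]
        _ = (chi (tri a b) k ^ (((M + 1 : ℕ) : ℤ) - 3) * (chi (tri a b) k)⁻¹ *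
            (chi (tri a b) k)⁻¹) *
            (chi (tri a b) k ^ ((i : ℤ) - 1 - ((1 : ℕ) : ℤ) - ((0 : ℕ) : ℤ))) *
            (conj (KLam_m a b s1 y) * conj (conj y + g y) * conj (conj y + g y) *
              conj (Phi g' H' 0 1 y)) := by ring
        _ = _ := by rw [w4, w2, ← map_mul, ← map_mul, ← map_mul]
    have key : ∀ T1 T2 T3 T4 x : ℂ, T1 = x * conj T1 → T2 = x * conj T2 → T3 = x * conj T3 →
        T4 = x * conj T4 → T1 + (-1) * T2 + lam * (T3 + (-(1 / 2)) * T4) =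
          x * conj (T1 + (-1) * T2 + lam * (T3 + (-(1 / 2)) * T4)) := by
      intro T1 T2 T3 T4 x q1 q2 q3 q4
      simp only [map_add, map_mul, map_neg, map_one, map_div₀, map_ofNat, Complex.conj_ofReal]
      linear_combination q1 - q2 + (lam : ℂ) * q3 - (lam : ℂ) / 2 * q4
    have hPP : KLam_PP a b s1 lam g H g' H' y = Phi g H 2 1 y * Phi g' H' 1 1 y +
        (-1) * (Phi g H 3 1 y * Phi g' H' 0 1 y) +
        lam * (KLam_m a b s1 y * (conj y + g y) * Phi g' H' 1 1 y +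
          (-(1 / 2)) * (KLam_m a b s1 y * (conj y + g y) * (conj y + g y) *
            Phi g' H' 0 1 y)) := by
      unfold KLam_PP KSplit_P KLam_R
      ring
    rw [hPP]
    exact key _ _ _ _ _ r1 r2 r3 r4
  -- the leading terms
  have eA0 : A1 + a = AL N p q i 0 := hALi 0
  have eA1 : B1 + b = AL N p q i 1 := hALi 1
  have eA2 : om A1 B1 2 + (1 - a - b) = AL N p q i 2 := hALi 2
  have oe0 : omw a b 1 0 0 = -a := KLam_omw0
  have oe2 : omw a b 1 0 2 = a + b := KLam_omw2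
  have of0 : omw a b 0 1 0 = 1 - a := by
    show 1 - a - ((0 : ℕ) : ℝ) = 1 - a
    push_cast; ring
  have of2 : omw a b 0 1 2 = a + b := by
    show ((0 : ℕ) : ℝ) + ((1 : ℕ) : ℝ) - (1 - a - b) = a + b
    push_cast; ring
  have al0 : alv a b 0 = a := rfl
  have al2 : alv a b 2 = 1 - a - b := rfl
  have hn0 : ¬ omw a b 0 1 0 < alv a b 0 := by
    rw [of0, al0]
    linarith
  have hk0 : omw a b 1 0 0 < alv a b 0 := by
    rw [oe0, al0]
    linarith
  have hk2 : omw a b 1 0 2 < alv a b 2 := by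
    rw [oe2, al2]
    linarith
  have hk2' : omw a b 0 1 2 < alv a b 2 := by
    rw [of2, al2]
    linarith
  have l0a := KSplit_lead ha hb hab hH hW hH' hW' 0 hk0 (fun h => absurd h hn0)
  have l0b := (KLam_leadR (s1 := s1) ha hb hab hW hH' hW' 0 hk0
    (fun h => absurd h hn0)).const_mul ha hb hab1 (lam : ℂ)
  have l2a := KSplit_lead ha hb hab hH hW hH' hW' 2 hk2 (fun _ => by rw [oe2, of2])
  have l2b := (KLam_leadR (s1 := s1) ha hb hab hW hH' hW' 2 hk2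
    (fun _ => by rw [oe2, of2])).const_mul ha hb hab1 (lam : ℂ)
  have l1a := KSplit_lead0 ha hb hab hH hW hH' hW' 1 (by
    rw [KLam_omw1]
    show b ≤ 1 - b
    linarith) (by
    show 0 < 0 + b
    linarith) (by
    rw [hALi 1]
    exact hALip 1) (fun _ => by
    rw [hALi 1]
    refine le_trans (le_of_eq ?_) h1
    show b - (1 - b - ((1 : ℕ) : ℝ)) = 2 * b
    push_cast
    ring)
  have l1b := (KLam_leadR1 (s1 := s1) ha hb hab hW hH' hW' (by linarith)).const_mul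
    ha hb hab1 (lam : ℂ)
  have hl1 := Lead.add ha hb hab1 l1a l1b
  have q0a : om (1 / 2) 0 0 + om A1 B1 0 + 3 * omw a b 1 0 0 - 2 * alv a b 0 = -alv a b 0 := by
    rw [oe0]
    show 1 / 2 + A1 + 3 * -a - 2 * a = -a
    linarith
  have q0b : om (1 / 2 - 2 * a) (1 - 2 * b) 0 + om A1 B1 0 + 2 * omw a b 1 0 0 - alv a b 0 =
      -alv a b 0 := by
    rw [oe0]
    show 1 / 2 - 2 * a + A1 + 2 * -a - a = -a
    linarith
  have q2a : om (1 / 2) 0 2 + om A1 B1 2 + 3 * omw a b 1 0 2 - 2 * alv a b 2 = -alv a b 2 := by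
    rw [oe2, al2]
    show -(1 / 2 + 0) + om A1 B1 2 + 3 * (a + b) - 2 * (1 - a - b) = -(1 - a - b)
    linarith
  have q2b : om (1 / 2 - 2 * a) (1 - 2 * b) 2 + om A1 B1 2 + 2 * omw a b 1 0 2 - alv a b 2 =
      -alv a b 2 := by
    rw [oe2, al2]
    show -(1 / 2 - 2 * a + (1 - 2 * b)) + om A1 B1 2 + 2 * (a + b) - (1 - a - b) =
      -(1 - a - b)
    linarith
  rw [q0a] at l0a
  rw [q0b] at l0b
  rw [q2a] at l2a
  rw [q2b] at l2b
  have hl0 := Lead.add ha hb hab1 l0a l0b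
  have hl2 := Lead.add ha hb hab1 l2a l2b
  rw [if_neg hn0, if_neg hn0] at hl0
  rw [if_pos hk2', if_pos hk2'] at hl2
  have t0 := Lead.tendsto ha hb hab1 hl0
  have t1 := Lead.tendsto ha hb hab1 hl1
  have t2' := Lead.tendsto ha hb hab1 hl2
  have hs0c : (s0 : ℂ) ≠ 0 := by exact_mod_cast hs0.ne'
  have hsc : (s : ℂ) ≠ 0 := by exact_mod_cast hsp.ne'
  have hac : (a : ℂ) ≠ 0 := by exact_mod_cast ha.ne'
  have hcc : ((1 - a - b : ℝ) : ℂ) ≠ 0 := by
    rw [Complex.ofReal_ne_zero]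
    linarith
  subst hc
  have hGc0 : Gc a b 1 0 0 = G0 := by rw [hG0]; exact KLam_Gc0 ha
  have hGc2 : Gc a b 1 0 2 = G2 := by rw [hG2]; exact KLam_Gc2
  have hGc2' : Gc a b 0 1 2 = G2' := by rw [hG2']; exact KLam_Gc2'
  have hγ0 : gam a b 1 0 κ 0 = (G0 : ℂ) / s0 := by
    rw [hκ, KSplit_gam, hGc0]
    show ((G0 / s0 : ℝ) : ℂ) * 1 = _
    push_cast
    ring
  have hγ2 : gam a b 1 0 κ 2 = (G2 : ℂ) / s0 * Complex.exp (π * b * Complex.I) := by
    rw [hκ, KSplit_gam, hGc2]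
    show ((G2 / s0 : ℝ) : ℂ) * Complex.exp (π * b * Complex.I) = _
    push_cast
    ring
  have hγ2' : gam a b 0 1 (kc a b 0 1 / s0) 2 =
      (G2' : ℂ) / s0 * Complex.exp (π * b * Complex.I) := by
    rw [KSplit_gam, hGc2']
    show ((G2' / s0 : ℝ) : ℂ) * Complex.exp (π * b * Complex.I) = _
    push_cast
    ring
  have hls' : lam * s1 = (1 / 2 - a - b) * (G2 / s0) := by
    have e1 : kc a b 1 0 = a / (1 - a - b) := by simp [kc]
    have e2 : (1 - (1 - a - b)) = a + b := by ring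
    have e3 : a + b ≠ 0 := by linarith
    have e4 : 1 - a - b ≠ 0 := by linarith
    rw [hlam, hκ, hG2, e1, e2]
    field_simp
  have hls : (lam : ℂ) * s1 = (1 / 2 - a - b) * (G2 / s0) := by
    have h5 := congrArg (fun x : ℝ => (x : ℂ)) hls'
    push_cast at h5
    exact h5
  have hn2' : (n2 : ℝ) = 0 + B1 - 4 * b := by
    rw [hn2, hB1]
    ring
  have hL : lm B1 2 * Complex.exp (π * b * Complex.I) ^ 4 = (((-1) ^ n2 : ℝ) : ℂ) := by
    have h5 := KSplit_phase hn2' 2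
    have e0 : lm 0 2 = 1 := Lead_exp_zero
    rw [e0, one_mul] at h5
    exact h5
  have et : A1 = t := by rw [ht]; linarith
  have et2 : om A1 B1 2 = t2 := by rw [ht2]; linarith
  obtain ⟨x0, hx0, T0⟩ : ∃ x : ℂ, (a : ℂ) * x = ((s / s0 ^ 3 *
      -(t * G0 ^ 2 * ((1 / 2 - 3 * a) * G0 / 6 - (1 / 2 - a - b) * G2 / 2)) : ℝ) : ℂ) ∧
      Tendsto (fun y => (y - tri a b 0) * KLam_PP a b s1 lam g H g' H' y)
        (𝓝[body (tri a b) \ Set.range (tri a b)] (tri a b 0)) (𝓝 x) := by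
    refine ⟨_, ?_, t0⟩
    have e1 : lm 0 0 = 1 := rfl
    have e2 : lm B1 0 = 1 := rfl
    have e3 : lm (1 - 2 * b) 0 = 1 := rfl
    have e4 : bb a b 0 = s := hs
    have e5 : om A1 B1 0 = t := et
    have e6 : om (1 / 2) 0 0 = 1 / 2 := rfl
    have e7 : (![bet a b, -bet a b, bet a b * Complex.exp (π * b * Complex.I)] : Fin 3 → ℂ) 0 =
        s := hs
    rw [e1, e2, e3, e4, e5, e6, e7, oe0, al0, hγ0, hs, mul_div_assoc', mul_div_mul_left _ _ hac]
    have E0 := KLam_alg0 (t := (t : ℂ)) (G := (G0 : ℂ)) hs0c hsc hls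
    push_cast
    linear_combination E0
  obtain ⟨x2, hx2, T2⟩ : ∃ x : ℂ, ((1 - a - b : ℝ) : ℂ) * x = ((s / s0 ^ 3 *
      ((-1) ^ n2 * ((1 / 2 - a - b - (1 - a - b)) * G2 ^ 2 *
        (t2 * G2 / 3 - (t2 + (1 - (1 - a - b))) * G2' / 2))) : ℝ) : ℂ) ∧
      Tendsto (fun y => (y - tri a b 2) * KLam_PP a b s1 lam g H g' H' y)
        (𝓝[body (tri a b) \ Set.range (tri a b)] (tri a b 2)) (𝓝 x) := by
    refine ⟨_, ?_, t2'⟩
    have e1 : lm 0 2 = 1 := Lead_exp_zero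
    have e4 : bb a b 2 = s * Complex.exp (π * b * Complex.I) := by
      show bet a b * Complex.exp (π * b * Complex.I) = _
      rw [hs]
    have e6 : om (1 / 2) 0 2 = -(1 / 2) := by
      show -(1 / 2 + 0 : ℝ) = _
      ring
    have e7 : (![bet a b, -bet a b, bet a b * Complex.exp (π * b * Complex.I)] : Fin 3 → ℂ) 2 =
        s * Complex.exp (π * b * Complex.I) := by
      show bet a b * Complex.exp (π * b * Complex.I) = _
      rw [hs]
    rw [e1, KLam_lm2, e4, et2, e6, e7, oe2, al2, hγ2, hγ2', hs, mul_div_assoc',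
      mul_div_mul_left _ _ hcc]
    have E2 := KLam_alg2 (t := (t2 : ℂ)) (G' := (G2' : ℂ)) hs0c hsc (Complex.exp_ne_zero _) hL hls
    push_cast at E2 ⊢
    linear_combination E2
  have hC : ∀ k : Fin 3, Tendsto (fun y => (y - tri a b k) * KLam_PP a b s1 lam g H g' H' y)
      (𝓝[body (tri a b) \ Set.range (tri a b)] (tri a b k))
      (𝓝 ((![x0, 0, x2] : Fin 3 → ℂ) k)) := by
    intro k
    obtain rfl | rfl | rfl := Phi_fin3 k
    · exact T0
    · have t1'' := t1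
      rw [mul_zero, add_zero, zero_div] at t1''
      exact t1''
    · exact T2
  have hres := residue ha hb hab1 hd hph1 hD.cq hint hedge _ hC
  have hzero : a * x0.re + b * (0 : ℂ).re + (1 - a - b) * x2.re = 0 := by
    rw [crit'] at hres
    have h5 : -(π / 2) ≠ 0 := by
      have := Real.pi_pos
      intro h
      linarith
    exact (mul_eq_zero.1 hres.symm).resolve_left h5
  rw [Complex.zero_re, mul_zero, add_zero, ← Complex.re_ofReal_mul, ← Complex.re_ofReal_mul,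
    hx0, hx2, Complex.ofReal_re, Complex.ofReal_re, ← mul_add] at hzero
  have hK : s / s0 ^ 3 ≠ 0 := by positivity
  exact (mul_eq_zero.1 hzero).resolve_left hK

end Pool.Agent.OBT
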