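import Mathlib
import Pool.Agent.OBT.KLam

/-!
# The triangles `(3,8,13)π/24` and `(5,12,19)π/36`
-/

open scoped ComplexConjugate Topology Real
open MeasureTheory Filter

namespace Pool.Agent.OBT

theorem kill24 : ¬ LatticeTriangle (TN 24 3 8) := by
  intro hL
  have h := K_lam (N := 24) (p := 3) (q := 8) (by norm_num) (by norm_num) (by norm_num)
    (by decide) hL (M := 12) (i := 17) (by norm_num) (by decide) (by decide) (Or.inl (by decide))
    (by unfold Hol; norm_num) (by decide) (by decide)
    (by simp [AL, ag]; norm_num) (by simp [AL, ag]; norm_num)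
    (by simp [AL, ag]; norm_num) (by simp [AL, ag]; norm_num) (-1)
    (by simp [ag]; norm_num) (a := 1 / 8) (b := 1 / 3) (c := 13 / 24) (t := 0) (t2 := -(8 / 24))
    (G0 := -(24 / 13)) (G2 := -(1 / 8 / (13 / 24 * (11 / 24)))) (G2' := 1 / 3 / (13 / 24 * (11 / 24)))
    (by norm_num) (by norm_num) (by norm_num) (by simp [AL, ag]; norm_num)
    (by simp [AL, ag]; norm_num) (by norm_num) (by norm_num) (by norm_num)
  norm_num at h

theorem kill36 : ¬ LatticeTriangle (TN 36 5 12) := by
  intro hL
  have h := K_lam (N := 36) (p := 5) (q := 12) (by norm_num) (by norm_num) (by norm_num)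
    (by decide) hL (M := 18) (i := 23) (by norm_num) (by decide) (by decide) (Or.inl (by decide))
    (by unfold Hol; norm_num) (by decide) (by decide)
    (by simp [AL, ag]; norm_num) (by simp [AL, ag]; norm_num)
    (by simp [AL, ag]; norm_num) (by simp [AL, ag]; norm_num) (-1)
    (by simp [ag]; norm_num) (a := 5 / 36) (b := 1 / 3) (c := 19 / 36) (t := 2 / 36)
    (t2 := -(14 / 36)) (G0 := -(36 / 19)) (G2 := -(5 / 36 / (19 / 36 * (17 / 36))))
    (G2' := 1 / 3 / (19 / 36 * (17 / 36)))
    (by norm_num) (by norm_num) (by norm_num) (by simp [AL, ag]; norm_num)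
    (by simp [AL, ag]; norm_num) (by norm_num) (by norm_num) (by norm_num)
  norm_num at h

end Pool.Agent.OBT
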