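import Mathlib
import Pool.Agent.OBT.KMain

/-!
# The tests in integers
-/

open scoped ComplexConjugate Topology Real
open MeasureTheory Filter

namespace Pool.Agent.OBT

/-- the angles -/
def PP (N p q : ℕ) (k : Fin 3) : ℕ := ![p, q, N - p - q] k

/-- the angles of the form `i` -/
def WW (N p q i : ℕ) (k : Fin 3) : ℕ := i * PP N p q k % N

/-- the thresholds `2 p, 2 q, 2 r - N` -/
def AA (N p q : ℕ) (k : Fin 3) : ℕ := ![2 * p, 2 * q, N - 2 * p - 2 * q] k

/-- the coefficients `p, q, p + q` -/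
def CC (p q : ℕ) (k : Fin 3) : ℤ := ![(p : ℤ), (q : ℤ), (p : ℤ) + q] k

/-- the value of the test of order two; `be` is the inactive vertex, `-(k + be)` the third one -/
def K2v (N p q i j : ℕ) (be : Fin 3) : ℤ :=
  ∑ k : Fin 3, if k ≠ be ∧ WW N p q i k + WW N p q j k = 2 * AA N p q k then
    CC p q (-(k + be)) ^ 2 * ((PP N p q k : ℤ) - WW N p q j k) else 0

variable {N p q : ℕ}

theorem Kill_W0 (i : ℕ) : WW N p q i 0 = i * p % N := rfl

theorem Kill_W1 (i : ℕ) : WW N p q i 1 = i * q % N := rfl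

theorem Kill_lt (hN : 2 * (p + q) < N) (i : ℕ) (k : Fin 3) : WW N p q i k < N :=
  Nat.mod_lt _ (by omega)

theorem Kill_PPcast (hN : 2 * (p + q) < N) : (PP N p q 2 : ℤ) = (N : ℤ) - p - q := by
  change ((N - p - q : ℕ) : ℤ) = _
  omega

/-- the sum of the three angles is divisible by `N` -/
theorem Kill_dvd (hN : 2 * (p + q) < N) (i : ℕ) :
    N ∣ WW N p q i 0 + WW N p q i 1 + WW N p q i 2 := by
  have h0 : WW N p q i 0 ≡ i * p [MOD N] := Nat.mod_modEq _ _
  have h1 : WW N p q i 1 ≡ i * q [MOD N] := Nat.mod_modEq _ _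
  have h2 : WW N p q i 2 ≡ i * (N - p - q) [MOD N] := Nat.mod_modEq _ _
  have h3 := (h0.add h1).add h2
  have h4 : i * p + i * q + i * (N - p - q) = i * N := by
    rw [← mul_add, ← mul_add]
    congr 1
    omega
  rw [h4] at h3
  exact (Nat.modEq_zero_iff_dvd.1 (h3.trans (Nat.modEq_zero_iff_dvd.2 (Dvd.intro_left i rfl))))

theorem hol_iff (hN : 2 * (p + q) < N) (i : ℕ) : Hol N p q i ↔
    (∀ k, 0 < WW N p q i k) ∧ WW N p q i 0 + WW N p q i 1 + WW N p q i 2 = N := by
  have h2 := Kill_lt hN i 2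
  constructor
  · rintro ⟨h3, h4, h5⟩
    have h3' : 0 < WW N p q i 0 := h3
    have h4' : 0 < WW N p q i 1 := h4
    have h5' : WW N p q i 0 + WW N p q i 1 < N := h5
    obtain ⟨c, hc⟩ := Kill_dvd hN i
    have hc1 : c = 1 := by
      have h6 : 0 < N * c := by rw [← hc]; omega
      have h7 : 0 < c := Nat.pos_of_mul_pos_left h6
      by_contra hne
      have h8 : 2 ≤ c := by omega
      have h9 : N * 2 ≤ N * c := Nat.mul_le_mul_left N h8
      omega
    rw [hc1, mul_one] at hc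
    refine ⟨fun k => ?_, hc⟩
    fin_cases k
    · exact h3'
    · exact h4'
    · change 0 < WW N p q i 2
      omega
  · rintro ⟨h3, h4⟩
    have := h3 2
    refine ⟨h3 0, h3 1, ?_⟩
    change WW N p q i 0 + WW N p q i 1 < N
    omega

theorem AL_eq (hN : 2 * (p + q) < N) {i : ℕ} (hi : Hol N p q i) (k : Fin 3) :
    AL N p q i k = (WW N p q i k : ℝ) / N := by
  have h := ((hol_iff hN i).1 hi).2
  have hN0 : (N : ℝ) ≠ 0 := by
    have : 0 < N := by omega
    exact_mod_cast this.ne'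
  fin_cases k
  · rfl
  · rfl
  · change 1 - ((WW N p q i 0 : ℕ) : ℝ) / N - ((WW N p q i 1 : ℕ) : ℝ) / N = (WW N p q i 2 : ℝ) / N
    have h' : ((WW N p q i 0 : ℕ) : ℝ) + WW N p q i 1 + WW N p q i 2 = N := by exact_mod_cast h
    field_simp
    linarith

theorem Kill_mod (i j : ℕ) (k : Fin 3) {c : ℕ} (h : i + j ≡ c [MOD N]) :
    ∃ m : ℤ, (WW N p q i k : ℤ) + WW N p q j k = c * PP N p q k + m * N := by
  have h1 : WW N p q i k ≡ i * PP N p q k [MOD N] := Nat.mod_modEq _ _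
  have h2 : WW N p q j k ≡ j * PP N p q k [MOD N] := Nat.mod_modEq _ _
  have h3 := h1.add h2
  rw [← add_mul] at h3
  have h4 := h3.trans (h.mul_right (PP N p q k))
  have h5 : ((WW N p q i k + WW N p q j k : ℕ) : ℤ) ≡ ((c * PP N p q k : ℕ) : ℤ) [ZMOD N] :=
    (Int.natCast_modEq_iff).2 h4
  obtain ⟨t, ht⟩ := h5.symm.dvd
  refine ⟨t, ?_⟩
  push_cast at ht
  linarith

theorem Kill_real (hN : 2 * (p + q) < N) : (0 : ℝ) < N ∧
    2 * ((p : ℝ) / N + (q : ℝ) / N) < 1 := by
  have h0 : (0 : ℝ) < N := by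
    have : 0 < N := by omega
    exact_mod_cast this
  refine ⟨h0, ?_⟩
  have h1 : ((2 * (p + q) : ℕ) : ℝ) < N := by exact_mod_cast hN
  push_cast at h1
  rw [← add_div, mul_div_assoc', div_lt_one h0]
  exact h1

theorem kill1 (hp : 0 < p) (hq : 0 < q) (hN : 2 * (p + q) < N)
    (hg : Nat.gcd (Nat.gcd p q) N = 1) {i j : ℕ}
    (hu : Nat.Coprime i N ∨ Nat.Coprime j N) (hHi : Hol N p q i) (hHj : Hol N p q j)
    (hij : ¬ i ≡ j [MOD N]) (h2 : i + j ≡ 2 [MOD N]) : ¬ LatticeTriangle (TN N p q) := by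
  intro hL
  obtain ⟨hi0, hi1⟩ := (hol_iff hN i).1 hHi
  obtain ⟨hj0, hj1⟩ := (hol_iff hN j).1 hHj
  obtain ⟨m0, hm0⟩ := Kill_mod (N := N) (p := p) (q := q) i j 0 h2
  obtain ⟨m1, hm1⟩ := Kill_mod (N := N) (p := p) (q := q) i j 1 h2
  obtain ⟨m2, hm2⟩ := Kill_mod (N := N) (p := p) (q := q) i j 2 h2
  obtain ⟨hNR, hab⟩ := Kill_real hN
  have hpR : (0 : ℝ) < p := by exact_mod_cast hp
  have hqR : (0 : ℝ) < q := by exact_mod_cast hq
  have ha : 0 < (p : ℝ) / N := div_pos hpR hNR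
  have hb : 0 < (q : ℝ) / N := div_pos hqR hNR
  have hP0 : (PP N p q 0 : ℤ) = p := rfl
  have hP1 : (PP N p q 1 : ℤ) = q := rfl
  rw [hP0] at hm0
  rw [hP1] at hm1
  rw [Kill_PPcast hN] at hm2
  have a0 := hi0 0
  have a1 := hi0 1
  have a2 := hi0 2
  have b0 := hj0 0
  have b1 := hj0 1
  have b2 := hj0 2
  push_cast at hm0 hm1 hm2
  have hNZ : (0 : ℤ) < N := by omega
  have hs : (m0 + m1 + m2) * N = 0 := by
    have e1 : (WW N p q i 0 : ℤ) + WW N p q i 1 + WW N p q i 2 = N := by exact_mod_cast hi1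
    have e2 : (WW N p q j 0 : ℤ) + WW N p q j 1 + WW N p q j 2 = N := by exact_mod_cast hj1
    linarith
  have hs' : m0 + m1 + m2 = 0 := by
    rcases mul_eq_zero.1 hs with h | h
    · exact h
    · omega
  have hlt : ∀ m : ℤ, ∀ c : ℤ, m * N < c * N → m < c := fun m c h =>
    lt_of_mul_lt_mul_right h hNZ.le
  have m0l : -1 < m0 := hlt _ _ (by omega)
  have m1l : -1 < m1 := hlt _ _ (by omega)
  have m2l : m2 < 1 := hlt _ _ (by omega)
  have m2u : -2 < m2 := hlt _ _ (by omega)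
  have hsum1 : ∀ k, AL N p q i k + AL N p q j k = ((WW N p q i k : ℝ) + WW N p q j k) / N := by
    intro k
    rw [AL_eq hN hHi, AL_eq hN hHj, add_div]
  have hr0 : AL N p q i 0 + AL N p q j 0 = 2 * ((p : ℝ) / N) + m0 := by
    rw [hsum1]
    have : (WW N p q i 0 : ℝ) + WW N p q j 0 = 2 * p + m0 * N := by exact_mod_cast hm0
    rw [this]
    field_simp
  have hr1 : AL N p q i 1 + AL N p q j 1 = 2 * ((q : ℝ) / N) + m1 := by
    rw [hsum1]
    have : (WW N p q i 1 : ℝ) + WW N p q j 1 = 2 * q + m1 * N := by exact_mod_cast hm1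
    rw [this]
    field_simp
  have hr2 : AL N p q i 2 + AL N p q j 2 = 2 * (1 - (p : ℝ) / N - (q : ℝ) / N) + m2 := by
    rw [hsum1]
    have : (WW N p q i 2 : ℝ) + WW N p q j 2 = 2 * (N - p - q) + m2 * N := by exact_mod_cast hm2
    rw [this]
    field_simp
  have hpos : ∀ k, 0 ≤ AL N p q i k := by
    intro k
    rw [AL_eq hN hHi]
    positivity
  have hn2 : (m1 : ℝ) = ag N q i + ag N q j - 2 * (((0 : ℕ) : ℝ) + 1) * ((q : ℝ) / N) := by
    have h3 : AL N p q i 1 + AL N p q j 1 = ag N q i + ag N q j := rfl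
    rw [h3] at hr1
    push_cast
    linarith
  set a : ℝ := (p : ℝ) / N with had
  set b : ℝ := (q : ℝ) / N with hbd
  have key : ∀ e1 e2 : ℕ, e1 + e2 ≤ 1 → (m0 : ℝ) = e1 → (m1 : ℝ) = e2 → False := by
    intro e1 e2 he h0 h1
    have h2' : (m2 : ℝ) = -(e1 + e2) := by
      have : (m0 : ℝ) + m1 + m2 = 0 := by exact_mod_cast hs'
      linarith
    have he1 : e1 ≤ 1 := by omega
    have he2 : e2 ≤ 1 := by omega
    have hcase : (e1 = 0 ∧ e2 = 0) ∨ (e1 = 1 ∧ e2 = 0) ∨ (e1 = 0 ∧ e2 = 1) := by omega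
    have hK := K_main hp hq hN hg hL hu hHi hHj hij 0 (by simpa using h2) e1 e2 he1 he2
      (by
        intro k _
        rw [Nat.cast_zero, zero_mul]
        exact hpos k)
      (by
        intro k hk
        fin_cases k
        · change omw a b e1 e2 0 < alv a b 0 at hk
          change (((0 : ℕ) : ℝ) + 1) * (alv a b 0 - omw a b e1 e2 0) ≤
            AL N p q i 0 + AL N p q j 0
          rw [hr0, h0]
          simp only [omw, alv, Matrix.cons_val_zero] at hk ⊢
          push_cast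
          linarith
        · change omw a b e1 e2 1 < alv a b 1 at hk
          change (((0 : ℕ) : ℝ) + 1) * (alv a b 1 - omw a b e1 e2 1) ≤
            AL N p q i 1 + AL N p q j 1
          rw [hr1, h1]
          simp only [omw, alv, Matrix.cons_val_one, Matrix.cons_val_zero] at hk ⊢
          push_cast
          linarith
        · change (((0 : ℕ) : ℝ) + 1) * (alv a b 2 - omw a b e1 e2 2) ≤
            AL N p q i 2 + AL N p q j 2
          rw [hr2, h2']
          change (((0 : ℕ) : ℝ) + 1) * ((1 - a - b) - (e1 + e2 - (1 - a - b))) ≤ _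
          push_cast
          linarith) m1 hn2
    rw [Fin.sum_univ_three] at hK
    have n0 : ¬ (omw a b e1 e2 0 < alv a b 0 ∧ AL N p q i 0 + AL N p q j 0 =
        (((0 : ℕ) : ℝ) + 1) * (alv a b 0 - omw a b e1 e2 0)) := by
      rintro ⟨h3, h4⟩
      rw [hr0, h0] at h4
      change 1 - a - e1 < a at h3
      change 2 * a + (e1 : ℝ) = (((0 : ℕ) : ℝ) + 1) * (a - (1 - a - e1)) at h4
      push_cast at h4
      linarith
    have n1 : ¬ (omw a b e1 e2 1 < alv a b 1 ∧ AL N p q i 1 + AL N p q j 1 =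
        (((0 : ℕ) : ℝ) + 1) * (alv a b 1 - omw a b e1 e2 1)) := by
      rintro ⟨h3, h4⟩
      rw [hr1, h1] at h4
      change 1 - b - e2 < b at h3
      change 2 * b + (e2 : ℝ) = (((0 : ℕ) : ℝ) + 1) * (b - (1 - b - e2)) at h4
      push_cast at h4
      linarith
    have n2 : omw a b e1 e2 2 < alv a b 2 ∧ AL N p q i 2 + AL N p q j 2 =
        (((0 : ℕ) : ℝ) + 1) * (alv a b 2 - omw a b e1 e2 2) := by
      constructor
      · change e1 + e2 - (1 - a - b) < 1 - a - b
        have : ((e1 + e2 : ℕ) : ℝ) ≤ 1 := by exact_mod_cast he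
        push_cast at this
        linarith
      · rw [hr2, h2']
        change _ = (((0 : ℕ) : ℝ) + 1) * ((1 - a - b) - (e1 + e2 - (1 - a - b)))
        push_cast
        ring
    rw [if_neg n0, if_neg n1, if_pos n2, zero_add, zero_add] at hK
    have d2 : dl a b e1 e2 2 ≠ 0 := by
      change 1 - a - b - e1 - e2 ≠ 0
      rcases hcase with ⟨rfl, rfl⟩ | ⟨rfl, rfl⟩ | ⟨rfl, rfl⟩
      · push_cast
        intro h
        linarith
      · push_cast
        intro h
        linarith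
      · push_cast
        intro h
        linarith
    have h5 : ((-1 : ℝ)) ^ (m1 + (e2 : ℤ) * (((0 : ℕ) : ℤ) + 1)) ≠ 0 := zpow_ne_zero _ (by norm_num)
    have h6 : (1 / dl a b e1 e2 2) ^ (0 + 1) ≠ 0 := pow_ne_zero _ (one_div_ne_zero d2)
    have h7 : (∏ l ∈ Finset.Icc (1 : ℕ) 0, ((l : ℝ) * alv a b 2 - AL N p q j 2)) = 1 := by
      rw [Finset.Icc_eq_empty (by norm_num), Finset.prod_empty]
    rw [h7, mul_one] at hK
    rcases mul_eq_zero.1 hK with h8 | h8
    · exact h5 (by simpa using h8)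
    · exact h6 h8
  -- the three cases
  have hc : (m0 = 0 ∧ m1 = 0) ∨ (m0 = 1 ∧ m1 = 0) ∨ (m0 = 0 ∧ m1 = 1) := by omega
  rcases hc with ⟨h3, h4⟩ | ⟨h3, h4⟩ | ⟨h3, h4⟩
  · exact key 0 0 (by omega) (by rw [h3]; simp) (by rw [h4]; simp)
  · exact key 1 0 (by omega) (by rw [h3]; simp) (by rw [h4]; simp)
  · exact key 0 1 (by omega) (by rw [h3]; simp) (by rw [h4]; simp)

/-- the exponents of the test with inactive vertex `be` -/
theorem Kill_act {a b : ℝ} (ha : 0 < a) (hb : 0 < b) (hab : 2 * (a + b) < 1) (be k : Fin 3) :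
    (omw a b (if be = 0 then 0 else 1) (if be = 1 then 0 else 1) k < alv a b k ↔ k ≠ be) ∧
    (k ≠ be → alv a b k - omw a b (if be = 0 then 0 else 1) (if be = 1 then 0 else 1) k =
      (![2 * a, 2 * b, 1 - 2 * a - 2 * b] : Fin 3 → ℝ) k) := by
  fin_cases be <;> fin_cases k <;> simp [omw, alv] <;> (try constructor) <;> linarith

theorem Kill_comb {σ X Y : ℝ} {x y : Prop} [Decidable x] [Decidable y] (hσ : σ ≠ 0)
    (hxy : x → y → σ = 1) (h : (if x then X else 0) + (if y then σ * Y else 0) = 0) :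
    (if x then X else 0) + (if y then Y else 0) = 0 := by
  by_cases hx : x
  · by_cases hy : y
    · rw [if_pos hx, if_pos hy, hxy hx hy, one_mul] at h
      rw [if_pos hx, if_pos hy, h]
    · rw [if_neg hy] at h ⊢
      exact h
  · by_cases hy : y
    · rw [if_neg hx, if_pos hy, zero_add] at h
      rw [if_neg hx, if_pos hy, zero_add]
      exact (mul_eq_zero.1 h).resolve_left hσ
    · rw [if_neg hx, if_neg hy, add_zero]

theorem Kill_scale {x y : Prop} [Decidable x] [Decidable y] {X Y : ℝ} {A B : ℤ} {D : ℝ}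
    (h : (if x then X else 0) + (if y then Y else 0) = 0) (hA : D * X = A) (hB : D * Y = B) :
    (if x then A else 0) + (if y then B else 0) = 0 := by
  have h1 : (((if x then A else 0) + (if y then B else 0) : ℤ) : ℝ) = 0 := by
    have h2 := congrArg (fun t => D * t) h
    simp only [mul_zero, mul_add, mul_ite] at h2
    push_cast
    rw [← hA, ← hB]
    exact h2
  exact_mod_cast h1

theorem kill2 (hp : 0 < p) (hq : 0 < q) (hN : 2 * (p + q) < N)
    (hg : Nat.gcd (Nat.gcd p q) N = 1) {i j : ℕ}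
    (hu : Nat.Coprime i N ∨ Nat.Coprime j N) (hHi : Hol N p q i) (hHj : Hol N p q j)
    (hij : ¬ i ≡ j [MOD N]) (h4 : i + j ≡ 4 [MOD N]) (be : Fin 3)
    (hA : ∀ k, k ≠ be → AA N p q k ≤ WW N p q i k) (hK : K2v N p q i j be ≠ 0) :
    ¬ LatticeTriangle (TN N p q) := by
  classical
  intro hL
  apply hK
  obtain ⟨hi0, hi1⟩ := (hol_iff hN i).1 hHi
  obtain ⟨hj0, hj1⟩ := (hol_iff hN j).1 hHj
  obtain ⟨m1, hm1⟩ := Kill_mod (N := N) (p := p) (q := q) i j 1 h4
  obtain ⟨hNR, hab⟩ := Kill_real hN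
  have hpR : (0 : ℝ) < p := by exact_mod_cast hp
  have hqR : (0 : ℝ) < q := by exact_mod_cast hq
  have ha : 0 < (p : ℝ) / N := div_pos hpR hNR
  have hb : 0 < (q : ℝ) / N := div_pos hqR hNR
  have hP1 : (PP N p q 1 : ℤ) = q := rfl
  rw [hP1] at hm1
  have hNZ : (0 : ℤ) < N := by omega
  have hAA : ∀ k : Fin 3, (AA N p q k : ℝ) / N =
      (![2 * ((p : ℝ) / N), 2 * ((q : ℝ) / N), 1 - 2 * ((p : ℝ) / N) - 2 * ((q : ℝ) / N)] :
        Fin 3 → ℝ) k := by
    intro k
    fin_cases k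
    · change ((2 * p : ℕ) : ℝ) / N = 2 * ((p : ℝ) / N)
      push_cast
      ring
    · change ((2 * q : ℕ) : ℝ) / N = 2 * ((q : ℝ) / N)
      push_cast
      ring
    · change ((N - 2 * p - 2 * q : ℕ) : ℝ) / N = 1 - 2 * ((p : ℝ) / N) - 2 * ((q : ℝ) / N)
      have h5 : ((N - 2 * p - 2 * q : ℕ) : ℝ) = (N : ℝ) - 2 * p - 2 * q := by
        have h6 : N - 2 * p - 2 * q + 2 * p + 2 * q = N := by omega
        have h7 : ((N - 2 * p - 2 * q + 2 * p + 2 * q : ℕ) : ℝ) = N := by rw [h6]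
        push_cast at h7
        linarith
      rw [h5]
      field_simp
  have hact := Kill_act ha hb hab be
  have hsum1 : ∀ k, AL N p q i k + AL N p q j k = ((WW N p q i k : ℝ) + WW N p q j k) / N := by
    intro k
    rw [AL_eq hN hHi, AL_eq hN hHj, add_div]
  have hge : ∀ k, k ≠ be → 2 * AA N p q k ≤ WW N p q i k + WW N p q j k := by
    intro k hk
    have h5 := hA k hk
    have h6 := hj0 k
    obtain ⟨m, hm⟩ := Kill_mod (N := N) (p := p) (q := q) i j k h4
    have h7 : ∃ c : ℤ, 4 * (PP N p q k : ℤ) = 2 * AA N p q k + c * N ∧ (AA N p q k : ℤ) < N := by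
      fin_cases k
      · refine ⟨0, ?_, ?_⟩
        · change 4 * (p : ℤ) = 2 * ((2 * p : ℕ) : ℤ) + 0 * N
          push_cast
          ring
        · change ((2 * p : ℕ) : ℤ) < N
          omega
      · refine ⟨0, ?_, ?_⟩
        · change 4 * (q : ℤ) = 2 * ((2 * q : ℕ) : ℤ) + 0 * N
          push_cast
          ring
        · change ((2 * q : ℕ) : ℤ) < N
          omega
      · refine ⟨2, ?_, ?_⟩
        · change 4 * ((N - p - q : ℕ) : ℤ) = 2 * ((N - 2 * p - 2 * q : ℕ) : ℤ) + 2 * N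
          omega
        · change ((N - 2 * p - 2 * q : ℕ) : ℤ) < N
          omega
    obtain ⟨c, hc, hc2⟩ := h7
    push_cast at hm
    rw [hc] at hm
    have h8 : (c + m) * N > (-1) * N := by
      have h9 : (WW N p q i k : ℤ) + WW N p q j k = 2 * AA N p q k + (c + m) * N := by
        rw [hm]; ring
      have h10 : (AA N p q k : ℤ) ≤ WW N p q i k := by exact_mod_cast h5
      have h11 : (0 : ℤ) < WW N p q j k := by exact_mod_cast h6
      linarith
    have h12 : -1 < c + m := lt_of_mul_lt_mul_right h8 hNZ.le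
    have h13 : 0 ≤ (c + m) * N := mul_nonneg (by omega) hNZ.le
    have h9 : (WW N p q i k : ℤ) + WW N p q j k = 2 * AA N p q k + (c + m) * N := by
      rw [hm]; ring
    have h14 : 2 * (AA N p q k : ℤ) ≤ WW N p q i k + WW N p q j k := by linarith
    exact_mod_cast h14
  have hn2 : (m1 : ℝ) = ag N q i + ag N q j - 2 * (((1 : ℕ) : ℝ) + 1) * ((q : ℝ) / N) := by
    have h3 : AL N p q i 1 + AL N p q j 1 = ag N q i + ag N q j := rfl
    rw [← h3, hsum1]
    have : (WW N p q i 1 : ℝ) + WW N p q j 1 = 4 * q + m1 * N := by exact_mod_cast hm1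
    rw [this]
    push_cast
    field_simp
    ring
  have hKm := K_main hp hq hN hg hL hu hHi hHj hij 1 (by simpa using h4)
    (if be = 0 then 0 else 1) (if be = 1 then 0 else 1) (by split_ifs <;> norm_num)
    (by split_ifs <;> norm_num)
    (by
      intro k hk
      have h5 := (hact k).1.1 hk
      rw [(hact k).2 h5, ← hAA, AL_eq hN hHi, Nat.cast_one, one_mul]
      have h6 : ((AA N p q k : ℕ) : ℝ) ≤ WW N p q i k := by exact_mod_cast hA k h5
      exact div_le_div_of_nonneg_right h6 hNR.le)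
    (by
      intro k hk
      have h5 := (hact k).1.1 hk
      rw [(hact k).2 h5, ← hAA, hsum1, mul_div_assoc']
      have h6 : ((2 * AA N p q k : ℕ) : ℝ) ≤ WW N p q i k + WW N p q j k := by
        exact_mod_cast hge k h5
      push_cast at h6
      refine div_le_div_of_nonneg_right ?_ hNR.le
      push_cast
      linarith) m1 hn2
  have hiff : ∀ k, (omw ((p : ℝ) / N) ((q : ℝ) / N) (if be = 0 then 0 else 1)
      (if be = 1 then 0 else 1) k < alv ((p : ℝ) / N) ((q : ℝ) / N) k ∧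
        AL N p q i k + AL N p q j k = (((1 : ℕ) : ℝ) + 1) *
          (alv ((p : ℝ) / N) ((q : ℝ) / N) k - omw ((p : ℝ) / N) ((q : ℝ) / N)
            (if be = 0 then 0 else 1) (if be = 1 then 0 else 1) k)) ↔
      (k ≠ be ∧ WW N p q i k + WW N p q j k = 2 * AA N p q k) := by
    intro k
    rw [(hact k).1]
    refine and_congr_right fun h5 => ?_
    rw [(hact k).2 h5, ← hAA, hsum1, mul_div_assoc', div_left_inj' hNR.ne']
    push_cast
    constructor
    · intro h6
      have h7 : ((WW N p q i k + WW N p q j k : ℕ) : ℝ) = ((2 * AA N p q k : ℕ) : ℝ) := by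
        push_cast
        linarith
      exact_mod_cast h7
    · intro h6
      have h7 : ((WW N p q i k + WW N p q j k : ℕ) : ℝ) = ((2 * AA N p q k : ℕ) : ℝ) := by
        rw [h6]
      push_cast at h7
      linarith
  simp only [hiff] at hKm
  have hprod : ∀ k, (∏ l ∈ Finset.Icc 1 1, ((l : ℕ) * alv ((p : ℝ) / N) ((q : ℝ) / N) k -
      AL N p q j k)) = ((PP N p q k : ℝ) - WW N p q j k) / N := by
    intro k
    rw [Finset.Icc_self, Finset.prod_singleton, Nat.cast_one, one_mul, AL_eq hN hHj, sub_div]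
    congr 1
    fin_cases k
    · rfl
    · rfl
    · change 1 - (p : ℝ) / N - (q : ℝ) / N = ((N - p - q : ℕ) : ℝ) / N
      have h5 : ((N - p - q : ℕ) : ℝ) = (N : ℝ) - p - q := by
        have h6 : N - p - q + p + q = N := by omega
        have h7 : ((N - p - q + p + q : ℕ) : ℝ) = N := by rw [h6]
        push_cast at h7
        linarith
      rw [h5]
      field_simp
  simp only [hprod] at hKm
  rw [Fin.sum_univ_three] at hKm
  unfold K2v
  rw [Fin.sum_univ_three]
  have hPP2 : (PP N p q 2 : ℝ) = (N : ℝ) - p - q := by exact_mod_cast Kill_PPcast hN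
  have hN0 : (N : ℝ) ≠ 0 := hNR.ne'
  have hp0 : (p : ℝ) ≠ 0 := hpR.ne'
  have hq0 : (q : ℝ) ≠ 0 := hqR.ne'
  have hpq0 : (p : ℝ) + q ≠ 0 := by positivity
  have hσ : ∀ c : ℤ, ((-1 : ℝ)) ^ c ≠ 0 := fun c => zpow_ne_zero _ (by norm_num)
  obtain rfl | rfl | rfl : be = 0 ∨ be = 1 ∨ be = 2 := by fin_cases be <;> simp
  · have hc0 : ¬ ((0 : Fin 3) ≠ 0 ∧ WW N p q i 0 + WW N p q j 0 = 2 * AA N p q 0) :=
      fun h => h.1 rfl
    have hc1 : ((1 : Fin 3) ≠ 0 ∧ WW N p q i 1 + WW N p q j 1 = 2 * AA N p q 1) ↔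
        WW N p q i 1 + WW N p q j 1 = 2 * AA N p q 1 := and_iff_right (by decide)
    have hc2 : ((2 : Fin 3) ≠ 0 ∧ WW N p q i 2 + WW N p q j 2 = 2 * AA N p q 2) ↔
        WW N p q i 2 + WW N p q j 2 = 2 * AA N p q 2 := and_iff_right (by decide)
    rw [if_neg hc0, zero_add] at hKm ⊢
    simp only [hc1, hc2] at hKm ⊢
    have h5 := Kill_comb (σ := (-1 : ℝ) ^ (m1 + ((1 : ℕ) : ℤ) * (((1 : ℕ) : ℤ) + 1)))
      (X := (1 / dl ((p : ℝ) / N) ((q : ℝ) / N) 0 1 1) ^ (1 + 1) *
        (((PP N p q 1 : ℝ) - WW N p q j 1) / N))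
      (Y := (1 / dl ((p : ℝ) / N) ((q : ℝ) / N) 0 1 2) ^ (1 + 1) *
        (((PP N p q 2 : ℝ) - WW N p q j 2) / N))
      (x := WW N p q i 1 + WW N p q j 1 = 2 * AA N p q 1)
      (y := WW N p q i 2 + WW N p q j 2 = 2 * AA N p q 2) (hσ _)
      (by
        intro h6 _
        have h7 : m1 = 0 := by
          have h8 : (WW N p q i 1 : ℤ) + WW N p q j 1 = 2 * ((2 * q : ℕ) : ℤ) := by exact_mod_cast h6
          rw [h8] at hm1
          push_cast at hm1
          have h9 : m1 * N = 0 := by linarith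
          rcases mul_eq_zero.1 h9 with h | h
          · exact h
          · omega
        rw [h7]
        norm_num)
      (by
        rw [← hKm]
        congr 1
        · congr 1
          change _ = (1 : ℝ) * _ * _
          rw [one_mul]
          rfl
        · congr 1
          change _ = (-1 : ℝ) ^ _ * _ * _
          rw [mul_assoc]
          rfl)
    refine Kill_scale (D := ((q : ℝ) / N) ^ 2 * (((p : ℝ) / N) + ((q : ℝ) / N)) ^ 2 * N ^ 3) h5 ?_ ?_
    · have h6 : CC p q (-(1 + 0)) = (p : ℤ) + q := rfl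
      rw [h6]
      change _ * ((1 / (1 - (q : ℝ) / N - ((1 : ℕ) : ℝ))) ^ (1 + 1) * _) = _
      have h7 : 1 - (q : ℝ) / N - ((1 : ℕ) : ℝ) = -((q : ℝ) / N) := by push_cast; ring
      rw [h7]
      push_cast
      field_simp
    · have h6 : CC p q (-(2 + 0)) = (q : ℤ) := rfl
      rw [h6]
      change _ * ((1 / (1 - (p : ℝ) / N - (q : ℝ) / N - ((0 : ℕ) : ℝ) - ((1 : ℕ) : ℝ))) ^ (1 + 1) *
        _) = _
      have h7 : 1 - (p : ℝ) / N - (q : ℝ) / N - ((0 : ℕ) : ℝ) - ((1 : ℕ) : ℝ) =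
          -(((p : ℝ) + q) / N) := by push_cast; ring
      rw [h7]
      push_cast
      field_simp
  · have hc0 : ((0 : Fin 3) ≠ 1 ∧ WW N p q i 0 + WW N p q j 0 = 2 * AA N p q 0) ↔
        WW N p q i 0 + WW N p q j 0 = 2 * AA N p q 0 := and_iff_right (by decide)
    have hc1 : ¬ ((1 : Fin 3) ≠ 1 ∧ WW N p q i 1 + WW N p q j 1 = 2 * AA N p q 1) :=
      fun h => h.1 rfl
    have hc2 : ((2 : Fin 3) ≠ 1 ∧ WW N p q i 2 + WW N p q j 2 = 2 * AA N p q 2) ↔
        WW N p q i 2 + WW N p q j 2 = 2 * AA N p q 2 := and_iff_right (by decide)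
    rw [if_neg hc1, add_zero] at hKm ⊢
    simp only [hc0, hc2] at hKm ⊢
    have h5 := Kill_comb (σ := (-1 : ℝ) ^ (m1 + ((0 : ℕ) : ℤ) * (((1 : ℕ) : ℤ) + 1)))
      (X := (1 / dl ((p : ℝ) / N) ((q : ℝ) / N) 1 0 0) ^ (1 + 1) *
        (((PP N p q 0 : ℝ) - WW N p q j 0) / N))
      (Y := (1 / dl ((p : ℝ) / N) ((q : ℝ) / N) 1 0 2) ^ (1 + 1) *
        (((PP N p q 2 : ℝ) - WW N p q j 2) / N))
      (x := WW N p q i 0 + WW N p q j 0 = 2 * AA N p q 0)
      (y := WW N p q i 2 + WW N p q j 2 = 2 * AA N p q 2) (hσ _)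
      (by
        intro h6 h6'
        have h7 : m1 = 0 := by
          have h8 : WW N p q i 0 + WW N p q j 0 = 2 * (2 * p) := h6
          have h8' : WW N p q i 2 + WW N p q j 2 = 2 * (N - 2 * p - 2 * q) := h6'
          have h9 : m1 * N = 0 := by
            have h10 : WW N p q i 1 + WW N p q j 1 = 4 * q := by omega
            have h11 : (WW N p q i 1 : ℤ) + WW N p q j 1 = 4 * q := by exact_mod_cast h10
            push_cast at hm1
            linarith
          rcases mul_eq_zero.1 h9 with h | h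
          · exact h
          · omega
        rw [h7]
        norm_num)
      (by
        rw [← hKm]
        congr 1
        · congr 1
          change _ = (1 : ℝ) * _ * _
          rw [one_mul]
          rfl
        · congr 1
          change _ = (-1 : ℝ) ^ _ * _ * _
          rw [mul_assoc]
          rfl)
    refine Kill_scale (D := ((p : ℝ) / N) ^ 2 * (((p : ℝ) / N) + ((q : ℝ) / N)) ^ 2 * N ^ 3) h5 ?_ ?_
    · have h6 : CC p q (-(0 + 1)) = (p : ℤ) + q := rfl
      rw [h6]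
      change _ * ((1 / (1 - (p : ℝ) / N - ((1 : ℕ) : ℝ))) ^ (1 + 1) * _) = _
      have h7 : 1 - (p : ℝ) / N - ((1 : ℕ) : ℝ) = -((p : ℝ) / N) := by push_cast; ring
      rw [h7]
      push_cast
      field_simp
    · have h6 : CC p q (-(2 + 1)) = (p : ℤ) := rfl
      rw [h6]
      change _ * ((1 / (1 - (p : ℝ) / N - (q : ℝ) / N - ((1 : ℕ) : ℝ) - ((0 : ℕ) : ℝ))) ^ (1 + 1) *
        _) = _
      have h7 : 1 - (p : ℝ) / N - (q : ℝ) / N - ((1 : ℕ) : ℝ) - ((0 : ℕ) : ℝ) =
          -(((p : ℝ) + q) / N) := by push_cast; ring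
      rw [h7]
      push_cast
      field_simp
  · have hc0 : ((0 : Fin 3) ≠ 2 ∧ WW N p q i 0 + WW N p q j 0 = 2 * AA N p q 0) ↔
        WW N p q i 0 + WW N p q j 0 = 2 * AA N p q 0 := and_iff_right (by decide)
    have hc1 : ((1 : Fin 3) ≠ 2 ∧ WW N p q i 1 + WW N p q j 1 = 2 * AA N p q 1) ↔
        WW N p q i 1 + WW N p q j 1 = 2 * AA N p q 1 := and_iff_right (by decide)
    have hc2 : ¬ ((2 : Fin 3) ≠ 2 ∧ WW N p q i 2 + WW N p q j 2 = 2 * AA N p q 2) :=
      fun h => h.1 rfl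
    rw [if_neg hc2, add_zero] at hKm ⊢
    simp only [hc0, hc1] at hKm ⊢
    have h5 := Kill_comb (σ := (1 : ℝ))
      (X := (1 / dl ((p : ℝ) / N) ((q : ℝ) / N) 1 1 0) ^ (1 + 1) *
        (((PP N p q 0 : ℝ) - WW N p q j 0) / N))
      (Y := (1 / dl ((p : ℝ) / N) ((q : ℝ) / N) 1 1 1) ^ (1 + 1) *
        (((PP N p q 1 : ℝ) - WW N p q j 1) / N))
      (x := WW N p q i 0 + WW N p q j 0 = 2 * AA N p q 0)
      (y := WW N p q i 1 + WW N p q j 1 = 2 * AA N p q 1) one_ne_zero (fun _ _ => rfl)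
      (by
        rw [← hKm]
        congr 1
        · congr 1
          change _ = (1 : ℝ) * _ * _
          rw [one_mul]
          rfl
        · congr 1
          change _ = (1 : ℝ) * _ * _
          rw [mul_assoc]
          rfl)
    refine Kill_scale (D := ((p : ℝ) / N) ^ 2 * ((q : ℝ) / N) ^ 2 * N ^ 3) h5 ?_ ?_
    · have h6 : CC p q (-(0 + 2)) = (q : ℤ) := rfl
      rw [h6]
      change _ * ((1 / (1 - (p : ℝ) / N - ((1 : ℕ) : ℝ))) ^ (1 + 1) * _) = _
      have h7 : 1 - (p : ℝ) / N - ((1 : ℕ) : ℝ) = -((p : ℝ) / N) := by push_cast; ring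
      rw [h7]
      push_cast
      field_simp
    · have h6 : CC p q (-(1 + 2)) = (p : ℤ) := rfl
      rw [h6]
      change _ * ((1 / (1 - (q : ℝ) / N - ((1 : ℕ) : ℝ))) ^ (1 + 1) * _) = _
      have h7 : 1 - (q : ℝ) / N - ((1 : ℕ) : ℝ) = -((q : ℝ) / N) := by push_cast; ring
      rw [h7]
      push_cast
      field_simp

end Pool.Agent.OBT
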