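import Mathlib
import Pool.Agent.OBT.Kill
import Pool.Agent.OBT.KSplit

/-!
# The split test in rational numbers
-/

open scoped ComplexConjugate Topology Real
open MeasureTheory Filter

namespace Pool.Agent.OBT

/-- normalised leading coefficients; `be` is the inactive vertex -/
def GG (N p q : ℕ) (be k : Fin 3) : ℚ :=
  (![![0, -(1 / ((N - p - q : ℚ) / N)), (q / N : ℚ) / (((N - p - q : ℚ) / N) * ((p + q : ℚ) / N))],
    ![-(1 / ((N - p - q : ℚ) / N)), 0, -((p / N : ℚ) / (((N - p - q : ℚ) / N) * ((p + q : ℚ) / N)))],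
    ![-((q / N : ℚ) / (((N - p - q : ℚ) / N) * ((p + q : ℚ) / N))),
      -((p / N : ℚ) / (((N - p - q : ℚ) / N) * ((p + q : ℚ) / N))), 0]] : Fin 3 → Fin 3 → ℚ) be k

/-- the value of the split test; `bi`, `bj` are the inactive vertices of `i` and `j`, and
`n1 = (W_1 i + W_1 j - 6 q) / N` -/
def K3v (N p q i j : ℕ) (bi bj : Fin 3) (n1 : ℤ) : ℚ :=
  ∑ k : Fin 3, if k ≠ bi ∧ WW N p q i k + WW N p q j k = 3 * AA N p q k then
    (![1, 1, (-1) ^ n1] : Fin 3 → ℚ) k * GG N p q bi k ^ 2 *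
      (-(GG N p q bi k * ((WW N p q j k : ℚ) / N - (PP N p q k : ℚ) / N) *
          ((WW N p q i k : ℚ) / N - (PP N p q k : ℚ) / N +
            3 * ((PP N p q k : ℚ) / N - (AA N p q k : ℚ) / N)) / 6) +
        GG N p q bj k * ((WW N p q i k : ℚ) / N - (PP N p q k : ℚ) / N +
            2 * ((PP N p q k : ℚ) / N - (AA N p q k : ℚ) / N)) *
          ((WW N p q j k : ℚ) / N - (PP N p q k : ℚ) / N +
            ((PP N p q k : ℚ) / N - (AA N p q k : ℚ) / N)) / 2)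
  else 0

variable {N p q : ℕ}

/-- the exponents with inactive vertex `be` -/
def Kill3_e1 (be : Fin 3) : ℕ := ![0, 1, 1] be

/-- the exponents with inactive vertex `be` -/
def Kill3_e2 (be : Fin 3) : ℕ := ![1, 0, 1] be

theorem Kill3_e1_le (be : Fin 3) : Kill3_e1 be ≤ 1 := by
  fin_cases be <;> simp [Kill3_e1]

theorem Kill3_e2_le (be : Fin 3) : Kill3_e2 be ≤ 1 := by
  fin_cases be <;> simp [Kill3_e2]

theorem Kill3_alv (hN : 2 * (p + q) < N) (k : Fin 3) :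
    alv ((p : ℝ) / N) ((q : ℝ) / N) k = (PP N p q k : ℝ) / N := by
  have hN0 : (N : ℝ) ≠ 0 := by
    have : N ≠ 0 := by omega
    exact_mod_cast this
  fin_cases k
  · simp [alv, PP]
  · simp [alv, PP]
  · have h : ((N - p - q : ℕ) : ℝ) = N - p - q := by
      rw [Nat.cast_sub (by omega), Nat.cast_sub (by omega)]
    simp only [alv, PP]
    show 1 - (p : ℝ) / N - (q : ℝ) / N = ((N - p - q : ℕ) : ℝ) / N
    rw [h]
    field_simp

theorem Kill3_omw (hN : 2 * (p + q) < N) {be k : Fin 3} (hk : k ≠ be) :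
    omw ((p : ℝ) / N) ((q : ℝ) / N) (Kill3_e1 be) (Kill3_e2 be) k =
      (PP N p q k : ℝ) / N - (AA N p q k : ℝ) / N := by
  have hN0 : (N : ℝ) ≠ 0 := by
    have : N ≠ 0 := by omega
    exact_mod_cast this
  have h : ((N - p - q : ℕ) : ℝ) = N - p - q := by
    rw [Nat.cast_sub (by omega), Nat.cast_sub (by omega)]
  have h' : ((N - 2 * p - 2 * q : ℕ) : ℝ) = N - 2 * p - 2 * q := by
    rw [Nat.cast_sub (by omega), Nat.cast_sub (by omega)]
    push_cast
    ring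
  fin_cases be <;> fin_cases k <;> first
    | exact absurd rfl hk
    | (simp [omw, Kill3_e1, Kill3_e2, PP, AA, h, h']
       try field_simp
       try ring)

theorem Kill3_inactive (hN : 2 * (p + q) < N) (be : Fin 3) :
    ¬ omw ((p : ℝ) / N) ((q : ℝ) / N) (Kill3_e1 be) (Kill3_e2 be) be <
      alv ((p : ℝ) / N) ((q : ℝ) / N) be := by
  have hN0 : (0 : ℝ) < N := by
    have : 0 < N := by omega
    exact_mod_cast this
  have h1 : 2 * ((p : ℝ) / N + (q : ℝ) / N) < 1 := by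
    rw [← add_div, ← mul_div_assoc, div_lt_one hN0]
    exact_mod_cast hN
  have h2 : (0 : ℝ) ≤ (p : ℝ) / N := by positivity
  have h3 : (0 : ℝ) ≤ (q : ℝ) / N := by positivity
  rw [not_lt]
  fin_cases be
  · show (p : ℝ) / N ≤ 1 - (p : ℝ) / N - ((0 : ℕ) : ℝ)
    push_cast
    linarith
  · show (q : ℝ) / N ≤ 1 - (q : ℝ) / N - ((0 : ℕ) : ℝ)
    push_cast
    linarith
  · show 1 - (p : ℝ) / N - (q : ℝ) / N ≤
      ((1 : ℕ) : ℝ) + ((1 : ℕ) : ℝ) - (1 - (p : ℝ) / N - (q : ℝ) / N)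
    push_cast
    linarith

theorem Kill3_AA_pos (hp : 0 < p) (hq : 0 < q) (hN : 2 * (p + q) < N) (k : Fin 3) :
    0 < AA N p q k := by
  fin_cases k
  · show 0 < 2 * p
    omega
  · show 0 < 2 * q
    omega
  · show 0 < N - 2 * p - 2 * q
    omega

theorem Kill3_active (hp : 0 < p) (hq : 0 < q) (hN : 2 * (p + q) < N) (be k : Fin 3) :
    omw ((p : ℝ) / N) ((q : ℝ) / N) (Kill3_e1 be) (Kill3_e2 be) k <
      alv ((p : ℝ) / N) ((q : ℝ) / N) k ↔ k ≠ be := by
  constructor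
  · rintro h rfl
    exact Kill3_inactive hN k h
  · intro h
    rw [Kill3_omw hN h, Kill3_alv hN]
    have hN0 : (0 : ℝ) < N := by
      have : 0 < N := by omega
      exact_mod_cast this
    have h1 : (0 : ℝ) < AA N p q k := by exact_mod_cast Kill3_AA_pos hp hq hN k
    have h2 : (0 : ℝ) < (AA N p q k : ℝ) / N := by positivity
    linarith

theorem Kill3_GG_self (be : Fin 3) : GG N p q be be = 0 := by
  fin_cases be <;> rfl

theorem Kill3_Gc (hp : 0 < p) (hq : 0 < q) (hN : 2 * (p + q) < N) {be k : Fin 3} (hk : k ≠ be) :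
    Gc ((p : ℝ) / N) ((q : ℝ) / N) (Kill3_e1 be) (Kill3_e2 be) k = (GG N p q be k : ℝ) := by
  have hN0 : (0 : ℝ) < N := by
    have : 0 < N := by omega
    exact_mod_cast this
  have hN1 : (N : ℝ) ≠ 0 := hN0.ne'
  have hp0 : (0 : ℝ) < p := by exact_mod_cast hp
  have hq0 : (0 : ℝ) < q := by exact_mod_cast hq
  have hp1 : (p : ℝ) ≠ 0 := hp0.ne'
  have hq1 : (q : ℝ) ≠ 0 := hq0.ne'
  have hr : (0 : ℝ) < N - p - q := by
    have : (2 * (p + q) : ℝ) < N := by exact_mod_cast hN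
    linarith
  have hr1 : (N : ℝ) - p - q ≠ 0 := hr.ne'
  have hs1 : (p : ℝ) + q ≠ 0 := (add_pos hp0 hq0).ne'
  have hr2 : 1 - (p : ℝ) / N - (q : ℝ) / N = (N - p - q) / N := by
    field_simp
  have hs2 : (p : ℝ) / N + (q : ℝ) / N = (p + q) / N := by
    field_simp
  fin_cases be <;> fin_cases k
  · exact absurd rfl hk
  · show 1 * ((q : ℝ) / N / (1 - (p : ℝ) / N - (q : ℝ) / N)) /
      (1 - (q : ℝ) / N - ((1 : ℕ) : ℝ)) = ((-(1 / ((N - p - q : ℚ) / N)) : ℚ) : ℝ)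
    push_cast
    rw [hr2, show 1 - (q : ℝ) / N - 1 = -((q : ℝ) / N) by ring]
    field_simp
  · show (-1) ^ 1 * ((q : ℝ) / N / (1 - (p : ℝ) / N - (q : ℝ) / N)) /
      (1 - (p : ℝ) / N - (q : ℝ) / N - ((0 : ℕ) : ℝ) - ((1 : ℕ) : ℝ)) =
      (((q / N : ℚ) / (((N - p - q : ℚ) / N) * ((p + q : ℚ) / N)) : ℚ) : ℝ)
    push_cast
    rw [show 1 - (p : ℝ) / N - (q : ℝ) / N - 0 - 1 = -((p + q) / N) by rw [← hs2]; ring, hr2]
    field_simp
  · show 1 * ((p : ℝ) / N / (1 - (p : ℝ) / N - (q : ℝ) / N)) /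
      (1 - (p : ℝ) / N - ((1 : ℕ) : ℝ)) = ((-(1 / ((N - p - q : ℚ) / N)) : ℚ) : ℝ)
    push_cast
    rw [hr2, show 1 - (p : ℝ) / N - 1 = -((p : ℝ) / N) by ring]
    field_simp
  · exact absurd rfl hk
  · show (-1) ^ 0 * ((p : ℝ) / N / (1 - (p : ℝ) / N - (q : ℝ) / N)) /
      (1 - (p : ℝ) / N - (q : ℝ) / N - ((1 : ℕ) : ℝ) - ((0 : ℕ) : ℝ)) =
      ((-((p / N : ℚ) / (((N - p - q : ℚ) / N) * ((p + q : ℚ) / N))) : ℚ) : ℝ)
    push_cast
    rw [show 1 - (p : ℝ) / N - (q : ℝ) / N - 1 - 0 = -((p + q) / N) by rw [← hs2]; ring, hr2]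
    field_simp
  · show 1 * ((p : ℝ) / N * ((q : ℝ) / N) /
        ((1 - (p : ℝ) / N - (q : ℝ) / N) * ((p : ℝ) / N + (q : ℝ) / N))) /
      (1 - (p : ℝ) / N - ((1 : ℕ) : ℝ)) =
      ((-((q / N : ℚ) / (((N - p - q : ℚ) / N) * ((p + q : ℚ) / N))) : ℚ) : ℝ)
    push_cast
    rw [show 1 - (p : ℝ) / N - 1 = -((p : ℝ) / N) by ring, hr2, hs2]
    field_simp
  · show 1 * ((p : ℝ) / N * ((q : ℝ) / N) /
        ((1 - (p : ℝ) / N - (q : ℝ) / N) * ((p : ℝ) / N + (q : ℝ) / N))) /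
      (1 - (q : ℝ) / N - ((1 : ℕ) : ℝ)) =
      ((-((p / N : ℚ) / (((N - p - q : ℚ) / N) * ((p + q : ℚ) / N))) : ℚ) : ℝ)
    push_cast
    rw [show 1 - (q : ℝ) / N - 1 = -((q : ℝ) / N) by ring, hr2, hs2]
    field_simp
  · exact absurd rfl hk

theorem Kill3_le (hN : 2 * (p + q) < N) {i : ℕ} (hi : Hol N p q i) (be : Fin 3)
    (hA : ∀ k, k ≠ be → AA N p q k ≤ WW N p q i k) (k : Fin 3)
    (hk : omw ((p : ℝ) / N) ((q : ℝ) / N) (Kill3_e1 be) (Kill3_e2 be) k <
      alv ((p : ℝ) / N) ((q : ℝ) / N) k) :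
    alv ((p : ℝ) / N) ((q : ℝ) / N) k -
      omw ((p : ℝ) / N) ((q : ℝ) / N) (Kill3_e1 be) (Kill3_e2 be) k ≤ AL N p q i k := by
  have hkb : k ≠ be := by
    rintro rfl
    exact Kill3_inactive hN k hk
  rw [Kill3_omw hN hkb, Kill3_alv hN, AL_eq hN hi, sub_sub_cancel]
  have h1 : (AA N p q k : ℝ) ≤ WW N p q i k := by exact_mod_cast hA k hkb
  gcongr

theorem kill3 (hp : 0 < p) (hq : 0 < q) (hN : 2 * (p + q) < N)
    (hg : Nat.gcd (Nat.gcd p q) N = 1) {i j : ℕ}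
    (hu : Nat.Coprime i N ∨ Nat.Coprime j N) (hHi : Hol N p q i) (hHj : Hol N p q j)
    (hij : ¬ i ≡ j [MOD N]) (h6 : i + j ≡ 6 [MOD N]) (bi bj : Fin 3)
    (hAi : ∀ k, k ≠ bi → AA N p q k ≤ WW N p q i k)
    (hAj : ∀ k, k ≠ bj → AA N p q k ≤ WW N p q j k)
    (h3 : ∀ k, k ≠ bi → 3 * AA N p q k ≤ WW N p q i k + WW N p q j k) (n1 : ℤ)
    (hn1 : (WW N p q i 1 : ℤ) + WW N p q j 1 - 6 * q = n1 * N)
    (hK : K3v N p q i j bi bj n1 ≠ 0) :
    ¬ LatticeTriangle (TN N p q) := by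
  intro hL
  apply hK
  have hN0 : (0 : ℝ) < N := by
    have : 0 < N := by omega
    exact_mod_cast this
  have hN1 : (N : ℝ) ≠ 0 := hN0.ne'
  have key := K_split hp hq hN hg hL hu hHi hHj hij h6 (Kill3_e1 bi) (Kill3_e2 bi)
    (Kill3_e1 bj) (Kill3_e2 bj) (Kill3_e1_le bi) (Kill3_e2_le bi) (Kill3_e1_le bj)
    (Kill3_e2_le bj) (Kill3_le hN hHi bi hAi) (Kill3_le hN hHj bj hAj) ?_ ?_ n1 ?_
  · have e : ((K3v N p q i j bi bj n1 : ℚ) : ℝ) = 0 := by
      rw [← key]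
      unfold K3v
      push_cast
      refine Finset.sum_congr rfl fun k _ => ?_
      by_cases hk : k ≠ bi
      swap
      · rw [if_neg (fun h => hk h.1), if_neg (fun h => hk ((Kill3_active hp hq hN bi k).1 h.1)),
          Rat.cast_zero]
      by_cases hs : WW N p q i k + WW N p q j k = 3 * AA N p q k
      swap
      · rw [if_neg (fun h => hs h.2), if_neg, Rat.cast_zero]
        rintro ⟨_, h⟩
        apply hs
        rw [AL_eq hN hHi, AL_eq hN hHj, Kill3_omw hN hk, Kill3_alv hN, sub_sub_cancel,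
          ← add_div, ← mul_div_assoc, div_left_inj' hN1] at h
        exact_mod_cast h
      rw [if_pos ⟨hk, hs⟩, if_pos]
      swap
      · refine ⟨(Kill3_active hp hq hN bi k).2 hk, ?_⟩
        rw [AL_eq hN hHi, AL_eq hN hHj, Kill3_omw hN hk, Kill3_alv hN, sub_sub_cancel,
          ← add_div, ← mul_div_assoc, div_left_inj' hN1]
        exact_mod_cast hs
      rw [Kill3_Gc hp hq hN hk, Kill3_omw hN hk, Kill3_alv hN, AL_eq hN hHi, AL_eq hN hHj]
      have e1 : (((![1, 1, (-1) ^ n1] : Fin 3 → ℚ) k : ℚ) : ℝ) =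
          (![1, 1, (-1) ^ n1] : Fin 3 → ℝ) k := by
        fin_cases k <;> simp
      rw [Rat.cast_mul, Rat.cast_mul, e1]
      push_cast
      by_cases hkj : k ≠ bj
      · have h4 := (Kill3_active hp hq hN bj k).2 hkj
        rw [Kill3_alv hN] at h4
        rw [if_pos h4, Kill3_Gc hp hq hN hkj]
      · rw [if_neg]
        · have : bj = k := by
            by_contra h
            exact hkj (fun h' => h h'.symm)
          subst this
          rw [Kill3_GG_self]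
          push_cast
          ring
        · intro h
          apply hkj
          refine (Kill3_active hp hq hN bj k).1 ?_
          rw [Kill3_alv hN]
          exact h
    exact_mod_cast e
  · -- three times the thresholds
    intro k hk
    have hkb : k ≠ bi := (Kill3_active hp hq hN bi k).1 hk
    rw [Kill3_omw hN hkb, Kill3_alv hN, AL_eq hN hHi, AL_eq hN hHj, sub_sub_cancel, ← add_div,
      ← mul_div_assoc]
    have h1 : (3 * AA N p q k : ℝ) ≤ WW N p q i k + WW N p q j k := by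
      exact_mod_cast h3 k hkb
    gcongr
  · -- compatibility
    intro k h1 h2
    rw [Kill3_omw hN ((Kill3_active hp hq hN bi k).1 h1),
      Kill3_omw hN ((Kill3_active hp hq hN bj k).1 h2)]
  · -- the sign
    have h1 : ag N q i = (WW N p q i 1 : ℝ) / N := rfl
    have h2 : ag N q j = (WW N p q j 1 : ℝ) / N := rfl
    have h3 : (WW N p q i 1 : ℝ) + WW N p q j 1 - 6 * q = n1 * N := by exact_mod_cast hn1
    rw [h1, h2]
    field_simp
    linarith

end Pool.Agent.OBT
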