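import Mathlib

/-!
# Number theory of the classification: definitions

`N`, `p`, `q` are integers, the angles of the triangle are `π p/N`, `π q/N`, `π (N-p-q)/N`.
-/

namespace Pool.Agent.OBT.NT

/-- the form with residue `i` is holomorphic and has weights `w1`, `w2`, `w3` -/
structure Wt (N p q i w1 w2 w3 : ℤ) : Prop where
  d1 : N ∣ i * p - w1
  d2 : N ∣ i * q - w2
  p1 : 0 < w1
  p2 : 0 < w2
  p3 : 0 < w3
  sum : w1 + w2 + w3 = N

/-- obtuse rational triangles (the angle `π (N-p-q)/N` is obtuse) -/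
structure Tri (N p q : ℤ) : Prop where
  hp : 0 < p
  hpq : p ≤ q
  hN : 2 * (p + q) < N
  hg : ∀ l : ℕ, l.Prime → ((l : ℤ) ∣ p) → ((l : ℤ) ∣ q) → ¬ ((l : ℤ) ∣ N)

/-- survival of the tests of Theorem K (and of the special tests) -/
structure Surv (N p q : ℤ) : Prop where
  k1 : ∀ i j w1 w2 w3 v1 v2 v3 : ℤ, IsCoprime i N → Wt N p q i w1 w2 w3 → Wt N p q j v1 v2 v3 →
    N ∣ i + j - 2 → N ∣ i - j
  k2a : ∀ i j w1 w2 w3 v1 v2 v3 : ℤ, (IsCoprime i N ∨ IsCoprime j N) → Wt N p q i w1 w2 w3 →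
    Wt N p q j v1 v2 v3 → N ∣ i + j - 4 → ¬ N ∣ i - j →
    2 * q ≤ w2 → N - 2 * p - 2 * q ≤ w3 →
    (if w2 + v2 = 4 * q then (p + q) ^ 2 * (q - v2) else 0) +
    (if w3 + v3 = 2 * (N - 2 * p - 2 * q) then q ^ 2 * (N - p - q - v3) else 0) = 0
  k2b : ∀ i j w1 w2 w3 v1 v2 v3 : ℤ, (IsCoprime i N ∨ IsCoprime j N) → Wt N p q i w1 w2 w3 →
    Wt N p q j v1 v2 v3 → N ∣ i + j - 4 → ¬ N ∣ i - j →
    2 * p ≤ w1 → N - 2 * p - 2 * q ≤ w3 →
    (if w1 + v1 = 4 * p then (p + q) ^ 2 * (p - v1) else 0) +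
    (if w3 + v3 = 2 * (N - 2 * p - 2 * q) then p ^ 2 * (N - p - q - v3) else 0) = 0
  k2c : ∀ i j w1 w2 w3 v1 v2 v3 : ℤ, (IsCoprime i N ∨ IsCoprime j N) → Wt N p q i w1 w2 w3 →
    Wt N p q j v1 v2 v3 → N ∣ i + j - 4 → ¬ N ∣ i - j →
    2 * p ≤ w1 → 2 * q ≤ w2 →
    (if w1 + v1 = 4 * p then q ^ 2 * (p - v1) else 0) +
    (if w2 + v2 = 4 * q then p ^ 2 * (q - v2) else 0) = 0
  k3a : ¬ 2 ∣ N → ¬ N < 4 * q
  k3b : ∀ M : ℤ, N = 2 * M → ¬ 2 ∣ M → ¬ 2 ∣ p → ¬ 2 ∣ q → ¬ (4 * p < M ∧ 3 * M < 4 * q)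
  k3c : ∀ M : ℤ, N = 2 * M → ¬ 2 ∣ M → ¬ 2 ∣ p → ¬ 2 ∣ q → p + q = M - 1 → p < q → ¬ M < 4 * p
  k3d : ¬ (N = 22 ∧ p = 2 ∧ q = 3)
  k3e : ¬ (N = 24 ∧ p = 3 ∧ q = 8)
  k3f : ¬ (N = 36 ∧ p = 5 ∧ q = 12)

variable {N p q : ℤ}

theorem Wt.lt {i w1 w2 w3 : ℤ} (h : Wt N p q i w1 w2 w3) : w1 < N ∧ w2 < N ∧ w3 < N := by
  obtain ⟨-, -, h1, h2, h3, h4⟩ := h
  refine ⟨?_, ?_, ?_⟩ <;> linarith

/-- two integers in `(0, N)` congruent mod `N` are equal -/
theorem eq_of_dvd_sub {N a b : ℤ} (ha : 0 < a) (ha' : a < N) (hb : 0 < b) (hb' : b < N)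
    (h : N ∣ a - b) : a = b := by
  obtain ⟨k, hk⟩ := h
  have hk0 : k = 0 := by
    by_contra h0
    rcases lt_or_gt_of_ne h0 with h1 | h1
    · have : N * k ≤ N * (-1) := mul_le_mul_of_nonneg_left (by linarith) (by linarith)
      linarith
    · have : N * 1 ≤ N * k := mul_le_mul_of_nonneg_left (by linarith) (by linarith)
      linarith
  rw [hk0, mul_zero] at hk
  linarith

/-- a multiple of `N` in `(-N, N)` is zero -/
theorem zero_of_dvd {N a : ℤ} (ha : -N < a) (ha' : a < N) (h : N ∣ a) : a = 0 := by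
  obtain ⟨k, hk⟩ := h
  have hN : 0 < N := by linarith
  have h1 : k < 1 := by nlinarith
  have h2 : -1 < k := by nlinarith
  have h3 : k = 0 := by omega
  rw [hk, h3, mul_zero]

/-- a multiple of `N` in `(0, 2N)` is `N` -/
theorem eq_of_dvd {N a : ℤ} (ha : 0 < a) (ha' : a < 2 * N) (h : N ∣ a) : a = N := by
  obtain ⟨k, hk⟩ := h
  have hN : 0 < N := by linarith
  have h1 : k < 2 := by nlinarith
  have h2 : 0 < k := by nlinarith
  have h3 : k = 1 := by omega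
  rw [hk, h3, mul_one]

theorem not_dvd_of {N a : ℤ} (ha : 0 < a) (ha' : a < N) : ¬ N ∣ a := fun h => by
  have := Int.le_of_dvd ha h
  linarith

/-- the weights are determined by `i` -/
theorem Wt.uniq {i w1 w2 w3 v1 v2 v3 : ℤ} (h : Wt N p q i w1 w2 w3) (h' : Wt N p q i v1 v2 v3) :
    w1 = v1 ∧ w2 = v2 ∧ w3 = v3 := by
  have e1 : w1 = v1 := eq_of_dvd_sub h.p1 h.lt.1 h'.p1 h'.lt.1 (by
    have := dvd_sub h'.d1 h.d1
    have e : i * p - v1 - (i * p - w1) = w1 - v1 := by ring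
    rwa [e] at this)
  have e2 : w2 = v2 := eq_of_dvd_sub h.p2 h.lt.2.1 h'.p2 h'.lt.2.1 (by
    have := dvd_sub h'.d2 h.d2
    have e : i * q - v2 - (i * q - w2) = w2 - v2 := by ring
    rwa [e] at this)
  refine ⟨e1, e2, ?_⟩
  have := h.sum
  have := h'.sum
  linarith

/-- weights of `s - i` -/
theorem Wt.mk' {N p q i j w1 w2 : ℤ} (s : ℤ) (h1 : N ∣ i * p - w1) (h2 : N ∣ i * q - w2)
    (hs : N ∣ i + j - s) {v1 v2 v3 : ℤ} (e1 : N ∣ s * p - w1 - v1) (e2 : N ∣ s * q - w2 - v2)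
    (q1 : 0 < v1) (q2 : 0 < v2) (q3 : 0 < v3) (hv : v1 + v2 + v3 = N) : Wt N p q j v1 v2 v3 := by
  refine ⟨?_, ?_, q1, q2, q3, hv⟩
  · have : j * p - v1 = (i + j - s) * p - (i * p - w1) + (s * p - w1 - v1) := by ring
    rw [this]
    exact dvd_add (dvd_sub (Dvd.dvd.mul_right hs p) h1) e1
  · have : j * q - v2 = (i + j - s) * q - (i * q - w2) + (s * q - w2 - v2) := by ring
    rw [this]
    exact dvd_add (dvd_sub (Dvd.dvd.mul_right hs q) h2) e2

theorem dvd_two_sub {N i j s : ℤ} (hs : N ∣ i + j - s) (h : N ∣ i - j) : N ∣ 2 * i - s := by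
  have := dvd_add hs h
  have e : i + j - s + (i - j) = 2 * i - s := by ring
  rwa [e] at this

/-- **Test (C).** -/
theorem C_test (T : Tri N p q) (S : Surv N p q) {i w1 w2 w3 : ℤ} (hi : IsCoprime i N)
    (hw : Wt N p q i w1 w2 w3) (h2 : ¬ N ∣ 2 * i - 2)
    (h : (w1 < 2 * p ∧ w2 < 2 * q) ∨ (w1 < 2 * p ∧ w3 < N - 2 * p - 2 * q) ∨
      (w2 < 2 * q ∧ w3 < N - 2 * p - 2 * q)) : False := by
  have hsum := hw.sum
  have l := hw.lt
  have hN := T.hN
  have hp := T.hp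
  have hpq := T.hpq
  have hs : N ∣ i + (2 - i) - 2 := by simp
  have key : ∀ v1 v2 v3 : ℤ, ¬ Wt N p q (2 - i) v1 v2 v3 := fun v1 v2 v3 hv =>
    h2 (dvd_two_sub hs (S.k1 i (2 - i) _ _ _ _ _ _ hi hw hv hs))
  rcases h with ⟨h1, h3⟩ | ⟨h1, h3⟩ | ⟨h1, h3⟩
  · exact key _ _ _ (Wt.mk' 2 hw.d1 hw.d2 hs (v1 := 2 * p - w1) (v2 := 2 * q - w2)
      (v3 := N - 2 * p - 2 * q + w1 + w2) ⟨0, by ring⟩ ⟨0, by ring⟩ (by linarith) (by linarith)
      (by linarith [hw.p1, hw.p2]) (by ring))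
  · exact key _ _ _ (Wt.mk' 2 hw.d1 hw.d2 hs (v1 := 2 * p - w1) (v2 := 2 * q - w2 + N)
      (v3 := w1 + w2 - 2 * p - 2 * q) ⟨0, by ring⟩ ⟨-1, by ring⟩ (by linarith) (by linarith)
      (by linarith) (by ring))
  · exact key _ _ _ (Wt.mk' 2 hw.d1 hw.d2 hs (v1 := 2 * p - w1 + N) (v2 := 2 * q - w2)
      (v3 := w1 + w2 - 2 * p - 2 * q) ⟨-1, by ring⟩ ⟨0, by ring⟩ (by linarith) (by linarith)
      (by linarith) (by ring))

/-- **Test (Phi_1).** -/
theorem Phi1_test (T : Tri N p q) (S : Surv N p q) {i w1 w2 w3 : ℤ}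
    (hi : IsCoprime i N ∨ IsCoprime (4 - i) N)
    (hw : Wt N p q i w1 w2 w3) (h2 : ¬ N ∣ 2 * i - 4) (h1 : w1 < 2 * p)
    (h3 : 2 * q ≤ w2) (h3' : w2 < 4 * q) (h5 : N - 2 * p - 2 * q ≤ w3)
    (h5' : w3 < 2 * (N - 2 * p - 2 * q)) :
    (p + q) ^ 2 * (w2 - 3 * q) + q ^ 2 * (w3 - N + 3 * p + 3 * q) = 0 := by
  have hsum := hw.sum
  have l := hw.lt
  have hN := T.hN
  have hp := T.hp
  have hpq := T.hpq
  have hs : N ∣ i + (4 - i) - 4 := by simp
  have hv : Wt N p q (4 - i) (4 * p - w1) (4 * q - w2) (2 * (N - 2 * p - 2 * q) - w3) :=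
    Wt.mk' 4 hw.d1 hw.d2 hs ⟨0, by ring⟩ ⟨0, by ring⟩ (by linarith) (by linarith)
      (by linarith) (by linarith)
  have h := S.k2a i (4 - i) _ _ _ _ _ _ hi hw hv hs (fun h => h2 (dvd_two_sub hs h)) h3 h5
  rw [if_pos (by ring), if_pos (by ring)] at h
  linear_combination h

/-- **Test (Phi_2).** -/
theorem Phi2_test (T : Tri N p q) (S : Surv N p q) {i w1 w2 w3 : ℤ}
    (hi : IsCoprime i N ∨ IsCoprime (4 - i) N)
    (hw : Wt N p q i w1 w2 w3) (h2 : ¬ N ∣ 2 * i - 4) (h1 : w2 < 2 * q)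
    (h3 : 2 * p ≤ w1) (h3' : w1 < 4 * p) (h5 : N - 2 * p - 2 * q ≤ w3)
    (h5' : w3 < 2 * (N - 2 * p - 2 * q)) :
    (p + q) ^ 2 * (w1 - 3 * p) + p ^ 2 * (w3 - N + 3 * p + 3 * q) = 0 := by
  have hsum := hw.sum
  have l := hw.lt
  have hN := T.hN
  have hp := T.hp
  have hpq := T.hpq
  have hs : N ∣ i + (4 - i) - 4 := by simp
  have hv : Wt N p q (4 - i) (4 * p - w1) (4 * q - w2) (2 * (N - 2 * p - 2 * q) - w3) :=
    Wt.mk' 4 hw.d1 hw.d2 hs ⟨0, by ring⟩ ⟨0, by ring⟩ (by linarith) (by linarith)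
      (by linarith) (by linarith)
  have h := S.k2b i (4 - i) _ _ _ _ _ _ hi hw hv hs (fun h => h2 (dvd_two_sub hs h)) h3 h5
  rw [if_pos (by ring), if_pos (by ring)] at h
  linear_combination h

/-- **Test (Phi_3).** -/
theorem Phi3_test (T : Tri N p q) (S : Surv N p q) {i w1 w2 w3 : ℤ}
    (hi : IsCoprime i N ∨ IsCoprime (4 - i) N)
    (hw : Wt N p q i w1 w2 w3) (h2 : ¬ N ∣ 2 * i - 4) (h1 : w3 < N - 2 * p - 2 * q)
    (h3 : 2 * p ≤ w1) (h3' : w1 < 4 * p) (h5 : 2 * q ≤ w2) (h5' : w2 < 4 * q) :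
    q ^ 2 * (w1 - 3 * p) + p ^ 2 * (w2 - 3 * q) = 0 := by
  have hsum := hw.sum
  have l := hw.lt
  have hN := T.hN
  have hp := T.hp
  have hpq := T.hpq
  have hs : N ∣ i + (4 - i) - 4 := by simp
  have hv : Wt N p q (4 - i) (4 * p - w1) (4 * q - w2) (2 * (N - 2 * p - 2 * q) - w3) :=
    Wt.mk' 4 hw.d1 hw.d2 hs ⟨0, by ring⟩ ⟨0, by ring⟩ (by linarith) (by linarith)
      (by linarith) (by linarith)
  have h := S.k2c i (4 - i) _ _ _ _ _ _ hi hw hv hs (fun h => h2 (dvd_two_sub hs h)) h3 h5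
  rw [if_pos (by ring), if_pos (by ring)] at h
  linear_combination h

/-- **Test (R_2(3,2,1)).** -/
theorem R321_test (T : Tri N p q) (S : Surv N p q) {i w1 w2 w3 : ℤ}
    (hi : IsCoprime i N ∨ IsCoprime (4 - i) N)
    (hw : Wt N p q i w1 w2 w3) (h2 : ¬ N ∣ 2 * i - 4) (h1 : 4 * p < w1) (h3 : w2 < 4 * q - N)
    (h5 : N - 2 * p - 2 * q ≤ w3) (h5' : w3 < 2 * (N - 2 * p - 2 * q)) : False := by
  have hsum := hw.sum
  have l := hw.lt
  have hN := T.hN
  have hp := T.hp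
  have hpq := T.hpq
  have hs : N ∣ i + (4 - i) - 4 := by simp
  have hv : Wt N p q (4 - i) (4 * p - w1 + N) (4 * q - w2 - N) (2 * (N - 2 * p - 2 * q) - w3) :=
    Wt.mk' 4 hw.d1 hw.d2 hs ⟨-1, by ring⟩ ⟨1, by ring⟩ (by linarith) (by linarith)
      (by linarith) (by linarith)
  have h := S.k2b i (4 - i) _ _ _ _ _ _ hi hw hv hs (fun h => h2 (dvd_two_sub hs h))
    (by linarith) h5
  rw [if_neg (by intro h0; linarith), if_pos (by ring)] at h
  have h6 : 0 < p ^ 2 * (N - p - q - (2 * (N - 2 * p - 2 * q) - w3)) := by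
    apply mul_pos (by positivity)
    linarith
  linarith

/-- **Test (R_2(1,3,2)).** -/
theorem R132_test (T : Tri N p q) (S : Surv N p q) {i w1 w2 w3 : ℤ}
    (hi : IsCoprime i N ∨ IsCoprime (4 - i) N)
    (hw : Wt N p q i w1 w2 w3) (h2 : ¬ N ∣ 2 * i - 4) (h1 : 2 * p ≤ w1) (h1' : w1 < 4 * p)
    (h3 : 4 * q < w2) (h5 : w3 < 2 * (N - 2 * p - 2 * q) - N) (hne : w1 ≠ 3 * p) : False := by
  have hsum := hw.sum
  have l := hw.lt
  have hN := T.hN
  have hp := T.hp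
  have hpq := T.hpq
  have hs : N ∣ i + (4 - i) - 4 := by simp
  have hv : Wt N p q (4 - i) (4 * p - w1) (4 * q - w2 + N) (2 * (N - 2 * p - 2 * q) - w3 - N) :=
    Wt.mk' 4 hw.d1 hw.d2 hs ⟨0, by ring⟩ ⟨-1, by ring⟩ (by linarith) (by linarith)
      (by linarith) (by linarith)
  have h := S.k2c i (4 - i) _ _ _ _ _ _ hi hw hv hs (fun h => h2 (dvd_two_sub hs h))
    h1 (by linarith)
  rw [if_pos (by ring), if_neg (by intro h0; linarith), add_zero] at h
  rcases mul_eq_zero.1 h with h6 | h6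
  · have hq : 0 < q := by linarith
    have : 0 < q ^ 2 := by positivity
    linarith
  · exact hne (by linarith)

/-- **Test (R_2(1,2,3)).** -/
theorem R123_test (T : Tri N p q) (S : Surv N p q) {i w1 w2 w3 : ℤ}
    (hi : IsCoprime i N ∨ IsCoprime (4 - i) N)
    (hw : Wt N p q i w1 w2 w3) (h2 : ¬ N ∣ 2 * i - 4) (h1 : 2 * p ≤ w1) (h1' : w1 < 4 * p)
    (h3 : w2 < 4 * q - N) (h5 : 2 * (N - 2 * p - 2 * q) < w3) (hne : w1 ≠ 3 * p) : False := by
  have hsum := hw.sum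
  have l := hw.lt
  have hN := T.hN
  have hp := T.hp
  have hpq := T.hpq
  have hs : N ∣ i + (4 - i) - 4 := by simp
  have hv : Wt N p q (4 - i) (4 * p - w1) (4 * q - w2 - N) (2 * (N - 2 * p - 2 * q) - w3 + N) :=
    Wt.mk' 4 hw.d1 hw.d2 hs ⟨0, by ring⟩ ⟨1, by ring⟩ (by linarith) (by linarith)
      (by linarith) (by linarith)
  have h := S.k2b i (4 - i) _ _ _ _ _ _ hi hw hv hs (fun h => h2 (dvd_two_sub hs h))
    h1 (by linarith)
  rw [if_pos (by ring), if_neg (by intro h0; linarith), add_zero] at h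
  rcases mul_eq_zero.1 h with h6 | h6
  · have hq : 0 < q := by linarith
    have : 0 < (p + q) ^ 2 := by positivity
    linarith
  · exact hne (by linarith)

/-- **Key lemma, vertex 1.** -/
theorem key1 (T : Tri N p q) (S : Surv N p q) {i d : ℤ} (hi : IsCoprime i N)
    (hd : N ∣ i * p - d) (hd0 : 0 < d) (hd1 : d < 2 * p) (hd3 : d ≤ N - 2 * p - 2 * q)
    (hd4 : 2 * (d + p) < N) (h2 : ¬ N ∣ 2 * i - 2) :
    ∃ w2 w3 : ℤ, Wt N p q i d w2 w3 ∧ 2 * q ≤ w2 ∧ N - 2 * p - 2 * q ≤ w3 := by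
  have hN := T.hN
  have hp := T.hp
  have hpq := T.hpq
  have hN0 : 0 < N := by linarith
  have hU0 := Int.emod_nonneg (i * q) hN0.ne'
  have hUN := Int.emod_lt_of_pos (i * q) hN0
  have hUd : N ∣ i * q - i * q % N := Int.dvd_self_sub_emod
  set U := i * q % N with hU
  have hU1 : U ≠ 0 := by
    intro h0
    rw [h0, sub_zero] at hUd
    exact not_dvd_of (by linarith) (by linarith) (hi.symm.dvd_of_dvd_mul_left hUd)
  have hUpos : 0 < U := lt_of_le_of_ne hU0 (Ne.symm hU1)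
  have hU2 : U + d ≠ N := by
    intro h0
    have h1 := dvd_add hd hUd
    have h3 : i * p - d + (i * q - U) = i * (p + q) - N := by rw [← h0]; ring
    rw [h3] at h1
    have h4 : N ∣ i * (p + q) := by
      have := dvd_add h1 (dvd_refl N)
      rwa [sub_add_cancel] at this
    exact not_dvd_of (by linarith) (by linarith) (hi.symm.dvd_of_dvd_mul_left h4)
  rcases lt_or_gt_of_ne hU2 with h3 | h3
  · have hw : Wt N p q i d U (N - d - U) := ⟨hd, hUd, hd0, hUpos, by linarith, by ring⟩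
    refine ⟨U, N - d - U, hw, ?_, ?_⟩
    · by_contra hc
      exact C_test T S hi hw h2 (Or.inl ⟨hd1, by linarith⟩)
    · by_contra hc
      exact C_test T S hi hw h2 (Or.inr (Or.inl ⟨hd1, by linarith⟩))
  · exfalso
    have hw : Wt N p q (-i) (N - d) (N - U) (d + U - N) := by
      refine ⟨?_, ?_, by linarith, by linarith, by linarith, by ring⟩
      · have e : -i * p - (N - d) = -(i * p - d) - N := by ring
        rw [e]
        exact dvd_sub (hd.neg_right) (dvd_refl N)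
      · have e : -i * q - (N - U) = -(i * q - U) - N := by ring
        rw [e]
        exact dvd_sub (hUd.neg_right) (dvd_refl N)
    refine C_test T S hi.neg_left hw ?_ (Or.inr (Or.inr ⟨by linarith, by linarith⟩))
    intro h4
    have h5 : N ∣ 2 * (d + p) := by
      have h6 := dvd_add (h4.mul_right p) (hd.mul_left 2)
      have e : (2 * -i - 2) * p + 2 * (i * p - d) = -(2 * (d + p)) := by ring
      rw [e] at h6
      exact (dvd_neg).1 h6
    exact not_dvd_of (by linarith) (by linarith) h5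

/-- **Key lemma, vertex 3.** -/
theorem key3 (T : Tri N p q) (S : Surv N p q) {i d : ℤ} (hi : IsCoprime i N)
    (hd : N ∣ i * (N - p - q) - d) (hd0 : 0 < d) (hd1 : d < 2 * p) (hd3 : d < N - 2 * p - 2 * q)
    (h2 : ¬ N ∣ 2 * i - 2) :
    ∃ w1 w2 : ℤ, Wt N p q i w1 w2 d ∧ 2 * p ≤ w1 ∧ 2 * q ≤ w2 := by
  have hN := T.hN
  have hp := T.hp
  have hpq := T.hpq
  have hN0 : 0 < N := by linarith
  have hU0 := Int.emod_nonneg (i * p) hN0.ne'
  have hUN := Int.emod_lt_of_pos (i * p) hN0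
  have hUd : N ∣ i * p - i * p % N := Int.dvd_self_sub_emod
  set U := i * p % N with hU
  have hV0 := Int.emod_nonneg (i * q) hN0.ne'
  have hVN := Int.emod_lt_of_pos (i * q) hN0
  have hVd : N ∣ i * q - i * q % N := Int.dvd_self_sub_emod
  set V := i * q % N with hV
  have hU1 : U ≠ 0 := by
    intro h0
    rw [h0, sub_zero] at hUd
    exact not_dvd_of (by linarith) (by linarith) (hi.symm.dvd_of_dvd_mul_left hUd)
  have hV1 : V ≠ 0 := by
    intro h0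
    rw [h0, sub_zero] at hVd
    exact not_dvd_of (by linarith) (by linarith) (hi.symm.dvd_of_dvd_mul_left hVd)
  have hUpos : 0 < U := lt_of_le_of_ne hU0 (Ne.symm hU1)
  have hVpos : 0 < V := lt_of_le_of_ne hV0 (Ne.symm hV1)
  have hsum : N ∣ U + V + d := by
    have h1 := dvd_add hd (dvd_add hUd hVd)
    have e : i * (N - p - q) - d + (i * p - U + (i * q - V)) = i * N - (U + V + d) := by ring
    rw [e] at h1
    have h3 := dvd_sub (Dvd.intro_left i rfl : N ∣ i * N) h1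
    rwa [sub_sub_cancel] at h3
  have hsum' : U + V + d = N ∨ U + V + d = 2 * N := by
    obtain ⟨k, hk⟩ := hsum
    have hk1 : k < 3 := by nlinarith
    have hk0 : 0 < k := by nlinarith
    have : k = 1 ∨ k = 2 := by omega
    rcases this with h | h
    · left; rw [hk, h, mul_one]
    · right; rw [hk, h, mul_comm]
  rcases hsum' with h3 | h3
  · have hw : Wt N p q i U V d := ⟨hUd, hVd, hUpos, hVpos, hd0, h3⟩
    refine ⟨U, V, hw, ?_, ?_⟩
    · by_contra hc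
      exact C_test T S hi hw h2 (Or.inr (Or.inl ⟨by linarith, by linarith⟩))
    · by_contra hc
      exact C_test T S hi hw h2 (Or.inr (Or.inr ⟨by linarith, by linarith⟩))
  · exfalso
    have hw : Wt N p q (-i) (N - U) (N - V) (N - d) := by
      refine ⟨?_, ?_, by linarith, by linarith, by linarith, by linarith⟩
      · have e : -i * p - (N - U) = -(i * p - U) - N := by ring
        rw [e]
        exact dvd_sub (hUd.neg_right) (dvd_refl N)
      · have e : -i * q - (N - V) = -(i * q - V) - N := by ring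
        rw [e]
        exact dvd_sub (hVd.neg_right) (dvd_refl N)
    refine C_test T S hi.neg_left hw ?_ (Or.inl ⟨by linarith, by linarith⟩)
    intro h4
    have h5 : N ∣ 2 * (p + q - d) := by
      have h6 := dvd_add (h4.mul_right (N - p - q)) (hd.mul_left 2)
      have e : (2 * -i - 2) * (N - p - q) + 2 * (i * (N - p - q) - d) =
        2 * (p + q - d) - 2 * N := by ring
      rw [e] at h6
      have h7 := dvd_add h6 (Dvd.intro_left 2 rfl : N ∣ 2 * N)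
      rwa [sub_add_cancel] at h7
    exact not_dvd_of (by linarith) (by linarith) h5

end Pool.Agent.OBT.NT
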