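import Mathlib

/-!
# Non-vanishing of the polynomials `Phi_1` and `Phi_3`
-/

namespace Pool.Agent.OBT.NT

/-- `d = 1`. The exceptional solution is `(p, q, r) = (2, 4, 0)`. -/
theorem Phi1_ne_one {p q r : ℤ} (hp : 2 ≤ p) (hpq : p ≤ q) (hr : 0 ≤ r)
    (h : p ^ 2 * q - (p - 1) * q ^ 2 - r * p * (p + 2 * q) = 0) : p = 2 ∧ q = 4 ∧ r = 0 := by
  have hq : 0 < q := by linarith
  have h1 : (p - 1) * q ≤ p ^ 2 := by
    have h2 : 0 ≤ r * p * (p + 2 * q) := by
      have : 0 ≤ p := by linarith
      positivity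
    have h3 : ((p - 1) * q) * q ≤ p ^ 2 * q := by linarith
    exact le_of_mul_le_mul_right h3 hq
  rcases (by omega : p = 2 ∨ 3 ≤ p) with rfl | hp3
  · have hq4 : q ≤ 4 := by linarith
    interval_cases q
    · exfalso; omega
    · exfalso; omega
    · refine ⟨rfl, rfl, ?_⟩
      omega
  · exfalso
    have hq1 : q ≤ p + 1 := by
      by_contra hc
      push Not at hc
      have h4 : (p - 1) * (p + 2) ≤ (p - 1) * q := mul_le_mul_of_nonneg_left (by omega) (by omega)
      nlinarith
    rcases (by omega : q = p ∨ q = p + 1) with rfl | rfl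
    · have h5 : q ^ 2 * (1 - 3 * r) = 0 := by linear_combination h
      rcases mul_eq_zero.1 h5 with h6 | h6
      · have : 0 < q ^ 2 := by positivity
        linarith
      · omega
    · have h5 : p + 1 = r * (p * (3 * p + 2)) := by linear_combination h
      rcases (by omega : r = 0 ∨ 1 ≤ r) with rfl | h6
      · linarith
      · have h7 : 1 * (p * (3 * p + 2)) ≤ r * (p * (3 * p + 2)) :=
          mul_le_mul_of_nonneg_right h6 (by positivity)
        nlinarith

/-- `d = 2`. The exceptional solution is `(p, q, r) = (6, 9, 0)`. -/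
theorem Phi1_ne_two {p q r : ℤ} (hp : 4 ≤ p) (hp2 : 2 ∣ p) (hq2 : ¬ 2 ∣ q) (hpq : p ≤ q)
    (hr : 0 ≤ r) (h : p ^ 2 * q - (p - 2) * q ^ 2 - r * p * (p + 2 * q) = 0) :
    p = 6 ∧ q = 9 ∧ r = 0 := by
  have hq : 0 < q := by linarith
  have h1 : (p - 2) * q ≤ p ^ 2 := by
    have h2 : 0 ≤ r * p * (p + 2 * q) := by
      have : 0 ≤ p := by linarith
      positivity
    have h3 : ((p - 2) * q) * q ≤ p ^ 2 * q := by linarith
    exact le_of_mul_le_mul_right h3 hq
  rcases (by omega : p = 4 ∨ p = 6 ∨ 8 ≤ p) with rfl | rfl | hp8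
  · exfalso
    have hq8 : q ≤ 8 := by linarith
    rcases (by omega : q = 5 ∨ q = 7) with rfl | rfl <;> omega
  · have hq9 : q ≤ 9 := by linarith
    rcases (by omega : q = 7 ∨ q = 9) with rfl | rfl
    · exfalso; omega
    · refine ⟨rfl, rfl, ?_⟩
      omega
  · exfalso
    have hq1 : q ≤ p + 2 := by
      by_contra hc
      push Not at hc
      have h4 : (p - 2) * (p + 3) ≤ (p - 2) * q := mul_le_mul_of_nonneg_left (by omega) (by omega)
      nlinarith
    have hq3 : q = p + 1 := by omega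
    subst hq3
    have h5 : (p + 1) * (p + 2) = r * (p * (3 * p + 2)) := by linear_combination h
    rcases (by omega : r = 0 ∨ 1 ≤ r) with rfl | h6
    · nlinarith
    · have h7 : 1 * (p * (3 * p + 2)) ≤ r * (p * (3 * p + 2)) :=
        mul_le_mul_of_nonneg_right h6 (by positivity)
      nlinarith

/-- a divisor of `A * B` divides `A * gcd B N` -/
theorem NTPhi_dvd_gcd {N A B : ℤ} (h : N ∣ A * B) : N ∣ A * (Int.gcd B N : ℤ) := by
  rw [Int.gcd_eq_gcd_ab]
  have e : A * (B * Int.gcdA B N + N * Int.gcdB B N) =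
    A * B * Int.gcdA B N + N * (A * Int.gcdB B N) := by ring
  rw [e]
  exact dvd_add (h.mul_right _) (dvd_mul_right _ _)

/-- `Phi_3` does not vanish. Here `p3 = N - p - q`, `d = gcd(p3, N)`, `r' = 2 p ...`. -/
theorem Phi3_ne {N p q d r r' : ℤ} (hp : 0 < p) (hpq : p ≤ q) (hN : 2 * (p + q) < N)
    (hg : ∀ l : ℕ, l.Prime → ((l : ℤ) ∣ p) → ((l : ℤ) ∣ q) → ¬ ((l : ℤ) ∣ N))
    (hd : d = (Int.gcd (N - p - q) N : ℤ)) (hd3 : d ≤ 3) (hr : 0 ≤ r) (hr' : 0 ≤ r')
    (hsum : r + r' = N - 2 * p - 2 * q - d) (hA : N - 2 * p - 2 * q < 2 * p)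
    (hdvd : N ∣ r' * q - r * p) : (p - r') * q ^ 2 + (q - r) * p ^ 2 ≠ 0 := by
  intro h
  have hN0 : 0 < N := by linarith
  have hd0 : 0 < d := by
    rw [hd]
    exact_mod_cast Int.gcd_pos_of_ne_zero_right _ hN0.ne'
  have hfpos : 0 < Int.gcd p q := Int.gcd_pos_of_ne_zero_left _ hp.ne'
  obtain ⟨u, v, huv, hpu, hqv⟩ := Int.exists_gcd_one hfpos
  obtain ⟨F, hF⟩ : ∃ F : ℤ, F = (Int.gcd p q : ℤ) := ⟨_, rfl⟩
  have hF0 : 0 < F := by rw [hF]; exact_mod_cast hfpos
  have hFp : F ∣ p := by rw [hF]; exact Int.gcd_dvd_left _ _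
  have hFq : F ∣ q := by rw [hF]; exact Int.gcd_dvd_right _ _
  rw [← hF] at hpu hqv
  have huv' : IsCoprime u v := Int.isCoprime_iff_gcd_eq_one.2 huv
  have hu0 : 0 < u := by
    by_contra hc
    push Not at hc
    have := mul_nonpos_of_nonpos_of_nonneg hc hF0.le
    linarith
  have hv0 : 0 < v := by
    by_contra hc
    push Not at hc
    have := mul_nonpos_of_nonpos_of_nonneg hc hF0.le
    linarith
  have huv1 : u ≤ v := by
    rw [hpu, hqv] at hpq
    exact le_of_mul_le_mul_right hpq hF0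
  -- `F` and `N` are coprime
  have hFN : IsCoprime F N := by
    rw [Int.isCoprime_iff_gcd_eq_one]
    apply Nat.coprime_of_dvd
    intro l hl h1 h2
    have h3 : (l : ℤ) ∣ F := Int.natCast_dvd.2 h1
    have h4 : (l : ℤ) ∣ N := Int.natCast_dvd.2 h2
    exact hg l hl (h3.trans hFp) (h3.trans hFq) h4
  -- the equation
  have h1 : F * u * v * (u + v) = r' * v ^ 2 + r * u ^ 2 := by
    have h2 : F ^ 2 * (F * u * v * (u + v)) = F ^ 2 * (r' * v ^ 2 + r * u ^ 2) := by
      rw [hpu, hqv] at h
      linear_combination h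
    exact mul_left_cancel₀ (by positivity) h2
  have hur : u ∣ r' := by
    have h2 : u ∣ r' * v ^ 2 := by
      have e : r' * v ^ 2 = u * (F * v * (u + v) - r * u) := by linear_combination -h1
      rw [e]
      exact dvd_mul_right _ _
    exact (huv'.pow_right (n := 2)).dvd_of_dvd_mul_right h2
  have hvr : v ∣ r := by
    have h2 : v ∣ r * u ^ 2 := by
      have e : r * u ^ 2 = v * (F * u * (u + v) - r' * v) := by linear_combination -h1
      rw [e]
      exact dvd_mul_right _ _
    exact (huv'.symm.pow_right (n := 2)).dvd_of_dvd_mul_right h2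
  obtain ⟨a, rfl⟩ := hur
  obtain ⟨b, rfl⟩ := hvr
  have h3 : F * (u + v) = a * v + b * u := by
    have h4 : (u * v) * (F * (u + v)) = (u * v) * (a * v + b * u) := by linear_combination h1
    exact mul_left_cancel₀ (by positivity) h4
  obtain ⟨w, hw⟩ : u ∣ a - F := by
    have h4 : u ∣ (a - F) * v := ⟨F - b, by linear_combination -h3⟩
    exact huv'.dvd_of_dvd_mul_right h4
  have ha : a = F + u * w := by linarith
  have hb : b = F - v * w := by
    subst ha
    have h4 : u * b = u * (F - v * w) := by linear_combination -h3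
    exact mul_left_cancel₀ hu0.ne' h4
  subst ha hb
  -- `w > 0`
  have hw0 : 0 < w := by
    by_contra hc
    push Not at hc
    have h4 : (u + v) * (F - w * (v - u)) < 2 * p := by
      have : v * (F - v * w) + u * (F + u * w) = (u + v) * (F - w * (v - u)) := by ring
      linarith
    have h5 : w * (v - u) ≤ 0 := mul_nonpos_of_nonpos_of_nonneg hc (by linarith)
    have h6 : (u + v) * F ≤ (u + v) * (F - w * (v - u)) :=
      mul_le_mul_of_nonneg_left (by linarith) (by linarith)
    have h7 : 2 * u * F ≤ (u + v) * F := mul_le_mul_of_nonneg_right (by linarith) hF0.le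
    linarith
  -- divisibility
  have h5 : N ∣ u * v * w * (u + v) := by
    have h6 : N ∣ F * (u * v * w * (u + v)) := by
      have e : F * (u * v * w * (u + v)) = u * (F + u * w) * q - v * (F - v * w) * p := by
        rw [hpu, hqv]
        ring
      rw [e]
      exact hdvd
    exact hFN.symm.dvd_of_dvd_mul_left h6
  have h6 := NTPhi_dvd_gcd h5
  have h7 : (Int.gcd (u + v) N : ℤ) ∣ d := by
    rw [hd]
    apply Int.dvd_coe_gcd
    · have h8 : (Int.gcd (u + v) N : ℤ) ∣ p + q := by
        have e : p + q = (u + v) * F := by rw [hpu, hqv]; ring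
        rw [e]
        exact (Int.gcd_dvd_left _ _).mul_right _
      have e : N - p - q = N - (p + q) := by ring
      rw [e]
      exact dvd_sub (Int.gcd_dvd_right _ _) h8
    · exact Int.gcd_dvd_right _ _
  have h8 : N ∣ u * v * w * d := h6.trans (mul_dvd_mul_left _ h7)
  have h9 : N ≤ u * v * w * d := Int.le_of_dvd (by positivity) h8
  have h10 : v * w ≤ F := by
    by_contra hc
    push Not at hc
    have : v * (F - v * w) < 0 := mul_neg_of_pos_of_neg hv0 (by linarith)
    linarith
  have h11 : u * v * w ≤ p := by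
    have : u * (v * w) ≤ u * F := mul_le_mul_of_nonneg_left h10 hu0.le
    linarith
  have h12 : u * v * w * d ≤ p * 3 :=
    mul_le_mul h11 hd3 hd0.le hp.le
  linarith

end Pool.Agent.OBT.NT
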