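import Mathlib

/-!
# Units with a given product
-/

namespace Pool.Agent.OBT.NT

/-- integers without a common prime factor are coprime -/
theorem NTU_coprime_of {a b : ℤ} (h : ∀ l : ℕ, l.Prime → (l : ℤ) ∣ a → (l : ℤ) ∣ b → False) :
    IsCoprime a b := by
  rw [Int.isCoprime_iff_gcd_eq_one]
  by_contra hc
  obtain ⟨l, hl, hd⟩ := Nat.exists_prime_and_dvd hc
  have h1 : (l : ℤ) ∣ (Int.gcd a b : ℤ) := by exact_mod_cast hd
  exact h l hl (h1.trans (Int.gcd_dvd_left _ _)) (h1.trans (Int.gcd_dvd_right _ _))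

/-- coprime integers have no common prime factor -/
theorem NTU_not_prime {a b : ℤ} (h : IsCoprime a b) {l : ℕ} (hl : l.Prime) (ha : (l : ℤ) ∣ a)
    (hb : (l : ℤ) ∣ b) : False := by
  obtain ⟨u, v, e⟩ := h
  have h1 : (l : ℤ) ∣ 1 := by
    rw [← e]
    exact dvd_add (ha.mul_left u) (hb.mul_left v)
  have h2 : l ∣ 1 := by exact_mod_cast h1
  exact hl.one_lt.ne' (Nat.dvd_one.1 h2)

/-- the product of the primes which divide `d` and not `n` -/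
theorem NTU_exists_Q (n d : ℤ) (hd : d ≠ 0) : ∃ Q : ℤ, IsCoprime Q n ∧
    ∀ l : ℕ, l.Prime → (l : ℤ) ∣ d → ¬ (l : ℤ) ∣ n → (l : ℤ) ∣ Q := by
  classical
  refine ⟨∏ l ∈ d.natAbs.primeFactors.filter (fun l : ℕ => ¬ (l : ℤ) ∣ n), ((l : ℕ) : ℤ), ?_, ?_⟩
  · apply IsCoprime.prod_left
    intro l hl
    rw [Finset.mem_filter] at hl
    have hp : l.Prime := Nat.prime_of_mem_primeFactors hl.1
    exact (Nat.prime_iff_prime_int.1 hp).coprime_iff_not_dvd.2 hl.2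
  · intro l hl hld hln
    apply Finset.dvd_prod_of_mem (fun l : ℕ => (l : ℤ))
    rw [Finset.mem_filter]
    refine ⟨?_, hln⟩
    rw [Nat.mem_primeFactors]
    refine ⟨hl, ?_, by simpa using hd⟩
    exact Int.natCast_dvd.1 hld

/-- a family of numbers `i = i0 mod n` coprime to `n d` -/
theorem NTU_key {n d q i0 : ℤ} (hd : d ≠ 0) (hi : IsCoprime i0 n) (hq : IsCoprime q d) :
    ∃ z c : ℤ, (∀ y : ℤ, n ∣ (z + y * c) - i0) ∧ n * d ∣ c * q - n ∧
      ∀ y : ℤ, (∀ l : ℕ, l.Prime → (l : ℤ) ∣ d → ¬ (l : ℤ) ∣ n → ¬ (l : ℤ) ∣ y) →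
        IsCoprime (z + y * c) (n * d) := by
  obtain ⟨Q, hQ, hQ'⟩ := NTU_exists_Q n d hd
  obtain ⟨u, v, e⟩ := hQ
  obtain ⟨u', v', e'⟩ := hq
  have h1 : ∀ y : ℤ, n ∣ (u * Q * i0 + y * (u' * n)) - i0 := by
    intro y
    exact ⟨y * u' - v * i0, by linear_combination i0 * e⟩
  refine ⟨u * Q * i0, u' * n, h1, ⟨-v', by linear_combination n * e'⟩, ?_⟩
  intro y hy
  apply NTU_coprime_of
  intro l hl hl1 hl2
  have hlp := Nat.prime_iff_prime_int.1 hl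
  by_cases hn : (l : ℤ) ∣ n
  · have h2 := dvd_sub hl1 (hn.trans (h1 y))
    rw [sub_sub_cancel] at h2
    exact NTU_not_prime hi hl h2 hn
  · have hld : (l : ℤ) ∣ d := (hlp.dvd_or_dvd hl2).resolve_left hn
    have hlQ := hQ' l hl hld hn
    have h3 : (l : ℤ) ∣ y * (u' * n) := by
      have h4 := dvd_sub hl1 ((hlQ.mul_left u).mul_right i0)
      rwa [add_sub_cancel_left] at h4
    rcases hlp.dvd_or_dvd h3 with h5 | h5
    · exact hy l hl hld hn h5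
    · rcases hlp.dvd_or_dvd h5 with h6 | h6
      · exact NTU_not_prime (a := u') (b := d) ⟨q, v', by linear_combination e'⟩ hl h6 hld
      · exact hn h6

/-- some unit multiplies `p` to `gcd(p, N)` -/
theorem exists_unit_gcd {N : ℤ} (p : ℤ) (hN : 0 < N) :
    ∃ i : ℤ, IsCoprime i N ∧ N ∣ i * p - (Int.gcd p N : ℤ) := by
  set d : ℤ := (Int.gcd p N : ℤ) with hd
  have hd0 : d ≠ 0 := by
    rw [hd]
    have : Int.gcd p N ≠ 0 := by
      intro h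
      exact hN.ne' (Int.gcd_eq_zero_iff.1 h).2
    exact_mod_cast this
  obtain ⟨p', hp'⟩ : d ∣ p := Int.gcd_dvd_left _ _
  obtain ⟨n, hn⟩ : d ∣ N := Int.gcd_dvd_right _ _
  have hcop : ∃ u v : ℤ, u * p' + v * n = 1 := by
    obtain ⟨A, B, hAB⟩ : ∃ A B : ℤ, d = p * A + N * B :=
      ⟨Int.gcdA p N, Int.gcdB p N, Int.gcd_eq_gcd_ab p N⟩
    refine ⟨A, B, ?_⟩
    have h2 : d * (A * p' + B * n) = d * 1 := by
      linear_combination (-A) * hp' + (-B) * hn - hAB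
    exact mul_left_cancel₀ hd0 h2
  obtain ⟨u, v, e⟩ := hcop
  obtain ⟨z, c, h1, -, h3⟩ := NTU_key (n := n) (d := d) (q := 1) (i0 := u) hd0
    ⟨p', v, by linear_combination e⟩ isCoprime_one_left
  have h4 := h3 1 (fun l hl _ _ h => by
    have : l ∣ 1 := by exact_mod_cast h
    exact hl.one_lt.ne' (Nat.dvd_one.1 this))
  refine ⟨z + 1 * c, by rw [hn, mul_comm d n]; exact h4, ?_⟩
  obtain ⟨k, hk⟩ := h1 1
  refine ⟨k * p' - v, ?_⟩
  rw [hp']
  linear_combination (d * p') * hk + d * e - (k * p' - v) * hn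

/-- two units congruent to `i0` mod `n` such that the multiples of `q` are far apart mod `N = n d` -/
theorem two_units {N n d q i0 : ℤ} (hN : N = n * d) (hn : 0 < n) (hd : 3 ≤ d ∨ (d = 2 ∧ 2 ∣ n))
    (hi : IsCoprime i0 n) (hq : IsCoprime q d) :
    ∃ i i' s : ℤ, n ∣ i - i0 ∧ n ∣ i' - i0 ∧ IsCoprime i N ∧ IsCoprime i' N ∧
      N ∣ (i' - i) * q - s * n ∧ d ≤ 3 * s ∧ 3 * s ≤ 2 * d := by
  have hd0 : d ≠ 0 := by rcases hd with h | h <;> omega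
  obtain ⟨z, c, h1, h2, h3⟩ := NTU_key (n := n) (d := d) (q := q) (i0 := i0) hd0 hi hq
  have main : ∀ y y' : ℤ, (∀ l : ℕ, l.Prime → (l : ℤ) ∣ d → ¬ (l : ℤ) ∣ n → ¬ (l : ℤ) ∣ y) →
      (∀ l : ℕ, l.Prime → (l : ℤ) ∣ d → ¬ (l : ℤ) ∣ n → ¬ (l : ℤ) ∣ y') →
      d ≤ 3 * (y' - y) → 3 * (y' - y) ≤ 2 * d →
      ∃ i i' s : ℤ, n ∣ i - i0 ∧ n ∣ i' - i0 ∧ IsCoprime i N ∧ IsCoprime i' N ∧
        N ∣ (i' - i) * q - s * n ∧ d ≤ 3 * s ∧ 3 * s ≤ 2 * d := by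
    intro y y' hy hy' e1 e2
    refine ⟨z + y * c, z + y' * c, y' - y, h1 y, h1 y', ?_, ?_, ?_, e1, e2⟩
    · rw [hN]; exact h3 y hy
    · rw [hN]; exact h3 y' hy'
    · rw [hN]
      obtain ⟨k, hk⟩ := h2
      exact ⟨(y' - y) * k, by linear_combination (y' - y) * hk⟩
  have cop : ∀ y : ℤ, IsCoprime y d →
      (∀ l : ℕ, l.Prime → (l : ℤ) ∣ d → ¬ (l : ℤ) ∣ n → ¬ (l : ℤ) ∣ y) :=
    fun y h l hl h1 _ h2 => NTU_not_prime h hl h2 h1
  rcases hd with hd | ⟨hd, h2n⟩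
  · rcases Int.even_or_odd' d with ⟨e, he | he⟩
    · rcases Int.even_or_odd' e with ⟨f, hf | hf⟩
      · refine main 1 (1 + 2 * f) (cop _ isCoprime_one_left) (cop _ ?_) (by omega) (by omega)
        exact ⟨1 - 2 * f, f, by rw [he, hf]; ring⟩
      · refine main 1 (2 * f + 3) (cop _ isCoprime_one_left) (cop _ ?_) (by omega) (by omega)
        rw [he, hf]
        exact IsCoprime.mul_right ⟨1, -(f + 1), by ring⟩ ⟨-f, f + 1, by ring⟩
    · refine main 1 (e + 1) (cop _ isCoprime_one_left) (cop _ ?_) (by omega) (by omega)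
      exact ⟨2, -1, by rw [he]; ring⟩
  · refine main 0 1 ?_ (cop _ isCoprime_one_left) (by omega) (by omega)
    intro l hl h4 h5 _
    apply h5
    have h6 : (l : ℤ) ∣ 2 := by rw [← hd]; exact h4
    have h7 : l ∣ 2 := by exact_mod_cast h6
    have h8 : l = 2 := (Nat.prime_dvd_prime_iff_eq hl Nat.prime_two).1 h7
    rw [h8]
    exact_mod_cast h2n

end Pool.Agent.OBT.NT
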