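import Mathlib
import Pool.Agent.OBT.NT0
import Pool.Agent.OBT.NTU
import Pool.Agent.OBT.NTPhi

/-!
# Case A, `p` does not divide `N`
-/

namespace Pool.Agent.OBT.NT

variable {N p q : ℤ}

/-- the weights of the units `i` with `i p = d` -/
theorem NTA1_unit (T : Tri N p q) (S : Surv N p q) (hA : 2 * p ≤ N - 2 * p - 2 * q) {d i : ℤ}
    (hd0 : 0 < d) (hdp : d < p) (hi : IsCoprime i N) (hd : N ∣ i * p - d) :
    ¬ N ∣ 2 * i - 4 ∧ ∃ w2 w3 : ℤ, Wt N p q i d w2 w3 ∧ 2 * q ≤ w2 ∧ w2 ≤ 2 * q + 2 * p - d ∧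
      N - 2 * p - 2 * q ≤ w3 := by
  have hN := T.hN
  have hp := T.hp
  have hpq := T.hpq
  have h2 : ¬ N ∣ 2 * i - 2 := by
    intro h
    have h3 := dvd_sub (hd.mul_left 2) (h.mul_right p)
    have e : 2 * (i * p - d) - (2 * i - 2) * p = 2 * (p - d) := by ring
    rw [e] at h3
    exact not_dvd_of (by linarith) (by linarith) h3
  have h4 : ¬ N ∣ 2 * i - 4 := by
    intro h
    have h3 := dvd_sub (hd.mul_left 2) (h.mul_right p)
    have e : 2 * (i * p - d) - (2 * i - 4) * p = 4 * p - 2 * d := by ring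
    rw [e] at h3
    exact not_dvd_of (by linarith) (by linarith) h3
  refine ⟨h4, ?_⟩
  obtain ⟨w2, w3, hw, h5, h6⟩ := key1 T S hi hd hd0 (by linarith) (by linarith) (by linarith) h2
  have := hw.sum
  exact ⟨w2, w3, hw, h5, by linarith, h6⟩

theorem caseA1 (T : Tri N p q) (S : Surv N p q) (hA : 2 * p ≤ N - 2 * p - 2 * q) (hp : 2 ≤ p)
    (hpN : ¬ p ∣ N) : False := by
  have hN := T.hN
  have hpq := T.hpq
  have hN0 : 0 < N := by linarith
  obtain ⟨i0, hi0, hd⟩ := exists_unit_gcd p hN0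
  have hdp' : ((Int.gcd p N : ℕ) : ℤ) ∣ p := Int.gcd_dvd_left ..
  have hdN : ((Int.gcd p N : ℕ) : ℤ) ∣ N := Int.gcd_dvd_right ..
  have hd0 : (0 : ℤ) < (Int.gcd p N : ℕ) := by
    have : 0 < Int.gcd p N := Int.gcd_pos_of_ne_zero_left _ (by linarith)
    exact_mod_cast this
  set d : ℤ := ((Int.gcd p N : ℕ) : ℤ) with hdd
  have hdp : d < p := by
    have h1 : d ≤ p := Int.le_of_dvd (by linarith) hdp'
    refine lt_of_le_of_ne h1 ?_
    intro h2
    exact hpN (h2 ▸ hdN)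
  have hqd : IsCoprime q d := by
    rw [Int.isCoprime_iff_gcd_eq_one]
    by_contra hc
    obtain ⟨l, hl, hl'⟩ := Nat.exists_prime_and_dvd hc
    have hl2 : (l : ℤ) ∣ (Int.gcd q d : ℕ) := by exact_mod_cast hl'
    have hq1 : (l : ℤ) ∣ q := hl2.trans (Int.gcd_dvd_left ..)
    have hd1 : (l : ℤ) ∣ d := hl2.trans (Int.gcd_dvd_right ..)
    exact T.hg l hl (hd1.trans hdp') hq1 (hd1.trans hdN)
  obtain ⟨n, hn⟩ := hdN
  have hn' : N = n * d := by rw [hn, mul_comm]
  have hn0 : 0 < n := by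
    by_contra hc
    have : n * d ≤ 0 := mul_nonpos_of_nonpos_of_nonneg (not_lt.1 hc) hd0.le
    linarith
  have hnN : n ∣ N := ⟨d, hn'⟩
  by_cases hcase : 3 ≤ d ∨ (d = 2 ∧ 2 ∣ n)
  · obtain ⟨i, i', s, h1, h2, h3, h4, h5, h6, h7⟩ :=
      two_units hn' hn0 hcase (hi0.of_isCoprime_of_dvd_right hnN) hqd
    have key : ∀ j : ℤ, n ∣ j - i0 → N ∣ j * p - d := by
      intro j hj
      have e : j * p - d = (j - i0) * p + (i0 * p - d) := by ring
      rw [e]
      refine dvd_add ?_ hd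
      rw [hn']
      exact mul_dvd_mul hj hdp'
    obtain ⟨-, w2, w3, hw, a1, a2, -⟩ := NTA1_unit T S hA hd0 hdp h3 (key i h1)
    obtain ⟨-, v2, v3, hv, b1, b2, -⟩ := NTA1_unit T S hA hd0 hdp h4 (key i' h2)
    have h8 : N ∣ v2 - w2 - s * n := by
      have h9 := dvd_add (dvd_sub hw.d2 hv.d2) h5
      have e : i * q - w2 - (i' * q - v2) + ((i' - i) * q - s * n) = v2 - w2 - s * n := by ring
      rwa [e] at h9
    have h9 : N ≤ 3 * (s * n) := by
      have := mul_le_mul_of_nonneg_left h6 hn0.le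
      calc N = n * d := hn'
        _ ≤ n * (3 * s) := this
        _ = 3 * (s * n) := by ring
    have h10 : 3 * (s * n) ≤ 2 * N := by
      have := mul_le_mul_of_nonneg_left h7 hn0.le
      calc 3 * (s * n) = n * (3 * s) := by ring
        _ ≤ n * (2 * d) := this
        _ = 2 * N := by rw [hn']; ring
    have h11 := zero_of_dvd (by linarith) (by linarith) h8
    linarith
  · obtain ⟨h4, w2, w3, hw, a1, a2, a3⟩ := NTA1_unit T S hA hd0 hdp hi0 hd
    have hsum := hw.sum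
    have h5 := Phi1_test T S (Or.inl hi0) hw h4 (by linarith) a1 (by linarith) a3 (by linarith)
    have hw3 : w3 = N - d - w2 := by linarith
    rw [hw3] at h5
    have h6 : p ^ 2 * q - (p - d) * q ^ 2 - (w2 - 2 * q) * p * (p + 2 * q) = 0 := by
      linear_combination -h5
    have hd12 : d = 1 ∨ d = 2 := by
      have : ¬ 3 ≤ d := fun h => hcase (Or.inl h)
      omega
    have hd2 := hw.d2
    rcases hd12 with h | h
    · rw [h] at h6 hd
      obtain ⟨e1, e2, e3⟩ := Phi1_ne_one hp hpq (by linarith : 0 ≤ w2 - 2 * q) h6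
      have e4 : w2 = 8 := by linarith
      rw [e1] at hd
      rw [e2, e4] at hd2
      have h7 := dvd_sub (hd.mul_left 2) hd2
      have e : 2 * (i0 * 2 - 1) - (i0 * 4 - 8) = 6 := by ring
      rw [e] at h7
      have := Int.le_of_dvd (by norm_num) h7
      linarith
    · have hp2 : 2 ∣ p := h ▸ hdp'
      have hq2 : ¬ 2 ∣ q := by
        intro h7
        have h8 : (2 : ℤ) ∣ N := h ▸ (⟨n, hn⟩ : d ∣ N)
        exact T.hg 2 Nat.prime_two (by exact_mod_cast hp2) (by exact_mod_cast h7)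
          (by exact_mod_cast h8)
      rw [h] at h6 hd hdp
      obtain ⟨e1, e2, e3⟩ := Phi1_ne_two (by omega) hp2 hq2 hpq (by linarith : 0 ≤ w2 - 2 * q) h6
      have e4 : w2 = 18 := by linarith
      rw [e1] at hd
      rw [e2, e4] at hd2
      have h7 := dvd_sub (hd.mul_left 3) (hd2.mul_left 2)
      have e : 3 * (i0 * 6 - 2) - 2 * (i0 * 9 - 18) = 30 := by ring
      rw [e] at h7
      have := Int.le_of_dvd (by norm_num) h7
      linarith

end Pool.Agent.OBT.NT
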