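import Mathlib

/-!
# Existence of `t` with `1 + t n` and `1 - t n` both coprime to `m`
-/

namespace Pool.Agent.OBT.NT

/-- an integer has a prime factor `≥ 5`, or is divisible by `8` or by `9`, or divides `12` -/
theorem exists_prime_or {m : ℕ} (hm : 0 < m) :
    (∃ l : ℕ, l.Prime ∧ 5 ≤ l ∧ l ∣ m) ∨ 8 ∣ m ∨ 9 ∣ m ∨ m ∣ 12 := by
  by_cases h1 : ∃ l : ℕ, l.Prime ∧ 5 ≤ l ∧ l ∣ m
  · exact Or.inl h1
  by_cases h8 : 8 ∣ m
  · exact Or.inr (Or.inl h8)
  by_cases h9 : 9 ∣ m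
  · exact Or.inr (Or.inr (Or.inl h9))
  refine Or.inr (Or.inr (Or.inr ?_))
  have _ := hm
  rw [Nat.dvd_iff_prime_pow_dvd_dvd]
  intro p k hp hpk
  rcases Nat.eq_zero_or_pos k with hk | hk
  · subst hk
    simp
  have hpm : p ∣ m := (dvd_pow_self p hk.ne').trans hpk
  have hp5 : p < 5 := by
    by_contra h
    exact h1 ⟨p, hp, not_lt.mp h, hpm⟩
  have hp2 := hp.two_le
  interval_cases p
  · have hk3 : k < 3 := by
      by_contra h
      exact h8 (((pow_dvd_pow 2 (not_lt.mp h)) : (2 : ℕ) ^ 3 ∣ 2 ^ k).trans hpk)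
    interval_cases k <;> decide
  · have hk2 : k < 2 := by
      by_contra h
      exact h9 (((pow_dvd_pow 3 (not_lt.mp h)) : (3 : ℕ) ^ 2 ∣ 3 ^ k).trans hpk)
    interval_cases k
    decide
  · exact absurd hp (by decide)

theorem NTt_cop_mul_add (q s n : ℤ) : IsCoprime (1 + q * s * n) q :=
  ⟨1, -(s * n), by ring⟩

theorem NTt_cop_mul_sub (q s n : ℤ) : IsCoprime (1 - q * s * n) q :=
  ⟨1, s * n, by ring⟩

theorem NTt_cop_prime {l : ℕ} (hl : l.Prime) {x : ℤ} (h : ¬ (l : ℤ) ∣ x) :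
    IsCoprime x (l : ℤ) :=
  ((Nat.prime_iff_prime_int.mp hl).coprime_iff_not_dvd.mpr h).symm

/-- a small positive integer is not divisible by a large prime -/
theorem NTt_small {l : ℕ} (hl5 : 5 ≤ l) {x : ℤ} (h0 : 0 < x) (h1 : x < 5) : ¬ (l : ℤ) ∣ x := by
  intro h
  have := Int.le_of_dvd h0 h
  have h5 : (5 : ℤ) ≤ l := by exact_mod_cast hl5
  omega

/-- the case of a prime `l ≥ 5` dividing `m` -/
theorem NTt_case_prime {l : ℕ} (hl : l.Prime) (hl5 : 5 ≤ l) (q n : ℤ) (hq : 0 < q) :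
    ∃ t : ℤ, ¬ ((l : ℤ) * q) ∣ 2 * t ∧ IsCoprime (1 + t * n) (l * q) ∧
      IsCoprime (1 - t * n) (l * q) := by
  have main : ∀ s : ℤ, 0 < 2 * s → 2 * s < 5 → ¬ (l : ℤ) ∣ 1 + q * s * n →
      ¬ (l : ℤ) ∣ 1 - q * s * n →
      ∃ t : ℤ, ¬ ((l : ℤ) * q) ∣ 2 * t ∧ IsCoprime (1 + t * n) (l * q) ∧
      IsCoprime (1 - t * n) (l * q) := by
    intro s hs0 hs1 h1 h2
    refine ⟨q * s, ?_, ?_, ?_⟩
    · intro h
      have h' : q * (l : ℤ) ∣ q * (2 * s) := by
        have e1 : q * (l : ℤ) = l * q := by ring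
        have e2 : q * (2 * s) = 2 * (q * s) := by ring
        rw [e1, e2]
        exact h
      exact NTt_small hl5 hs0 hs1 ((mul_dvd_mul_iff_left hq.ne').mp h')
    · exact IsCoprime.mul_right (NTt_cop_prime hl h1) (NTt_cop_mul_add q s n)
    · exact IsCoprime.mul_right (NTt_cop_prime hl h2) (NTt_cop_mul_sub q s n)
  by_cases ha : (l : ℤ) ∣ 1 + q * 1 * n
  · refine main 2 (by norm_num) (by norm_num) ?_ ?_
    · intro h
      have h3 : (l : ℤ) ∣ 2 * (1 + q * 1 * n) - (1 + q * 2 * n) :=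
        dvd_sub (ha.mul_left 2) h
      have e : 2 * (1 + q * 1 * n) - (1 + q * 2 * n) = 1 := by ring
      rw [e] at h3
      exact NTt_small hl5 (by norm_num) (by norm_num) h3
    · intro h
      have h3 : (l : ℤ) ∣ 2 * (1 + q * 1 * n) + (1 - q * 2 * n) :=
        dvd_add (ha.mul_left 2) h
      have e : 2 * (1 + q * 1 * n) + (1 - q * 2 * n) = 3 := by ring
      rw [e] at h3
      exact NTt_small hl5 (by norm_num) (by norm_num) h3
  by_cases hb : (l : ℤ) ∣ 1 - q * 1 * n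
  · refine main 2 (by norm_num) (by norm_num) ?_ ?_
    · intro h
      have h3 : (l : ℤ) ∣ 2 * (1 - q * 1 * n) + (1 + q * 2 * n) :=
        dvd_add (hb.mul_left 2) h
      have e : 2 * (1 - q * 1 * n) + (1 + q * 2 * n) = 3 := by ring
      rw [e] at h3
      exact NTt_small hl5 (by norm_num) (by norm_num) h3
    · intro h
      have h3 : (l : ℤ) ∣ 2 * (1 - q * 1 * n) - (1 - q * 2 * n) :=
        dvd_sub (hb.mul_left 2) h
      have e : 2 * (1 - q * 1 * n) - (1 - q * 2 * n) = 1 := by ring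
      rw [e] at h3
      exact NTt_small hl5 (by norm_num) (by norm_num) h3
  exact main 1 (by norm_num) (by norm_num) ha hb

theorem exists_t {m : ℤ} (n : ℤ) (hm : 0 < m) (h12 : ¬ m ∣ 12) :
    ∃ t : ℤ, ¬ m ∣ 2 * t ∧ IsCoprime (1 + t * n) m ∧ IsCoprime (1 - t * n) m := by
  lift m to ℕ using hm.le
  have hm' : 0 < m := by exact_mod_cast hm
  rcases exists_prime_or hm' with ⟨l, hl, hl5, q, rfl⟩ | ⟨q, rfl⟩ | ⟨q, rfl⟩ | h
  · have hq : (0 : ℤ) < q := by
      have : 0 < q := Nat.pos_of_mul_pos_left hm'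
      exact_mod_cast this
    have := NTt_case_prime hl hl5 (q : ℤ) n hq
    push_cast
    exact this
  · have hq : (0 : ℤ) < q := by exact_mod_cast (by omega : 0 < q)
    push_cast
    refine ⟨2 * q, ?_, ?_, ?_⟩
    · intro h
      have := Int.le_of_dvd (by linarith) h
      linarith
    · refine ⟨(1 - 2 * (q : ℤ) * n) * (1 + 4 * q ^ 2 * n ^ 2), 2 * q ^ 3 * n ^ 4, by ring⟩
    · refine ⟨(1 + 2 * (q : ℤ) * n) * (1 + 4 * q ^ 2 * n ^ 2), 2 * q ^ 3 * n ^ 4, by ring⟩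
  · have hq : (0 : ℤ) < q := by exact_mod_cast (by omega : 0 < q)
    push_cast
    refine ⟨3 * q, ?_, ?_, ?_⟩
    · intro h
      have := Int.le_of_dvd (by linarith) h
      linarith
    · refine ⟨1 - 3 * (q : ℤ) * n, q * n ^ 2, by ring⟩
    · refine ⟨1 + 3 * (q : ℤ) * n, q * n ^ 2, by ring⟩
  · exact absurd (by exact_mod_cast h) h12

end Pool.Agent.OBT.NT
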