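import Mathlib
import Pool.Agent.OBT.NT0
import Pool.Agent.OBT.NTt

/-!
# Case A, `p` divides `N`
-/

namespace Pool.Agent.OBT.NT

variable {N p q : ℤ}

theorem NTA2_cop2 {x : ℤ} (h : ¬ (2 : ℤ) ∣ x) : IsCoprime x 2 := by
  have h1 : x % 2 = 1 := by omega
  refine ⟨1, -(x / 2), ?_⟩
  have := Int.emod_add_mul_ediv x 2
  linarith

theorem NTA2_cop3 {x : ℤ} (h : ¬ (3 : ℤ) ∣ x) : IsCoprime x 3 := by
  have h1 : x % 3 = 1 ∨ x % 3 = 2 := by omega
  have h2 := Int.emod_add_mul_ediv x 3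
  rcases h1 with h1 | h1
  · refine ⟨1, -(x / 3), ?_⟩
    linarith
  · refine ⟨-1, x / 3 + 1, ?_⟩
    linarith

theorem NTA2_cop4 {x : ℤ} (h : ¬ (2 : ℤ) ∣ x) : IsCoprime x 4 := by
  have h1 := (NTA2_cop2 h).mul_right (NTA2_cop2 h)
  norm_num at h1
  exact h1

theorem NTA2_cop6 {x : ℤ} (h : ¬ (2 : ℤ) ∣ x) (h' : ¬ (3 : ℤ) ∣ x) : IsCoprime x 6 := by
  have h1 := (NTA2_cop2 h).mul_right (NTA2_cop3 h')
  norm_num at h1
  exact h1

theorem NTA2_cop12 {x : ℤ} (h : ¬ (2 : ℤ) ∣ x) (h' : ¬ (3 : ℤ) ∣ x) : IsCoprime x 12 := by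
  have h1 := (NTA2_cop4 h).mul_right (NTA2_cop3 h')
  norm_num at h1
  exact h1

theorem NTA2_cop (x n : ℤ) {y p : ℤ} (h : IsCoprime (1 + x * n) p) (hN : y = p * n) :
    IsCoprime (1 + x * n) y := by
  rw [hN]
  refine h.mul_right ?_
  exact ⟨1, -x, by ring⟩

theorem NTA2_unit (T : Tri N p q) (S : Surv N p q) (hA : 2 * p ≤ N - 2 * p - 2 * q)
    {n : ℤ} (hn : N = p * n) {t : ℤ} (ht : ¬ p ∣ 2 * t) (hc : IsCoprime (1 + t * n) p) :
    ∃ r : ℤ, 0 ≤ r ∧ r ≤ p ∧ Wt N p q (1 + t * n) p (2 * q + r) (N - p - 2 * q - r) := by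
  have hN := T.hN
  have hp := T.hp
  have hpq := T.hpq
  have hn0 : 0 < n := by
    by_contra h0
    nlinarith
  obtain ⟨w2, w3, hw, h2, h3⟩ := key1 T S (NTA2_cop t n hc hn) (d := p)
    ⟨t, by rw [hn]; ring⟩ hp (by linarith) (by linarith) (by linarith) (by
      rintro ⟨k, hk⟩
      apply ht
      refine ⟨k, ?_⟩
      have : n * (2 * t) = n * (p * k) := by
        rw [hn] at hk
        linear_combination hk
      exact mul_left_cancel₀ hn0.ne' this)
  refine ⟨w2 - 2 * q, by linarith, ?_, ?_⟩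
  · have := hw.sum
    linarith
  · have h4 : N - p - 2 * q - (w2 - 2 * q) = w3 := by
      have := hw.sum
      linarith
    rw [h4, add_sub_cancel]
    exact hw

theorem NTA2_two (T : Tri N p q) (S : Surv N p q) (hA : 2 * p ≤ N - 2 * p - 2 * q)
    {n : ℤ} (hn : N = p * n) {t : ℤ} (ht : ¬ p ∣ 2 * t) (hc : IsCoprime (1 + t * n) p)
    (hc' : IsCoprime (1 - t * n) p) : False := by
  have hN := T.hN
  have hp := T.hp
  have hpq := T.hpq
  have hn0 : 0 < n := by
    by_contra h0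
    nlinarith
  obtain ⟨r, -, -, hw⟩ := NTA2_unit T S hA hn ht hc
  obtain ⟨r', -, -, hw'⟩ := NTA2_unit T S hA hn (t := -t)
    (by rw [mul_neg, dvd_neg]; exact ht) (by rw [neg_mul, ← sub_eq_add_neg]; exact hc')
  have h1 := S.k1 _ _ _ _ _ _ _ _ (NTA2_cop t n hc hn) hw hw' ⟨0, by ring⟩
  obtain ⟨k, hk⟩ := h1
  apply ht
  refine ⟨k, ?_⟩
  have : n * (2 * t) = n * (p * k) := by
    rw [hn] at hk
    linear_combination hk
  exact mul_left_cancel₀ hn0.ne' this

/-- two units whose difference is `N/2` -/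
theorem NTA2_half (T : Tri N p q) (S : Surv N p q) (hA : 2 * p ≤ N - 2 * p - 2 * q)
    {n : ℤ} (hn : N = p * n) {h t : ℤ} (hh : p = 2 * h) (hq : ¬ (2 : ℤ) ∣ q)
    (ht : ¬ p ∣ 2 * t) (ht' : ¬ p ∣ 2 * (t + h)) (hc : IsCoprime (1 + t * n) p)
    (hc' : IsCoprime (1 + (t + h) * n) p) : False := by
  have hN := T.hN
  have hp := T.hp
  have hpq := T.hpq
  obtain ⟨r, hr0, hr1, hw⟩ := NTA2_unit T S hA hn ht hc
  obtain ⟨r', hr0', hr1', hw'⟩ := NTA2_unit T S hA hn ht' hc'
  obtain ⟨k, hk⟩ : ∃ k, q = 2 * k + 1 := ⟨q / 2, by omega⟩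
  have h1 := dvd_sub hw'.d2 hw.d2
  have e : (1 + (t + h) * n) * q - (2 * q + r') - ((1 + t * n) * q - (2 * q + r)) =
      h * n - (r' - r) + N * k := by
    rw [hn, hh]
    linear_combination (h * n) * hk
  rw [e] at h1
  have h2 : N ∣ h * n - (r' - r) := by
    have := dvd_sub h1 (Dvd.intro k rfl : N ∣ N * k)
    rwa [add_sub_cancel_right] at this
  have h3 : 2 * (h * n) = N := by rw [hn, hh]; ring
  exact not_dvd_of (by linarith) (by linarith) h2

/-- one unit -/
theorem NTA2_one (T : Tri N p q) (S : Surv N p q) (hA : 2 * p ≤ N - 2 * p - 2 * q)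
    {n : ℤ} (hn : N = p * n) {t : ℤ} (ht : ¬ p ∣ 2 * t) (hc : IsCoprime (1 + t * n) p) :
    ∃ r : ℤ, 0 ≤ r ∧ r ≤ p ∧ p * q = r * (p + 2 * q) := by
  have hN := T.hN
  have hp := T.hp
  have hpq := T.hpq
  have hn4 : 4 < n := by
    by_contra h0
    nlinarith
  obtain ⟨r, hr0, hr1, hw⟩ := NTA2_unit T S hA hn ht hc
  refine ⟨r, hr0, hr1, ?_⟩
  have h1 := Phi1_test T S (Or.inl (NTA2_cop t n hc hn)) hw (by
    intro hd
    have h2 : n ∣ 2 := by
      have h3 : n ∣ 2 * (1 + t * n) - 4 := dvd_trans ⟨p, by rw [hn]; ring⟩ hd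
      have e : (2 : ℤ) = n * (2 * t) - (2 * (1 + t * n) - 4) := by ring
      rw [e]
      exact dvd_sub (Dvd.intro _ rfl) h3
    have := Int.le_of_dvd (by norm_num) h2
    linarith) (by linarith) (by linarith) (by linarith) (by linarith) (by linarith)
  have h2 : p * (p * q - r * (p + 2 * q)) = 0 := by linear_combination -h1
  rcases mul_eq_zero.1 h2 with h3 | h3
  · linarith
  · linarith

theorem caseA2 (T : Tri N p q) (S : Surv N p q) (hA : 2 * p ≤ N - 2 * p - 2 * q) (hp : 3 ≤ p)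
    (hpN : p ∣ N) (h4 : p = 4 → 8 ∣ N) : False := by
  have hN := T.hN
  have hpq := T.hpq
  obtain ⟨n, hn⟩ := hpN
  have q2 : (2 : ℤ) ∣ p → ¬ (2 : ℤ) ∣ q := fun h h' => T.hg 2 Nat.prime_two (by exact_mod_cast h)
    (by exact_mod_cast h') (by rw [hn]; exact Dvd.dvd.mul_right (by exact_mod_cast h) n)
  have q3 : (3 : ℤ) ∣ p → ¬ (3 : ℤ) ∣ q := fun h h' => T.hg 3 Nat.prime_three (by exact_mod_cast h)
    (by exact_mod_cast h') (by rw [hn]; exact Dvd.dvd.mul_right (by exact_mod_cast h) n)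
  by_cases h12 : p ∣ 12
  · have hle : p ≤ 12 := Int.le_of_dvd (by norm_num) h12
    have hcase : p = 3 ∨ p = 4 ∨ p = 6 ∨ p = 12 := by
      interval_cases p <;> revert h12 <;> norm_num
    rcases hcase with h | h | h | h
    · subst h
      by_cases h3 : (3 : ℤ) ∣ n
      · exact NTA2_two T S hA hn (t := 1) (by norm_num) (NTA2_cop3 (by omega))
          (NTA2_cop3 (by omega))
      · have h5 : n % 3 = 1 ∨ n % 3 = 2 := by omega
        have h6 : ∃ r : ℤ, 0 ≤ r ∧ r ≤ 3 ∧ 3 * q = r * (3 + 2 * q) := by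
          rcases h5 with h5 | h5
          · exact NTA2_one T S hA hn (t := 1) (by norm_num) (NTA2_cop3 (by omega))
          · exact NTA2_one T S hA hn (t := 2) (by norm_num) (NTA2_cop3 (by omega))
        obtain ⟨r, hr0, hr1, hr⟩ := h6
        have q3' := q3 (dvd_refl 3)
        interval_cases r <;> omega
    · subst h
      have h8 := h4 rfl
      exact NTA2_two T S hA hn (t := 1) (by norm_num) (NTA2_cop4 (by omega))
        (NTA2_cop4 (by omega))
    · subst h
      have q2' := q2 (by norm_num)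
      have q3' := q3 (by norm_num)
      by_cases h2 : (2 : ℤ) ∣ n
      · by_cases h3 : (3 : ℤ) ∣ n
        · exact NTA2_two T S hA hn (t := 1) (by norm_num) (NTA2_cop6 (by omega) (by omega))
            (NTA2_cop6 (by omega) (by omega))
        · have h5 : n % 3 = 1 ∨ n % 3 = 2 := by omega
          rcases h5 with h5 | h5
          · exact NTA2_half T S hA hn (h := 3) (t := 1) (by norm_num) q2' (by norm_num)
              (by norm_num) (NTA2_cop6 (by omega) (by omega)) (NTA2_cop6 (by omega) (by omega))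
          · exact NTA2_half T S hA hn (h := 3) (t := 2) (by norm_num) q2' (by norm_num)
              (by norm_num) (NTA2_cop6 (by omega) (by omega)) (NTA2_cop6 (by omega) (by omega))
      · by_cases h3 : (3 : ℤ) ∣ n
        · exact NTA2_two T S hA hn (t := 2) (by norm_num) (NTA2_cop6 (by omega) (by omega))
            (NTA2_cop6 (by omega) (by omega))
        · have h5 : n % 3 = 1 ∨ n % 3 = 2 := by omega
          have h6 : ∃ r : ℤ, 0 ≤ r ∧ r ≤ 6 ∧ 6 * q = r * (6 + 2 * q) := by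
            rcases h5 with h5 | h5
            · exact NTA2_one T S hA hn (t := 4) (by norm_num)
                (NTA2_cop6 (by omega) (by omega))
            · exact NTA2_one T S hA hn (t := 2) (by norm_num)
                (NTA2_cop6 (by omega) (by omega))
          obtain ⟨r, hr0, hr1, hr⟩ := h6
          interval_cases r <;> omega
    · subst h
      have q2' := q2 (by norm_num)
      by_cases h2 : (2 : ℤ) ∣ n
      · by_cases h3 : (3 : ℤ) ∣ n
        · exact NTA2_two T S hA hn (t := 1) (by norm_num) (NTA2_cop12 (by omega) (by omega))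
            (NTA2_cop12 (by omega) (by omega))
        · exact NTA2_two T S hA hn (t := 3) (by norm_num) (NTA2_cop12 (by omega) (by omega))
            (NTA2_cop12 (by omega) (by omega))
      · by_cases h3 : (3 : ℤ) ∣ n
        · exact NTA2_two T S hA hn (t := 2) (by norm_num) (NTA2_cop12 (by omega) (by omega))
            (NTA2_cop12 (by omega) (by omega))
        · have h5 : n % 3 = 1 ∨ n % 3 = 2 := by omega
          rcases h5 with h5 | h5
          · exact NTA2_half T S hA hn (h := 6) (t := 4) (by norm_num) q2' (by norm_num)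
              (by norm_num) (NTA2_cop12 (by omega) (by omega)) (NTA2_cop12 (by omega) (by omega))
          · exact NTA2_half T S hA hn (h := 6) (t := 2) (by norm_num) q2' (by norm_num)
              (by norm_num) (NTA2_cop12 (by omega) (by omega)) (NTA2_cop12 (by omega) (by omega))
  · obtain ⟨t, h1, h2, h3⟩ := exists_t n (by linarith) h12
    exact NTA2_two T S hA hn h1 h2 h3

end Pool.Agent.OBT.NT
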