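import Mathlib
import Pool.Agent.OBT.NT0
import Pool.Agent.OBT.NTU
import Pool.Agent.OBT.NTt
import Pool.Agent.OBT.NTPhi

/-!
# Case B: `A3 < A1`
-/

namespace Pool.Agent.OBT.NT

variable {N p q : ℤ}

theorem NTB_dvd {d : ℤ} (hd : d = (Int.gcd (N - p - q) N : ℤ)) : d ∣ N - p - q ∧ d ∣ N := by
  rw [hd]
  exact ⟨Int.gcd_dvd_left _ _, Int.gcd_dvd_right _ _⟩

theorem NTB_coprime (T : Tri N p q) {d : ℤ} (hd : d = (Int.gcd (N - p - q) N : ℤ)) :
    IsCoprime p d := by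
  obtain ⟨h1, h2⟩ := NTB_dvd hd
  rw [Int.isCoprime_iff_gcd_eq_one]
  by_contra hne
  obtain ⟨l, hl, hld⟩ := Nat.exists_prime_and_dvd hne
  have hlp : (l : ℤ) ∣ p := dvd_trans (Int.natCast_dvd_natCast.2 hld) (Int.gcd_dvd_left _ _)
  have hl' : (l : ℤ) ∣ d := dvd_trans (Int.natCast_dvd_natCast.2 hld) (Int.gcd_dvd_right _ _)
  have hlN : (l : ℤ) ∣ N := dvd_trans hl' h2
  have hl3 : (l : ℤ) ∣ N - p - q := dvd_trans hl' h1
  refine T.hg l hl hlp ?_ hlN
  have := dvd_sub (dvd_sub hlN hlp) hl3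
  have e : N - p - (N - p - q) = q := by ring
  rwa [e] at this

/-- units with `W_3 = d` which are special for test (C) -/
theorem NTB_special (T : Tri N p q) (hA : N - 2 * p - 2 * q < 2 * p) {i d : ℤ}
    (hi : IsCoprime i N) (hid : N ∣ i * (N - p - q) - d) (hd0 : 0 < d)
    (hdA : d < N - 2 * p - 2 * q) (h : N ∣ 2 * i - 2) :
    4 ∣ N ∧ N - 2 * p - 2 * q = 2 * d ∧ ¬ 2 ∣ d := by
  have hp := T.hp
  have hpq := T.hpq
  have h1 : N ∣ (N - 2 * p - 2 * q) - 2 * d := by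
    have h2 := dvd_sub (Dvd.dvd.mul_left hid 2) (Dvd.dvd.mul_left h (N - p - q))
    have e : 2 * (i * (N - p - q) - d) - (N - p - q) * (2 * i - 2) =
      ((N - 2 * p - 2 * q) - 2 * d) + N := by ring
    rw [e] at h2
    have h3 := dvd_sub h2 (dvd_refl N)
    rwa [add_sub_cancel_right] at h3
  have h2 : (N - 2 * p - 2 * q) - 2 * d = 0 := zero_of_dvd (by linarith) (by linarith) h1
  obtain ⟨c, hc⟩ := h
  -- `N = 2 M`
  have hM : N = 2 * (p + q + d) := by linarith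
  have hic : i = 1 + (p + q + d) * c := by
    rw [hM] at hc
    linarith
  have h4 : 2 ∣ 1 + c * (N - p - q) := by
    obtain ⟨k, hk⟩ := hid
    have hM0 : (p + q + d) ≠ 0 := by
      intro h0
      linarith
    refine ⟨k, ?_⟩
    have e : (p + q + d) * (1 + c * (N - p - q)) = (p + q + d) * (2 * k) := by
      have e1 : (p + q + d) * (2 * k) = N * k := by rw [hM]; ring
      rw [e1, ← hk, hic]
      have e2 : N - p - q = (p + q + d) + d := by linarith
      rw [e2]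
      ring
    exact mul_left_cancel₀ hM0 e
  have h2N : (2 : ℤ) ∣ N := ⟨_, hM⟩
  have hio : ¬ (2 : ℤ) ∣ i := by
    intro h0
    have h5 : IsUnit (2 : ℤ) := hi.isUnit_of_dvd' h0 h2N
    have h6 := Int.isUnit_iff.1 h5
    omega
  have hc2 : ¬ (2 : ℤ) ∣ c := by
    intro h0
    have h5 : (2 : ℤ) ∣ c * (N - p - q) := Dvd.dvd.mul_right h0 _
    omega
  have hM2 : (2 : ℤ) ∣ p + q + d := by
    by_contra h0
    have h5 : ¬ (2 : ℤ) ∣ (p + q + d) * c := by
      intro h6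
      rcases Int.prime_two.dvd_or_dvd h6 with h7 | h7
      · exact h0 h7
      · exact hc2 h7
    apply hio
    rw [hic]
    omega
  have hP : ¬ (2 : ℤ) ∣ N - p - q := by
    intro h0
    have h5 : (2 : ℤ) ∣ c * (N - p - q) := Dvd.dvd.mul_left h0 _
    omega
  refine ⟨?_, by linarith, ?_⟩
  · omega
  · omega

/-- `2 i = 4` is impossible -/
theorem NTB_four (T : Tri N p q) (hA : N - 2 * p - 2 * q < 2 * p) {i d : ℤ}
    (hid : N ∣ i * (N - p - q) - d) (hd0 : 0 < d)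
    (hdA : d < N - 2 * p - 2 * q) : ¬ N ∣ 2 * i - 4 := by
  intro h
  have hp := T.hp
  have hpq := T.hpq
  have h2 := dvd_sub (Dvd.dvd.mul_left h (N - p - q)) (Dvd.dvd.mul_left hid 2)
  have e : (N - p - q) * (2 * i - 4) - 2 * (i * (N - p - q) - d) =
    -(2 * ((N - 2 * p - 2 * q) - d)) - N * 2 := by ring
  rw [e] at h2
  have h3 := dvd_add h2 (Dvd.intro 2 rfl : N ∣ N * 2)
  rw [sub_add_cancel] at h3
  exact not_dvd_of (by linarith) (by linarith) ((dvd_neg).1 h3)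

/-- Case B1: `d = gcd(p3, N) ≥ 3`, or `d = 2` and `4 ∣ N`; not (`4 ∣ N`, `A3 = 2d`, `d` odd). -/
theorem caseB1 (T : Tri N p q) (S : Surv N p q) (hA : N - 2 * p - 2 * q < 2 * p) {d : ℤ}
    (hd : d = (Int.gcd (N - p - q) N : ℤ)) (hdA : d < N - 2 * p - 2 * q)
    (hd3 : 3 ≤ d ∨ (d = 2 ∧ 4 ∣ N))
    (hex : ¬ (4 ∣ N ∧ N - 2 * p - 2 * q = 2 * d ∧ ¬ 2 ∣ d)) : False := by
  have hp := T.hp
  have hpq := T.hpq
  have hN := T.hN
  have hN0 : 0 < N := by linarith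
  have hd0 : 0 < d := by omega
  obtain ⟨hdp, n, hn⟩ := NTB_dvd hd
  have hNn : N = n * d := by rw [hn, mul_comm]
  have hn0 : 0 < n := by
    rw [hNn] at hN0
    exact pos_of_mul_pos_left hN0 hd0.le
  obtain ⟨i0, hi0, hid0⟩ := exists_unit_gcd (N - p - q) hN0
  rw [← hd] at hid0
  have hd3' : 3 ≤ d ∨ (d = 2 ∧ 2 ∣ n) := by
    rcases hd3 with h | ⟨h, h'⟩
    · exact Or.inl h
    · refine Or.inr ⟨h, ?_⟩
      rw [hNn, h] at h'
      omega
  have hi0n : IsCoprime i0 n := hi0.of_isCoprime_of_dvd_right ⟨d, hNn⟩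
  obtain ⟨i, i', s, h1, h2, h3, h4, h5, h6, h7⟩ :=
    two_units hNn hn0 hd3' hi0n (NTB_coprime T hd)
  have lift : ∀ j : ℤ, n ∣ j - i0 → N ∣ j * (N - p - q) - d := by
    rintro j ⟨k, hk⟩
    have e : j * (N - p - q) - d = (j - i0) * (N - p - q) + (i0 * (N - p - q) - d) := by ring
    rw [e]
    refine dvd_add ?_ hid0
    obtain ⟨c, hc⟩ := hdp
    refine ⟨k * c, ?_⟩
    rw [hk]
    nth_rewrite 2 [hNn]
    rw [hc]
    ring
  have key : ∀ j : ℤ, n ∣ j - i0 → IsCoprime j N → ∃ w1 w2 : ℤ, Wt N p q j w1 w2 d ∧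
      2 * p ≤ w1 ∧ 2 * q ≤ w2 := fun j hj hj' =>
    key3 T S hj' (lift j hj) hd0 (by linarith) hdA
      (fun h0 => hex (NTB_special T hA hj' (lift j hj) hd0 hdA h0))
  obtain ⟨w1, w2, W, a1, a2⟩ := key i h1 h3
  obtain ⟨v1, v2, V, b1, b2⟩ := key i' h2 h4
  have sW := W.sum
  have sV := V.sum
  have hdv : N ∣ v1 - w1 - s * n := by
    have e : v1 - w1 - s * n = ((i' - i) * p - s * n) - (i' * p - v1) + (i * p - w1) := by ring
    rw [e]
    exact dvd_add (dvd_sub h5 V.d1) W.d1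
  have hs1 : N ≤ 3 * (s * n) := by nlinarith
  have hs2 : 3 * (s * n) ≤ 2 * N := by nlinarith
  have := zero_of_dvd (by linarith) (by linarith) hdv
  linarith

/-- the units `1 + M + t n` -/
theorem NTB_unit (T : Tri N p q) (hA : N - 2 * p - 2 * q < 2 * p) {d : ℤ}
    (hd : d = (Int.gcd (N - p - q) N : ℤ)) (hd0 : 0 < d) (h4 : 4 ∣ N)
    (hdA : N - 2 * p - 2 * q = 2 * d) (hd2 : ¬ 2 ∣ d) {n : ℤ} (hn : N = n * d) {t : ℤ}
    (ht : IsCoprime (1 + t * n) d) (ht2 : ¬ d ∣ 2 * t) :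
    IsCoprime (1 + (p + q + d) + t * n) N ∧
      N ∣ (1 + (p + q + d) + t * n) * (N - p - q) - d ∧
      ¬ N ∣ 2 * (1 + (p + q + d) + t * n) - 2 := by
  have hp := T.hp
  have hpq := T.hpq
  have hN := T.hN
  have hN0 : 0 < N := by linarith
  obtain ⟨hdp, -⟩ := NTB_dvd hd
  have hM : N = 2 * (p + q + d) := by linarith
  obtain ⟨K, hK⟩ := h4
  have hMK : p + q + d = 2 * K := by omega
  have hn0 : n ≠ 0 := by
    intro h0
    rw [h0, zero_mul] at hn
    linarith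
  have hdM : d ∣ p + q + d := by
    have h1 : d ∣ 2 * (p + q + d) := hM ▸ ⟨n, by rw [hn, mul_comm]⟩
    have h2 : IsCoprime d 2 := by
      rw [isCoprime_comm]
      exact (Int.prime_two.coprime_iff_not_dvd).2 hd2
    exact h2.dvd_of_dvd_mul_left h1
  refine ⟨?_, ?_, ?_⟩
  · have c1 : IsCoprime (1 + (p + q + d)) N := by
      refine ⟨1 - (p + q + d), K, ?_⟩
      rw [hMK, hK]
      ring
    have c2 : IsCoprime (1 + (p + q + d) + t * n) n := by
      have h1 : IsCoprime (1 + (p + q + d)) n := c1.of_isCoprime_of_dvd_right ⟨d, hn⟩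
      exact (IsCoprime.add_mul_right_left_iff).2 h1
    have c3 : IsCoprime (1 + (p + q + d) + t * n) d := by
      obtain ⟨c, hc⟩ := hdM
      have e : 1 + (p + q + d) + t * n = (1 + t * n) + d * c := by rw [hc]; ring
      rw [e]
      exact (IsCoprime.add_mul_left_left_iff).2 ht
    rw [hn]
    exact c2.mul_right c3
  · have e : (1 + (p + q + d) + t * n) * (N - p - q) - d =
        (p + q + d) * (1 + (N - p - q)) + t * (n * (N - p - q)) := by
      linear_combination hM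
    rw [e]
    refine dvd_add ?_ (Dvd.dvd.mul_left ?_ t)
    · have h1 : (2 : ℤ) ∣ 1 + (N - p - q) := by omega
      obtain ⟨c, hc⟩ := h1
      refine ⟨c, ?_⟩
      rw [hc]
      linear_combination (-c) * hM
    · obtain ⟨c, hc⟩ := hdp
      refine ⟨c, ?_⟩
      rw [hc]
      nth_rewrite 1 [hn]
      ring
  · intro h
    have e : 2 * (1 + (p + q + d) + t * n) - 2 = n * (2 * t) + N := by
      linear_combination -hM
    rw [e] at h
    have h1 := dvd_sub h (dvd_refl N)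
    rw [add_sub_cancel_right, hn] at h1
    exact ht2 (Int.dvd_of_mul_dvd_mul_left hn0 h1)

/-- Case B2. -/
theorem caseB2 (T : Tri N p q) (S : Surv N p q) (hA : N - 2 * p - 2 * q < 2 * p) {d : ℤ}
    (hd : d = (Int.gcd (N - p - q) N : ℤ)) (hd3 : 3 ≤ d) (h4 : 4 ∣ N)
    (hdA : N - 2 * p - 2 * q = 2 * d) (hd2 : ¬ 2 ∣ d) (hex : ¬ (d = 3 ∧ ¬ 9 ∣ N)) : False := by
  have hp := T.hp
  have hpq := T.hpq
  have hN := T.hN
  obtain ⟨-, n, hn⟩ := NTB_dvd hd
  have hNn : N = n * d := by rw [hn, mul_comm]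
  have hd0 : 0 < d := by linarith
  obtain ⟨t, ht, ht1, ht2⟩ : ∃ t : ℤ, ¬ d ∣ 2 * t ∧ IsCoprime (1 + t * n) d ∧
      IsCoprime (1 - t * n) d := by
    by_cases h12 : d ∣ 12
    · have hd3' : d = 3 := by
        have h1 : d ≤ 12 := Int.le_of_dvd (by norm_num) h12
        interval_cases d <;> omega
      have h9 : 9 ∣ N := by
        by_contra h0
        exact hex ⟨hd3', h0⟩
      have h3n : (3 : ℤ) ∣ n := by
        rw [hNn, hd3'] at h9
        omega
      obtain ⟨c, hc⟩ := h3n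
      refine ⟨1, ?_, ?_, ?_⟩
      · rw [hd3']
        norm_num
      · rw [hd3', hc]
        exact ⟨1, -c, by ring⟩
      · rw [hd3', hc]
        exact ⟨1, c, by ring⟩
    · exact exists_t n hd0 h12
  obtain ⟨a1, a2, a3⟩ := NTB_unit T hA hd hd0 h4 hdA hd2 hNn ht1 ht
  have ht2' : IsCoprime (1 + (-t) * n) d := by
    have e : 1 + (-t) * n = 1 - t * n := by ring
    rwa [e]
  have ht' : ¬ d ∣ 2 * (-t) := by
    intro h0
    apply ht
    have e : 2 * (-t) = -(2 * t) := by ring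
    rw [e] at h0
    exact (dvd_neg).1 h0
  obtain ⟨b1, b2, b3⟩ := NTB_unit T hA hd hd0 h4 hdA hd2 hNn ht2' ht'
  obtain ⟨w1, w2, W, c1, c2⟩ := key3 T S a1 a2 hd0 (by linarith) (by linarith) a3
  obtain ⟨v1, v2, V, e1, e2⟩ := key3 T S b1 b2 hd0 (by linarith) (by linarith) b3
  have hM : N = 2 * (p + q + d) := by linarith
  have h := S.k1 _ _ _ _ _ _ _ _ a1 W V ⟨1, by rw [hM]; ring⟩
  apply ht
  have e : 1 + (p + q + d) + t * n - (1 + (p + q + d) + -t * n) = n * (2 * t) := by ring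
  rw [e, hNn] at h
  have hn0 : n ≠ 0 := by
    intro h0
    rw [h0, zero_mul] at hNn
    linarith
  exact Int.dvd_of_mul_dvd_mul_left hn0 h

/-- Case B3. -/
theorem caseB3 (T : Tri N p q) (S : Surv N p q) (hA : N - 2 * p - 2 * q < 2 * p) {d : ℤ}
    (hd : d = (Int.gcd (N - p - q) N : ℤ)) (hdA : d < N - 2 * p - 2 * q)
    (h : (d = 1 ∧ ¬ (N - 2 * p - 2 * q = 2 ∧ 4 ∣ N)) ∨ (d = 2 ∧ ¬ 4 ∣ N) ∨
      (d = 3 ∧ 4 ∣ N ∧ N - 2 * p - 2 * q = 6 ∧ ¬ 9 ∣ N)) : False := by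
  have hp := T.hp
  have hpq := T.hpq
  have hN := T.hN
  have hN0 : 0 < N := by linarith
  have hd0 : 0 < d := by omega
  have hd3 : d ≤ 3 := by omega
  obtain ⟨i, hi, hid, hi2⟩ : ∃ i : ℤ, IsCoprime i N ∧ N ∣ i * (N - p - q) - d ∧
      ¬ N ∣ 2 * i - 2 := by
    by_cases h3 : d = 3
    · have h' : 4 ∣ N ∧ N - 2 * p - 2 * q = 6 ∧ ¬ 9 ∣ N := by
        rcases h with h | h | h
        · omega
        · omega
        · exact h.2
      obtain ⟨g1, g2, g3⟩ := h'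
      obtain ⟨-, n, hn⟩ := NTB_dvd hd
      have hNn : N = n * d := by rw [hn, mul_comm]
      have hn3 : ¬ (3 : ℤ) ∣ n := by
        rintro ⟨c, hc⟩
        apply g3
        refine ⟨c, ?_⟩
        rw [hNn, hc, h3]
        ring
      obtain ⟨t, ht, ht1⟩ : ∃ t : ℤ, ¬ d ∣ 2 * t ∧ IsCoprime (1 + t * n) d := by
        rw [h3]
        by_cases hm : n % 3 = 1
        · refine ⟨1, by norm_num, ?_⟩
          rw [isCoprime_comm]
          refine (Int.prime_three.coprime_iff_not_dvd).2 ?_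
          omega
        · refine ⟨2, by norm_num, ?_⟩
          rw [isCoprime_comm]
          refine (Int.prime_three.coprime_iff_not_dvd).2 ?_
          omega
      obtain ⟨a1, a2, a3⟩ := NTB_unit T hA hd hd0 g1 (by rw [g2, h3]; norm_num)
        (by rw [h3]; norm_num) hNn ht1 ht
      exact ⟨_, a1, a2, a3⟩
    · obtain ⟨i, hi, hid⟩ := exists_unit_gcd (N - p - q) hN0
      rw [← hd] at hid
      refine ⟨i, hi, hid, fun h0 => ?_⟩
      obtain ⟨g1, g2, g3⟩ := NTB_special T hA hi hid hd0 hdA h0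
      rcases h with ⟨h, h'⟩ | ⟨h, h'⟩ | h
      · exact h' ⟨by rw [g2, h]; norm_num, g1⟩
      · exact h' g1
      · exact h3 h.1
  have hi4 := NTB_four T hA hid hd0 hdA
  obtain ⟨w1, w2, W, a1, a2⟩ := key3 T S hi hid hd0 (by linarith) hdA hi2
  have sW := W.sum
  have hphi := Phi3_test T S (Or.inl hi) W hi4 hdA a1 (by linarith) a2 (by linarith)
  refine Phi3_ne (r := w2 - 2 * q) (r' := w1 - 2 * p) hp hpq hN T.hg hd hd3 (by linarith)
    (by linarith) (by linarith) hA ?_ ?_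
  · have e : (w1 - 2 * p) * q - (w2 - 2 * q) * p = (i * q - w2) * p - (i * p - w1) * q := by ring
    rw [e]
    exact dvd_sub (Dvd.dvd.mul_right W.d2 p) (Dvd.dvd.mul_right W.d1 q)
  · linear_combination -hphi

end Pool.Agent.OBT.NT
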