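import Mathlib
import Pool.Agent.OBT.NT0

/-!
# Case B': `e = A3` divides `N`; the basic test
-/

namespace Pool.Agent.OBT.NT

variable {N p q : ℤ}

/-- `e` divides `p + q`, and `p`, `q` are prime to `e` -/
theorem NTBp0_cop (T : Tri N p q) {e m : ℤ} (he : e = N - 2 * p - 2 * q)
    (hm : N = e * m) (hm2 : ¬ 2 ∣ m) :
    ∃ k : ℤ, p + q = e * k ∧ IsCoprime p e ∧ IsCoprime q e := by
  have hmo : m % 2 = 1 := by omega
  obtain ⟨k, hk⟩ : ∃ k, m = 2 * k + 1 := ⟨m / 2, by omega⟩
  have h1 : p + q = e * k := by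
    rw [hk] at hm
    have h2 : N = e + 2 * (e * k) := by rw [hm]; ring
    linarith
  refine ⟨k, h1, ?_, ?_⟩
  · rw [Int.isCoprime_iff_gcd_eq_one]
    by_contra hg
    obtain ⟨l, hl, hld⟩ := Nat.exists_prime_and_dvd hg
    have hd : (l : ℤ) ∣ (Int.gcd p e : ℤ) := by exact_mod_cast hld
    have d1 : (l : ℤ) ∣ p := hd.trans (Int.gcd_dvd_left p e)
    have d2 : (l : ℤ) ∣ e := hd.trans (Int.gcd_dvd_right p e)
    have d3 : (l : ℤ) ∣ q := by
      have : (l : ℤ) ∣ p + q := by
        rw [h1]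
        exact d2.mul_right k
      exact (dvd_add_right d1).1 this
    refine T.hg l hl d1 d3 ?_
    rw [hm]
    exact d2.mul_right m
  · rw [Int.isCoprime_iff_gcd_eq_one]
    by_contra hg
    obtain ⟨l, hl, hld⟩ := Nat.exists_prime_and_dvd hg
    have hd : (l : ℤ) ∣ (Int.gcd q e : ℤ) := by exact_mod_cast hld
    have d1 : (l : ℤ) ∣ q := hd.trans (Int.gcd_dvd_left q e)
    have d2 : (l : ℤ) ∣ e := hd.trans (Int.gcd_dvd_right q e)
    have d3 : (l : ℤ) ∣ p := by
      have : (l : ℤ) ∣ p + q := by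
        rw [h1]
        exact d2.mul_right k
      exact (dvd_add_left d1).1 this
    refine T.hg l hl d3 d1 ?_
    rw [hm]
    exact d2.mul_right m

/-- the residue of the test T2 -/
theorem NTBp0_res (T : Tri N p q) {e m x s : ℤ} (he : e = N - 2 * p - 2 * q)
    (hm : N = e * m) (hm2 : ¬ 2 ∣ m) (he3 : 3 ≤ e) (hx : m ∣ x) (hx0 : 0 < x)
    (hxN : 2 * x < N) (hxq : x < 2 * q) (hs : s = 1 ∨ s = -1)
    (hc : IsCoprime (2 * p + s * x) e) :
    ∃ i : ℤ, (IsCoprime i N ∨ IsCoprime (4 - i) N) ∧ Wt N p q i (2 * p + x) (2 * q - x) e ∧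
      ¬ N ∣ 2 * i - 4 := by
  obtain ⟨k, hk, hpe, hqe⟩ := NTBp0_cop T he hm hm2
  obtain ⟨y, rfl⟩ := hx
  obtain ⟨u, v, huv⟩ := hpe
  have hs2 : s * s = 1 := by
    rcases hs with rfl | rfl <;> norm_num
  have hp := T.hp
  -- `t = s y u`
  have ht : s * (s * y * u * m) * p - m * y = -(y * v) * N := by
    rw [hm]
    linear_combination (y * u * m * p) * hs2 + (m * y) * huv
  have ht' : (s * y * u * m) * p - s * (m * y) = -(s * y * v) * N := by
    rw [hm]
    linear_combination (s * m * y) * huv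
  have hunit : IsCoprime (2 + s * y * u * m) N := by
    rw [hm]
    refine IsCoprime.mul_right ?_ ?_
    · -- prime to `e`
      have h1 : (2 + s * y * u * m) * p = 2 * p + s * (m * y) + (-(s * y * v) * m) * e := by
        rw [hm] at ht'
        linear_combination ht'
      have h2 : IsCoprime ((2 + s * y * u * m) * p) e := by
        rw [h1]
        exact hc.add_mul_right_left _
      exact h2.of_mul_left_left
    · have h2 : IsCoprime (2 : ℤ) m := by
        obtain ⟨l, hl⟩ : ∃ l, m = 2 * l + 1 := ⟨m / 2, by omega⟩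
        exact ⟨-l, 1, by rw [hl]; ring⟩
      exact h2.add_mul_right_left _
  refine ⟨2 + s * (s * y * u * m), ?_, ⟨?_, ?_, ?_, ?_, ?_, ?_⟩, ?_⟩
  · rcases hs with rfl | rfl
    · left
      have e1 : (2 : ℤ) + 1 * (1 * y * u * m) = 2 + 1 * y * u * m := by ring
      rw [e1]
      exact hunit
    · right
      have e1 : (4 : ℤ) - (2 + -1 * (-1 * y * u * m)) = 2 + -1 * y * u * m := by ring
      rw [e1]
      exact hunit
  · refine ⟨-(y * v), ?_⟩
    linear_combination ht
  · refine ⟨y * v + y * u * k, ?_⟩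
    have h3 : (s * (s * y * u * m)) * (p + q) = y * u * k * N := by
      rw [hk, hm]
      linear_combination (y * u * m * e * k) * hs2
    linear_combination h3 - ht
  · have : 0 < m * y := hx0
    linarith
  · linarith
  · linarith
  · linarith
  · intro h
    have h1 : N ∣ 2 * (m * y) := by
      have h2 : 2 * (m * y) = (2 * (2 + s * (s * y * u * m)) - 4) * p + 2 * (y * v) * N := by
        linear_combination (-2) * ht
      rw [h2]
      exact dvd_add (h.mul_right p) (Dvd.intro_left _ rfl)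
    exact not_dvd_of (by linarith) hxN h1

/-- the test T2(x) -/
theorem T2_test (T : Tri N p q) (S : Surv N p q) {e m x s : ℤ} (he : e = N - 2 * p - 2 * q)
    (hm : N = e * m) (hm2 : ¬ 2 ∣ m) (he3 : 3 ≤ e) (hep : e < 2 * p) (hx : m ∣ x) (hx0 : 0 < x)
    (hxN : 2 * x < N) (hs : s = 1 ∨ s = -1) (hc : IsCoprime (2 * p + s * x) e)
    (h : x < 2 * p ∨ (2 * p + e < x ∧ x < 2 * q)) : False := by
  have hpq := T.hpq
  have hxq : x < 2 * q := by
    rcases h with h | h <;> linarith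
  obtain ⟨i, hi, hw, hi2⟩ := NTBp0_res T he hm hm2 he3 hx hx0 hxN hxq hs hc
  obtain ⟨k, hk, hpe, hqe⟩ := NTBp0_cop T he hm hm2
  rcases h with h | ⟨h, h'⟩
  · have h1 := Phi2_test T S hi hw hi2 (by linarith) (by linarith) (by linarith) (by linarith)
      (by linarith)
    have h2 : (p + q) * ((p + q) * x - p * q) = 0 := by
      rw [he] at h1
      linear_combination h1
    have h3 : (p + q) * x = p * q := by
      rcases mul_eq_zero.1 h2 with h3 | h3
      · have := T.hp
        linarith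
      · linarith
    have h4 : e ∣ p * q := by
      rw [← h3, hk]
      exact Dvd.intro (k * x) (by ring)
    have h5 : IsCoprime (p * q) e := hpe.mul_left hqe
    have h6 : IsUnit e := h5.isUnit_of_dvd' h4 (dvd_refl e)
    rcases Int.isUnit_iff.1 h6 with h7 | h7 <;> linarith
  · exact R321_test T S hi hw hi2 (by linarith) (by linarith) (by linarith) (by linarith)

/-- Lemma 6.1 -/
theorem L61 (T : Tri N p q) (S : Surv N p q) {e m x1 x2 s1 s2 : ℤ} (he : e = N - 2 * p - 2 * q)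
    (hm : N = e * m) (hm2 : ¬ 2 ∣ m) (he3 : 3 ≤ e) (hep : e < 2 * p)
    (hx1 : m ∣ x1) (hx1p : 0 < x1) (hs1 : s1 = 1 ∨ s1 = -1) (hc1 : IsCoprime (2 * p + s1 * x1) e)
    (hx2 : m ∣ x2) (hs2 : s2 = 1 ∨ s2 = -1) (hc2 : IsCoprime (2 * p + s2 * x2) e)
    (h1 : 5 * x1 ≤ N) (h2 : 5 * x1 + N ≤ 5 * x2) (h3 : 2 * x2 < N) : False := by
  have hN := T.hN
  have hp := T.hp
  have hpq := T.hpq
  rcases lt_or_ge x1 (2 * p) with h | h
  · exact T2_test T S he hm hm2 he3 hep hx1 hx1p (by linarith) hs1 hc1 (Or.inl h)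
  · exact T2_test T S he hm hm2 he3 hep hx2 (by linarith) h3 hs2 hc2
      (Or.inr ⟨by linarith, by linarith⟩)

end Pool.Agent.OBT.NT
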