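import Mathlib
import Pool.Agent.OBT.NTBp0
import Pool.Agent.OBT.NTt

/-!
# Case B': `e ∉ {1, 2, 3, 4, 6}`
-/

namespace Pool.Agent.OBT.NT

variable {N p q : ℤ}

theorem NTBp1_cop {a b : ℤ} (h : ∀ r : ℕ, r.Prime → (r : ℤ) ∣ a → ¬ (r : ℤ) ∣ b) :
    IsCoprime a b := by
  rw [Int.isCoprime_iff_gcd_eq_one]
  refine Nat.Coprime.gcd_eq_one (Nat.coprime_of_dvd fun r hr h1 h2 => ?_)
  exact h r hr (Int.natCast_dvd.2 h1) (Int.natCast_dvd.2 h2)

theorem NTBp1_dvd_two {r : ℕ} (hr : r.Prime) (hr2 : r ≠ 2) {x : ℤ} (h : (r : ℤ) ∣ 2 * x) :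
    (r : ℤ) ∣ x := by
  have hp : Prime (r : ℤ) := Nat.prime_iff_prime_int.1 hr
  rcases hp.dvd_mul.1 h with h1 | h1
  · exfalso
    have h2 : r ∣ 2 := by exact_mod_cast h1
    exact hr2 ((Nat.prime_dvd_prime_iff_eq hr Nat.prime_two).1 h2)
  · exact h1

/-- `p` is coprime to `e` -/
theorem NTBp1_pe (T : Tri N p q) {e m : ℤ} (he : e = N - 2 * p - 2 * q)
    (hm : N = e * m) (hm2 : ¬ 2 ∣ m) {r : ℕ} (hr : r.Prime) (hre : (r : ℤ) ∣ e) :
    ¬ (r : ℤ) ∣ p := by
  intro h
  obtain ⟨k, hk⟩ : ∃ k, m = 2 * k + 1 := ⟨m / 2, by omega⟩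
  have h1 : p + q = e * k := by
    have h2 : 2 * (p + q) = 2 * (e * k) := by
      rw [hk] at hm
      linear_combination he + hm
    linarith
  have h3 : (r : ℤ) ∣ q := by
    have h4 : (r : ℤ) ∣ p + q := h1 ▸ Dvd.dvd.mul_right hre k
    exact (dvd_add_right h).1 h4
  exact T.hg r hr h h3 (hm ▸ Dvd.dvd.mul_right hre m)

/-- an allowed sign -/
theorem NTBp1_sign (T : Tri N p q) {e m : ℤ} (he : e = N - 2 * p - 2 * q)
    (hm : N = e * m) (hm2 : ¬ 2 ∣ m) (l : ℕ) (x : ℤ)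
    (hodd : ∀ r : ℕ, r.Prime → r ≠ 2 → (r : ℤ) ∣ e → r ≠ l → (r : ℤ) ∣ x)
    (hev : (2 : ℤ) ∣ e → ¬ (2 : ℤ) ∣ x) :
    ∃ s : ℤ, (s = 1 ∨ s = -1) ∧ IsCoprime (2 * p + s * x) e := by
  have hs : ∃ s : ℤ, (s = 1 ∨ s = -1) ∧
      ¬ (l.Prime ∧ l ≠ 2 ∧ (l : ℤ) ∣ e ∧ (l : ℤ) ∣ 2 * p + s * x) := by
    by_contra hcon
    push Not at hcon
    obtain ⟨h1, h2, h3, h4⟩ := hcon 1 (Or.inl rfl)
    obtain ⟨-, -, -, h5⟩ := hcon (-1) (Or.inr rfl)
    have h6 : (l : ℤ) ∣ 2 * (2 * p) := by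
      have := dvd_add h4 h5
      have e1 : 2 * p + 1 * x + (2 * p + -1 * x) = 2 * (2 * p) := by ring
      rwa [e1] at this
    exact NTBp1_pe T he hm hm2 h1 h3 (NTBp1_dvd_two h1 h2 (NTBp1_dvd_two h1 h2 h6))
  obtain ⟨s, hs, hl⟩ := hs
  refine ⟨s, hs, NTBp1_cop fun r hr h1 h2 => ?_⟩
  by_cases hr2 : r = 2
  · subst hr2
    have h3 : (2 : ℤ) ∣ 2 * p + s * x := by exact_mod_cast h1
    have h4 : (2 : ℤ) ∣ s * x := (dvd_add_right (Dvd.intro _ rfl)).1 h3
    refine hev (by exact_mod_cast h2) ?_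
    rcases hs with rfl | rfl
    · simpa using h4
    · simpa using h4
  · by_cases hrl : r = l
    · subst hrl
      exact hl ⟨hr, hr2, h2, h1⟩
    · have h3 := hodd r hr hr2 h2 hrl
      have h4 : (r : ℤ) ∣ 2 * p := (dvd_add_left (Dvd.dvd.mul_left h3 s)).1 h1
      exact NTBp1_pe T he hm hm2 hr h2 (NTBp1_dvd_two hr hr2 h4)

/-- the common core of all cases -/
theorem NTBp1_core (T : Tri N p q) (S : Surv N p q) {e m : ℤ} (he : e = N - 2 * p - 2 * q)
    (hm : N = e * m) (hm2 : ¬ 2 ∣ m) (he3 : 3 ≤ e) (hep : e < 2 * p) (l : ℕ) (c f b : ℤ)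
    (hcf : e = c * f) (hf : 0 < f) (hc : 5 ≤ c) (hcb : 5 + c ≤ 5 * b) (hb : 2 * b < c)
    (hodd : ∀ r : ℕ, r.Prime → r ≠ 2 → (r : ℤ) ∣ e → r ≠ l → (r : ℤ) ∣ f)
    (hev : (2 : ℤ) ∣ e → ¬ (2 : ℤ) ∣ f ∧ ¬ (2 : ℤ) ∣ b) : False := by
  have hN0 : 0 < N := by have := T.hN; have := T.hp; have := T.hpq; linarith
  have hm0 : 0 < m := by
    rw [hm] at hN0
    exact (mul_pos_iff_of_pos_left (by linarith)).1 hN0
  have hF : 0 < f * m := mul_pos hf hm0
  have hNF : N = c * (f * m) := by rw [hm, hcf]; ring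
  have h2m : ¬ (2 : ℤ) ∣ m := hm2
  have hp2 : Prime (2 : ℤ) := Int.prime_two
  obtain ⟨s1, hs1, hc1⟩ := NTBp1_sign T he hm hm2 l (f * m)
    (fun r hr hr2 hre hrl => Dvd.dvd.mul_right (hodd r hr hr2 hre hrl) m)
    (fun h2 h3 => by
      rcases hp2.dvd_mul.1 h3 with h4 | h4
      · exact (hev h2).1 h4
      · exact h2m h4)
  obtain ⟨s2, hs2, hc2⟩ := NTBp1_sign T he hm hm2 l (b * (f * m))
    (fun r hr hr2 hre hrl => Dvd.dvd.mul_left (Dvd.dvd.mul_right (hodd r hr hr2 hre hrl) m) b)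
    (fun h2 h3 => by
      rcases hp2.dvd_mul.1 h3 with h4 | h4
      · exact (hev h2).2 h4
      · rcases hp2.dvd_mul.1 h4 with h5 | h5
        · exact (hev h2).1 h5
        · exact h2m h5)
  refine L61 T S he hm hm2 he3 hep (x1 := f * m) (x2 := b * (f * m)) ⟨f, by ring⟩ hF hs1 hc1
    ⟨b * f, by ring⟩ hs2 hc2 ?_ ?_ ?_
  · rw [hNF]
    nlinarith
  · rw [hNF]
    nlinarith
  · rw [hNF]
    nlinarith

theorem NTBp1_odd {n : ℕ} (h2 : ¬ 2 ∣ n) (h1 : n ≠ 1) (h3 : n ≠ 3) :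
    (∃ l : ℕ, l.Prime ∧ 5 ≤ l ∧ l ∣ n) ∨ 9 ∣ n := by
  have key : ∀ k : ℕ, k ≠ 1 → ¬ 2 ∣ k → (∃ l : ℕ, l.Prime ∧ 5 ≤ l ∧ l ∣ k) ∨ 3 ∣ k := by
    intro k hk hk2
    obtain ⟨l, hl, hlk⟩ := Nat.exists_prime_and_dvd hk
    have hl2 : l ≠ 2 := fun h => hk2 (h ▸ hlk)
    by_cases h5 : 5 ≤ l
    · exact Or.inl ⟨l, hl, h5, hlk⟩
    · right
      have h6 := hl.two_le
      have h4 : l ≠ 4 := by
        rintro rfl
        exact absurd hl (by norm_num)
      have : l = 3 := by omega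
      exact this ▸ hlk
  rcases key n h1 h2 with h | ⟨k, hk⟩
  · exact Or.inl h
  · have hk1 : k ≠ 1 := fun h => h3 (by rw [hk, h])
    have hk2 : ¬ 2 ∣ k := fun h => h2 (hk ▸ Dvd.dvd.mul_left h 3)
    rcases key k hk1 hk2 with ⟨l, hl, h5, hlk⟩ | ⟨j, hj⟩
    · exact Or.inl ⟨l, hl, h5, hk ▸ Dvd.dvd.mul_left hlk 3⟩
    · exact Or.inr ⟨j, by rw [hk, hj]; ring⟩

theorem caseBp_big (T : Tri N p q) (S : Surv N p q) {e m : ℤ} (he : e = N - 2 * p - 2 * q)
    (hm : N = e * m) (hm2 : ¬ 2 ∣ m) (hep : e < 2 * p) (h1 : e ≠ 1) (h2 : e ≠ 2) (h3 : e ≠ 3)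
    (h4 : e ≠ 4) (h6 : e ≠ 6) : False := by
  have he0 : 0 < e := by have := T.hN; linarith
  have he3 : 3 ≤ e := by omega
  -- primes dividing a product
  have hdv : ∀ {r : ℕ}, r.Prime → ∀ {a b : ℤ}, (r : ℤ) ∣ a * b → (r : ℤ) ∣ a ∨ (r : ℤ) ∣ b :=
    fun {r} hr {a b} h => (Nat.prime_iff_prime_int.1 hr).dvd_mul.1 h
  have heq : ∀ {r l : ℕ}, r.Prime → l.Prime → (r : ℤ) ∣ (l : ℤ) → r = l := fun {r l} hr hl h =>
    (Nat.prime_dvd_prime_iff_eq hr hl).1 (by exact_mod_cast h)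
  have h2' : ∀ {r : ℕ}, r.Prime → r ≠ 2 → ¬ (r : ℤ) ∣ 2 := fun {r} hr hr2 h =>
    hr2 (heq hr Nat.prime_two (by exact_mod_cast h))
  -- the odd number `f'` with the two cases
  have hodd : ∀ f' : ℤ, 0 < f' → ¬ 2 ∣ f' → f' ≠ 1 → f' ≠ 3 →
      (∃ l : ℕ, l.Prime ∧ 5 ≤ l ∧ (l : ℤ) ∣ f') ∨ 9 ∣ f' := by
    intro f' hf0 hf2 hf1 hf3
    obtain ⟨n, rfl⟩ := Int.eq_ofNat_of_zero_le hf0.le
    have := NTBp1_odd (n := n) (fun h => hf2 (by exact_mod_cast h))
      (fun h => hf1 (by rw [h]; rfl)) (fun h => hf3 (by rw [h]; rfl))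
    rcases this with ⟨l, hl, h5, hln⟩ | h9
    · exact Or.inl ⟨l, hl, h5, by exact_mod_cast hln⟩
    · exact Or.inr (by exact_mod_cast h9)
  by_cases hev : (2 : ℤ) ∣ e
  · by_cases h8 : (8 : ℤ) ∣ e
    · -- `8 ∣ e`
      obtain ⟨n, rfl⟩ := Int.eq_ofNat_of_zero_le he0.le
      have hn0 : n ≠ 0 := by
        rintro rfl
        exact absurd he0 (by norm_num)
      obtain ⟨a, f, hf2, hn⟩ := Nat.exists_eq_two_pow_mul_odd hn0
      have ha : 3 ≤ a := by
        have h8n : 2 ^ 3 ∣ 2 ^ a * f := by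
          rw [← hn]
          have : (8 : ℕ) ∣ n := by exact_mod_cast h8
          simpa using this
        have hcop : Nat.Coprime (2 ^ 3) f := Nat.Coprime.pow_left 3 (Nat.coprime_two_left.2 hf2)
        exact (Nat.pow_dvd_pow_iff_le_right (by norm_num)).1 (hcop.dvd_of_dvd_mul_right h8n)
      obtain ⟨b, rfl⟩ : ∃ b, a = b + 3 := ⟨a - 3, by omega⟩
      have hpow : (1 : ℤ) ≤ 2 ^ b := one_le_pow₀ (by norm_num)
      have hf0 : 0 < f := hf2.pos
      refine NTBp1_core T S he hm hm2 he3 hep 1 (8 * 2 ^ b) f (4 * 2 ^ b - 1) ?_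
        (by exact_mod_cast hf0) (by linarith) (by linarith) (by linarith) ?_ ?_
      · have : ((n : ℕ) : ℤ) = ((2 ^ (b + 3) * f : ℕ) : ℤ) := by rw [hn]
        push_cast at this
        rw [this]
        ring
      · intro r hr hr2 hre _
        have hre' : r ∣ 2 ^ (b + 3) * f := by
          rw [← hn]
          exact_mod_cast hre
        have hcop : Nat.Coprime r (2 ^ (b + 3)) :=
          Nat.Coprime.pow_right _ ((Nat.coprime_primes hr Nat.prime_two).2 hr2)
        exact_mod_cast hcop.dvd_of_dvd_mul_left hre'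
      · intro _
        refine ⟨fun h => ?_, fun h => by omega⟩
        have h7 : 2 ∣ f := by exact_mod_cast h
        exact (Nat.not_even_iff_odd.2 hf2) (even_iff_two_dvd.2 h7)
    · by_cases h44 : (4 : ℤ) ∣ e
      · -- `4 ∥ e`
        obtain ⟨f', hf'⟩ := h44
        have hf0 : 0 < f' := by linarith
        have hf2 : ¬ (2 : ℤ) ∣ f' := fun ⟨t, ht⟩ => h8 ⟨t, by rw [hf', ht]; ring⟩
        have hf1 : f' ≠ 1 := fun h => h4 (by rw [hf', h]; norm_num)
        obtain ⟨n, rfl⟩ := Int.eq_ofNat_of_zero_le hf0.le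
        obtain ⟨l, hl, hln⟩ := Nat.exists_prime_and_dvd (n := n) (fun h => hf1 (by rw [h]; rfl))
        obtain ⟨f, hf⟩ := hln
        have hl2 : l ≠ 2 := by
          rintro rfl
          exact hf2 ⟨f, by rw [hf]; push_cast; ring⟩
        have hl3 : (3 : ℤ) ≤ l := by
          have := hl.two_le
          have h5 : 3 ≤ l := by omega
          exact_mod_cast h5
        have hfpos : 0 < f := by
          rcases Nat.eq_zero_or_pos f with h | h
          · rw [h, mul_zero] at hf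
            rw [hf] at hf0
            exact absurd hf0 (by norm_num)
          · exact h
        have hef : e = 4 * l * f := by rw [hf', hf]; push_cast; ring
        refine NTBp1_core T S he hm hm2 he3 hep l (4 * l) f (2 * l - 1) hef
          (by exact_mod_cast hfpos) (by linarith) (by linarith) (by linarith) ?_ ?_
        · intro r hr hr2 hre hrl
          rw [hef] at hre
          rcases hdv hr hre with h5 | h5
          · exfalso
            rcases hdv hr h5 with h7 | h7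
            · have e4 : (4 : ℤ) = 2 * 2 := by norm_num
              rw [e4] at h7
              rcases hdv hr h7 with h9 | h9 <;> exact h2' hr hr2 h9
            · exact hrl (heq hr hl h7)
          · exact h5
        · intro _
          refine ⟨fun h => hf2 ?_, fun h => by omega⟩
          rw [hf]
          push_cast
          exact Dvd.dvd.mul_left h _
      · -- `2 ∥ e`
        obtain ⟨f', hf'⟩ := hev
        have hf0 : 0 < f' := by linarith
        have hf2 : ¬ (2 : ℤ) ∣ f' := fun ⟨t, ht⟩ => h44 ⟨t, by rw [hf', ht]; ring⟩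
        rcases hodd f' hf0 hf2 (fun h => h2 (by rw [hf', h]; norm_num))
          (fun h => h6 (by rw [hf', h]; norm_num)) with ⟨l, hl, hl5, f, hf⟩ | ⟨f, hf⟩
        · have hl5' : (5 : ℤ) ≤ l := by exact_mod_cast hl5
          have hef : e = 2 * l * f := by rw [hf', hf]; ring
          have hfpos : 0 < f := by
            rw [hf] at hf0
            exact (mul_pos_iff_of_pos_left (by linarith)).1 hf0
          have hlodd : ¬ (2 : ℤ) ∣ l := fun h => hf2 (by rw [hf]; exact Dvd.dvd.mul_right h f)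
          refine NTBp1_core T S he hm hm2 he3 hep l (2 * l) f (l - 2) hef hfpos (by linarith)
            (by linarith) (by linarith) ?_ ?_
          · intro r hr hr2 hre hrl
            rw [hef] at hre
            rcases hdv hr hre with h5 | h5
            · exfalso
              rcases hdv hr h5 with h7 | h7
              · exact h2' hr hr2 h7
              · exact hrl (heq hr hl h7)
            · exact h5
          · intro _
            refine ⟨fun h => hf2 ?_, fun h => by omega⟩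
            rw [hf]
            exact Dvd.dvd.mul_left h _
        · have hef : e = 18 * f := by rw [hf', hf]; ring
          have hfpos : 0 < f := by linarith
          refine NTBp1_core T S he hm hm2 he3 hep 3 18 f 7 hef hfpos (by norm_num)
            (by norm_num) (by norm_num) ?_ ?_
          · intro r hr hr2 hre hrl
            rw [hef] at hre
            rcases hdv hr hre with h5 | h5
            · exfalso
              have e18 : (18 : ℤ) = 2 * ((3 : ℕ) * (3 : ℕ)) := by norm_num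
              rw [e18] at h5
              rcases hdv hr h5 with h7 | h7
              · exact h2' hr hr2 h7
              · rcases hdv hr h7 with h9 | h9 <;> exact hrl (heq hr Nat.prime_three h9)
            · exact h5
          · intro _
            refine ⟨fun h => hf2 ?_, by norm_num⟩
            rw [hf]
            exact Dvd.dvd.mul_left h _
  · -- `e` odd
    rcases hodd e he0 hev h1 h3 with ⟨l, hl, hl5, f, hf⟩ | ⟨f, hf⟩
    · have hl5' : (5 : ℤ) ≤ l := by exact_mod_cast hl5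
      have hlodd : ¬ (2 : ℤ) ∣ l := fun h => hev (by rw [hf]; exact Dvd.dvd.mul_right h f)
      obtain ⟨k, hk⟩ : ∃ k : ℤ, (l : ℤ) = 2 * k + 1 := ⟨(l : ℤ) / 2, by omega⟩
      have hfpos : 0 < f := by
        rw [hf] at he0
        exact (mul_pos_iff_of_pos_left (by linarith)).1 he0
      refine NTBp1_core T S he hm hm2 he3 hep l l f k hf hfpos hl5'
        (by linarith) (by linarith) ?_ (fun h => absurd h hev)
      intro r hr hr2 hre hrl
      rw [hf] at hre
      rcases hdv hr hre with h5 | h5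
      · exact absurd (heq hr hl h5) hrl
      · exact h5
    · have hfpos : 0 < f := by linarith
      refine NTBp1_core T S he hm hm2 he3 hep 3 9 f 4 hf hfpos (by norm_num)
        (by norm_num) (by norm_num) ?_ (fun h => absurd h hev)
      intro r hr hr2 hre hrl
      rw [hf] at hre
      rcases hdv hr hre with h5 | h5
      · exfalso
        have e9 : (9 : ℤ) = (3 : ℕ) * (3 : ℕ) := by norm_num
        rw [e9] at h5
        rcases hdv hr h5 with h9 | h9 <;> exact hrl (heq hr Nat.prime_three h9)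
      · exact h5

end Pool.Agent.OBT.NT
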