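import Mathlib
import Pool.Agent.OBT.NTBp0

/-!
# Case B': `e ∈ {1, 2, 3, 4, 6}`
-/

namespace Pool.Agent.OBT.NT

variable {N p q : ℤ}

theorem NTBp2_odd {N p q : ℤ} (T : Tri N p q) (h2 : (2 : ℤ) ∣ N) (hpq : (2 : ℤ) ∣ p + q) :
    ¬ 2 ∣ p ∧ ¬ 2 ∣ q := by
  have hg := T.hg 2 Nat.prime_two
  push_cast at hg
  refine ⟨fun h => hg h (by omega) h2, fun h => hg (by omega) h h2⟩

theorem NTBp2_three {N p q : ℤ} (T : Tri N p q) {m : ℤ} (h3 : (3 : ℤ) ∣ N)
    (hpq : (3 : ℤ) ∣ p + q) : ∃ s : ℤ, (s = 1 ∨ s = -1) ∧ IsCoprime (2 * p + s * m) 3 := by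
  have hg := T.hg 3 Nat.prime_three
  push_cast at hg
  have hp3 : ¬ (3 : ℤ) ∣ p := fun h => hg h (by omega) h3
  have key : ∀ a : ℤ, ¬ (3 : ℤ) ∣ a → IsCoprime a 3 := by
    intro a ha
    have : IsCoprime (3 : ℤ) a := (Int.prime_three.coprime_iff_not_dvd).2 ha
    exact this.symm
  by_cases h : (3 : ℤ) ∣ 2 * p + m
  · refine ⟨-1, Or.inr rfl, key _ ?_⟩
    omega
  · refine ⟨1, Or.inl rfl, key _ ?_⟩
    omega

theorem caseBp_one (T : Tri N p q) (S : Surv N p q) (hp : 2 ≤ p) (he : N - 2 * p - 2 * q = 1) :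
    False := by
  have hpq := T.hpq
  have hodd : ¬ 2 ∣ N := by omega
  have h1 := S.k3a hodd
  have hqp : q = p := by omega
  subst hqp
  obtain ⟨k, hk⟩ | ⟨k, hk⟩ := Int.even_or_odd q
  · have hq : q = 2 * k := by omega
    have hN : N = 8 * k + 1 := by omega
    subst hq
    subst hN
    refine C_test T S (i := 4 * k + 1) (w1 := k) (w2 := k) (w3 := 6 * k + 1) ⟨2, -1, by ring⟩
      ⟨⟨k, by ring⟩, ⟨k, by ring⟩, by omega, by omega, by omega, by ring⟩ ?_
      (Or.inl ⟨by omega, by omega⟩)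
    exact not_dvd_of (by omega) (by omega)
  · have hN : N = 8 * k + 5 := by omega
    subst hk
    subst hN
    refine C_test T S (i := 4 * k + 2) (w1 := 3 * k + 2) (w2 := 3 * k + 2) (w3 := 2 * k + 1)
      ⟨-2, 1, by ring⟩
      ⟨⟨k, by ring⟩, ⟨k, by ring⟩, by omega, by omega, by omega, by ring⟩ ?_
      (Or.inl ⟨by omega, by omega⟩)
    exact not_dvd_of (by omega) (by omega)

theorem caseBp_two (T : Tri N p q) (S : Surv N p q) (hp : 2 ≤ p) {m : ℤ}
    (he : N - 2 * p - 2 * q = 2) (hm : N = 2 * m) (hm2 : ¬ 2 ∣ m) : False := by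
  have hpq := T.hpq
  obtain ⟨hp2, hq2⟩ := NTBp2_odd T (by omega) (by omega)
  obtain ⟨k, hk⟩ : ∃ k, p = 2 * k + 1 := by
    obtain ⟨k, hk⟩ | ⟨k, hk⟩ := Int.even_or_odd p
    · exact absurd ⟨k, by omega⟩ hp2
    · exact ⟨k, hk⟩
  have hb := S.k3b m hm hm2 hp2 hq2
  have hc := S.k3c m hm hm2 hp2 hq2 (by omega)
  by_cases h1 : 4 * p < m - 4
  · exact hb ⟨by omega, by omega⟩
  by_cases h2 : 4 * p = m - 3
  · have hmk : m = 8 * k + 7 := by omega
    have hqk : q = 6 * k + 5 := by omega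
    subst hm
    subst hqk
    subst hk
    subst hmk
    refine C_test T S (i := 8 * k + 3) (w1 := 3) (w2 := 1) (w3 := 16 * k + 10)
      ⟨6 * k + 5, -(3 * k + 1), by ring⟩
      ⟨⟨k, by ring⟩, ⟨3 * k + 1, by ring⟩, by omega, by omega, by omega, by ring⟩ ?_
      (Or.inl ⟨by omega, by omega⟩)
    exact not_dvd_of (by omega) (by omega)
  by_cases h3 : 4 * p = m - 1
  · have hmk : m = 8 * k + 5 := by omega
    have hqk : q = 6 * k + 3 := by omega
    subst hm
    subst hqk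
    subst hk
    subst hmk
    refine C_test T S (i := 8 * k + 1) (w1 := 1) (w2 := 3) (w3 := 16 * k + 6)
      ⟨2 * k + 1, -k, by ring⟩
      ⟨⟨k, by ring⟩, ⟨3 * k, by ring⟩, by omega, by omega, by omega, by ring⟩ ?_
      (Or.inl ⟨by omega, by omega⟩)
    exact not_dvd_of (by omega) (by omega)
  have h4 : m < 4 * p := by omega
  have h5 : ¬ p < q := fun h => hc h h4
  have hqp : q = p := by omega
  subst hqp
  have hmk : m = 4 * k + 3 := by omega
  subst hm
  subst hk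
  subst hmk
  refine C_test T S (i := 4 * k + 7) (w1 := 4 * k + 1) (w2 := 4 * k + 1) (w3 := 4)
    ⟨(4 * k + 7) - 2 * (2 * k ^ 2 + 7 * k + 6), 2 * k ^ 2 + 7 * k + 6, by ring⟩
    ⟨⟨k + 1, by ring⟩, ⟨k + 1, by ring⟩, by omega, by omega, by omega, by ring⟩ ?_
    (Or.inl ⟨by omega, by omega⟩)
  intro h
  have h6 := dvd_sub h (dvd_refl (2 * (4 * k + 3)))
  have e : 2 * (4 * k + 7) - 2 - 2 * (4 * k + 3) = 6 := by ring
  rw [e] at h6
  exact not_dvd_of (N := 2 * (4 * k + 3)) (a := 6) (by omega) (by omega) h6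

theorem caseBp_three (T : Tri N p q) (S : Surv N p q) {m : ℤ} (hep : 3 < 2 * p)
    (he : N - 2 * p - 2 * q = 3) (hm : N = 3 * m) (hm2 : ¬ 2 ∣ m) : False := by
  have hpq := T.hpq
  obtain ⟨s, hs, hc⟩ := NTBp2_three T (m := m) (by omega) (by omega)
  by_cases h1 : m < 2 * p
  · exact T2_test T S he.symm hm hm2 le_rfl hep (dvd_refl m) (by omega) (by omega) hs hc
      (Or.inl h1)
  by_cases h2 : 2 * p + 3 < m
  · exact T2_test T S he.symm hm hm2 le_rfl hep (dvd_refl m) (by omega) (by omega) hs hc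
      (Or.inr ⟨h2, by omega⟩)
  exact S.k3a (by omega) (by omega)

theorem caseBp_four (T : Tri N p q) (S : Surv N p q) {m : ℤ} (hep : 4 < 2 * p)
    (he : N - 2 * p - 2 * q = 4) (hm : N = 4 * m) (hm2 : ¬ 2 ∣ m) : False := by
  have hpq := T.hpq
  obtain ⟨hp2, hq2⟩ := NTBp2_odd T (by omega) (by omega)
  obtain ⟨k, hk⟩ : ∃ k, p = 2 * k + 1 := by
    obtain ⟨k, hk⟩ | ⟨k, hk⟩ := Int.even_or_odd p
    · exact absurd ⟨k, by omega⟩ hp2
    · exact ⟨k, hk⟩
  obtain ⟨l, hl⟩ : ∃ l, m = 2 * l + 1 := by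
    obtain ⟨l, hl⟩ | ⟨l, hl⟩ := Int.even_or_odd m
    · exact absurd ⟨l, by omega⟩ hm2
    · exact ⟨l, hl⟩
  have hc : IsCoprime (2 * p + 1 * m) 4 := by
    have h2 : IsCoprime (2 * p + 1 * m) 2 := ⟨1, -(p + l), by rw [hl]; ring⟩
    have : IsCoprime (2 * p + 1 * m) (2 * 2) := IsCoprime.mul_right h2 h2
    norm_num at this
    simpa using this
  by_cases h1 : m < 2 * p
  · exact T2_test T S he.symm hm hm2 (by norm_num) hep (dvd_refl m) (by omega) (by omega)
      (Or.inl rfl) hc (Or.inl h1)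
  by_cases h2 : 2 * p + 4 < m
  · exact T2_test T S he.symm hm hm2 (by norm_num) hep (dvd_refl m) (by omega) (by omega)
      (Or.inl rfl) hc (Or.inr ⟨h2, by omega⟩)
  have h3 : m = 2 * p + 1 ∨ m = 2 * p + 3 := by omega
  rcases h3 with h3 | h3
  · have hmk : m = 4 * k + 3 := by omega
    have hqk : q = 6 * k + 3 := by omega
    subst hm
    subst hqk
    subst hk
    subst hmk
    refine R123_test T S (i := 8 * k + 5) (w1 := 6 * k + 5) (w2 := 2 * k + 3) (w3 := 8 * k + 4)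
      (Or.inl ⟨8 * k + 5, -(4 * k + 2), by ring⟩)
      ⟨⟨k, by ring⟩, ⟨3 * k + 1, by ring⟩, by omega, by omega, by omega, by ring⟩ ?_
      (by omega) (by omega) (by omega) (by omega) (by omega)
    exact not_dvd_of (by omega) (by omega)
  · have hmk : m = 4 * k + 5 := by omega
    have hqk : q = 6 * k + 7 := by omega
    subst hm
    subst hqk
    subst hk
    subst hmk
    have hk1 : k = 1 ∨ k = 2 ∨ 3 ≤ k := by omega
    rcases hk1 with rfl | rfl | hk3
    · refine C_test T S (i := 13) (w1 := 3) (w2 := 25) (w3 := 8)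
        ⟨-11, 4, by norm_num⟩
        ⟨⟨1, by norm_num⟩, ⟨4, by norm_num⟩, by omega, by omega, by omega, by norm_num⟩ ?_
        (Or.inl ⟨by omega, by omega⟩)
      exact not_dvd_of (by omega) (by omega)
    · refine C_test T S (i := 11) (w1 := 3) (w2 := 1) (w3 := 48)
        ⟨19, -4, by norm_num⟩
        ⟨⟨1, by norm_num⟩, ⟨4, by norm_num⟩, by omega, by omega, by omega, by norm_num⟩ ?_
        (Or.inl ⟨by omega, by omega⟩)
      exact not_dvd_of (by omega) (by omega)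
    · refine R123_test T S (i := 8 * k + 9) (w1 := 6 * k + 9) (w2 := 2 * k + 3) (w3 := 8 * k + 8)
        (Or.inl ⟨8 * k + 9, -(4 * k + 4), by ring⟩)
        ⟨⟨k, by ring⟩, ⟨3 * k + 3, by ring⟩, by omega, by omega, by omega, by ring⟩ ?_
        (by omega) (by omega) (by omega) (by omega) (by omega)
      exact not_dvd_of (by omega) (by omega)

theorem caseBp_six (T : Tri N p q) (S : Surv N p q) {m : ℤ} (hep : 6 < 2 * p)
    (he : N - 2 * p - 2 * q = 6) (hm : N = 6 * m) (hm2 : ¬ 2 ∣ m) : False := by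
  have hpq := T.hpq
  obtain ⟨hp2, hq2⟩ := NTBp2_odd T (by omega) (by omega)
  obtain ⟨l, hl⟩ : ∃ l, m = 2 * l + 1 := by
    obtain ⟨l, hl⟩ | ⟨l, hl⟩ := Int.even_or_odd m
    · exact absurd ⟨l, by omega⟩ hm2
    · exact ⟨l, hl⟩
  obtain ⟨s, hs, hc3⟩ := NTBp2_three T (m := m) (by omega) (by omega)
  have hc : IsCoprime (2 * p + s * m) 6 := by
    have h2 : IsCoprime (2 * p + s * m) 2 := by
      rcases hs with rfl | rfl
      · exact ⟨1, -(p + l), by rw [hl]; ring⟩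
      · exact ⟨-1, p - l, by rw [hl]; ring⟩
    have : IsCoprime (2 * p + s * m) (2 * 3) := IsCoprime.mul_right h2 hc3
    norm_num at this
    exact this
  by_cases h1 : m < 2 * p
  · exact T2_test T S he.symm hm hm2 (by norm_num) hep (dvd_refl m) (by omega) (by omega)
      hs hc (Or.inl h1)
  by_cases h2 : 2 * p + 6 < m
  · exact T2_test T S he.symm hm hm2 (by norm_num) hep (dvd_refl m) (by omega) (by omega)
      hs hc (Or.inr ⟨h2, by omega⟩)
  exact S.k3b (3 * m) (by omega) (by omega) hp2 hq2 ⟨by omega, by omega⟩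

end Pool.Agent.OBT.NT
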