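import Mathlib
import Pool.Agent.OBT.NT0

/-!
# The universal tests for `4 ∣ N`
-/

namespace Pool.Agent.OBT.NT

variable {N p q : ℤ}

theorem NTY_cop {K : ℤ} : IsCoprime (4 - (2 * K + 3)) (4 * K) :=
  ⟨1 + 2 * K, K, by ring⟩

theorem NTY_ne {K : ℤ} (T : Tri (4 * K) p q) : ¬ (4 * K) ∣ 2 * (2 * K + 3) - 4 := by
  intro h
  have h1 := dvd_sub h (dvd_refl (4 * K))
  have e : 2 * (2 * K + 3) - 4 - 4 * K = 2 := by ring
  rw [e] at h1
  have h2 := Int.le_of_dvd (by norm_num) h1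
  have := T.hN
  have := T.hp
  have := T.hpq
  linarith

theorem NTY_odd (T : Tri N p q) (h4 : 4 ∣ N) : ¬ (2 ∣ p ∧ 2 ∣ q) := by
  rintro ⟨h1, h2⟩
  have h3 : (2 : ℤ) ∣ N := dvd_trans (by norm_num) h4
  exact T.hg 2 Nat.prime_two (by exact_mod_cast h1) (by exact_mod_cast h2) (by exact_mod_cast h3)

/-- `i = M + 3`, `M = N/2`: weights `(3p, 3q - M, ...)`, test (Phi_2). -/
theorem Y1 (T : Tri N p q) (S : Surv N p q) (h4 : 4 ∣ N) (hp : 2 ∣ p) (hq : N < 6 * q) : False := by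
  have hodd := NTY_odd T h4
  obtain ⟨K, rfl⟩ := h4
  have hN := T.hN
  have hp0 := T.hp
  have hpq := T.hpq
  obtain ⟨a, ha⟩ := hp
  obtain ⟨b, hb⟩ : ∃ b, q = 2 * b + 1 := by
    have h1 : ¬ (2 : ℤ) ∣ q := fun h => hodd ⟨⟨a, ha⟩, h⟩
    exact ⟨q / 2, by omega⟩
  have hw : Wt (4 * K) p q (2 * K + 3) (3 * p) (3 * q - 2 * K)
      (4 * K - 3 * p - 3 * q + 2 * K) := by
    refine ⟨⟨a, ?_⟩, ⟨b + 1, ?_⟩, by linarith, by linarith, by linarith, by ring⟩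
    · rw [ha]; ring
    · rw [hb]; ring
  have h := Phi2_test T S (Or.inr NTY_cop) hw (NTY_ne T) (by linarith) (by linarith)
    (by linarith) (by linarith) (by linarith)
  have h1 : p ^ 2 * (2 * K) = 0 := by linear_combination h
  have h2 : 0 < p ^ 2 * (2 * K) := mul_pos (by positivity) (by linarith)
  linarith

/-- `i = M + 3`: weights `(3p - M, 3q, ...)`, test (Phi_1). -/
theorem Y2 (T : Tri N p q) (S : Surv N p q) (h4 : 4 ∣ N) (hq : 2 ∣ q) (hp : N < 6 * p) : False := by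
  have hodd := NTY_odd T h4
  obtain ⟨K, rfl⟩ := h4
  have hN := T.hN
  have hp0 := T.hp
  have hpq := T.hpq
  obtain ⟨b, hb⟩ := hq
  obtain ⟨a, ha⟩ : ∃ a, p = 2 * a + 1 := by
    have h1 : ¬ (2 : ℤ) ∣ p := fun h => hodd ⟨h, ⟨b, hb⟩⟩
    exact ⟨p / 2, by omega⟩
  have hw : Wt (4 * K) p q (2 * K + 3) (3 * p - 2 * K) (3 * q)
      (4 * K - 3 * p - 3 * q + 2 * K) := by
    refine ⟨⟨a + 1, ?_⟩, ⟨b, ?_⟩, by linarith, by linarith, by linarith, by ring⟩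
    · rw [ha]; ring
    · rw [hb]; ring
  have h := Phi1_test T S (Or.inr NTY_cop) hw (NTY_ne T) (by linarith) (by linarith)
    (by linarith) (by linarith) (by linarith)
  have hq0 : 0 < q := by linarith
  have h1 : q ^ 2 * (2 * K) = 0 := by linear_combination h
  have h2 : 0 < q ^ 2 * (2 * K) := mul_pos (by positivity) (by linarith)
  linarith

/-- `i = M + 3`: weights `(3p + M, 3q - 2M, ...)`, test (R_2(3,2,1)). -/
theorem X_test (T : Tri N p q) (S : Surv N p q) (h4 : 4 ∣ N) (hq : 2 ∣ q) (hq3 : N < 3 * q)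
    (hp : 6 * p ≤ N) : False := by
  have hodd := NTY_odd T h4
  obtain ⟨K, rfl⟩ := h4
  have hN := T.hN
  have hp0 := T.hp
  have hpq := T.hpq
  obtain ⟨b, hb⟩ := hq
  obtain ⟨a, ha⟩ : ∃ a, p = 2 * a + 1 := by
    have h1 : ¬ (2 : ℤ) ∣ p := fun h => hodd ⟨h, ⟨b, hb⟩⟩
    exact ⟨p / 2, by omega⟩
  have hw : Wt (4 * K) p q (2 * K + 3) (3 * p + 2 * K) (3 * q - 4 * K)
      (4 * K - 3 * p - 3 * q + 2 * K) := by
    refine ⟨⟨a, ?_⟩, ⟨b + 1, ?_⟩, by linarith, by linarith, by linarith, by ring⟩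
    · rw [ha]; ring
    · rw [hb]; ring
  exact R321_test T S (Or.inr NTY_cop) hw (NTY_ne T) (by linarith) (by linarith)
    (by linarith) (by linarith)

end Pool.Agent.OBT.NT
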