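import Mathlib
import Pool.Agent.OBT.NT0
import Pool.Agent.OBT.NTY

/-!
# `p = 2`, `N` even
-/

namespace Pool.Agent.OBT.NT

variable {N p q : ℤ}

/-- the case `q = 3`, `3 ∤ N` (first residue) -/
theorem NTL1_a (T : Tri N p q) (S : Surv N p q) (hp : p = 2) (hq : q = 3) {k : ℤ}
    (hN : N = 3 * k + 1) (hk : 9 ≤ k) : False := by
  have hi : IsCoprime (2 * k + 1) N := ⟨3, -2, by rw [hN]; ring⟩
  have hw : Wt N p q (2 * k + 1) (k + 1) 1 (2 * k - 1) := by
    refine ⟨⟨1, ?_⟩, ⟨2, ?_⟩, by linarith, by norm_num, by linarith, ?_⟩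
    · rw [hp, hN]; ring
    · rw [hq, hN]; ring
    · rw [hN]; ring
  refine C_test T S hi hw ?_ (Or.inr (Or.inr ⟨?_, ?_⟩))
  · intro h
    have := eq_of_dvd (by linarith) (by linarith) h
    linarith
  · rw [hq]; norm_num
  · rw [hN, hp, hq]; linarith

/-- the case `q = 3`, `3 ∤ N` (second residue) -/
theorem NTL1_b (T : Tri N p q) (S : Surv N p q) (hp : p = 2) (hq : q = 3) {k : ℤ}
    (hN : N = 3 * k + 2) (hk : 4 ≤ k) : False := by
  have hi : IsCoprime (k + 1) N := ⟨3, -1, by rw [hN]; ring⟩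
  have hw : Wt N p q (k + 1) (2 * k + 2) 1 (k - 1) := by
    refine ⟨⟨0, ?_⟩, ⟨1, ?_⟩, by linarith, by norm_num, by linarith, ?_⟩
    · rw [hp, hN]; ring
    · rw [hq, hN]; ring
    · rw [hN]; ring
  refine C_test T S hi hw ?_ (Or.inr (Or.inr ⟨?_, ?_⟩))
  · exact not_dvd_of (by linarith) (by linarith)
  · rw [hq]; norm_num
  · rw [hN, hp, hq]; linarith

/-- the case `q = 3`, `3 ∣ N` -/
theorem NTL1_c (T : Tri N p q) (S : Surv N p q) (hp : p = 2) (hq : q = 3) {k : ℤ}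
    (hN : N = 3 * k) (hk : 6 ≤ k) : False := by
  have h3 : Prime (3 : ℤ) := Int.prime_three
  by_cases h : (3 : ℤ) ∣ 1 + k
  · have hn : ¬ (3 : ℤ) ∣ 1 + 2 * k := by omega
    have hc3 : IsCoprime (1 + 2 * k) 3 := ((Prime.coprime_iff_not_dvd h3).2 hn).symm
    have hck : IsCoprime (1 + 2 * k) k := ⟨1, -2, by ring⟩
    have hi : IsCoprime (1 + 2 * k) N := by
      rw [hN]
      exact IsCoprime.mul_right hc3 hck
    have hw : Wt N p q (1 + 2 * k) (2 + k) 3 (2 * k - 5) := by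
      refine ⟨⟨1, ?_⟩, ⟨2, ?_⟩, by linarith, by norm_num, by linarith, ?_⟩
      · rw [hp, hN]; ring
      · rw [hq, hN]; ring
      · rw [hN]; ring
    refine C_test T S hi hw ?_ (Or.inr (Or.inr ⟨?_, ?_⟩))
    · intro h
      have := eq_of_dvd (by linarith) (by linarith) h
      linarith
    · rw [hq]; norm_num
    · rw [hN, hp, hq]; linarith
  · have hc3 : IsCoprime (1 + k) 3 := ((Prime.coprime_iff_not_dvd h3).2 h).symm
    have hck : IsCoprime (1 + k) k := ⟨1, -1, by ring⟩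
    have hi : IsCoprime (1 + k) N := by
      rw [hN]
      exact IsCoprime.mul_right hc3 hck
    have hw : Wt N p q (1 + k) (2 + 2 * k) 3 (k - 5) := by
      refine ⟨⟨0, ?_⟩, ⟨1, ?_⟩, by linarith, by norm_num, by linarith, ?_⟩
      · rw [hp, hN]; ring
      · rw [hq, hN]; ring
      · rw [hN]; ring
    refine C_test T S hi hw ?_ (Or.inr (Or.inr ⟨?_, ?_⟩))
    · exact not_dvd_of (by linarith) (by linarith)
    · rw [hq]; norm_num
    · rw [hN, hp, hq]; linarith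

theorem caseL1 (T : Tri N p q) (S : Surv N p q) (hp : p = 2) {M : ℤ} (hM : N = 2 * M) :
    ¬ 2 ∣ q ∧ 5 ≤ q ∧ q ≤ M - 4 := by
  have h2p : (2 : ℤ) ∣ p := by rw [hp]
  have hq2 : ¬ (2 : ℤ) ∣ q := by
    intro h
    exact T.hg 2 Nat.prime_two (by exact_mod_cast h2p) (by exact_mod_cast h)
      (by rw [hM]; exact ⟨M, by push_cast; ring⟩)
  have hpq := T.hpq
  have hN := T.hN
  have hqM : q ≠ M - 3 := by
    intro h
    refine Y1 T S ?_ h2p ?_
    · omega
    · omega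
  have hq3 : q ≠ 3 := by
    intro h
    have hM7 : 7 ≤ M := by omega
    by_cases h16 : M = 8
    · exact Y1 T S (by omega) h2p (by omega)
    by_cases h22 : M = 11
    · exact S.k3d ⟨by omega, hp, h⟩
    obtain ⟨k, hk⟩ : ∃ k : ℤ, N = 3 * k ∨ N = 3 * k + 1 ∨ N = 3 * k + 2 :=
      ⟨N / 3, by omega⟩
    rcases hk with hk | hk | hk
    · exact NTL1_c T S hp h hk (by omega)
    · exact NTL1_a T S hp h hk (by omega)
    · exact NTL1_b T S hp h hk (by omega)
  refine ⟨hq2, ?_, ?_⟩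
  · omega
  · omega

end Pool.Agent.OBT.NT
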