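import Mathlib
import Pool.Agent.OBT.NT0
import Pool.Agent.OBT.NTY

/-!
# `p = 4`, `N = 4 mod 8`
-/

namespace Pool.Agent.OBT.NT

variable {N p q : ℤ}

theorem NTL2_cop_two {i : ℤ} (h : ∃ a, i = 2 * a + 1) : IsCoprime i 2 := by
  obtain ⟨a, rfl⟩ := h
  exact ⟨1, -a, by ring⟩

theorem NTL2_cop {m c k i : ℤ} (hi : ∃ a, i = 2 * a + 1)
    (hc' : IsCoprime c m) (e : i = c + k * m) :
    IsCoprime i (4 * m) := by
  have h1 := NTL2_cop_two hi
  have h2 : IsCoprime i m := by
    rw [e]
    exact IsCoprime.add_mul_right_left hc' k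
  have h4 : IsCoprime i 4 := by
    have := IsCoprime.mul_right h1 h1
    norm_num at this
    exact this
  exact IsCoprime.mul_right h4 h2

theorem caseL2 (T : Tri N p q) (S : Surv N p q) (hp : p = 4) (h4 : 4 ∣ N) (h8 : ¬ 8 ∣ N) :
    False := by
  subst hp
  have hqo : ¬ (2 : ℤ) ∣ q := fun h => T.hg 2 Nat.prime_two (by norm_num) (by exact_mod_cast h)
    (by exact_mod_cast (dvd_trans (by norm_num) h4))
  have hpq := T.hpq
  have hN := T.hN
  by_cases h6 : N < 6 * q
  · exact Y1 T S h4 (by norm_num) h6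
  obtain ⟨m, rfl⟩ := h4
  have hmo : ¬ (2 : ℤ) ∣ m := by
    rintro ⟨b, rfl⟩
    exact h8 ⟨b, by ring⟩
  obtain ⟨b, hb⟩ : ∃ b, m = 2 * b + 1 := ⟨m / 2, by omega⟩
  obtain ⟨a, ha⟩ : ∃ a, q = 2 * a + 1 := ⟨q / 2, by omega⟩
  have hq5 : 5 ≤ q := by omega
  have hm9 : 9 ≤ m := by omega
  have hc2 : IsCoprime (2 : ℤ) m := ⟨-b, 1, by rw [hb]; ring⟩
  have hc4 : IsCoprime (4 : ℤ) m := by
    have := IsCoprime.mul_left hc2 hc2
    norm_num at this
    exact this
  have hsq : ∃ c, q * q = 4 * c + 1 := ⟨a * a + a, by rw [ha]; ring⟩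
  obtain ⟨c, hc⟩ := hsq
  have hqm : ∃ d, q * m = 2 * d + 1 := ⟨2 * a * b + a + b, by rw [ha, hb]; ring⟩
  obtain ⟨d, hd⟩ := hqm
  by_cases h1 : 2 * q < m
  · by_cases h2 : 2 * q < m - 8
    · -- R132
      have hi : IsCoprime (2 + q * m) (4 * m) :=
        NTL2_cop ⟨d + 1, by rw [hd]; ring⟩ hc2 rfl
      have hw : Wt (4 * m) 4 q (2 + q * m) 8 (2 * q + m) (3 * m - 8 - 2 * q) := by
        refine ⟨⟨q, by ring⟩, ⟨c, ?_⟩, by norm_num, by linarith, by linarith, by ring⟩
        linear_combination m * hc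
      refine R132_test T S (Or.inl hi) hw ?_ (by norm_num) (by norm_num) (by linarith)
        (by linarith) (by norm_num)
      rintro ⟨k, hk⟩
      have hk' : 2 * m * (q - 2 * k) = 0 := by linear_combination hk
      have : q - 2 * k = 0 := by
        rcases mul_eq_zero.1 hk' with h | h
        · omega
        · exact h
      exact hqo ⟨k, by linarith⟩
    · -- C
      have hi : IsCoprime (4 - q * m) (4 * m) :=
        NTL2_cop (k := -q) ⟨1 - d, by rw [hd]; ring⟩ hc4 (by ring)
      have h3 : m - 8 < 2 * q := by omega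
      have hw : Wt (4 * m) 4 q (4 - q * m) 16 (4 * q - m) (5 * m - 16 - 4 * q) := by
        refine ⟨⟨-q, by ring⟩, ⟨-c, ?_⟩, by norm_num, by linarith, by linarith, by ring⟩
        linear_combination (-m) * hc
      refine C_test T S hi hw ?_ (Or.inr (Or.inr ⟨by linarith, by linarith⟩))
      rintro ⟨k, hk⟩
      have hk' : m ∣ 6 := ⟨4 * k + 2 * q, by linear_combination hk⟩
      have := Int.le_of_dvd (by norm_num) hk'
      linarith
  · -- Phi3
    have h2 : m < 2 * q := by omega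
    have hi : IsCoprime (2 + q * m) (4 * m) :=
      NTL2_cop ⟨d + 1, by rw [hd]; ring⟩ hc2 rfl
    have hw : Wt (4 * m) 4 q (2 + q * m) 8 (2 * q + m) (3 * m - 8 - 2 * q) := by
      refine ⟨⟨q, by ring⟩, ⟨c, ?_⟩, by norm_num, by linarith, by linarith, by ring⟩
      linear_combination m * hc
    have h := Phi3_test T S (Or.inl hi) hw ?_ (by linarith) (by norm_num) (by norm_num)
      (by linarith) (by linarith)
    · have h5 : 4 * (q * q) = 4 * (2 * (2 * (m - q))) := by linear_combination -h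
      omega
    · rintro ⟨k, hk⟩
      have hk' : 2 * m * (q - 2 * k) = 0 := by linear_combination hk
      have : q - 2 * k = 0 := by
        rcases mul_eq_zero.1 hk' with h | h
        · omega
        · exact h
      exact hqo ⟨k, by linarith⟩

end Pool.Agent.OBT.NT
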