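import Mathlib
import Pool.Agent.OBT.NT0
import Pool.Agent.OBT.NTY

/-!
# `A3 = 2`, `4 ∣ N`
-/

namespace Pool.Agent.OBT.NT

variable {N p q : ℤ}

theorem NTL3_coprime_seven {a : ℤ} (h : ¬ 7 ∣ a) : IsCoprime a 7 := by
  have h7 : Prime (7 : ℤ) := by
    rw [Int.prime_iff_natAbs_prime]
    norm_num
  exact ((h7.coprime_iff_not_dvd).2 h).symm

/-- the family `(2k-1, 4k, 12k)` -/
theorem NTL3_second (k : ℤ) (hk : 2 ≤ k) (S : Surv (12 * k) (2 * k - 1) (4 * k)) : False := by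
  rcases eq_or_ne k 2 with h2 | h2
  · subst h2
    exact S.k3e ⟨by norm_num, by norm_num, by norm_num⟩
  rcases eq_or_ne k 3 with h3 | h3
  · subst h3
    exact S.k3f ⟨by norm_num, by norm_num, by norm_num⟩
  have hk4 : 4 ≤ k := by omega
  by_cases h7 : 7 ∣ k
  · obtain ⟨t, rfl⟩ := h7
    have ht : 1 ≤ t := by omega
    have w1 : Wt (12 * (7 * t)) (2 * (7 * t) - 1) (4 * (7 * t)) (1 + 6 * t) (8 * t - 1) (28 * t)
        (48 * t + 1) :=
      ⟨⟨t, by ring⟩, ⟨2 * t, by ring⟩, by linarith, by linarith, by linarith, by ring⟩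
    have w2 : Wt (12 * (7 * t)) (2 * (7 * t) - 1) (4 * (7 * t)) (1 - 6 * t) (20 * t - 1) (28 * t)
        (36 * t + 1) :=
      ⟨⟨-t, by ring⟩, ⟨-2 * t, by ring⟩, by linarith, by linarith, by linarith, by ring⟩
    by_cases h8 : 7 ∣ 1 + 6 * t
    · have h9 : ¬ 7 ∣ 1 - 6 * t := by omega
      have hc : IsCoprime (1 - 6 * t) (12 * (7 * t)) := by
        have h1 : IsCoprime (1 - 6 * t) (12 * t) := ⟨1 + 6 * t, 3 * t, by ring⟩
        have h2 := IsCoprime.mul_right (NTL3_coprime_seven h9) h1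
        have e : 7 * (12 * t) = 12 * (7 * t) := by ring
        rwa [e] at h2
      have h1 := S.k1 _ _ _ _ _ _ _ _ hc w2 w1 ⟨0, by ring⟩
      have h2 : 12 * (7 * t) ∣ 12 * t := by
        have h3 := (dvd_neg).2 h1
        have e : -(1 - 6 * t - (1 + 6 * t)) = 12 * t := by ring
        rwa [e] at h3
      exact not_dvd_of (by linarith) (by linarith) h2
    · have hc : IsCoprime (1 + 6 * t) (12 * (7 * t)) := by
        have h1 : IsCoprime (1 + 6 * t) (12 * t) := ⟨1 - 6 * t, 3 * t, by ring⟩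
        have h2 := IsCoprime.mul_right (NTL3_coprime_seven h8) h1
        have e : 7 * (12 * t) = 12 * (7 * t) := by ring
        rwa [e] at h2
      have h1 := S.k1 _ _ _ _ _ _ _ _ hc w1 w2 ⟨0, by ring⟩
      have h2 : 12 * (7 * t) ∣ 12 * t := by
        have e : 1 + 6 * t - (1 - 6 * t) = 12 * t := by ring
        rwa [e] at h1
      exact not_dvd_of (by linarith) (by linarith) h2
  · have w1 : Wt (12 * k) (2 * k - 1) (4 * k) 7 (2 * k - 7) (4 * k) (6 * k + 7) :=
      ⟨⟨1, by ring⟩, ⟨2, by ring⟩, by linarith, by linarith, by linarith, by ring⟩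
    have w2 : Wt (12 * k) (2 * k - 1) (4 * k) (-5) (2 * k + 5) (4 * k) (6 * k - 5) :=
      ⟨⟨-1, by ring⟩, ⟨-2, by ring⟩, by linarith, by linarith, by linarith, by ring⟩
    have hc : IsCoprime (7 : ℤ) (12 * k) := (NTL3_coprime_seven (a := 12 * k) (by omega)).symm
    have h1 := S.k1 _ _ _ _ _ _ _ _ hc w1 w2 ⟨0, by ring⟩
    exact not_dvd_of (by norm_num) (by linarith) h1

theorem caseL3 (T : Tri N p q) (S : Surv N p q) (hp : 2 ≤ p) (h4 : 4 ∣ N)
    (hA : N - 2 * p - 2 * q = 2) : False := by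
  have hpq := T.hpq
  by_cases hp2 : 2 ∣ p
  · exact Y1 T S h4 hp2 (by omega)
  have hq2 : 2 ∣ q := by omega
  by_cases h6 : N < 6 * p
  · exact Y2 T S h4 hq2 h6
  by_cases h3 : N < 3 * q
  · exact X_test T S h4 hq2 h3 (by omega)
  have hcase : (N = 6 * p + 2 ∧ q = 2 * p) ∨ (∃ k, p = 2 * k - 1 ∧ q = 4 * k ∧ N = 12 * k) := by
    have : N = 6 * p + 2 ∨ N = 6 * p + 6 := by omega
    rcases this with h | h
    · left
      omega
    · right
      refine ⟨(p + 1) / 2, by omega, by omega, by omega⟩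
  rcases hcase with ⟨hN, hq⟩ | ⟨k, h1, h2, h5⟩
  · subst hq
    subst hN
    obtain ⟨m, hm⟩ : ∃ m, p = 2 * m + 1 := ⟨p / 2, by omega⟩
    have hc : IsCoprime (3 * p - 2) (6 * p + 2) := by
      rw [hm]
      exact ⟨1 + 2 * m, -m, by ring⟩
    have hw : Wt (6 * p + 2) p (2 * p) (3 * p - 2) 1 2 (6 * p - 1) := by
      rw [hm]
      exact ⟨⟨m, by ring⟩, ⟨2 * m, by ring⟩, by norm_num, by norm_num, by omega, by ring⟩
    refine C_test T S hc hw ?_ (Or.inl ⟨by omega, by omega⟩)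
    exact not_dvd_of (by omega) (by omega)
  · subst h1
    subst h2
    subst h5
    exact NTL3_second k (by omega) S

end Pool.Agent.OBT.NT
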