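import Mathlib
import Pool.Agent.OBT.NTA1
import Pool.Agent.OBT.NTA2
import Pool.Agent.OBT.NTL1
import Pool.Agent.OBT.NTL2
import Pool.Agent.OBT.NTL3
import Pool.Agent.OBT.NTB
import Pool.Agent.OBT.NTBp1
import Pool.Agent.OBT.NTBp2

/-!
# Number theory for `p ≥ 2`
-/

namespace Pool.Agent.OBT.NT

variable {N p q : ℤ}

/-- **Part 2a.** Only the triangles with `p = 2`, `N = 2 M` even and `5 ≤ q ≤ M - 4` odd survive. -/
theorem nt_main (T : Tri N p q) (S : Surv N p q) (hp : 2 ≤ p) :
    p = 2 ∧ ∃ M : ℤ, N = 2 * M ∧ ¬ 2 ∣ q ∧ 5 ≤ q ∧ q ≤ M - 4 := by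
  have hN := T.hN
  have hpq := T.hpq
  have hN0 : 0 < N := by linarith
  by_cases h1 : p = 2 ∧ 2 ∣ N
  · obtain ⟨M, hM⟩ := h1.2
    exact ⟨h1.1, M, hM, caseL1 T S h1.1 hM⟩
  exfalso
  by_cases hA : 2 * p ≤ N - 2 * p - 2 * q
  · -- case A
    by_cases hpN : p ∣ N
    · have hp3 : 3 ≤ p := by
        by_contra hc
        have : p = 2 := by omega
        exact h1 ⟨this, this ▸ hpN⟩
      by_cases h4 : p = 4 ∧ ¬ 8 ∣ N
      · exact caseL2 T S h4.1 (h4.1 ▸ hpN) h4.2
      · exact caseA2 T S hA hp3 hpN (fun h => by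
          by_contra h8
          exact h4 ⟨h, h8⟩)
    · exact caseA1 T S hA hp hpN
  · rw [not_le] at hA
    -- case B
    obtain ⟨d, hd⟩ : ∃ d : ℤ, d = (Int.gcd (N - p - q) N : ℤ) := ⟨_, rfl⟩
    have hdpos : 0 < d := by
      rw [hd]
      exact_mod_cast Int.gcd_pos_of_ne_zero_right _ hN0.ne'
    have hdN : d ∣ N := hd ▸ Int.gcd_dvd_right _ _
    have hdp3 : d ∣ N - p - q := hd ▸ Int.gcd_dvd_left _ _
    have hdA : d ∣ N - 2 * p - 2 * q := by
      have := dvd_sub (hdp3.mul_left 2) hdN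
      have e : 2 * (N - p - q) - N = N - 2 * p - 2 * q := by ring
      rwa [e] at this
    have hA3 : 0 < N - 2 * p - 2 * q := by linarith
    have hle := Int.le_of_dvd hA3 hdA
    rcases lt_or_eq_of_le hle with hlt | heq
    · by_cases h3 : 3 ≤ d ∨ (d = 2 ∧ 4 ∣ N)
      · by_cases hex : 4 ∣ N ∧ N - 2 * p - 2 * q = 2 * d ∧ ¬ 2 ∣ d
        · have hd3 : 3 ≤ d := by
            rcases h3 with h | h
            · exact h
            · exact absurd (h.1 ▸ dvd_refl (2 : ℤ)) hex.2.2
          by_cases h9 : d = 3 ∧ ¬ 9 ∣ N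
          · exact caseB3 T S hA hd hlt (Or.inr (Or.inr ⟨h9.1, hex.1, by rw [hex.2.1, h9.1]; norm_num, h9.2⟩))
          · exact caseB2 T S hA hd hd3 hex.1 hex.2.1 hex.2.2 h9
        · exact caseB1 T S hA hd hlt h3 hex
      · have hd12 : d = 1 ∨ (d = 2 ∧ ¬ 4 ∣ N) := by
          by_cases h2 : d = 2
          · right
            exact ⟨h2, fun h => h3 (Or.inr ⟨h2, h⟩)⟩
          · left
            have : d < 3 := lt_of_not_ge fun h => h3 (Or.inl h)
            omega
        rcases hd12 with hd1 | hd2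
        · by_cases hL3 : N - 2 * p - 2 * q = 2 ∧ 4 ∣ N
          · exact caseL3 T S hp hL3.2 hL3.1
          · exact caseB3 T S hA hd hlt (Or.inl ⟨hd1, hL3⟩)
        · exact caseB3 T S hA hd hlt (Or.inr (Or.inl hd2))
    · -- case B'
      obtain ⟨m, hm⟩ := hdN
      have hm2 : ¬ 2 ∣ m := by
        intro h
        obtain ⟨k, hk⟩ := h
        -- `p3 = d (m + 1) / 2` would not be an integer multiple of `d`
        obtain ⟨c, hc⟩ := hdp3
        have e1 : 2 * (N - p - q) = N + d := by linarith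
        rw [hc, hm, hk] at e1
        have e2 : 2 * c = 2 * k + 1 := by
          have : d * (2 * c) = d * (2 * k + 1) := by linarith
          exact mul_left_cancel₀ hdpos.ne' this
        omega
      by_cases e1 : d = 1
      · exact caseBp_one T S hp (by rw [← heq, e1])
      by_cases e2 : d = 2
      · exact caseBp_two T S hp (by rw [← heq, e2]) (by rw [hm, e2]) hm2
      by_cases e3 : d = 3
      · exact caseBp_three T S (by linarith) (by rw [← heq, e3]) (by rw [hm, e3]) hm2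
      by_cases e4 : d = 4
      · exact caseBp_four T S (by linarith) (by rw [← heq, e4]) (by rw [hm, e4]) hm2
      by_cases e6 : d = 6
      · exact caseBp_six T S (by linarith) (by rw [← heq, e6]) (by rw [hm, e6]) hm2
      exact caseBp_big T S heq hm hm2 (by linarith) e1 e2 e3 e4 e6

end Pool.Agent.OBT.NT
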