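import Mathlib
import Pool.Agent.OBT.Kill
import Pool.Agent.OBT.Kill3
import Pool.Agent.OBT.NTMain

/-!
# Lattice triangles survive the tests
-/

open scoped ComplexConjugate Topology Real
open MeasureTheory Filter

namespace Pool.Agent.OBT

open NT

variable {N p q : ℕ}

theorem NTBridge_emod {N : ℕ} (hN : 0 < N) {a w : ℤ} (h : (N : ℤ) ∣ a - w) (h0 : 0 < w)
    (h1 : w < N) : a % N = w := by
  have h2 : w ≡ a [ZMOD N] := Int.modEq_iff_dvd.2 h
  have h3 : a % N = w % N := h2.symm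
  rw [h3, Int.emod_eq_of_lt h0.le h1]

/-- the natural residue -/
def nres (N : ℕ) (i : ℤ) : ℕ := (i % N).toNat

theorem nres_cast {N : ℕ} (hN : 0 < N) (i : ℤ) : ((nres N i : ℕ) : ℤ) = i % N :=
  Int.toNat_of_nonneg (Int.emod_nonneg _ (by exact_mod_cast hN.ne'))

theorem nres_dvd {N : ℕ} (hN : 0 < N) (i : ℤ) : (N : ℤ) ∣ ((nres N i : ℕ) : ℤ) - i := by
  rw [nres_cast hN]
  have : (N : ℤ) ∣ i - i % N := Int.dvd_self_sub_emod
  rw [← neg_sub]
  exact this.neg_right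

theorem nres_coprime {N : ℕ} (hN : 0 < N) {i : ℤ} (h : IsCoprime i (N : ℤ)) :
    Nat.Coprime (nres N i) N := by
  rw [← Nat.isCoprime_iff_coprime]
  obtain ⟨k, hk⟩ := nres_dvd hN i
  have e : ((nres N i : ℕ) : ℤ) = i + N * k := by linarith
  rw [e]
  exact h.add_mul_left_left k

theorem WW_eq {i : ℕ} {w : ℤ} (hN : 0 < N) (k : Fin 3)
    (h : (N : ℤ) ∣ (i : ℤ) * (PP N p q k : ℕ) - w) (h0 : 0 < w) (h1 : w < N) :
    ((WW N p q i k : ℕ) : ℤ) = w := by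
  unfold WW
  push_cast
  exact NTBridge_emod hN h h0 h1

theorem PP_two (hN : p + q ≤ N) : ((PP N p q 2 : ℕ) : ℤ) = N - p - q := by
  show ((N - p - q : ℕ) : ℤ) = N - p - q
  omega

theorem Wt_WW (hN : 2 * (p + q) < N) {i w1 w2 w3 : ℤ} (h : Wt N p q i w1 w2 w3) :
    ((WW N p q (nres N i) 0 : ℕ) : ℤ) = w1 ∧ ((WW N p q (nres N i) 1 : ℕ) : ℤ) = w2 ∧
      ((WW N p q (nres N i) 2 : ℕ) : ℤ) = w3 := by
  have hN0 : 0 < N := by omega
  obtain ⟨k, hk⟩ := nres_dvd hN0 i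
  have e : ((nres N i : ℕ) : ℤ) = i + N * k := by linarith
  refine ⟨?_, ?_, ?_⟩
  · apply WW_eq hN0 0 _ h.p1 h.lt.1
    obtain ⟨l, hl⟩ := h.d1
    refine ⟨k * p + l, ?_⟩
    show ((nres N i : ℕ) : ℤ) * ((p : ℕ) : ℤ) - w1 = _
    rw [e]
    linear_combination hl
  · apply WW_eq hN0 1 _ h.p2 h.lt.2.1
    obtain ⟨l, hl⟩ := h.d2
    refine ⟨k * q + l, ?_⟩
    show ((nres N i : ℕ) : ℤ) * ((q : ℕ) : ℤ) - w2 = _
    rw [e]
    linear_combination hl
  · apply WW_eq hN0 2 _ h.p3 h.lt.2.2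
    obtain ⟨l, hl⟩ := h.d1
    obtain ⟨l', hl'⟩ := h.d2
    have hs := h.sum
    rw [PP_two (by omega), e]
    refine ⟨i - l - l' - 1 + k * (N - p - q), ?_⟩
    linear_combination -hl - hl' - hs

theorem Wt_Hol (hN : 2 * (p + q) < N) {i w1 w2 w3 : ℤ} (h : Wt N p q i w1 w2 w3) :
    Hol N p q (nres N i) := by
  rw [hol_iff hN]
  obtain ⟨h1, h2, h3⟩ := Wt_WW hN h
  have p1 := h.p1
  have p2 := h.p2
  have p3 := h.p3
  have hs := h.sum
  constructor
  · intro k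
    fin_cases k
    · show 0 < WW N p q (nres N i) 0
      omega
    · show 0 < WW N p q (nres N i) 1
      omega
    · show 0 < WW N p q (nres N i) 2
      omega
  · omega

theorem nres_not_modEq (hN : 0 < N) {i j : ℤ} (h : ¬ (N : ℤ) ∣ i - j) :
    ¬ nres N i ≡ nres N j [MOD N] := by
  intro h1
  apply h
  have h2 := (Nat.modEq_iff_dvd.1 h1)
  have h3 := nres_dvd hN i
  have h4 := nres_dvd hN j
  have e : i - j = ((nres N j : ℕ) : ℤ) - j - (((nres N i : ℕ) : ℤ) - i) -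
      (((nres N j : ℕ) : ℤ) - ((nres N i : ℕ) : ℤ)) := by ring
  rw [e]
  exact dvd_sub (dvd_sub h4 h3) h2

theorem nres_sum (hN : 0 < N) {i j : ℤ} (s : ℕ) (h : (N : ℤ) ∣ i + j - s) :
    nres N i + nres N j ≡ s [MOD N] := by
  apply Nat.modEq_iff_dvd.2
  have h3 := nres_dvd hN i
  have h4 := nres_dvd hN j
  have e : ((s : ℕ) : ℤ) - ((nres N i + nres N j : ℕ) : ℤ) =
      -(i + j - s) - (((nres N j : ℕ) : ℤ) - j) - (((nres N i : ℕ) : ℤ) - i) := by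
    push_cast
    ring
  rw [e]
  exact dvd_sub (dvd_sub h.neg_right h4) h3

theorem AA_two (hN : 2 * (p + q) < N) : ((AA N p q 2 : ℕ) : ℤ) = N - 2 * p - 2 * q := by
  show ((N - 2 * p - 2 * q : ℕ) : ℤ) = N - 2 * p - 2 * q
  omega

theorem NTBridge_hu (hN : 0 < N) {i j : ℤ} (h : IsCoprime i (N : ℤ) ∨ IsCoprime j (N : ℤ)) :
    Nat.Coprime (nres N i) N ∨ Nat.Coprime (nres N j) N :=
  h.imp (nres_coprime hN) (nres_coprime hN)

/-- the value of the test of order two, `be = 0` -/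
theorem K2v_zero (hN : 2 * (p + q) < N) {i j : ℕ} {w2 w3 v2 v3 : ℤ}
    (h1 : ((WW N p q i 1 : ℕ) : ℤ) = w2) (h2 : ((WW N p q i 2 : ℕ) : ℤ) = w3)
    (h1' : ((WW N p q j 1 : ℕ) : ℤ) = v2) (h2' : ((WW N p q j 2 : ℕ) : ℤ) = v3) :
    K2v N p q i j 0 =
    (if w2 + v2 = 4 * q then ((p : ℤ) + q) ^ 2 * (q - v2) else 0) +
    (if w3 + v3 = 2 * (N - 2 * p - 2 * q) then (q : ℤ) ^ 2 * (N - p - q - v3) else 0) := by
  have ha := AA_two hN
  have hp := PP_two (N := N) (p := p) (q := q) (by omega)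
  unfold K2v
  rw [Fin.sum_univ_three, if_neg (fun h => h.1 rfl), zero_add]
  congr 1
  · have e : (((1 : Fin 3) ≠ 0 ∧ WW N p q i 1 + WW N p q j 1 = 2 * AA N p q 1)) ↔
        w2 + v2 = 4 * q := by
      have : AA N p q 1 = 2 * q := rfl
      rw [this]
      constructor
      · rintro ⟨-, h⟩
        omega
      · intro h
        exact ⟨by decide, by omega⟩
    rw [← h1']
    have e1 : CC p q (-(1 + 0)) = (p : ℤ) + q := rfl
    have e2 : ((PP N p q 1 : ℕ) : ℤ) = q := rfl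
    rw [e1, e2]
    by_cases hc : w2 + v2 = 4 * q
    · rw [if_pos (e.2 hc), if_pos (by rw [h1']; exact hc)]
    · rw [if_neg (fun h => hc (e.1 h)), if_neg (by rw [h1']; exact hc)]
  · have e : (((2 : Fin 3) ≠ 0 ∧ WW N p q i 2 + WW N p q j 2 = 2 * AA N p q 2)) ↔
        w3 + v3 = 2 * (N - 2 * p - 2 * q) := by
      constructor
      · rintro ⟨-, h⟩
        omega
      · intro h
        exact ⟨by decide, by omega⟩
    rw [← h2']
    have e1 : CC p q (-(2 + 0)) = (q : ℤ) := rfl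
    rw [e1, hp]
    by_cases hc : w3 + v3 = 2 * (N - 2 * p - 2 * q)
    · rw [if_pos (e.2 hc), if_pos (by rw [h2']; exact hc)]
    · rw [if_neg (fun h => hc (e.1 h)), if_neg (by rw [h2']; exact hc)]

/-- the value of the test of order two, `be = 1` -/
theorem K2v_one (hN : 2 * (p + q) < N) {i j : ℕ} {w1 w3 v1 v3 : ℤ}
    (h1 : ((WW N p q i 0 : ℕ) : ℤ) = w1) (h2 : ((WW N p q i 2 : ℕ) : ℤ) = w3)
    (h1' : ((WW N p q j 0 : ℕ) : ℤ) = v1) (h2' : ((WW N p q j 2 : ℕ) : ℤ) = v3) :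
    K2v N p q i j 1 =
    (if w1 + v1 = 4 * p then ((p : ℤ) + q) ^ 2 * (p - v1) else 0) +
    (if w3 + v3 = 2 * (N - 2 * p - 2 * q) then (p : ℤ) ^ 2 * (N - p - q - v3) else 0) := by
  have ha := AA_two hN
  have hp := PP_two (N := N) (p := p) (q := q) (by omega)
  unfold K2v
  rw [Fin.sum_univ_three]
  have e0 : (if (1 : Fin 3) ≠ 1 ∧ WW N p q i 1 + WW N p q j 1 = 2 * AA N p q 1 then
    CC p q (-(1 + 1)) ^ 2 * ((PP N p q 1 : ℤ) - WW N p q j 1) else 0) = 0 :=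
    if_neg (fun h => h.1 rfl)
  rw [e0, add_zero]
  congr 1
  · have e : (((0 : Fin 3) ≠ 1 ∧ WW N p q i 0 + WW N p q j 0 = 2 * AA N p q 0)) ↔
        w1 + v1 = 4 * p := by
      have : AA N p q 0 = 2 * p := rfl
      rw [this]
      constructor
      · rintro ⟨-, h⟩
        omega
      · intro h
        exact ⟨by decide, by omega⟩
    rw [← h1']
    have e1 : CC p q (-(0 + 1)) = (p : ℤ) + q := rfl
    have e2 : ((PP N p q 0 : ℕ) : ℤ) = p := rfl
    rw [e1, e2]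
    by_cases hc : w1 + v1 = 4 * p
    · rw [if_pos (e.2 hc), if_pos (by rw [h1']; exact hc)]
    · rw [if_neg (fun h => hc (e.1 h)), if_neg (by rw [h1']; exact hc)]
  · have e : (((2 : Fin 3) ≠ 1 ∧ WW N p q i 2 + WW N p q j 2 = 2 * AA N p q 2)) ↔
        w3 + v3 = 2 * (N - 2 * p - 2 * q) := by
      constructor
      · rintro ⟨-, h⟩
        omega
      · intro h
        exact ⟨by decide, by omega⟩
    rw [← h2']
    have e1 : CC p q (-(2 + 1)) = (p : ℤ) := rfl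
    rw [e1, hp]
    by_cases hc : w3 + v3 = 2 * (N - 2 * p - 2 * q)
    · rw [if_pos (e.2 hc), if_pos (by rw [h2']; exact hc)]
    · rw [if_neg (fun h => hc (e.1 h)), if_neg (by rw [h2']; exact hc)]

/-- the value of the test of order two, `be = 2` -/
theorem K2v_two {i j : ℕ} {w1 w2 v1 v2 : ℤ}
    (h1 : ((WW N p q i 0 : ℕ) : ℤ) = w1) (h2 : ((WW N p q i 1 : ℕ) : ℤ) = w2)
    (h1' : ((WW N p q j 0 : ℕ) : ℤ) = v1) (h2' : ((WW N p q j 1 : ℕ) : ℤ) = v2) :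
    K2v N p q i j 2 =
    (if w1 + v1 = 4 * p then (q : ℤ) ^ 2 * (p - v1) else 0) +
    (if w2 + v2 = 4 * q then (p : ℤ) ^ 2 * (q - v2) else 0) := by
  unfold K2v
  rw [Fin.sum_univ_three]
  have e0 : (if (2 : Fin 3) ≠ 2 ∧ WW N p q i 2 + WW N p q j 2 = 2 * AA N p q 2 then
    CC p q (-(2 + 2)) ^ 2 * ((PP N p q 2 : ℤ) - WW N p q j 2) else 0) = 0 :=
    if_neg (fun h => h.1 rfl)
  rw [e0, add_zero]
  congr 1
  · have e : (((0 : Fin 3) ≠ 2 ∧ WW N p q i 0 + WW N p q j 0 = 2 * AA N p q 0)) ↔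
        w1 + v1 = 4 * p := by
      have : AA N p q 0 = 2 * p := rfl
      rw [this]
      constructor
      · rintro ⟨-, h⟩
        omega
      · intro h
        exact ⟨by decide, by omega⟩
    rw [← h1']
    have e1 : CC p q (-(0 + 2)) = (q : ℤ) := rfl
    have e2 : ((PP N p q 0 : ℕ) : ℤ) = p := rfl
    rw [e1, e2]
    by_cases hc : w1 + v1 = 4 * p
    · rw [if_pos (e.2 hc), if_pos (by rw [h1']; exact hc)]
    · rw [if_neg (fun h => hc (e.1 h)), if_neg (by rw [h1']; exact hc)]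
  · have e : (((1 : Fin 3) ≠ 2 ∧ WW N p q i 1 + WW N p q j 1 = 2 * AA N p q 1)) ↔
        w2 + v2 = 4 * q := by
      have : AA N p q 1 = 2 * q := rfl
      rw [this]
      constructor
      · rintro ⟨-, h⟩
        omega
      · intro h
        exact ⟨by decide, by omega⟩
    rw [← h2']
    have e1 : CC p q (-(1 + 2)) = (p : ℤ) := rfl
    have e2 : ((PP N p q 1 : ℕ) : ℤ) = q := rfl
    rw [e1, e2]
    by_cases hc : w2 + v2 = 4 * q
    · rw [if_pos (e.2 hc), if_pos (by rw [h2']; exact hc)]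
    · rw [if_neg (fun h => hc (e.1 h)), if_neg (by rw [h2']; exact hc)]

/-- the test of order one -/
theorem surv_k1 (hp : 0 < p) (hq : 0 < q) (hN : 2 * (p + q) < N)
    (hg : Nat.gcd (Nat.gcd p q) N = 1) (hL : LatticeTriangle (TN N p q))
    {i j w1 w2 w3 v1 v2 v3 : ℤ} (hi : IsCoprime i (N : ℤ)) (hw : Wt N p q i w1 w2 w3)
    (hv : Wt N p q j v1 v2 v3) (hs : (N : ℤ) ∣ i + j - 2) : (N : ℤ) ∣ i - j := by
  by_contra hc
  have hN0 : 0 < N := by omega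
  exact kill1 hp hq hN hg (Or.inl (nres_coprime hN0 hi)) (Wt_Hol hN hw) (Wt_Hol hN hv)
    (nres_not_modEq hN0 hc) (nres_sum hN0 2 (by exact_mod_cast hs)) hL

theorem surv_k2 (hp : 0 < p) (hq : 0 < q) (hN : 2 * (p + q) < N)
    (hg : Nat.gcd (Nat.gcd p q) N = 1) (hL : LatticeTriangle (TN N p q))
    {i j w1 w2 w3 v1 v2 v3 : ℤ} (hi : IsCoprime i (N : ℤ) ∨ IsCoprime j (N : ℤ))
    (hw : Wt N p q i w1 w2 w3)
    (hv : Wt N p q j v1 v2 v3) (hs : (N : ℤ) ∣ i + j - 4) (hij : ¬ (N : ℤ) ∣ i - j) (be : Fin 3)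
    (hA : ∀ k, k ≠ be → AA N p q k ≤ WW N p q (nres N i) k) :
    K2v N p q (nres N i) (nres N j) be = 0 := by
  by_contra hc
  have hN0 : 0 < N := by omega
  exact kill2 hp hq hN hg (NTBridge_hu hN0 hi) (Wt_Hol hN hw) (Wt_Hol hN hv)
    (nres_not_modEq hN0 hij) (nres_sum hN0 4 (by exact_mod_cast hs)) be hA hc hL

end Pool.Agent.OBT
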