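import Mathlib
import Pool.Agent.OBT.NTBridge

/-!
# Lattice triangles survive the tests of order three
-/

open scoped ComplexConjugate Topology Real
open MeasureTheory Filter

namespace Pool.Agent.OBT

open NT

variable {N p q : ℕ}

theorem NTBridge3_castQ {a : ℕ} {w : ℤ} (h : ((a : ℕ) : ℤ) = w) : ((a : ℕ) : ℚ) = w := by
  rw [← h]
  push_cast
  rfl

/-- value of the test: both inactive vertices are `1` -/
theorem K3v_one_one (hp : 0 < p) (hN : 2 * (p + q) < N) {i j : ℕ} {w1 w3 v1 v3 : ℤ} (n1 : ℤ)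
    (h1 : ((WW N p q i 0 : ℕ) : ℤ) = w1) (h2 : ((WW N p q i 2 : ℕ) : ℤ) = w3)
    (h1' : ((WW N p q j 0 : ℕ) : ℤ) = v1) (h2' : ((WW N p q j 2 : ℕ) : ℤ) = v3)
    (e3 : v3 = N - 2 * p - 2 * q) (e3' : w3 = 2 * (N - 2 * p - 2 * q))
    (hc : w1 + v1 ≠ 6 * p ∨ (w1 = 4 * p ∧ v1 = 2 * p)) :
    K3v N p q i j 1 1 n1 ≠ 0 := by
  have ha := AA_two hN
  have hP := PP_two (N := N) (p := p) (q := q) (by omega)
  have hNQ : (N : ℚ) ≠ 0 := by
    have : N ≠ 0 := by omega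
    exact_mod_cast this
  have hpQ : (0 : ℚ) < p := by exact_mod_cast hp
  have hrQ : (0 : ℚ) < N - p - q := by
    have : (2 * (p + q) : ℚ) < N := by exact_mod_cast hN
    have : (0 : ℚ) ≤ q := by positivity
    linarith
  have hsQ : (0 : ℚ) < p + q := by positivity
  have c1 := NTBridge3_castQ h1
  have c2 := NTBridge3_castQ h2
  have c1' := NTBridge3_castQ h1'
  have c2' := NTBridge3_castQ h2'
  have cA := NTBridge3_castQ ha
  have cP := NTBridge3_castQ hP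
  have cA0 : ((AA N p q 0 : ℕ) : ℚ) = 2 * p := by
    show ((2 * p : ℕ) : ℚ) = 2 * p
    push_cast
    ring
  have cP0 : ((PP N p q 0 : ℕ) : ℚ) = p := rfl
  unfold K3v
  rw [Fin.sum_univ_three]
  have t1 : (if (1 : Fin 3) ≠ 1 ∧ WW N p q i 1 + WW N p q j 1 = 3 * AA N p q 1 then
    (![1, 1, (-1) ^ n1] : Fin 3 → ℚ) 1 * GG N p q 1 1 ^ 2 *
      (-(GG N p q 1 1 * ((WW N p q j 1 : ℚ) / N - (PP N p q 1 : ℚ) / N) *
          ((WW N p q i 1 : ℚ) / N - (PP N p q 1 : ℚ) / N +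
            3 * ((PP N p q 1 : ℚ) / N - (AA N p q 1 : ℚ) / N)) / 6) +
        GG N p q 1 1 * ((WW N p q i 1 : ℚ) / N - (PP N p q 1 : ℚ) / N +
            2 * ((PP N p q 1 : ℚ) / N - (AA N p q 1 : ℚ) / N)) *
          ((WW N p q j 1 : ℚ) / N - (PP N p q 1 : ℚ) / N +
            ((PP N p q 1 : ℚ) / N - (AA N p q 1 : ℚ) / N)) / 2)
  else 0) = 0 := if_neg (fun h => h.1 rfl)
  rw [t1, add_zero]
  have t0 : (if (0 : Fin 3) ≠ 1 ∧ WW N p q i 0 + WW N p q j 0 = 3 * AA N p q 0 then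
    (![1, 1, (-1) ^ n1] : Fin 3 → ℚ) 0 * GG N p q 1 0 ^ 2 *
      (-(GG N p q 1 0 * ((WW N p q j 0 : ℚ) / N - (PP N p q 0 : ℚ) / N) *
          ((WW N p q i 0 : ℚ) / N - (PP N p q 0 : ℚ) / N +
            3 * ((PP N p q 0 : ℚ) / N - (AA N p q 0 : ℚ) / N)) / 6) +
        GG N p q 1 0 * ((WW N p q i 0 : ℚ) / N - (PP N p q 0 : ℚ) / N +
            2 * ((PP N p q 0 : ℚ) / N - (AA N p q 0 : ℚ) / N)) *
          ((WW N p q j 0 : ℚ) / N - (PP N p q 0 : ℚ) / N +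
            ((PP N p q 0 : ℚ) / N - (AA N p q 0 : ℚ) / N)) / 2)
  else 0) = 0 := by
    split_ifs with hif
    · have hA0 : AA N p q 0 = 2 * p := rfl
      rcases hc with hc | hc
      · exfalso
        apply hc
        have := hif.2
        rw [hA0] at this
        omega
      · rw [cA0, cP0, c1, c1', hc.1, hc.2]
        push_cast
        have e1 : (4 * (p : ℚ)) / N - p / N + 3 * (p / N - 2 * p / N) = 0 := by ring
        have e2 : (2 * (p : ℚ)) / N - p / N + (p / N - 2 * p / N) = 0 := by ring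
        rw [e1, e2]
        ring
    · rfl
  rw [t0, zero_add, if_pos]
  swap
  · refine ⟨by decide, ?_⟩
    omega
  rw [cA, cP, c2, c2', e3, e3']
  push_cast
  have e1 : (2 * ((N : ℚ) - 2 * p - 2 * q)) / N - (N - p - q) / N +
      3 * ((N - p - q) / N - (N - 2 * p - 2 * q) / N) = 1 := by
    field_simp
    ring
  have e2 : ((N : ℚ) - 2 * p - 2 * q) / N - (N - p - q) / N +
      ((N - p - q) / N - (N - 2 * p - 2 * q) / N) = 0 := by ring
  have e4 : ((N : ℚ) - 2 * p - 2 * q) / N - (N - p - q) / N = -((p + q) / N) := by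
    field_simp
    ring
  rw [e1, e2, e4]
  have e5 : GG N p q 1 2 = -((p / N : ℚ) / (((N - p - q : ℚ) / N) * ((p + q : ℚ) / N))) := rfl
  rw [e5]
  have hG : (p / N : ℚ) / (((N - p - q : ℚ) / N) * ((p + q : ℚ) / N)) ≠ 0 := by
    have : (0 : ℚ) < N := lt_of_le_of_ne (by positivity) (Ne.symm hNQ)
    positivity
  have hs : (p + q : ℚ) / N ≠ 0 := div_ne_zero hsQ.ne' hNQ
  have h1s : ((-1 : ℚ)) ^ n1 ≠ 0 := zpow_ne_zero _ (by norm_num)
  set G := (p / N : ℚ) / (((N - p - q : ℚ) / N) * ((p + q : ℚ) / N))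
  set s := (p + q : ℚ) / N
  have : (-1 : ℚ) ^ n1 * (-G) ^ 2 * (-(-G * -s * 1 / 6) +
      -G * ((2 * ((N : ℚ) - 2 * p - 2 * q)) / N - (N - p - q) / N +
        2 * ((N - p - q) / N - (N - 2 * p - 2 * q) / N)) * 0 / 2) =
      -((-1 : ℚ) ^ n1 * (G ^ 3 * s / 6)) := by ring
  rw [this]
  apply neg_ne_zero.2
  apply mul_ne_zero h1s
  apply div_ne_zero _ (by norm_num)
  exact mul_ne_zero (pow_ne_zero _ hG) hs

theorem surv_k3a (hp : 0 < p) (hpq : p ≤ q) (hN : 2 * (p + q) < N)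
    (hg : Nat.gcd (Nat.gcd p q) N = 1) (hL : LatticeTriangle (TN N p q))
    (h2 : ¬ 2 ∣ (N : ℤ)) : ¬ (N : ℤ) < 4 * q := by
  intro h4
  have hN0 : 0 < N := by omega
  have hw : Wt N p q 4 (4 * p) (4 * q - N) (2 * (N - 2 * p - 2 * q)) :=
    ⟨⟨0, by ring⟩, ⟨1, by ring⟩, by omega, by omega, by omega, by ring⟩
  have hv : Wt N p q 2 (2 * p) (2 * q) (N - 2 * p - 2 * q) :=
    ⟨⟨0, by ring⟩, ⟨0, by ring⟩, by omega, by omega, by omega, by ring⟩
  obtain ⟨a1, a2, a3⟩ := Wt_WW hN hw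
  obtain ⟨b1, b2, b3⟩ := Wt_WW hN hv
  have hcop : IsCoprime (2 : ℤ) (N : ℤ) := by
    rw [Int.isCoprime_iff_gcd_eq_one]
    have : Nat.Coprime 2 N := by
      rw [Nat.Prime.coprime_iff_not_dvd Nat.prime_two]
      omega
    exact_mod_cast this
  have hA2 := AA_two hN
  have hA0 : AA N p q 0 = 2 * p := rfl
  refine kill3 hp (by omega) hN hg (NTBridge_hu hN0 (Or.inr hcop)) (Wt_Hol hN hw) (Wt_Hol hN hv)
    (nres_not_modEq hN0 ?_) (nres_sum hN0 6 ⟨0, by norm_num⟩) 1 1 ?_ ?_ ?_ (-1) ?_ ?_ hL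
  · exact not_dvd_of (by norm_num) (by omega)
  · intro k hk
    fin_cases k
    · show AA N p q 0 ≤ WW N p q (nres N 4) 0
      omega
    · exact absurd rfl hk
    · show AA N p q 2 ≤ WW N p q (nres N 4) 2
      omega
  · intro k hk
    fin_cases k
    · show AA N p q 0 ≤ WW N p q (nres N 2) 0
      omega
    · exact absurd rfl hk
    · show AA N p q 2 ≤ WW N p q (nres N 2) 2
      omega
  · intro k hk
    fin_cases k
    · show 3 * AA N p q 0 ≤ WW N p q (nres N 4) 0 + WW N p q (nres N 2) 0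
      omega
    · exact absurd rfl hk
    · show 3 * AA N p q 2 ≤ WW N p q (nres N 4) 2 + WW N p q (nres N 2) 2
      omega
  · rw [a2, b2]
    ring
  · exact K3v_one_one hp hN (-1) a1 a3 b1 b3 rfl rfl (Or.inr ⟨rfl, rfl⟩)

theorem NTBridge3_cop {M : ℤ} (h : ¬ 2 ∣ M) : IsCoprime (M + 2) (2 * M) := by
  obtain ⟨u, hu⟩ : ∃ u : ℤ, M = 2 * u + 1 := ⟨(M - 1) / 2, by omega⟩
  apply IsCoprime.mul_right
  · exact ⟨1, -(u + 1), by rw [hu]; ring⟩
  · have h2 : IsCoprime (2 : ℤ) M := ⟨-u, 1, by rw [hu]; ring⟩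
    have := h2.add_mul_left_left 1
    rwa [mul_one, add_comm] at this

theorem surv_k3b (hp : 0 < p) (hpq : p ≤ q) (hN : 2 * (p + q) < N)
    (hg : Nat.gcd (Nat.gcd p q) N = 1) (hL : LatticeTriangle (TN N p q)) {M : ℤ}
    (hM : (N : ℤ) = 2 * M) (h2 : ¬ 2 ∣ M) (hpo : ¬ 2 ∣ (p : ℤ)) (hqo : ¬ 2 ∣ (q : ℤ))
    (h : 4 * (p : ℤ) < M ∧ 3 * M < 4 * q) : False := by
  have hN0 : 0 < N := by omega
  obtain ⟨s, hs⟩ : ∃ s : ℤ, (p : ℤ) = 2 * s + 1 := ⟨(p - 1) / 2, by omega⟩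
  obtain ⟨t, ht⟩ : ∃ t : ℤ, (q : ℤ) = 2 * t + 1 := ⟨(q - 1) / 2, by omega⟩
  have hw : Wt N p q (M + 4) (4 * p + M) (4 * q - 3 * M) (2 * (N - 2 * p - 2 * q)) := by
    refine ⟨⟨s, ?_⟩, ⟨t + 2, ?_⟩, by omega, by omega, by omega, by rw [hM]; ring⟩
    · rw [hM, hs]; ring
    · rw [hM, ht]; ring
  have hv : Wt N p q (M + 2) (2 * p + M) (2 * q - M) (N - 2 * p - 2 * q) := by
    refine ⟨⟨s, ?_⟩, ⟨t + 1, ?_⟩, by omega, by omega, by omega, by rw [hM]; ring⟩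
    · rw [hM, hs]; ring
    · rw [hM, ht]; ring
  obtain ⟨a1, a2, a3⟩ := Wt_WW hN hw
  obtain ⟨b1, b2, b3⟩ := Wt_WW hN hv
  have hcop : IsCoprime (M + 2) (N : ℤ) := hM ▸ NTBridge3_cop h2
  have hA2 := AA_two hN
  have hA0 : AA N p q 0 = 2 * p := rfl
  refine kill3 hp (by omega) hN hg (NTBridge_hu hN0 (Or.inr hcop)) (Wt_Hol hN hw) (Wt_Hol hN hv)
    (nres_not_modEq hN0 ?_) (nres_sum hN0 6 ⟨1, by rw [hM]; push_cast; ring⟩) 1 1 ?_ ?_ ?_ (-2)
    ?_ ?_ hL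
  · exact not_dvd_of (by linarith) (by omega)
  · intro k hk
    fin_cases k
    · show AA N p q 0 ≤ WW N p q (nres N (M + 4)) 0
      omega
    · exact absurd rfl hk
    · show AA N p q 2 ≤ WW N p q (nres N (M + 4)) 2
      omega
  · intro k hk
    fin_cases k
    · show AA N p q 0 ≤ WW N p q (nres N (M + 2)) 0
      omega
    · exact absurd rfl hk
    · show AA N p q 2 ≤ WW N p q (nres N (M + 2)) 2
      omega
  · intro k hk
    fin_cases k
    · show 3 * AA N p q 0 ≤ WW N p q (nres N (M + 4)) 0 + WW N p q (nres N (M + 2)) 0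
      omega
    · exact absurd rfl hk
    · show 3 * AA N p q 2 ≤ WW N p q (nres N (M + 4)) 2 + WW N p q (nres N (M + 2)) 2
      omega
  · rw [a2, b2, hM]
    ring
  · refine K3v_one_one hp hN (-2) a1 a3 b1 b3 rfl rfl (Or.inl ?_)
    omega

/-- the arithmetic of the third test -/
theorem NTBridge3_arith {S q : ℤ} (hq : 3 ≤ q) (hq2 : ¬ 2 ∣ q) : S ^ 2 * (q - 1) ≠ 2 * q ^ 3 := by
  intro h
  have h1 : q - 1 ∣ 2 := by
    have h2 : (q - 1) ∣ 2 * q ^ 3 := ⟨S ^ 2, by linarith⟩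
    have h3 : (q - 1) ∣ 2 * (q ^ 3 - 1) := ⟨2 * (q ^ 2 + q + 1), by ring⟩
    have h4 := dvd_sub h2 h3
    have e : 2 * q ^ 3 - 2 * (q ^ 3 - 1) = 2 := by ring
    rwa [e] at h4
  have h5 := Int.le_of_dvd (by norm_num) h1
  have h6 : q = 3 := by omega
  rw [h6] at h
  have h7 : S ^ 2 = 27 := by linarith
  have h8 : S < 6 := by nlinarith
  have h9 : -6 < S := by nlinarith
  interval_cases S <;> omega

/-- value of the test: inactive vertices `1` and `0` -/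
theorem K3v_one_zero (hp : 0 < p) (hN : 2 * (p + q) < N) {i j : ℕ} {w1 w3 v1 v3 M : ℤ}
    (hM : (N : ℤ) = 2 * M) (hS : (p : ℤ) + q = M - 1) (hq : 3 ≤ q) (hq2 : ¬ 2 ∣ (q : ℤ))
    (h1 : ((WW N p q i 0 : ℕ) : ℤ) = w1) (h2 : ((WW N p q i 2 : ℕ) : ℤ) = w3)
    (h1' : ((WW N p q j 0 : ℕ) : ℤ) = v1) (h2' : ((WW N p q j 2 : ℕ) : ℤ) = v3)
    (e1 : w1 = 2 * p + M) (e1' : v1 = 4 * p - M) (e3 : w3 = 2) (e3' : v3 = 4) :
    K3v N p q i j 1 0 (-1) ≠ 0 := by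
  have ha := AA_two hN
  have hP := PP_two (N := N) (p := p) (q := q) (by omega)
  have hNQ0 : (0 : ℚ) < N := by
    have : 0 < N := by omega
    exact_mod_cast this
  have hNQ : (N : ℚ) ≠ 0 := hNQ0.ne'
  have hpQ : (0 : ℚ) < p := by exact_mod_cast hp
  have hsQ : (0 : ℚ) < p + q := by positivity
  have hMQ : (M : ℚ) = p + q + 1 := by
    have : M = p + q + 1 := by linarith
    rw [this]
    push_cast
    ring
  have hNe : (N : ℚ) = 2 * (p + q) + 2 := by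
    have : (N : ℤ) = 2 * (p + q) + 2 := by linarith
    exact_mod_cast this
  have c1 := NTBridge3_castQ h1
  have c2 := NTBridge3_castQ h2
  have c1' := NTBridge3_castQ h1'
  have c2' := NTBridge3_castQ h2'
  have cA := NTBridge3_castQ ha
  have cP := NTBridge3_castQ hP
  have cA0 : ((AA N p q 0 : ℕ) : ℚ) = 2 * p := by
    show ((2 * p : ℕ) : ℚ) = 2 * p
    push_cast
    ring
  have cP0 : ((PP N p q 0 : ℕ) : ℚ) = p := rfl
  have hA0 : AA N p q 0 = 2 * p := rfl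
  unfold K3v
  rw [Fin.sum_univ_three, if_pos, if_neg, if_pos]
  rotate_left
  · exact ⟨by decide, by omega⟩
  · exact fun h => h.1 rfl
  · exact ⟨by decide, by omega⟩
  rw [cA, cP, cA0, cP0, c1, c1', c2, c2', e1, e1', e3, e3']
  have g1 : GG N p q 1 0 = -(1 / ((N - p - q : ℚ) / N)) := rfl
  have g2 : GG N p q 0 0 = 0 := rfl
  have g3 : GG N p q 1 2 = -((p / N : ℚ) / (((N - p - q : ℚ) / N) * ((p + q : ℚ) / N))) := rfl
  have g4 : GG N p q 0 2 = (q / N : ℚ) / (((N - p - q : ℚ) / N) * ((p + q : ℚ) / N)) := rfl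
  have g5 : (![1, 1, (-1) ^ (-1 : ℤ)] : Fin 3 → ℚ) 2 = -1 := by
    show (-1 : ℚ) ^ (-1 : ℤ) = -1
    norm_num
  have g6 : (![1, 1, (-1) ^ (-1 : ℤ)] : Fin 3 → ℚ) 0 = 1 := rfl
  rw [g1, g2, g3, g4, g5, g6]
  have key : ((p : ℤ) + q) ^ 2 * (q - 1) - 2 * (q : ℤ) ^ 3 ≠ 0 :=
    sub_ne_zero.2 (NTBridge3_arith (by exact_mod_cast hq) hq2)
  have keyQ : ((p : ℚ) + q) ^ 2 * (q - 1) - 2 * (q : ℚ) ^ 3 ≠ 0 := by exact_mod_cast key
  have hr : (N : ℚ) - p - q = p + q + 2 := by rw [hNe]; ring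
  have hr0 : (0 : ℚ) < p + q + 2 := by positivity
  push_cast
  rw [hMQ, hr, hNe]
  have hN1 : (0 : ℚ) < 2 * (p + q) + 2 := by positivity
  have fin : ∀ x : ℚ, x * (12 * (p + q + 2) ^ 3 * (p + q) ^ 2) =
      (((p : ℚ) + q) ^ 2 * (q - 1) - 2 * (q : ℚ) ^ 3) * (2 * (p + q) + 2) ^ 2 → x ≠ 0 := by
    rintro x hx rfl
    rw [zero_mul] at hx
    exact (mul_ne_zero keyQ (pow_ne_zero _ hN1.ne')) hx.symm
  apply fin
  field_simp
  ring

theorem surv_k3c (hp : 0 < p) (hN : 2 * (p + q) < N)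
    (hg : Nat.gcd (Nat.gcd p q) N = 1) (hL : LatticeTriangle (TN N p q)) {M : ℤ}
    (hM : (N : ℤ) = 2 * M) (h2 : ¬ 2 ∣ M) (hpo : ¬ 2 ∣ (p : ℤ)) (hqo : ¬ 2 ∣ (q : ℤ))
    (hS : (p : ℤ) + q = M - 1) (hpq : (p : ℤ) < q) (h : M < 4 * p) : False := by
  have hN0 : 0 < N := by omega
  obtain ⟨s, hs⟩ : ∃ s : ℤ, (p : ℤ) = 2 * s + 1 := ⟨(p - 1) / 2, by omega⟩
  obtain ⟨t, ht⟩ : ∃ t : ℤ, (q : ℤ) = 2 * t + 1 := ⟨(q - 1) / 2, by omega⟩
  have hv : Wt N p q (M + 4) (4 * p - M) (4 * q - M) 4 := by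
    refine ⟨⟨s + 1, ?_⟩, ⟨t + 1, ?_⟩, by omega, by omega, by omega, by linarith⟩
    · rw [hM, hs]; ring
    · rw [hM, ht]; ring
  have hw : Wt N p q (M + 2) (2 * p + M) (2 * q - M) 2 := by
    refine ⟨⟨s, ?_⟩, ⟨t + 1, ?_⟩, by omega, by omega, by omega, by linarith⟩
    · rw [hM, hs]; ring
    · rw [hM, ht]; ring
  obtain ⟨a1, a2, a3⟩ := Wt_WW hN hw
  obtain ⟨b1, b2, b3⟩ := Wt_WW hN hv
  have hcop : IsCoprime (M + 2) (N : ℤ) := hM ▸ NTBridge3_cop h2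
  have hA2 := AA_two hN
  have hA0 : AA N p q 0 = 2 * p := rfl
  have hA1 : AA N p q 1 = 2 * q := rfl
  refine kill3 hp (by omega) hN hg (NTBridge_hu hN0 (Or.inl hcop)) (Wt_Hol hN hw) (Wt_Hol hN hv)
    (nres_not_modEq hN0 ?_) (nres_sum hN0 6 ⟨1, by rw [hM]; push_cast; ring⟩) 1 0 ?_ ?_ ?_ (-1)
    ?_ ?_ hL
  · intro h5
    have h6 : (N : ℤ) ∣ 2 := by
      have := h5.neg_right
      have e : -(M + 2 - (M + 4)) = (2 : ℤ) := by ring
      rwa [e] at this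
    exact not_dvd_of (by norm_num) (by omega) h6
  · intro k hk
    fin_cases k
    · show AA N p q 0 ≤ WW N p q (nres N (M + 2)) 0
      omega
    · exact absurd rfl hk
    · show AA N p q 2 ≤ WW N p q (nres N (M + 2)) 2
      omega
  · intro k hk
    fin_cases k
    · exact absurd rfl hk
    · show AA N p q 1 ≤ WW N p q (nres N (M + 4)) 1
      omega
    · show AA N p q 2 ≤ WW N p q (nres N (M + 4)) 2
      omega
  · intro k hk
    fin_cases k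
    · show 3 * AA N p q 0 ≤ WW N p q (nres N (M + 2)) 0 + WW N p q (nres N (M + 4)) 0
      omega
    · exact absurd rfl hk
    · show 3 * AA N p q 2 ≤ WW N p q (nres N (M + 2)) 2 + WW N p q (nres N (M + 4)) 2
      omega
  · rw [a2, b2, hM]
    ring
  · exact K3v_one_zero hp hN hM hS (by omega) hqo a1 a3 b1 b3 rfl rfl rfl rfl

theorem surv_k3d (hL : LatticeTriangle (TN 22 2 3)) : False := by
  refine kill3 (N := 22) (p := 2) (q := 3) (i := 13) (j := 15) (by norm_num) (by norm_num)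
    (by norm_num) (by norm_num) (Or.inl (by norm_num)) (by unfold Hol; norm_num)
    (by unfold Hol; norm_num) (by decide) (by decide) 2 1 (by decide) (by decide) (by decide) 0
    (by decide) ?_ hL
  unfold K3v
  rw [Fin.sum_univ_three, if_pos (by decide), if_pos (by decide), if_neg (by decide)]
  simp [GG, WW, PP, AA]
  norm_num

end Pool.Agent.OBT
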