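import Mathlib

/-!
# Plane geometry of the star: vertices and flanks
-/

open scoped ComplexConjugate Topology Real

namespace Pool.Agent.OBT

noncomputable section

/-- the distance of the notches from the centre (the tips have distance `1`) -/
def rho (x x2 : ℝ) : ℝ := Real.sin x2 / Real.sin (x + x2)

/-- the distance of the vertex number `m` from the centre -/
def Rm (x x2 : ℝ) (k m : ℤ) : ℝ := if Even (m + k) then 1 else rho x x2

/-- the vertex number `m`, at the angle `π/2 + m x` -/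
def Vm (x x2 : ℝ) (k m : ℤ) : ℂ := Rm x x2 k m * (Complex.I * Complex.exp ((m * x : ℝ) * Complex.I))

/-- the lower end of the flank -/
def Y0 (x x2 : ℝ) (k : ℕ) : ℝ := rho x x2 * Real.cos ((k + 1) * x)

/-- the abscissa of the flank at the height `Y0 + y` -/
def Xk (x x2 : ℝ) (k : ℕ) (y : ℝ) : ℝ :=
  (Real.sin x2 + (Y0 x x2 k + y) * Real.sin (k * x - x2)) / Real.cos (k * x - x2)

/-- the vertical extent of the flank -/
def Dk (x x2 : ℝ) (k : ℕ) : ℝ := Real.sin x / Real.sin (x + x2) * Real.cos (k * x - x2)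

private theorem StarX0_expI (y : ℝ) : Complex.I * Complex.exp ((y : ℂ) * Complex.I) =
    ((-Real.sin y : ℝ) : ℂ) + ((Real.cos y : ℝ) : ℂ) * Complex.I := by
  rw [Complex.exp_mul_I, ← Complex.ofReal_cos, ← Complex.ofReal_sin]
  push_cast
  linear_combination (Complex.sin y) * Complex.I_sq

theorem Vm_re (x x2 : ℝ) (k m : ℤ) : (Vm x x2 k m).re = -(Rm x x2 k m * Real.sin (m * x)) := by
  unfold Vm
  rw [StarX0_expI, Complex.re_ofReal_mul]
  simp only [Complex.add_re, Complex.ofReal_re, Complex.re_ofReal_mul, Complex.I_re, mul_zero,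
    add_zero]
  ring

theorem Vm_im (x x2 : ℝ) (k m : ℤ) : (Vm x x2 k m).im = Rm x x2 k m * Real.cos (m * x) := by
  unfold Vm
  rw [StarX0_expI, Complex.im_ofReal_mul]
  simp only [Complex.add_im, Complex.ofReal_im, Complex.im_ofReal_mul, Complex.I_im, mul_one,
    zero_add]

theorem cos_kx_pos {x x2 : ℝ} {k : ℕ} (hx : 0 < x) (hx2 : 0 < x2) (hob : x + x2 < π / 2)
    (hk : 1 ≤ k) (hk2 : k * x ≤ 2 * x2 - x) : 0 < Real.cos (k * x - x2) := by
  have h1 : (1 : ℝ) ≤ k := by exact_mod_cast hk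
  have h2 : x ≤ k * x := by nlinarith
  exact Real.cos_pos_of_mem_Ioo ⟨by linarith, by linarith⟩

/-- the height of the tip of the flank -/
theorem Y0_add_Dk {x x2 : ℝ} (k : ℕ) (hs : Real.sin (x + x2) ≠ 0) :
    Y0 x x2 k + Dk x x2 k = Real.cos (k * x) := by
  unfold Y0 Dk rho
  have h1 : Real.sin x2 * Real.cos ((k + 1) * x) + Real.sin x * Real.cos (k * x - x2)
      = Real.cos (k * x) * Real.sin (x + x2) := by
    have e : ((k : ℝ) + 1) * x = k * x + x := by ring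
    rw [e, Real.cos_add, Real.cos_sub, Real.sin_add]
    ring
  rw [div_mul_eq_mul_div, div_mul_eq_mul_div, ← add_div, h1, mul_div_assoc, div_self hs, mul_one]

private theorem StarX0_Xk {x x2 : ℝ} {k : ℕ} (hc : Real.cos (k * x - x2) ≠ 0)
    (hs : Real.sin (x + x2) ≠ 0) (u : ℝ) :
    Xk x x2 k (u * Dk x x2 k) =
      u * Real.sin (k * x) + (1 - u) * (rho x x2 * Real.sin ((k + 1) * x)) := by
  have h1 : Y0 x x2 k + u * Dk x x2 k = u * Real.cos (k * x) + (1 - u) * Y0 x x2 k := by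
    rw [← Y0_add_Dk k hs]
    ring
  unfold Xk
  rw [h1, div_eq_iff hc]
  have e : ((k : ℝ) + 1) * x = k * x + x := by ring
  have h2 : Real.sin (k * x) * Real.cos (k * x - x2) - Real.cos (k * x) * Real.sin (k * x - x2)
      = Real.sin x2 := by
    rw [← Real.sin_sub]
    congr 1
    ring
  have h3 : rho x x2 * (Real.sin ((k + 1) * x) * Real.cos (k * x - x2) -
      Real.cos ((k + 1) * x) * Real.sin (k * x - x2)) = Real.sin x2 := by
    rw [← Real.sin_sub]
    have e2 : ((k : ℝ) + 1) * x - (k * x - x2) = x + x2 := by ring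
    rw [e2]
    unfold rho
    exact div_mul_cancel₀ _ hs
  unfold Y0
  linear_combination (-u) * h2 - (1 - u) * h3

private theorem StarX0_sin_ne {x x2 : ℝ} (hx : 0 < x) (hx2 : 0 < x2) (hob : x + x2 < π / 2) :
    Real.sin (x + x2) ≠ 0 := by
  have := Real.pi_pos
  exact (Real.sin_pos_of_pos_of_lt_pi (by linarith) (by linarith)).ne'

private theorem StarX0_Y {x x2 : ℝ} {k : ℕ} (hs : Real.sin (x + x2) ≠ 0) (u : ℝ) :
    Y0 x x2 k + u * Dk x x2 k =
      u * Real.cos (k * x) + (1 - u) * (rho x x2 * Real.cos ((k + 1) * x)) := by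
  have h := Y0_add_Dk (x := x) (x2 := x2) k hs
  have h2 : Y0 x x2 k = rho x x2 * Real.cos ((k + 1) * x) := rfl
  rw [← h2, ← h]
  ring

private theorem StarX0_R1 (x x2 : ℝ) (k : ℤ) : Rm x x2 k k = 1 := by
  unfold Rm
  rw [if_pos ⟨k, rfl⟩]

private theorem StarX0_R2 (x x2 : ℝ) (k : ℤ) : Rm x x2 k (k + 1) = rho x x2 := by
  unfold Rm
  rw [if_neg]
  rintro ⟨j, hj⟩
  omega

private theorem StarX0_R3 (x x2 : ℝ) (k : ℤ) : Rm x x2 k (-k) = 1 := by
  unfold Rm
  rw [if_pos ⟨0, by ring⟩]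

private theorem StarX0_R4 (x x2 : ℝ) (k : ℤ) : Rm x x2 k (-k - 1) = rho x x2 := by
  unfold Rm
  rw [if_neg]
  rintro ⟨j, hj⟩
  omega

/-- points of the left flank -/
theorem flank_left {x x2 : ℝ} {k : ℕ} (hx : 0 < x) (hx2 : 0 < x2) (hob : x + x2 < π / 2)
    (hk : 1 ≤ k) (hk2 : k * x ≤ 2 * x2 - x) (u : ℝ) :
    (u * Vm x x2 k k + (1 - u) * Vm x x2 k (k + 1) : ℂ) =
      -Xk x x2 k (u * Dk x x2 k) + (Y0 x x2 k + u * Dk x x2 k) * Complex.I := by
  have hs := StarX0_sin_ne hx hx2 hob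
  have hc := (cos_kx_pos hx hx2 hob hk hk2).ne'
  have e1 : (1 - (u : ℂ)) = ((1 - u : ℝ) : ℂ) := by push_cast; ring
  have e2 : ((Y0 x x2 k : ℂ) + u * Dk x x2 k) = ((Y0 x x2 k + u * Dk x x2 k : ℝ) : ℂ) := by
    push_cast; ring
  have e3 : (-(Xk x x2 k (u * Dk x x2 k) : ℂ)) = ((-Xk x x2 k (u * Dk x x2 k) : ℝ) : ℂ) := by
    push_cast; ring
  rw [e1, e2, e3, StarX0_Xk hc hs, StarX0_Y hs]
  apply Complex.ext
  · simp only [Complex.add_re, Complex.re_ofReal_mul, Complex.ofReal_re, Complex.I_re, mul_zero,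
      add_zero, Vm_re, StarX0_R1, StarX0_R2]
    push_cast
    ring
  · simp only [Complex.add_im, Complex.im_ofReal_mul, Complex.ofReal_im, Complex.I_im, mul_one,
      zero_add, Vm_im, StarX0_R1, StarX0_R2]
    push_cast
    ring

/-- points of the right flank -/
theorem flank_right {x x2 : ℝ} {k : ℕ} (hx : 0 < x) (hx2 : 0 < x2) (hob : x + x2 < π / 2)
    (hk : 1 ≤ k) (hk2 : k * x ≤ 2 * x2 - x) (u : ℝ) :
    ((1 - u) * Vm x x2 k (-k - 1) + u * Vm x x2 k (-k) : ℂ) =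
      Xk x x2 k (u * Dk x x2 k) + (Y0 x x2 k + u * Dk x x2 k) * Complex.I := by
  have hs := StarX0_sin_ne hx hx2 hob
  have hc := (cos_kx_pos hx hx2 hob hk hk2).ne'
  have e1 : (1 - (u : ℂ)) = ((1 - u : ℝ) : ℂ) := by push_cast; ring
  have e2 : ((Y0 x x2 k : ℂ) + u * Dk x x2 k) = ((Y0 x x2 k + u * Dk x x2 k : ℝ) : ℂ) := by
    push_cast; ring
  have e4 : ((-(k : ℤ) - 1 : ℤ) : ℝ) * x = -(((k : ℝ) + 1) * x) := by push_cast; ring
  have e5 : ((-(k : ℤ) : ℤ) : ℝ) * x = -((k : ℝ) * x) := by push_cast; ring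
  rw [e1, e2, StarX0_Xk hc hs, StarX0_Y hs]
  apply Complex.ext
  · simp only [Complex.add_re, Complex.re_ofReal_mul, Complex.ofReal_re, Complex.I_re, mul_zero,
      add_zero, Vm_re, StarX0_R3, StarX0_R4, e4, e5, Real.sin_neg]
    ring
  · simp only [Complex.add_im, Complex.im_ofReal_mul, Complex.ofReal_im, Complex.I_im, mul_one,
      zero_add, Vm_im, StarX0_R3, StarX0_R4, e4, e5, Real.cos_neg]
    ring

end

end Pool.Agent.OBT
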