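import Mathlib
import Pool.Agent.OBT.StarM
import Pool.Agent.OBT.StarX0

/-!
# The sectors of the star in coordinates
-/

open scoped ComplexConjugate Topology Real
open MeasureTheory Filter

namespace Pool.Agent.OBT

noncomputable section

variable {N p q : ℕ} {v : Fin 3 → ℂ}

/-- the point `s P2 + t P3` (or `s P3 + t P2`) of the triangle -/
def bp (a b : ℝ) (c : Prop) [Decidable c] (s t : ℝ) : ℂ :=
  if c then s + t * tau a b else s * tau a b + t

theorem StarK_mem {a b : ℝ} {s t : ℝ} (hs : 0 ≤ s) (ht : 0 ≤ t) (hst : s + t ≤ 1) :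
    (s : ℂ) + t * tau a b ∈ body (tri a b) := by
  have h := (convex_body (v := tri a b)).sum_mem (t := Finset.univ) (w := ![1 - s - t, s, t])
    (z := fun i => tri a b i) ?_ ?_ (fun i _ => vert_mem_body i)
  · rw [Fin.sum_univ_three] at h
    have e : (![1 - s - t, s, t] : Fin 3 → ℝ) 0 • tri a b 0 + (![1 - s - t, s, t] : Fin 3 → ℝ) 1 •
        tri a b 1 + (![1 - s - t, s, t] : Fin 3 → ℝ) 2 • tri a b 2 = (s : ℂ) + t * tau a b := by
      show (1 - s - t) • (0 : ℂ) + s • (1 : ℂ) + t • tau a b = (s : ℂ) + t * tau a b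
      rw [smul_zero, zero_add, Complex.real_smul, Complex.real_smul, mul_one]
    rw [e] at h
    exact h
  · intro i _
    fin_cases i
    · show (0 : ℝ) ≤ 1 - s - t
      linarith
    · exact hs
    · exact ht
  · rw [Fin.sum_univ_three]
    show 1 - s - t + s + t = 1
    ring

theorem bp_mem {a b : ℝ} (c : Prop) [Decidable c] {s t : ℝ}
    (hs : 0 ≤ s) (ht : 0 ≤ t) (hst : s + t ≤ 1) : bp a b c s t ∈ body (tri a b) := by
  unfold bp
  split_ifs
  · exact StarK_mem hs ht hst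
  · have h := StarK_mem (a := a) (b := b) ht hs (by linarith)
    rwa [add_comm] at h

theorem StarK_not {a b : ℝ} (ha : 0 < a) (hb : 0 < b) (hab : a + b < 1) {s t : ℝ}
    (hst : s + t < 1) : (s : ℂ) + t * tau a b ∉ edge (tri a b) 0 := by
  rintro ⟨a', b', _, _, hab', h⟩
  have him := tau_im_pos ha hb hab
  have h' : a' • (1 : ℂ) + b' • tau a b = (s : ℂ) + t * tau a b := h
  rw [Complex.real_smul, Complex.real_smul, mul_one] at h'
  have h1 := congrArg Complex.im h'
  have h2 := congrArg Complex.re h'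
  simp only [Complex.add_im, Complex.ofReal_im, Complex.mul_im, Complex.ofReal_re, zero_mul,
    add_zero, zero_add] at h1
  simp only [Complex.add_re, Complex.ofReal_im, Complex.mul_re, Complex.ofReal_re, zero_mul,
    sub_zero] at h2
  have h3 : b' = t := mul_right_cancel₀ him.ne' h1
  rw [h3] at h2 hab'
  linarith

theorem bp_not_mem_edge {a b : ℝ} (ha : 0 < a) (hb : 0 < b) (hab : a + b < 1) (c : Prop)
    [Decidable c] {s t : ℝ} (hst : s + t < 1) : bp a b c s t ∉ edge (tri a b) 0 := by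
  unfold bp
  split_ifs
  · exact StarK_not ha hb hab hst
  · have h := StarK_not (s := t) (t := s) ha hb hab (by linarith)
    rwa [add_comm] at h

theorem StarK_inv {w : G v} {θ : ℝ}
    (hw : ∀ z : ℂ, (w : ℂ ≃ₗᵢ[ℝ] ℂ) z = Complex.exp ((θ : ℝ) * Complex.I) * z) (z : ℂ) :
    ((w⁻¹ : G v) : ℂ ≃ₗᵢ[ℝ] ℂ) z = Complex.exp (((-θ : ℝ) : ℂ) * Complex.I) * z := by
  change (w : ℂ ≃ₗᵢ[ℝ] ℂ).symm z = _
  rw [LinearIsometryEquiv.symm_apply_eq, hw, ← mul_assoc, ← Complex.exp_add]
  have e : (θ : ℂ) * Complex.I + ((-θ : ℝ) : ℂ) * Complex.I = 0 := by push_cast; ring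
  rw [e, Complex.exp_zero, one_mul]

theorem StarK_zpow {w : G v} {θ : ℝ}
    (hw : ∀ z : ℂ, (w : ℂ ≃ₗᵢ[ℝ] ℂ) z = Complex.exp ((θ : ℝ) * Complex.I) * z) (n : ℤ) :
    ∀ z : ℂ, ((w ^ n : G v) : ℂ ≃ₗᵢ[ℝ] ℂ) z =
      Complex.exp (((n * θ : ℝ) : ℂ) * Complex.I) * z := by
  induction n with
  | zero =>
    intro z
    rw [zpow_zero]
    have e : (((((0 : ℤ) : ℝ) * θ : ℝ) : ℂ)) * Complex.I = 0 := by push_cast; ring
    rw [e, Complex.exp_zero, one_mul]
    rfl
  | succ n ih =>
    intro z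
    rw [zpow_add_one, Iso_mul, ih, hw, ← mul_assoc, ← Complex.exp_add]
    congr 2
    push_cast
    ring
  | pred n ih =>
    intro z
    rw [zpow_sub_one, Iso_mul, ih, StarK_inv hw, ← mul_assoc, ← Complex.exp_add]
    congr 2
    push_cast
    ring

/-- the rotation by `2x` around the vertex `0` -/
theorem StarK_rot {a b : ℝ} (ha : 0 < a) (hb : 0 < b) (hab : a + b < 1) (z : ℂ) :
    ((r (tri a b) 1 * r (tri a b) 2 : G (tri a b)) : ℂ ≃ₗᵢ[ℝ] ℂ) z =
      Complex.exp (((2 * π * a : ℝ) : ℂ) * Complex.I) * z := by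
  rw [Iso_mul, Iso_r, Iso_r, refl_eq 2 (tri_ne ha hb hab 2), refl_eq 1 (tri_ne ha hb hab 1),
    chi_tri_two ha hb hab, chi_tri_one ha hb hab, one_mul, Complex.conj_conj]
  push_cast
  ring_nf

theorem StarK_tau {N p q : ℕ} :
    tau ((p : ℝ) / N) ((q : ℝ) / N) =
      (rho (π * p / N) (π * q / N) : ℂ) * Complex.exp (((π * p / N : ℝ) : ℂ) * Complex.I) := by
  unfold tau rho
  have e1 : π * ((q : ℝ) / N) = π * q / N := by ring
  have e2 : π * ((p : ℝ) / N + (q : ℝ) / N) = π * p / N + π * q / N := by ring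
  rw [e1, e2]
  congr 2
  push_cast
  ring

/-- (*) the sectors of the star in the coordinates of the crossing lemma -/
theorem kap_Vm (hp : 0 < p) (hq : 0 < q) (hN : p + q < N) (g0 : G (TN N p q)) (h0 : rot g0)
    (k j : ℤ) (s t : ℝ) :
    -Complex.I * uu g0 * Complex.exp ((k * (π * p / N) : ℝ) * Complex.I) *
      (s * Vm (π * p / N) (π * q / N) k j + t * Vm (π * p / N) (π * q / N) k (j + 1)) =
    ((kap g0 (j + k) : G (TN N p q)) : ℂ ≃ₗᵢ[ℝ] ℂ)
      (bp ((p : ℝ) / N) ((q : ℝ) / N) (Even (j + k)) s t) := by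
  obtain ⟨ha, hb, hab⟩ := Form1_pos hp hq hN
  have hT := StarK_tau (N := N) (p := p) (q := q)
  have hZ := fun n : ℤ => StarK_zpow (w := r (TN N p q) 1 * r (TN N p q) 2)
    (θ := 2 * π * ((p : ℝ) / N)) (StarK_rot ha hb hab) n
  have hII : Complex.I * Complex.I = -1 := Complex.I_mul_I
  have hx : 2 * π * ((p : ℝ) / N) = 2 * (π * p / N) := by ring
  simp only [hx] at hZ
  set x : ℝ := π * p / N with hxdef
  set ρ : ℝ := rho x (π * q / N) with hρ
  by_cases hm : Even (j + k)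
  · have hm1 : ¬ Even (j + 1 + k) := by
      rw [show j + 1 + k = (j + k) + 1 by ring, Int.even_add_one]
      exact not_not.2 hm
    unfold kap bp Vm Rm
    rw [if_pos hm, if_pos hm, if_pos hm, if_neg hm1, Iso_mul, h0, hZ, hT]
    obtain ⟨c, hc⟩ := hm
    have e2 : (j + k) / 2 = c := by omega
    rw [e2]
    have e3 : (((c : ℤ) : ℝ)) = ((j : ℝ) + k) / 2 := by
      have : ((j : ℝ) + k) = (c : ℝ) + c := by exact_mod_cast hc
      rw [this]; ring
    have e4 : Complex.exp (((((c : ℤ) : ℝ) * (2 * x) : ℝ) : ℂ) * Complex.I) =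
        Complex.exp (((k * x : ℝ) : ℂ) * Complex.I) * Complex.exp (((j * x : ℝ) : ℂ) * Complex.I) := by
      rw [← Complex.exp_add, e3]
      congr 1
      push_cast
      ring
    have e5 : Complex.exp (((((j + 1 : ℤ) : ℝ) * x : ℝ) : ℂ) * Complex.I) =
        Complex.exp (((j * x : ℝ) : ℂ) * Complex.I) * Complex.exp (((x : ℝ) : ℂ) * Complex.I) := by
      rw [← Complex.exp_add]
      congr 1
      push_cast
      ring
    rw [e4, e5]
    push_cast
    linear_combination (-(uu g0 * Complex.exp (↑k * ↑x * Complex.I) *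
      Complex.exp (↑j * ↑x * Complex.I) * (s + t * ρ * Complex.exp (↑x * Complex.I)))) * hII
  · have hm1 : Even (j + 1 + k) := by
      rw [show j + 1 + k = (j + k) + 1 by ring, Int.even_add_one]
      exact hm
    unfold kap bp Vm Rm
    rw [if_neg hm, if_neg hm, if_neg hm, if_pos hm1, Iso_mul, Iso_mul, h0, hZ, Iso_r,
      refl_eq 1 (tri_ne ha hb hab 1), chi_tri_one ha hb hab, hT]
    have hodd := Int.not_even_iff_odd.1 hm
    obtain ⟨c, hc⟩ := hodd
    have e2 : (j + k - 1) / 2 = c := by omega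
    rw [e2]
    have e3 : (((c : ℤ) : ℝ)) = ((j : ℝ) + k - 1) / 2 := by
      have : ((j : ℝ) + k) = 2 * (c : ℝ) + 1 := by exact_mod_cast hc
      rw [this]; ring
    have hcj : conj (Complex.exp (((x : ℝ) : ℂ) * Complex.I)) =
        Complex.exp (-(x : ℂ) * Complex.I) := Form1_exp_conj x
    have e4 : Complex.exp (((((c : ℤ) : ℝ) * (2 * x) : ℝ) : ℂ) * Complex.I) *
        Complex.exp (2 * π * ((((p : ℝ) / N : ℝ)) : ℂ) * Complex.I) =
        Complex.exp (((k * x : ℝ) : ℂ) * Complex.I) * Complex.exp (((j * x : ℝ) : ℂ) * Complex.I) *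
          Complex.exp (((x : ℝ) : ℂ) * Complex.I) := by
      rw [← Complex.exp_add, ← Complex.exp_add, ← Complex.exp_add, e3]
      congr 1
      have hx' : (2 * π * ((((p : ℝ) / N : ℝ)) : ℂ)) = ((2 * x : ℝ) : ℂ) := by
        rw [← hx]; push_cast; ring
      rw [hx']
      push_cast
      ring
    have e5 : Complex.exp (((((j + 1 : ℤ) : ℝ) * x : ℝ) : ℂ) * Complex.I) =
        Complex.exp (((j * x : ℝ) : ℂ) * Complex.I) * Complex.exp (((x : ℝ) : ℂ) * Complex.I) := by
      rw [← Complex.exp_add]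
      congr 1
      push_cast
      ring
    have e6 : Complex.exp (((x : ℝ) : ℂ) * Complex.I) * Complex.exp (-(x : ℂ) * Complex.I) = 1 := by
      rw [← Complex.exp_add]
      have : ((x : ℝ) : ℂ) * Complex.I + -(x : ℂ) * Complex.I = 0 := by ring
      rw [this, Complex.exp_zero]
    rw [map_add, map_mul, map_mul, hcj, Complex.conj_ofReal, Complex.conj_ofReal,
      Complex.conj_ofReal, e5]
    have e7 : uu g0 * (Complex.exp (((((c : ℤ) : ℝ) * (2 * x) : ℝ) : ℂ) * Complex.I) *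
        (Complex.exp (2 * π * ((((p : ℝ) / N : ℝ)) : ℂ) * Complex.I) *
          (s * (ρ * Complex.exp (-(x : ℂ) * Complex.I)) + t))) =
        uu g0 * (Complex.exp (((((c : ℤ) : ℝ) * (2 * x) : ℝ) : ℂ) * Complex.I) *
        Complex.exp (2 * π * ((((p : ℝ) / N : ℝ)) : ℂ) * Complex.I)) *
          (s * (ρ * Complex.exp (-(x : ℂ) * Complex.I)) + t) := by ring
    rw [e7, e4]
    push_cast at *
    linear_combination (-(uu g0 * Complex.exp (↑k * ↑x * Complex.I) *
      Complex.exp (↑j * ↑x * Complex.I) * (s * ρ + t * Complex.exp (↑x * Complex.I)))) * hII -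
      (uu g0 * Complex.exp (↑k * ↑x * Complex.I) *
      Complex.exp (↑j * ↑x * Complex.I) * (s * ρ)) * e6

end

end Pool.Agent.OBT
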