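import Mathlib
import Pool.Agent.OBT.StarX0

/-!
# Plane geometry of the star: the crossing lemma
-/

open scoped ComplexConjugate Topology Real

namespace Pool.Agent.OBT

private theorem StarX_core {x x2 r : ℝ} {n k : ℕ} (hx : 0 < x) (hn : n * x = π) (hx2 : 0 < x2)
    (hob : x + x2 < π / 2) (hk : 1 ≤ k) (hk2 : k * x ≤ 2 * x2 - x)
    (hr : r * Real.sin (x + x2) = Real.sin x2) (hr0 : 0 < r) (hr1 : r < 1)
    (hcos : 0 < Real.cos (k * x - x2))
    {R : ℕ → ℝ} (hR : ∀ j, R j = 1 ∨ (R j = r ∧ j ≠ k)) (hRk : R k = 1) (hRk1 : R (k + 1) = r)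
    {X Y Y1 : ℝ} (hX : 0 ≤ X) (hY0 : r * Real.cos ((k + 1) * x) ≤ Y) (hY1 : Y ≤ Y1)
    (h1 : Y1 ≤ Real.cos (k * x)) (h2 : Y1 ≤ r * Real.cos ((k - 1) * x))
    (hL : X * Real.cos (k * x - x2) - Y * Real.sin (k * x - x2) ≤ Real.sin x2) :
    ∃ (m : ℕ) (s t : ℝ), 0 ≤ s ∧ 0 ≤ t ∧ s + t ≤ 1 ∧
      X = s * (R m * Real.sin (m * x)) + t * (R (m + 1) * Real.sin ((m + 1) * x)) ∧
      Y = s * (R m * Real.cos (m * x)) + t * (R (m + 1) * Real.cos ((m + 1) * x)) ∧
      (r * Real.cos ((k + 1) * x) < Y → Y < Y1 →
        X * Real.cos (k * x - x2) - Y * Real.sin (k * x - x2) < Real.sin x2 → s + t < 1) := by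
  have hpi := Real.pi_pos
  have hRpos : ∀ j, 0 < R j := by
    intro j
    rcases hR j with h | ⟨h, -⟩ <;> rw [h]
    · exact one_pos
    · exact hr0
  have hsx : 0 < Real.sin x := Real.sin_pos_of_pos_of_lt_pi hx (by linarith)
  have hsx2 : 0 < Real.sin x2 := Real.sin_pos_of_pos_of_lt_pi hx2 (by linarith)
  have hsxx : 0 < Real.sin (x + x2) := Real.sin_pos_of_pos_of_lt_pi (by linarith) (by linarith)
  have hkR : (1 : ℝ) ≤ k := by exact_mod_cast hk
  have hn0 : n ≠ 0 := by
    rintro rfl
    simp at hn
    linarith
  -- the last index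
  obtain ⟨m, hmn, hc1, hc2⟩ : ∃ m : ℕ, m < n ∧ 0 ≤ X * Real.cos (m * x) - Y * Real.sin (m * x) ∧
      X * Real.cos ((m + 1) * x) - Y * Real.sin ((m + 1) * x) ≤ 0 := by
    classical
    set P : ℕ → Prop := fun m => 0 ≤ X * Real.cos (m * x) - Y * Real.sin (m * x) with hP
    have hP0 : P 0 := by simp [hP, hX]
    set m := Nat.findGreatest P (n - 1) with hm
    have hPm : P m := Nat.findGreatest_spec (P := P) (m := 0) (Nat.zero_le _) hP0
    have hmle : m ≤ n - 1 := Nat.findGreatest_le _
    refine ⟨m, by omega, hPm, ?_⟩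
    by_cases hlt : m + 1 < n
    · have := Nat.findGreatest_is_greatest (P := P) (n := n - 1) (k := m + 1) (by omega) (by omega)
      simp only [hP, not_le] at this
      push_cast at this
      exact this.le
    · have hmn' : m + 1 = n := by omega
      have : ((m : ℝ) + 1) * x = π := by
        rw [← hn, ← hmn']
        push_cast
        ring
      rw [this]
      simp
      exact hX
  set α := -(X * Real.cos ((m + 1) * x) - Y * Real.sin ((m + 1) * x)) / Real.sin x with hα
  set β := (X * Real.cos (m * x) - Y * Real.sin (m * x)) / Real.sin x with hβ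
  have hα0 : 0 ≤ α := div_nonneg (by linarith) hsx.le
  have hβ0 : 0 ≤ β := div_nonneg hc1 hsx.le
  have hdet : Real.sin ((m + 1) * x) * Real.cos (m * x) - Real.cos ((m + 1) * x) * Real.sin (m * x) =
      Real.sin x := by
    rw [← Real.sin_sub]
    congr 1
    ring
  have hXe : X = α * Real.sin (m * x) + β * Real.sin ((m + 1) * x) := by
    rw [hα, hβ]
    field_simp
    rw [← hdet]
    ring
  have hYe : Y = α * Real.cos (m * x) + β * Real.cos ((m + 1) * x) := by
    rw [hα, hβ]
    field_simp
    rw [← hdet]
    ring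
  set s := α / R m with hs
  set t := β / R (m + 1) with ht
  have hs0 : 0 ≤ s := div_nonneg hα0 (hRpos _).le
  have ht0 : 0 ≤ t := div_nonneg hβ0 (hRpos _).le
  have hsR : s * R m = α := by rw [hs]; field_simp [(hRpos m).ne']
  have htR : t * R (m + 1) = β := by rw [ht]; field_simp [(hRpos (m + 1)).ne']
  have hXs : X = s * (R m * Real.sin (m * x)) + t * (R (m + 1) * Real.sin ((m + 1) * x)) := by
    rw [← mul_assoc, ← mul_assoc, hsR, htR]
    exact hXe
  have hYs : Y = s * (R m * Real.cos (m * x)) + t * (R (m + 1) * Real.cos ((m + 1) * x)) := by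
    rw [← mul_assoc, ← mul_assoc, hsR, htR]
    exact hYe
  rcases lt_trichotomy m k with hmk | hmk | hmk
  · -- above
    rcases lt_or_ge ((k : ℝ) * x) (π / 2) with hkx | hkx
    · have hH : ∀ j : ℕ, j ≤ k → Y1 ≤ R j * Real.cos (j * x) ∧ 0 < R j * Real.cos (j * x) := by
        intro j hj
        have hjk : (j : ℝ) ≤ k := by exact_mod_cast hj
        have hjx : (j : ℝ) * x ≤ k * x := mul_le_mul_of_nonneg_right hjk hx.le
        have hj0 : 0 ≤ (j : ℝ) * x := by positivity
        have hcj : 0 < Real.cos (j * x) := Real.cos_pos_of_mem_Ioo ⟨by linarith, by linarith⟩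
        refine ⟨?_, mul_pos (hRpos j) hcj⟩
        rcases hR j with h | ⟨h, hne⟩
        · rw [h, one_mul]
          exact h1.trans (Real.cos_le_cos_of_nonneg_of_le_pi hj0 (by linarith) hjx)
        · rw [h]
          refine h2.trans (mul_le_mul_of_nonneg_left ?_ hr0.le)
          have hj1 : j + 1 ≤ k := by omega
          have hjk1 : (j : ℝ) + 1 ≤ k := by exact_mod_cast hj1
          have g1 : (j : ℝ) * x ≤ (k - 1) * x :=
            mul_le_mul_of_nonneg_right (by linarith) hx.le
          have g2 : ((k : ℝ) - 1) * x = k * x - x := by ring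
          exact Real.cos_le_cos_of_nonneg_of_le_pi hj0 (by linarith) g1
      obtain ⟨ha1, ha2⟩ := hH m hmk.le
      obtain ⟨hb1, hb2⟩ := hH (m + 1) hmk
      push_cast at hb1 hb2
      have key : s + t ≤ 1 ∧ (Y < Y1 → s + t < 1) := by
        rcases le_or_gt Y1 0 with hY | hY
        · have hz : s * (R m * Real.cos (m * x)) + t * (R (m + 1) * Real.cos ((m + 1) * x)) ≤ 0 := by
            rw [← hYs]; linarith
          have e1 : 0 ≤ s * (R m * Real.cos (m * x)) := mul_nonneg hs0 ha2.le
          have e2 : 0 ≤ t * (R (m + 1) * Real.cos ((m + 1) * x)) := mul_nonneg ht0 hb2.le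
          have e3 : s * (R m * Real.cos (m * x)) = 0 := by linarith
          have e4 : t * (R (m + 1) * Real.cos ((m + 1) * x)) = 0 := by linarith
          have e5 : s = 0 := by
            rcases mul_eq_zero.1 e3 with h | h
            · exact h
            · exact absurd h ha2.ne'
          have e6 : t = 0 := by
            rcases mul_eq_zero.1 e4 with h | h
            · exact h
            · exact absurd h hb2.ne'
          rw [e5, e6]
          norm_num
        · have e1 : s * Y1 ≤ s * (R m * Real.cos (m * x)) := mul_le_mul_of_nonneg_left ha1 hs0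
          have e2 : t * Y1 ≤ t * (R (m + 1) * Real.cos ((m + 1) * x)) :=
            mul_le_mul_of_nonneg_left hb1 ht0
          have e3 : (s + t) * Y1 ≤ Y := by rw [add_mul]; linarith
          constructor
          · by_contra hcon
            push Not at hcon
            have := mul_lt_mul_of_pos_right hcon hY
            rw [one_mul] at this
            exact absurd (e3.trans hY1) (not_le.2 this)
          · intro hlt
            by_contra hcon
            push Not at hcon
            have := mul_le_mul_of_nonneg_right hcon hY.le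
            rw [one_mul] at this
            exact absurd (e3.trans_lt hlt) (not_lt.2 this)
      exact ⟨m, s, t, hs0, ht0, key.1, hXs, hYs, fun _ h _ => key.2 h⟩
    · -- the tip
      have hck : X * Real.cos (k * x) - Y * Real.sin (k * x) ≤ 0 := by
        have e : X * Real.cos (k * x) - Y * Real.sin (k * x) =
            -(α * Real.sin (k * x - m * x) + β * Real.sin (k * x - (m + 1) * x)) := by
          rw [Real.sin_sub, Real.sin_sub]
          nth_rewrite 1 [hXe]
          nth_rewrite 1 [hYe]
          ring
        have hmk' : (m : ℝ) + 1 ≤ k := by exact_mod_cast hmk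
        have hm0 : (0 : ℝ) ≤ m := Nat.cast_nonneg m
        have g1 : ((m : ℝ) + 1) * x ≤ k * x := mul_le_mul_of_nonneg_right hmk' hx.le
        have g2 : 0 ≤ (m : ℝ) * x := mul_nonneg hm0 hx.le
        have g3 : ((m : ℝ) + 1) * x = m * x + x := by ring
        have e1 : 0 ≤ Real.sin (k * x - m * x) :=
          Real.sin_nonneg_of_nonneg_of_le_pi (by linarith) (by linarith)
        have e2 : 0 ≤ Real.sin (k * x - (m + 1) * x) :=
          Real.sin_nonneg_of_nonneg_of_le_pi (by linarith) (by linarith)
        rw [e]
        have := mul_nonneg hα0 e1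
        have := mul_nonneg hβ0 e2
        linarith
      have hckx : Real.cos (k * x) ≤ 0 :=
        Real.cos_nonpos_of_pi_div_two_le_of_le hkx (by linarith)
      -- P and Q
      set P := -(X * Real.cos (k * x) - Y * Real.sin (k * x)) / Real.sin x2 with hP
      set Q := 1 - (X * Real.cos (k * x - x2) - Y * Real.sin (k * x - x2)) / Real.sin x2 with hQ
      have hP0 : 0 ≤ P := div_nonneg (by linarith) hsx2.le
      have hQ0 : 0 ≤ Q := by
        rw [hQ, sub_nonneg, div_le_one hsx2]
        exact hL
      have hdet2 : Real.sin (k * x) * Real.cos (k * x - x2) -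
          Real.cos (k * x) * Real.sin (k * x - x2) = Real.sin x2 := by
        rw [← Real.sin_sub]
        congr 1
        ring
      have hYPQ : Y = Real.cos (k * x) + P * Real.cos (k * x - x2) - Q * Real.cos (k * x) := by
        rw [hP, hQ]
        field_simp
        rw [← hdet2]
        ring
      have hXPQ : X = Real.sin (k * x) + P * Real.sin (k * x - x2) - Q * Real.sin (k * x) := by
        rw [hP, hQ]
        field_simp
        rw [← hdet2]
        ring
      have hYc : Y ≤ Real.cos (k * x) := hY1.trans h1
      have f1 : 0 ≤ P * Real.cos (k * x - x2) := mul_nonneg hP0 hcos.le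
      have f2 : Q * Real.cos (k * x) ≤ 0 := mul_nonpos_of_nonneg_of_nonpos hQ0 hckx
      have f3 : P * Real.cos (k * x - x2) = 0 := by linarith
      have f4 : Q * Real.cos (k * x) = 0 := by linarith
      have f5 : P = 0 := by
        rcases mul_eq_zero.1 f3 with h | h
        · exact h
        · exact absurd h hcos.ne'
      have f6 : Y = Real.cos (k * x) := by rw [hYPQ, f3, f4]; ring
      have f7 : X = (1 - Q) * Real.sin (k * x) := by rw [hXPQ, f5]; ring
      have f8 : 0 ≤ 1 - Q := by
        rcases mul_eq_zero.1 f4 with h | h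
        · rw [h]; norm_num
        · have hsk : 0 < Real.sin (k * x) :=
            Real.sin_pos_of_pos_of_lt_pi (by linarith) (by linarith)
          by_contra hcon
          push Not at hcon
          have := mul_neg_of_neg_of_pos hcon hsk
          linarith
      refine ⟨k, 1 - Q, 0, f8, le_rfl, by linarith, ?_, ?_, ?_⟩
      · rw [hRk, f7]; ring
      · rw [hRk, f6]
        linear_combination f4
      · intro _ hlt
        linarith
  · -- the flank
    subst hmk
    have e : X * Real.cos (m * x - x2) - Y * Real.sin (m * x - x2) = (s + t) * Real.sin x2 := by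
      rw [hRk, one_mul, hRk1] at hXs hYs
      have e1 : Real.sin (m * x) * Real.cos (m * x - x2) -
          Real.cos (m * x) * Real.sin (m * x - x2) = Real.sin x2 := by
        rw [← Real.sin_sub]
        congr 1
        ring
      have e2 : Real.sin ((m + 1) * x) * Real.cos (m * x - x2) -
          Real.cos ((m + 1) * x) * Real.sin (m * x - x2) = Real.sin (x + x2) := by
        rw [← Real.sin_sub]
        congr 1
        ring
      calc X * Real.cos (m * x - x2) - Y * Real.sin (m * x - x2)
          = s * (Real.sin (m * x) * Real.cos (m * x - x2) -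
            Real.cos (m * x) * Real.sin (m * x - x2)) +
            t * r * (Real.sin ((m + 1) * x) * Real.cos (m * x - x2) -
            Real.cos ((m + 1) * x) * Real.sin (m * x - x2)) := by
              rw [hXs, hYs]
              ring
        _ = (s + t) * Real.sin x2 := by
              rw [e1, e2, mul_assoc, hr]
              ring
    refine ⟨m, s, t, hs0, ht0, ?_, hXs, hYs, ?_⟩
    · rw [e] at hL
      by_contra hcon
      push Not at hcon
      have := mul_lt_mul_of_pos_right hcon hsx2
      linarith
    · intro _ _ hlt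
      rw [e] at hlt
      by_contra hcon
      push Not at hcon
      have := mul_le_mul_of_nonneg_right hcon hsx2.le
      linarith
  · -- below
    have hmk' : (k : ℝ) + 1 ≤ m := by exact_mod_cast hmk
    have hmn1 : ((m : ℝ) + 1) * x ≤ π := by
      rw [← hn]
      have : (m : ℝ) + 1 ≤ n := by exact_mod_cast hmn
      exact mul_le_mul_of_nonneg_right this hx.le
    rcases lt_or_ge (Real.cos ((k + 1) * x)) 0 with hneg | hpos
    · have hH : ∀ j : ℕ, k + 1 ≤ j → (j : ℝ) * x ≤ π →
          R j * Real.cos (j * x) ≤ r * Real.cos ((k + 1) * x) := by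
        intro j hj hjn
        have hjk : (k : ℝ) + 1 ≤ j := by exact_mod_cast hj
        have hc : Real.cos (j * x) ≤ Real.cos ((k + 1) * x) :=
          Real.cos_le_cos_of_nonneg_of_le_pi (by positivity) hjn
            (mul_le_mul_of_nonneg_right hjk hx.le)
        rcases hR j with h | ⟨h, -⟩
        · rw [h, one_mul]
          have := mul_le_mul_of_nonpos_right hr1.le hneg.le
          rw [one_mul] at this
          exact hc.trans this
        · rw [h]
          exact mul_le_mul_of_nonneg_left hc hr0.le
      have ha := hH m hmk (by linarith [add_mul (m : ℝ) 1 x])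
      have hb := hH (m + 1) (by omega) (by push_cast; exact hmn1)
      push_cast at hb
      have hy0 : r * Real.cos ((k + 1) * x) < 0 := mul_neg_of_pos_of_neg hr0 hneg
      have e1 := mul_le_mul_of_nonneg_left ha hs0
      have e2 := mul_le_mul_of_nonneg_left hb ht0
      have e3 : Y ≤ (s + t) * (r * Real.cos ((k + 1) * x)) := by
        have e4 : (s + t) * (r * Real.cos ((k + 1) * x)) =
          s * (r * Real.cos ((k + 1) * x)) + t * (r * Real.cos ((k + 1) * x)) := add_mul _ _ _
        rw [e4]
        exact hYs.le.trans (add_le_add e1 e2)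
      refine ⟨m, s, t, hs0, ht0, ?_, hXs, hYs, ?_⟩
      · by_contra hcon
        push Not at hcon
        have := mul_lt_mul_of_neg_right hcon hy0
        rw [one_mul] at this
        exact absurd (hY0.trans e3) (not_le.2 this)
      · intro hlt _ _
        by_contra hcon
        push Not at hcon
        have := mul_le_mul_of_nonpos_right hcon hy0.le
        rw [one_mul] at this
        exact absurd (hlt.trans_le e3) (not_lt.2 this)
    · have hck : 0 ≤ X * Real.cos ((k + 1) * x) - Y * Real.sin ((k + 1) * x) := by
        have e : X * Real.cos ((k + 1) * x) - Y * Real.sin ((k + 1) * x) =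
            α * Real.sin (m * x - (k + 1) * x) + β * Real.sin ((m + 1) * x - (k + 1) * x) := by
          rw [Real.sin_sub, Real.sin_sub]
          nth_rewrite 1 [hXe]
          nth_rewrite 1 [hYe]
          ring
        have g1 : ((k : ℝ) + 1) * x ≤ m * x := mul_le_mul_of_nonneg_right hmk' hx.le
        have g2 : 0 ≤ ((k : ℝ) + 1) * x := by positivity
        have g3 : ((m : ℝ) + 1) * x = m * x + x := by ring
        have e1 : 0 ≤ Real.sin (m * x - (k + 1) * x) :=
          Real.sin_nonneg_of_nonneg_of_le_pi (by linarith) (by linarith)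
        have e2 : 0 ≤ Real.sin ((m + 1) * x - (k + 1) * x) :=
          Real.sin_nonneg_of_nonneg_of_le_pi (by linarith) (by linarith)
        rw [e]
        have := mul_nonneg hα0 e1
        have := mul_nonneg hβ0 e2
        linarith
      set P := (X * Real.cos ((k + 1) * x) - Y * Real.sin ((k + 1) * x)) / Real.sin (x + x2) with hP
      set Q := r - (X * Real.cos (k * x - x2) - Y * Real.sin (k * x - x2)) / Real.sin (x + x2)
        with hQ
      have hP0 : 0 ≤ P := div_nonneg hck hsxx.le
      have hQ0 : 0 ≤ Q := by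
        rw [hQ, sub_nonneg, div_le_iff₀ hsxx, hr]
        exact hL
      have hdet2 : Real.sin ((k + 1) * x) * Real.cos (k * x - x2) -
          Real.cos ((k + 1) * x) * Real.sin (k * x - x2) = Real.sin (x + x2) := by
        rw [← Real.sin_sub]
        congr 1
        ring
      have hYPQ : Y = r * Real.cos ((k + 1) * x) - P * Real.cos (k * x - x2) -
          Q * Real.cos ((k + 1) * x) := by
        rw [hP, hQ]
        field_simp
        rw [← hdet2]
        ring
      have hXPQ : X = r * Real.sin ((k + 1) * x) - P * Real.sin (k * x - x2) -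
          Q * Real.sin ((k + 1) * x) := by
        rw [hP, hQ]
        field_simp
        rw [← hdet2]
        ring
      have f1 : 0 ≤ P * Real.cos (k * x - x2) := mul_nonneg hP0 hcos.le
      have f2 : 0 ≤ Q * Real.cos ((k + 1) * x) := mul_nonneg hQ0 hpos
      have f3 : P * Real.cos (k * x - x2) = 0 := by linarith
      have f4 : Q * Real.cos ((k + 1) * x) = 0 := by linarith
      have f5 : P = 0 := by
        rcases mul_eq_zero.1 f3 with h | h
        · exact h
        · exact absurd h hcos.ne'
      have f6 : Y = r * Real.cos ((k + 1) * x) := by rw [hYPQ, f3, f4]; ring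
      have f7 : X = (r - Q) * Real.sin ((k + 1) * x) := by rw [hXPQ, f5]; ring
      have f8 : 0 ≤ r - Q := by
        rcases mul_eq_zero.1 f4 with h | h
        · rw [h]; linarith
        · have hsk : 0 < Real.sin ((k + 1) * x) :=
            Real.sin_pos_of_pos_of_lt_pi (by positivity) (by linarith [add_mul (k : ℝ) 1 x])
          by_contra hcon
          push Not at hcon
          have := mul_neg_of_neg_of_pos hcon hsk
          linarith
      refine ⟨k + 1, (r - Q) / r, 0, div_nonneg f8 hr0.le, le_rfl, ?_, ?_, ?_, ?_⟩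
      · rw [add_zero, div_le_one hr0]
        linarith
      · rw [hRk1, f7]
        push_cast
        field_simp
        ring
      · rw [hRk1, f6]
        push_cast
        field_simp
        linear_combination f4
      · intro hlt
        linarith

/-- **The crossing lemma** (section 6) -/
theorem crossing {x x2 : ℝ} {n k : ℕ} (hx : 0 < x) (hn : n * x = π) (hx2 : 0 < x2)
    (hob : x + x2 < π / 2) (hk : 1 ≤ k) (hk2 : k * x ≤ 2 * x2 - x) {h : ℝ}
    (h1 : h ≤ Dk x x2 k) (h2 : h ≤ 2 * rho x x2 * Real.sin x * Real.sin (k * x)) {z : ℂ}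
    (hz0 : 0 ≤ z.im) (hz1 : z.im ≤ h) (hz2 : |z.re| ≤ Xk x x2 k z.im) :
    ∃ (j : ℤ) (s t : ℝ), 0 ≤ s ∧ 0 ≤ t ∧ s + t ≤ 1 ∧
      z + Y0 x x2 k * Complex.I = s * Vm x x2 k j + t * Vm x x2 k (j + 1) ∧
      (0 < z.im → z.im < h → |z.re| < Xk x x2 k z.im → s + t < 1) := by
  have hpi := Real.pi_pos
  have hcos := cos_kx_pos hx hx2 hob hk hk2
  have hsx2 : 0 < Real.sin x2 := Real.sin_pos_of_pos_of_lt_pi hx2 (by linarith)
  have hsxx : 0 < Real.sin (x + x2) := Real.sin_pos_of_pos_of_lt_pi (by linarith) (by linarith)
  have hr : rho x x2 * Real.sin (x + x2) = Real.sin x2 := by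
    unfold rho
    field_simp
  have hr0 : 0 < rho x x2 := div_pos hsx2 hsxx
  have hr1 : rho x x2 < 1 := by
    unfold rho
    rw [div_lt_one hsxx]
    exact Real.sin_lt_sin_of_lt_of_le_pi_div_two (by linarith) (by linarith) (by linarith)
  have hYD := Y0_add_Dk (x := x) (x2 := x2) k hsxx.ne'
  have hR : ∀ j : ℕ, Rm x x2 k j = 1 ∨ (Rm x x2 k j = rho x x2 ∧ j ≠ k) := by
    intro j
    unfold Rm
    split_ifs with hev
    · exact Or.inl rfl
    · refine Or.inr ⟨rfl, ?_⟩
      rintro rfl
      exact hev ⟨_, rfl⟩
  have hRk : Rm x x2 k k = 1 := by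
    unfold Rm
    rw [if_pos ⟨_, rfl⟩]
  have hRk1 : Rm x x2 k ((k + 1 : ℕ) : ℤ) = rho x x2 := by
    unfold Rm
    rw [if_neg]
    push_cast
    rw [Int.not_even_iff_odd]
    exact ⟨k, by ring⟩
  have hXk : ∀ X : ℝ, (X ≤ Xk x x2 k z.im ↔
      X * Real.cos (k * x - x2) - (Y0 x x2 k + z.im) * Real.sin (k * x - x2) ≤ Real.sin x2) := by
    intro X
    unfold Xk
    rw [le_div_iff₀ hcos]
    constructor <;> intro h <;> linarith
  have hXk' : ∀ X : ℝ, (X < Xk x x2 k z.im ↔
      X * Real.cos (k * x - x2) - (Y0 x x2 k + z.im) * Real.sin (k * x - x2) < Real.sin x2) := by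
    intro X
    unfold Xk
    rw [lt_div_iff₀ hcos]
    constructor <;> intro h <;> linarith
  have hrr : Y0 x x2 k + h ≤ rho x x2 * Real.cos ((k - 1) * x) := by
    have e : Real.cos ((k - 1) * x) - Real.cos ((k + 1) * x) = 2 * Real.sin x * Real.sin (k * x) := by
      have e1 : ((k : ℝ) - 1) * x = k * x - x := by ring
      have e2 : ((k : ℝ) + 1) * x = k * x + x := by ring
      rw [e1, e2, Real.cos_sub, Real.cos_add]
      ring
    have e' : rho x x2 * Real.cos ((k - 1) * x) - Y0 x x2 k =
        2 * rho x x2 * Real.sin x * Real.sin (k * x) := by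
      unfold Y0
      rw [← mul_sub, e]
      ring
    linarith
  obtain ⟨m, s, t, hs, ht, hst, hX, hY, hstr⟩ := StarX_core (R := fun j => Rm x x2 k j) (r := rho x x2)
    (X := |z.re|) (Y := Y0 x x2 k + z.im) (Y1 := Y0 x x2 k + h) hx hn hx2 hob hk hk2 hr hr0 hr1 hcos
    hR hRk hRk1 (abs_nonneg _) (by rw [← Y0.eq_1]; linarith) (by linarith) (by linarith) hrr
    ((hXk _).1 hz2)
  have hstr' : 0 < z.im → z.im < h → |z.re| < Xk x x2 k z.im → s + t < 1 := by
    intro a b c
    refine hstr ?_ (by linarith) ((hXk' _).1 c)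
    rw [← Y0.eq_1]
    linarith
  have hneg : ∀ m : ℤ, Rm x x2 k (-m) = Rm x x2 k m := by
    intro m
    unfold Rm
    have : Even (-m + (k : ℤ)) ↔ Even (m + (k : ℤ)) := by
      rw [Int.even_add, Int.even_add, even_neg]
    by_cases hev : Even (m + (k : ℤ))
    · rw [if_pos hev, if_pos (this.2 hev)]
    · rw [if_neg hev, if_neg (fun h => hev (this.1 h))]
  rcases le_or_gt 0 z.re with hre | hre
  · refine ⟨-m - 1, t, s, ht, hs, by linarith, ?_, fun a b c => by linarith [hstr' a b c]⟩
    have e1 : (-(m : ℤ) - 1) + 1 = -(m : ℤ) := by ring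
    have e2 : (-(m : ℤ) - 1) = -((m + 1 : ℕ) : ℤ) := by push_cast; ring
    rw [e1, e2]
    rw [abs_of_nonneg hre] at hX
    apply Complex.ext
    · simp only [Complex.add_re, Complex.mul_re, Complex.ofReal_re, Complex.ofReal_im, zero_mul,
        sub_zero, Complex.I_re, Complex.I_im, mul_zero, Vm_re, hneg]
      push_cast
      rw [show -((m : ℝ) + 1) * x = -(((m : ℝ) + 1) * x) by ring,
        show -(m : ℝ) * x = -((m : ℝ) * x) by ring, Real.sin_neg, Real.sin_neg]
      simp only [Nat.cast_add, Nat.cast_one] at hX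
      linarith
    · simp only [Complex.add_im, Complex.mul_im, Complex.ofReal_re, Complex.ofReal_im, zero_mul,
        add_zero, Complex.I_re, Complex.I_im, mul_zero, mul_one, Vm_im, hneg]
      push_cast
      rw [show -((m : ℝ) + 1) * x = -(((m : ℝ) + 1) * x) by ring,
        show -(m : ℝ) * x = -((m : ℝ) * x) by ring, Real.cos_neg, Real.cos_neg]
      simp only [Nat.cast_add, Nat.cast_one] at hY
      linarith
  · refine ⟨m, s, t, hs, ht, hst, ?_, hstr'⟩
    rw [abs_of_neg hre] at hX
    apply Complex.ext
    · simp only [Complex.add_re, Complex.mul_re, Complex.ofReal_re, Complex.ofReal_im, zero_mul,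
        sub_zero, Complex.I_re, Complex.I_im, mul_zero, Vm_re]
      push_cast
      simp only [Nat.cast_add, Nat.cast_one] at hX
      linarith
    · simp only [Complex.add_im, Complex.mul_im, Complex.ofReal_re, Complex.ofReal_im, zero_mul,
        add_zero, Complex.I_re, Complex.I_im, mul_zero, mul_one, Vm_im]
      push_cast
      simp only [Nat.cast_add, Nat.cast_one] at hY
      linarith

end Pool.Agent.OBT
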