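import Mathlib
import Pool.Agent.OBT.StarK
import Pool.Agent.OBT.StarX

/-!
# A crossing of the star
-/

open scoped ComplexConjugate Topology Real
open MeasureTheory Filter

namespace Pool.Agent.OBT

noncomputable section

variable {N p q : ℕ}

/-- the domain of a crossing -/
def KK (x x2 : ℝ) (k : ℕ) (h : ℝ) : Set ℂ := {z | 0 ≤ z.im ∧ z.im ≤ h ∧ |z.re| ≤ Xk x x2 k z.im}

/-- the points of the side `0` -/
def zu (a b u : ℝ) : ℂ := (1 - u) * tau a b + u

/-- a crossing of the star of `g0` in direction `e` between the tooth number `k` and its mirror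
image -/
structure PieceR (N p q : ℕ) (e : ℂ) (g0 : G (TN N p q)) (k : ℕ) (h : ℝ)
    (F : ℂ → Surf (TN N p q)) : Prop where
  flat : ∀ z ∈ KK (π * p / N) (π * q / N) k h,
    ∀ᶠ w in 𝓝[KK (π * p / N) (π * q / N) k h] z, Dsp (F z) (F w) (e * (w - z))
  rep : ∀ z ∈ KK (π * p / N) (π * q / N) k h, ∃ (g : G (TN N p q)) (y : body (TN N p q)),
    F z = Surf.mk g y ∧ g0⁻¹ * g ∈ H0 (TN N p q) ∧
    (g : ℂ ≃ₗᵢ[ℝ] ℂ) (y : ℂ) = e * (z + Y0 (π * p / N) (π * q / N) k * Complex.I) ∧
    (0 < z.im → z.im < h → |z.re| < Xk (π * p / N) (π * q / N) k z.im →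
      (y : ℂ) ∉ edge (TN N p q) 0)
  left : ∀ u : ℝ, 0 ≤ u → u ≤ 1 → ∀ t : ℝ, t = u * Dk (π * p / N) (π * q / N) k → t ≤ h →
    ∀ y : body (TN N p q), (y : ℂ) = zu ((p : ℝ) / N) ((q : ℝ) / N) u →
    F (-Xk (π * p / N) (π * q / N) k t + t * Complex.I) =
      Surf.mk (g0 * (r (TN N p q) 1 * r (TN N p q) 2) ^ k) y ∧
    ((g0 * (r (TN N p q) 1 * r (TN N p q) 2) ^ k : G (TN N p q)) : ℂ ≃ₗᵢ[ℝ] ℂ) (y : ℂ) =
      e * (-Xk (π * p / N) (π * q / N) k t + t * Complex.I +
        Y0 (π * p / N) (π * q / N) k * Complex.I)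
  right : ∀ u : ℝ, 0 ≤ u → u ≤ 1 → ∀ t : ℝ, t = u * Dk (π * p / N) (π * q / N) k → t ≤ h →
    ∀ y : body (TN N p q), (y : ℂ) = zu ((p : ℝ) / N) ((q : ℝ) / N) u →
    F (Xk (π * p / N) (π * q / N) k t + t * Complex.I) =
      Surf.mk (g0 * r (TN N p q) 2) y
  notch : h = 2 * rho (π * p / N) (π * q / N) * Real.sin (π * p / N) *
      Real.sin (k * (π * p / N)) →
    ∃ s : ℝ, |s| ≤ Xk (π * p / N) (π * q / N) k h ∧
      ((proj (F (s + h * Complex.I)) : body (TN N p q)) : ℂ) = tau ((p : ℝ) / N) ((q : ℝ) / N)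

theorem zu_mem (a b : ℝ) {u : ℝ} (h0 : 0 ≤ u) (h1 : u ≤ 1) : zu a b u ∈ body (tri a b) := by
  have h2 : (tri a b 2) ∈ body (tri a b) := vert_mem_body 2
  have h3 : (tri a b 1) ∈ body (tri a b) := vert_mem_body 1
  have h4 := convex_body h2 h3 (a := 1 - u) (b := u) (by linarith) h0 (by ring)
  have h5 : (1 - u) • tri a b 2 + u • tri a b 1 = zu a b u := by
    show (1 - u) • tau a b + u • (1 : ℂ) = zu a b u
    unfold zu
    rw [Complex.real_smul, Complex.real_smul]
    push_cast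
    ring
  rw [← h5]
  exact h4

private theorem StarE_zu_true (a b u : ℝ) (c : Prop) [Decidable c] (hc : c) :
    bp a b c u (1 - u) = zu a b u := by
  unfold bp zu
  rw [if_pos hc]
  push_cast
  ring

private theorem StarE_zu_false (a b u : ℝ) (c : Prop) [Decidable c] (hc : ¬ c) :
    bp a b c (1 - u) u = zu a b u := by
  unfold bp zu
  rw [if_neg hc]
  push_cast
  ring

private theorem StarE_tau (a b : ℝ) (c : Prop) [Decidable c] (hc : ¬ c) :
    bp a b c 1 0 = tau a b := by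
  unfold bp
  rw [if_neg hc]
  push_cast
  ring

/-- trigonometry at the notch -/
private theorem StarE_notch {x x2 : ℝ} {k : ℕ} (hx : 0 < x) (hx2 : 0 < x2)
    (hob : x + x2 < π / 2) (hk : 1 ≤ k) (hk2 : k * x ≤ 2 * x2 - x) :
    Y0 x x2 k + 2 * rho x x2 * Real.sin x * Real.sin (k * x) =
      rho x x2 * Real.cos ((k - 1) * x) ∧
    |rho x x2 * Real.sin ((k - 1) * x)| ≤
      Xk x x2 k (2 * rho x x2 * Real.sin x * Real.sin (k * x)) := by
  have hpi := Real.pi_pos
  have hc := cos_kx_pos hx hx2 hob hk hk2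
  have hsx : 0 < Real.sin (x + x2) := Real.sin_pos_of_pos_of_lt_pi (by linarith) (by linarith)
  have hs2 : 0 < Real.sin x2 := Real.sin_pos_of_pos_of_lt_pi hx2 (by linarith)
  have hrho : 0 < rho x x2 := div_pos hs2 hsx
  have e1 : Real.cos ((k + 1) * x) = Real.cos (k * x) * Real.cos x -
      Real.sin (k * x) * Real.sin x := by
    rw [← Real.cos_add]
    congr 1
    ring
  have e2 : Real.cos ((k - 1) * x) = Real.cos (k * x) * Real.cos x +
      Real.sin (k * x) * Real.sin x := by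
    rw [← Real.cos_sub]
    congr 1
    ring
  have hY : Y0 x x2 k + 2 * rho x x2 * Real.sin x * Real.sin (k * x) =
      rho x x2 * Real.cos ((k - 1) * x) := by
    unfold Y0
    rw [e1, e2]
    ring
  refine ⟨hY, ?_⟩
  have hk' : (1 : ℝ) ≤ k := by exact_mod_cast hk
  have hs0 : 0 ≤ Real.sin ((k - 1) * x) := by
    apply Real.sin_nonneg_of_nonneg_of_le_pi
    · exact mul_nonneg (by linarith) hx.le
    · nlinarith
  rw [abs_of_nonneg (mul_nonneg hrho.le hs0)]
  unfold Xk
  rw [hY, le_div_iff₀ hc]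
  have e3 : Real.sin ((k - 1) * x) * Real.cos (k * x - x2) -
      Real.cos ((k - 1) * x) * Real.sin (k * x - x2) = Real.sin (x2 - x) := by
    rw [← Real.sin_sub]
    congr 1
    ring
  have e4 : Real.sin (x2 - x) ≤ Real.sin (x + x2) := by
    have h1 : Real.sin (x + x2) - Real.sin (x2 - x) = 2 * (Real.sin x * Real.cos x2) := by
      rw [Real.sin_add, Real.sin_sub]
      ring
    have h2 : 0 ≤ Real.cos x2 := Real.cos_nonneg_of_neg_pi_div_two_le_of_le (by linarith)
      (by linarith)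
    have h3 : 0 ≤ Real.sin x := Real.sin_nonneg_of_nonneg_of_le_pi hx.le (by linarith)
    have := mul_nonneg h3 h2
    linarith
  have e5 : rho x x2 * Real.sin (x2 - x) ≤ Real.sin x2 := by
    have h1 : rho x x2 * Real.sin (x + x2) = Real.sin x2 := by
      unfold rho
      field_simp
    rw [← h1]
    exact mul_le_mul_of_nonneg_left e4 hrho.le
  have e6 : rho x x2 * Real.sin ((k - 1) * x) * Real.cos (k * x - x2) -
      rho x x2 * Real.cos ((k - 1) * x) * Real.sin (k * x - x2) =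
      rho x x2 * Real.sin (x2 - x) := by
    rw [← e3]
    ring
  linarith

theorem exists_pieceR (hp : 0 < p) (hq : 0 < q) (hN : 2 * (p + q) < N) (hd : p ∣ N)
    (g0 : G (TN N p q)) (h0 : rot g0) (k : ℕ) (hk : 1 ≤ k) (hk2 : (k + 1) * p ≤ 2 * q) {h : ℝ}
    (hh : 0 ≤ h) (h1 : h ≤ Dk (π * p / N) (π * q / N) k)
    (h2 : h ≤ 2 * rho (π * p / N) (π * q / N) * Real.sin (π * p / N) *
      Real.sin (k * (π * p / N))) :
    ∃ F : ℂ → Surf (TN N p q), PieceR N p q
      (-Complex.I * uu g0 * Complex.exp (((k : ℤ) * (π * p / N) : ℝ) * Complex.I)) g0 k h F := by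
  have hpi := Real.pi_pos
  have hN' : p + q < N := by omega
  have hN0 : 0 < N := by omega
  have hNr : (0 : ℝ) < N := by exact_mod_cast hN0
  have hpr : (0 : ℝ) < p := by exact_mod_cast hp
  have hqr : (0 : ℝ) < q := by exact_mod_cast hq
  obtain ⟨S, hS1, hS2⟩ := exists_star_map hp hq hN' hd g0
  set x : ℝ := π * p / N with hxd
  set x2 : ℝ := π * q / N with hx2d
  set e : ℂ := -Complex.I * uu g0 * Complex.exp (((k : ℤ) * x : ℝ) * Complex.I) with he
  have hx : 0 < x := by positivity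
  have hx2 : 0 < x2 := by positivity
  have hob : x + x2 < π / 2 := by
    have h3 : (2 * (p + q) : ℝ) < N := by exact_mod_cast hN
    rw [hxd, hx2d, ← add_div, div_lt_iff₀ hNr]
    nlinarith
  have hkx : k * x ≤ 2 * x2 - x := by
    have h3 : ((k + 1) * p : ℝ) ≤ 2 * q := by exact_mod_cast hk2
    have h4 : (k * x + x : ℝ) = π * ((k + 1) * p) / N := by
      rw [hxd]
      ring
    have h5 : 2 * x2 = π * (2 * q) / N := by
      rw [hx2d]
      ring
    have h6 : π * ((k + 1) * p) / N ≤ π * (2 * q) / N := by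
      apply div_le_div_of_nonneg_right _ hNr.le
      exact mul_le_mul_of_nonneg_left h3 hpi.le
    linarith
  obtain ⟨n, hn⟩ := hd
  have hnx : (n : ℝ) * x = π := by
    have h3 : (N : ℝ) = p * n := by exact_mod_cast hn
    rw [hxd, h3]
    have hn0 : (n : ℝ) ≠ 0 := by
      intro h4
      rw [h4, mul_zero] at h3
      exact hNr.ne' h3
    field_simp
  have hd : p ∣ N := ⟨n, hn⟩
  -- the sector coordinates
  have hK : ∀ (j : ℤ) (s t : ℝ) (z : ℂ), 0 ≤ s → 0 ≤ t → s + t ≤ 1 →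
      z + Y0 x x2 k * Complex.I = s * Vm x x2 k j + t * Vm x x2 k (j + 1) →
      ∃ y : body (TN N p q), (y : ℂ) = bp ((p : ℝ) / N) ((q : ℝ) / N) (Even (j + k)) s t ∧
        ((kap g0 (j + k) : G (TN N p q)) : ℂ ≃ₗᵢ[ℝ] ℂ) (y : ℂ) =
          e * (z + Y0 x x2 k * Complex.I) ∧
        S (e * (z + Y0 x x2 k * Complex.I)) = Surf.mk (kap g0 (j + k)) y := by
    intro j s t z hs ht hst hz
    have h3 := kap_Vm hp hq hN' g0 h0 k j s t
    refine ⟨⟨_, bp_mem (Even (j + k)) hs ht hst⟩, rfl, ?_, ?_⟩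
    · rw [hz]
      exact h3.symm
    · rw [hz, ← hS1]
      congr 1
  refine ⟨fun z => S (e * (z + Y0 x x2 k * Complex.I)), ?_, ?_, ?_, ?_, ?_⟩
  · -- flat
    intro z hz
    have hStar : ∀ w ∈ KK x x2 k h, e * (w + Y0 x x2 k * Complex.I) ∈ Star g0 := by
      rintro w ⟨hw0, hw1, hw2⟩
      obtain ⟨j, s, t, hs, ht, hst, hw, _⟩ := crossing hx hnx hx2 hob hk hkx h1 h2 hw0 hw1 hw2
      obtain ⟨y, _, hy2, _⟩ := hK j s t w hs ht hst hw
      exact ⟨_, y, hy2⟩
    have hT : Tendsto (fun w : ℂ => e * (w + Y0 x x2 k * Complex.I)) (𝓝[KK x x2 k h] z)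
        (𝓝[Star g0] (e * (z + Y0 x x2 k * Complex.I))) := by
      refine tendsto_nhdsWithin_iff.2 ⟨?_, ?_⟩
      · have hc : Continuous (fun w : ℂ => e * (w + Y0 x x2 k * Complex.I)) := by fun_prop
        exact (hc.tendsto z).mono_left nhdsWithin_le_nhds
      · filter_upwards [self_mem_nhdsWithin] with w hw
        exact hStar w hw
    filter_upwards [hT.eventually (hS2 _ (hStar z hz))] with w hw
    have h3 : e * (w - z) =
        e * (w + Y0 x x2 k * Complex.I) - e * (z + Y0 x x2 k * Complex.I) := by ring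
    rw [h3]
    exact hw
  · -- rep
    rintro z ⟨hz0, hz1, hz2⟩
    obtain ⟨j, s, t, hs, ht, hst, hz, hlt⟩ := crossing hx hnx hx2 hob hk hkx h1 h2 hz0 hz1 hz2
    obtain ⟨y, hy1, hy2, hy3⟩ := hK j s t z hs ht hst hz
    refine ⟨kap g0 (j + k), y, hy3, kap_mem g0 _, hy2, ?_⟩
    intro h3 h4 h5
    rw [hy1]
    refine bp_not_mem_edge (by positivity) (by positivity) ?_ _ (hlt h3 h4 h5)
    rw [← add_div, div_lt_one hNr]
    exact_mod_cast hN'
  · -- left
    intro u hu0 hu1 t ht hth y hy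
    have h3 := flank_left hx hx2 hob hk hkx u
    have h4 : (-Xk x x2 k t + t * Complex.I : ℂ) + Y0 x x2 k * Complex.I =
        (u : ℝ) * Vm x x2 k k + ((1 - u : ℝ) : ℂ) * Vm x x2 k (k + 1) := by
      push_cast
      rw [h3, ht]
      push_cast
      ring
    obtain ⟨y', hy1, hy2, hy3⟩ := hK k u (1 - u) _ hu0 (by linarith) (by linarith) h4
    have hev : Even ((k : ℤ) + k) := ⟨k, rfl⟩
    rw [StarE_zu_true _ _ _ _ hev, ← hy] at hy1
    have hyy : y' = y := Subtype.ext hy1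
    have hkap : kap g0 ((k : ℤ) + k) = g0 * (r (TN N p q) 1 * r (TN N p q) 2) ^ k := by
      rw [← two_mul, kap_two_mul, zpow_natCast]
    rw [hyy, hkap] at hy2 hy3
    exact ⟨hy3, hy2⟩
  · -- right
    intro u hu0 hu1 t ht hth y hy
    have h3 := flank_right hx hx2 hob hk hkx u
    have h4 : (Xk x x2 k t + t * Complex.I : ℂ) + Y0 x x2 k * Complex.I =
        ((1 - u : ℝ) : ℂ) * Vm x x2 k (-k - 1) + (u : ℝ) * Vm x x2 k (-k - 1 + 1) := by
      rw [sub_add_cancel]
      push_cast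
      rw [h3, ht]
      push_cast
      ring
    obtain ⟨y', hy1, hy2, hy3⟩ := hK (-k - 1) (1 - u) u _ (by linarith) hu0 (by linarith) h4
    have hj : (-(k : ℤ) - 1 + k) = -1 := by ring
    have hev : ¬ Even (-(k : ℤ) - 1 + k) := by
      rw [hj]
      decide
    rw [StarE_zu_false _ _ _ _ hev, ← hy] at hy1
    have hyy : y' = y := Subtype.ext hy1
    rw [hyy, hj, kap_neg_one] at hy3
    exact hy3
  · -- notch
    intro hhe
    obtain ⟨h3, h4⟩ := StarE_notch hx hx2 hob hk hkx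
    refine ⟨rho x x2 * Real.sin ((k - 1) * x), ?_, ?_⟩
    · rw [hhe]
      exact h4
    · have hodd : ¬ Even ((-(k : ℤ) + 1) + k) := by
        have : (-(k : ℤ) + 1) + k = 1 := by ring
        rw [this]
        decide
      have h5 : ((rho x x2 * Real.sin ((k - 1) * x) : ℝ) + h * Complex.I : ℂ) +
          Y0 x x2 k * Complex.I = (1 : ℝ) * Vm x x2 k (-k + 1) +
            (0 : ℝ) * Vm x x2 k (-k + 1 + 1) := by
        rw [Complex.ofReal_one, one_mul, Complex.ofReal_zero, zero_mul, add_zero]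
        have e1 : (((-(k : ℤ) + 1 : ℤ) : ℝ)) * x = -((k - 1) * x) := by
          push_cast
          ring
        apply Complex.ext
        · rw [Vm_re, e1, Real.sin_neg, Rm, if_neg hodd]
          simp only [Complex.add_re, Complex.ofReal_re, Complex.mul_re, Complex.I_re,
            Complex.I_im, Complex.ofReal_im, mul_zero, mul_one, sub_zero, zero_mul, add_zero]
          ring
        · rw [Vm_im, e1, Real.cos_neg, Rm, if_neg hodd]
          simp only [Complex.add_im, Complex.ofReal_im, Complex.mul_im, Complex.ofReal_re,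
            Complex.I_im, Complex.I_re, mul_one, mul_zero, add_zero, zero_add]
          rw [← h3, hhe]
          ring
      obtain ⟨y', hy1, hy2, hy3⟩ := hK (-k + 1) 1 0 _ zero_le_one le_rfl (by norm_num) h5
      show ((proj (S (e * (((rho x x2 * Real.sin ((k - 1) * x) : ℝ) : ℂ) + h * Complex.I +
        Y0 x x2 k * Complex.I))) : body (TN N p q)) : ℂ) = _
      rw [hy3, proj_mk, hy1, StarE_tau _ _ _ hodd]

end

end Pool.Agent.OBT
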