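import Mathlib
import Pool.Agent.OBT.StarE0

/-!
# A crossing of the star
-/

open scoped ComplexConjugate Topology Real
open MeasureTheory Filter

namespace Pool.Agent.OBT

noncomputable section

variable {N p q : ℕ}

/-- a crossing of the star of `g0` in direction `e` between the tooth number `k` and its mirror
image -/
structure Piece (N p q : ℕ) (e : ℂ) (g0 : G (TN N p q)) (k : ℕ) (h : ℝ)
    (F : ℂ → Surf (TN N p q)) : Prop where
  flat : ∀ z ∈ KK (π * p / N) (π * q / N) k h,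
    ∀ᶠ w in 𝓝[KK (π * p / N) (π * q / N) k h] z, Dsp (F z) (F w) (e * (w - z))
  reg : ∀ z ∈ KK (π * p / N) (π * q / N) k h, 0 < z.im → z.im < h → Rg (F z)
  left : ∀ u : ℝ, 0 ≤ u → u ≤ 1 → ∀ t : ℝ, t = u * Dk (π * p / N) (π * q / N) k → t ≤ h →
    ∀ y : body (TN N p q), (y : ℂ) = zu ((p : ℝ) / N) ((q : ℝ) / N) u →
    F (-Xk (π * p / N) (π * q / N) k t + t * Complex.I) =
      Surf.mk (g0 * (r (TN N p q) 1 * r (TN N p q) 2) ^ k) y
  right : ∀ u : ℝ, 0 ≤ u → u ≤ 1 → ∀ t : ℝ, t = u * Dk (π * p / N) (π * q / N) k → t ≤ h →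
    ∀ y : body (TN N p q), (y : ℂ) = zu ((p : ℝ) / N) ((q : ℝ) / N) u →
    F (Xk (π * p / N) (π * q / N) k t + t * Complex.I) =
      Surf.mk (g0 * r (TN N p q) 2) y
  notch : h = 2 * rho (π * p / N) (π * q / N) * Real.sin (π * p / N) *
      Real.sin (k * (π * p / N)) →
    ∃ s : ℝ, |s| ≤ Xk (π * p / N) (π * q / N) k h ∧
      ((proj (F (s + h * Complex.I)) : body (TN N p q)) : ℂ) = tau ((p : ℝ) / N) ((q : ℝ) / N)

theorem exists_piece (hp : 0 < p) (hq : 0 < q) (hN : 2 * (p + q) < N) (hd : p ∣ N)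
    (g0 : G (TN N p q)) (h0 : rot g0) (k : ℕ) (hk : 1 ≤ k) (hk2 : (k + 1) * p ≤ 2 * q) {h : ℝ}
    (hh : 0 ≤ h) (h1 : h ≤ Dk (π * p / N) (π * q / N) k)
    (h2 : h ≤ 2 * rho (π * p / N) (π * q / N) * Real.sin (π * p / N) *
      Real.sin (k * (π * p / N))) :
    ∃ F : ℂ → Surf (TN N p q), Piece N p q
      (-Complex.I * uu g0 * Complex.exp (((k : ℤ) * (π * p / N) : ℝ) * Complex.I)) g0 k h F := by
  obtain ⟨F, hF⟩ := exists_pieceR hp hq hN hd g0 h0 k hk hk2 hh h1 h2
  refine ⟨F, hF.flat, ?_, fun u hu0 hu1 t ht hth y hy => (hF.left u hu0 hu1 t ht hth y hy).1,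
    hF.right, hF.notch⟩
  have hN' : p + q < N := by omega
  obtain ⟨ha, hb, hab⟩ := Form1_pos hp hq hN'
  have hv : AffineIndependent ℝ (TN N p q) := affineIndependent_tri ha hb hab
  have him := tau_im_pos ha hb hab
  have hflank : ∀ (g : G (TN N p q)) (y : body (TN N p q)) (u : ℝ), 0 < u → u < 1 →
      (y : ℂ) = zu ((p : ℝ) / N) ((q : ℝ) / N) u → Rg (Surf.mk g y) := by
    intro g y u hu0 hu1 hy
    have e1 : (zu ((p : ℝ) / N) ((q : ℝ) / N) u).im =
        (1 - u) * (tau ((p : ℝ) / N) ((q : ℝ) / N)).im := by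
      have e0 : zu ((p : ℝ) / N) ((q : ℝ) / N) u =
          ((1 - u : ℝ) : ℂ) * tau ((p : ℝ) / N) ((q : ℝ) / N) + ((u : ℝ) : ℂ) := by
        unfold zu
        push_cast
        ring
      rw [e0, Complex.add_im, Complex.im_ofReal_mul, Complex.ofReal_im, add_zero]
    apply rg_of_not_vertex hv
    rw [proj_mk, hy]
    have hlt : 0 < (1 - u) * (tau ((p : ℝ) / N) ((q : ℝ) / N)).im := mul_pos (by linarith) him
    intro k hk
    have e2 := congrArg Complex.im hk
    rw [e1] at e2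
    fin_cases k
    · change (1 - u) * (tau ((p : ℝ) / N) ((q : ℝ) / N)).im = (0 : ℂ).im at e2
      rw [Complex.zero_im] at e2
      linarith
    · change (1 - u) * (tau ((p : ℝ) / N) ((q : ℝ) / N)).im = (1 : ℂ).im at e2
      rw [Complex.one_im] at e2
      linarith
    · change (1 - u) * (tau ((p : ℝ) / N) ((q : ℝ) / N)).im =
        (tau ((p : ℝ) / N) ((q : ℝ) / N)).im at e2
      have : 0 < u * (tau ((p : ℝ) / N) ((q : ℝ) / N)).im := mul_pos hu0 him
      linarith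
  intro z hz hz0 hz1
  obtain ⟨hz2, hz3, hz4⟩ := hz
  rcases lt_or_eq_of_le hz4 with h3 | h3
  · obtain ⟨g, y, e1, -, -, e2⟩ := hF.rep z ⟨hz2, hz3, hz4⟩
    have e3 := e2 hz0 hz1 h3
    rw [e1]
    by_cases hy : (y : ℂ) = 0
    · exact rg_center hp hq hN' hd (by rw [proj_mk]; exact hy)
    · apply rg_of_not_vertex hv
      rw [proj_mk]
      intro k hk
      fin_cases k
      · exact hy hk
      · exact e3 (by rw [hk]; exact left_mem_segment ℝ _ _)
      · exact e3 (by rw [hk]; exact right_mem_segment ℝ _ _)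
  · have hD : 0 < Dk (π * p / N) (π * q / N) k := lt_of_lt_of_le (hz0.trans hz1) h1
    have hu0 : 0 < z.im / Dk (π * p / N) (π * q / N) k := div_pos hz0 hD
    have hu1 : z.im / Dk (π * p / N) (π * q / N) k < 1 := by
      rw [div_lt_one hD]
      linarith
    have ht : z.im = z.im / Dk (π * p / N) (π * q / N) k * Dk (π * p / N) (π * q / N) k := by
      field_simp
    have hmem := zu_mem ((p : ℝ) / N) ((q : ℝ) / N) hu0.le hu1.le
    have hzz : z = (z.re : ℂ) + z.im * Complex.I := (Complex.re_add_im z).symm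
    rcases abs_choice z.re with h4 | h4
    · have h5 : z.re = Xk (π * p / N) (π * q / N) k z.im := by rw [← h3, h4]
      have h6 := hF.right _ hu0.le hu1.le z.im ht hz3 ⟨_, hmem⟩ rfl
      rw [hzz, h5, h6]
      exact hflank _ _ _ hu0 hu1 rfl
    · have h5 : z.re = -Xk (π * p / N) (π * q / N) k z.im := by rw [← h3, h4, neg_neg]
      have h6 := (hF.left _ hu0.le hu1.le z.im ht hz3 ⟨_, hmem⟩ rfl).1
      rw [hzz, h5]
      push_cast
      rw [h6]
      exact hflank _ _ _ hu0 hu1 rfl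

end

end Pool.Agent.OBT
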