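import Mathlib
import Pool.Agent.OBT.StarX0

/-!
# The two crossings of a cylinder: elementary trigonometry
-/

open scoped ComplexConjugate Topology Real

namespace Pool.Agent.OBT

variable {x x2 : ℝ} {k k' : ℕ}

private theorem StarN_k' (hs : k * x + k' * x = 2 * x2) : k' * x - x2 = -(k * x - x2) := by
  linarith

theorem Dk_eq (hs : k * x + k' * x = 2 * x2) : Dk x x2 k' = Dk x x2 k := by
  unfold Dk
  rw [StarN_k' hs, Real.cos_neg]

private theorem StarN_kx (hx : 0 < x) (hk : 1 ≤ k) : x ≤ k * x := by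
  have h : (1 : ℝ) ≤ k := by exact_mod_cast hk
  nlinarith

private theorem StarN_kk (hx : 0 < x) (hkk : k ≤ k') : (k : ℝ) * x ≤ k' * x := by
  have h : (k : ℝ) ≤ k' := by exact_mod_cast hkk
  nlinarith

theorem Xk_add (hx : 0 < x) (hx2 : 0 < x2) (hob : x + x2 < π / 2) (hk : 1 ≤ k) (hkk : k ≤ k')
    (hs : k * x + k' * x = 2 * x2) (y : ℝ) :
    Xk x x2 k' y + Xk x x2 k y = 2 * Real.sin x2 * Real.cos (x2 - k * x) := by
  have h1 := StarN_kx hx hk
  have h2 := StarN_kk hx hkk
  have hc : 0 < Real.cos (k * x - x2) := by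
    apply Real.cos_pos_of_mem_Ioo
    constructor <;> linarith
  have hsn : 0 < Real.sin (x + x2) := Real.sin_pos_of_pos_of_lt_pi (by linarith) (by linarith)
  have h3 : Y0 x x2 k - Y0 x x2 k' = -(2 * Real.sin x2 * Real.sin (k * x - x2)) := by
    unfold Y0 rho
    rw [← mul_sub, Real.cos_sub_cos]
    have e1 : (((k : ℝ) + 1) * x + ((k' : ℝ) + 1) * x) / 2 = x + x2 := by linarith
    have e2 : (((k : ℝ) + 1) * x - ((k' : ℝ) + 1) * x) / 2 = k * x - x2 := by linarith
    rw [e1, e2]
    field_simp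
  unfold Xk
  rw [StarN_k' hs, Real.cos_neg, Real.sin_neg, ← add_div,
    show x2 - k * x = -(k * x - x2) by ring, Real.cos_neg, div_eq_iff hc.ne']
  have h4 := Real.sin_sq_add_cos_sq (k * x - x2)
  linear_combination Real.sin (k * x - x2) * h3 - 2 * Real.sin x2 * h4

theorem Xk_pos (hx : 0 < x) (hx2 : 0 < x2) (hob : x + x2 < π / 2) (hk : 1 ≤ k)
    (hk2 : k * x ≤ 2 * x2 - x) {y : ℝ} (hy : 0 ≤ y) (hy2 : y ≤ Dk x x2 k) : 0 < Xk x x2 k y := by
  have h1 := StarN_kx hx hk
  have hc := cos_kx_pos hx hx2 hob hk hk2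
  have hsn : 0 < Real.sin (x + x2) := Real.sin_pos_of_pos_of_lt_pi (by linarith) (by linarith)
  have hsx : 0 < Real.sin x := Real.sin_pos_of_pos_of_lt_pi hx (by linarith)
  have hsx2 : 0 < Real.sin x2 := Real.sin_pos_of_pos_of_lt_pi hx2 (by linarith)
  have hrho : 0 < rho x x2 := div_pos hsx2 hsn
  have hD : 0 < Dk x x2 k := mul_pos (div_pos hsx hsn) hc
  have hs1 : 0 < Real.sin (k * x) :=
    Real.sin_pos_of_pos_of_lt_pi (by linarith) (by linarith)
  have hs2 : 0 < Real.sin ((k + 1) * x) :=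
    Real.sin_pos_of_pos_of_lt_pi (by nlinarith) (by linarith)
  have e1 : Real.sin x2 = Real.sin (k * x) * Real.cos (k * x - x2)
      - Real.cos (k * x) * Real.sin (k * x - x2) := by
    rw [← Real.sin_sub]; congr 1; ring
  have e2 : Real.sin (x + x2) = Real.sin ((k + 1) * x) * Real.cos (k * x - x2)
      - Real.cos ((k + 1) * x) * Real.sin (k * x - x2) := by
    rw [← Real.sin_sub]; congr 1; ring
  have e3 : Real.sin x2 = rho x x2 * Real.sin (x + x2) := by
    unfold rho
    field_simp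
  have a0 : 0 < Real.sin x2 + Y0 x x2 k * Real.sin (k * x - x2) := by
    have : Real.sin x2 + Y0 x x2 k * Real.sin (k * x - x2)
        = rho x x2 * (Real.sin ((k + 1) * x) * Real.cos (k * x - x2)) := by
      unfold Y0
      linear_combination e3 + rho x x2 * e2
    rw [this]
    positivity
  have a1 : 0 < Real.sin x2 + (Y0 x x2 k + Dk x x2 k) * Real.sin (k * x - x2) := by
    rw [Y0_add_Dk k hsn.ne']
    have : Real.sin x2 + Real.cos (k * x) * Real.sin (k * x - x2)
        = Real.sin (k * x) * Real.cos (k * x - x2) := by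
      linear_combination e1
    rw [this]
    positivity
  unfold Xk
  apply div_pos _ hc
  have hy3 : 0 ≤ Dk x x2 k - y := by linarith
  have key : Dk x x2 k * (Real.sin x2 + (Y0 x x2 k + y) * Real.sin (k * x - x2))
      = (Dk x x2 k - y) * (Real.sin x2 + Y0 x x2 k * Real.sin (k * x - x2))
        + y * (Real.sin x2 + (Y0 x x2 k + Dk x x2 k) * Real.sin (k * x - x2)) := by ring
  have hpos : 0 < Dk x x2 k * (Real.sin x2 + (Y0 x x2 k + y) * Real.sin (k * x - x2)) := by
    rw [key]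
    rcases hy.lt_or_eq with h | h
    · have := mul_pos h a1
      have := mul_nonneg hy3 a0.le
      linarith
    · rw [← h]
      have := mul_pos hD a0
      simp only [sub_zero, zero_mul, add_zero]
      exact this
  exact (pos_iff_pos_of_mul_pos hpos).1 hD

theorem sin_mono (hx : 0 < x) (hx2 : 0 < x2) (hob : x + x2 < π / 2) (hk : 1 ≤ k) (hkk : k ≤ k')
    (hs : k * x + k' * x = 2 * x2) :
    2 * rho x x2 * Real.sin x * Real.sin (k * x) ≤
      2 * rho x x2 * Real.sin x * Real.sin (k' * x) := by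
  have h1 := StarN_kx hx hk
  have h2 := StarN_kk hx hkk
  have hsn : 0 < Real.sin (x + x2) := Real.sin_pos_of_pos_of_lt_pi (by linarith) (by linarith)
  have hsx : 0 < Real.sin x := Real.sin_pos_of_pos_of_lt_pi hx (by linarith)
  have hsx2 : 0 < Real.sin x2 := Real.sin_pos_of_pos_of_lt_pi hx2 (by linarith)
  have hrho : 0 < rho x x2 := div_pos hsx2 hsn
  apply mul_le_mul_of_nonneg_left _ (by positivity)
  rw [← sub_nonneg, Real.sin_sub_sin]
  have e1 : ((k' : ℝ) * x + k * x) / 2 = x2 := by linarith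
  rw [e1]
  have s1 : 0 ≤ Real.sin ((k' * x - k * x) / 2) :=
    Real.sin_nonneg_of_nonneg_of_le_pi (by linarith) (by linarith)
  have s2 : 0 ≤ Real.cos x2 := Real.cos_nonneg_of_mem_Icc ⟨by linarith, by linarith⟩
  positivity

theorem height_sep (hx : 0 < x) (hx2 : 0 < x2) (hob : x + x2 < π / 2) (hk : 1 ≤ k)
    (hkk : k + 2 ≤ k') (hs : k * x + k' * x = 2 * x2) {h : ℝ}
    (h2 : h ≤ 2 * rho x x2 * Real.sin x * Real.sin (k * x)) :
    Y0 x x2 k' + h ≤ Y0 x x2 k := by
  have h1 := StarN_kx hx hk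
  have h3 : ((k : ℝ) + 2) * x ≤ k' * x := by
    have h : ((k : ℝ) + 2) ≤ k' := by exact_mod_cast hkk
    nlinarith
  have hsn : 0 < Real.sin (x + x2) := Real.sin_pos_of_pos_of_lt_pi (by linarith) (by linarith)
  have hsx : 0 < Real.sin x := Real.sin_pos_of_pos_of_lt_pi hx (by linarith)
  have hsx2 : 0 < Real.sin x2 := Real.sin_pos_of_pos_of_lt_pi hx2 (by linarith)
  have hrho : 0 < rho x x2 := div_pos hsx2 hsn
  have c1 : Real.cos ((k' + 1) * x) ≤ Real.cos ((k + 3) * x) := by
    apply Real.cos_le_cos_of_nonneg_of_le_pi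
    · positivity
    · linarith
    · linarith
  have c2 : Real.cos ((k + 1) * x) - Real.cos ((k + 3) * x)
      = 2 * Real.sin x * Real.sin ((k + 2) * x) := by
    rw [Real.cos_sub_cos]
    have e1 : (((k : ℝ) + 1) * x + ((k : ℝ) + 3) * x) / 2 = (k + 2) * x := by ring
    have e2 : (((k : ℝ) + 1) * x - ((k : ℝ) + 3) * x) / 2 = -x := by ring
    rw [e1, e2, Real.sin_neg]
    ring
  have c3 : Real.sin (k * x) ≤ Real.sin ((k + 2) * x) := by
    rw [← sub_nonneg, Real.sin_sub_sin]
    have e1 : (((k : ℝ) + 2) * x + k * x) / 2 = (k + 1) * x := by ring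
    have e2 : (((k : ℝ) + 2) * x - k * x) / 2 = x := by ring
    rw [e1, e2]
    have : 0 ≤ Real.cos ((k + 1) * x) :=
      Real.cos_nonneg_of_mem_Icc ⟨by nlinarith, by linarith⟩
    positivity
  have c4 : 2 * rho x x2 * Real.sin x * Real.sin (k * x)
      ≤ rho x x2 * (2 * Real.sin x * Real.sin ((k + 2) * x)) := by
    have : 2 * rho x x2 * Real.sin x * Real.sin (k * x)
      = (rho x x2 * 2 * Real.sin x) * Real.sin (k * x) := by ring
    rw [this, ← mul_assoc, ← mul_assoc]
    exact mul_le_mul_of_nonneg_left c3 (by positivity)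
  have c5 : rho x x2 * Real.cos ((k' + 1) * x) ≤ rho x x2 * Real.cos ((k + 3) * x) :=
    mul_le_mul_of_nonneg_left c1 hrho.le
  unfold Y0
  rw [← c2, mul_sub] at c4
  linarith

/-- the height of the cylinder -/
theorem height_eq (hx : 0 < x) (hx2 : 0 < x2) (hob : x + x2 < π / 2) (k : ℕ) :
    Real.sin x / Real.sin (x + x2) *
      min (Real.cos (x2 - k * x)) (2 * Real.sin x2 * Real.sin (k * x)) =
    min (Dk x x2 k) (2 * rho x x2 * Real.sin x * Real.sin (k * x)) := by
  have hsn : 0 < Real.sin (x + x2) := Real.sin_pos_of_pos_of_lt_pi (by linarith) (by linarith)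
  have hsx : 0 < Real.sin x := Real.sin_pos_of_pos_of_lt_pi hx (by linarith)
  rw [mul_min_of_nonneg _ _ (by positivity)]
  congr 1
  · unfold Dk
    rw [show x2 - k * x = -(k * x - x2) by ring, Real.cos_neg]
  · unfold rho
    ring

end Pool.Agent.OBT
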