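import Mathlib
import Pool.Agent.OBT.StarE
import Pool.Agent.OBT.StarN
import Pool.Agent.OBT.StarV
import Pool.Agent.OBT.StarG
import Pool.Agent.OBT.ZDir

/-!
# The cylinders with two crossings
-/

open scoped ComplexConjugate Topology Real
open MeasureTheory Filter

namespace Pool.Agent.OBT

/-- the region between two symmetric curves -/
private def StarF_K (X : ℝ → ℝ) (h : ℝ) : Set ℂ := {z | 0 ≤ z.im ∧ z.im ≤ h ∧ |z.re| ≤ X z.im}

private theorem StarF_compact {X : ℝ → ℝ} (hX : Continuous X) (h : ℝ) :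
    IsCompact (StarF_K X h) := by
  apply Metric.isCompact_of_isClosed_isBounded
  · have h1 : IsClosed {z : ℂ | 0 ≤ z.im} := isClosed_le continuous_const Complex.continuous_im
    have h2 : IsClosed {z : ℂ | z.im ≤ h} := isClosed_le Complex.continuous_im continuous_const
    have h3 : IsClosed {z : ℂ | |z.re| ≤ X z.im} :=
      isClosed_le (continuous_abs.comp Complex.continuous_re) (hX.comp Complex.continuous_im)
    exact h1.inter (h2.inter h3)
  · obtain ⟨C, hC⟩ := (isCompact_Icc (a := (0 : ℝ)) (b := h)).bddAbove_image hX.continuousOn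
    have h1 : StarF_K X h ⊆ Metric.closedBall 0 (C + h) := by
      intro z hz
      obtain ⟨z1, z2, z3⟩ := hz
      rw [mem_closedBall_zero_iff]
      have h4 : X z.im ≤ C := hC ⟨z.im, ⟨z1, z2⟩, rfl⟩
      have h5 := Complex.norm_le_abs_re_add_abs_im z
      rw [abs_of_nonneg z1] at h5
      linarith
    exact Metric.isBounded_closedBall.subset h1

private theorem StarF_im (z : ℂ) (n : ℤ) (l : ℝ) : (z + n * l : ℂ).im = z.im := by simp

private theorem StarF_glue {v : Fin 3 → ℂ} {e : ℂ} {l h : ℝ} (hl : 0 < l) {XA XB : ℝ → ℝ}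
    (hXA : Continuous XA) (hXB : Continuous XB)
    (hadd : ∀ y, 0 ≤ y → y ≤ h → XA y + XB y = l / 2)
    (hA0 : ∀ y, 0 ≤ y → y ≤ h → 0 < XA y) (hB0 : ∀ y, 0 ≤ y → y ≤ h → 0 < XB y)
    {FA FB : ℂ → Surf v}
    (hFA : ∀ z ∈ StarF_K XA h, ∀ᶠ w in 𝓝[StarF_K XA h] z, Dsp (FA z) (FA w) (e * (w - z)))
    (hFB : ∀ z ∈ StarF_K XB h, ∀ᶠ w in 𝓝[StarF_K XB h] z, Dsp (FB z) (FB w) (e * (w - z)))
    (hg1 : ∀ t : ℝ, 0 ≤ t → t ≤ h → FA (XA t + t * Complex.I) = FB (-XB t + t * Complex.I))
    (hg2 : ∀ t : ℝ, 0 ≤ t → t ≤ h → FA (-XA t + t * Complex.I) = FB (XB t + t * Complex.I)) :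
    ∃ Ψ : ℂ → Surf v,
      (∀ (z : ℂ) (n : ℤ), z + n * l ∈ StarF_K XA h → Ψ z = FA (z + n * l)) ∧
      (∀ (z : ℂ) (n : ℤ), z + n * l - (l / 2 : ℝ) ∈ StarF_K XB h →
        Ψ z = FB (z + n * l - (l / 2 : ℝ))) ∧
      (∀ z ∈ strip h, (∃ n : ℤ, z + n * l ∈ StarF_K XA h) ∨
        (∃ n : ℤ, z + n * l - (l / 2 : ℝ) ∈ StarF_K XB h)) ∧
      (∀ z ∈ strip h, ∀ᶠ w in 𝓝[strip h] z, Dsp (Ψ z) (Ψ w) (e * (w - z))) ∧
      (∀ z ∈ strip h, Ψ (z + l) = Ψ z) := by
  have hcov : ∀ z ∈ strip h, (∃ n : ℤ, z + n * l ∈ StarF_K XA h) ∨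
        (∃ n : ℤ, z + n * l - (l / 2 : ℝ) ∈ StarF_K XB h) := by
    intro z hz
    obtain ⟨z1, z2⟩ := hz
    obtain ⟨n, ⟨n1, n2⟩, -⟩ := existsUnique_add_zsmul_mem_Ico hl z.re (-XA z.im)
    rw [zsmul_eq_mul] at n1 n2
    have hre : (z + n * l : ℂ).re = z.re + n * l := by simp
    have him : (z + n * l : ℂ).im = z.im := by simp
    have ha := hadd z.im z1 z2
    by_cases hc : z.re + n * l ≤ XA z.im
    · left
      refine ⟨n, ?_⟩
      show 0 ≤ (z + n * l : ℂ).im ∧ (z + n * l : ℂ).im ≤ h ∧ |(z + n * l : ℂ).re| ≤ _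
      rw [hre, him]
      exact ⟨z1, z2, abs_le.2 ⟨n1, hc⟩⟩
    · right
      refine ⟨n, ?_⟩
      have hre' : (z + n * l - (l / 2 : ℝ) : ℂ).re = z.re + n * l - l / 2 := by
        rw [Complex.sub_re, hre, Complex.ofReal_re]
      have him' : (z + n * l - (l / 2 : ℝ) : ℂ).im = z.im := by
        rw [Complex.sub_im, him, Complex.ofReal_im, sub_zero]
      show 0 ≤ (z + n * l - (l / 2 : ℝ) : ℂ).im ∧ (z + n * l - (l / 2 : ℝ) : ℂ).im ≤ h ∧
        |(z + n * l - (l / 2 : ℝ) : ℂ).re| ≤ _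
      rw [hre', him']
      have hc := not_le.1 hc
      refine ⟨z1, z2, abs_le.2 ⟨?_, ?_⟩⟩
      · linarith
      · linarith
  have hc1 : ∀ z : ℂ, z ∈ StarF_K XA h → ∀ n : ℤ, z + n * l ∈ StarF_K XA h → n = 0 := by
    intro z hz n hn
    obtain ⟨z1, z2, z3⟩ := hz
    obtain ⟨w1, w2, w3⟩ := hn
    have hre : (z + n * l : ℂ).re = z.re + n * l := by simp
    have him : (z + n * l : ℂ).im = z.im := by simp
    rw [hre, him] at w3
    have ha := hadd z.im z1 z2
    have hb := hB0 z.im z1 z2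
    rw [abs_le] at z3 w3
    have h1 : (n : ℝ) * l < 1 * l := by linarith
    have h2 : (-1 : ℝ) * l < n * l := by linarith
    have h3 := lt_of_mul_lt_mul_right h1 hl.le
    have h4 := lt_of_mul_lt_mul_right h2 hl.le
    have h5 : n < 1 := by exact_mod_cast h3
    have h6 : -1 < n := by exact_mod_cast h4
    omega
  have hc2 : ∀ z : ℂ, z - (l / 2 : ℝ) ∈ StarF_K XB h → ∀ n : ℤ,
      z + n * l - (l / 2 : ℝ) ∈ StarF_K XB h → n = 0 := by
    intro z hz n hn
    obtain ⟨z1, z2, z3⟩ := hz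
    obtain ⟨w1, w2, w3⟩ := hn
    have hre0 : (z - (l / 2 : ℝ) : ℂ).re = z.re - l / 2 := by
      rw [Complex.sub_re, Complex.ofReal_re]
    have him0 : (z - (l / 2 : ℝ) : ℂ).im = z.im := by
      rw [Complex.sub_im, Complex.ofReal_im, sub_zero]
    have hre : (z + n * l - (l / 2 : ℝ) : ℂ).re = z.re + n * l - l / 2 := by
      rw [Complex.sub_re, Complex.ofReal_re]
      simp
    have him : (z + n * l - (l / 2 : ℝ) : ℂ).im = z.im := by
      rw [Complex.sub_im, Complex.ofReal_im, sub_zero]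
      simp
    rw [hre, him] at w3
    rw [him0] at z1 z2
    rw [hre0, him0] at z3
    have ha := hadd z.im z1 z2
    have hb := hA0 z.im z1 z2
    rw [abs_le] at z3 w3
    have h1 : (n : ℝ) * l < 1 * l := by linarith
    have h2 : (-1 : ℝ) * l < n * l := by linarith
    have h3 := lt_of_mul_lt_mul_right h1 hl.le
    have h4 := lt_of_mul_lt_mul_right h2 hl.le
    have h5 : n < 1 := by exact_mod_cast h3
    have h6 : -1 < n := by exact_mod_cast h4
    omega
  have hc3 : ∀ z : ℂ, z ∈ StarF_K XA h → ∀ n : ℤ,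
      z + n * l - (l / 2 : ℝ) ∈ StarF_K XB h → FA z = FB (z + n * l - (l / 2 : ℝ)) := by
    intro z hz n hn
    obtain ⟨z1, z2, z3⟩ := hz
    obtain ⟨w1, w2, w3⟩ := hn
    have hre : (z + n * l - (l / 2 : ℝ) : ℂ).re = z.re + n * l - l / 2 := by
      rw [Complex.sub_re, Complex.ofReal_re]
      simp
    have him : (z + n * l - (l / 2 : ℝ) : ℂ).im = z.im := by
      rw [Complex.sub_im, Complex.ofReal_im, sub_zero]
      simp
    rw [hre, him] at w3
    have ha := hadd z.im z1 z2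
    rw [abs_le] at z3 w3
    have h1 : (n : ℝ) * l ≤ 1 * l := by linarith
    have h2 : (0 : ℝ) * l ≤ n * l := by linarith
    have h3 := le_of_mul_le_mul_right h1 hl
    have h4 := le_of_mul_le_mul_right h2 hl
    have h5 : n ≤ 1 := by exact_mod_cast h3
    have h6 : 0 ≤ n := by exact_mod_cast h4
    have h7 : n = 0 ∨ n = 1 := by omega
    rcases h7 with rfl | rfl
    · have h8 : z.re = XA z.im := by
        push_cast at w3
        linarith
      have h9 : z = XA z.im + z.im * Complex.I := by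
        rw [← h8]
        exact (Complex.re_add_im z).symm
      have h10 : z + ((0 : ℤ) : ℂ) * l - (l / 2 : ℝ) = -XB z.im + z.im * Complex.I := by
        have h11 : ((l / 2 : ℝ) : ℂ) = XA z.im + XB z.im := by
          rw [← ha]
          push_cast
          rfl
        rw [h11]
        push_cast
        linear_combination h9
      rw [h10]
      have h12 := hg1 z.im z1 z2
      rw [← h9] at h12
      exact h12
    · have h8 : z.re = -XA z.im := by
        push_cast at w3
        linarith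
      have h9 : z = -XA z.im + z.im * Complex.I := by
        have h10 : (-(XA z.im : ℂ)) = (z.re : ℂ) := by
          rw [h8]
          push_cast
          rfl
        rw [h10]
        exact (Complex.re_add_im z).symm
      have h10 : z + ((1 : ℤ) : ℂ) * l - (l / 2 : ℝ) = XB z.im + z.im * Complex.I := by
        have h11 : ((l : ℝ) : ℂ) = 2 * (XA z.im + XB z.im) := by
          have h13 : l = 2 * (XA z.im + XB z.im) := by linarith
          calc ((l : ℝ) : ℂ) = ((2 * (XA z.im + XB z.im) : ℝ) : ℂ) := by rw [← h13]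
            _ = _ := by push_cast; rfl
        push_cast
        rw [h11]
        linear_combination h9
      rw [h10]
      have h12 := hg2 z.im z1 z2
      rw [← h9] at h12
      exact h12
  let K : Bool → Set ℂ := fun b => if b then StarF_K XA h else {z : ℂ | z - (l / 2 : ℝ) ∈ StarF_K XB h}
  let f : Bool → ℂ → Surf v := fun b => if b then FA else fun z => FB (z - (l / 2 : ℝ))
  have hKt : K true = StarF_K XA h := rfl
  have hKf : K false = {z : ℂ | z - (l / 2 : ℝ) ∈ StarF_K XB h} := rfl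
  have hft : f true = FA := rfl
  have hff : f false = fun z => FB (z - (l / 2 : ℝ)) := rfl
  have hcont : Continuous (fun z : ℂ => z - (l / 2 : ℝ)) := by fun_prop
  obtain ⟨Ψ, P1, P2, P3⟩ := assemble (e := e) (h := h) hl K f
    (by
      intro b
      cases b
      · rw [hKf]
        have h1 := (StarF_compact hXB h).image (f := fun z : ℂ => z + (l / 2 : ℝ)) (by fun_prop)
        have h2 : {z : ℂ | z - (l / 2 : ℝ) ∈ StarF_K XB h} =
            (fun z : ℂ => z + (l / 2 : ℝ)) '' StarF_K XB h := by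
          ext z
          constructor
          · intro hz
            exact ⟨z - (l / 2 : ℝ), hz, by ring⟩
          · rintro ⟨w, hw, rfl⟩
            show w + (l / 2 : ℝ) - (l / 2 : ℝ) ∈ StarF_K XB h
            rwa [add_sub_cancel_right]
        rw [h2]
        exact h1
      · exact StarF_compact hXA h)
    (by
      intro b z hz
      cases b
      · rw [hKf] at hz ⊢
        rw [hff]
        have h1 := hFB _ hz
        have h2 : Tendsto (fun w : ℂ => w - (l / 2 : ℝ))
            (𝓝[{z : ℂ | z - (l / 2 : ℝ) ∈ StarF_K XB h}] z)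
            (𝓝[StarF_K XB h] (z - (l / 2 : ℝ))) := by
          apply tendsto_nhdsWithin_of_tendsto_nhds_of_eventually_within
          · exact hcont.continuousAt.tendsto.mono_left nhdsWithin_le_nhds
          · exact eventually_mem_nhdsWithin
        filter_upwards [h2.eventually h1] with w hw
        have h3 : w - (l / 2 : ℝ) - (z - (l / 2 : ℝ)) = w - z := by ring
        rw [h3] at hw
        exact hw
      · exact hFA z hz)
    (by
      intro z hz
      rcases hcov z hz with ⟨n, hn⟩ | ⟨n, hn⟩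
      · exact ⟨true, n, hn⟩
      · exact ⟨false, n, hn⟩)
    (by
      intro i j z n hi hj
      cases i
      · cases j
        · have h1 := hc2 z hi n hj
          rw [h1]
          simp
        · have h1 : (z + n * l) + ((-n : ℤ) : ℂ) * l - (l / 2 : ℝ) = z - (l / 2 : ℝ) := by
            push_cast
            ring
          have h2 := hc3 (z + n * l) hj (-n) (by rw [h1]; exact hi)
          rw [h1] at h2
          exact h2.symm
      · cases j
        · exact hc3 z hi n hj
        · have h1 := hc1 z hi n hj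
          rw [h1]
          simp)
  exact ⟨Ψ, fun z n hz => P1 true z n hz, fun z n hz => P1 false z n hz, hcov, P2, P3⟩

variable {N p q : ℕ}

private theorem StarF_pow {v : Fin 3 → ℂ} {g : G v} (hg : rot g) (m : ℕ) :
    rot (g ^ m) ∧ uu (g ^ m) = uu g ^ m := by
  induction m with
  | zero =>
    rw [pow_zero, pow_zero]
    exact ⟨rot_one, Form1_uu_one⟩
  | succ m ih =>
    rw [pow_succ, pow_succ]
    refine ⟨(rot_mul_iff _ _).2 (iff_of_true ih.1 hg), ?_⟩
    rw [uu_mul_of_rot _ ih.1, ih.2]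

private theorem StarF_E (s t : ℝ) : Complex.exp ((s : ℂ) * Complex.I) * Complex.exp (t * Complex.I) =
    Complex.exp (((s + t : ℝ) : ℂ) * Complex.I) := by
  rw [← Complex.exp_add]
  congr 1
  push_cast
  ring

private theorem StarF_EN (s : ℝ) (m : ℕ) : Complex.exp ((s : ℂ) * Complex.I) ^ m =
    Complex.exp (((m * s : ℝ) : ℂ) * Complex.I) := by
  rw [← Complex.exp_nat_mul]
  congr 1
  push_cast
  ring

private theorem StarF_r12 (hp : 0 < p) (hq : 0 < q) (hN : p + q < N) :
    rot (r (TN N p q) 1 * r (TN N p q) 2) ∧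
    uu (r (TN N p q) 1 * r (TN N p q) 2) = Complex.exp ((2 * (π * p / N) : ℝ) * Complex.I) := by
  obtain ⟨h1, h2, h3⟩ := Form1_pos hp hq hN
  have hr : ∀ k, ¬ rot (r (TN N p q) k) := fun k => not_rot_r k (tri_ne h1 h2 h3 k)
  refine ⟨(rot_mul_iff _ _).2 (iff_of_false (hr 1) (hr 2)), ?_⟩
  rw [uu_mul_of_not_rot _ (hr 1), Form1_uu_r, Form1_uu_r, chi_tri_one h1 h2 h3,
    chi_tri_two h1 h2 h3, map_one, mul_one]
  congr 1
  push_cast
  ring

private theorem StarF_r20 (hp : 0 < p) (hq : 0 < q) (hN : p + q < N) :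
    rot (r (TN N p q) 2 * r (TN N p q) 0) ∧
    uu (r (TN N p q) 2 * r (TN N p q) 0) = Complex.exp ((2 * (π * q / N) : ℝ) * Complex.I) := by
  obtain ⟨h1, h2, h3⟩ := Form1_pos hp hq hN
  have hr : ∀ k, ¬ rot (r (TN N p q) k) := fun k => not_rot_r k (tri_ne h1 h2 h3 k)
  refine ⟨(rot_mul_iff _ _).2 (iff_of_false (hr 2) (hr 0)), ?_⟩
  rw [uu_mul_of_not_rot _ (hr 2), Form1_uu_r, Form1_uu_r, chi_tri_zero h1 h2 h3,
    chi_tri_two h1 h2 h3, one_mul]
  have h4 : (-(2 * π * ((q : ℝ) / N : ℝ)) * Complex.I : ℂ) =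
      ((-(2 * π * ((q : ℝ) / N)) : ℝ) : ℂ) * Complex.I := by
    push_cast
    ring
  rw [h4, Form1_exp_conj]
  congr 1
  push_cast
  ring

/-- the centre of the second star -/
private theorem StarF_second (hp : 0 < p) (hq : 0 < q) (hN : p + q < N) (k k' : ℕ)
    (hs : k * (π * p / N) + k' * (π * p / N) = 2 * (π * q / N))
    (g0 : G (TN N p q)) (h0 : rot g0) :
    ∃ g1 : G (TN N p q), rot g1 ∧
      g1 * (r (TN N p q) 1 * r (TN N p q) 2) ^ k' = g0 * r (TN N p q) 2 * r (TN N p q) 0 ∧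
      g0 * (r (TN N p q) 1 * r (TN N p q) 2) ^ k = g1 * r (TN N p q) 2 * r (TN N p q) 0 ∧
      uu g1 * Complex.exp (((k' : ℤ) * (π * p / N) : ℝ) * Complex.I) =
        uu g0 * Complex.exp (((k : ℤ) * (π * p / N) : ℝ) * Complex.I) := by
  obtain ⟨a1, a2⟩ := StarF_r12 hp hq hN
  obtain ⟨b1, b2⟩ := StarF_r20 hp hq hN
  set P := r (TN N p q) 1 * r (TN N p q) 2 with hP
  set Q := r (TN N p q) 2 * r (TN N p q) 0 with hQ
  set x : ℝ := π * p / N with hx
  set x2 : ℝ := π * q / N with hx2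
  obtain ⟨c1, c2⟩ := StarF_pow a1 k
  obtain ⟨d1, d2⟩ := StarF_pow a1 k'
  rw [a2, StarF_EN] at c2 d2
  have e1 : g0 * Q * (P ^ k')⁻¹ * P ^ k' = g0 * Q := by group
  set g1 := g0 * Q * (P ^ k')⁻¹ with hg1
  have e2 : rot (g0 * Q) := (rot_mul_iff _ _).2 (iff_of_true h0 b1)
  have e3 : rot g1 := by
    have h1 := (rot_mul_iff g1 (P ^ k')).1 (by rw [e1]; exact e2)
    exact h1.2 d1
  have e4 : uu g1 * Complex.exp (((k' * (2 * x) : ℝ) : ℂ) * Complex.I) =
      uu g0 * Complex.exp (((2 * x2 : ℝ) : ℂ) * Complex.I) := by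
    rw [← d2, ← b2, ← uu_mul_of_rot _ e3, ← uu_mul_of_rot _ h0, e1]
  have e5 : uu g1 = uu g0 * Complex.exp (((2 * x2 - k' * (2 * x) : ℝ) : ℂ) * Complex.I) := by
    have h1 : Complex.exp (((k' * (2 * x) : ℝ) : ℂ) * Complex.I) ≠ 0 := Complex.exp_ne_zero _
    apply mul_right_cancel₀ h1
    rw [e4, mul_assoc, StarF_E]
    congr 3
    ring_nf
  refine ⟨g1, e3, by rw [e1, hQ, mul_assoc], ?_, ?_⟩
  · rw [mul_assoc g1, ← hQ]
    apply Form1_ext
    · rw [uu_mul_of_rot _ h0, uu_mul_of_rot _ e3, c2, b2, e5, mul_assoc, StarF_E]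
      congr 3
      have h1 : (k : ℝ) * (2 * x) = 2 * x2 - k' * (2 * x) + 2 * x2 := by linarith
      rw [h1]
    · exact iff_of_true ((rot_mul_iff _ _).2 (iff_of_true h0 c1))
        ((rot_mul_iff _ _).2 (iff_of_true e3 b1))
  · rw [e5, mul_assoc, StarF_E]
    congr 3
    have h1 : 2 * x2 - k' * (2 * x) + ((k' : ℤ) : ℝ) * x = ((k : ℤ) : ℝ) * x := by
      push_cast
      linarith
    rw [h1]

private theorem StarF_edge {a b : ℝ} {u : ℝ} (h0 : 0 ≤ u) (h1 : u ≤ 1) :
    zu a b u ∈ edge (tri a b) 0 := by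
  show zu a b u ∈ segment ℝ (1 : ℂ) (tau a b)
  refine ⟨u, 1 - u, h0, by linarith, by ring, ?_⟩
  unfold zu
  rw [Complex.real_smul, Complex.real_smul]
  push_cast
  ring

/-- section 7 (also for `k = k'`) -/
theorem exists_preCyl (hp : 0 < p) (hq : 0 < q) (hN : 2 * (p + q) < N) (hd : p ∣ N)
    (k k' : ℕ) (hk : 1 ≤ k) (hkk : k ≤ k') (hs : p * (k + k') = 2 * q)
    (htop : 2 * Real.sin (π * q / N) * Real.sin (k * (π * p / N)) ≤
      Real.cos (π * q / N - k * (π * p / N)) ∨ ¬ q ∣ N)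
    (g0 : G (TN N p q)) (h0 : rot g0) :
    ∃ C : ℂ → Surf (TN N p q), PreCylE (TN N p q)
      (-Complex.I * uu g0 * Complex.exp (((k : ℤ) * (π * p / N) : ℝ) * Complex.I))
      (4 * Real.sin (π * q / N) * Real.cos (π * q / N - k * (π * p / N)))
      (Real.sin (π * p / N) / Real.sin (π * p / N + π * q / N) *
        min (Real.cos (π * q / N - k * (π * p / N)))
          (2 * Real.sin (π * q / N) * Real.sin (k * (π * p / N)))) C := by
  have hN1 : p + q < N := by omega
  have hN0 : (0 : ℝ) < N := by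
    have : 0 < N := by omega
    exact_mod_cast this
  have hpr : (0 : ℝ) < p := by exact_mod_cast hp
  have hqr : (0 : ℝ) < q := by exact_mod_cast hq
  have hpi := Real.pi_pos
  have hk1 : (1 : ℝ) ≤ k := by exact_mod_cast hk
  have hkkr : (k : ℝ) ≤ k' := by exact_mod_cast hkk
  have hsx : (k : ℝ) * (π * p / N) + k' * (π * p / N) = 2 * (π * q / N) := by
    have h1 : (p : ℝ) * (k + k') = 2 * q := by exact_mod_cast hs
    have h2 : (k : ℝ) * (π * p / N) + k' * (π * p / N) = π / N * (p * (k + k')) := by ring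
    rw [h2, h1]
    ring
  obtain ⟨g1, r1, f1, f2, f3⟩ := StarF_second hp hq hN1 k k' hsx g0 h0
  have hx : 0 < π * p / N := by positivity
  have hx2 : 0 < π * q / N := by positivity
  have hob : π * p / N + π * q / N < π / 2 := by
    have h1 : (2 : ℝ) * (p + q) < N := by exact_mod_cast hN
    have h2 : π * p / N + π * q / N = π * (2 * (p + q)) / N / 2 := by ring
    rw [h2]
    have h3 : π * (2 * (p + q)) / N < π := by
      rw [div_lt_iff₀ hN0]
      exact mul_lt_mul_of_pos_left h1 hpi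
    linarith
  set x : ℝ := π * p / N with hxd
  set x2 : ℝ := π * q / N with hx2d
  have hkx : (k : ℝ) * x ≤ x2 := by
    have h1 : (k : ℝ) * x ≤ k' * x := mul_le_mul_of_nonneg_right hkkr hx.le
    linarith
  have hk1x : 1 * x ≤ (k : ℝ) * x := mul_le_mul_of_nonneg_right hk1 hx.le
  have hk'1 : (1 : ℝ) ≤ k' := hk1.trans hkkr
  have hk'1x : 1 * x ≤ (k' : ℝ) * x := mul_le_mul_of_nonneg_right hk'1 hx.le
  have hkd : (k : ℝ) * x ≤ 2 * x2 - x := by linarith
  have hkd' : (k' : ℝ) * x ≤ 2 * x2 - x := by linarith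
  have hcos : 0 < Real.cos (x2 - k * x) := by
    apply Real.cos_pos_of_mem_Ioo
    constructor
    · linarith
    · linarith
  have hsin2 : 0 < Real.sin x2 := Real.sin_pos_of_pos_of_lt_pi hx2 (by linarith)
  have hsin1 : 0 < Real.sin x := Real.sin_pos_of_pos_of_lt_pi hx (by linarith)
  have hsin12 : 0 < Real.sin (x + x2) := Real.sin_pos_of_pos_of_lt_pi (by linarith) (by linarith)
  have hsink : 0 < Real.sin (k * x) :=
    Real.sin_pos_of_pos_of_lt_pi (by linarith) (by linarith)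
  have hl : 0 < 4 * Real.sin x2 * Real.cos (x2 - k * x) := by positivity
  have hH := height_eq hx hx2 hob k
  have hHpos : 0 < Real.sin x / Real.sin (x + x2) *
      min (Real.cos (x2 - k * x)) (2 * Real.sin x2 * Real.sin (k * x)) :=
    mul_pos (div_pos hsin1 hsin12) (lt_min hcos (by positivity))
  rw [hH] at hHpos ⊢
  set h : ℝ := min (Dk x x2 k) (2 * rho x x2 * Real.sin x * Real.sin (k * x)) with hh
  have hDk := Dk_eq hsx
  have hhD : h ≤ Dk x x2 k := min_le_left _ _
  have hhn : h ≤ 2 * rho x x2 * Real.sin x * Real.sin (k * x) := min_le_right _ _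
  have hkp : (k + 1) * p ≤ 2 * q := by
    rw [← hs]
    have h1 : k + 1 ≤ k + k' := by omega
    calc (k + 1) * p ≤ (k + k') * p := Nat.mul_le_mul_right p h1
      _ = p * (k + k') := by ring
  have hkp' : (k' + 1) * p ≤ 2 * q := by
    rw [← hs]
    have h1 : k' + 1 ≤ k + k' := by omega
    calc (k' + 1) * p ≤ (k + k') * p := Nat.mul_le_mul_right p h1
      _ = p * (k + k') := by ring
  obtain ⟨FB, hB⟩ := exists_piece hp hq hN hd g0 h0 k hk hkp hHpos.le hhD hhn
  obtain ⟨FA, hA⟩ := exists_piece hp hq hN hd g1 r1 k' (hk.trans hkk) hkp' hHpos.le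
    (by rw [← hxd, ← hx2d, hDk]; exact hhD)
    (hhn.trans (sin_mono hx hx2 hob hk hkk hsx))
  have f3' : -Complex.I * uu g1 * Complex.exp (((k' : ℤ) * x : ℝ) * Complex.I) =
      -Complex.I * uu g0 * Complex.exp (((k : ℤ) * x : ℝ) * Complex.I) := by
    rw [mul_assoc, mul_assoc, f3]
  rw [← hxd, f3'] at hA
  have hD0 : 0 < Dk x x2 k := hHpos.trans_le hhD
  have hmA : ∀ z : ℂ, z ∈ KK (π * p / N) (π * q / N) k' h ↔ z ∈ StarF_K (Xk x x2 k') h :=
    fun z => Iff.rfl
  have hsA : KK (π * p / N) (π * q / N) k' h = StarF_K (Xk x x2 k') h := rfl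
  have hsB : KK (π * p / N) (π * q / N) k h = StarF_K (Xk x x2 k) h := rfl
  have hcX : ∀ j : ℕ, Continuous (Xk x x2 j) := by
    intro j
    unfold Xk
    fun_prop
  have hpar : ∀ t : ℝ, 0 ≤ t → t ≤ h → ∃ u : ℝ, 0 ≤ u ∧ u ≤ 1 ∧ t = u * Dk x x2 k := by
    intro t t0 t1
    refine ⟨t / Dk x x2 k, div_nonneg t0 hD0.le, ?_, ?_⟩
    · rw [div_le_one hD0]
      exact t1.trans hhD
    · rw [div_mul_cancel₀ _ hD0.ne']
  obtain ⟨Ψ, P1, P2, P3, P4, P5⟩ := StarF_glue
    (e := -Complex.I * uu g0 * Complex.exp (((k : ℤ) * x : ℝ) * Complex.I)) (h := h)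
    (FA := FA) (FB := FB) hl (hcX k') (hcX k)
    (by
      intro y y0 y1
      rw [Xk_add hx hx2 hob hk hkk hsx]
      ring)
    (by
      intro y y0 y1
      exact Xk_pos hx hx2 hob (hk.trans hkk) hkd' y0 (by rw [hDk]; exact y1.trans hhD))
    (by
      intro y y0 y1
      exact Xk_pos hx hx2 hob hk hkd y0 (y1.trans hhD))
    (by
      have h1 := hA.flat
      rw [hsA] at h1
      exact h1)
    (by
      have h1 := hB.flat
      rw [hsB] at h1
      exact h1)
    (by
      intro t t0 t1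
      obtain ⟨u, u0, u1, hu⟩ := hpar t t0 t1
      have h1 := hA.right u u0 u1 t (by rw [← hxd, ← hx2d, hDk]; exact hu) t1
        ⟨_, zu_mem _ _ u0 u1⟩ rfl
      have h2 := hB.left u u0 u1 t hu t1 ⟨_, zu_mem _ _ u0 u1⟩ rfl
      rw [← hxd, ← hx2d] at h1 h2
      rw [h1, h2, f2]
      exact (mk_mul_r _ _ 0 (StarF_edge u0 u1)).symm)
    (by
      intro t t0 t1
      obtain ⟨u, u0, u1, hu⟩ := hpar t t0 t1
      have h1 := hA.left u u0 u1 t (by rw [← hxd, ← hx2d, hDk]; exact hu) t1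
        ⟨_, zu_mem _ _ u0 u1⟩ rfl
      have h2 := hB.right u u0 u1 t hu t1 ⟨_, zu_mem _ _ u0 u1⟩ rfl
      rw [← hxd, ← hx2d] at h1 h2
      rw [h1, h2, f1]
      exact mk_mul_r _ _ 0 (StarF_edge u0 u1))
  refine ⟨Ψ, ?_, hl, hHpos, ?_, ?_, ?_, ?_, ?_⟩
  · rw [norm_mul, norm_mul, norm_neg, Complex.norm_I, norm_uu, Complex.norm_exp_ofReal_mul_I]
    norm_num
  · intro z z0 z1
    have h1 := P4 z ⟨z0, z1⟩
    rw [eventually_nhdsWithin_iff] at h1
    filter_upwards [h1] with w hw w0 w1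
    exact hw ⟨w0, w1⟩
  · intro z z0 z1
    exact P5 z ⟨z0, z1⟩
  · intro z z0 z1
    rw [← rg_iff_reg]
    rcases P3 z ⟨z0.le, z1.le⟩ with ⟨n, hn⟩ | ⟨n, hn⟩
    · rw [P1 z n hn]
      have him : (z + n * (4 * Real.sin x2 * Real.cos (x2 - k * x) : ℝ) : ℂ).im = z.im :=
        StarF_im z n _
      exact hA.reg _ hn (by rw [him]; exact z0) (by rw [him]; exact z1)
    · rw [P2 z n hn]
      have him : (z + n * (4 * Real.sin x2 * Real.cos (x2 - k * x) : ℝ) -
          (4 * Real.sin x2 * Real.cos (x2 - k * x) / 2 : ℝ) : ℂ).im = z.im := by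
        rw [Complex.sub_im, Complex.ofReal_im, sub_zero]
        exact StarF_im z n _
      exact hB.reg _ hn (by rw [him]; exact z0) (by rw [him]; exact z1)
  · refine ⟨Xk x x2 k' 0, ?_⟩
    rw [← rg_iff_reg]
    have h1 := P1 (Xk x x2 k' 0) 0 (by
      rw [Int.cast_zero, zero_mul, add_zero]
      refine ⟨?_, ?_, ?_⟩
      · rw [Complex.ofReal_im]
      · rw [Complex.ofReal_im]
        exact hHpos.le
      · rw [Complex.ofReal_im, Complex.ofReal_re, abs_of_pos]
        exact Xk_pos hx hx2 hob (hk.trans hkk) hkd' le_rfl (by rw [hDk]; exact hD0.le))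
    rw [Int.cast_zero, zero_mul, add_zero] at h1
    rw [h1]
    have h2 := hA.right 0 le_rfl zero_le_one 0 (by rw [zero_mul]) hHpos.le
      ⟨_, zu_mem _ _ le_rfl zero_le_one⟩ rfl
    rw [← hxd, ← hx2d, Complex.ofReal_zero, zero_mul, add_zero] at h2
    rw [h2]
    apply not_rg_tau hp hq hN
    rw [proj_mk]
    show zu _ _ _ = _
    unfold zu
    simp
  · have hmem : ∀ s : ℝ, |s| ≤ Xk x x2 k h →
        Ψ ((s + 4 * Real.sin x2 * Real.cos (x2 - k * x) / 2 : ℝ) + h * Complex.I) =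
          FB (s + h * Complex.I) := by
      intro s hs1
      have h3 : ((s + 4 * Real.sin x2 * Real.cos (x2 - k * x) / 2 : ℝ) : ℂ) + h * Complex.I +
          ((0 : ℤ) : ℂ) * (4 * Real.sin x2 * Real.cos (x2 - k * x) : ℝ) -
          (4 * Real.sin x2 * Real.cos (x2 - k * x) / 2 : ℝ) = s + h * Complex.I := by
        push_cast
        ring
      have h4 := P2 (((s + 4 * Real.sin x2 * Real.cos (x2 - k * x) / 2 : ℝ) : ℂ) +
        h * Complex.I) 0 (by
          rw [h3]
          refine ⟨?_, ?_, ?_⟩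
          · simp
            exact hHpos.le
          · simp
          · simpa using hs1)
      rw [h3] at h4
      exact h4
    by_cases hc : 2 * rho x x2 * Real.sin x * Real.sin (k * x) ≤ Dk x x2 k
    · have h5 : h = 2 * rho x x2 * Real.sin x * Real.sin (k * x) := min_eq_right hc
      obtain ⟨s, s1, s2⟩ := hB.notch h5
      refine ⟨s + 4 * Real.sin x2 * Real.cos (x2 - k * x) / 2, ?_⟩
      rw [← rg_iff_reg, hmem s s1]
      exact not_rg_tau hp hq hN s2
    · have h5 : h = Dk x x2 k := min_eq_left (not_le.1 hc).le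
      have hnq : ¬ q ∣ N := by
        rcases htop with h6 | h6
        · exfalso
          apply hc
          have h7 : 2 * rho x x2 * Real.sin x * Real.sin (k * x) =
              Real.sin x / Real.sin (x + x2) * (2 * Real.sin x2 * Real.sin (k * x)) := by
            unfold rho
            ring
          have h8 : Dk x x2 k = Real.sin x / Real.sin (x + x2) * Real.cos (x2 - k * x) := by
            unfold Dk
            rw [← Real.cos_neg (x2 - k * x)]
            congr 2
            ring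
          rw [h7, h8]
          exact mul_le_mul_of_nonneg_left h6 (div_pos hsin1 hsin12).le
        · exact h6
      have h9 : 0 < Xk x x2 k h := Xk_pos hx hx2 hob hk hkd hHpos.le hhD
      refine ⟨Xk x x2 k h + 4 * Real.sin x2 * Real.cos (x2 - k * x) / 2, ?_⟩
      rw [← rg_iff_reg, hmem (Xk x x2 k h) (abs_of_pos h9).le]
      have h2 := hB.right 1 zero_le_one le_rfl h (by rw [← hxd, ← hx2d, one_mul]; exact h5)
        le_rfl ⟨_, zu_mem _ _ zero_le_one le_rfl⟩ rfl
      rw [← hxd, ← hx2d] at h2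
      rw [h2]
      apply not_rg_one hp hq hN hnq
      rw [proj_mk]
      show zu _ _ _ = _
      unfold zu
      simp

end Pool.Agent.OBT
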