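import Mathlib
import Pool.Agent.OBT.StarF

/-!
# The ratio of the moduli of two star cylinders of a lattice triangle is rational
-/

open scoped ComplexConjugate Topology Real
open MeasureTheory Filter

namespace Pool.Agent.OBT

noncomputable section

variable {N p q : ℕ}

/-- the modulus of the star cylinder number `k`, up to a factor which does not depend on `k` -/
def muk (N p q k : ℕ) : ℝ :=
  min 1 (2 * Real.sin (π * q / N) * Real.sin (k * (π * p / N)) /
    Real.cos (π * q / N - k * (π * p / N)))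

theorem StarZ_uu_one {v : Fin 3 → ℂ} : uu (1 : G v) = 1 := rfl

theorem StarZ_pow {v : Fin 3 → ℂ} {g : G v} (hg : rot g) (n : ℕ) :
    rot (g ^ n) ∧ uu (g ^ n) = uu g ^ n := by
  induction n with
  | zero =>
    rw [pow_zero, pow_zero]
    exact ⟨rot_one, StarZ_uu_one⟩
  | succ n ih =>
    rw [pow_succ, pow_succ]
    exact ⟨(rot_mul_iff _ _).2 (iff_of_true ih.1 hg), by rw [uu_mul_of_rot _ ih.1, ih.2]⟩

theorem StarZ_inv {v : Fin 3 → ℂ} {g : G v} (hg : rot g) :
    rot g⁻¹ ∧ uu g⁻¹ = (uu g)⁻¹ := by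
  have h1 : rot (g * g⁻¹) := by
    rw [mul_inv_cancel]
    exact rot_one
  have h2 : rot g⁻¹ := ((rot_mul_iff _ _).1 h1).1 hg
  refine ⟨h2, ?_⟩
  have h3 := uu_mul_of_rot g⁻¹ hg
  rw [mul_inv_cancel, StarZ_uu_one] at h3
  exact eq_inv_of_mul_eq_one_right h3.symm

theorem StarZ_zpow {v : Fin 3 → ℂ} {g : G v} (hg : rot g) (n : ℤ) :
    rot (g ^ n) ∧ uu (g ^ n) = uu g ^ n := by
  rcases n with n | n
  · rw [Int.ofNat_eq_natCast, zpow_natCast, zpow_natCast]
    exact StarZ_pow hg n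
  · rw [zpow_negSucc, zpow_negSucc]
    have h1 := StarZ_pow hg (n + 1)
    have h2 := StarZ_inv h1.1
    exact ⟨h2.1, by rw [h2.2, h1.2]⟩

/-- every `N`-th root of unity is the rotation part of an element of the group -/
theorem exists_rot_all (hp : 0 < p) (hq : 0 < q) (hN : p + q < N)
    (hg : Nat.gcd (Nat.gcd p q) N = 1) (j : ℤ) :
    ∃ g : G (TN N p q), rot g ∧ uu g = Complex.exp ((2 * π * j / N : ℝ) * Complex.I) := by
  obtain ⟨⟨g₁, hr₁, hu₁⟩, ⟨g₂, hr₂, hu₂⟩⟩ := exists_rot hp hq hN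
  have hN0 : (N : ℂ) ≠ 0 := by
    have : N ≠ 0 := by omega
    exact_mod_cast this
  -- Bezout
  have hb1 : ((Nat.gcd p q : ℕ) : ℤ) = p * Nat.gcdA p q + q * Nat.gcdB p q := Nat.gcd_eq_gcd_ab p q
  have hb2 : ((Nat.gcd (Nat.gcd p q) N : ℕ) : ℤ) =
      (Nat.gcd p q : ℕ) * Nat.gcdA (Nat.gcd p q) N + N * Nat.gcdB (Nat.gcd p q) N :=
    Nat.gcd_eq_gcd_ab _ _
  rw [hg, hb1] at hb2
  obtain ⟨a, b, c, habc⟩ : ∃ a b c : ℤ, (p : ℤ) * a + q * b + N * c = 1 := by
    refine ⟨Nat.gcdA p q * Nat.gcdA (Nat.gcd p q) N, Nat.gcdB p q * Nat.gcdA (Nat.gcd p q) N,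
      Nat.gcdB (Nat.gcd p q) N, ?_⟩
    push_cast at hb2
    linarith
  have h1 := StarZ_zpow hr₁ (a * j)
  have h2 := StarZ_zpow hr₂ (b * j)
  refine ⟨g₁ ^ (a * j) * g₂ ^ (b * j), (rot_mul_iff _ _).2 (iff_of_true h1.1 h2.1), ?_⟩
  rw [uu_mul_of_rot _ h1.1, h1.2, h2.2, hu₁, hu₂, ← Complex.exp_int_mul, ← Complex.exp_int_mul,
    ← Complex.exp_add, Complex.exp_eq_exp_iff_exists_int]
  refine ⟨-(c * j), ?_⟩
  have h3 : (p : ℂ) * a + q * b + N * c = 1 := by exact_mod_cast habc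
  push_cast
  field_simp
  linear_combination (j : ℂ) * h3

theorem StarZ_alg2 (A B S C m : ℝ) (hA : A ≠ 0) (hB : B ≠ 0) (hS : S ≠ 0) (hC : C ≠ 0)
    (hm : m ≠ 0) : (4 * B * C) / (A / S * (C * m)) = (4 * B * S) / A * (1 / m) := by
  field_simp

/-- the star cylinder number `k` -/
theorem StarZ_cyl (hp : 0 < p) (hq : 0 < q) (hN : 2 * (p + q) < N)
    (hd : p ∣ N) (hd2 : p ∣ 2 * q)
    {k : ℕ} (hk : 1 ≤ k) (hkp : k * p ≤ q)
    (ht : 2 * Real.sin (π * q / N) * Real.sin (k * (π * p / N)) ≤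
      Real.cos (π * q / N - k * (π * p / N)) ∨ ¬ q ∣ N) (g0 : G (TN N p q)) (h0 : rot g0) :
    ∃ (l h : ℝ) (Ψ : ℂ → Surf (TN N p q)), PreCylE (TN N p q)
      (-Complex.I * uu g0 * Complex.exp (((k : ℤ) * (π * p / N) : ℝ) * Complex.I)) l h Ψ ∧
      l / h = 4 * Real.sin (π * q / N) * Real.sin (π * p / N + π * q / N) /
        Real.sin (π * p / N) * (1 / muk N p q k) ∧ 0 < muk N p q k := by
  have hNr : (0 : ℝ) < N := by
    have : 0 < N := by omega
    exact_mod_cast this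
  have hpr : (0 : ℝ) < p := by exact_mod_cast hp
  have hqr : (0 : ℝ) < q := by exact_mod_cast hq
  have hNr2 : 2 * ((p : ℝ) + q) < N := by exact_mod_cast hN
  have hpi := Real.pi_pos
  have hx : 0 < π * p / N := by positivity
  have hx2 : 0 < π * q / N := by positivity
  have hxx : π * p / N + π * q / N < π / 2 := by
    rw [← add_div, ← mul_add, div_lt_div_iff₀ hNr two_pos]
    nlinarith
  have hkx : (k : ℝ) * (π * p / N) ≤ π * q / N := by
    have h1 : (k : ℝ) * p ≤ q := by exact_mod_cast hkp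
    rw [← mul_div_assoc]
    apply div_le_div_of_nonneg_right _ hNr.le
    nlinarith
  have hkx0 : 0 ≤ (k : ℝ) * (π * p / N) := by positivity
  have hcos : 0 < Real.cos (π * q / N - k * (π * p / N)) := by
    apply Real.cos_pos_of_mem_Ioo
    constructor <;> linarith
  have hs2 : 0 < Real.sin (π * q / N) := Real.sin_pos_of_pos_of_lt_pi hx2 (by linarith)
  have hs3 : 0 < Real.sin (π * p / N + π * q / N) :=
    Real.sin_pos_of_pos_of_lt_pi (by linarith) (by linarith)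
  have hmin : min (Real.cos (π * q / N - k * (π * p / N)))
      (2 * Real.sin (π * q / N) * Real.sin (k * (π * p / N))) =
      Real.cos (π * q / N - k * (π * p / N)) * min 1 (2 * Real.sin (π * q / N) *
        Real.sin (k * (π * p / N)) / Real.cos (π * q / N - k * (π * p / N))) := by
    rw [mul_min_of_nonneg _ _ hcos.le, mul_one, mul_div_cancel₀ _ hcos.ne']
  have hs1 : 0 < Real.sin (π * p / N) := Real.sin_pos_of_pos_of_lt_pi hx (by linarith)
  have hskx : 0 < Real.sin (k * (π * p / N)) := by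
    apply Real.sin_pos_of_pos_of_lt_pi
    · have : (0 : ℝ) < k := by exact_mod_cast hk
      positivity
    · linarith
  have hmpos : 0 < muk N p q k := by
    unfold muk
    exact lt_min one_pos (by positivity)
  obtain ⟨s, hs⟩ := hd2
  have hks : 2 * k ≤ s := by
    have h2 : p * (2 * k) ≤ p * s := by
      rw [← hs]
      linarith
    exact Nat.le_of_mul_le_mul_left h2 hp
  obtain ⟨Ψ, hΨ⟩ := exists_preCyl hp hq hN hd k (s - k) hk (by omega)
    (by rw [hs]; congr 1; omega) ht g0 h0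
  refine ⟨_, _, Ψ, hΨ, ?_, hmpos⟩
  rw [hmin]
  exact StarZ_alg2 _ _ _ _ _ hs1.ne' hs2.ne' hs3.ne' hcos.ne' hmpos.ne'

/-- (8.1) -/
theorem star_ratio (hp : 0 < p) (hq : 0 < q) (hN : 2 * (p + q) < N)
    (hg : Nat.gcd (Nat.gcd p q) N = 1) (hd : p ∣ N) (hd2 : p ∣ 2 * q)
    (hL : LatticeTriangle (TN N p q)) {k₁ k₂ : ℕ} (hk₁ : 1 ≤ k₁) (hk₂ : 1 ≤ k₂)
    (hkp₁ : k₁ * p ≤ q) (hkp₂ : k₂ * p ≤ q)
    (ht₁ : 2 * Real.sin (π * q / N) * Real.sin (k₁ * (π * p / N)) ≤
      Real.cos (π * q / N - k₁ * (π * p / N)) ∨ ¬ q ∣ N)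
    (ht₂ : 2 * Real.sin (π * q / N) * Real.sin (k₂ * (π * p / N)) ≤
      Real.cos (π * q / N - k₂ * (π * p / N)) ∨ ¬ q ∣ N)
    (hpar : k₁ % 2 = k₂ % 2 ∨ p = 2 ∨ Odd N) :
    ∃ c : ℚ, muk N p q k₁ / muk N p q k₂ = c := by
  have hNr : (0 : ℝ) < N := by
    have : 0 < N := by omega
    exact_mod_cast this
  have hpr : (0 : ℝ) < p := by exact_mod_cast hp
  have hqr : (0 : ℝ) < q := by exact_mod_cast hq
  have hNr2 : 2 * ((p : ℝ) + q) < N := by exact_mod_cast hN
  have hpi := Real.pi_pos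
  have hN' : p + q < N := by omega
  have hfin : Finite (G (TN N p q)) := finite_G hp hq hN'
  have ha : (0 : ℝ) < p / N := by positivity
  have hb : (0 : ℝ) < q / N := by positivity
  have hab : (p : ℝ) / N + q / N < 1 := by
    rw [← add_div, div_lt_one hNr]
    linarith
  have hv : AffineIndependent ℝ (TN N p q) := affineIndependent_tri ha hb hab
  -- the rotation
  obtain ⟨j, s, hs, hj⟩ : ∃ (j : ℤ) (s : ℂ), (s = 1 ∨ s = -1) ∧
      Complex.exp ((2 * π * j / N : ℝ) * Complex.I) =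
        s * Complex.exp ((((k₁ : ℤ) - k₂ : ℤ) * (π * p / N) : ℝ) * Complex.I) := by
    have hcase : (∃ t : ℤ, ((k₁ : ℤ) - k₂) * p = 2 * t) ∨
        ∃ t : ℤ, ((k₁ : ℤ) - k₂) * p + N = 2 * t := by
      rcases hpar with h | h | h
      · left
        have h1 : (2 : ℤ) ∣ (k₁ : ℤ) - k₂ := by omega
        exact h1.mul_right _
      · left
        rw [h]
        exact ⟨(k₁ : ℤ) - k₂, by push_cast; ring⟩
      · rcases Int.even_or_odd (((k₁ : ℤ) - k₂) * p) with h1 | h1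
        · left
          exact h1.two_dvd
        · right
          have h2 : Odd (N : ℤ) := by exact_mod_cast h
          exact (h1.add_odd h2).two_dvd
    have hNc : (N : ℂ) ≠ 0 := by exact_mod_cast hNr.ne'
    rcases hcase with ⟨t, ht⟩ | ⟨t, ht⟩
    · refine ⟨t, 1, Or.inl rfl, ?_⟩
      have ht' : ((k₁ : ℂ) - k₂) * p = 2 * t := by exact_mod_cast ht
      rw [one_mul]
      congr 1
      push_cast
      field_simp
      linear_combination -ht'
    · refine ⟨t, -1, Or.inr rfl, ?_⟩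
      have ht' : ((k₁ : ℂ) - k₂) * p + N = 2 * t := by exact_mod_cast ht
      rw [← Complex.exp_pi_mul_I, ← Complex.exp_add]
      congr 1
      push_cast
      field_simp
      linear_combination -ht'
  obtain ⟨g2, hr2, hu2⟩ := exists_rot_all hp hq hN' hg j
  obtain ⟨l₁, h₁, Ψ₁, hC₁, e₁, m₁⟩ := StarZ_cyl hp hq hN hd hd2 hk₁ hkp₁ ht₁ 1 rot_one
  obtain ⟨l₂, h₂, Ψ₂, hC₂, e₂, m₂⟩ := StarZ_cyl hp hq hN hd hd2 hk₂ hkp₂ ht₂ g2 hr2
  obtain ⟨c, hc⟩ := preCylE_commensurable hv hL (by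
    have h3 : Complex.exp ((((k₁ : ℤ) : ℝ) * (π * p / N) : ℝ) * Complex.I) =
        Complex.exp ((((k₁ : ℤ) - k₂ : ℤ) * (π * p / N) : ℝ) * Complex.I) *
          Complex.exp ((((k₂ : ℤ) : ℝ) * (π * p / N) : ℝ) * Complex.I) := by
      rw [← Complex.exp_add]
      congr 1
      push_cast
      ring
    rw [h3, hu2, hj, StarZ_uu_one]
    rcases hs with rfl | rfl
    · left; ring
    · right; ring) hC₂ hC₁
  have hs1 : 0 < Real.sin (π * p / N) := by
    apply Real.sin_pos_of_pos_of_lt_pi (by positivity)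
    rw [div_lt_iff₀ hNr]
    nlinarith
  have hs2 : 0 < Real.sin (π * q / N) := by
    apply Real.sin_pos_of_pos_of_lt_pi (by positivity)
    rw [div_lt_iff₀ hNr]
    nlinarith
  have hs3 : 0 < Real.sin (π * p / N + π * q / N) := by
    apply Real.sin_pos_of_pos_of_lt_pi (by positivity)
    rw [← add_div, div_lt_iff₀ hNr]
    nlinarith
  refine ⟨c, ?_⟩
  rw [e₁, e₂] at hc
  have hc0 : 0 < 4 * Real.sin (π * q / N) * Real.sin (π * p / N + π * q / N) /
      Real.sin (π * p / N) := by positivity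
  have h4 : 1 / muk N p q k₂ = c * (1 / muk N p q k₁) := by
    apply mul_left_cancel₀ hc0.ne'
    rw [hc]
    ring
  field_simp at h4 ⊢
  linarith

end

end Pool.Agent.OBT
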