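import Mathlib

/-!
# Galois conjugation of trigonometric relations
-/

open Real Polynomial

namespace Pool.Agent.OBT.NT

noncomputable section

/-- if a polynomial over `ℚ` vanishes at a primitive root of unity, it vanishes at its powers -/
theorem aeval_pow_eq_zero {ζ : ℂ} {n m : ℕ} (hn : 0 < n) (hζ : IsPrimitiveRoot ζ n)
    (hm : Nat.Coprime m n) (P : ℚ[X]) (h : aeval ζ P = 0) : aeval (ζ ^ m) P = 0 := by
  have h1 := hζ.pow_of_coprime m hm
  have h2 : minpoly ℚ ζ ∣ P := minpoly.dvd ℚ ζ h
  rw [← cyclotomic_eq_minpoly_rat hζ hn, cyclotomic_eq_minpoly_rat h1 hn] at h2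
  obtain ⟨Q, rfl⟩ := h2
  rw [map_mul, minpoly.aeval, zero_mul]

theorem TR0_prim {N : ℕ} (hN : 0 < N) :
    IsPrimitiveRoot (Complex.exp (π / N * Complex.I)) (2 * N) := by
  have h := Complex.isPrimitiveRoot_exp (2 * N) (by omega)
  have e : 2 * π * Complex.I / ((2 * N : ℕ) : ℂ) = π / N * Complex.I := by
    have : (N : ℂ) ≠ 0 := by exact_mod_cast hN.ne'
    push_cast
    field_simp
  rwa [e] at h

/-- the polynomial with value `2 cos (j x)` -/
def TR0_P (N : ℕ) (L : List (ℚ × ℕ)) : ℚ[X] :=
  (L.map fun c => C c.1 * (X ^ c.2 + X ^ ((2 * N - 1) * c.2))).sum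

theorem TR0_aeval {N : ℕ} (hN : 0 < N) (m : ℕ) (L : List (ℚ × ℕ)) :
    aeval (Complex.exp (π / N * Complex.I) ^ m) (TR0_P N L) =
      ((2 * (L.map fun c => (c.1 : ℝ) * cos (c.2 * (m * (π / N)))).sum : ℝ) : ℂ) := by
  induction L with
  | nil => simp [TR0_P]
  | cons c L ih =>
    have hz : Complex.exp (π / N * Complex.I) ≠ 0 := Complex.exp_ne_zero _
    have h2 := (TR0_prim hN).pow_eq_one
    have e1 : TR0_P N (c :: L) = C c.1 * (X ^ c.2 + X ^ ((2 * N - 1) * c.2)) + TR0_P N L := by
      simp [TR0_P]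
    rw [e1, map_add, ih]
    simp only [map_mul, map_add, map_pow, aeval_X, aeval_C, List.map_cons, List.sum_cons]
    have e2 : (Complex.exp (π / N * Complex.I) ^ m) ^ c.2 +
        (Complex.exp (π / N * Complex.I) ^ m) ^ ((2 * N - 1) * c.2) =
        ((2 * cos (c.2 * (m * (π / N))) : ℝ) : ℂ) := by
      have e3 : (Complex.exp (π / N * Complex.I) ^ m) ^ ((2 * N - 1) * c.2) =
          ((Complex.exp (π / N * Complex.I) ^ m) ^ c.2)⁻¹ := by
        apply eq_inv_of_mul_eq_one_left
        rw [← pow_add, ← pow_mul]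
        have : m * ((2 * N - 1) * c.2 + c.2) = 2 * N * (m * c.2) := by
          have : (2 * N - 1) * c.2 + c.2 = 2 * N * c.2 := by
            rw [← Nat.succ_mul]
            congr 1
            omega
          rw [this]
          ring
        rw [this, pow_mul, h2, one_pow]
      rw [e3]
      have e4 : (Complex.exp (π / N * Complex.I) ^ m) ^ c.2 =
          Complex.exp (((c.2 * (m * (π / N)) : ℝ) : ℂ) * Complex.I) := by
        rw [← pow_mul, ← Complex.exp_nat_mul]
        congr 1
        push_cast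
        ring
      rw [e4, ← Complex.exp_neg]
      push_cast
      rw [Complex.two_cos]
      ring_nf
    rw [e2]
    push_cast
    simp
    ring

/-- **Galois conjugation of a relation between cosines.** -/
theorem cos_galois {N m : ℕ} (hN : 0 < N) (hm : Nat.Coprime m (2 * N)) (L : List (ℚ × ℕ))
    (h : (L.map fun c => (c.1 : ℝ) * cos (c.2 * (π / N))).sum = 0) :
    (L.map fun c => (c.1 : ℝ) * cos (c.2 * (m * (π / N)))).sum = 0 := by
  have h1 : aeval (Complex.exp (π / N * Complex.I)) (TR0_P N L) = 0 := by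
    have := TR0_aeval hN 1 L
    rw [pow_one] at this
    rw [this]
    simp only [Nat.cast_one, one_mul, h, mul_zero, Complex.ofReal_zero]
  have h2 := aeval_pow_eq_zero (by omega) (TR0_prim hN) hm _ h1
  rw [TR0_aeval hN m L] at h2
  have h3 : (2 * (L.map fun c => (c.1 : ℝ) * cos (c.2 * (m * (π / N)))).sum : ℝ) = 0 := by
    exact_mod_cast h2
  linarith

end

end Pool.Agent.OBT.NT
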