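import Mathlib
import Pool.Agent.OBT.TR0

/-!
# Irrationality of quotients of cosines
-/

open Real

namespace Pool.Agent.OBT.NT

/-- `m = N + 2`, `N` odd -/
theorem cop_odd {N : ℕ} (h : ¬ 2 ∣ N) : Nat.Coprime (N + 2) (2 * N) := by
  have h2 : Nat.Coprime 2 N := (Nat.Prime.coprime_iff_not_dvd Nat.prime_two).2 h
  apply Nat.Coprime.mul_right
  · rw [Nat.coprime_add_self_left]
    exact h2.symm
  · rw [add_comm, Nat.coprime_add_self_left]
    exact h2

/-- `m = M + 1`, `N = 2M`, `M` even -/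
theorem cop_even {M : ℕ} (h : 2 ∣ M) : Nat.Coprime (M + 1) (2 * (2 * M)) := by
  have h2 : Nat.Coprime (M + 1) 2 := by
    obtain ⟨k, rfl⟩ := h
    rw [Nat.coprime_comm, Nat.coprime_two_left]
    exact ⟨k, rfl⟩
  exact Nat.Coprime.mul_right h2 (Nat.Coprime.mul_right h2 (by simp))

/-- `m = M + 2`, `N = 2M`, `M` odd -/
theorem cop_odd' {M : ℕ} (h : ¬ 2 ∣ M) : Nat.Coprime (M + 2) (2 * (2 * M)) := by
  have h1 : Nat.Coprime 2 M := (Nat.Prime.coprime_iff_not_dvd Nat.prime_two).2 h
  have h2 : Nat.Coprime (M + 2) 2 := by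
    rw [Nat.coprime_add_self_left]
    exact h1.symm
  refine Nat.Coprime.mul_right h2 (Nat.Coprime.mul_right h2 ?_)
  rw [add_comm, Nat.coprime_add_self_left]
  exact h1

theorem cos_odd {N : ℕ} (hN : 0 < N) (j : ℕ) :
    cos (j * ((N + 2 : ℕ) * (π / N))) = (-1) ^ j * cos (2 * j * (π / N)) := by
  have : (N : ℝ) ≠ 0 := by exact_mod_cast hN.ne'
  have e : (j : ℝ) * ((N + 2 : ℕ) * (π / N)) = 2 * j * (π / N) + j * π := by
    push_cast
    field_simp
    ring
  rw [e, cos_add_nat_mul_pi]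

theorem cos_even0 {M : ℕ} (hM : 0 < M) (s : ℕ) :
    cos ((2 * s : ℕ) * ((M + 1 : ℕ) * (π / (2 * M : ℕ)))) =
      (-1) ^ s * cos ((2 * s : ℕ) * (π / (2 * M : ℕ))) := by
  have : (M : ℝ) ≠ 0 := by exact_mod_cast hM.ne'
  have e : ((2 * s : ℕ) : ℝ) * ((M + 1 : ℕ) * (π / (2 * M : ℕ))) =
      (2 * s : ℕ) * (π / (2 * M : ℕ)) + s * π := by
    push_cast
    field_simp
    ring
  rw [e, cos_add_nat_mul_pi]

theorem cos_even1 {M : ℕ} (hM : 0 < M) (s : ℕ) :
    cos ((2 * s + 1 : ℕ) * ((M + 1 : ℕ) * (π / (2 * M : ℕ)))) =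
      -((-1) ^ s * sin ((2 * s + 1 : ℕ) * (π / (2 * M : ℕ)))) := by
  have : (M : ℝ) ≠ 0 := by exact_mod_cast hM.ne'
  have e : ((2 * s + 1 : ℕ) : ℝ) * ((M + 1 : ℕ) * (π / (2 * M : ℕ))) =
      ((2 * s + 1 : ℕ) * (π / (2 * M : ℕ)) + π / 2) + s * π := by
    push_cast
    field_simp
    ring
  rw [e, cos_add_nat_mul_pi, cos_add_pi_div_two]
  ring

theorem cos_odd0 {M : ℕ} (hM : 0 < M) (s : ℕ) :
    cos ((2 * s : ℕ) * ((M + 2 : ℕ) * (π / (2 * M : ℕ)))) =
      (-1) ^ s * cos (2 * ((2 * s : ℕ) * (π / (2 * M : ℕ)))) := by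
  have : (M : ℝ) ≠ 0 := by exact_mod_cast hM.ne'
  have e : ((2 * s : ℕ) : ℝ) * ((M + 2 : ℕ) * (π / (2 * M : ℕ))) =
      2 * ((2 * s : ℕ) * (π / (2 * M : ℕ))) + s * π := by
    push_cast
    field_simp
    ring
  rw [e, cos_add_nat_mul_pi]

theorem cos_odd1 {M : ℕ} (hM : 0 < M) (s : ℕ) :
    cos ((2 * s + 1 : ℕ) * ((M + 2 : ℕ) * (π / (2 * M : ℕ)))) =
      -((-1) ^ s * sin (2 * ((2 * s + 1 : ℕ) * (π / (2 * M : ℕ))))) := by
  have : (M : ℝ) ≠ 0 := by exact_mod_cast hM.ne'
  have e : ((2 * s + 1 : ℕ) : ℝ) * ((M + 2 : ℕ) * (π / (2 * M : ℕ))) =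
      (2 * ((2 * s + 1 : ℕ) * (π / (2 * M : ℕ))) + π / 2) + s * π := by
    push_cast
    field_simp
    ring
  rw [e, cos_add_nat_mul_pi, cos_add_pi_div_two]
  ring

/-- the angle `j π / N` lies in `(0, π/2)` if `0 < j`, `2 j < N` -/
theorem ang {N j : ℕ} (hj : 2 * j < N) : (j : ℝ) * (π / N) < π / 2 := by
  have hN : (0 : ℝ) < N := by
    have : 0 < N := by omega
    exact_mod_cast this
  have : (2 * j : ℝ) < N := by exact_mod_cast hj
  rw [mul_div_assoc', div_lt_div_iff₀ hN two_pos]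
  nlinarith [pi_pos]

theorem cos_pos' {N j : ℕ} (hj : 2 * j < N) : 0 < cos ((j : ℝ) * (π / N)) := by
  have h := ang hj
  apply cos_pos_of_mem_Ioo
  constructor
  · have : (0 : ℝ) ≤ (j : ℝ) * (π / N) := by positivity
    linarith [pi_pos]
  · exact h

theorem sin_pos' {N j : ℕ} (hj0 : 0 < j) (hj : j < N) : 0 < sin ((j : ℝ) * (π / N)) := by
  have hN : (0 : ℝ) < N := by
    have : 0 < N := by omega
    exact_mod_cast this
  apply sin_pos_of_pos_of_lt_pi
  · positivity
  · rw [mul_div_assoc', div_lt_iff₀ hN, mul_comm]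
    have : (j : ℝ) < N := by exact_mod_cast hj
    nlinarith [pi_pos]

theorem cos_lt' {N i j : ℕ} (hij : i < j) (hj : j ≤ N) :
    cos ((j : ℝ) * (π / N)) < cos ((i : ℝ) * (π / N)) := by
  have hN : (0 : ℝ) < N := by
    have : 0 < N := by omega
    exact_mod_cast this
  apply cos_lt_cos_of_nonneg_of_le_pi
  · positivity
  · rw [mul_div_assoc', div_le_iff₀ hN, mul_comm]
    have : (j : ℝ) ≤ N := by exact_mod_cast hj
    nlinarith [pi_pos]
  · have : (i : ℝ) < j := by exact_mod_cast hij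
    have hpi : 0 < π / N := by positivity
    nlinarith

/-- (a) -/
theorem trA {N : ℕ} (h : ¬ 2 ∣ N) (hN : 7 ≤ N) (r : ℚ) : cos ((2 : ℕ) * (π / N)) ≠ r := by
  intro hr
  have h1 := cos_galois (N := N) (m := N + 2) (by omega) (cop_odd h) [(1, 2), (-r, 0)] (by
    simp only [List.map_cons, List.map_nil, List.sum_cons, List.sum_nil, hr]
    push_cast
    simp)
  simp only [List.map_cons, List.map_nil, List.sum_cons, List.sum_nil, cos_odd (N := N) (by omega)] at h1
  push_cast at h1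
  have h2 := cos_lt' (N := N) (i := 2) (j := 4) (by norm_num) (by omega)
  push_cast at h2 hr
  norm_num at h1 h2 hr
  linarith

/-- (b) `a = p - 2` -/
theorem trB {N a : ℕ} (h : ¬ 2 ∣ N) (hN : 2 * (a + 2) < N) (r : ℚ) :
    cos ((a + 2 : ℕ) * (π / N)) ≠ r * cos (a * (π / N)) := by
  intro hr
  have h1 := cos_galois (N := N) (m := N + 2) (by omega) (cop_odd h) [(1, a + 2), (-r, a)] (by
    simp only [List.map_cons, List.map_nil, List.sum_cons, List.sum_nil, hr]
    push_cast
    ring)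
  simp only [List.map_cons, List.map_nil, List.sum_cons, List.sum_nil, cos_odd (N := N) (by omega)] at h1
  have hth := cos_pos' (N := N) (j := a) (by omega)
  have hph := cos_pos' (N := N) (j := a + 2) (by omega)
  have hlt := cos_lt' (N := N) (i := a) (j := a + 2) (by omega) (by omega)
  have e0 : ((-1 : ℝ)) ^ (a + 2) = (-1) ^ a := by rw [pow_add]; norm_num
  have hs : ((-1 : ℝ)) ^ a ≠ 0 := pow_ne_zero _ (by norm_num)
  rw [e0] at h1
  have e1 : cos (2 * ((a + 2 : ℕ) : ℝ) * (π / N)) = 2 * cos ((a + 2 : ℕ) * (π / N)) ^ 2 - 1 := by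
    rw [← cos_two_mul]
    congr 1
    ring
  have e2 : cos (2 * (a : ℝ) * (π / N)) = 2 * cos (a * (π / N)) ^ 2 - 1 := by
    rw [← cos_two_mul]
    congr 1
    ring
  rw [e1, e2] at h1
  set c := cos ((a : ℝ) * (π / N))
  set c' := cos (((a + 2 : ℕ) : ℝ) * (π / N))
  have h2 : (2 * c' ^ 2 - 1) = r * (2 * c ^ 2 - 1) := by
    have : (-1 : ℝ) ^ a * ((2 * c' ^ 2 - 1) - r * (2 * c ^ 2 - 1)) = 0 := by
      push_cast at h1
      linear_combination h1
    rcases mul_eq_zero.1 this with h | h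
    · exact absurd h hs
    · linarith
  have h3 : (c - c') * (2 * c * c' + 1) = 0 := by
    linear_combination -c * h2 + (2 * c ^ 2 - 1) * hr
  rcases mul_eq_zero.1 h3 with h | h
  · linarith
  · nlinarith [mul_pos hth hph]

/-- (c) `N = 2 p + 3`, `p ≥ 4` -/
theorem trC {p : ℕ} (hp : 4 ≤ p) (r : ℚ) :
    cos ((p + 1 : ℕ) * (π / (2 * p + 3 : ℕ))) ≠ r * cos ((p - 1 : ℕ) * (π / (2 * p + 3 : ℕ))) := by
  intro hr
  obtain ⟨a, rfl⟩ : ∃ a, p = a + 1 := ⟨p - 1, by omega⟩
  rw [Nat.add_sub_cancel] at hr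
  set N := 2 * (a + 1) + 3 with hN
  have h : ¬ 2 ∣ N := by omega
  have h1 := cos_galois (N := N) (m := N + 2) (by omega) (cop_odd h) [(1, a + 1 + 1), (-r, a)] (by
    simp only [List.map_cons, List.map_nil, List.sum_cons, List.sum_nil, hr]
    push_cast
    ring)
  simp only [List.map_cons, List.map_nil, List.sum_cons, List.sum_nil, cos_odd (N := N) (by omega)] at h1
  have hNR : (N : ℝ) ≠ 0 := by
    have : N ≠ 0 := by omega
    exact_mod_cast this
  have hNe : (N : ℝ) = 2 * a + 5 := by rw [hN]; push_cast; ring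
  have e0 : ((-1 : ℝ)) ^ (a + 1 + 1) = (-1) ^ a := by rw [pow_add, pow_add]; norm_num
  have hs : ((-1 : ℝ)) ^ a ≠ 0 := pow_ne_zero _ (by norm_num)
  have e1 : cos (2 * ((a + 1 + 1 : ℕ) : ℝ) * (π / N)) = - cos ((1 : ℕ) * (π / N)) := by
    rw [← cos_pi_sub]
    congr 1
    push_cast
    field_simp
    rw [hNe]
    ring
  have e2 : cos (2 * (a : ℝ) * (π / N)) = - cos ((5 : ℕ) * (π / N)) := by
    rw [← cos_pi_sub]
    congr 1
    push_cast
    field_simp
    rw [hNe]
    ring
  rw [e0, e1, e2] at h1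
  have h2 : cos ((1 : ℕ) * (π / N)) = r * cos ((5 : ℕ) * (π / N)) := by
    have : (-1 : ℝ) ^ a * (cos ((1 : ℕ) * (π / N)) - r * cos ((5 : ℕ) * (π / N))) = 0 := by
      push_cast at h1 ⊢
      linear_combination -h1
    rcases mul_eq_zero.1 this with h | h
    · exact absurd h hs
    · linarith
  have p1 := cos_pos' (N := N) (j := 5) (by omega)
  have p2 := cos_lt' (N := N) (i := 1) (j := 5) (by omega) (by omega)
  have p3 := cos_pos' (N := N) (j := a) (by omega)
  have p4 := cos_pos' (N := N) (j := a + 1 + 1) (by omega)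
  have p5 := cos_lt' (N := N) (i := a) (j := a + 1 + 1) (by omega) (by omega)
  have q1 : (r : ℝ) < 1 := by
    by_contra hc
    rw [not_lt] at hc
    nlinarith
  have q2 : (1 : ℝ) < r := by
    by_contra hc
    rw [not_lt] at hc
    nlinarith
  linarith

/-- (d), `N = 10` -/
theorem trD1 (r : ℚ) : cos ((4 : ℕ) * (π / (10 : ℕ))) ≠ r * cos ((2 : ℕ) * (π / (10 : ℕ))) := by
  intro hr
  have h1 := cos_galois (N := 10) (m := 7) (by norm_num) (by norm_num) [(1, 4), (-r, 2)] (by
    simp only [List.map_cons, List.map_nil, List.sum_cons, List.sum_nil, hr]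
    push_cast
    ring)
  simp only [List.map_cons, List.map_nil, List.sum_cons, List.sum_nil] at h1
  have e1 : cos (((4 : ℕ) : ℝ) * (((7 : ℕ) : ℝ) * (π / (10 : ℕ)))) = - cos ((2 : ℕ) * (π / (10 : ℕ))) := by
    rw [← cos_pi_sub, ← cos_sub_two_pi]
    congr 1
    push_cast
    ring
  have e2 : cos (((2 : ℕ) : ℝ) * (((7 : ℕ) : ℝ) * (π / (10 : ℕ)))) = - cos ((4 : ℕ) * (π / (10 : ℕ))) := by
    rw [← cos_add_pi]
    congr 1
    push_cast
    ring
  rw [e1, e2] at h1
  have p1 := cos_pos' (N := 10) (j := 4) (by norm_num)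
  have p2 := cos_lt' (N := 10) (i := 2) (j := 4) (by omega) (by omega)
  set c := cos (((4 : ℕ) : ℝ) * (π / (10 : ℕ)))
  set c' := cos (((2 : ℕ) : ℝ) * (π / (10 : ℕ)))
  push_cast at h1
  have h3 : c' = r * c := by linear_combination -h1
  have q1 : (r : ℝ) < 1 := by
    by_contra hc
    rw [not_lt] at hc
    nlinarith
  have q2 : (1 : ℝ) < r := by
    by_contra hc
    rw [not_lt] at hc
    nlinarith
  linarith

/-- (d), `N = 2M ≥ 12` -/
theorem trD2 {M : ℕ} (hM : 6 ≤ M) (r : ℚ) :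
    cos ((2 : ℕ) * (π / (2 * M : ℕ))) + cos ((4 : ℕ) * (π / (2 * M : ℕ))) ≠ r := by
  intro hr
  have p2 := cos_pos' (N := 2 * M) (j := 2) (by omega)
  have p4 := cos_pos' (N := 2 * M) (j := 4) (by omega)
  have p24 := cos_lt' (N := 2 * M) (i := 2) (j := 4) (by omega) (by omega)
  by_cases h : 2 ∣ M
  · have h1 := cos_galois (N := 2 * M) (m := M + 1) (by omega) (cop_even h)
      [(1, 2 * 1), (1, 2 * 2), (-r, 2 * 0)] (by
      simp only [List.map_cons, List.map_nil, List.sum_cons, List.sum_nil]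
      push_cast at hr ⊢
      norm_num at hr ⊢
      linarith)
    simp only [List.map_cons, List.map_nil, List.sum_cons, List.sum_nil,
      cos_even0 (M := M) (by omega)] at h1
    push_cast at hr h1 p2
    norm_num at hr h1 p2
    linarith
  · have h1 := cos_galois (N := 2 * M) (m := M + 2) (by omega) (cop_odd' h)
      [(1, 2 * 1), (1, 2 * 2), (-r, 2 * 0)] (by
      simp only [List.map_cons, List.map_nil, List.sum_cons, List.sum_nil]
      push_cast at hr ⊢
      norm_num at hr ⊢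
      linarith)
    simp only [List.map_cons, List.map_nil, List.sum_cons, List.sum_nil,
      cos_odd0 (M := M) (by omega), cos_two_mul] at h1
    have e4 : (2 : ℝ) * (2 * (π / (2 * (M : ℝ)))) = 4 * (π / (2 * (M : ℝ))) := by ring
    push_cast at hr h1 p2 p4 p24
    norm_num at hr h1 p2 p4 p24
    set c := cos (2 * (π / (2 * (M : ℝ))))
    set c' := cos (4 * (π / (2 * (M : ℝ))))
    have h2 : (c + c') * (2 * c' - 2 * c - 1) = 0 := by
      linear_combination h1 - hr
    rcases mul_eq_zero.1 h2 with h3 | h3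
    · linarith
    · linarith

/-- (e) -/
theorem trE {M : ℕ} (hM : 5 ≤ M) (r : ℚ) : cos ((2 : ℕ) * (π / (2 * M : ℕ))) ≠ r := by
  intro hr
  have p2 := cos_pos' (N := 2 * M) (j := 2) (by omega)
  have p4 := cos_pos' (N := 2 * M) (j := 4) (by omega)
  by_cases h : 2 ∣ M
  · have h1 := cos_galois (N := 2 * M) (m := M + 1) (by omega) (cop_even h)
      [(1, 2 * 1), (-r, 2 * 0)] (by
      simp only [List.map_cons, List.map_nil, List.sum_cons, List.sum_nil]
      push_cast at hr ⊢
      norm_num at hr ⊢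
      linarith)
    simp only [List.map_cons, List.map_nil, List.sum_cons, List.sum_nil,
      cos_even0 (M := M) (by omega)] at h1
    push_cast at hr h1 p2
    norm_num at hr h1 p2
    linarith
  · have h1 := cos_galois (N := 2 * M) (m := M + 2) (by omega) (cop_odd' h)
      [(1, 2 * 1), (-r, 2 * 0)] (by
      simp only [List.map_cons, List.map_nil, List.sum_cons, List.sum_nil]
      push_cast at hr ⊢
      norm_num at hr ⊢
      linarith)
    simp only [List.map_cons, List.map_nil, List.sum_cons, List.sum_nil,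
      cos_odd0 (M := M) (by omega)] at h1
    have e4 : (2 : ℝ) * ((2 * 1 : ℕ) * (π / (2 * M : ℕ))) = (4 : ℕ) * (π / (2 * M : ℕ)) := by
      push_cast
      ring
    rw [e4] at h1
    push_cast at hr h1 p2 p4
    norm_num at hr h1 p2 p4
    linarith

/-- (f), `p = 4`: `M` even -/
theorem trF4 {M : ℕ} (h2 : 2 ∣ M) (hM : 8 ≤ M) (r : ℚ) :
    cos ((4 : ℕ) * (π / (2 * M : ℕ))) ≠ r := by
  intro hr
  obtain ⟨K, rfl⟩ := h2
  have p4 := cos_pos' (N := 2 * (2 * K)) (j := 4) (by omega)
  have hK : (K : ℝ) ≠ 0 := by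
    have : K ≠ 0 := by omega
    exact_mod_cast this
  by_cases h : 2 ∣ K
  · have hc : Nat.Coprime (K + 1) (2 * (2 * (2 * K))) := by
      have h3 : Nat.Coprime (K + 1) 2 := by
        obtain ⟨k, rfl⟩ := h
        rw [Nat.coprime_comm, Nat.coprime_two_left]
        exact ⟨k, rfl⟩
      exact Nat.Coprime.mul_right h3 (Nat.Coprime.mul_right h3 (Nat.Coprime.mul_right h3 (by simp)))
    have h1 := cos_galois (N := 2 * (2 * K)) (m := K + 1) (by omega) hc
      [(1, 4), (-r, 0)] (by
      simp only [List.map_cons, List.map_nil, List.sum_cons, List.sum_nil]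
      push_cast at hr ⊢
      norm_num at hr ⊢
      linarith)
    simp only [List.map_cons, List.map_nil, List.sum_cons, List.sum_nil] at h1
    have e4 : cos (((4 : ℕ) : ℝ) * ((K + 1 : ℕ) * (π / (2 * (2 * K) : ℕ)))) =
        - cos ((4 : ℕ) * (π / (2 * (2 * K) : ℕ))) := by
      rw [← cos_add_pi]
      congr 1
      push_cast
      field_simp
      ring
    rw [e4] at h1
    push_cast at hr h1 p4
    norm_num at hr h1 p4
    linarith
  · have hc : Nat.Coprime (K + 2) (2 * (2 * (2 * K))) := by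
      have h1 : Nat.Coprime 2 K := (Nat.Prime.coprime_iff_not_dvd Nat.prime_two).2 h
      have h3 : Nat.Coprime (K + 2) 2 := by
        rw [Nat.coprime_add_self_left]
        exact h1.symm
      refine Nat.Coprime.mul_right h3 (Nat.Coprime.mul_right h3 (Nat.Coprime.mul_right h3 ?_))
      rw [add_comm, Nat.coprime_add_self_left]
      exact h1
    have p8 := cos_pos' (N := 2 * (2 * K)) (j := 8) (by omega)
    have h1 := cos_galois (N := 2 * (2 * K)) (m := K + 2) (by omega) hc
      [(1, 4), (-r, 0)] (by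
      simp only [List.map_cons, List.map_nil, List.sum_cons, List.sum_nil]
      push_cast at hr ⊢
      norm_num at hr ⊢
      linarith)
    simp only [List.map_cons, List.map_nil, List.sum_cons, List.sum_nil] at h1
    have e4 : cos (((4 : ℕ) : ℝ) * ((K + 2 : ℕ) * (π / (2 * (2 * K) : ℕ)))) =
        - cos ((8 : ℕ) * (π / (2 * (2 * K) : ℕ))) := by
      rw [← cos_add_pi]
      congr 1
      push_cast
      field_simp
      ring
    rw [e4] at h1
    push_cast at hr h1 p4 p8
    norm_num at hr h1 p4 p8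
    linarith

/-- (h) and section 3: `a = p - 4` odd -/
theorem trH {M s : ℕ} (hM : 2 * s + 1 + 4 < M) (r : ℚ) :
    cos ((2 * (s + 2) + 1 : ℕ) * (π / (2 * M : ℕ))) ≠
      r * cos ((2 * s + 1 : ℕ) * (π / (2 * M : ℕ))) := by
  intro hr
  have c1 := cos_pos' (N := 2 * M) (j := 2 * s + 1) (by omega)
  have c2 := cos_pos' (N := 2 * M) (j := 2 * (s + 2) + 1) (by omega)
  have hs : ((-1 : ℝ)) ^ s ≠ 0 := pow_ne_zero _ (by norm_num)
  have e0 : ((-1 : ℝ)) ^ (s + 2) = (-1) ^ s := by rw [pow_add]; norm_num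
  set A : ℝ := (2 * (s + 2) + 1 : ℕ) * (π / (2 * M : ℕ)) with hA
  set B : ℝ := (2 * s + 1 : ℕ) * (π / (2 * M : ℕ)) with hB
  have hpi : 0 < π / (2 * M : ℕ) := by
    have : (0 : ℝ) < (2 * M : ℕ) := by
      have : 0 < 2 * M := by omega
      exact_mod_cast this
    positivity
  have hAB : sin (A - B) ≠ 0 := by
    have : A - B = (4 : ℕ) * (π / (2 * M : ℕ)) := by rw [hA, hB]; push_cast; ring
    rw [this]
    exact (sin_pos' (N := 2 * M) (j := 4) (by norm_num) (by omega)).ne'
  have hlt : sin B < sin A := by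
    apply sin_lt_sin_of_lt_of_le_pi_div_two
    · have : 0 ≤ B := by positivity
      linarith [pi_pos]
    · exact (ang (N := 2 * M) (j := 2 * (s + 2) + 1) (by omega)).le
    · have : A - B = (4 : ℕ) * (π / (2 * M : ℕ)) := by rw [hA, hB]; push_cast; ring
      have h4 : (0 : ℝ) < (4 : ℕ) * (π / (2 * M : ℕ)) := by positivity
      linarith
  by_cases h : 2 ∣ M
  · have h1 := cos_galois (N := 2 * M) (m := M + 1) (by omega) (cop_even h)
      [(1, 2 * (s + 2) + 1), (-r, 2 * s + 1)] (by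
      simp only [List.map_cons, List.map_nil, List.sum_cons, List.sum_nil]
      rw [← hA, ← hB, hr]
      push_cast
      ring)
    simp only [List.map_cons, List.map_nil, List.sum_cons, List.sum_nil,
      cos_even1 (M := M) (by omega)] at h1
    rw [← hA, ← hB, e0] at h1
    have h2 : sin A = r * sin B := by
      have : (-1 : ℝ) ^ s * (sin A - r * sin B) = 0 := by
        push_cast at h1
        linear_combination -h1
      rcases mul_eq_zero.1 this with h | h
      · exact absurd h hs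
      · linarith
    apply hAB
    rw [sin_sub, h2, hr]
    ring
  · have h1 := cos_galois (N := 2 * M) (m := M + 2) (by omega) (cop_odd' h)
      [(1, 2 * (s + 2) + 1), (-r, 2 * s + 1)] (by
      simp only [List.map_cons, List.map_nil, List.sum_cons, List.sum_nil]
      rw [← hA, ← hB, hr]
      push_cast
      ring)
    simp only [List.map_cons, List.map_nil, List.sum_cons, List.sum_nil,
      cos_odd1 (M := M) (by omega)] at h1
    rw [← hA, ← hB, e0] at h1
    have h2 : sin (2 * A) = r * sin (2 * B) := by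
      have : (-1 : ℝ) ^ s * (sin (2 * A) - r * sin (2 * B)) = 0 := by
        push_cast at h1
        linear_combination -h1
      rcases mul_eq_zero.1 this with h | h
      · exact absurd h hs
      · linarith
    rw [sin_two_mul, sin_two_mul, hr] at h2
    have hr0 : (r : ℝ) ≠ 0 := by
      intro h0
      rw [h0, zero_mul] at hr
      exact c2.ne' hr
    have h3 : (r : ℝ) * cos B * (sin A - sin B) = 0 := by linear_combination h2 / 2
    rcases mul_eq_zero.1 h3 with h4 | h4
    · exact (mul_ne_zero hr0 c1.ne') h4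
    · linarith

end Pool.Agent.OBT.NT
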