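import Mathlib
import Pool.Agent.OBT.TR1

/-!
# Irrationality of quotients of cosines, II
-/

open Real

namespace Pool.Agent.OBT.NT

/-- (f), `M` even, `p = 2 s + 3` odd -/
theorem trF1 {M s : ℕ} (h : 2 ∣ M) (hM : 2 * s + 3 ≤ M) (hM0 : 0 < M) (r : ℚ) :
    cos ((2 * (s + 2) : ℕ) * (π / (2 * M : ℕ))) + cos ((2 * (s + 1) : ℕ) * (π / (2 * M : ℕ))) ≠
      r * cos ((2 * s : ℕ) * (π / (2 * M : ℕ))) := by
  intro hr
  have c1 := cos_pos' (N := 2 * M) (j := 2 * (s + 1)) (by omega)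
  have hs : ((-1 : ℝ)) ^ s ≠ 0 := pow_ne_zero _ (by norm_num)
  have e0 : ((-1 : ℝ)) ^ (s + 2) = (-1) ^ s := by rw [pow_add]; norm_num
  have e1 : ((-1 : ℝ)) ^ (s + 1) = -(-1) ^ s := by rw [pow_add]; norm_num
  have h1 := cos_galois (N := 2 * M) (m := M + 1) (by omega) (cop_even h)
    [(1, 2 * (s + 2)), (1, 2 * (s + 1)), (-r, 2 * s)] (by
    simp only [List.map_cons, List.map_nil, List.sum_cons, List.sum_nil]
    push_cast at hr ⊢
    linarith)
  simp only [List.map_cons, List.map_nil, List.sum_cons, List.sum_nil,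
    cos_even0 (M := M) hM0, e0, e1] at h1
  have h2 : (-1 : ℝ) ^ s * (-2 * cos ((2 * (s + 1) : ℕ) * (π / (2 * M : ℕ)))) = 0 := by
    push_cast at h1 hr ⊢
    linear_combination h1 - (-1 : ℝ) ^ s * hr
  rcases mul_eq_zero.1 h2 with h3 | h3
  · exact hs h3
  · linarith

/-- (f), `M` even, `p = 2 s + 4` even, `p ≥ 6` -/
theorem trF2 {M s : ℕ} (h : 2 ∣ M) (hs1 : 1 ≤ s) (hM : 2 * s + 4 < M) (r : ℚ) :
    cos ((2 * (s + 2) + 1 : ℕ) * (π / (2 * M : ℕ))) +
        cos ((2 * (s + 1) + 1 : ℕ) * (π / (2 * M : ℕ))) ≠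
      r * cos ((2 * s + 1 : ℕ) * (π / (2 * M : ℕ))) := by
  intro hr
  have hM0 : 0 < M := by omega
  have hs : ((-1 : ℝ)) ^ s ≠ 0 := pow_ne_zero _ (by norm_num)
  have e0 : ((-1 : ℝ)) ^ (s + 2) = (-1) ^ s := by rw [pow_add]; norm_num
  have e1 : ((-1 : ℝ)) ^ (s + 1) = -(-1) ^ s := by rw [pow_add]; norm_num
  have h1 := cos_galois (N := 2 * M) (m := M + 1) (by omega) (cop_even h)
    [(1, 2 * (s + 2) + 1), (1, 2 * (s + 1) + 1), (-r, 2 * s + 1)] (by
    simp only [List.map_cons, List.map_nil, List.sum_cons, List.sum_nil]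
    push_cast at hr ⊢
    linarith)
  simp only [List.map_cons, List.map_nil, List.sum_cons, List.sum_nil,
    cos_even1 (M := M) hM0, e0, e1] at h1
  set x : ℝ := π / (2 * M : ℕ) with hx
  have hP := cos_pos' (N := 2 * M) (j := 2 * s + 4) (by omega)
  have hQ := cos_pos' (N := 2 * M) (j := 2 * s + 1) (by omega)
  have hS := sin_pos' (N := 2 * M) (j := 2 * s) (by omega) (by omega)
  have f1 : cos ((2 * (s + 2) + 1 : ℕ) * x) =
      cos ((2 * s + 4 : ℕ) * x) * cos x - sin ((2 * s + 4 : ℕ) * x) * sin x := by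
    rw [← cos_add]
    congr 1
    push_cast
    ring
  have f2 : cos ((2 * (s + 1) + 1 : ℕ) * x) =
      cos ((2 * s + 4 : ℕ) * x) * cos x + sin ((2 * s + 4 : ℕ) * x) * sin x := by
    rw [← cos_sub]
    congr 1
    push_cast
    ring
  have f3 : sin ((2 * (s + 2) + 1 : ℕ) * x) =
      sin ((2 * s + 4 : ℕ) * x) * cos x + cos ((2 * s + 4 : ℕ) * x) * sin x := by
    rw [← sin_add]
    congr 1
    push_cast
    ring
  have f4 : sin ((2 * (s + 1) + 1 : ℕ) * x) =
      sin ((2 * s + 4 : ℕ) * x) * cos x - cos ((2 * s + 4 : ℕ) * x) * sin x := by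
    rw [← sin_sub]
    congr 1
    push_cast
    ring
  have f5 : sin ((2 * s : ℕ) * x) = sin ((2 * s + 1 : ℕ) * x) * cos x -
      cos ((2 * s + 1 : ℕ) * x) * sin x := by
    rw [← sin_sub]
    congr 1
    push_cast
    ring
  rw [f1, f2] at hr
  rw [f3, f4] at h1
  have g1 : r * sin ((2 * s + 1 : ℕ) * x) = 2 * cos ((2 * s + 4 : ℕ) * x) * sin x := by
    have : (-1 : ℝ) ^ s * (r * sin ((2 * s + 1 : ℕ) * x) -
        2 * cos ((2 * s + 4 : ℕ) * x) * sin x) = 0 := by
      push_cast at h1 ⊢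
      linear_combination h1
    rcases mul_eq_zero.1 this with h3 | h3
    · exact absurd h3 hs
    · linarith
  have g2 : (r : ℝ) * sin ((2 * s : ℕ) * x) = 0 := by
    rw [f5]
    linear_combination cos x * g1 + sin x * hr
  have hx1 : 0 < cos x := by
    have := cos_pos' (N := 2 * M) (j := 1) (by omega)
    rwa [Nat.cast_one, one_mul] at this
  have hr0 : (r : ℝ) ≠ 0 := by
    intro h0
    rw [h0, zero_mul] at hr
    have : 0 < cos ((2 * s + 4 : ℕ) * x) * cos x := mul_pos hP hx1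
    linarith
  rcases mul_eq_zero.1 g2 with h3 | h3
  · exact hr0 h3
  · exact hS.ne' h3

/-- (g), `M` odd, `p = 2 s + 4` even -/
theorem trG {M s : ℕ} (h : ¬ 2 ∣ M) (hM : 2 * s + 4 < M) (r : ℚ) :
    cos ((2 * (s + 2) + 1 : ℕ) * (π / (2 * M : ℕ))) +
        cos ((2 * (s + 1) + 1 : ℕ) * (π / (2 * M : ℕ))) ≠
      r * cos ((2 * s + 1 : ℕ) * (π / (2 * M : ℕ))) := by
  intro hr
  have hM0 : 0 < M := by omega
  have hs : ((-1 : ℝ)) ^ s ≠ 0 := pow_ne_zero _ (by norm_num)
  have e0 : ((-1 : ℝ)) ^ (s + 2) = (-1) ^ s := by rw [pow_add]; norm_num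
  have e1 : ((-1 : ℝ)) ^ (s + 1) = -(-1) ^ s := by rw [pow_add]; norm_num
  have h1 := cos_galois (N := 2 * M) (m := M + 2) (by omega) (cop_odd' h)
    [(1, 2 * (s + 2) + 1), (1, 2 * (s + 1) + 1), (-r, 2 * s + 1)] (by
    simp only [List.map_cons, List.map_nil, List.sum_cons, List.sum_nil]
    push_cast at hr ⊢
    linarith)
  simp only [List.map_cons, List.map_nil, List.sum_cons, List.sum_nil,
    cos_odd1 (M := M) hM0, e0, e1] at h1
  set x : ℝ := π / (2 * M : ℕ) with hx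
  have hxpos : 0 < x := by
    have : (0 : ℝ) < (2 * M : ℕ) := by
      have : 0 < 2 * M := by omega
      exact_mod_cast this
    positivity
  have hP := cos_pos' (N := 2 * M) (j := 2 * s + 4) (by omega)
  have hP3 := cos_pos' (N := 2 * M) (j := 2 * s + 3) (by omega)
  have hPlt := ang (N := 2 * M) (j := 2 * s + 4) (by omega)
  have hx1 : 0 < cos x := by
    have := cos_pos' (N := 2 * M) (j := 1) (by omega)
    rwa [Nat.cast_one, one_mul] at this
  set P : ℝ := (2 * s + 4 : ℕ) * x with hPdef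
  have f1 : cos ((2 * (s + 2) + 1 : ℕ) * x) = cos P * cos x - sin P * sin x := by
    rw [← cos_add]
    congr 1
    rw [hPdef]
    push_cast
    ring
  have f2 : cos ((2 * (s + 1) + 1 : ℕ) * x) = cos P * cos x + sin P * sin x := by
    rw [← cos_sub]
    congr 1
    rw [hPdef]
    push_cast
    ring
  have f3 : sin (2 * ((2 * (s + 2) + 1 : ℕ) * x)) =
      sin (2 * P) * cos (2 * x) + cos (2 * P) * sin (2 * x) := by
    rw [← sin_add]
    congr 1
    rw [hPdef]
    push_cast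
    ring
  have f4 : sin (2 * ((2 * (s + 1) + 1 : ℕ) * x)) =
      sin (2 * P) * cos (2 * x) - cos (2 * P) * sin (2 * x) := by
    rw [← sin_sub]
    congr 1
    rw [hPdef]
    push_cast
    ring
  have f5 : sin ((2 * s + 1 : ℕ) * x) = sin P * cos (3 * x) - cos P * sin (3 * x) := by
    rw [← sin_sub]
    congr 1
    rw [hPdef]
    push_cast
    ring
  have f6 : cos ((2 * s + 3 : ℕ) * x) = cos P * cos x + sin P * sin x := by
    rw [← cos_sub]
    congr 1
    rw [hPdef]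
    push_cast
    ring
  rw [f1, f2] at hr
  rw [f3, f4, sin_two_mul ((2 * s + 1 : ℕ) * x)] at h1
  have g1 : 2 * sin ((2 * s + 1 : ℕ) * x) * (r * cos ((2 * s + 1 : ℕ) * x)) =
      2 * cos (2 * P) * sin (2 * x) := by
    have : (-1 : ℝ) ^ s * (2 * sin ((2 * s + 1 : ℕ) * x) * (r * cos ((2 * s + 1 : ℕ) * x)) -
      2 * cos (2 * P) * sin (2 * x)) = 0 := by
      push_cast at h1 ⊢
      linear_combination h1
    rcases mul_eq_zero.1 this with h3 | h3
    · exact absurd h3 hs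
    · linarith
  have g2 : sin ((2 * s + 1 : ℕ) * x) * cos P = cos (2 * P) * sin x := by
    rw [← hr, sin_two_mul x] at g1
    have : cos x * (sin ((2 * s + 1 : ℕ) * x) * cos P - cos (2 * P) * sin x) = 0 := by
      linear_combination g1 / 4
    rcases mul_eq_zero.1 this with h3 | h3
    · exact absurd h3 hx1.ne'
    · linarith
  have g3 : cos ((2 * s + 3 : ℕ) * x) * (sin P - 2 * cos P * sin (2 * x)) = 0 := by
    rw [f5, cos_two_mul] at g2
    rw [f6, sin_two_mul]
    have h3s := sin_three_mul x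
    have h3c := cos_three_mul x
    rw [h3s, h3c] at g2
    have hp1 := sin_sq_add_cos_sq P
    have hp2 := sin_sq_add_cos_sq x
    linear_combination g2 - (4 * cos x * sin P * cos P + 4 * sin x * cos P ^ 2) * hp2 + sin x * hp1
  have g4 : sin P = 2 * cos P * sin (2 * x) := by
    rcases mul_eq_zero.1 g3 with h3 | h3
    · exact absurd h3 hP3.ne'
    · linarith
  have hPpos : 0 < P := by positivity
  have t1 := lt_tan hPpos hPlt
  rw [tan_eq_sin_div_cos, lt_div_iff₀ hP] at t1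
  have t2 := sin_lt (x := 2 * x) (by linarith)
  have t3 : 4 * x ≤ P := by
    rw [hPdef]
    push_cast
    nlinarith [(Nat.cast_nonneg s : (0 : ℝ) ≤ s)]
  nlinarith

end Pool.Agent.OBT.NT
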