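import Mathlib
import Pool.Agent.OBT.StarZ
import Pool.Agent.OBT.TR2
import Pool.Agent.OBT.NTBridge3

/-!
# The triangles with `p = 1`, and with `p = 2`, `N` even, are not lattice triangles
-/

open scoped ComplexConjugate Topology Real
open MeasureTheory Filter

namespace Pool.Agent.OBT

open NT Real

variable {N p q : ℕ}

theorem NTCyl_args (hN : 0 < N) {k : ℕ} (hk : k * p ≤ q) :
    π * q / N = (q : ℝ) * (π / N) ∧ (k : ℝ) * (π * p / N) = ((k * p : ℕ) : ℝ) * (π / N) ∧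
      π * q / N - k * (π * p / N) = ((q - k * p : ℕ) : ℝ) * (π / N) := by
  have : (N : ℝ) ≠ 0 := by exact_mod_cast hN.ne'
  refine ⟨by ring, by push_cast; ring, ?_⟩
  rw [Nat.cast_sub hk]
  push_cast
  ring

theorem NTCyl_prod (hN : 0 < N) {k : ℕ} (hk : k * p ≤ q) :
    2 * sin ((q : ℝ) * (π / N)) * sin (((k * p : ℕ) : ℝ) * (π / N)) =
      cos (((q - k * p : ℕ) : ℝ) * (π / N)) - cos (((q + k * p : ℕ) : ℝ) * (π / N)) := by
  have e1 : ((q - k * p : ℕ) : ℝ) * (π / N) = (q : ℝ) * (π / N) - ((k * p : ℕ) : ℝ) * (π / N) := by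
    rw [Nat.cast_sub hk]
    ring
  have e2 : ((q + k * p : ℕ) : ℝ) * (π / N) = (q : ℝ) * (π / N) + ((k * p : ℕ) : ℝ) * (π / N) := by
    push_cast
    ring
  rw [e1, e2, cos_sub, cos_add]
  ring

theorem NTCyl_top (hN : 0 < N) {k : ℕ} (hk : k * p ≤ q) (h : 2 * (k * p + q) ≤ N) :
    2 * sin (π * q / N) * sin (k * (π * p / N)) ≤ cos (π * q / N - k * (π * p / N)) := by
  obtain ⟨e1, e2, e3⟩ := NTCyl_args hN hk
  rw [e3, e2, e1, NTCyl_prod hN hk]
  have hNR : (0 : ℝ) < N := by exact_mod_cast hN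
  have : 0 ≤ cos (((q + k * p : ℕ) : ℝ) * (π / N)) := by
    apply cos_nonneg_of_neg_pi_div_two_le_of_le
    · have : (0 : ℝ) ≤ ((q + k * p : ℕ) : ℝ) * (π / N) := by positivity
      linarith [pi_pos]
    · have h1 : (2 * (q + k * p : ℕ) : ℝ) ≤ N := by
        have : 2 * (q + k * p) ≤ N := by omega
        exact_mod_cast this
      rw [mul_div_assoc', div_le_div_iff₀ hNR two_pos]
      nlinarith [pi_pos]
  linarith

theorem NTCyl_prt (hN : 0 < N) {k : ℕ} (hk : k * p ≤ q) (hk0 : 0 < k * p)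
    (h : 2 * (k * p + q) ≤ N) :
    muk N p q k = 2 * sin ((q : ℝ) * (π / N)) * sin (((k * p : ℕ) : ℝ) * (π / N)) /
      cos (((q - k * p : ℕ) : ℝ) * (π / N)) := by
  obtain ⟨e1, e2, e3⟩ := NTCyl_args hN hk
  have h1 := NTCyl_top hN hk h
  unfold muk
  have hc : 0 < cos (((q - k * p : ℕ) : ℝ) * (π / N)) := cos_pos' (by omega)
  rw [min_eq_right, e1, e2, ← e3, e1, e2]
  rw [div_le_one (by rw [e3]; exact hc)]
  exact h1

theorem NTCyl_full (hN : 2 * q < N) {k : ℕ} (hk : k * p ≤ q) (h : N ≤ 2 * (k * p + q)) :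
    muk N p q k = 1 := by
  have hN0 : 0 < N := by omega
  have hNR : (0 : ℝ) < N := by exact_mod_cast hN0
  obtain ⟨e1, e2, e3⟩ := NTCyl_args hN0 hk
  unfold muk
  have hc : 0 < cos (((q - k * p : ℕ) : ℝ) * (π / N)) := cos_pos' (by omega)
  rw [min_eq_left]
  rw [le_div_iff₀ (by rw [e3]; exact hc), one_mul, e3, e2, e1, NTCyl_prod hN0 hk]
  have : cos (((q + k * p : ℕ) : ℝ) * (π / N)) ≤ 0 := by
    apply cos_nonpos_of_pi_div_two_le_of_le
    · have h1 : (N : ℝ) ≤ 2 * (q + k * p : ℕ) := by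
        have : N ≤ 2 * (q + k * p) := by omega
        exact_mod_cast this
      rw [mul_div_assoc', div_le_div_iff₀ two_pos hNR]
      nlinarith [pi_pos]
    · have h1 : ((q + k * p : ℕ) : ℝ) ≤ N := by
        have : q + k * p ≤ N := by omega
        exact_mod_cast this
      have h2 : ((q + k * p : ℕ) : ℝ) * (π / N) ≤ π := by
        rw [mul_div_assoc', div_le_iff₀ hNR, mul_comm]
        nlinarith [pi_pos]
      linarith [pi_pos]
  linarith

/-- two truncated cylinders -/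
theorem NTCyl_pp (hp : 0 < p) (hq : 0 < q) (hN : 2 * (p + q) < N)
    (hg : Nat.gcd (Nat.gcd p q) N = 1) (hd : p ∣ N) (hd2 : p ∣ 2 * q)
    (hL : LatticeTriangle (TN N p q)) {k₁ k₂ : ℕ} (hk₁ : 1 ≤ k₁) (hk₂ : 1 ≤ k₂)
    (hkp₁ : k₁ * p ≤ q) (hkp₂ : k₂ * p ≤ q) (h1 : 2 * (k₁ * p + q) ≤ N)
    (h2 : 2 * (k₂ * p + q) ≤ N) (hpar : k₁ % 2 = k₂ % 2 ∨ p = 2 ∨ Odd N) :
    ∃ c : ℚ, sin (((k₁ * p : ℕ) : ℝ) * (π / N)) * cos (((q - k₂ * p : ℕ) : ℝ) * (π / N)) =
      c * (sin (((k₂ * p : ℕ) : ℝ) * (π / N)) * cos (((q - k₁ * p : ℕ) : ℝ) * (π / N))) := by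
  have hN0 : 0 < N := by omega
  have k1p : 0 < k₁ * p := Nat.mul_pos hk₁ hp
  have k2p : 0 < k₂ * p := Nat.mul_pos hk₂ hp
  obtain ⟨c, hc⟩ := star_ratio hp hq hN hg hd hd2 hL hk₁ hk₂ hkp₁ hkp₂
    (Or.inl (NTCyl_top hN0 hkp₁ h1)) (Or.inl (NTCyl_top hN0 hkp₂ h2)) hpar
  refine ⟨c, ?_⟩
  rw [NTCyl_prt hN0 hkp₁ k1p h1, NTCyl_prt hN0 hkp₂ k2p h2] at hc
  have s1 : 0 < sin (((k₁ * p : ℕ) : ℝ) * (π / N)) := sin_pos' k1p (by omega)
  have s2 : 0 < sin (((k₂ * p : ℕ) : ℝ) * (π / N)) := sin_pos' k2p (by omega)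
  have s3 : 0 < sin ((q : ℝ) * (π / N)) := sin_pos' hq (by omega)
  have c1 : 0 < cos (((q - k₁ * p : ℕ) : ℝ) * (π / N)) := cos_pos' (by omega)
  have c2 : 0 < cos (((q - k₂ * p : ℕ) : ℝ) * (π / N)) := cos_pos' (by omega)
  rw [div_eq_iff (by positivity)] at hc
  generalize sin (((k₁ * p : ℕ) : ℝ) * (π / N)) = x1 at *
  generalize sin (((k₂ * p : ℕ) : ℝ) * (π / N)) = x2 at *
  generalize sin ((q : ℝ) * (π / N)) = x3 at *
  generalize cos (((q - k₁ * p : ℕ) : ℝ) * (π / N)) = y1 at *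
  generalize cos (((q - k₂ * p : ℕ) : ℝ) * (π / N)) = y2 at *
  have h3 : (2 * x3) * (x1 * y2) = (2 * x3) * (c * (x2 * y1)) := by
    have h4 : 2 * x3 * x1 = c * (2 * x3 * x2 / y2) * y1 := by
      rw [← hc]
      field_simp
    calc (2 * x3) * (x1 * y2) = (2 * x3 * x1) * y2 := by ring
      _ = c * (2 * x3 * x2 / y2) * y1 * y2 := by rw [h4]
      _ = (2 * x3) * (c * (x2 * y1)) := by field_simp
  exact mul_left_cancel₀ (by positivity) h3

/-- a truncated and a full cylinder -/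
theorem NTCyl_pf (hp : 0 < p) (hq : 0 < q) (hN : 2 * (p + q) < N)
    (hg : Nat.gcd (Nat.gcd p q) N = 1) (hd : p ∣ N) (hd2 : p ∣ 2 * q)
    (hL : LatticeTriangle (TN N p q)) {k₁ k₂ : ℕ} (hk₁ : 1 ≤ k₁) (hk₂ : 1 ≤ k₂)
    (hkp₁ : k₁ * p ≤ q) (hkp₂ : k₂ * p ≤ q) (h1 : 2 * (k₁ * p + q) ≤ N)
    (h2 : N ≤ 2 * (k₂ * p + q)) (hqN : ¬ q ∣ N) (hpar : k₁ % 2 = k₂ % 2 ∨ p = 2 ∨ Odd N) :
    ∃ c : ℚ, cos (((q + k₁ * p : ℕ) : ℝ) * (π / N)) =
      c * cos (((q - k₁ * p : ℕ) : ℝ) * (π / N)) := by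
  have hN0 : 0 < N := by omega
  have k1p : 0 < k₁ * p := Nat.mul_pos hk₁ hp
  obtain ⟨c, hc⟩ := star_ratio hp hq hN hg hd hd2 hL hk₁ hk₂ hkp₁ hkp₂
    (Or.inl (NTCyl_top hN0 hkp₁ h1)) (Or.inr hqN) hpar
  refine ⟨1 - c, ?_⟩
  have c1 : 0 < cos (((q - k₁ * p : ℕ) : ℝ) * (π / N)) := cos_pos' (by omega)
  rw [NTCyl_full (by omega) hkp₂ h2, NTCyl_prt hN0 hkp₁ k1p h1, div_one,
    NTCyl_prod hN0 hkp₁, div_eq_iff c1.ne'] at hc
  rw [Rat.cast_sub, Rat.cast_one]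
  linarith

theorem NTCyl_gcd1 {N q : ℕ} : Nat.gcd (Nat.gcd 1 q) N = 1 := by simp

/-- relation (h): `k = 4, 2` for `p = 1` and `k = 2, 1` for `p = 2` -/
theorem NTCyl_relH {N q : ℕ} (hq : 5 ≤ q) (hN : 2 * (4 + q) ≤ N) {c : ℚ}
    (h : sin ((4 : ℕ) * (π / N)) * cos ((q - 2 : ℕ) * (π / N)) =
      c * (sin ((2 : ℕ) * (π / N)) * cos ((q - 4 : ℕ) * (π / N)))) :
    cos ((q : ℕ) * (π / N)) = ((c - 1 : ℚ) : ℝ) * cos ((q - 4 : ℕ) * (π / N)) := by
  have s2 : 0 < sin ((2 : ℕ) * (π / N)) := sin_pos' (by norm_num) (by omega)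
  have e1 : sin ((4 : ℕ) * (π / N)) = 2 * sin ((2 : ℕ) * (π / N)) * cos ((2 : ℕ) * (π / N)) := by
    rw [← sin_two_mul]
    congr 1
    push_cast
    ring
  have e2 : cos ((q : ℕ) * (π / N)) = cos ((q - 2 : ℕ) * (π / N)) * cos ((2 : ℕ) * (π / N)) -
      sin ((q - 2 : ℕ) * (π / N)) * sin ((2 : ℕ) * (π / N)) := by
    rw [← cos_add]
    congr 1
    rw [Nat.cast_sub (by omega)]
    push_cast
    ring
  have e3 : cos ((q - 4 : ℕ) * (π / N)) = cos ((q - 2 : ℕ) * (π / N)) * cos ((2 : ℕ) * (π / N)) +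
      sin ((q - 2 : ℕ) * (π / N)) * sin ((2 : ℕ) * (π / N)) := by
    rw [← cos_sub]
    congr 1
    rw [Nat.cast_sub (by omega), Nat.cast_sub (by omega)]
    push_cast
    ring
  rw [e1] at h
  have h1 : sin ((2 : ℕ) * (π / N)) * (2 * cos ((2 : ℕ) * (π / N)) * cos ((q - 2 : ℕ) * (π / N)) -
      c * cos ((q - 4 : ℕ) * (π / N))) = 0 := by linear_combination h
  rcases mul_eq_zero.1 h1 with h2 | h2
  · exact absurd h2 s2.ne'
  · rw [Rat.cast_sub, Rat.cast_one]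
    linear_combination h2 + e2 + e3

/-- **`p = 2`, `N = 2 M`.** -/
theorem notlat_p2 {M q : ℕ} (hq : ¬ 2 ∣ q) (hq5 : 5 ≤ q) (hqM : q + 4 ≤ M) :
    ¬ LatticeTriangle (TN (2 * M) 2 q) := by
  intro hL
  have hg : Nat.gcd (Nat.gcd 2 q) (2 * M) = 1 := by
    have : Nat.gcd 2 q = 1 := (Nat.Prime.coprime_iff_not_dvd Nat.prime_two).2 hq
    rw [this]
    simp
  obtain ⟨c, hc⟩ := NTCyl_pp (p := 2) (by norm_num) (by omega) (by omega) hg ⟨M, rfl⟩ ⟨q, rfl⟩ hL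
    (k₁ := 2) (k₂ := 1) (by norm_num) (by norm_num) (by omega) (by omega) (by omega) (by omega)
    (Or.inr (Or.inl rfl))
  have h1 := NTCyl_relH (N := 2 * M) hq5 (by omega) (c := c) (by simpa using hc)
  obtain ⟨s, rfl⟩ : ∃ s, q = 2 * (s + 2) + 1 := ⟨(q - 5) / 2, by omega⟩
  refine trH (M := M) (s := s) (by omega) (c - 1) ?_
  have e : 2 * (s + 2) + 1 - 4 = 2 * s + 1 := by omega
  rw [e] at h1
  exact h1

/-- **`p = 1`, `q = 2`, `N` odd.** -/
theorem notlat_p1q2 {N : ℕ} (hN : ¬ 2 ∣ N) (hN7 : 7 ≤ N) : ¬ LatticeTriangle (TN N 1 2) := by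
  intro hL
  have hodd : Odd N := Nat.odd_iff.2 (by omega)
  rcases lt_or_ge N 8 with h8 | h8
  · have : N = 7 := by omega
    subst this
    obtain ⟨c, hc⟩ := NTCyl_pf (p := 1) (by norm_num) (by omega) (by norm_num) NTCyl_gcd1
      (one_dvd _) (one_dvd _) hL (k₁ := 1) (k₂ := 2) (by norm_num) (by norm_num) (by norm_num)
      (by norm_num) (by norm_num) (by norm_num) (by norm_num) (Or.inr (Or.inr hodd))
    have e1 : cos (((2 + 1 * 1 : ℕ) : ℝ) * (π / (7 : ℕ))) =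
        cos ((1 : ℕ) * (π / (7 : ℕ))) * (2 * cos ((2 : ℕ) * (π / (7 : ℕ))) - 1) := by
      have h3 : ((2 + 1 * 1 : ℕ) : ℝ) * (π / (7 : ℕ)) = 3 * ((1 : ℕ) * (π / (7 : ℕ))) := by
        push_cast; ring
      have h2 : ((2 : ℕ) : ℝ) * (π / (7 : ℕ)) = 2 * ((1 : ℕ) * (π / (7 : ℕ))) := by
        push_cast; ring
      rw [h3, h2, cos_three_mul, cos_two_mul]
      ring
    have c1 : 0 < cos ((1 : ℕ) * (π / (7 : ℕ))) := cos_pos' (by norm_num)
    rw [e1] at hc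
    have h2 : cos ((1 : ℕ) * (π / (7 : ℕ))) * (2 * cos ((2 : ℕ) * (π / (7 : ℕ))) - 1 - c) = 0 := by
      have : ((2 - 1 * 1 : ℕ) : ℝ) = (1 : ℕ) := by norm_num
      rw [this] at hc
      linear_combination hc
    rcases mul_eq_zero.1 h2 with h3 | h3
    · exact c1.ne' h3
    · refine trA (N := 7) (by norm_num) (by norm_num) ((c + 1) / 2) ?_
      push_cast at h3 ⊢
      linarith
  · obtain ⟨c, hc⟩ := NTCyl_pp (p := 1) (by norm_num) (by omega) (by omega) NTCyl_gcd1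
      (one_dvd _) (one_dvd _) hL (k₁ := 2) (k₂ := 1) (by norm_num) (by norm_num) (by norm_num)
      (by norm_num) (by omega) (by omega) (Or.inr (Or.inr hodd))
    refine trA hN hN7 (c - 1) ?_
    have s1 : 0 < sin ((1 : ℕ) * (π / N)) := sin_pos' (by norm_num) (by omega)
    have e2 : sin ((2 : ℕ) * (π / N)) = 2 * sin ((1 : ℕ) * (π / N)) * cos ((1 : ℕ) * (π / N)) := by
      rw [← sin_two_mul]
      congr 1
      push_cast
      ring
    have e3 : cos ((2 : ℕ) * (π / N)) = 2 * cos ((1 : ℕ) * (π / N)) ^ 2 - 1 := by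
      rw [← cos_two_mul]
      congr 1
      push_cast
      ring
    have e4 : ((2 - 1 * 1 : ℕ) : ℝ) = (1 : ℕ) := by norm_num
    have e5 : ((2 - 2 * 1 : ℕ) : ℝ) = 0 := by norm_num
    have e6 : ((2 * 1 : ℕ) : ℝ) = (2 : ℕ) := by norm_num
    have e7 : ((1 * 1 : ℕ) : ℝ) = (1 : ℕ) := by norm_num
    rw [e4, e5, e6, e7, zero_mul, cos_zero, e2] at hc
    have h2 : sin ((1 : ℕ) * (π / N)) * (2 * cos ((1 : ℕ) * (π / N)) ^ 2 - c) = 0 := by
      linear_combination hc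
    rcases mul_eq_zero.1 h2 with h3 | h3
    · exact absurd h3 s1.ne'
    · rw [e3]
      push_cast at h3 ⊢
      linarith

theorem NTCyl_sin3 (x : ℝ) : sin (3 * x) = sin x * (1 + 2 * cos (2 * x)) := by
  rw [sin_three_mul, cos_two_mul]
  have := sin_sq_add_cos_sq x
  linear_combination -4 * sin x * this

/-- relation (f), (g): `k = 3, 1` -/
theorem NTCyl_relF {N q : ℕ} (hq : 3 ≤ q) (hN : 1 < N) {c : ℚ}
    (h : sin ((3 : ℕ) * (π / N)) * cos ((q - 1 : ℕ) * (π / N)) =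
      c * (sin ((1 : ℕ) * (π / N)) * cos ((q - 3 : ℕ) * (π / N)))) :
    cos ((q + 1 : ℕ) * (π / N)) + cos ((q - 1 : ℕ) * (π / N)) =
      ((c - 1 : ℚ) : ℝ) * cos ((q - 3 : ℕ) * (π / N)) := by
  have s2 : 0 < sin ((1 : ℕ) * (π / N)) := sin_pos' (by norm_num) hN
  have e1 : sin ((3 : ℕ) * (π / N)) = sin ((1 : ℕ) * (π / N)) * (1 + 2 * cos (2 * (π / N))) := by
    rw [Nat.cast_one, one_mul, ← NTCyl_sin3]
    push_cast
    rfl
  have e2 : cos ((q + 1 : ℕ) * (π / N)) = cos ((q - 1 : ℕ) * (π / N)) * cos (2 * (π / N)) -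
      sin ((q - 1 : ℕ) * (π / N)) * sin (2 * (π / N)) := by
    rw [← cos_add]
    congr 1
    rw [Nat.cast_sub (by omega)]
    push_cast
    ring
  have e3 : cos ((q - 3 : ℕ) * (π / N)) = cos ((q - 1 : ℕ) * (π / N)) * cos (2 * (π / N)) +
      sin ((q - 1 : ℕ) * (π / N)) * sin (2 * (π / N)) := by
    rw [← cos_sub]
    congr 1
    rw [Nat.cast_sub (by omega), Nat.cast_sub (by omega)]
    push_cast
    ring
  rw [e1] at h
  have h1 : sin ((1 : ℕ) * (π / N)) * ((1 + 2 * cos (2 * (π / N))) * cos ((q - 1 : ℕ) * (π / N)) -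
      c * cos ((q - 3 : ℕ) * (π / N))) = 0 := by linear_combination h
  rcases mul_eq_zero.1 h1 with h2 | h2
  · exact absurd h2 s2.ne'
  · rw [Rat.cast_sub, Rat.cast_one]
    linear_combination h2 + e2 + e3

/-- `N` odd -/
theorem NTCyl_odd {N q : ℕ} (hq : 3 ≤ q) (hN : 2 * (1 + q) < N) (h2 : ¬ 2 ∣ N) :
    ¬ LatticeTriangle (TN N 1 q) := by
  intro hL
  have hodd : Odd N := Nat.odd_iff.2 (by omega)
  rcases lt_or_ge (2 * (q + 2)) N with h | h
  · obtain ⟨c, hc⟩ := NTCyl_pp (p := 1) (by norm_num) (by omega) (by omega) NTCyl_gcd1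
      (one_dvd _) (one_dvd _) hL (k₁ := 2) (k₂ := 1) (by norm_num) (by norm_num) (by omega)
      (by omega) (by omega) (by omega) (Or.inr (Or.inr hodd))
    rw [mul_one, mul_one] at hc
    obtain ⟨a, rfl⟩ : ∃ a, q = a + 2 := ⟨q - 2, by omega⟩
    have e0 : a + 2 - 1 = a + 1 := by omega
    have e0' : a + 2 - 2 = a := by omega
    rw [e0, e0'] at hc
    refine trB (N := N) (a := a) h2 (by omega) (c - 1) ?_
    have s1 : 0 < sin ((1 : ℕ) * (π / N)) := sin_pos' (by norm_num) (by omega)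
    have e2 : sin ((2 : ℕ) * (π / N)) = 2 * sin ((1 : ℕ) * (π / N)) * cos ((1 : ℕ) * (π / N)) := by
      rw [← sin_two_mul]
      congr 1
      push_cast
      ring
    have e3 : cos ((a + 2 : ℕ) * (π / N)) = cos ((a + 1 : ℕ) * (π / N)) * cos ((1 : ℕ) * (π / N)) -
        sin ((a + 1 : ℕ) * (π / N)) * sin ((1 : ℕ) * (π / N)) := by
      rw [← cos_add]
      congr 1
      push_cast
      ring
    have e4 : cos ((a : ℕ) * (π / N)) = cos ((a + 1 : ℕ) * (π / N)) * cos ((1 : ℕ) * (π / N)) +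
        sin ((a + 1 : ℕ) * (π / N)) * sin ((1 : ℕ) * (π / N)) := by
      rw [← cos_sub]
      congr 1
      push_cast
      ring
    rw [e2] at hc
    have h3 : sin ((1 : ℕ) * (π / N)) * (2 * cos ((1 : ℕ) * (π / N)) *
        cos ((a + 1 : ℕ) * (π / N)) - c * cos ((a : ℕ) * (π / N))) = 0 := by
      linear_combination hc
    rcases mul_eq_zero.1 h3 with h4 | h4
    · exact absurd h4 s1.ne'
    · rw [Rat.cast_sub, Rat.cast_one]
      linear_combination h4 + e3 + e4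
  · have hNe : N = 2 * q + 3 := by omega
    rcases eq_or_lt_of_le hq with h3 | h3
    · subst h3
      have hN9 : N = 9 := by omega
      subst hN9
      exact surv_k3a (N := 9) (p := 1) (q := 3) (by norm_num) (by norm_num) (by norm_num)
        NTCyl_gcd1 hL (by norm_num) (by norm_num)
    · have hqN : ¬ q ∣ N := by
        intro h4
        rw [hNe] at h4
        have h5 : q ∣ 3 := (Nat.dvd_add_right (Dvd.intro_left 2 rfl)).1 h4
        have := Nat.le_of_dvd (by norm_num) h5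
        omega
      obtain ⟨c, hc⟩ := NTCyl_pf (p := 1) (by norm_num) (by omega) (by omega) NTCyl_gcd1
        (one_dvd _) (one_dvd _) hL (k₁ := 1) (k₂ := 2) (by norm_num) (by norm_num) (by omega)
        (by omega) (by omega) (by omega) hqN (Or.inr (Or.inr hodd))
      rw [mul_one, hNe] at hc
      exact trC (p := q) h3 c hc

/-- `N = 2 M`, `q = 3` -/
theorem NTCyl_even3 {M : ℕ} (hM : 5 ≤ M) : ¬ LatticeTriangle (TN (2 * M) 1 3) := by
  intro hL
  rcases eq_or_lt_of_le hM with h5 | h5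
  · subst h5
    obtain ⟨c, hc⟩ := NTCyl_pf (p := 1) (by norm_num) (by omega) (by norm_num) NTCyl_gcd1
      (one_dvd _) (one_dvd _) hL (k₁ := 1) (k₂ := 3) (by norm_num) (by norm_num) (by norm_num)
      (by norm_num) (by norm_num) (by norm_num) (by norm_num) (Or.inl rfl)
    exact trD1 c (by simpa using hc)
  · obtain ⟨c, hc⟩ := NTCyl_pp (p := 1) (by norm_num) (by omega) (by omega) NTCyl_gcd1
      (one_dvd _) (one_dvd _) hL (k₁ := 1) (k₂ := 3) (by norm_num) (by norm_num) (by norm_num)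
      (by norm_num) (by omega) (by omega) (Or.inl rfl)
    have e4 : ((3 - 1 * 1 : ℕ) : ℝ) = (2 : ℕ) := by norm_num
    have e5 : ((3 - 3 * 1 : ℕ) : ℝ) = 0 := by norm_num
    have e6 : ((3 * 1 : ℕ) : ℝ) = (3 : ℕ) := by norm_num
    have e7 : ((1 * 1 : ℕ) : ℝ) = (1 : ℕ) := by norm_num
    have s1 : 0 < sin ((1 : ℕ) * (π / (2 * M : ℕ))) := sin_pos' (by norm_num) (by omega)
    have e1 : sin ((3 : ℕ) * (π / (2 * M : ℕ))) = sin ((1 : ℕ) * (π / (2 * M : ℕ))) *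
        (1 + 2 * cos ((2 : ℕ) * (π / (2 * M : ℕ)))) := by
      have := NTCyl_sin3 ((1 : ℕ) * (π / (2 * M : ℕ)))
      have f1 : (3 : ℝ) * ((1 : ℕ) * (π / (2 * M : ℕ))) = (3 : ℕ) * (π / (2 * M : ℕ)) := by
        push_cast; ring
      have f2 : (2 : ℝ) * ((1 : ℕ) * (π / (2 * M : ℕ))) = (2 : ℕ) * (π / (2 * M : ℕ)) := by
        push_cast; ring
      rw [f1, f2] at this
      exact this
    have e3 : cos ((4 : ℕ) * (π / (2 * M : ℕ))) = 2 * cos ((2 : ℕ) * (π / (2 * M : ℕ))) ^ 2 - 1 := by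
      rw [← cos_two_mul]
      congr 1
      push_cast
      ring
    rw [e4, e5, e6, e7, zero_mul, cos_zero, e1] at hc
    have h2 : sin ((1 : ℕ) * (π / (2 * M : ℕ))) *
        (1 - c * (1 + 2 * cos ((2 : ℕ) * (π / (2 * M : ℕ)))) *
          cos ((2 : ℕ) * (π / (2 * M : ℕ)))) = 0 := by
      linear_combination hc
    rcases mul_eq_zero.1 h2 with h3 | h3
    · exact absurd h3 s1.ne'
    · have hc0 : (c : ℝ) ≠ 0 := by
        intro h0
        rw [h0] at h3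
        norm_num at h3
      refine trD2 (M := M) h5 (1 / c - 1) ?_
      have h4 : (c : ℝ) * (cos ((2 : ℕ) * (π / (2 * M : ℕ))) + cos ((4 : ℕ) * (π / (2 * M : ℕ)))) =
          1 - c := by
        rw [e3]
        linear_combination -h3
      rw [Rat.cast_sub, Rat.cast_div, Rat.cast_one]
      generalize cos ((2 : ℕ) * (π / (2 * M : ℕ))) + cos ((4 : ℕ) * (π / (2 * M : ℕ))) = X at h4 ⊢
      field_simp
      linear_combination h4

/-- `N = 2 M`, `q = M - 2 ≥ 5` -/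
theorem NTCyl_evenE {q : ℕ} (hq : 5 ≤ q) : ¬ LatticeTriangle (TN (2 * (q + 2)) 1 q) := by
  intro hL
  have hqN : ¬ q ∣ 2 * (q + 2) := by
    intro h4
    rw [mul_add] at h4
    have h5 : q ∣ 2 * 2 := (Nat.dvd_add_right (Dvd.intro_left 2 rfl)).1 h4
    have := Nat.le_of_dvd (by norm_num) h5
    omega
  obtain ⟨c, hc⟩ := NTCyl_pf (p := 1) (by norm_num) (by omega) (by omega) NTCyl_gcd1
    (one_dvd _) (one_dvd _) hL (k₁ := 1) (k₂ := 3) (by norm_num) (by norm_num) (by omega)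
    (by omega) (by omega) (by omega) hqN (Or.inl rfl)
  rw [mul_one] at hc
  have hM : ((q + 2 : ℕ) : ℝ) ≠ 0 := by
    have : q + 2 ≠ 0 := by omega
    exact_mod_cast this
  have s1 : 0 < sin ((1 : ℕ) * (π / (2 * (q + 2) : ℕ))) := sin_pos' (by norm_num) (by omega)
  have e1 : sin ((3 : ℕ) * (π / (2 * (q + 2) : ℕ))) = sin ((1 : ℕ) * (π / (2 * (q + 2) : ℕ))) *
      (1 + 2 * cos ((2 : ℕ) * (π / (2 * (q + 2) : ℕ)))) := by
    have := NTCyl_sin3 ((1 : ℕ) * (π / (2 * (q + 2) : ℕ)))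
    have f1 : (3 : ℝ) * ((1 : ℕ) * (π / (2 * (q + 2) : ℕ))) = (3 : ℕ) * (π / (2 * (q + 2) : ℕ)) := by
      push_cast; ring
    have f2 : (2 : ℝ) * ((1 : ℕ) * (π / (2 * (q + 2) : ℕ))) = (2 : ℕ) * (π / (2 * (q + 2) : ℕ)) := by
      push_cast; ring
    rw [f1, f2] at this
    exact this
  have e2 : cos ((q + 1 : ℕ) * (π / (2 * (q + 2) : ℕ))) = sin ((1 : ℕ) * (π / (2 * (q + 2) : ℕ))) := by
    rw [← cos_pi_div_two_sub]
    congr 1
    push_cast at hM ⊢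
    field_simp
    ring
  have e3 : cos ((q - 1 : ℕ) * (π / (2 * (q + 2) : ℕ))) = sin ((3 : ℕ) * (π / (2 * (q + 2) : ℕ))) := by
    rw [← cos_pi_div_two_sub]
    congr 1
    rw [Nat.cast_sub (by omega)]
    push_cast at hM ⊢
    field_simp
    ring
  rw [e2, e3, e1] at hc
  have h2 : sin ((1 : ℕ) * (π / (2 * (q + 2) : ℕ))) *
      (1 - c * (1 + 2 * cos ((2 : ℕ) * (π / (2 * (q + 2) : ℕ))))) = 0 := by
    linear_combination hc
  rcases mul_eq_zero.1 h2 with h3 | h3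
  · exact absurd h3 s1.ne'
  · have hc0 : (c : ℝ) ≠ 0 := by
      intro h0
      rw [h0] at h3
      norm_num at h3
    refine trE (M := q + 2) (by omega) ((1 / c - 1) / 2) ?_
    rw [Rat.cast_div, Rat.cast_sub, Rat.cast_div, Rat.cast_one]
    generalize cos ((2 : ℕ) * (π / (2 * (q + 2) : ℕ))) = X at h3 ⊢
    push_cast
    field_simp
    linear_combination -h3

/-- `N = 2 M`, `4 ≤ q ≤ M - 3` -/
theorem NTCyl_evenF {M q : ℕ} (hq : 4 ≤ q) (hM : q + 3 ≤ M) :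
    ¬ LatticeTriangle (TN (2 * M) 1 q) := by
  intro hL
  have hF : ∃ c : ℚ, cos ((q + 1 : ℕ) * (π / (2 * M : ℕ))) + cos ((q - 1 : ℕ) * (π / (2 * M : ℕ))) =
      ((c - 1 : ℚ) : ℝ) * cos ((q - 3 : ℕ) * (π / (2 * M : ℕ))) := by
    obtain ⟨c, hc⟩ := NTCyl_pp (p := 1) (by norm_num) (by omega) (by omega) NTCyl_gcd1
      (one_dvd _) (one_dvd _) hL (k₁ := 3) (k₂ := 1) (by norm_num) (by norm_num) (by omega)
      (by omega) (by omega) (by omega) (Or.inl rfl)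
    rw [mul_one, mul_one] at hc
    exact ⟨c, NTCyl_relF (N := 2 * M) (by omega) (by omega) hc⟩
  by_cases h2 : 2 ∣ M
  · by_cases hq2 : 2 ∣ q
    · rcases eq_or_lt_of_le hq with h4 | h4
      · subst h4
        obtain ⟨c, hc⟩ := NTCyl_pp (p := 1) (by norm_num) (by omega) (by omega) NTCyl_gcd1
          (one_dvd _) (one_dvd _) hL (k₁ := 4) (k₂ := 2) (by norm_num) (by norm_num) (by omega)
          (by omega) (by omega) (by omega) (Or.inl rfl)
        have e4 : ((4 - 2 * 1 : ℕ) : ℝ) = (2 : ℕ) := by norm_num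
        have e5 : ((4 - 4 * 1 : ℕ) : ℝ) = 0 := by norm_num
        have e6 : ((4 * 1 : ℕ) : ℝ) = (4 : ℕ) := by norm_num
        have e7 : ((2 * 1 : ℕ) : ℝ) = (2 : ℕ) := by norm_num
        have s1 : 0 < sin ((2 : ℕ) * (π / (2 * M : ℕ))) := sin_pos' (by norm_num) (by omega)
        have e1 : sin ((4 : ℕ) * (π / (2 * M : ℕ))) =
            2 * sin ((2 : ℕ) * (π / (2 * M : ℕ))) * cos ((2 : ℕ) * (π / (2 * M : ℕ))) := by
          rw [← sin_two_mul]
          congr 1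
          push_cast
          ring
        have e3 : cos ((4 : ℕ) * (π / (2 * M : ℕ))) =
            2 * cos ((2 : ℕ) * (π / (2 * M : ℕ))) ^ 2 - 1 := by
          rw [← cos_two_mul]
          congr 1
          push_cast
          ring
        rw [e4, e5, e6, e7, zero_mul, cos_zero, e1] at hc
        have h5 : sin ((2 : ℕ) * (π / (2 * M : ℕ))) *
            (2 * cos ((2 : ℕ) * (π / (2 * M : ℕ))) ^ 2 - c) = 0 := by
          linear_combination hc
        rcases mul_eq_zero.1 h5 with h6 | h6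
        · exact absurd h6 s1.ne'
        · refine trF4 (M := M) h2 (by omega) (c - 1) ?_
          rw [Rat.cast_sub, Rat.cast_one]
          linear_combination e3 + h6
      · obtain ⟨c, hc⟩ := hF
        obtain ⟨s, rfl⟩ : ∃ s, q = 2 * s + 4 := ⟨(q - 4) / 2, by omega⟩
        have f1 : 2 * s + 4 + 1 = 2 * (s + 2) + 1 := by ring
        have f2 : 2 * s + 4 - 1 = 2 * (s + 1) + 1 := by omega
        have f3 : 2 * s + 4 - 3 = 2 * s + 1 := by omega
        rw [f1, f2, f3] at hc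
        exact trF2 h2 (by omega) (by omega) _ hc
    · obtain ⟨c, hc⟩ := hF
      obtain ⟨s, rfl⟩ : ∃ s, q = 2 * s + 3 := ⟨(q - 3) / 2, by omega⟩
      have f1 : 2 * s + 3 + 1 = 2 * (s + 2) := by ring
      have f2 : 2 * s + 3 - 1 = 2 * (s + 1) := by omega
      have f3 : 2 * s + 3 - 3 = 2 * s := by omega
      rw [f1, f2, f3] at hc
      exact trF1 h2 (by omega) (by omega) _ hc
  · by_cases hq2 : 2 ∣ q
    · obtain ⟨c, hc⟩ := hF
      obtain ⟨s, rfl⟩ : ∃ s, q = 2 * s + 4 := ⟨(q - 4) / 2, by omega⟩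
      have f1 : 2 * s + 4 + 1 = 2 * (s + 2) + 1 := by ring
      have f2 : 2 * s + 4 - 1 = 2 * (s + 1) + 1 := by omega
      have f3 : 2 * s + 4 - 3 = 2 * s + 1 := by omega
      rw [f1, f2, f3] at hc
      exact trG h2 (by omega) _ hc
    · obtain ⟨c, hc⟩ := NTCyl_pp (p := 1) (by norm_num) (by omega) (by omega) NTCyl_gcd1
        (one_dvd _) (one_dvd _) hL (k₁ := 4) (k₂ := 2) (by norm_num) (by norm_num) (by omega)
        (by omega) (by omega) (by omega) (Or.inl rfl)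
      rw [mul_one, mul_one] at hc
      have h1 := NTCyl_relH (N := 2 * M) (by omega) (by omega) (c := c) hc
      obtain ⟨s, rfl⟩ : ∃ s, q = 2 * (s + 2) + 1 := ⟨(q - 5) / 2, by omega⟩
      refine trH (M := M) (s := s) (by omega) (c - 1) ?_
      have e : 2 * (s + 2) + 1 - 4 = 2 * s + 1 := by omega
      rw [e] at h1
      exact h1

/-- **`p = 1`, `q ≥ 3`.** -/
theorem notlat_p1 {N q : ℕ} (hq : 3 ≤ q) (hN : 2 * (1 + q) < N) (hex : ¬ (N = 12 ∧ q = 4)) :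
    ¬ LatticeTriangle (TN N 1 q) := by
  by_cases h2 : 2 ∣ N
  · obtain ⟨M, rfl⟩ := h2
    rcases eq_or_lt_of_le hq with h3 | h3
    · subst h3
      exact NTCyl_even3 (by omega)
    · rcases lt_or_ge M (q + 3) with h4 | h4
      · have hM : M = q + 2 := by omega
        subst hM
        exact NTCyl_evenE (by omega)
      · exact NTCyl_evenF (by omega) h4
  · exact NTCyl_odd hq hN h2

end Pool.Agent.OBT
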