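import Mathlib
import Pool.Agent.OBT.NTBridge3

/-!
# Lattice triangles survive all the tests
-/

open scoped ComplexConjugate Topology Real
open MeasureTheory Filter

namespace Pool.Agent.OBT

open NT

variable {N p q : ℕ}

theorem surv_of_lattice (h24 : ¬ LatticeTriangle (TN 24 3 8)) (h36 : ¬ LatticeTriangle (TN 36 5 12))
    (hp : 0 < p) (hpq : p ≤ q) (hN : 2 * (p + q) < N)
    (hg : Nat.gcd (Nat.gcd p q) N = 1) (hL : LatticeTriangle (TN N p q)) : Surv N p q := by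
  have hq : 0 < q := by omega
  have hN0 : 0 < N := by omega
  have hA0 : AA N p q 0 = 2 * p := rfl
  have hA1 : AA N p q 1 = 2 * q := rfl
  have hA2 := AA_two hN
  refine ⟨?_, ?_, ?_, ?_, ?_, ?_, ?_, ?_, ?_, ?_⟩
  · intro i j w1 w2 w3 v1 v2 v3 hi hw hv hs
    exact surv_k1 hp hq hN hg hL hi hw hv hs
  · intro i j w1 w2 w3 v1 v2 v3 hi hw hv hs hij h1 h2
    obtain ⟨a1, a2, a3⟩ := Wt_WW hN hw
    obtain ⟨b1, b2, b3⟩ := Wt_WW hN hv
    rw [← K2v_zero hN a2 a3 b2 b3]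
    refine surv_k2 hp hq hN hg hL hi hw hv hs hij 0 ?_
    intro k hk
    fin_cases k
    · exact absurd rfl hk
    · show AA N p q 1 ≤ WW N p q (nres N i) 1
      omega
    · show AA N p q 2 ≤ WW N p q (nres N i) 2
      omega
  · intro i j w1 w2 w3 v1 v2 v3 hi hw hv hs hij h1 h2
    obtain ⟨a1, a2, a3⟩ := Wt_WW hN hw
    obtain ⟨b1, b2, b3⟩ := Wt_WW hN hv
    rw [← K2v_one hN a1 a3 b1 b3]
    refine surv_k2 hp hq hN hg hL hi hw hv hs hij 1 ?_
    intro k hk
    fin_cases k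
    · show AA N p q 0 ≤ WW N p q (nres N i) 0
      omega
    · exact absurd rfl hk
    · show AA N p q 2 ≤ WW N p q (nres N i) 2
      omega
  · intro i j w1 w2 w3 v1 v2 v3 hi hw hv hs hij h1 h2
    obtain ⟨a1, a2, a3⟩ := Wt_WW hN hw
    obtain ⟨b1, b2, b3⟩ := Wt_WW hN hv
    rw [← K2v_two a1 a2 b1 b2]
    refine surv_k2 hp hq hN hg hL hi hw hv hs hij 2 ?_
    intro k hk
    fin_cases k
    · show AA N p q 0 ≤ WW N p q (nres N i) 0
      omega
    · show AA N p q 1 ≤ WW N p q (nres N i) 1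
      omega
    · exact absurd rfl hk
  · intro h2
    exact surv_k3a hp hpq hN hg hL h2
  · intro M hM h2 hpo hqo h
    exact surv_k3b hp hpq hN hg hL hM h2 hpo hqo h
  · intro M hM h2 hpo hqo hS hlt h
    exact surv_k3c hp hN hg hL hM h2 hpo hqo hS hlt h
  · rintro ⟨e1, e2, e3⟩
    have e1' : N = 22 := by exact_mod_cast e1
    have e2' : p = 2 := by exact_mod_cast e2
    have e3' : q = 3 := by exact_mod_cast e3
    subst e1' e2' e3'
    exact surv_k3d hL
  · rintro ⟨e1, e2, e3⟩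
    have e1' : N = 24 := by exact_mod_cast e1
    have e2' : p = 3 := by exact_mod_cast e2
    have e3' : q = 8 := by exact_mod_cast e3
    subst e1' e2' e3'
    exact h24 hL
  · rintro ⟨e1, e2, e3⟩
    have e1' : N = 36 := by exact_mod_cast e1
    have e2' : p = 5 := by exact_mod_cast e2
    have e3' : q = 12 := by exact_mod_cast e3
    subst e1' e2' e3'
    exact h36 hL

theorem tri_of (hp : 0 < p) (hpq : p ≤ q) (hN : 2 * (p + q) < N)
    (hg : Nat.gcd (Nat.gcd p q) N = 1) : Tri N p q := by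
  refine ⟨by exact_mod_cast hp, by exact_mod_cast hpq, by exact_mod_cast hN, ?_⟩
  intro l hl h1 h2 h3
  have h1' : l ∣ p := by exact_mod_cast h1
  have h2' : l ∣ q := by exact_mod_cast h2
  have h3' : l ∣ N := by exact_mod_cast h3
  have h4 : l ∣ Nat.gcd (Nat.gcd p q) N := Nat.dvd_gcd (Nat.dvd_gcd h1' h2') h3'
  rw [hg] at h4
  exact hl.one_lt.ne' (Nat.dvd_one.1 h4)

/-- **The case `p ≥ 2`.** -/
theorem lattice_two_le (h24 : ¬ LatticeTriangle (TN 24 3 8))
    (h36 : ¬ LatticeTriangle (TN 36 5 12))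
    (hp : 2 ≤ p) (hpq : p ≤ q) (hN : 2 * (p + q) < N)
    (hg : Nat.gcd (Nat.gcd p q) N = 1) (hL : LatticeTriangle (TN N p q)) :
    p = 2 ∧ ∃ M : ℕ, N = 2 * M ∧ ¬ 2 ∣ q ∧ 5 ≤ q ∧ q + 4 ≤ M := by
  have T := tri_of (by omega) hpq hN hg
  have S := surv_of_lattice h24 h36 (by omega) hpq hN hg hL
  obtain ⟨e1, M, e2, e3, e4, e5⟩ := nt_main T S (by exact_mod_cast hp)
  exact ⟨by omega, M.toNat, by omega, by omega, by omega, by omega⟩

end Pool.Agent.OBT
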