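import Mathlib
import Pool.Agent.OBT.NTCyl
import Pool.Agent.OBT.NTSurv
import Pool.Agent.OBT.FinMain

/-!
# The classification for normalised triangles
-/

open scoped ComplexConjugate Topology Real

namespace Pool.Agent.OBT

theorem classif_of (h24 : ¬ LatticeTriangle (TN 24 3 8)) (h36 : ¬ LatticeTriangle (TN 36 5 12)) :
    Classif := by
  intro N p q hp hpq hN hg hL
  have hL' : LatticeTriangle (TN N p q) := hL
  rcases lt_or_ge 1 p with h2 | h1
  · exfalso
    obtain ⟨rfl, M, rfl, h3, h4, h5⟩ := lattice_two_le h24 h36 h2 hpq hN hg hL'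
    exact notlat_p2 h3 h4 h5 hL'
  · have hp1 : p = 1 := by omega
    subst hp1
    rcases lt_or_ge q 3 with hq | hq
    · have hq12 : q = 1 ∨ q = 2 := by omega
      rcases hq12 with rfl | rfl
      · exact Or.inl ⟨rfl, rfl⟩
      · by_cases hev : Even N
        · exact Or.inr (Or.inl ⟨rfl, rfl, hev⟩)
        · exfalso
          have h2N : ¬ 2 ∣ N := fun h => hev (even_iff_two_dvd.2 h)
          exact notlat_p1q2 h2N (by omega) hL'
    · by_cases hex : N = 12 ∧ q = 4
      · exact Or.inr (Or.inr ⟨rfl, hex.2, hex.1⟩)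
      · exact absurd hL' (notlat_p1 hq hN hex)

end Pool.Agent.OBT
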