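import Mathlib
import Pool.Agent.OBT.FinConv
import Pool.Agent.OBT.ConvW
import Pool.Agent.OBT.HoMain
import Pool.Agent.OBT.NTClassif
import Pool.Agent.OBT.KillLam

/-!
# The obtuse lattice triangles
-/

open scoped ComplexConjugate Topology Real EuclideanGeometry

namespace Pool.Agent.OBT

theorem convHyp_holds : ConvHyp where
  veech_ := veech_lattice
  ward := ward_lattice
  hooper := hooper_lattice

theorem classification_iff (v : Fin 3 → ℂ) (hv : AffineIndependent ℝ v)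
    (h0 : ∃ r : ℚ, ∠ (v 1) (v 0) (v 2) = r * π) (h1 : ∃ r : ℚ, ∠ (v 2) (v 1) (v 0) = r * π)
    (h01 : ∠ (v 1) (v 0) (v 2) ≤ ∠ (v 2) (v 1) (v 0)) (h2 : π / 2 < ∠ (v 0) (v 2) (v 1)) :
    LatticeTriangle v ↔
    (∃ n : ℕ, 5 ≤ n ∧ ∠ (v 1) (v 0) (v 2) = π / n ∧ ∠ (v 2) (v 1) (v 0) = π / n ∧
      ∠ (v 0) (v 2) (v 1) = (n - 2) * π / n) ∨
    (∃ n : ℕ, 4 ≤ n ∧ ∠ (v 1) (v 0) (v 2) = π / (2 * n) ∧ ∠ (v 2) (v 1) (v 0) = π / n ∧
      ∠ (v 0) (v 2) (v 1) = (2 * n - 3) * π / (2 * n)) ∨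
    (∠ (v 1) (v 0) (v 2) = π / 12 ∧ ∠ (v 2) (v 1) (v 0) = π / 3 ∧
      ∠ (v 0) (v 2) (v 1) = 7 * π / 12) := by
  have hsum := angle_sum v hv
  rw [classification_iff_of (classif_of kill24 kill36) convHyp_holds v hv h0 h1 h01 h2]
  constructor
  · rintro (⟨n, hn, ha, hb⟩ | ⟨n, hn, ha, hb⟩ | ⟨ha, hb⟩)
    · have hn0 : (n : ℝ) ≠ 0 := by
        have : n ≠ 0 := by omega
        exact_mod_cast this
      refine Or.inl ⟨n, hn, ha, hb, ?_⟩
      rw [ha, hb] at hsum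
      have h3 : ∠ (v 0) (v 2) (v 1) = π - π / n - π / n := by linarith
      rw [h3]
      field_simp
      ring
    · have hn0 : (n : ℝ) ≠ 0 := by
        have : n ≠ 0 := by omega
        exact_mod_cast this
      refine Or.inr (Or.inl ⟨n, hn, ha, hb, ?_⟩)
      rw [ha, hb] at hsum
      have h3 : ∠ (v 0) (v 2) (v 1) = π - π / (2 * n) - π / n := by linarith
      rw [h3]
      field_simp
      ring
    · refine Or.inr (Or.inr ⟨ha, hb, ?_⟩)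
      rw [ha, hb] at hsum
      linarith
  · rintro (⟨n, hn, ha, hb, -⟩ | ⟨n, hn, ha, hb, -⟩ | ⟨ha, hb, -⟩)
    · exact Or.inl ⟨n, hn, ha, hb⟩
    · exact Or.inr (Or.inl ⟨n, hn, ha, hb⟩)
    · exact Or.inr (Or.inr ⟨ha, hb⟩)

end Pool.Agent.OBT
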